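import Pool.Agent.CT.HDefs

set_option autoImplicit false

/-! # H4: Montel's theorem along an ultrafilter -/

namespace Pool.Agent.CT

open Set Metric Filter Topology

theorem h4 : Stmt_Montel := by
  intro U hU f hd hm
  have key : ∀ z ∈ U, ∃ w, Tendsto (fun n => f n z) (hyperfilter ℕ : Filter ℕ) (𝓝 w) := by
    intro z hz
    obtain ⟨w, -, hw⟩ := (isCompact_closedBall (0 : ℂ) 1).ultrafilter_le_nhds
      ((hyperfilter ℕ).map (fun n => f n z)) (by
        rw [Filter.le_principal_iff, Ultrafilter.coe_map]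
        exact Filter.mem_map.2 (Filter.univ_mem' (fun n => hm n hz)))
    exact ⟨w, hw⟩
  choose! F hF using key
  refine ⟨hyperfilter ℕ, F, inferInstance, Nat.hyperfilter_le_atTop, ?_⟩
  rw [Metric.tendstoLocallyUniformlyOn_iff]
  intro ε hε x hx
  obtain ⟨R, hR, hRU⟩ := Metric.isOpen_iff.1 hU x hx
  have hlip : ∀ n, ∀ y ∈ ball x R, dist (f n y) (f n x) ≤ 2 / R * dist y x := by
    intro n y hy
    refine Complex.dist_le_div_mul_dist_of_mapsTo_ball ((hd n).mono hRU) (fun z hz => ?_) hy
    have h1 := hm n (hRU hz)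
    have h2 := hm n hx
    rw [mem_closedBall_zero_iff] at h1 h2
    rw [mem_closedBall, dist_eq_norm]
    calc ‖f n z - f n x‖ ≤ ‖f n z‖ + ‖f n x‖ := norm_sub_le _ _
      _ ≤ 2 := by linarith
  have hlipF : ∀ y ∈ ball x R, dist (F y) (F x) ≤ 2 / R * dist y x := fun y hy =>
    le_of_tendsto ((hF y (hRU hy)).dist (hF x hx)) (Eventually.of_forall fun n => hlip n y hy)
  have hδ : 0 < min R (ε * R / 8) := lt_min hR (by positivity)
  refine ⟨ball x (min R (ε * R / 8)), mem_nhdsWithin_of_mem_nhds (ball_mem_nhds x hδ), ?_⟩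
  filter_upwards [(Metric.tendsto_nhds.1 (hF x hx)) (ε / 4) (by positivity)] with n hn y hy
  have hyR : y ∈ ball x R := ball_subset_ball (min_le_left _ _) hy
  have hyd : dist y x < ε * R / 8 := lt_of_lt_of_le hy (min_le_right _ _)
  have h3 : 2 / R * dist y x < ε / 4 := by
    have : 2 / R * dist y x < 2 / R * (ε * R / 8) := by
      apply mul_lt_mul_of_pos_left hyd
      positivity
    have h4 : 2 / R * (ε * R / 8) = ε / 4 := by
      field_simp
      ring
    linarith
  have h5 := hlip n y hyR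
  have h6 := hlipF y hyR
  calc dist (F y) (f n y) ≤ dist (F y) (F x) + dist (F x) (f n x) + dist (f n x) (f n y) :=
        dist_triangle4 _ _ _ _
    _ < ε := by
        rw [dist_comm (F x) (f n x), dist_comm (f n x) (f n y)]
        linarith

end Pool.Agent.CT
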