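import Pool.Agent.CT.HDefs

set_option autoImplicit false

/-! # H5: Hurwitz's theorem on injective limits -/

namespace Pool.Agent.CT

open Set Metric Filter Topology

theorem h5 : Stmt_Hurwitz := by
  intro U hU hUc f F l hl hd hinj hF hne z1 hz1 z2 hz2 hzz
  by_contra hz12
  have hFd : DifferentiableOn ℂ F U := hF.differentiableOn (Eventually.of_forall hd) hU
  have hFa : AnalyticOnNhd ℂ (fun z => F z - F z1) U := fun z hz =>
    ((hFd.analyticAt (hU.mem_nhds hz))).sub analyticAt_const
  -- zeros are isolated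
  have hiso : ∀ᶠ z in 𝓝[≠] z2, F z - F z1 ≠ 0 := by
    rcases (hFa z2 hz2).eventually_eq_zero_or_eventually_ne_zero with h | h
    · exfalso
      have h0 := hFa.eqOn_zero_of_preconnected_of_eventuallyEq_zero hUc hz2 h
      obtain ⟨z, hz, w, hw, hzw⟩ := hne
      have e1 := h0 hz
      have e2 := h0 hw
      simp only [Pi.zero_apply] at e1 e2
      exact hzw ((sub_eq_zero.1 e1).trans (sub_eq_zero.1 e2).symm)
    · exact h
  rw [eventually_nhdsWithin_iff, Metric.eventually_nhds_iff] at hiso
  obtain ⟨r1, hr1, hiso⟩ := hiso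
  obtain ⟨r2, hr2, hr2U⟩ := Metric.isOpen_iff.1 hU z2 hz2
  have hdz : 0 < dist z1 z2 := dist_pos.2 hz12
  set r := min (min (r1 / 2) (r2 / 2)) (dist z1 z2 / 2) with hr
  have hr0 : 0 < r := lt_min (lt_min (by positivity) (by positivity)) (by positivity)
  have hrr1 : r < r1 := lt_of_le_of_lt ((min_le_left _ _).trans (min_le_left _ _)) (by linarith)
  have hrr2 : r < r2 := lt_of_le_of_lt ((min_le_left _ _).trans (min_le_right _ _)) (by linarith)
  have hrd : r < dist z1 z2 := lt_of_le_of_lt (min_le_right _ _) (by linarith)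
  have hcU : closedBall z2 r ⊆ U := (closedBall_subset_ball hrr2).trans hr2U
  -- minimum on the circle
  obtain ⟨w0, hw0, hmin⟩ := (isCompact_sphere z2 r).exists_isMinOn
    (NormedSpace.sphere_nonempty.2 hr0.le) (f := fun z => ‖F z - F z1‖)
    (((hFd.continuousOn.mono (sphere_subset_closedBall.trans hcU)).sub
      continuousOn_const).norm)
  set m := ‖F w0 - F z1‖ with hm
  have hm0 : 0 < m := by
    rw [hm, norm_pos_iff]
    refine hiso (y := w0) ?_ ?_
    · rw [mem_sphere.1 hw0]; exact hrr1
    · intro h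
      rw [mem_singleton_iff] at h
      rw [h, mem_sphere, dist_self] at hw0
      exact hr0.ne hw0
  -- uniform closeness on the closed ball and at z1
  have hK : IsCompact (closedBall z2 r ∪ {z1}) := (isCompact_closedBall _ _).union isCompact_singleton
  have hKU : closedBall z2 r ∪ {z1} ⊆ U := union_subset hcU (singleton_subset_iff.2 hz1)
  have hunif := (tendstoLocallyUniformlyOn_iff_tendstoUniformlyOn_of_compact hK).1 (hF.mono hKU)
  rw [Metric.tendstoUniformlyOn_iff] at hunif
  obtain ⟨n, hn⟩ := (hunif (m / 8) (by positivity)).exists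
  have hz1K : z1 ∈ closedBall z2 r ∪ {z1} := Or.inr rfl
  have hclose : ∀ z ∈ closedBall z2 r, ‖(F z - F z1) - (f n z - f n z1)‖ < m / 4 := by
    intro z hz
    have h1 := hn z (Or.inl hz)
    have h2 := hn z1 hz1K
    rw [dist_eq_norm] at h1 h2
    calc ‖(F z - F z1) - (f n z - f n z1)‖ = ‖(F z - f n z) - (F z1 - f n z1)‖ := by
          congr 1; ring
      _ ≤ ‖F z - f n z‖ + ‖F z1 - f n z1‖ := norm_sub_le _ _
      _ < m / 4 := by linarith
  have hne0 : ∀ z ∈ closedBall z2 r, f n z - f n z1 ≠ 0 := by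
    intro z hz h
    have h1 := hinj n (hcU hz) hz1 (sub_eq_zero.1 h)
    rw [h1, mem_closedBall] at hz
    linarith
  -- the maximum principle for the inverse
  have hdc : DiffContOnCl ℂ (fun z => (f n z - f n z1)⁻¹) (ball z2 r) := by
    refine DifferentiableOn.diffContOnCl ?_
    rw [closure_ball _ hr0.ne']
    exact (((hd n).mono hcU).sub (differentiableOn_const _)).inv hne0
  have hmax := Complex.norm_le_of_forall_mem_frontier_norm_le (U := ball z2 r)
    isBounded_ball hdc (C := (3 * m / 4)⁻¹) (by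
      intro z hz
      rw [frontier_ball _ hr0.ne'] at hz
      have h1 : m ≤ ‖F z - F z1‖ := hmin hz
      have h2 := hclose z (sphere_subset_closedBall hz)
      rw [norm_inv]
      apply inv_anti₀ (by positivity)
      have h3 : ‖F z - F z1‖ - ‖f n z - f n z1‖ ≤ ‖(F z - F z1) - (f n z - f n z1)‖ :=
        norm_sub_norm_le _ _
      linarith) (z := z2) (subset_closure (mem_ball_self hr0))
  rw [norm_inv] at hmax
  have hz2c : z2 ∈ closedBall z2 r := mem_closedBall_self hr0.le
  have h4 := hclose z2 hz2c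
  rw [← hzz, sub_self, zero_sub, norm_neg] at h4
  have h5 : 0 < ‖f n z2 - f n z1‖ := norm_pos_iff.2 (hne0 z2 hz2c)
  have h6 : 3 * m / 4 ≤ ‖f n z2 - f n z1‖ := (inv_le_inv₀ h5 (by positivity)).1 hmax
  linarith

end Pool.Agent.CT
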