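import Pool.Agent.CT.HDefs

set_option autoImplicit false

/-! # H6: injective holomorphic maps are open and have holomorphic inverses -/

namespace Pool.Agent.CT

open Set Metric Filter Topology

theorem h6 : Stmt_HoloInv := by
  intro U hU f hd hinj
  have hfa : ∀ z ∈ U, AnalyticAt ℂ f z := fun z hz => hd.analyticAt (hU.mem_nhds hz)
  have hnc : ∀ z ∈ U, ¬ ∀ᶠ w in 𝓝 z, f w = f z := by
    intro z hz h
    have h1 : ∀ᶠ w in 𝓝 z, f w = f z ∧ w ∈ U := h.and (hU.mem_nhds hz)
    have h2 : ∀ᶠ w in 𝓝[≠] z, (f w = f z ∧ w ∈ U) ∧ w ∈ ({z}ᶜ : Set ℂ) :=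
      (h1.filter_mono nhdsWithin_le_nhds).and self_mem_nhdsWithin
    obtain ⟨w, ⟨hw, hwU⟩, hwz⟩ := h2.exists
    exact hwz (hinj hwU hz hw)
  have hop : ∀ z ∈ U, 𝓝 (f z) ≤ map f (𝓝 z) := fun z hz =>
    ((hfa z hz).eventually_constant_or_nhds_le_map_nhds).resolve_left (hnc z hz)
  have hopen : IsOpen (f '' U) := by
    rw [isOpen_iff_mem_nhds]
    rintro _ ⟨z, hz, rfl⟩
    exact hop z hz (Filter.mem_map.2
      (Filter.mem_of_superset (hU.mem_nhds hz) (subset_preimage_image f U)))
  set g := Function.invFunOn f U with hgdef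
  have hg : ∀ z ∈ U, g (f z) = z := fun z hz => hinj.leftInvOn_invFunOn hz
  have hgl : ∀ z ∈ U, ∀ᶠ w in 𝓝 z, g (f w) = w := fun z hz => by
    filter_upwards [hU.mem_nhds hz] with w hw
    exact hg w hw
  have hgc : ∀ z ∈ U, Tendsto g (𝓝 (f z)) (𝓝 z) := by
    intro z hz
    have h1 := Filter.map_mono (m := g) (hop z hz)
    rw [Filter.map_map] at h1
    refine le_trans h1 ?_
    rw [Filter.map_congr (m₁ := g ∘ f) (m₂ := id) (hgl z hz), Filter.map_id]
  have hgd : ∀ z ∈ U, deriv f z ≠ 0 → DifferentiableAt ℂ g (f z) := fun z hz h0 =>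
    ((hfa z hz).hasStrictDerivAt.to_local_left_inverse h0 (hgl z hz)).hasDerivAt.differentiableAt
  have hder : ∀ z ∈ U, deriv f z ≠ 0 := by
    intro z hz h0
    -- critical points are isolated
    have hiso : ∀ᶠ w in 𝓝[≠] z, deriv f w ≠ 0 := by
      rcases (hfa z hz).deriv.eventually_eq_zero_or_eventually_ne_zero with h | h
      · exfalso
        obtain ⟨r, hr, hr2⟩ := Metric.eventually_nhds_iff_ball.1 (h.and (hU.mem_nhds hz))
        apply hnc z hz
        filter_upwards [ball_mem_nhds z hr] with w hw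
        exact isOpen_ball.is_const_of_deriv_eq_zero (convex_ball z r).isPreconnected
          (hd.mono (fun y hy => (hr2 y hy).2)) (fun y hy => (hr2 y hy).1) hw (mem_ball_self hr)
      · exact h
    have hgne : Tendsto g (𝓝[≠] (f z)) (𝓝[≠] z) := by
      rw [tendsto_nhdsWithin_iff]
      refine ⟨(hgc z hz).mono_left nhdsWithin_le_nhds, ?_⟩
      have h1 : ∀ᶠ w in 𝓝[≠] (f z), w ∈ f '' U ∧ w ∈ ({f z}ᶜ : Set ℂ) :=
        (Filter.Eventually.filter_mono nhdsWithin_le_nhds
          (hopen.mem_nhds (mem_image_of_mem f hz))).and self_mem_nhdsWithin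
      filter_upwards [h1] with w hw
      obtain ⟨⟨y, hy, rfl⟩, hw2⟩ := hw
      rw [hg y hy]
      intro h
      rw [mem_singleton_iff] at h
      exact hw2 (by rw [h]; rfl)
    have hdp : ∀ᶠ w in 𝓝[≠] (f z), DifferentiableAt ℂ g w := by
      have h1 := hgne.eventually hiso
      have h2 : ∀ᶠ w in 𝓝[≠] (f z), w ∈ f '' U :=
        Filter.Eventually.filter_mono nhdsWithin_le_nhds
          (hopen.mem_nhds (mem_image_of_mem f hz))
      filter_upwards [h1, h2] with w hw hw2
      obtain ⟨y, hy, rfl⟩ := hw2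
      rw [hg y hy] at hw
      exact hgd y hy hw
    have hcont : ContinuousAt g (f z) := by
      have h1 := hgc z hz
      rw [ContinuousAt, hg z hz]
      exact h1
    have hga := Complex.analyticAt_of_differentiable_on_punctured_nhds_of_continuousAt hdp hcont
    have h1 : HasDerivAt (fun w => g (f w)) (deriv g (f z) * deriv f z) z :=
      hga.differentiableAt.hasDerivAt.comp z (hfa z hz).differentiableAt.hasDerivAt
    have h2 : HasDerivAt (fun w => g (f w)) 1 z :=
      (hasDerivAt_id z).congr_of_eventuallyEq (hgl z hz)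
    have h3 := h1.unique h2
    rw [h0, mul_zero] at h3
    exact zero_ne_one h3
  refine ⟨hopen, hder, g, ?_, hg⟩
  rintro _ ⟨z, hz, rfl⟩
  exact (hgd z hz (hder z hz)).differentiableWithinAt

end Pool.Agent.CT
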