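import Pool.Agent.CT.HDefs

set_option autoImplicit false

/-! # H7: Koebe's square root step -/

namespace Pool.Agent.CT

open Set Metric Filter Topology ComplexConjugate

/-- The Moebius transformation of the disc with zero `a`. -/
noncomputable def h7_mob (a z : ℂ) : ℂ := (z - a) / (1 - conj a * z)

theorem h7_den {a z : ℂ} (ha : ‖a‖ < 1) (hz : ‖z‖ ≤ 1) : 1 - conj a * z ≠ 0 := by
  intro h
  have h1 : conj a * z = 1 := (sub_eq_zero.1 h).symm
  have h2 : ‖a‖ * ‖z‖ = 1 := by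
    rw [← Complex.norm_conj a, ← norm_mul, h1, norm_one]
  nlinarith [norm_nonneg a, norm_nonneg z]

theorem h7_sq (a : ℂ) : a * conj a = ((‖a‖ ^ 2 : ℝ) : ℂ) := by
  rw [Complex.mul_conj, Complex.normSq_eq_norm_sq]

theorem h7_norm_lt {a z : ℂ} (ha : ‖a‖ < 1) (hz : ‖z‖ < 1) : ‖h7_mob a z‖ < 1 := by
  have hden := h7_den ha hz.le
  rw [h7_mob, norm_div, div_lt_one (norm_pos_iff.2 hden)]
  have key : ‖1 - conj a * z‖ ^ 2 - ‖z - a‖ ^ 2 = (1 - ‖a‖ ^ 2) * (1 - ‖z‖ ^ 2) := by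
    simp only [← Complex.normSq_eq_norm_sq, Complex.normSq_apply, Complex.sub_re, Complex.sub_im,
      Complex.mul_re, Complex.mul_im, Complex.conj_re, Complex.conj_im, Complex.one_re,
      Complex.one_im]
    ring
  have h1 : 0 < (1 - ‖a‖ ^ 2) * (1 - ‖z‖ ^ 2) := by
    apply mul_pos
    · nlinarith [norm_nonneg a]
    · nlinarith [norm_nonneg z]
  have h2 : ‖z - a‖ ^ 2 < ‖1 - conj a * z‖ ^ 2 := by linarith
  exact lt_of_pow_lt_pow_left₀ 2 (norm_nonneg _) h2

theorem h7_deriv {a z : ℂ} (ha : ‖a‖ < 1) (hz : ‖z‖ ≤ 1) :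
    HasDerivAt (h7_mob a) ((1 - a * conj a) / (1 - conj a * z) ^ 2) z := by
  have h1 : HasDerivAt (fun z : ℂ => z - a) 1 z := (hasDerivAt_id z).sub_const a
  have h2 : HasDerivAt (fun z : ℂ => 1 - conj a * z) (-(conj a)) z := by
    have := ((hasDerivAt_id z).const_mul (conj a)).const_sub 1
    simpa using this
  have h3 := h1.div h2 (h7_den ha hz)
  refine h3.congr_deriv ?_
  congr 1
  ring

theorem h7_inj {a z y : ℂ} (ha : ‖a‖ < 1) (hz : ‖z‖ ≤ 1) (hy : ‖y‖ ≤ 1)
    (h : h7_mob a z = h7_mob a y) : z = y := by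
  rw [h7_mob, h7_mob, div_eq_div_iff (h7_den ha hz) (h7_den ha hy)] at h
  have h1 : (1 - conj a * a) * (z - y) = 0 := by linear_combination h
  have h2 := (mul_eq_zero.1 h1).resolve_left (h7_den ha ha.le)
  exact sub_eq_zero.1 h2

theorem h7 : Stmt_Koebe := by
  intro U hU hUc p hp f hd hinj hmaps hfp hf' w hw hwU
  rw [mem_ball_zero_iff] at hw
  have hfn : ∀ z ∈ U, ‖f z‖ < 1 := fun z hz => mem_ball_zero_iff.1 (hmaps hz)
  set F : ℂ → ℂ := fun z => h7_mob w (f z) with hF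
  have hFn : ∀ z ∈ U, ‖F z‖ < 1 := fun z hz => h7_norm_lt hw (hfn z hz)
  have hF0 : ∀ z ∈ U, F z ≠ 0 := by
    intro z hz h
    rw [hF] at h
    simp only [h7_mob] at h
    rcases div_eq_zero_iff.1 h with h | h
    · exact hwU ⟨z, hz, sub_eq_zero.1 h⟩
    · exact h7_den hw (hfn z hz).le h
  have hFd : ∀ z ∈ U, DifferentiableAt ℂ F z := fun z hz =>
    ((h7_deriv hw (hfn z hz).le).differentiableAt).comp z (hd.differentiableAt (hU.mem_nhds hz))
  have hFc : ContinuousOn F U := fun z hz => (hFd z hz).continuousAt.continuousWithinAt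
  obtain ⟨h, hhc, hh⟩ := Complex.exists_continuousOn_pow_eq hUc hU hFc (by
    rintro ⟨z, hz, h0⟩
    exact hF0 z hz h0) two_ne_zero
  have hhn : ∀ z ∈ U, ‖h z‖ < 1 := by
    intro z hz
    have h1 : ‖h z‖ ^ 2 < 1 := by
      rw [← norm_pow, hh]
      exact hFn z hz
    nlinarith [norm_nonneg (h z)]
  have hh0 : ∀ z ∈ U, h z ≠ 0 := by
    intro z hz h0
    apply hF0 z hz
    rw [← hh z, h0]
    ring
  have hhd : ∀ z ∈ U, DifferentiableAt ℂ h z := by
    intro z hz
    have hs := hasStrictDerivAt_pow 2 (h z)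
    have hne : ((2 : ℕ) : ℂ) * h z ^ (2 - 1) ≠ 0 := by
      simp [hh0 z hz]
    have hca : ContinuousAt h z := hhc.continuousAt (hU.mem_nhds hz)
    have h1 := hca.eventually (hs.eventually_left_inverse hne)
    have h2 := (hs.to_localInverse hne).hasDerivAt.differentiableAt
    rw [hh z] at h2
    have h3 : DifferentiableAt ℂ (fun x => hs.localInverse _ _ _ hne (F x)) z :=
      h2.comp z (hFd z hz)
    refine h3.congr_of_eventuallyEq ?_
    filter_upwards [h1] with x hx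
    rw [← hh x]
    exact hx.symm
  have hb := hhn p hp
  refine ⟨fun z => h7_mob (h p) (h z), ?_, ?_, ?_, ?_, ?_⟩
  · intro z hz
    exact (((h7_deriv hb (hhn z hz).le).differentiableAt).comp z (hhd z hz)).differentiableWithinAt
  · intro x hx y hy hxy
    have h1 := h7_inj hb (hhn x hx).le (hhn y hy).le hxy
    have h2 : F x = F y := by rw [← hh x, ← hh y, h1]
    have h3 := h7_inj hw (hfn x hx).le (hfn y hy).le h2
    exact hinj hx hy h3
  · intro z hz
    rw [mem_ball_zero_iff]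
    exact h7_norm_lt hb (hhn z hz)
  · simp [h7_mob]
  · -- the derivatives
    have hd1 : HasDerivAt F ((1 - w * conj w) * deriv f p) p := by
      have h1 := (h7_deriv hw (hfn p hp).le).comp p
        (hd.differentiableAt (hU.mem_nhds hp)).hasDerivAt
      rw [hfp] at h1
      refine h1.congr_deriv ?_
      simp
    have hd2 : HasDerivAt F (2 * h p * deriv h p) p := by
      have h1 := (hhd p hp).hasDerivAt.pow 2
      have h2 : (fun z => h z ^ 2) = F := funext hh
      have h3 : HasDerivAt (fun z => h z ^ 2) (((2 : ℕ) : ℂ) * h p ^ (2 - 1) * deriv h p) p := h1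
      rw [h2] at h3
      simpa using h3
    have hd3 : HasDerivAt (fun z => h7_mob (h p) (h z))
        ((1 - h p * conj (h p)) / (1 - conj (h p) * h p) ^ 2 * deriv h p) p :=
      (h7_deriv hb hb.le).comp p (hhd p hp).hasDerivAt
    rw [hd3.deriv]
    have heq : 2 * h p * deriv h p = (1 - w * conj w) * deriv f p := hd2.unique hd1
    have hbw : ‖h p‖ ^ 2 = ‖w‖ := by
      rw [← norm_pow, hh p]
      simp [hF, h7_mob, hfp]
    set b := ‖h p‖ with hbdef
    have hb0 : 0 < b := norm_pos_iff.2 (hh0 p hp)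
    have e1 : ‖1 - w * conj w‖ = 1 - ‖w‖ ^ 2 := by
      rw [h7_sq]
      rw [show (1 : ℂ) - ((‖w‖ ^ 2 : ℝ) : ℂ) = ((1 - ‖w‖ ^ 2 : ℝ) : ℂ) by push_cast; ring,
        Complex.norm_real, Real.norm_eq_abs, abs_of_nonneg]
      nlinarith [norm_nonneg w]
    have e2 : ‖1 - h p * conj (h p)‖ = 1 - b ^ 2 := by
      rw [h7_sq]
      rw [show (1 : ℂ) - ((‖h p‖ ^ 2 : ℝ) : ℂ) = ((1 - ‖h p‖ ^ 2 : ℝ) : ℂ) by push_cast; ring,
        Complex.norm_real, Real.norm_eq_abs, abs_of_nonneg]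
      nlinarith [norm_nonneg (h p)]
    have e3 : ‖1 - conj (h p) * h p‖ = 1 - b ^ 2 := by
      rw [mul_comm, e2]
    have e4 : 2 * b * ‖deriv h p‖ = (1 - ‖w‖ ^ 2) * ‖deriv f p‖ := by
      have := congrArg norm heq
      rw [norm_mul, norm_mul, norm_mul, e1] at this
      simpa using this
    have hpos : 0 < 1 - b ^ 2 := by nlinarith
    rw [norm_mul, norm_div, norm_pow, e2, e3]
    have e5 : (1 - b ^ 2) / (1 - b ^ 2) ^ 2 * ‖deriv h p‖ = ‖deriv h p‖ / (1 - b ^ 2) := by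
      field_simp
    rw [e5, lt_div_iff₀ hpos]
    have hfpos : 0 < ‖deriv f p‖ := norm_pos_iff.2 hf'
    rw [← hbw] at e4
    have e6 : ‖deriv f p‖ * (1 - b ^ 2) * (2 * b) < ‖deriv h p‖ * (2 * b) := by
      have e7 : ‖deriv h p‖ * (2 * b) = (1 - (b ^ 2) ^ 2) * ‖deriv f p‖ := by
        rw [← e4]; ring
      rw [e7]
      have e8 : (1 - (b ^ 2) ^ 2) * ‖deriv f p‖ - ‖deriv f p‖ * (1 - b ^ 2) * (2 * b)
          = ‖deriv f p‖ * (1 - b ^ 2) * (1 - b) ^ 2 := by ring
      have e9 : 0 < ‖deriv f p‖ * (1 - b ^ 2) * (1 - b) ^ 2 := by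
        apply mul_pos (mul_pos hfpos hpos)
        have : 0 < 1 - b := by linarith
        positivity
      linarith
    exact lt_of_mul_lt_mul_right e6 (by positivity)

end Pool.Agent.CT
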