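import Pool.Agent.CT.DDefs

set_option autoImplicit false

/-! # D6: positions of the boundary are admissible -/

namespace Pool.Agent.CT

open Set Metric

section

variable {V E F : Type} {M : Inc V E F} {D : Set F} {n : ℕ} {x : ℤ → V} {y : ℤ → E}

theorem cD6_per {C : Set E} (h : IsCurve M C n x y) (i : ℤ) : x (i + n) = x i :=
  (h.x_eq _ _).2 ⟨1, by ring⟩

theorem cD6_frAdj (hn : 3 ≤ n) (h : IsCurve M (fr M D) n x y) (i : ℤ) :
    FrAdj M D (x i) (x (i + 1)) := by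
  refine ⟨fun he => ?_, y i, (h.mem _).2 ⟨i, rfl⟩, (h.ve i _).2 (Or.inl rfl),
    (h.ve i _).2 (Or.inr rfl)⟩
  have h1 := (h.x_eq i (i + 1)).1 he
  have h2 : (n : ℤ) ∣ 1 := by
    have : i - (i + 1) = -1 := by ring
    rw [this] at h1
    exact (dvd_neg.1 h1)
  have h3 : (n : ℤ) ≤ 1 := Int.le_of_dvd one_pos h2
  omega

theorem cD6_frAdj_symm {u v : V} (h : FrAdj M D u v) : FrAdj M D v u := by
  obtain ⟨h1, e, h2, h3, h4⟩ := h
  exact ⟨h1.symm, e, h2, h4, h3⟩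

theorem cD6_path (hn : 3 ≤ n) (h : IsCurve M (fr M D) n x y) (S : V → Prop) (a : ℤ) (k : ℕ)
    (hS : ∀ l, a ≤ l → l ≤ a + k → S (x l)) :
    Relation.ReflTransGen (fun a b => FrAdj M D a b ∧ S a ∧ S b) (x a) (x (a + k)) := by
  induction k with
  | zero => simpa using Relation.ReflTransGen.refl
  | succ k ih =>
    have h1 := ih (fun l h1 h2 => hS l h1 (by push_cast; omega))
    refine h1.tail ?_
    have e : a + ((k + 1 : ℕ) : ℤ) = a + k + 1 := by push_cast; ring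
    rw [e]
    refine ⟨cD6_frAdj hn h _, hS _ (by omega) (by push_cast; omega), ?_⟩
    exact hS _ (by omega) (by push_cast; omega)

theorem cD6_symm {S : V → Prop} {u v : V}
    (h : Relation.ReflTransGen (fun a b => FrAdj M D a b ∧ S a ∧ S b) u v) :
    Relation.ReflTransGen (fun a b => FrAdj M D a b ∧ S a ∧ S b) v u := by
  induction h with
  | refl => exact Relation.ReflTransGen.refl
  | tail _ h2 ih => exact Relation.ReflTransGen.head ⟨cD6_frAdj_symm h2.1, h2.2.2, h2.2.1⟩ ih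

theorem cD6_seg {φ : V → ℂ} {C : Set E} (h : IsCurve M C n x y) (i : ℤ) :
    seg M φ (y i) = segment ℝ (φ (x i)) (φ (x (i + 1))) := by
  have e : {v | M.ve v (y i)} = {x i, x (i + 1)} := by
    ext v
    exact h.ve i v
  rw [seg, e, Set.image_pair, convexHull_pair]

end

theorem cD6 (h1 : Stmt_FrCycle) (h2 : Stmt_SidePos) (h3 : Stmt_ArcGeom) (h4 : Stmt_PolyGeom) :
    Stmt_Adm := by
  intro V E F M D hD c P φ hP hφ
  obtain ⟨n, q, x, y, s, t, X, Y, hn, hC, hs, hsq, hcor, hbd, hvt, -, htD, hX, hXs⟩ :=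
    h1 V E F M D hD
  have hside := (h2 V E F M D hD c P φ hφ).1 n x y hC
  have hz : StrictPoly q (fun j => P (X j).1) := hP q X Y hX
  have hzφ : ∀ j, P (X j).1 = φ (x (s j)) := by
    intro j
    rw [hXs j]
    refine (hφ.1 _ ?_).symm
    intro hu
    exact hu.2 ((hcor (s j)).2 ⟨j, rfl⟩)
  have hper : ∀ i, φ (x (i + n)) = φ (x i) := fun i => by rw [cD6_per hC]
  have hpos : ∀ j i, s j ≤ i → i ≤ s (j + 1) → φ (x i) = P (X j).1 +
      ((((i - s j : ℤ) : ℝ) / ((s (j + 1) - s j : ℤ) : ℝ) : ℝ) : ℂ) *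
        (P (X (j + 1)).1 - P (X j).1) := by
    intro j i hi hi'
    rw [hzφ j, hzφ (j + 1)]
    refine hside (s j) (s (j + 1)) (hs (by omega)) ?_ i hi hi'
    intro k hk1 hk2 hk
    obtain ⟨j', rfl⟩ := (hcor k).1 hk
    have a1 := hs.lt_iff_lt.1 hk1
    have a2 := hs.lt_iff_lt.1 hk2
    omega
  obtain ⟨A1, A2, A3, A4, A5, A6, A7⟩ := h3 n q (fun j => P (X j).1) (fun i => φ (x i)) s hz hs
    hsq hper hpos
  have hrange : φ '' {v | BdV M.toInc D v} = range fun i => φ (x i) := by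
    ext w
    constructor
    · rintro ⟨v, hv, rfl⟩
      obtain ⟨i, rfl⟩ := (hbd v).1 hv
      exact ⟨i, rfl⟩
    · rintro ⟨i, rfl⟩
      exact ⟨x i, (hbd _).2 ⟨i, rfl⟩, rfl⟩
  have hcorn : φ '' {v | Corner M.toInc D v} = range fun j => P (X j).1 := by
    ext w
    constructor
    · rintro ⟨v, hv, rfl⟩
      have hb : BdV M.toInc D v := by
        obtain ⟨h5, f, g, -, h6, -, h7, -⟩ := hv
        exact ⟨h5, f, h6, h7⟩
      obtain ⟨i, rfl⟩ := (hbd v).1 hb
      obtain ⟨j, rfl⟩ := (hcor i).1 hv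
      exact ⟨j, hzφ j⟩
    · rintro ⟨j, rfl⟩
      exact ⟨x (s j), (hcor _).2 ⟨j, rfl⟩, (hzφ j).symm⟩
  constructor
  · -- arc
    intro w hw c' u v hu hv hcu hcv
    obtain ⟨i, rfl⟩ := (hbd u).1 hu
    obtain ⟨k0, rfl⟩ := (hbd v).1 hv
    have hn0 : (0 : ℤ) < n := by omega
    obtain ⟨k, hk, hik, hkn⟩ : ∃ k : ℤ, x k = x k0 ∧ i ≤ k ∧ k ≤ i + n := by
      refine ⟨i + (k0 - i) % n, ?_, ?_, ?_⟩
      · rw [hC.x_eq]
        refine ⟨-((k0 - i) / n), ?_⟩
        have := Int.emod_add_mul_ediv (k0 - i) n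
        linear_combination this
      · have := Int.emod_nonneg (k0 - i) hn0.ne'
        omega
      · have := Int.emod_lt_of_pos (k0 - i) hn0
        omega
    rw [← hk] at hcv ⊢
    rcases A1 w hw c' i k hik hkn hcu hcv with h5 | h5
    · have h6 := cD6_path hn hC (fun v => c' < dir w (φ v)) i (k - i).toNat
        (fun l hl hl' => h5 l hl (by omega))
      have e : i + ((k - i).toNat : ℤ) = k := by omega
      rw [e] at h6
      exact h6
    · have h6 := cD6_path hn hC (fun v => c' < dir w (φ v)) k (i + n - k).toNat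
        (fun l hl hl' => h5 l hl (by omega))
      have e : k + ((i + n - k).toNat : ℤ) = i + n := by omega
      rw [e, cD6_per hC] at h6
      exact cD6_symm h6
  · -- alive
    intro w hw v hv hup hlo
    obtain ⟨i, rfl⟩ := (hbd v).1 hv
    have hup' : ∃ k, dir w (φ (x i)) < dir w (φ (x k)) := by
      obtain ⟨u, hu, h5⟩ := hup
      obtain ⟨k, rfl⟩ := (hbd u).1 hu
      exact ⟨k, h5⟩
    have hlo' : ∃ k, dir w (φ (x k)) < dir w (φ (x i)) := by
      obtain ⟨u, hu, h5⟩ := hlo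
      obtain ⟨k, rfl⟩ := (hbd u).1 hu
      exact ⟨k, h5⟩
    rcases A2 w hw i hup' hlo' with h5 | h5
    · exact ⟨x (i + 1), cD6_frAdj hn hC i, h5⟩
    · refine ⟨x (i - 1), ?_, h5⟩
      have := cD6_frAdj hn hC (i - 1)
      rw [sub_add_cancel] at this
      exact cD6_frAdj_symm this
  · -- ext
    intro w hw
    obtain ⟨j, hj⟩ := A3 w hw
    refine ⟨t j, htD j, fun v hv hmax => ?_⟩
    obtain ⟨i, rfl⟩ := (hbd v).1 hv
    obtain ⟨i', h5, h6, h7⟩ := hj i (fun k => hmax _ ((hbd _).2 ⟨k, rfl⟩))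
    rw [← (hC.x_eq i' i).2 h5]
    exact hvt j i' h6 h7
  · -- edge
    intro e he
    obtain ⟨i, rfl⟩ := (hC.mem e).1 he
    obtain ⟨w, hw, h5, h6⟩ := A4 i
    refine ⟨w, dir w (φ (x i)), hw, ?_, ?_⟩
    · intro v hv
      rcases (hC.ve i v).1 hv with rfl | rfl
      · rfl
      · exact h5.symm
    · intro v hv
      obtain ⟨k, rfl⟩ := (hbd v).1 hv
      exact h6 k
  · -- ne
    intro e he u v hu hv huv
    obtain ⟨i, rfl⟩ := (hC.mem e).1 he
    rcases (hC.ve i u).1 hu with rfl | rfl <;> rcases (hC.ve i v).1 hv with rfl | rfl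
    · exact absurd rfl huv
    · exact A5 i
    · exact (A5 i).symm
    · exact absurd rfl huv
  · -- nolap
    intro e he d hd hed u hu
    obtain ⟨i, rfl⟩ := (hC.mem e).1 he
    obtain ⟨k, rfl⟩ := (hC.mem d).1 hd
    have hik : ¬ (n : ℤ) ∣ i - k := fun h => hed ((hC.y_eq i k).2 h)
    rw [cD6_seg hC, cD6_seg hC] at hu
    rcases A6 i k hik u hu.1 hu.2 with ⟨h5, h6⟩ | ⟨h5, h6⟩
    · refine ⟨x k, ⟨?_, (hC.ve k _).2 (Or.inl rfl)⟩, h6.symm⟩
      exact (hC.ve i _).2 (Or.inr ((hC.x_eq _ _).2 h5))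
    · refine ⟨x i, ⟨(hC.ve i _).2 (Or.inl rfl), ?_⟩, h6.symm⟩
      exact (hC.ve k _).2 (Or.inr ((hC.x_eq _ _).2 h5))
  · -- hull
    rw [hrange, hcorn]
    exact A7
  · -- int
    rw [hcorn]
    exact (h4 q _ hz).2.1

end Pool.Agent.CT
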