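import Pool.Agent.CT.DDefs

set_option autoImplicit false

/-! # D15: affine maps of the plane -/

namespace Pool.Agent.CT

open Set Metric

/-- The linear map with columns `p`, `q`. -/
noncomputable def d15_lin (p q : ℂ) (h : p.re * q.im - p.im * q.re ≠ 0) : ℂ ≃ₗ[ℝ] ℂ where
  toFun z := ⟨z.re * p.re + z.im * q.re, z.re * p.im + z.im * q.im⟩
  map_add' := by
    intro x y
    apply Complex.ext <;> simp <;> ring
  map_smul' := by
    intro c x
    apply Complex.ext <;> simp <;> ring
  invFun w := ⟨(w.re * q.im - w.im * q.re) / (p.re * q.im - p.im * q.re),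
    (p.re * w.im - p.im * w.re) / (p.re * q.im - p.im * q.re)⟩
  left_inv := by
    intro x
    apply Complex.ext
    · show ((x.re * p.re + x.im * q.re) * q.im - (x.re * p.im + x.im * q.im) * q.re) /
        (p.re * q.im - p.im * q.re) = x.re
      rw [div_eq_iff h]
      ring
    · show (p.re * (x.re * p.im + x.im * q.im) - p.im * (x.re * p.re + x.im * q.re)) /
        (p.re * q.im - p.im * q.re) = x.im
      rw [div_eq_iff h]
      ring
  right_inv := by
    intro w
    apply Complex.ext
    · show (w.re * q.im - w.im * q.re) / (p.re * q.im - p.im * q.re) * p.re +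
        (p.re * w.im - p.im * w.re) / (p.re * q.im - p.im * q.re) * q.re = w.re
      rw [div_mul_eq_mul_div, div_mul_eq_mul_div, ← add_div, div_eq_iff h]
      ring
    · show (w.re * q.im - w.im * q.re) / (p.re * q.im - p.im * q.re) * p.im +
        (p.re * w.im - p.im * w.re) / (p.re * q.im - p.im * q.re) * q.im = w.im
      rw [div_mul_eq_mul_div, div_mul_eq_mul_div, ← add_div, div_eq_iff h]
      ring

theorem d15_lin_re (p q : ℂ) (h : p.re * q.im - p.im * q.re ≠ 0) (z : ℂ) :
    (d15_lin p q h z).re = z.re * p.re + z.im * q.re := rfl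

theorem d15_lin_im (p q : ℂ) (h : p.re * q.im - p.im * q.re ≠ 0) (z : ℂ) :
    (d15_lin p q h z).im = z.re * p.im + z.im * q.im := rfl

/-- a real linear map in coordinates -/
theorem d15_coord (L : ℂ →ₗ[ℝ] ℂ) (z : ℂ) : L z = (z.re : ℂ) * L 1 + (z.im : ℂ) * L Complex.I := by
  have h : z = z.re • (1 : ℂ) + z.im • Complex.I := by
    apply Complex.ext <;> simp
  conv_lhs => rw [h]
  rw [map_add, map_smul, map_smul, Complex.real_smul, Complex.real_smul]

theorem d15_affine (A : ℂ ≃ᵃ[ℝ] ℂ) (a z : ℂ) : A z = A.linear (z - a) + A a := by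
  have := A.map_vadd a (z - a)
  simpa using this

theorem d15_det (A : ℂ ≃ᵃ[ℝ] ℂ) : (A.linear 1).re * (A.linear Complex.I).im -
    (A.linear 1).im * (A.linear Complex.I).re ≠ 0 := by
  intro h
  set p := A.linear 1 with hp
  set q := A.linear Complex.I with hq
  have hinj : Function.Injective A.linear := A.linear.injective
  have hp0 : p ≠ 0 := by
    intro h0
    have : A.linear 1 = A.linear 0 := by rw [← hp, h0, map_zero]
    exact one_ne_zero (hinj this)
  -- q.re p - p.re q = 0 and q.im p - p.im q = 0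
  have h1 : A.linear ((q.re : ℂ) - (p.re : ℂ) * Complex.I) = 0 := by
    have := d15_coord (A.linear : ℂ →ₗ[ℝ] ℂ) ((q.re : ℂ) - (p.re : ℂ) * Complex.I)
    have h' : A.linear ((q.re : ℂ) - (p.re : ℂ) * Complex.I) =
        (((q.re : ℂ) - (p.re : ℂ) * Complex.I).re : ℂ) * p +
        (((q.re : ℂ) - (p.re : ℂ) * Complex.I).im : ℂ) * q := this
    rw [h']
    apply Complex.ext
    · simp
      ring
    · simp
      linarith
  have h2 : A.linear ((q.im : ℂ) - (p.im : ℂ) * Complex.I) = 0 := by
    have := d15_coord (A.linear : ℂ →ₗ[ℝ] ℂ) ((q.im : ℂ) - (p.im : ℂ) * Complex.I)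
    have h' : A.linear ((q.im : ℂ) - (p.im : ℂ) * Complex.I) =
        (((q.im : ℂ) - (p.im : ℂ) * Complex.I).re : ℂ) * p +
        (((q.im : ℂ) - (p.im : ℂ) * Complex.I).im : ℂ) * q := this
    rw [h']
    apply Complex.ext
    · simp
      linarith
    · simp
      ring
  have h3 : ((q.re : ℂ) - (p.re : ℂ) * Complex.I) = 0 := hinj (by rw [h1, map_zero])
  have h4 : ((q.im : ℂ) - (p.im : ℂ) * Complex.I) = 0 := hinj (by rw [h2, map_zero])
  apply hp0
  apply Complex.ext
  · have := congrArg Complex.im h3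
    simpa using this
  · have := congrArg Complex.im h4
    simpa using this

theorem d15_part1 (A : ℂ ≃ᵃ[ℝ] ℂ) :
    ∃ d : ℝ, d ≠ 0 ∧ ∀ a b c, cross (A a) (A b) (A c) = d * cross a b c := by
  refine ⟨_, d15_det A, fun a b c => ?_⟩
  have hb : A b = ((b - a).re : ℂ) * A.linear 1 + ((b - a).im : ℂ) * A.linear Complex.I + A a := by
    rw [d15_affine A a b]
    congr 1
    exact d15_coord (A.linear : ℂ →ₗ[ℝ] ℂ) (b - a)
  have hc : A c = ((c - a).re : ℂ) * A.linear 1 + ((c - a).im : ℂ) * A.linear Complex.I + A a := by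
    rw [d15_affine A a c]
    congr 1
    exact d15_coord (A.linear : ℂ →ₗ[ℝ] ℂ) (c - a)
  rw [hb, hc]
  unfold cross
  simp
  ring

/-- The affine map sending `0, 1, i` to `a, b, c`. -/
noncomputable def d15_tri (a b c : ℂ) (h : cross a b c ≠ 0) : ℂ ≃ᵃ[ℝ] ℂ :=
  (d15_lin (b - a) (c - a) (by
    unfold cross at h
    simpa using h)).toAffineEquiv.trans (AffineEquiv.constVAdd ℝ ℂ a)

theorem d15_tri_apply (a b c : ℂ) (h : cross a b c ≠ 0) (z : ℂ) :
    d15_tri a b c h z = a + d15_lin (b - a) (c - a) (by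
    unfold cross at h
    simpa using h) z := rfl

theorem d15_tri0 (a b c : ℂ) (h : cross a b c ≠ 0) : d15_tri a b c h 0 = a := by
  rw [d15_tri_apply, map_zero, add_zero]

theorem d15_tri1 (a b c : ℂ) (h : cross a b c ≠ 0) : d15_tri a b c h 1 = b := by
  rw [d15_tri_apply]
  apply Complex.ext
  · rw [Complex.add_re, d15_lin_re]
    simp
  · rw [Complex.add_im, d15_lin_im]
    simp

theorem d15_triI (a b c : ℂ) (h : cross a b c ≠ 0) : d15_tri a b c h Complex.I = c := by
  rw [d15_tri_apply]
  apply Complex.ext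
  · rw [Complex.add_re, d15_lin_re]
    simp
  · rw [Complex.add_im, d15_lin_im]
    simp

theorem d15_part2 (a b c a' b' c' : ℂ) (h : cross a b c ≠ 0) (h' : cross a' b' c' ≠ 0) :
    ∃ A : ℂ ≃ᵃ[ℝ] ℂ, A a = a' ∧ A b = b' ∧ A c = c' := by
  refine ⟨(d15_tri a b c h).symm.trans (d15_tri a' b' c' h'), ?_, ?_, ?_⟩
  · rw [AffineEquiv.trans_apply]
    have : (d15_tri a b c h).symm a = 0 := by
      rw [AffineEquiv.symm_apply_eq, d15_tri0]
    rw [this, d15_tri0]
  · rw [AffineEquiv.trans_apply]
    have : (d15_tri a b c h).symm b = 1 := by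
      rw [AffineEquiv.symm_apply_eq, d15_tri1]
    rw [this, d15_tri1]
  · rw [AffineEquiv.trans_apply]
    have : (d15_tri a b c h).symm c = Complex.I := by
      rw [AffineEquiv.symm_apply_eq, d15_triI]
    rw [this, d15_triI]

theorem d15_part3 (A B : ℂ ≃ᵃ[ℝ] ℂ) (a b c : ℂ) (h : cross a b c ≠ 0) (h1 : A a = B a)
    (h2 : A b = B b) (h3 : A c = B c) : A = B := by
  have hb : A.linear (b - a) = B.linear (b - a) := by
    have e1 := d15_affine A a b
    have e2 := d15_affine B a b
    rw [h2, h1] at e1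
    rw [e2] at e1
    exact (add_right_cancel e1).symm
  have hc : A.linear (c - a) = B.linear (c - a) := by
    have e1 := d15_affine A a c
    have e2 := d15_affine B a c
    rw [h3, h1] at e1
    rw [e2] at e1
    exact (add_right_cancel e1).symm
  apply AffineEquiv.ext
  intro z
  rw [d15_affine A a z, d15_affine B a z, h1]
  congr 1
  -- z - a is a combination of b - a, c - a
  have hz : z - a = (((z.re - a.re) * (c.im - a.im) - (z.im - a.im) * (c.re - a.re)) / cross a b c) •
      (b - a) + (((b.re - a.re) * (z.im - a.im) - (b.im - a.im) * (z.re - a.re)) / cross a b c) •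
      (c - a) := by
    apply Complex.ext
    · simp only [Complex.add_re, Complex.real_smul, Complex.mul_re, Complex.ofReal_re,
        Complex.ofReal_im, zero_mul, sub_zero, Complex.sub_re]
      rw [div_mul_eq_mul_div, div_mul_eq_mul_div, ← add_div, eq_div_iff h]
      unfold cross
      ring
    · simp only [Complex.add_im, Complex.real_smul, Complex.mul_im, Complex.ofReal_re,
        Complex.ofReal_im, zero_mul, add_zero, Complex.sub_im]
      rw [div_mul_eq_mul_div, div_mul_eq_mul_div, ← add_div, eq_div_iff h]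
      unfold cross
      ring
  rw [hz, map_add, map_add, map_smul, map_smul, map_smul, map_smul, hb, hc]

/-- a positive definite form is the square of the norm after a linear map -/
theorem d15_form (E F G : ℝ) (hE : 0 < E) (hD : 0 < E * G - F * F) :
    ∃ T : ℂ ≃ₗ[ℝ] ℂ, ∀ z, Complex.normSq (T z) =
      E * (z.re * z.re) + 2 * F * (z.re * z.im) + G * (z.im * z.im) := by
  have hs : 0 < Real.sqrt E := Real.sqrt_pos.2 hE
  have hss : Real.sqrt E * Real.sqrt E = E := Real.mul_self_sqrt hE.le
  have hG : 0 < G - F * F / E := by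
    rw [sub_pos, div_lt_iff₀ hE]
    linarith
  have ht : 0 < Real.sqrt (G - F * F / E) := Real.sqrt_pos.2 hG
  have htt : Real.sqrt (G - F * F / E) * Real.sqrt (G - F * F / E) = G - F * F / E :=
    Real.mul_self_sqrt hG.le
  refine ⟨d15_lin ⟨Real.sqrt E, 0⟩ ⟨F / Real.sqrt E, Real.sqrt (G - F * F / E)⟩ ?_, fun z => ?_⟩
  · show Real.sqrt E * Real.sqrt (G - F * F / E) - 0 * (F / Real.sqrt E) ≠ 0
    rw [zero_mul, sub_zero]
    exact (mul_pos hs ht).ne'
  · rw [Complex.normSq_apply, d15_lin_re, d15_lin_im]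
    show (z.re * Real.sqrt E + z.im * (F / Real.sqrt E)) *
      (z.re * Real.sqrt E + z.im * (F / Real.sqrt E)) +
      (z.re * 0 + z.im * Real.sqrt (G - F * F / E)) *
      (z.re * 0 + z.im * Real.sqrt (G - F * F / E)) = _
    have e1 : (z.re * 0 + z.im * Real.sqrt (G - F * F / E)) *
      (z.re * 0 + z.im * Real.sqrt (G - F * F / E)) = z.im * z.im * (G - F * F / E) := by
      calc _ = z.im * z.im * (Real.sqrt (G - F * F / E) * Real.sqrt (G - F * F / E)) := by ring
        _ = _ := by rw [htt]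
    have e2 : (z.re * Real.sqrt E + z.im * (F / Real.sqrt E)) *
      (z.re * Real.sqrt E + z.im * (F / Real.sqrt E)) =
      E * (z.re * z.re) + 2 * F * (z.re * z.im) + z.im * z.im * (F * F / E) := by
      have h1 : Real.sqrt E * (F / Real.sqrt E) = F := by
        field_simp
      have h2 : (F / Real.sqrt E) * (F / Real.sqrt E) = F * F / E := by
        rw [div_mul_div_comm, hss]
      calc _ = (z.re * z.re) * (Real.sqrt E * Real.sqrt E) +
            2 * (z.re * z.im) * (Real.sqrt E * (F / Real.sqrt E)) +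
            (z.im * z.im) * ((F / Real.sqrt E) * (F / Real.sqrt E)) := by ring
        _ = _ := by
            rw [hss, h1, h2]
            ring
    rw [e1, e2]
    ring

theorem d15_part4 (G : Type) [Group G] [Finite G] (ρ : G → ℂ ≃ᵃ[ℝ] ℂ)
    (hρ : ∀ g h z, ρ (g * h) z = ρ g (ρ h z)) :
    ∃ T : ℂ ≃ᵃ[ℝ] ℂ, ∀ g, ∃ s' : ℂ ≃ᵢ ℂ, ∀ z, T (ρ g z) = s' (T z) := by
  classical
  have := Fintype.ofFinite G
  have hlin : ∀ g h z, (ρ (g * h)).linear z = (ρ g).linear ((ρ h).linear z) := by
    intro g h z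
    have e1 := d15_affine (ρ (g * h)) 0 z
    have e2 := d15_affine (ρ h) 0 z
    have e3 := d15_affine (ρ g) (ρ h 0) (ρ h z)
    rw [sub_zero] at e1 e2
    rw [hρ g h z, hρ g h 0, e3] at e1
    have e4 := add_right_cancel e1
    rw [← e4, e2, add_sub_cancel_right]
  set Q : ℂ → ℝ := fun z => ∑ g, Complex.normSq ((ρ g).linear z) with hQ
  have hQinv : ∀ h z, Q ((ρ h).linear z) = Q z := by
    intro h z
    simp only [hQ]
    rw [← Equiv.sum_comp (Equiv.mulRight h) (fun g => Complex.normSq ((ρ g).linear z))]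
    refine Finset.sum_congr rfl fun g _ => ?_
    rw [← hlin]
    rfl
  set E := ∑ g, Complex.normSq ((ρ g).linear 1) with hE
  set F := ∑ g, (((ρ g).linear 1).re * ((ρ g).linear Complex.I).re +
    ((ρ g).linear 1).im * ((ρ g).linear Complex.I).im) with hF
  set H := ∑ g, Complex.normSq ((ρ g).linear Complex.I) with hH
  have hQf : ∀ z : ℂ, Q z = E * (z.re * z.re) + 2 * F * (z.re * z.im) + H * (z.im * z.im) := by
    intro z
    simp only [hQ, hE, hF, hH]
    rw [Finset.sum_mul, Finset.mul_sum, Finset.sum_mul, Finset.sum_mul, ← Finset.sum_add_distrib,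
      ← Finset.sum_add_distrib]
    refine Finset.sum_congr rfl fun g _ => ?_
    have h1 : (ρ g).linear z = (z.re : ℂ) * (ρ g).linear 1 + (z.im : ℂ) * (ρ g).linear Complex.I :=
      d15_coord ((ρ g).linear : ℂ →ₗ[ℝ] ℂ) z
    rw [h1]
    simp only [Complex.normSq_apply, Complex.add_re, Complex.add_im, Complex.mul_re, Complex.mul_im,
      Complex.ofReal_re, Complex.ofReal_im]
    ring
  have hQpos : ∀ z : ℂ, z ≠ 0 → 0 < Q z := by
    intro z hz
    simp only [hQ]
    refine Finset.sum_pos (fun g _ => ?_) ⟨1, Finset.mem_univ _⟩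
    rw [Complex.normSq_pos]
    intro h0
    exact hz ((ρ g).linear.injective (by rw [h0, map_zero]))
  have hE0 : 0 < E := by
    have := hQpos 1 one_ne_zero
    rw [hQf] at this
    simpa using this
  have hD0 : 0 < E * H - F * F := by
    have h1 : ((⟨-F, E⟩ : ℂ)) ≠ 0 := by
      intro h0
      have := congrArg Complex.im h0
      simp at this
      exact hE0.ne' this
    have := hQpos _ h1
    rw [hQf] at this
    have h2 : E * (-F * -F) + 2 * F * (-F * E) + H * (E * E) = E * (E * H - F * F) := by ring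
    have h3 : 0 < E * (E * H - F * F) := by
      rw [← h2]
      exact this
    exact (mul_pos_iff_of_pos_left hE0).1 h3
  obtain ⟨T, hT⟩ := d15_form E F H hE0 hD0
  refine ⟨T.toAffineEquiv, fun g => ?_⟩
  have hiso : Isometry (fun w => T (ρ g (T.symm w))) := by
    refine Isometry.of_dist_eq fun w w' => ?_
    rw [dist_eq_norm, dist_eq_norm, ← map_sub]
    have h1 : ρ g (T.symm w) - ρ g (T.symm w') = (ρ g).linear (T.symm (w - w')) := by
      rw [d15_affine (ρ g) (T.symm w') (T.symm w), add_sub_cancel_right, map_sub T.symm w w']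
    rw [h1]
    have h2 : Complex.normSq (T ((ρ g).linear (T.symm (w - w')))) = Complex.normSq (w - w') := by
      rw [hT, ← hQf, hQinv, hQf, ← hT, LinearEquiv.apply_symm_apply]
    rw [Complex.normSq_eq_norm_sq, Complex.normSq_eq_norm_sq] at h2
    exact (sq_eq_sq₀ (norm_nonneg _) (norm_nonneg _)).1 h2
  refine ⟨⟨(T.symm.toEquiv.trans (ρ g).toEquiv).trans T.toEquiv, hiso⟩, fun z => ?_⟩
  show T (ρ g z) = T (ρ g (T.symm (T z)))
  rw [LinearEquiv.symm_apply_apply]

theorem cD15 : Stmt_Affine :=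
  ⟨d15_part1, d15_part2, d15_part3, fun G _ _ ρ h => d15_part4 G ρ h⟩

end Pool.Agent.CT
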