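import Pool.Agent.CT.BDefs

set_option autoImplicit false

/-! # G2, G3: the polygon of a strictly convex cyclic sequence -/

namespace Pool.Agent.CT

open Set Metric

theorem cG2_cross_comb {a b c d : ℂ} {s t : ℝ} (h : s + t = 1) :
    cross a b (s • c + t • d) = s * cross a b c + t * cross a b d := by
  have hs : s = 1 - t := by linarith
  subst hs
  unfold cross
  simp only [Complex.add_re, Complex.add_im, Complex.smul_re, Complex.smul_im, smul_eq_mul]
  ring

theorem cG2_cont (a b : ℂ) : Continuous (fun w => cross a b w) := by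
  unfold cross
  fun_prop

theorem cG2_per {α : Type*} {n : ℕ} {g : ℤ → α} (hg : ∀ i, g (i + n) = g i) {i j : ℤ}
    (h : (n : ℤ) ∣ i - j) : g i = g j := by
  have hp : Function.Periodic g (n : ℤ) := hg
  obtain ⟨k, hk⟩ := h
  have h1 := hp.int_mul k j
  have h2 : i = j + k * n := by
    have : i = j + (i - j) := by ring
    rw [this, hk]
    ring
  rw [h2]
  exact h1

theorem cG2_fin {α : Type*} {n : ℕ} (hn : 0 < n) {g : ℤ → α} (hg : ∀ i, g (i + n) = g i) :
    (range g).Finite := by
  have : range g ⊆ g '' (Ico (0 : ℤ) n) := by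
    rintro _ ⟨i, rfl⟩
    have hn' : (0 : ℤ) < n := by exact_mod_cast hn
    refine ⟨i % n, ⟨Int.emod_nonneg _ hn'.ne', Int.emod_lt_of_pos _ hn'⟩, ?_⟩
    apply cG2_per hg
    have : i % n - i = n * (-(i / n)) := by
      have := Int.emod_add_mul_ediv i n
      linarith
    exact ⟨_, this⟩
  exact ((finite_Ico (0 : ℤ) n).image g).subset this

theorem cG2_ndvd {n : ℕ} (hn : 3 ≤ n) {c : ℤ} (h0 : c ≠ 0) (h1 : -2 ≤ c) (h2 : c ≤ 2) :
    ¬ (n : ℤ) ∣ c := by
  intro h
  have h3 : (n : ℤ) ≤ |c| := Int.le_of_dvd (abs_pos.2 h0) ((dvd_abs _ _).2 h)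
  have h4 : |c| ≤ 2 := abs_le.2 ⟨h1, h2⟩
  omega

section geom

variable {n : ℕ} {z : ℤ → ℂ} {σ : ℝ}

theorem cG2_aux (hn : 3 ≤ n) (hz : ∀ i, z (i + n) = z i)
    (hσ : ∀ i j, ¬ (n : ℤ) ∣ j - i → ¬ (n : ℤ) ∣ j - (i + 1) →
      0 < σ * cross (z i) (z (i + 1)) (z j)) (i j : ℤ) :
    0 ≤ σ * cross (z i) (z (i + 1)) (z j) := by
  by_cases h1 : (n : ℤ) ∣ j - i
  · rw [cG2_per hz h1]
    have : cross (z i) (z (i + 1)) (z i) = 0 := by unfold cross; ring
    rw [this, mul_zero]
  · by_cases h2 : (n : ℤ) ∣ j - (i + 1)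
    · rw [cG2_per hz h2]
      have : cross (z i) (z (i + 1)) (z (i + 1)) = 0 := by unfold cross; ring
      rw [this, mul_zero]
    · exact (hσ i j h1 h2).le

theorem cG2_inj (hn : 3 ≤ n) (hz : ∀ i, z (i + n) = z i)
    (hσ : ∀ i j, ¬ (n : ℤ) ∣ j - i → ¬ (n : ℤ) ∣ j - (i + 1) →
      0 < σ * cross (z i) (z (i + 1)) (z j)) (i j : ℤ) : z i = z j ↔ (n : ℤ) ∣ i - j := by
  refine ⟨fun h => ?_, cG2_per hz⟩
  by_contra hnd
  have h1 : ¬ (n : ℤ) ∣ j - i := fun h' => hnd ((dvd_sub_comm).1 h')
  by_cases h2 : (n : ℤ) ∣ j - (i + 1)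
  · have h3 : z j = z (i + 1) := cG2_per hz h2
    have h4 := hσ i (i + 2) (cG2_ndvd hn (by omega) (by omega) (by omega))
      (cG2_ndvd hn (by omega) (by omega) (by omega))
    rw [← h3, ← h] at h4
    have : cross (z i) (z i) (z (i + 2)) = 0 := by unfold cross; ring
    rw [this, mul_zero] at h4
    exact lt_irrefl _ h4
  · have h4 := hσ i j h1 h2
    rw [← h] at h4
    have : cross (z i) (z (i + 1)) (z i) = 0 := by unfold cross; ring
    rw [this, mul_zero] at h4
    exact lt_irrefl _ h4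

theorem cG2_hull (hn : 3 ≤ n) (hz : ∀ i, z (i + n) = z i)
    (hσ : ∀ i j, ¬ (n : ℤ) ∣ j - i → ¬ (n : ℤ) ∣ j - (i + 1) →
      0 < σ * cross (z i) (z (i + 1)) (z j)) :
    convexHull ℝ (range z) = {w | ∀ i, 0 ≤ σ * cross (z i) (z (i + 1)) w} := by
  have hfin : (range z).Finite := cG2_fin (by omega) hz
  apply Subset.antisymm
  · apply convexHull_min
    · rintro _ ⟨j, rfl⟩ i
      exact cG2_aux hn hz hσ i j
    · intro x hx y hy s t hs ht hst i
      rw [cG2_cross_comb hst]
      have h1 := mul_nonneg hs (hx i)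
      have h2 := mul_nonneg ht (hy i)
      nlinarith
  · intro w hw
    by_contra hnot
    obtain ⟨f, u, hf, hu⟩ := geometric_hahn_banach_closed_point (convex_convexHull ℝ (range z))
      (hfin.isClosed_convexHull ℝ) hnot
    obtain ⟨_, ⟨m, rfl⟩, hm⟩ := exists_max_image (range z) f hfin ⟨z 0, 0, rfl⟩
    have hmw : f (z m) < f w := (hf _ (subset_convexHull ℝ _ ⟨m, rfl⟩)).trans hu
    have h1 : f (z (m + 1)) ≤ f (z m) := hm _ ⟨m + 1, rfl⟩
    have h2 : f (z (m - 1)) ≤ f (z m) := hm _ ⟨m - 1, rfl⟩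
    have hD := hσ m (m - 1) (cG2_ndvd hn (by omega) (by omega) (by omega))
      (cG2_ndvd hn (by omega) (by omega) (by omega))
    have hw1 := hw m
    have hw2 := hw (m - 1)
    rw [sub_add_cancel] at hw2
    -- `D (w - z m) = S (z (m+1) - z m) + T (z (m-1) - z m)`
    set D := σ * cross (z m) (z (m + 1)) (z (m - 1)) with hDdef
    set T := σ * cross (z m) (z (m + 1)) w with hTdef
    set S := σ * cross (z (m - 1)) (z m) w with hSdef
    have hlin : D • (w - z m) = S • (z (m + 1) - z m) + T • (z (m - 1) - z m) := by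
      apply Complex.ext
      · simp only [Complex.smul_re, Complex.sub_re, Complex.add_re, smul_eq_mul, hDdef, hTdef,
          hSdef, cross]
        ring
      · simp only [Complex.smul_im, Complex.sub_im, Complex.add_im, smul_eq_mul, hDdef, hTdef,
          hSdef, cross]
        ring
    have h3 := congrArg f hlin
    simp only [map_smul, map_add, map_sub, smul_eq_mul] at h3
    have h4 : 0 < D * (f w - f (z m)) := mul_pos hD (by linarith)
    have h5 : S * (f (z (m + 1)) - f (z m)) ≤ 0 := mul_nonpos_of_nonneg_of_nonpos hw2 (by linarith)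
    have h6 : T * (f (z (m - 1)) - f (z m)) ≤ 0 := mul_nonpos_of_nonneg_of_nonpos hw1 (by linarith)
    linarith

theorem cG2_int (hn : 3 ≤ n) (hz : ∀ i, z (i + n) = z i)
    (hσ : ∀ i j, ¬ (n : ℤ) ∣ j - i → ¬ (n : ℤ) ∣ j - (i + 1) →
      0 < σ * cross (z i) (z (i + 1)) (z j)) :
    interior (convexHull ℝ (range z)) = {w | ∀ i, 0 < σ * cross (z i) (z (i + 1)) w} := by
  apply Subset.antisymm
  · intro w hw i
    have hK := cG2_hull hn hz hσ
    have hnn : w ∈ convexHull ℝ (range z) := interior_subset hw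
    -- move away from the point `z (i + 2)`
    have hpos := hσ i (i + 2) (cG2_ndvd hn (by omega) (by omega) (by omega))
      (cG2_ndvd hn (by omega) (by omega) (by omega))
    have hcont : Filter.Tendsto (fun e : ℝ => (1 + e) • w + (-e) • z (i + 2)) (nhds 0)
        (nhds ((1 + (0 : ℝ)) • w + (-(0 : ℝ)) • z (i + 2))) := by
      apply Continuous.tendsto
      fun_prop
    have h0 : (1 + (0 : ℝ)) • w + (-(0 : ℝ)) • z (i + 2) = w := by simp
    rw [h0] at hcont
    have hev := hcont.eventually (mem_interior_iff_mem_nhds.1 hw)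
    have hev2 : ∀ᶠ e : ℝ in nhdsWithin 0 (Ioi 0), (1 + e) • w + (-e) • z (i + 2) ∈
        convexHull ℝ (range z) := hev.filter_mono nhdsWithin_le_nhds
    have hev3 : ∀ᶠ e : ℝ in nhdsWithin 0 (Ioi 0), 0 < e := self_mem_nhdsWithin
    obtain ⟨e, he, he0⟩ := (hev2.and hev3).exists
    rw [hK] at he
    have h1 := he i
    rw [cG2_cross_comb (by ring : (1 + e) + (-e) = 1)] at h1
    by_contra hle
    have hle' : σ * cross (z i) (z (i + 1)) w ≤ 0 := not_lt.1 hle
    have h2 : (1 + e) * (σ * cross (z i) (z (i + 1)) w) ≤ 0 :=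
      mul_nonpos_of_nonneg_of_nonpos (by linarith) hle'
    have h3 : 0 < e * (σ * cross (z i) (z (i + 1)) (z (i + 2))) := mul_pos he0 hpos
    nlinarith
  · apply interior_maximal
    · rw [cG2_hull hn hz hσ]
      exact fun w hw i => (hw i).le
    · have hfin : (range (fun i : ℤ => (z i, z (i + 1)))).Finite := by
        apply cG2_fin (n := n) (by omega)
        intro i
        have : i + n + 1 = i + 1 + n := by ring
        simp only [this, hz]
      have : {w | ∀ i, 0 < σ * cross (z i) (z (i + 1)) w} =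
          ⋂ p ∈ range (fun i : ℤ => (z i, z (i + 1))), {w | 0 < σ * cross p.1 p.2 w} := by
        ext w
        simp
      rw [this]
      apply hfin.isOpen_biInter
      intro p _
      exact isOpen_lt continuous_const ((cG2_cont p.1 p.2).const_smul σ)

theorem cG2_int_ne (hn : 3 ≤ n) (hz : ∀ i, z (i + n) = z i)
    (hσ : ∀ i j, ¬ (n : ℤ) ∣ j - i → ¬ (n : ℤ) ∣ j - (i + 1) →
      0 < σ * cross (z i) (z (i + 1)) (z j)) :
    (interior (convexHull ℝ (range z))).Nonempty := by
  rw [cG2_int hn hz hσ]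
  have hn0 : (0 : ℝ) < n := by
    have : 0 < n := by omega
    exact_mod_cast this
  refine ⟨(n : ℝ)⁻¹ • ∑ j ∈ Finset.range n, z j, fun i => ?_⟩
  have hsum : cross (z i) (z (i + 1)) ((n : ℝ)⁻¹ • ∑ j ∈ Finset.range n, z j) =
      (n : ℝ)⁻¹ * ∑ j ∈ Finset.range n, cross (z i) (z (i + 1)) (z j) := by
    have h1 : ∀ w : ℂ, cross (z i) (z (i + 1)) w =
        ((z (i + 1)).re - (z i).re) * w.im - ((z (i + 1)).im - (z i).im) * w.re +
        (((z (i + 1)).im - (z i).im) * (z i).re - ((z (i + 1)).re - (z i).re) * (z i).im) := by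
      intro w
      unfold cross
      ring
    simp only [h1]
    rw [Finset.sum_add_distrib, Finset.sum_sub_distrib, ← Finset.mul_sum, ← Finset.mul_sum,
      Finset.sum_const, Finset.card_range, Complex.smul_re, Complex.smul_im, Complex.re_sum,
      Complex.im_sum, nsmul_eq_mul, smul_eq_mul, smul_eq_mul]
    field_simp
  rw [hsum]
  have hsum2 : 0 < ∑ j ∈ Finset.range n, σ * cross (z i) (z (i + 1)) (z j) := by
    -- the index of `i + 2`
    have hn' : (0 : ℤ) < n := by omega
    have hmod0 : 0 ≤ (i + 2) % n := Int.emod_nonneg _ hn'.ne'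
    have hmod1 : (i + 2) % n < n := Int.emod_lt_of_pos _ hn'
    have hcast : (((i + 2) % n).toNat : ℤ) = (i + 2) % n := Int.toNat_of_nonneg hmod0
    refine Finset.sum_pos' (fun j _ => cG2_aux hn hz hσ i j) ⟨((i + 2) % n).toNat, ?_, ?_⟩
    · rw [Finset.mem_range]
      omega
    · rw [hcast]
      have hd : (n : ℤ) ∣ (i + 2) % n - (i + 2) := by
        have : (i + 2) % n - (i + 2) = n * (-((i + 2) / n)) := by
          have := Int.emod_add_mul_ediv (i + 2) n
          linarith
        exact ⟨_, this⟩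
      rw [cG2_per hz hd]
      exact hσ i (i + 2) (cG2_ndvd hn (by omega) (by omega) (by omega))
        (cG2_ndvd hn (by omega) (by omega) (by omega))
  rw [← Finset.mul_sum] at hsum2
  have : σ * ((n : ℝ)⁻¹ * ∑ j ∈ Finset.range n, cross (z i) (z (i + 1)) (z j)) =
      (n : ℝ)⁻¹ * (σ * ∑ j ∈ Finset.range n, cross (z i) (z (i + 1)) (z j)) := by ring
  rw [this]
  exact mul_pos (inv_pos.2 hn0) hsum2

theorem cG2_seg (hn : 3 ≤ n) (hz : ∀ i, z (i + n) = z i)
    (hσ : ∀ i j, ¬ (n : ℤ) ∣ j - i → ¬ (n : ℤ) ∣ j - (i + 1) →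
      0 < σ * cross (z i) (z (i + 1)) (z j)) (i : ℤ) (w : ℂ)
    (hw : w ∈ convexHull ℝ (range z)) (h0 : cross (z i) (z (i + 1)) w = 0) :
    w ∈ segment ℝ (z i) (z (i + 1)) := by
  rw [cG2_hull hn hz hσ] at hw
  -- weights: `f_{i+1}(z i)`, `f_{i-1}(z (i+1))`
  have hA := hσ (i + 1) i (cG2_ndvd hn (by omega) (by omega) (by omega))
    (cG2_ndvd hn (by omega) (by omega) (by omega))
  have hw1 := hw (i - 1)
  have hw2 := hw (i + 1)
  have hB := hσ (i - 1) (i + 1) (cG2_ndvd hn (by omega) (by omega) (by omega))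
    (cG2_ndvd hn (by omega) (by omega) (by omega))
  rw [sub_add_cancel] at hw1 hB
  have hne : z i ≠ z (i + 1) := by
    intro h
    have := (cG2_inj hn hz hσ i (i + 1)).1 h
    exact cG2_ndvd hn (by omega) (by omega) (by omega) this
  -- `w = z i + s (z (i+1) - z i)`
  obtain ⟨s, hs⟩ : ∃ s : ℝ, w = (1 - s) • z i + s • z (i + 1) := by
    have hd : (z (i + 1)).re - (z i).re ≠ 0 ∨ (z (i + 1)).im - (z i).im ≠ 0 := by
      by_contra hcon
      push Not at hcon
      apply hne
      apply Complex.ext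
      · linarith [hcon.1]
      · linarith [hcon.2]
    unfold cross at h0
    rcases hd with hd | hd
    · refine ⟨(w.re - (z i).re) / ((z (i + 1)).re - (z i).re), ?_⟩
      apply Complex.ext
      · simp only [Complex.add_re, Complex.smul_re, smul_eq_mul]
        field_simp
        ring
      · simp only [Complex.add_im, Complex.smul_im, smul_eq_mul]
        field_simp
        linarith
    · refine ⟨(w.im - (z i).im) / ((z (i + 1)).im - (z i).im), ?_⟩
      apply Complex.ext
      · simp only [Complex.add_re, Complex.smul_re, smul_eq_mul]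
        field_simp
        linarith
      · simp only [Complex.add_im, Complex.smul_im, smul_eq_mul]
        field_simp
        ring
  rw [hs, cG2_cross_comb (by ring)] at hw1 hw2
  have e1 : cross (z (i - 1)) (z i) (z i) = 0 := by unfold cross; ring
  have e2 : cross (z (i + 1)) (z (i + 1 + 1)) (z (i + 1)) = 0 := by unfold cross; ring
  rw [e1] at hw1
  rw [e2] at hw2
  have hs0 : 0 ≤ s := by
    by_contra hneg
    have : s * (σ * cross (z (i - 1)) (z i) (z (i + 1))) < 0 :=
      mul_neg_of_neg_of_pos (not_le.1 hneg) hB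
    nlinarith
  have hs1 : 0 ≤ 1 - s := by
    by_contra hneg
    have : (1 - s) * (σ * cross (z (i + 1)) (z (i + 1 + 1)) (z i)) < 0 :=
      mul_neg_of_neg_of_pos (not_le.1 hneg) hA
    nlinarith
  exact ⟨1 - s, s, hs1, hs0, by ring, hs.symm⟩

theorem cG2_seg_zero (i : ℤ) {w : ℂ} (hw : w ∈ segment ℝ (z i) (z (i + 1))) :
    cross (z i) (z (i + 1)) w = 0 := by
  obtain ⟨s, t, _, _, hst, rfl⟩ := hw
  rw [cG2_cross_comb hst]
  have e1 : cross (z i) (z (i + 1)) (z i) = 0 := by unfold cross; ring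
  have e2 : cross (z i) (z (i + 1)) (z (i + 1)) = 0 := by unfold cross; ring
  rw [e1, e2]
  ring

end geom

/-- G2 -/
theorem cG2 : Stmt_PolyGeom := by
  intro n z hP
  obtain ⟨hn, hz, σ, hσ1, hσ⟩ := hP
  have hfin : (range z).Finite := cG2_fin (by omega) hz
  have hσ0 : σ ≠ 0 := by
    rcases hσ1 with h | h <;> rw [h] <;> norm_num
  refine ⟨cG2_inj hn hz hσ, cG2_int_ne hn hz hσ, ?_, ?_, cG2_seg hn hz hσ, ?_⟩
  · have hcl : IsClosed (convexHull ℝ (range z)) := hfin.isClosed_convexHull ℝ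
    rw [hcl.frontier_eq]
    apply Subset.antisymm
    · rintro w ⟨hw, hnot⟩
      rw [cG2_int hn hz hσ, mem_ofPred_eq] at hnot
      push Not at hnot
      obtain ⟨i, hi⟩ := hnot
      have h1 : 0 ≤ σ * cross (z i) (z (i + 1)) w := by
        have := hw
        rw [cG2_hull hn hz hσ] at this
        exact this i
      have h2 : σ * cross (z i) (z (i + 1)) w = 0 := le_antisymm hi h1
      have h3 : cross (z i) (z (i + 1)) w = 0 := by
        rcases mul_eq_zero.1 h2 with h | h
        · exact absurd h hσ0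
        · exact h
      exact mem_iUnion.2 ⟨i, cG2_seg hn hz hσ i w hw h3⟩
    · intro w hw
      obtain ⟨i, hi⟩ := mem_iUnion.1 hw
      refine ⟨?_, ?_⟩
      · exact (convex_convexHull ℝ (range z)).segment_subset (subset_convexHull ℝ _ ⟨i, rfl⟩)
          (subset_convexHull ℝ _ ⟨i + 1, rfl⟩) hi
      · intro hint
        rw [cG2_int hn hz hσ] at hint
        have := hint i
        rw [cG2_seg_zero i hi, mul_zero] at this
        exact lt_irrefl _ this
  · intro i j hij w hwi hwj
    have h0 := cG2_seg_zero i hwi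
    obtain ⟨s, t, hs, ht, hst, rfl⟩ := hwj
    rw [cG2_cross_comb hst] at h0
    have h1 := mul_nonneg hs (cG2_aux hn hz hσ i j)
    have h2 := mul_nonneg ht (cG2_aux hn hz hσ i (j + 1))
    have h3 : s * (σ * cross (z i) (z (i + 1)) (z j)) + t * (σ * cross (z i) (z (i + 1)) (z (j + 1)))
        = 0 := by
      have : s * (σ * cross (z i) (z (i + 1)) (z j)) +
        t * (σ * cross (z i) (z (i + 1)) (z (j + 1))) =
        σ * (s * cross (z i) (z (i + 1)) (z j) + t * cross (z i) (z (i + 1)) (z (j + 1))) := by ring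
      rw [this, h0, mul_zero]
    have h4 : s * (σ * cross (z i) (z (i + 1)) (z j)) = 0 := by linarith
    have h5 : t * (σ * cross (z i) (z (i + 1)) (z (j + 1))) = 0 := by linarith
    have hji : ¬ (n : ℤ) ∣ j - i := fun h' => hij ((dvd_sub_comm).1 h')
    by_cases hj : (n : ℤ) ∣ j - (i + 1)
    · left
      refine ⟨hj, ?_⟩
      have hpos : 0 < σ * cross (z i) (z (i + 1)) (z (j + 1)) := by
        apply hσ
        · intro h'
          have : (n : ℤ) ∣ (j + 1 - i) - (j - (i + 1)) := dvd_sub h' hj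
          have e : (j + 1 - i) - (j - (i + 1)) = 2 := by ring
          rw [e] at this
          exact cG2_ndvd hn (by omega) (by omega) (by omega) this
        · intro h'
          have : (n : ℤ) ∣ (j + 1 - (i + 1)) - (j - (i + 1)) := dvd_sub h' hj
          have e : (j + 1 - (i + 1)) - (j - (i + 1)) = 1 := by ring
          rw [e] at this
          exact cG2_ndvd hn (by omega) (by omega) (by omega) this
      have ht0 : t = 0 := by
        rcases mul_eq_zero.1 h5 with h | h
        · exact h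
        · exact absurd h hpos.ne'
      have hs1 : s = 1 := by linarith
      rw [ht0, hs1]
      simp
    · right
      have hpos := hσ i j hji hj
      have hs0 : s = 0 := by
        rcases mul_eq_zero.1 h4 with h | h
        · exact h
        · exact absurd h hpos.ne'
      have ht1 : t = 1 := by linarith
      rw [ht1, one_mul] at h5
      have hd : (n : ℤ) ∣ i - (j + 1) := by
        by_contra hcon
        have hc' : ¬ (n : ℤ) ∣ (j + 1) - i := fun h' => hcon ((dvd_sub_comm).1 h')
        have hc2 : ¬ (n : ℤ) ∣ (j + 1) - (i + 1) := by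
          have e : (j + 1) - (i + 1) = j - i := by ring
          rw [e]
          exact hji
        exact absurd h5 (hσ i (j + 1) hc' hc2).ne'
      refine ⟨hd, ?_⟩
      rw [hs0, ht1, cG2_per hz hd]
      simp
  · intro σ' hσ'
    exact ⟨cG2_hull hn hz hσ', cG2_int hn hz hσ'⟩

/-- G3 -/
theorem cG3 : Stmt_FaceStrict := by
  intro V E F M φ f n x y hf hP
  obtain ⟨hinj, hint, hfr, hseg, -, -⟩ := cG2 n _ hP
  have hn : 3 ≤ n := hf.three
  have hy : ∀ e, M.ef e f ↔ ∃ i, y i = e := hf.curve.mem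
  have hve := hf.curve.ve
  have hvf : {v | M.vf v f} = range x := by
    ext v
    constructor
    · rintro ⟨e, h1, h2⟩
      obtain ⟨i, rfl⟩ := (hy e).1 h2
      rcases (hve i v).1 h1 with h | h
      · exact ⟨i, h.symm⟩
      · exact ⟨i + 1, h.symm⟩
    · rintro ⟨i, rfl⟩
      exact ⟨y i, (hve i _).2 (Or.inl rfl), (hy _).2 ⟨i, rfl⟩⟩
  have hpoly : poly M φ f = convexHull ℝ (range fun i => φ (x i)) := by
    unfold poly
    rw [hvf, ← range_comp]
    rfl
  have hsegy : ∀ i, seg M φ (y i) = segment ℝ (φ (x i)) (φ (x (i + 1))) := by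
    intro i
    unfold seg
    have : {v | M.ve v (y i)} = {x i, x (i + 1)} := by
      ext v
      rw [mem_ofPred_eq, hve i v]
      simp
    rw [this, image_pair, convexHull_pair]
  refine ⟨⟨?_, ?_, ?_, ?_, ?_⟩, hpoly⟩
  · rw [hvf]
    apply cG2_fin (n := n) (by omega)
    intro i
    rw [hf.curve.x_eq]
    simp
  · intro e u v he hu hv huv
    obtain ⟨i, rfl⟩ := (hy e).1 he
    have h1 : φ (x i) ≠ φ (x (i + 1)) := by
      intro h
      exact cG2_ndvd hn (by omega) (by omega) (by omega) ((hinj i (i + 1)).1 h)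
    rcases (hve i u).1 hu with rfl | rfl <;> rcases (hve i v).1 hv with rfl | rfl
    · exact absurd rfl huv
    · exact h1
    · exact h1.symm
    · exact absurd rfl huv
  · rw [hpoly]
    exact hint
  · rw [hpoly, hfr]
    ext w
    simp only [mem_iUnion, mem_ofPred_eq]
    constructor
    · rintro ⟨i, hi⟩
      exact ⟨y i, (hy _).2 ⟨i, rfl⟩, by rw [hsegy]; exact hi⟩
    · rintro ⟨e, he, hw⟩
      obtain ⟨i, rfl⟩ := (hy e).1 he
      rw [hsegy] at hw
      exact ⟨i, hw⟩
  · intro e d he hd hed w hw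
    obtain ⟨i, rfl⟩ := (hy e).1 he
    obtain ⟨j, rfl⟩ := (hy d).1 hd
    rw [hsegy, hsegy] at hw
    have hij : ¬ (n : ℤ) ∣ i - j := fun h => hed ((hf.curve.y_eq i j).2 h)
    rcases hseg i j hij w hw.1 hw.2 with ⟨h1, h2⟩ | ⟨h1, h2⟩
    · refine ⟨x j, ⟨?_, (hve j _).2 (Or.inl rfl)⟩, h2.symm⟩
      rw [hve i]
      right
      rw [hf.curve.x_eq]
      exact h1
    · refine ⟨x i, ⟨(hve i _).2 (Or.inl rfl), ?_⟩, h2.symm⟩
      rw [hve j]
      right
      rw [hf.curve.x_eq]
      exact h1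

end Pool.Agent.CT
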