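import Pool.Agent.CT.DDefs
import Pool.Agent.CT.PolyGeom

set_option autoImplicit false

/-! # D5: geometry of a strictly convex polygon with subdivided sides -/

namespace Pool.Agent.CT

open Set Metric

section sub

variable {n q : ℕ} {s : ℤ → ℤ}

theorem cD5_step (hs : StrictMono s) (j : ℤ) : ∀ m : ℕ, s j + m ≤ s (j + m) := by
  intro m
  induction m with
  | zero => simp
  | succ m ih =>
    have h1 : s (j + m) < s (j + ((m + 1 : ℕ) : ℤ)) := hs (by push_cast; omega)
    push_cast at h1 ⊢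
    omega

theorem cD5_find (hs : StrictMono s) (i : ℤ) : ∃ j, s j ≤ i ∧ i < s (j + 1) := by
  have hb : ∃ b, ∀ j, s j ≤ i → j ≤ b := by
    refine ⟨(i - s 0).natAbs, fun j hj => ?_⟩
    by_contra hcon
    push Not at hcon
    have h1 := cD5_step hs 0 (i - s 0).natAbs
    have h2 : s (0 + ((i - s 0).natAbs : ℤ)) < s j := hs (by omega)
    omega
  have hi : ∃ j, s j ≤ i := by
    refine ⟨-((i - s 0).natAbs : ℤ), ?_⟩
    have h1 := cD5_step hs (-((i - s 0).natAbs : ℤ)) (i - s 0).natAbs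
    rw [neg_add_cancel] at h1
    omega
  obtain ⟨j, hj, hmax⟩ := Int.exists_greatest_of_bdd hb hi
  refine ⟨j, hj, ?_⟩
  by_contra hcon
  push Not at hcon
  have := hmax _ hcon
  omega

theorem cD5_sper (hper : ∀ j, s (j + q) = s j + n) (j k : ℤ) : s (j + k * q) = s j + k * n := by
  induction k with
  | zero => simp
  | succ k ih =>
    have := hper (j + k * q)
    rw [ih] at this
    rw [show j + ((k : ℤ) + 1) * q = j + k * q + q by ring, this]
    ring
  | pred k ih =>
    have := hper (j + (-(k : ℤ) - 1) * q)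
    rw [show j + (-(k : ℤ) - 1) * q + q = j + -(k : ℤ) * q by ring, ih] at this
    linarith

end sub

section dirs

theorem cD5_dir_add (w a b : ℂ) (t : ℝ) :
    dir w (a + (t : ℂ) * b) = dir w a + t * dir w b := by
  unfold dir
  simp only [Complex.add_re, Complex.add_im, Complex.mul_re, Complex.mul_im, Complex.ofReal_re,
    Complex.ofReal_im]
  ring

theorem cD5_dir_sub (w a b : ℂ) : dir w (a - b) = dir w a - dir w b := by
  unfold dir
  simp only [Complex.sub_re, Complex.sub_im]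
  ring

theorem cD5_lin (w a b d x : ℂ) (σ : ℝ) :
    (σ * cross b d a) * (dir w x - dir w b) =
      (σ * cross a b x) * (dir w d - dir w b) + (σ * cross b d x) * (dir w a - dir w b) := by
  unfold dir cross
  ring

theorem cD5_flat {w a b : ℂ} (hw : w ≠ 0) (hab : a ≠ b) (h : dir w a = dir w b) :
    ∃ μ : ℝ, μ ≠ 0 ∧ ∀ x, dir w x - dir w a = μ * cross a b x := by
  have he : 0 < (b.re - a.re) ^ 2 + (b.im - a.im) ^ 2 := by
    rcases (sq_nonneg (b.re - a.re)).lt_or_eq with h1 | h1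
    · nlinarith [sq_nonneg (b.im - a.im)]
    · rcases (sq_nonneg (b.im - a.im)).lt_or_eq with h2 | h2
      · nlinarith [sq_nonneg (b.re - a.re)]
      · exfalso
        apply hab
        apply Complex.ext
        · have := pow_eq_zero_iff (two_ne_zero) |>.1 h1.symm
          linarith
        · have := pow_eq_zero_iff (two_ne_zero) |>.1 h2.symm
          linarith
  set E := (b.re - a.re) ^ 2 + (b.im - a.im) ^ 2 with hE
  have h0 : w.re * (b.re - a.re) + w.im * (b.im - a.im) = 0 := by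
    unfold dir at h
    linarith
  set ν := w.im * (b.re - a.re) - w.re * (b.im - a.im) with hν
  have hwre : E * w.re = -ν * (b.im - a.im) := by
    rw [hE, hν]
    linear_combination (b.re - a.re) * h0
  have hwim : E * w.im = ν * (b.re - a.re) := by
    rw [hE, hν]
    linear_combination (b.im - a.im) * h0
  refine ⟨ν / E, ?_, fun x => ?_⟩
  · intro hcon
    have hν0 : ν = 0 := by
      rcases div_eq_zero_iff.1 hcon with h1 | h1
      · exact h1
      · exact absurd h1 he.ne'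
    apply hw
    rw [hν0] at hwre hwim
    apply Complex.ext
    · have : E * w.re = 0 := by rw [hwre]; ring
      exact (mul_eq_zero.1 this).resolve_left he.ne'
    · have : E * w.im = 0 := by rw [hwim]; ring
      exact (mul_eq_zero.1 this).resolve_left he.ne'
  · rw [div_mul_eq_mul_div, eq_div_iff he.ne']
    unfold dir cross
    linear_combination (x.re - a.re) * hwre + (x.im - a.im) * hwim

end dirs

section geom

variable {q : ℕ} {z : ℤ → ℂ} {σ : ℝ}

theorem cD5_D (hq : 3 ≤ q)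
    (hσ : ∀ i j, ¬ (q : ℤ) ∣ j - i → ¬ (q : ℤ) ∣ j - (i + 1) →
      0 < σ * cross (z i) (z (i + 1)) (z j)) (m : ℤ) :
    0 < σ * cross (z m) (z (m + 1)) (z (m - 1)) :=
  hσ m (m - 1) (cG2_ndvd hq (by omega) (by omega) (by omega))
      (cG2_ndvd hq (by omega) (by omega) (by omega))

theorem cD5_locmax (hq : 3 ≤ q) (hz : ∀ i, z (i + q) = z i)
    (hσ : ∀ i j, ¬ (q : ℤ) ∣ j - i → ¬ (q : ℤ) ∣ j - (i + 1) →
      0 < σ * cross (z i) (z (i + 1)) (z j)) {w : ℂ} {m : ℤ}
    (h1 : dir w (z (m + 1)) ≤ dir w (z m)) (h2 : dir w (z (m - 1)) ≤ dir w (z m)) :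
    ∀ x ∈ convexHull ℝ (range z), dir w x ≤ dir w (z m) := by
  intro x hx
  rw [cG2_hull hq hz hσ] at hx
  have hD := cD5_D hq hσ m
  have h3 := cD5_lin w (z (m - 1)) (z m) (z (m + 1)) x σ
  have h4 := hx (m - 1)
  have h5 := hx m
  rw [sub_add_cancel] at h4
  by_contra hcon
  push Not at hcon
  have h6 := mul_pos hD (sub_pos.2 hcon)
  have h7 := mul_nonpos_of_nonneg_of_nonpos h4 (sub_nonpos.2 h1)
  have h8 := mul_nonpos_of_nonneg_of_nonpos h5 (sub_nonpos.2 h2)
  linarith

/-- The maximal corners lie on one side. -/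
theorem cD5_maxset (hq : 3 ≤ q) (hz : ∀ i, z (i + q) = z i)
    (hσ : ∀ i j, ¬ (q : ℤ) ∣ j - i → ¬ (q : ℤ) ∣ j - (i + 1) →
      0 < σ * cross (z i) (z (i + 1)) (z j)) {w : ℂ} (hw : w ≠ 0) :
    ∃ m, (∀ k, dir w (z k) ≤ dir w (z m)) ∧
      ∀ t, dir w (z t) = dir w (z m) → (q : ℤ) ∣ t - m ∨ (q : ℤ) ∣ t - (m + 1) := by
  have hfin : (range z).Finite := cG2_fin (by omega) hz
  obtain ⟨_, ⟨m₀, rfl⟩, hm₀⟩ := exists_max_image (range z) (fun x => dir w x) hfin ⟨z 0, 0, rfl⟩
  have hmax : ∀ k, dir w (z k) ≤ dir w (z m₀) := fun k => hm₀ _ ⟨k, rfl⟩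
  have key : ∀ m, (∀ k, dir w (z k) ≤ dir w (z m)) → dir w (z (m - 1)) < dir w (z m) →
      ∀ t, dir w (z t) = dir w (z m) → (q : ℤ) ∣ t - m ∨ (q : ℤ) ∣ t - (m + 1) := by
    intro m hm hlt t ht
    by_contra hcon
    push Not at hcon
    have h1 := hσ m t hcon.1 hcon.2
    have h2 := cD5_lin w (z (m - 1)) (z m) (z (m + 1)) (z t) σ
    rw [ht, sub_self, mul_zero] at h2
    have h3 : 0 ≤ σ * cross (z (m - 1)) (z m) (z t) := by
      have := cG2_aux hq hz hσ (m - 1) t
      rwa [sub_add_cancel] at this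
    have h4 := mul_nonpos_of_nonneg_of_nonpos h3 (sub_nonpos.2 (hm (m + 1)))
    have h5 := mul_neg_of_pos_of_neg h1 (sub_neg.2 hlt)
    linarith
  rcases (hmax (m₀ - 1)).lt_or_eq with h | h
  · exact ⟨m₀, hmax, key m₀ hmax h⟩
  · have hmax' : ∀ k, dir w (z k) ≤ dir w (z (m₀ - 1)) := fun k => by rw [h]; exact hmax k
    refine ⟨m₀ - 1, hmax', key (m₀ - 1) hmax' ?_⟩
    rcases (hmax' (m₀ - 1 - 1)).lt_or_eq with h' | h'
    · exact h'
    · exfalso
      have h1 := cD5_D hq hσ (m₀ - 1)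
      rw [sub_add_cancel] at h1
      have hne : z (m₀ - 1) ≠ z m₀ := by
        intro hcon
        rw [hcon] at h1
        have : cross (z m₀) (z m₀) (z (m₀ - 1 - 1)) = 0 := by unfold cross; ring
        rw [this, mul_zero] at h1
        exact lt_irrefl _ h1
      obtain ⟨μ, hμ, hx⟩ := cD5_flat hw hne h
      have h2 := hx (z (m₀ - 1 - 1))
      rw [h', sub_self] at h2
      have h3 : cross (z (m₀ - 1)) (z m₀) (z (m₀ - 1 - 1)) = 0 :=
        (mul_eq_zero.1 h2.symm).resolve_left hμ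
      rw [h3, mul_zero] at h1
      exact lt_irrefl _ h1

end geom

section poly

variable {n q : ℕ} {z p : ℤ → ℂ} {s : ℤ → ℤ} {σ : ℝ}

/-- The hypotheses of D5. -/
structure D5Hyp (n q : ℕ) (z p : ℤ → ℂ) (s : ℤ → ℤ) (σ : ℝ) : Prop where
  hq : 3 ≤ q
  hz : ∀ i, z (i + q) = z i
  hσ1 : σ = 1 ∨ σ = -1
  hσ : ∀ i j, ¬ (q : ℤ) ∣ j - i → ¬ (q : ℤ) ∣ j - (i + 1) → 0 < σ * cross (z i) (z (i + 1)) (z j)
  hs : StrictMono s
  hper : ∀ j, s (j + q) = s j + n
  pper : ∀ i, p (i + n) = p i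
  hp : ∀ j i, s j ≤ i → i ≤ s (j + 1) → p i = z j +
    ((((i - s j : ℤ) : ℝ) / ((s (j + 1) - s j : ℤ) : ℝ) : ℝ) : ℂ) * (z (j + 1) - z j)

/-- The parameter of an index on its side. -/
noncomputable def d5a (s : ℤ → ℤ) (j i : ℤ) : ℝ :=
  ((i - s j : ℤ) : ℝ) / ((s (j + 1) - s j : ℤ) : ℝ)

namespace D5Hyp

variable (H : D5Hyp n q z p s σ)

include H

theorem len (j : ℤ) : (0 : ℝ) < ((s (j + 1) - s j : ℤ) : ℝ) := by
  have := H.hs (show j < j + 1 by omega)
  exact_mod_cast (by omega : (0 : ℤ) < s (j + 1) - s j)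

theorem a_zero (j : ℤ) : d5a s j (s j) = 0 := by
  unfold d5a
  simp

theorem a_one (j : ℤ) : d5a s j (s (j + 1)) = 1 := by
  unfold d5a
  exact div_self (H.len j).ne'

theorem a_lt {j i k : ℤ} : d5a s j i < d5a s j k ↔ i < k := by
  unfold d5a
  rw [div_lt_div_iff_of_pos_right (H.len j)]
  constructor
  · intro h
    have h' : i - s j < k - s j := by exact_mod_cast h
    omega
  · intro h
    exact_mod_cast (by omega : i - s j < k - s j)

theorem a_le {j i k : ℤ} : d5a s j i ≤ d5a s j k ↔ i ≤ k := by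
  have := H.a_lt (j := j) (i := k) (k := i)
  constructor
  · intro h
    by_contra hcon
    exact absurd (this.2 (by omega)) (not_lt.2 h)
  · intro h
    by_contra hcon
    have := this.1 (not_le.1 hcon)
    omega

theorem pos (j i : ℤ) (h1 : s j ≤ i) (h2 : i ≤ s (j + 1)) :
    p i = z j + ((d5a s j i : ℝ) : ℂ) * (z (j + 1) - z j) := H.hp j i h1 h2

theorem pdir (w : ℂ) (j i : ℤ) (h1 : s j ≤ i) (h2 : i ≤ s (j + 1)) :
    dir w (p i) = dir w (z j) + d5a s j i * (dir w (z (j + 1)) - dir w (z j)) := by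
  rw [H.pos j i h1 h2, cD5_dir_add, cD5_dir_sub]

theorem corner (j : ℤ) : p (s j) = z j := by
  rw [H.pos j (s j) le_rfl (H.hs.monotone (by omega)), H.a_zero]
  simp

theorem a_mem {j i : ℤ} (h1 : s j ≤ i) (h2 : i ≤ s (j + 1)) :
    0 ≤ d5a s j i ∧ d5a s j i ≤ 1 := by
  constructor
  · rw [← H.a_zero j]
    exact H.a_le.2 h1
  · rw [← H.a_one j]
    exact H.a_le.2 h2

theorem pseg (j i : ℤ) (h1 : s j ≤ i) (h2 : i ≤ s (j + 1)) :
    p i ∈ segment ℝ (z j) (z (j + 1)) := by
  obtain ⟨h3, h4⟩ := H.a_mem h1 h2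
  refine ⟨1 - d5a s j i, d5a s j i, by linarith, h3, by ring, ?_⟩
  rw [H.pos j i h1 h2, Complex.real_smul, Complex.real_smul]
  push_cast
  ring

theorem phull (i : ℤ) : p i ∈ convexHull ℝ (range z) := by
  obtain ⟨j, h1, h2⟩ := cD5_find H.hs i
  exact (convex_convexHull ℝ (range z)).segment_subset (subset_convexHull ℝ _ ⟨j, rfl⟩)
    (subset_convexHull ℝ _ ⟨j + 1, rfl⟩) (H.pseg j i h1 h2.le)

theorem zne (j : ℤ) : z j ≠ z (j + 1) := by
  intro h
  have := (cG2_inj H.hq H.hz H.hσ j (j + 1)).1 h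
  exact cG2_ndvd H.hq (by omega) (by omega) (by omega) this

theorem nonneg (j : ℤ) (x : ℂ) (hx : x ∈ convexHull ℝ (range z)) :
    0 ≤ σ * cross (z j) (z (j + 1)) x := by
  rw [cG2_hull H.hq H.hz H.hσ] at hx
  exact hx j

/-- (2) -/
theorem nb (w : ℂ) (hw : w ≠ 0) (i : ℤ) (hk : ∃ k, dir w (p i) < dir w (p k))
    (hk' : ∃ k, dir w (p k) < dir w (p i)) :
    dir w (p i) < dir w (p (i + 1)) ∨ dir w (p i) < dir w (p (i - 1)) := by
  by_contra hcon
  push Not at hcon
  obtain ⟨h1, h2⟩ := hcon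
  obtain ⟨j, hj1, hj2⟩ := cD5_find H.hs i
  obtain ⟨k, hk⟩ := hk
  obtain ⟨k', hk'⟩ := hk'
  rw [H.pdir w j (i + 1) (by omega) (by omega), H.pdir w j i hj1 hj2.le] at h1
  have ha1 : d5a s j i < d5a s j (i + 1) := H.a_lt.2 (by omega)
  have hΔ : dir w (z (j + 1)) - dir w (z j) ≤ 0 := by
    by_contra hcon
    push Not at hcon
    have := mul_pos (sub_pos.2 ha1) hcon
    linarith
  rcases hj1.lt_or_eq with hlt | heq
  · rw [H.pdir w j (i - 1) (by omega) (by omega), H.pdir w j i hj1 hj2.le] at h2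
    have ha2 : d5a s j (i - 1) < d5a s j i := H.a_lt.2 (by omega)
    have hΔ' : 0 ≤ dir w (z (j + 1)) - dir w (z j) := by
      by_contra hcon
      push Not at hcon
      have := mul_neg_of_pos_of_neg (sub_pos.2 ha2) hcon
      linarith
    have hΔ0 : dir w (z (j + 1)) - dir w (z j) = 0 := le_antisymm hΔ hΔ'
    obtain ⟨μ, hμ, hx⟩ := cD5_flat hw (H.zne j) (by linarith)
    have hpi : dir w (p i) = dir w (z j) := by
      rw [H.pdir w j i hj1 hj2.le, hΔ0]
      ring
    have e1 := hx (p k)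
    have e2 := hx (p k')
    rw [hpi] at hk hk'
    have c1 := H.nonneg j _ (H.phull k)
    have c2 := H.nonneg j _ (H.phull k')
    have g1 : 0 < μ * cross (z j) (z (j + 1)) (p k) := by rw [← e1]; linarith
    have g2 : μ * cross (z j) (z (j + 1)) (p k') < 0 := by rw [← e2]; linarith
    have g3 := mul_neg_of_pos_of_neg g1 g2
    have g4 := mul_nonneg c1 c2
    have hσσ : σ * σ = 1 := by rcases H.hσ1 with h | h <;> rw [h] <;> norm_num
    have g5 : 0 ≤ cross (z j) (z (j + 1)) (p k) * cross (z j) (z (j + 1)) (p k') := by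
      have : σ * cross (z j) (z (j + 1)) (p k) * (σ * cross (z j) (z (j + 1)) (p k')) =
        (σ * σ) * (cross (z j) (z (j + 1)) (p k) * cross (z j) (z (j + 1)) (p k')) := by ring
      rw [this, hσσ, one_mul] at g4
      exact g4
    have g6 : 0 ≤ (μ * μ) * (cross (z j) (z (j + 1)) (p k) * cross (z j) (z (j + 1)) (p k')) :=
      mul_nonneg (mul_self_nonneg μ) g5
    have : μ * cross (z j) (z (j + 1)) (p k) * (μ * cross (z j) (z (j + 1)) (p k')) =
      (μ * μ) * (cross (z j) (z (j + 1)) (p k) * cross (z j) (z (j + 1)) (p k')) := by ring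
    linarith
  · have hlt : s (j - 1) < s j := H.hs (by omega)
    have h3 : s (j - 1 + 1) = s j := by rw [sub_add_cancel]
    have h4 := H.pdir w (j - 1) (i - 1) (by omega) (by omega)
    rw [sub_add_cancel] at h4
    have hpi : dir w (p i) = dir w (z j) := by rw [← heq, H.corner]
    have ha2 : d5a s (j - 1) (i - 1) < 1 := by
      rw [← H.a_one (j - 1)]
      exact H.a_lt.2 (by omega)
    rw [h4, hpi] at h2
    have hle : dir w (z (j - 1)) ≤ dir w (z j) := by
      by_contra hcon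
      push Not at hcon
      have := mul_pos (sub_pos.2 ha2) (sub_pos.2 hcon)
      nlinarith
    have := cD5_locmax H.hq H.hz H.hσ (w := w) (m := j) (by linarith) hle _ (H.phull k)
    linarith

/-- (3) -/
theorem maxi (w : ℂ) (hw : w ≠ 0) : ∃ j, ∀ i, (∀ k, dir w (p k) ≤ dir w (p i)) →
    ∃ i', (n : ℤ) ∣ i' - i ∧ s j ≤ i' ∧ i' ≤ s (j + 1) := by
  obtain ⟨m, hm, hm'⟩ := cD5_maxset H.hq H.hz H.hσ hw
  refine ⟨m, fun i hi => ?_⟩
  obtain ⟨t, h1, h2⟩ := cD5_find H.hs i
  have h3 : dir w (z m) ≤ dir w (p i) := by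
    rw [← H.corner m]
    exact hi _
  rw [H.pdir w t i h1 h2.le] at h3
  obtain ⟨ha0, -⟩ := H.a_mem h1 h2.le
  have ha1 : d5a s t i < 1 := by
    rw [← H.a_one t]
    exact H.a_lt.2 h2
  have ht := hm t
  have ht1 := hm (t + 1)
  have hat : dir w (z t) = dir w (z m) := by
    rcases ht.lt_or_eq with h | h
    · exfalso
      have g1 := mul_pos (sub_pos.2 ha1) (sub_pos.2 h)
      have g2 := mul_nonneg ha0 (sub_nonneg.2 ht1)
      nlinarith
    · exact h
  have hshift : ∀ c : ℤ, ∀ j, s (j - c * q) = s j - c * n := by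
    intro c j
    have := cD5_sper H.hper j (-c)
    rw [show j - c * q = j + -c * q by ring, this]
    ring
  rcases hm' t hat with ⟨c, hc⟩ | ⟨c, hc⟩
  · have e1 := hshift c t
    have e2 := hshift c (t + 1)
    rw [show t - c * q = m by linarith [mul_comm c (q : ℤ)]] at e1
    rw [show t + 1 - c * q = m + 1 by linarith [mul_comm c (q : ℤ)]] at e2
    exact ⟨i - c * n, ⟨-c, by ring⟩, by omega, by omega⟩
  · have e1 := hshift c t
    rw [show t - c * q = m + 1 by linarith [mul_comm c (q : ℤ)]] at e1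
    rcases h1.lt_or_eq with hlt | heq
    · exfalso
      have hapos : 0 < d5a s t i := by
        rw [← H.a_zero t]
        exact H.a_lt.2 hlt
      have hat1 : dir w (z (t + 1)) = dir w (z m) := by
        rcases ht1.lt_or_eq with h | h
        · exfalso
          have g1 := mul_pos hapos (sub_pos.2 h)
          rw [hat] at h3
          nlinarith
        · exact h
      have hq := H.hq
      rcases hm' (t + 1) hat1 with ⟨d, hd⟩ | ⟨d, hd⟩
      · have : (q : ℤ) ∣ 2 := ⟨d - c, by linarith [mul_sub (q : ℤ) d c]⟩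
        exact cG2_ndvd hq (by omega) (by omega) (by omega) this
      · have : (q : ℤ) ∣ 1 := ⟨d - c, by linarith [mul_sub (q : ℤ) d c]⟩
        exact cG2_ndvd hq (by omega) (by omega) (by omega) this
    · have := H.hs (show m < m + 1 by omega)
      exact ⟨i - c * n, ⟨-c, by ring⟩, by omega, by omega⟩

/-- A local maximum with a lower value somewhere is a global maximum. -/
theorem glob (w : ℂ) (hw : w ≠ 0) (i : ℤ) (h1 : dir w (p (i + 1)) ≤ dir w (p i))
    (h2 : dir w (p (i - 1)) ≤ dir w (p i)) (h3 : ∃ k, dir w (p k) < dir w (p i)) :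
    ∀ k, dir w (p k) ≤ dir w (p i) := by
  by_contra hcon
  push Not at hcon
  rcases H.nb w hw i hcon h3 with h | h
  · linarith
  · linarith

/-- A maximum over an arc which is larger than the values at the ends. -/
theorem arcmax (w : ℂ) (hw : w ≠ 0) (c : ℝ) (l k m : ℤ) (h1 : l < k) (h2 : k < m)
    (hl : dir w (p l) ≤ c) (hk : c < dir w (p k)) (hm : dir w (p m) ≤ c) :
    ∃ k', l < k' ∧ k' < m ∧ c < dir w (p k') ∧ ∀ r, dir w (p r) ≤ dir w (p k') := by
  obtain ⟨k', hk', hmax⟩ := Finset.exists_max_image (Finset.Icc l m) (fun i => dir w (p i))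
    ⟨k, Finset.mem_Icc.2 ⟨h1.le, h2.le⟩⟩
  rw [Finset.mem_Icc] at hk'
  have h3 : c < dir w (p k') := lt_of_lt_of_le hk (hmax k (Finset.mem_Icc.2 ⟨h1.le, h2.le⟩))
  have h4 : l ≠ k' := by
    rintro rfl
    linarith
  have h5 : k' ≠ m := by
    rintro rfl
    linarith
  have h6 : l < k' := by omega
  have h7 : k' < m := by omega
  refine ⟨k', h6, h7, h3, ?_⟩
  refine H.glob w hw k' (hmax _ (Finset.mem_Icc.2 ⟨by omega, by omega⟩))
    (hmax _ (Finset.mem_Icc.2 ⟨by omega, by omega⟩)) ⟨l, by linarith⟩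

theorem side_lt (j : ℤ) : s (j + 1) < s j + n := by
  rw [← H.hper j]
  have := H.hq
  exact H.hs (by omega)

theorem pperi (i c : ℤ) : p (i + c * n) = p i := by
  apply cG2_per H.pper
  exact ⟨c, by ring⟩

/-- (1) -/
theorem arc (w : ℂ) (hw : w ≠ 0) (c : ℝ) (i k : ℤ) (hik : i ≤ k) (hkn : k ≤ i + n)
    (hi : c < dir w (p i)) (hk : c < dir w (p k)) :
    (∀ l, i ≤ l → l ≤ k → c < dir w (p l)) ∨ ∀ l, k ≤ l → l ≤ i + n → c < dir w (p l) := by
  by_contra hcon
  push Not at hcon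
  obtain ⟨⟨l, hl1, hl2, hl3⟩, ⟨m, hm1, hm2, hm3⟩⟩ := hcon
  have hin : dir w (p (i + n)) = dir w (p i) := by rw [H.pper]
  have n1 : l ≠ i := by rintro rfl; linarith
  have n2 : l ≠ k := by rintro rfl; linarith
  have n3 : m ≠ k := by rintro rfl; linarith
  have n4 : m ≠ i + n := by rintro rfl; linarith
  have hmn : dir w (p (m - n)) ≤ c := by
    have := H.pper (m - n)
    rw [sub_add_cancel] at this
    rw [← this]
    exact hm3
  obtain ⟨k', a1, a2, a3, a4⟩ := H.arcmax w hw c l k m (by omega) (by omega) hl3 hk hm3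
  obtain ⟨i', b1, b2, b3, b4⟩ := H.arcmax w hw c (m - n) i l (by omega) (by omega) hmn hi hl3
  obtain ⟨j, hj⟩ := H.maxi w hw
  obtain ⟨k'', ⟨B, hB⟩, k1, k2⟩ := hj k' a4
  obtain ⟨i'', ⟨A, hA⟩, i1, i2⟩ := hj i' b4
  have hk'' : k'' = k' + B * n := by linarith [mul_comm (n : ℤ) B]
  have hi'' : i'' = i' + A * n := by linarith [mul_comm (n : ℤ) A]
  have hside := H.side_lt j
  -- all indices of the side are maximal
  have hpk : dir w (p k'') = dir w (p k') := by rw [hk'', H.pperi]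
  have hpi : dir w (p i'') = dir w (p i') := by rw [hi'', H.pperi]
  have hmm : dir w (p i'') = dir w (p k'') := by
    rw [hpk, hpi]
    exact le_antisymm (a4 i') (b4 k')
  have hne : i'' ≠ k'' := by
    intro hcon
    rw [hk'', hi''] at hcon
    have h1 : (B - A) * n = i' - k' := by linarith [sub_mul B A (n : ℤ)]
    have h2 : (B - A) * n < 0 := by omega
    have h3 : -(n : ℤ) < (B - A) * n := by omega
    have hn0 : (0 : ℤ) < n := by
      by_contra h0
      have : (n : ℤ) = 0 := by omega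
      rw [this] at h2
      simp at h2
    have h4 : B - A < 0 := by
      by_contra h0
      have := mul_nonneg (not_lt.1 h0) hn0.le
      omega
    have h5 : -1 < B - A := by
      by_contra h0
      have : (B - A) * n ≤ -1 * n := mul_le_mul_of_nonneg_right (not_lt.1 h0) hn0.le
      omega
    omega
  have hΔ : dir w (z (j + 1)) - dir w (z j) = 0 := by
    rw [H.pdir w j i'' i1 i2, H.pdir w j k'' k1 k2] at hmm
    have h1 : (d5a s j i'' - d5a s j k'') * (dir w (z (j + 1)) - dir w (z j)) = 0 := by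
      rw [sub_mul]
      linarith
    rcases mul_eq_zero.1 h1 with h | h
    · exfalso
      have e1 : i'' ≤ k'' := H.a_le.1 (by linarith : d5a s j i'' ≤ d5a s j k'')
      have e2 : k'' ≤ i'' := H.a_le.1 (by linarith : d5a s j k'' ≤ d5a s j i'')
      omega
    · exact h
  have hall : ∀ r, s j ≤ r → r ≤ s (j + 1) → dir w (p r) = dir w (p k') := by
    intro r r1 r2
    rw [H.pdir w j r r1 r2, ← hpk, H.pdir w j k'' k1 k2, hΔ]
    ring
  have hn0 : (0 : ℤ) < n := by omega
  have hBA : (B - A) * n = (k'' - i'') - (k' - i') := by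
    rw [hk'', hi'']
    ring
  have hlt1 : B - A < 1 := by
    by_contra h0
    have : 1 * (n : ℤ) ≤ (B - A) * n := mul_le_mul_of_nonneg_right (not_lt.1 h0) hn0.le
    omega
  have hlt2 : -2 < B - A := by
    by_contra h0
    have : (B - A) * (n : ℤ) ≤ -2 * n := mul_le_mul_of_nonneg_right (not_lt.1 h0) hn0.le
    omega
  have hcase : B - A = 0 ∨ B - A = -1 := by omega
  rcases hcase with h | h
  · have hAB : A = B := by omega
    subst hAB
    have := hall (l + A * n) (by omega) (by omega)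
    rw [H.pperi] at this
    linarith
  · have hAB : A = B + 1 := by omega
    subst hAB
    have e1 : (B + 1) * (n : ℤ) = B * n + n := by ring
    have := hall (m + B * n) (by omega) (by omega)
    rw [H.pperi] at this
    linarith

/-- (4) -/
theorem supp (i : ℤ) : ∃ w : ℂ, w ≠ 0 ∧ dir w (p i) = dir w (p (i + 1)) ∧
    ∀ k, dir w (p k) ≤ dir w (p i) := by
  obtain ⟨j, h1, h2⟩ := cD5_find H.hs i
  have hσ0 : σ ≠ 0 := by rcases H.hσ1 with h | h <;> rw [h] <;> norm_num
  refine ⟨⟨σ * ((z (j + 1)).im - (z j).im), -σ * ((z (j + 1)).re - (z j).re)⟩, ?_, ?_, ?_⟩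
  · intro hcon
    have e1 : σ * ((z (j + 1)).im - (z j).im) = 0 := congrArg Complex.re hcon
    have e2 : -σ * ((z (j + 1)).re - (z j).re) = 0 := congrArg Complex.im hcon
    apply H.zne j
    apply Complex.ext
    · have := (mul_eq_zero.1 e2).resolve_left (neg_ne_zero.2 hσ0)
      linarith
    · have := (mul_eq_zero.1 e1).resolve_left hσ0
      linarith
  · set w : ℂ := ⟨σ * ((z (j + 1)).im - (z j).im), -σ * ((z (j + 1)).re - (z j).re)⟩ with hw
    have e : dir w (z (j + 1)) - dir w (z j) = 0 := by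
      simp only [dir, hw]
      ring
    rw [H.pdir w j i h1 h2.le, H.pdir w j (i + 1) (by omega) (by omega), e]
    ring
  · intro k
    set w : ℂ := ⟨σ * ((z (j + 1)).im - (z j).im), -σ * ((z (j + 1)).re - (z j).re)⟩ with hw
    have e : dir w (z (j + 1)) - dir w (z j) = 0 := by
      simp only [dir, hw]
      ring
    rw [H.pdir w j i h1 h2.le, e]
    have e2 : ∀ x, dir w x = dir w (z j) - σ * cross (z j) (z (j + 1)) x := by
      intro x
      simp only [dir, cross, hw]
      ring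
    rw [e2 (p k)]
    have := H.nonneg j _ (H.phull k)
    linarith

/-- (5) -/
theorem pne (i : ℤ) : p i ≠ p (i + 1) := by
  obtain ⟨j, h1, h2⟩ := cD5_find H.hs i
  intro h
  rw [H.pos j i h1 h2.le, H.pos j (i + 1) (by omega) (by omega)] at h
  have h3 : ((d5a s j i : ℂ) - (d5a s j (i + 1) : ℂ)) * (z (j + 1) - z j) = 0 := by
    linear_combination h
  rcases mul_eq_zero.1 h3 with h4 | h4
  · have h5 : d5a s j i < d5a s j (i + 1) := H.a_lt.2 (by omega)
    have h6 : (d5a s j i : ℂ) = (d5a s j (i + 1) : ℂ) := sub_eq_zero.1 h4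
    have h7 : d5a s j i = d5a s j (i + 1) := by exact_mod_cast h6
    linarith
  · exact H.zne j (sub_eq_zero.1 h4).symm

/-- Points of a small segment have a parameter on the side. -/
theorem param (j i : ℤ) (h1 : s j ≤ i) (h2 : i < s (j + 1)) (u : ℂ)
    (hu : u ∈ segment ℝ (p i) (p (i + 1))) : ∃ t : ℝ, d5a s j i ≤ t ∧ t ≤ d5a s j (i + 1) ∧
      u = z j + (t : ℂ) * (z (j + 1) - z j) := by
  obtain ⟨a, b, ha, hb, hab, rfl⟩ := hu
  have h3 : d5a s j i < d5a s j (i + 1) := H.a_lt.2 (by omega)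
  refine ⟨a * d5a s j i + b * d5a s j (i + 1), ?_, ?_, ?_⟩
  · have := mul_le_mul_of_nonneg_left h3.le hb
    have e : d5a s j i = a * d5a s j i + b * d5a s j i := by rw [← add_mul, hab, one_mul]
    linarith
  · have := mul_le_mul_of_nonneg_left h3.le ha
    have e : d5a s j (i + 1) = a * d5a s j (i + 1) + b * d5a s j (i + 1) := by
      rw [← add_mul, hab, one_mul]
    linarith
  · rw [H.pos j i h1 h2.le, H.pos j (i + 1) (by omega) (by omega), Complex.real_smul,
      Complex.real_smul]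
    have e : (a : ℂ) = 1 - b := by
      rw [← Complex.ofReal_one, ← Complex.ofReal_sub]
      congr 1
      linarith
    push_cast
    rw [e]
    ring

theorem param_inj (j : ℤ) {t t' : ℝ} (h : z j + (t : ℂ) * (z (j + 1) - z j) =
    z j + (t' : ℂ) * (z (j + 1) - z j)) : t = t' := by
  have h3 : ((t : ℂ) - (t' : ℂ)) * (z (j + 1) - z j) = 0 := by
    linear_combination h
  rcases mul_eq_zero.1 h3 with h4 | h4
  · have h6 : (t : ℂ) = (t' : ℂ) := sub_eq_zero.1 h4
    exact_mod_cast h6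
  · exact absurd (sub_eq_zero.1 h4).symm (H.zne j)

/-- (6), on one side -/
theorem inter_same (j i k : ℤ) (h1 : s j ≤ i) (h2 : i < s (j + 1)) (h3 : s j ≤ k)
    (h4 : k < s (j + 1)) (hik : i < k) (u : ℂ) (hu : u ∈ segment ℝ (p i) (p (i + 1)))
    (hu' : u ∈ segment ℝ (p k) (p (k + 1))) : k = i + 1 ∧ u = p k := by
  obtain ⟨t, t1, t2, t3⟩ := H.param j i h1 h2 u hu
  obtain ⟨t', t1', t2', t3'⟩ := H.param j k h3 h4 u hu'
  have ht : t = t' := H.param_inj j (by rw [← t3, ← t3'])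
  subst ht
  have h5 : k ≤ i + 1 := H.a_le.1 (t1'.trans t2)
  have h6 : k = i + 1 := by omega
  refine ⟨h6, ?_⟩
  have h7 : t = d5a s j k := by
    rw [h6] at t1' ⊢
    exact le_antisymm t2 t1'
  rw [t3, h7, H.pos j k h3 h4.le]

/-- (6) -/
theorem inter (hG : Stmt_PolyGeom) (i k : ℤ) (hik : ¬ (n : ℤ) ∣ i - k) (u : ℂ)
    (hu : u ∈ segment ℝ (p i) (p (i + 1))) (hu' : u ∈ segment ℝ (p k) (p (k + 1))) :
    ((n : ℤ) ∣ k - (i + 1) ∧ u = p k) ∨ ((n : ℤ) ∣ i - (k + 1) ∧ u = p i) := by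
  have hP : StrictPoly q z := ⟨H.hq, H.hz, σ, H.hσ1, H.hσ⟩
  obtain ⟨-, -, -, hseg, -, -⟩ := hG q z hP
  obtain ⟨j, j1, j2⟩ := cD5_find H.hs i
  obtain ⟨t, t1, t2⟩ := cD5_find H.hs k
  have hsub : ∀ j i, s j ≤ i → i < s (j + 1) → segment ℝ (p i) (p (i + 1)) ⊆
      segment ℝ (z j) (z (j + 1)) := fun j i h1 h2 =>
    (convex_segment _ _).segment_subset (H.pseg j i h1 h2.le)
      (H.pseg j (i + 1) (by omega) (by omega))
  have hshift : ∀ c : ℤ, ∀ j, s (j + c * q) = s j + c * n := fun c j => cD5_sper H.hper j c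
  -- the case of adjacent sides
  have key : ∀ j t i k, s j ≤ i → i < s (j + 1) → s t ≤ k → k < s (t + 1) →
      (q : ℤ) ∣ t - (j + 1) → u = z t → u ∈ segment ℝ (p i) (p (i + 1)) →
      u ∈ segment ℝ (p k) (p (k + 1)) → (n : ℤ) ∣ k - (i + 1) ∧ u = p k := by
    intro j t i k j1 j2 t1 t2 hd hut hu hu'
    obtain ⟨a, a1, a2, a3⟩ := H.param j i j1 j2 u hu
    obtain ⟨b, b1, b2, b3⟩ := H.param t k t1 t2 u hu'
    have hzt : z t = z (j + 1) := cG2_per H.hz hd
    have ha : a = 1 := by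
      apply H.param_inj j
      rw [← a3, hut, hzt]
      push_cast
      ring
    have hb : b = 0 := by
      apply H.param_inj t
      rw [← b3, hut]
      push_cast
      ring
    have hi : s (j + 1) ≤ i + 1 := by
      rw [← H.a_le (j := j), H.a_one, ← ha]
      exact a2
    have hk : k ≤ s t := by
      rw [← H.a_le (j := t), H.a_zero, ← hb]
      exact b1
    have hi' : i + 1 = s (j + 1) := by omega
    have hk' : k = s t := by omega
    obtain ⟨c, hc⟩ := hd
    refine ⟨⟨c, ?_⟩, ?_⟩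
    · have := hshift c (j + 1)
      rw [show j + 1 + c * q = t by linarith [mul_comm c (q : ℤ)]] at this
      rw [hk', hi', this]
      ring
    · rw [hk', H.corner, hut]
  by_cases hjt : (q : ℤ) ∣ j - t
  · obtain ⟨c, hc⟩ := hjt
    have e1 := hshift c t
    have e2 := hshift c (t + 1)
    rw [show t + c * q = j by linarith [mul_comm c (q : ℤ)]] at e1
    rw [show t + 1 + c * q = j + 1 by linarith [mul_comm c (q : ℤ)]] at e2
    have hk1 : p (k + c * n) = p k := H.pperi k c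
    have hk2 : p (k + c * n + 1) = p (k + 1) := by
      rw [show k + c * n + 1 = (k + 1) + c * n by ring, H.pperi]
    have hne : i ≠ k + c * n := by
      intro h
      apply hik
      exact ⟨c, by rw [h]; ring⟩
    have hu'' : u ∈ segment ℝ (p (k + c * n)) (p (k + c * n + 1)) := by
      rw [hk1, hk2]
      exact hu'
    rcases lt_or_gt_of_ne hne with h | h
    · obtain ⟨g1, g2⟩ := H.inter_same j i (k + c * n) j1 j2 (by omega) (by omega) h u hu hu''
      left
      refine ⟨⟨-c, by linarith [mul_comm c (n : ℤ), mul_neg (n : ℤ) c]⟩, ?_⟩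
      rw [g2, hk1]
    · obtain ⟨g1, g2⟩ := H.inter_same j (k + c * n) i (by omega) (by omega) j1 j2 h u hu'' hu
      right
      exact ⟨⟨c, by linarith [mul_comm c (n : ℤ)]⟩, g2⟩
  · rcases hseg j t hjt u (hsub j i j1 j2 hu) (hsub t k t1 t2 hu') with ⟨g1, g2⟩ | ⟨g1, g2⟩
    · left
      exact key j t i k j1 j2 t1 t2 g1 g2 hu hu'
    · right
      exact key t j k i t1 t2 j1 j2 g1 g2 hu' hu

/-- (7) -/
theorem hull : convexHull ℝ (range p) = convexHull ℝ (range z) := by
  apply Subset.antisymm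
  · apply convexHull_min _ (convex_convexHull ℝ _)
    rintro _ ⟨i, rfl⟩
    exact H.phull i
  · apply convexHull_mono
    rintro _ ⟨j, rfl⟩
    exact ⟨s j, H.corner j⟩

end D5Hyp

end poly

/-- D5 -/
theorem cD5 (hG : Stmt_PolyGeom) : Stmt_ArcGeom := by
  intro n q z p s hP hs hper pper hp
  obtain ⟨hq, hz, σ, hσ1, hσ⟩ := hP
  have H : D5Hyp n q z p s σ := ⟨hq, hz, hσ1, hσ, hs, hper, pper, hp⟩
  exact ⟨fun w hw c i k h1 h2 h3 h4 => H.arc w hw c i k h1 h2 h3 h4,
    fun w hw i h1 h2 => H.nb w hw i h1 h2, fun w hw => H.maxi w hw, H.supp, H.pne,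
    fun i k hik u hu hu' => H.inter hG i k hik u hu hu', H.hull⟩

end Pool.Agent.CT
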