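import Pool.Agent.CT.CDefs

set_option autoImplicit false

/-! # C15a: the coarse map of a tight disc is a polyhedral map -/

namespace Pool.Agent.CT

open Set

section cH

variable {V E F : Type}

/-- `e` has a face in `D`. -/
def cHp_DE (M : Inc V E F) (D : Set F) (e : E) : Prop := ∃ d ∈ D, M.ef e d

/-- `v` is a vertex of the coarse map. -/
def cHp_CV (M : Inc V E F) (D : Set F) (v : V) : Prop :=
  ∃ f g, f ≠ g ∧ f ∉ D ∧ g ∉ D ∧ M.vf v f ∧ M.vf v g

/-- Normal form of the run of a face along `D`: the vertices touching `D` are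
`x 0, ..., x r`, the edges with a face in `D` are `y 0, ..., y (r - 1)`. -/
structure cHp_Run (M : Inc V E F) (D : Set F) (t : F) (n r : ℕ) (x : ℤ → V) (y : ℤ → E) :
    Prop where
  cyc : IsFaceCycle M t n x y
  lt : r < n
  touch : ∀ k : ℕ, k < n → (Touch M D (x k) ↔ k ≤ r)
  de : ∀ k : ℕ, k < n → (cHp_DE M D (y k) ↔ k < r)

/-- Everything which is used about `D`. -/
structure cHp_Ctx (M : PolyMap V E F) (D : Set F) : Prop where
  bond : ∀ v e, e ∈ fr M.toInc D → M.ve v e → ∃ e', e' ≠ e ∧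
    ∀ d, (d ∈ fr M.toInc D ∧ M.ve v d) ↔ (d = e ∨ d = e')
  bondConn : ∀ A : Set E, A ⊆ fr M.toInc D → A.Nonempty →
    (∀ e ∈ A, ∀ d ∈ fr M.toInc D, (∃ v, M.ve v e ∧ M.ve v d) → d ∈ A) → A = fr M.toInc D
  frNe : (fr M.toInc D).Nonempty
  frv : ∀ v, Touch M.toInc D v → Touch M.toInc Dᶜ v → ∃ e ∈ fr M.toInc D, M.ve v e
  run : ∀ t, t ∉ D → (∀ v, M.vf v t → ¬ Touch M.toInc D v) ∨
    ∃ n r x y, cHp_Run M.toInc D t n r x y
  fin : D.Finite
  conn : ConnIn M.fadj Dᶜ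
  inf : ∀ s t : F, ∃ f, f ∉ D ∧ f ≠ s ∧ f ≠ t

theorem cHp_dvd_eq {n k l : ℕ} (hk : k < n) (hl : l < n) (h : (n : ℤ) ∣ (k : ℤ) - l) : k = l := by
  have h1 : ((k : ℤ) - l) = 0 := by
    apply Int.eq_zero_of_abs_lt_dvd h
    rw [abs_lt]
    constructor <;> omega
  omega

theorem cHp_ctx (h3 : Stmt_FaceCycle) (h7 : Stmt_FrVertex) (h8 : Stmt_Bond) (h9 : Stmt_Tight)
    (M : PlaneMap V E F) (D : Set F) (hD : TightDisc M.toInc D) : cHp_Ctx M.toPolyMap D := by
  have hinf : ∀ s t : F, ∃ f, f ∉ D ∧ f ≠ s ∧ f ≠ t := by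
    intro s t
    have hfin : (D ∪ {s, t}).Finite := hD.fin.union (by simp)
    have := M.finf
    obtain ⟨f, hf⟩ := hfin.exists_notMem
    refine ⟨f, fun h => hf (Or.inl h), fun h => hf (Or.inr (by simp [h])), fun h =>
      hf (Or.inr (by simp [h]))⟩
  have hne : Dᶜ.Nonempty := by
    obtain ⟨d, hd⟩ := hD.ne
    obtain ⟨f, hf, _⟩ := hinf d d
    exact ⟨f, hf⟩
  obtain ⟨n, x, y, hc⟩ := h8 V E F M D hD.ne hne hD.conn hD.compl
  have hn1 : ¬ (n : ℤ) ∣ 1 := by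
    intro h
    have := Int.eq_one_of_dvd_one (by omega) h
    rcases hc.n_ne with h' | h' <;> omega
  refine ⟨?_, ?_, ?_, ?_, ?_, hD.fin, hD.compl, hinf⟩
  · -- exactly two frontier edges
    intro v e he hv
    obtain ⟨i, rfl⟩ := (hc.mem e).1 he
    rcases (hc.ve i v).1 hv with rfl | rfl
    · refine ⟨y (i - 1), ?_, ?_⟩
      · intro h
        have := (hc.y_eq _ _).1 h
        apply hn1
        have h2 : (1 : ℤ) = -((i - 1) - i) := by ring
        rw [h2]
        exact (dvd_neg).2 this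
      · intro d
        constructor
        · rintro ⟨hd, hvd⟩
          obtain ⟨j, rfl⟩ := (hc.mem d).1 hd
          rcases (hc.ve j _).1 hvd with h | h
          · left
            rw [hc.y_eq]
            rw [hc.x_eq] at h
            have h2 : j - i = -(i - j) := by ring
            rw [h2]
            exact (dvd_neg).2 h
          · right
            rw [hc.y_eq]
            rw [hc.x_eq] at h
            have h2 : j - (i - 1) = -(i - (j + 1)) := by ring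
            rw [h2]
            exact (dvd_neg).2 h
        · rintro (rfl | rfl)
          · exact ⟨he, hv⟩
          · refine ⟨(hc.mem _).2 ⟨_, rfl⟩, (hc.ve _ _).2 (Or.inr ?_)⟩
            rw [sub_add_cancel]
    · refine ⟨y (i + 1), ?_, ?_⟩
      · intro h
        have := (hc.y_eq _ _).1 h
        apply hn1
        have h2 : (1 : ℤ) = (i + 1) - i := by ring
        rw [h2]
        exact this
      · intro d
        constructor
        · rintro ⟨hd, hvd⟩
          obtain ⟨j, rfl⟩ := (hc.mem d).1 hd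
          rcases (hc.ve j _).1 hvd with h | h
          · right
            rw [hc.y_eq]
            rw [hc.x_eq] at h
            have h2 : j - (i + 1) = -(i + 1 - j) := by ring
            rw [h2]
            exact (dvd_neg).2 h
          · left
            rw [hc.y_eq]
            rw [hc.x_eq] at h
            have h2 : j - i = -(i + 1 - (j + 1)) := by ring
            rw [h2]
            exact (dvd_neg).2 h
        · rintro (rfl | rfl)
          · exact ⟨he, hv⟩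
          · exact ⟨(hc.mem _).2 ⟨_, rfl⟩, (hc.ve _ _).2 (Or.inl rfl)⟩
  · -- connectedness of the frontier
    intro A hA hAne hcl
    obtain ⟨e, he⟩ := hAne
    obtain ⟨i, rfl⟩ := (hc.mem e).1 (hA he)
    have hup : ∀ j, y j ∈ A → y (j + 1) ∈ A := fun j hj =>
      hcl _ hj _ ((hc.mem _).2 ⟨_, rfl⟩) ⟨x (j + 1), (hc.ve _ _).2 (Or.inr rfl),
        (hc.ve _ _).2 (Or.inl rfl)⟩
    have hdown : ∀ j, y j ∈ A → y (j - 1) ∈ A := fun j hj =>
      hcl _ hj _ ((hc.mem _).2 ⟨_, rfl⟩) ⟨x j, (hc.ve _ _).2 (Or.inl rfl),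
        (hc.ve _ _).2 (Or.inr (by rw [sub_add_cancel]))⟩
    have hall : ∀ k : ℤ, y (i + k) ∈ A := by
      intro k
      induction k using Int.induction_on with
      | zero => simpa using he
      | succ k ih => rw [← add_assoc]; exact hup _ ih
      | pred k ih => rw [← add_sub_assoc]; exact hdown _ ih
    refine hA.antisymm fun d hd => ?_
    obtain ⟨j, rfl⟩ := (hc.mem d).1 hd
    have := hall (j - i)
    rwa [add_sub_cancel] at this
  · exact ⟨y 0, (hc.mem _).2 ⟨0, rfl⟩⟩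
  · exact fun v => h7 V E F M.toPolyMap D v
  · intro t ht
    obtain ⟨n, x, y, hc⟩ := h3 V E F M.toPolyMap t
    have hne' : (Dᶜ \ {t}).Nonempty := by
      obtain ⟨f, hf, hft, _⟩ := hinf t t
      exact ⟨f, hf, by simpa using hft⟩
    rcases h9 V E F M D hD.conn hD.compl t ht (hD.tight t) hne' n x y hc with h |
      ⟨a, r, hr, h1, h2⟩
    · left
      rintro v ⟨e, hve, hef⟩
      obtain ⟨i, rfl⟩ := (hc.curve.mem e).1 hef
      rcases (hc.curve.ve i v).1 hve with rfl | rfl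
      · exact h i
      · exact h (i + 1)
    · right
      refine ⟨n, r, fun i => x (i + a), fun i => y (i + a), ⟨hc.three, ⟨hc.curve.n_ne, ?_, ?_, ?_,
        ?_⟩⟩, hr, ?_, ?_⟩
      · intro i j
        rw [hc.curve.x_eq]
        rw [show i + a - (j + a) = i - j by ring]
      · intro i j
        rw [hc.curve.y_eq]
        rw [show i + a - (j + a) = i - j by ring]
      · intro e
        rw [hc.curve.mem]
        constructor
        · rintro ⟨i, rfl⟩
          exact ⟨i - a, by simp⟩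
        · rintro ⟨i, rfl⟩
          exact ⟨i + a, rfl⟩
      · intro i v
        rw [hc.curve.ve]
        rw [show i + 1 + a = i + a + 1 by ring]
      · intro k hk
        rw [h1]
        constructor
        · rintro ⟨k', hk', hdvd⟩
          have : k = k' := by
            apply cHp_dvd_eq hk (by omega)
            rwa [show (k : ℤ) + a - (a + k') = k - k' by ring] at hdvd
          omega
        · intro h
          exact ⟨k, h, by rw [show (k : ℤ) + a - (a + k) = 0 by ring]; exact dvd_zero _⟩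
      · intro k hk
        have h2' := h2 (k + a)
        unfold cHp_DE
        rw [h2']
        constructor
        · rintro ⟨k', hk', hdvd⟩
          have : k = k' := by
            apply cHp_dvd_eq hk (by omega)
            rwa [show (k : ℤ) + a - (a + k') = k - k' by ring] at hdvd
          omega
        · intro h
          exact ⟨k, h, by rw [show (k : ℤ) + a - (a + k) = 0 by ring]; exact dvd_zero _⟩


/-! ### Local facts -/

section loc

variable {M : PolyMap V E F} {D : Set F}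

theorem cHp_ef_two {e : E} {f g h : F} (hf : M.ef e f) (hg : M.ef e g) (hfg : f ≠ g)
    (hh : M.ef e h) : h = f ∨ h = g := by
  obtain ⟨a, b, _, hab⟩ := M.edge_faces e
  rw [hab] at hf hg hh
  rcases hf with rfl | rfl <;> rcases hg with rfl | rfl <;> rcases hh with rfl | rfl <;> simp_all

theorem cHp_other (M : PolyMap V E F) {e : E} {f : F} (hf : M.ef e f) : ∃ g, g ≠ f ∧ M.ef e g := by
  obtain ⟨a, b, hne, hab⟩ := M.edge_faces e
  rcases (hab f).1 hf with rfl | rfl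
  · exact ⟨b, hne.symm, (hab b).2 (Or.inr rfl)⟩
  · exact ⟨a, hne, (hab a).2 (Or.inl rfl)⟩

/-- The outside face of an edge with a face in `D` is unique. -/
theorem cHp_out_unique {e : E} {t g : F} (hd : cHp_DE M.toInc D e) (ht : M.ef e t) (htD : t ∉ D)
    (hg : M.ef e g) (hgD : g ∉ D) : g = t := by
  obtain ⟨d, hdD, hed⟩ := hd
  rcases cHp_ef_two ht hed (fun h => htD (h ▸ hdD)) hg with h | h
  · exact h
  · exact absurd (h ▸ hdD) hgD

theorem cHp_mem_fr {e : E} {t : F} (hd : cHp_DE M.toInc D e) (ht : M.ef e t) (htD : t ∉ D) :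
    e ∈ fr M.toInc D := ⟨hd, t, htD, ht⟩

theorem cHp_notDE_of {e : E} {f g : F} (hf : M.ef e f) (hg : M.ef e g) (hfg : f ≠ g) (hfD : f ∉ D)
    (hgD : g ∉ D) : ¬ cHp_DE M.toInc D e := fun h => hfg (cHp_out_unique h hg hgD hf hfD)

theorem cHp_touch_of {v : V} {e : E} (hv : M.ve v e) (hd : cHp_DE M.toInc D e) :
    Touch M.toInc D v := by
  obtain ⟨d, hdD, hed⟩ := hd
  exact ⟨d, hdD, e, hv, hed⟩

theorem cHp_cv_of {v : V} {e : E} {t : F} (hv : M.ve v e) (ht : M.ef e t) (htD : t ∉ D)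
    (hd : ¬ cHp_DE M.toInc D e) : cHp_CV M.toInc D v := by
  obtain ⟨g, hgt, hg⟩ := cHp_other M ht
  exact ⟨t, g, hgt.symm, htD, fun h => hd ⟨g, h, hg⟩, ⟨e, hv, ht⟩, ⟨e, hv, hg⟩⟩

/-- If both edges of `t` at `v` have a face in `D`, then `t` is the only outside face at `v`. -/
theorem cHp_L1 (C : cHp_Ctx M D) {v : V} {e1 e2 : E} {t : F} (hne : e1 ≠ e2) (hv1 : M.ve v e1)
    (hv2 : M.ve v e2) (ht1 : M.ef e1 t) (ht2 : M.ef e2 t) (ht : t ∉ D)
    (hd1 : cHp_DE M.toInc D e1) (hd2 : cHp_DE M.toInc D e2) : ∀ g, g ∉ D → M.vf v g → g = t := by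
  obtain ⟨e', he', hfr⟩ := C.bond v e1 (cHp_mem_fr hd1 ht1 ht) hv1
  have he2 : e' = e2 := by
    rcases (hfr e2).1 ⟨cHp_mem_fr hd2 ht2 ht, hv2⟩ with h | h
    · exact absurd h.symm hne
    · exact h.symm
  subst he2
  have hA := M.vert_conn v {e | M.ve v e ∧ cHp_DE M.toInc D e} (fun e he => he.1)
    ⟨e1, hv1, hd1⟩ (by
      rintro e ⟨hve, hde⟩ d hvd ⟨f, hef, hdf⟩
      by_cases hfD : f ∈ D
      · exact ⟨hvd, f, hfD, hdf⟩
      · have hf : f = t := by
          rcases (hfr e).1 ⟨cHp_mem_fr hde hef hfD, hve⟩ with rfl | rfl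
          · exact cHp_out_unique hd1 ht1 ht hef hfD
          · exact cHp_out_unique hd2 ht2 ht hef hfD
        subst hf
        obtain ⟨e'', he'', hc⟩ := M.corner v e1 f hv1 ht1
        have h2 : e' = e'' := by
          rcases (hc e').1 ⟨hv2, ht2⟩ with h | h
          · exact absurd h.symm hne
          · exact h
        rcases (hc d).1 ⟨hvd, hdf⟩ with rfl | rfl
        · exact ⟨hv1, hd1⟩
        · rw [← h2]; exact ⟨hv2, hd2⟩)
  rintro g hgD ⟨e, hve, heg⟩
  have he : e ∈ {e | M.ve v e ∧ cHp_DE M.toInc D e} := by rw [hA]; exact hve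
  rcases (hfr e).1 ⟨cHp_mem_fr he.2 heg hgD, hve⟩ with rfl | rfl
  · exact cHp_out_unique hd1 ht1 ht heg hgD
  · exact cHp_out_unique hd2 ht2 ht heg hgD

theorem cHp_not_cv (C : cHp_Ctx M D) {v : V} {e1 e2 : E} {t : F} (hne : e1 ≠ e2) (hv1 : M.ve v e1)
    (hv2 : M.ve v e2) (ht1 : M.ef e1 t) (ht2 : M.ef e2 t) (ht : t ∉ D)
    (hd1 : cHp_DE M.toInc D e1) (hd2 : cHp_DE M.toInc D e2) : ¬ cHp_CV M.toInc D v := by
  rintro ⟨f, g, hfg, hf, hg, hvf, hvg⟩
  exact hfg ((cHp_L1 C hne hv1 hv2 ht1 ht2 ht hd1 hd2 f hf hvf).trans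
    (cHp_L1 C hne hv1 hv2 ht1 ht2 ht hd1 hd2 g hg hvg).symm)

/-! ### Runs -/

variable {t : F} {n r : ℕ} {x : ℤ → V} {y : ℤ → E}

theorem cHp_xmod (hc : IsFaceCycle M.toInc t n x y) (i : ℤ) : ∃ k : ℕ, k < n ∧ x i = x k ∧
    y i = y k := by
  have hn : (0 : ℤ) < n := by have := hc.three; omega
  refine ⟨(i % n).toNat, ?_, ?_, ?_⟩
  · have := Int.emod_lt_of_pos i hn
    have h0 := Int.emod_nonneg i (by omega : (n : ℤ) ≠ 0)
    omega
  · rw [hc.curve.x_eq, Int.toNat_of_nonneg (Int.emod_nonneg i (by omega))]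
    exact Int.dvd_self_sub_emod
  · rw [hc.curve.y_eq, Int.toNat_of_nonneg (Int.emod_nonneg i (by omega))]
    exact Int.dvd_self_sub_emod

theorem cHp_edg (hc : IsFaceCycle M.toInc t n x y) {e : E} (he : M.ef e t) :
    ∃ k : ℕ, k < n ∧ e = y k := by
  obtain ⟨i, rfl⟩ := (hc.curve.mem e).1 he
  obtain ⟨k, hk, _, h⟩ := cHp_xmod hc i
  exact ⟨k, hk, h⟩

theorem cHp_vtx (hc : IsFaceCycle M.toInc t n x y) {v : V} (hv : M.vf v t) :
    ∃ k : ℕ, k < n ∧ v = x k := by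
  obtain ⟨e, hve, het⟩ := hv
  obtain ⟨i, rfl⟩ := (hc.curve.mem e).1 het
  rcases (hc.curve.ve i v).1 hve with rfl | rfl
  · obtain ⟨k, hk, h, _⟩ := cHp_xmod hc i
    exact ⟨k, hk, h⟩
  · obtain ⟨k, hk, h, _⟩ := cHp_xmod hc (i + 1)
    exact ⟨k, hk, h⟩

theorem cHp_yin (hc : IsFaceCycle M.toInc t n x y) (i : ℤ) : M.ef (y i) t :=
  (hc.curve.mem (y i)).2 ⟨i, rfl⟩

theorem cHp_xn (hc : IsFaceCycle M.toInc t n x y) : x (n : ℤ) = x 0 := by
  rw [hc.curve.x_eq]
  simp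

/-- Two different vertices of the run. -/
theorem cHp_x_inj (hc : IsFaceCycle M.toInc t n x y) {k l : ℕ} (hk : k < n) (hl : l < n)
    (h : x k = x l) : k = l := cHp_dvd_eq hk hl ((hc.curve.x_eq _ _).1 h)

theorem cHp_y_inj (hc : IsFaceCycle M.toInc t n x y) {k l : ℕ} (hk : k < n) (hl : l < n)
    (h : y k = y l) : k = l := cHp_dvd_eq hk hl ((hc.curve.y_eq _ _).1 h)

theorem cHp_run_of_touch (C : cHp_Ctx M D) (ht : t ∉ D) {v : V} (hv : M.vf v t)
    (hT : Touch M.toInc D v) : ∃ n r x y, cHp_Run M.toInc D t n r x y := by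
  rcases C.run t ht with h | h
  · exact absurd hT (h v hv)
  · exact h

theorem cHp_run_of_de (C : cHp_Ctx M D) (ht : t ∉ D) {e : E} (he : M.ef e t)
    (hd : cHp_DE M.toInc D e) : ∃ n r x y, cHp_Run M.toInc D t n r x y ∧ 1 ≤ r := by
  obtain ⟨u, w, _, huw⟩ := M.edge_verts e
  have hu : M.ve u e := (huw u).2 (Or.inl rfl)
  obtain ⟨n, r, x, y, hR⟩ := cHp_run_of_touch C ht ⟨e, hu, he⟩ (cHp_touch_of hu hd)
  refine ⟨n, r, x, y, hR, ?_⟩
  obtain ⟨k, hk, rfl⟩ := cHp_edg hR.cyc he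
  have := (hR.de k hk).1 hd
  omega

/-- The first vertex of the run is a vertex of the coarse map. -/
theorem cHp_cv_zero (ht : t ∉ D) (hR : cHp_Run M.toInc D t n r x y) : cHp_CV M.toInc D (x 0) := by
  have h3 := hR.cyc.three
  have hlt := hR.lt
  have hcast : ((n - 1 : ℕ) : ℤ) + 1 = n := by omega
  refine cHp_cv_of (e := y ((n - 1 : ℕ) : ℤ)) ?_ (cHp_yin hR.cyc _) ht ?_
  · rw [hR.cyc.curve.ve]
    right
    rw [hcast, cHp_xn hR.cyc]
  · rw [hR.de (n - 1) (by omega)]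
    omega

theorem cHp_cv_last (ht : t ∉ D) (hR : cHp_Run M.toInc D t n r x y) : cHp_CV M.toInc D (x r) := by
  refine cHp_cv_of (e := y (r : ℤ)) ?_ (cHp_yin hR.cyc _) ht ?_
  · rw [hR.cyc.curve.ve]
    left
    rfl
  · rw [hR.de r hR.lt]
    omega

/-- Inner vertices of the run are not vertices of the coarse map. -/
theorem cHp_inner (C : cHp_Ctx M D) (ht : t ∉ D) (hR : cHp_Run M.toInc D t n r x y) {k : ℕ}
    (h0 : 0 < k) (hk : k < r) : ¬ cHp_CV M.toInc D (x k) := by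
  have hlt := hR.lt
  refine cHp_not_cv C (e1 := y ((k - 1 : ℕ) : ℤ)) (e2 := y (k : ℤ)) (t := t) ?_ ?_ ?_
    (cHp_yin hR.cyc _) (cHp_yin hR.cyc _) ht ?_ ?_
  · intro h
    have := cHp_y_inj hR.cyc (by omega) (by omega) h
    omega
  · rw [hR.cyc.curve.ve]
    right
    congr 1
    omega
  · rw [hR.cyc.curve.ve]
    left
    rfl
  · rw [hR.de (k - 1) (by omega)]
    omega
  · rw [hR.de k (by omega)]
    omega

/-- A touching vertex of an outside face which shares an edge with `D` lies on a frontier edge of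
this face. -/
theorem cHp_L3 (C : cHp_Ctx M D) (ht : t ∉ D) {e : E} (he : M.ef e t) (hd : cHp_DE M.toInc D e)
    {v : V} (hv : M.vf v t) (hT : Touch M.toInc D v) :
    ∃ e, M.ve v e ∧ M.ef e t ∧ cHp_DE M.toInc D e := by
  obtain ⟨n, r, x, y, hR, hr⟩ := cHp_run_of_de C ht he hd
  have hlt := hR.lt
  obtain ⟨k, hk, rfl⟩ := cHp_vtx hR.cyc hv
  have hkr := (hR.touch k hk).1 hT
  by_cases h : k < r
  · refine ⟨y k, ?_, cHp_yin hR.cyc _, (hR.de k hk).2 h⟩
    rw [hR.cyc.curve.ve]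
    left
    rfl
  · refine ⟨y ((k - 1 : ℕ) : ℤ), ?_, cHp_yin hR.cyc _, (hR.de (k - 1) (by omega)).2 (by omega)⟩
    rw [hR.cyc.curve.ve]
    right
    congr 1
    omega

/-- Two edges of an outside face are not in `D`. -/
theorem cHp_X (C : cHp_Ctx M D) (ht : t ∉ D) (hR : cHp_Run M.toInc D t n r x y) : r + 1 < n := by
  have h3 := hR.cyc.three
  have hlt := hR.lt
  by_contra hcon
  have hrn : n = r + 1 := by omega
  have hxr1 : x ((r : ℤ) + 1) = x 0 := by
    rw [← cHp_xn hR.cyc, hrn]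
    push_cast
    rfl
  have hynot : ¬ cHp_DE M.toInc D (y r) := by
    rw [hR.de r hR.lt]
    omega
  obtain ⟨t', htt', ht'⟩ := cHp_other M (cHp_yin hR.cyc (r : ℤ))
  have ht'D : t' ∉ D := fun h => hynot ⟨t', h, ht'⟩
  have hT0 : Touch M.toInc D (x 0) := by
    have := (hR.touch 0 (by omega)).2 (by omega)
    simpa using this
  have hTr : Touch M.toInc D (x r) := (hR.touch r (by omega)).2 le_rfl
  have hve0 : M.ve (x 0) (y r) := (hR.cyc.curve.ve _ _).2 (Or.inr hxr1.symm)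
  have hTall : ∀ v, M.ve v (y r) → Touch M.toInc D v := by
    intro v hv
    rcases (hR.cyc.curve.ve _ _).1 hv with rfl | rfl
    · exact hTr
    · rw [hxr1]; exact hT0
  obtain ⟨n', r', x', y', hR'⟩ := cHp_run_of_touch C ht'D ⟨y r, hve0, ht'⟩ hT0
  have h3' := hR'.cyc.three
  have hlt' := hR'.lt
  obtain ⟨j, hj, hyj⟩ := cHp_edg hR'.cyc ht'
  have hj1 : j ≤ r' := (hR'.touch j hj).1 (hTall _ (by
    rw [hyj, hR'.cyc.curve.ve]; left; rfl))
  have hj2 : ¬ j < r' := by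
    rw [← hR'.de j hj, ← hyj]
    exact hynot
  have hj3 : ¬ j + 1 < n' := by
    intro h
    have := (hR'.touch (j + 1) h).1 (hTall _ (by
      rw [hyj, hR'.cyc.curve.ve]; right; push_cast; rfl))
    omega
  have hjr : j = r' := by omega
  have hn' : n' = r' + 1 := by omega
  -- every edge of `t` or `t'` without a face in `D` is `y r`
  have ht1 : ∀ e, M.ef e t → ¬ cHp_DE M.toInc D e → e = y r := by
    intro e he hde
    obtain ⟨k, hk, rfl⟩ := cHp_edg hR.cyc he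
    rw [hR.de k hk] at hde
    have : k = r := by omega
    rw [this]
  have ht2 : ∀ e, M.ef e t' → ¬ cHp_DE M.toInc D e → e = y r := by
    intro e he hde
    obtain ⟨k, hk, rfl⟩ := cHp_edg hR'.cyc he
    rw [hR'.de k hk] at hde
    have : k = j := by omega
    rw [hyj, this]
  obtain ⟨f, hfD, hft, hft'⟩ := C.inf t t'
  obtain ⟨s, hs, g, hg, hgn, hne, e, hes, heg⟩ := C.conn.exists_adj (A := {t, t'})
    (by rintro s (rfl | rfl); exacts [ht, ht'D]) ⟨t, by simp⟩ (by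
      intro h
      have : f ∈ ({t, t'} : Set F) := by rw [h]; exact hfD
      rcases this with h | h
      · exact hft h
      · exact hft' h)
  have hsD : s ∉ D := by
    rcases hs with rfl | rfl
    exacts [ht, ht'D]
  have hde := cHp_notDE_of hes heg hne hsD hg
  have hey : e = y r := by
    rcases hs with rfl | rfl
    · exact ht1 e hes hde
    · exact ht2 e hes hde
  subst hey
  rcases cHp_ef_two (cHp_yin hR.cyc (r : ℤ)) ht' htt'.symm heg with h | h
  · exact hgn (by simp [h])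
  · exact hgn (by simp [h])

/-- No edge of `t` outside `D` joins the two ends of the run. -/
theorem cHp_Y (C : cHp_Ctx M D) (ht : t ∉ D) (hR : cHp_Run M.toInc D t n r x y) (hr : 1 ≤ r) {e : E}
    (he : M.ef e t) (h0 : M.ve (x 0) e) (h1 : M.ve (x r) e) (hd : ¬ cHp_DE M.toInc D e) :
    False := by
  have hX := cHp_X C ht hR
  obtain ⟨j, hj, rfl⟩ := cHp_edg hR.cyc he
  rw [hR.de j hj] at hd
  have hj1 : j + 1 < n ∨ j + 1 = n := by omega
  have hr' : (x ((r : ℕ) : ℤ)) = x j ∨ x ((r : ℕ) : ℤ) = x ((j : ℤ) + 1) :=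
    (hR.cyc.curve.ve _ _).1 h1
  have h0' : x 0 = x j ∨ x 0 = x ((j : ℤ) + 1) := (hR.cyc.curve.ve _ _).1 h0
  have hj0 : j + 1 = n := by
    rcases hj1 with h | h
    · exfalso
      rcases h0' with h' | h'
      · have := cHp_x_inj hR.cyc (k := 0) (l := j) (by omega) hj (by simpa using h')
        omega
      · have := cHp_x_inj hR.cyc (k := 0) (l := j + 1) (by omega) h (by simpa using h')
        omega
    · exact h
  rcases hr' with h | h
  · have := cHp_x_inj hR.cyc (k := r) (l := j) (by omega) hj h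
    omega
  · have hx : x ((j : ℤ) + 1) = x 0 := by
      rw [← cHp_xn hR.cyc, ← hj0]
      push_cast
      rfl
    have := cHp_x_inj hR.cyc (k := r) (l := 0) (by omega) (by omega) (by
      rw [h, hx]; simp)
    omega


/-- At a touching coarse vertex there are exactly two outside faces sharing an edge with `D`. -/
theorem cHp_pair (C : cHp_Ctx M D) {v : V} (hcv : cHp_CV M.toInc D v) (hT : Touch M.toInc D v)
    {t1 : F} (ht1 : t1 ∉ D) (hv : M.vf v t1) (he : ∃ e, M.ef e t1 ∧ cHp_DE M.toInc D e) :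
    ∃ t2, t2 ≠ t1 ∧ t2 ∉ D ∧ M.vf v t2 ∧ (∃ e, M.ef e t2 ∧ cHp_DE M.toInc D e) ∧
      ∀ d, d ∉ D → M.vf v d → (∃ e, M.ef e d ∧ cHp_DE M.toInc D e) → d = t1 ∨ d = t2 := by
  obtain ⟨e0, he0, hd0⟩ := he
  obtain ⟨e1, hv1, hf1, hd1⟩ := cHp_L3 C ht1 he0 hd0 hv hT
  obtain ⟨e2, hne, hfr⟩ := C.bond v e1 (cHp_mem_fr hd1 hf1 ht1) hv1
  obtain ⟨⟨hd2, t2, ht2, hf2⟩, hv2⟩ := (hfr e2).2 (Or.inr rfl)
  refine ⟨t2, ?_, ht2, ⟨e2, hv2, hf2⟩, ⟨e2, hf2, hd2⟩, ?_⟩
  · rintro rfl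
    exact cHp_not_cv C hne hv2 hv1 hf2 hf1 ht2 hd2 hd1 hcv
  · rintro d hd hvd ⟨e3, he3, hd3⟩
    obtain ⟨e, hve, hef, hde⟩ := cHp_L3 C hd he3 hd3 hvd hT
    rcases (hfr e).1 ⟨cHp_mem_fr hde hef hd, hve⟩ with rfl | rfl
    · left; exact cHp_out_unique hd1 hf1 ht1 hef hd
    · right; exact cHp_out_unique hd2 hf2 ht2 hef hd

/-! ### The fields of the coarse map -/

theorem cHp_edge_verts (C : cHp_Ctx M D) (e : CE M.toInc D) : ∃ u v : CV M.toInc D, u ≠ v ∧
    ∀ w, (coarse M.toInc D).ve w e ↔ (w = u ∨ w = v) := by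
  rcases e with ⟨e, he⟩ | ⟨t, ht, e, het, hde⟩
  · obtain ⟨u, w, huw, hiff⟩ := M.edge_verts e
    obtain ⟨f, g, hfg, hfaces⟩ := M.edge_faces e
    have hef : M.ef e f := (hfaces f).2 (Or.inl rfl)
    have hnd : ¬ cHp_DE M.toInc D e := fun ⟨d, hd, h⟩ => he d h hd
    refine ⟨⟨u, cHp_cv_of ((hiff u).2 (Or.inl rfl)) hef (he f hef) hnd⟩,
      ⟨w, cHp_cv_of ((hiff w).2 (Or.inr rfl)) hef (he f hef) hnd⟩, ?_, ?_⟩
    · intro h
      exact huw (congrArg Subtype.val h)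
    · rintro ⟨z, hz⟩
      show M.ve z e ↔ _
      rw [hiff]
      simp only [Subtype.mk.injEq]
  · obtain ⟨n, r, x, y, hR, hr⟩ := cHp_run_of_de C ht het hde
    have hlt := hR.lt
    have h0 : Touch M.toInc D (x 0) := by
      have := (hR.touch 0 (by omega)).2 (by omega)
      simpa using this
    have h1 : Touch M.toInc D (x r) := (hR.touch r (by omega)).2 le_rfl
    refine ⟨⟨x 0, cHp_cv_zero ht hR⟩, ⟨x r, cHp_cv_last ht hR⟩, ?_, ?_⟩
    · intro h
      have h' : x 0 = x r := congrArg Subtype.val h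
      have := cHp_x_inj hR.cyc (k := 0) (l := r) (by omega) (by omega) (by simpa using h')
      omega
    · rintro ⟨z, hz⟩
      show (M.vf z t ∧ Touch M.toInc D z) ↔ _
      simp only [Subtype.mk.injEq]
      constructor
      · rintro ⟨hzt, hzT⟩
        obtain ⟨k, hk, rfl⟩ := cHp_vtx hR.cyc hzt
        have hkr := (hR.touch k hk).1 hzT
        rcases Nat.eq_zero_or_pos k with rfl | hk0
        · left; simp
        · rcases Nat.lt_or_ge k r with hkr' | hkr'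
          · exact absurd hz (cHp_inner C ht hR hk0 hkr')
          · right
            have : k = r := by omega
            rw [this]
      · rintro (rfl | rfl)
        · exact ⟨⟨y 0, (hR.cyc.curve.ve _ _).2 (Or.inl rfl), cHp_yin hR.cyc _⟩, h0⟩
        · exact ⟨⟨y r, (hR.cyc.curve.ve _ _).2 (Or.inl rfl), cHp_yin hR.cyc _⟩, h1⟩

theorem cHp_edge_faces (e : CE M.toInc D) : ∃ f g : CF M.toInc D, f ≠ g ∧
    ∀ h, (coarse M.toInc D).ef e h ↔ (h = f ∨ h = g) := by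
  rcases e with ⟨e, he⟩ | ⟨t, ht, e, het, hde⟩
  · obtain ⟨f, g, hfg, hfaces⟩ := M.edge_faces e
    refine ⟨some ⟨f, he f ((hfaces f).2 (Or.inl rfl))⟩,
      some ⟨g, he g ((hfaces g).2 (Or.inr rfl))⟩, ?_, ?_⟩
    · simpa using hfg
    · rintro (_ | ⟨h, hh⟩)
      · show False ↔ _
        simp
      · show M.ef e h ↔ _
        rw [hfaces]
        simp
  · refine ⟨none, some ⟨t, ht⟩, by simp, ?_⟩
    rintro (_ | ⟨h, hh⟩)
    · show True ↔ _
      simp
    · show t = h ↔ _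
      simp [eq_comm]

theorem cHp_corner (C : cHp_Ctx M D) (v : CV M.toInc D) (e : CE M.toInc D) (f : CF M.toInc D)
    (hve : (coarse M.toInc D).ve v e) (hef : (coarse M.toInc D).ef e f) :
    ∃ e', e' ≠ e ∧ ∀ d, ((coarse M.toInc D).ve v d ∧ (coarse M.toInc D).ef d f) ↔
      (d = e ∨ d = e') := by
  obtain ⟨v, hcv⟩ := v
  rcases e with ⟨e, he⟩ | ⟨t, ht, e0, he0, hd0⟩
  · have hnd : ¬ cHp_DE M.toInc D e := fun ⟨d, hd, h⟩ => he d h hd
    rcases f with _ | ⟨f, hf⟩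
    · exact hef.elim
    · change M.ve v e at hve
      change M.ef e f at hef
      obtain ⟨e', hne, hc⟩ := M.corner v e f hve hef
      obtain ⟨hve', hef'⟩ := (hc e').2 (Or.inr rfl)
      by_cases hde' : cHp_DE M.toInc D e'
      · refine ⟨Sum.inr ⟨f, hf, e', hef', hde'⟩, by simp, ?_⟩
        rintro (⟨d, hd⟩ | ⟨g, hg, hg'⟩)
        · show (M.ve v d ∧ M.ef d f) ↔ _
          rw [hc]
          simp only [Sum.inl.injEq, Subtype.mk.injEq, reduceCtorEq, or_false]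
          constructor
          · rintro (h | rfl)
            · exact h
            · obtain ⟨d', hd', hed'⟩ := hde'
              exact absurd hd' (hd d' hed')
          · exact fun h => Or.inl h
        · show ((M.vf v g ∧ Touch M.toInc D v) ∧ g = f) ↔ _
          simp only [Sum.inr.injEq, Subtype.mk.injEq, reduceCtorEq, false_or]
          constructor
          · exact fun h => h.2
          · rintro rfl
            exact ⟨⟨⟨e, hve, hef⟩, cHp_touch_of hve' hde'⟩, rfl⟩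
      · refine ⟨Sum.inl ⟨e', fun g hg hgD => hde' ⟨g, hgD, hg⟩⟩, by simpa using hne, ?_⟩
        rintro (⟨d, hd⟩ | ⟨g, hg, hg'⟩)
        · show (M.ve v d ∧ M.ef d f) ↔ _
          rw [hc]
          simp only [Sum.inl.injEq, Subtype.mk.injEq]
        · show ((M.vf v g ∧ Touch M.toInc D v) ∧ g = f) ↔ _
          simp only [reduceCtorEq, or_self, iff_false]
          rintro ⟨⟨hvg, hT⟩, rfl⟩
          obtain ⟨e1, he1, hd1⟩ := hg'
          obtain ⟨e2, hv2, hf2, hd2⟩ := cHp_L3 C hg he1 hd1 hvg hT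
          rcases (hc e2).1 ⟨hv2, hf2⟩ with rfl | rfl
          · exact hnd hd2
          · exact hde' hd2
  · obtain ⟨hvt, hT⟩ := hve
    change M.vf v t at hvt
    change Touch M.toInc D v at hT
    rcases f with _ | ⟨g, hg⟩
    · obtain ⟨t2, hne, ht2, hvt2, hex, hall⟩ := cHp_pair C hcv hT ht hvt ⟨e0, he0, hd0⟩
      refine ⟨Sum.inr ⟨t2, ht2, hex⟩, by simpa using hne, ?_⟩
      rintro (⟨d, hd⟩ | ⟨g, hg, hg'⟩)
      · show (M.ve v d ∧ False) ↔ _
        simp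
      · show ((M.vf v g ∧ Touch M.toInc D v) ∧ True) ↔ _
        simp only [Sum.inr.injEq, Subtype.mk.injEq, and_true]
        constructor
        · exact fun h => hall g hg h.1 hg'
        · rintro (rfl | rfl)
          · exact ⟨hvt, hT⟩
          · exact ⟨hvt2, hT⟩
    · change t = g at hef
      subst hef
      obtain ⟨e1, hv1, hf1, hd1⟩ := cHp_L3 C ht he0 hd0 hvt hT
      obtain ⟨e2, hne, hc⟩ := M.corner v e1 t hv1 hf1
      obtain ⟨hv2, hf2⟩ := (hc e2).2 (Or.inr rfl)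
      have hd2 : ¬ cHp_DE M.toInc D e2 := fun h =>
        cHp_not_cv C hne hv2 hv1 hf2 hf1 ht h hd1 hcv
      refine ⟨Sum.inl ⟨e2, fun g hg hgD => hd2 ⟨g, hgD, hg⟩⟩, by simp, ?_⟩
      rintro (⟨d, hd⟩ | ⟨g, hg, hg'⟩)
      · show (M.ve v d ∧ M.ef d t) ↔ _
        rw [hc]
        simp only [Sum.inl.injEq, Subtype.mk.injEq, reduceCtorEq, false_or]
        constructor
        · rintro (rfl | h)
          · obtain ⟨d', hd', hed'⟩ := hd1
            exact absurd hd' (hd d' hed')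
          · exact h
        · exact fun h => Or.inr h
      · show ((M.vf v g ∧ Touch M.toInc D v) ∧ g = t) ↔ _
        simp only [Sum.inr.injEq, Subtype.mk.injEq, reduceCtorEq, or_false]
        constructor
        · exact fun h => h.2
        · rintro rfl
          exact ⟨⟨hvt, hT⟩, rfl⟩

theorem cHp_faces_fin (M : PolyMap V E F) (e : E) : {f | M.ef e f}.Finite := by
  obtain ⟨f, g, _, hfaces⟩ := M.edge_faces e
  have : {h | M.ef e h} = {f, g} := by
    ext h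
    simp [hfaces]
  rw [this]
  simp

theorem cHp_face_fin (C : cHp_Ctx M D) (f : CF M.toInc D) :
    {e | (coarse M.toInc D).ef e f}.Finite := by
  rcases f with _ | ⟨t, ht⟩
  · have hfin : (⋃ d ∈ D, ⋃ e ∈ {e | M.ef e d}, {f | M.ef e f}).Finite :=
      C.fin.biUnion fun d _ => (M.face_fin d).biUnion fun e _ => cHp_faces_fin M e
    have h2 : (Subtype.val ⁻¹' (⋃ d ∈ D, ⋃ e ∈ {e | M.ef e d}, {f | M.ef e f}) :
      Set {f : F // f ∉ D ∧ ∃ e, M.ef e f ∧ ∃ d ∈ D, M.ef e d}).Finite :=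
      hfin.preimage Subtype.val_injective.injOn
    refine (h2.image Sum.inr).subset ?_
    rintro (⟨e, he⟩ | ⟨g, hg, e, heg, d, hd, hed⟩) h
    · exact h.elim
    · refine ⟨⟨g, hg, e, heg, d, hd, hed⟩, ?_, rfl⟩
      simp only [mem_preimage, mem_iUnion, mem_ofPred_eq, exists_prop]
      exact ⟨d, hd, e, hed, heg⟩
  · have h1 : (Subtype.val ⁻¹' {e | M.ef e t} : Set {e : E // ∀ f, M.ef e f → f ∉ D}).Finite :=
      (M.face_fin t).preimage Subtype.val_injective.injOn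
    have h2 : (Subtype.val ⁻¹' {t} :
      Set {f : F // f ∉ D ∧ ∃ e, M.ef e f ∧ ∃ d ∈ D, M.ef e d}).Finite :=
      (Set.finite_singleton t).preimage Subtype.val_injective.injOn
    refine ((h1.image Sum.inl).union (h2.image Sum.inr)).subset ?_
    rintro (⟨e, he⟩ | ⟨g, hg, hg'⟩) h
    · left
      exact ⟨⟨e, he⟩, h, rfl⟩
    · right
      exact ⟨⟨g, hg, hg'⟩, h, rfl⟩

theorem cHp_vert_fin (M : PolyMap V E F) (D : Set F) (v : CV M.toInc D) :
    {e | (coarse M.toInc D).ve v e}.Finite := by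
  obtain ⟨v, hcv⟩ := v
  have h1 : (Subtype.val ⁻¹' {e | M.ve v e} : Set {e : E // ∀ f, M.ef e f → f ∉ D}).Finite :=
    (M.vert_fin v).preimage Subtype.val_injective.injOn
  have hfin : (⋃ e ∈ {e | M.ve v e}, {f | M.ef e f}).Finite :=
    (M.vert_fin v).biUnion fun e _ => cHp_faces_fin M e
  have h2 : (Subtype.val ⁻¹' (⋃ e ∈ {e | M.ve v e}, {f | M.ef e f}) :
    Set {f : F // f ∉ D ∧ ∃ e, M.ef e f ∧ ∃ d ∈ D, M.ef e d}).Finite :=
    hfin.preimage Subtype.val_injective.injOn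
  refine ((h1.image Sum.inl).union (h2.image Sum.inr)).subset ?_
  rintro (⟨e, he⟩ | ⟨g, hg, hg'⟩) h
  · left
    exact ⟨⟨e, he⟩, h, rfl⟩
  · right
    obtain ⟨⟨e, hve, heg⟩, _⟩ := h
    refine ⟨⟨g, hg, hg'⟩, ?_, rfl⟩
    simp only [mem_preimage, mem_iUnion, mem_ofPred_eq, exists_prop]
    exact ⟨e, hve, heg⟩

theorem cHp_face_card (C : cHp_Ctx M D) (f : CF M.toInc D) :
    3 ≤ {e | (coarse M.toInc D).ef e f}.ncard := by
  have key : ∀ a b c : CE M.toInc D, (coarse M.toInc D).ef a f → (coarse M.toInc D).ef b f →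
      (coarse M.toInc D).ef c f → a ≠ b → a ≠ c → b ≠ c →
      3 ≤ {e | (coarse M.toInc D).ef e f}.ncard := by
    intro a b c ha hb hc hab hac hbc
    exact (Set.two_lt_ncard_iff (cHp_face_fin C f)).2 ⟨a, b, c, ha, hb, hc, hab, hac, hbc⟩
  rcases f with _ | ⟨t, ht⟩
  · -- three outside faces sharing an edge with `D`
    obtain ⟨e, hde, t1, ht1, het1⟩ := C.frNe
    obtain ⟨n, r, x, y, hR, hr⟩ := cHp_run_of_de C ht1 het1 hde
    have hlt := hR.lt
    have hT0 : Touch M.toInc D (x 0) := by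
      have := (hR.touch 0 (by omega)).2 (by omega)
      simpa using this
    have hT1 : Touch M.toInc D (x r) := (hR.touch r (by omega)).2 le_rfl
    have hv0 : M.vf (x 0) t1 := ⟨y 0, (hR.cyc.curve.ve _ _).2 (Or.inl rfl), cHp_yin hR.cyc _⟩
    have hv1 : M.vf (x r) t1 := ⟨y r, (hR.cyc.curve.ve _ _).2 (Or.inl rfl), cHp_yin hR.cyc _⟩
    obtain ⟨t2, h21, ht2, hvt2, hex2, -⟩ := cHp_pair C (cHp_cv_zero ht1 hR) hT0 ht1 hv0
      ⟨e, het1, hde⟩
    obtain ⟨t3, h31, ht3, hvt3, hex3, -⟩ := cHp_pair C (cHp_cv_last ht1 hR) hT1 ht1 hv1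
      ⟨e, het1, hde⟩
    have hxx : x 0 ≠ x r := by
      intro h
      have := cHp_x_inj hR.cyc (k := 0) (l := r) (by omega) (by omega) (by simpa using h)
      omega
    have h23 : t2 ≠ t3 := by
      rintro rfl
      obtain ⟨d, hd1, hd2, hd3, hd4⟩ := M.inter t1 t2 h21.symm (x 0) (x r) hxx hv0 hvt2 hv1 hvt3
      exact cHp_Y C ht1 hR hr hd3 hd1 hd2 (cHp_notDE_of hd3 hd4 h21.symm ht1 ht2)
    exact key (Sum.inr ⟨t1, ht1, e, het1, hde⟩) (Sum.inr ⟨t2, ht2, hex2⟩)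
      (Sum.inr ⟨t3, ht3, hex3⟩) trivial trivial trivial (by simpa using h21.symm)
      (by simpa using h31.symm) (by simpa using h23)
  · by_cases hex : ∃ e, M.ef e t ∧ cHp_DE M.toInc D e
    · obtain ⟨e, het, hde⟩ := hex
      obtain ⟨n, r, x, y, hR, hr⟩ := cHp_run_of_de C ht het hde
      have hX := cHp_X C ht hR
      have hA : ∀ k : ℕ, k < n → r ≤ k → ∀ f, M.ef (y k) f → f ∉ D := by
        intro k hk hrk f hf hfD
        have := (hR.de k hk).1 ⟨f, hfD, hf⟩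
        omega
      refine key (Sum.inl ⟨y ((n - 2 : ℕ) : ℤ), hA _ (by omega) (by omega)⟩)
        (Sum.inl ⟨y ((n - 1 : ℕ) : ℤ), hA _ (by omega) (by omega)⟩)
        (Sum.inr ⟨t, ht, e, het, hde⟩) (cHp_yin hR.cyc _) (cHp_yin hR.cyc _) rfl ?_ (by simp)
        (by simp)
      intro h
      have h' : y ((n - 2 : ℕ) : ℤ) = y ((n - 1 : ℕ) : ℤ) := by simpa using h
      have := cHp_y_inj hR.cyc (by omega) (by omega) h'
      omega
    · obtain ⟨a, b, c, ha, hb, hc, hab, hac, hbc⟩ :=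
        (Set.two_lt_ncard_iff (M.face_fin t)).1 (M.face_card t)
      have hA : ∀ e, M.ef e t → ∀ f, M.ef e f → f ∉ D := fun e he f hf hfD =>
        hex ⟨e, he, f, hfD, hf⟩
      exact key (Sum.inl ⟨a, hA a ha⟩) (Sum.inl ⟨b, hA b hb⟩) (Sum.inl ⟨c, hA c hc⟩) ha hb hc
        (by simpa using hab) (by simpa using hac) (by simpa using hbc)

theorem cHp_vert_card (C : cHp_Ctx M D) (v : CV M.toInc D) :
    3 ≤ {e | (coarse M.toInc D).ve v e}.ncard := by
  have key : ∀ a b c : CE M.toInc D, (coarse M.toInc D).ve v a → (coarse M.toInc D).ve v b →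
      (coarse M.toInc D).ve v c → a ≠ b → a ≠ c → b ≠ c →
      3 ≤ {e | (coarse M.toInc D).ve v e}.ncard := by
    intro a b c ha hb hc hab hac hbc
    exact (Set.two_lt_ncard_iff (cHp_vert_fin M D v)).2 ⟨a, b, c, ha, hb, hc, hab, hac, hbc⟩
  obtain ⟨v, hcv⟩ := v
  by_cases hT : Touch M.toInc D v
  · have hT' : Touch M.toInc Dᶜ v := by
      obtain ⟨f, g, _, hf, _, hvf, _⟩ := hcv
      exact ⟨f, hf, hvf⟩
    obtain ⟨e1, ⟨hd1, t1, ht1, hf1⟩, hv1⟩ := C.frv v hT hT'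
    obtain ⟨t2, h21, ht2, hvt2, hex2, -⟩ := cHp_pair C hcv hT ht1 ⟨e1, hv1, hf1⟩ ⟨e1, hf1, hd1⟩
    obtain ⟨e2, hne, hc⟩ := M.corner v e1 t1 hv1 hf1
    obtain ⟨hv2, hf2⟩ := (hc e2).2 (Or.inr rfl)
    have hd2 : ¬ cHp_DE M.toInc D e2 := fun h => cHp_not_cv C hne hv2 hv1 hf2 hf1 ht1 h hd1 hcv
    exact key (Sum.inl ⟨e2, fun g hg hgD => hd2 ⟨g, hgD, hg⟩⟩)
      (Sum.inr ⟨t1, ht1, e1, hf1, hd1⟩) (Sum.inr ⟨t2, ht2, hex2⟩) hv2
      ⟨⟨e1, hv1, hf1⟩, hT⟩ ⟨hvt2, hT⟩ (by simp) (by simp) (by simpa using h21.symm)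
  · obtain ⟨a, b, c, ha, hb, hc, hab, hac, hbc⟩ :=
      (Set.two_lt_ncard_iff (M.vert_fin v)).1 (M.vert_card v)
    have hA : ∀ e, M.ve v e → ∀ f, M.ef e f → f ∉ D := fun e he f hf hfD =>
      hT (cHp_touch_of he ⟨f, hfD, hf⟩)
    exact key (Sum.inl ⟨a, hA a ha⟩) (Sum.inl ⟨b, hA b hb⟩) (Sum.inl ⟨c, hA c hc⟩) ha hb hc
      (by simpa using hab) (by simpa using hac) (by simpa using hbc)


theorem cHp_face_conn (C : cHp_Ctx M D) (f : CF M.toInc D) (A : Set (CE M.toInc D))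
    (hA : A ⊆ {e | (coarse M.toInc D).ef e f}) (hne : A.Nonempty)
    (hcl : ∀ e ∈ A, ∀ d, (coarse M.toInc D).ef d f →
      (∃ v, (coarse M.toInc D).ve v e ∧ (coarse M.toInc D).ve v d) → d ∈ A) :
    A = {e | (coarse M.toInc D).ef e f} := by
  rcases f with _ | ⟨t, ht⟩
  · -- the big face
    have hB := C.bondConn {e | e ∈ fr M.toInc D ∧ ∃ (t : F) (h : t ∉ D ∧ ∃ e, M.ef e t ∧
      ∃ d ∈ D, M.ef e d), M.ef e t ∧ Sum.inr ⟨t, h⟩ ∈ A} (fun e he => he.1) (by
        obtain ⟨a, ha⟩ := hne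
        rcases a with ⟨e, he⟩ | ⟨t, ht, e, het, hde⟩
        · exact (hA ha).elim
        · exact ⟨e, cHp_mem_fr hde het ht, t, ⟨ht, e, het, hde⟩, het, ha⟩) (by
        rintro e ⟨he, t, ⟨htD, hex⟩, het, hmem⟩ d hd ⟨v, hve, hvd⟩
        obtain ⟨hdd, g, hgD, hdg⟩ := hd
        refine ⟨⟨hdd, g, hgD, hdg⟩, g, ⟨hgD, d, hdg, hdd⟩, hdg, ?_⟩
        by_cases htg : t = g
        · subst htg
          exact hmem
        · have hcv : cHp_CV M.toInc D v := ⟨t, g, htg, htD, hgD, ⟨e, hve, het⟩, ⟨d, hvd, hdg⟩⟩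
          have hT : Touch M.toInc D v := cHp_touch_of hvd hdd
          exact hcl _ hmem _ trivial ⟨⟨v, hcv⟩, ⟨⟨e, hve, het⟩, hT⟩, ⟨⟨d, hvd, hdg⟩, hT⟩⟩)
    refine hA.antisymm ?_
    rintro (⟨e, he⟩ | ⟨g, hg, e, heg, hde⟩) h
    · exact h.elim
    · have he : e ∈ fr M.toInc D := cHp_mem_fr hde heg hg
      rw [← hB] at he
      obtain ⟨_, t, ⟨htD, hex⟩, het, hmem⟩ := he
      have : t = g := cHp_out_unique hde heg hg het htD
      subst this
      exact hmem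
  · have hB := M.face_conn t {e | M.ef e t ∧ ((∃ h, Sum.inl ⟨e, h⟩ ∈ A) ∨
      (cHp_DE M.toInc D e ∧ ∃ h, Sum.inr ⟨t, h⟩ ∈ A))} (fun e he => he.1) (by
        obtain ⟨a, ha⟩ := hne
        rcases a with ⟨e, he⟩ | ⟨g, hg, e, heg, hde⟩
        · exact ⟨e, hA ha, Or.inl ⟨he, ha⟩⟩
        · have hgt : g = t := hA ha
          subst hgt
          exact ⟨e, heg, Or.inr ⟨hde, _, ha⟩⟩) (by
        rintro e ⟨het, he⟩ d hdt ⟨v, hve, hvd⟩
        refine ⟨hdt, ?_⟩
        by_cases hdd : cHp_DE M.toInc D d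
        · right
          refine ⟨hdd, ⟨ht, d, hdt, hdd⟩, ?_⟩
          rcases he with ⟨he, hmem⟩ | ⟨_, _, hmem⟩
          · have hnd : ¬ cHp_DE M.toInc D e := fun ⟨d', hd', h⟩ => he d' h hd'
            have hcv : cHp_CV M.toInc D v := cHp_cv_of hve het ht hnd
            exact hcl _ hmem _ rfl ⟨⟨v, hcv⟩, hve, ⟨⟨d, hvd, hdt⟩, cHp_touch_of hvd hdd⟩⟩
          · exact hmem
        · left
          have hdn : ∀ f, M.ef d f → f ∉ D := fun f hf hfD => hdd ⟨f, hfD, hf⟩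
          have hcv : cHp_CV M.toInc D v := cHp_cv_of hvd hdt ht hdd
          refine ⟨hdn, ?_⟩
          rcases he with ⟨he, hmem⟩ | ⟨hde, h, hmem⟩
          · exact hcl _ hmem _ hdt ⟨⟨v, hcv⟩, hve, hvd⟩
          · exact hcl _ hmem _ hdt ⟨⟨v, hcv⟩, ⟨⟨e, hve, het⟩, cHp_touch_of hve hde⟩, hvd⟩)
    refine hA.antisymm ?_
    rintro (⟨e, he⟩ | ⟨g, hg, e, heg, hde⟩) h
    · change M.ef e t at h
      have h' : e ∈ {e | M.ef e t} := h
      rw [← hB] at h'
      rcases h'.2 with ⟨_, hmem⟩ | ⟨⟨d', hd', hed'⟩, _⟩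
      · exact hmem
      · exact absurd hd' (he d' hed')
    · change g = t at h
      subst h
      have h' : e ∈ {e | M.ef e g} := heg
      rw [← hB] at h'
      rcases h'.2 with ⟨hn, _⟩ | ⟨_, _, hmem⟩
      · obtain ⟨d', hd', hed'⟩ := hde
        exact absurd hd' (hn d' hed')
      · exact hmem

theorem cHp_vert_conn (v : CV M.toInc D) (A : Set (CE M.toInc D))
    (hA : A ⊆ {e | (coarse M.toInc D).ve v e}) (hne : A.Nonempty)
    (hcl : ∀ e ∈ A, ∀ d, (coarse M.toInc D).ve v d →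
      (∃ f, (coarse M.toInc D).ef e f ∧ (coarse M.toInc D).ef d f) → d ∈ A) :
    A = {e | (coarse M.toInc D).ve v e} := by
  obtain ⟨v, hcv⟩ := v
  have hB := M.vert_conn v {e | M.ve v e ∧ ((∃ h, Sum.inl ⟨e, h⟩ ∈ A) ∨
    (cHp_DE M.toInc D e ∧ ∃ f, Sum.inr f ∈ A))} (fun e he => he.1) (by
      obtain ⟨a, ha⟩ := hne
      rcases a with ⟨e, he⟩ | ⟨g, hg⟩
      · exact ⟨e, hA ha, Or.inl ⟨he, ha⟩⟩
      · obtain ⟨_, d, hd, e, hve, hed⟩ := hA ha
        exact ⟨e, hve, Or.inr ⟨⟨d, hd, hed⟩, _, ha⟩⟩) (by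
      rintro e ⟨hve, he⟩ d hvd ⟨g, heg, hdg⟩
      refine ⟨hvd, ?_⟩
      by_cases hdd : cHp_DE M.toInc D d
      · right
        refine ⟨hdd, ?_⟩
        rcases he with ⟨he, hmem⟩ | ⟨_, h⟩
        · have hgD : g ∉ D := he g heg
          refine ⟨⟨g, hgD, d, hdg, hdd⟩, ?_⟩
          exact hcl _ hmem _ ⟨⟨d, hvd, hdg⟩, cHp_touch_of hvd hdd⟩ ⟨some ⟨g, hgD⟩, heg, rfl⟩
        · exact h
      · left
        have hdn : ∀ f, M.ef d f → f ∉ D := fun f hf hfD => hdd ⟨f, hfD, hf⟩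
        have hgD : g ∉ D := hdn g hdg
        refine ⟨hdn, ?_⟩
        rcases he with ⟨he, hmem⟩ | ⟨hde, f, hmem⟩
        · exact hcl _ hmem _ hvd ⟨some ⟨g, hgD⟩, heg, hdg⟩
        · have h2 : (Sum.inr ⟨g, hgD, e, heg, hde⟩ : CE M.toInc D) ∈ A :=
            hcl _ hmem _ ⟨⟨e, hve, heg⟩, cHp_touch_of hve hde⟩ ⟨none, trivial, trivial⟩
          exact hcl _ h2 _ hvd ⟨some ⟨g, hgD⟩, rfl, hdg⟩)
  refine hA.antisymm ?_
  rintro (⟨e, he⟩ | ⟨g, hg⟩) h
  · change M.ve v e at h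
    have h' : e ∈ {e | M.ve v e} := h
    rw [← hB] at h'
    rcases h'.2 with ⟨_, hmem⟩ | ⟨⟨d', hd', hed'⟩, _⟩
    · exact hmem
    · exact absurd hd' (he d' hed')
  · have h0 := h
    obtain ⟨_, d, hd, e, hve, hed⟩ := h
    have h' : e ∈ {e | M.ve v e} := hve
    rw [← hB] at h'
    rcases h'.2 with ⟨hn, _⟩ | ⟨_, f, hmem⟩
    · exact absurd hd (hn d hed)
    · exact hcl _ hmem _ h0 ⟨none, trivial, trivial⟩

theorem cHp_inter_none (C : cHp_Ctx M D) {t : F} (ht : t ∉ D) {u v : V} (huv : u ≠ v)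
    (hut : M.vf u t) (hvt : M.vf v t) (huT : Touch M.toInc D u) (hvT : Touch M.toInc D v) :
    ∃ e, M.ef e t ∧ cHp_DE M.toInc D e := by
  obtain ⟨n, r, x, y, hR⟩ := cHp_run_of_touch C ht hut huT
  obtain ⟨k, hk, rfl⟩ := cHp_vtx hR.cyc hut
  obtain ⟨l, hl, rfl⟩ := cHp_vtx hR.cyc hvt
  have hkr := (hR.touch k hk).1 huT
  have hlr := (hR.touch l hl).1 hvT
  have hkl : k ≠ l := fun h => huv (by rw [h])
  have h0 : 0 < n := by omega
  refine ⟨y ((0 : ℕ) : ℤ), cHp_yin hR.cyc _, (hR.de 0 h0).2 ?_⟩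
  omega

theorem cHp_vf_some {u : CV M.toInc D} {t : F} {ht : t ∉ D}
    (h : ∃ e, (coarse M.toInc D).ve u e ∧ (coarse M.toInc D).ef e (some ⟨t, ht⟩)) :
    M.vf u.1 t := by
  obtain ⟨e | g, hve, hef⟩ := h
  · exact ⟨e.1, hve, hef⟩
  · have : g.1 = t := hef
    rw [← this]
    exact hve.1

theorem cHp_vf_none {u : CV M.toInc D}
    (h : ∃ e, (coarse M.toInc D).ve u e ∧ (coarse M.toInc D).ef e none) :
    Touch M.toInc D u.1 := by
  obtain ⟨e | g, hve, hef⟩ := h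
  · exact hef.elim
  · exact hve.2

theorem cHp_inter (C : cHp_Ctx M D) (f g : CF M.toInc D) (hfg : f ≠ g) (u v : CV M.toInc D)
    (huv : u ≠ v)
    (h1 : ∃ e, (coarse M.toInc D).ve u e ∧ (coarse M.toInc D).ef e f)
    (h2 : ∃ e, (coarse M.toInc D).ve u e ∧ (coarse M.toInc D).ef e g)
    (h3 : ∃ e, (coarse M.toInc D).ve v e ∧ (coarse M.toInc D).ef e f)
    (h4 : ∃ e, (coarse M.toInc D).ve v e ∧ (coarse M.toInc D).ef e g) :
    ∃ e, (coarse M.toInc D).ve u e ∧ (coarse M.toInc D).ve v e ∧ (coarse M.toInc D).ef e f ∧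
      (coarse M.toInc D).ef e g := by
  have huv' : u.1 ≠ v.1 := fun h => huv (Subtype.ext h)
  rcases f with _ | ⟨f, hf⟩ <;> rcases g with _ | ⟨g, hg⟩
  · exact absurd rfl hfg
  · have a1 := cHp_vf_none h1
    have a2 := cHp_vf_some h2
    have a3 := cHp_vf_none h3
    have a4 := cHp_vf_some h4
    exact ⟨Sum.inr ⟨g, hg, cHp_inter_none C hg huv' a2 a4 a1 a3⟩, ⟨a2, a1⟩, ⟨a4, a3⟩, trivial, rfl⟩
  · have a1 := cHp_vf_some h1
    have a2 := cHp_vf_none h2
    have a3 := cHp_vf_some h3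
    have a4 := cHp_vf_none h4
    exact ⟨Sum.inr ⟨f, hf, cHp_inter_none C hf huv' a1 a3 a2 a4⟩, ⟨a1, a2⟩, ⟨a3, a4⟩, rfl, trivial⟩
  · have hfg' : f ≠ g := fun h => hfg (by subst h; rfl)
    obtain ⟨e, b1, b2, b3, b4⟩ := M.inter f g hfg' u.1 v.1 huv' (cHp_vf_some h1) (cHp_vf_some h2)
      (cHp_vf_some h3) (cHp_vf_some h4)
    have hnd := cHp_notDE_of b3 b4 hfg' hf hg
    exact ⟨Sum.inl ⟨e, fun h hh hhD => hnd ⟨h, hhD, hh⟩⟩, b1, b2, b3, b4⟩

/-- The coarse map as a polyhedral map. -/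
def cHp_poly (C : cHp_Ctx M D) : PolyMap (CV M.toInc D) (CE M.toInc D) (CF M.toInc D) where
  toInc := coarse M.toInc D
  edge_verts := cHp_edge_verts C
  edge_faces := cHp_edge_faces
  corner := cHp_corner C
  face_fin := cHp_face_fin C
  face_card := cHp_face_card C
  face_conn := cHp_face_conn C
  vert_fin := cHp_vert_fin M D
  vert_card := cHp_vert_card C
  vert_conn := cHp_vert_conn
  inter := cHp_inter C

end loc

end cH

/-- C15a. -/
theorem cH_coarsePoly (_ : Stmt_NoDouble) (h3 : Stmt_FaceCycle) (h7 : Stmt_FrVertex)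
    (h8 : Stmt_Bond) (h9 : Stmt_Tight) : Stmt_CoarsePoly := by
  intro V E F M D hD
  exact ⟨cHp_poly (cHp_ctx h3 h7 h8 h9 M D hD), rfl⟩

end Pool.Agent.CT
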