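import Pool.Agent.CT.DDefs
import Pool.Agent.CT.CoarsePoly

set_option autoImplicit false

/-! # D19: assembly of the drawing from the levels -/

namespace Pool.Agent.CT

open Set Metric

section cD19

variable {V E F : Type}

/-! ## General facts -/

theorem cD19_vf_range {M : Inc V E F} {f : F} {n : ℕ} {x : ℤ → V} {y : ℤ → E}
    (h : IsFaceCycle M f n x y) : {v | M.vf v f} = range x := by
  ext v
  constructor
  · rintro ⟨e, hve, hef⟩
    obtain ⟨i, rfl⟩ := (h.curve.mem e).1 hef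
    rcases (h.curve.ve i v).1 hve with rfl | rfl
    · exact ⟨i, rfl⟩
    · exact ⟨i + 1, rfl⟩
  · rintro ⟨i, rfl⟩
    exact ⟨y i, (h.curve.ve i _).2 (Or.inl rfl), (h.curve.mem _).2 ⟨i, rfl⟩⟩

theorem cD19_poly_congr {M : Inc V E F} {φ ψ : V → ℂ} {f : F}
    (h : ∀ v, M.vf v f → ψ v = φ v) : poly M ψ f = poly M φ f := by
  unfold poly
  congr 1
  apply Set.image_congr
  intro v hv
  exact h v hv

theorem cD19_seg_congr {M : Inc V E F} {φ ψ : V → ℂ} {e : E}
    (h : ∀ v, M.ve v e → ψ v = φ v) : seg M ψ e = seg M φ e := by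
  unfold seg
  congr 1
  apply Set.image_congr
  intro v hv
  exact h v hv

theorem cD19_faceOK_congr {M : Inc V E F} {φ ψ : V → ℂ} {f : F} (hf : FaceOK M φ f)
    (h : ∀ v, M.vf v f → ψ v = φ v) : FaceOK M ψ f := by
  have hs : ∀ e, M.ef e f → seg M ψ e = seg M φ e := fun e he =>
    cD19_seg_congr fun v hv => h v ⟨e, hv, he⟩
  refine ⟨hf.fin, ?_, ?_, ?_, ?_⟩
  · intro e u v he hu hv huv
    rw [h u ⟨e, hu, he⟩, h v ⟨e, hv, he⟩]
    exact hf.ne e u v he hu hv huv
  · rw [cD19_poly_congr h]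
    exact hf.int
  · rw [cD19_poly_congr h, hf.bdry]
    apply Set.iUnion₂_congr
    intro e he
    exact (hs e he).symm
  · intro e d he hd hed
    rw [hs e he, hs d hd]
    refine (hf.seg_inter e d he hd hed).trans ?_
    rintro z ⟨v, hv, rfl⟩
    exact ⟨v, hv, h v ⟨e, hv.1, he⟩⟩

theorem cD19_opp_symm {M : Inc V E F} {φ : V → ℂ} {e : E} {f g : F} (h : Opp M φ e f g) :
    Opp M φ e g f := by
  obtain ⟨w, c, hw, h1, h2, h3⟩ := h
  have hd : ∀ z, dir (-w) z = - dir w z := by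
    intro z
    simp only [dir, Complex.neg_re, Complex.neg_im]
    ring
  refine ⟨-w, -c, neg_ne_zero.2 hw, ?_, ?_, ?_⟩
  · intro v hv
    rw [hd, h1 v hv]
  · intro v hv
    rw [hd]
    linarith [h3 v hv]
  · intro v hv
    rw [hd]
    linarith [h2 v hv]

theorem cD19_dir_comb (w a b : ℂ) (s : ℝ) :
    dir w (a + (s : ℂ) * (b - a)) = dir w a + s * (dir w b - dir w a) := by
  simp only [dir, Complex.add_re, Complex.add_im, Complex.mul_re, Complex.mul_im,
    Complex.ofReal_re, Complex.ofReal_im, Complex.sub_re, Complex.sub_im]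
  ring

theorem cD19_half_le (w : ℂ) (c : ℝ) (S : Set ℂ) (h : ∀ z ∈ S, dir w z ≤ c) :
    ∀ z ∈ convexHull ℝ S, dir w z ≤ c := by
  have hc : Convex ℝ {z : ℂ | dir w z ≤ c} := by
    intro a ha b hb s t hs ht hst
    have ha' : s * dir w a ≤ s * c := mul_le_mul_of_nonneg_left ha hs
    have hb' : t * dir w b ≤ t * c := mul_le_mul_of_nonneg_left hb ht
    have h3 : s * c + t * c = c := by rw [← add_mul, hst, one_mul]
    have : dir w (s • a + t • b) = s * dir w a + t * dir w b := by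
      simp only [dir, Complex.add_re, Complex.add_im, Complex.real_smul, Complex.mul_re,
        Complex.mul_im, Complex.ofReal_re, Complex.ofReal_im]
      ring
    show (_ : ℝ) ≤ _
    rw [this]
    linarith
  exact fun z hz => convexHull_min (t := {z : ℂ | dir w z ≤ c}) h hc hz

theorem cD19_half_ge (w : ℂ) (c : ℝ) (S : Set ℂ) (h : ∀ z ∈ S, c ≤ dir w z) :
    ∀ z ∈ convexHull ℝ S, c ≤ dir w z := by
  have hc : Convex ℝ {z : ℂ | c ≤ dir w z} := by
    intro a ha b hb s t hs ht hst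
    have ha' : s * c ≤ s * dir w a := mul_le_mul_of_nonneg_left ha hs
    have hb' : t * c ≤ t * dir w b := mul_le_mul_of_nonneg_left hb ht
    have h3 : s * c + t * c = c := by rw [← add_mul, hst, one_mul]
    have : dir w (s • a + t • b) = s * dir w a + t * dir w b := by
      simp only [dir, Complex.add_re, Complex.add_im, Complex.real_smul, Complex.mul_re,
        Complex.mul_im, Complex.ofReal_re, Complex.ofReal_im]
      ring
    show (_ : ℝ) ≤ _
    rw [this]
    linarith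
  exact fun z hz => convexHull_min (t := {z : ℂ | c ≤ dir w z}) h hc hz

/-- A convex set with nonempty interior which meets an open set meets it in an interior point. -/
theorem cD19_meet {A U : Set ℂ} (hA : Convex ℝ A) (hi : (interior A).Nonempty) (hU : IsOpen U)
    (h : (A ∩ U).Nonempty) : (interior A ∩ U).Nonempty := by
  obtain ⟨z, hz, hzU⟩ := h
  have hcl : z ∈ closure (interior A) := by
    rw [hA.closure_interior_eq_closure_of_nonempty_interior hi]
    exact subset_closure hz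
  obtain ⟨w, hw1, hw2⟩ := mem_closure_iff.1 hcl U hU hzU
  exact ⟨w, hw2, hw1⟩

/-! ## Lifting cycles to the coarse map -/

/-- The cycle of a face without edges along `D`. -/
theorem cD19_lift {M : PolyMap V E F} {D : Set F} {t : F} (ht : t ∉ D) {n : ℕ} {x : ℤ → V}
    {y : ℤ → E} (hc : IsFaceCycle M.toInc t n x y)
    (hnd : ∀ e, M.ef e t → ¬ cHp_DE M.toInc D e) :
    ∃ (X : ℤ → CV M.toInc D) (Y : ℤ → CE M.toInc D),
      IsFaceCycle (coarse M.toInc D) (some ⟨t, ht⟩) n X Y ∧ (∀ k, (X k).1 = x k) ∧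
      ∀ k, ∃ h, Y k = Sum.inl ⟨y k, h⟩ := by
  have hcv : ∀ k, cHp_CV M.toInc D (x k) := fun k =>
    cHp_cv_of ((hc.curve.ve k _).2 (Or.inl rfl)) (cHp_yin hc k) ht (hnd _ (cHp_yin hc k))
  have hy : ∀ k f, M.ef (y k) f → f ∉ D := fun k f hf hfD => hnd _ (cHp_yin hc k) ⟨f, hfD, hf⟩
  refine ⟨fun k => ⟨x k, hcv k⟩, fun k => Sum.inl ⟨y k, hy k⟩, ⟨hc.three, hc.curve.n_ne, ?_, ?_,
    ?_, ?_⟩, fun k => rfl, fun k => ⟨hy k, rfl⟩⟩
  · intro i j
    rw [Subtype.mk.injEq]
    exact hc.curve.x_eq i j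
  · intro i j
    rw [Sum.inl.injEq, Subtype.mk.injEq]
    exact hc.curve.y_eq i j
  · rintro (e | g)
    · constructor
      · intro h
        have h' : M.ef e.1 t := h
        obtain ⟨i, hi⟩ := (hc.curve.mem e.1).1 h'
        exact ⟨i, by rw [Sum.inl.injEq]; exact Subtype.ext hi⟩
      · rintro ⟨i, hi⟩
        rw [Sum.inl.injEq] at hi
        show M.ef e.1 t
        rw [← hi]
        exact cHp_yin hc i
    · constructor
      · intro h
        have h' : g.1 = t := h
        obtain ⟨e, he, d, hd, hed⟩ := g.2.2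
        rw [h'] at he
        exact absurd ⟨d, hd, hed⟩ (hnd e he)
      · rintro ⟨i, hi⟩
        cases hi
  · intro i v
    show M.ve v.1 (y i) ↔ _
    rw [hc.curve.ve]
    constructor
    · rintro (h | h)
      · left; exact Subtype.ext h
      · right; exact Subtype.ext h
    · rintro (h | h)
      · left; rw [h]
      · right; rw [h]

theorem cD19_emod {m : ℕ} (hm : 0 < m) (i : ℤ) : ∃ k : ℕ, k < m ∧ (m : ℤ) ∣ i - k := by
  refine ⟨(i % m).toNat, ?_, ?_⟩
  · have := Int.emod_lt_of_pos i (by omega : (0 : ℤ) < m)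
    have h0 := Int.emod_nonneg i (by omega : (m : ℤ) ≠ 0)
    omega
  · rw [Int.toNat_of_nonneg (Int.emod_nonneg i (by omega))]
    exact Int.dvd_self_sub_emod

/-- The cycle of a face with edges along `D`. -/
theorem cD19_runCycle {M : PolyMap V E F} {D : Set F} (C : cHp_Ctx M D) {t : F} (ht : t ∉ D)
    {n r : ℕ} {x : ℤ → V} {y : ℤ → E} (hR : cHp_Run M.toInc D t n r x y) (hr : 1 ≤ r) :
    ∃ (X : ℤ → CV M.toInc D) (Y : ℤ → CE M.toInc D),
      IsFaceCycle (coarse M.toInc D) (some ⟨t, ht⟩) (n - r + 1) X Y ∧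
      ∀ j : ℕ, j < n - r + 1 → (X j).1 = x (r + j) := by
  have hX := cHp_X C ht hR
  have hn3 := hR.cyc.three
  set m : ℕ := n - r + 1 with hm
  have hmpos : 0 < m := by omega
  have hde0 : ∃ e, M.ef e t ∧ ∃ d ∈ D, M.ef e d :=
    ⟨y 0, cHp_yin hR.cyc 0, (hR.de 0 (by omega)).2 (by omega)⟩
  have hnd : ∀ j : ℕ, j < n - r → ¬ cHp_DE M.toInc D (y (r + j)) := by
    intro j hj h
    have := (hR.de (r + j) (by omega)).1 (by push_cast; exact h)
    omega
  have hcv : ∀ j : ℕ, j < m → cHp_CV M.toInc D (x (r + j)) := by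
    intro j hj
    by_cases h : j < n - r
    · exact cHp_cv_of ((hR.cyc.curve.ve _ _).2 (Or.inl rfl)) (cHp_yin hR.cyc _) ht (hnd j h)
    · have hj' : (r : ℤ) + j = n := by omega
      rw [hj', cHp_xn hR.cyc]
      exact cHp_cv_zero ht hR
  choose kk hkk hdv using fun i : ℤ => cD19_emod hmpos i
  have hkk_eq : ∀ i j : ℤ, kk i = kk j ↔ (m : ℤ) ∣ i - j := by
    intro i j
    constructor
    · intro h
      have := dvd_sub (hdv i) (hdv j)
      rwa [h, show i - (kk j : ℤ) - (j - kk j) = i - j by ring] at this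
    · intro h
      apply cHp_dvd_eq (hkk i) (hkk j)
      have := dvd_add (dvd_sub h (hdv i)) (hdv j)
      rwa [show i - j - (i - (kk i : ℤ)) + (j - kk j) = kk i - kk j by ring] at this
  have hxeq : ∀ i j : ℕ, i < m → j < m → (x (r + i) = x (r + j) ↔ i = j) := by
    intro i j hi hj
    rw [hR.cyc.curve.x_eq]
    constructor
    · intro h
      rw [show (r : ℤ) + i - (r + j) = i - j by ring] at h
      exact cHp_dvd_eq (n := n) (by omega) (by omega) h
    · rintro rfl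
      simp
  have hyeq : ∀ i j : ℕ, i < m → j < m → (y (r + i) = y (r + j) ↔ i = j) := by
    intro i j hi hj
    rw [hR.cyc.curve.y_eq]
    constructor
    · intro h
      rw [show (r : ℤ) + i - (r + j) = i - j by ring] at h
      exact cHp_dvd_eq (n := n) (by omega) (by omega) h
    · rintro rfl
      simp
  have hyE : ∀ j : ℕ, j < n - r → ∀ f, M.ef (y (r + j)) f → f ∉ D := fun j hj f hf hfD =>
    hnd j hj ⟨f, hfD, hf⟩
  let X : ℤ → CV M.toInc D := fun i => ⟨x (r + kk i), hcv _ (hkk i)⟩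
  let Y : ℤ → CE M.toInc D := fun i => if h : kk i < n - r then
    Sum.inl ⟨y (r + kk i), hyE _ h⟩ else Sum.inr ⟨t, ht, hde0⟩
  have hYl : ∀ i (h : kk i < n - r), Y i = Sum.inl ⟨y (r + kk i), hyE _ h⟩ := by
    intro i h
    simp only [Y, dif_pos h]
  have hYr : ∀ i (h : ¬ kk i < n - r), Y i = Sum.inr ⟨t, ht, hde0⟩ := by
    intro i h
    simp only [Y, dif_neg h]
  have hsucc : ∀ i, (kk i < n - r → kk (i + 1) = kk i + 1) ∧ (¬ kk i < n - r → kk (i + 1) = 0) := by
    intro i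
    constructor
    · intro h
      apply cHp_dvd_eq (hkk (i + 1)) (by omega)
      have := dvd_sub (hdv i) (hdv (i + 1))
      rwa [show i - (kk i : ℤ) - (i + 1 - kk (i + 1)) = kk (i + 1) - ((kk i + 1 : ℕ) : ℤ) by
        push_cast; ring] at this
    · intro h
      have h1 : kk i + 1 = m := by have := hkk i; omega
      apply cHp_dvd_eq (hkk (i + 1)) hmpos
      have h2 := dvd_add (dvd_sub (hdv i) (hdv (i + 1))) (dvd_refl (m : ℤ))
      rwa [show i - (kk i : ℤ) - (i + 1 - kk (i + 1)) + (m : ℤ) = kk (i + 1) - ((0 : ℕ) : ℤ) by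
        rw [← h1]; push_cast; ring] at h2
  refine ⟨X, Y, ⟨by omega, Or.inr (by omega), ?_, ?_, ?_, ?_⟩, ?_⟩
  · intro i j
    show (⟨x (r + kk i), hcv _ (hkk i)⟩ : CV M.toInc D) = ⟨x (r + kk j), hcv _ (hkk j)⟩ ↔ _
    rw [Subtype.mk.injEq, hxeq _ _ (hkk i) (hkk j), hkk_eq]
  · intro i j
    rw [← hkk_eq]
    by_cases h1 : kk i < n - r <;> by_cases h2 : kk j < n - r
    · rw [hYl i h1, hYl j h2, Sum.inl.injEq, Subtype.mk.injEq, hyeq _ _ (hkk i) (hkk j)]
    · rw [hYl i h1, hYr j h2]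
      constructor
      · intro h; cases h
      · intro h; omega
    · rw [hYr i h1, hYl j h2]
      constructor
      · intro h; cases h
      · intro h; omega
    · rw [hYr i h1, hYr j h2]
      have := hkk i
      have := hkk j
      constructor
      · intro _; omega
      · intro _; rfl
  · rintro (e | g)
    · constructor
      · intro h
        have h' : M.ef e.1 t := h
        obtain ⟨k, hk, hek⟩ := cHp_edg hR.cyc h'
        have hkr : ¬ k < r := by
          intro hlt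
          obtain ⟨d, hd, hed⟩ := (hR.de k hk).2 hlt
          rw [← hek] at hed
          exact e.2 d hed hd
        have hkk0 : kk ((k - r : ℕ) : ℤ) = k - r := by
          apply cHp_dvd_eq (hkk _) (by omega)
          have := hdv ((k - r : ℕ) : ℤ)
          rw [← dvd_neg]
          rwa [neg_sub]
        refine ⟨((k - r : ℕ) : ℤ), ?_⟩
        rw [hYl _ (by rw [hkk0]; omega), Sum.inl.injEq]
        apply Subtype.ext
        show y (r + kk ((k - r : ℕ) : ℤ)) = e.1
        rw [hkk0, hek]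
        congr 1
        omega
      · rintro ⟨i, hi⟩
        by_cases h1 : kk i < n - r
        · rw [hYl i h1, Sum.inl.injEq] at hi
          show M.ef e.1 t
          rw [← hi]
          exact cHp_yin hR.cyc _
        · rw [hYr i h1] at hi
          cases hi
    · constructor
      · intro h
        have h' : g.1 = t := h
        have hkk0 : kk ((n - r : ℕ) : ℤ) = n - r := by
          apply cHp_dvd_eq (hkk _) (by omega)
          have := hdv ((n - r : ℕ) : ℤ)
          rw [← dvd_neg]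
          rwa [neg_sub]
        refine ⟨((n - r : ℕ) : ℤ), ?_⟩
        rw [hYr _ (by rw [hkk0]; omega), Sum.inr.injEq]
        exact Subtype.ext h'.symm
      · rintro ⟨i, hi⟩
        by_cases h1 : kk i < n - r
        · rw [hYl i h1] at hi
          cases hi
        · rw [hYr i h1, Sum.inr.injEq] at hi
          show g.1 = t
          rw [← hi]
  · intro i v
    by_cases h1 : kk i < n - r
    · rw [hYl i h1]
      show M.ve v.1 (y (r + kk i)) ↔ _
      rw [hR.cyc.curve.ve]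
      have h2 := (hsucc i).1 h1
      constructor
      · rintro (h | h)
        · left; exact Subtype.ext h
        · right
          apply Subtype.ext
          show v.1 = x (r + kk (i + 1))
          rw [h2, h]
          push_cast
          rw [add_assoc]
      · rintro (h | h)
        · left; rw [h]
        · right
          rw [h]
          show x (r + kk (i + 1)) = _
          rw [h2]
          push_cast
          rw [add_assoc]
    · rw [hYr i h1]
      show (M.vf v.1 t ∧ Touch M.toInc D v.1) ↔ _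
      have h2 := (hsucc i).2 h1
      have h3 : (r : ℤ) + kk i = n := by have := hkk i; omega
      have hXi : (X i).1 = x 0 := by
        show x (r + kk i) = x 0
        rw [h3, cHp_xn hR.cyc]
      have hXi1 : (X (i + 1)).1 = x r := by
        show x (r + kk (i + 1)) = x r
        rw [h2]
        simp
      constructor
      · rintro ⟨hvt, hvT⟩
        obtain ⟨k, hk, hvk⟩ := cHp_vtx hR.cyc hvt
        have hkr := (hR.touch k hk).1 (hvk ▸ hvT)
        rcases Nat.eq_zero_or_pos k with rfl | hk0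
        · left
          apply Subtype.ext
          rw [hXi, hvk]
          simp
        · rcases Nat.lt_or_ge k r with hkr' | hkr'
          · exact absurd (hvk ▸ v.2) (cHp_inner C ht hR hk0 hkr')
          · right
            apply Subtype.ext
            have : k = r := by omega
            rw [hXi1, hvk, this]
      · rintro (h | h)
        · rw [h, hXi]
          refine ⟨⟨y 0, (hR.cyc.curve.ve _ _).2 (Or.inl rfl), cHp_yin hR.cyc _⟩, ?_⟩
          have := (hR.touch 0 (by omega)).2 (by omega)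
          simpa using this
        · rw [h, hXi1]
          exact ⟨⟨y r, (hR.cyc.curve.ve _ _).2 (Or.inl rfl), cHp_yin hR.cyc _⟩,
            (hR.touch r (by omega)).2 le_rfl⟩
  · intro j hj
    show x (r + kk j) = x (r + j)
    have : kk (j : ℤ) = j := by
      apply cHp_dvd_eq (hkk _) hj
      have := hdv (j : ℤ)
      rw [← dvd_neg]
      rwa [neg_sub]
    rw [this]

theorem cD19_run_iff {M : PolyMap V E F} {D : Set F} {t : F} {n r : ℕ} {x : ℤ → V} {y : ℤ → E}
    (hR : cHp_Run M.toInc D t n r x y) :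
    (∀ i, Touch M.toInc D (x i) ↔ ∃ k : ℕ, k ≤ r ∧ (n : ℤ) ∣ i - (0 + k)) ∧
    (∀ i, (∃ d ∈ D, M.ef (y i) d) ↔ ∃ k : ℕ, k < r ∧ (n : ℤ) ∣ i - (0 + k)) := by
  have hn : 0 < n := by have := hR.cyc.three; omega
  have hlt := hR.lt
  constructor
  · intro i
    obtain ⟨k, hk, hd⟩ := cD19_emod hn i
    rw [(hR.cyc.curve.x_eq i k).2 hd, hR.touch k hk]
    constructor
    · intro h
      exact ⟨k, h, by rwa [zero_add]⟩
    · rintro ⟨k', hk', hd'⟩
      rw [zero_add] at hd'
      have : k = k' := by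
        apply cHp_dvd_eq hk (by omega)
        have := dvd_sub hd' hd
        rwa [show i - (k' : ℤ) - (i - k) = k - k' by ring] at this
      omega
  · intro i
    obtain ⟨k, hk, hd⟩ := cD19_emod hn i
    rw [(hR.cyc.curve.y_eq i k).2 hd]
    rw [show (∃ d ∈ D, M.ef (y (k : ℤ)) d) ↔ k < r from hR.de k hk]
    constructor
    · intro h
      exact ⟨k, h, by rwa [zero_add]⟩
    · rintro ⟨k', hk', hd'⟩
      rw [zero_add] at hd'
      have : k = k' := by
        apply cHp_dvd_eq hk (by omega)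
        have := dvd_sub hd' hd
        rwa [show i - (k' : ℤ) - (i - k) = k - k' by ring] at this
      omega

/-! ## The levels -/

/-- Everything which is used about the levels. -/
structure cD19_Ctx (M : PlaneMap V E F) (D : ℕ → Set F) (H : ℕ → Set ℂ)
    (φ : ∀ i, CV M.toInc (D i) → ℂ) (φ₀ ψ : V → ℂ) : Prop where
  cctx : ∀ i, cHp_Ctx M.toPolyMap (D i)
  dne : (D 0).Nonempty
  exh : ∀ f, ∃ i, f ∈ D i
  nest : ∀ i, Nest M.toInc (D i) (D (i + 1))
  base : DiscConcl M.toInc (D 0) φ₀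
  lev : ∀ i, DiscConcl (coarse M.toInc (D i)) (liftD M.toInc (D i) (D (i + 1))) (φ i)
  psi0 : ∀ v, Touch M.toInc (D 0) v → ψ v = φ₀ v
  psi : ∀ i (v : CV M.toInc (D i)), Touch M.toInc (D (i + 1)) v.1 → ψ v.1 = φ i v
  hull0 : convexHull ℝ (φ₀ '' {v | Corner M.toInc (D 0) v}) = H 0
  hullN : ∀ i, poly (coarse M.toInc (D i)) (φ i) none = H i
  hullC : ∀ i, convexHull ℝ (φ i '' {v | Corner (coarse M.toInc (D i))
    (liftD M.toInc (D i) (D (i + 1))) v}) = H (i + 1)
  side : ∀ i f n r x y, f ∉ D i → cHp_Run M.toInc (D i) f n r x y → 1 ≤ r → ∀ k : ℕ, k ≤ r →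
    ψ (x k) = ψ (x 0) + ((((k : ℕ) : ℝ) / (r : ℝ) : ℝ) : ℂ) * (ψ (x r) - ψ (x 0))
  dil : ∀ i, ∀ a ∈ H i, ∀ b ∈ H i, (2 : ℂ) * b - a ∈ H (i + 1)

section ctx

variable {M : PlaneMap V E F} {D : ℕ → Set F} {H : ℕ → Set ℂ}
  {φ : ∀ i, CV M.toInc (D i) → ℂ} {φ₀ ψ : V → ℂ}

theorem cD19_mono (C : cD19_Ctx M D H φ φ₀ ψ) {i j : ℕ} (h : i ≤ j) : D i ⊆ D j :=
  monotone_nat_of_le_succ (f := D) (fun i => (C.nest i).sub) h

theorem cD19_level (C : cD19_Ctx M D H φ φ₀ ψ) (f : F) :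
    f ∈ D 0 ∨ ∃ i, f ∈ D (i + 1) ∧ f ∉ D i := by
  classical
  have h1 := Nat.find_spec (C.exh f)
  have h2 := fun m => Nat.find_min (C.exh f) (m := m)
  rcases hk : Nat.find (C.exh f) with _ | k
  · left; rwa [hk] at h1
  · right
    rw [hk] at h1
    exact ⟨k, h1, h2 k (by omega)⟩

theorem cD19_pair (C : cD19_Ctx M D H φ φ₀ ψ) (f g : F) :
    (f ∈ D 0 ∧ g ∈ D 0) ∨ (∃ i, f ∈ D (i + 1) ∧ f ∉ D i ∧ g ∈ D (i + 1) ∧ g ∉ D i) ∨
    (∃ i, f ∈ D i ∧ g ∈ D (i + 1) ∧ g ∉ D i) ∨ ∃ i, g ∈ D i ∧ f ∈ D (i + 1) ∧ f ∉ D i := by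
  rcases cD19_level C f with hf | ⟨i, hf1, hf2⟩ <;> rcases cD19_level C g with hg | ⟨j, hg1, hg2⟩
  · exact Or.inl ⟨hf, hg⟩
  · exact Or.inr (Or.inr (Or.inl ⟨j, cD19_mono C (Nat.zero_le j) hf, hg1, hg2⟩))
  · exact Or.inr (Or.inr (Or.inr ⟨i, cD19_mono C (Nat.zero_le i) hg, hf1, hf2⟩))
  · rcases lt_trichotomy i j with h | h | h
    · exact Or.inr (Or.inr (Or.inl ⟨j, cD19_mono C h hf1, hg1, hg2⟩))
    · subst h
      exact Or.inr (Or.inl ⟨i, hf1, hf2, hg1, hg2⟩)
    · exact Or.inr (Or.inr (Or.inr ⟨i, cD19_mono C h hg1, hf1, hf2⟩))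

theorem cD19_some_mem {i : ℕ} {f : F} (hf : f ∈ D (i + 1)) (hf' : f ∉ D i) :
    (some ⟨f, hf'⟩ : CF M.toInc (D i)) ∈ liftD M.toInc (D i) (D (i + 1)) := by
  intro g hg
  cases hg
  exact hf

theorem cD19_none_mem {i : ℕ} :
    (none : CF M.toInc (D i)) ∈ liftD M.toInc (D i) (D (i + 1)) := by
  intro g hg
  cases hg

/-- The polygon of a face of the ring. -/
theorem cD19_face (h3 : Stmt_FaceCycle) (hS : Stmt_FaceStrict) (hU : Stmt_FaceSub)
    (C : cD19_Ctx M D H φ φ₀ ψ) {i : ℕ} {f : F} (hf : f ∈ D (i + 1)) (hf' : f ∉ D i) :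
    FaceOK M.toInc ψ f ∧
      poly M.toInc ψ f = poly (coarse M.toInc (D i)) (φ i) (some ⟨f, hf'⟩) := by
  by_cases hde : ∃ e, M.ef e f ∧ cHp_DE M.toInc (D i) e
  · obtain ⟨e, hef, hde⟩ := hde
    obtain ⟨n, r, x, y, hR, hr⟩ := cHp_run_of_de (C.cctx i) hf' hef hde
    obtain ⟨X, Y, hXY, hXj⟩ := cD19_runCycle (C.cctx i) hf' hR hr
    have hlt := hR.lt
    have hst := (C.lev i).strict _ (cD19_some_mem hf hf') _ X Y hXY
    have htch : ∀ k : ℤ, Touch M.toInc (D (i + 1)) (x k) := fun k =>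
      ⟨f, hf, y k, (hR.cyc.curve.ve k _).2 (Or.inl rfl), cHp_yin hR.cyc k⟩
    have hr0 : (r : ℝ) ≠ 0 := by positivity
    have hside := C.side i f n r x y hf' hR hr
    have hz : ∀ j : ℕ, j < n - r + 1 → φ i (X j) = ψ (x (0 + r + j)) := by
      intro j hj
      rw [← C.psi i (X j) (by rw [hXj j hj]; exact htch _), hXj j hj, zero_add]
    have hmon : ∀ j < r, (j : ℝ) / r < ((j + 1 : ℕ) : ℝ) / r := by
      intro j hj
      have hrp : (0 : ℝ) < r := by positivity
      apply div_lt_div_of_pos_right _ hrp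
      push_cast
      linarith
    have hpos : ∀ j : ℕ, j ≤ r → ψ (x (0 + j)) =
        ψ (x 0) + (((j : ℝ) / (r : ℝ) : ℝ) : ℂ) * (ψ (x (0 + r)) - ψ (x 0)) := by
      intro j hj
      rw [zero_add, zero_add]
      exact hside j hj
    obtain ⟨h1, h2⟩ := hU V E F M.toInc ψ f n x y hR.cyc 0 r (n - r + 1)
      (fun j => (j : ℝ) / r) (fun j => φ i (X j)) hr (by omega) hst hz (by simp)
      (div_self hr0) hmon hpos
    refine ⟨h1, ?_⟩
    rw [h2]
    unfold poly
    rw [cD19_vf_range hXY, ← range_comp]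
    rfl
  · have hnd : ∀ e, M.ef e f → ¬ cHp_DE M.toInc (D i) e := fun e he h => hde ⟨e, he, h⟩
    obtain ⟨n, x, y, hc⟩ := h3 V E F M.toPolyMap f
    obtain ⟨X, Y, hXY, hX, -⟩ := cD19_lift hf' hc hnd
    have hst := (C.lev i).strict _ (cD19_some_mem hf hf') _ X Y hXY
    have htch : ∀ k : ℤ, Touch M.toInc (D (i + 1)) (x k) := fun k =>
      ⟨f, hf, y k, (hc.curve.ve k _).2 (Or.inl rfl), cHp_yin hc k⟩
    have heq : (fun k => φ i (X k)) = fun k => ψ (x k) := by
      funext k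
      rw [← C.psi i (X k) (by rw [hX]; exact htch _), hX]
    rw [heq] at hst
    obtain ⟨h1, h2⟩ := hS V E F M.toInc ψ f n x y hc hst
    refine ⟨h1, ?_⟩
    rw [h2]
    unfold poly
    rw [cD19_vf_range hXY, ← range_comp, ← heq]
    rfl

theorem cD19_face0 (C : cD19_Ctx M D H φ φ₀ ψ) {f : F} (hf : f ∈ D 0) :
    FaceOK M.toInc ψ f ∧ poly M.toInc ψ f = poly M.toInc φ₀ f :=
  ⟨cD19_faceOK_congr (C.base.face f hf) fun v hv => C.psi0 v ⟨f, hf, hv⟩,
    cD19_poly_congr fun v hv => C.psi0 v ⟨f, hf, hv⟩⟩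

theorem cD19_Hmono (C : cD19_Ctx M D H φ φ₀ ψ) {i j : ℕ} (h : i ≤ j) : H i ⊆ H j := by
  refine monotone_nat_of_le_succ (f := H) (fun i z hz => ?_) h
  have := C.dil i z hz z hz
  rwa [show (2 : ℂ) * z - z = z by ring] at this

theorem cD19_inside (h3 : Stmt_FaceCycle) (hS : Stmt_FaceStrict) (hU : Stmt_FaceSub)
    (C : cD19_Ctx M D H φ φ₀ ψ) {i : ℕ} {f : F} (hf : f ∈ D i) : poly M.toInc ψ f ⊆ H i := by
  rcases cD19_level C f with hf0 | ⟨j, hj1, hj2⟩
  · rw [(cD19_face0 C hf0).2]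
    refine ((C.base.inside f hf0).trans ?_).trans (cD19_Hmono C (Nat.zero_le i))
    rw [C.hull0]
  · have hji : j + 1 ≤ i := by
      by_contra hlt
      exact hj2 (cD19_mono C (by omega) hf)
    rw [(cD19_face h3 hS hU C hj1 hj2).2]
    refine (((C.lev j).inside _ (cD19_some_mem hj1 hj2)).trans ?_).trans (cD19_Hmono C hji)
    rw [C.hullC]

theorem cD19_cover (h3 : Stmt_FaceCycle) (hS : Stmt_FaceStrict) (hU : Stmt_FaceSub)
    (C : cD19_Ctx M D H φ φ₀ ψ) (i : ℕ) : ∀ z ∈ H i, ∃ f, z ∈ poly M.toInc ψ f := by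
  induction i with
  | zero =>
    intro z hz
    rw [← C.hull0] at hz
    obtain ⟨f, hf, hzf⟩ := C.base.cover z hz
    exact ⟨f, by rwa [(cD19_face0 C hf).2]⟩
  | succ i ih =>
    intro z hz
    rw [← C.hullC i] at hz
    obtain ⟨f, hf, hzf⟩ := (C.lev i).cover z hz
    rcases f with _ | ⟨f, hf'⟩
    · rw [C.hullN] at hzf
      exact ih z hzf
    · have hf1 : f ∈ D (i + 1) := hf _ rfl
      exact ⟨f, by rwa [(cD19_face h3 hS hU C hf1 hf').2]⟩

theorem cD19_disj (h3 : Stmt_FaceCycle) (hS : Stmt_FaceStrict) (hU : Stmt_FaceSub)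
    (C : cD19_Ctx M D H φ φ₀ ψ) {f g : F} (hfg : f ≠ g) :
    Disjoint (interior (poly M.toInc ψ f)) (interior (poly M.toInc ψ g)) := by
  have key : ∀ i f g, f ∈ D i → g ∈ D (i + 1) → g ∉ D i →
      Disjoint (interior (poly M.toInc ψ f)) (interior (poly M.toInc ψ g)) := by
    intro i f g hf hg hg'
    rw [(cD19_face h3 hS hU C hg hg').2]
    refine ((C.lev i).disj none cD19_none_mem _ (cD19_some_mem hg hg') (by simp)).mono_left ?_
    rw [C.hullN]
    exact interior_mono (cD19_inside h3 hS hU C hf)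
  rcases cD19_pair C f g with ⟨hf, hg⟩ | ⟨i, hf, hf', hg, hg'⟩ | ⟨i, hf, hg, hg'⟩ |
    ⟨i, hg, hf, hf'⟩
  · rw [(cD19_face0 C hf).2, (cD19_face0 C hg).2]
    exact C.base.disj f hf g hg hfg
  · rw [(cD19_face h3 hS hU C hf hf').2, (cD19_face h3 hS hU C hg hg').2]
    refine (C.lev i).disj _ (cD19_some_mem hf hf') _ (cD19_some_mem hg hg') ?_
    intro h
    rw [Option.some.injEq, Subtype.mk.injEq] at h
    exact hfg h
  · exact key i f g hf hg hg'
  · exact (key i g f hg hf hf').symm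

theorem cD19_mem_poly {v : V} {f : F} (h : M.vf v f) : ψ v ∈ poly M.toInc ψ f :=
  subset_convexHull ℝ _ ⟨v, h, rfl⟩

theorem cD19_opp (h3 : Stmt_FaceCycle) (hS : Stmt_FaceStrict) (hU : Stmt_FaceSub)
    (C : cD19_Ctx M D H φ φ₀ ψ) {e : E} {f g : F} (hfg : f ≠ g) (hef : M.ef e f)
    (heg : M.ef e g) : Opp M.toInc ψ e f g := by
  have key : ∀ i f g, f ≠ g → M.ef e f → M.ef e g → f ∈ D i → g ∈ D (i + 1) → g ∉ D i →
      Opp M.toInc ψ e f g := by
    intro i f g hfg hef heg hf hg hg'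
    have hDE : cHp_DE M.toInc (D i) e := ⟨f, hf, hef⟩
    obtain ⟨w, c, hw, h1, h2, h3'⟩ := (C.lev i).opp (Sum.inr ⟨g, hg', e, heg, f, hf, hef⟩) none
      cD19_none_mem (some ⟨g, hg'⟩) (cD19_some_mem hg hg') (by simp) trivial rfl
    obtain ⟨n, r, x, y, hR, hr⟩ := cHp_run_of_de (C.cctx i) hg' heg hDE
    have hlt := hR.lt
    have hvx : ∀ k : ℤ, M.vf (x k) g := fun k =>
      ⟨y k, (hR.cyc.curve.ve k _).2 (Or.inl rfl), cHp_yin hR.cyc k⟩
    have hend : ∀ k : ℤ, cHp_CV M.toInc (D i) (x k) → Touch M.toInc (D i) (x k) →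
        dir w (ψ (x k)) = c := by
      intro k hcv hT
      rw [C.psi i ⟨x k, hcv⟩ ⟨g, hg, hvx k⟩]
      exact h1 ⟨x k, hcv⟩ ⟨hvx k, hT⟩
    have hT0 : Touch M.toInc (D i) (x 0) := by
      have := (hR.touch 0 (by omega)).2 (by omega)
      simpa using this
    have e0 := hend 0 (cHp_cv_zero hg' hR) hT0
    have er := hend r (cHp_cv_last hg' hR) ((hR.touch r hlt).2 le_rfl)
    refine ⟨w, c, hw, ?_, ?_, ?_⟩
    · intro v hv
      obtain ⟨k, hk, rfl⟩ := cHp_vtx hR.cyc ⟨e, hv, heg⟩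
      have hkr := (hR.touch k hk).1 (cHp_touch_of hv hDE)
      rw [C.side i g n r x y hg' hR hr k hkr, cD19_dir_comb, e0, er]
      ring
    · intro v hv
      have hmem := cD19_inside h3 hS hU C hf (cD19_mem_poly (ψ := ψ) hv)
      rw [← C.hullN i] at hmem
      refine cD19_half_le w c _ ?_ _ hmem
      rintro z ⟨u, hu, rfl⟩
      exact h2 u hu
    · intro v hv
      have hmem := cD19_mem_poly (M := M) (ψ := ψ) hv
      rw [(cD19_face h3 hS hU C hg hg').2] at hmem
      refine cD19_half_ge w c _ ?_ _ hmem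
      rintro z ⟨u, hu, rfl⟩
      exact h3' u hu
  rcases cD19_pair C f g with ⟨hf, hg⟩ | ⟨i, hf, hf', hg, hg'⟩ | ⟨i, hf, hg, hg'⟩ |
    ⟨i, hg, hf, hf'⟩
  · obtain ⟨w, c, hw, h1, h2, h3'⟩ := C.base.opp e f hf g hg hfg hef heg
    refine ⟨w, c, hw, ?_, ?_, ?_⟩
    · intro v hv
      rw [C.psi0 v ⟨f, hf, e, hv, hef⟩]
      exact h1 v hv
    · intro v hv
      rw [C.psi0 v ⟨f, hf, hv⟩]
      exact h2 v hv
    · intro v hv
      rw [C.psi0 v ⟨g, hg, hv⟩]
      exact h3' v hv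
  · have hE : ∀ h, M.ef e h → h ∉ D i := by
      intro h hh
      rcases cHp_ef_two hef heg hfg hh with rfl | rfl
      · exact hf'
      · exact hg'
    have hnd : ¬ cHp_DE M.toInc (D i) e := fun ⟨d, hd, hed⟩ => hE d hed hd
    obtain ⟨w, c, hw, h1, h2, h3'⟩ := (C.lev i).opp (Sum.inl ⟨e, hE⟩) (some ⟨f, hf'⟩)
      (cD19_some_mem hf hf') (some ⟨g, hg'⟩) (cD19_some_mem hg hg') (by
        intro h
        rw [Option.some.injEq, Subtype.mk.injEq] at h
        exact hfg h) hef heg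
    refine ⟨w, c, hw, ?_, ?_, ?_⟩
    · intro v hv
      have hcv : cHp_CV M.toInc (D i) v := cHp_cv_of hv hef hf' hnd
      rw [C.psi i ⟨v, hcv⟩ ⟨f, hf, e, hv, hef⟩]
      exact h1 ⟨v, hcv⟩ hv
    · intro v hv
      have hmem := cD19_mem_poly (M := M) (ψ := ψ) hv
      rw [(cD19_face h3 hS hU C hf hf').2] at hmem
      refine cD19_half_le w c _ ?_ _ hmem
      rintro z ⟨u, hu, rfl⟩
      exact h2 u hu
    · intro v hv
      have hmem := cD19_mem_poly (M := M) (ψ := ψ) hv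
      rw [(cD19_face h3 hS hU C hg hg').2] at hmem
      refine cD19_half_ge w c _ ?_ _ hmem
      rintro z ⟨u, hu, rfl⟩
      exact h3' u hu
  · exact key i f g hfg hef heg hf hg hg'
  · exact cD19_opp_symm (key i g f hfg.symm heg hef hg hf hf')

theorem cD19_faceOK (h3 : Stmt_FaceCycle) (hS : Stmt_FaceStrict) (hU : Stmt_FaceSub)
    (C : cD19_Ctx M D H φ φ₀ ψ) (f : F) : FaceOK M.toInc ψ f := by
  rcases cD19_level C f with hf0 | ⟨j, hj1, hj2⟩
  · exact (cD19_face0 C hf0).1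
  · exact (cD19_face h3 hS hU C hj1 hj2).1

theorem cD19_grow (h3 : Stmt_FaceCycle) (hS : Stmt_FaceStrict) (hU : Stmt_FaceSub)
    (C : cD19_Ctx M D H φ φ₀ ψ) (R : ℝ) : ∃ i, closedBall (0 : ℂ) R ⊆ interior (H i) := by
  obtain ⟨f, hf⟩ := C.dne
  obtain ⟨a, ha⟩ := (cD19_faceOK h3 hS hU C f).int
  have ha' : a ∈ interior (H 0) := interior_mono (cD19_inside h3 hS hU C hf) ha
  obtain ⟨ρ, hρ, hball⟩ := Metric.mem_nhds_iff.1 (mem_interior_iff_mem_nhds.1 ha')
  have hi : ∀ i, ball a (2 ^ i * ρ) ⊆ H i := by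
    intro i
    induction i with
    | zero => simpa using hball
    | succ i ih =>
      intro z hz
      have haH : a ∈ H i := ih (mem_ball_self (by positivity))
      have hb : a + (z - a) / 2 ∈ H i := by
        apply ih
        rw [mem_ball, dist_eq_norm] at hz ⊢
        rw [show a + (z - a) / 2 - a = (z - a) / 2 by ring, norm_div]
        simp only [Complex.norm_ofNat]
        rw [pow_succ] at hz
        linarith
      have := C.dil i a haH _ hb
      rwa [show (2 : ℂ) * (a + (z - a) / 2) - a = z by ring] at this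
  obtain ⟨i, hi'⟩ := pow_unbounded_of_one_lt ((R + ‖a‖) / ρ) (by norm_num : (1 : ℝ) < 2)
  refine ⟨i, ?_⟩
  have hsub : closedBall (0 : ℂ) R ⊆ ball a (2 ^ i * ρ) := by
    intro z hz
    rw [mem_closedBall, dist_zero_right] at hz
    rw [mem_ball, dist_eq_norm]
    have h1 : ‖z - a‖ ≤ ‖z‖ + ‖a‖ := norm_sub_le z a
    rw [div_lt_iff₀ hρ] at hi'
    linarith
  exact hsub.trans (interior_maximal (hi i) isOpen_ball)

theorem cD19_pre (h3 : Stmt_FaceCycle) (hS : Stmt_FaceStrict) (hU : Stmt_FaceSub)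
    (C : cD19_Ctx M D H φ φ₀ ψ) : PreDrawing M.toInc ψ := by
  refine ⟨cD19_faceOK h3 hS hU C, fun e f g hfg hef heg => cD19_opp h3 hS hU C hfg hef heg, ?_,
    ?_, fun f g hfg => cD19_disj h3 hS hU C hfg⟩
  · intro z
    obtain ⟨i, hi⟩ := cD19_grow h3 hS hU C ‖z‖
    exact cD19_cover h3 hS hU C i z (interior_subset (hi (by simp)))
  · intro r
    obtain ⟨i, hi⟩ := cD19_grow h3 hS hU C r
    refine (C.cctx i).fin.subset ?_
    intro f hf
    by_contra hfD
    obtain ⟨j, hj1, hj2⟩ : ∃ j, f ∈ D (j + 1) ∧ f ∉ D j := by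
      rcases cD19_level C f with h | h
      · exact absurd (cD19_mono C (Nat.zero_le i) h) hfD
      · exact h
    have hij : i ≤ j := by
      by_contra hlt
      exact hfD (cD19_mono C (by omega) hj1)
    have hne : (poly M.toInc ψ f ∩ interior (H j)).Nonempty := by
      obtain ⟨z, hz1, hz2⟩ := hf
      exact ⟨z, hz1, interior_mono (cD19_Hmono C hij) (hi hz2)⟩
    have hOK := cD19_faceOK h3 hS hU C f
    obtain ⟨z, hz1, hz2⟩ := cD19_meet (convex_convexHull ℝ _) hOK.int isOpen_interior hne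
    have hd := (C.lev j).disj none cD19_none_mem _ (cD19_some_mem hj1 hj2) (by simp)
    rw [C.hullN, ← (cD19_face h3 hS hU C hj1 hj2).2] at hd
    exact Set.disjoint_left.1 hd hz2 hz1

end ctx

/-- A face outside `D'` has no edge along `D`. -/
theorem cD19_far {M : PlaneMap V E F} {D D' : Set F} (hN : Nest M.toInc D D') {f : F}
    (hf : f ∉ D') : ∀ e, M.ef e f → ¬ cHp_DE M.toInc D e := by
  rintro e hef ⟨d, hd, hed⟩
  obtain ⟨u, v, -, huv⟩ := M.edge_verts e
  have hu : M.ve u e := (huv u).2 (Or.inl rfl)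
  exact hf (hN.touch f u ⟨e, hu, hef⟩ ⟨d, hd, e, hu, hed⟩)

/-- The positions on the run of a face. -/
theorem cD19_side0 (hSide : Stmt_SidePos) {M : PlaneMap V E F} {D : Set F}
    (hT : TightDisc M.toInc D) {c : V → V → ℝ} {P φ : V → ℂ} (hφ : DiscExt M.toInc D c P φ)
    {f : F} {n r : ℕ} {x : ℤ → V} {y : ℤ → E} (hf : f ∉ D)
    (hc : IsFaceCycle M.toInc f n x y) (hr : 1 ≤ r) (hrn : r < n)
    (h1 : ∀ i, Touch M.toInc D (x i) ↔ ∃ k : ℕ, k ≤ r ∧ (n : ℤ) ∣ i - (0 + k))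
    (h2 : ∀ i, (∃ d ∈ D, M.ef (y i) d) ↔ ∃ k : ℕ, k < r ∧ (n : ℤ) ∣ i - (0 + k)) :
    ∀ k : ℕ, k ≤ r →
      φ (x k) = φ (x 0) + ((((k : ℕ) : ℝ) / (r : ℝ) : ℝ) : ℂ) * (φ (x r) - φ (x 0)) := by
  intro k hk
  have := ((hSide V E F M D hT c P φ hφ).2 f n x y hf hc 0 r hr hrn h1 h2).2.2.2 k hk
  simpa only [zero_add] using this

theorem cD19_ctx (hDB : Stmt_DiscBlock) (hRe : Stmt_Recoarse) (hSide : Stmt_SidePos)
    (hCo : Stmt_Coarse) (h3 : Stmt_FaceCycle) (h7 : Stmt_FrVertex) (h8 : Stmt_Bond)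
    (h9 : Stmt_Tight) (M : PlaneMap V E F) (D : ℕ → Set F) (ε : ℕ → ℝ)
    (P : ℕ → V → ℂ) (φ : ∀ i, CV M.toInc (D i) → ℂ) (φ₀ : V → ℂ) (hε : ∀ i, 0 < ε i)
    (hT : ∀ i, TightDisc M.toInc (D i)) (hex : ∀ f, ∃ i, f ∈ D i)
    (hN : ∀ i, Nest M.toInc (D i) (D (i + 1))) (hP : ∀ i, ConvPos M.toInc (D i) (P i))
    (h0 : DiscExt M.toInc (D 0) (fun _ _ => 1) (P 0) φ₀)
    (hR : ∀ i, RingExt M.toInc (D i) (D (i + 1)) (ε i) (P (i + 1)) (φ i))
    (hv : ∀ i (v : CV M.toInc (D i)), Touch M.toInc (D i) v.1 → φ i v = P i v.1)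
    (hdil : ∀ i, ∀ a ∈ convexHull ℝ (P i '' {v | Corner M.toInc (D i) v}),
      ∀ b ∈ convexHull ℝ (P i '' {v | Corner M.toInc (D i) v}),
      (2 : ℂ) * b - a ∈ convexHull ℝ (P (i + 1) '' {v | Corner M.toInc (D (i + 1)) v})) :
    ∃ ψ : V → ℂ, cD19_Ctx M D (fun i => convexHull ℝ (P i '' {v | Corner M.toInc (D i) v}))
      φ φ₀ ψ := by
  classical
  have hmono : ∀ {i j : ℕ}, i ≤ j → D i ⊆ D j := fun h =>
    monotone_nat_of_le_succ (f := D) (fun i => (hN i).sub) h
  have hRe' := fun i => hRe V E F M (D i) (D (i + 1)) (hT i) (hT (i + 1)) (hN i)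
  -- corners are known
  have hc0 : ∀ v, Corner M.toInc (D 0) v → φ₀ v = P 0 v := fun v hc =>
    h0.1 v fun h => h.2 hc
  have hc1 : ∀ i (v : CV M.toInc (D i)), Corner M.toInc (D (i + 1)) v.1 →
      φ i v = P (i + 1) v.1 := by
    intro i v hc
    exact (hR i).1 v fun h => h.2 (((hRe' i).2.1 v).2 hc)
  -- a vertex touching `D i` is not a vertex of the coarse map of `D j`, `i < j`
  have hlt : ∀ {i j : ℕ} {v : V}, Touch M.toInc (D i) v → cHp_CV M.toInc (D j) v → j ≤ i := by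
    intro i j v hti hcv
    by_contra hij
    obtain ⟨f, g, -, hf, -, hvf, -⟩ := hcv
    exact hf (hmono (by omega : i + 1 ≤ j) ((hN i).touch f v hvf hti))
  have hex' : ∀ v, ∃ z : ℂ, (Touch M.toInc (D 0) v → z = φ₀ v) ∧
      ∀ i (h : cHp_CV M.toInc (D i) v), Touch M.toInc (D (i + 1)) v → z = φ i ⟨v, h⟩ := by
    intro v
    by_cases hv0 : Touch M.toInc (D 0) v
    · refine ⟨φ₀ v, fun _ => rfl, ?_⟩
      intro i h hti
      have hi : i = 0 := by have := hlt hv0 h; omega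
      subst hi
      rw [hv 0 ⟨v, h⟩ hv0]
      exact hc0 v ⟨hv0, h⟩
    · have hsome : ∃ i, Touch M.toInc (D i) v := by
        have hcard := M.vert_card v
        have hne : {e | M.ve v e}.Nonempty := by
          rw [← Set.ncard_pos (M.vert_fin v)]
          omega
        obtain ⟨e, he⟩ := hne
        obtain ⟨f, g, -, hfg⟩ := M.edge_faces e
        obtain ⟨i, hi⟩ := hex f
        exact ⟨i, f, hi, e, he, (hfg f).2 (Or.inl rfl)⟩
      obtain ⟨k, hk1, hk2⟩ : ∃ k, Touch M.toInc (D (k + 1)) v ∧ ¬ Touch M.toInc (D k) v := by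
        have h1 := Nat.find_spec hsome
        have h2 := fun m => Nat.find_min hsome (m := m)
        rcases hk : Nat.find hsome with _ | k
        · rw [hk] at h1; exact absurd h1 hv0
        · rw [hk] at h1
          exact ⟨k, h1, h2 k (by omega)⟩
      have hcv : cHp_CV M.toInc (D k) v := by
        have hcard := M.vert_card v
        have hne : {e | M.ve v e}.Nonempty := by
          rw [← Set.ncard_pos (M.vert_fin v)]
          omega
        obtain ⟨e, he⟩ := hne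
        obtain ⟨f, g, hfg', hfg⟩ := M.edge_faces e
        have hf : M.vf v f := ⟨e, he, (hfg f).2 (Or.inl rfl)⟩
        have hg : M.vf v g := ⟨e, he, (hfg g).2 (Or.inr rfl)⟩
        exact ⟨f, g, hfg', fun h => hk2 ⟨f, h, hf⟩, fun h => hk2 ⟨g, h, hg⟩, hf, hg⟩
      refine ⟨φ k ⟨v, hcv⟩, fun h => absurd h hv0, ?_⟩
      intro i h hti
      have h1 : i ≤ k + 1 := hlt hk1 h
      have h2 : k ≤ i + 1 := hlt hti hcv
      have h2' : k ≤ i := by
        by_contra hcon
        apply hk2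
        obtain ⟨d, hd, hvd⟩ := hti
        exact ⟨d, hmono (by omega) hd, hvd⟩
      have hik : i = k ∨ i = k + 1 := by omega
      rcases hik with rfl | rfl
      · rfl
      · rw [hv (k + 1) ⟨v, h⟩ hk1]
        exact hc1 k ⟨v, hcv⟩ ⟨hk1, h⟩
  choose ψ hψ0 hψ using hex'
  have hψ' : ∀ i (v : CV M.toInc (D i)), Touch M.toInc (D (i + 1)) v.1 → ψ v.1 = φ i v :=
    fun i v h => hψ v.1 i v.2 h
  have hcctx := fun i => cHp_ctx h3 h7 h8 h9 M (D i) (hT i)
  refine ⟨ψ, hcctx, (hT 0).ne, hex, hN, ?_, ?_, hψ0, hψ', ?_, ?_, ?_, ?_, hdil⟩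
  · exact hDB V E F M (D 0) (hT 0) (fun _ _ => 1) (fun _ _ _ => one_pos) (P 0) φ₀ (hP 0) h0
  · intro i
    obtain ⟨N, hNe⟩ := hCo V E F M (D i) (hT i)
    have h1 := hDB _ _ _ N (liftD M.toInc (D i) (D (i + 1)))
    rw [hNe] at h1
    refine h1 (hN i).tight (epsWt (coarse M.toInc (D i)) none (ε i)) ?_
      (fun v => P (i + 1) v.1) (φ i) ((hRe' i).2.2.2.2 _ (hP (i + 1))) (hR i)
    intro u v _
    unfold epsWt
    split_ifs
    · exact one_pos
    · exact hε i
  · congr 1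
    apply Set.image_congr
    intro v hc
    exact hc0 v hc
  · intro i
    show convexHull ℝ _ = convexHull ℝ _
    congr 1
    ext z
    constructor
    · rintro ⟨v, hvn, rfl⟩
      have hc : Corner M.toInc (D i) v.1 := ((hRe' i).2.2.2.1 v.1).2 ⟨v, rfl, hvn⟩
      exact ⟨v.1, hc, (hv i v hc.1).symm⟩
    · rintro ⟨v, hc, rfl⟩
      obtain ⟨v', rfl, hvn⟩ := ((hRe' i).2.2.2.1 v).1 hc
      exact ⟨v', hvn, hv i v' hc.1⟩
  · intro i
    show convexHull ℝ _ = convexHull ℝ _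
    congr 1
    ext z
    constructor
    · rintro ⟨v, hvc, rfl⟩
      have hc : Corner M.toInc (D (i + 1)) v.1 := ((hRe' i).2.1 v).1 hvc
      exact ⟨v.1, hc, (hc1 i v hc).symm⟩
    · rintro ⟨v, hc, rfl⟩
      obtain ⟨v', rfl⟩ := (hRe' i).2.2.1 v hc
      exact ⟨v', ((hRe' i).2.1 v').2 hc, hc1 i v' hc⟩
  · intro i f n r x y hf hRun hr
    obtain ⟨hi1, hi2⟩ := cD19_run_iff hRun
    have htc : ∀ k : ℕ, k ≤ r → Touch M.toInc (D i) (x k) := fun k hk =>
      (hRun.touch k (lt_of_le_of_lt hk hRun.lt)).2 hk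
    have ht0 : Touch M.toInc (D i) (x 0) := by
      have := htc 0 (Nat.zero_le r)
      simpa using this
    rcases i with _ | j
    · intro k hk
      rw [hψ0 _ (htc k hk), hψ0 _ ht0, hψ0 _ (htc r le_rfl)]
      exact cD19_side0 hSide (hT 0) h0 hf hRun.cyc hr hRun.lt hi1 hi2 k hk
    · have hfar := cD19_far (hN j) hf
      have hfj : f ∉ D j := fun h => hf ((hN j).sub h)
      obtain ⟨X, Y, hXY, hX, hY⟩ := cD19_lift (M := M.toPolyMap) hfj hRun.cyc hfar
      obtain ⟨N, hNe⟩ := hCo V E F M (D j) (hT j)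
      have hnm : (some ⟨f, hfj⟩ : CF M.toInc (D j)) ∉ liftD M.toInc (D j) (D (j + 1)) :=
        fun h => hf (h _ rfl)
      have key := cD19_side0 (D := liftD M.toInc (D j) (D (j + 1))) (M := N) hSide
        (c := epsWt (coarse M.toInc (D j)) none (ε j)) (P := fun v => P (j + 1) v.1) (φ := φ j)
        (f := some ⟨f, hfj⟩) (n := n) (r := r) (x := X) (y := Y)
      rw [hNe] at key
      have key' := key (hN j).tight (hR j) hnm hXY hr hRun.lt ?_ ?_
      · intro k hk
        have e1 : ∀ k : ℕ, k ≤ r → ψ (x k) = φ j (X k) := by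
          intro k hk
          rw [← hψ' j (X k) (by rw [hX]; exact htc k hk), hX]
        have e0 : ψ (x 0) = φ j (X 0) := by
          rw [← hψ' j (X 0) (by rw [hX]; exact ht0), hX]
        rw [e1 k hk, e1 r le_rfl, e0]
        exact key' k hk
      · intro i
        rw [(hRe' j).1 (X i), hX]
        exact hi1 i
      · intro i
        rw [← hi2 i]
        obtain ⟨hh, hYi⟩ := hY i
        constructor
        · rintro ⟨d, hd, hed⟩
          rw [hYi] at hed
          rcases d with _ | d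
          · exact hed.elim
          · exact ⟨d.1, hd _ rfl, hed⟩
        · rintro ⟨d, hd, hed⟩
          refine ⟨some ⟨d, hh d hed⟩, ?_, ?_⟩
          · intro g hg
            cases hg
            exact hd
          · rw [hYi]
            exact hed

end cD19

/-- D19: assembly of the drawing from the levels. -/
theorem cD19 (hDB : Stmt_DiscBlock) (hRe : Stmt_Recoarse) (hSide : Stmt_SidePos)
    (hS : Stmt_FaceStrict) (hU : Stmt_FaceSub) (hI : Stmt_PreInter) (hCo : Stmt_Coarse)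
    (h3 : Stmt_FaceCycle) (h7 : Stmt_FrVertex) (h8 : Stmt_Bond) (h9 : Stmt_Tight) :
    Stmt_Assemble := by
  intro V E F M D ε P φ φ₀ hε hT hex hN hP h0 hR hv hdil
  obtain ⟨ψ, C⟩ := cD19_ctx hDB hRe hSide hCo h3 h7 h8 h9 M D ε P φ φ₀ hε hT hex hN hP h0 hR hv
    hdil
  exact ⟨ψ, hI V E F M.toPolyMap ψ (cD19_pre h3 hS hU C), C.psi0, C.psi⟩

end Pool.Agent.CT
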