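import Pool.Agent.CT.DDefs

set_option autoImplicit false

/-! # D14: automorphisms of the disc problem and of the coarse map -/

namespace Pool.Agent.CT

open Set Metric

variable {V E F : Type}

section basic

variable {M : Inc V E F} {a : V ≃ V} {b : E ≃ E} {d : F ≃ F}

theorem cD14_vf (h : IsAut M a b d) (v : V) (f : F) : M.vf (a v) (d f) ↔ M.vf v f := by
  constructor
  · rintro ⟨e, h1, h2⟩
    obtain ⟨e', rfl⟩ := b.surjective e
    exact ⟨e', (h.ve _ _).1 h1, (h.ef _ _).1 h2⟩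
  · rintro ⟨e, h1, h2⟩
    exact ⟨b e, (h.ve _ _).2 h1, (h.ef _ _).2 h2⟩

theorem cD14_touch (h : IsAut M a b d) {D : Set F} (hD : ∀ f, d f ∈ D ↔ f ∈ D) (v : V) :
    Touch M D (a v) ↔ Touch M D v := by
  constructor
  · rintro ⟨f, hf, h1⟩
    obtain ⟨f', rfl⟩ := d.surjective f
    exact ⟨f', (hD _).1 hf, (cD14_vf h _ _).1 h1⟩
  · rintro ⟨f, hf, h1⟩
    exact ⟨d f, (hD _).2 hf, (cD14_vf h _ _).2 h1⟩

theorem cD14_compl {D : Set F} (hD : ∀ f, d f ∈ D ↔ f ∈ D) (f : F) : d f ∈ Dᶜ ↔ f ∈ Dᶜ := by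
  rw [mem_compl_iff, mem_compl_iff, hD]

theorem cD14_corner (h : IsAut M a b d) {D : Set F} (hD : ∀ f, d f ∈ D ↔ f ∈ D) (v : V) :
    Corner M D (a v) ↔ Corner M D v := by
  unfold Corner
  rw [cD14_touch h hD]
  refine and_congr Iff.rfl ⟨?_, ?_⟩
  · rintro ⟨f, g, hfg, hf, hg, h1, h2⟩
    obtain ⟨f', rfl⟩ := d.surjective f
    obtain ⟨g', rfl⟩ := d.surjective g
    exact ⟨f', g', fun hh => hfg (by rw [hh]), fun hh => hf ((hD _).2 hh),
      fun hh => hg ((hD _).2 hh), (cD14_vf h _ _).1 h1, (cD14_vf h _ _).1 h2⟩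
  · rintro ⟨f, g, hfg, hf, hg, h1, h2⟩
    exact ⟨d f, d g, fun hh => hfg (d.injective hh), fun hh => hf ((hD _).1 hh),
      fun hh => hg ((hD _).1 hh), (cD14_vf h _ _).2 h1, (cD14_vf h _ _).2 h2⟩

theorem cD14_unk (h : IsAut M a b d) {D : Set F} (hD : ∀ f, d f ∈ D ↔ f ∈ D) (v : V) :
    a v ∈ Unk M D ↔ v ∈ Unk M D := by
  show (Touch M D (a v) ∧ ¬ Corner M D (a v)) ↔ (Touch M D v ∧ ¬ Corner M D v)
  rw [cD14_touch h hD, cD14_corner h hD]

theorem cD14_int (h : IsAut M a b d) {D : Set F} (hD : ∀ f, d f ∈ D ↔ f ∈ D) (v : V) :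
    IntV M D (a v) ↔ IntV M D v := by
  unfold IntV
  rw [cD14_touch h hD, cD14_touch h (cD14_compl hD)]

theorem cD14_adj (h : IsAut M a b d) (u v : V) : M.vadj.Adj (a u) (a v) ↔ M.vadj.Adj u v := by
  show (a u ≠ a v ∧ ∃ e, M.ve (a u) e ∧ M.ve (a v) e) ↔ (u ≠ v ∧ ∃ e, M.ve u e ∧ M.ve v e)
  rw [Ne, a.injective.eq_iff]
  refine and_congr Iff.rfl ⟨?_, ?_⟩
  · rintro ⟨e, h1, h2⟩
    obtain ⟨e', rfl⟩ := b.surjective e
    exact ⟨e', (h.ve _ _).1 h1, (h.ve _ _).1 h2⟩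
  · rintro ⟨e, h1, h2⟩
    exact ⟨b e, (h.ve _ _).2 h1, (h.ve _ _).2 h2⟩

theorem cD14_fr (h : IsAut M a b d) {D : Set F} (hD : ∀ f, d f ∈ D ↔ f ∈ D) (e : E) :
    b e ∈ fr M D ↔ e ∈ fr M D := by
  constructor
  · rintro ⟨⟨f, hf, h1⟩, g, hg, h2⟩
    obtain ⟨f', rfl⟩ := d.surjective f
    obtain ⟨g', rfl⟩ := d.surjective g
    exact ⟨⟨f', (hD _).1 hf, (h.ef _ _).1 h1⟩, g', fun hh => hg ((hD _).2 hh), (h.ef _ _).1 h2⟩
  · rintro ⟨⟨f, hf, h1⟩, g, hg, h2⟩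
    exact ⟨⟨d f, (hD _).2 hf, (h.ef _ _).2 h1⟩, d g, fun hh => hg ((hD _).1 hh),
      (h.ef _ _).2 h2⟩

theorem cD14_fradj (h : IsAut M a b d) {D : Set F} (hD : ∀ f, d f ∈ D ↔ f ∈ D) (u v : V) :
    FrAdj M D (a u) (a v) ↔ FrAdj M D u v := by
  unfold FrAdj
  rw [Ne, a.injective.eq_iff]
  refine and_congr Iff.rfl ⟨?_, ?_⟩
  · rintro ⟨e, h0, h1, h2⟩
    obtain ⟨e', rfl⟩ := b.surjective e
    exact ⟨e', (cD14_fr h hD _).1 h0, (h.ve _ _).1 h1, (h.ve _ _).1 h2⟩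
  · rintro ⟨e, h0, h1, h2⟩
    exact ⟨b e, (cD14_fr h hD _).2 h0, (h.ve _ _).2 h1, (h.ve _ _).2 h2⟩

theorem cD14_wt (h : IsAut M a b d) {D : Set F} (hD : ∀ f, d f ∈ D ↔ f ∈ D)
    {c : V → V → ℝ} (hc : ∀ u v, c (a u) (a v) = c u v) (u v : V) :
    discWt M D c (a u) (a v) = discWt M D c u v := by
  unfold discWt
  rw [hc]
  have e1 := cD14_int h hD u
  have e2 := cD14_adj h u v
  have e3 := cD14_fradj h hD u v
  by_cases h1 : IntV M D u
  · rw [if_pos h1, if_pos (e1.2 h1)]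
    by_cases h2 : M.vadj.Adj u v
    · rw [if_pos h2, if_pos (e2.2 h2)]
    · rw [if_neg h2, if_neg (fun hh => h2 (e2.1 hh))]
  · rw [if_neg h1, if_neg (fun hh => h1 (e1.1 hh))]
    by_cases h2 : FrAdj M D u v
    · rw [if_pos h2, if_pos (e3.2 h2)]
    · rw [if_neg h2, if_neg (fun hh => h2 (e3.1 hh))]

theorem cD14_ext (h : IsAut M a b d) {D : Set F} (hD : ∀ f, d f ∈ D ↔ f ∈ D)
    {c : V → V → ℝ} (hc : ∀ u v, c (a u) (a v) = c u v) {P φ : V → ℂ}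
    (hφ : DiscExt M D c P φ) : DiscExt M D c (fun v => P (a v)) (fun v => φ (a v)) := by
  refine ⟨fun v hv => hφ.1 (a v) (fun hh => hv ((cD14_unk h hD v).1 hh)), fun v hv => ?_⟩
  have h1 := hφ.2 (a v) ((cD14_unk h hD v).2 hv)
  unfold Harm at h1 ⊢
  rw [← h1, ← finsum_comp_equiv (f := fun u => discWt M D c (a v) u • (φ u - φ (a v))) a]
  exact finsum_congr fun u => by rw [cD14_wt h hD hc v u]

end basic

section coarseaut

variable {M : Inc V E F} {a : V ≃ V} {b : E ≃ E} {d : F ≃ F}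

theorem cD14_symm (h : IsAut M a b d) : IsAut M a.symm b.symm d.symm := by
  refine ⟨fun v e => ?_, fun e f => ?_⟩
  · have := h.ve (a.symm v) (b.symm e)
    rw [a.apply_symm_apply, b.apply_symm_apply] at this
    exact this.symm
  · have := h.ef (b.symm e) (d.symm f)
    rw [b.apply_symm_apply, d.apply_symm_apply] at this
    exact this.symm

theorem cD14_invsymm {D : Set F} (hD : ∀ f, d f ∈ D ↔ f ∈ D) (f : F) : d.symm f ∈ D ↔ f ∈ D := by
  have := hD (d.symm f)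
  rw [d.apply_symm_apply] at this
  exact this.symm

/-- Induced maps. -/
def cD14_V (h : IsAut M a b d) {D : Set F} (hD : ∀ f, d f ∈ D ↔ f ∈ D) (v : CV M D) : CV M D :=
  ⟨a v.1, by
    obtain ⟨f, g, hfg, hf, hg, h1, h2⟩ := v.2
    exact ⟨d f, d g, fun hh => hfg (d.injective hh), fun hh => hf ((hD _).1 hh),
      fun hh => hg ((hD _).1 hh), (cD14_vf h _ _).2 h1, (cD14_vf h _ _).2 h2⟩⟩

def cD14_E (h : IsAut M a b d) {D : Set F} (hD : ∀ f, d f ∈ D ↔ f ∈ D) : CE M D → CE M D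
  | Sum.inl e => Sum.inl ⟨b e.1, by
      intro f hf
      obtain ⟨f', rfl⟩ := d.surjective f
      exact fun hh => e.2 f' ((h.ef _ _).1 hf) ((hD _).1 hh)⟩
  | Sum.inr f => Sum.inr ⟨d f.1, fun hh => f.2.1 ((hD _).1 hh), by
      obtain ⟨e, h1, g, hg, h2⟩ := f.2.2
      exact ⟨b e, (h.ef _ _).2 h1, d g, (hD _).2 hg, (h.ef _ _).2 h2⟩⟩

def cD14_F {D : Set F} (hD : ∀ f, d f ∈ D ↔ f ∈ D) : CF M D → CF M D
  | none => none
  | some f => some ⟨d f.1, fun hh => f.2 ((hD _).1 hh)⟩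

theorem cD14_Vinv (h : IsAut M a b d) {D : Set F} (hD : ∀ f, d f ∈ D ↔ f ∈ D) (v : CV M D) :
    cD14_V (cD14_symm h) (cD14_invsymm hD) (cD14_V h hD v) = v :=
  Subtype.ext (a.symm_apply_apply v.1)

theorem cD14_Vinv' (h : IsAut M a b d) {D : Set F} (hD : ∀ f, d f ∈ D ↔ f ∈ D) (v : CV M D) :
    cD14_V h hD (cD14_V (cD14_symm h) (cD14_invsymm hD) v) = v :=
  Subtype.ext (a.apply_symm_apply v.1)

theorem cD14_Einv (h : IsAut M a b d) {D : Set F} (hD : ∀ f, d f ∈ D ↔ f ∈ D) (e : CE M D) :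
    cD14_E (cD14_symm h) (cD14_invsymm hD) (cD14_E h hD e) = e := by
  rcases e with e | f
  · exact congrArg Sum.inl (Subtype.ext (b.symm_apply_apply e.1))
  · exact congrArg Sum.inr (Subtype.ext (d.symm_apply_apply f.1))

theorem cD14_Einv' (h : IsAut M a b d) {D : Set F} (hD : ∀ f, d f ∈ D ↔ f ∈ D) (e : CE M D) :
    cD14_E h hD (cD14_E (cD14_symm h) (cD14_invsymm hD) e) = e := by
  rcases e with e | f
  · exact congrArg Sum.inl (Subtype.ext (b.apply_symm_apply e.1))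
  · exact congrArg Sum.inr (Subtype.ext (d.apply_symm_apply f.1))

theorem cD14_Finv {D : Set F} (hD : ∀ f, d f ∈ D ↔ f ∈ D) (f : CF M D) :
    cD14_F (M := M) (cD14_invsymm hD) (cD14_F (M := M) hD f) = f := by
  rcases f with _ | f
  · rfl
  · exact congrArg some (Subtype.ext (d.symm_apply_apply f.1))

theorem cD14_Finv' {D : Set F} (hD : ∀ f, d f ∈ D ↔ f ∈ D) (f : CF M D) :
    cD14_F (M := M) hD (cD14_F (M := M) (cD14_invsymm hD) f) = f := by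
  rcases f with _ | f
  · rfl
  · exact congrArg some (Subtype.ext (d.apply_symm_apply f.1))

theorem cD14_coarse (h : IsAut M a b d) {D : Set F} (hD : ∀ f, d f ∈ D ↔ f ∈ D) :
    IsAut (coarse M D)
      ⟨cD14_V h hD, cD14_V (cD14_symm h) (cD14_invsymm hD), cD14_Vinv h hD, cD14_Vinv' h hD⟩
      ⟨cD14_E h hD, cD14_E (cD14_symm h) (cD14_invsymm hD), cD14_Einv h hD, cD14_Einv' h hD⟩
      ⟨cD14_F hD, cD14_F (cD14_invsymm hD), cD14_Finv hD, cD14_Finv' hD⟩ := by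
  refine ⟨fun v e => ?_, fun e f => ?_⟩
  · rcases e with e | f
    · exact h.ve _ _
    · show (M.vf (a v.1) (d f.1) ∧ Touch M D (a v.1)) ↔ (M.vf v.1 f.1 ∧ Touch M D v.1)
      rw [cD14_vf h, cD14_touch h hD]
  · rcases e with e | g <;> rcases f with _ | f
    · exact Iff.rfl
    · exact h.ef _ _
    · exact Iff.rfl
    · show d g.1 = d f.1 ↔ g.1 = f.1
      exact d.injective.eq_iff

end coarseaut

theorem cD14_eps {V' E' F' : Type} {N : Inc V' E' F'} {a : V' ≃ V'} {b : E' ≃ E'} {d : F' ≃ F'}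
    (h : IsAut N a b d) {f₀ : F'} (h0 : d f₀ = f₀) (ε : ℝ) (u v : V') :
    epsWt N f₀ ε (a u) (a v) = epsWt N f₀ ε u v := by
  have key : (∃ e, N.ef e f₀ ∧ N.ve (a u) e ∧ N.ve (a v) e) ↔
      ∃ e, N.ef e f₀ ∧ N.ve u e ∧ N.ve v e := by
    constructor
    · rintro ⟨e, h1, h2, h3⟩
      obtain ⟨e', rfl⟩ := b.surjective e
      rw [← h0] at h1
      exact ⟨e', (h.ef _ _).1 h1, (h.ve _ _).1 h2, (h.ve _ _).1 h3⟩
    · rintro ⟨e, h1, h2, h3⟩
      refine ⟨b e, ?_, (h.ve _ _).2 h2, (h.ve _ _).2 h3⟩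
      rw [← h0]
      exact (h.ef _ _).2 h1
  unfold epsWt
  by_cases h1 : ∃ e, N.ef e f₀ ∧ N.ve u e ∧ N.ve v e
  · rw [if_pos h1, if_pos (key.2 h1)]
  · rw [if_neg h1, if_neg (fun hh => h1 (key.1 hh))]

/-- D14. -/
theorem cD14 : Stmt_Aut := by
  intro V E F M a b d h
  refine ⟨fun D hD c hc P φ hφ => cD14_ext h hD hc hφ, fun D hD => ?_⟩
  refine ⟨_, _, _, cD14_coarse h hD, fun v => rfl, rfl, fun ε u v =>
    cD14_eps (cD14_coarse h hD) rfl ε u v, ?_⟩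
  intro D' hD' f
  rcases f with _ | f
  · exact Iff.rfl
  · constructor
    · intro hh g hg
      have h1 := hh ⟨d f.1, fun hh => f.2 ((hD _).1 hh)⟩ rfl
      have h2 : g = f := (Option.some.inj hg).symm
      rw [h2]
      exact (hD' _).1 h1
    · intro hh g hg
      have h1 := hh f rfl
      have h2 : (⟨d f.1, fun hh => f.2 ((hD _).1 hh)⟩ : {f : F // f ∉ D}) = g :=
        Option.some.inj hg
      rw [← h2]
      exact (hD' _).2 h1

end Pool.Agent.CT
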