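import Pool.Agent.CT.CDefs

set_option autoImplicit false

/-! # Blocks, polygons, harmonic functions: definitions and frozen statements -/

namespace Pool.Agent.CT

open Set Metric

/-! ## Plane geometry -/

/-- Twice the signed area of the triangle `a b c`. -/
def cross (a b c : ℂ) : ℝ := (b.re - a.re) * (c.im - a.im) - (b.im - a.im) * (c.re - a.re)

/-- The real linear functional with gradient `w`. -/
def dir (w z : ℂ) : ℝ := w.re * z.re + w.im * z.im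

/-- Strictly convex position of a cyclic sequence of `n` points, in this cyclic order. -/
structure StrictPoly (n : ℕ) (z : ℤ → ℂ) : Prop where
  three : 3 ≤ n
  per : ∀ i, z (i + n) = z i
  conv : ∃ σ : ℝ, (σ = 1 ∨ σ = -1) ∧ ∀ i j, ¬ (n : ℤ) ∣ j - i → ¬ (n : ℤ) ∣ j - (i + 1) →
    0 < σ * cross (z i) (z (i + 1)) (z j)

/-- G1: no three collinear and no alternation give strictly convex position. -/
def Stmt_StrictOf : Prop := ∀ (n : ℕ) (z : ℤ → ℂ), 3 ≤ n → (∀ i, z (i + n) = z i) →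
  (∀ i j k : ℤ, ¬ (n : ℤ) ∣ i - j → ¬ (n : ℤ) ∣ j - k → ¬ (n : ℤ) ∣ i - k →
    cross (z i) (z j) (z k) ≠ 0) →
  (∀ (w : ℂ) (c : ℝ) (i j k l : ℤ), w ≠ 0 → i < j → j < k → k < l → l < i + n →
    c < dir w (z i) → dir w (z j) < c → c < dir w (z k) → dir w (z l) < c → False) →
  StrictPoly n z

/-- G2: the polygon of a strictly convex cyclic sequence. -/
def Stmt_PolyGeom : Prop := ∀ (n : ℕ) (z : ℤ → ℂ), StrictPoly n z →
  (∀ i j, z i = z j ↔ (n : ℤ) ∣ i - j) ∧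
  (interior (convexHull ℝ (range z))).Nonempty ∧
  frontier (convexHull ℝ (range z)) = ⋃ i, segment ℝ (z i) (z (i + 1)) ∧
  (∀ i j, ¬ (n : ℤ) ∣ i - j → ∀ w, w ∈ segment ℝ (z i) (z (i + 1)) →
    w ∈ segment ℝ (z j) (z (j + 1)) →
    ((n : ℤ) ∣ j - (i + 1) ∧ w = z j) ∨ ((n : ℤ) ∣ i - (j + 1) ∧ w = z i)) ∧
  (∀ i, ∀ w ∈ convexHull ℝ (range z), cross (z i) (z (i + 1)) w = 0 →
    w ∈ segment ℝ (z i) (z (i + 1))) ∧
  (∀ σ : ℝ, (∀ i j, ¬ (n : ℤ) ∣ j - i → ¬ (n : ℤ) ∣ j - (i + 1) →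
      0 < σ * cross (z i) (z (i + 1)) (z j)) →
    convexHull ℝ (range z) = {w | ∀ i, 0 ≤ σ * cross (z i) (z (i + 1)) w} ∧
    interior (convexHull ℝ (range z)) = {w | ∀ i, 0 < σ * cross (z i) (z (i + 1)) w})

section faces

variable {V E F : Type}

/-- The properties of a drawing at one face. -/
structure FaceOK (M : Inc V E F) (φ : V → ℂ) (f : F) : Prop where
  fin : {v | M.vf v f}.Finite
  ne : ∀ e u v, M.ef e f → M.ve u e → M.ve v e → u ≠ v → φ u ≠ φ v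
  int : (interior (poly M φ f)).Nonempty
  bdry : frontier (poly M φ f) = ⋃ e ∈ {e | M.ef e f}, seg M φ e
  seg_inter : ∀ e d, M.ef e f → M.ef d f → e ≠ d →
    seg M φ e ∩ seg M φ d ⊆ φ '' {v | M.ve v e ∧ M.ve v d}

/-- The faces `f` and `g` of the edge `e` lie on opposite sides of `e`. -/
def Opp (M : Inc V E F) (φ : V → ℂ) (e : E) (f g : F) : Prop :=
  ∃ (w : ℂ) (c : ℝ), w ≠ 0 ∧ (∀ v, M.ve v e → dir w (φ v) = c) ∧
    (∀ v, M.vf v f → dir w (φ v) ≤ c) ∧ (∀ v, M.vf v g → c ≤ dir w (φ v))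

/-- A drawing without the intersection property. -/
structure PreDrawing (M : Inc V E F) (φ : V → ℂ) : Prop where
  face : ∀ f, FaceOK M φ f
  opp : ∀ e f g, f ≠ g → M.ef e f → M.ef e g → Opp M φ e f g
  cover : ∀ z : ℂ, ∃ f, z ∈ poly M φ f
  locfin : ∀ r : ℝ, {f | (poly M φ f ∩ closedBall 0 r).Nonempty}.Finite
  disj : ∀ f g, f ≠ g → Disjoint (interior (poly M φ f)) (interior (poly M φ g))

end faces

/-- G3: a face in strictly convex position is fine. -/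
def Stmt_FaceStrict : Prop := ∀ (V E F : Type) (M : Inc V E F) (φ : V → ℂ) (f : F) (n : ℕ)
  (x : ℤ → V) (y : ℤ → E), IsFaceCycle M f n x y → StrictPoly n (fun i => φ (x i)) →
  FaceOK M φ f ∧ poly M φ f = convexHull ℝ (range fun i => φ (x i))

/-- G4: a face in convex position with one subdivided side is fine. The vertices `x a, ..., x (a + r)`
lie on the side, in this order; the other ones are corners. -/
def Stmt_FaceSub : Prop := ∀ (V E F : Type) (M : Inc V E F) (φ : V → ℂ) (f : F) (n : ℕ)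
  (x : ℤ → V) (y : ℤ → E), IsFaceCycle M f n x y → ∀ (a : ℤ) (r m : ℕ) (s : ℕ → ℝ) (z : ℤ → ℂ),
  1 ≤ r → m + r = n + 1 → StrictPoly m z → (∀ j : ℕ, j < m → z j = φ (x (a + r + j))) →
  s 0 = 0 → s r = 1 → (∀ j < r, s j < s (j + 1)) →
  (∀ j : ℕ, j ≤ r → φ (x (a + j)) = φ (x a) + (s j : ℂ) * (φ (x (a + r)) - φ (x a))) →
  FaceOK M φ f ∧ poly M φ f = convexHull ℝ (range z)

/-- G5: counting theorem. -/
def Stmt_Count : Prop := ∀ (V E F : Type) [Countable V] (M : Inc V E F) (φ : V → ℂ) (W : Set ℂ),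
  IsOpen W → Convex ℝ W → (∀ f, FaceOK M φ f) →
  (∀ e, ∃ u v, u ≠ v ∧ ∀ w, M.ve w e ↔ (w = u ∨ w = v)) →
  (∀ w ∈ W, ∃ r > 0, {f | (poly M φ f ∩ closedBall w r).Nonempty}.Finite) →
  (∀ e, (seg M φ e ∩ W).Nonempty → ∃ f g, f ≠ g ∧ (∀ h, M.ef e h ↔ (h = f ∨ h = g)) ∧
    Opp M φ e f g) →
  ∀ (w₀ : ℂ) (f₀ : F), w₀ ∈ W → w₀ ∈ interior (poly M φ f₀) →
  (∀ f, f ≠ f₀ → w₀ ∉ poly M φ f) →
  (∀ w ∈ W, ∃ f, w ∈ poly M φ f) ∧
  ∀ f g, f ≠ g → Disjoint (interior (poly M φ f) ∩ W) (interior (poly M φ g))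

/-- G6: a predrawing is a drawing. -/
def Stmt_PreInter : Prop := ∀ (V E F : Type) (M : PolyMap V E F) (φ : V → ℂ),
  PreDrawing M.toInc φ → IsDrawing M.toInc φ

/-! ## Blocks -/

/-- A block: a planar structure in which faces have cyclic boundaries; edges may have one or two
faces. -/
structure Blk (V E F : Type) extends Inc V E F where
  edge_verts : ∀ e, ∃ u v, u ≠ v ∧ ∀ w, ve w e ↔ (w = u ∨ w = v)
  cyc : ∀ f, ∃ n x y, IsFaceCycle toInc f n x y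
  planar : StrongPlanar toInc.cellGraph

section blocks

variable {V E F : Type}

/-- The assumptions of the block theorem. `I` is the set of interior vertices. -/
structure BlkHyp (B : Blk V E F) (I : Set V) (φ : V → ℂ) : Prop where
  up : ∀ w : ℂ, w ≠ 0 → ∀ c : ℝ, ConnIn B.vadj {v | c < dir w (φ v)}
  alive : ∀ w : ℂ, w ≠ 0 → ∀ v, (∃ u, dir w (φ v) < dir w (φ u)) →
    (∃ u, dir w (φ u) < dir w (φ v)) →
    ((∃ u, B.vadj.Adj v u ∧ dir w (φ v) < dir w (φ u)) ∧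
      ∃ u, B.vadj.Adj v u ∧ dir w (φ u) < dir w (φ v)) ∨
    (v ∈ I ∧ ∀ u, B.vadj.Adj v u → dir w (φ u) = dir w (φ v))
  sep : ∀ K : Set V, K ⊆ I → K.Nonempty → ConnIn B.vadj K →
    {v | v ∉ K ∧ ∃ k ∈ K, B.vadj.Adj k v}.encard ≤ 2 → ∀ v, v ∈ K ∨ ∃ k ∈ K, B.vadj.Adj k v
  face3 : ∀ w : ℂ, w ≠ 0 → ∀ (c : ℝ) (f : F) (p : Fin 3 → V), Function.Injective p →
    (∀ i, B.vf (p i) f) → (∀ i, dir w (φ (p i)) = c) → ∃ u, c < dir w (φ u)
  edge2 : ∀ w : ℂ, w ≠ 0 → ∀ e f g u v, f ≠ g → B.ef e f → B.ef e g → u ≠ v → B.ve u e →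
    B.ve v e → dir w (φ u) = dir w (φ v) → ∃ u', dir w (φ u) < dir w (φ u')

/-- The conclusions of the block theorem. -/
structure BlkConcl (B : Inc V E F) (φ : V → ℂ) : Prop where
  strict : ∀ f n x y, IsFaceCycle B f n x y → StrictPoly n (fun i => φ (x i))
  opp : ∀ e f g u v p q, f ≠ g → B.ef e f → B.ef e g → u ≠ v → B.ve u e → B.ve v e →
    B.vf p f → p ≠ u → p ≠ v → B.vf q g → q ≠ u → q ≠ v →
    cross (φ u) (φ v) (φ p) * cross (φ u) (φ v) (φ q) < 0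

end blocks

/-- P1 + P2: three vertices against two blobs and a face. -/
def Stmt_FaceThree : Prop := ∀ (V E F : Type) (M : Inc V E F),
  (∀ e, ∃ u v, u ≠ v ∧ ∀ w, M.ve w e ↔ (w = u ∨ w = v)) → StrongPlanar M.cellGraph →
  ∀ (U L : Set V) (p : Fin 3 → V), Function.Injective p → ConnIn M.vadj U → ConnIn M.vadj L →
  Disjoint U L → (∀ i, p i ∉ U) → (∀ i, p i ∉ L) → (∀ i, ∃ u ∈ U, M.vadj.Adj (p i) u) →
  (∀ i, ∃ u ∈ L, M.vadj.Adj (p i) u) →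
  (∀ f, (∀ i, M.vf (p i) f) → False) ∧
  (∀ K : Set V, ConnIn M.vadj K → Disjoint K U → Disjoint K L → (∀ i, p i ∉ K) →
    (∀ i, ∃ u ∈ K, M.vadj.Adj (p i) u) → False)

/-- P3: no alternation on a face. -/
def Stmt_FaceAlt : Prop := ∀ (V E F : Type) (M : Inc V E F),
  (∀ e, ∃ u v, u ≠ v ∧ ∀ w, M.ve w e ↔ (w = u ∨ w = v)) → StrongPlanar M.cellGraph →
  ∀ (f : F) (n : ℕ) (x : ℤ → V) (y : ℤ → E), IsFaceCycle M f n x y →
  ∀ (U L : Set V), ConnIn M.vadj U → ConnIn M.vadj L → Disjoint U L →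
  ∀ i j k l : ℤ, i < j → j < k → k < l → l < i + n → x i ∈ U → x j ∈ L → x k ∈ U → x l ∈ L →
  False

/-- P4: the two faces of an edge. -/
def Stmt_EdgeOpp : Prop := ∀ (V E F : Type) (M : Inc V E F),
  (∀ e, ∃ u v, u ≠ v ∧ ∀ w, M.ve w e ↔ (w = u ∨ w = v)) → StrongPlanar M.cellGraph →
  ∀ (e : E) (f g : F) (u v : V), f ≠ g → M.ef e f → M.ef e g → u ≠ v → M.ve u e → M.ve v e →
  ∀ (U L : Set V), ConnIn M.vadj U → ConnIn M.vadj L → Disjoint U L →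
  u ∉ U → u ∉ L → v ∉ U → v ∉ L → (∃ p ∈ U, M.vf p f) → (∃ p ∈ U, M.vf p g) →
  (∃ p ∈ L, M.vadj.Adj u p) → (∃ p ∈ L, M.vadj.Adj v p) → False

/-- B1: block theorem. -/
def Stmt_Block : Prop := ∀ (V E F : Type) (B : Blk V E F) (I : Set V) (φ : V → ℂ),
  BlkHyp B I φ → BlkConcl B.toInc φ

/-! ## Harmonic functions -/

section harm

variable {V X : Type} [AddCommGroup X] [Module ℝ X]

/-- `φ` is harmonic at `v` for the (not necessarily symmetric) weights `c`. -/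
def Harm (c : V → V → ℝ) (φ : V → X) (v : V) : Prop := ∑ᶠ u, c v u • (φ u - φ v) = 0

/-- Nonnegative weights of finite range. -/
structure Net (c : V → V → ℝ) : Prop where
  fin : ∀ v, {u | c v u ≠ 0}.Finite
  nonneg : ∀ v u, 0 ≤ c v u

/-- The directed graph relation of the weights. -/
def Step (c : V → V → ℝ) (v u : V) : Prop := 0 < c v u

end harm

/-- A1: maximum principle and functionals. -/
def Stmt_Harm : Prop := ∀ (V : Type) (c : V → V → ℝ), Net c →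
  (∀ (f : V → ℝ) (v : V), Harm c f v → (∀ u, 0 < c v u → f u ≤ f v) →
    ∀ u, 0 < c v u → f u = f v) ∧
  (∀ (f : V → ℝ) (v : V), Harm c f v → (∃ u, 0 < c v u ∧ f v < f u) →
    ∃ u, 0 < c v u ∧ f u < f v) ∧
  (∀ (φ : V → ℂ) (v : V) (w : ℂ), Harm c φ v → Harm c (fun u => dir w (φ u)) v) ∧
  (∀ (φ : V → ℂ) (v : V), Harm c (fun u => (φ u).re) v → Harm c (fun u => (φ u).im) v →
    Harm c φ v)

/-- A2: Dirichlet problem with a free group action, finitely many orbits of unknowns. -/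
def Stmt_Dirichlet : Prop := ∀ (V H : Type) [Group H] [MulAction H V] (c : V → V → ℝ), Net c →
  (∀ (h : H) u v, c (h • u) (h • v) = c u v) → (∀ (h : H) (v : V), h • v = v → h = 1) →
  ∀ (a : H → ℂ), (∀ h k, a (h * k) = a h + a k) →
  ∀ I : Set V, (∀ (h : H), ∀ v ∈ I, h • v ∈ I) → (∃ R : Set V, R.Finite ∧ ∀ v ∈ I, ∃ (h : H),
    ∃ r ∈ R, v = h • r) →
  (∀ v ∈ I, ∃ u, u ∉ I ∧ Relation.ReflTransGen (Step c) v u) →
  ∀ ψ : V → ℂ, (∀ (h : H), ∀ v, v ∉ I → ψ (h • v) = ψ v + a h) →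
  ∃ φ : V → ℂ, (∀ v, v ∉ I → φ v = ψ v) ∧ (∀ v ∈ I, Harm c φ v) ∧
    (∀ (h : H) v, φ (h • v) = φ v + a h) ∧
    ∀ φ' : V → ℂ, (∀ v, v ∉ I → φ' v = ψ v) → (∀ v ∈ I, Harm c φ' v) →
      (∀ (h : H) v, φ' (h • v) = φ' v + a h) → φ' = φ

/-- A3: upper level sets reach the boundary or infinity. -/
def Stmt_UpSet : Prop := ∀ (V : Type) (c : V → V → ℝ), Net c → ∀ (I : Set V) (p : ℝ), 0 < p →
  (∀ v ∈ I, ∀ u, 0 < c v u → p * (∑ᶠ t, c v t) ≤ c v u) →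
  ∀ (f : V → ℝ), (∀ v ∈ I, Harm c f v) → ∀ (r : ℕ) (κ : ℝ), 0 < κ →
  (∀ v ∈ I, ∃ (n : ℕ) (q : ℕ → V), n ≤ r ∧ q 0 = v ∧ (∀ i < n, 0 < c (q i) (q (i + 1))) ∧
    (q n ∉ I ∨ f v + κ ≤ f (q n))) →
  ∀ (c₀ : ℝ) (v₀ : V), c₀ < f v₀ →
  (∃ b, b ∉ I ∧ Relation.ReflTransGen (fun x y => 0 < c x y ∧ c₀ < f x ∧ c₀ < f y) v₀ b) ∨
  ∀ m : ℝ, ∃ b, m < f b ∧ Relation.ReflTransGen (fun x y => 0 < c x y ∧ c₀ < f x ∧ c₀ < f y) v₀ b

end Pool.Agent.CT
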