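import Pool.Agent.CT.BDefs

set_option autoImplicit false

/-! # B1: the block theorem -/

namespace Pool.Agent.CT

open Set Metric

theorem cB1_dir_neg (w z : ℂ) : dir (-w) z = -dir w z := by
  simp only [dir, Complex.neg_re, Complex.neg_im]
  ring

section blk

variable {V E F : Type} {B : Blk V E F} {I : Set V} {φ : V → ℂ}

theorem cB1_low (H : BlkHyp B I φ) (w : ℂ) (hw : w ≠ 0) (c : ℝ) :
    ConnIn B.vadj {v | dir w (φ v) < c} := by
  have h := H.up (-w) (neg_ne_zero.2 hw) (-c)
  have e : {v | -c < dir (-w) (φ v)} = {v | dir w (φ v) < c} := by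
    ext v
    simp only [mem_ofPred_eq, cB1_dir_neg]
    constructor <;> intro h <;> linarith
  rw [e] at h
  exact h

theorem cB1_disj (w : ℂ) (c : ℝ) :
    Disjoint {v | c < dir w (φ v)} {v | dir w (φ v) < c} := by
  rw [Set.disjoint_left]
  intro v h1 h2
  have h1' : c < dir w (φ v) := h1
  have h2' : dir w (φ v) < c := h2
  exact absurd (lt_trans h1' h2') (lt_irrefl _)

/-- three elements of a set which does not have at most two elements -/
theorem cB1_three {α : Type} {S : Set α} (h : ¬ S.encard ≤ 2) :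
    ∃ p : Fin 3 → α, Function.Injective p ∧ ∀ i, p i ∈ S := by
  have h3 : (3 : ℕ∞) ≤ S.encard := by
    have h2 : (2 : ℕ∞) < S.encard := not_le.1 h
    exact Order.add_one_le_of_lt h2
  obtain ⟨T, hT, hT3⟩ := Set.exists_subset_encard_eq h3
  have hfin : T.Finite := Set.finite_of_encard_eq_coe (k := 3) hT3
  have hn : T.ncard = 3 := by
    rw [Set.ncard_def, hT3]
    rfl
  obtain ⟨x, y, z, hxy, hxz, hyz, rfl⟩ := Set.ncard_eq_three.1 hn
  refine ⟨![x, y, z], ?_, ?_⟩
  · intro i j hij
    fin_cases i <;> fin_cases j <;> first | rfl | (simp_all)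
  · intro i
    apply hT
    fin_cases i <;> simp

theorem cB1_alive (h1 : Stmt_FaceThree) (H : BlkHyp B I φ) (w : ℂ) (hw : w ≠ 0) (v : V)
    (hu : ∃ u, dir w (φ v) < dir w (φ u)) (hl : ∃ u, dir w (φ u) < dir w (φ v)) :
    (∃ u, B.vadj.Adj v u ∧ dir w (φ v) < dir w (φ u)) ∧
      ∃ u, B.vadj.Adj v u ∧ dir w (φ u) < dir w (φ v) := by
  by_contra hna
  rcases H.alive w hw v hu hl with h | ⟨hI, hadj⟩
  · exact hna h
  set c := dir w (φ v) with hc
  let Dd : Set V := {x | dir w (φ x) = c ∧ x ∈ I ∧ ∀ u, B.vadj.Adj x u → dir w (φ u) = c}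
  have hv : v ∈ Dd := ⟨rfl, hI, hadj⟩
  let K : Set V := compIn B.vadj Dd v
  have hKD : K ⊆ Dd := compIn_subset hv
  have hvK : v ∈ K := mem_compIn_self v
  have hKc : ConnIn B.vadj K := connIn_compIn v
  by_cases hN : {x | x ∉ K ∧ ∃ k ∈ K, B.vadj.Adj k x}.encard ≤ 2
  · have hall := H.sep K (fun x hx => (hKD hx).2.1) ⟨v, hvK⟩ hKc hN
    obtain ⟨u, hu⟩ := hu
    have : dir w (φ u) = c := by
      rcases hall u with h | ⟨k, hk, hku⟩
      · exact (hKD h).1
      · exact (hKD hk).2.2 u hku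
    rw [this] at hu
    exact lt_irrefl _ hu
  · obtain ⟨p, hp, hpN⟩ := cB1_three hN
    have hpc : ∀ i, dir w (φ (p i)) = c := by
      intro i
      obtain ⟨-, k, hk, hkp⟩ := hpN i
      exact (hKD hk).2.2 _ hkp
    have hpD : ∀ i, p i ∉ Dd := by
      intro i hi
      obtain ⟨h2, k, hk, hkp⟩ := hpN i
      exact h2 (compIn_closed k hk (p i) hi hkp (hKD hk))
    have hpa : ∀ i, (∃ u, B.vadj.Adj (p i) u ∧ c < dir w (φ u)) ∧
        ∃ u, B.vadj.Adj (p i) u ∧ dir w (φ u) < c := by
      intro i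
      have h3 := H.alive w hw (p i) (by rw [hpc i]; exact hu) (by rw [hpc i]; exact hl)
      rw [hpc i] at h3
      rcases h3 with h3 | ⟨h4, h5⟩
      · exact h3
      · exact absurd ⟨hpc i, h4, h5⟩ (hpD i)
    have key := (h1 V E F B.toInc B.edge_verts B.planar {x | c < dir w (φ x)}
      {x | dir w (φ x) < c} p hp (H.up w hw c) (cB1_low H w hw c) (cB1_disj w c)
      (fun i hi => by
        have : c < dir w (φ (p i)) := hi
        rw [hpc i] at this
        exact lt_irrefl _ this)
      (fun i hi => by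
        have : dir w (φ (p i)) < c := hi
        rw [hpc i] at this
        exact lt_irrefl _ this)
      (fun i => by
        obtain ⟨⟨u, h4, h5⟩, -⟩ := hpa i
        exact ⟨u, h5, h4⟩)
      (fun i => by
        obtain ⟨-, u, h4, h5⟩ := hpa i
        exact ⟨u, h5, h4⟩)).2 K hKc
    refine key ?_ ?_ (fun i => (hpN i).1) ?_
    · rw [Set.disjoint_left]
      intro x h4 h5
      have h6 : c < dir w (φ x) := h5
      rw [(hKD h4).1] at h6
      exact lt_irrefl _ h6
    · rw [Set.disjoint_left]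
      intro x h4 h5
      have h6 : dir w (φ x) < c := h5
      rw [(hKD h4).1] at h6
      exact lt_irrefl _ h6
    · intro i
      obtain ⟨-, k, hk, hkp⟩ := hpN i
      exact ⟨k, hk, hkp.symm⟩

/-- no three vertices of a face are on a line -/
theorem cB1_line (h1 : Stmt_FaceThree) (H : BlkHyp B I φ) (w : ℂ) (hw : w ≠ 0) (c : ℝ) (f : F)
    (p : Fin 3 → V) (hp : Function.Injective p) (hpf : ∀ i, B.vf (p i) f)
    (hpc : ∀ i, dir w (φ (p i)) = c) : False := by
  have hu := H.face3 w hw c f p hp hpf hpc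
  have hl : ∃ u, dir w (φ u) < c := by
    obtain ⟨u, hu⟩ := H.face3 (-w) (neg_ne_zero.2 hw) (-c) f p hp hpf
      (fun i => by rw [cB1_dir_neg, hpc i])
    rw [cB1_dir_neg] at hu
    exact ⟨u, by linarith⟩
  have hpa : ∀ i, (∃ u, B.vadj.Adj (p i) u ∧ c < dir w (φ u)) ∧
      ∃ u, B.vadj.Adj (p i) u ∧ dir w (φ u) < c := by
    intro i
    have h3 := cB1_alive h1 H w hw (p i) (by rw [hpc i]; exact hu) (by rw [hpc i]; exact hl)
    rw [hpc i] at h3
    exact h3
  exact (h1 V E F B.toInc B.edge_verts B.planar {x | c < dir w (φ x)}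
      {x | dir w (φ x) < c} p hp (H.up w hw c) (cB1_low H w hw c) (cB1_disj w c)
      (fun i hi => by
        have : c < dir w (φ (p i)) := hi
        rw [hpc i] at this
        exact lt_irrefl _ this)
      (fun i hi => by
        have : dir w (φ (p i)) < c := hi
        rw [hpc i] at this
        exact lt_irrefl _ this)
      (fun i => by
        obtain ⟨⟨u, h4, h5⟩, -⟩ := hpa i
        exact ⟨u, h5, h4⟩)
      (fun i => by
        obtain ⟨-, u, h4, h5⟩ := hpa i
        exact ⟨u, h5, h4⟩)).1 f hpf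

/-- the normal of `b - a` -/
noncomputable def cB1_nor (a b : ℂ) : ℂ := ⟨-(b.im - a.im), b.re - a.re⟩

theorem cB1_nor_self (a b : ℂ) : dir (cB1_nor a b) b = dir (cB1_nor a b) a := by
  simp only [dir, cB1_nor]
  ring

theorem cB1_nor_cross (a b z : ℂ) :
    dir (cB1_nor a b) z - dir (cB1_nor a b) a = cross a b z := by
  simp only [dir, cB1_nor, cross]
  ring

theorem cB1_nor_ne {a b : ℂ} (h : a ≠ b) : cB1_nor a b ≠ 0 := by
  intro h0
  apply h
  have h1 : -(b.im - a.im) = 0 := congrArg Complex.re h0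
  have h2 : b.re - a.re = 0 := congrArg Complex.im h0
  apply Complex.ext <;> linarith

theorem cB1_dir_of_cross {a b z : ℂ} (h : cross a b z = 0) :
    ∃ w : ℂ, w ≠ 0 ∧ dir w b = dir w a ∧ dir w z = dir w a := by
  by_cases hab : a = b
  · subst hab
    by_cases haz : a = z
    · subst haz
      exact ⟨1, one_ne_zero, rfl, rfl⟩
    · exact ⟨cB1_nor a z, cB1_nor_ne haz, rfl, cB1_nor_self a z⟩
  · refine ⟨cB1_nor a b, cB1_nor_ne hab, cB1_nor_self a b, ?_⟩
    have := cB1_nor_cross a b z
    rw [h] at this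
    linarith

theorem cB1_cross_ne (h1 : Stmt_FaceThree) (H : BlkHyp B I φ) (f : F) {a b z : V}
    (ha : B.vf a f) (hb : B.vf b f) (hz : B.vf z f) (hab : a ≠ b) (haz : a ≠ z) (hbz : b ≠ z) :
    cross (φ a) (φ b) (φ z) ≠ 0 := by
  intro h0
  obtain ⟨w, hw, h2, h3⟩ := cB1_dir_of_cross h0
  refine cB1_line h1 H w hw (dir w (φ a)) f ![a, b, z] ?_ ?_ ?_
  · intro i j hij
    fin_cases i <;> fin_cases j <;> first | rfl | (simp_all)
  · intro i
    fin_cases i
    · exact ha
    · exact hb
    · exact hz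
  · intro i
    fin_cases i
    · rfl
    · exact h2
    · exact h3

end blk

theorem cB1 (h1 : Stmt_FaceThree) (h2 : Stmt_FaceAlt) (h3 : Stmt_EdgeOpp) (h4 : Stmt_StrictOf) :
    Stmt_Block := by
  intro V E F B I φ H
  constructor
  · intro f n x y hc
    have hvf : ∀ i, B.vf (x i) f := by
      intro i
      refine ⟨y i, (hc.curve.ve i (x i)).2 (Or.inl rfl), ?_⟩
      exact (hc.curve.mem (y i)).2 ⟨i, rfl⟩
    refine h4 n _ hc.three ?_ ?_ ?_
    · intro i
      have : x (i + n) = x i := (hc.curve.x_eq _ _).2 ⟨1, by ring⟩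
      show φ (x (i + n)) = φ (x i)
      rw [this]
    · intro i j k hij hjk hik
      exact cB1_cross_ne h1 H f (hvf i) (hvf j) (hvf k)
        (fun h => hij ((hc.curve.x_eq _ _).1 h)) (fun h => hik ((hc.curve.x_eq _ _).1 h))
        (fun h => hjk ((hc.curve.x_eq _ _).1 h))
    · intro w c i j k l hw hij hjk hkl hli a1 a2 a3 a4
      exact h2 V E F B.toInc B.edge_verts B.planar f n x y hc {v | c < dir w (φ v)}
        {v | dir w (φ v) < c} (H.up w hw c) (cB1_low H w hw c) (cB1_disj w c) i j k l hij hjk hkl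
        hli a1 a2 a3 a4
  · intro e f g u v p q hfg hef heg huv hue hve hp hpu hpv hq hqu hqv
    have huf : B.vf u f := ⟨e, hue, hef⟩
    have hvf : B.vf v f := ⟨e, hve, hef⟩
    have hug : B.vf u g := ⟨e, hue, heg⟩
    have hvg : B.vf v g := ⟨e, hve, heg⟩
    have hcp := cB1_cross_ne h1 H f huf hvf hp huv (Ne.symm hpu) (Ne.symm hpv)
    have hcq := cB1_cross_ne h1 H g hug hvg hq huv (Ne.symm hqu) (Ne.symm hqv)
    have hne : φ u ≠ φ v := by
      intro h
      apply hcp
      rw [h]
      simp [cross]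
    -- a direction for which both faces are on the positive side is impossible
    have main : ∀ w : ℂ, w ≠ 0 → dir w (φ v) = dir w (φ u) → dir w (φ u) < dir w (φ p) →
        dir w (φ u) < dir w (φ q) → False := by
      intro w hw huv' hwp hwq
      have hup : ∃ t, dir w (φ u) < dir w (φ t) := ⟨p, hwp⟩
      have hlo : ∃ t, dir w (φ t) < dir w (φ u) := by
        obtain ⟨t, ht⟩ := H.edge2 (-w) (neg_ne_zero.2 hw) e f g u v hfg hef heg huv hue hve
          (by rw [cB1_dir_neg, cB1_dir_neg, huv'])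
        rw [cB1_dir_neg, cB1_dir_neg] at ht
        exact ⟨t, by linarith⟩
      have hau := cB1_alive h1 H w hw u hup hlo
      have hav := cB1_alive h1 H w hw v (by rw [huv']; exact hup) (by rw [huv']; exact hlo)
      rw [huv'] at hav
      refine h3 V E F B.toInc B.edge_verts B.planar e f g u v hfg hef heg huv hue hve
        {t | dir w (φ u) < dir w (φ t)} {t | dir w (φ t) < dir w (φ u)} (H.up w hw _)
        (cB1_low H w hw _) (cB1_disj w _) ?_ ?_ ?_ ?_ ⟨p, hwp, hp⟩ ⟨q, hwq, hq⟩ ?_ ?_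
      · intro h
        have h' : dir w (φ u) < dir w (φ u) := h
        exact lt_irrefl _ h'
      · intro h
        have h' : dir w (φ u) < dir w (φ u) := h
        exact lt_irrefl _ h'
      · intro h
        have h' : dir w (φ u) < dir w (φ v) := h
        rw [huv'] at h'
        exact lt_irrefl _ h'
      · intro h
        have h' : dir w (φ v) < dir w (φ u) := h
        rw [huv'] at h'
        exact lt_irrefl _ h'
      · obtain ⟨-, t, a1, a2⟩ := hau
        exact ⟨t, a2, a1⟩
      · obtain ⟨-, t, a1, a2⟩ := hav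
        exact ⟨t, a2, a1⟩
    by_contra hcon
    rw [not_lt] at hcon
    have e1 := cB1_nor_cross (φ u) (φ v) (φ p)
    have e2 := cB1_nor_cross (φ u) (φ v) (φ q)
    have e3 := cB1_nor_self (φ u) (φ v)
    rcases lt_or_gt_of_ne hcp with hp0 | hp0
    · have hq0 : cross (φ u) (φ v) (φ q) < 0 := by
        rcases lt_or_gt_of_ne hcq with h | h
        · exact h
        · exact absurd (mul_neg_of_neg_of_pos hp0 h) (not_lt.2 hcon)
      refine main (-cB1_nor (φ u) (φ v)) (neg_ne_zero.2 (cB1_nor_ne hne)) ?_ ?_ ?_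
      · rw [cB1_dir_neg, cB1_dir_neg, e3]
      · rw [cB1_dir_neg, cB1_dir_neg]
        linarith
      · rw [cB1_dir_neg, cB1_dir_neg]
        linarith
    · have hq0 : 0 < cross (φ u) (φ v) (φ q) := by
        rcases lt_or_gt_of_ne hcq with h | h
        · exact absurd (mul_neg_of_pos_of_neg hp0 h) (not_lt.2 hcon)
        · exact h
      refine main (cB1_nor (φ u) (φ v)) (cB1_nor_ne hne) e3 ?_ ?_
      · linarith
      · linarith

end Pool.Agent.CT
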