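import Pool.Agent.CT.CDefs

set_option autoImplicit false

/-! # C8: the bond lemma -/

namespace Pool.Agent.CT

open Set

section general

variable {α : Type} {G : SimpleGraph α}

/-- `K₅` with explicit sets. -/
theorem cD_noK5 (hG : StrongPlanar G) (c0 c1 c2 c3 c4 : α)
    (Z01 Z02 Z03 Z04 Z12 Z13 Z14 Z23 Z24 Z34 : Set α)
    (h01 : c0 ∈ Z01 ∧ c1 ∈ Z01 ∧ ConnIn G Z01) (h02 : c0 ∈ Z02 ∧ c2 ∈ Z02 ∧ ConnIn G Z02)
    (h03 : c0 ∈ Z03 ∧ c3 ∈ Z03 ∧ ConnIn G Z03) (h04 : c0 ∈ Z04 ∧ c4 ∈ Z04 ∧ ConnIn G Z04)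
    (h12 : c1 ∈ Z12 ∧ c2 ∈ Z12 ∧ ConnIn G Z12) (h13 : c1 ∈ Z13 ∧ c3 ∈ Z13 ∧ ConnIn G Z13)
    (h14 : c1 ∈ Z14 ∧ c4 ∈ Z14 ∧ ConnIn G Z14) (h23 : c2 ∈ Z23 ∧ c3 ∈ Z23 ∧ ConnIn G Z23)
    (h24 : c2 ∈ Z24 ∧ c4 ∈ Z24 ∧ ConnIn G Z24) (h34 : c3 ∈ Z34 ∧ c4 ∈ Z34 ∧ ConnIn G Z34)
    (d1 : Disjoint Z01 Z23) (d2 : Disjoint Z01 Z24) (d3 : Disjoint Z01 Z34)
    (d4 : Disjoint Z02 Z13) (d5 : Disjoint Z02 Z14) (d6 : Disjoint Z02 Z34)
    (d7 : Disjoint Z03 Z12) (d8 : Disjoint Z03 Z14) (d9 : Disjoint Z03 Z24)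
    (d10 : Disjoint Z04 Z12) (d11 : Disjoint Z04 Z13) (d12 : Disjoint Z04 Z23)
    (d13 : Disjoint Z12 Z34) (d14 : Disjoint Z13 Z24) (d15 : Disjoint Z14 Z23) : False := by
  refine hG.noK5 ![c0, c1, c2, c3, c4] (fun i j => (![![∅, Z01, Z02, Z03, Z04],
    ![∅, ∅, Z12, Z13, Z14], ![∅, ∅, ∅, Z23, Z24], ![∅, ∅, ∅, ∅, Z34],
    ![∅, ∅, ∅, ∅, ∅]] : Fin 5 → Fin 5 → Set α) i j) ?_ ?_
  · intro i j hij
    fin_cases i <;> fin_cases j <;> first
      | exact absurd hij (by decide)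
      | assumption
  · intro i j k l hij hkl a1 a2 a3 a4
    fin_cases i <;> fin_cases j <;> (first
      | exact absurd hij (by decide)
      | (fin_cases k <;> fin_cases l <;> first
          | exact absurd hkl (by decide)
          | exact absurd rfl a1
          | exact absurd rfl a2
          | exact absurd rfl a3
          | exact absurd rfl a4
          | assumption
          | exact Disjoint.symm (by assumption)))

/-- An alternating sequence of adjacent elements over a convex set of indices is connected. -/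
def cDzig (a b : ℤ → α) (I : Set ℤ) : Set α :=
  {c | ∃ i ∈ I, a i = c} ∪ {c | ∃ i ∈ I, i + 1 ∈ I ∧ b i = c}

theorem cD_zig_conn (a b : ℤ → α) (hab : ∀ i, G.Adj (a i) (b i))
    (hba : ∀ i, G.Adj (b i) (a (i + 1))) (I : Set ℤ)
    (hI : ∀ i ∈ I, ∀ j ∈ I, ∀ k, i ≤ k → k ≤ j → k ∈ I) : ConnIn G (cDzig a b I) := by
  have ha : ∀ i ∈ I, a i ∈ cDzig a b I := fun i hi => Or.inl ⟨i, hi, rfl⟩
  have hb : ∀ i ∈ I, i + 1 ∈ I → b i ∈ cDzig a b I := fun i hi hi' => Or.inr ⟨i, hi, hi', rfl⟩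
  have key : ∀ (k : ℕ) (i : ℤ), i ∈ I → i + k ∈ I →
      ReachIn G (cDzig a b I) (a i) (a (i + k)) := by
    intro k
    induction k with
    | zero => intro i _ _; simpa using ReachIn.refl (a i)
    | succ k ih =>
      intro i hi hk
      have hk' : i + k ∈ I := hI i hi _ hk _ (by omega) (by push_cast; omega)
      have h1 := ih i hi hk'
      have hk2 : i + (k : ℤ) + 1 ∈ I := by
        have : i + (k : ℤ) + 1 = i + ((k + 1 : ℕ) : ℤ) := by push_cast; ring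
        rw [this]; exact hk
      have h2 := (h1.tail (hab _) (ha _ hk') (hb _ hk' hk2)).tail (hba _) (hb _ hk' hk2)
        (ha _ hk2)
      have : i + ((k + 1 : ℕ) : ℤ) = i + (k : ℤ) + 1 := by push_cast; ring
      rw [this]
      exact h2
  have key2 : ∀ i ∈ I, ∀ j ∈ I, ReachIn G (cDzig a b I) (a i) (a j) := by
    intro i hi j hj
    rcases le_total i j with h | h
    · obtain ⟨k, rfl⟩ := Int.le.dest h
      exact key k i hi hj
    · obtain ⟨k, rfl⟩ := Int.le.dest h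
      exact (key k j hj hi).symm
  have key3 : ∀ c ∈ cDzig a b I, ∃ i ∈ I, ReachIn G (cDzig a b I) (a i) c := by
    rintro c (⟨i, hi, rfl⟩ | ⟨i, hi, hi', rfl⟩)
    · exact ⟨i, hi, ReachIn.refl _⟩
    · exact ⟨i, hi, ReachIn.single (hab i) (ha i hi) (hb i hi hi')⟩
  intro c hc d hd
  obtain ⟨i, hi, h1⟩ := key3 c hc
  obtain ⟨j, hj, h2⟩ := key3 d hd
  exact h1.symm.trans ((key2 i hi j hj).trans h2)

end general

section maps

variable {V E F : Type}

theorem cD_adj_ve (M : Inc V E F) {v : V} {e : E} (h : M.ve v e) :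
    M.cellGraph.Adj (.vert v) (.edge e) := Or.inl (CellInc.ve h)

theorem cD_adj_ef (M : Inc V E F) {e : E} {f : F} (h : M.ef e f) :
    M.cellGraph.Adj (.edge e) (.face f) := Or.inl (CellInc.ef h)

theorem cD_adj_vf (M : Inc V E F) {v : V} {f : F} (h : M.vf v f) :
    M.cellGraph.Adj (.vert v) (.face f) := Or.inl (CellInc.vf h)

/-- The faces in `A` and the edges all of whose faces are in `A`. -/
def cDfc (M : Inc V E F) (A : Set F) : Set (Cell V E F) :=
  {c | (∃ f ∈ A, c = .face f) ∨ ∃ d, c = .edge d ∧ ∀ f, M.ef d f → f ∈ A}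

/-- The vertices in `X` and the edges all of whose vertices are in `X`. -/
def cDvc (M : Inc V E F) (X : Set V) : Set (Cell V E F) :=
  {c | (∃ v ∈ X, c = .vert v) ∨ ∃ d, c = .edge d ∧ ∀ v, M.ve v d → v ∈ X}

theorem cD_edge_faces_mem (M : PolyMap V E F) {A : Set F} {d : E} {f g : F} (hfg : f ≠ g)
    (hf : M.ef d f) (hg : M.ef d g) (hfA : f ∈ A) (hgA : g ∈ A) : ∀ h, M.ef d h → h ∈ A := by
  obtain ⟨f', g', hne, hd⟩ := M.edge_faces d
  intro h hh
  rcases (hd f).1 hf with rfl | rfl <;> rcases (hd g).1 hg with rfl | rfl <;>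
    rcases (hd h).1 hh with rfl | rfl <;> first | assumption | exact absurd rfl hfg

theorem cD_edge_verts_mem (M : PolyMap V E F) {X : Set V} {d : E} {u v : V} (huv : u ≠ v)
    (hu : M.ve u d) (hv : M.ve v d) (huX : u ∈ X) (hvX : v ∈ X) : ∀ w, M.ve w d → w ∈ X :=
  cD_edge_faces_mem M.dualMap huv hu hv huX hvX

theorem cD_fc_conn (M : PolyMap V E F) {A : Set F} (hA : ConnIn M.fadj A) :
    ConnIn M.cellGraph (cDfc M.toInc A) := by
  have key : ∀ f ∈ A, ∀ g ∈ A, ReachIn M.cellGraph (cDfc M.toInc A) (.face f) (.face g) := by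
    intro f hf g hg
    refine (hA f hf g hg).map (f := fun f => Cell.face f) ?_
    intro f hf g hg hfg
    obtain ⟨hne, d, hdf, hdg⟩ := hfg
    have h1 : (Cell.face f : Cell V E F) ∈ cDfc M.toInc A := Or.inl ⟨f, hf, rfl⟩
    have h2 : (Cell.face g : Cell V E F) ∈ cDfc M.toInc A := Or.inl ⟨g, hg, rfl⟩
    have h3 : (Cell.edge d : Cell V E F) ∈ cDfc M.toInc A :=
      Or.inr ⟨d, rfl, cD_edge_faces_mem M hne hdf hdg hf hg⟩
    exact (ReachIn.single (cD_adj_ef M.toInc hdf).symm h1 h3).tail (cD_adj_ef M.toInc hdg) h3 h2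
  have key2 : ∀ c ∈ cDfc M.toInc A, ∃ f ∈ A,
      ReachIn M.cellGraph (cDfc M.toInc A) (.face f) c := by
    rintro c (⟨f, hf, rfl⟩ | ⟨d, rfl, hd⟩)
    · exact ⟨f, hf, ReachIn.refl _⟩
    · obtain ⟨f, g, hne, hfg⟩ := M.edge_faces d
      have hf : M.ef d f := (hfg f).2 (Or.inl rfl)
      exact ⟨f, hd f hf, ReachIn.single (cD_adj_ef M.toInc hf).symm (Or.inl ⟨f, hd f hf, rfl⟩)
        (Or.inr ⟨d, rfl, hd⟩)⟩
  intro c hc d hd
  obtain ⟨f, hf, h1⟩ := key2 c hc
  obtain ⟨g, hg, h2⟩ := key2 d hd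
  exact h1.symm.trans ((key f hf g hg).trans h2)

theorem cD_vc_conn (M : PolyMap V E F) {X : Set V} (hX : ConnIn M.vadj X) :
    ConnIn M.cellGraph (cDvc M.toInc X) := by
  have key : ∀ f ∈ X, ∀ g ∈ X, ReachIn M.cellGraph (cDvc M.toInc X) (.vert f) (.vert g) := by
    intro f hf g hg
    refine (hX f hf g hg).map (f := fun f => Cell.vert f) ?_
    intro f hf g hg hfg
    obtain ⟨hne, d, hdf, hdg⟩ := hfg
    have h1 : (Cell.vert f : Cell V E F) ∈ cDvc M.toInc X := Or.inl ⟨f, hf, rfl⟩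
    have h2 : (Cell.vert g : Cell V E F) ∈ cDvc M.toInc X := Or.inl ⟨g, hg, rfl⟩
    have h3 : (Cell.edge d : Cell V E F) ∈ cDvc M.toInc X :=
      Or.inr ⟨d, rfl, cD_edge_verts_mem M hne hdf hdg hf hg⟩
    exact (ReachIn.single (cD_adj_ve M.toInc hdf) h1 h3).tail (cD_adj_ve M.toInc hdg).symm h3 h2
  have key2 : ∀ c ∈ cDvc M.toInc X, ∃ f ∈ X,
      ReachIn M.cellGraph (cDvc M.toInc X) (.vert f) c := by
    rintro c (⟨f, hf, rfl⟩ | ⟨d, rfl, hd⟩)
    · exact ⟨f, hf, ReachIn.refl _⟩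
    · obtain ⟨f, g, hne, hfg⟩ := M.edge_verts d
      have hf : M.ve f d := (hfg f).2 (Or.inl rfl)
      exact ⟨f, hd f hf, ReachIn.single (cD_adj_ve M.toInc hf) (Or.inl ⟨f, hd f hf, rfl⟩)
        (Or.inr ⟨d, rfl, hd⟩)⟩
  intro c hc d hd
  obtain ⟨f, hf, h1⟩ := key2 c hc
  obtain ⟨g, hg, h2⟩ := key2 d hd
  exact h1.symm.trans ((key f hf g hg).trans h2)

/-- A finite connected set of cells realising a dual path. -/
theorem cD_fin_path (M : PolyMap V E F) {A : Set F} {f g : F} (hf : f ∈ A)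
    (h : ReachIn M.fadj A f g) : ∃ P : Set (Cell V E F), P.Finite ∧ P ⊆ cDfc M.toInc A ∧
      Cell.face f ∈ P ∧ Cell.face g ∈ P ∧ ConnIn M.cellGraph P := by
  induction h with
  | refl =>
    refine ⟨{.face f}, finite_singleton _, ?_, rfl, rfl, ConnIn.singleton _⟩
    rintro c rfl
    exact Or.inl ⟨f, hf, rfl⟩
  | @tail b c _ h1 ih =>
    obtain ⟨P, hP1, hP2, hP3, hP4, hP5⟩ := ih
    obtain ⟨⟨hne, d, hdb, hdc⟩, hb, hc⟩ := h1
    have hpair : ConnIn M.cellGraph ({Cell.edge d, Cell.face c} : Set (Cell V E F)) :=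
      ConnIn.pair (cD_adj_ef M.toInc hdc)
    refine ⟨P ∪ {.edge d, .face c}, hP1.union (by simp), ?_, Or.inl hP3, Or.inr (by simp), ?_⟩
    · refine union_subset hP2 ?_
      rintro x (rfl | rfl)
      · exact Or.inr ⟨d, rfl, cD_edge_faces_mem M hne hdb hdc hb hc⟩
      · exact Or.inl ⟨c, hc, rfl⟩
    · exact hP5.union_adj hpair hP4 (by simp) (cD_adj_ef M.toInc hdb).symm

/-- Crossing lemma: a connected set of faces and edges joining the two sides of an edge `e` meets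
a connected set of vertices and edges joining the two ends of `e`. -/
theorem cD_cross (M : PlaneMap V E F) {e : E} {u v : V} {s s' : F} (hue : M.ve u e)
    (hve : M.ve v e) (hes : M.ef e s) (hes' : M.ef e s') (huv : u ≠ v) (hss : s ≠ s')
    (P Q : Set (Cell V E F)) (hP : ConnIn M.cellGraph P) (hQ : ConnIn M.cellGraph Q)
    (hsP : Cell.face s ∈ P) (hsP' : Cell.face s' ∈ P) (huQ : Cell.vert u ∈ Q)
    (hvQ : Cell.vert v ∈ Q) (hPe : Cell.edge e ∉ P) (hQe : Cell.edge e ∉ Q)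
    (hPv : ∀ w, Cell.vert w ∉ P) (hQf : ∀ f, Cell.face f ∉ Q) (hPQ : Disjoint P Q) : False := by
  have huvs : ∀ w f, M.ve w e → M.ef e f → M.cellGraph.Adj (.vert w) (.face f) :=
    fun w f h1 h2 => cD_adj_vf M.toInc ⟨e, h1, h2⟩
  have hPd : ∀ {S : Set (Cell V E F)}, (∀ c ∈ S, c = .edge e ∨ ∃ w, c = .vert w) →
      Disjoint P S := by
    intro S hS
    rw [Set.disjoint_left]
    intro c hc hcS
    rcases hS c hcS with rfl | ⟨w, rfl⟩
    · exact hPe hc
    · exact hPv w hc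
  have hQd : ∀ {S : Set (Cell V E F)}, (∀ c ∈ S, c = .edge e ∨ ∃ w, c = .face w) →
      Disjoint Q S := by
    intro S hS
    rw [Set.disjoint_left]
    intro c hc hcS
    rcases hS c hcS with rfl | ⟨w, rfl⟩
    · exact hQe hc
    · exact hQf w hc
  refine cD_noK5 M.planar (.vert u) (.vert v) (.face s) (.face s') (.edge e)
    Q {.vert u, .face s} {.vert u, .face s'} {.vert u, .edge e} {.vert v, .face s}
    {.vert v, .face s'} {.vert v, .edge e} P {.face s, .edge e} {.face s', .edge e}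
    ⟨huQ, hvQ, hQ⟩ ⟨by simp, by simp, ConnIn.pair (huvs u s hue hes)⟩
    ⟨by simp, by simp, ConnIn.pair (huvs u s' hue hes')⟩
    ⟨by simp, by simp, ConnIn.pair (cD_adj_ve M.toInc hue)⟩
    ⟨by simp, by simp, ConnIn.pair (huvs v s hve hes)⟩
    ⟨by simp, by simp, ConnIn.pair (huvs v s' hve hes')⟩
    ⟨by simp, by simp, ConnIn.pair (cD_adj_ve M.toInc hve)⟩
    ⟨hsP, hsP', hP⟩ ⟨by simp, by simp, ConnIn.pair (cD_adj_ef M.toInc hes).symm⟩
    ⟨by simp, by simp, ConnIn.pair (cD_adj_ef M.toInc hes').symm⟩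
    hPQ.symm (hQd ?_) (hQd ?_) ?_ ?_ ?_ ?_ ?_ ?_ ?_ ?_ (hPd ?_).symm ?_ ?_ (hPd ?_).symm
  · rintro c (rfl | rfl) <;> simp
  · rintro c (rfl | rfl) <;> simp
  all_goals first
    | (rintro c (rfl | rfl) <;> simp)
    | (rw [Set.disjoint_left]; rintro c (rfl | rfl) <;> simp [huv, hss, hss.symm])

/-- No four alternating faces around a vertex. -/
theorem cD_star (M : PlaneMap V E F) {A : Set F} (hA : ConnIn M.fadj A)
    (hAc : ConnIn M.fadj Aᶜ) {v : V} {n : ℕ} {x : ℤ → F} {y : ℤ → E}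
    (hc : IsFaceCycle M.toInc.dual v n x y) {p0 p1 p2 p3 : ℤ} (h01 : p0 < p1) (h12 : p1 < p2)
    (h23 : p2 < p3) (h30 : p3 < p0 + n) (a0 : x p0 ∈ A) (a1 : x p1 ∉ A) (a2 : x p2 ∈ A)
    (a3 : x p3 ∉ A) : False := by
  have hx := hc.curve.x_eq
  have hy := hc.curve.y_eq
  have hve : ∀ i f, M.ef (y i) f ↔ (f = x i ∨ f = x (i + 1)) := hc.curve.ve
  have hmem : ∀ e, M.ve v e ↔ ∃ i, y i = e := hc.curve.mem
  have hvy : ∀ i, M.ve v (y i) := fun i => (hmem _).2 ⟨i, rfl⟩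
  have hvx : ∀ i, M.vf v (x i) := fun i => ⟨y i, hvy i, (hve i _).2 (Or.inl rfl)⟩
  have hper : x (p0 + n) = x p0 := (hx _ _).2 (by simp)
  -- distinct indices in a window of length `n`
  have hxne : ∀ i j : ℤ, i < j → j < i + n → x i ≠ x j := by
    intro i j h1 h2 h
    have h3 := (hx j i).1 h.symm
    have := Int.le_of_dvd (by omega) h3
    omega
  have hyne : ∀ i j : ℤ, i < j → j < i + n → y i ≠ y j := by
    intro i j h1 h2 h
    have h3 := (hy j i).1 h.symm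
    have := Int.le_of_dvd (by omega) h3
    omega
  let a : ℤ → Cell V E F := fun i => .face (x i)
  let b : ℤ → Cell V E F := fun i => .edge (y i)
  have hab : ∀ i, M.cellGraph.Adj (a i) (b i) := fun i =>
    (cD_adj_ef M.toInc ((hve i _).2 (Or.inl rfl))).symm
  have hba : ∀ i, M.cellGraph.Adj (b i) (a (i + 1)) := fun i =>
    cD_adj_ef M.toInc ((hve i _).2 (Or.inr rfl))
  have harc : ∀ i j : ℤ, i ≤ j → a i ∈ cDzig a b {k | i ≤ k ∧ k ≤ j} ∧
      a j ∈ cDzig a b {k | i ≤ k ∧ k ≤ j} ∧ ConnIn M.cellGraph (cDzig a b {k | i ≤ k ∧ k ≤ j}) := by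
    intro i j hij
    refine ⟨Or.inl ⟨i, ⟨le_refl _, hij⟩, rfl⟩, Or.inl ⟨j, ⟨hij, le_refl _⟩, rfl⟩, ?_⟩
    refine cD_zig_conn a b hab hba _ ?_
    rintro i' ⟨h1, h2⟩ j' ⟨h3, h4⟩ k h5 h6
    exact ⟨by omega, by omega⟩
  -- two arcs of the window are disjoint
  have hdisj : ∀ i j k l : ℤ, i ≤ j → j < k → k ≤ l → l < i + n →
      Disjoint (cDzig a b {m | i ≤ m ∧ m ≤ j}) (cDzig a b {m | k ≤ m ∧ m ≤ l}) := by
    intro i j k l h1 h2 h3 h4
    rw [Set.disjoint_left]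
    rintro c (⟨m, ⟨m1, m2⟩, rfl⟩ | ⟨m, ⟨m1, m2⟩, ⟨m3, m4⟩, rfl⟩)
      (⟨m', ⟨m1', m2'⟩, h⟩ | ⟨m', ⟨m1', m2'⟩, ⟨m3', m4'⟩, h⟩)
    · have h : x m' = x m := by simpa [a] using h
      exact hxne m m' (by omega) (by omega) h.symm
    · simp [a, b] at h
    · simp [a, b] at h
    · have h : y m' = y m := by simpa [b] using h
      exact hyne m m' (by omega) (by omega) h.symm
  -- an arc does not contain the vertex nor faces outside of the window
  have hdv : ∀ i j k : ℤ, i ≤ j → (∀ m, i ≤ m → m ≤ j → x m ≠ x k) →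
      Disjoint (cDzig a b {m | i ≤ m ∧ m ≤ j}) {.face (x k), .vert v} := by
    intro i j k h1 h2
    rw [Set.disjoint_left]
    rintro c (⟨m, ⟨m1, m2⟩, rfl⟩ | ⟨m, ⟨m1, m2⟩, ⟨m3, m4⟩, rfl⟩) h
    · have h : x m = x k := by simpa [a] using h
      exact h2 m m1 m2 h
    · simp [b] at h
  have hfv : ∀ i, (Cell.face (x i) : Cell V E F) ∈ ({.face (x i), .vert v} : Set (Cell V E F)) ∧
      (Cell.vert v : Cell V E F) ∈ ({.face (x i), .vert v} : Set (Cell V E F)) ∧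
      ConnIn M.cellGraph ({.face (x i), .vert v} : Set (Cell V E F)) := fun i =>
    ⟨by simp, by simp, ConnIn.pair (cD_adj_vf M.toInc (hvx i)).symm⟩
  have hfc : ∀ (B : Set F) (k : ℤ), x k ∉ B →
      Disjoint (cDfc M.toInc B) {.face (x k), .vert v} := by
    intro B k hk
    rw [Set.disjoint_left]
    rintro c (⟨f, hf, rfl⟩ | ⟨d, rfl, hd⟩) h
    · have h : f = x k := by simpa using h
      exact hk (h ▸ hf)
    · simp at h
  have hAA : Disjoint (cDfc M.toInc A) (cDfc M.toInc Aᶜ) := by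
    rw [Set.disjoint_left]
    rintro c (⟨f, hf, rfl⟩ | ⟨d, rfl, hd⟩) (⟨g, hg, h⟩ | ⟨d', h, hd'⟩)
    · have h : f = g := by simpa using h
      exact hg (h ▸ hf)
    · simp at h
    · simp at h
    · have h : d = d' := by simpa using h
      subst h
      obtain ⟨f, g, -, hfg⟩ := M.edge_faces d
      exact hd' f ((hfg f).2 (Or.inl rfl)) (hd f ((hfg f).2 (Or.inl rfl)))
  have h03 := harc p3 (p0 + n) (by omega)
  have ha0 : a (p0 + n) = a p0 := by simp [a, hper]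
  rw [ha0] at h03
  refine cD_noK5 M.planar (a p0) (a p1) (a p2) (a p3) (.vert v)
    (cDzig a b {m | p0 ≤ m ∧ m ≤ p1}) (cDfc M.toInc A) (cDzig a b {m | p3 ≤ m ∧ m ≤ p0 + n})
    {.face (x p0), .vert v} (cDzig a b {m | p1 ≤ m ∧ m ≤ p2}) (cDfc M.toInc Aᶜ)
    {.face (x p1), .vert v} (cDzig a b {m | p2 ≤ m ∧ m ≤ p3}) {.face (x p2), .vert v}
    {.face (x p3), .vert v} (harc p0 p1 h01.le)
    ⟨Or.inl ⟨_, a0, rfl⟩, Or.inl ⟨_, a2, rfl⟩, cD_fc_conn M.toPolyMap hA⟩ ⟨h03.2.1, h03.1, h03.2.2⟩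
    (hfv p0) (harc p1 p2 h12.le) ⟨Or.inl ⟨_, a1, rfl⟩, Or.inl ⟨_, a3, rfl⟩,
      cD_fc_conn M.toPolyMap hAc⟩ (hfv p1) (harc p2 p3 h23.le) (hfv p2) (hfv p3) ?_ ?_ ?_ ?_ ?_ ?_
      ?_ ?_ ?_ ?_ ?_ ?_ ?_ ?_ ?_
  · exact hdisj _ _ _ _ h01.le h12 h23.le (by omega)
  · exact hdv _ _ _ h01.le fun m h1 h2 => hxne m p2 (by omega) (by omega)
  · exact hdv _ _ _ h01.le fun m h1 h2 => hxne m p3 (by omega) (by omega)
  · exact hAA
  · exact hfc A p1 a1
  · exact hfc A p3 a3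
  · exact (hdisj p1 p2 p3 (p0 + n) h12.le h23 (by omega) (by omega)).symm
  · refine hdv _ _ _ (by omega) fun m h1 h2 h => ?_
    rcases eq_or_lt_of_le h2 with rfl | h2
    · rw [hper] at h; exact a1 (h ▸ a0)
    · exact hxne p1 m (by omega) (by omega) h.symm
  · refine hdv _ _ _ (by omega) fun m h1 h2 h => ?_
    rcases eq_or_lt_of_le h2 with rfl | h2
    · exact hxne p2 (p0 + n) (by omega) (by omega) h.symm
    · exact hxne p2 m (by omega) (by omega) h.symm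
  · exact (hdv p1 p2 p0 h12.le fun m h1 h2 h => hxne p0 m (by omega) (by omega) h.symm).symm
  · exact (hfc Aᶜ p0 (by simpa using a0)).symm
  · exact (hdv p2 p3 p0 h23.le fun m h1 h2 h => hxne p0 m (by omega) (by omega) h.symm).symm
  · exact hdv p1 p2 p3 h12.le fun m h1 h2 => hxne m p3 (by omega) (by omega)
  · exact hfc Aᶜ p2 (by simpa using a2)
  · exact (hdv p2 p3 p1 h23.le fun m h1 h2 h => hxne p1 m (by omega) (by omega) h.symm).symm

/-- Transition at the index `i`. -/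
def cDtr (A : Set F) (x : ℤ → F) (i : ℤ) : Prop :=
  (x i ∈ A ∧ x (i + 1) ∉ A) ∨ (x i ∉ A ∧ x (i + 1) ∈ A)

theorem cD_trans_aux (M : PlaneMap V E F) {A : Set F} (hA : ConnIn M.fadj A)
    (hAc : ConnIn M.fadj Aᶜ) {v : V} {n : ℕ} {x : ℤ → F} {y : ℤ → E}
    (hc : IsFaceCycle M.toInc.dual v n x y) {i : ℤ} (h0 : x i ∈ A) (h1 : x (i + 1) ∉ A) :
    ∃ j, i < j ∧ j < i + n ∧ cDtr A x j ∧ ∀ k, i < k → k < i + n → cDtr A x k → k = j := by
  have hn := hc.three
  have hper : x (i + n) = x i := (hc.curve.x_eq _ _).2 (by simp)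
  have hex : ∃ j, i < j ∧ j < i + n ∧ x j ∉ A ∧ x (j + 1) ∈ A := by
    by_contra hcon
    push Not at hcon
    have key : ∀ m : ℕ, m < n → x (i + 1 + m) ∉ A := by
      intro m
      induction m with
      | zero => intro _; simpa using h1
      | succ m ih =>
        intro hm
        have h2 := ih (by omega)
        have h3 := hcon (i + 1 + m) (by omega) (by omega) h2
        have : i + 1 + ((m + 1 : ℕ) : ℤ) = i + 1 + (m : ℤ) + 1 := by push_cast; ring
        rw [this]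
        exact h3
    have h4 := key (n - 1) (by omega)
    have : i + 1 + ((n - 1 : ℕ) : ℤ) = i + n := by omega
    rw [this, hper] at h4
    exact h4 h0
  obtain ⟨j, j1, j2, j3, j4⟩ := hex
  refine ⟨j, j1, j2, Or.inr ⟨j3, j4⟩, ?_⟩
  rintro k k1 k2 (⟨k3, k4⟩ | ⟨k3, k4⟩)
  · exfalso
    have h5 : k ≠ i + 1 := by rintro rfl; exact h1 k3
    have h6 : k + 1 ≠ i + n := by
      intro h
      rw [h, hper] at k4
      exact k4 h0
    exact cD_star M hA hAc hc (p0 := i) (p1 := i + 1) (p2 := k) (p3 := k + 1) (by omega)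
      (by omega) (by omega) (by omega) h0 h1 k3 k4
  · rcases lt_trichotomy k j with h | h | h
    · exfalso
      have h5 : k + 1 ≠ j := by rintro rfl; exact j3 k4
      exact cD_star M hA hAc hc (p0 := i) (p1 := i + 1) (p2 := k + 1) (p3 := j) (by omega)
        (by omega) (by omega) (by omega) h0 h1 k4 j3
    · exact h
    · exfalso
      have h5 : j + 1 ≠ k := by rintro rfl; exact k3 j4
      exact cD_star M hA hAc hc (p0 := i) (p1 := i + 1) (p2 := j + 1) (p3 := k) (by omega)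
        (by omega) (by omega) (by omega) h0 h1 j4 k3

theorem cDtr_compl (A : Set F) (x : ℤ → F) (i : ℤ) : cDtr Aᶜ x i ↔ cDtr A x i := by
  unfold cDtr
  simp only [mem_compl_iff, not_not]
  exact Or.comm

theorem cD_trans (M : PlaneMap V E F) {A : Set F} (hA : ConnIn M.fadj A)
    (hAc : ConnIn M.fadj Aᶜ) {v : V} {n : ℕ} {x : ℤ → F} {y : ℤ → E}
    (hc : IsFaceCycle M.toInc.dual v n x y) {i : ℤ} (h : cDtr A x i) :
    ∃ j, i < j ∧ j < i + n ∧ cDtr A x j ∧ ∀ k, i < k → k < i + n → cDtr A x k → k = j := by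
  rcases h with ⟨h0, h1⟩ | ⟨h0, h1⟩
  · exact cD_trans_aux M hA hAc hc h0 h1
  · have := cD_trans_aux M (A := Aᶜ) hAc (by rwa [compl_compl]) hc (i := i) h0 (by simpa using h1)
    simpa only [cDtr_compl] using this

/-- Every frontier edge at `v` has exactly one companion. -/
theorem cD_regular (h3 : Stmt_FaceCycle) (M : PlaneMap V E F) {A : Set F}
    (hA : ConnIn M.fadj A) (hAc : ConnIn M.fadj Aᶜ) (v : V) (e : E) (he : e ∈ fr M.toInc A)
    (hv : M.ve v e) :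
    ∃ e', e' ≠ e ∧ ∀ d, (d ∈ fr M.toInc A ∧ M.ve v d) ↔ (d = e ∨ d = e') := by
  obtain ⟨n, x, y, hc⟩ := h3 F E V M.dualMap v
  have hn := hc.three
  have hx := hc.curve.x_eq
  have hy := hc.curve.y_eq
  have hve : ∀ i f, M.ef (y i) f ↔ (f = x i ∨ f = x (i + 1)) := hc.curve.ve
  have hmem : ∀ e, M.ve v e ↔ ∃ i, y i = e := hc.curve.mem
  have hfr : ∀ i, y i ∈ fr M.toInc A ↔ cDtr A x i := by
    intro i
    unfold fr cDtr
    simp only [mem_setOf_eq, hve]
    constructor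
    · rintro ⟨⟨f, hf, rfl | rfl⟩, g, hg, rfl | rfl⟩
      · exact absurd hf hg
      · exact Or.inl ⟨hf, hg⟩
      · exact Or.inr ⟨hg, hf⟩
      · exact absurd hf hg
    · rintro (⟨h1, h2⟩ | ⟨h1, h2⟩)
      · exact ⟨⟨_, h1, Or.inl rfl⟩, _, h2, Or.inr rfl⟩
      · exact ⟨⟨_, h2, Or.inr rfl⟩, _, h1, Or.inl rfl⟩
  obtain ⟨i, rfl⟩ := (hmem e).1 hv
  obtain ⟨j, j1, j2, j3, j4⟩ := cD_trans M hA hAc hc ((hfr i).1 he)
  refine ⟨y j, ?_, ?_⟩
  · intro h
    have h5 := (hy j i).1 h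
    have := Int.le_of_dvd (by omega) h5
    omega
  · intro d
    constructor
    · rintro ⟨hd, hvd⟩
      obtain ⟨k, rfl⟩ := (hmem d).1 hvd
      -- reduce `k` into the window
      obtain ⟨k', hk1, hk2, hk3⟩ : ∃ k' : ℤ, i ≤ k' ∧ k' < i + n ∧ (n : ℤ) ∣ k' - k := by
        refine ⟨i + (k - i) % n, ?_, ?_, ?_⟩
        · have := Int.emod_nonneg (k - i) (by omega : (n : ℤ) ≠ 0)
          omega
        · have := Int.emod_lt_of_pos (k - i) (by omega : (0 : ℤ) < n)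
          omega
        · have := Int.emod_add_mul_ediv (k - i) n
          refine ⟨-((k - i) / n), ?_⟩
          linarith
      have hyk : y k' = y k := (hy _ _).2 hk3
      rw [← hyk] at hd ⊢
      rcases eq_or_lt_of_le hk1 with h | h
      · left; rw [h]
      · right
        rw [j4 k' h hk2 ((hfr k').1 hd)]
    · rintro (rfl | rfl)
      · exact ⟨he, hv⟩
      · exact ⟨(hfr j).2 j3, (hmem _).2 ⟨j, rfl⟩⟩

/-- Connectedness of the frontier. -/
theorem cD_connected (h2 : Stmt_Curve) (h3 : Stmt_FaceCycle) (M : PlaneMap V E F) {A : Set F}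
    (hA : ConnIn M.fadj A) (hAc : ConnIn M.fadj Aᶜ) (B : Set E) (hB : B ⊆ fr M.toInc A)
    (hne : B.Nonempty) (hcl : ∀ e ∈ B, ∀ d ∈ fr M.toInc A, (∃ v, M.ve v e ∧ M.ve v d) → d ∈ B) :
    B = fr M.toInc A := by
  by_contra hneq
  obtain ⟨e', he', heB'⟩ : ∃ e' ∈ fr M.toInc A, e' ∉ B := by
    by_contra hcon
    push Not at hcon
    exact hneq (hB.antisymm hcon)
  obtain ⟨e, he⟩ := hne
  -- the component of `e`
  let R : E → E → Prop := fun a b => b ∈ fr M.toInc A ∧ ∃ v, M.ve v a ∧ M.ve v b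
  let C : Set E := {d | Relation.ReflTransGen R e d}
  have hCB : C ⊆ B := by
    intro d hd
    have hd' : Relation.ReflTransGen R e d := hd
    clear hd
    induction hd' with
    | refl => exact he
    | tail _ h1 ih => exact hcl _ ih _ h1.1 h1.2
  have heC : e ∈ C := Relation.ReflTransGen.refl
  have hCfr : C ⊆ fr M.toInc A := hCB.trans hB
  obtain ⟨n, x, y, hc⟩ := h2 V E F M.toPolyMap C ⟨e, heC⟩ (by
    intro v e1 he1 hv
    obtain ⟨e2, h4, h5⟩ := cD_regular h3 M hA hAc v e1 (hCfr he1) hv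
    refine ⟨e2, h4, fun d => ⟨fun h => (h5 d).1 ⟨hCfr h.1, h.2⟩, ?_⟩⟩
    rintro (rfl | rfl)
    · exact ⟨he1, hv⟩
    · obtain ⟨h6, h7⟩ := (h5 d).2 (Or.inr rfl)
      exact ⟨Relation.ReflTransGen.tail he1 ⟨h6, v, hv, h7⟩, h7⟩) (by
    intro B' hB' hne' hcl'
    refine hB'.antisymm ?_
    obtain ⟨b, hb⟩ := hne'
    have heB : e ∈ B' := by
      have key : ∀ d, Relation.ReflTransGen R e d → d ∈ B' → e ∈ B' := by
        intro d hd
        induction hd with
        | refl => exact id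
        | tail h0 h1 ih =>
          intro hd
          obtain ⟨v, h4, h5⟩ := h1.2
          exact ih (hcl' _ hd _ h0 ⟨v, h5, h4⟩)
      exact key b (hB' hb) hb
    intro d hd
    have hd' : Relation.ReflTransGen R e d := hd
    clear hd
    induction hd' with
    | refl => exact heB
    | tail h0 h1 ih => exact hcl' _ ih _ (Relation.ReflTransGen.tail h0 h1) h1.2)
  have hx := hc.x_eq
  have hy := hc.y_eq
  have hve := hc.ve
  obtain ⟨i0, hi0⟩ := (hc.mem e).1 heC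
  subst hi0
  have hyC : ∀ i, y i ∈ C := fun i => (hc.mem _).2 ⟨i, rfl⟩
  -- the ends and faces of `e`
  have hxx : x i0 ≠ x (i0 + 1) := by
    intro h
    have h4 := (hx _ _).1 h.symm
    have h5 : (n : ℤ) ∣ 1 := by simpa using h4
    have h6 : n ∣ 1 := by exact_mod_cast h5
    have h7 := Nat.dvd_one.1 h6
    rcases hc.n_ne with h | h <;> omega
  obtain ⟨⟨s, hsA, hs⟩, s', hsA', hs'⟩ := hCfr heC
  obtain ⟨⟨t, htA, ht⟩, t', htA', ht'⟩ := he'
  have hss : s ≠ s' := fun h => hsA' (h ▸ hsA)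
  -- the dual path
  obtain ⟨P1, p1, p2, p3, p4, p5⟩ := cD_fin_path M.toPolyMap hsA (hA s hsA t htA)
  obtain ⟨P2, q1, q2, q3, q4, q5⟩ := cD_fin_path M.toPolyMap (A := Aᶜ) htA' (hAc t' htA' s' hsA')
  let P : Set (Cell V E F) := (P1 ∪ {.edge e'}) ∪ P2
  have hPfin : P.Finite := (p1.union (finite_singleton _)).union q1
  have hPconn : ConnIn M.cellGraph P := by
    have h4 : ConnIn M.cellGraph (P1 ∪ {.edge e'}) :=
      p5.union_adj (ConnIn.singleton _) p4 (mem_singleton _) (cD_adj_ef M.toInc ht).symm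
    exact h4.union_adj q5 (Or.inr rfl) q3 (cD_adj_ef M.toInc ht')
  -- `P` has no vertices, and its frontier edges are `e'`
  have hPv : ∀ w, Cell.vert w ∉ P := by
    rintro w ((h | h) | h)
    · rcases p2 h with ⟨f, -, h⟩ | ⟨d, h, -⟩ <;> cases h
    · cases h
    · rcases q2 h with ⟨f, -, h⟩ | ⟨d, h, -⟩ <;> cases h
  have hPe : ∀ d, Cell.edge d ∈ P → d ∈ C → False := by
    rintro d ((h | h) | h) hd
    · rcases p2 h with ⟨f, -, h⟩ | ⟨d', h, h'⟩
      · cases h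
      · cases h
        obtain ⟨-, g, hg, hg'⟩ := hCfr hd
        exact hg (h' g hg')
    · cases h
      exact heB' (hCB hd)
    · rcases q2 h with ⟨f, -, h⟩ | ⟨d', h, h'⟩
      · cases h
      · cases h
        obtain ⟨⟨g, hg, hg'⟩, -⟩ := hCfr hd
        exact h' g hg' hg
  -- the zigzags
  let a : ℤ → Cell V E F := fun i => .vert (x i)
  let b : ℤ → Cell V E F := fun i => .edge (y i)
  have hab : ∀ i, M.cellGraph.Adj (a i) (b i) := fun i =>
    cD_adj_ve M.toInc ((hve i _).2 (Or.inl rfl))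
  have hba : ∀ i, M.cellGraph.Adj (b i) (a (i + 1)) := fun i =>
    (cD_adj_ve M.toInc ((hve i _).2 (Or.inr rfl))).symm
  have hzP : ∀ I : Set ℤ, Disjoint P (cDzig a b I) := by
    intro I
    rw [Set.disjoint_left]
    rintro c hcP (⟨i, hi, rfl⟩ | ⟨i, hi, hi', rfl⟩)
    · exact hPv _ hcP
    · exact hPe _ hcP (hyC i)
  have hzf : ∀ (I : Set ℤ) (f : F), Cell.face f ∉ cDzig a b I := by
    rintro I f (⟨i, hi, h⟩ | ⟨i, hi, hi', h⟩)
    · cases h
    · cases h
  have hze : ∀ I : Set ℤ, (∀ i ∈ I, i + 1 ∈ I → ¬ (n : ℤ) ∣ i - i0) →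
      Cell.edge (y i0) ∉ cDzig a b I := by
    rintro I hI (⟨i, hi, h⟩ | ⟨i, hi, hi', h⟩)
    · cases h
    · have h : y i = y i0 := by simpa [b] using h
      exact hI i hi hi' ((hy _ _).1 h)
  have hcross : ∀ Q : Set (Cell V E F), ConnIn M.cellGraph Q → Cell.vert (x i0) ∈ Q →
      Cell.vert (x (i0 + 1)) ∈ Q → Cell.edge (y i0) ∉ Q → (∀ f, Cell.face f ∉ Q) →
      Disjoint P Q → False := by
    intro Q h4 h5 h6 h7 h8 h9
    exact cD_cross M ((hve i0 _).2 (Or.inl rfl)) ((hve i0 _).2 (Or.inr rfl)) hs hs' hxx hss P Q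
      hPconn h4 (Or.inl (Or.inl p3)) (Or.inr q4) h5 h6 (fun h => hPe _ h (hyC i0)) h7 hPv h8 h9
  rcases hc.n_ne with hn | hn
  · -- a line
    subst hn
    have hxinj : ∀ i j, x i = x j → i = j := by
      intro i j h
      have := (hx i j).1 h
      have h4 : i - j = 0 := by simpa using this
      omega
    have hyinj : ∀ i j, y i = y j → i = j := by
      intro i j h
      have := (hy i j).1 h
      have h4 : i - j = 0 := by simpa using this
      omega
    let S : Set V := (⋃ d ∈ {d | Cell.edge d ∈ P}, {w | M.ve w d}) ∪ {w | M.ve w (y i0)}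
    have hef : ∀ d, {w | M.ve w d}.Finite := by
      intro d
      obtain ⟨u, v, -, h⟩ := M.edge_verts d
      have : {w | M.ve w d} = {u, v} := by
        ext w; simp [h w]
      rw [this]; simp
    have hSfin : S.Finite := by
      refine Finite.union (Finite.biUnion ?_ fun d _ => hef d) (hef _)
      exact hPfin.preimage (f := fun d => Cell.edge d) (fun a _ b _ h => by cases h; rfl)
    obtain ⟨X, hX1, hX2, hX3⟩ := M.vend S hSfin
    have hXe : ∀ d, (Cell.edge d ∈ P ∨ d = y i0) → Cell.edge d ∉ cDvc M.toInc X := by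
      rintro d hd (⟨v, -, h⟩ | ⟨d', h, h'⟩)
      · cases h
      · cases h
        obtain ⟨u, v, -, huv⟩ := M.edge_verts d
        have hu : M.ve u d := (huv u).2 (Or.inl rfl)
        refine Set.disjoint_left.1 hX2 (h' u hu) ?_
        rcases hd with hd | rfl
        · exact Or.inl (mem_biUnion (show d ∈ {d | Cell.edge d ∈ P} from hd) hu)
        · exact Or.inr hu
    have hray : ∀ I : Set ℤ, I.Infinite → (cDvc M.toInc X ∩ cDzig a b I).Nonempty := by
      intro I hI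
      by_contra hcon
      rw [not_nonempty_iff_eq_empty] at hcon
      have h4 : x '' I ⊆ Xᶜ := by
        rintro _ ⟨i, hi, rfl⟩ h
        have : Cell.vert (x i) ∈ cDvc M.toInc X ∩ cDzig a b I :=
          ⟨Or.inl ⟨_, h, rfl⟩, Or.inl ⟨i, hi, rfl⟩⟩
        rw [hcon] at this
        exact this
      exact (hI.image (fun i _ j _ h => hxinj i j h)) (hX1.subset h4)
    let Q1 := cDzig a b {k : ℤ | k ≤ i0}
    let Q2 := cDzig a b {k : ℤ | i0 + 1 ≤ k}
    have hQ1 : ConnIn M.cellGraph Q1 := by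
      refine cD_zig_conn a b hab hba _ ?_
      intro i hi j hj k h1 h2
      exact le_trans h2 hj
    have hQ2 : ConnIn M.cellGraph Q2 := by
      refine cD_zig_conn a b hab hba _ ?_
      intro i hi j hj k h1 h2
      exact le_trans hi h1
    have hQ : ConnIn M.cellGraph ((cDvc M.toInc X ∪ Q1) ∪ Q2) := by
      refine ((cD_vc_conn M.toPolyMap hX3).union hQ1 (hray _ ?_)).union hQ2 ?_
      · exact Set.Iic_infinite i0
      · obtain ⟨c, c1, c2⟩ := hray {k : ℤ | i0 + 1 ≤ k} (Set.Ici_infinite (i0 + 1))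
        exact ⟨c, Or.inl c1, c2⟩
    refine hcross _ hQ (Or.inl (Or.inr (Or.inl ⟨i0, le_refl i0, rfl⟩)))
      (Or.inr (Or.inl ⟨i0 + 1, le_refl (i0 + 1), rfl⟩)) ?_ ?_ ?_
    · rintro ((h | h) | h)
      · exact hXe _ (Or.inr rfl) h
      · refine hze _ ?_ h
        intro i hi hi' h4
        have h5 : i - i0 = 0 := by simpa using h4
        have : i + 1 ≤ i0 := hi'
        omega
      · refine hze _ ?_ h
        intro i hi hi' h4
        have h5 : i - i0 = 0 := by simpa using h4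
        have : i0 + 1 ≤ i := hi
        omega
    · rintro f ((h | h) | h)
      · rcases h with ⟨v, -, h⟩ | ⟨d, h, -⟩ <;> cases h
      · exact hzf _ f h
      · exact hzf _ f h
    · refine Disjoint.union_right (Disjoint.union_right ?_ (hzP _)) (hzP _)
      rw [Set.disjoint_left]
      intro c hcP hcX
      rcases id hcX with ⟨v, -, rfl⟩ | ⟨d, rfl, -⟩
      · exact hPv _ hcP
      · exact hXe _ (Or.inl hcP) hcX
  · -- a cycle
    refine hcross (cDzig a b {k : ℤ | i0 + 1 ≤ k ∧ k ≤ i0 + n}) ?_ ?_ ?_ ?_ (hzf _) (hzP _)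
    · refine cD_zig_conn a b hab hba _ ?_
      rintro i' ⟨h1, h2⟩ j' ⟨h3, h4⟩ k h5 h6
      exact ⟨by omega, by omega⟩
    · have : x (i0 + n) = x i0 := (hx _ _).2 (by simp)
      exact Or.inl ⟨i0 + n, ⟨by omega, le_refl _⟩, by simp [a, this]⟩
    · exact Or.inl ⟨i0 + 1, ⟨le_refl _, by omega⟩, rfl⟩
    · refine hze _ ?_
      rintro i ⟨h4, h5⟩ ⟨h6, h7⟩ h8
      have := Int.le_of_dvd (by omega) h8
      omega

end maps

/-- C8: the bond lemma. -/
theorem cD_bond (h2 : Stmt_Curve) (_h7 : Stmt_FrVertex) (h3 : Stmt_FaceCycle) : Stmt_Bond := by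
  intro V E F M A hne hnec hA hAc
  refine h2 V E F M.toPolyMap (fr M.toInc A) ?_ ?_ ?_
  · obtain ⟨g, hg⟩ := hnec
    obtain ⟨f, hf, g, -, hg, hfg⟩ := M.fconn.exists_adj (subset_univ A) hne
      (fun h => hg (h ▸ mem_univ g))
    obtain ⟨-, e, h4, h5⟩ := hfg
    exact ⟨e, ⟨f, hf, h4⟩, g, hg, h5⟩
  · intro v e he hv
    exact cD_regular h3 M hA hAc v e he hv
  · intro B hB hBne hcl
    exact cD_connected h2 h3 M hA hAc B hB hBne hcl

end Pool.Agent.CT
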