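import Pool.Agent.CT.Conn

set_option autoImplicit false

/-! # Combinatorics of plane maps: definitions and frozen statements (C1 - C17) -/

namespace Pool.Agent.CT

open Set Metric

section defs

variable {V E F : Type}

/-- Enumeration of a curve formed by a set `C` of edges: a closed curve of length `n ≥ 3`, or a
bi-infinite line (`n = 0`). The edge `y i` joins `x i` and `x (i + 1)`. -/
structure IsCurve (M : Inc V E F) (C : Set E) (n : ℕ) (x : ℤ → V) (y : ℤ → E) : Prop where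
  n_ne : n = 0 ∨ 3 ≤ n
  x_eq : ∀ i j, x i = x j ↔ (n : ℤ) ∣ i - j
  y_eq : ∀ i j, y i = y j ↔ (n : ℤ) ∣ i - j
  mem : ∀ e, e ∈ C ↔ ∃ i, y i = e
  ve : ∀ i v, M.ve v (y i) ↔ (v = x i ∨ v = x (i + 1))

/-- Cyclic enumeration of the boundary of a face. (For the star of a vertex use `M.dual`.) -/
structure IsFaceCycle (M : Inc V E F) (f : F) (n : ℕ) (x : ℤ → V) (y : ℤ → E) : Prop where
  three : 3 ≤ n
  curve : IsCurve M {e | M.ef e f} n x y

/-- The frontier of a set of faces. -/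
def fr (M : Inc V E F) (A : Set F) : Set E := {e | (∃ f ∈ A, M.ef e f) ∧ ∃ g, g ∉ A ∧ M.ef e g}

/-- `v` is a vertex of a face in `D`. -/
def Touch (M : Inc V E F) (D : Set F) (v : V) : Prop := ∃ d ∈ D, M.vf v d

/-- Finite, connected, with connected complement which stays connected when a face is removed. -/
structure TightDisc (M : Inc V E F) (D : Set F) : Prop where
  fin : D.Finite
  ne : D.Nonempty
  conn : ConnIn M.fadj D
  compl : ConnIn M.fadj Dᶜ
  tight : ∀ t, ConnIn M.fadj (Dᶜ \ {t})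

/-- An end: a decreasing sequence of nonempty connected sets with empty intersection. -/
structure IsEnd {α : Type} (G : SimpleGraph α) (Ed : ℕ → Set α) : Prop where
  anti : Antitone Ed
  ne : ∀ j, (Ed j).Nonempty
  conn : ∀ j, ConnIn G (Ed j)
  fin : ∀ x, ∃ j, x ∉ Ed j

/-- The main block of `O` with respect to the end `Ed`. -/
def mainBlock {α : Type} (G : SimpleGraph α) (O : Set α) (Ed : ℕ → Set α) : Set α :=
  {x ∈ O | ∀ t ∈ O, t ≠ x → ∃ j, Ed j ⊆ O \ {t} ∧ ∃ y ∈ Ed j, ReachIn G (O \ {t}) x y}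

/-! ## The coarse map `M / D` -/

/-- Vertices of the coarse map: the vertices in at least two faces outside `D`. -/
abbrev CV (M : Inc V E F) (D : Set F) : Type :=
  {v : V // ∃ f g, f ≠ g ∧ f ∉ D ∧ g ∉ D ∧ M.vf v f ∧ M.vf v g}

/-- Edges of the coarse map: the edges with both faces outside `D`, and one side of the big face
for each outside face sharing an edge with `D`. -/
abbrev CE (M : Inc V E F) (D : Set F) : Type :=
  {e : E // ∀ f, M.ef e f → f ∉ D} ⊕ {f : F // f ∉ D ∧ ∃ e, M.ef e f ∧ ∃ d ∈ D, M.ef e d}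

/-- Faces of the coarse map: the faces outside `D`, and the big face `none`. -/
abbrev CF (_ : Inc V E F) (D : Set F) : Type := Option {f : F // f ∉ D}

/-- The incidences of the coarse map. -/
def coarse (M : Inc V E F) (D : Set F) : Inc (CV M D) (CE M D) (CF M D) where
  ve v e := match e with
    | Sum.inl e => M.ve v.1 e.1
    | Sum.inr f => M.vf v.1 f.1 ∧ Touch M D v.1
  ef e f := match e, f with
    | Sum.inl e, some f => M.ef e.1 f.1
    | Sum.inl _, none => False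
    | Sum.inr f, some g => f.1 = g.1
    | Sum.inr _, none => True

end defs

/-! ## Frozen statements -/

/-- C1: no double edges. -/
def Stmt_NoDouble : Prop := ∀ (V E F : Type) (M : PolyMap V E F) (e d : E) (u v : V), e ≠ d →
  u ≠ v → M.ve u e → M.ve v e → M.ve u d → M.ve v d → False

/-- C2: a connected 2-regular set of edges can be enumerated. -/
def Stmt_Curve : Prop := ∀ (V E F : Type) (M : PolyMap V E F) (C : Set E), C.Nonempty →
  (∀ v e, e ∈ C → M.ve v e → ∃ e', e' ≠ e ∧ ∀ d, (d ∈ C ∧ M.ve v d) ↔ (d = e ∨ d = e')) →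
  (∀ A : Set E, A ⊆ C → A.Nonempty →
    (∀ e ∈ A, ∀ d ∈ C, (∃ v, M.ve v e ∧ M.ve v d) → d ∈ A) → A = C) →
  ∃ n x y, IsCurve M.toInc C n x y

/-- C3: the boundary of a face can be enumerated cyclically. -/
def Stmt_FaceCycle : Prop := ∀ (V E F : Type) (M : PolyMap V E F) (f : F),
  ∃ n x y, IsFaceCycle M.toInc f n x y

/-- C4: 3-connectivity. -/
def Stmt_ThreeConn : Prop := ∀ (V E F : Type) (M : PolyMap V E F), ConnIn M.vadj univ →
  ∀ S : Set V, S.encard ≤ 2 → ConnIn M.vadj Sᶜ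

/-- C5: faces are non-separating. -/
def Stmt_NonSep : Prop := ∀ (V E F : Type) (M : PolyMap V E F), ConnIn M.vadj univ →
  ∀ t : F, ConnIn M.vadj {v | ¬ M.vf v t}

/-- C6: local form of 3-connectivity. -/
def Stmt_Local3 : Prop := ∀ (V E F : Type) (M : PolyMap V E F), ConnIn M.vadj univ →
  ∀ Q : Set V, Q.Finite → ∃ J : Set V, J.Finite ∧ Q ⊆ J ∧ ∀ S : Set V, S.encard ≤ 2 →
    ∀ a ∈ Q \ S, ∀ b ∈ Q \ S, ReachIn M.vadj (J \ S) a b

/-- C7: a vertex lying in faces of `A` and in faces outside `A` is on the frontier. -/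
def Stmt_FrVertex : Prop := ∀ (V E F : Type) (M : PolyMap V E F) (A : Set F) (v : V),
  Touch M.toInc A v → Touch M.toInc Aᶜ v → ∃ e ∈ fr M.toInc A, M.ve v e

/-- C8: bond lemma. The frontier between two complementary connected sets of faces is a single
closed curve or line. -/
def Stmt_Bond : Prop := ∀ (V E F : Type) (M : PlaneMap V E F) (A : Set F), A.Nonempty →
  Aᶜ.Nonempty → ConnIn M.fadj A → ConnIn M.fadj Aᶜ → ∃ n x y, IsCurve M.toInc (fr M.toInc A) n x y

/-- C9: tightness lemma. -/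
def Stmt_Tight : Prop := ∀ (V E F : Type) (M : PlaneMap V E F) (D : Set F),
  ConnIn M.fadj D → ConnIn M.fadj Dᶜ → ∀ t, t ∉ D → ConnIn M.fadj (Dᶜ \ {t}) →
  (Dᶜ \ {t}).Nonempty → ∀ n x y, IsFaceCycle M.toInc t n x y →
    (∀ i, ¬ Touch M.toInc D (x i)) ∨
    ∃ (a : ℤ) (r : ℕ), r < n ∧
      (∀ i, Touch M.toInc D (x i) ↔ ∃ k : ℕ, k ≤ r ∧ (n : ℤ) ∣ i - (a + k)) ∧
      (∀ i, (∃ d ∈ D, M.ef (y i) d) ↔ ∃ k : ℕ, k < r ∧ (n : ℤ) ∣ i - (a + k))

/-- C10: the main block is 2-connected. -/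
def Stmt_MainBlock : Prop := ∀ (α : Type) (G : SimpleGraph α) (O : Set α) (Ed : ℕ → Set α),
  ConnIn G O → IsEnd G Ed → (∃ j, Ed j ⊆ O) →
  ConnIn G (mainBlock G O Ed) ∧ ∀ t, ConnIn G (mainBlock G O Ed \ {t})

/-- C11: the complement of the main block stays connected. -/
def Stmt_MainBlockCompl : Prop := ∀ (V E F : Type) (M : PolyMap V E F), ConnIn M.fadj univ →
  ∀ (O : Set F) (Ed : ℕ → Set F), ConnIn M.fadj O → ConnIn M.fadj Oᶜ → Oᶜ.Nonempty →
  IsEnd M.fadj Ed → (∃ j, Ed j ⊆ O) → ConnIn M.fadj (mainBlock M.fadj O Ed)ᶜ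

/-- C12: removing a face whose vertices only lie in faces of `O` does not disconnect `O`. -/
def Stmt_Ring : Prop := ∀ (V E F : Type) (M : PolyMap V E F) (O : Set F), ConnIn M.fadj O →
  ∀ t ∈ O, (∀ v, M.vf v t → ∀ g, M.vf v g → g ∈ O) → ConnIn M.fadj (O \ {t})

/-- C13: bi-tightness. -/
def Stmt_BiTight : Prop := ∀ (V E F : Type) (M : PolyMap V E F), ConnIn M.fadj univ →
  ∀ (O : Set F) (Ed : ℕ → Set F), O.Nonempty → ConnIn M.fadj O → (∀ t, ConnIn M.fadj (O \ {t})) →
  (∀ t, (O \ {t}).Nonempty) →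
  ConnIn M.fadj Oᶜ → IsEnd M.fadj Ed → (∃ j, Ed j ⊆ Oᶜ) →
  ConnIn M.fadj (mainBlock M.fadj Oᶜ Ed)ᶜ ∧ ∀ t, ConnIn M.fadj ((mainBlock M.fadj Oᶜ Ed)ᶜ \ {t})

/-- C14: tight discs. For a finite group of automorphisms every finite set of faces is contained in
an invariant tight disc. -/
def Stmt_TightDisc : Prop := ∀ (V E F G : Type) (M : PlaneMap V E F) [Group G] [Finite G]
  [MulAction G V] [MulAction G E] [MulAction G F], Equiv M.toInc G → ∀ W : Set F, W.Finite →
  ∃ D : Set F, W ⊆ D ∧ TightDisc M.toInc D ∧ ∀ (g : G), ∀ f ∈ D, g • f ∈ D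

/-- C15a: the coarse map of a tight disc is a polyhedral map. -/
def Stmt_CoarsePoly : Prop := ∀ (V E F : Type) (M : PlaneMap V E F) (D : Set F),
  TightDisc M.toInc D → ∃ N : PolyMap (CV M.toInc D) (CE M.toInc D) (CF M.toInc D),
    N.toInc = coarse M.toInc D

/-- C15b: the remaining properties of the coarse map. -/
def Stmt_CoarseRest : Prop := ∀ (V E F : Type) (M : PlaneMap V E F) (D : Set F),
  TightDisc M.toInc D →
    ConnIn (coarse M.toInc D).vadj univ ∧ ConnIn (coarse M.toInc D).fadj univ ∧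
    StrongPlanar (coarse M.toInc D).cellGraph ∧ OneEnded (coarse M.toInc D).vadj ∧
    OneEnded (coarse M.toInc D).fadj ∧ Infinite (CV M.toInc D) ∧ Infinite (CF M.toInc D)

/-- C15: the coarse map of a tight disc is a plane map. -/
def Stmt_Coarse : Prop := ∀ (V E F : Type) (M : PlaneMap V E F) (D : Set F),
  TightDisc M.toInc D → ∃ N : PlaneMap (CV M.toInc D) (CE M.toInc D) (CF M.toInc D),
    N.toInc = coarse M.toInc D

theorem coarse_of (h1 : Stmt_CoarsePoly) (h2 : Stmt_CoarseRest) : Stmt_Coarse := by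
  intro V E F M D hD
  obtain ⟨N, hN⟩ := h1 V E F M D hD
  obtain ⟨a, b, c, d, e, f, g⟩ := h2 V E F M D hD
  rw [← hN] at a b c d e
  exact ⟨⟨N, a, b, c, d, e, f, g⟩, hN⟩

end Pool.Agent.CT
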