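import Pool.Agent.CT.CDefs

set_option autoImplicit false

/-! # C15b: connectedness, planarity and ends of the coarse map -/

namespace Pool.Agent.CT

open Set

section cH

variable {V E F : Type}

/-! ## Elementary facts -/

theorem cH_two (M : PolyMap V E F) {e : E} {f g : F} (hf : M.ef e f) (hg : M.ef e g)
    (hfg : f ≠ g) : ∀ h, M.ef e h → h = f ∨ h = g := by
  obtain ⟨f', g', hne, hiff⟩ := M.edge_faces e
  intro h hh
  have h1 := (hiff f).1 hf
  have h2 := (hiff g).1 hg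
  have h3 := (hiff h).1 hh
  rcases h1 with rfl | rfl <;> rcases h2 with rfl | rfl <;> rcases h3 with rfl | rfl <;> tauto

theorem cH_other (M : PolyMap V E F) {e : E} {f : F} (hf : M.ef e f) :
    ∃ g, g ≠ f ∧ M.ef e g := by
  obtain ⟨f', g', hne, hiff⟩ := M.edge_faces e
  rcases (hiff f).1 hf with rfl | rfl
  · exact ⟨g', hne.symm, (hiff g').2 (Or.inr rfl)⟩
  · exact ⟨f', hne, (hiff f').2 (Or.inl rfl)⟩

theorem cH_vert (M : PolyMap V E F) (e : E) : ∃ v, M.ve v e := by
  obtain ⟨u, v, -, h⟩ := M.edge_verts e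
  exact ⟨u, (h u).2 (Or.inl rfl)⟩

theorem cH_face_edge (M : PolyMap V E F) (f : F) : ∃ e, M.ef e f := by
  have h := M.face_card f
  by_contra hcon
  push Not at hcon
  have : {e | M.ef e f} = ∅ := by
    ext e
    simp [hcon e]
  rw [this] at h
  simp at h

theorem cH_faces_fin (M : PolyMap V E F) (v : V) : {f | M.vf v f}.Finite := by
  have h1 : {f | M.vf v f} ⊆ ⋃ e ∈ {e | M.ve v e}, {f | M.ef e f} := by
    rintro f ⟨e, h, h'⟩
    exact mem_biUnion (show e ∈ {e | M.ve v e} from h) h'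
  refine ((M.vert_fin v).biUnion fun e _ => ?_).subset h1
  obtain ⟨f, g, -, h⟩ := M.edge_faces e
  have : {x | M.ef e x} = {f, g} := by
    ext x
    simp [h x]
  rw [this]
  simp

theorem cH_verts_fin (M : PolyMap V E F) (f : F) : {v | M.vf v f}.Finite :=
  cH_faces_fin M.dualMap f |>.subset fun v => by
    rintro ⟨e, h, h'⟩
    exact ⟨e, h', h⟩

/-- The vertices of a face are connected through each other. -/
theorem cH_face_reach (M : PolyMap V E F) (f : F) {u v : V} (hu : M.vf u f) (hv : M.vf v f) :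
    ReachIn M.vadj {w | M.vf w f} u v := by
  obtain ⟨e0, hu0, he0⟩ := hu
  obtain ⟨e1, hv1, he1⟩ := hv
  -- two vertices on the same edge of `f`
  have hstep : ∀ e w w', M.ef e f → M.ve w e → M.ve w' e →
      ReachIn M.vadj {w | M.vf w f} w w' := by
    intro e w w' he hw hw'
    by_cases h : w = w'
    · subst h
      exact ReachIn.refl _
    · exact ReachIn.single ⟨h, e, hw, hw'⟩ ⟨e, hw, he⟩ ⟨e, hw', he⟩
  have key := M.face_conn f
    {e | M.ef e f ∧ ∃ w, M.ve w e ∧ ReachIn M.vadj {w | M.vf w f} u w}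
    (fun e he => he.1) ⟨e0, he0, u, hu0, ReachIn.refl _⟩ (by
      rintro e ⟨he, w, hw, hr⟩ d hd ⟨z, hz, hz'⟩
      exact ⟨hd, z, hz', hr.trans (hstep e w z he hw hz)⟩)
  have h1 : e1 ∈ {e | M.ef e f ∧ ∃ w, M.ve w e ∧ ReachIn M.vadj {w | M.vf w f} u w} := by
    rw [key]
    exact he1
  obtain ⟨-, w, hw, hr⟩ := h1
  exact hr.trans (hstep e1 w v he1 hw hv1)

/-! ## Faces and vertices of the coarse map -/

variable (M : PolyMap V E F) (D : Set F)

theorem cH_mem_CV {v : V} {e : E} {f g : F} (hfg : f ≠ g) (hf : f ∉ D) (hg : g ∉ D)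
    (h1 : M.ve v e) (h2 : M.ef e f) (h3 : M.ef e g) :
    ∃ f g, f ≠ g ∧ f ∉ D ∧ g ∉ D ∧ M.vf v f ∧ M.vf v g :=
  ⟨f, g, hfg, hf, hg, ⟨e, h1, h2⟩, ⟨e, h1, h3⟩⟩

theorem cH_vf_some (v : CV M.toInc D) (f : {f : F // f ∉ D}) :
    (coarse M.toInc D).vf v (some f) ↔ M.vf v.1 f.1 := by
  constructor
  · rintro ⟨e, h1, h2⟩
    rcases e with e | g
    · exact ⟨e.1, h1, h2⟩
    · have h3 : g.1 = f.1 := h2
      rw [← h3]
      exact h1.1
  · rintro ⟨e, h1, h2⟩
    by_cases h : ∀ g, M.ef e g → g ∉ D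
    · exact ⟨Sum.inl ⟨e, h⟩, h1, h2⟩
    · push Not at h
      obtain ⟨d, hd, hdD⟩ := h
      refine ⟨Sum.inr ⟨f.1, f.2, e, h2, d, hdD, hd⟩, ⟨⟨e, h1, h2⟩, d, hdD, ⟨e, h1, hd⟩⟩, rfl⟩

/-- The coarse vertices of a connected set of outside faces are connected. -/
theorem cH_vconn (N : PolyMap (CV M.toInc D) (CE M.toInc D) (CF M.toInc D))
    (hN : N.toInc = coarse M.toInc D) (A : Set F) (hA : A ⊆ Dᶜ) (hc : ConnIn M.fadj A) :
    ConnIn (coarse M.toInc D).vadj {v | ∃ f ∈ A, M.vf v.1 f} := by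
  have hface : ∀ f ∈ A, ∀ u v : CV M.toInc D, M.vf u.1 f → M.vf v.1 f →
      ReachIn (coarse M.toInc D).vadj {v | ∃ f ∈ A, M.vf v.1 f} u v := by
    intro f hf u v hu hv
    have h1 := (cH_vf_some M D u ⟨f, hA hf⟩).2 hu
    have h2 := (cH_vf_some M D v ⟨f, hA hf⟩).2 hv
    have h3 := cH_face_reach N (some ⟨f, hA hf⟩) (u := u) (v := v) (by rw [hN]; exact h1)
      (by rw [hN]; exact h2)
    rw [hN] at h3
    refine h3.mono ?_
    intro w hw
    exact ⟨f, hf, (cH_vf_some M D w ⟨f, hA hf⟩).1 hw⟩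
  rintro u ⟨f, hf, hu⟩ v ⟨g, hg, hv⟩
  have hr := hc f hf g hg
  have key : ∀ g, ReachIn M.fadj A f g → g ∈ A → ∀ v : CV M.toInc D, M.vf v.1 g →
      ReachIn (coarse M.toInc D).vadj {v | ∃ f ∈ A, M.vf v.1 f} u v := by
    intro g hg
    induction hg with
    | refl => intro _ v hv; exact hface f hf u v hu hv
    | @tail b c h0 h1 ih =>
      intro hcA v hv
      obtain ⟨⟨hbc, e, heb, hec⟩, hbA, -⟩ := h1
      obtain ⟨w, hw⟩ := cH_vert M e
      have hwC := cH_mem_CV M D hbc (hA hbA) (hA hcA) hw heb hec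
      exact (ih hbA ⟨w, hwC⟩ ⟨e, hw, heb⟩).trans (hface c hcA ⟨w, hwC⟩ v ⟨e, hw, hec⟩ hv)
  exact key g hr hg v hv

/-- A connected set of outside faces is connected in the coarse map. -/
theorem cH_fconn (A : Set F) (hA : A ⊆ Dᶜ) (hc : ConnIn M.fadj A) :
    ConnIn (coarse M.toInc D).fadj {c | ∃ f : {f : F // f ∉ D}, c = some f ∧ f.1 ∈ A} := by
  rintro _ ⟨f, rfl, hf⟩ _ ⟨g, rfl, hg⟩
  have key : ∀ g, ReachIn M.fadj A f.1 g → ∀ h : g ∈ A,
      ReachIn (coarse M.toInc D).fadj {c | ∃ f : {f : F // f ∉ D}, c = some f ∧ f.1 ∈ A}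
        (some f) (some ⟨g, hA h⟩) := by
    intro g hg
    induction hg with
    | refl => intro _; exact ReachIn.refl _
    | @tail b c h0 h1 ih =>
      intro hcA
      obtain ⟨⟨hbc, e, heb, hec⟩, hbA, -⟩ := h1
      refine (ih hbA).tail ⟨?_, Sum.inl ⟨e, ?_⟩, heb, hec⟩ ⟨⟨b, hA hbA⟩, rfl, hbA⟩
        ⟨⟨c, hA hcA⟩, rfl, hcA⟩
      · intro h
        exact hbc (congrArg Subtype.val (Option.some.inj h))
      · intro h hh
        rcases cH_two M heb hec hbc h hh with rfl | rfl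
        · exact hA hbA
        · exact hA hcA
  exact key g.1 (hc f.1 hf g.1 hg) hg

/-! ## The run of an outside face -/

/-- The cells of the run of `t`: frontier edges of `t` and vertices of `t` touching `D` which are
not vertices of the coarse map. -/
def cHRun (M : Inc V E F) (D : Set F) (t : F) : Set (Cell V E F) :=
  {c | (∃ e, c = Cell.edge e ∧ M.ef e t ∧ ∃ d ∈ D, M.ef e d) ∨
    ∃ v, c = Cell.vert v ∧ M.vf v t ∧ Touch M D v ∧
      ¬ ∃ f g, f ≠ g ∧ f ∉ D ∧ g ∉ D ∧ M.vf v f ∧ M.vf v g}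

/-- Inner vertices of runs are not vertices of the coarse map. -/
theorem cH_inner {t : F} (ht : t ∉ D) {n : ℕ} {x : ℤ → V} {y : ℤ → E}
    (hcyc : IsFaceCycle M.toInc t n x y) {n' : ℕ} {x' : ℤ → V} {y' : ℤ → E}
    (hcur : IsCurve M.toInc (fr M.toInc D) n' x' y') {j : ℤ}
    (h1 : ∃ d ∈ D, M.ef (y j) d) (h2 : ∃ d ∈ D, M.ef (y (j + 1)) d) :
    ¬ ∃ f g, f ≠ g ∧ f ∉ D ∧ g ∉ D ∧ M.vf (x (j + 1)) f ∧ M.vf (x (j + 1)) g := by
  obtain ⟨h3n, hc⟩ := hcyc
  have hyt : ∀ i, M.ef (y i) t := fun i => (hc.mem (y i)).2 ⟨i, rfl⟩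
  have hv1 : M.ve (x (j + 1)) (y j) := (hc.ve j _).2 (Or.inr rfl)
  have hv2 : M.ve (x (j + 1)) (y (j + 1)) := (hc.ve (j + 1) _).2 (Or.inl rfl)
  have hfr1 : y j ∈ fr M.toInc D := ⟨h1, t, ht, hyt j⟩
  have hfr2 : y (j + 1) ∈ fr M.toInc D := ⟨h2, t, ht, hyt (j + 1)⟩
  have hne : y j ≠ y (j + 1) := by
    intro h
    have h3 := (hc.y_eq _ _).1 h
    have h4 : (n : ℤ) ∣ 1 := by
      have : (n : ℤ) ∣ -(j - (j + 1)) := (dvd_neg).2 h3
      simpa using this
    have h5 := Int.le_of_dvd one_pos h4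
    omega
  -- only two frontier edges at the vertex
  have hfr : ∀ e, e ∈ fr M.toInc D → M.ve (x (j + 1)) e → e = y j ∨ e = y (j + 1) := by
    have hcl : ∃ k, x' k = x (j + 1) := by
      obtain ⟨i, hi⟩ := (hcur.mem _).1 hfr1
      have := (hcur.ve i (x (j + 1))).1 (by rw [hi]; exact hv1)
      rcases this with h | h
      · exact ⟨i, h.symm⟩
      · exact ⟨i + 1, h.symm⟩
    obtain ⟨k, hk⟩ := hcl
    have h6 : ∀ e, e ∈ fr M.toInc D → M.ve (x (j + 1)) e → e = y' k ∨ e = y' (k - 1) := by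
      intro e he hve
      obtain ⟨i, rfl⟩ := (hcur.mem _).1 he
      rcases (hcur.ve i _).1 hve with h | h
      · left
        rw [← hk] at h
        exact (hcur.y_eq _ _).2 ((hcur.x_eq _ _).1 h.symm)
      · right
        rw [← hk] at h
        refine (hcur.y_eq _ _).2 ?_
        have := (hcur.x_eq _ _).1 h.symm
        have h7 : i - (k - 1) = i + 1 - k := by ring
        rw [h7]
        exact this
    intro e he hve
    rcases h6 _ hfr1 hv1 with a1 | a1 <;> rcases h6 _ hfr2 hv2 with a2 | a2 <;>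
      rcases h6 _ he hve with a3 | a3
    · exact absurd (a1.trans a2.symm) hne
    · exact absurd (a1.trans a2.symm) hne
    · left; rw [a1, a3]
    · right; rw [a2, a3]
    · right; rw [a2, a3]
    · left; rw [a1, a3]
    · exact absurd (a1.trans a2.symm) hne
    · exact absurd (a1.trans a2.symm) hne
  -- the edges of `t` at the vertex
  have htv : ∀ e, M.ef e t → M.ve (x (j + 1)) e → e = y j ∨ e = y (j + 1) := by
    intro e he hve
    obtain ⟨i, rfl⟩ := (hc.mem _).1 he
    rcases (hc.ve i _).1 hve with h | h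
    · right
      refine (hc.y_eq _ _).2 ?_
      exact (hc.x_eq _ _).1 h.symm
    · left
      refine (hc.y_eq _ _).2 ?_
      have := (hc.x_eq _ _).1 h.symm
      have h7 : i - j = i + 1 - (j + 1) := by ring
      rw [h7]
      exact this
  -- frontier edges at the vertex have no outside face except `t`
  have hout : ∀ e, (e = y j ∨ e = y (j + 1)) → ∀ g, g ∉ D → M.ef e g → g = t := by
    intro e he g hg heg
    obtain ⟨d, hd, hed⟩ : ∃ d ∈ D, M.ef e d := by
      rcases he with rfl | rfl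
      · exact h1
      · exact h2
    have het : M.ef e t := by
      rcases he with rfl | rfl
      · exact hyt _
      · exact hyt _
    have hdt : d ≠ t := fun h => ht (h ▸ hd)
    rcases cH_two M hed het hdt g heg with rfl | rfl
    · exact absurd hd hg
    · rfl
  have hall : ∀ g, g ∉ D → M.vf (x (j + 1)) g → g = t := by
    intro g hg hvg
    by_contra hgt
    obtain ⟨e0, he0, he0g⟩ := hvg
    have key := M.vert_conn (x (j + 1))
      {e | M.ve (x (j + 1)) e ∧ ∃ g, g ∉ D ∧ g ≠ t ∧ M.ef e g}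
      (fun e he => he.1) ⟨e0, he0, g, hg, hgt, he0g⟩ (by
        rintro e ⟨hve, g', hg', hg't, heg'⟩ d hd ⟨h, heh, hdh⟩
        refine ⟨hd, h, ?_, ?_, hdh⟩
        · -- `h` is an outside face
          intro hhD
          have : e ∈ fr M.toInc D := ⟨⟨h, hhD, heh⟩, g', hg', heg'⟩
          exact hg't (hout e (hfr e this hve) g' hg' heg')
        · rintro rfl
          exact hg't (hout e (htv e heh hve) g' hg' heg'))
    have hmem : y j ∈ {e | M.ve (x (j + 1)) e ∧ ∃ g, g ∉ D ∧ g ≠ t ∧ M.ef e g} := by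
      rw [key]
      exact hv1
    obtain ⟨-, g', hg', hg't, heg'⟩ := hmem
    exact hg't (hout (y j) (Or.inl rfl) g' hg' heg')
  rintro ⟨f, g, hfg, hf, hg, hvf, hvg⟩
  exact hfg ((hall f hf hvf).trans (hall g hg hvg).symm)

/-- Ends of the run are vertices of the coarse map. -/
theorem cH_end {t : F} (ht : t ∉ D) {n : ℕ} {x : ℤ → V} {y : ℤ → E}
    (hc : IsCurve M.toInc {e | M.ef e t} n x y) {i j : ℤ} (hi : i = j ∨ i = j + 1)
    (h : ¬ ∃ d ∈ D, M.ef (y j) d) :
    ∃ f g, f ≠ g ∧ f ∉ D ∧ g ∉ D ∧ M.vf (x i) f ∧ M.vf (x i) g := by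
  have hyt : M.ef (y j) t := (hc.mem (y j)).2 ⟨j, rfl⟩
  have hv : M.ve (x i) (y j) := by
    refine (hc.ve j _).2 ?_
    rcases hi with rfl | rfl
    · exact Or.inl rfl
    · exact Or.inr rfl
  obtain ⟨g, hgt, hg⟩ := cH_other M hyt
  have hgD : g ∉ D := fun hgD => h ⟨g, hgD, hg⟩
  exact ⟨g, t, hgt, hgD, ht, ⟨y j, hv, hg⟩, ⟨y j, hv, hyt⟩⟩

/-- The conclusion of the tightness lemma for `t`, in the form used here. -/
theorem cH_run_conn {t : F} (ht : t ∉ D) {n : ℕ} {x : ℤ → V} {y : ℤ → E}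
    (hcyc : IsFaceCycle M.toInc t n x y) {n' : ℕ} {x' : ℤ → V} {y' : ℤ → E}
    (hcur : IsCurve M.toInc (fr M.toInc D) n' x' y') {a : ℤ} {r : ℕ} (hr : r < n)
    (hv : ∀ i, Touch M.toInc D (x i) ↔ ∃ k : ℕ, k ≤ r ∧ (n : ℤ) ∣ i - (a + k))
    (he : ∀ i, (∃ d ∈ D, M.ef (y i) d) ↔ ∃ k : ℕ, k < r ∧ (n : ℤ) ∣ i - (a + k)) (h0 : 0 < r) :
    ConnIn M.cellGraph (cHRun M.toInc D t) ∧
    ∀ v, M.vf v t → Touch M.toInc D v → ∃ e, M.ve v e ∧ M.ef e t ∧ ∃ d ∈ D, M.ef e d := by
  have hc := hcyc.curve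
  have hyt : ∀ i, M.ef (y i) t := fun i => (hc.mem (y i)).2 ⟨i, rfl⟩
  have hed : ∀ k : ℕ, k < r → ∃ d ∈ D, M.ef (y (a + k)) d := fun k hk =>
    (he _).2 ⟨k, hk, by simp⟩
  have hmemE : ∀ k : ℕ, k < r → Cell.edge (y (a + k)) ∈ cHRun M.toInc D t := fun k hk =>
    Or.inl ⟨_, rfl, hyt _, hed k hk⟩
  have hvt : ∀ i, M.vf (x i) t := fun i => ⟨y i, (hc.ve i _).2 (Or.inl rfl), hyt i⟩
  have hmemV : ∀ k : ℕ, k + 1 < r → Cell.vert (x (a + k + 1)) ∈ cHRun M.toInc D t := by
    intro k hk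
    refine Or.inr ⟨_, rfl, hvt _, ?_, ?_⟩
    · exact (hv _).2 ⟨k + 1, by omega, by push_cast; ring_nf; simp⟩
    · refine cH_inner M D ht hcyc hcur (j := a + k) (hed k (by omega)) ?_
      have := hed (k + 1) hk
      have h7 : a + ((k + 1 : ℕ) : ℤ) = a + k + 1 := by push_cast; ring
      rw [h7] at this
      exact this
  -- a vertex of `t` touching `D`
  have hvx : ∀ v, M.vf v t → ∃ i, v = x i := by
    rintro v ⟨e, hve, het⟩
    obtain ⟨i, rfl⟩ := (hc.mem e).1 het
    rcases (hc.ve i v).1 hve with h | h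
    · exact ⟨i, h⟩
    · exact ⟨i + 1, h⟩
  have hvk : ∀ v, M.vf v t → Touch M.toInc D v → ∃ k : ℕ, k ≤ r ∧ v = x (a + k) := by
    intro v hvt' hvT
    obtain ⟨i, rfl⟩ := hvx v hvt'
    obtain ⟨k, hk, hdvd⟩ := (hv i).1 hvT
    exact ⟨k, hk, (hc.x_eq _ _).2 hdvd⟩
  constructor
  · refine ConnIn.of_base (Cell.edge (y (a + (0 : ℕ)))) ?_
    have hpath : ∀ k : ℕ, k < r → ReachIn M.cellGraph (cHRun M.toInc D t)
        (Cell.edge (y (a + (0 : ℕ)))) (Cell.edge (y (a + k))) := by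
      intro k
      induction k with
      | zero => intro _; exact ReachIn.refl _
      | succ k ih =>
        intro hk
        have h1 := ih (by omega)
        have hm := hmemV k hk
        have h2 : ReachIn M.cellGraph (cHRun M.toInc D t)
            (Cell.edge (y (a + (0 : ℕ)))) (Cell.vert (x (a + k + 1))) :=
          h1.tail (Or.inr (CellInc.ve ((hc.ve (a + k) _).2 (Or.inr rfl)))) (hmemE k (by omega)) hm
        have h7 : a + ((k + 1 : ℕ) : ℤ) = a + k + 1 := by push_cast; ring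
        have hm2 := hmemE (k + 1) hk
        rw [h7] at hm2 ⊢
        exact h2.tail (Or.inl (CellInc.ve ((hc.ve (a + k + 1) _).2 (Or.inl rfl)))) hm hm2
    rintro c (⟨e, rfl, het, d, hd, hed'⟩ | ⟨v, rfl, hvt', hvT, hvC⟩)
    · obtain ⟨i, rfl⟩ := (hc.mem e).1 het
      obtain ⟨k, hk, hdvd⟩ := (he i).1 ⟨d, hd, hed'⟩
      rw [(hc.y_eq _ _).2 hdvd]
      exact hpath k hk
    · obtain ⟨k, hk, rfl⟩ := hvk v hvt' hvT
      have hk0 : k ≠ 0 := by
        rintro rfl
        refine hvC (cH_end M D ht hc (j := a - 1) (Or.inr (by push_cast; ring)) ?_)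
        rw [he]
        rintro ⟨k, hk, hdvd⟩
        have h8 : (n : ℤ) ∣ ((k : ℤ) + 1) := by
          have := (dvd_neg).2 hdvd
          have h9 : -(a - 1 - (a + (k : ℤ))) = (k : ℤ) + 1 := by ring
          rwa [h9] at this
        have h10 := Int.le_of_dvd (by omega) h8
        omega
      have hkr : k ≠ r := by
        rintro rfl
        refine hvC (cH_end M D ht hc (j := a + k) (Or.inl rfl) ?_)
        rw [he]
        rintro ⟨l, hl, hdvd⟩
        have h9 : a + (k : ℤ) - (a + (l : ℤ)) = (k : ℤ) - l := by ring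
        rw [h9] at hdvd
        have h10 := Int.le_of_dvd (by omega) hdvd
        omega
      have hm : Cell.vert (x (a + k)) ∈ cHRun M.toInc D t := Or.inr ⟨_, rfl, hvt', hvT, hvC⟩
      have hkk : k < r := by omega
      exact (hpath k hkk).tail (Or.inr (CellInc.ve ((hc.ve (a + k) _).2 (Or.inl rfl))))
        (hmemE k hkk) hm
  · intro v hvt' hvT
    obtain ⟨k, hk, rfl⟩ := hvk v hvt' hvT
    by_cases hkr : k < r
    · exact ⟨y (a + k), (hc.ve _ _).2 (Or.inl rfl), hyt _, hed k hkr⟩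
    · have h8 : (a + k : ℤ) = a + ((k - 1 : ℕ) : ℤ) + 1 := by
        have : k ≥ 1 := by omega
        push_cast [Nat.cast_sub this]
        ring
      refine ⟨y (a + ((k - 1 : ℕ) : ℤ)), ?_, hyt _, hed (k - 1) (by omega)⟩
      rw [h8]
      exact (hc.ve _ _).2 (Or.inr rfl)

/-! ## Planarity -/

/-- The set of cells of `M` represented by a cell of the coarse map. -/
def cHCells (M : Inc V E F) (D : Set F) : Cell (CV M D) (CE M D) (CF M D) → Set (Cell V E F)
  | .vert v => {Cell.vert v.1}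
  | .edge (Sum.inl e) => {Cell.edge e.1}
  | .edge (Sum.inr f) => cHRun M D f.1
  | .face (some f) => {Cell.face f.1}
  | .face none => {c | (∃ d ∈ D, c = Cell.face d) ∨
      ∃ e, c = Cell.edge e ∧ (∃ d ∈ D, M.ef e d) ∧ ∀ g, M.ef e g → g ∈ D}

theorem cH_cells_disj : ∀ b b', b ≠ b' →
    Disjoint (cHCells M.toInc D b) (cHCells M.toInc D b') := by
  -- one implication is enough
  have key : ∀ b b' c, c ∈ cHCells M.toInc D b → c ∈ cHCells M.toInc D b' → b = b' := by
    rintro (v | (e | f) | (_ | f)) (v' | (e' | f') | (_ | f')) c h h'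
    · -- vert, vert
      have h1 : c = Cell.vert v.1 := h
      have h2 : c = Cell.vert v'.1 := h'
      rw [h1] at h2
      exact congrArg _ (Subtype.ext (Cell.vert.inj h2))
    · cases (show c = Cell.vert v.1 from h).symm.trans (show c = Cell.edge e'.1 from h')
    · have h1 : c = Cell.vert v.1 := h
      subst h1
      rcases h' with ⟨e, h2, -⟩ | ⟨w, h2, -, -, h3⟩
      · cases h2
      · cases h2
        exact absurd v.2 h3
    · have h1 : c = Cell.vert v.1 := h
      subst h1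
      rcases h' with ⟨d, -, h2⟩ | ⟨e, h2, -⟩ <;> cases h2
    · cases (show c = Cell.vert v.1 from h).symm.trans (show c = Cell.face f'.1 from h')
    · cases (show c = Cell.edge e.1 from h).symm.trans (show c = Cell.vert v'.1 from h')
    · have h1 : c = Cell.edge e.1 := h
      have h2 : c = Cell.edge e'.1 := h'
      rw [h1] at h2
      exact congrArg (fun z => Cell.edge (Sum.inl z)) (Subtype.ext (Cell.edge.inj h2))
    · have h1 : c = Cell.edge e.1 := h
      subst h1
      rcases h' with ⟨e', h2, -, d, hd, h3⟩ | ⟨w, h2, -⟩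
      · cases h2
        exact absurd hd (e.2 d h3)
      · cases h2
    · have h1 : c = Cell.edge e.1 := h
      subst h1
      rcases h' with ⟨d, -, h2⟩ | ⟨e', h2, ⟨d, hd, h3⟩, -⟩
      · cases h2
      · cases h2
        exact absurd hd (e.2 d h3)
    · cases (show c = Cell.edge e.1 from h).symm.trans (show c = Cell.face f'.1 from h')
    · have h1 : c = Cell.vert v'.1 := h'
      subst h1
      rcases h with ⟨e, h2, -⟩ | ⟨w, h2, -, -, h3⟩
      · cases h2
      · cases h2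
        exact absurd v'.2 h3
    · have h1 : c = Cell.edge e'.1 := h'
      subst h1
      rcases h with ⟨e, h2, -, d, hd, h3⟩ | ⟨w, h2, -⟩
      · cases h2
        exact absurd hd (e'.2 d h3)
      · cases h2
    · -- two runs
      have hff : f.1 = f'.1 := by
        by_contra hne
        rcases h with ⟨e, rfl, h1, d, hd, h2⟩ | ⟨w, rfl, h1, -, h3⟩
        · rcases h' with ⟨e', h4, h5, -⟩ | ⟨w, h4, -⟩
          · cases h4
            rcases cH_two M h1 h5 hne d h2 with rfl | rfl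
            · exact f.2.1 hd
            · exact f'.2.1 hd
          · cases h4
        · rcases h' with ⟨e', h4, h5, -⟩ | ⟨w', h4, h5, -⟩
          · cases h4
          · cases h4
            exact h3 ⟨f.1, f'.1, hne, f.2.1, f'.2.1, h1, h5⟩
      exact congrArg (fun z => Cell.edge (Sum.inr z)) (Subtype.ext hff)
    · rcases h with ⟨e, rfl, h1, -⟩ | ⟨w, rfl, -⟩
      · rcases h' with ⟨d, -, h2⟩ | ⟨e', h2, -, h3⟩
        · cases h2
        · cases h2
          exact absurd (h3 _ h1) f.2.1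
      · rcases h' with ⟨d, -, h2⟩ | ⟨e', h2, -, h3⟩ <;> cases h2
    · have h1 : c = Cell.face f'.1 := h'
      subst h1
      rcases h with ⟨e, h2, -⟩ | ⟨w, h2, -⟩ <;> cases h2
    · have h1 : c = Cell.vert v'.1 := h'
      subst h1
      rcases h with ⟨d, -, h2⟩ | ⟨e, h2, -⟩ <;> cases h2
    · have h1 : c = Cell.edge e'.1 := h'
      subst h1
      rcases h with ⟨d, -, h2⟩ | ⟨e, h2, ⟨d, hd, h3⟩, -⟩
      · cases h2
      · cases h2
        exact absurd hd (e'.2 d h3)
    · rcases h' with ⟨e, rfl, h1, -⟩ | ⟨w, rfl, -⟩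
      · rcases h with ⟨d, -, h2⟩ | ⟨e', h2, -, h3⟩
        · cases h2
        · cases h2
          exact absurd (h3 _ h1) f'.2.1
      · rcases h with ⟨d, -, h2⟩ | ⟨e', h2, -, h3⟩ <;> cases h2
    · rfl
    · have h1 : c = Cell.face f'.1 := h'
      subst h1
      rcases h with ⟨d, hd, h2⟩ | ⟨e, h2, -⟩
      · cases h2
        exact absurd hd f'.2
      · cases h2
    · cases (show c = Cell.face f.1 from h).symm.trans (show c = Cell.vert v'.1 from h')
    · cases (show c = Cell.face f.1 from h).symm.trans (show c = Cell.edge e'.1 from h')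
    · have h1 : c = Cell.face f.1 := h
      subst h1
      rcases h' with ⟨e, h2, -⟩ | ⟨w, h2, -⟩ <;> cases h2
    · have h1 : c = Cell.face f.1 := h
      subst h1
      rcases h' with ⟨d, hd, h2⟩ | ⟨e, h2, -⟩
      · cases h2
        exact absurd hd f.2
      · cases h2
    · have h1 : c = Cell.face f.1 := h
      have h2 : c = Cell.face f'.1 := h'
      rw [h1] at h2
      exact congrArg (fun z => Cell.face (some z)) (Subtype.ext (Cell.face.inj h2))
  intro b b' hbb
  rw [Set.disjoint_left]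
  intro c h h'
  exact hbb (key b b' c h h')

/-- The cells of `D` are connected. -/
theorem cH_big_conn (hne : D.Nonempty) (hc : ConnIn M.fadj D) :
    ConnIn M.cellGraph (cHCells M.toInc D (.face none)) := by
  obtain ⟨d0, hd0⟩ := hne
  have hface : ∀ d, ReachIn M.fadj D d0 d → d ∈ D →
      ReachIn M.cellGraph (cHCells M.toInc D (.face none)) (Cell.face d0) (Cell.face d) := by
    intro d hd
    induction hd with
    | refl => intro _; exact ReachIn.refl _
    | @tail b c h0 h1 ih =>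
      intro hcD
      obtain ⟨⟨hbc, e, heb, hec⟩, hbD, -⟩ := h1
      have he : Cell.edge e ∈ cHCells M.toInc D (.face none) := by
        refine Or.inr ⟨e, rfl, ⟨b, hbD, heb⟩, ?_⟩
        intro g hg
        rcases cH_two M heb hec hbc g hg with rfl | rfl
        · exact hbD
        · exact hcD
      exact ((ih hbD).tail (Or.inr (CellInc.ef heb)) (Or.inl ⟨b, hbD, rfl⟩) he).tail
        (Or.inl (CellInc.ef hec)) he (Or.inl ⟨c, hcD, rfl⟩)
  refine ConnIn.of_base (Cell.face d0) ?_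
  rintro c (⟨d, hd, rfl⟩ | ⟨e, rfl, ⟨d, hd, hed⟩, hall⟩)
  · exact hface d (hc d0 hd0 d hd) hd
  · exact (hface d (hc d0 hd0 d hd) hd).tail (Or.inr (CellInc.ef hed)) (Or.inl ⟨d, hd, rfl⟩)
      (Or.inr ⟨e, rfl, ⟨d, hd, hed⟩, hall⟩)

end cH

/-- C15b. -/
theorem cH_coarseRest (h3 : Stmt_FaceCycle) (_h7 : Stmt_FrVertex) (h8 : Stmt_Bond)
    (h9 : Stmt_Tight) (h15 : Stmt_CoarsePoly) : Stmt_CoarseRest := by
  intro V E F M D hD
  obtain ⟨N, hN⟩ := h15 V E F M D hD
  have hFinf : Infinite F := M.finf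
  have hDc : Dᶜ.Nonempty := by
    by_contra h
    rw [Set.not_nonempty_iff_eq_empty] at h
    have : D = univ := by rw [← compl_compl D, h, compl_empty]
    exact Set.infinite_univ (this ▸ hD.fin)
  have hFc : ∀ X : Set F, X.Finite → ¬ Xᶜ.Finite := fun X h h' =>
    Set.infinite_univ (α := F) ((h.union h').subset (by rw [union_compl_self]))
  obtain ⟨n', x', y', hcur⟩ := h8 V E F M D hD.ne hDc hD.conn hD.compl
  have hrun : ∀ t, t ∉ D → (∃ e, M.ef e t ∧ ∃ d ∈ D, M.ef e d) →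
      ConnIn M.cellGraph (cHRun M.toInc D t) ∧
      ∀ v, M.vf v t → Touch M.toInc D v → ∃ e, M.ve v e ∧ M.ef e t ∧ ∃ d ∈ D, M.ef e d := by
    intro t ht hex
    obtain ⟨n, x, y, hcyc⟩ := h3 V E F M.toPolyMap t
    have hne : (Dᶜ \ {t}).Nonempty := by
      by_contra h
      rw [Set.not_nonempty_iff_eq_empty, Set.sdiff_eq_empty] at h
      exact hFc D hD.fin ((Set.finite_singleton t).subset h)
    obtain ⟨e0, he0, d0, hd0, hed0⟩ := hex
    obtain ⟨i0, hi0⟩ := (hcyc.curve.mem e0).1 he0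
    rcases h9 V E F M D hD.conn hD.compl t ht (hD.tight t) hne n x y hcyc with h | h
    · refine absurd ?_ (h i0)
      exact ⟨d0, hd0, e0, by rw [← hi0]; exact (hcyc.curve.ve i0 _).2 (Or.inl rfl), hed0⟩
    · obtain ⟨a, r, hr, hv, he⟩ := h
      have h0 : 0 < r := by
        obtain ⟨k, hk, -⟩ := (he i0).1 ⟨d0, hd0, by rw [hi0]; exact hed0⟩
        omega
      exact cH_run_conn M.toPolyMap D ht hcyc hcur hr hv he h0
  refine ⟨?_, ?_, ?_, ?_, ?_, ?_, ?_⟩
  · -- vertices connected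
    have h := cH_vconn M.toPolyMap D N hN Dᶜ (le_refl _) hD.compl
    have h2 : {v : CV M.toInc D | ∃ f ∈ Dᶜ, M.vf v.1 f} = univ := by
      ext v
      obtain ⟨v, f, g, hfg, hf, hg, hvf, hvg⟩ := v
      simp only [mem_ofPred_eq, mem_univ, iff_true]
      exact ⟨f, hf, hvf⟩
    rw [h2] at h
    exact h
  · -- faces connected
    have h := cH_fconn M.toPolyMap D Dᶜ (le_refl _) hD.compl
    obtain ⟨d, hd, t, ht, htD, hadj⟩ := M.fconn.exists_adj (subset_univ D) hD.ne (by
      intro h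
      exact Set.infinite_univ (h ▸ hD.fin))
    obtain ⟨hne, e, hed, het⟩ := hadj
    have hin : (coarse M.toInc D).fadj.Adj none (some ⟨t, htD⟩) :=
      ⟨by simp, Sum.inr ⟨t, htD, e, het, d, hd, hed⟩, trivial, rfl⟩
    have h4 := ConnIn.union_adj (ConnIn.singleton (none : CF M.toInc D)) h rfl
      ⟨⟨t, htD⟩, rfl, htD⟩ hin
    refine fun a _ b _ => (h4 a ?_ b ?_).mono (subset_univ _)
    · rcases a with _ | f
      · exact Or.inl rfl
      · exact Or.inr ⟨f, rfl, f.2⟩
    · rcases b with _ | f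
      · exact Or.inl rfl
      · exact Or.inr ⟨f, rfl, f.2⟩
  · -- planarity
    refine StrongPlanar.minor M.planar (cHCells M.toInc D) ?_ ?_
      (cH_cells_disj M.toPolyMap D) ?_
    · rintro (v | (e | f) | (_ | f))
      · exact ⟨_, rfl⟩
      · exact ⟨_, rfl⟩
      · obtain ⟨f, hf, e, he, d, hd, hed⟩ := f
        exact ⟨Cell.edge e, Or.inl ⟨e, rfl, he, d, hd, hed⟩⟩
      · obtain ⟨d, hd⟩ := hD.ne
        exact ⟨Cell.face d, Or.inl ⟨d, hd, rfl⟩⟩
      · exact ⟨_, rfl⟩
    · rintro (v | (e | f) | (_ | f))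
      · exact ConnIn.singleton _
      · exact ConnIn.singleton _
      · exact (hrun f.1 f.2.1 f.2.2).1
      · exact cH_big_conn M.toPolyMap D hD.ne hD.conn
      · exact ConnIn.singleton _
    · have hone : ∀ b b', CellInc (coarse M.toInc D) b b' →
          ∃ x ∈ cHCells M.toInc D b, ∃ y ∈ cHCells M.toInc D b', CellInc M.toInc x y ∨
            CellInc M.toInc y x := by
        intro b b' h
        cases h with
        | @ve v e h =>
          rcases e with e | f
          · exact ⟨_, rfl, _, rfl, Or.inl (CellInc.ve h)⟩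
          · obtain ⟨e, h1, h2, h4⟩ := (hrun f.1 f.2.1 f.2.2).2 v.1 h.1 h.2
            exact ⟨_, rfl, Cell.edge e, Or.inl ⟨e, rfl, h2, h4⟩, Or.inl (CellInc.ve h1)⟩
        | @ef e f h =>
          rcases e with e | t
          · rcases f with _ | f
            · exact absurd h (by intro h; exact h)
            · exact ⟨_, rfl, _, rfl, Or.inl (CellInc.ef h)⟩
          · obtain ⟨t, ht, e, he, d, hd, hed⟩ := t
            rcases f with _ | f
            · exact ⟨Cell.edge e, Or.inl ⟨e, rfl, he, d, hd, hed⟩, Cell.face d,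
                Or.inl ⟨d, hd, rfl⟩, Or.inl (CellInc.ef hed)⟩
            · have h5 : t = f.1 := h
              exact ⟨Cell.edge e, Or.inl ⟨e, rfl, he, d, hd, hed⟩, Cell.face f.1, rfl,
                Or.inl (CellInc.ef (h5 ▸ he))⟩
        | @vf v f h =>
          rcases f with _ | f
          · obtain ⟨e, h1, h2⟩ := h
            rcases e with e | t
            · exact absurd h2 (by intro h; exact h)
            · obtain ⟨d, hd, hvd⟩ := h1.2
              exact ⟨_, rfl, Cell.face d, Or.inl ⟨d, hd, rfl⟩, Or.inl (CellInc.vf hvd)⟩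
          · exact ⟨_, rfl, _, rfl, Or.inl (CellInc.vf ((cH_vf_some M.toPolyMap D v f).1 h))⟩
      intro b b' h
      rcases h with h | h
      · obtain ⟨x, hx, y, hy, hxy⟩ := hone b b' h
        exact ⟨x, hx, y, hy, hxy⟩
      · obtain ⟨x, hx, y, hy, hxy⟩ := hone b' b h
        exact ⟨y, hy, x, hx, hxy.symm⟩
  · -- one end, vertices
    intro S hS
    have hS'fin : (D ∪ ⋃ v ∈ S, {f | M.vf v.1 f}).Finite :=
      hD.fin.union (hS.biUnion fun v _ => cH_faces_fin M.toPolyMap v.1)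
    obtain ⟨X, hXfin, hXdisj, hXc⟩ := M.fend _ hS'fin
    have hXD : X ⊆ Dᶜ := fun f hf hfD => Set.disjoint_left.1 hXdisj hf (Or.inl hfD)
    refine ⟨{v | ∃ f ∈ X, M.vf v.1 f}, ?_, ?_, cH_vconn M.toPolyMap D N hN X hXD hXc⟩
    · have h1 : (⋃ f ∈ Xᶜ, {v | M.vf v f}).Finite :=
        hXfin.biUnion fun f _ => cH_verts_fin M.toPolyMap f
      refine (h1.preimage (f := fun v : CV M.toInc D => v.1)
        (Subtype.val_injective.injOn)).subset ?_
      intro v hv
      obtain ⟨v, f, g, hfg, hf, hg, hvf, hvg⟩ := v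
      have hfX : f ∉ X := fun h => hv ⟨f, h, hvf⟩
      exact mem_biUnion (show f ∈ Xᶜ from hfX) hvf
    · rw [Set.disjoint_left]
      rintro v ⟨f, hf, hvf⟩ hvS
      exact Set.disjoint_left.1 hXdisj hf (Or.inr (mem_biUnion hvS hvf))
  · -- one end, faces
    intro S hS
    have hS'fin : (D ∪ {f | ∃ h : f ∉ D, (some ⟨f, h⟩ : CF M.toInc D) ∈ S}).Finite := by
      refine hD.fin.union ?_
      have h1 : (Subtype.val '' ((fun f : {f : F // f ∉ D} => (some f : CF M.toInc D)) ⁻¹' S)).Finite :=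
        (hS.preimage (Option.some_injective _).injOn).image _
      refine h1.subset ?_
      rintro f ⟨h, hf⟩
      exact ⟨⟨f, h⟩, hf, rfl⟩
    obtain ⟨X, hXfin, hXdisj, hXc⟩ := M.fend _ hS'fin
    have hXD : X ⊆ Dᶜ := fun f hf hfD => Set.disjoint_left.1 hXdisj hf (Or.inl hfD)
    refine ⟨_, ?_, ?_, cH_fconn M.toPolyMap D X hXD hXc⟩
    · have h1 : ((fun f : {f : F // f ∉ D} => (some f : CF M.toInc D)) ''
          (Subtype.val ⁻¹' Xᶜ)).Finite :=
        (hXfin.preimage Subtype.val_injective.injOn).image _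
      refine (h1.union (Set.finite_singleton none)).subset ?_
      intro c hc
      rcases c with _ | f
      · exact Or.inr rfl
      · refine Or.inl ⟨f, ?_, rfl⟩
        intro hfX
        exact hc ⟨f, rfl, hfX⟩
    · rw [Set.disjoint_left]
      rintro _ ⟨f, rfl, hf⟩ hfS
      exact Set.disjoint_left.1 hXdisj hf (Or.inr ⟨f.2, hfS⟩)
  · -- infinitely many vertices
    by_contra hcon
    rw [not_infinite_iff_finite] at hcon
    refine hFc D hD.fin ?_
    have h1 : (⋃ v : CV M.toInc D, {f | M.vf v.1 f}).Finite :=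
      Set.finite_iUnion fun v => cH_faces_fin M.toPolyMap v.1
    refine h1.subset ?_
    intro f hf
    obtain ⟨e, he⟩ := cH_face_edge N (some ⟨f, hf⟩)
    obtain ⟨v, hv⟩ := cH_vert N e
    have hvf : N.vf v (some ⟨f, hf⟩) := ⟨e, hv, he⟩
    rw [hN] at hvf
    exact mem_iUnion.2 ⟨v, (cH_vf_some M.toPolyMap D v ⟨f, hf⟩).1 hvf⟩
  · -- infinitely many faces
    by_contra hcon
    rw [not_infinite_iff_finite] at hcon
    refine hFc D hD.fin ?_
    have h1 : Finite {f : F // f ∉ D} :=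
      Finite.of_injective (fun f => (some f : CF M.toInc D)) (Option.some_injective _)
    exact (Set.finite_coe_iff (s := Dᶜ)).1 h1

end Pool.Agent.CT
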