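import Pool.Agent.CT.Defs

set_option autoImplicit false

/-! # Basic lemmas on `ReachIn`, `ConnIn`, components, simple paths, minors -/

namespace Pool.Agent.CT

open Set

section

variable {α β : Type} {G : SimpleGraph α} {Z Z' A B : Set α} {a b c : α}

theorem ReachIn.refl (a : α) : ReachIn G Z a a := Relation.ReflTransGen.refl

theorem ReachIn.trans (h : ReachIn G Z a b) (h' : ReachIn G Z b c) : ReachIn G Z a c :=
  Relation.ReflTransGen.trans h h'

theorem ReachIn.symm (h : ReachIn G Z a b) : ReachIn G Z b a := by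
  induction h with
  | refl => exact ReachIn.refl _
  | tail _ h1 ih =>
    exact Relation.ReflTransGen.trans (Relation.ReflTransGen.single ⟨h1.1.symm, h1.2.2, h1.2.1⟩) ih

theorem ReachIn.single (h : G.Adj a b) (ha : a ∈ Z) (hb : b ∈ Z) : ReachIn G Z a b :=
  Relation.ReflTransGen.single ⟨h, ha, hb⟩

theorem ReachIn.tail (h : ReachIn G Z a b) (h' : G.Adj b c) (hb : b ∈ Z) (hc : c ∈ Z) :
    ReachIn G Z a c := Relation.ReflTransGen.tail h ⟨h', hb, hc⟩

theorem ReachIn.mono (h : ReachIn G Z a b) (hZ : Z ⊆ Z') : ReachIn G Z' a b := by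
  induction h with
  | refl => exact ReachIn.refl _
  | tail _ h1 ih => exact ih.trans (Relation.ReflTransGen.single ⟨h1.1, hZ h1.2.1, hZ h1.2.2⟩)

theorem ReachIn.mem (h : ReachIn G Z a b) (ha : a ∈ Z) : b ∈ Z := by
  induction h with
  | refl => exact ha
  | tail _ h1 _ => exact h1.2.2

theorem ReachIn.mem' (h : ReachIn G Z a b) (hb : b ∈ Z) : a ∈ Z := h.symm.mem hb

/-- A set closed under adjacency inside `Z` contains everything reachable inside `Z`. -/
theorem ReachIn.closed (h : ReachIn G Z a b) (ha : a ∈ A)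
    (hA : ∀ x ∈ A, ∀ y ∈ Z, G.Adj x y → y ∈ A) : b ∈ A := by
  induction h with
  | refl => exact ha
  | tail _ h1 ih => exact hA _ ih _ h1.2.2 h1.1

theorem ConnIn.empty : ConnIn G (∅ : Set α) := fun _ h => h.elim

theorem ConnIn.singleton (a : α) : ConnIn G {a} := by
  rintro x rfl y rfl
  exact ReachIn.refl _

theorem ConnIn.pair (h : G.Adj a b) : ConnIn G {a, b} := by
  rintro x (rfl | rfl) y (rfl | rfl)
  · exact ReachIn.refl _
  · exact ReachIn.single h (by simp) (by simp)
  · exact ReachIn.single h.symm (by simp) (by simp)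
  · exact ReachIn.refl _

/-- Connected through a base point. -/
theorem ConnIn.of_base (a : α) (h : ∀ b ∈ Z, ReachIn G Z a b) : ConnIn G Z := fun x hx y hy =>
  (h x hx).symm.trans (h y hy)

theorem ConnIn.union (hA : ConnIn G A) (hB : ConnIn G B) (h : (A ∩ B).Nonempty) :
    ConnIn G (A ∪ B) := by
  obtain ⟨c, hcA, hcB⟩ := h
  refine ConnIn.of_base c ?_
  rintro b (hb | hb)
  · exact (hA c hcA b hb).mono subset_union_left
  · exact (hB c hcB b hb).mono subset_union_right

/-- Two connected sets joined by an edge. -/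
theorem ConnIn.union_adj (hA : ConnIn G A) (hB : ConnIn G B) (ha : a ∈ A) (hb : b ∈ B)
    (h : G.Adj a b) : ConnIn G (A ∪ B) := by
  refine ConnIn.of_base a ?_
  rintro x (hx | hx)
  · exact (hA a ha x hx).mono subset_union_left
  · exact (ReachIn.single h (Or.inl ha) (Or.inr hb)).trans
      ((hB b hb x hx).mono subset_union_right)

theorem ConnIn.insert (hA : ConnIn G A) (ha : a ∈ A) (h : G.Adj b a) :
    ConnIn G (Set.insert b A) := by
  have := ConnIn.union_adj (ConnIn.singleton b) hA (mem_singleton b) ha h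
  simpa [Set.insert, Set.union_def] using this

/-- A union of connected sets all containing (or all meeting) a connected set. -/
theorem ConnIn.iUnion {ι : Type*} (s : ι → Set α) (hA : ConnIn G A) (hne : A.Nonempty)
    (h : ∀ i, ConnIn G (s i)) (hi : ∀ i, (s i ∩ A).Nonempty) : ConnIn G (A ∪ ⋃ i, s i) := by
  obtain ⟨a, ha⟩ := hne
  refine ConnIn.of_base a ?_
  rintro x (hx | hx)
  · exact (hA a ha x hx).mono subset_union_left
  · obtain ⟨i, hx⟩ := mem_iUnion.1 hx
    obtain ⟨c, hc, hcA⟩ := hi i
    exact ((hA a ha c hcA).mono subset_union_left).trans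
      ((h i c hc x hx).mono ((subset_iUnion s i).trans subset_union_right))

/-- A nonempty subset of a connected set closed under adjacency is everything. -/
theorem ConnIn.eq_of_closed (hZ : ConnIn G Z) (hAZ : A ⊆ Z) (hne : A.Nonempty)
    (hA : ∀ x ∈ A, ∀ y ∈ Z, G.Adj x y → y ∈ A) : A = Z := by
  obtain ⟨a, ha⟩ := hne
  refine hAZ.antisymm fun b hb => ?_
  exact (hZ a (hAZ ha) b hb).closed ha hA

/-- A proper nonempty subset of a connected set has an edge to the rest. -/
theorem ConnIn.exists_adj (hZ : ConnIn G Z) (hAZ : A ⊆ Z) (hne : A.Nonempty) (hneq : A ≠ Z) :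
    ∃ x ∈ A, ∃ y ∈ Z, y ∉ A ∧ G.Adj x y := by
  by_contra hcon
  push Not at hcon
  refine hneq (hZ.eq_of_closed hAZ hne fun x hx y hy hxy => ?_)
  by_contra hy'
  exact hcon x hx y hy hy' hxy

/-- The component of `a` in `Z`. -/
def compIn (G : SimpleGraph α) (Z : Set α) (a : α) : Set α := {b | ReachIn G Z a b}

theorem mem_compIn : b ∈ compIn G Z a ↔ ReachIn G Z a b := Iff.rfl

theorem mem_compIn_self (a : α) : a ∈ compIn G Z a := ReachIn.refl a

theorem compIn_subset (ha : a ∈ Z) : compIn G Z a ⊆ Z := fun _ hb => ReachIn.mem hb ha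

theorem ReachIn.inComp (h : ReachIn G Z a b) : ReachIn G (compIn G Z a) a b := by
  induction h with
  | refl => exact ReachIn.refl _
  | tail h0 h1 ih => exact ih.tail h1.1 h0 (Relation.ReflTransGen.tail h0 h1)

theorem connIn_compIn (a : α) : ConnIn G (compIn G Z a) :=
  ConnIn.of_base a fun _ hb => ReachIn.inComp hb

theorem compIn_closed : ∀ x ∈ compIn G Z a, ∀ y ∈ Z, G.Adj x y → x ∈ Z → y ∈ compIn G Z a :=
  fun _ hx _ hy h hxZ => ReachIn.tail hx h hxZ hy

/-- A connected subset of `Z` meeting the component lies in the component. -/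
theorem ConnIn.subset_compIn (hA : ConnIn G A) (hAZ : A ⊆ Z) (hb : b ∈ A)
    (h : ReachIn G Z a b) : A ⊆ compIn G Z a := fun x hx =>
  h.trans ((hA b hb x hx).mono hAZ)

theorem compIn_eq_of_reach (h : ReachIn G Z a b) : compIn G Z a = compIn G Z b := by
  ext x
  exact ⟨fun hx => h.symm.trans hx, fun hx => h.trans hx⟩

theorem ConnIn.reach (hZ : ConnIn G Z) (ha : a ∈ Z) (hb : b ∈ Z) : ReachIn G Z a b := hZ a ha b hb

/-- `ReachIn` is realised by a finite path. -/
theorem ReachIn.exists_path (h : ReachIn G Z a b) (ha : a ∈ Z) : ∃ (n : ℕ) (p : ℕ → α), p 0 = a ∧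
    p n = b ∧ (∀ i < n, G.Adj (p i) (p (i + 1))) ∧ ∀ i ≤ n, p i ∈ Z := by
  induction h with
  | refl => exact ⟨0, fun _ => a, rfl, rfl, by simp, fun i _ => ha⟩
  | @tail c d h0 h1 ih =>
    obtain ⟨n, p, hp0, hpn, hadj, hmem⟩ := ih
    refine ⟨n + 1, fun i => if i ≤ n then p i else d, by simp [hp0], by simp, ?_, ?_⟩
    · intro i hi
      rcases Nat.lt_succ_iff_lt_or_eq.1 hi with h | rfl
      · simp only [h.le, if_true, Nat.succ_le_of_lt h]
        exact hadj i h
      · simp only [le_refl, if_true]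
        rw [if_neg (by omega), hpn]
        exact h1.1
    · intro i hi
      by_cases h : i ≤ n
      · simp only [h, if_true]
        exact hmem i h
      · simp only [h, if_false]
        exact h1.2.2

/-- `ReachIn` is realised by a finite simple path. -/
theorem ReachIn.exists_simple_path (h : ReachIn G Z a b) (ha : a ∈ Z) : ∃ (n : ℕ) (p : ℕ → α),
    p 0 = a ∧ p n = b ∧ (∀ i < n, G.Adj (p i) (p (i + 1))) ∧ (∀ i ≤ n, p i ∈ Z) ∧
    ∀ i ≤ n, ∀ j ≤ n, p i = p j → i = j := by
  classical
  have hex := h.exists_path ha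
  let P : ℕ → Prop := fun n => ∃ p : ℕ → α, p 0 = a ∧
    p n = b ∧ (∀ i < n, G.Adj (p i) (p (i + 1))) ∧ ∀ i ≤ n, p i ∈ Z
  have hP : ∃ n, P n := hex
  obtain ⟨p, hp0, hpn, hadj, hmem⟩ := Nat.find_spec hP
  refine ⟨Nat.find hP, p, hp0, hpn, hadj, hmem, ?_⟩
  set n := Nat.find hP with hn
  have key : ∀ i j, i < j → j ≤ n → p i ≠ p j := by
    intro i j hij hj heq
    -- shortcut
    have : P (n - (j - i)) := by
      refine ⟨fun k => if k ≤ i then p k else p (k + (j - i)), by simp [hp0], ?_, ?_, ?_⟩
      · by_cases hk : n - (j - i) ≤ i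
        · have : n - (j - i) = i := by omega
          have hjn : j = n := by omega
          simp only [this, le_refl, if_true]
          rw [heq, hjn, hpn]
        · simp only [hk, if_false]
          have : n - (j - i) + (j - i) = n := by omega
          rw [this, hpn]
      · intro k hk
        by_cases h1 : k + 1 ≤ i
        · simp only [h1, if_true, (by omega : k ≤ i)]
          exact hadj k (by omega)
        · by_cases h2 : k ≤ i
          · have hki : k = i := by omega
            subst hki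
            simp only [le_refl, if_true, h1, if_false]
            rw [heq]
            have : k + 1 + (j - k) = j + 1 := by omega
            rw [this]
            exact hadj j (by omega)
          · simp only [h2, h1, if_false]
            have : k + 1 + (j - i) = (k + (j - i)) + 1 := by omega
            rw [this]
            exact hadj _ (by omega)
      · intro k hk
        by_cases h1 : k ≤ i
        · simp only [h1, if_true]
          exact hmem k (by omega)
        · simp only [h1, if_false]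
          exact hmem _ (by omega)
    have hle := Nat.find_min' hP this
    omega
  intro i hi j hj heq
  rcases lt_trichotomy i j with h | h | h
  · exact absurd heq (key i j h hj)
  · exact h
  · exact absurd heq.symm (key j i h hi)

/-- A finite path gives reachability. -/
theorem ReachIn.of_path {n : ℕ} {p : ℕ → α} (hadj : ∀ i < n, G.Adj (p i) (p (i + 1)))
    (hmem : ∀ i ≤ n, p i ∈ Z) {i j : ℕ} (hi : i ≤ n) (hj : j ≤ n) : ReachIn G Z (p i) (p j) := by
  have key : ∀ k ≤ n, ReachIn G Z (p 0) (p k) := by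
    intro k
    induction k with
    | zero => intro _; exact ReachIn.refl _
    | succ k ih =>
      intro hk
      exact (ih (by omega)).tail (hadj k (by omega)) (hmem k (by omega)) (hmem _ hk)
  exact (key i hi).symm.trans (key j hj)

/-- Maps carrying adjacency inside `Z` to reachability inside `W`. -/
theorem ReachIn.map {H : SimpleGraph β} {W : Set β} {f : α → β} (h : ReachIn G Z a b)
    (hf : ∀ x ∈ Z, ∀ y ∈ Z, G.Adj x y → ReachIn H W (f x) (f y)) : ReachIn H W (f a) (f b) := by
  induction h with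
  | refl => exact ReachIn.refl _
  | tail _ h1 ih => exact ih.trans (hf _ h1.2.1 _ h1.2.2 h1.1)

/-- If the blobs `m b` are connected and the blobs of adjacent elements are adjacent, then the union
of the blobs of a connected set is connected. -/
theorem ConnIn.blobs {H : SimpleGraph β} (m : β → Set α) {W : Set β} (hW : ConnIn H W)
    (hc : ∀ b ∈ W, ConnIn G (m b))
    (hadj : ∀ b ∈ W, ∀ b' ∈ W, H.Adj b b' → ∃ x ∈ m b, ∃ y ∈ m b', G.Adj x y) :
    ConnIn G (⋃ b ∈ W, m b) := by
  intro x hx y hy
  obtain ⟨b, hb, hx⟩ := mem_iUnion₂.1 hx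
  obtain ⟨b', hb', hy⟩ := mem_iUnion₂.1 hy
  have hsub : ∀ b ∈ W, m b ⊆ ⋃ b ∈ W, m b := fun b hb => subset_biUnion_of_mem (u := m) hb
  have key : ∀ d, ReachIn H W b d → d ∈ W → ∀ y ∈ m d, ReachIn G (⋃ b ∈ W, m b) x y := by
    intro d hd
    induction hd with
    | refl => intro _ y hy; exact (hc b hb x hx y hy).mono (hsub b hb)
    | @tail c d h0 h1 ih =>
      intro _ y hy
      obtain ⟨u, hu, v, hv, huv⟩ := hadj c h1.2.1 d h1.2.2 h1.1
      exact ((ih h1.2.1 u hu).tail huv (hsub c h1.2.1 hu) (hsub d h1.2.2 hv)).trans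
        ((hc d h1.2.2 v hv y hy).mono (hsub d h1.2.2))
  exact key b' (hW b hb b' hb') hb' y hy

/-- Minors of strongly planar graphs are strongly planar. -/
theorem StrongPlanar.minor {H : SimpleGraph β} (hG : StrongPlanar G) (m : β → Set α)
    (hne : ∀ b, (m b).Nonempty) (hc : ∀ b, ConnIn G (m b))
    (hd : ∀ b b', b ≠ b' → Disjoint (m b) (m b'))
    (hadj : ∀ b b', H.Adj b b' → ∃ x ∈ m b, ∃ y ∈ m b', G.Adj x y) : StrongPlanar H := by
  have hconn : ∀ W : Set β, ConnIn H W → ConnIn G (⋃ b ∈ W, m b) := fun W hW =>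
    hW.blobs m (fun b _ => hc b) (fun b _ b' _ h => hadj b b' h)
  have hdisj : ∀ W W' : Set β, Disjoint W W' → Disjoint (⋃ b ∈ W, m b) (⋃ b ∈ W', m b) := by
    intro W W' h
    rw [Set.disjoint_left]
    intro x hx hx'
    obtain ⟨b, hb, hx⟩ := mem_iUnion₂.1 hx
    obtain ⟨b', hb', hx'⟩ := mem_iUnion₂.1 hx'
    by_cases hbb : b = b'
    · subst hbb
      exact Set.disjoint_left.1 h hb hb'
    · exact Set.disjoint_left.1 (hd b b' hbb) hx hx'
  choose r hr using hne
  constructor
  · intro c Z h1 h2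
    refine hG.noK5 (fun i => r (c i)) (fun i j => ⋃ b ∈ Z i j, m b) ?_ ?_
    · intro i j hij
      obtain ⟨h3, h4, h5⟩ := h1 i j hij
      exact ⟨mem_biUnion h3 (hr _), mem_biUnion h4 (hr _), hconn _ h5⟩
    · intro i j k l hij hkl a1 a2 a3 a4
      exact hdisj _ _ (h2 i j k l hij hkl a1 a2 a3 a4)
  · intro a b Z h1 h2
    refine hG.noK33 (fun i => r (a i)) (fun i => r (b i)) (fun i j => ⋃ b ∈ Z i j, m b) ?_ ?_
    · intro i j
      obtain ⟨h3, h4, h5⟩ := h1 i j
      exact ⟨mem_biUnion h3 (hr _), mem_biUnion h4 (hr _), hconn _ h5⟩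
    · intro i j k l a1 a2
      exact hdisj _ _ (h2 i j k l a1 a2)

end

end Pool.Agent.CT
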