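import Pool.Agent.CT.BDefs

set_option autoImplicit false

/-! # G5: counting theorem for locally finite families of polygons -/

namespace Pool.Agent.CT

open Set Metric Filter Topology

/-- A convex open set of the plane minus a countable set is preconnected. -/
theorem cG5_preconn {W : Set ℂ} (hW : IsOpen W) (hc : Convex ℝ W) {s : Set ℂ}
    (hs : s.Countable) : IsPreconnected (W \ s) := by
  apply isPreconnected_of_forall_pair
  intro a ha b hb
  rcases eq_or_ne a b with rfl | hab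
  · exact ⟨{a}, singleton_subset_iff.mpr ha, rfl, rfl, isPreconnected_singleton⟩
  have h : 1 < Module.rank ℝ ℂ := by
    rw [Complex.rank_real_complex]
    exact Cardinal.one_lt_two
  let c := (2 : ℝ)⁻¹ • (a + b)
  let x := (2 : ℝ)⁻¹ • (b - a)
  have Ia : c - x = a := by
    simp only [c, x]
    module
  have Ib : c + x = b := by
    simp only [c, x]
    module
  have hcW : c ∈ W := by
    have : c = (2 : ℝ)⁻¹ • a + (2 : ℝ)⁻¹ • b := by simp only [c]; module
    rw [this]
    exact hc ha.1 hb.1 (by norm_num) (by norm_num) (by norm_num)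
  have x_ne_zero : x ≠ 0 := by simpa [x] using sub_ne_zero.2 hab.symm
  obtain ⟨y, hy⟩ : ∃ y, LinearIndependent ℝ ![x, y] :=
    exists_linearIndependent_pair_of_one_lt_rank h x_ne_zero
  have A : Set.Countable {t : ℝ | (segment ℝ (c + x) (c + t • y) ∩ s).Nonempty} := by
    apply countable_ofPred_nonempty_of_disjoint _ (fun t ↦ inter_subset_right) hs
    intro t t' htt'
    apply disjoint_iff_inter_eq_empty.2
    have N : {c + x} ∩ s = ∅ := by
      simpa only [singleton_inter_eq_empty, Ib] using hb.2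
    rw [inter_assoc, inter_comm s, inter_assoc, inter_self, ← inter_assoc, ← subset_empty_iff, ← N]
    apply inter_subset_inter_left
    apply Eq.subset
    apply segment_inter_eq_endpoint_of_linearIndependent_of_ne hy htt'.symm
  have B : Set.Countable {t : ℝ | (segment ℝ (c - x) (c + t • y) ∩ s).Nonempty} := by
    apply countable_ofPred_nonempty_of_disjoint _ (fun t ↦ inter_subset_right) hs
    intro t t' htt'
    apply disjoint_iff_inter_eq_empty.2
    have N : {c - x} ∩ s = ∅ := by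
      simpa only [singleton_inter_eq_empty, Ia] using ha.2
    rw [inter_assoc, inter_comm s, inter_assoc, inter_self, ← inter_assoc, ← subset_empty_iff, ← N]
    apply inter_subset_inter_left
    rw [sub_eq_add_neg _ x]
    apply Eq.subset
    apply segment_inter_eq_endpoint_of_linearIndependent_of_ne _ htt'.symm
    convert! hy.units_smul ![-1, 1]
    simp [← List.ofFn_inj]
  have hopen : IsOpen {t : ℝ | c + t • y ∈ W} :=
    hW.preimage (by fun_prop)
  have hne : {t : ℝ | c + t • y ∈ W}.Nonempty := ⟨0, by simpa using hcW⟩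
  obtain ⟨t, htW, ht⟩ : Set.Nonempty ({t : ℝ | c + t • y ∈ W} ∩
      ({t : ℝ | (segment ℝ (c + x) (c + t • y) ∩ s).Nonempty}
      ∪ {t : ℝ | (segment ℝ (c - x) (c + t • y) ∩ s).Nonempty})ᶜ) :=
    ((A.union B).dense_compl ℝ).inter_open_nonempty _ hopen hne
  simp only [compl_union, mem_inter_iff, mem_compl_iff, mem_ofPred_eq, not_nonempty_iff_eq_empty]
    at ht
  rw [Ia, Ib] at ht
  have htW' : c + t • y ∈ W := htW
  refine ⟨segment ℝ b (c + t • y) ∪ segment ℝ a (c + t • y), ?_, ?_, ?_, ?_⟩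
  · apply union_subset
    · intro z hz
      refine ⟨hc.segment_subset hb.1 htW' hz, fun hzs => ?_⟩
      have : z ∈ segment ℝ b (c + t • y) ∩ s := ⟨hz, hzs⟩
      rw [ht.1] at this
      exact this
    · intro z hz
      refine ⟨hc.segment_subset ha.1 htW' hz, fun hzs => ?_⟩
      have : z ∈ segment ℝ a (c + t • y) ∩ s := ⟨hz, hzs⟩
      rw [ht.2] at this
      exact this
  · exact Or.inr (left_mem_segment ℝ _ _)
  · exact Or.inl (left_mem_segment ℝ _ _)
  · exact IsPreconnected.union (c + t • y) (right_mem_segment ℝ _ _) (right_mem_segment ℝ _ _)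
      (convex_segment _ _).isPreconnected (convex_segment _ _).isPreconnected

/-! ### Half discs -/

theorem cG5_dir_add (w z z' : ℂ) (t : ℝ) : dir w (z + (t : ℂ) * z') = dir w z + t * dir w z' := by
  simp [dir]
  ring

theorem cG5_dir_self (w : ℂ) : dir w w = ‖w‖ ^ 2 := by
  rw [Complex.sq_norm, Complex.normSq_apply]
  rfl

theorem cG5_dir_cont (w : ℂ) : Continuous (dir w) := by
  unfold dir
  exact (continuous_const.mul Complex.continuous_re).add
    (continuous_const.mul Complex.continuous_im)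

theorem cG5_dir_convex (w : ℂ) (c : ℝ) : Convex ℝ {z | dir w z ≤ c} := by
  intro a ha b hb s t hs ht hst
  have h1 : dir w (s • a + t • b) = s * dir w a + t * dir w b := by
    simp [dir]
    ring
  show dir w (s • a + t • b) ≤ c
  rw [h1]
  have ha' : dir w a ≤ c := ha
  have hb' : dir w b ≤ c := hb
  calc s * dir w a + t * dir w b ≤ s * c + t * c :=
        add_le_add (mul_le_mul_of_nonneg_left ha' hs) (mul_le_mul_of_nonneg_left hb' ht)
    _ = c := by rw [← add_mul, hst, one_mul]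

theorem cG5_dir_convex' (w : ℂ) (c : ℝ) : Convex ℝ {z | dir w z < c} := by
  intro a ha b hb s t hs ht hst
  have h1 : dir w (s • a + t • b) = s * dir w a + t * dir w b := by
    simp [dir]
    ring
  show dir w (s • a + t • b) < c
  rw [h1]
  have ha' : dir w a < c := ha
  have hb' : dir w b < c := hb
  rcases eq_or_lt_of_le hs with h0 | h0
  · rw [← h0] at hst ⊢
    have : t = 1 := by linarith
    rw [this]
    linarith
  · have : s * dir w a < s * c := mul_lt_mul_of_pos_left ha' h0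
    have h2 : t * dir w b ≤ t * c := mul_le_mul_of_nonneg_left hb'.le ht
    calc s * dir w a + t * dir w b < s * c + t * c := by linarith
      _ = c := by rw [← add_mul, hst, one_mul]

/-- Interior points of a set in a closed half plane are in the open half plane. -/
theorem cG5_int_lt {P : Set ℂ} {w : ℂ} (hw : w ≠ 0) {c : ℝ} (hP : P ⊆ {z | dir w z ≤ c}) {y : ℂ}
    (hy : y ∈ interior P) : dir w y < c := by
  obtain ⟨δ, hδ, hb⟩ := Metric.isOpen_iff.mp isOpen_interior y hy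
  have hn : 0 < ‖w‖ := norm_pos_iff.mpr hw
  have hmem : y + ((δ / (2 * ‖w‖) : ℝ) : ℂ) * w ∈ ball y δ := by
    rw [mem_ball, dist_eq_norm, add_sub_cancel_left, norm_mul, Complex.norm_real,
      Real.norm_of_nonneg (by positivity)]
    have : δ / (2 * ‖w‖) * ‖w‖ = δ / 2 := by field_simp
    rw [this]
    linarith
  have h1 : dir w (y + ((δ / (2 * ‖w‖) : ℝ) : ℂ) * w) ≤ c := hP (interior_subset (hb hmem))
  rw [cG5_dir_add, cG5_dir_self] at h1
  have h2 : 0 < δ / (2 * ‖w‖) * ‖w‖ ^ 2 := by positivity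
  linarith

/-- Half disc lemma. -/
theorem cG5_half {P : Set ℂ} (hc : Convex ℝ P) (hcl : IsClosed P) (hint : (interior P).Nonempty)
    {w : ℂ} (hw : w ≠ 0) {c : ℝ} (hP : P ⊆ {z | dir w z ≤ c}) {x : ℂ} (hx : x ∈ P) {ρ : ℝ}
    (hρ : 0 < ρ) (hfr : frontier P ∩ ball x ρ ⊆ {z | dir w z = c}) :
    ball x ρ ∩ {z | dir w z < c} ⊆ interior P ∧ ball x ρ ∩ {z | dir w z = c} ⊆ P := by
  have hn : 0 < ‖w‖ := norm_pos_iff.mpr hw
  have hcc : closure (interior P) = P := by
    rw [hc.closure_interior_eq_closure_of_nonempty_interior hint, hcl.closure_eq]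
  have h1 : ball x ρ ∩ {z | dir w z < c} ⊆ interior P := by
    have hpre : IsPreconnected (ball x ρ ∩ {z | dir w z < c}) :=
      ((convex_ball x ρ).inter (cG5_dir_convex' w c)).isPreconnected
    refine hpre.subset_left_of_subset_union isOpen_interior hcl.isOpen_compl ?_ ?_ ?_
    · exact disjoint_compl_right.mono_left interior_subset
    · intro z hz
      by_cases hzP : z ∈ P
      · left
        by_contra hzi
        have : z ∈ frontier P := ⟨subset_closure hzP, hzi⟩
        have h2 : dir w z = c := hfr ⟨this, hz.1⟩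
        have h3 : dir w z < c := hz.2
        exact absurd h2 h3.ne
      · exact Or.inr hzP
    · have hx' : x ∈ closure (interior P) := hcc.symm ▸ hx
      obtain ⟨y, hy, hxy⟩ := Metric.mem_closure_iff.mp hx' ρ hρ
      refine ⟨y, ⟨?_, cG5_int_lt hw hP hy⟩, hy⟩
      rw [mem_ball, dist_comm]
      exact hxy
  refine ⟨h1, ?_⟩
  rintro z ⟨hz, hzc⟩
  have hzc' : dir w z = c := hzc
  rw [← hcc]
  rw [Metric.mem_closure_iff]
  intro ε hε
  have hzx : dist z x < ρ := hz
  set t : ℝ := min ε (ρ - dist z x) / (2 * ‖w‖) with ht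
  have hm : 0 < min ε (ρ - dist z x) := lt_min hε (by linarith)
  have htpos : 0 < t := by positivity
  have htw : t * ‖w‖ = min ε (ρ - dist z x) / 2 := by
    rw [ht]
    field_simp
  have hd : dist z (z + ((-t : ℝ) : ℂ) * w) = t * ‖w‖ := by
    rw [dist_eq_norm, sub_add_cancel_left, norm_neg, norm_mul, Complex.norm_real, norm_neg,
      Real.norm_of_nonneg htpos.le]
  refine ⟨z + ((-t : ℝ) : ℂ) * w, h1 ⟨?_, ?_⟩, ?_⟩
  · rw [mem_ball]
    calc dist (z + ((-t : ℝ) : ℂ) * w) x ≤ dist (z + ((-t : ℝ) : ℂ) * w) z + dist z x :=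
          dist_triangle _ _ _
      _ = t * ‖w‖ + dist z x := by rw [dist_comm (z + ((-t : ℝ) : ℂ) * w) z, hd]
      _ < ρ := by
        rw [htw]
        have := min_le_right ε (ρ - dist z x)
        linarith
  · show dir w (z + ((-t : ℝ) : ℂ) * w) < c
    rw [cG5_dir_add, cG5_dir_self, hzc']
    have : 0 < t * ‖w‖ ^ 2 := by positivity
    linarith
  · rw [hd, htw]
    have := min_le_left ε (ρ - dist z x)
    linarith

theorem cG5_dir_neg (w z : ℂ) : dir (-w) z = -dir w z := by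
  simp [dir]
  ring

/-! ### Polygons and segments -/

section faces

variable {V E F : Type} {M : Inc V E F} {φ : V → ℂ}

theorem cG5_closed {f : F} (h : FaceOK M φ f) : IsClosed (poly M φ f) :=
  (h.fin.image φ).isClosed_convexHull ℝ

theorem cG5_seg_sub {e : E} {f : F} (h : M.ef e f) : seg M φ e ⊆ poly M φ f :=
  convexHull_mono (image_mono fun _ hv => ⟨e, hv, h⟩)

theorem cG5_seg_fr {e : E} {f : F} (hf : FaceOK M φ f) (h : M.ef e f) :
    seg M φ e ⊆ frontier (poly M φ f) := by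
  rw [hf.bdry]
  exact subset_biUnion_of_mem (u := fun e => seg M φ e) h

theorem cG5_seg_closed {e : E} (he : ∃ u v, u ≠ v ∧ ∀ w, M.ve w e ↔ (w = u ∨ w = v)) :
    IsClosed (seg M φ e) := by
  obtain ⟨u, v, _, h⟩ := he
  have : {w | M.ve w e}.Finite := by
    refine (Set.toFinite {u, v}).subset fun w hw => ?_
    exact (h w).mp hw
  exact (this.image φ).isClosed_convexHull ℝ

theorem cG5_edges_fin {f : F} (hf : FaceOK M φ f)
    (hE : ∀ e, ∃ u v, u ≠ v ∧ ∀ w, M.ve w e ↔ (w = u ∨ w = v)) : {e | M.ef e f}.Finite := by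
  refine Set.Finite.of_injOn (f := fun e => {v | M.ve v e}) (t := {b | b ⊆ {v | M.vf v f}}) ?_ ?_
    hf.fin.finite_subsets
  · intro e he v hv
    exact ⟨e, hv, he⟩
  · intro e he d hd hed
    by_contra hne
    obtain ⟨u, v, huv, h⟩ := hE e
    have hed' : {v | M.ve v e} = {v | M.ve v d} := hed
    have hset : {w | M.ve w e} = {u, v} := by
      ext w
      exact h w
    have hs : seg M φ e = segment ℝ (φ u) (φ v) := by
      unfold seg
      rw [hset, image_pair, convexHull_pair]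
    have hs' : seg M φ d = segment ℝ (φ u) (φ v) := by
      unfold seg
      rw [← hed', hset, image_pair, convexHull_pair]
    have hm : midpoint ℝ (φ u) (φ v) ∈ segment ℝ (φ u) (φ v) := midpoint_mem_segment _ _
    obtain ⟨w, hw, hwm⟩ := hf.seg_inter e d he hd hne ⟨hs ▸ hm, hs' ▸ hm⟩
    have hφ : φ u ≠ φ v := hf.ne e u v he ((h u).mpr (Or.inl rfl)) ((h v).mpr (Or.inr rfl)) huv
    rcases (h w).mp hw.1 with rfl | rfl
    · exact hφ ((left_eq_midpoint_iff ℝ).mp hwm)
    · exact hφ ((right_eq_midpoint_iff ℝ).mp hwm)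

theorem cG5_unique {f : F} (hf : FaceOK M φ f) {x : ℂ} (hx : x ∉ range φ) {e d : E}
    (he : M.ef e f) (hd : M.ef d f) (hxe : x ∈ seg M φ e) (hxd : x ∈ seg M φ d) : e = d := by
  by_contra hne
  obtain ⟨v, _, hv⟩ := hf.seg_inter e d he hd hne ⟨hxe, hxd⟩
  exact hx ⟨v, hv⟩

theorem cG5_loc {f : F} (hf : FaceOK M φ f)
    (hE : ∀ e, ∃ u v, u ≠ v ∧ ∀ w, M.ve w e ↔ (w = u ∨ w = v)) {x : ℂ} (hx : x ∉ range φ) {e : E}
    (he : M.ef e f) (hxe : x ∈ seg M φ e) :
    ∃ ρ > 0, frontier (poly M φ f) ∩ ball x ρ ⊆ seg M φ e := by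
  have hcl : IsClosed (⋃ d ∈ {d | M.ef d f ∧ d ≠ e}, seg M φ d) :=
    ((cG5_edges_fin hf hE).subset fun d hd => hd.1).isClosed_biUnion fun d _ =>
      cG5_seg_closed (hE d)
  have hxn : x ∈ (⋃ d ∈ {d | M.ef d f ∧ d ≠ e}, seg M φ d)ᶜ := by
    intro h
    simp only [mem_iUnion] at h
    obtain ⟨d, hd, hxd⟩ := h
    exact hd.2 (cG5_unique hf hx hd.1 he hxd hxe)
  obtain ⟨ρ, hρ, hb⟩ := Metric.isOpen_iff.mp hcl.isOpen_compl x hxn
  refine ⟨ρ, hρ, ?_⟩
  rintro y ⟨hy, hyb⟩
  rw [hf.bdry] at hy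
  simp only [mem_iUnion] at hy
  obtain ⟨d, hd, hyd⟩ := hy
  by_cases hde : d = e
  · exact hde ▸ hyd
  · exfalso
    refine hb hyb ?_
    simp only [mem_iUnion]
    exact ⟨d, ⟨hd, hde⟩, hyd⟩

open Classical in
/-- The contribution of the face `f` at the point `y`. -/
noncomputable def cG5n (M : Inc V E F) (φ : V → ℂ) (f : F) (y : ℂ) : ℕ :=
  (if y ∈ interior (poly M φ f) then 1 else 0) + (if y ∈ poly M φ f then 1 else 0)

theorem cG5n_out {f : F} {y : ℂ} (h : y ∉ poly M φ f) : cG5n M φ f y = 0 := by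
  unfold cG5n
  rw [if_neg h, if_neg fun h' => h (interior_subset h')]

theorem cG5n_in {f : F} {y : ℂ} (h : y ∈ interior (poly M φ f)) : cG5n M φ f y = 2 := by
  unfold cG5n
  rw [if_pos h, if_pos (interior_subset h)]

theorem cG5n_bd {f : F} {y : ℂ} (h : y ∈ poly M φ f) (h' : y ∉ interior (poly M φ f)) :
    cG5n M φ f y = 1 := by
  unfold cG5n
  rw [if_pos h, if_neg h']

/-- One side. -/
theorem cG5_side {f : F} (hf : FaceOK M φ f)
    (hE : ∀ e, ∃ u v, u ≠ v ∧ ∀ w, M.ve w e ↔ (w = u ∨ w = v)) {x : ℂ} (hx : x ∉ range φ) {e : E}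
    (he : M.ef e f) (hxe : x ∈ seg M φ e) {w : ℂ} (hw : w ≠ 0) {c : ℝ}
    (h1 : ∀ v, M.ve v e → dir w (φ v) = c) (h2 : ∀ v, M.vf v f → dir w (φ v) ≤ c) :
    ∀ᶠ y in 𝓝 x, (dir w y < c → cG5n M φ f y = 2) ∧ (dir w y = c → cG5n M φ f y = 1) ∧
      (c < dir w y → cG5n M φ f y = 0) := by
  obtain ⟨ρ, hρ, hfr⟩ := cG5_loc hf hE hx he hxe
  have hP : poly M φ f ⊆ {z | dir w z ≤ c} := by
    refine convexHull_min ?_ (cG5_dir_convex w c)
    rintro _ ⟨v, hv, rfl⟩
    exact h2 v hv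
  have hseg : seg M φ e ⊆ {z | dir w z = c} := by
    have a1 : seg M φ e ⊆ {z | dir w z ≤ c} := by
      refine convexHull_min ?_ (cG5_dir_convex w c)
      rintro _ ⟨v, hv, rfl⟩
      exact (h1 v hv).le
    have a2 : seg M φ e ⊆ {z | dir (-w) z ≤ -c} := by
      refine convexHull_min ?_ (cG5_dir_convex (-w) (-c))
      rintro _ ⟨v, hv, rfl⟩
      show dir (-w) (φ v) ≤ -c
      rw [cG5_dir_neg, h1 v hv]
    intro z hz
    have b1 : dir w z ≤ c := a1 hz
    have b2 : dir (-w) z ≤ -c := a2 hz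
    rw [cG5_dir_neg] at b2
    exact le_antisymm b1 (by linarith)
  obtain ⟨k1, k2⟩ := cG5_half (convex_convexHull ℝ _) (cG5_closed hf) hf.int hw hP
    (cG5_seg_sub he hxe) hρ (hfr.trans hseg)
  filter_upwards [ball_mem_nhds x hρ] with y hy
  refine ⟨fun h => cG5n_in (k1 ⟨hy, h⟩), fun h => cG5n_bd (k2 ⟨hy, h⟩) fun h' => ?_,
    fun h => cG5n_out fun h' => ?_⟩
  · have := cG5_int_lt hw hP h'
    linarith
  · have : dir w y ≤ c := hP h'
    linarith

theorem cG5_pair {f g : F} (hf : FaceOK M φ f) (hg : FaceOK M φ g)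
    (hE : ∀ e, ∃ u v, u ≠ v ∧ ∀ w, M.ve w e ↔ (w = u ∨ w = v)) {x : ℂ} (hx : x ∉ range φ) {e : E}
    (hef : M.ef e f) (heg : M.ef e g) (hxe : x ∈ seg M φ e) (hO : Opp M φ e f g) :
    ∀ᶠ y in 𝓝 x, cG5n M φ f y + cG5n M φ g y = 2 := by
  obtain ⟨w, c, hw, h1, h2, h3⟩ := hO
  have A := cG5_side hf hE hx hef hxe hw h1 h2
  have B := cG5_side hg hE hx heg hxe (neg_ne_zero.mpr hw) (c := -c)
    (fun v hv => by rw [cG5_dir_neg, h1 v hv]) (fun v hv => by
      rw [cG5_dir_neg]
      have := h3 v hv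
      linarith)
  filter_upwards [A, B] with y hA hB
  simp only [cG5_dir_neg] at hB
  rcases lt_trichotomy (dir w y) c with h | h | h
  · rw [hA.1 h, hB.2.2 (by linarith)]
  · rw [hA.2.1 h, hB.2.1 (by linarith)]
  · rw [hA.2.2 h, hB.1 (by linarith)]

/-- The number of polygons containing a point, interior points count twice. -/
noncomputable def cG5N (M : Inc V E F) (φ : V → ℂ) (y : ℂ) : ℕ :=
  {f | y ∈ interior (poly M φ f)}.ncard + {f | y ∈ poly M φ f}.ncard

theorem cG5N_eq (T : Finset F) (y : ℂ) (h : ∀ f, y ∈ poly M φ f → f ∈ T) :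
    cG5N M φ y = ∑ f ∈ T, cG5n M φ f y := by
  classical
  have e1 : {f | y ∈ poly M φ f} = ↑(T.filter fun f => y ∈ poly M φ f) := by
    ext f
    simp only [mem_ofPred_eq, Finset.coe_filter]
    exact ⟨fun h' => ⟨h f h', h'⟩, fun h' => h'.2⟩
  have e2 : {f | y ∈ interior (poly M φ f)} =
      ↑(T.filter fun f => y ∈ interior (poly M φ f)) := by
    ext f
    simp only [mem_ofPred_eq, Finset.coe_filter]
    exact ⟨fun h' => ⟨h f (interior_subset h'), h'⟩, fun h' => h'.2⟩
  unfold cG5N cG5n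
  rw [e1, e2, ncard_coe_finset, ncard_coe_finset, Finset.sum_add_distrib, Finset.card_filter,
    Finset.card_filter]

theorem cG5_const [Nonempty F] (hF : ∀ f, FaceOK M φ f)
    (hE : ∀ e, ∃ u v, u ≠ v ∧ ∀ w, M.ve w e ↔ (w = u ∨ w = v)) {x : ℂ} (hx : x ∉ range φ)
    (hfin : ∃ r > 0, {f | (poly M φ f ∩ closedBall x r).Nonempty}.Finite)
    (hO : ∀ e, x ∈ seg M φ e → ∃ f g, f ≠ g ∧ (∀ h, M.ef e h ↔ (h = f ∨ h = g)) ∧
      Opp M φ e f g) :
    ∀ᶠ y in 𝓝 x, cG5N M φ y = cG5N M φ x := by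
  classical
  obtain ⟨r, hr, hT⟩ := hfin
  have hA : ∀ y ∈ ball x r, ∀ f, y ∈ poly M φ f → f ∈ hT.toFinset := by
    intro y hy f hf
    rw [Set.Finite.mem_toFinset]
    exact ⟨y, hf, ball_subset_closedBall hy⟩
  -- the partner of a face with `x` in its frontier
  have hP : ∀ f, x ∈ frontier (poly M φ f) → ∃ g, ∃ e, M.ef e f ∧ x ∈ seg M φ e ∧ f ≠ g ∧
      (∀ h, M.ef e h ↔ (h = f ∨ h = g)) ∧ ∀ᶠ y in 𝓝 x, cG5n M φ f y + cG5n M φ g y = 2 := by
    intro f hf
    rw [(hF f).bdry] at hf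
    simp only [mem_iUnion] at hf
    obtain ⟨e, he, hxe⟩ := hf
    obtain ⟨f', g', hne, hfg, hopp⟩ := hO e hxe
    have hef' : M.ef e f' := (hfg f').mpr (Or.inl rfl)
    have heg' : M.ef e g' := (hfg g').mpr (Or.inr rfl)
    have hp := cG5_pair (hF f') (hF g') hE hx hef' heg' hxe hopp
    rcases (hfg f).mp he with rfl | rfl
    · exact ⟨g', e, he, hxe, hne, hfg, hp⟩
    · refine ⟨f', e, he, hxe, hne.symm, fun h => (hfg h).trans or_comm, ?_⟩
      filter_upwards [hp] with y hy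
      rw [add_comm]
      exact hy
  choose! σ hσ using hP
  have hσfr : ∀ f, x ∈ frontier (poly M φ f) → x ∈ frontier (poly M φ (σ f)) := by
    intro f hf
    obtain ⟨e, _, hxe, _, hfg, _⟩ := hσ f hf
    exact cG5_seg_fr (hF _) ((hfg _).mpr (Or.inr rfl)) hxe
  have hσσ : ∀ f, x ∈ frontier (poly M φ f) → σ (σ f) = f := by
    intro f hf
    obtain ⟨e, hef, hxe, hne, hfg, _⟩ := hσ f hf
    obtain ⟨e', hef', hxe', hne', hfg', _⟩ := hσ (σ f) (hσfr f hf)
    have hee : e = e' :=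
      cG5_unique (hF (σ f)) hx ((hfg _).mpr (Or.inr rfl)) hef' hxe hxe'
    subst hee
    rcases (hfg' f).mp hef with h | h
    · exact absurd h hne
    · exact h.symm
  set S := hT.toFinset.filter fun f => x ∈ frontier (poly M φ f) with hS
  have hxmem : ∀ f, x ∈ frontier (poly M φ f) → f ∈ S := by
    intro f hf
    rw [hS, Finset.mem_filter]
    refine ⟨hA x (mem_ball_self hr) f ?_, hf⟩
    have : x ∈ closure (poly M φ f) := frontier_subset_closure hf
    rwa [(cG5_closed (hF f)).closure_eq] at this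
  have hSfr : ∀ f ∈ S, x ∈ frontier (poly M φ f) := fun f hf => (Finset.mem_filter.mp hf).2
  have hev1 : ∀ᶠ y in 𝓝 x, ∀ f ∈ S, cG5n M φ f y + cG5n M φ (σ f) y = 2 := by
    rw [Filter.eventually_all_finset]
    intro f hf
    obtain ⟨e, _, _, _, _, h⟩ := hσ f (hSfr f hf)
    exact h
  have hev2 : ∀ᶠ y in 𝓝 x, ∀ f ∈ hT.toFinset.filter (fun f => ¬ x ∈ frontier (poly M φ f)),
      cG5n M φ f y = cG5n M φ f x := by
    rw [Filter.eventually_all_finset]
    intro f hf
    have hf' := (Finset.mem_filter.mp hf).2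
    by_cases hxf : x ∈ poly M φ f
    · have hxi : x ∈ interior (poly M φ f) := by
        by_contra h
        exact hf' ⟨subset_closure hxf, h⟩
      filter_upwards [isOpen_interior.mem_nhds hxi] with y hy
      rw [cG5n_in hy, cG5n_in hxi]
    · filter_upwards [(cG5_closed (hF f)).isOpen_compl.mem_nhds hxf] with y hy
      rw [cG5n_out hy, cG5n_out hxf]
  have hsum : ∀ y, (∀ f ∈ S, cG5n M φ f y + cG5n M φ (σ f) y = 2) →
      2 * ∑ f ∈ S, cG5n M φ f y = 2 * S.card := by
    intro y hy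
    have h1 : ∑ f ∈ S, cG5n M φ f y = ∑ f ∈ S, cG5n M φ (σ f) y := by
      refine Finset.sum_bij' (fun f _ => σ f) (fun f _ => σ f) ?_ ?_ ?_ ?_ ?_
      · intro f hf
        exact hxmem _ (hσfr f (hSfr f hf))
      · intro f hf
        exact hxmem _ (hσfr f (hSfr f hf))
      · intro f hf
        exact hσσ f (hSfr f hf)
      · intro f hf
        exact hσσ f (hSfr f hf)
      · intro f hf
        rw [hσσ f (hSfr f hf)]
    have h2 : ∑ f ∈ S, (cG5n M φ f y + cG5n M φ (σ f) y) = ∑ f ∈ S, 2 :=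
      Finset.sum_congr rfl hy
    rw [Finset.sum_add_distrib, ← h1, Finset.sum_const, smul_eq_mul] at h2
    linarith
  have hx1 := hev1.self_of_nhds
  filter_upwards [hev1, hev2, ball_mem_nhds x hr] with y h1 h2 h3
  rw [cG5N_eq hT.toFinset y (hA y h3), cG5N_eq hT.toFinset x (hA x (mem_ball_self hr)),
    ← Finset.sum_filter_add_sum_filter_not hT.toFinset (fun f => x ∈ frontier (poly M φ f)),
    ← Finset.sum_filter_add_sum_filter_not hT.toFinset (fun f => x ∈ frontier (poly M φ f))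
      (fun f => cG5n M φ f x)]
  have h4 := hsum y h1
  have h5 := hsum x hx1
  have h6 : ∑ f ∈ S, cG5n M φ f y = ∑ f ∈ S, cG5n M φ f x := by omega
  rw [Finset.sum_congr rfl h2]
  rw [← hS, h6]

/-- Points near a point with finitely many polygons around. -/
theorem cG5_near (hF : ∀ f, FaceOK M φ f) {x : ℂ} {G : Set F}
    (hfin : ∃ r > 0, {f | (poly M φ f ∩ closedBall x r).Nonempty}.Finite)
    (hG : ∀ f ∈ G, x ∉ poly M φ f) : ∀ᶠ y in 𝓝 x, ∀ f ∈ G, y ∉ poly M φ f := by
  obtain ⟨r, hr, hT⟩ := hfin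
  have hev : ∀ᶠ y in 𝓝 x, ∀ f ∈ {f | (poly M φ f ∩ closedBall x r).Nonempty},
      f ∈ G → y ∉ poly M φ f := by
    rw [Filter.eventually_all_finite hT]
    intro f _
    by_cases hf : f ∈ G
    · filter_upwards [(cG5_closed (hF f)).isOpen_compl.mem_nhds (hG f hf)] with y hy _
      exact hy
    · exact Filter.Eventually.of_forall fun y h => absurd h hf
  filter_upwards [hev, ball_mem_nhds x hr] with y h1 h2 f hf hyf
  exact h1 f ⟨y, hyf, ball_subset_closedBall h2⟩ hf hyf

end faces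

theorem cG5 : Stmt_Count := by
  intro V E F _ M φ W hW hWc hF hE hfin hOpp w₀ f₀ hw₀ hint₀ hout₀
  classical
  have : Nonempty F := ⟨f₀⟩
  have hcount : (range φ).Countable := countable_range φ
  have hpre := cG5_preconn hW hWc hcount
  have hcont : ContinuousOn (cG5N M φ) (W \ range φ) := by
    intro x hx
    refine ContinuousAt.continuousWithinAt ?_
    have h := cG5_const hF hE hx.2 (hfin x hx.1) (fun e he => hOpp e ⟨x, he, hx.1⟩)
    exact (continuousAt_const (y := cG5N M φ x)).congr (h.mono fun y hy => hy.symm)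
  have hdense : ∀ O : Set ℂ, IsOpen O → O.Nonempty → ∃ y ∈ O, y ∉ range φ := by
    intro O hO hne
    obtain ⟨y, hy, hy'⟩ := (hcount.dense_compl ℝ).inter_open_nonempty O hO hne
    exact ⟨y, hy, hy'⟩
  -- the value near `w₀`
  obtain ⟨y₀, hy₀W, hy₀φ, hy₀⟩ : ∃ y ∈ W, y ∉ range φ ∧ cG5N M φ y = 2 := by
    have h1 := cG5_near hF (G := {f | f ≠ f₀}) (hfin w₀ hw₀) (fun f hf => hout₀ f hf)
    have h2 : ∀ᶠ y in 𝓝 w₀, y ∈ interior (poly M φ f₀) := isOpen_interior.mem_nhds hint₀
    have h3 : ∀ᶠ y in 𝓝 w₀, y ∈ W := hW.mem_nhds hw₀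
    obtain ⟨O, hO, hOo, hwO⟩ := _root_.eventually_nhds_iff.mp (h1.and (h2.and h3))
    obtain ⟨y, hyO, hyφ⟩ := hdense O hOo ⟨w₀, hwO⟩
    obtain ⟨k1, k2, k3⟩ := hO y hyO
    refine ⟨y, k3, hyφ, ?_⟩
    rw [cG5N_eq {f₀} y (fun f hf => ?_), Finset.sum_singleton, cG5n_in k2]
    rw [Finset.mem_singleton]
    by_contra hne
    exact k1 f hne hf
  have hN : ∀ y ∈ W, y ∉ range φ → cG5N M φ y = 2 := by
    intro y hy hyφ
    rw [← hy₀]
    exact hpre.constant hcont ⟨hy, hyφ⟩ ⟨hy₀W, hy₀φ⟩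
  constructor
  · intro w hw
    by_contra hcon
    push Not at hcon
    have h1 := cG5_near hF (G := univ) (hfin w hw) (fun f _ => hcon f)
    have h3 : ∀ᶠ y in 𝓝 w, y ∈ W := hW.mem_nhds hw
    obtain ⟨O, hO, hOo, hwO⟩ := _root_.eventually_nhds_iff.mp (h1.and h3)
    obtain ⟨y, hyO, hyφ⟩ := hdense O hOo ⟨w, hwO⟩
    obtain ⟨k1, k3⟩ := hO y hyO
    have := hN y k3 hyφ
    rw [cG5N_eq ∅ y (fun f hf => absurd hf (k1 f (mem_univ f)))] at this
    simp at this
  · intro f g hfg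
    rw [Set.disjoint_left]
    rintro z ⟨hz, hzW⟩ hzg
    have hOo : IsOpen (interior (poly M φ f) ∩ W ∩ interior (poly M φ g)) :=
      (isOpen_interior.inter hW).inter isOpen_interior
    obtain ⟨y, ⟨⟨hyf, hyW⟩, hyg⟩, hyφ⟩ := hdense _ hOo ⟨z, ⟨hz, hzW⟩, hzg⟩
    have h2 := hN y hyW hyφ
    obtain ⟨r, hr, hT⟩ := hfin y hyW
    have hA : ∀ f, y ∈ poly M φ f → f ∈ hT.toFinset := by
      intro f hf
      rw [Set.Finite.mem_toFinset]
      exact ⟨y, hf, mem_closedBall_self hr.le⟩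
    rw [cG5N_eq hT.toFinset y hA] at h2
    have h3 : ∑ h ∈ {f, g}, cG5n M φ h y ≤ ∑ h ∈ hT.toFinset, cG5n M φ h y := by
      refine Finset.sum_le_sum_of_subset ?_
      intro h hh
      simp only [Finset.mem_insert, Finset.mem_singleton] at hh
      rcases hh with rfl | rfl
      · exact hA _ (interior_subset hyf)
      · exact hA _ (interior_subset hyg)
    rw [Finset.sum_pair hfg, cG5n_in hyf, cG5n_in hyg] at h3
    omega

end Pool.Agent.CT
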