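import Pool.Agent.CT.CDefs

set_option autoImplicit false

/-! # C2: a connected 2-regular set of edges can be enumerated -/

namespace Pool.Agent.CT

open Set

section cA

variable {V E F : Type}

/-- States: an edge of `C` with one of its vertices. -/
abbrev cASt (M : PolyMap V E F) (C : Set E) : Type := {s : V × E // s.2 ∈ C ∧ M.ve s.1 s.2}

theorem cA_other_vertex (M : PolyMap V E F) {v : V} {e : E} (h : M.ve v e) :
    ∃ u, u ≠ v ∧ ∀ w, M.ve w e ↔ (w = v ∨ w = u) := by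
  obtain ⟨a, b, hab, h1⟩ := M.edge_verts e
  rcases (h1 v).mp h with rfl | rfl
  · exact ⟨b, hab.symm, h1⟩
  · exact ⟨a, hab, fun w => (h1 w).trans or_comm⟩

/-- Exchanging the vertex of an edge. -/
theorem cA_alpha (M : PolyMap V E F) (C : Set E) : ∃ A : _root_.Equiv.Perm (cASt M C),
    A * A = 1 ∧ ∀ s, (A s).1.2 = s.1.2 ∧ (A s).1.1 ≠ s.1.1 ∧
      ∀ w, M.ve w s.1.2 ↔ (w = s.1.1 ∨ w = (A s).1.1) := by
  choose u hu1 hu2 using fun s : cASt M C => cA_other_vertex M s.2.2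
  let f : cASt M C → cASt M C := fun s => ⟨(u s, s.1.2), s.2.1, (hu2 s _).mpr (Or.inr rfl)⟩
  have hff : ∀ s, f (f s) = s := by
    intro s
    have h1 : M.ve (u (f s)) s.1.2 := (hu2 (f s) _).mpr (Or.inr rfl)
    have h2 : u (f s) ≠ u s := hu1 (f s)
    apply Subtype.ext
    apply Prod.ext
    · rcases (hu2 s _).mp h1 with h3 | h3
      · exact h3
      · exact absurd h3 h2
    · rfl
  refine ⟨⟨f, f, hff, hff⟩, ?_, fun s => ⟨rfl, hu1 s, hu2 s⟩⟩
  ext1 s
  exact hff s

/-- Exchanging the edge of `C` at a vertex. -/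
theorem cA_beta (M : PolyMap V E F) (C : Set E)
    (hC : ∀ v e, e ∈ C → M.ve v e → ∃ e', e' ≠ e ∧ ∀ d, (d ∈ C ∧ M.ve v d) ↔ (d = e ∨ d = e')) :
    ∃ B : _root_.Equiv.Perm (cASt M C),
    B * B = 1 ∧ ∀ s, (B s).1.1 = s.1.1 ∧ (B s).1.2 ≠ s.1.2 ∧
      ∀ d, (d ∈ C ∧ M.ve s.1.1 d) ↔ (d = s.1.2 ∨ d = (B s).1.2) := by
  choose u hu1 hu2 using fun s : cASt M C => hC s.1.1 s.1.2 s.2.1 s.2.2
  let f : cASt M C → cASt M C := fun s => ⟨(s.1.1, u s), (hu2 s _).mpr (Or.inr rfl)⟩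
  have hff : ∀ s, f (f s) = s := by
    intro s
    have h1 : u (f s) ∈ C ∧ M.ve s.1.1 (u (f s)) := (hu2 (f s) _).mpr (Or.inr rfl)
    have h2 : u (f s) ≠ u s := hu1 (f s)
    apply Subtype.ext
    apply Prod.ext
    · rfl
    · rcases (hu2 s _).mp h1 with h3 | h3
      · exact h3
      · exact absurd h3 h2
  refine ⟨⟨f, f, hff, hff⟩, ?_, fun s => ⟨rfl, hu1 s, hu2 s⟩⟩
  ext1 s
  exact hff s

/-- Two fixed point free involutions: an orbit of the product contains no reversed state. -/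
theorem cA_norev {S : Type} {A B : _root_.Equiv.Perm S} (hA : A * A = 1) (hB : B * B = 1)
    (hA0 : ∀ s, A s ≠ s) (hB0 : ∀ s, B s ≠ s) (s : S) (m : ℤ) : A s ≠ ((B * A) ^ m) s := by
  have hAi : A⁻¹ = A := inv_eq_of_mul_eq_one_left hA
  have hBi : B⁻¹ = B := inv_eq_of_mul_eq_one_left hB
  have h1 : A * (B * A) * A⁻¹ = (B * A)⁻¹ := by
    rw [mul_inv_rev, hBi, ← mul_assoc, mul_assoc, mul_inv_cancel, mul_one, hAi]
  have hconj : ∀ k : ℤ, A * (B * A) ^ k = (B * A) ^ (-k) * A := by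
    intro k
    have h2 := conj_zpow (i := k) (a := A) (b := B * A)
    rw [h1, inv_zpow, ← zpow_neg] at h2
    rw [h2, inv_mul_cancel_right]
  intro hs
  rcases Int.even_or_odd' m with ⟨k, rfl | rfl⟩
  · have h2 : (A * (B * A) ^ k) s = ((B * A) ^ k) s := by
      rw [hconj k, _root_.Equiv.Perm.mul_apply, hs, ← _root_.Equiv.Perm.mul_apply, ← zpow_add]
      congr 2
      ring
    exact hA0 _ h2
  · have h2 : (A * (B * A) ^ k) s = ((B * A) ^ (1 + k)) s := by
      rw [hconj k, _root_.Equiv.Perm.mul_apply, hs, ← _root_.Equiv.Perm.mul_apply, ← zpow_add]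
      congr 2
      ring
    rw [zpow_add, zpow_one] at h2
    have h3 : B (A (((B * A) ^ k) s)) = A (((B * A) ^ k) s) := h2.symm
    exact hB0 _ h3

/-- C2. -/
theorem cA_curve (h : Stmt_NoDouble) : Stmt_Curve := by
  intro V E F M C hne hC hconn
  obtain ⟨A, hAA, hA⟩ := cA_alpha M C
  obtain ⟨B, hBB, hB⟩ := cA_beta M C hC
  obtain ⟨e₀, he₀⟩ := hne
  obtain ⟨v₀, w₀, -, hv₀⟩ := M.edge_verts e₀
  let s₀ : cASt M C := ⟨(v₀, e₀), he₀, (hv₀ v₀).mpr (Or.inl rfl)⟩
  set σ : _root_.Equiv.Perm (cASt M C) := B * A with hσ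
  have hA0 : ∀ s, A s ≠ s := fun s hs => (hA s).2.1 (by rw [hs])
  have hB0 : ∀ s, B s ≠ s := fun s hs => (hB s).2.1 (by rw [hs])
  have hrev : ∀ s (m : ℤ), A s ≠ (σ ^ m) s := fun s m => cA_norev hAA hBB hA0 hB0 s m
  let st : ℤ → cASt M C := fun i => (σ ^ i) s₀
  have hst1 : ∀ i, st (i + 1) = B (A (st i)) := by
    intro i
    show (σ ^ (i + 1)) s₀ = B (A ((σ ^ i) s₀))
    rw [add_comm, zpow_add, zpow_one]
    rfl
  have hstadd : ∀ i j, st j = (σ ^ (j - i)) (st i) := by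
    intro i j
    show (σ ^ j) s₀ = (σ ^ (j - i)) ((σ ^ i) s₀)
    rw [← _root_.Equiv.Perm.mul_apply, ← zpow_add, sub_add_cancel]
  have hrev' : ∀ i j, A (st i) ≠ st j := by
    intro i j
    rw [hstadd i j]
    exact hrev _ _
  have hB1 : ∀ i, B (st (i + 1)) = A (st i) := by
    intro i
    rw [hst1 i, ← _root_.Equiv.Perm.mul_apply, hBB]
    rfl
  have hx1 : ∀ i, (st (i + 1)).1.1 = (A (st i)).1.1 := by
    intro i
    rw [hst1 i]
    exact (hB _).1
  have hve : ∀ i v, M.ve v (st i).1.2 ↔ (v = (st i).1.1 ∨ v = (st (i + 1)).1.1) := by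
    intro i v
    rw [hx1 i]
    exact (hA (st i)).2.2 v
  have hxx : ∀ i j, (st i).1.1 = (st j).1.1 ↔ st i = st j := by
    intro i j
    refine ⟨fun hij => ?_, fun hij => by rw [hij]⟩
    have h1 : (st j).1.2 ∈ C ∧ M.ve (st i).1.1 (st j).1.2 := by
      rw [hij]
      exact (st j).2
    rcases ((hB (st i)).2.2 _).mp h1 with h2 | h2
    · exact Subtype.ext (Prod.ext hij h2.symm)
    · exfalso
      have h3 : B (st i) = st j := Subtype.ext (Prod.ext ((hB _).1.trans hij) h2.symm)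
      have h4 := hB1 (i - 1)
      rw [sub_add_cancel, h3] at h4
      exact hrev' _ _ h4.symm
  have hyy : ∀ i j, (st i).1.2 = (st j).1.2 ↔ st i = st j := by
    intro i j
    refine ⟨fun hij => ?_, fun hij => by rw [hij]⟩
    have h1 : M.ve (st j).1.1 (st i).1.2 := by
      rw [hij]
      exact (st j).2.2
    rcases ((hA (st i)).2.2 _).mp h1 with h2 | h2
    · exact Subtype.ext (Prod.ext h2.symm hij)
    · exact absurd (Subtype.ext (Prod.ext h2.symm ((hA _).1.trans hij))) (hrev' i j)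
  set n : ℕ := Function.minimalPeriod (σ • ·) s₀ with hn
  have hper : ∀ i j, st i = st j ↔ (n : ℤ) ∣ i - j := by
    intro i j
    rw [hn, ← MulAction.zpow_smul_eq_iff_minimalPeriod_dvd]
    have h1 : st i = (σ ^ j) ((σ ^ (i - j)) s₀) := by
      show (σ ^ i) s₀ = _
      rw [← _root_.Equiv.Perm.mul_apply, ← zpow_add]
      congr 2
      ring
    rw [h1]
    show (σ ^ j) ((σ ^ (i - j)) s₀) = (σ ^ j) s₀ ↔ (σ ^ (i - j)) s₀ = s₀
    exact (σ ^ j).injective.eq_iff
  have h01 : ∀ i, (st (i + 1)).1.1 ≠ (st i).1.1 := by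
    intro i
    rw [hx1 i]
    exact (hA _).2.1
  refine ⟨n, fun i => (st i).1.1, fun i => (st i).1.2, ?_, ?_, ?_, ?_, hve⟩
  · -- lengths 1 and 2 are impossible
    rcases Nat.lt_or_ge n 3 with hlt | hge
    · left
      by_contra h0
      have h1 : n ≠ 1 := by
        intro h1
        have h2 := (hper 1 0).mpr (by rw [h1]; simp)
        have h3 := h01 0
        rw [zero_add, h2] at h3
        exact h3 rfl
      have h2 : n = 2 := by omega
      have h3 : st 2 = st 0 := (hper 2 0).mpr (by rw [h2]; simp)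
      have h4 : (st 1).1.2 ≠ (st 0).1.2 := by
        intro h5
        have h6 := (hyy 1 0).mp h5
        have h7 := h01 0
        rw [zero_add, h6] at h7
        exact h7 rfl
      have h5 : (st 1).1.1 ≠ (st 0).1.1 := by
        have := h01 0
        rwa [zero_add] at this
      refine h V E F M (st 1).1.2 (st 0).1.2 (st 1).1.1 (st 0).1.1 h4 h5 ?_ ?_ ?_ ?_
      · exact (hve 1 _).mpr (Or.inl rfl)
      · refine (hve 1 _).mpr (Or.inr ?_)
        rw [← h3]
        rfl
      · refine (hve 0 _).mpr (Or.inr ?_)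
        rw [zero_add]
      · exact (hve 0 _).mpr (Or.inl rfl)
    · exact Or.inr hge
  · intro i j
    exact (hxx i j).trans (hper i j)
  · intro i j
    exact (hyy i j).trans (hper i j)
  · -- every edge of `C` occurs
    have h1 : {e | ∃ i, (st i).1.2 = e} = C := by
      refine hconn _ ?_ ⟨_, 0, rfl⟩ ?_
      · rintro _ ⟨i, rfl⟩
        exact (st i).2.1
      · rintro _ ⟨i, rfl⟩ d hd ⟨v, hv, hvd⟩
        rcases (hve i v).mp hv with rfl | rfl
        · rcases ((hB (st i)).2.2 d).mp ⟨hd, hvd⟩ with h2 | h2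
          · exact ⟨i, h2.symm⟩
          · refine ⟨i - 1, ?_⟩
            have h4 := hB1 (i - 1)
            rw [sub_add_cancel] at h4
            rw [h2, h4]
            exact ((hA _).1).symm
        · rcases ((hB (st (i + 1))).2.2 d).mp ⟨hd, hvd⟩ with h2 | h2
          · exact ⟨i + 1, h2.symm⟩
          · refine ⟨i, ?_⟩
            rw [h2, hB1 i]
            exact ((hA _).1).symm
    intro e
    exact (Set.ext_iff.mp h1 e).symm

end cA

end Pool.Agent.CT
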