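import Pool.Agent.CT.CDefs

set_option autoImplicit false

/-! # Plane maps: C1, C3, C6, C7 -/

namespace Pool.Agent.CT

open Set

section

variable {V E F : Type}

/-- Two different edges with the same two vertices are not in a common face. -/
theorem cA_sameFace (M : PolyMap V E F) {e d : E} {u v : V} {f : F} (hed : e ≠ d) (huv : u ≠ v)
    (hue : M.ve u e) (hve : M.ve v e) (hud : M.ve u d) (hvd : M.ve v d) (hef : M.ef e f)
    (hdf : M.ef d f) : False := by
  have hv2 : ∀ c : E, M.ve u c → M.ve v c → ∀ w, M.ve w c → w = u ∨ w = v := by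
    intro c hu hv w hw
    obtain ⟨a, b, _, hab⟩ := M.edge_verts c
    have h1 := (hab u).1 hu
    have h2 := (hab v).1 hv
    have h3 := (hab w).1 hw
    rcases h1 with h1 | h1 <;> rcases h2 with h2 | h2 <;> rcases h3 with h3 | h3 <;>
      first
        | exact absurd (h1.trans h2.symm) huv
        | exact Or.inl (h3.trans h1.symm)
        | exact Or.inr (h3.trans h2.symm)
  have key : ∀ e0 d0 : E, e0 ≠ d0 → M.ve u e0 → M.ve v e0 → M.ve u d0 → M.ve v d0 →
      M.ef e0 f → M.ef d0 f → ∀ c, M.ef c f → (∃ w, M.ve w e0 ∧ M.ve w c) → c = e0 ∨ c = d0 := by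
    intro e0 d0 hne h1 h2 h3 h4 h5 h6 c hc hw
    obtain ⟨w, hw1, hw2⟩ := hw
    obtain ⟨e', he', hall⟩ := M.corner w e0 f hw1 h5
    have hwd : M.ve w d0 := by
      rcases hv2 e0 h1 h2 w hw1 with rfl | rfl
      · exact h3
      · exact h4
    have hd' : d0 = e' := by
      rcases (hall d0).1 ⟨hwd, h6⟩ with h | h
      · exact absurd h.symm hne
      · exact h
    rw [hd']
    exact (hall c).1 ⟨hw2, hc⟩
  have hA : ({e, d} : Set E) = {c | M.ef c f} := by
    refine M.face_conn f {e, d} ?_ ⟨e, by simp⟩ ?_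
    · rintro c (rfl | rfl)
      · exact hef
      · exact hdf
    · rintro e0 (rfl | rfl) c hc hw
      · exact key _ _ hed hue hve hud hvd hef hdf c hc hw
      · exact (key _ _ hed.symm hud hvd hue hve hdf hef c hc hw).symm
  have h3 := M.face_card f
  rw [← hA, Set.ncard_pair hed] at h3
  omega

/-- C1. -/
theorem cA_noDouble : Stmt_NoDouble := by
  intro V E F M e d u v hed huv hue hve hud hvd
  obtain ⟨f, _, _, hf⟩ := M.edge_faces e
  obtain ⟨f', _, _, hf'⟩ := M.edge_faces d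
  have hef : M.ef e f := (hf f).2 (Or.inl rfl)
  have hdf' : M.ef d f' := (hf' f').2 (Or.inl rfl)
  by_cases hff : f = f'
  · subst hff
    exact cA_sameFace M hed huv hue hve hud hvd hef hdf'
  · obtain ⟨e1, h1, h2, h3, h4⟩ := M.inter f f' hff u v huv ⟨e, hue, hef⟩ ⟨d, hud, hdf'⟩
      ⟨e, hve, hef⟩ ⟨d, hvd, hdf'⟩
    by_cases he : e1 = e
    · subst he
      exact cA_sameFace M hed huv hue hve hud hvd h4 hdf'
    · exact cA_sameFace M (Ne.symm he) huv hue hve h1 h2 hef h3

/-- C3. -/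
theorem cA_faceCycle (h : Stmt_Curve) : Stmt_FaceCycle := by
  intro V E F M f
  have hne : {e | M.ef e f}.Nonempty := by
    have := M.face_card f
    exact Set.nonempty_of_ncard_ne_zero (by omega)
  obtain ⟨n, x, y, hc⟩ := h V E F M {e | M.ef e f} hne (by
    intro v e he hve
    obtain ⟨e', h1, h2⟩ := M.corner v e f hve he
    exact ⟨e', h1, fun d => by rw [← h2 d]; exact and_comm⟩) (by
    intro A hA hAne hcl
    exact M.face_conn f A hA hAne fun e he d hd hv => hcl e he d hd hv)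
  refine ⟨n, x, y, ?_, hc⟩
  rcases hc.n_ne with h0 | h3
  · exfalso
    subst h0
    have hinj : Function.Injective y := by
      intro i j hij
      have := (hc.y_eq i j).1 hij
      simp at this
      omega
    have hsub : Set.range y ⊆ {e | M.ef e f} := by
      rintro _ ⟨i, rfl⟩
      exact (hc.mem (y i)).2 ⟨i, rfl⟩
    exact (Set.infinite_range_of_injective hinj) ((M.face_fin f).subset hsub)
  · exact h3

/-- Finite reachability witnesses. -/
theorem cA_reachFin {G : SimpleGraph V} {Z : Set V} {a b : V} (h : ReachIn G Z a b) (ha : a ∈ Z) :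
    ∃ J : Set V, J.Finite ∧ J ⊆ Z ∧ ReachIn G J a b := by
  obtain ⟨n, p, hp0, hpn, hadj, hmem⟩ := h.exists_path ha
  refine ⟨p '' {i | i ≤ n}, (Set.finite_le_nat n).image p, ?_, ?_⟩
  · rintro _ ⟨i, hi, rfl⟩
    exact hmem i hi
  · have := ReachIn.of_path (G := G) (Z := p '' {i | i ≤ n}) hadj
      (fun i hi => ⟨i, hi, rfl⟩) (Nat.zero_le n) (le_refl n)
    rwa [hp0, hpn] at this

/-- The inductive form of C6. -/
theorem cA_localAux {G : SimpleGraph V}
    (h : ∀ S : Set V, S.encard ≤ 2 → ConnIn G Sᶜ) (a b : V) :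
    ∀ (k : ℕ) (T : Set V), T.encard + k ≤ 2 → a ∉ T → b ∉ T → ∃ J : Set V, J.Finite ∧
      ∀ S : Set V, S.encard ≤ k → a ∉ S → b ∉ S → ReachIn G (J \ (T ∪ S)) a b := by
  intro k
  induction k with
  | zero =>
    intro T hT haT hbT
    obtain ⟨J, hJ, hJT, hr⟩ := cA_reachFin (h T (by simpa using hT) a haT b hbT) haT
    refine ⟨J, hJ, fun S hS _ _ => ?_⟩
    have : S = ∅ := by simpa using hS
    subst this
    refine hr.mono fun x hx => ⟨hx, ?_⟩
    rw [union_empty]
    exact hJT hx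
  | succ k ih =>
    intro T hT haT hbT
    have hT2 : T.encard ≤ 2 := le_trans (by simp) hT
    obtain ⟨J0, hJ0, hJT, hr⟩ := cA_reachFin (h T hT2 a haT b hbT) haT
    have hex : ∀ s : V, ∃ J : Set V, J.Finite ∧ (s ≠ a → s ≠ b →
        ∀ S : Set V, S.encard ≤ k → a ∉ S → b ∉ S → ReachIn G (J \ ((insert s T) ∪ S)) a b) := by
      intro s
      by_cases hs : s ≠ a ∧ s ≠ b
      · have h1 : (insert s T).encard + k ≤ 2 := by
          calc (insert s T).encard + k ≤ (T.encard + 1) + k := by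
                gcongr
                exact Set.encard_insert_le T s
            _ = T.encard + ((k + 1 : ℕ) : ℕ∞) := by push_cast; ring
            _ ≤ 2 := hT
        obtain ⟨J, hJ, hJ'⟩ := ih (insert s T) h1
          (by simp only [mem_insert_iff, not_or]; exact ⟨Ne.symm hs.1, haT⟩)
          (by simp only [mem_insert_iff, not_or]; exact ⟨Ne.symm hs.2, hbT⟩)
        exact ⟨J, hJ, fun _ _ => hJ'⟩
      · exact ⟨∅, finite_empty, fun h1 h2 => absurd ⟨h1, h2⟩ hs⟩
    choose Js hJs hJs' using hex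
    refine ⟨J0 ∪ ⋃ s ∈ J0, Js s, hJ0.union (hJ0.biUnion fun s _ => hJs s),
      fun S hS haS hbS => ?_⟩
    by_cases hd : Disjoint S J0
    · refine hr.mono fun x hx => ⟨Or.inl hx, ?_⟩
      rintro (hx' | hx')
      · exact hJT hx hx'
      · exact Set.disjoint_left.1 hd hx' hx
    · obtain ⟨s, hsS, hsJ⟩ := Set.not_disjoint_iff.1 hd
      have hsa : s ≠ a := fun e => haS (e ▸ hsS)
      have hsb : s ≠ b := fun e => hbS (e ▸ hsS)
      have hS' : (S \ {s}).encard ≤ k := by
        have h1 := Set.encard_sdiff_singleton_add_one hsS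
        have h2 : (S \ {s}).encard + 1 ≤ k + 1 := by
          rw [h1]
          exact_mod_cast hS
        exact (ENat.add_le_add_iff_right (by simp)).1 h2
      refine (hJs' s hsa hsb (S \ {s}) hS' (fun h => haS h.1) (fun h => hbS h.1)).mono ?_
      rintro x ⟨hx1, hx2⟩
      refine ⟨Or.inr (mem_biUnion hsJ hx1), fun hx3 => hx2 ?_⟩
      rcases hx3 with hx3 | hx3
      · exact Or.inl (Or.inr hx3)
      · by_cases hxs : x = s
        · exact Or.inl (Or.inl hxs)
        · exact Or.inr ⟨hx3, hxs⟩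

/-- C6. -/
theorem cA_local3 (h : Stmt_ThreeConn) : Stmt_Local3 := by
  intro V E F M hM Q hQ
  have h3 := h V E F M hM
  have hex : ∀ p : V × V, ∃ J : Set V, J.Finite ∧
      ∀ S : Set V, S.encard ≤ 2 → p.1 ∉ S → p.2 ∉ S → ReachIn M.vadj (J \ S) p.1 p.2 := by
    intro p
    obtain ⟨J, hJ, hJ'⟩ := cA_localAux h3 p.1 p.2 2 ∅ (by simp) (by simp) (by simp)
    refine ⟨J, hJ, fun S hS h1 h2 => ?_⟩
    have := hJ' S (by exact_mod_cast hS) h1 h2
    rwa [empty_union] at this
  choose Js hJs hJs' using hex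
  refine ⟨Q ∪ ⋃ p ∈ Q ×ˢ Q, Js p, hQ.union ((hQ.prod hQ).biUnion fun p _ => hJs p),
    subset_union_left, fun S hS a ha b hb => ?_⟩
  refine (hJs' (a, b) S hS ha.2 hb.2).mono ?_
  rintro x ⟨hx1, hx2⟩
  exact ⟨Or.inr (mem_biUnion (show (a, b) ∈ Q ×ˢ Q from ⟨ha.1, hb.1⟩) hx1), hx2⟩

/-- C7. -/
theorem cA_frVertex : Stmt_FrVertex := by
  intro V E F M A v hA hAc
  by_contra hcon
  push Not at hcon
  have hall : ∀ e, M.ve v e → (∃ f ∈ A, M.ef e f) → ∀ g, M.ef e g → g ∈ A := by
    intro e he hf g hg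
    by_contra hgA
    exact hcon e ⟨hf, g, hgA, hg⟩ he
  obtain ⟨d, hd, e, he, hed⟩ := hA
  obtain ⟨d', hd', e', he', hed'⟩ := hAc
  have hB : ({e | M.ve v e ∧ ∃ f ∈ A, M.ef e f} : Set E) = {e | M.ve v e} := by
    refine M.vert_conn v _ (fun e h => h.1) ⟨e, he, d, hd, hed⟩ ?_
    rintro e1 ⟨h1, h2⟩ d1 hd1 ⟨f, hf1, hf2⟩
    exact ⟨hd1, f, hall e1 h1 h2 f hf1, hf2⟩
  have : e' ∈ ({e | M.ve v e ∧ ∃ f ∈ A, M.ef e f} : Set E) := by
    rw [hB]
    exact he'
  exact hd' (hall e' this.1 this.2 d' hed')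

end

end Pool.Agent.CT
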