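import Pool.Agent.CT.Defs

set_option autoImplicit false

/-! # The polyhedral map of a tiling, and the frozen top level statements -/

namespace Pool.Agent.CT

open Set Metric

namespace DiscTiling

variable (K : DiscTiling)

/-- The tiles containing `p`. -/
def tilesAt (p : ℂ) : Set (Set ℂ) := {t ∈ K.T | p ∈ t}

/-- Vertices: the points which lie in at least three tiles. -/
abbrev V : Type := {p : ℂ // 3 ≤ (K.tilesAt p).ncard}

/-- Edges: the nontrivial intersections of two different tiles (closed arcs). -/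
abbrev E : Type := {J : Set ℂ // J.Nontrivial ∧ ∃ t ∈ K.T, ∃ t' ∈ K.T, t ≠ t' ∧ J = t ∩ t'}

/-- Faces: the tiles. -/
abbrev F : Type := {t : Set ℂ // t ∈ K.T}

/-- `M` is the map of the tiling `K` : incidence is containment. -/
structure IsMap (M : Inc K.V K.E K.F) : Prop where
  ve : ∀ v e, M.ve v e ↔ v.1 ∈ e.1
  ef : ∀ e f, M.ef e f ↔ e.1 ⊆ f.1

end DiscTiling

/-! ## Frozen statements (topology) -/

/-- TOPOLOGY, main statement: the vertices, edges and tiles of a tiling form a plane map. -/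
def Stmt_Map : Prop := ∀ K : DiscTiling, ∃ M : PlaneMap K.V K.E K.F, K.IsMap M.toInc

/-- TOPOLOGY, facts needed for the construction of the homeomorphism. -/
structure TopoFacts (K : DiscTiling) : Prop where
  /-- bounded sets meet finitely many tiles -/
  locfin : ∀ r : ℝ, {t ∈ K.T | (t ∩ closedBall 0 r).Nonempty}.Finite
  /-- for every homeomorphism of the closed disc onto a tile, the frontier of the tile is the image
  of the circle -/
  front : ∀ t ∈ K.T, ∀ ψ : closedBall (0 : ℂ) 1 ≃ₜ t, ∀ z : closedBall (0 : ℂ) 1,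
    ((ψ z : t) : ℂ) ∈ frontier t ↔ ‖(z : ℂ)‖ = 1
  /-- edges are arcs joining two vertices, which are their only vertices -/
  arc : ∀ e : K.E, ∃ γ : C(unitInterval, ℂ), Function.Injective γ ∧ range γ = e.1 ∧
    ∃ u v : K.V, u ≠ v ∧ γ 0 = u.1 ∧ γ 1 = v.1 ∧ ∀ w : K.V, w.1 ∈ e.1 ↔ (w = u ∨ w = v)
  /-- the frontier of a tile is the union of its edges -/
  bd : ∀ t : K.F, frontier t.1 = ⋃ e ∈ {e : K.E | e.1 ⊆ t.1}, e.1
  /-- different edges meet at most in common vertices -/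
  edge_inter : ∀ e d : K.E, e ≠ d → ∀ z, z ∈ e.1 → z ∈ d.1 → ∃ v : K.V, v.1 = z
  /-- different tiles meet in nothing, one vertex, or one edge -/
  tile_inter : ∀ t t' : K.F, t ≠ t' → (t.1 ∩ t'.1 = ∅ ∨ (∃ v : K.V, t.1 ∩ t'.1 = {v.1}) ∨
    ∃ e : K.E, t.1 ∩ t'.1 = e.1)

def Stmt_Topo : Prop := ∀ K : DiscTiling, TopoFacts K

/-- Open connected regions missing no more than the vertices: the tiles meeting a half plane or the
outside of a disk are connected through edges. -/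
def Stmt_Regions : Prop := ∀ (K : DiscTiling) (M : Inc K.V K.E K.F), K.IsMap M →
  (∀ r : ℝ, ConnIn M.fadj {t | (t.1 ∩ {z : ℂ | r < ‖z‖}).Nonempty}) ∧
  (∀ y : ℝ, ConnIn M.fadj {t | (t.1 ∩ {z : ℂ | y < z.im}).Nonempty}) ∧
  (∀ y : ℝ, ConnIn M.fadj {t | (t.1 ∩ {z : ℂ | z.im < y}).Nonempty})

/-! ## Frozen statement (drawing) -/

/-- The drawing `φ` is equivariant: every symmetry of the tiling acts on the drawing as an isometry. -/
def EquivDrawing (K : DiscTiling) (φ : K.V → ℂ) : Prop :=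
  ∀ s : ℂ ≃ᵢ ℂ, IsSymmetry K.T s → ∃ s' : ℂ ≃ᵢ ℂ, ∀ v w : K.V, w.1 = s v.1 → φ w = s' (φ v)

/-- COMBINATORICS + HARMONIC DRAWING, main statement. -/
def Stmt_Draw : Prop := ∀ (K : DiscTiling) (M : PlaneMap K.V K.E K.F), K.IsMap M.toInc →
  ∃ φ : K.V → ℂ, IsDrawing M.toInc φ ∧ EquivDrawing K φ

/-! ## Frozen statements (homeomorphisms) -/

/-- Equivariant disc theorem. -/
def Stmt_EquivDisc : Prop := ∀ (t : Set ℂ) (_ : closedBall (0 : ℂ) 1 ≃ₜ t)
  (S : Subgroup (ℂ ≃ᵢ ℂ)), (S : Set (ℂ ≃ᵢ ℂ)).Finite → (∀ s ∈ S, s '' t = t) →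
  ∃ (ψ : closedBall (0 : ℂ) 1 ≃ₜ t), ∀ s ∈ S, ∃ L : ℂ ≃ₗᵢ[ℝ] ℂ,
    ∀ z w : closedBall (0 : ℂ) 1, (w : ℂ) = L z → ((ψ w : t) : ℂ) = s (ψ z : t)

/-- HOMEOMORPHISM, main statement. -/
def Stmt_Homeo : Prop := ∀ (K : DiscTiling) (M : PolyMap K.V K.E K.F), K.IsMap M.toInc →
  TopoFacts K → ∀ φ : K.V → ℂ, IsDrawing M.toInc φ → EquivDrawing K φ →
  ∃ h : ℂ ≃ₜ ℂ, (∀ t ∈ K.T, Convex ℝ (h '' t)) ∧
    ∀ s : ℂ ≃ᵢ ℂ, IsSymmetry K.T s → ∃ s' : ℂ ≃ᵢ ℂ, ∀ z, h (s z) = s' (h z)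

end Pool.Agent.CT
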