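import Pool.Agent.CT.BDefs
import Pool.Agent.CT.TDefs

set_option autoImplicit false

/-! # Disc blocks and the construction for finite groups: definitions and frozen statements -/

namespace Pool.Agent.CT

open Set Metric

section disc

variable {V E F : Type}

/-- Boundary vertices of `D`. -/
def BdV (M : Inc V E F) (D : Set F) (v : V) : Prop := Touch M D v ∧ Touch M Dᶜ v

/-- Interior vertices of `D`. -/
def IntV (M : Inc V E F) (D : Set F) (v : V) : Prop := Touch M D v ∧ ¬ Touch M Dᶜ v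

/-- Corners of `D`: boundary vertices in at least two outer faces. -/
def Corner (M : Inc V E F) (D : Set F) (v : V) : Prop :=
  Touch M D v ∧ ∃ f g, f ≠ g ∧ f ∉ D ∧ g ∉ D ∧ M.vf v f ∧ M.vf v g

/-- Joined by a frontier edge. -/
def FrAdj (M : Inc V E F) (D : Set F) (u v : V) : Prop :=
  u ≠ v ∧ ∃ e ∈ fr M D, M.ve u e ∧ M.ve v e

open Classical in
/-- Weights of the disc problem: `c` at interior vertices, one-dimensional along the frontier. -/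
noncomputable def discWt (M : Inc V E F) (D : Set F) (c : V → V → ℝ) (v u : V) : ℝ :=
  if IntV M D v then (if M.vadj.Adj v u then c v u else 0)
  else if FrAdj M D v u then 1 else 0

/-- The unknowns of the disc problem. -/
def Unk (M : Inc V E F) (D : Set F) : Set V := {v | Touch M D v ∧ ¬ Corner M D v}

/-- `φ` is the harmonic extension of the corner positions `P`. -/
def DiscExt (M : Inc V E F) (D : Set F) (c : V → V → ℝ) (P φ : V → ℂ) : Prop :=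
  (∀ v, v ∉ Unk M D → φ v = P v) ∧ ∀ v ∈ Unk M D, Harm (discWt M D c) φ v

/-- Positive weights on adjacent pairs. -/
def PosWt (M : Inc V E F) (c : V → V → ℝ) : Prop := ∀ u v, M.vadj.Adj u v → 0 < c u v

/-- The corners of `D` are in strictly convex position, in their cyclic order. -/
def ConvPos (M : Inc V E F) (D : Set F) (P : V → ℂ) : Prop :=
  ∀ n x y, IsFaceCycle (coarse M D) none n x y → StrictPoly n (fun i => P (x i).1)

/-- The substructure of the faces in `D`. -/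
def subInc (M : Inc V E F) (D : Set F) :
    Inc {v // Touch M D v} {e // ∃ d ∈ D, M.ef e d} {f // f ∈ D} where
  ve v e := M.ve v.1 e.1
  ef e f := M.ef e.1 f.1

/-- Admissible positions of the boundary vertices. -/
structure Adm (M : Inc V E F) (D : Set F) (ψ : V → ℂ) : Prop where
  arc : ∀ w : ℂ, w ≠ 0 → ∀ (c : ℝ) (u v : V), BdV M D u → BdV M D v → c < dir w (ψ u) →
    c < dir w (ψ v) → Relation.ReflTransGen
      (fun a b => FrAdj M D a b ∧ c < dir w (ψ a) ∧ c < dir w (ψ b)) u v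
  alive : ∀ w : ℂ, w ≠ 0 → ∀ v, BdV M D v → (∃ u, BdV M D u ∧ dir w (ψ v) < dir w (ψ u)) →
    (∃ u, BdV M D u ∧ dir w (ψ u) < dir w (ψ v)) →
    ∃ u, FrAdj M D v u ∧ dir w (ψ v) < dir w (ψ u)
  ext : ∀ w : ℂ, w ≠ 0 → ∃ t, t ∉ D ∧ ∀ v, BdV M D v →
    (∀ u, BdV M D u → dir w (ψ u) ≤ dir w (ψ v)) → M.vf v t
  edge : ∀ e ∈ fr M D, ∃ (w : ℂ) (c : ℝ), w ≠ 0 ∧ (∀ v, M.ve v e → dir w (ψ v) = c) ∧
    ∀ v, BdV M D v → dir w (ψ v) ≤ c
  ne : ∀ e ∈ fr M D, ∀ u v, M.ve u e → M.ve v e → u ≠ v → ψ u ≠ ψ v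
  nolap : ∀ e ∈ fr M D, ∀ d ∈ fr M D, e ≠ d →
    seg M ψ e ∩ seg M ψ d ⊆ ψ '' {v | M.ve v e ∧ M.ve v d}
  hull : convexHull ℝ (ψ '' {v | BdV M D v}) = convexHull ℝ (ψ '' {v | Corner M D v})
  int : (interior (convexHull ℝ (ψ '' {v | Corner M D v}))).Nonempty

/-- The conclusions for a disc block. -/
structure DiscConcl (M : Inc V E F) (D : Set F) (φ : V → ℂ) : Prop where
  face : ∀ f ∈ D, FaceOK M φ f
  strict : ∀ f ∈ D, ∀ n x y, IsFaceCycle M f n x y → StrictPoly n (fun i => φ (x i))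
  inside : ∀ f ∈ D, poly M φ f ⊆ convexHull ℝ (φ '' {v | Corner M D v})
  cover : ∀ z ∈ convexHull ℝ (φ '' {v | Corner M D v}), ∃ f ∈ D, z ∈ poly M φ f
  disj : ∀ f ∈ D, ∀ g ∈ D, f ≠ g → Disjoint (interior (poly M φ f)) (interior (poly M φ g))
  opp : ∀ e, ∀ f ∈ D, ∀ g ∈ D, f ≠ g → M.ef e f → M.ef e g → Opp M φ e f g

/-- The face `f₀` is deep inside `D`. -/
structure Deep (M : Inc V E F) (D : Set F) (f₀ : F) : Prop where
  mem : f₀ ∈ D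
  int : ∃ J : Set V, (∀ v ∈ J, IntV M D v) ∧ (∀ a, M.vf a f₀ → a ∈ J) ∧
    ∀ S : Set V, S.encard ≤ 2 → ∀ a b, M.vf a f₀ → M.vf b f₀ → a ∉ S → b ∉ S →
      ReachIn M.vadj (J \ S) a b

open Classical in
/-- Weight `1` on the sides of `f₀`, weight `ε` on the other pairs. -/
noncomputable def epsWt (M : Inc V E F) (f₀ : F) (ε : ℝ) (u v : V) : ℝ :=
  if ∃ e, M.ef e f₀ ∧ M.ve u e ∧ M.ve v e then 1 else ε

/-- The set of faces of the coarse map `M / D` given by `D'`. -/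
def liftD (M : Inc V E F) (D D' : Set F) : Set (CF M D) := {f | ∀ g, f = some g → g.1 ∈ D'}

/-- `D` is deep inside `D'`. -/
structure Nest (M : Inc V E F) (D D' : Set F) : Prop where
  sub : D ⊆ D'
  touch : ∀ t v, M.vf v t → Touch M D v → t ∈ D'
  tight : TightDisc (coarse M D) (liftD M D D')
  deep : Deep (coarse M D) (liftD M D D') none

/-- The extension problem for the ring between `D` and `D'`. -/
def RingExt (M : Inc V E F) (D D' : Set F) (ε : ℝ) (P : V → ℂ) (φ : CV M D → ℂ) : Prop :=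
  DiscExt (coarse M D) (liftD M D D') (epsWt (coarse M D) none ε) (fun v => P v.1) φ

/-- `M` with automorphisms. -/
structure IsAut (M : Inc V E F) (a : V ≃ V) (b : E ≃ E) (d : F ≃ F) : Prop where
  ve : ∀ v e, M.ve (a v) (b e) ↔ M.ve v e
  ef : ∀ e f, M.ef (b e) (d f) ↔ M.ef e f

end disc

/-! ## Frozen statements -/

/-- D0: two enumerations of the same curve differ by a shift or a reflection. -/
def Stmt_CycUnique : Prop := ∀ (V E F : Type) (M : Inc V E F) (C : Set E) (n m : ℕ) (x x' : ℤ → V)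
  (y y' : ℤ → E), IsCurve M C n x y → IsCurve M C m x' y' →
  n = m ∧ ((∃ k : ℤ, ∀ i, x' i = x (i + k) ∧ y' i = y (i + k)) ∨
    ∃ k : ℤ, ∀ i, x' i = x (k - i) ∧ y' i = y (k - i - 1))

/-- D1: the faces in `D` form a block. -/
def Stmt_SubBlk : Prop := ∀ (V E F : Type) (M : PlaneMap V E F) (D : Set F),
  ∃ B : Blk {v // Touch M.toInc D v} {e // ∃ d ∈ D, M.ef e d} {f // f ∈ D},
    B.toInc = subInc M.toInc D

/-- D2: existence and uniqueness for the disc problem. -/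
def Stmt_DiscExt : Prop := ∀ (V E F : Type) (M : PlaneMap V E F) (D : Set F),
  TightDisc M.toInc D → ∀ c : V → V → ℝ, PosWt M.toInc c → ∀ P : V → ℂ,
  ∃ φ, DiscExt M.toInc D c P φ ∧ ∀ φ', DiscExt M.toInc D c P φ' → φ' = φ

/-- D3: the frontier of a tight disc, its corners and its sides. The corners are the vertices
`x (s j)`; the side from `x (s j)` to `x (s (j + 1))` lies in the outer face `t j`. -/
def Stmt_FrCycle : Prop := ∀ (V E F : Type) (M : PlaneMap V E F) (D : Set F),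
  TightDisc M.toInc D → ∃ (n q : ℕ) (x : ℤ → V) (y : ℤ → E) (s : ℤ → ℤ) (t : ℤ → F)
    (X : ℤ → CV M.toInc D) (Y : ℤ → CE M.toInc D), 3 ≤ n ∧ IsCurve M.toInc (fr M.toInc D) n x y ∧
    StrictMono s ∧ (∀ j, s (j + q) = s j + n) ∧
    (∀ i, Corner M.toInc D (x i) ↔ ∃ j, i = s j) ∧
    (∀ v, BdV M.toInc D v ↔ ∃ i, x i = v) ∧
    (∀ j i, s j ≤ i → i ≤ s (j + 1) → M.vf (x i) (t j)) ∧
    (∀ j i, s j ≤ i → i < s (j + 1) → M.ef (y i) (t j)) ∧ (∀ j, t j ∉ D) ∧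
    IsFaceCycle (coarse M.toInc D) none q X Y ∧ ∀ j, (X j).1 = x (s j)

/-- D4: on the sides the harmonic extension is equally spaced. -/
def Stmt_SidePos : Prop := ∀ (V E F : Type) (M : PlaneMap V E F) (D : Set F),
  TightDisc M.toInc D → ∀ (c : V → V → ℝ) (P φ : V → ℂ), DiscExt M.toInc D c P φ →
  (∀ (n : ℕ) (x : ℤ → V) (y : ℤ → E), IsCurve M.toInc (fr M.toInc D) n x y →
    ∀ i j : ℤ, i < j → (∀ k, i < k → k < j → ¬ Corner M.toInc D (x k)) →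
    ∀ k, i ≤ k → k ≤ j → φ (x k) =
      φ (x i) + ((((k - i : ℤ) : ℝ) / ((j - i : ℤ) : ℝ) : ℝ) : ℂ) * (φ (x j) - φ (x i))) ∧
  (∀ (t : F) (n : ℕ) (x : ℤ → V) (y : ℤ → E), t ∉ D → IsFaceCycle M.toInc t n x y →
    ∀ (a : ℤ) (r : ℕ), 1 ≤ r → r < n →
    (∀ i, Touch M.toInc D (x i) ↔ ∃ k : ℕ, k ≤ r ∧ (n : ℤ) ∣ i - (a + k)) →
    (∀ i, (∃ d ∈ D, M.ef (y i) d) ↔ ∃ k : ℕ, k < r ∧ (n : ℤ) ∣ i - (a + k)) →
    Corner M.toInc D (x a) ∧ Corner M.toInc D (x (a + r)) ∧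
    (∀ k : ℕ, 0 < k → k < r → ¬ Corner M.toInc D (x (a + k))) ∧
    ∀ k : ℕ, k ≤ r → φ (x (a + k)) =
      φ (x a) + ((((k : ℕ) : ℝ) / (r : ℝ) : ℝ) : ℂ) * (φ (x (a + r)) - φ (x a)))

/-- D5: geometry of a strictly convex polygon with subdivided sides. -/
def Stmt_ArcGeom : Prop := ∀ (n q : ℕ) (z p : ℤ → ℂ) (s : ℤ → ℤ), StrictPoly q z → StrictMono s →
  (∀ j, s (j + q) = s j + n) → (∀ i, p (i + n) = p i) →
  (∀ j i, s j ≤ i → i ≤ s (j + 1) → p i = z j +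
    ((((i - s j : ℤ) : ℝ) / ((s (j + 1) - s j : ℤ) : ℝ) : ℝ) : ℂ) * (z (j + 1) - z j)) →
  (∀ w : ℂ, w ≠ 0 → ∀ (c : ℝ) (i k : ℤ), i ≤ k → k ≤ i + n → c < dir w (p i) → c < dir w (p k) →
    (∀ l, i ≤ l → l ≤ k → c < dir w (p l)) ∨ ∀ l, k ≤ l → l ≤ i + n → c < dir w (p l)) ∧
  (∀ w : ℂ, w ≠ 0 → ∀ i, (∃ k, dir w (p i) < dir w (p k)) → (∃ k, dir w (p k) < dir w (p i)) →
    dir w (p i) < dir w (p (i + 1)) ∨ dir w (p i) < dir w (p (i - 1))) ∧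
  (∀ w : ℂ, w ≠ 0 → ∃ j, ∀ i, (∀ k, dir w (p k) ≤ dir w (p i)) →
    ∃ i', (n : ℤ) ∣ i' - i ∧ s j ≤ i' ∧ i' ≤ s (j + 1)) ∧
  (∀ i, ∃ w : ℂ, w ≠ 0 ∧ dir w (p i) = dir w (p (i + 1)) ∧ ∀ k, dir w (p k) ≤ dir w (p i)) ∧
  (∀ i, p i ≠ p (i + 1)) ∧
  (∀ i k, ¬ (n : ℤ) ∣ i - k → ∀ u, u ∈ segment ℝ (p i) (p (i + 1)) →
    u ∈ segment ℝ (p k) (p (k + 1)) →
    ((n : ℤ) ∣ k - (i + 1) ∧ u = p k) ∨ ((n : ℤ) ∣ i - (k + 1) ∧ u = p i)) ∧
  convexHull ℝ (range p) = convexHull ℝ (range z)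

/-- D6: positions of the boundary are admissible. -/
def Stmt_Adm : Prop := ∀ (V E F : Type) (M : PlaneMap V E F) (D : Set F),
  TightDisc M.toInc D → ∀ (c : V → V → ℝ) (P φ : V → ℂ), ConvPos M.toInc D P →
  DiscExt M.toInc D c P φ → Adm M.toInc D φ

/-- D7: the assumptions of the block theorem hold, and interior vertices are strictly inside. -/
def Stmt_DiscHyp : Prop := ∀ (V E F : Type) (M : PlaneMap V E F) (D : Set F),
  TightDisc M.toInc D → ∀ c : V → V → ℝ, PosWt M.toInc c → ∀ P φ : V → ℂ,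
  DiscExt M.toInc D c P φ → Adm M.toInc D φ →
  (∀ B : Blk {v // Touch M.toInc D v} {e // ∃ d ∈ D, M.ef e d} {f // f ∈ D},
    B.toInc = subInc M.toInc D → BlkHyp B {v | IntV M.toInc D v.1} (fun v => φ v.1)) ∧
  ∀ w : ℂ, w ≠ 0 → ∀ v, IntV M.toInc D v → ∃ u, BdV M.toInc D u ∧ dir w (φ v) < dir w (φ u)

/-- D8: the polygons of a disc block tile the big polygon. -/
def Stmt_DiscTile : Prop := ∀ (V E F : Type) (M : PlaneMap V E F) (D : Set F),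
  TightDisc M.toInc D → ∀ φ : V → ℂ, Adm M.toInc D φ →
  (∀ w : ℂ, w ≠ 0 → ∀ v, IntV M.toInc D v → ∃ u, BdV M.toInc D u ∧ dir w (φ v) < dir w (φ u)) →
  BlkConcl (subInc M.toInc D) (fun v => φ v.1) → DiscConcl M.toInc D φ

/-- D9: disc block theorem. -/
def Stmt_DiscBlock : Prop := ∀ (V E F : Type) (M : PlaneMap V E F) (D : Set F),
  TightDisc M.toInc D → ∀ c : V → V → ℝ, PosWt M.toInc c → ∀ P φ : V → ℂ,
  ConvPos M.toInc D P → DiscExt M.toInc D c P φ → DiscConcl M.toInc D φ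

theorem discBlock_of (h1 : Stmt_SubBlk) (h6 : Stmt_Adm) (h7 : Stmt_DiscHyp) (h8 : Stmt_DiscTile)
    (hB : Stmt_Block) : Stmt_DiscBlock := by
  intro V E F M D hD c hc P φ hP hφ
  have hA := h6 V E F M D hD c P φ hP hφ
  obtain ⟨B, hBe⟩ := h1 V E F M D
  obtain ⟨h, h'⟩ := h7 V E F M D hD c hc P φ hφ hA
  have h2 := hB _ _ _ B _ _ (h B hBe)
  rw [hBe] at h2
  exact h8 V E F M D hD φ hA h' h2

/-- D10: dilation. -/
def Stmt_Dil : Prop := ∀ (V E F : Type) (M : PlaneMap V E F) (D : Set F) (f₀ : F),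
  TightDisc M.toInc D → Deep M.toInc D f₀ → ∃ ε₀ > 0, ∀ ε : ℝ, 0 < ε → ε < ε₀ →
  ∀ P φ : V → ℂ, DiscExt M.toInc D (epsWt M.toInc f₀ ε) P φ →
  ∀ a ∈ poly M.toInc φ f₀, ∀ b ∈ poly M.toInc φ f₀,
    (2 : ℂ) * b - a ∈ convexHull ℝ (φ '' {v | Corner M.toInc D v})

/-- D11: nondegeneracy (compactness lemma). -/
def Stmt_NonDeg : Prop := ∀ (V E F : Type) (M : PlaneMap V E F) (D : Set F) (f₀ : F),
  TightDisc M.toInc D → Deep M.toInc D f₀ → ∀ c : V → V → ℝ, PosWt M.toInc c →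
  ∃ δ > 0, ∀ P φ : V → ℂ, ConvPos M.toInc D P → DiscExt M.toInc D c P φ →
  ∀ a b d, M.vf a f₀ → M.vf b f₀ → M.vf d f₀ → a ≠ b → b ≠ d → a ≠ d →
  ∀ a' b' d', M.vf a' f₀ → M.vf b' f₀ → M.vf d' f₀ →
    δ * |cross (φ a') (φ b') (φ d')| ≤ |cross (φ a) (φ b) (φ d)|

/-- D12: exhausting sequence of invariant tight discs. -/
def Stmt_DiscSeq : Prop := ∀ (V E F G : Type) (M : PlaneMap V E F) [Group G] [Finite G]
  [MulAction G V] [MulAction G E] [MulAction G F], Equiv M.toInc G →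
  ∃ D : ℕ → Set F, (∀ i, TightDisc M.toInc (D i)) ∧ (∀ i (g : G), ∀ f ∈ D i, g • f ∈ D i) ∧
    (∀ f, ∃ i, f ∈ D i) ∧ ∀ i, Nest M.toInc (D i) (D (i + 1))

/-- D13: iterated coarse maps. -/
def Stmt_Recoarse : Prop := ∀ (V E F : Type) (M : PlaneMap V E F) (D D' : Set F),
  TightDisc M.toInc D → TightDisc M.toInc D' → Nest M.toInc D D' →
  (∀ v : CV M.toInc D, Touch (coarse M.toInc D) (liftD M.toInc D D') v ↔
    Touch M.toInc D' v.1) ∧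
  (∀ v : CV M.toInc D, Corner (coarse M.toInc D) (liftD M.toInc D D') v ↔
    Corner M.toInc D' v.1) ∧
  (∀ v, Corner M.toInc D' v → ∃ v' : CV M.toInc D, v'.1 = v) ∧
  (∀ v, Corner M.toInc D v ↔ ∃ v' : CV M.toInc D, v'.1 = v ∧ (coarse M.toInc D).vf v' none) ∧
  ∀ P : V → ℂ, ConvPos M.toInc D' P →
    ConvPos (coarse M.toInc D) (liftD M.toInc D D') (fun v => P v.1)

/-- D14: automorphisms of the disc problem and of the coarse map. -/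
def Stmt_Aut : Prop := ∀ (V E F : Type) (M : PlaneMap V E F) (a : V ≃ V) (b : E ≃ E) (d : F ≃ F),
  IsAut M.toInc a b d →
  (∀ (D : Set F), (∀ f, d f ∈ D ↔ f ∈ D) → ∀ (c : V → V → ℝ),
    (∀ u v, c (a u) (a v) = c u v) → ∀ P φ : V → ℂ,
    DiscExt M.toInc D c P φ → DiscExt M.toInc D c (fun v => P (a v)) (fun v => φ (a v))) ∧
  (∀ (D : Set F), (∀ f, d f ∈ D ↔ f ∈ D) → ∃ (a' : CV M.toInc D ≃ CV M.toInc D)
    (b' : CE M.toInc D ≃ CE M.toInc D) (d' : CF M.toInc D ≃ CF M.toInc D),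
    IsAut (coarse M.toInc D) a' b' d' ∧ (∀ v, (a' v).1 = a v.1) ∧ d' none = none ∧
    (∀ (ε : ℝ) u v, epsWt (coarse M.toInc D) none ε (a' u) (a' v) =
      epsWt (coarse M.toInc D) none ε u v) ∧
    ∀ D' : Set F, (∀ f, d f ∈ D' ↔ f ∈ D') →
      ∀ f, d' f ∈ liftD M.toInc D D' ↔ f ∈ liftD M.toInc D D')

/-- D15: affine maps. -/
def Stmt_Affine : Prop :=
  (∀ A : ℂ ≃ᵃ[ℝ] ℂ, ∃ d : ℝ, d ≠ 0 ∧ ∀ a b c, cross (A a) (A b) (A c) = d * cross a b c) ∧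
  (∀ a b c a' b' c' : ℂ, cross a b c ≠ 0 → cross a' b' c' ≠ 0 →
    ∃ A : ℂ ≃ᵃ[ℝ] ℂ, A a = a' ∧ A b = b' ∧ A c = c') ∧
  (∀ (A B : ℂ ≃ᵃ[ℝ] ℂ) (a b c : ℂ), cross a b c ≠ 0 → A a = B a → A b = B b → A c = B c →
    A = B) ∧
  (∀ (G : Type) [Group G] [Finite G] (ρ : G → ℂ ≃ᵃ[ℝ] ℂ), (∀ g h z, ρ (g * h) z = ρ g (ρ h z)) →
    ∃ T : ℂ ≃ᵃ[ℝ] ℂ, ∀ g, ∃ s' : ℂ ≃ᵢ ℂ, ∀ z, T (ρ g z) = s' (T z))

/-- D16: inverse limit theorem. -/
def Stmt_InvLim : Prop := ∀ (Q : ℕ → Type) [∀ i, Finite (Q i)] (X : ∀ i, Set (Q i → ℂ))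
  (Φ : ∀ i, (Q (i + 1) → ℂ) → Q i → ℂ) (t : ∀ i, Fin 3 → Q i),
  (∀ i, (X i).Nonempty) → (∀ i, ∀ P ∈ X (i + 1), Φ i P ∈ X i) → (∀ i, Continuous (Φ i)) →
  (∀ i P (A : ℂ ≃ᵃ[ℝ] ℂ), Φ i (fun q => A (P q)) = fun q => A (Φ i P q)) →
  (∀ i P (A : ℂ ≃ᵃ[ℝ] ℂ), P ∈ X i → (fun q => A (P q)) ∈ X i) →
  (∀ i, ∀ P ∈ X i, cross (P (t i 0)) (P (t i 1)) (P (t i 2)) ≠ 0) →
  (∀ i, ∃ Y : Set (Q i → ℂ), Y ⊆ X i ∧ (∀ P ∈ X (i + 1), Φ i P ∈ Y) ∧
    (∀ P (A : ℂ ≃ᵃ[ℝ] ℂ), P ∈ Y → (fun q => A (P q)) ∈ Y) ∧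
    IsCompact (Y ∩ {P | P (t i 0) = 0 ∧ P (t i 1) = 1 ∧ P (t i 2) = Complex.I})) →
  ∃ P : ∀ i, Q i → ℂ, (∀ i, P i ∈ X i) ∧ ∀ i, Φ i (P (i + 1)) = P i

/-- D17: a symmetric convex position of the corners. -/
def Stmt_Regular : Prop := ∀ (V E F G : Type) (M : PlaneMap V E F) [Group G] [Finite G]
  [MulAction G V] [MulAction G E] [MulAction G F], Equiv M.toInc G →
  ∀ D : Set F, TightDisc M.toInc D → (∀ (g : G), ∀ f ∈ D, g • f ∈ D) →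
  ∃ P : V → ℂ, ConvPos M.toInc D P ∧
    ∀ g : G, ∃ A : ℂ ≃ᵢ ℂ, ∀ v, Corner M.toInc D v → P (g • v) = A (P v)

/-- D18: the levels. -/
def Stmt_Levels : Prop := ∀ (V E F G : Type) (M : PlaneMap V E F) [Group G] [Finite G]
  [MulAction G V] [MulAction G E] [MulAction G F], Equiv M.toInc G →
  ∀ (D : ℕ → Set F) (ε : ℕ → ℝ), (∀ i, 0 < ε i) → (∀ i, TightDisc M.toInc (D i)) →
  (∀ i (g : G), ∀ f ∈ D i, g • f ∈ D i) → (∀ i, Nest M.toInc (D i) (D (i + 1))) →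
  ∃ (P : ℕ → V → ℂ) (φ : ∀ i, CV M.toInc (D i) → ℂ), (∀ i, ConvPos M.toInc (D i) (P i)) ∧
    (∀ i, RingExt M.toInc (D i) (D (i + 1)) (ε i) (P (i + 1)) (φ i)) ∧
    (∀ i (v : CV M.toInc (D i)), Touch M.toInc (D i) v.1 → φ i v = P i v.1) ∧
    ∀ g : G, ∃ s' : ℂ ≃ᵢ ℂ, ∀ i v, Corner M.toInc (D i) v → P i (g • v) = s' (P i v)

/-- D19: assembly of the drawing from the levels. -/
def Stmt_Assemble : Prop := ∀ (V E F : Type) (M : PlaneMap V E F) (D : ℕ → Set F) (ε : ℕ → ℝ)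
  (P : ℕ → V → ℂ) (φ : ∀ i, CV M.toInc (D i) → ℂ) (φ₀ : V → ℂ), (∀ i, 0 < ε i) →
  (∀ i, TightDisc M.toInc (D i)) → (∀ f, ∃ i, f ∈ D i) →
  (∀ i, Nest M.toInc (D i) (D (i + 1))) → (∀ i, ConvPos M.toInc (D i) (P i)) →
  DiscExt M.toInc (D 0) (fun _ _ => 1) (P 0) φ₀ →
  (∀ i, RingExt M.toInc (D i) (D (i + 1)) (ε i) (P (i + 1)) (φ i)) →
  (∀ i (v : CV M.toInc (D i)), Touch M.toInc (D i) v.1 → φ i v = P i v.1) →
  (∀ i, ∀ a ∈ convexHull ℝ (P i '' {v | Corner M.toInc (D i) v}),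
    ∀ b ∈ convexHull ℝ (P i '' {v | Corner M.toInc (D i) v}),
    (2 : ℂ) * b - a ∈ convexHull ℝ (P (i + 1) '' {v | Corner M.toInc (D (i + 1)) v})) →
  ∃ ψ : V → ℂ, IsDrawing M.toInc ψ ∧ (∀ v, Touch M.toInc (D 0) v → ψ v = φ₀ v) ∧
    ∀ i (v : CV M.toInc (D i)), Touch M.toInc (D (i + 1)) v.1 → ψ v.1 = φ i v

/-- D20: finite groups. -/
def Stmt_DrawFin : Prop := ∀ (V E F G : Type) (M : PlaneMap V E F) [Group G] [Finite G]
  [MulAction G V] [MulAction G E] [MulAction G F], Equiv M.toInc G →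
  ∃ φ : V → ℂ, IsDrawing M.toInc φ ∧ ∀ g : G, ∃ s' : ℂ ≃ᵢ ℂ, ∀ v, φ (g • v) = s' (φ v)

/-- D21: finite groups, for tilings. -/
def Stmt_DrawFinTiling : Prop := ∀ (K : DiscTiling) (M : PlaneMap K.V K.E K.F),
  K.IsMap M.toInc → (symGroup K.T : Set (ℂ ≃ᵢ ℂ)).Finite →
  ∃ φ : K.V → ℂ, IsDrawing M.toInc φ ∧ EquivDrawing K φ

/-- D22: the dual of a plane map is a plane map. -/
def Stmt_DualPlane : Prop := ∀ (V E F : Type) (M : PlaneMap V E F),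
  ∃ M' : PlaneMap F E V, M'.toInc = M.toInc.dual

/-- D23: plane maps are countable. -/
def Stmt_Countable : Prop := ∀ (V E F : Type) (_ : PlaneMap V E F),
  Countable V ∧ Countable E ∧ Countable F

end Pool.Agent.CT
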