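import Pool.Agent.CT.DDefs

set_option autoImplicit false

/-! # D10: the dilation lemma -/

namespace Pool.Agent.CT

open Set Metric

section abs

/-- Periodic functions on `ℤ` can be evaluated at representatives in a period. -/
theorem cD10_rep {α : Type} (n : ℕ) (hn : 1 ≤ n) (h : ℤ → α) (hp : ∀ i, h (i + n) = h i) (i : ℤ) :
    ∃ k : ℕ, k < n ∧ h i = h (k : ℤ) ∧ (n : ℤ) ∣ i - k := by
  have hper : Function.Periodic h (n : ℤ) := hp
  refine ⟨(i % n).toNat, ?_, ?_, ?_⟩
  · have h1 := Int.emod_lt_of_pos i (by exact_mod_cast hn : (0 : ℤ) < n)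
    have h2 := Int.emod_nonneg i (by exact_mod_cast (by omega : n ≠ 0) : (n : ℤ) ≠ 0)
    omega
  · have h2 := Int.emod_nonneg i (by exact_mod_cast (by omega : n ≠ 0) : (n : ℤ) ≠ 0)
    rw [Int.toNat_of_nonneg h2]
    have h3 : i = i % n + (i / n) * n := by
      have := Int.emod_add_mul_ediv i n
      linarith [mul_comm (i / (n : ℤ)) (n : ℤ)]
    conv_lhs => rw [h3]
    exact hper.int_mul (i / n) (i % n)
  · have h2 := Int.emod_nonneg i (by exact_mod_cast (by omega : n ≠ 0) : (n : ℤ) ≠ 0)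
    rw [Int.toNat_of_nonneg h2]
    exact Int.dvd_self_sub_emod

/-- The core estimate. -/
theorem cD10_core {V : Type} (n : ℕ) (hn : 1 ≤ n) (N : ℤ → Finset V)
    (hNe : ∀ i, (N i).Nonempty) : ∃ ε₀ > 0, ∀ ε : ℝ, 0 < ε → ε < ε₀ →
    ∀ (h : ℤ → ℝ) (f : V → ℝ), (∀ i, h (i + n) = h i) →
    (∀ i, (h (i + 1) - h i) + (h (i - 1) - h i) + ε * ∑ u ∈ N i, (f u - h i) = 0) →
    ∀ i j, ∃ k, ∃ u ∈ N k, 2 * h i - h j ≤ f u := by
  classical
  set Pr : Finset (Σ _ : ℕ, V) := (Finset.range n).sigma (fun i => N (i : ℤ)) with hPr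
  set m : ℕ := Pr.card with hm
  have hPne : Pr.Nonempty := by
    obtain ⟨u, hu⟩ := hNe 0
    refine ⟨⟨0, u⟩, ?_⟩
    rw [hPr, Finset.mem_sigma]
    exact ⟨Finset.mem_range.2 (show 0 < n by omega), by simpa using hu⟩
  have hm1 : 1 ≤ m := Finset.card_pos.2 hPne
  have hmR : (1 : ℝ) ≤ m := by exact_mod_cast hm1
  have hnR : (1 : ℝ) ≤ n := by exact_mod_cast hn
  set κ : ℝ := (2 + 2 * m) * (4 * n * n * m) with hκ
  have hκ0 : 0 < κ := by positivity
  refine ⟨1 / κ, by positivity, ?_⟩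
  intro ε hε hε1 h f hper heq
  -- extremal indices
  have hrange : (Finset.range n).Nonempty := ⟨0, Finset.mem_range.2 (by omega)⟩
  obtain ⟨i1, hi1, hmax⟩ := Finset.exists_max_image (Finset.range n) (fun k : ℕ => h (k : ℤ)) hrange
  obtain ⟨i0, hi0, hmin⟩ := Finset.exists_min_image (Finset.range n) (fun k : ℕ => h (k : ℤ)) hrange
  obtain ⟨p1, hp1, hfmax⟩ := Finset.exists_max_image Pr (fun p => f p.2) hPne
  obtain ⟨p0, hp0, hfmin⟩ := Finset.exists_min_image Pr (fun p => f p.2) hPne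
  have hle1 : ∀ i : ℤ, h i ≤ h (i1 : ℤ) := by
    intro i
    obtain ⟨k, hk, hk2, _⟩ := cD10_rep n hn h hper i
    rw [hk2]
    exact hmax k (Finset.mem_range.2 hk)
  have hle0 : ∀ i : ℤ, h (i0 : ℤ) ≤ h i := by
    intro i
    obtain ⟨k, hk, hk2, _⟩ := cD10_rep n hn h hper i
    rw [hk2]
    exact hmin k (Finset.mem_range.2 hk)
  set H1 := h (i1 : ℤ) with hH1
  set H0 := h (i0 : ℤ) with hH0
  set F1 := f p1.2 with hF1
  set F0 := f p0.2 with hF0
  -- the sum of all terms vanishes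
  have hsumF : ∑ i ∈ Finset.range n, ∑ u ∈ N (i : ℤ), (f u - h (i : ℤ)) = 0 := by
    have h1 : ∑ i ∈ Finset.range n, (h ((i : ℤ) + 1) - h (i : ℤ)) = 0 := by
      have := Finset.sum_range_sub (fun k : ℕ => h (k : ℤ)) n
      have h2 : h ((n : ℕ) : ℤ) = h 0 := by
        have := hper 0
        simpa using this
      simp only [Nat.cast_add, Nat.cast_one, Nat.cast_zero] at this
      rw [this, h2, sub_self]
    have h3 : ∑ i ∈ Finset.range n, (h ((i : ℤ) - 1) - h (i : ℤ)) = 0 := by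
      have := Finset.sum_range_sub (fun k : ℕ => h ((k : ℤ) - 1)) n
      have h2 : h ((n : ℤ) - 1) = h (-1) := by
        have := hper (-1)
        rw [← this]
        ring_nf
      simp only [Nat.cast_add, Nat.cast_one, Nat.cast_zero, add_sub_cancel_right, zero_sub] at this
      rw [h2, sub_self] at this
      have h4 : ∑ i ∈ Finset.range n, (h ((i : ℤ) - 1) - h (i : ℤ)) =
          - ∑ i ∈ Finset.range n, (h (i : ℤ) - h ((i : ℤ) - 1)) := by
        rw [← Finset.sum_neg_distrib]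
        exact Finset.sum_congr rfl (fun i _ => by ring)
      rw [h4, this, neg_zero]
    have h5 : ∑ i ∈ Finset.range n, ((h ((i : ℤ) + 1) - h (i : ℤ)) + (h ((i : ℤ) - 1) - h (i : ℤ)) +
        ε * ∑ u ∈ N (i : ℤ), (f u - h (i : ℤ))) = 0 := Finset.sum_eq_zero (fun i _ => heq i)
    rw [Finset.sum_add_distrib, Finset.sum_add_distrib, h1, h3, zero_add, zero_add,
      ← Finset.mul_sum] at h5
    rcases mul_eq_zero.1 h5 with h6 | h6
    · exact absurd h6 hε.ne'
    · exact h6
  have hsumP : ∑ p ∈ Pr, (f p.2 - h (p.1 : ℤ)) = 0 := by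
    rw [hPr, Finset.sum_sigma]
    exact hsumF
  set A : ℝ := F1 - H0 with hA
  set B' : ℝ := H1 - F0 with hB'
  have htA : ∀ p ∈ Pr, f p.2 - h (p.1 : ℤ) ≤ A := fun p hp => by
    have h1 := hfmax p hp
    have h2 := hle0 (p.1 : ℤ)
    rw [hA]
    linarith
  have htB : ∀ p ∈ Pr, h (p.1 : ℤ) - f p.2 ≤ B' := fun p hp => by
    have h1 := hfmin p hp
    have h2 := hle1 (p.1 : ℤ)
    rw [hB']
    linarith
  have hA0 : 0 ≤ A := by
    have h1 : ∑ p ∈ Pr, (f p.2 - h (p.1 : ℤ)) ≤ ∑ _p ∈ Pr, A := Finset.sum_le_sum htA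
    rw [hsumP, Finset.sum_const, nsmul_eq_mul, ← hm] at h1
    nlinarith
  -- `β ≤ m A`
  have hβ : H0 - F0 ≤ m * A := by
    have h1 : ∑ p ∈ Pr, (f p.2 - h (p.1 : ℤ)) = (f p0.2 - h (p0.1 : ℤ)) +
        ∑ p ∈ Pr.erase p0, (f p.2 - h (p.1 : ℤ)) := (Finset.add_sum_erase _ _ hp0).symm
    have h2 : ∑ p ∈ Pr.erase p0, (f p.2 - h (p.1 : ℤ)) ≤ ∑ _p ∈ Pr.erase p0, A :=
      Finset.sum_le_sum (fun p hp => htA p (Finset.mem_of_mem_erase hp))
    rw [Finset.sum_const, nsmul_eq_mul, Finset.card_erase_of_mem hp0, ← hm] at h2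
    have h3 : ((m - 1 : ℕ) : ℝ) ≤ m := by exact_mod_cast Nat.sub_le m 1
    have h4 := hle0 (p0.1 : ℤ)
    have h5 : ((m - 1 : ℕ) : ℝ) * A ≤ m * A := mul_le_mul_of_nonneg_right h3 hA0
    rw [hsumP] at h1
    linarith
  -- bound on all the terms
  set B : ℝ := (H1 - H0) + max (F1 - H1) 0 + max (H0 - F0) 0 with hB
  have hosc : 0 ≤ H1 - H0 := by have := hle1 (i0 : ℤ); linarith
  have hB0 : 0 ≤ B := by positivity
  have hAB : A ≤ B := by
    have h1 := le_max_left (F1 - H1) 0
    have h2 := le_max_right (H0 - F0) 0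
    rw [hA, hB]; linarith
  have hBB : B' ≤ B := by
    have h1 := le_max_right (F1 - H1) 0
    have h2 := le_max_left (H0 - F0) 0
    rw [hB', hB]; linarith
  have hFi : ∀ i < n, |∑ u ∈ N (i : ℤ), (f u - h (i : ℤ))| ≤ m * B := by
    intro i hi
    have h1 : |∑ u ∈ N (i : ℤ), (f u - h (i : ℤ))| ≤ ∑ u ∈ N (i : ℤ), |f u - h (i : ℤ)| :=
      Finset.abs_sum_le_sum_abs _ _
    have h2 : ∀ u ∈ N (i : ℤ), |f u - h (i : ℤ)| ≤ B := by
      intro u hu
      have hmem : (⟨i, u⟩ : Σ _ : ℕ, V) ∈ Pr := by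
        rw [hPr, Finset.mem_sigma]
        exact ⟨Finset.mem_range.2 hi, hu⟩
      have h3 := htA _ hmem
      have h4 := htB _ hmem
      simp only at h3 h4
      rw [abs_le]
      constructor <;> linarith
    have h3 : ∑ u ∈ N (i : ℤ), |f u - h (i : ℤ)| ≤ ∑ _u ∈ N (i : ℤ), B := Finset.sum_le_sum h2
    rw [Finset.sum_const, nsmul_eq_mul] at h3
    have h4 : (N (i : ℤ)).card ≤ m := by
      rw [hm, hPr, Finset.card_sigma]
      exact Finset.single_le_sum (f := fun k : ℕ => (N (k : ℤ)).card) (fun _ _ => Nat.zero_le _)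
        (Finset.mem_range.2 hi)
    have h5 : ((N (i : ℤ)).card : ℝ) ≤ m := by exact_mod_cast h4
    have h6 := mul_le_mul_of_nonneg_right h5 hB0
    linarith
  -- differences
  set g : ℕ → ℝ := fun k => h ((k : ℤ) + 1) - h (k : ℤ) with hg
  have hstep : ∀ k, k + 1 < n → |g (k + 1) - g k| ≤ ε * (m * B) := by
    intro k hk
    have h1 := heq ((k + 1 : ℕ) : ℤ)
    have h2 : g (k + 1) - g k = - (ε * ∑ u ∈ N ((k + 1 : ℕ) : ℤ), (f u - h ((k + 1 : ℕ) : ℤ))) := by
      have h3 : ((k + 1 : ℕ) : ℤ) - 1 = (k : ℤ) := by push_cast; ring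
      rw [h3] at h1
      simp only [hg]
      push_cast at h1 ⊢
      linarith
    rw [h2, abs_neg, abs_mul, abs_of_pos hε]
    exact mul_le_mul_of_nonneg_left (hFi (k + 1) hk) hε.le
  have hC : 0 ≤ ε * (m * B) := by positivity
  have hg0 : ∀ k < n, |g k - g 0| ≤ k * (ε * (m * B)) := by
    intro k
    induction k with
    | zero => intro _; simp
    | succ k ih =>
      intro hk
      have h1 := ih (by omega)
      have h2 := hstep k hk
      have h3 : g (k + 1) - g 0 = (g (k + 1) - g k) + (g k - g 0) := by ring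
      rw [h3]
      refine (abs_add_le _ _).trans ?_
      push_cast
      linarith
  set C : ℝ := ε * (m * B) with hCdef
  have hg0' : ∀ k < n, |g k - g 0| ≤ n * C := by
    intro k hk
    refine (hg0 k hk).trans (mul_le_mul_of_nonneg_right ?_ hC)
    exact_mod_cast hk.le
  have hsumg : ∑ k ∈ Finset.range n, g k = 0 := by
    have := Finset.sum_range_sub (fun k : ℕ => h (k : ℤ)) n
    have h2 : h ((n : ℕ) : ℤ) = h 0 := by
      have := hper 0
      simpa using this
    simp only [Nat.cast_add, Nat.cast_one, Nat.cast_zero] at this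
    rw [h2, sub_self] at this
    exact this
  have hgz : |g 0| ≤ n * C := by
    have h1 : ∑ k ∈ Finset.range n, (g k - g 0) = - (n * g 0) := by
      rw [Finset.sum_sub_distrib, hsumg, Finset.sum_const, Finset.card_range, nsmul_eq_mul]
      ring
    have h2 : |∑ k ∈ Finset.range n, (g k - g 0)| ≤ ∑ k ∈ Finset.range n, |g k - g 0| :=
      Finset.abs_sum_le_sum_abs _ _
    have h3 : ∑ k ∈ Finset.range n, |g k - g 0| ≤ ∑ _k ∈ Finset.range n, (n * C) :=
      Finset.sum_le_sum (fun k hk => hg0' k (Finset.mem_range.1 hk))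
    rw [Finset.sum_const, Finset.card_range, nsmul_eq_mul] at h3
    rw [h1, abs_neg, abs_mul, abs_of_nonneg (by positivity : (0 : ℝ) ≤ n)] at h2
    have h4 : (n : ℝ) * |g 0| ≤ n * (n * C) := h2.trans h3
    exact le_of_mul_le_mul_left h4 (by positivity)
  have hgk : ∀ k < n, |g k| ≤ 2 * (n * C) := by
    intro k hk
    have h1 : g k = (g k - g 0) + g 0 := by ring
    rw [h1]
    refine (abs_add_le _ _).trans ?_
    have := hg0' k hk
    linarith
  have hh0 : ∀ k ≤ n, |h (k : ℤ) - h 0| ≤ k * (2 * (n * C)) := by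
    intro k
    induction k with
    | zero => intro _; simp
    | succ k ih =>
      intro hk
      have h1 := ih (by omega)
      have h2 := hgk k (by omega)
      have h3 : h ((k + 1 : ℕ) : ℤ) - h 0 = g k + (h (k : ℤ) - h 0) := by
        simp only [hg]
        push_cast
        ring
      rw [h3]
      refine (abs_add_le _ _).trans ?_
      push_cast
      linarith
  have hh0' : ∀ k < n, |h (k : ℤ) - h 0| ≤ n * (2 * (n * C)) := by
    intro k hk
    refine (hh0 k hk.le).trans (mul_le_mul_of_nonneg_right ?_ (by positivity))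
    exact_mod_cast hk.le
  have hoscC : H1 - H0 ≤ 4 * n * n * C := by
    have h1 := abs_le.1 (hh0' i1 (Finset.mem_range.1 hi1))
    have h2 := abs_le.1 (hh0' i0 (Finset.mem_range.1 hi0))
    nlinarith [h1.2, h2.1]
  -- conclusion
  have hmain : H1 - H0 ≤ F1 - H1 := by
    by_contra hlt
    push Not at hlt
    have h1 : max (F1 - H1) 0 ≤ H1 - H0 := max_le hlt.le hosc
    have hA2 : A ≤ 2 * (H1 - H0) := by rw [hA]; linarith
    have hmA : m * A ≤ 2 * m * (H1 - H0) := by
      have := mul_le_mul_of_nonneg_left hA2 (by positivity : (0 : ℝ) ≤ m)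
      linarith
    have h2 : max (H0 - F0) 0 ≤ 2 * m * (H1 - H0) := max_le (hβ.trans hmA) (by positivity)
    have h3 : B ≤ (2 + 2 * m) * (H1 - H0) := by rw [hB]; linarith
    have h4 : (2 + 2 * m) * (H1 - H0) ≤ (2 + 2 * m) * (4 * n * n * C) :=
      mul_le_mul_of_nonneg_left hoscC (by positivity)
    have h5 : (2 + 2 * m) * (4 * n * n * C) = (κ * ε) * B := by
      rw [hκ, hCdef]; ring
    have h6 : κ * ε < 1 := by
      have := mul_lt_mul_of_pos_left hε1 hκ0
      rwa [mul_one_div_cancel hκ0.ne'] at this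
    have h7 : B ≤ 0 := by nlinarith
    have h8 : B = 0 := le_antisymm h7 hB0
    have h9 : C = 0 := by rw [hCdef, h8]; ring
    have h10 : H1 - H0 ≤ 0 := by rw [h9] at hoscC; linarith
    rw [hA] at hA0
    linarith
  intro i j
  refine ⟨(p1.1 : ℤ), p1.2, ?_, ?_⟩
  · have := (Finset.mem_sigma.1 hp1).2
    exact this
  · have h1 := hle1 i
    have h2 := hle0 j
    linarith

end abs

section graph

variable {V E F : Type}

/-- Neighbours of a vertex are finitely many. -/
theorem cD10_nbFin (M : PolyMap V E F) (v : V) : {u | M.vadj.Adj v u}.Finite := by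
  have h1 : {u | M.vadj.Adj v u} ⊆ ⋃ e ∈ {e | M.ve v e}, {u | M.ve u e} := by
    intro u hu
    obtain ⟨_, e, he, he'⟩ := hu
    exact mem_biUnion (show e ∈ {e | M.ve v e} from he) he'
  refine Set.Finite.subset (Set.Finite.biUnion (M.vert_fin v) ?_) h1
  intro e _
  obtain ⟨a, b, _, hab⟩ := M.edge_verts e
  exact (Set.toFinite {a, b}).subset fun u hu => by
    rcases (hab u).1 hu with h | h
    · exact Or.inl h
    · exact Or.inr h

/-- A face has finitely many vertices. -/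
theorem cD10_faceFin (M : PolyMap V E F) (f : F) : {u | M.vf u f}.Finite := by
  have h1 : {u | M.vf u f} ⊆ ⋃ e ∈ {e | M.ef e f}, {u | M.ve u e} := by
    intro u hu
    obtain ⟨e, he, he'⟩ := hu
    exact mem_biUnion (show e ∈ {e | M.ef e f} from he') he
  refine Set.Finite.subset (Set.Finite.biUnion (M.face_fin f) ?_) h1
  intro e _
  obtain ⟨a, b, _, hab⟩ := M.edge_verts e
  exact (Set.toFinite {a, b}).subset fun u hu => by
    rcases (hab u).1 hu with h | h
    · exact Or.inl h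
    · exact Or.inr h

/-- A finite set of faces has finitely many vertices. -/
theorem cD10_touchFin (M : PolyMap V E F) {D : Set F} (hD : D.Finite) :
    {u | Touch M.toInc D u}.Finite := by
  have h1 : {u | Touch M.toInc D u} ⊆ ⋃ f ∈ D, {u | M.vf u f} := by
    intro u hu
    obtain ⟨f, hf, hu⟩ := hu
    exact mem_biUnion hf hu
  exact Set.Finite.subset (Set.Finite.biUnion hD (fun f _ => cD10_faceFin M f)) h1

theorem cD10_frAdj (M : PolyMap V E F) {D : Set F} {u v : V} (h : FrAdj M.toInc D u v) :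
    M.vadj.Adj u v := ⟨h.1, h.2.imp fun _ he => he.2⟩

/-- The weights of the disc problem form a net. -/
theorem cD10_net (M : PolyMap V E F) (D : Set F) (c : V → V → ℝ) (hc : PosWt M.toInc c) :
    Net (discWt M.toInc D c) := by
  constructor
  · intro v
    refine (cD10_nbFin M v).subset fun u hu => ?_
    have hu' : discWt M.toInc D c v u ≠ 0 := hu
    unfold discWt at hu'
    split_ifs at hu' with h1 h2 h3
    · exact h2
    · exact absurd rfl hu'
    · exact cD10_frAdj M h3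
    · exact absurd rfl hu'
  · intro v u
    unfold discWt
    split_ifs with h1 h2 h3
    · exact (hc v u h2).le
    · exact le_rfl
    · exact zero_le_one
    · exact le_rfl

theorem cD10_eps (M : PolyMap V E F) (f₀ : F) {ε : ℝ} (hε : 0 < ε) :
    PosWt M.toInc (epsWt M.toInc f₀ ε) := by
  intro u v _
  unfold epsWt
  split_ifs
  · exact zero_lt_one
  · exact hε

/-- Neighbours of interior vertices are touched. -/
theorem cD10_intNb (M : PolyMap V E F) {D : Set F} {v u : V} (hv : IntV M.toInc D v)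
    (hu : M.vadj.Adj v u) : Touch M.toInc D u := by
  obtain ⟨_, e, he, he'⟩ := hu
  obtain ⟨g, g', _, hg⟩ := M.edge_faces e
  have h1 : M.ef e g := (hg g).2 (Or.inl rfl)
  have h2 : g ∈ D := by
    by_contra hgD
    exact hv.2 ⟨g, hgD, e, he, h1⟩
  exact ⟨g, h2, e, he', h1⟩

/-- Ends of frontier edges are touched. -/
theorem cD10_frTouch (M : PolyMap V E F) {D : Set F} {e : E} (he : e ∈ fr M.toInc D) {v : V}
    (hv : M.ve v e) : Touch M.toInc D v := by
  obtain ⟨⟨f, hf, hef⟩, _⟩ := he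
  exact ⟨f, hf, e, hv, hef⟩

/-- The maximum principle for the disc problem. -/
theorem cD10_max (hH : Stmt_Harm) (h7 : Stmt_FrVertex) (h8 : Stmt_Bond) (h15 : Stmt_CoarsePoly)
    (M : PlaneMap V E F) (D : Set F) (hD : TightDisc M.toInc D) (c : V → V → ℝ)
    (hc : PosWt M.toInc c) (P φ : V → ℂ) (hφ : DiscExt M.toInc D c P φ) (w : ℂ) :
    ∀ v, Touch M.toInc D v → ∃ q, Corner M.toInc D q ∧ dir w (φ v) ≤ dir w (φ q) := by
  classical
  intro v0 hv0
  by_contra hcon
  push Not at hcon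
  set f : V → ℝ := fun u => dir w (φ u) with hf
  have hnet := cD10_net M.toPolyMap D c hc
  have hharm : ∀ v ∈ Unk M.toInc D, Harm (discWt M.toInc D c) f v := fun v hv =>
    (hH V _ hnet).2.2.1 φ v w (hφ.2 v hv)
  have hTfin := cD10_touchFin M.toPolyMap hD.fin
  obtain ⟨m, hm, hmax⟩ := Set.exists_max_image {u | Touch M.toInc D u} f hTfin ⟨v0, hv0⟩
  have hm' : Touch M.toInc D m := hm
  have hnc : ∀ q, Touch M.toInc D q → f q = f m → q ∈ Unk M.toInc D := by
    intro q hq hqm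
    refine ⟨hq, fun hqc => ?_⟩
    have h1 := hcon q hqc
    have h2 := hmax v0 hv0
    have h3 : f q < f v0 := h1
    linarith
  -- the maximisers are closed under steps
  have hprop : ∀ v, Touch M.toInc D v → f v = f m → ∀ u, 0 < discWt M.toInc D c v u →
      f u = f m := by
    intro v hv hvm u hu
    have h1 := (hH V _ hnet).1 f v (hharm v (hnc v hv hvm)) ?_ u hu
    · rw [h1, hvm]
    · intro u' hu'
      rw [hvm]
      refine hmax u' ?_
      show Touch M.toInc D u'
      unfold discWt at hu'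
      split_ifs at hu' with h1 h2 h3
      · exact cD10_intNb M.toPolyMap h1 h2
      · exact absurd hu' (lt_irrefl _)
      · obtain ⟨_, e, he, _, he'⟩ := h3
        exact cD10_frTouch M.toPolyMap he he'
      · exact absurd hu' (lt_irrefl _)
  by_cases hall : ∀ v, Touch M.toInc D v → f v = f m → IntV M.toInc D v
  · -- all maximisers are interior
    have hclosed : ({v | Touch M.toInc D v ∧ f v = f m} : Set V) = univ := by
      refine M.vconn.eq_of_closed (subset_univ _) ⟨m, hm', rfl⟩ ?_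
      rintro x ⟨hx, hxm⟩ y _ hxy
      have hi := hall x hx hxm
      refine ⟨cD10_intNb M.toPolyMap hi hxy, hprop x hx hxm y ?_⟩
      unfold discWt
      rw [if_pos hi, if_pos hxy]
      exact hc x y hxy
    have h1 : (univ : Set V).Finite := by
      rw [← hclosed]
      exact hTfin.subset fun u hu => hu.1
    exact (Set.infinite_univ_iff.2 M.vinf) h1
  · push Not at hall
    obtain ⟨v, hv, hvm, hni⟩ := hall
    have hvc : Touch M.toInc Dᶜ v := by
      by_contra h
      exact hni ⟨hv, h⟩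
    have hDc : (Dᶜ).Nonempty := by
      obtain ⟨g, hg, _⟩ := hvc
      exact ⟨g, hg⟩
    obtain ⟨n, x, y, hxy⟩ := h8 V E F M D hD.ne hDc hD.conn hD.compl
    have hbd : ∀ v, Touch M.toInc D v → Touch M.toInc Dᶜ v → ∃ i, x i = v := by
      intro v h1 h2
      obtain ⟨e, he, hve⟩ := h7 V E F M.toPolyMap D v h1 h2
      obtain ⟨i, rfl⟩ := (hxy.mem e).1 he
      rcases (hxy.ve i v).1 hve with h | h
      · exact ⟨i, h.symm⟩
      · exact ⟨i + 1, h.symm⟩
    have hyfr : ∀ i, y i ∈ fr M.toInc D := fun i => (hxy.mem _).2 ⟨i, rfl⟩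
    have hxT : ∀ i, Touch M.toInc D (x i) := fun i =>
      cD10_frTouch M.toPolyMap (hyfr i) ((hxy.ve i (x i)).2 (Or.inl rfl))
    have hxTc : ∀ i, Touch M.toInc Dᶜ (x i) := by
      intro i
      obtain ⟨_, g, hg, hef⟩ := hyfr i
      exact ⟨g, hg, y i, (hxy.ve i (x i)).2 (Or.inl rfl), hef⟩
    have hxne : ∀ i, x i ≠ x (i + 1) := by
      intro i h
      have h1 := (hxy.x_eq i (i + 1)).1 h
      have h2 : i - (i + 1) = -1 := by ring
      rw [h2, dvd_neg] at h1
      have h3 : n = 1 := by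
        have := Int.eq_one_of_dvd_one (by positivity) h1
        exact_mod_cast this
      rcases hxy.n_ne with h | h <;> omega
    have hstep : ∀ i, FrAdj M.toInc D (x i) (x (i + 1)) := fun i =>
      ⟨hxne i, y i, hyfr i, (hxy.ve i _).2 (Or.inl rfl), (hxy.ve i _).2 (Or.inr rfl)⟩
    have hstep' : ∀ i, FrAdj M.toInc D (x (i + 1)) (x i) := fun i =>
      ⟨(hxne i).symm, y i, hyfr i, (hxy.ve i _).2 (Or.inr rfl), (hxy.ve i _).2 (Or.inl rfl)⟩
    have hwt : ∀ i u, FrAdj M.toInc D (x i) u → 0 < discWt M.toInc D c (x i) u := by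
      intro i u hu
      unfold discWt
      rw [if_neg (fun h => h.2 (hxTc i)), if_pos hu]
      exact zero_lt_one
    have hfwd : ∀ i, f (x i) = f m → f (x (i + 1)) = f m := fun i hi =>
      hprop (x i) (hxT i) hi _ (hwt i _ (hstep i))
    have hbwd : ∀ i, f (x (i + 1)) = f m → f (x i) = f m := fun i hi =>
      hprop (x (i + 1)) (hxT _) hi _ (hwt (i + 1) _ (hstep' i))
    obtain ⟨i0, hi0⟩ := hbd v hv hvc
    have hall : ∀ i, f (x i) = f m := by
      intro i
      have h0 : f (x i0) = f m := by rw [hi0, hvm]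
      have hup : ∀ k : ℕ, f (x (i0 + k)) = f m := by
        intro k
        induction k with
        | zero => simpa using h0
        | succ k ih =>
          have := hfwd _ ih
          push_cast
          rw [← add_assoc]
          exact this
      have hdn : ∀ k : ℕ, f (x (i0 - k)) = f m := by
        intro k
        induction k with
        | zero => simpa using h0
        | succ k ih =>
          refine hbwd _ ?_
          have h1 : i0 - ((k + 1 : ℕ) : ℤ) + 1 = i0 - k := by push_cast; ring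
          rw [h1]
          exact ih
      rcases le_total i0 i with h | h
      · have := hup (i - i0).toNat
        rwa [Int.toNat_of_nonneg (by omega), add_sub_cancel] at this
      · have := hdn (i0 - i).toNat
        rwa [Int.toNat_of_nonneg (by omega), sub_sub_cancel] at this
    -- there is a corner
    obtain ⟨N, hN⟩ := h15 V E F M D hD
    have h3 := N.face_card none
    have h4 : ({e | N.ef e none} : Set (CE M.toInc D)).Nonempty := by
      rw [Set.nonempty_iff_ne_empty]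
      intro h
      rw [h, Set.ncard_empty] at h3
      omega
    obtain ⟨e, he⟩ := h4
    obtain ⟨a, b, _, hab⟩ := N.edge_verts e
    have ha : N.ve a e := (hab a).2 (Or.inl rfl)
    have he' : N.ef e none := he
    rw [hN] at ha he'
    rcases e with e | g
    · exact he'
    · have ha' : M.vf a.1 g.1 ∧ Touch M.toInc D a.1 := ha
      obtain ⟨g1, g2, hg12, hg1, hg2, hag1, hag2⟩ := a.2
      have hcor : Corner M.toInc D a.1 := ⟨ha'.2, g1, g2, hg12, hg1, hg2, hag1, hag2⟩
      obtain ⟨i, hi⟩ := hbd a.1 ha'.2 ⟨g1, hg1, hag1⟩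
      have h5 := hnc (x i) (hxT i) (hall i)
      rw [hi] at h5
      exact h5.2 hcor

/-- A neighbour of a vertex of `f₀` which lies in `f₀` is joined by an edge of `f₀`. -/
theorem cD10_inner (h1 : Stmt_NoDouble) (M : PolyMap V E F) {f₀ : F} {a u : V} {e : E}
    (ha : M.vf a f₀) (hu : M.vf u f₀) (hau : a ≠ u) (hae : M.ve a e) (hue : M.ve u e) :
    M.ef e f₀ := by
  by_contra hef
  obtain ⟨g, g', _, hg⟩ := M.edge_faces e
  have h2 : M.ef e g := (hg g).2 (Or.inl rfl)
  have h3 : f₀ ≠ g := fun h => hef (h ▸ h2)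
  obtain ⟨e', h4, h5, h6, h7⟩ := M.inter f₀ g h3 a u hau ha ⟨e, hae, h2⟩ hu ⟨e, hue, h2⟩
  exact h1 V E F M e e' a u (fun h => hef (h ▸ h6)) hau hae hue h4 h5

/-- Edges of `f₀` at `x i`. -/
theorem cD10_cyc {M : PolyMap V E F} {f₀ : F} {n : ℕ} {x : ℤ → V} {y : ℤ → E}
    (h : IsFaceCycle M.toInc f₀ n x y) {i : ℤ} {e : E} (he : M.ef e f₀) (hie : M.ve (x i) e) :
    e = y i ∨ e = y (i - 1) := by
  obtain ⟨j, rfl⟩ := (h.curve.mem e).1 he
  rcases (h.curve.ve j _).1 hie with h1 | h1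
  · left
    have h2 := (h.curve.x_eq i j).1 h1
    refine (h.curve.y_eq j i).2 ?_
    rw [← neg_sub, dvd_neg]
    exact h2
  · right
    have h2 := (h.curve.x_eq i (j + 1)).1 h1
    refine (h.curve.y_eq j (i - 1)).2 ?_
    have h3 : j - (i - 1) = -(i - (j + 1)) := by ring
    rw [h3, dvd_neg]
    exact h2

open Classical in
/-- The outer neighbours of `x i`. -/
noncomputable def cD10_out (M : PolyMap V E F) (f₀ : F) (v : V) : Finset V :=
  (cD10_nbFin M v).toFinset.filter (fun u => ¬ M.vf u f₀)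

theorem cD10_mem_out {M : PolyMap V E F} {f₀ : F} {v u : V} :
    u ∈ cD10_out M f₀ v ↔ M.vadj.Adj v u ∧ ¬ M.vf u f₀ := by
  classical
  unfold cD10_out
  simp only [Finset.mem_filter, Set.Finite.mem_toFinset, Set.mem_ofPred_eq]

theorem cD10_ne1 {M : PolyMap V E F} {f₀ : F} {n : ℕ} {x : ℤ → V} {y : ℤ → E}
    (h : IsFaceCycle M.toInc f₀ n x y) (i : ℤ) : x (i + 1) ≠ x i := by
  intro h1
  have h2 := (h.curve.x_eq _ _).1 h1
  have h3 : i + 1 - i = 1 := by ring
  rw [h3] at h2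
  have h4 := Int.le_of_dvd one_pos h2
  have := h.three
  omega

theorem cD10_ne2 {M : PolyMap V E F} {f₀ : F} {n : ℕ} {x : ℤ → V} {y : ℤ → E}
    (h : IsFaceCycle M.toInc f₀ n x y) (i : ℤ) : x (i + 1) ≠ x (i - 1) := by
  intro h1
  have h2 := (h.curve.x_eq _ _).1 h1
  have h3 : i + 1 - (i - 1) = 2 := by ring
  rw [h3] at h2
  have h4 := Int.le_of_dvd two_pos h2
  have := h.three
  omega

theorem cD10_vf {M : PolyMap V E F} {f₀ : F} {n : ℕ} {x : ℤ → V} {y : ℤ → E}
    (h : IsFaceCycle M.toInc f₀ n x y) (v : V) : M.vf v f₀ ↔ ∃ i, x i = v := by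
  constructor
  · rintro ⟨e, he, hef⟩
    obtain ⟨j, rfl⟩ := (h.curve.mem e).1 hef
    rcases (h.curve.ve j _).1 he with h1 | h1
    · exact ⟨j, h1.symm⟩
    · exact ⟨j + 1, h1.symm⟩
  · rintro ⟨i, rfl⟩
    exact ⟨y i, (h.curve.ve i _).2 (Or.inl rfl), (h.curve.mem _).2 ⟨i, rfl⟩⟩

/-- Every vertex of `f₀` has an outer neighbour. -/
theorem cD10_outNe (h1 : Stmt_NoDouble) (M : PolyMap V E F) {f₀ : F} {n : ℕ} {x : ℤ → V}
    {y : ℤ → E} (h : IsFaceCycle M.toInc f₀ n x y) (i : ℤ) : (cD10_out M f₀ (x i)).Nonempty := by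
  have h3 := M.vert_card (x i)
  obtain ⟨e, he, hne⟩ : ∃ e ∈ {e | M.ve (x i) e}, e ∉ ({y i, y (i - 1)} : Set E) := by
    by_contra hcon
    push Not at hcon
    have h4 : ({e | M.ve (x i) e} : Set E) ⊆ {y i, y (i - 1)} := hcon
    have h5 := Set.ncard_le_ncard h4 (Set.toFinite _)
    have h6 := Set.ncard_insert_le (y i) {y (i - 1)}
    rw [Set.ncard_singleton] at h6
    omega
  have he' : M.ve (x i) e := he
  have hef : ¬ M.ef e f₀ := fun hef => hne (by
    rcases cD10_cyc h hef he' with h5 | h5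
    · exact Or.inl h5
    · exact Or.inr h5)
  obtain ⟨a, b, hab, hall⟩ := M.edge_verts e
  obtain ⟨u, hu, hux⟩ : ∃ u, M.ve u e ∧ x i ≠ u := by
    rcases (hall (x i)).1 he' with h5 | h5
    · exact ⟨b, (hall b).2 (Or.inr rfl), fun h6 => hab (h5.symm.trans h6)⟩
    · exact ⟨a, (hall a).2 (Or.inl rfl), fun h6 => hab (h6.symm.trans h5)⟩
  refine ⟨u, cD10_mem_out.2 ⟨⟨hux, e, he', hu⟩, fun huf => hef ?_⟩⟩
  exact cD10_inner h1 M ((cD10_vf h _).2 ⟨i, rfl⟩) huf hux he' hu

/-- The equilibrium equation at a vertex of `f₀`. -/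
theorem cD10_eq (h1 : Stmt_NoDouble) (M : PolyMap V E F) {D : Set F} {f₀ : F} {n : ℕ} {x : ℤ → V}
    {y : ℤ → E} (h : IsFaceCycle M.toInc f₀ n x y) {ε : ℝ} {f : V → ℝ} (i : ℤ)
    (hi : IntV M.toInc D (x i)) (hh : Harm (discWt M.toInc D (epsWt M.toInc f₀ ε)) f (x i)) :
    (f (x (i + 1)) - f (x i)) + (f (x (i - 1)) - f (x i)) +
      ε * ∑ u ∈ cD10_out M f₀ (x i), (f u - f (x i)) = 0 := by
  classical
  have hadj1 : M.vadj.Adj (x i) (x (i + 1)) := ⟨(cD10_ne1 h i).symm, y i,
    (h.curve.ve i _).2 (Or.inl rfl), (h.curve.ve i _).2 (Or.inr rfl)⟩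
  have hadj2 : M.vadj.Adj (x i) (x (i - 1)) := by
    refine ⟨?_, y (i - 1), (h.curve.ve (i - 1) _).2 (Or.inr ?_),
      (h.curve.ve (i - 1) _).2 (Or.inl rfl)⟩
    · have := cD10_ne1 h (i - 1)
      rwa [sub_add_cancel] at this
    · rw [sub_add_cancel]
  have hef : ∀ j, M.ef (y j) f₀ := fun j => (h.curve.mem _).2 ⟨j, rfl⟩
  have hx1 : x (i + 1) ∉ cD10_out M f₀ (x i) := fun h2 =>
    (cD10_mem_out.1 h2).2 ((cD10_vf h _).2 ⟨_, rfl⟩)
  have hx2 : x (i - 1) ∉ cD10_out M f₀ (x i) := fun h2 =>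
    (cD10_mem_out.1 h2).2 ((cD10_vf h _).2 ⟨_, rfl⟩)
  have hx12 : x (i + 1) ∉ insert (x (i - 1)) (cD10_out M f₀ (x i)) := by
    rw [Finset.mem_insert]
    rintro (h2 | h2)
    · exact cD10_ne2 h i h2
    · exact hx1 h2
  have hw1 : discWt M.toInc D (epsWt M.toInc f₀ ε) (x i) (x (i + 1)) = 1 := by
    unfold discWt
    rw [if_pos hi, if_pos hadj1]
    unfold epsWt
    rw [if_pos ⟨y i, hef i, (h.curve.ve i _).2 (Or.inl rfl), (h.curve.ve i _).2 (Or.inr rfl)⟩]
  have hw2 : discWt M.toInc D (epsWt M.toInc f₀ ε) (x i) (x (i - 1)) = 1 := by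
    unfold discWt
    rw [if_pos hi, if_pos hadj2]
    unfold epsWt
    rw [if_pos ⟨y (i - 1), hef _, (h.curve.ve (i - 1) _).2 (Or.inr (by rw [sub_add_cancel])),
      (h.curve.ve (i - 1) _).2 (Or.inl rfl)⟩]
  have hw3 : ∀ u ∈ cD10_out M f₀ (x i), discWt M.toInc D (epsWt M.toInc f₀ ε) (x i) u = ε := by
    intro u hu
    obtain ⟨h2, h3⟩ := cD10_mem_out.1 hu
    unfold discWt
    rw [if_pos hi, if_pos h2]
    unfold epsWt
    rw [if_neg]
    rintro ⟨e, he, _, hue⟩
    exact h3 ⟨e, hue, he⟩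
  have hw4 : ∀ u, u ∉ insert (x (i + 1)) (insert (x (i - 1)) (cD10_out M f₀ (x i))) →
      discWt M.toInc D (epsWt M.toInc f₀ ε) (x i) u = 0 := by
    intro u hu
    unfold discWt
    rw [if_pos hi]
    by_cases hadj : M.vadj.Adj (x i) u
    · exfalso
      by_cases huf : M.vf u f₀
      · obtain ⟨hne, e, he, he'⟩ := hadj
        have h2 := cD10_inner h1 M ((cD10_vf h _).2 ⟨i, rfl⟩) huf hne he he'
        rcases cD10_cyc h h2 he with rfl | rfl
        · rcases (h.curve.ve i _).1 he' with h3 | h3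
          · exact hne h3.symm
          · exact hu (by rw [h3]; exact Finset.mem_insert_self _ _)
        · rcases (h.curve.ve (i - 1) _).1 he' with h3 | h3
          · exact hu (by rw [h3]; exact Finset.mem_insert_of_mem (Finset.mem_insert_self _ _))
          · rw [sub_add_cancel] at h3
            exact hne h3.symm
      · exact hu (Finset.mem_insert_of_mem (Finset.mem_insert_of_mem
          (cD10_mem_out.2 ⟨hadj, huf⟩)))
    · rw [if_neg hadj]
  have hsum : ∑ᶠ u, discWt M.toInc D (epsWt M.toInc f₀ ε) (x i) u • (f u - f (x i)) =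
      ∑ u ∈ insert (x (i + 1)) (insert (x (i - 1)) (cD10_out M f₀ (x i))),
        discWt M.toInc D (epsWt M.toInc f₀ ε) (x i) u • (f u - f (x i)) := by
    refine finsum_eq_sum_of_support_subset _ fun u hu => ?_
    by_contra h2
    refine hu ?_
    show discWt M.toInc D (epsWt M.toInc f₀ ε) (x i) u • (f u - f (x i)) = 0
    rw [hw4 u (by simpa using h2), zero_smul]
  have hh' : ∑ᶠ u, discWt M.toInc D (epsWt M.toInc f₀ ε) (x i) u • (f u - f (x i)) = 0 := hh
  rw [hsum, Finset.sum_insert hx12, Finset.sum_insert hx2, hw1, hw2] at hh'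
  have h5 : ∑ u ∈ cD10_out M f₀ (x i),
      discWt M.toInc D (epsWt M.toInc f₀ ε) (x i) u • (f u - f (x i)) =
      ε * ∑ u ∈ cD10_out M f₀ (x i), (f u - f (x i)) := by
    rw [Finset.mul_sum]
    exact Finset.sum_congr rfl fun u hu => by rw [hw3 u hu, smul_eq_mul]
  rw [h5] at hh'
  simp only [one_smul] at hh'
  linarith

/-- A real functional on the plane. -/
theorem cD10_lin (l : ℂ →L[ℝ] ℝ) (z : ℂ) : l z = dir ⟨l 1, l Complex.I⟩ z := by
  have h1 : z = z.re • (1 : ℂ) + z.im • Complex.I := by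
    apply Complex.ext <;> simp
  conv_lhs => rw [h1]
  rw [map_add, map_smul, map_smul]
  simp only [dir, smul_eq_mul]
  ring

theorem cD10_hullLe {S : Set ℂ} {w : ℂ} {c : ℝ} (h : ∀ z ∈ S, dir w z ≤ c) {z : ℂ}
    (hz : z ∈ convexHull ℝ S) : dir w z ≤ c := by
  have hc : Convex ℝ {z : ℂ | dir w z ≤ c} := by
    refine convex_halfSpace_le ?_ c
    constructor
    · intro a b
      simp only [dir, Complex.add_re, Complex.add_im]
      ring
    · intro a b
      simp only [dir, Complex.real_smul, Complex.mul_re, Complex.mul_im, Complex.ofReal_re,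
        Complex.ofReal_im, smul_eq_mul]
      ring
  exact convexHull_min (s := S) (t := {z : ℂ | dir w z ≤ c}) h hc hz

theorem cD10_hullGe {S : Set ℂ} {w : ℂ} {c : ℝ} (h : ∀ z ∈ S, c ≤ dir w z) {z : ℂ}
    (hz : z ∈ convexHull ℝ S) : c ≤ dir w z := by
  have hc : Convex ℝ {z : ℂ | c ≤ dir w z} := by
    refine convex_halfSpace_ge ?_ c
    constructor
    · intro a b
      simp only [dir, Complex.add_re, Complex.add_im]
      ring
    · intro a b
      simp only [dir, Complex.real_smul, Complex.mul_re, Complex.mul_im, Complex.ofReal_re,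
        Complex.ofReal_im, smul_eq_mul]
      ring
  exact convexHull_min (s := S) (t := {z : ℂ | c ≤ dir w z}) h hc hz

/-- D10: dilation. -/
theorem cD10 (hH : Stmt_Harm) (hcyc : Stmt_FaceCycle) (hnd : Stmt_NoDouble) (h7 : Stmt_FrVertex)
    (h8 : Stmt_Bond) (h15 : Stmt_CoarsePoly) : Stmt_Dil := by
  classical
  intro V E F M D f₀ hD hdeep
  obtain ⟨n, x, y, hxy⟩ := hcyc V E F M.toPolyMap f₀
  have hint : ∀ v, M.vf v f₀ → IntV M.toInc D v := by
    obtain ⟨J, hJ, hJ2, _⟩ := hdeep.int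
    exact fun v hv => hJ v (hJ2 v hv)
  have hint' : ∀ i, IntV M.toInc D (x i) := fun i => hint _ ((cD10_vf hxy _).2 ⟨i, rfl⟩)
  have hn1 : 1 ≤ n := by have := hxy.three; omega
  obtain ⟨ε₀, hε₀, hcore⟩ := cD10_core n hn1 (fun i => cD10_out M.toPolyMap f₀ (x i))
    (fun i => cD10_outNe hnd M.toPolyMap hxy i)
  refine ⟨ε₀, hε₀, ?_⟩
  intro ε hε hε1 P φ hφ a ha b hb
  have hpos := cD10_eps M.toPolyMap f₀ hε
  have hnet := cD10_net M.toPolyMap D _ hpos
  have hper : ∀ i, x (i + n) = x i := fun i => (hxy.curve.x_eq _ _).2 (by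
    have : i + (n : ℤ) - i = n := by ring
    rw [this])
  have hunk : ∀ v, IntV M.toInc D v → v ∈ Unk M.toInc D := by
    intro v hv
    refine ⟨hv.1, ?_⟩
    rintro ⟨_, f, g, _, hf, _, hvf, _⟩
    exact hv.2 ⟨f, hf, hvf⟩
  by_contra hcon
  have hfinC : (φ '' {v | Corner M.toInc D v}).Finite := by
    refine Set.Finite.image _ ((cD10_touchFin M.toPolyMap hD.fin).subset ?_)
    intro v hv
    exact hv.1
  have hclosed : IsClosed (convexHull ℝ (φ '' {v | Corner M.toInc D v})) :=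
    (hfinC.isCompact_convexHull (𝕜 := ℝ)).isClosed
  obtain ⟨l, c, hl1, hl2⟩ := geometric_hahn_banach_closed_point (convex_convexHull ℝ _) hclosed hcon
  set w : ℂ := ⟨l 1, l Complex.I⟩ with hw
  have hl : ∀ z, l z = dir w z := fun z => cD10_lin l z
  have heq : ∀ i, ((fun i => dir w (φ (x i))) (i + 1) - (fun i => dir w (φ (x i))) i) +
      ((fun i => dir w (φ (x i))) (i - 1) - (fun i => dir w (φ (x i))) i) +
      ε * ∑ u ∈ cD10_out M.toPolyMap f₀ (x i), ((fun v => dir w (φ v)) u -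
        (fun i => dir w (φ (x i))) i) = 0 := fun i =>
    cD10_eq hnd M.toPolyMap hxy (f := fun v => dir w (φ v)) i (hint' i)
      ((hH V _ hnet).2.2.1 φ (x i) w (hφ.2 _ (hunk _ (hint' i))))
  have hkey := hcore ε hε hε1 (fun i => dir w (φ (x i))) (fun v => dir w (φ v))
    (fun i => by simp only [hper i]) heq
  have hrange : (Finset.range n).Nonempty := ⟨0, Finset.mem_range.2 (by omega)⟩
  obtain ⟨i1, _, hmax⟩ := Finset.exists_max_image (Finset.range n)
    (fun k : ℕ => dir w (φ (x (k : ℤ)))) hrange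
  obtain ⟨i0, _, hmin⟩ := Finset.exists_min_image (Finset.range n)
    (fun k : ℕ => dir w (φ (x (k : ℤ)))) hrange
  have hb1 : dir w b ≤ dir w (φ (x (i1 : ℤ))) := by
    refine cD10_hullLe ?_ hb
    rintro _ ⟨v, hv, rfl⟩
    obtain ⟨i, rfl⟩ := (cD10_vf hxy v).1 hv
    obtain ⟨k, hk, hk2, _⟩ := cD10_rep n hn1 x hper i
    rw [hk2]
    exact hmax k (Finset.mem_range.2 hk)
  have ha1 : dir w (φ (x (i0 : ℤ))) ≤ dir w a := by
    refine cD10_hullGe ?_ ha
    rintro _ ⟨v, hv, rfl⟩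
    obtain ⟨i, rfl⟩ := (cD10_vf hxy v).1 hv
    obtain ⟨k, hk, hk2, _⟩ := cD10_rep n hn1 x hper i
    rw [hk2]
    exact hmin k (Finset.mem_range.2 hk)
  obtain ⟨k, u, hu, hle⟩ := hkey (i1 : ℤ) (i0 : ℤ)
  have hu' := cD10_mem_out.1 hu
  have huT : Touch M.toInc D u := cD10_intNb M.toPolyMap (hint' k) hu'.1
  obtain ⟨q, hq, hq2⟩ := cD10_max hH h7 h8 h15 M D hD _ hpos P φ hφ w u huT
  have h3 := hl1 (φ q) (subset_convexHull ℝ _ ⟨q, hq, rfl⟩)
  rw [hl] at h3
  have h4 : l ((2 : ℂ) * b - a) = 2 * dir w b - dir w a := by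
    rw [hl]
    simp only [dir, Complex.sub_re, Complex.sub_im, Complex.mul_re, Complex.mul_im]
    norm_num
    ring
  rw [h4] at hl2
  linarith

end graph

end Pool.Agent.CT
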