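import Pool.Agent.CT.DDefs

set_option autoImplicit false

/-! # D2: existence and uniqueness for the disc problem -/

namespace Pool.Agent.CT

open Set

section

variable {V E F : Type}

theorem cD2_nbr_fin (M : PolyMap V E F) (v : V) : {u | ∃ e, M.ve v e ∧ M.ve u e}.Finite := by
  have h : {u | ∃ e, M.ve v e ∧ M.ve u e} ⊆ ⋃ e ∈ {e | M.ve v e}, {u | M.ve u e} := by
    rintro u ⟨e, hv, hu⟩
    exact mem_biUnion (show e ∈ {e | M.ve v e} from hv) hu
  refine Finite.subset (Finite.biUnion (M.vert_fin v) fun e _ => ?_) h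
  obtain ⟨f, g, -, hfg⟩ := M.edge_verts e
  have : {t | M.ve t e} = {f, g} := by
    ext t; simp [hfg t]
  rw [this]; simp

theorem cD2_net (M : PolyMap V E F) (D : Set F) {c : V → V → ℝ} (hc : PosWt M.toInc c) :
    Net (discWt M.toInc D c) := by
  constructor
  · intro v
    refine (cD2_nbr_fin M v).subset ?_
    intro u hu
    unfold discWt at hu
    by_contra hcon
    apply hu
    have h1 : ¬ M.vadj.Adj v u := fun h => hcon h.2
    have h2 : ¬ FrAdj M.toInc D v u := fun h => by
      obtain ⟨-, e, -, h3, h4⟩ := h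
      exact hcon ⟨e, h3, h4⟩
    simp [h1, h2]
  · intro v u
    unfold discWt
    split_ifs with h1 h2 h3
    · exact (hc v u h2).le
    · exact le_rfl
    · exact zero_le_one
    · exact le_rfl

theorem cD2_exists_vert (M : PolyMap V E F) (f : F) : ∃ v, M.vf v f := by
  have hcard := M.face_card f
  have hne : {e | M.ef e f}.Nonempty := by
    by_contra h
    rw [not_nonempty_iff_eq_empty] at h
    rw [h] at hcard
    simp at hcard
  obtain ⟨e, he⟩ := hne
  obtain ⟨u, v, -, huv⟩ := M.edge_verts e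
  exact ⟨u, e, (huv u).2 (Or.inl rfl), he⟩

/-- Every unknown reaches a corner. -/
theorem cD2_reach (hB : Stmt_Bond) (hV : Stmt_FrVertex) (hC : Stmt_Coarse) (M : PlaneMap V E F)
    {D : Set F} (hD : TightDisc M.toInc D) {c : V → V → ℝ} (hc : PosWt M.toInc c) (v : V)
    (hv : v ∈ Unk M.toInc D) :
    ∃ u, u ∉ Unk M.toInc D ∧ Relation.ReflTransGen (Step (discWt M.toInc D c)) v u := by
  by_contra hcon
  push Not at hcon
  let R : Set V := {u | Relation.ReflTransGen (Step (discWt M.toInc D c)) v u}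
  have hR : ∀ u ∈ R, u ∈ Unk M.toInc D := by
    intro u hu
    by_contra h
    exact hcon u h hu
  have hvR : v ∈ R := Relation.ReflTransGen.refl
  have hstep : ∀ u ∈ R, ∀ w, 0 < discWt M.toInc D c u w → w ∈ R := fun u hu w h =>
    Relation.ReflTransGen.tail hu h
  have hDc : (Dᶜ : Set F).Nonempty := by
    haveI := M.finf
    exact hD.fin.infinite_compl.nonempty
  by_cases hall : ∀ u ∈ R, IntV M.toInc D u
  · -- only interior vertices
    have huniv : R = univ := by
      refine M.vconn.eq_of_closed (subset_univ _) ⟨v, hvR⟩ ?_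
      intro u hu w _ huw
      refine hstep u hu w ?_
      unfold discWt
      rw [if_pos (hall u hu), if_pos huw]
      exact hc u w huw
    obtain ⟨f, hf⟩ := hDc
    obtain ⟨w, hw⟩ := cD2_exists_vert M.toPolyMap f
    have hwR : w ∈ R := huniv ▸ mem_univ w
    exact (hall w hwR).2 ⟨f, hf, hw⟩
  · push Not at hall
    obtain ⟨w, hwR, hwI⟩ := hall
    have hwD : Touch M.toInc D w := (hR w hwR).1
    have hwDc : Touch M.toInc Dᶜ w := by
      by_contra h
      exact hwI ⟨hwD, h⟩
    obtain ⟨n, x, y, hcur⟩ := hB V E F M D hD.ne hDc hD.conn hD.compl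
    have hyfr : ∀ i, y i ∈ fr M.toInc D := fun i => (hcur.mem _).2 ⟨i, rfl⟩
    have hxne : ∀ i, x i ≠ x (i + 1) := by
      intro i h
      have h4 := (hcur.x_eq _ _).1 h.symm
      have h5 : (n : ℤ) ∣ 1 := by simpa using h4
      have h6 : n ∣ 1 := by exact_mod_cast h5
      have h7 := Nat.dvd_one.1 h6
      rcases hcur.n_ne with h | h <;> omega
    have hxI : ∀ i, ¬ IntV M.toInc D (x i) := by
      intro i h
      obtain ⟨-, g, hg, heg⟩ := hyfr i
      exact h.2 ⟨g, hg, y i, (hcur.ve i _).2 (Or.inl rfl), heg⟩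
    have hfradj : ∀ i, FrAdj M.toInc D (x i) (x (i + 1)) := fun i =>
      ⟨hxne i, y i, hyfr i, (hcur.ve i _).2 (Or.inl rfl), (hcur.ve i _).2 (Or.inr rfl)⟩
    have hfradj' : ∀ i, FrAdj M.toInc D (x (i + 1)) (x i) := fun i =>
      ⟨(hxne i).symm, y i, hyfr i, (hcur.ve i _).2 (Or.inr rfl), (hcur.ve i _).2 (Or.inl rfl)⟩
    have hnext : ∀ i, x i ∈ R → x (i + 1) ∈ R := by
      intro i hi
      refine hstep _ hi _ ?_
      unfold discWt
      rw [if_neg (hxI i), if_pos (hfradj i)]
      exact one_pos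
    have hprev : ∀ i, x (i + 1) ∈ R → x i ∈ R := by
      intro i hi
      refine hstep _ hi _ ?_
      unfold discWt
      rw [if_neg (hxI (i + 1)), if_pos (hfradj' i)]
      exact one_pos
    have honline : ∀ u, Touch M.toInc D u → Touch M.toInc Dᶜ u → ∃ i, x i = u := by
      intro u h1 h2
      obtain ⟨e, he, hve⟩ := hV V E F M.toPolyMap D u h1 h2
      obtain ⟨i, rfl⟩ := (hcur.mem e).1 he
      rcases (hcur.ve i u).1 hve with h | h
      · exact ⟨i, h.symm⟩
      · exact ⟨i + 1, h.symm⟩
    obtain ⟨i, hi⟩ := honline w hwD hwDc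
    have hxi : x i ∈ R := hi ▸ hwR
    have hup : ∀ k : ℕ, x (i + k) ∈ R := by
      intro k
      induction k with
      | zero => simpa using hxi
      | succ k ih =>
        have : i + ((k + 1 : ℕ) : ℤ) = i + k + 1 := by push_cast; ring
        rw [this]
        exact hnext _ ih
    have hdown : ∀ k : ℕ, x (i - k) ∈ R := by
      intro k
      induction k with
      | zero => simpa using hxi
      | succ k ih =>
        refine hprev _ ?_
        have : i - ((k + 1 : ℕ) : ℤ) + 1 = i - k := by push_cast; ring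
        rw [this]
        exact ih
    have hallx : ∀ j, x j ∈ R := by
      intro j
      rcases le_total i j with h | h
      · obtain ⟨k, rfl⟩ := Int.le.dest h
        exact hup k
      · obtain ⟨k, hk⟩ := Int.le.dest h
        have : j = i - k := by omega
        rw [this]
        exact hdown k
    -- a corner
    obtain ⟨N, hN⟩ := hC V E F M D hD
    obtain ⟨u, hu⟩ := cD2_exists_vert N.toPolyMap none
    rw [hN] at hu
    obtain ⟨e, hve, hef⟩ := hu
    rcases e with e | f
    · exact hef
    · have htouch : Touch M.toInc D u.1 := hve.2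
      have hcorner : Corner M.toInc D u.1 := ⟨htouch, u.2⟩
      obtain ⟨f', g', -, hf', -, hvf', -⟩ := u.2
      obtain ⟨j, hj⟩ := honline u.1 htouch ⟨f', hf', hvf'⟩
      exact (hR _ (hj ▸ hallx j)).2 hcorner

end

/-- D2: existence and uniqueness for the disc problem. -/
theorem cD2 (hDir : Stmt_Dirichlet) (hB : Stmt_Bond) (hV : Stmt_FrVertex) (hC : Stmt_Coarse) :
    Stmt_DiscExt := by
  intro V E F M D hD c hc P
  letI : MulAction Unit V :=
    { smul := fun _ v => v
      one_smul := fun _ => rfl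
      mul_smul := fun _ _ _ => rfl }
  have hsm : ∀ (h : Unit) (v : V), h • v = v := fun _ _ => rfl
  obtain ⟨φ, h1, h2, h3, h4⟩ := hDir V Unit (discWt M.toInc D c) (cD2_net M.toPolyMap D hc)
    (fun h u v => by rw [hsm, hsm]) (fun h v _ => rfl) (fun _ => 0) (fun _ _ => by simp)
    (Unk M.toInc D) (fun h v hv => by rw [hsm]; exact hv) (by
      refine ⟨Unk M.toInc D, ?_, fun v hv => ⟨1, v, hv, rfl⟩⟩
      have hsub : Unk M.toInc D ⊆ ⋃ d ∈ D, {v | M.vf v d} := by
        rintro v ⟨⟨d, hd, hvd⟩, -⟩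
        exact mem_biUnion hd hvd
      refine Finite.subset (Finite.biUnion hD.fin fun d _ => ?_) hsub
      have h : {v | M.vf v d} ⊆ ⋃ e ∈ {e | M.ef e d}, {v | M.ve v e} := by
        rintro v ⟨e, hv, ht⟩
        exact mem_biUnion (show e ∈ {e | M.ef e d} from ht) hv
      refine Finite.subset (Finite.biUnion (M.face_fin d) fun e _ => ?_) h
      obtain ⟨f, g, -, hfg⟩ := M.edge_verts e
      have : {v | M.ve v e} = {f, g} := by
        ext t; simp [hfg t]
      rw [this]; simp)
    (fun v hv => cD2_reach hB hV hC M hD hc v hv) P (fun h v _ => by rw [hsm, add_zero])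
  exact ⟨φ, ⟨h1, h2⟩, fun φ' hφ' => h4 φ' hφ'.1 hφ'.2 (fun h v => by rw [hsm, add_zero])⟩

end Pool.Agent.CT
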