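import Pool.Agent.CT.DDefs

set_option autoImplicit false

/-! # D7: the assumptions of the block theorem hold for a disc block -/

namespace Pool.Agent.CT

open Set Metric

section d7

variable {V E F : Type}

theorem cD7_dir_neg (w z : ℂ) : dir (-w) z = - dir w z := by
  simp only [dir, Complex.neg_re, Complex.neg_im]
  ring

theorem cD7_edge_fin (M : PolyMap V E F) (e : E) : {u | M.ve u e}.Finite := by
  obtain ⟨a, b, -, h⟩ := M.edge_verts e
  refine (Set.toFinite {a, b}).subset fun u hu => ?_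
  rcases (h u).1 hu with rfl | rfl
  · exact Or.inl rfl
  · exact Or.inr rfl

theorem cD7_nbr_fin (M : PolyMap V E F) (v : V) : {u | M.vadj.Adj v u}.Finite := by
  refine ((M.vert_fin v).biUnion fun e _ => cD7_edge_fin M e).subset ?_
  rintro u ⟨-, e, h1, h2⟩
  exact mem_biUnion (show e ∈ {e | M.ve v e} from h1) h2

theorem cD7_net (M : PolyMap V E F) (D : Set F) (c : V → V → ℝ) (hc : PosWt M.toInc c) :
    Net (discWt M.toInc D c) := by
  classical
  refine ⟨fun v => ?_, fun v u => ?_⟩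
  · refine (cD7_nbr_fin M v).subset fun u hu => ?_
    by_contra hn
    apply hu
    unfold discWt
    split_ifs with h1 h2 h3
    · exact (hn h2).elim
    · rfl
    · obtain ⟨hne, e, -, h5, h6⟩ := h3
      exact (hn ⟨hne, e, h5, h6⟩).elim
    · rfl
  · unfold discWt
    split_ifs with h1 h2 h3
    · exact (hc v u h2).le
    · exact le_rfl
    · exact zero_le_one
    · exact le_rfl

theorem cD7_pos_iff (M : PolyMap V E F) (D : Set F) (c : V → V → ℝ) (hc : PosWt M.toInc c)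
    {v : V} (hv : IntV M.toInc D v) (u : V) : 0 < discWt M.toInc D c v u ↔ M.vadj.Adj v u := by
  classical
  unfold discWt
  rw [if_pos hv]
  split_ifs with h
  · exact ⟨fun _ => h, fun _ => hc v u h⟩
  · exact ⟨fun h' => (lt_irrefl _ h').elim, fun h' => (h h').elim⟩

theorem cD7_unk (M : PolyMap V E F) {D : Set F} {v : V} (hv : IntV M.toInc D v) :
    v ∈ Unk M.toInc D := by
  refine ⟨hv.1, ?_⟩
  rintro ⟨-, f, g, -, hf, -, h, -⟩
  exact hv.2 ⟨f, hf, h⟩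

/-- Neighbours of an interior vertex are joined to it in `D`. -/
theorem cD7_nb (M : PolyMap V E F) {D : Set F} {v u : V} (hv : IntV M.toInc D v)
    (h : M.vadj.Adj v u) : ∃ e, (∃ d ∈ D, M.ef e d) ∧ M.ve v e ∧ M.ve u e := by
  obtain ⟨-, e, h1, h2⟩ := h
  obtain ⟨f, g, -, hfg⟩ := M.edge_faces e
  have hf : M.ef e f := (hfg f).2 (Or.inl rfl)
  refine ⟨e, ⟨f, ?_, hf⟩, h1, h2⟩
  by_contra hD
  exact hv.2 ⟨f, hD, e, h1, hf⟩

theorem cD7_nb_touch (M : PolyMap V E F) {D : Set F} {v u : V} (hv : IntV M.toInc D v)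
    (h : M.vadj.Adj v u) : Touch M.toInc D u := by
  obtain ⟨e, ⟨d, hd, hed⟩, -, h2⟩ := cD7_nb M hv h
  exact ⟨d, hd, e, h2, hed⟩

theorem cD7_face_fin (M : PolyMap V E F) (f : F) : {v | M.vf v f}.Finite := by
  refine ((M.face_fin f).biUnion fun e _ => cD7_edge_fin M e).subset ?_
  rintro v ⟨e, h1, h2⟩
  exact mem_biUnion (show e ∈ {e | M.ef e f} from h2) h1

theorem cD7_touch_fin (M : PolyMap V E F) {D : Set F} (hD : D.Finite) :
    {v | Touch M.toInc D v}.Finite := by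
  refine (hD.biUnion fun f _ => cD7_face_fin M f).subset ?_
  rintro v ⟨d, hd, h⟩
  exact mem_biUnion hd h

theorem cD7_far (M : PlaneMap V E F) {D : Set F} (hD : D.Finite) (t : F) :
    ∃ z, ¬ Touch M.toInc D z ∧ ¬ M.vf z t := by
  have hfin : ({v | Touch M.toInc D v} ∪ {v | M.vf v t}).Finite :=
    (cD7_touch_fin M.toPolyMap hD).union (cD7_face_fin M.toPolyMap t)
  have := M.vinf
  obtain ⟨z, hz⟩ := hfin.exists_notMem
  exact ⟨z, fun h => hz (Or.inl h), fun h => hz (Or.inr h)⟩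

/-- The graph of the edges in `D`. -/
def cD7_G (M : Inc V E F) (D : Set F) : SimpleGraph V where
  Adj u v := u ≠ v ∧ ∃ e, (∃ d ∈ D, M.ef e d) ∧ M.ve u e ∧ M.ve v e
  symm := ⟨fun _ _ h => ⟨h.1.symm, h.2.imp fun _ h' => ⟨h'.1, h'.2.2, h'.2.1⟩⟩⟩
  loopless := ⟨fun _ h => h.1 rfl⟩

theorem cD7_transfer (M : Inc V E F) {D : Set F} {Z : Set V} {a b : V}
    (h : ReachIn (cD7_G M D) Z a b) (ha : Touch M D a) : ∃ hb : Touch M D b,
    ReachIn (subInc M D).vadj {v | v.1 ∈ Z} ⟨a, ha⟩ ⟨b, hb⟩ := by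
  induction h with
  | refl => exact ⟨ha, ReachIn.refl _⟩
  | @tail x y _ h1 ih =>
    obtain ⟨hx, h2⟩ := ih
    obtain ⟨⟨hne, e, ⟨d, hd, hed⟩, h3, h4⟩, h5, h6⟩ := h1
    have hy : Touch M D y := ⟨d, hd, e, h4, hed⟩
    refine ⟨hy, h2.tail ⟨?_, ⟨e, d, hd, hed⟩, h3, h4⟩ h5 h6⟩
    intro heq
    exact hne (congrArg Subtype.val heq)

/-- The assumption on a real function: maximum principle at interior vertices. -/
def cD7_Max (M : Inc V E F) (D : Set F) (f : V → ℝ) : Prop :=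
  ∀ v, IntV M D v → (∀ u, M.vadj.Adj v u → f u ≤ f v) → ∀ u, M.vadj.Adj v u → f u = f v

theorem cD7_up1 (M : PlaneMap V E F) {D : Set F} (hD : D.Finite) {f : V → ℝ}
    (hf : cD7_Max M.toInc D f) {c : ℝ} {a : V} (ha : Touch M.toInc D a) (hca : c < f a) :
    ∃ b, BdV M.toInc D b ∧ c < f b ∧ ReachIn (cD7_G M.toInc D) {v | c < f v} a b := by
  set K : Set V := {x | Touch M.toInc D x ∧ ReachIn (cD7_G M.toInc D) {v | c < f v} a x} with hK
  have hKf : K.Finite := (cD7_touch_fin M.toPolyMap hD).subset fun x hx => hx.1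
  have hKn : K.Nonempty := ⟨a, ha, ReachIn.refl _⟩
  obtain ⟨x0, hx0, hmax⟩ := Set.exists_max_image K f hKf hKn
  have hKc : ∀ x ∈ K, c < f x := by
    intro x hx
    have : x ∈ {v | c < f v} := ReachIn.mem hx.2 hca
    exact this
  by_contra hcon
  push Not at hcon
  have hint : ∀ x ∈ K, IntV M.toInc D x := by
    intro x hx
    refine ⟨hx.1, fun h => ?_⟩
    exact hcon x ⟨hx.1, h⟩ (hKc x hx) hx.2
  set X : Set V := {x | x ∈ K ∧ f x = f x0} with hX
  have hcl : ∀ x ∈ X, ∀ y ∈ (univ : Set V), M.vadj.Adj x y → y ∈ X := by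
    rintro x ⟨hxK, hxe⟩ y - hxy
    have hxi := hint x hxK
    have hstep : ∀ u, M.vadj.Adj x u → c < f u → u ∈ K := by
      intro u hu hcu
      refine ⟨cD7_nb_touch M.toPolyMap hxi hu, hxK.2.tail ?_ (hKc x hxK) hcu⟩
      exact ⟨hu.1, cD7_nb M.toPolyMap hxi hu⟩
    have hle : ∀ u, M.vadj.Adj x u → f u ≤ f x := by
      intro u hu
      by_cases hcu : c < f u
      · rw [hxe]
        exact hmax u (hstep u hu hcu)
      · exact (not_lt.1 hcu).trans (hKc x hxK).le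
    have heq := hf x hxi hle y hxy
    refine ⟨hstep y hxy ?_, heq.trans hxe⟩
    rw [heq]
    exact hKc x hxK
  have huniv : X = univ := M.vconn.eq_of_closed (subset_univ _) ⟨x0, hx0, rfl⟩ hcl
  obtain ⟨d, hd⟩ : ∃ d : F, True := by
    obtain ⟨d, -, -⟩ := ha
    exact ⟨d, trivial⟩
  obtain ⟨z, hz, -⟩ := cD7_far M hD d
  have : z ∈ X := huniv ▸ mem_univ z
  exact hz this.1.1

theorem cD7_inside (h2 : Stmt_NonSep) (M : PlaneMap V E F) {D : Set F} (hD : D.Finite)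
    {f : V → ℝ} (hf : cD7_Max M.toInc D f) {t : F} (ht : t ∉ D)
    (hext : ∀ v, BdV M.toInc D v → (∀ u, BdV M.toInc D u → f u ≤ f v) → M.vf v t)
    {v : V} (hv : IntV M.toInc D v) : ∃ u, BdV M.toInc D u ∧ f v < f u := by
  by_contra hcon
  push Not at hcon
  obtain ⟨x0, hx0, hmax⟩ := Set.exists_max_image _ f (cD7_touch_fin M.toPolyMap hD) ⟨v, hv.1⟩
  obtain ⟨x1, hx1, hx1m⟩ : ∃ x1, IntV M.toInc D x1 ∧ ∀ x, Touch M.toInc D x → f x ≤ f x1 := by
    by_cases hb : Touch M.toInc Dᶜ x0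
    · exact ⟨v, hv, fun x hx => (hmax x hx).trans (hcon x0 ⟨hx0, hb⟩)⟩
    · exact ⟨x0, ⟨hx0, hb⟩, hmax⟩
  set X : Set V := {x | IntV M.toInc D x ∧ f x = f x1} with hX
  have hsub : X ⊆ {v | ¬ M.vf v t} := fun x hx h => hx.1.2 ⟨t, ht, h⟩
  have hcl : ∀ x ∈ X, ∀ y ∈ {v | ¬ M.vf v t}, M.vadj.Adj x y → y ∈ X := by
    rintro x ⟨hxi, hxe⟩ y hy hxy
    have hle : ∀ u, M.vadj.Adj x u → f u ≤ f x := fun u hu => by
      rw [hxe]
      exact hx1m u (cD7_nb_touch M.toPolyMap hxi hu)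
    have heq := hf x hxi hle y hxy
    have hyt := cD7_nb_touch M.toPolyMap hxi hxy
    refine ⟨⟨hyt, fun hb => ?_⟩, heq.trans hxe⟩
    apply hy
    refine hext y ⟨hyt, hb⟩ fun u hu => ?_
    rw [heq, hxe]
    exact hx1m u hu.1
  have hall : X = {v | ¬ M.vf v t} :=
    (h2 V E F M.toPolyMap M.vconn t).eq_of_closed hsub ⟨x1, hx1, rfl⟩ hcl
  obtain ⟨z, hz, hz'⟩ := cD7_far M hD t
  have : z ∈ X := hall ▸ hz'
  exact hz this.1.1

/-- Two faces do not share two edges. -/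
theorem cD7_two (h4 : Stmt_NoDouble) (M : PolyMap V E F) {e d : E} {f g : F} (hfg : f ≠ g)
    (h1 : M.ef e f) (h2 : M.ef e g) (h3 : M.ef d f) (h5 : M.ef d g) : e = d := by
  by_contra hne
  exact h4 F E V M.dualMap e d f g hne hfg h1 h2 h3 h5

theorem cD7_three (M : PolyMap V E F) {e : E} {f g h : F} (h1 : M.ef e f) (h2 : M.ef e g)
    (h3 : M.ef e h) (hfg : f ≠ g) (hfh : f ≠ h) (hgh : g ≠ h) : False := by
  obtain ⟨a, b, -, hab⟩ := M.edge_faces e
  rcases (hab f).1 h1 with rfl | rfl <;> rcases (hab g).1 h2 with rfl | rfl <;>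
    rcases (hab h).1 h3 with rfl | rfl <;> simp_all

theorem cD7_threeV (M : PolyMap V E F) {e : E} {f g h : V} (h1 : M.ve f e) (h2 : M.ve g e)
    (h3 : M.ve h e) (hfg : f ≠ g) (hfh : f ≠ h) (hgh : g ≠ h) : False :=
  cD7_three M.dualMap h1 h2 h3 hfg hfh hgh

end d7

/-- D7. -/
theorem cD7 (h1 : Stmt_Harm) (h2 : Stmt_NonSep) (h3 : Stmt_ThreeConn) (h4 : Stmt_NoDouble) :
    Stmt_DiscHyp := by
  intro V E F M D hD c hc P φ hφ hA
  have hnet := cD7_net M.toPolyMap D c hc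
  obtain ⟨hH1, hH2, hH3, -⟩ := h1 V (discWt M.toInc D c) hnet
  -- harmonicity of the functionals
  have hharm : ∀ (w : ℂ) (v : V), IntV M.toInc D v →
      Harm (discWt M.toInc D c) (fun u => dir w (φ u)) v := fun w v hv =>
    hH3 φ v w (hφ.2 v (cD7_unk M.toPolyMap hv))
  have hmax : ∀ w : ℂ, cD7_Max M.toInc D (fun u => dir w (φ u)) := by
    intro w v hv hle u hu
    refine hH1 _ v (hharm w v hv) (fun u hu => ?_) u ?_
    · exact hle u ((cD7_pos_iff M.toPolyMap D c hc hv u).1 hu)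
    · exact (cD7_pos_iff M.toPolyMap D c hc hv u).2 hu
  have hdown : ∀ (w : ℂ) (v : V), IntV M.toInc D v → (∃ u, M.vadj.Adj v u ∧
      dir w (φ v) < dir w (φ u)) → ∃ u, M.vadj.Adj v u ∧ dir w (φ u) < dir w (φ v) := by
    rintro w v hv ⟨u, hu, hlt⟩
    obtain ⟨u', hu', hlt'⟩ := hH2 _ v (hharm w v hv)
      ⟨u, (cD7_pos_iff M.toPolyMap D c hc hv u).2 hu, hlt⟩
    exact ⟨u', (cD7_pos_iff M.toPolyMap D c hc hv u').1 hu', hlt'⟩
  have hin : ∀ w : ℂ, w ≠ 0 → ∀ v, IntV M.toInc D v → ∃ u, BdV M.toInc D u ∧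
      dir w (φ v) < dir w (φ u) := by
    intro w hw v hv
    obtain ⟨t, ht, hext⟩ := hA.ext w hw
    exact cD7_inside h2 M hD.fin (hmax w) ht hext hv
  refine ⟨?_, hin⟩
  intro B hB
  obtain ⟨B0, hev, hcyc, hpl⟩ := B
  simp only at hB
  subst hB
  -- extreme vertices are in a common outer face
  have hexm : ∀ w : ℂ, w ≠ 0 → ∀ c : ℝ, (∀ u : {v // Touch M.toInc D v}, dir w (φ u.1) ≤ c) →
      ∃ t, t ∉ D ∧ ∀ v : {v // Touch M.toInc D v}, dir w (φ v.1) = c → M.vf v.1 t := by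
    intro w hw c hcm
    obtain ⟨t, ht, hext⟩ := hA.ext w hw
    refine ⟨t, ht, fun v hv => ?_⟩
    have hb : BdV M.toInc D v.1 := by
      refine ⟨v.2, ?_⟩
      by_contra hb
      obtain ⟨u, hu, hlt⟩ := hin w hw v.1 ⟨v.2, hb⟩
      exact absurd (hcm ⟨u, hu.1⟩) (not_le.2 (hv ▸ hlt))
    refine hext v.1 hb fun u hu => ?_
    rw [hv]
    exact hcm ⟨u, hu.1⟩
  refine ⟨?_, ?_, ?_, ?_, ?_⟩
  · -- up
    intro w hw c0
    rintro ⟨a, ha⟩ hca ⟨b, hb⟩ hcb
    obtain ⟨a', ha'b, ha'c, hra⟩ := cD7_up1 M hD.fin (hmax w) ha hca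
    obtain ⟨b', hb'b, hb'c, hrb⟩ := cD7_up1 M hD.fin (hmax w) hb hcb
    have harc : ∀ z, Relation.ReflTransGen (fun a b => FrAdj M.toInc D a b ∧
        c0 < dir w (φ a) ∧ c0 < dir w (φ b)) a' z →
        ReachIn (cD7_G M.toInc D) {v | c0 < dir w (φ v)} a' z := by
      intro z hz
      induction hz with
      | refl => exact ReachIn.refl _
      | @tail x y _ h1 ih =>
        obtain ⟨⟨hne, e, ⟨⟨d, hd, hed⟩, -⟩, h5, h6⟩, h7, h8⟩ := h1
        exact ih.tail ⟨hne, e, ⟨d, hd, hed⟩, h5, h6⟩ h7 h8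
    have hmid := harc b' (hA.arc w hw c0 a' b' ha'b hb'b ha'c hb'c)
    have hall := (hra.trans hmid).trans hrb.symm
    obtain ⟨hb', h⟩ := cD7_transfer M.toInc hall ha
    exact h
  · -- alive
    rintro w hw ⟨v, hv⟩ ⟨⟨u1, hu1⟩, hlt1⟩ ⟨⟨u2, hu2⟩, hlt2⟩
    by_cases hb : Touch M.toInc Dᶜ v
    · left
      have hbd : ∀ w : ℂ, w ≠ 0 → ∀ u, Touch M.toInc D u → dir w (φ v) < dir w (φ u) →
          ∃ u, BdV M.toInc D u ∧ dir w (φ v) < dir w (φ u) := by
        intro w hw u hu hlt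
        by_cases hub : Touch M.toInc Dᶜ u
        · exact ⟨u, ⟨hu, hub⟩, hlt⟩
        · obtain ⟨u', hu', hlt'⟩ := hin w hw u ⟨hu, hub⟩
          exact ⟨u', hu', hlt.trans hlt'⟩
      have hw' : -w ≠ 0 := neg_ne_zero.2 hw
      have hup := hbd w hw u1 hu1 hlt1
      have hdn := hbd (-w) hw' u2 hu2 (by
        simp only [cD7_dir_neg]
        exact neg_lt_neg hlt2)
      have hadj : ∀ u, FrAdj M.toInc D v u → ∃ hu : Touch M.toInc D u,
          (subInc M.toInc D).vadj.Adj ⟨v, hv⟩ ⟨u, hu⟩ := by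
        rintro u ⟨hne, e, ⟨⟨d, hd, hed⟩, -⟩, h5, h6⟩
        refine ⟨⟨d, hd, e, h6, hed⟩, fun h => hne (congrArg Subtype.val h), ⟨e, d, hd, hed⟩, h5, h6⟩
      constructor
      · obtain ⟨u, hu, hlt⟩ := hA.alive w hw v ⟨hv, hb⟩ hup (by
          obtain ⟨u, hu, hlt⟩ := hdn
          simp only [cD7_dir_neg] at hlt
          exact ⟨u, hu, neg_lt_neg_iff.1 hlt⟩)
        obtain ⟨hu', h⟩ := hadj u hu
        exact ⟨⟨u, hu'⟩, h, hlt⟩
      · obtain ⟨u, hu, hlt⟩ := hA.alive (-w) hw' v ⟨hv, hb⟩ hdn (by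
          obtain ⟨u, hu, hlt⟩ := hup
          refine ⟨u, hu, ?_⟩
          simp only [cD7_dir_neg]
          exact neg_lt_neg hlt)
        obtain ⟨hu', h⟩ := hadj u hu
        simp only [cD7_dir_neg] at hlt
        exact ⟨⟨u, hu'⟩, h, neg_lt_neg_iff.1 hlt⟩
    · have hvi : IntV M.toInc D v := ⟨hv, hb⟩
      have hadj : ∀ u, M.vadj.Adj v u → ∃ hu : Touch M.toInc D u,
          (subInc M.toInc D).vadj.Adj ⟨v, hv⟩ ⟨u, hu⟩ := by
        intro u hu
        refine ⟨cD7_nb_touch M.toPolyMap hvi hu, ?_⟩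
        obtain ⟨e, ⟨d, hd, hed⟩, h5, h6⟩ := cD7_nb M.toPolyMap hvi hu
        exact ⟨fun h => hu.1 (congrArg Subtype.val h), ⟨e, d, hd, hed⟩, h5, h6⟩
      have hadj' : ∀ u : {v // Touch M.toInc D v}, (subInc M.toInc D).vadj.Adj ⟨v, hv⟩ u →
          M.vadj.Adj v u.1 := by
        rintro ⟨u, hu⟩ ⟨hne, ⟨e, he⟩, h5, h6⟩
        exact ⟨fun h => hne (Subtype.ext h), e, h5, h6⟩
      by_cases hall : ∀ u, M.vadj.Adj v u → dir w (φ u) = dir w (φ v)
      · right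
        exact ⟨hvi, fun u hu => hall u.1 (hadj' u hu)⟩
      · left
        push Not at hall
        obtain ⟨u, hu, hne⟩ := hall
        have key : (∃ u, M.vadj.Adj v u ∧ dir w (φ v) < dir w (φ u)) ∧
            ∃ u, M.vadj.Adj v u ∧ dir w (φ u) < dir w (φ v) := by
          rcases lt_or_gt_of_ne hne with h | h
          · refine ⟨?_, ⟨u, hu, h⟩⟩
            obtain ⟨u', hu', hlt'⟩ := hdown (-w) v hvi ⟨u, hu, by
              simp only [cD7_dir_neg]
              exact neg_lt_neg h⟩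
            simp only [cD7_dir_neg] at hlt'
            exact ⟨u', hu', neg_lt_neg_iff.1 hlt'⟩
          · exact ⟨⟨u, hu, h⟩, hdown w v hvi ⟨u, hu, h⟩⟩
        obtain ⟨⟨a, ha, hlta⟩, ⟨b, hb, hltb⟩⟩ := key
        obtain ⟨ha', ha''⟩ := hadj a ha
        obtain ⟨hb', hb''⟩ := hadj b hb
        exact ⟨⟨⟨a, ha'⟩, ha'', hlta⟩, ⟨⟨b, hb'⟩, hb'', hltb⟩⟩
  · -- sep
    intro K hKI hKn hKc hS
    set N : Set {v // Touch M.toInc D v} :=
      {v | v ∉ K ∧ ∃ k ∈ K, (subInc M.toInc D).vadj.Adj k v} with hN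
    have hS' : (Subtype.val '' N).encard ≤ 2 := by
      rw [Subtype.val_injective.encard_image]
      exact hS
    have hconn := h3 V E F M.toPolyMap M.vconn _ hS'
    have hsub : Subtype.val '' K ⊆ (Subtype.val '' N)ᶜ := by
      rintro _ ⟨k, hk, rfl⟩ ⟨n, hn, hne⟩
      have := Subtype.ext hne
      subst this
      exact hn.1 hk
    have hcl : ∀ x ∈ Subtype.val '' K, ∀ y ∈ (Subtype.val '' N)ᶜ, M.vadj.Adj x y →
        y ∈ Subtype.val '' K := by
      rintro _ ⟨k, hk, rfl⟩ y hy hxy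
      have hki : IntV M.toInc D k.1 := hKI hk
      obtain ⟨e, ⟨d, hd, hed⟩, h5, h6⟩ := cD7_nb M.toPolyMap hki hxy
      have hyt : Touch M.toInc D y := ⟨d, hd, e, h6, hed⟩
      by_contra hyK
      apply hy
      refine ⟨⟨y, hyt⟩, ⟨fun h => hyK ⟨_, h, rfl⟩, k, hk, fun h => hxy.1 (congrArg Subtype.val h),
        ⟨e, d, hd, hed⟩, h5, h6⟩, rfl⟩
    have hall := hconn.eq_of_closed hsub (hKn.image _) hcl
    intro v
    by_cases hv : v.1 ∈ Subtype.val '' N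
    · obtain ⟨n, hn, hne⟩ := hv
      have := Subtype.ext hne
      subst this
      exact Or.inr hn.2
    · left
      have : v.1 ∈ Subtype.val '' K := hall ▸ hv
      obtain ⟨k, hk, hke⟩ := this
      have := Subtype.ext hke
      subst this
      exact hk
  · -- face3
    intro w hw c0 f p hp hpf hpc
    by_contra hcon
    push Not at hcon
    obtain ⟨t, ht, hext⟩ := hexm w hw c0 hcon
    have hft : f.1 ≠ t := fun h => ht (h ▸ f.2)
    have hvf : ∀ i, ∃ e, M.ve (p i).1 e ∧ M.ef e f.1 := by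
      intro i
      obtain ⟨e, h5, h6⟩ := hpf i
      exact ⟨e.1, h5, h6⟩
    have hvt : ∀ i, ∃ e, M.ve (p i).1 e ∧ M.ef e t := fun i => hext (p i) (hpc i)
    have hne : ∀ i j, i ≠ j → (p i).1 ≠ (p j).1 := fun i j hij h => hij (hp (Subtype.ext h))
    have hedge : ∀ i j, i ≠ j → ∃ e, M.ve (p i).1 e ∧ M.ve (p j).1 e ∧ M.ef e f.1 ∧ M.ef e t :=
      fun i j hij => M.inter f.1 t hft _ _ (hne i j hij) (hvf i) (hvt i) (hvf j) (hvt j)
    obtain ⟨e, he1, he2, he3, he4⟩ := hedge 0 1 (by decide)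
    obtain ⟨d, hd1, hd2, hd3, hd4⟩ := hedge 0 2 (by decide)
    have hed : e = d := cD7_two h4 M.toPolyMap hft he3 he4 hd3 hd4
    subst hed
    exact cD7_threeV M.toPolyMap he1 he2 hd2 (hne 0 1 (by decide)) (hne 0 2 (by decide))
      (hne 1 2 (by decide))
  · -- edge2
    intro w hw e f g u v hfg hef heg huv hu hv heq
    by_contra hcon
    push Not at hcon
    obtain ⟨t, ht, hext⟩ := hexm w hw _ hcon
    have hft : f.1 ≠ t := fun h => ht (h ▸ f.2)
    have hgt : g.1 ≠ t := fun h => ht (h ▸ g.2)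
    have hfg' : f.1 ≠ g.1 := fun h => hfg (Subtype.ext h)
    have huv' : u.1 ≠ v.1 := fun h => huv (Subtype.ext h)
    obtain ⟨e', h5, h6, h7, h8⟩ := M.inter f.1 t hft u.1 v.1 huv' ⟨e.1, hu, hef⟩
      (hext u rfl) ⟨e.1, hv, hef⟩ (hext v heq.symm)
    have hee : e.1 = e' := by
      by_contra hne
      exact h4 V E F M.toPolyMap e.1 e' u.1 v.1 hne huv' hu hv h5 h6
    exact cD7_three M.toPolyMap hef heg (hee ▸ h8) hfg' hft hgt

end Pool.Agent.CT
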