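import Pool.Agent.CT.DDefs

set_option autoImplicit false

/-! # D12: exhausting sequence of invariant tight discs -/

namespace Pool.Agent.CT

open Set

section

variable {V E F : Type}

theorem cD12_faces_fin (M : PolyMap V E F) (v : V) : {t | M.vf v t}.Finite := by
  have h : {t | M.vf v t} ⊆ ⋃ e ∈ {e | M.ve v e}, {t | M.ef e t} := by
    rintro t ⟨e, hv, ht⟩
    exact mem_biUnion (show e ∈ {e | M.ve v e} from hv) ht
  refine Finite.subset (Finite.biUnion (M.vert_fin v) fun e _ => ?_) h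
  obtain ⟨f, g, -, hfg⟩ := M.edge_faces e
  have : {t | M.ef e t} = {f, g} := by
    ext t; simp [hfg t]
  rw [this]; simp

theorem cD12_verts_fin (M : PolyMap V E F) (t : F) : {v | M.vf v t}.Finite := by
  have h : {v | M.vf v t} ⊆ ⋃ e ∈ {e | M.ef e t}, {v | M.ve v e} := by
    rintro v ⟨e, hv, ht⟩
    exact mem_biUnion (show e ∈ {e | M.ef e t} from ht) hv
  refine Finite.subset (Finite.biUnion (M.face_fin t) fun e _ => ?_) h
  obtain ⟨f, g, -, hfg⟩ := M.edge_verts e
  have : {v | M.ve v e} = {f, g} := by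
    ext t; simp [hfg t]
  rw [this]; simp

theorem cD12_touch_fin (M : PolyMap V E F) {D : Set F} (hD : D.Finite) :
    {t | ∃ v, M.vf v t ∧ Touch M.toInc D v}.Finite := by
  have h : {t | ∃ v, M.vf v t ∧ Touch M.toInc D v} ⊆
      ⋃ v ∈ (⋃ d ∈ D, {v | M.vf v d}), {t | M.vf v t} := by
    rintro t ⟨v, hv, d, hd, hvd⟩
    exact mem_biUnion (mem_biUnion hd hvd) hv
  exact Finite.subset (Finite.biUnion (Finite.biUnion hD fun d _ => cD12_verts_fin M d)
    fun v _ => cD12_faces_fin M v) h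

/-- Adjacency of outer faces in the coarse map. -/
theorem cD12_adj_some (M : PolyMap V E F) {D : Set F} {f g : F} (hf : f ∉ D) (hg : g ∉ D)
    (h : M.fadj.Adj f g) :
    (coarse M.toInc D).fadj.Adj (some ⟨f, hf⟩) (some ⟨g, hg⟩) := by
  obtain ⟨hne, e, hef, heg⟩ := h
  refine ⟨fun h => hne ?_, Sum.inl ⟨e, ?_⟩, hef, heg⟩
  · have := Option.some.inj h
    exact congrArg Subtype.val this
  · intro t ht
    obtain ⟨a, b, hab, hh⟩ := M.edge_faces e
    rcases (hh f).1 hef with rfl | rfl <;> rcases (hh g).1 heg with rfl | rfl <;>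
      rcases (hh t).1 ht with rfl | rfl <;> first | assumption | exact absurd rfl hne

theorem cD12_adj_none (M : PolyMap V E F) {D : Set F} {f g : F} (hf : f ∈ D) (hg : g ∉ D)
    (h : M.fadj.Adj f g) :
    (coarse M.toInc D).fadj.Adj none (some ⟨g, hg⟩) := by
  obtain ⟨hne, e, hef, heg⟩ := h
  refine ⟨?_, Sum.inr ⟨g, hg, e, heg, f, hf, hef⟩, trivial, rfl⟩
  intro h
  cases h

open Classical in
/-- The collapsing map. -/
noncomputable def cD12_pi (M : Inc V E F) (D : Set F) (f : F) : CF M D :=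
  if h : f ∈ D then none else some ⟨f, h⟩

theorem cD12_pi_mem {M : Inc V E F} {D : Set F} {f : F} (h : f ∈ D) : cD12_pi M D f = none := by
  simp [cD12_pi, h]

theorem cD12_pi_not {M : Inc V E F} {D : Set F} {f : F} (h : f ∉ D) :
    cD12_pi M D f = some ⟨f, h⟩ := by
  simp [cD12_pi, h]

theorem cD12_pi_reach (M : PolyMap V E F) {D A : Set F} {B : Set (CF M.toInc D)}
    (hB : ∀ f ∈ A, cD12_pi M.toInc D f ∈ B) {f g : F} (h : ReachIn M.fadj A f g) :
    ReachIn (coarse M.toInc D).fadj B (cD12_pi M.toInc D f) (cD12_pi M.toInc D g) := by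
  refine h.map ?_
  intro x hx y hy hxy
  by_cases hxD : x ∈ D
  · by_cases hyD : y ∈ D
    · rw [cD12_pi_mem hxD, cD12_pi_mem hyD]
      exact ReachIn.refl _
    · have hx' := hB x hx
      have hy' := hB y hy
      rw [cD12_pi_mem hxD] at hx' ⊢
      rw [cD12_pi_not hyD] at hy' ⊢
      exact ReachIn.single (cD12_adj_none M hxD hyD hxy) hx' hy'
  · by_cases hyD : y ∈ D
    · have hx' := hB x hx
      have hy' := hB y hy
      rw [cD12_pi_not hxD] at hx' ⊢
      rw [cD12_pi_mem hyD] at hy' ⊢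
      exact ReachIn.single (cD12_adj_none M hyD hxD hxy.symm).symm hx' hy'
    · have hx' := hB x hx
      have hy' := hB y hy
      rw [cD12_pi_not hxD] at hx' ⊢
      rw [cD12_pi_not hyD] at hy' ⊢
      exact ReachIn.single (cD12_adj_some M hxD hyD hxy) hx' hy'

/-- The image of a connected set under the collapse is connected. -/
theorem cD12_pi_conn (M : PolyMap V E F) {D A : Set F} (hA : ConnIn M.fadj A) :
    ConnIn (coarse M.toInc D).fadj (cD12_pi M.toInc D '' A) := by
  rintro _ ⟨f, hf, rfl⟩ _ ⟨g, hg, rfl⟩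
  exact cD12_pi_reach M (fun x hx => mem_image_of_mem _ hx) (hA f hf g hg)

theorem cD12_tight (M : PolyMap V E F) {D D' : Set F} (hD : D.Nonempty) (hsub : D ⊆ D')
    (h : TightDisc M.toInc D') : TightDisc (coarse M.toInc D) (liftD M.toInc D D') := by
  have himg : cD12_pi M.toInc D '' D' = liftD M.toInc D D' := by
    ext c
    constructor
    · rintro ⟨f, hf, rfl⟩ g hg
      by_cases hfD : f ∈ D
      · rw [cD12_pi_mem hfD] at hg
        cases hg
      · rw [cD12_pi_not hfD] at hg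
        have := Option.some.inj hg
        rw [← this]
        exact hf
    · intro hc
      rcases c with _ | g
      · obtain ⟨d, hd⟩ := hD
        exact ⟨d, hsub hd, cD12_pi_mem hd⟩
      · exact ⟨g.1, hc g rfl, cD12_pi_not g.2⟩
  have himg' : ∀ T : Set F, T ⊆ D'ᶜ → ∀ c : CF M.toInc D,
      c ∈ cD12_pi M.toInc D '' T ↔ ∃ g : {f : F // f ∉ D}, c = some g ∧ g.1 ∈ T := by
    intro T hT c
    constructor
    · rintro ⟨f, hf, rfl⟩
      have hfD : f ∉ D := fun h => hT hf (hsub h)
      exact ⟨⟨f, hfD⟩, cD12_pi_not hfD, hf⟩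
    · rintro ⟨g, rfl, hg⟩
      exact ⟨g.1, hg, cD12_pi_not g.2⟩
  have hcompl : (liftD M.toInc D D')ᶜ = cD12_pi M.toInc D '' D'ᶜ := by
    ext c
    rw [himg' _ (le_refl _)]
    constructor
    · intro hc
      by_contra hcon
      apply hc
      intro g hg
      by_contra hgD
      exact hcon ⟨g, hg, hgD⟩
    · rintro ⟨g, rfl, hg⟩ hc
      exact hg (hc g rfl)
  refine ⟨?_, ?_, ?_, ?_, ?_⟩
  · rw [← himg]
    exact h.fin.image _
  · rw [← himg]
    exact h.ne.image _
  · rw [← himg]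
    exact cD12_pi_conn M h.conn
  · rw [hcompl]
    exact cD12_pi_conn M h.compl
  · intro t
    rw [hcompl]
    rcases t with _ | t
    · have : cD12_pi M.toInc D '' D'ᶜ \ {none} = cD12_pi M.toInc D '' D'ᶜ := by
        ext c
        constructor
        · exact fun h => h.1
        · intro hc
          refine ⟨hc, ?_⟩
          obtain ⟨g, rfl, -⟩ := (himg' _ (le_refl _) c).1 hc
          simp
      rw [this]
      exact cD12_pi_conn M h.compl
    · have : cD12_pi M.toInc D '' D'ᶜ \ {some t} = cD12_pi M.toInc D '' (D'ᶜ \ {t.1}) := by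
        ext c
        rw [himg' _ diff_subset]
        constructor
        · rintro ⟨hc, hct⟩
          obtain ⟨g, rfl, hg⟩ := (himg' _ (le_refl _) c).1 hc
          refine ⟨g, rfl, hg, fun hgt => hct ?_⟩
          have : g = t := Subtype.ext hgt
          rw [this]; rfl
        · rintro ⟨g, rfl, hg, hgt⟩
          refine ⟨(himg' _ (le_refl _) _).2 ⟨g, rfl, hg⟩, fun hc => hgt ?_⟩
          have := Option.some.inj hc
          rw [this]; rfl
      rw [this]
      exact cD12_pi_conn M (h.tight t.1)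

/-- One step of the construction. -/
theorem cD12_step (h2 : Stmt_Coarse) (h3 : Stmt_Local3) (M : PlaneMap V E F) {D : Set F}
    (hD : TightDisc M.toInc D) : ∃ W : Set F, W.Finite ∧ ∀ D' : Set F, W ⊆ D' →
      TightDisc M.toInc D' → Nest M.toInc D D' := by
  obtain ⟨N, hN⟩ := h2 V E F M D hD
  have hQ : {v : CV M.toInc D | N.vf v none}.Finite := cD12_verts_fin N.toPolyMap none
  obtain ⟨J, hJ, hQJ, hJ'⟩ := h3 _ _ _ N.toPolyMap N.vconn _ hQ
  have hvf : ∀ (v : CV M.toInc D) (g : {f : F // f ∉ D}), N.vf v (some g) → M.vf v.1 g.1 := by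
    intro v g h
    rw [hN] at h
    obtain ⟨e, hve, hef⟩ := h
    rcases e with e | f
    · exact ⟨e.1, hve, hef⟩
    · have h5 : f.1 = g.1 := hef
      have h6 : M.vf v.1 f.1 := hve.1
      rwa [h5] at h6
  refine ⟨D ∪ {t | ∃ v, M.vf v t ∧ Touch M.toInc D v} ∪ ⋃ v ∈ J, {t | M.vf v.1 t}, ?_, ?_⟩
  · exact (hD.fin.union (cD12_touch_fin M.toPolyMap hD.fin)).union
      (Finite.biUnion hJ fun v _ => cD12_faces_fin M.toPolyMap v.1)
  · intro D' hW hD'
    have hsub : D ⊆ D' := fun f hf => hW (Or.inl (Or.inl hf))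
    have htight := cD12_tight M.toPolyMap hD.ne hsub hD'
    refine ⟨hsub, fun t v hv ht => hW (Or.inl (Or.inr ⟨v, hv, ht⟩)), htight, ?_, J, ?_, ?_, ?_⟩
    · intro g hg
      cases hg
    · intro v hv
      have hall : ∀ c, N.vf v c → c ∈ liftD M.toInc D D' := by
        intro c hc g hg
        subst hg
        exact hW (Or.inr (mem_biUnion hv (hvf v g hc)))
      constructor
      · have hcard := N.vert_card v
        have hne : {e | N.ve v e}.Nonempty := by
          by_contra h
          rw [not_nonempty_iff_eq_empty] at h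
          rw [h] at hcard
          simp at hcard
        obtain ⟨e, he⟩ := hne
        obtain ⟨c, c', -, hcc⟩ := N.edge_faces e
        have hvc : N.vf v c := ⟨e, he, (hcc c).2 (Or.inl rfl)⟩
        refine ⟨c, hall c hvc, ?_⟩
        rwa [hN] at hvc
      · rintro ⟨c, hc, hvc⟩
        rw [← hN] at hvc
        exact hc (hall c hvc)
    · intro a ha
      rw [← hN] at ha
      exact hQJ ha
    · intro S hS a b ha hb haS hbS
      rw [← hN] at ha hb ⊢
      exact hJ' S hS a ⟨ha, haS⟩ b ⟨hb, hbS⟩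

end

/-- D12: exhausting sequence of invariant tight discs. -/
theorem cD12 (h1 : Stmt_TightDisc) (h2 : Stmt_Coarse) (h3 : Stmt_Local3)
    (h4 : Stmt_Countable) : Stmt_DiscSeq := by
  intro V E F G M _ _ _ _ _ hG
  haveI : Countable F := (h4 V E F M).2.2
  haveI : Infinite F := M.finf
  obtain ⟨en, hen⟩ := exists_surjective_nat F
  let St : Type := {D : Set F // TightDisc M.toInc D ∧ ∀ (g : G), ∀ f ∈ D, g • f ∈ D}
  have hstep : ∀ (i : ℕ) (D : St), ∃ D' : St, Nest M.toInc D.1 D'.1 ∧ en i ∈ D'.1 := by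
    intro i D
    obtain ⟨W, hW, hW'⟩ := cD12_step h2 h3 M D.2.1
    obtain ⟨D', hD1, hD2, hD3⟩ := h1 V E F G M hG (W ∪ {en i}) (hW.union (finite_singleton _))
    exact ⟨⟨D', hD2, hD3⟩, hW' D' (fun f hf => hD1 (Or.inl hf)) hD2, hD1 (Or.inr rfl)⟩
  obtain ⟨D0, -, hD02, hD03⟩ := h1 V E F G M hG ∅ finite_empty
  choose nx hnx using hstep
  let D : ℕ → St := fun n => Nat.rec ⟨D0, hD02, hD03⟩ (fun i D => nx i D) n
  refine ⟨fun i => (D i).1, fun i => (D i).2.1, fun i => (D i).2.2, ?_, ?_⟩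
  · intro f
    obtain ⟨i, rfl⟩ := hen f
    exact ⟨i + 1, (hnx i (D i)).2⟩
  · intro i
    exact (hnx i (D i)).1

end Pool.Agent.CT
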