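import Pool.Agent.CT.DDefs

set_option autoImplicit false

/-! # D8: the polygons of a disc block tile the big polygon -/

namespace Pool.Agent.CT

open Set Metric

/-! ## Plane geometry -/

theorem cD8_lin (w : ℂ) : IsLinearMap ℝ (fun z => dir w z) := by
  constructor
  · intro x y
    simp only [dir, Complex.add_re, Complex.add_im]
    ring
  · intro c x
    simp only [dir, Complex.real_smul, Complex.mul_re, Complex.mul_im, Complex.ofReal_re,
      Complex.ofReal_im, smul_eq_mul]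
    ring

theorem cD8_cont (w : ℂ) : Continuous (fun z => dir w z) := by
  unfold dir
  fun_prop

theorem cD8_le {w : ℂ} {c : ℝ} {S : Set ℂ} (h : ∀ s ∈ S, dir w s ≤ c) {z : ℂ}
    (hz : z ∈ convexHull ℝ S) : dir w z ≤ c := by
  have h1 : convexHull ℝ S ⊆ {z | dir w z ≤ c} :=
    convexHull_min h (convex_halfSpace_le (cD8_lin w) c)
  exact h1 hz

theorem cD8_eq {w : ℂ} {c : ℝ} {S : Set ℂ} (h : ∀ s ∈ S, dir w s = c) {z : ℂ}
    (hz : z ∈ convexHull ℝ S) : dir w z = c := by
  have h1 : convexHull ℝ S ⊆ {z | dir w z = c} :=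
    convexHull_min h (convex_hyperplane (cD8_lin w) c)
  exact h1 hz

/-- A linear functional is strictly below its maximum in the interior. -/
theorem cD8_lt {w : ℂ} (hw : w ≠ 0) {c : ℝ} {H : Set ℂ} (h : ∀ s ∈ H, dir w s ≤ c) {z : ℂ}
    (hz : z ∈ interior H) : dir w z < c := by
  obtain ⟨r, hr, hb⟩ := Metric.isOpen_iff.1 isOpen_interior z hz
  have hn : 0 < ‖w‖ := norm_pos_iff.2 hw
  set t : ℝ := r / (2 * ‖w‖) with ht
  have ht0 : 0 < t := by positivity
  have hmem : z + t • w ∈ H := by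
    apply interior_subset
    apply hb
    rw [mem_ball, dist_eq_norm, add_sub_cancel_left, norm_smul, Real.norm_eq_abs, abs_of_pos ht0,
      ht]
    have : r / (2 * ‖w‖) * ‖w‖ = r / 2 := by
      field_simp
    rw [this]
    linarith
  have h1 := h _ hmem
  have h2 : dir w (z + t • w) = dir w z + t * (w.re ^ 2 + w.im ^ 2) := by
    rw [(cD8_lin w).map_add, (cD8_lin w).map_smul]
    simp only [dir, smul_eq_mul]
    ring
  rw [h2] at h1
  have h3 : 0 < w.re ^ 2 + w.im ^ 2 := by
    have : ‖w‖ ^ 2 = w.re ^ 2 + w.im ^ 2 := by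
      rw [← Complex.normSq_eq_norm_sq, Complex.normSq_apply]
      ring
    rw [← this]
    positivity
  have := mul_pos ht0 h3
  linarith

/-- Separation by functionals `dir w`. -/
theorem cD8_sep {S : Set ℂ} (hS : S.Finite) {x : ℂ}
    (h : ∀ w : ℂ, w ≠ 0 → ∃ s ∈ S, dir w x < dir w s) : x ∈ convexHull ℝ S := by
  by_contra hx
  obtain ⟨f, u, h1, h2⟩ := geometric_hahn_banach_closed_point (convex_convexHull ℝ S)
    (hS.isClosed_convexHull ℝ) hx
  have hf : ∀ z : ℂ, f z = dir ⟨f 1, f Complex.I⟩ z := by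
    intro z
    have : z = z.re • (1 : ℂ) + z.im • Complex.I := by
      simp [Complex.re_add_im]
    conv_lhs => rw [this]
    rw [map_add, map_smul, map_smul]
    simp only [dir, smul_eq_mul]
    ring
  by_cases hw : (⟨f 1, f Complex.I⟩ : ℂ) = 0
  · obtain ⟨s, hs, -⟩ := h 1 one_ne_zero
    have h3 := h1 s (subset_convexHull ℝ S hs)
    rw [hf, hw] at h3 h2
    simp only [dir, Complex.zero_re, Complex.zero_im, zero_mul, add_zero] at h3 h2
    linarith
  · obtain ⟨s, hs, h3⟩ := h _ hw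
    rw [← hf, ← hf] at h3
    have h4 := h1 s (subset_convexHull ℝ S hs)
    linarith

/-- Extreme points of a level: if `x` is on the maximal level of a finite set, there is a point of
the set on this level on the nonpositive side. -/
theorem cD8_level {S : Set ℂ} (hS : S.Finite) {w τ : ℂ} {c : ℝ} (h : ∀ s ∈ S, dir w s ≤ c) {x : ℂ}
    (hx : x ∈ convexHull ℝ S) (hc : dir w x = c) :
    ∃ s ∈ S, dir w s = c ∧ dir τ s ≤ dir τ x := by
  classical
  by_contra hcon
  push Not at hcon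
  have hx' : x ∈ convexHull ℝ (hS.toFinset : Set ℂ) := by rwa [hS.coe_toFinset]
  rw [Finset.mem_convexHull'] at hx'
  obtain ⟨a, ha0, ha1, hax⟩ := hx'
  have key : ∀ v : ℂ, dir v x = ∑ y ∈ hS.toFinset, a y * dir v y := by
    intro v
    have hmap : ∀ z, dir v z = (IsLinearMap.mk' _ (cD8_lin v)) z := fun z => rfl
    rw [hmap, ← hax, map_sum]
    refine Finset.sum_congr rfl (fun y _ => ?_)
    rw [map_smul, smul_eq_mul]
    rfl
  have h1 : ∑ y ∈ hS.toFinset, a y * (c - dir w y) = 0 := by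
    simp only [mul_sub]
    rw [Finset.sum_sub_distrib, ← key w, ← Finset.sum_mul, ha1, hc]
    ring
  have h2 : ∀ y ∈ hS.toFinset, 0 ≤ a y * (c - dir w y) := by
    intro y hy
    exact mul_nonneg (ha0 y hy) (sub_nonneg.2 (h y (hS.mem_toFinset.1 hy)))
  have h3 := (Finset.sum_eq_zero_iff_of_nonneg h2).1 h1
  have h4 : ∑ y ∈ hS.toFinset, a y * (dir τ y - dir τ x) = 0 := by
    simp only [mul_sub]
    rw [Finset.sum_sub_distrib, ← key τ, ← Finset.sum_mul, ha1]
    ring
  have h5 : ∀ y ∈ hS.toFinset, 0 ≤ a y * (dir τ y - dir τ x) := by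
    intro y hy
    rcases mul_eq_zero.1 (h3 y hy) with h6 | h6
    · rw [h6, zero_mul]
    · have := hcon y (hS.mem_toFinset.1 hy) (by linarith)
      exact mul_nonneg (ha0 y hy) (by linarith)
  have h6 := (Finset.sum_eq_zero_iff_of_nonneg h5).1 h4
  have h7 : ∀ y ∈ hS.toFinset, a y = 0 := by
    intro y hy
    rcases mul_eq_zero.1 (h3 y hy) with h8 | h8
    · exact h8
    · rcases mul_eq_zero.1 (h6 y hy) with h9 | h9
      · exact h9
      · have := hcon y (hS.mem_toFinset.1 hy) (by linarith)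
        linarith
  rw [Finset.sum_eq_zero h7] at ha1
  exact zero_ne_one ha1

/-- A point on a line between two points of the line. -/
theorem cD8_between {w p q x : ℂ} (hw : w ≠ 0) (h1 : dir w p = dir w x) (h2 : dir w q = dir w x)
    (h3 : dir (Complex.I * w) p ≤ dir (Complex.I * w) x)
    (h4 : dir (Complex.I * w) x ≤ dir (Complex.I * w) q) : x ∈ segment ℝ p q := by
  have hext : ∀ z z' : ℂ, dir w z = dir w z' → dir (Complex.I * w) z = dir (Complex.I * w) z' →
      z = z' := by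
    intro z z' ha hb
    simp only [dir, Complex.mul_re, Complex.mul_im, Complex.I_re, Complex.I_im, zero_mul, one_mul,
      zero_sub, zero_add] at ha hb
    have hN : 0 < w.re ^ 2 + w.im ^ 2 := by
      have : ‖w‖ ^ 2 = w.re ^ 2 + w.im ^ 2 := by
        rw [← Complex.normSq_eq_norm_sq, Complex.normSq_apply]
        ring
      rw [← this]
      have := norm_pos_iff.2 hw
      positivity
    have hre : (w.re ^ 2 + w.im ^ 2) * (z.re - z'.re) = 0 := by linear_combination w.re * ha - w.im * hb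
    have him : (w.re ^ 2 + w.im ^ 2) * (z.im - z'.im) = 0 := by linear_combination w.im * ha + w.re * hb
    refine Complex.ext ?_ ?_
    · rcases mul_eq_zero.1 hre with h | h
      · exact absurd h hN.ne'
      · linarith
    · rcases mul_eq_zero.1 him with h | h
      · exact absurd h hN.ne'
      · linarith
  set A := dir (Complex.I * w) p with hA
  set B := dir (Complex.I * w) q with hB
  set X := dir (Complex.I * w) x with hX
  rcases eq_or_lt_of_le (h3.trans h4) with h5 | h5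
  · have : x = p := hext _ _ h1.symm (by rw [← hA, ← hX]; linarith)
    rw [this]
    exact left_mem_segment ℝ p q
  · refine ⟨(B - X) / (B - A), (X - A) / (B - A), ?_, ?_, ?_, ?_⟩
    · exact div_nonneg (by linarith) (by linarith)
    · exact div_nonneg (by linarith) (by linarith)
    · rw [← add_div, div_eq_one_iff_eq (by linarith)]
      ring
    · apply hext
      · rw [(cD8_lin w).map_add, (cD8_lin w).map_smul, (cD8_lin w).map_smul, h1, h2]
        simp only [smul_eq_mul]
        have : B - A ≠ 0 := by linarith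
        field_simp
        ring
      · rw [(cD8_lin _).map_add, (cD8_lin _).map_smul, (cD8_lin _).map_smul, ← hA, ← hB, ← hX]
        simp only [smul_eq_mul]
        have : B - A ≠ 0 := by linarith
        field_simp
        ring

/-! ## The disc block -/

section disc

variable {V E F : Type}

/-- A face cycle of `M` at a face of `D` is a face cycle of the substructure. -/
theorem cD8_cycle {M : Inc V E F} {D : Set F} {f : F} (hf : f ∈ D) {n : ℕ} {x : ℤ → V}
    {y : ℤ → E} (h : IsFaceCycle M f n x y) :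
    ∃ (hx : ∀ i, Touch M D (x i)) (hy : ∀ i, ∃ d ∈ D, M.ef (y i) d),
      IsFaceCycle (subInc M D) ⟨f, hf⟩ n (fun i => ⟨x i, hx i⟩) (fun i => ⟨y i, hy i⟩) := by
  have hyf : ∀ i, M.ef (y i) f := fun i => (h.curve.mem (y i)).2 ⟨i, rfl⟩
  have hxy : ∀ i, M.ve (x i) (y i) := fun i => (h.curve.ve i (x i)).2 (Or.inl rfl)
  refine ⟨fun i => ⟨f, hf, y i, hxy i, hyf i⟩, fun i => ⟨f, hf, hyf i⟩, h.three, ?_⟩
  refine ⟨h.curve.n_ne, fun i j => ?_, fun i j => ?_, fun e => ?_, fun i v => ?_⟩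
  · rw [← h.curve.x_eq i j]
    exact Subtype.mk_eq_mk
  · rw [← h.curve.y_eq i j]
    exact Subtype.mk_eq_mk
  · constructor
    · intro he
      obtain ⟨i, hi⟩ := (h.curve.mem e.1).1 he
      exact ⟨i, Subtype.ext hi⟩
    · rintro ⟨i, rfl⟩
      exact hyf i
  · change M.ve v.1 (y i) ↔ _
    rw [h.curve.ve i v.1, Subtype.ext_iff, Subtype.ext_iff]

theorem cD8_vf {M : Inc V E F} {D : Set F} {f : F} (hf : f ∈ D)
    (v : {v // Touch M D v}) : (subInc M D).vf v ⟨f, hf⟩ ↔ M.vf v.1 f := by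
  constructor
  · rintro ⟨e, h1, h2⟩
    exact ⟨e.1, h1, h2⟩
  · rintro ⟨e, h1, h2⟩
    exact ⟨⟨e, f, hf, h2⟩, h1, h2⟩

theorem cD8_poly {M : Inc V E F} {D : Set F} {f : F} (hf : f ∈ D) (φ : V → ℂ) :
    poly (subInc M D) (fun v => φ v.1) ⟨f, hf⟩ = poly M φ f := by
  unfold poly
  congr 1
  ext z
  constructor
  · rintro ⟨v, hv, rfl⟩
    exact ⟨v.1, (cD8_vf hf v).1 hv, rfl⟩
  · rintro ⟨v, hv, rfl⟩
    exact ⟨⟨v, f, hf, hv⟩, (cD8_vf hf ⟨v, f, hf, hv⟩).2 hv, rfl⟩

theorem cD8_seg {M : Inc V E F} {D : Set F} (e : {e // ∃ d ∈ D, M.ef e d}) (φ : V → ℂ) :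
    seg (subInc M D) (fun v => φ v.1) e = seg M φ e.1 := by
  unfold seg
  congr 1
  ext z
  obtain ⟨d, hd, he⟩ := e.2
  constructor
  · rintro ⟨v, hv, rfl⟩
    exact ⟨v.1, hv, rfl⟩
  · rintro ⟨v, hv, rfl⟩
    exact ⟨⟨v, d, hd, e.1, hv, he⟩, hv, rfl⟩

theorem cD8_cross (a b z : ℂ) : cross a b z = dir (Complex.I * (b - a)) z -
    dir (Complex.I * (b - a)) a := by
  simp only [cross, dir, Complex.mul_re, Complex.mul_im, Complex.I_re, Complex.I_im, zero_mul,
    one_mul, zero_sub, zero_add, Complex.sub_re, Complex.sub_im]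
  ring

/-- From products of cross products to opposite sides. -/
theorem cD8_opp {M : Inc V E F} {φ : V → ℂ} {e : E} {f g : F} {u v : V} (huv : u ≠ v)
    (hne : φ u ≠ φ v) (hv : ∀ w, M.ve w e ↔ (w = u ∨ w = v))
    (hf : ∃ p, M.vf p f ∧ p ≠ u ∧ p ≠ v) (hg : ∃ q, M.vf q g ∧ q ≠ u ∧ q ≠ v)
    (h : ∀ p q, M.vf p f → p ≠ u → p ≠ v → M.vf q g → q ≠ u → q ≠ v →
      cross (φ u) (φ v) (φ p) * cross (φ u) (φ v) (φ q) < 0) : Opp M φ e f g := by
  obtain ⟨p0, hp0, hp1, hp2⟩ := hf
  obtain ⟨q0, hq0, hq1, hq2⟩ := hg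
  have hu : cross (φ u) (φ v) (φ u) = 0 := by
    simp only [cross]
    ring
  have hv' : cross (φ u) (φ v) (φ v) = 0 := by
    simp only [cross]
    ring
  -- the sign
  have key : ∃ σ : ℝ, σ ≠ 0 ∧ (∀ p, M.vf p f → σ * cross (φ u) (φ v) (φ p) ≤ 0) ∧
      ∀ q, M.vf q g → 0 ≤ σ * cross (φ u) (φ v) (φ q) := by
    have h0 := h p0 q0 hp0 hp1 hp2 hq0 hq1 hq2
    rcases lt_trichotomy (cross (φ u) (φ v) (φ p0)) 0 with h1 | h1 | h1
    · refine ⟨1, one_ne_zero, fun p hp => ?_, fun q hq => ?_⟩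
      · by_cases hpu : p = u
        · rw [hpu, hu]; simp
        by_cases hpv : p = v
        · rw [hpv, hv']; simp
        have h2 := h p q0 hp hpu hpv hq0 hq1 hq2
        have h3 : 0 < cross (φ u) (φ v) (φ q0) := by
          by_contra h4
          push Not at h4
          have := mul_nonneg_of_nonpos_of_nonpos h1.le h4
          linarith
        by_contra h4
        push Not at h4
        rw [one_mul] at h4
        have := mul_pos h4 h3
        linarith
      · by_cases hpu : q = u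
        · rw [hpu, hu]; simp
        by_cases hpv : q = v
        · rw [hpv, hv']; simp
        have h2 := h p0 q hp0 hp1 hp2 hq hpu hpv
        by_contra h4
        push Not at h4
        rw [one_mul] at h4
        have := mul_pos_of_neg_of_neg h1 h4
        linarith
    · rw [h1, zero_mul] at h0
      exact absurd h0 (lt_irrefl _)
    · refine ⟨-1, by norm_num, fun p hp => ?_, fun q hq => ?_⟩
      · by_cases hpu : p = u
        · rw [hpu, hu]; simp
        by_cases hpv : p = v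
        · rw [hpv, hv']; simp
        have h2 := h p q0 hp hpu hpv hq0 hq1 hq2
        have h3 : cross (φ u) (φ v) (φ q0) < 0 := by
          by_contra h4
          push Not at h4
          have := mul_nonneg h1.le h4
          linarith
        by_contra h4
        push Not at h4
        have h5 : cross (φ u) (φ v) (φ p) < 0 := by linarith
        have := mul_pos_of_neg_of_neg h5 h3
        linarith
      · by_cases hpu : q = u
        · rw [hpu, hu]; simp
        by_cases hpv : q = v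
        · rw [hpv, hv']; simp
        have h2 := h p0 q hp0 hp1 hp2 hq hpu hpv
        by_contra h4
        push Not at h4
        have h5 : 0 < cross (φ u) (φ v) (φ q) := by linarith
        have := mul_pos h1 h5
        linarith
  obtain ⟨σ, hσ, hA, hB⟩ := key
  have hdir : ∀ z, dir ((σ : ℂ) * (Complex.I * (φ v - φ u))) z =
      σ * dir (Complex.I * (φ v - φ u)) z := by
    intro z
    simp only [dir, Complex.re_ofReal_mul, Complex.im_ofReal_mul]
    ring
  have hcr : ∀ z, dir ((σ : ℂ) * (Complex.I * (φ v - φ u))) z =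
      σ * cross (φ u) (φ v) z + σ * dir (Complex.I * (φ v - φ u)) (φ u) := by
    intro z
    rw [hdir, cD8_cross]
    ring
  refine ⟨(σ : ℂ) * (Complex.I * (φ v - φ u)), σ * dir (Complex.I * (φ v - φ u)) (φ u), ?_,
    fun w hw => ?_, fun w hw => ?_, fun w hw => ?_⟩
  · refine mul_ne_zero (by exact_mod_cast hσ) (mul_ne_zero Complex.I_ne_zero ?_)
    exact sub_ne_zero.2 hne.symm
  · rw [hcr]
    rcases (hv w).1 hw with rfl | rfl
    · rw [hu]; ring
    · rw [hv']; ring
  · rw [hcr]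
    have := hA w hw
    linarith
  · rw [hcr]
    have := hB w hw
    linarith

/-- A face has a vertex off a given edge. -/
theorem cD8_third {M : Inc V E F} {f : F} {n : ℕ} {x : ℤ → V} {y : ℤ → E}
    (h : IsFaceCycle M f n x y) (u v : V) : ∃ p, M.vf p f ∧ p ≠ u ∧ p ≠ v := by
  have hyf : ∀ i, M.ef (y i) f := fun i => (h.curve.mem (y i)).2 ⟨i, rfl⟩
  have hxy : ∀ i, M.ve (x i) (y i) := fun i => (h.curve.ve i (x i)).2 (Or.inl rfl)
  have hx : ∀ i, M.vf (x i) f := fun i => ⟨y i, hxy i, hyf i⟩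
  have h3 := h.three
  have h01 : x 0 ≠ x 1 := by
    intro h0
    have := (h.curve.x_eq 0 1).1 h0
    have := Int.le_of_dvd (by norm_num) ((dvd_neg).2 this)
    omega
  have h02 : x 0 ≠ x 2 := by
    intro h0
    have := (h.curve.x_eq 0 2).1 h0
    have := Int.le_of_dvd (by norm_num) ((dvd_neg).2 this)
    omega
  have h12 : x 1 ≠ x 2 := by
    intro h0
    have := (h.curve.x_eq 1 2).1 h0
    have := Int.le_of_dvd (by norm_num) ((dvd_neg).2 this)
    omega
  by_contra hcon
  push Not at hcon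
  have a0 := hcon (x 0) (hx 0)
  have a1 := hcon (x 1) (hx 1)
  have a2 := hcon (x 2) (hx 2)
  by_cases b0 : x 0 = u
  · have b1 : x 1 = v := a1 (fun h' => h01 (b0.trans h'.symm))
    have b2 : x 2 = v := a2 (fun h' => h02 (b0.trans h'.symm))
    exact h12 (b1.trans b2.symm)
  · have c0 := a0 b0
    by_cases b1 : x 1 = u
    · have b2 : x 2 = v := a2 (fun h' => h12 (b1.trans h'.symm))
      exact h02 (c0.trans b2.symm)
    · exact h01 (c0.trans (a1 b1).symm)

end disc

theorem cD8 (hC : Stmt_Count) (hFS : Stmt_FaceStrict) (hFr : Stmt_FrVertex) (hCn : Stmt_Countable)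
    (hFC : Stmt_FaceCycle) : Stmt_DiscTile := by
  intro V E F M D hD φ hA hint hB
  classical
  -- faces
  have hstrict : ∀ f ∈ D, ∀ n x y, IsFaceCycle M.toInc f n x y →
      StrictPoly n (fun i => φ (x i)) := by
    intro f hf n x y h
    obtain ⟨hx, hy, h'⟩ := cD8_cycle hf h
    exact hB.strict _ _ _ _ h'
  have hface : ∀ f ∈ D, FaceOK M.toInc φ f := by
    intro f hf
    obtain ⟨n, x, y, h⟩ := hFC V E F M.toPolyMap f
    exact (hFS V E F M.toInc φ f n x y h (hstrict f hf n x y h)).1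
  have hface' : ∀ f, FaceOK (subInc M.toInc D) (fun v => φ v.1) f := by
    rintro ⟨f, hf⟩
    obtain ⟨n, x, y, h⟩ := hFC V E F M.toPolyMap f
    obtain ⟨hx, hy, h'⟩ := cD8_cycle hf h
    exact (hFS _ _ _ _ _ _ n _ _ h' (hB.strict _ _ _ _ h')).1
  have hopp : ∀ e, ∀ f ∈ D, ∀ g ∈ D, f ≠ g → M.ef e f → M.ef e g → Opp M.toInc φ e f g := by
    intro e f hf g hg hfg hef heg
    obtain ⟨u, v, huv, hv⟩ := M.edge_verts e
    obtain ⟨n, x, y, h⟩ := hFC V E F M.toPolyMap f
    obtain ⟨n', x', y', h'⟩ := hFC V E F M.toPolyMap g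
    have hu1 : M.ve u e := (hv u).2 (Or.inl rfl)
    have hv1 : M.ve v e := (hv v).2 (Or.inr rfl)
    refine cD8_opp huv ((hface f hf).ne e u v hef hu1 hv1 huv) hv (cD8_third h u v)
      (cD8_third h' u v) ?_
    intro p q hp hpu hpv hq hqu hqv
    have hTu : Touch M.toInc D u := ⟨f, hf, e, hu1, hef⟩
    have hTv : Touch M.toInc D v := ⟨f, hf, e, hv1, hef⟩
    exact hB.opp ⟨e, f, hf, hef⟩ ⟨f, hf⟩ ⟨g, hg⟩ ⟨u, hTu⟩ ⟨v, hTv⟩ ⟨p, f, hf, hp⟩ ⟨q, g, hg, hq⟩
      (fun h0 => hfg (congrArg Subtype.val h0)) hef heg (fun h0 => huv (congrArg Subtype.val h0))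
      hu1 hv1 ((cD8_vf hf _).2 hp) (fun h0 => hpu (congrArg Subtype.val h0))
      (fun h0 => hpv (congrArg Subtype.val h0)) ((cD8_vf hg _).2 hq)
      (fun h0 => hqu (congrArg Subtype.val h0)) (fun h0 => hqv (congrArg Subtype.val h0))
  -- the big polygon
  set H : Set ℂ := convexHull ℝ (φ '' {v | Corner M.toInc D v}) with hH
  have hHb : convexHull ℝ (φ '' {v | BdV M.toInc D v}) = H := hA.hull
  have htfin : {v | Touch M.toInc D v}.Finite := by
    have : {v | Touch M.toInc D v} ⊆ ⋃ d ∈ D, {v | M.vf v d} := by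
      rintro v ⟨d, hd, hv⟩
      exact mem_biUnion hd hv
    exact (hD.fin.biUnion (fun d hd => (hface d hd).fin)).subset this
  have hbfin : (φ '' {v | BdV M.toInc D v}).Finite :=
    (htfin.subset (fun v hv => hv.1)).image φ
  have hbH : ∀ v, BdV M.toInc D v → φ v ∈ H := fun v hv => by
    rw [← hHb]
    exact subset_convexHull ℝ _ ⟨v, hv, rfl⟩
  have htouch : ∀ v, Touch M.toInc D v → BdV M.toInc D v ∨ IntV M.toInc D v := by
    intro v hv
    by_cases h : Touch M.toInc Dᶜ v
    · exact Or.inl ⟨hv, h⟩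
    · exact Or.inr ⟨hv, h⟩
  have hinH : ∀ v, Touch M.toInc D v → φ v ∈ H := by
    intro v hv
    rcases htouch v hv with h | h
    · exact hbH v h
    · rw [← hHb]
      refine cD8_sep hbfin (fun w hw => ?_)
      obtain ⟨u, hu, h1⟩ := hint w hw v h
      exact ⟨φ u, ⟨u, hu, rfl⟩, h1⟩
  have hinside : ∀ f ∈ D, poly M.toInc φ f ⊆ H := by
    intro f hf
    refine convexHull_min ?_ (convex_convexHull ℝ _)
    rintro _ ⟨v, hv, rfl⟩
    exact hinH v ⟨f, hf, hv⟩
  have hHcl : IsClosed H := by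
    rw [← hHb]
    exact hbfin.isClosed_convexHull ℝ
  have hHcv : Convex ℝ H := convex_convexHull ℝ _
  have hpolycl : ∀ f ∈ D, IsClosed (poly M.toInc φ f) := fun f hf =>
    ((hface f hf).fin.image φ).isClosed_convexHull ℝ
  -- frontier edges do not meet the interior
  have hfrW : ∀ e ∈ fr M.toInc D, seg M.toInc φ e ∩ interior H = ∅ := by
    intro e he
    obtain ⟨w, c, hw, h1, h2⟩ := hA.edge e he
    rw [eq_empty_iff_forall_notMem]
    rintro z ⟨hz1, hz2⟩
    have h3 : dir w z = c := by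
      refine cD8_eq ?_ hz1
      rintro _ ⟨v, hv, rfl⟩
      exact h1 v hv
    have h4 : dir w z < c := by
      refine cD8_lt hw ?_ hz2
      intro s hs
      rw [← hHb] at hs
      refine cD8_le ?_ hs
      rintro _ ⟨v, hv, rfl⟩
      exact h2 v hv
    linarith
  -- a frontier edge
  obtain ⟨v1, hv1⟩ : ∃ v, Corner M.toInc D v := by
    obtain ⟨z, hz⟩ := hA.int
    have h1 : (convexHull ℝ (φ '' {v | Corner M.toInc D v})).Nonempty := ⟨z, interior_subset hz⟩
    rw [convexHull_nonempty_iff] at h1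
    obtain ⟨_, v, hv, -⟩ := h1
    exact ⟨v, hv⟩
  have hbd1 : BdV M.toInc D v1 := by
    obtain ⟨h1, f, g, -, hf, -, h2, -⟩ := hv1
    exact ⟨h1, f, hf, h2⟩
  obtain ⟨e, he, -⟩ := hFr V E F M.toPolyMap D v1 hbd1.1 hbd1.2
  obtain ⟨⟨s, hs, hes⟩, t, ht, het⟩ := id he
  obtain ⟨u, v, huv, huve⟩ := M.edge_verts e
  have hue : M.ve u e := (huve u).2 (Or.inl rfl)
  have hve : M.ve v e := (huve v).2 (Or.inr rfl)
  have hφuv : φ u ≠ φ v := hA.ne e he u v hue hve huv
  have honly : ∀ g ∈ D, M.ef e g → g = s := by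
    intro g hg heg
    obtain ⟨f1, f2, h12, h3⟩ := M.edge_faces e
    have a1 := (h3 s).1 hes
    have a2 := (h3 t).1 het
    have a3 := (h3 g).1 heg
    have a4 : s ≠ t := fun h0 => ht (h0 ▸ hs)
    have a5 : g ≠ t := fun h0 => ht (h0 ▸ hg)
    rcases a1 with rfl | rfl <;> rcases a2 with rfl | rfl <;> rcases a3 with rfl | rfl <;>
      first | rfl | exact absurd rfl a4 | exact absurd rfl a5
  -- the midpoint
  set m : ℂ := (1 / 2 : ℝ) • φ u + (1 / 2 : ℝ) • φ v with hm
  have hmseg' : m ∈ segment ℝ (φ u) (φ v) := ⟨1 / 2, 1 / 2, by norm_num, by norm_num, by norm_num,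
    rfl⟩
  have hmu : m ≠ φ u := by
    intro h0
    apply hφuv
    rw [hm] at h0
    have h1 : (2 : ℝ) • ((1 / 2 : ℝ) • φ u + (1 / 2 : ℝ) • φ v) = (2 : ℝ) • φ u := by rw [h0]
    rw [smul_add, smul_smul, smul_smul] at h1
    norm_num at h1
    have h2 : φ u + φ v = φ u + φ u := by rw [h1]; ring
    exact (add_left_cancel h2).symm
  have hmv : m ≠ φ v := by
    intro h0
    apply hφuv
    rw [hm] at h0
    have h1 : (2 : ℝ) • ((1 / 2 : ℝ) • φ u + (1 / 2 : ℝ) • φ v) = (2 : ℝ) • φ v := by rw [h0]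
    rw [smul_add, smul_smul, smul_smul] at h1
    norm_num at h1
    have h2 : φ u + φ v = φ v + φ v := by rw [h1]; ring
    exact add_right_cancel h2
  have hsegsub : ∀ (d : E) (a b : V), M.ve a d → M.ve b d →
      segment ℝ (φ a) (φ b) ⊆ seg M.toInc φ d := by
    intro d a b ha hb
    exact (convex_convexHull ℝ _).segment_subset (subset_convexHull ℝ _ ⟨a, ha, rfl⟩)
      (subset_convexHull ℝ _ ⟨b, hb, rfl⟩)
  have hmseg : m ∈ seg M.toInc φ e := hsegsub e u v hue hve hmseg'
  have hnolap : ∀ d ∈ fr M.toInc D, m ∈ seg M.toInc φ d → d = e := by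
    intro d hd hmd
    by_contra hde
    obtain ⟨a, ⟨ha, -⟩, hma⟩ := hA.nolap e he d hd (fun h0 => hde h0.symm) ⟨hmseg, hmd⟩
    rcases (huve a).1 ha with rfl | rfl
    · exact hmu hma.symm
    · exact hmv hma.symm
  have hclaim : ∀ g ∈ D, g ≠ s → m ∉ poly M.toInc φ g := by
    intro g hg hgs hmg
    obtain ⟨w, c, hw, hc1, hc2⟩ := hA.edge e he
    have hmc : dir w m = c := by
      refine cD8_eq ?_ hmseg
      rintro _ ⟨a, ha, rfl⟩
      exact hc1 a ha
    have hle : ∀ a, Touch M.toInc D a → dir w (φ a) ≤ c := by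
      intro a ha
      rcases htouch a ha with h | h
      · exact hc2 a h
      · obtain ⟨b, hb, h1⟩ := hint w hw a h
        exact (h1.trans_le (hc2 b hb)).le
    have heq : ∀ a, Touch M.toInc D a → dir w (φ a) = c → BdV M.toInc D a := by
      intro a ha h0
      rcases htouch a ha with h | h
      · exact h
      · obtain ⟨b, hb, h1⟩ := hint w hw a h
        have := hc2 b hb
        linarith
    have hfin : (φ '' {a | M.vf a g}).Finite := (hface g hg).fin.image φ
    have hle' : ∀ z ∈ φ '' {a | M.vf a g}, dir w z ≤ c := by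
      rintro _ ⟨a, ha, rfl⟩
      exact hle a ⟨g, hg, ha⟩
    obtain ⟨_, ⟨p, hp, rfl⟩, hpc, hp2⟩ := cD8_level (τ := Complex.I * w) hfin hle' hmg hmc
    obtain ⟨_, ⟨q, hq, rfl⟩, hqc, hq2⟩ := cD8_level (τ := -(Complex.I * w)) hfin hle' hmg hmc
    have hneg : ∀ z, dir (-(Complex.I * w)) z = - dir (Complex.I * w) z := by
      intro z
      simp only [dir, Complex.neg_re, Complex.neg_im]
      ring
    rw [hneg, hneg] at hq2
    have hmpq : m ∈ segment ℝ (φ p) (φ q) :=
      cD8_between hw (hpc.trans hmc.symm) (hqc.trans hmc.symm) hp2 (by linarith)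
    have hpb : BdV M.toInc D p := heq p ⟨g, hg, hp⟩ hpc
    have hqb : BdV M.toInc D q := heq q ⟨g, hg, hq⟩ hqc
    by_cases hpq : p = q
    · rw [← hpq, segment_same, mem_singleton_iff] at hmpq
      obtain ⟨d, hd, hpd⟩ := hFr V E F M.toPolyMap D p hpb.1 hpb.2
      have h1 := hnolap d hd (by
        rw [hmpq]
        exact subset_convexHull ℝ _ ⟨p, hpd, rfl⟩)
      rw [h1] at hpd
      rcases (huve p).1 hpd with rfl | rfl
      · exact hmu hmpq
      · exact hmv hmpq
    · obtain ⟨t', ht', h1⟩ := hA.ext w hw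
      have hpt : M.vf p t' := h1 p hpb (fun a ha => by rw [hpc]; exact hc2 a ha)
      have hqt : M.vf q t' := h1 q hqb (fun a ha => by rw [hqc]; exact hc2 a ha)
      obtain ⟨e', h2, h3, h4, h5⟩ := M.inter g t' (fun h0 => ht' (h0 ▸ hg)) p q hpq hp hpt hq hqt
      have h6 := hnolap e' ⟨⟨g, hg, h4⟩, t', ht', h5⟩ (hsegsub e' p q h2 h3 hmpq)
      rw [h6] at h4
      exact hgs (honly g hg h4)
  -- the reference point
  have hmpoly : m ∈ poly M.toInc φ s := by
    refine convexHull_mono ?_ hmseg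
    rintro _ ⟨a, ha, rfl⟩
    exact ⟨a, ⟨e, ha, hes⟩, rfl⟩
  have hcl : IsClosed (⋃ g ∈ D \ {s}, poly M.toInc φ g) :=
    (hD.fin.subset sdiff_subset).isClosed_biUnion (fun g hg => hpolycl g hg.1)
  have hmcl : m ∈ closure (interior (poly M.toInc φ s)) := by
    have hcv : Convex ℝ (poly M.toInc φ s) := convex_convexHull ℝ _
    rw [hcv.closure_interior_eq_closure_of_nonempty_interior (hface s hs).int]
    exact subset_closure hmpoly
  obtain ⟨w0, hw01, hw02⟩ := mem_closure_iff.1 hmcl (⋃ g ∈ D \ {s}, poly M.toInc φ g)ᶜ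
    hcl.isOpen_compl (by
      intro h0
      rw [mem_iUnion₂] at h0
      obtain ⟨g, hg, h1⟩ := h0
      exact hclaim g hg.1 hg.2 h1)
  have hw0W : w0 ∈ interior H := interior_mono (hinside s hs) hw02
  have hw0not : ∀ g ∈ D, g ≠ s → w0 ∉ poly M.toInc φ g := by
    intro g hg hgs h0
    exact hw01 (mem_biUnion (show g ∈ D \ {s} from ⟨hg, hgs⟩) h0)
  -- the counting theorem
  have hcount := hCn V E F M
  have hcV : Countable V := hcount.1
  have hfinF : Finite {f // f ∈ D} := hD.fin.to_subtype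
  have hmain := hC {v // Touch M.toInc D v} {e // ∃ d ∈ D, M.ef e d} {f // f ∈ D}
    (subInc M.toInc D) (fun v => φ v.1) (interior H) isOpen_interior hHcv.interior hface' (by
      rintro ⟨d, g, hg, hdg⟩
      obtain ⟨a, b, hab, h1⟩ := M.edge_verts d
      have ha : M.ve a d := (h1 a).2 (Or.inl rfl)
      have hb : M.ve b d := (h1 b).2 (Or.inr rfl)
      refine ⟨⟨a, g, hg, d, ha, hdg⟩, ⟨b, g, hg, d, hb, hdg⟩,
        fun h0 => hab (congrArg Subtype.val h0), fun w => ?_⟩
      change M.ve w.1 d ↔ _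
      rw [h1 w.1, Subtype.ext_iff, Subtype.ext_iff])
    (fun w _ => ⟨1, one_pos, Set.toFinite _⟩) (by
      rintro ⟨d, g, hg, hdg⟩ hne
      rw [cD8_seg] at hne
      have hnfr : d ∉ fr M.toInc D := by
        intro h0
        rw [hfrW d h0] at hne
        exact not_nonempty_empty hne
      obtain ⟨f1, f2, h12, h3⟩ := M.edge_faces d
      have hf1 : M.ef d f1 := (h3 f1).2 (Or.inl rfl)
      have hf2 : M.ef d f2 := (h3 f2).2 (Or.inr rfl)
      have hD1 : f1 ∈ D := by
        by_contra h0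
        exact hnfr ⟨⟨g, hg, hdg⟩, f1, h0, hf1⟩
      have hD2 : f2 ∈ D := by
        by_contra h0
        exact hnfr ⟨⟨g, hg, hdg⟩, f2, h0, hf2⟩
      obtain ⟨w, c, hw, a1, a2, a3⟩ := hopp d f1 hD1 f2 hD2 h12 hf1 hf2
      refine ⟨⟨f1, hD1⟩, ⟨f2, hD2⟩, fun h0 => h12 (congrArg Subtype.val h0), fun h => ?_,
        w, c, hw, fun a ha => a1 a.1 ha, fun a ha => a2 a.1 ((cD8_vf hD1 a).1 ha),
        fun a ha => a3 a.1 ((cD8_vf hD2 a).1 ha)⟩
      change M.ef d h.1 ↔ _
      rw [h3 h.1, Subtype.ext_iff, Subtype.ext_iff])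
    w0 ⟨s, hs⟩ hw0W (by rw [cD8_poly hs]; exact hw02) (by
      rintro ⟨g, hg⟩ h0
      rw [cD8_poly hg]
      exact hw0not g hg (fun h1 => h0 (Subtype.ext h1)))
  obtain ⟨hcov, hdis⟩ := hmain
  refine ⟨hface, hstrict, hinside, ?_, ?_, hopp⟩
  · intro z hz
    have hclU : IsClosed (⋃ g ∈ D, poly M.toInc φ g) :=
      hD.fin.isClosed_biUnion (fun g hg => hpolycl g hg)
    have hsub : interior H ⊆ ⋃ g ∈ D, poly M.toInc φ g := by
      intro w hw
      obtain ⟨⟨f, hf⟩, h1⟩ := hcov w hw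
      rw [cD8_poly hf] at h1
      exact mem_biUnion hf h1
    have hzc : z ∈ closure (interior H) := by
      rw [hHcv.closure_interior_eq_closure_of_nonempty_interior hA.int]
      exact subset_closure hz
    have h2 := closure_minimal hsub hclU hzc
    rw [mem_iUnion₂] at h2
    obtain ⟨f, hf, h3⟩ := h2
    exact ⟨f, hf, h3⟩
  · intro f hf g hg hfg
    have h1 := hdis ⟨f, hf⟩ ⟨g, hg⟩ (fun h0 => hfg (congrArg Subtype.val h0))
    rw [cD8_poly hf, cD8_poly hg] at h1
    rw [inter_eq_self_of_subset_left (interior_mono (hinside f hf))] at h1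
    exact h1

end Pool.Agent.CT
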