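import Pool.Agent.CT.DDefs

set_option autoImplicit false

/-! # D20: drawings for finite groups -/

namespace Pool.Agent.CT

open Set Metric

variable {V E F : Type}

/-- Positive weights of an unknown only occur between touching vertices. -/
theorem cD20_touch (M : PolyMap V E F) (D : Set F) (c : V → V → ℝ) {v u : V}
    (h : discWt M.toInc D c v u ≠ 0) : Touch M.toInc D u := by
  unfold discWt at h
  split_ifs at h with h1 h2 h3
  · obtain ⟨_, e, hve, hue⟩ := h2
    obtain ⟨f, g, hfg, hef⟩ := M.edge_faces e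
    have hf : M.ef e f := (hef f).2 (Or.inl rfl)
    by_cases hfD : f ∈ D
    · exact ⟨f, hfD, e, hue, hf⟩
    · exact absurd ⟨f, hfD, e, hve, hf⟩ h1.2
  · exact absurd rfl h
  · obtain ⟨_, e, ⟨⟨f, hf, hef⟩, _⟩, _, hue⟩ := h3
    exact ⟨f, hf, e, hue, hef⟩
  · exact absurd rfl h

theorem cD20_uniq (hExt : Stmt_DiscExt) (M : PlaneMap V E F) (D : Set F)
    (hT : TightDisc M.toInc D) (c : V → V → ℝ) (hc : PosWt M.toInc c) {P φ P' φ' : V → ℂ}
    (h : DiscExt M.toInc D c P φ) (h' : DiscExt M.toInc D c P' φ')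
    (hcor : ∀ v, Corner M.toInc D v → P v = P' v) : ∀ v, Touch M.toInc D v → φ v = φ' v := by
  classical
  obtain ⟨φ₁, hφ₁, huniq⟩ := hExt V E F M D hT c hc P
  have h1 := huniq φ h
  set φ₂ : V → ℂ := fun v => if Touch M.toInc D v then φ' v else P v with hφ₂
  have h2 : DiscExt M.toInc D c P φ₂ := by
    refine ⟨fun v hv => ?_, fun v hv => ?_⟩
    · by_cases ht : Touch M.toInc D v
      · have hc' : Corner M.toInc D v := by
          by_contra hcon
          exact hv ⟨ht, hcon⟩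
        rw [hφ₂]
        simp only [ht, if_true]
        rw [h'.1 v hv, hcor v hc']
      · rw [hφ₂]
        simp only [ht, if_false]
    · have hH := h'.2 v hv
      unfold Harm at hH ⊢
      rw [← hH]
      refine finsum_congr fun u => ?_
      by_cases h0 : discWt M.toInc D c v u = 0
      · rw [h0, zero_smul, zero_smul]
      · have htu := cD20_touch M.toPolyMap D c h0
        have htv : Touch M.toInc D v := hv.1
        rw [hφ₂]
        simp only [htu, htv, if_true]
  have h3 := huniq φ₂ h2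
  intro v hv
  rw [h1, ← h3, hφ₂]
  simp only [hv, if_true]

theorem cD20_iso (M : Inc V E F) (D : Set F) (c : V → V → ℝ) {P φ : V → ℂ}
    (h : DiscExt M D c P φ) (s : ℂ ≃ᵢ ℂ) :
    DiscExt M D c (fun v => s (P v)) (fun v => s (φ v)) := by
  refine ⟨fun v hv => congrArg s (h.1 v hv), fun v hv => ?_⟩
  have hH := h.2 v hv
  unfold Harm at hH ⊢
  set L : ℂ ≃ₗᵢ[ℝ] ℂ := s.toRealAffineIsometryEquiv.linearIsometryEquiv with hL
  have hs : ∀ x y : ℂ, s x - s y = L (x - y) := by
    intro x y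
    have := s.toRealAffineIsometryEquiv.map_vsub x y
    simpa using this.symm
  have h1 : ∀ u, discWt M D c v u • (s (φ u) - s (φ v)) =
      L.toLinearEquiv.toAddEquiv (discWt M D c v u • (φ u - φ v)) := by
    intro u
    rw [hs]
    exact (L.toLinearEquiv.map_smul _ _).symm
  simp_rw [h1]
  rw [← AddEquiv.map_finsum, hH, map_zero]

theorem cD20_aut {G : Type} (M : Inc V E F) [Group G] [MulAction G V] [MulAction G E]
    [MulAction G F] (h : Equiv M G) (g : G) :
    IsAut M (MulAction.toPerm g) (MulAction.toPerm g) (MulAction.toPerm g) := by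
  refine ⟨fun v e => ⟨fun hh => ?_, fun hh => h.ve g v e hh⟩,
    fun e f => ⟨fun hh => ?_, fun hh => h.ef g e f hh⟩⟩
  · have := h.ve g⁻¹ _ _ hh
    simpa using this
  · have := h.ef g⁻¹ _ _ hh
    simpa using this

theorem cD20_inv {G : Type} [Group G] [MulAction G F] {D : Set F}
    (hD : ∀ (g : G), ∀ f ∈ D, g • f ∈ D) (g : G) (f : F) :
    (MulAction.toPerm g : F ≃ F) f ∈ D ↔ f ∈ D := by
  refine ⟨fun hh => ?_, fun hh => hD g f hh⟩
  have := hD g⁻¹ _ hh
  simpa using this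

theorem cD20_pos (M : Inc V E F) (f₀ : F) {ε : ℝ} (hε : 0 < ε) : PosWt M (epsWt M f₀ ε) := by
  intro u v _
  unfold epsWt
  split_ifs
  · exact one_pos
  · exact hε

theorem cD20_touchInv {G : Type} (M : Inc V E F) [Group G] [MulAction G V] [MulAction G E]
    [MulAction G F] (h : Equiv M G) {D : Set F} (hD : ∀ (g : G), ∀ f ∈ D, g • f ∈ D) (g : G)
    {v : V} (hv : Touch M D v) : Touch M D (g • v) := by
  obtain ⟨d, hd, e, h1, h2⟩ := hv
  exact ⟨g • d, hD g d hd, g • e, h.ve g _ _ h1, h.ef g _ _ h2⟩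

/-- D20. -/
theorem cD20 (hSeq : Stmt_DiscSeq) (hDil : Stmt_Dil) (hLev : Stmt_Levels) (hAsm : Stmt_Assemble)
    (hExt : Stmt_DiscExt) (hCo : Stmt_Coarse) (hRe : Stmt_Recoarse) (hAut : Stmt_Aut) :
    Stmt_DrawFin := by
  intro V E F G M _ _ _ _ _ hEq
  obtain ⟨D, hT, hInv, hEx, hN⟩ := hSeq V E F G M hEq
  -- dilation
  have hdil : ∀ i, ∃ ε₀ > 0, ∀ ε : ℝ, 0 < ε → ε < ε₀ → ∀ P φ : CV M.toInc (D i) → ℂ,
      DiscExt (coarse M.toInc (D i)) (liftD M.toInc (D i) (D (i + 1)))
        (epsWt (coarse M.toInc (D i)) none ε) P φ →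
      ∀ a ∈ poly (coarse M.toInc (D i)) φ none, ∀ b ∈ poly (coarse M.toInc (D i)) φ none,
        (2 : ℂ) * b - a ∈ convexHull ℝ (φ '' {v | Corner (coarse M.toInc (D i))
          (liftD M.toInc (D i) (D (i + 1))) v}) := by
    intro i
    obtain ⟨N, hNi⟩ := hCo V E F M (D i) (hT i)
    have h := hDil _ _ _ N (liftD M.toInc (D i) (D (i + 1))) none
    rw [hNi] at h
    exact h (hN i).tight (hN i).deep
  choose ε₀ hε₀ hdil using hdil
  set ε : ℕ → ℝ := fun i => ε₀ i / 2 with hεdef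
  have hε : ∀ i, 0 < ε i := fun i => half_pos (hε₀ i)
  obtain ⟨P, φ, hP, hR, hφP, hs⟩ := hLev V E F G M hEq D ε hε hT hInv hN
  obtain ⟨φ₀, hφ₀, -⟩ := hExt V E F M (D 0) (hT 0) (fun _ _ => 1) (fun _ _ _ => one_pos) (P 0)
  have hRe' := fun i => hRe V E F M (D i) (D (i + 1)) (hT i) (hT (i + 1)) (hN i)
  -- corner values
  have hcv : ∀ i (v : CV M.toInc (D i)), Corner M.toInc (D (i + 1)) v.1 →
      φ i v = P (i + 1) v.1 := by
    intro i v hv
    have h1 : Corner (coarse M.toInc (D i)) (liftD M.toInc (D i) (D (i + 1))) v :=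
      ((hRe' i).2.1 v).2 hv
    exact (hR i).1 v (fun hh => hh.2 h1)
  obtain ⟨ψ, hψ, hψ0, hψi⟩ := hAsm V E F M D ε P φ φ₀ hε hT hEx hN hP hφ₀ hR hφP (by
    intro i a ha b hb
    have h1 : poly (coarse M.toInc (D i)) (φ i) none =
        convexHull ℝ (P i '' {v | Corner M.toInc (D i) v}) := by
      unfold poly
      congr 1
      ext z
      constructor
      · rintro ⟨v, hv, rfl⟩
        have hc : Corner M.toInc (D i) v.1 := ((hRe' i).2.2.2.1 v.1).2 ⟨v, rfl, hv⟩
        exact ⟨v.1, hc, (hφP i v hc.1).symm⟩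
      · rintro ⟨v, hv, rfl⟩
        have hc : Corner M.toInc (D i) v := hv
        obtain ⟨v', rfl, hv'⟩ := ((hRe' i).2.2.2.1 v).1 hc
        exact ⟨v', hv', hφP i v' hc.1⟩
    have h2 : (φ i) '' {v | Corner (coarse M.toInc (D i))
          (liftD M.toInc (D i) (D (i + 1))) v} =
        P (i + 1) '' {v | Corner M.toInc (D (i + 1)) v} := by
      ext z
      constructor
      · rintro ⟨v, hv, rfl⟩
        have hc : Corner M.toInc (D (i + 1)) v.1 := ((hRe' i).2.1 v).1 hv
        exact ⟨v.1, hc, (hcv i v hc).symm⟩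
      · rintro ⟨v, hv, rfl⟩
        have hc : Corner M.toInc (D (i + 1)) v := hv
        obtain ⟨v', rfl⟩ := (hRe' i).2.2.1 v hc
        exact ⟨v', ((hRe' i).2.1 v').2 hc, hcv i v' hc⟩
    rw [← h1] at ha hb
    rw [← h2]
    exact hdil i (ε i) (hε i) (half_lt_self (hε₀ i)) _ _ (hR i) a ha b hb)
  refine ⟨ψ, hψ, fun g => ?_⟩
  obtain ⟨s', hs'⟩ := hs g
  refine ⟨s', fun v => ?_⟩
  have hA := cD20_aut M.toInc hEq g
  obtain ⟨hA1, hA2⟩ := hAut V E F M _ _ _ hA
  by_cases h0 : Touch M.toInc (D 0) v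
  · rw [hψ0 v h0, hψ0 _ (cD20_touchInv M.toInc hEq (hInv 0) g h0)]
    have e1 := hA1 (D 0) (cD20_inv (hInv 0) g) (fun _ _ => 1) (fun _ _ => rfl) (P 0) φ₀ hφ₀
    have e2 := cD20_iso M.toInc (D 0) (fun _ _ => 1) hφ₀ s'
    have e3 := cD20_uniq hExt M (D 0) (hT 0) (fun _ _ => 1) (fun _ _ _ => one_pos) e1 e2
      (fun u hu => hs' 0 u hu) v h0
    exact e3
  · -- the least level
    have hex : ∃ i, Touch M.toInc (D i) v := by
      have hne : {e | M.ve v e}.Nonempty := by
        by_contra hcon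
        rw [not_nonempty_iff_eq_empty] at hcon
        have := M.vert_card v
        rw [hcon, ncard_empty] at this
        omega
      obtain ⟨e, he⟩ := hne
      obtain ⟨f, f', -, hf⟩ := M.edge_faces e
      obtain ⟨i, hi⟩ := hEx f
      exact ⟨i, f, hi, e, he, (hf f).2 (Or.inl rfl)⟩
    classical
    set k := Nat.find hex with hk
    have hk1 : Touch M.toInc (D k) v := Nat.find_spec hex
    have hk0 : k ≠ 0 := by
      intro hcon
      rw [hcon] at hk1
      exact h0 hk1
    obtain ⟨i, hi⟩ := Nat.exists_eq_succ_of_ne_zero hk0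
    rw [Nat.succ_eq_add_one] at hi
    rw [hi] at hk1
    have hnt : ¬ Touch M.toInc (D i) v := Nat.find_min hex (by omega)
    have hCV : ∃ f g, f ≠ g ∧ f ∉ D i ∧ g ∉ D i ∧ M.vf v f ∧ M.vf v g := by
      have hne : {e | M.ve v e}.Nonempty := by
        by_contra hcon
        rw [not_nonempty_iff_eq_empty] at hcon
        have := M.vert_card v
        rw [hcon, ncard_empty] at this
        omega
      obtain ⟨e, he⟩ := hne
      obtain ⟨f, f', hff, hf⟩ := M.edge_faces e
      have h1 : M.vf v f := ⟨e, he, (hf f).2 (Or.inl rfl)⟩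
      have h2 : M.vf v f' := ⟨e, he, (hf f').2 (Or.inr rfl)⟩
      exact ⟨f, f', hff, fun hh => hnt ⟨f, hh, h1⟩, fun hh => hnt ⟨f', hh, h2⟩, h1, h2⟩
    set w : CV M.toInc (D i) := ⟨v, hCV⟩ with hw
    obtain ⟨a', b', d', hA', ha', hd', hεw, hlift⟩ := hA2 (D i) (cD20_inv (hInv i) g)
    obtain ⟨N, hNi⟩ := hCo V E F M (D i) (hT i)
    have hA1' : ∀ (D₁ : Set (CF M.toInc (D i))), (∀ f, d' f ∈ D₁ ↔ f ∈ D₁) →
        ∀ (c : CV M.toInc (D i) → CV M.toInc (D i) → ℝ),
        (∀ u v, c (a' u) (a' v) = c u v) → ∀ P φ : CV M.toInc (D i) → ℂ,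
        DiscExt (coarse M.toInc (D i)) D₁ c P φ →
        DiscExt (coarse M.toInc (D i)) D₁ c (fun v => P (a' v)) (fun v => φ (a' v)) := by
      have := (hAut _ _ _ N a' b' d' (by rw [hNi]; exact hA')).1
      rw [hNi] at this
      exact this
    have e1 := hA1' (liftD M.toInc (D i) (D (i + 1)))
      (hlift (D (i + 1)) (cD20_inv (hInv (i + 1)) g))
      (epsWt (coarse M.toInc (D i)) none (ε i)) (hεw (ε i)) _ _ (hR i)
    have e2 := cD20_iso (coarse M.toInc (D i)) (liftD M.toInc (D i) (D (i + 1)))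
      (epsWt (coarse M.toInc (D i)) none (ε i)) (hR i) s'
    have hU := cD20_uniq hExt N (liftD M.toInc (D i) (D (i + 1)))
      (by rw [hNi]; exact (hN i).tight) (epsWt (coarse M.toInc (D i)) none (ε i))
      (by rw [hNi]; exact cD20_pos _ _ (hε i))
      (P := fun v => P (i + 1) (a' v).1) (φ := fun v => φ i (a' v))
      (P' := fun v => s' (P (i + 1) v.1)) (φ' := fun v => s' (φ i v))
      (by rw [hNi]; exact e1) (by rw [hNi]; exact e2)
      (by
        intro u hu
        rw [hNi] at hu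
        have hu' : Corner M.toInc (D (i + 1)) u.1 := ((hRe' i).2.1 u).1 hu
        have := hs' (i + 1) u.1 hu'
        show P (i + 1) (a' u).1 = s' (P (i + 1) u.1)
        rw [ha' u]
        exact this) w (by rw [hNi]; exact ((hRe' i).1 w).2 hk1)
    have h3 : ψ w.1 = φ i w := hψi i w hk1
    have h4 : ψ (a' w).1 = φ i (a' w) := hψi i (a' w) (by
      rw [ha' w]
      exact cD20_touchInv M.toInc hEq (hInv (i + 1)) g hk1)
    have h5 : (a' w).1 = g • v := ha' w
    rw [← h5, h4]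
    show φ i (a' w) = s' (ψ w.1)
    rw [h3]
    exact hU

end Pool.Agent.CT
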