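import Pool.Agent.CT.TDefs

set_option autoImplicit false

/-! # Part H: conformal maps of closed topological discs, equivariant discs, and the homeomorphism

All statements here are frozen; each is proved in its own file `Pool/Agent/CT/H<n>.lean`, possibly
from the previous ones (taken as hypotheses). -/

namespace Pool.Agent.CT

open Set Metric Filter Topology

/-! ## A. Plane topology -/

/-- H1. Invariance of domain at the centre of a disc. -/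
def Stmt_InvDom : Prop := ∀ f : ℂ → ℂ, ContinuousOn f (closedBall 0 1) →
  InjOn f (closedBall 0 1) → f 0 ∈ interior (f '' closedBall 0 1)

/-- H2. Interior and frontier of a closed topological disc in the plane. (From H1.) -/
def Stmt_DiscTop : Prop := ∀ (t : Set ℂ) (ψ : closedBall (0 : ℂ) 1 ≃ₜ t),
  (∀ z : closedBall (0 : ℂ) 1, ((ψ z : t) : ℂ) ∈ interior t ↔ ‖(z : ℂ)‖ < 1) ∧
  (∀ z : closedBall (0 : ℂ) 1, ((ψ z : t) : ℂ) ∈ frontier t ↔ ‖(z : ℂ)‖ = 1) ∧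
  closure (interior t) = t ∧ IsCompact t

/-- H3. The interior of a closed topological disc is simply connected. (From H2.) -/
def Stmt_DiscSC : Prop := ∀ (t : Set ℂ) (_ : closedBall (0 : ℂ) 1 ≃ₜ t),
  IsSimplyConnected (interior t)

/-! ## B. Riemann mapping theorem -/

/-- H4. Montel, in the form needed. -/
def Stmt_Montel : Prop := ∀ U : Set ℂ, IsOpen U → ∀ f : ℕ → ℂ → ℂ,
  (∀ n, DifferentiableOn ℂ (f n) U) → (∀ n, MapsTo (f n) U (closedBall 0 1)) →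
  ∃ (l : Filter ℕ) (F : ℂ → ℂ), l.NeBot ∧ l ≤ atTop ∧ TendstoLocallyUniformlyOn f F l U

/-- H5. Hurwitz. -/
def Stmt_Hurwitz : Prop := ∀ U : Set ℂ, IsOpen U → IsPreconnected U →
  ∀ (f : ℕ → ℂ → ℂ) (F : ℂ → ℂ) (l : Filter ℕ), l.NeBot →
  (∀ n, DifferentiableOn ℂ (f n) U) → (∀ n, InjOn (f n) U) → TendstoLocallyUniformlyOn f F l U →
  (∃ z ∈ U, ∃ w ∈ U, F z ≠ F w) → InjOn F U

/-- H6. Injective holomorphic maps are open and have holomorphic inverses. -/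
def Stmt_HoloInv : Prop := ∀ U : Set ℂ, IsOpen U → ∀ f : ℂ → ℂ, DifferentiableOn ℂ f U →
  InjOn f U → IsOpen (f '' U) ∧ (∀ z ∈ U, deriv f z ≠ 0) ∧
    ∃ g : ℂ → ℂ, DifferentiableOn ℂ g (f '' U) ∧ ∀ z ∈ U, g (f z) = z

/-- H7. Koebe's square root step. -/
def Stmt_Koebe : Prop := ∀ U : Set ℂ, IsOpen U → IsSimplyConnected U → ∀ p ∈ U,
  ∀ f : ℂ → ℂ, DifferentiableOn ℂ f U → InjOn f U → MapsTo f U (ball 0 1) → f p = 0 →
  deriv f p ≠ 0 → ∀ w ∈ ball (0 : ℂ) 1, w ∉ f '' U →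
  ∃ g : ℂ → ℂ, DifferentiableOn ℂ g U ∧ InjOn g U ∧ MapsTo g U (ball 0 1) ∧ g p = 0 ∧
    ‖deriv f p‖ < ‖deriv g p‖

/-- H8. Riemann mapping theorem for bounded simply connected open sets. (From H4–H7.) -/
def Stmt_RMT : Prop := ∀ U : Set ℂ, IsOpen U → IsSimplyConnected U → Bornology.IsBounded U →
  ∀ p ∈ U, ∃ f : ℂ → ℂ, DifferentiableOn ℂ f (ball 0 1) ∧ InjOn f (ball 0 1) ∧
    f '' ball 0 1 = U ∧ f 0 = p

/-! ## C. Carathéodory's theorem -/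

/-- H9. Automorphisms of the disc fixing the centre. -/
def Stmt_DiscAut : Prop := ∀ g g' : ℂ → ℂ, DifferentiableOn ℂ g (ball 0 1) →
  DifferentiableOn ℂ g' (ball 0 1) → MapsTo g (ball 0 1) (ball 0 1) →
  MapsTo g' (ball 0 1) (ball 0 1) → g 0 = 0 → (∀ z ∈ ball (0 : ℂ) 1, g' (g z) = z) →
  (∀ z ∈ ball (0 : ℂ) 1, g (g' z) = z) → ∃ c : ℂ, ‖c‖ = 1 ∧ ∀ z ∈ ball (0 : ℂ) 1, g z = c * z

/-- H10. Length–area: crosscuts with small images. -/
def Stmt_Crosscut : Prop := ∀ f : ℂ → ℂ, DifferentiableOn ℂ f (ball 0 1) →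
  InjOn f (ball 0 1) → Bornology.IsBounded (f '' ball 0 1) →
  ∀ ζ : ℂ, ‖ζ‖ = 1 → ∀ ε > 0, ∀ ρ > 0, ∃ r, 0 < r ∧ r < ρ ∧
    ∀ z ∈ ball (0 : ℂ) 1, ∀ w ∈ ball (0 : ℂ) 1, dist z ζ = r → dist w ζ = r →
      dist (f z) (f w) ≤ ε

/-- H11. Uniform continuity at the boundary. (From H2, H6, H10.) -/
def Stmt_BdCont : Prop := ∀ (t : Set ℂ) (_ : closedBall (0 : ℂ) 1 ≃ₜ t) (f : ℂ → ℂ),
  DifferentiableOn ℂ f (ball 0 1) → InjOn f (ball 0 1) → f '' ball 0 1 = interior t →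
  ∀ ζ : ℂ, ‖ζ‖ = 1 → ∀ ε > 0, ∃ δ > 0, ∀ z ∈ ball (0 : ℂ) 1, ∀ w ∈ ball (0 : ℂ) 1,
    dist z ζ < δ → dist w ζ < δ → dist (f z) (f w) < ε

/-- H12. A function which is constant on a boundary arc is constant. -/
def Stmt_ArcConst : Prop := ∀ (F : ℂ → ℂ) (a : ℂ), ContinuousOn F (closedBall 0 1) →
  DifferentiableOn ℂ F (ball 0 1) → ∀ θ₁ θ₂ : ℝ, θ₁ < θ₂ →
  (∀ θ ∈ Ioo θ₁ θ₂, F (Complex.exp (θ * Complex.I)) = a) → F 0 = a

/-- H13. Injectivity on the circle. (From H2, H6, H12.) -/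
def Stmt_BdInj : Prop := ∀ (t : Set ℂ) (_ : closedBall (0 : ℂ) 1 ≃ₜ t) (F : ℂ → ℂ),
  ContinuousOn F (closedBall 0 1) → DifferentiableOn ℂ F (ball 0 1) → InjOn F (ball 0 1) →
  F '' ball 0 1 = interior t → InjOn F (sphere 0 1)

/-- H14. Carathéodory's theorem for closed topological discs. (From H2, H6, H11, H13.) -/
def Stmt_Cara : Prop := ∀ (t : Set ℂ) (_ : closedBall (0 : ℂ) 1 ≃ₜ t) (f : ℂ → ℂ),
  DifferentiableOn ℂ f (ball 0 1) → InjOn f (ball 0 1) → f '' ball 0 1 = interior t →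
  ∃ F : closedBall (0 : ℂ) 1 ≃ₜ t, ∀ z : closedBall (0 : ℂ) 1, ‖(z : ℂ)‖ < 1 →
    ((F z : t) : ℂ) = f z

/-- H15. A finite group of isometries preserving a simply connected open set has a fixed point in
it. -/
def Stmt_FixPt : Prop := ∀ U : Set ℂ, IsOpen U → IsSimplyConnected U →
  ∀ S : Subgroup (ℂ ≃ᵢ ℂ), (S : Set (ℂ ≃ᵢ ℂ)).Finite → (∀ s ∈ S, s '' U = U) →
  ∃ p ∈ U, ∀ s ∈ S, s p = p

/-- H16. Assembly. -/
def Stmt_EquivDiscAsm : Prop := Stmt_DiscTop → Stmt_DiscSC → Stmt_HoloInv → Stmt_RMT →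
  Stmt_DiscAut → Stmt_Cara → Stmt_FixPt → Stmt_EquivDisc

/-! ## D. The homeomorphism of the plane -/

/-- H20. -/
def Stmt_FinIso : Prop := ∀ A : Set ℂ, A.Finite → A.Nontrivial →
  {s : ℂ ≃ᵢ ℂ | s '' A = A}.Finite

section actions

variable (K : DiscTiling)

theorem image_mem_of_sym (s : symGroup K.T) {t : Set ℂ} (ht : t ∈ K.T) : s.1 '' t ∈ K.T := by
  have h : (fun t => s.1 '' t) '' K.T = K.T := s.2
  exact h.subset (mem_image_of_mem _ ht)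

/-- The symmetry group acts on the tiles. -/
noncomputable instance : MulAction (symGroup K.T) K.F where
  smul s t := ⟨s.1 '' t.1, image_mem_of_sym K s t.2⟩
  one_smul t := by
    apply Subtype.ext
    show ((1 : symGroup K.T) : ℂ ≃ᵢ ℂ) '' t.1 = t.1
    have : (((1 : symGroup K.T) : ℂ ≃ᵢ ℂ) : ℂ → ℂ) = id := rfl
    rw [this, image_id]
  mul_smul a b t := by
    apply Subtype.ext
    show ((a * b : symGroup K.T) : ℂ ≃ᵢ ℂ) '' t.1 = a.1 '' (b.1 '' t.1)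
    rw [image_image]
    rfl

/-- The symmetry group acts on the edges. -/
noncomputable instance : MulAction (symGroup K.T) K.E where
  smul s J := ⟨s.1 '' J.1, J.2.1.image s.1.injective, by
    obtain ⟨-, t, ht, t', ht', hne, hJ⟩ := J.2
    refine ⟨s.1 '' t, image_mem_of_sym K s ht, s.1 '' t', image_mem_of_sym K s ht', ?_, ?_⟩
    · intro h
      exact hne (s.1.injective.image_injective h)
    · rw [hJ, image_inter s.1.injective]⟩
  one_smul t := by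
    apply Subtype.ext
    show ((1 : symGroup K.T) : ℂ ≃ᵢ ℂ) '' t.1 = t.1
    have : (((1 : symGroup K.T) : ℂ ≃ᵢ ℂ) : ℂ → ℂ) = id := rfl
    rw [this, image_id]
  mul_smul a b t := by
    apply Subtype.ext
    show ((a * b : symGroup K.T) : ℂ ≃ᵢ ℂ) '' t.1 = a.1 '' (b.1 '' t.1)
    rw [image_image]
    rfl

theorem tilesAt_sym (s : symGroup K.T) (p : ℂ) :
    K.tilesAt (s.1 p) = (fun t => s.1 '' t) '' K.tilesAt p := by
  ext t
  constructor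
  · rintro ⟨ht, hp⟩
    refine ⟨(s⁻¹ : symGroup K.T).1 '' t, ⟨image_mem_of_sym K s⁻¹ ht, ⟨s.1 p, hp, ?_⟩⟩, ?_⟩
    · show (s.1)⁻¹ (s.1 p) = p
      exact s.1.symm_apply_apply p
    · show s.1 '' (((s.1)⁻¹ : ℂ ≃ᵢ ℂ) '' t) = t
      rw [image_image]
      have : (fun x => s.1 ((s.1)⁻¹ x)) = id := by
        funext x
        exact s.1.apply_symm_apply x
      rw [this, image_id]
  · rintro ⟨u, ⟨hu, hp⟩, rfl⟩
    exact ⟨image_mem_of_sym K s hu, mem_image_of_mem _ hp⟩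

/-- The symmetry group acts on the vertices. -/
noncomputable instance : MulAction (symGroup K.T) K.V where
  smul s v := ⟨s.1 v.1, by
    rw [tilesAt_sym, ncard_image_of_injective _ s.1.injective.image_injective]
    exact v.2⟩
  one_smul v := rfl
  mul_smul a b v := rfl

@[simp] theorem smul_F_coe (s : symGroup K.T) (t : K.F) : (s • t).1 = s.1 '' t.1 := rfl
@[simp] theorem smul_E_coe (s : symGroup K.T) (t : K.E) : (s • t).1 = s.1 '' t.1 := rfl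
@[simp] theorem smul_V_coe (s : symGroup K.T) (t : K.V) : (s • t).1 = s.1 t.1 := rfl

end actions

/-- The context of part D: an equivariant drawing of a tiling. -/
structure HCtx (K : DiscTiling) where
  M : PolyMap K.V K.E K.F
  isMap : K.IsMap M.toInc
  topo : TopoFacts K
  φ : K.V → ℂ
  dr : IsDrawing M.toInc φ
  ρ : symGroup K.T →* (ℂ ≃ᵢ ℂ)
  eq : ∀ (s : symGroup K.T) (v : K.V), φ (s • v) = ρ s (φ v)

/-- H21. The isometries of an equivariant drawing form a homomorphism. -/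
def Stmt_Rho : Prop := ∀ (K : DiscTiling) (M : PolyMap K.V K.E K.F), K.IsMap M.toInc →
  ∀ φ : K.V → ℂ, IsDrawing M.toInc φ → EquivDrawing K φ →
  ∃ ρ : symGroup K.T →* (ℂ ≃ᵢ ℂ), ∀ (s : symGroup K.T) (v : K.V), φ (s • v) = ρ s (φ v)

/-- H22. Stabilisers of tiles and edges are finite. (From H20.) -/
def Stmt_FinStab : Prop := ∀ (K : DiscTiling) (M : PolyMap K.V K.E K.F), K.IsMap M.toInc →
  TopoFacts K → (∀ t : K.F, {s : ℂ ≃ᵢ ℂ | s ∈ symGroup K.T ∧ s '' t.1 = t.1}.Finite) ∧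
    ∀ e : K.E, {s : ℂ ≃ᵢ ℂ | s ∈ symGroup K.T ∧ s '' e.1 = e.1}.Finite

/-- H23. Equivariant parameter of an arc. -/
def Stmt_ArcParam : Prop := ∀ γ : C(unitInterval, ℂ), Function.Injective γ →
  ∀ S : Subgroup (ℂ ≃ᵢ ℂ), (S : Set (ℂ ≃ᵢ ℂ)).Finite →
  (∀ s ∈ S, s '' range γ = range γ ∧
    ((s (γ 0) = γ 0 ∧ s (γ 1) = γ 1) ∨ (s (γ 0) = γ 1 ∧ s (γ 1) = γ 0))) →
  ∃ α : ℂ → ℝ, ContinuousOn α (range γ) ∧ InjOn α (range γ) ∧ α '' range γ = Icc 0 1 ∧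
    α (γ 0) = 0 ∧ α (γ 1) = 1 ∧ ∀ s ∈ S, ∀ z ∈ range γ,
      (s (γ 0) = γ 0 → α (s z) = α z) ∧ (s (γ 0) = γ 1 → α (s z) = 1 - α z)

/-- H24. Equivariant choice along orbits. -/
def Stmt_Transport : Prop := ∀ (G X : Type) [Group G] [MulAction G X]
  (act ρ : G →* (ℂ ≃ᵢ ℂ)) (A : X → Set ℂ), (∀ g x, A (g • x) = act g '' A x) →
  ∀ Good : X → (ℂ → ℂ) → Prop,
  (∀ g x B B', Good x B → (∀ z ∈ A x, B' (act g z) = ρ g (B z)) → Good (g • x) B') →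
  (∀ x, ∃ B, Good x B ∧ ∀ g : G, g • x = x → ∀ z ∈ A x, B (act g z) = ρ g (B z)) →
  ∃ B : X → ℂ → ℂ, (∀ x, Good x (B x)) ∧ ∀ g x, ∀ z ∈ A x, B (g • x) (act g z) = ρ g (B x z)

namespace HCtx

variable {K : DiscTiling}

/-- `B` maps the closed edge `e` homeomorphically onto its segment. -/
structure IsEdgeMap (c : HCtx K) (e : K.E) (B : ℂ → ℂ) : Prop where
  cont : ContinuousOn B e.1
  inj : InjOn B e.1
  img : B '' e.1 = seg c.M.toInc c.φ e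
  vert : ∀ v : K.V, v.1 ∈ e.1 → B v.1 = c.φ v

/-- `b` maps the 1-skeleton of the tiling onto the 1-skeleton of the drawing, equivariantly. -/
structure IsSkel (c : HCtx K) (b : ℂ → ℂ) : Prop where
  edge : ∀ e : K.E, c.IsEdgeMap e b
  equiv : ∀ (s : symGroup K.T) (e : K.E), ∀ z ∈ e.1, b (s.1 z) = c.ρ s (b z)

/-- `H` maps the tile `t` homeomorphically onto its polygon and extends `b`. -/
structure IsTileMap (c : HCtx K) (b : ℂ → ℂ) (t : K.F) (H : ℂ → ℂ) : Prop where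
  cont : ContinuousOn H t.1
  inj : InjOn H t.1
  img : H '' t.1 = poly c.M.toInc c.φ t
  bd : ∀ z ∈ frontier t.1, H z = b z

end HCtx

/-- H25. One edge, equivariant under its stabiliser. (From H22, H23.) -/
def Stmt_EdgeOne : Prop := ∀ (K : DiscTiling) (c : HCtx K) (e : K.E), ∃ B : ℂ → ℂ,
  c.IsEdgeMap e B ∧ ∀ s : symGroup K.T, s • e = e → ∀ z ∈ e.1, B (s.1 z) = c.ρ s (B z)

/-- H26. The map of the 1-skeleton. (From H24, H25.) -/
def Stmt_Skel : Prop := ∀ (K : DiscTiling) (c : HCtx K), ∃ b : ℂ → ℂ, c.IsSkel b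

/-- H27. Radial extension. -/
def Stmt_Radial : Prop := ∀ P : Set ℂ, Convex ℝ P → IsCompact P → ∀ q ∈ interior P,
  ∀ β : ℂ → ℂ, ContinuousOn β (sphere 0 1) → InjOn β (sphere 0 1) →
  β '' sphere 0 1 = frontier P →
  ContinuousOn (fun z : ℂ => q + (‖z‖ : ℂ) * (β (z / (‖z‖ : ℂ)) - q)) (closedBall 0 1) ∧
  InjOn (fun z : ℂ => q + (‖z‖ : ℂ) * (β (z / (‖z‖ : ℂ)) - q)) (closedBall 0 1) ∧
  (fun z : ℂ => q + (‖z‖ : ℂ) * (β (z / (‖z‖ : ℂ)) - q)) '' closedBall 0 1 = P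

/-- H28. One tile, equivariant under its stabiliser. (From EquivDisc, H22, H27.) -/
def Stmt_TileOne : Prop := ∀ (K : DiscTiling) (c : HCtx K) (b : ℂ → ℂ), c.IsSkel b →
  ∀ t : K.F, ∃ H : ℂ → ℂ, c.IsTileMap b t H ∧
    ∀ s : symGroup K.T, s • t = t → ∀ z ∈ t.1, H (s.1 z) = c.ρ s (H z)

/-- H29. Gluing. -/
def Stmt_GlueH : Prop := ∀ (K : DiscTiling) (c : HCtx K) (b : ℂ → ℂ), c.IsSkel b →
  ∀ H : K.F → ℂ → ℂ, (∀ t, c.IsTileMap b t (H t)) →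
  (∀ (s : symGroup K.T) (t : K.F), ∀ z ∈ t.1, H (s • t) (s.1 z) = c.ρ s (H t z)) →
  ∃ h : ℂ ≃ₜ ℂ, (∀ t : K.F, h '' t.1 = poly c.M.toInc c.φ t) ∧
    ∀ (s : symGroup K.T) (z : ℂ), h (s.1 z) = c.ρ s (h z)

/-- H30. Assembly. -/
def Stmt_HomeoAsm : Prop := Stmt_Rho → Stmt_Transport → Stmt_Skel → Stmt_TileOne →
  Stmt_GlueH → Stmt_Homeo

end Pool.Agent.CT
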