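import Pool.Agent.CT.DDefs
import Pool.Agent.CT.HDefs

set_option autoImplicit false

/-! # D21: drawings of tilings with a finite symmetry group -/

namespace Pool.Agent.CT

open Set Metric

/-- D21. -/
theorem cD21 (h : Stmt_DrawFin) : Stmt_DrawFinTiling := by
  intro K M hM hfin
  haveI : Finite (symGroup K.T) := hfin.to_subtype
  have hEq : Equiv M.toInc (symGroup K.T) := by
    refine ⟨fun g v e hh => ?_, fun g e f hh => ?_⟩
    · rw [hM.ve] at hh ⊢
      rw [smul_V_coe, smul_E_coe]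
      exact mem_image_of_mem _ hh
    · rw [hM.ef] at hh ⊢
      rw [smul_E_coe, smul_F_coe]
      exact image_mono hh
  obtain ⟨φ, hφ, hs⟩ := h K.V K.E K.F (symGroup K.T) M hEq
  refine ⟨φ, hφ, fun s hs' => ?_⟩
  obtain ⟨s', h'⟩ := hs ⟨s, hs'⟩
  refine ⟨s', fun v w hvw => ?_⟩
  rw [← h' v]
  congr 1
  exact Subtype.ext hvw

end Pool.Agent.CT
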