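import Pool.Agent.CT.BDefs

set_option autoImplicit false

/-! # No alternation on a face, and the two faces of an edge (P3, P4) -/

namespace Pool.Agent.CT

open Set

section p34

variable {V E F : Type}

/-- The cells carried by a set of vertices: its vertices and the edges all of whose vertices are in
the set. -/
def p34lift (M : Inc V E F) (U : Set V) : Set (Cell V E F) :=
  {c | (∃ u ∈ U, c = .vert u) ∨ ∃ e, (∀ v, M.ve v e → v ∈ U) ∧ (∃ v, M.ve v e) ∧ c = .edge e}

theorem p34_vert {M : Inc V E F} {U : Set V} {v : V} :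
    Cell.vert v ∈ p34lift M U ↔ v ∈ U := by
  constructor
  · rintro (⟨u, hu, h⟩ | ⟨e, _, _, h⟩)
    · cases h; exact hu
    · cases h
  · intro h
    exact Or.inl ⟨v, h, rfl⟩

theorem p34_edge {M : Inc V E F} {U : Set V} {e : E} :
    Cell.edge e ∈ p34lift M U ↔ (∀ v, M.ve v e → v ∈ U) ∧ ∃ v, M.ve v e := by
  constructor
  · rintro (⟨u, hu, h⟩ | ⟨d, h1, h2, h⟩)
    · cases h
    · cases h; exact ⟨h1, h2⟩
  · intro h
    exact Or.inr ⟨e, h.1, h.2, rfl⟩

theorem p34_face {M : Inc V E F} {U : Set V} {f : F} : Cell.face f ∉ p34lift M U := by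
  rintro (⟨u, hu, h⟩ | ⟨d, h1, h2, h⟩) <;> cases h

theorem p34_conn {M : Inc V E F} (hM : ∀ e, ∃ u v, u ≠ v ∧ ∀ w, M.ve w e ↔ (w = u ∨ w = v))
    {U : Set V} (hU : ConnIn M.vadj U) : ConnIn M.cellGraph (p34lift M U) := by
  have key : ∀ a ∈ U, ∀ b ∈ U, ReachIn M.cellGraph (p34lift M U) (.vert a) (.vert b) := by
    intro a ha b hb
    refine (hU a ha b hb).map ?_
    rintro x hx y hy ⟨hne, e, h1, h2⟩
    obtain ⟨u, v, huv, hw⟩ := hM e
    have hmem : Cell.edge e ∈ p34lift M U := by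
      refine p34_edge.2 ⟨?_, x, h1⟩
      intro w hwe
      have a1 := (hw x).1 h1
      have a2 := (hw y).1 h2
      have a3 := (hw w).1 hwe
      rcases a1 with rfl | rfl <;> rcases a2 with rfl | rfl <;> rcases a3 with rfl | rfl <;>
        first | exact hx | exact hy | exact absurd rfl hne
    refine (ReachIn.single ?_ (p34_vert.2 hx) hmem).trans
      (ReachIn.single ?_ hmem (p34_vert.2 hy))
    · exact Or.inl (CellInc.ve h1)
    · exact Or.inr (CellInc.ve h2)
  have hv : ∀ c ∈ p34lift M U, ∃ u ∈ U, ReachIn M.cellGraph (p34lift M U) c (.vert u) := by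
    rintro c (⟨u, hu, rfl⟩ | ⟨e, h1, ⟨v, hv⟩, rfl⟩)
    · exact ⟨u, hu, ReachIn.refl _⟩
    · refine ⟨v, h1 v hv, ReachIn.single (Or.inr (CellInc.ve hv)) (p34_edge.2 ⟨h1, v, hv⟩)
        (p34_vert.2 (h1 v hv))⟩
  intro c hc d hd
  obtain ⟨u, hu, h1⟩ := hv c hc
  obtain ⟨w, hw, h2⟩ := hv d hd
  exact (h1.trans (key u hu w hw)).trans h2.symm

theorem p34_disj {M : Inc V E F} {U L : Set V} (h : Disjoint U L) :
    Disjoint (p34lift M U) (p34lift M L) := by
  rw [Set.disjoint_left]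
  rintro c (⟨u, hu, rfl⟩ | ⟨e, h1, ⟨v, hv⟩, rfl⟩) h2
  · exact Set.disjoint_left.1 h hu (p34_vert.1 h2)
  · exact Set.disjoint_left.1 h (h1 v hv) ((p34_edge.1 h2).1 v hv)

/-- The arc of the boundary of a face from `x a` to `x b`. -/
def p34arc (x : ℤ → V) (y : ℤ → E) (a b : ℤ) : Set (Cell V E F) :=
  {c | (∃ m, a ≤ m ∧ m ≤ b ∧ c = .vert (x m)) ∨ ∃ m, a ≤ m ∧ m < b ∧ c = .edge (y m)}

theorem p34_arc_vert {x : ℤ → V} {y : ℤ → E} {a b m : ℤ} (h1 : a ≤ m) (h2 : m ≤ b) :
    Cell.vert (x m) ∈ (p34arc x y a b : Set (Cell V E F)) := Or.inl ⟨m, h1, h2, rfl⟩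

theorem p34_arc_edge {x : ℤ → V} {y : ℤ → E} {a b m : ℤ} (h1 : a ≤ m) (h2 : m < b) :
    Cell.edge (y m) ∈ (p34arc x y a b : Set (Cell V E F)) := Or.inr ⟨m, h1, h2, rfl⟩

theorem p34_arc_conn {M : Inc V E F} {x : ℤ → V} {y : ℤ → E}
    (hve : ∀ i v, M.ve v (y i) ↔ (v = x i ∨ v = x (i + 1))) (a b : ℤ) :
    ConnIn M.cellGraph (p34arc x y a b) := by
  have hadj1 : ∀ m, M.cellGraph.Adj (.vert (x m)) (.edge (y m)) := fun m =>
    Or.inl (CellInc.ve ((hve m _).2 (Or.inl rfl)))
  have hadj2 : ∀ m, M.cellGraph.Adj (.edge (y m)) (.vert (x (m + 1))) := fun m =>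
    Or.inr (CellInc.ve ((hve m _).2 (Or.inr rfl)))
  have key : ∀ k : ℕ, a + k ≤ b →
      ReachIn M.cellGraph (p34arc x y a b) (.vert (x a)) (.vert (x (a + k))) := by
    intro k
    induction k with
    | zero => intro _; simpa using ReachIn.refl _
    | succ k ih =>
      intro hk
      push_cast at hk ⊢
      have h0 := ih (by omega)
      have e1 : Cell.vert (x (a + k)) ∈ (p34arc x y a b : Set (Cell V E F)) :=
        p34_arc_vert (by omega) (by omega)
      have e2 : Cell.edge (y (a + k)) ∈ (p34arc x y a b : Set (Cell V E F)) :=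
        p34_arc_edge (by omega) (by omega)
      have e3 : Cell.vert (x (a + k + 1)) ∈ (p34arc x y a b : Set (Cell V E F)) :=
        p34_arc_vert (by omega) (by omega)
      have := (h0.tail (hadj1 (a + k)) e1 e2).tail (hadj2 (a + k)) e2 e3
      rwa [add_assoc] at this
  have key2 : ∀ m, a ≤ m → m ≤ b →
      ReachIn M.cellGraph (p34arc x y a b) (.vert (x a)) (.vert (x m)) := by
    intro m h1 h2
    have := key (m - a).toNat (by omega)
    have h3 : a + ((m - a).toNat : ℤ) = m := by omega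
    rwa [h3] at this
  refine ConnIn.of_base (.vert (x a)) ?_
  rintro c (⟨m, h1, h2, rfl⟩ | ⟨m, h1, h2, rfl⟩)
  · exact key2 m h1 h2
  · exact (key2 m h1 h2.le).tail (hadj1 m) (p34_arc_vert h1 h2.le) (p34_arc_edge h1 h2)

theorem p34_arc_disj {n : ℕ} {x : ℤ → V} {y : ℤ → E}
    (hx : ∀ i j, x i = x j ↔ (n : ℤ) ∣ i - j) (hy : ∀ i j, y i = y j ↔ (n : ℤ) ∣ i - j)
    {a b c d : ℤ} (h1 : b < c) (h2 : d < a + n) :
    Disjoint (p34arc x y a b : Set (Cell V E F)) (p34arc x y c d) := by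
  have key : ∀ m m' : ℤ, a ≤ m → m ≤ b → c ≤ m' → m' ≤ d → ¬ (n : ℤ) ∣ m' - m := by
    rintro m m' h3 h4 h5 h6 h7
    have := Int.le_of_dvd (by omega) h7
    omega
  rw [Set.disjoint_left]
  rintro t (⟨m, h3, h4, rfl⟩ | ⟨m, h3, h4, rfl⟩) (⟨m', h5, h6, h7⟩ | ⟨m', h5, h6, h7⟩)
  · injection h7 with h7
    exact key m m' h3 h4 h5 h6 ((hx _ _).1 h7.symm)
  · cases h7
  · cases h7
  · injection h7 with h7
    exact key m m' h3 h4.le h5 h6.le ((hy _ _).1 h7.symm)

/-- The `K₅` condition written out. -/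
theorem p34_K5 {α : Type} {G : SimpleGraph α} (hG : StrongPlanar G) (c0 c1 c2 c3 c4 : α)
    (Z01 Z02 Z03 Z04 Z12 Z13 Z14 Z23 Z24 Z34 : Set α)
    (h01 : c0 ∈ Z01 ∧ c1 ∈ Z01 ∧ ConnIn G Z01) (h02 : c0 ∈ Z02 ∧ c2 ∈ Z02 ∧ ConnIn G Z02)
    (h03 : c0 ∈ Z03 ∧ c3 ∈ Z03 ∧ ConnIn G Z03) (h04 : c0 ∈ Z04 ∧ c4 ∈ Z04 ∧ ConnIn G Z04)
    (h12 : c1 ∈ Z12 ∧ c2 ∈ Z12 ∧ ConnIn G Z12) (h13 : c1 ∈ Z13 ∧ c3 ∈ Z13 ∧ ConnIn G Z13)
    (h14 : c1 ∈ Z14 ∧ c4 ∈ Z14 ∧ ConnIn G Z14) (h23 : c2 ∈ Z23 ∧ c3 ∈ Z23 ∧ ConnIn G Z23)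
    (h24 : c2 ∈ Z24 ∧ c4 ∈ Z24 ∧ ConnIn G Z24) (h34 : c3 ∈ Z34 ∧ c4 ∈ Z34 ∧ ConnIn G Z34)
    (d0 : Disjoint Z01 Z23) (d1 : Disjoint Z01 Z24) (d2 : Disjoint Z01 Z34)
    (d3 : Disjoint Z02 Z13) (d4 : Disjoint Z02 Z14) (d5 : Disjoint Z02 Z34)
    (d6 : Disjoint Z03 Z12) (d7 : Disjoint Z03 Z14) (d8 : Disjoint Z03 Z24)
    (d9 : Disjoint Z04 Z12) (d10 : Disjoint Z04 Z13) (d11 : Disjoint Z04 Z23)
    (d12 : Disjoint Z12 Z34) (d13 : Disjoint Z13 Z24) (d14 : Disjoint Z14 Z23) : False := by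
  let Z : Fin 5 → Fin 5 → Set α := fun i j =>
    ![![∅, Z01, Z02, Z03, Z04], ![∅, ∅, Z12, Z13, Z14], ![∅, ∅, ∅, Z23, Z24],
      ![∅, ∅, ∅, ∅, Z34], ![∅, ∅, ∅, ∅, ∅]] i j
  refine hG.noK5 ![c0, c1, c2, c3, c4] Z ?_ ?_
  · intro i j hij
    fin_cases i <;> fin_cases j <;>
      first | exact absurd hij (by decide) | assumption
  · intro i j k l hij hkl a1 a2 a3 a4
    fin_cases i <;> fin_cases j <;>
      first
      | exact absurd hij (by decide)
      | (fin_cases k <;> fin_cases l <;>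
          first
          | exact absurd hkl (by decide)
          | exact absurd rfl a1
          | exact absurd rfl a2
          | exact absurd rfl a3
          | exact absurd rfl a4
          | assumption
          | (apply Disjoint.symm; assumption))

end p34

theorem cP3 : Stmt_FaceAlt := by
  intro V E F M hM hG f n x y hc U L hU hL hUL i j k l hij hjk hkl hli xi xj xk xl
  have hx := hc.curve.x_eq
  have hy := hc.curve.y_eq
  have hve := hc.curve.ve
  have hn : 3 ≤ n := hc.three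
  have hvf : ∀ m, M.vf (x m) f := fun m =>
    ⟨y m, (hve m _).2 (Or.inl rfl), (hc.curve.mem _).2 ⟨m, rfl⟩⟩
  have hxin : x (i + n) = x i := (hx _ _).2 (by simp)
  have hpair : ∀ m, Cell.vert (x m) ∈ ({.vert (x m), .face f} : Set (Cell V E F)) ∧
      Cell.face f ∈ ({.vert (x m), .face f} : Set (Cell V E F)) ∧
      ConnIn M.cellGraph {.vert (x m), .face f} := fun m =>
    ⟨by simp, by simp, ConnIn.pair (Or.inl (CellInc.vf (hvf m)))⟩
  have harc : ∀ a b, a ≤ b → Cell.vert (x a) ∈ (p34arc x y a b : Set (Cell V E F)) ∧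
      Cell.vert (x b) ∈ (p34arc x y a b : Set (Cell V E F)) ∧
      ConnIn M.cellGraph (p34arc x y a b) := fun a b hab =>
    ⟨p34_arc_vert le_rfl hab, p34_arc_vert hab le_rfl, p34_arc_conn hve a b⟩
  have hdarc : ∀ a b m, ¬ (∃ t, a ≤ t ∧ t ≤ b ∧ (n : ℤ) ∣ t - m) →
      Disjoint (p34arc x y a b : Set (Cell V E F)) {.vert (x m), .face f} := by
    intro a b m h
    rw [Set.disjoint_left]
    rintro c hc1 (rfl | rfl)
    · rcases hc1 with ⟨t, h1, h2, h3⟩ | ⟨t, h1, h2, h3⟩
      · injection h3 with h3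
        exact h ⟨t, h1, h2, (hx _ _).1 h3.symm⟩
      · cases h3
    · rcases hc1 with ⟨t, h1, h2, h3⟩ | ⟨t, h1, h2, h3⟩ <;> cases h3
  have hdlift : ∀ (W : Set V) m, x m ∉ W → Disjoint (p34lift M W) {.vert (x m), .face f} := by
    intro W m h
    rw [Set.disjoint_left]
    rintro c hc1 (rfl | rfl)
    · exact h (p34_vert.1 hc1)
    · exact p34_face hc1
  have ndvd : ∀ t m : ℤ, 0 < t - m → t - m < n → ¬ (n : ℤ) ∣ t - m := by
    intro t m h1 h2 h3
    have := Int.le_of_dvd h1 h3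
    omega
  have ndvd' : ∀ t m : ℤ, 0 < m - t → m - t < n → ¬ (n : ℤ) ∣ t - m := by
    intro t m h1 h2 h3
    have h4 : (n : ℤ) ∣ m - t := by
      have := h3.neg_right
      rwa [neg_sub] at this
    have := Int.le_of_dvd h1 h4
    omega
  have hnU : ∀ m, x m ∈ L → x m ∉ U := fun m h h' => Set.disjoint_left.1 hUL h' h
  have hnL : ∀ m, x m ∈ U → x m ∉ L := fun m h h' => Set.disjoint_left.1 hUL h h'
  have e03 : Cell.vert (x i) ∈ (p34arc x y l (i + n) : Set (Cell V E F)) ∧
      Cell.vert (x l) ∈ (p34arc x y l (i + n) : Set (Cell V E F)) ∧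
      ConnIn M.cellGraph (p34arc x y l (i + n)) := by
    have := harc l (i + n) hli.le
    rw [hxin] at this
    exact ⟨this.2.1, this.1, this.2.2⟩
  refine p34_K5 hG (.vert (x i)) (.vert (x j)) (.vert (x k)) (.vert (x l)) (.face f)
    (p34arc x y i j) (p34lift M U) (p34arc x y l (i + n)) {.vert (x i), .face f}
    (p34arc x y j k) (p34lift M L) {.vert (x j), .face f}
    (p34arc x y k l) {.vert (x k), .face f} {.vert (x l), .face f}
    (harc i j hij.le) ⟨p34_vert.2 xi, p34_vert.2 xk, p34_conn hM hU⟩ e03 (hpair i)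
    (harc j k hjk.le) ⟨p34_vert.2 xj, p34_vert.2 xl, p34_conn hM hL⟩ (hpair j)
    (harc k l hkl.le) (hpair k) (hpair l)
    (p34_arc_disj hx hy hjk hli) (hdarc i j k ?_) (hdarc i j l ?_)
    (p34_disj hUL) (hdlift U j (hnU j xj)) (hdlift U l (hnU l xl))
    (p34_arc_disj hx hy hkl (by omega)).symm (hdarc l (i + n) j ?_) (hdarc l (i + n) k ?_)
    (hdarc j k i ?_).symm (hdlift L i (hnL i xi)).symm (hdarc k l i ?_).symm
    (hdarc j k l ?_) (hdlift L k (hnL k xk)) (hdarc k l j ?_).symm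
  · rintro ⟨t, h1, h2, h3⟩
    exact ndvd' t k (by omega) (by omega) h3
  · rintro ⟨t, h1, h2, h3⟩
    exact ndvd' t l (by omega) (by omega) h3
  · rintro ⟨t, h1, h2, h3⟩
    exact ndvd t j (by omega) (by omega) h3
  · rintro ⟨t, h1, h2, h3⟩
    exact ndvd t k (by omega) (by omega) h3
  · rintro ⟨t, h1, h2, h3⟩
    exact ndvd t i (by omega) (by omega) h3
  · rintro ⟨t, h1, h2, h3⟩
    exact ndvd t i (by omega) (by omega) h3
  · rintro ⟨t, h1, h2, h3⟩
    exact ndvd' t l (by omega) (by omega) h3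
  · rintro ⟨t, h1, h2, h3⟩
    exact ndvd t j (by omega) (by omega) h3

theorem cP4 : Stmt_EdgeOpp := by
  intro V E F M hM hG e f g u v hfg hef heg huv hue hve U L hU hL hUL huU huL hvU hvL
    hUf hUg hLu hLv
  obtain ⟨p, hpU, hpf⟩ := hUf
  obtain ⟨q, hqU, hqg⟩ := hUg
  obtain ⟨r, hrL, hrn, e1, he1u, he1r⟩ := hLu
  obtain ⟨s, hsL, hsn, e2, he2v, he2s⟩ := hLv
  have hvert : ∀ d w, M.ve u d → M.ve v d → M.ve w d → w = u ∨ w = v := by
    intro d w h1 h2 h3
    obtain ⟨a, b, hab, hw⟩ := hM d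
    rcases (hw u).1 h1 with rfl | rfl <;> rcases (hw v).1 h2 with rfl | rfl <;>
      rcases (hw w).1 h3 with rfl | rfl <;> simp_all
  have he1 : e1 ≠ e := by
    rintro rfl
    rcases hvert e1 r hue hve he1r with rfl | rfl
    · exact huL hrL
    · exact hvL hrL
  have he2 : e2 ≠ e := by
    rintro rfl
    rcases hvert e2 s hue hve he2s with rfl | rfl
    · exact huL hsL
    · exact hvL hsL
  -- the set joining u and v
  have cuv : ConnIn M.cellGraph (({.vert u, .edge e1} ∪ p34lift M L) ∪ {.vert v, .edge e2}) := by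
    have c1 : ConnIn M.cellGraph ({.vert u, .edge e1} ∪ p34lift M L) :=
      ConnIn.union_adj (ConnIn.pair (Or.inl (CellInc.ve he1u)))
        (p34_conn hM hL) (a := .edge e1) (b := .vert r) (by simp) (p34_vert.2 hrL)
        (Or.inr (CellInc.ve he1r))
    exact ConnIn.union_adj c1 (ConnIn.pair (Or.inl (CellInc.ve he2v)))
      (a := .vert s) (b := .edge e2) (Or.inr (p34_vert.2 hsL)) (by simp)
      (Or.inl (CellInc.ve he2s))
  have cfg : ConnIn M.cellGraph (({.face f} ∪ p34lift M U) ∪ {.face g}) := by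
    have c1 : ConnIn M.cellGraph ({.face f} ∪ p34lift M U) :=
      ConnIn.union_adj (ConnIn.singleton _)
        (p34_conn hM hU) (a := .face f) (b := .vert p) (by simp) (p34_vert.2 hpU)
        (Or.inr (CellInc.vf hpf))
    exact ConnIn.union_adj c1 (ConnIn.singleton _)
      (a := .vert q) (b := .face g) (Or.inr (p34_vert.2 hqU)) (by simp)
      (Or.inl (CellInc.vf hqg))
  have huf : M.vf u f := ⟨e, hue, hef⟩
  have hug : M.vf u g := ⟨e, hue, heg⟩
  have hvf' : M.vf v f := ⟨e, hve, hef⟩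
  have hvg : M.vf v g := ⟨e, hve, heg⟩
  have pr : ∀ a b : Cell V E F, M.cellGraph.Adj a b → a ∈ ({a, b} : Set (Cell V E F)) ∧
      b ∈ ({a, b} : Set (Cell V E F)) ∧ ConnIn M.cellGraph {a, b} := fun a b h =>
    ⟨by simp, by simp, ConnIn.pair h⟩
  have aL : Cell.vert u ∉ p34lift M L := fun h => huL (p34_vert.1 h)
  have aU : Cell.vert u ∉ p34lift M U := fun h => huU (p34_vert.1 h)
  have bL : Cell.vert v ∉ p34lift M L := fun h => hvL (p34_vert.1 h)
  have bU : Cell.vert v ∉ p34lift M U := fun h => hvU (p34_vert.1 h)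
  have eL : Cell.edge e ∉ p34lift M L := fun h => huL ((p34_edge.1 h).1 u hue)
  have eU : Cell.edge e ∉ p34lift M U := fun h => huU ((p34_edge.1 h).1 u hue)
  have e1U : Cell.edge e1 ∉ p34lift M U := fun h => huU ((p34_edge.1 h).1 u he1u)
  have e2U : Cell.edge e2 ∉ p34lift M U := fun h => hvU ((p34_edge.1 h).1 v he2v)
  have fL : ∀ t, Cell.face t ∉ p34lift M L := fun t => p34_face
  have fU : ∀ t, Cell.face t ∉ p34lift M U := fun t => p34_face
  have dUL : Disjoint (p34lift M L) (p34lift M U) := (p34_disj hUL).symm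
  refine p34_K5 hG (.vert u) (.vert v) (.face f) (.face g) (.edge e)
    (({.vert u, .edge e1} ∪ p34lift M L) ∪ {.vert v, .edge e2})
    {.vert u, .face f} {.vert u, .face g} {.vert u, .edge e}
    {.vert v, .face f} {.vert v, .face g} {.vert v, .edge e}
    (({.face f} ∪ p34lift M U) ∪ {.face g}) {.face f, .edge e} {.face g, .edge e}
    ⟨by simp, by simp, cuv⟩
    (pr _ _ (Or.inl (CellInc.vf huf))) (pr _ _ (Or.inl (CellInc.vf hug)))
    (pr _ _ (Or.inl (CellInc.ve hue)))
    (pr _ _ (Or.inl (CellInc.vf hvf'))) (pr _ _ (Or.inl (CellInc.vf hvg)))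
    (pr _ _ (Or.inl (CellInc.ve hve)))
    ⟨by simp, by simp, cfg⟩ (pr _ _ (Or.inr (CellInc.ef hef)))
    (pr _ _ (Or.inr (CellInc.ef heg)))
    ?_ ?_ ?_ ?_ ?_ ?_ ?_ ?_ ?_ ?_ ?_ ?_ ?_ ?_ ?_
  all_goals
    rw [Set.disjoint_left]
  · intro c h1 h2
    rcases h1 with ((rfl | rfl) | h1) | (rfl | rfl)
    · rcases h2 with (h2 | h2) | h2
      · cases h2
      · exact aU h2
      · cases h2
    · rcases h2 with (h2 | h2) | h2
      · cases h2
      · exact e1U h2
      · cases h2
    · rcases h2 with (rfl | h2) | rfl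
      · exact fL _ h1
      · exact Set.disjoint_left.1 dUL h1 h2
      · exact fL _ h1
    · rcases h2 with (h2 | h2) | h2
      · cases h2
      · exact bU h2
      · cases h2
    · rcases h2 with (h2 | h2) | h2
      · cases h2
      · exact e2U h2
      · cases h2
  · rintro c h1 (rfl | rfl)
    · rcases h1 with ((h1 | h1) | h1) | (h1 | h1)
      · cases h1
      · cases h1
      · exact fL _ h1
      · cases h1
      · cases h1
    · rcases h1 with ((h1 | h1) | h1) | (h1 | h1)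
      · cases h1
      · injection h1 with h1
        exact he1 h1.symm
      · exact eL h1
      · cases h1
      · injection h1 with h1
        exact he2 h1.symm
  · rintro c h1 (rfl | rfl)
    · rcases h1 with ((h1 | h1) | h1) | (h1 | h1)
      · cases h1
      · cases h1
      · exact fL _ h1
      · cases h1
      · cases h1
    · rcases h1 with ((h1 | h1) | h1) | (h1 | h1)
      · cases h1
      · injection h1 with h1
        exact he1 h1.symm
      · exact eL h1
      · cases h1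
      · injection h1 with h1
        exact he2 h1.symm
  · rintro c (rfl | rfl) (h | h)
    · injection h with h; exact huv h
    · cases h
    · cases h
    · injection h with h; exact hfg h
  · rintro c (rfl | rfl) (h | h)
    · injection h with h; exact huv h
    · cases h
    · cases h
    · cases h
  · rintro c (rfl | rfl) (h | h)
    · cases h
    · cases h
    · injection h with h; exact hfg h
    · cases h
  · rintro c (rfl | rfl) (h | h)
    · injection h with h; exact huv h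
    · cases h
    · cases h
    · injection h with h; exact hfg h.symm
  · rintro c (rfl | rfl) (h | h)
    · injection h with h; exact huv h
    · cases h
    · cases h
    · cases h
  · rintro c (rfl | rfl) (h | h)
    · cases h
    · cases h
    · injection h with h; exact hfg h.symm
    · cases h
  · rintro c (rfl | rfl) (h | h)
    · injection h with h; exact huv h
    · cases h
    · cases h
    · cases h
  · rintro c (rfl | rfl) (h | h)
    · injection h with h; exact huv h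
    · cases h
    · cases h
    · cases h
  · rintro c (rfl | rfl) ((h | h) | h)
    · cases h
    · exact aU h
    · cases h
    · cases h
    · exact eU h
    · cases h
  · rintro c (rfl | rfl) (h | h)
    · cases h
    · cases h
    · injection h with h; exact hfg h
    · cases h
  · rintro c (rfl | rfl) (h | h)
    · cases h
    · cases h
    · injection h with h; exact hfg h.symm
    · cases h
  · rintro c (rfl | rfl) ((h | h) | h)
    · cases h
    · exact bU h
    · cases h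
    · cases h
    · exact eU h
    · cases h

end Pool.Agent.CT
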