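import Pool.Agent.CT.BDefs

set_option autoImplicit false

/-! # G4: a face with one subdivided side -/

namespace Pool.Agent.CT

open Set Metric

theorem cG4_seg (A B : ℂ) {s t : ℝ} (h : s ≤ t) :
    segment ℝ (A + (s : ℂ) * (B - A)) (A + (t : ℂ) * (B - A)) =
      (fun u : ℝ => A + (u : ℂ) * (B - A)) '' Icc s t := by
  have h1 := image_segment ℝ (AffineMap.lineMap A B : ℝ →ᵃ[ℝ] ℂ) s t
  rw [segment_eq_Icc h] at h1
  have h2 : ∀ u : ℝ, (AffineMap.lineMap A B : ℝ →ᵃ[ℝ] ℂ) u = A + (u : ℂ) * (B - A) := by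
    intro u
    rw [AffineMap.lineMap_apply_module', Complex.real_smul, add_comm]
  rw [h2, h2] at h1
  rw [← h1]
  exact image_congr fun u _ => h2 u

theorem cG4_find (s : ℕ → ℝ) (t : ℝ) (h0 : s 0 ≤ t) : ∀ r : ℕ, 1 ≤ r → t ≤ s r →
    ∃ k < r, s k ≤ t ∧ t ≤ s (k + 1) := by
  intro r
  induction r with
  | zero => intro h; omega
  | succ r ih =>
    intro _ ht
    by_cases h : s r ≤ t
    · exact ⟨r, by omega, h, ht⟩
    · rw [not_le] at h
      rcases Nat.eq_zero_or_pos r with h1 | h1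
      · subst h1
        exact absurd h0 (not_le.mpr h)
      · obtain ⟨k, hk, h2⟩ := ih h1 h.le
        exact ⟨k, by omega, h2⟩

theorem cG4_mono (s : ℕ → ℝ) (r : ℕ) (h : ∀ j < r, s j < s (j + 1)) :
    ∀ i j, i < j → j ≤ r → s i < s j := by
  intro i j hij
  induction j with
  | zero => omega
  | succ j ih =>
    intro hj
    rcases Nat.lt_succ_iff_lt_or_eq.mp hij with h1 | h1
    · exact (ih h1 (by omega)).trans (h j (by omega))
    · subst h1
      exact h i (by omega)

theorem cG4 (h2 : Stmt_PolyGeom) : Stmt_FaceSub := by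
  intro V E F M φ f n x y hc a r m s z hr hmr hz hzx hs0 hsr hs hsub
  obtain ⟨hzeq, hint, hfr, hii, -, -⟩ := h2 m z hz
  have hm3 := hz.three
  have hn3 := hc.three
  have hcu := hc.curve
  have hz0 : z 0 = φ (x (a + r)) := by
    have h3 := hzx 0 (by omega)
    rwa [Nat.cast_zero, add_zero] at h3
  have hxn : ∀ i j : ℤ, (n : ℤ) ∣ i - j → x i = x j := fun i j h => (hcu.x_eq i j).mpr h
  have hyn : ∀ i j : ℤ, (n : ℤ) ∣ i - j → y i = y j := fun i j h => (hcu.y_eq i j).mpr h
  have hxan : x (a + r + ((m : ℤ) - 1)) = x a := by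
    apply hxn
    have h4 : a + (r : ℤ) + ((m : ℤ) - 1) - a = n := by omega
    rw [h4]
  have hzm1 : z ((m : ℤ) - 1) = φ (x a) := by
    have h3 := hzx (m - 1) (by omega)
    have h4 : (((m - 1 : ℕ) : ℤ)) = (m : ℤ) - 1 := by omega
    rw [h4] at h3
    rw [h3, hxan]
  have hzm : z (m : ℤ) = φ (x (a + r)) := by
    rw [← hz0]
    exact (hzeq _ _).mpr (by simp)
  have hmono := cG4_mono s r hs
  have hAB : φ (x a) ≠ φ (x (a + r)) := by
    rw [← hzm1, ← hz0]
    intro h
    have h3 := (hzeq _ _).mp h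
    rw [sub_zero] at h3
    have h4 := Int.le_of_dvd (by omega) h3
    omega
  have hBA : φ (x (a + r)) - φ (x a) ≠ 0 := sub_ne_zero.mpr hAB.symm
  have hLinj : ∀ t u : ℝ, φ (x a) + (t : ℂ) * (φ (x (a + r)) - φ (x a)) =
      φ (x a) + (u : ℂ) * (φ (x (a + r)) - φ (x a)) → t = u := by
    intro t u h
    have h3 := mul_right_cancel₀ hBA (add_left_cancel h)
    exact_mod_cast h3
  -- indices
  have hidx : ∀ i : ℤ, (∃ k : ℕ, k < r ∧ (n : ℤ) ∣ i - (a + k)) ∨
      ∃ j : ℕ, j + 1 < m ∧ (n : ℤ) ∣ i - (a + r + j) := by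
    intro i
    have h0 : 0 ≤ (i - a) % n := Int.emod_nonneg _ (by omega)
    have h1 : (i - a) % n < n := Int.emod_lt_of_pos _ (by omega)
    have h3 : (n : ℤ) ∣ (i - a) - (i - a) % n := by
      refine ⟨(i - a) / n, ?_⟩
      have h4 := Int.emod_add_mul_ediv (i - a) n
      linarith
    obtain ⟨q, hq⟩ := Int.eq_ofNat_of_zero_le h0
    rw [hq] at h1 h3
    by_cases h : q < r
    · left
      refine ⟨q, h, ?_⟩
      have h5 : i - (a + (q : ℤ)) = i - a - q := by ring
      rw [h5]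
      exact h3
    · right
      refine ⟨q - r, by omega, ?_⟩
      have h5 : i - (a + (r : ℤ) + ((q - r : ℕ) : ℤ)) = i - a - q := by omega
      rw [h5]
      exact h3
  have hedge : ∀ e, M.ef e f → (∃ k : ℕ, k < r ∧ e = y (a + k)) ∨
      ∃ j : ℕ, j + 1 < m ∧ e = y (a + r + j) := by
    intro e he
    obtain ⟨i, rfl⟩ := (hcu.mem e).mp he
    rcases hidx i with ⟨k, hk, h3⟩ | ⟨j, hj, h3⟩
    · exact Or.inl ⟨k, hk, hyn _ _ h3⟩
    · exact Or.inr ⟨j, hj, hyn _ _ h3⟩
  have hef : ∀ i, M.ef (y i) f := fun i => (hcu.mem (y i)).mpr ⟨i, rfl⟩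
  have hvf : ∀ i, M.vf (x i) f := fun i => ⟨y i, (hcu.ve i (x i)).mpr (Or.inl rfl), hef i⟩
  have hvert : ∀ v, M.vf v f → (∃ k : ℕ, k < r ∧ v = x (a + k)) ∨
      ∃ j : ℕ, j + 1 < m ∧ v = x (a + r + j) := by
    rintro v ⟨e, hve, he⟩
    obtain ⟨i, rfl⟩ := (hcu.mem e).mp he
    have h3 : ∃ i, v = x i := by
      rcases (hcu.ve i v).mp hve with h | h
      · exact ⟨_, h⟩
      · exact ⟨_, h⟩
    obtain ⟨i', rfl⟩ := h3
    rcases hidx i' with ⟨k, hk, h3⟩ | ⟨j, hj, h3⟩
    · exact Or.inl ⟨k, hk, hxn _ _ h3⟩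
    · exact Or.inr ⟨j, hj, hxn _ _ h3⟩
  -- segments
  have hseg : ∀ i, seg M φ (y i) = segment ℝ (φ (x i)) (φ (x (i + 1))) := by
    intro i
    have h3 : {v | M.ve v (y i)} = {x i, x (i + 1)} := by
      ext v
      exact hcu.ve i v
    unfold seg
    rw [h3, image_pair, convexHull_pair]
  have hsegS : ∀ k : ℕ, k < r → seg M φ (y (a + k)) =
      (fun u : ℝ => φ (x a) + (u : ℂ) * (φ (x (a + r)) - φ (x a))) '' Icc (s k) (s (k + 1)) := by
    intro k hk
    have h3 : a + (k : ℤ) + 1 = a + ((k + 1 : ℕ) : ℤ) := by push_cast; ring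
    rw [hseg, h3, hsub k hk.le, hsub (k + 1) hk]
    exact cG4_seg _ _ (hs k hk).le
  have hsegR : ∀ j : ℕ, j + 1 < m → seg M φ (y (a + r + j)) = segment ℝ (z j) (z (j + 1)) := by
    intro j hj
    have h3 : a + (r : ℤ) + (j : ℤ) + 1 = a + r + ((j + 1 : ℕ) : ℤ) := by push_cast; ring
    rw [hseg, h3, ← hzx j (by omega), ← hzx (j + 1) hj]
    push_cast
    rfl
  have hside : segment ℝ (z ((m : ℤ) - 1)) (z ((m : ℤ) - 1 + 1)) =
      (fun u : ℝ => φ (x a) + (u : ℂ) * (φ (x (a + r)) - φ (x a))) '' Icc 0 1 := by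
    rw [sub_add_cancel, hzm, hzm1]
    have h3 := cG4_seg (φ (x a)) (φ (x (a + r))) (zero_le_one' ℝ)
    rw [Complex.ofReal_zero, zero_mul, add_zero, Complex.ofReal_one, one_mul,
      add_sub_cancel] at h3
    exact h3
  have hs_mem : ∀ k : ℕ, k ≤ r → 0 ≤ s k ∧ s k ≤ 1 := by
    intro k hk
    constructor
    · rcases Nat.eq_zero_or_pos k with h | h
      · rw [h, hs0]
      · rw [← hs0]
        exact (hmono 0 k h hk).le
    · rcases Nat.lt_or_ge k r with h | h
      · rw [← hsr]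
        exact (hmono k r h le_rfl).le
      · have : k = r := by omega
        rw [this, hsr]
  have hsub_side : ∀ k : ℕ, k < r → seg M φ (y (a + k)) ⊆
      segment ℝ (z ((m : ℤ) - 1)) (z ((m : ℤ) - 1 + 1)) := by
    intro k hk
    rw [hsegS k hk, hside]
    exact image_mono (Icc_subset_Icc (hs_mem k hk.le).1 (hs_mem (k + 1) hk).2)
  -- the periodic sequence z
  have hzmod : ∀ i : ℤ, ∃ j : ℕ, j < m ∧ (m : ℤ) ∣ i - j := by
    intro i
    have h0 : 0 ≤ i % m := Int.emod_nonneg _ (by omega)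
    have h1 : i % m < m := Int.emod_lt_of_pos _ (by omega)
    obtain ⟨q, hq⟩ := Int.eq_ofNat_of_zero_le h0
    refine ⟨q, by omega, ⟨i / m, ?_⟩⟩
    have h4 := Int.emod_add_mul_ediv i m
    linarith
  have hpoly : poly M φ f = convexHull ℝ (range z) := by
    unfold poly
    apply Subset.antisymm
    · apply convexHull_min _ (convex_convexHull ℝ _)
      rintro _ ⟨v, hv, rfl⟩
      rcases hvert v hv with ⟨k, hk, rfl⟩ | ⟨j, hj, rfl⟩
      · have h3 : φ (x (a + k)) ∈ segment ℝ (z ((m : ℤ) - 1)) (z ((m : ℤ) - 1 + 1)) := by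
          rw [hside, hsub k hk.le]
          exact ⟨s k, hs_mem k hk.le, rfl⟩
        exact (convex_convexHull ℝ (range z)).segment_subset
          (subset_convexHull ℝ _ (mem_range_self _)) (subset_convexHull ℝ _ (mem_range_self _)) h3
      · rw [← hzx j (by omega)]
        exact subset_convexHull ℝ _ (mem_range_self _)
    · apply convexHull_mono
      rintro _ ⟨i, rfl⟩
      obtain ⟨j, hj, h3⟩ := hzmod i
      rw [(hzeq i j).mpr h3, hzx j hj]
      exact ⟨_, hvf _, rfl⟩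
  have hvef : ∀ i, M.ve (x i) (y i) := fun i => (hcu.ve i _).mpr (Or.inl rfl)
  have hvef' : ∀ i, M.ve (x (i + 1)) (y i) := fun i => (hcu.ve i _).mpr (Or.inr rfl)
  have hvefm : ∀ i j, (n : ℤ) ∣ i - (j + 1) → M.ve (x i) (y j) := by
    intro i j h
    rw [hxn i (j + 1) h]
    exact hvef' j
  -- intersection of two different edges, up to symmetry
  have hRR : ∀ j j' : ℕ, j + 1 < m → j' + 1 < m → j ≠ j' →
      seg M φ (y (a + r + j)) ∩ seg M φ (y (a + r + j')) ⊆
        φ '' {v | M.ve v (y (a + r + j)) ∧ M.ve v (y (a + r + j'))} := by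
    rintro j j' hj hj' hne w ⟨hw, hw'⟩
    rw [hsegR j hj] at hw
    rw [hsegR j' hj'] at hw'
    rcases hii j j' (by
      intro h
      have h3 := Int.eq_zero_of_abs_lt_dvd h (by rw [abs_lt]; omega)
      omega) w hw hw' with ⟨h3, h4⟩ | ⟨h3, h4⟩
    · have h5 := Int.eq_zero_of_abs_lt_dvd h3 (by rw [abs_lt]; omega)
      refine ⟨x (a + r + j'), ⟨?_, hvef _⟩, ?_⟩
      · apply hvefm
        have : a + (r : ℤ) + j' - (a + r + j + 1) = 0 := by omega
        rw [this]
        exact dvd_zero _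
      · rw [h4, hzx j' (by omega)]
    · have h5 := Int.eq_zero_of_abs_lt_dvd h3 (by rw [abs_lt]; omega)
      refine ⟨x (a + r + j), ⟨hvef _, ?_⟩, ?_⟩
      · apply hvefm
        have : a + (r : ℤ) + j - (a + r + j' + 1) = 0 := by omega
        rw [this]
        exact dvd_zero _
      · rw [h4, hzx j (by omega)]
  have hSR : ∀ k j : ℕ, k < r → j + 1 < m →
      seg M φ (y (a + k)) ∩ seg M φ (y (a + r + j)) ⊆
        φ '' {v | M.ve v (y (a + k)) ∧ M.ve v (y (a + r + j))} := by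
    rintro k j hk hj w ⟨hw, hw'⟩
    have hw1 := hsub_side k hk hw
    rw [hsegR j hj] at hw'
    rw [hsegS k hk] at hw
    obtain ⟨t, ht, rfl⟩ := hw
    rcases hii ((m : ℤ) - 1) j (by
      intro h
      have h3 := Int.eq_zero_of_abs_lt_dvd h (by rw [abs_lt]; omega)
      omega) _ hw1 hw' with ⟨h3, h4⟩ | ⟨h3, h4⟩
    · have h5 : (m : ℤ) ∣ j := by
        have h6 : (j : ℤ) = (j - ((m : ℤ) - 1 + 1)) + m := by ring
        rw [h6]
        exact dvd_add h3 (dvd_refl _)
      have h6 := Int.eq_zero_of_abs_lt_dvd h5 (by rw [abs_lt]; omega)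
      have h7 : j = 0 := by omega
      subst h7
      rw [Nat.cast_zero, hz0] at h4
      have h8 : t = 1 := by
        apply hLinj
        rw [Complex.ofReal_one, one_mul, add_sub_cancel]
        exact h4
      subst h8
      have h9 : k + 1 = r := by
        by_contra hne
        have h10 := hmono (k + 1) r (by omega) le_rfl
        rw [hsr] at h10
        exact absurd ht.2 (not_le.mpr h10)
      refine ⟨x (a + r), ⟨?_, ?_⟩, h4.symm⟩
      · apply hvefm
        have : a + (r : ℤ) - (a + k + 1) = 0 := by omega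
        rw [this]
        exact dvd_zero _
      · have h11 := hvef (a + r)
        rwa [Nat.cast_zero, add_zero]
    · have h5 := Int.eq_zero_of_abs_lt_dvd h3 (by rw [abs_lt]; omega)
      rw [hzm1] at h4
      have h8 : t = 0 := by
        apply hLinj
        rw [Complex.ofReal_zero, zero_mul, add_zero]
        exact h4
      subst h8
      have h9 : k = 0 := by
        by_contra hne
        have h10 := hmono 0 k (by omega) hk.le
        rw [hs0] at h10
        exact absurd ht.1 (not_le.mpr h10)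
      subst h9
      refine ⟨x a, ⟨?_, ?_⟩, h4.symm⟩
      · have h11 := hvef a
        rwa [Nat.cast_zero, add_zero]
      · apply hvefm
        have : a - (a + (r : ℤ) + j + 1) = -n := by omega
        rw [this]
        exact (dvd_refl _).neg_right
  have hSS : ∀ k k' : ℕ, k < r → k' < r → k < k' →
      seg M φ (y (a + k)) ∩ seg M φ (y (a + k')) ⊆
        φ '' {v | M.ve v (y (a + k)) ∧ M.ve v (y (a + k'))} := by
    rintro k k' hk hk' hlt w ⟨hw, hw'⟩
    rw [hsegS k hk] at hw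
    rw [hsegS k' hk'] at hw'
    obtain ⟨t, ht, rfl⟩ := hw
    obtain ⟨t', ht', h3⟩ := hw'
    have h4 : t' = t := hLinj t' t h3
    subst h4
    have h5 : k' = k + 1 := by
      by_contra hne
      have h6 := hmono (k + 1) k' (by omega) hk'.le
      exact absurd (h6.trans_le ht'.1) (not_lt.mpr ht.2)
    subst h5
    have h6 : t' = s (k + 1) := le_antisymm ht.2 ht'.1
    subst h6
    refine ⟨x (a + ((k + 1 : ℕ) : ℤ)), ⟨?_, hvef _⟩, ?_⟩
    · apply hvefm
      have : a + ((k + 1 : ℕ) : ℤ) - (a + k + 1) = 0 := by push_cast; ring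
      rw [this]
      exact dvd_zero _
    · exact hsub (k + 1) hk
  have hswap : ∀ e d : E, seg M φ e ∩ seg M φ d ⊆ φ '' {v | M.ve v e ∧ M.ve v d} →
      seg M φ d ∩ seg M φ e ⊆ φ '' {v | M.ve v d ∧ M.ve v e} := by
    rintro e d h w ⟨h1, h3⟩
    obtain ⟨v, ⟨h4, h5⟩, h6⟩ := h ⟨h3, h1⟩
    exact ⟨v, ⟨h5, h4⟩, h6⟩
  refine ⟨⟨?_, ?_, ?_, ?_, ?_⟩, hpoly⟩
  · -- finiteness
    refine ((Set.finite_lt_nat r).image (fun k : ℕ => x (a + k))).union
      ((Set.finite_lt_nat m).image (fun j : ℕ => x (a + r + j))) |>.subset ?_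
    intro v hv
    rcases hvert v hv with ⟨k, hk, rfl⟩ | ⟨j, hj, rfl⟩
    · exact Or.inl ⟨k, hk, rfl⟩
    · exact Or.inr ⟨j, (by omega : j < m), rfl⟩
  · -- ends of an edge are different
    have hends : ∀ i, φ (x i) ≠ φ (x (i + 1)) → ∀ u v, M.ve u (y i) → M.ve v (y i) → u ≠ v →
        φ u ≠ φ v := by
      intro i hi u v hu hv huv
      rcases (hcu.ve i u).mp hu with h | h <;> rcases (hcu.ve i v).mp hv with h' | h'
      · exact absurd (h.trans h'.symm) huv
      · rw [h, h']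
        exact hi
      · rw [h, h']
        exact hi.symm
      · exact absurd (h.trans h'.symm) huv
    intro e u v he hu hv huv
    rcases hedge e he with ⟨k, hk, rfl⟩ | ⟨j, hj, rfl⟩
    · refine hends _ ?_ u v hu hv huv
      have h3 : a + (k : ℤ) + 1 = a + ((k + 1 : ℕ) : ℤ) := by push_cast; ring
      rw [h3, hsub k hk.le, hsub (k + 1) hk]
      intro h
      exact absurd (hLinj _ _ h) (hs k hk).ne
    · refine hends _ ?_ u v hu hv huv
      have h3 : a + (r : ℤ) + (j : ℤ) + 1 = a + r + ((j + 1 : ℕ) : ℤ) := by push_cast; ring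
      rw [h3, ← hzx j (by omega), ← hzx (j + 1) hj]
      intro h
      have h4 := (hzeq _ _).mp h
      have h5 := Int.eq_zero_of_abs_lt_dvd h4 (by rw [abs_lt]; push_cast; omega)
      omega
  · rw [hpoly]
    exact hint
  · -- boundary
    rw [hpoly, hfr]
    apply Subset.antisymm
    · intro w hw
      obtain ⟨i, hw⟩ := mem_iUnion.mp hw
      obtain ⟨j, hj, h3⟩ := hzmod i
      have h4 : z i = z j := (hzeq _ _).mpr h3
      have h5 : z (i + 1) = z (j + 1) := (hzeq _ _).mpr (by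
        have : i + 1 - ((j : ℤ) + 1) = i - j := by ring
        rw [this]
        exact h3)
      rw [h4, h5] at hw
      by_cases hj1 : j + 1 < m
      · rw [← hsegR j hj1] at hw
        exact mem_iUnion₂.mpr ⟨y (a + r + j), hef _, hw⟩
      · have h6 : (j : ℤ) = (m : ℤ) - 1 := by omega
        rw [h6, hside] at hw
        obtain ⟨t, ht, rfl⟩ := hw
        obtain ⟨k, hk, hk1, hk2⟩ := cG4_find s t (by rw [hs0]; exact ht.1) r hr
          (by rw [hsr]; exact ht.2)
        refine mem_iUnion₂.mpr ⟨y (a + k), hef _, ?_⟩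
        rw [hsegS k hk]
        exact ⟨t, ⟨hk1, hk2⟩, rfl⟩
    · intro w hw
      obtain ⟨e, he, hw⟩ := mem_iUnion₂.mp hw
      rcases hedge e he with ⟨k, hk, rfl⟩ | ⟨j, hj, rfl⟩
      · exact mem_iUnion.mpr ⟨_, hsub_side k hk hw⟩
      · rw [hsegR j hj] at hw
        exact mem_iUnion.mpr ⟨_, hw⟩
  · -- intersections
    intro e d he hd hed
    rcases hedge e he with ⟨k, hk, rfl⟩ | ⟨j, hj, rfl⟩ <;>
      rcases hedge d hd with ⟨k', hk', rfl⟩ | ⟨j', hj', rfl⟩
    · rcases lt_trichotomy k k' with h | h | h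
      · exact hSS k k' hk hk' h
      · subst h
        exact absurd rfl hed
      · exact hswap _ _ (hSS k' k hk' hk h)
    · exact hSR k j' hk hj'
    · exact hswap _ _ (hSR k' j hk' hj)
    · refine hRR j j' hj hj' ?_
      rintro rfl
      exact hed rfl

end Pool.Agent.CT
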