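import Pool.Agent.CT.BDefs

set_option autoImplicit false

/-! # P1 + P2: three vertices against two blobs and a face or a third blob -/

namespace Pool.Agent.CT

open Set

section

variable {V E F : Type} {M : Inc V E F}

/-- The cells carried by a set of vertices: the vertices and the edges with all ends in the set. -/
def p12lift (E F : Type) {V : Type} (M : Inc V E F) (W : Set V) : Set (Cell V E F) :=
  {c | (∃ v ∈ W, c = .vert v) ∨ ∃ e, (∀ v, M.ve v e → v ∈ W) ∧ c = .edge e}

/-- A vertex, an edge, and the cells of a set of vertices. -/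
def p12arm (M : Inc V E F) (W : Set V) (q : V) (e : E) : Set (Cell V E F) :=
  Set.insert (Cell.vert q) (Set.insert (Cell.edge e) (p12lift E F M W))

theorem p12_ends (hM : ∀ e, ∃ u v, u ≠ v ∧ ∀ w, M.ve w e ↔ (w = u ∨ w = v)) {e : E} {u v : V}
    (huv : u ≠ v) (hu : M.ve u e) (hv : M.ve v e) : ∀ w, M.ve w e → w = u ∨ w = v := by
  obtain ⟨a, b, _, h⟩ := hM e
  intro w hw
  rcases (h w).1 hw with rfl | rfl <;> rcases (h u).1 hu with rfl | rfl <;>
    rcases (h v).1 hv with rfl | rfl <;> simp_all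

theorem p12lift_conn (hM : ∀ e, ∃ u v, u ≠ v ∧ ∀ w, M.ve w e ↔ (w = u ∨ w = v)) {W : Set V}
    (hW : ConnIn M.vadj W) : ConnIn M.cellGraph (p12lift E F M W) := by
  have key : ∀ u v : V, ReachIn M.vadj W u v →
      ReachIn M.cellGraph (p12lift E F M W) (.vert u) (.vert v) := by
    intro u v h
    refine ReachIn.map h fun x hx y hy hxy => ?_
    obtain ⟨hne, e, hxe, hye⟩ := hxy
    have he : (Cell.edge e : Cell V E F) ∈ p12lift E F M W := by
      refine Or.inr ⟨e, fun w hw => ?_, rfl⟩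
      rcases p12_ends hM hne hxe hye w hw with rfl | rfl
      · exact hx
      · exact hy
    have hx' : (Cell.vert x : Cell V E F) ∈ p12lift E F M W := Or.inl ⟨x, hx, rfl⟩
    have hy' : (Cell.vert y : Cell V E F) ∈ p12lift E F M W := Or.inl ⟨y, hy, rfl⟩
    exact (ReachIn.single (Or.inl (CellInc.ve hxe)) hx' he).tail (Or.inr (CellInc.ve hye)) he hy'
  have toV : ∀ c ∈ p12lift E F M W, ∃ v ∈ W,
      ReachIn M.cellGraph (p12lift E F M W) c (.vert v) := by
    rintro c (⟨v, hv, rfl⟩ | ⟨e, he, rfl⟩)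
    · exact ⟨v, hv, ReachIn.refl _⟩
    · obtain ⟨a, b, _, h⟩ := hM e
      have ha : M.ve a e := (h a).2 (Or.inl rfl)
      exact ⟨a, he a ha, ReachIn.single (Or.inr (CellInc.ve ha)) (Or.inr ⟨e, he, rfl⟩)
        (Or.inl ⟨a, he a ha, rfl⟩)⟩
  intro c hc d hd
  obtain ⟨v, hv, h1⟩ := toV c hc
  obtain ⟨w, hw, h2⟩ := toV d hd
  exact (h1.trans (key v w (hW v hv w hw))).trans h2.symm

theorem p12arm_conn (hM : ∀ e, ∃ u v, u ≠ v ∧ ∀ w, M.ve w e ↔ (w = u ∨ w = v)) {W : Set V}
    (hW : ConnIn M.vadj W) {q u : V} {e : E} (hu : u ∈ W) (hq : M.ve q e) (hue : M.ve u e) :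
    ConnIn M.cellGraph (p12arm M W q e) := by
  have h1 : ConnIn M.cellGraph (Set.insert (Cell.edge e) (p12lift E F M W)) :=
    (p12lift_conn hM hW).insert (show (Cell.vert u : Cell V E F) ∈ p12lift E F M W from
      Or.inl ⟨u, hu, rfl⟩) (Or.inr (CellInc.ve hue))
  exact h1.insert (show (Cell.edge e : Cell V E F) ∈ Set.insert (Cell.edge e)
    (p12lift E F M W) from Or.inl rfl) (Or.inl (CellInc.ve hq))

theorem p12arm_disj (hM : ∀ e, ∃ u v, u ≠ v ∧ ∀ w, M.ve w e ↔ (w = u ∨ w = v)) {W W' : Set V}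
    {q u q' u' : V} {e e' : E} (hWW : Disjoint W W') (hqq : q ≠ q') (hq : q ∉ W') (hq' : q' ∉ W)
    (hu : u ∈ W) (hu' : u' ∈ W') (h1 : M.ve q e) (h2 : M.ve u e) (h3 : q ≠ u) (h1' : M.ve q' e')
    (h2' : M.ve u' e') (h3' : q' ≠ u') :
    Disjoint (p12arm M W q e) (p12arm M W' q' e') := by
  rw [Set.disjoint_left]
  intro c hc hc'
  rcases hc with hc | hc | ⟨v, hv, hc⟩ | ⟨d, hd, hc⟩ <;>
    rcases hc' with hc' | hc' | ⟨v', hv', hc'⟩ | ⟨d', hd', hc'⟩ <;> rw [hc] at hc' <;>
    first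
    | (cases hc'; done)
    | skip
  · cases hc'; exact hqq rfl
  · cases hc'; exact hq hv'
  · cases hc'
    rcases p12_ends hM h3' h1' h2' q h1 with h | h
    · exact hqq h
    · exact hq (h ▸ hu')
  · cases hc'; exact hq (hd' q h1)
  · cases hc'; exact hq' hv
  · cases hc'; exact Set.disjoint_left.1 hWW hv hv'
  · cases hc'; exact hq' (hd q' h1')
  · cases hc'
    obtain ⟨a, b, _, h⟩ := hM d
    have ha : M.ve a d := (h a).2 (Or.inl rfl)
    exact Set.disjoint_left.1 hWW (hd a ha) (hd' a ha)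

end

theorem cP12 : Stmt_FaceThree := by
  intro V E F M hM hP U L p hp hU hL hUL hpU hpL haU haL
  choose u hu hadjU using haU
  choose l hl hadjL using haL
  have hU' : ∀ i, ∃ e, M.ve (p i) e ∧ M.ve (u i) e := fun i => (hadjU i).2
  have hL' : ∀ i, ∃ e, M.ve (p i) e ∧ M.ve (l i) e := fun i => (hadjL i).2
  choose eU heU1 heU2 using hU'
  choose eL heL1 heL2 using hL'
  have neU : ∀ i, p i ≠ u i := fun i h => hpU i (h ▸ hu i)
  have neL : ∀ i, p i ≠ l i := fun i h => hpL i (h ▸ hl i)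
  have hpp : ∀ i k, i ≠ k → p i ≠ p k := fun i k h h' => h (hp h')
  constructor
  · intro f hf
    refine hP.noK33 (fun i => Cell.vert (p i)) ![Cell.vert (u 0), Cell.vert (l 0), Cell.face f]
      (fun i => ![p12arm M U (p i) (eU i), p12arm M L (p i) (eL i),
        {Cell.vert (p i), Cell.face f}]) ?_ ?_
    · intro i j
      fin_cases j
      · refine ⟨Or.inl rfl, Or.inr (Or.inr (Or.inl ⟨u 0, hu 0, rfl⟩)), ?_⟩
        exact p12arm_conn hM hU (hu i) (heU1 i) (heU2 i)
      · refine ⟨Or.inl rfl, Or.inr (Or.inr (Or.inl ⟨l 0, hl 0, rfl⟩)), ?_⟩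
        exact p12arm_conn hM hL (hl i) (heL1 i) (heL2 i)
      · refine ⟨Or.inl rfl, Or.inr rfl, ?_⟩
        exact ConnIn.pair (Or.inl (CellInc.vf (hf i)))
    · have hface : ∀ (W : Set V) (i k : Fin 3) (e : E), i ≠ k → p k ∉ W →
          Disjoint (p12arm M W (p i) e) {Cell.vert (p k), Cell.face f} := by
        intro W i k e hik hW
        rw [Set.disjoint_left]
        rintro c (hc | hc | ⟨v, hv, hc⟩ | ⟨d, hd, hc⟩) (hc' | hc') <;> rw [hc] at hc' <;>
          first
          | (cases hc'; done)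
          | skip
        · exact hpp i k hik (by injection hc')
        · exact hW (by
            have h : v = p k := by injection hc'
            exact h ▸ hv)
      intro i j k m hik hjm
      fin_cases j <;> fin_cases m <;> simp only [ne_eq, not_true_eq_false] at hjm <;>
        first
        | exact absurd rfl hjm
        | skip
      · exact p12arm_disj hM hUL (hpp i k hik) (hpL i) (hpU k) (hu i) (hl k) (heU1 i) (heU2 i)
          (neU i) (heL1 k) (heL2 k) (neL k)
      · exact hface U i k (eU i) hik (hpU k)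
      · exact p12arm_disj hM hUL.symm (hpp i k hik) (hpU i) (hpL k) (hl i) (hu k) (heL1 i) (heL2 i)
          (neL i) (heU1 k) (heU2 k) (neU k)
      · exact hface L i k (eL i) hik (hpL k)
      · exact (hface U k i (eU k) hik.symm (hpU i)).symm
      · exact (hface L k i (eL k) hik.symm (hpL i)).symm
  · intro K hK hKU hKL hpK haK
    choose w hw hadjK using haK
    have hK' : ∀ i, ∃ e, M.ve (p i) e ∧ M.ve (w i) e := fun i => (hadjK i).2
    choose eK heK1 heK2 using hK'
    have neK : ∀ i, p i ≠ w i := fun i h => hpK i (h ▸ hw i)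
    refine hP.noK33 (fun i => Cell.vert (p i))
      ![Cell.vert (u 0), Cell.vert (l 0), Cell.vert (w 0)]
      (fun i => ![p12arm M U (p i) (eU i), p12arm M L (p i) (eL i), p12arm M K (p i) (eK i)]) ?_ ?_
    · intro i j
      fin_cases j
      · refine ⟨Or.inl rfl, Or.inr (Or.inr (Or.inl ⟨u 0, hu 0, rfl⟩)), ?_⟩
        exact p12arm_conn hM hU (hu i) (heU1 i) (heU2 i)
      · refine ⟨Or.inl rfl, Or.inr (Or.inr (Or.inl ⟨l 0, hl 0, rfl⟩)), ?_⟩
        exact p12arm_conn hM hL (hl i) (heL1 i) (heL2 i)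
      · refine ⟨Or.inl rfl, Or.inr (Or.inr (Or.inl ⟨w 0, hw 0, rfl⟩)), ?_⟩
        exact p12arm_conn hM hK (hw i) (heK1 i) (heK2 i)
    · intro i j k m hik hjm
      fin_cases j <;> fin_cases m <;> simp only [ne_eq, not_true_eq_false] at hjm <;>
        first
        | exact absurd rfl hjm
        | skip
      · exact p12arm_disj hM hUL (hpp i k hik) (hpL i) (hpU k) (hu i) (hl k) (heU1 i) (heU2 i)
          (neU i) (heL1 k) (heL2 k) (neL k)
      · exact p12arm_disj hM hKU.symm (hpp i k hik) (hpK i) (hpU k) (hu i) (hw k) (heU1 i) (heU2 i)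
          (neU i) (heK1 k) (heK2 k) (neK k)
      · exact p12arm_disj hM hUL.symm (hpp i k hik) (hpU i) (hpL k) (hl i) (hu k) (heL1 i) (heL2 i)
          (neL i) (heU1 k) (heU2 k) (neU k)
      · exact p12arm_disj hM hKL.symm (hpp i k hik) (hpK i) (hpL k) (hl i) (hw k) (heL1 i) (heL2 i)
          (neL i) (heK1 k) (heK2 k) (neK k)
      · exact p12arm_disj hM hKU (hpp i k hik) (hpU i) (hpK k) (hw i) (hu k) (heK1 i) (heK2 i)
          (neK i) (heU1 k) (heU2 k) (neU k)
      · exact p12arm_disj hM hKL (hpp i k hik) (hpL i) (hpK k) (hw i) (hl k) (heK1 i) (heK2 i)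
          (neK i) (heL1 k) (heL2 k) (neL k)

end Pool.Agent.CT
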