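import Pool.Agent.CT.DDefs
import Pool.Agent.CT.CoarsePoly

set_option autoImplicit false

/-! # D3: the frontier of a tight disc, its corners and its sides -/

namespace Pool.Agent.CT

open Set

/-- Enumeration of a periodic set of integers. -/
theorem cD3_enum (K : Set ℤ) (n : ℤ) (hn : 0 < n) (hne : K.Nonempty)
    (hper : ∀ i, i ∈ K ↔ i + n ∈ K) :
    ∃ (q : ℕ) (s : ℤ → ℤ), 0 < q ∧ StrictMono s ∧ (∀ j, s (j + q) = s j + n) ∧
      ∀ i, i ∈ K ↔ ∃ j, i = s j := by
  classical
  have h0 : Nonempty K := hne.to_subtype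
  have h1 : NoMaxOrder K := ⟨fun a => ⟨⟨a.1 + n, (hper _).1 a.2⟩, by
    show a.1 < a.1 + n
    omega⟩⟩
  have h2 : NoMinOrder K := ⟨fun a => ⟨⟨a.1 - n, (hper _).2 (by
    rw [sub_add_cancel]; exact a.2)⟩, by
    show a.1 - n < a.1
    omega⟩⟩
  let h3 : LocallyFiniteOrder K := Subtype.instLocallyFiniteOrder (· ∈ K)
  let h4 : SuccOrder K := LinearLocallyFiniteOrder.succOrder K
  let h5 : PredOrder K := LinearLocallyFiniteOrder.predOrder K
  let f : K ≃o ℤ := orderIsoIntOfLinearSuccPredArch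
  let g : K ≃o K :=
    { toFun := fun a => ⟨a.1 + n, (hper _).1 a.2⟩
      invFun := fun a => ⟨a.1 - n, (hper _).2 (by rw [sub_add_cancel]; exact a.2)⟩
      left_inv := fun a => Subtype.ext (by simp)
      right_inv := fun a => Subtype.ext (by simp)
      map_rel_iff' := by
        intro a b
        show a.1 + n ≤ b.1 + n ↔ a.1 ≤ b.1
        omega }
  let h : ℤ ≃o ℤ := f.symm.trans (g.trans f)
  have hsucc : ∀ j, h (j + 1) = h j + 1 := by
    intro j
    have := OrderIso.map_succ h j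
    simpa [Order.succ_eq_add_one] using this
  have hadd : ∀ j, h j = j + h 0 := by
    intro j
    induction j using Int.induction_on with
    | zero => simp
    | succ k ih => rw [hsucc, ih]; ring
    | pred k ih =>
      have := hsucc (-(k : ℤ) - 1)
      rw [sub_add_cancel] at this
      rw [ih] at this
      omega
  have hpos : 0 < h 0 := by
    have h3 : f.symm 0 < g (f.symm 0) := by
      show (f.symm 0).1 < (f.symm 0).1 + n
      omega
    have h4 := f.strictMono h3
    rw [f.apply_symm_apply] at h4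
    exact h4
  refine ⟨(h 0).toNat, fun j => (f.symm j).1, by omega, ?_, ?_, ?_⟩
  · intro i j hij
    exact f.symm.strictMono hij
  · intro j
    have h5 : j + ((h 0).toNat : ℤ) = h j := by
      rw [hadd j, Int.toNat_of_nonneg hpos.le]
    show (f.symm (j + ((h 0).toNat : ℤ))).1 = (f.symm j).1 + n
    rw [h5]
    show (f.symm (f (g (f.symm j)))).1 = (f.symm j).1 + n
    rw [f.symm_apply_apply]
    rfl
  · intro i
    constructor
    · intro hi
      refine ⟨f ⟨i, hi⟩, ?_⟩
      show i = (f.symm (f ⟨i, hi⟩)).1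
      rw [f.symm_apply_apply]
    · rintro ⟨j, rfl⟩
      exact (f.symm j).2

/-- Translates of the enumeration. -/
theorem cD3_mul {q n : ℕ} {s : ℤ → ℤ} (hs : ∀ j, s (j + q) = s j + n) (j k : ℤ) :
    s (j + q * k) = s j + n * k := by
  induction k using Int.induction_on with
  | zero => simp
  | succ k ih =>
    have : j + (q : ℤ) * ((k : ℤ) + 1) = j + q * k + q := by ring
    rw [this, hs, ih]
    ring
  | pred k ih =>
    have h1 : j + (q : ℤ) * (-(k : ℤ)) = j + q * (-(k : ℤ) - 1) + q := by ring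
    have h2 := hs (j + q * (-(k : ℤ) - 1))
    rw [← h1, ih] at h2
    linarith

theorem cD3_floor {q n : ℕ} (hn : 0 < n) {s : ℤ → ℤ} (hmono : StrictMono s)
    (hs : ∀ j, s (j + q) = s j + n) (i : ℤ) : ∃ j, s j ≤ i ∧ i < s (j + 1) := by
  obtain ⟨j, hj, hmax⟩ := Int.exists_greatest_of_bdd (P := fun j => s j ≤ i) (by
    refine ⟨q * (|i - s 0| + 1), fun z hz => ?_⟩
    by_contra hlt
    push Not at hlt
    have h1 := hmono hlt
    have h2 := cD3_mul hs 0 (|i - s 0| + 1)
    rw [zero_add] at h2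
    rw [h2] at h1
    have h3 : i - s 0 ≤ |i - s 0| := le_abs_self _
    have h4 : (0 : ℤ) ≤ |i - s 0| := abs_nonneg _
    nlinarith) (by
    refine ⟨0 + q * (-|i - s 0|), ?_⟩
    rw [cD3_mul hs]
    have h3 : -|i - s 0| ≤ i - s 0 := neg_abs_le _
    have h4 : (0 : ℤ) ≤ |i - s 0| := abs_nonneg _
    have h5 : (1 : ℤ) ≤ n := by omega
    nlinarith)
  refine ⟨j, hj, ?_⟩
  by_contra h
  push Not at h
  have := hmax _ h
  omega

section fr

variable {V E F : Type}

theorem cD3_corner_iff (M : Inc V E F) (D : Set F) (v : V) :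
    Corner M D v ↔ Touch M D v ∧ cHp_CV M D v := Iff.rfl

theorem cD3_core (h3 : Stmt_FaceCycle) (h7 : Stmt_FrVertex) (h8 : Stmt_Bond) (h9 : Stmt_Tight)
    (M : PlaneMap V E F) (D : Set F) (hD : TightDisc M.toInc D) :
    ∃ (n q : ℕ) (x : ℤ → V) (y : ℤ → E) (s : ℤ → ℤ) (t : ℤ → F)
    (X : ℤ → CV M.toInc D) (Y : ℤ → CE M.toInc D), 3 ≤ n ∧ IsCurve M.toInc (fr M.toInc D) n x y ∧
    StrictMono s ∧ (∀ j, s (j + q) = s j + n) ∧
    (∀ i, Corner M.toInc D (x i) ↔ ∃ j, i = s j) ∧
    (∀ v, BdV M.toInc D v ↔ ∃ i, x i = v) ∧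
    (∀ j i, s j ≤ i → i ≤ s (j + 1) → M.vf (x i) (t j)) ∧
    (∀ j i, s j ≤ i → i < s (j + 1) → M.ef (y i) (t j)) ∧ (∀ j, t j ∉ D) ∧
    IsFaceCycle (coarse M.toInc D) none q X Y ∧ ∀ j, (X j).1 = x (s j) := by
  have C := cHp_ctx h3 h7 h8 h9 M D hD
  have hne : Dᶜ.Nonempty := by
    obtain ⟨d, hd⟩ := hD.ne
    obtain ⟨f, hf, _⟩ := C.inf d d
    exact ⟨f, hf⟩
  obtain ⟨n, x, y, hc⟩ := h8 V E F M D hD.ne hne hD.conn hD.compl
  have hn3 : 3 ≤ n := by
    rcases hc.n_ne with h0 | h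
    · exfalso
      subst h0
      have hfin : (fr M.toInc D).Finite := by
        refine (hD.fin.biUnion fun d _ => M.face_fin d).subset ?_
        rintro e ⟨⟨d, hd, hed⟩, _⟩
        simp only [mem_iUnion]
        exact ⟨d, hd, hed⟩
      have hinj : Function.Injective y := by
        intro i j hij
        have := (hc.y_eq i j).1 hij
        have h0 : i - j = 0 := by simpa using this
        omega
      have : (range y).Finite := hfin.subset (by
        rintro _ ⟨i, rfl⟩
        exact (hc.mem _).2 ⟨i, rfl⟩)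
      exact Set.infinite_range_of_injective hinj this
    · exact h
  have hn1 : ¬ (n : ℤ) ∣ 1 := by
    intro h
    have := Int.eq_one_of_dvd_one (by omega) h
    omega
  have hxv1 : ∀ i, M.ve (x i) (y i) := fun i => (hc.ve _ _).2 (Or.inl rfl)
  have hxv2 : ∀ i, M.ve (x (i + 1)) (y i) := fun i => (hc.ve _ _).2 (Or.inr rfl)
  have hfr : ∀ i, y i ∈ fr M.toInc D := fun i => (hc.mem _).2 ⟨i, rfl⟩
  have hde : ∀ i, cHp_DE M.toInc D (y i) := fun i => (hfr i).1
  have ho : ∀ i, ∃ g, g ∉ D ∧ M.ef (y i) g := fun i => (hfr i).2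
  choose o hoD hoe using ho
  have huniq : ∀ i g, g ∉ D → M.ef (y i) g → g = o i := fun i g hg he =>
    cHp_out_unique (hde i) (hoe i) (hoD i) he hg
  have hT : ∀ i, Touch M.toInc D (x i) := fun i => cHp_touch_of (hxv1 i) (hde i)
  have hyne : ∀ i, y i ≠ y (i + 1) := by
    intro i h
    have := (hc.y_eq _ _).1 h
    apply hn1
    have h2 : (1 : ℤ) = -(i - (i + 1)) := by ring
    rw [h2]
    exact (dvd_neg).2 this
  have hA : ∀ i, ¬ Corner M.toInc D (x (i + 1)) → o i = o (i + 1) := by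
    intro i hi
    by_contra hne
    exact hi ⟨hT _, o i, o (i + 1), hne, hoD _, hoD _, ⟨y i, hxv2 i, hoe i⟩,
      ⟨y (i + 1), hxv1 _, hoe _⟩⟩
  have hxn : ∀ i, x (i + n) = x i := by
    intro i
    rw [hc.x_eq]
    simp
  have hyn : ∀ i, y (i + n) = y i := by
    intro i
    rw [hc.y_eq]
    simp
  have hBd : ∀ v, BdV M.toInc D v ↔ ∃ i, x i = v := by
    intro v
    constructor
    · rintro ⟨h1, h2⟩
      obtain ⟨e, he, hv⟩ := C.frv v h1 h2
      obtain ⟨i, rfl⟩ := (hc.mem e).1 he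
      rcases (hc.ve i v).1 hv with rfl | rfl
      exacts [⟨_, rfl⟩, ⟨_, rfl⟩]
    · rintro ⟨i, rfl⟩
      exact ⟨hT i, o i, hoD i, y i, hxv1 i, hoe i⟩
  -- the set of corners
  obtain ⟨q, s, hq, hmono, hs, hK⟩ := cD3_enum {i | Corner M.toInc D (x i)} n (by omega) (by
    obtain ⟨e, hde', t1, ht1, het1⟩ := C.frNe
    obtain ⟨n', r, x', y', hR, hr⟩ := cHp_run_of_de C ht1 het1 hde'
    have hlt := hR.lt
    have hT0 : Touch M.toInc D (x' 0) := by
      have := (hR.touch 0 (by omega)).2 (by omega)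
      simpa using this
    have hcv := cHp_cv_zero ht1 hR
    have hv0 : M.vf (x' 0) t1 := ⟨y' 0, (hR.cyc.curve.ve _ _).2 (Or.inl rfl), cHp_yin hR.cyc _⟩
    obtain ⟨i, hi⟩ := (hBd (x' 0)).1 ⟨hT0, t1, ht1, hv0⟩
    refine ⟨i, ?_⟩
    show Corner M.toInc D (x i)
    rw [hi]
    exact ⟨hT0, hcv⟩) (by
    intro i
    show Corner M.toInc D (x i) ↔ Corner M.toInc D (x (i + n))
    rw [hxn])
  have hcor : ∀ j, Corner M.toInc D (x (s j)) := fun j => (hK _).2 ⟨j, rfl⟩
  have hstep : ∀ j, s j < s (j + 1) := fun j => hmono (by omega)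
  have hbet : ∀ j i, s j < i → i < s (j + 1) → ¬ Corner M.toInc D (x i) := by
    intro j i h1 h2 h
    obtain ⟨k, rfl⟩ := (hK i).1 h
    have h3 := hmono.lt_iff_lt.1 h1
    have h4 := hmono.lt_iff_lt.1 h2
    omega
  have hC : ∀ j (k : ℕ), s j + k < s (j + 1) → o (s j + k) = o (s j) := by
    intro j k
    induction k with
    | zero => simp
    | succ k ih =>
      intro hk
      push_cast at hk ⊢
      rw [← ih (by omega)]
      have := hA (s j + k) (hbet j _ (by omega) (by omega))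
      rw [this]
      ring_nf
  have hC' : ∀ j i, s j ≤ i → i < s (j + 1) → o i = o (s j) := by
    intro j i h1 h2
    have := hC j (i - s j).toNat (by omega)
    rw [show s j + ((i - s j).toNat : ℤ) = i by omega] at this
    exact this
  have hE : ∀ j i, s j ≤ i → i < s (j + 1) → M.ef (y i) (o (s j)) := by
    intro j i h1 h2
    rw [← hC' j i h1 h2]
    exact hoe i
  have hVf : ∀ j i, s j ≤ i → i ≤ s (j + 1) → M.vf (x i) (o (s j)) := by
    intro j i h1 h2
    rcases lt_or_eq_of_le h2 with h | h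
    · exact ⟨y i, hxv1 i, hE j i h1 h⟩
    · have hj := hstep j
      refine ⟨y (i - 1), ?_, hE j (i - 1) (by omega) (by omega)⟩
      have := hxv2 (i - 1)
      rwa [sub_add_cancel] at this
  let X : ℤ → CV M.toInc D := fun j => ⟨x (s j), (hcor j).2⟩
  let Y : ℤ → CE M.toInc D := fun j => Sum.inr ⟨o (s j), hoD _, y (s j), hoe _, hde _⟩
  have hYeq : ∀ i j, o (s i) = o (s j) → Y i = Y j := by
    intro i j h
    simp only [Y, Sum.inr.injEq, Subtype.mk.injEq]
    exact h
  have hXY : ∀ j, (coarse M.toInc D).ve (X j) (Y j) := fun j =>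
    ⟨hVf j (s j) le_rfl (hstep j).le, hT _⟩
  have hXY' : ∀ j, (coarse M.toInc D).ve (X (j + 1)) (Y j) := fun j =>
    ⟨hVf j (s (j + 1)) (hstep j).le le_rfl, hT _⟩
  have hsq : ∀ i j, (q : ℤ) ∣ i - j ↔ (n : ℤ) ∣ s i - s j := by
    intro i j
    constructor
    · rintro ⟨k, hk⟩
      have h1 : i = j + q * k := by linarith
      rw [h1, cD3_mul hs]
      exact ⟨k, by ring⟩
    · rintro ⟨k, hk⟩
      have h1 : s i = s (j + q * k) := by
        rw [cD3_mul hs]
        linarith
      have h2 := hmono.injective h1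
      exact ⟨k, by linarith⟩
  have hXeq : ∀ i j, X i = X j ↔ (q : ℤ) ∣ i - j := by
    intro i j
    rw [hsq, ← hc.x_eq]
    simp only [X, Subtype.mk.injEq]
  have hYper : ∀ i j, (q : ℤ) ∣ i - j → Y i = Y j := by
    intro i j h
    apply hYeq
    have h1 : y (s i) = y (s j) := (hc.y_eq _ _).2 ((hsq i j).1 h)
    apply huniq
    · exact hoD _
    · rw [← h1]
      exact hoe _
  have hmem : ∀ e, (coarse M.toInc D).ef e none → ∃ i, Y i = e := by
    rintro (⟨e, he⟩ | ⟨g, hg, e, heg, hdeg⟩) h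
    · exact h.elim
    · obtain ⟨i, rfl⟩ := (hc.mem e).1 (cHp_mem_fr hdeg heg hg)
      obtain ⟨j, hj1, hj2⟩ := cD3_floor (by omega) hmono hs i
      refine ⟨j, ?_⟩
      simp only [Y, Sum.inr.injEq, Subtype.mk.injEq]
      rw [← hC' j i hj1 hj2]
      exact (huniq i g hg heg).symm
  have hq3 : 3 ≤ q := by
    have h1 := cHp_face_card C (none : CF M.toInc D)
    have h2 : {e | (coarse M.toInc D).ef e none} ⊆ Y '' (fun k : ℕ => (k : ℤ)) '' (Set.Iio q) := by
      intro e he
      obtain ⟨i, rfl⟩ := hmem e he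
      have hq0 : (0 : ℤ) < q := by omega
      have h0 := Int.emod_nonneg i (by omega : (q : ℤ) ≠ 0)
      have h1 := Int.emod_lt_of_pos i hq0
      refine ⟨_, ⟨(i % q).toNat, ?_, rfl⟩, ?_⟩
      · show (i % q).toNat < q
        omega
      · apply hYper
        show (q : ℤ) ∣ ((i % q).toNat : ℤ) - i
        rw [Int.toNat_of_nonneg h0]
        rw [← dvd_neg, neg_sub]
        exact Int.dvd_self_sub_emod
    have h4 : (Y '' (fun k : ℕ => (k : ℤ)) '' (Set.Iio q)).ncard ≤ q := by
      rw [Set.image_image]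
      refine (Set.ncard_image_le (Set.finite_Iio q)).trans ?_
      rw [← Finset.coe_Iio, Set.ncard_coe_finset]
      simp
    have h5 := Set.ncard_le_ncard h2 (((Set.finite_Iio q).image _).image _)
    omega
  have hq1 : ¬ (q : ℤ) ∣ 1 := by
    intro h
    have := Int.eq_one_of_dvd_one (by omega) h
    omega
  have hXne : ∀ i, X i ≠ X (i + 1) := by
    intro i h
    have := (hXeq _ _).1 h
    apply hq1
    have h2 : (1 : ℤ) = -(i - (i + 1)) := by ring
    rw [h2]
    exact (dvd_neg).2 this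
  have hve : ∀ i v, (coarse M.toInc D).ve v (Y i) ↔ (v = X i ∨ v = X (i + 1)) := by
    intro i v
    obtain ⟨a, b, hab, hiff⟩ := cHp_edge_verts C (Y i)
    have h1 := (hiff _).1 (hXY i)
    have h2 := (hiff _).1 (hXY' i)
    have h3 := hXne i
    rw [hiff]
    rcases h1 with h1 | h1 <;> rcases h2 with h2 | h2
    · exact absurd (h1.trans h2.symm) h3
    · rw [h1, h2]
    · rw [h1, h2]
      exact or_comm
    · exact absurd (h1.trans h2.symm) h3
  refine ⟨n, q, x, y, s, fun j => o (s j), X, Y, hn3, hc, hmono, hs, hK, hBd, hVf, hE,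
    fun j => hoD _, ⟨hq3, Or.inr hq3, hXeq, ?_, ?_, hve⟩, fun j => rfl⟩
  · intro i j
    refine ⟨fun h => ?_, hYper i j⟩
    have h1 : X i = X j ∨ X i = X (j + 1) := by
      rw [← hve, ← h]
      exact hXY i
    have h2 : X (i + 1) = X j ∨ X (i + 1) = X (j + 1) := by
      rw [← hve, ← h]
      exact hXY' i
    rcases h1 with h1 | h1
    · exact (hXeq _ _).1 h1
    · rcases h2 with h2 | h2
      · exfalso
        have h3 := (hXeq _ _).1 h1
        have h4 := (hXeq _ _).1 h2
        have h5 := dvd_sub h4 h3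
        rw [show i + 1 - j - (i - (j + 1)) = 2 by ring] at h5
        have := Int.le_of_dvd (by norm_num) h5
        omega
      · exact absurd (h1.trans h2.symm) (hXne i)
  · intro e
    refine ⟨hmem e, ?_⟩
    rintro ⟨i, rfl⟩
    trivial

end fr

/-- D3. -/
theorem cD3 (h3 : Stmt_FaceCycle) (h7 : Stmt_FrVertex) (h8 : Stmt_Bond) (h9 : Stmt_Tight) :
    Stmt_FrCycle := by
  intro V E F M D hD
  exact cD3_core h3 h7 h8 h9 M D hD

end Pool.Agent.CT

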