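import Pool.Agent.CT.BDefs

set_option autoImplicit false

/-! # Harmonic functions: maximum principle and upper level sets -/

namespace Pool.Agent.CT

open Set Metric

section

variable {V X : Type} [AddCommGroup X] [Module ℝ X]

/-- The finite set of out-neighbours. -/
noncomputable def a13_nb {c : V → V → ℝ} (hc : Net c) (v : V) : Finset V := (hc.fin v).toFinset

theorem a13_mem_nb {c : V → V → ℝ} (hc : Net c) (v u : V) : u ∈ a13_nb hc v ↔ c v u ≠ 0 := by
  simp [a13_nb]

theorem a13_sum_eq {c : V → V → ℝ} (hc : Net c) (φ : V → X) (v : V) :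
    ∑ᶠ u, c v u • (φ u - φ v) = ∑ u ∈ a13_nb hc v, c v u • (φ u - φ v) := by
  apply finsum_eq_sum_of_support_subset
  intro u hu
  rw [Function.mem_support] at hu
  rw [Finset.mem_coe, a13_mem_nb]
  intro h
  apply hu
  rw [h, zero_smul]

theorem a13_deg_eq {c : V → V → ℝ} (hc : Net c) (v : V) :
    ∑ᶠ u, c v u = ∑ u ∈ a13_nb hc v, c v u := by
  apply finsum_eq_sum_of_support_subset
  intro u hu
  rw [Function.mem_support] at hu
  rw [Finset.mem_coe, a13_mem_nb]
  exact hu

theorem a13_harm_iff {c : V → V → ℝ} (hc : Net c) (φ : V → X) (v : V) :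
    Harm c φ v ↔ ∑ u ∈ a13_nb hc v, c v u • (φ u - φ v) = 0 := by
  unfold Harm
  rw [a13_sum_eq hc]

end

theorem a13_max {V : Type} {c : V → V → ℝ} (hc : Net c) (f : V → ℝ) (v : V) (h : Harm c f v)
    (hle : ∀ u, 0 < c v u → f u ≤ f v) : ∀ u, 0 < c v u → f u = f v := by
  rw [a13_harm_iff hc] at h
  have h1 : ∀ u ∈ a13_nb hc v, c v u • (f u - f v) ≤ 0 := by
    intro u hu
    rw [a13_mem_nb] at hu
    have hp : 0 < c v u := lt_of_le_of_ne (hc.nonneg v u) (Ne.symm hu)
    have := hle u hp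
    rw [smul_eq_mul]
    exact mul_nonpos_of_nonneg_of_nonpos hp.le (by linarith)
  rw [Finset.sum_eq_zero_iff_of_nonpos h1] at h
  intro u hu
  have h2 := h u ((a13_mem_nb hc v u).2 hu.ne')
  rw [smul_eq_mul] at h2
  rcases mul_eq_zero.1 h2 with h3 | h3
  · exact absurd h3 hu.ne'
  · linarith

theorem a13_down {V : Type} {c : V → V → ℝ} (hc : Net c) (f : V → ℝ) (v : V) (h : Harm c f v)
    (hex : ∃ u, 0 < c v u ∧ f v < f u) : ∃ u, 0 < c v u ∧ f u < f v := by
  by_contra hno
  push Not at hno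
  rw [a13_harm_iff hc] at h
  have h1 : ∀ u ∈ a13_nb hc v, 0 ≤ c v u • (f u - f v) := by
    intro u hu
    rw [a13_mem_nb] at hu
    have hp : 0 < c v u := lt_of_le_of_ne (hc.nonneg v u) (Ne.symm hu)
    have := hno u hp
    rw [smul_eq_mul]
    exact mul_nonneg hp.le (by linarith)
  rw [Finset.sum_eq_zero_iff_of_nonneg h1] at h
  obtain ⟨u, hu, hlt⟩ := hex
  have h2 := h u ((a13_mem_nb hc v u).2 hu.ne')
  rw [smul_eq_mul] at h2
  rcases mul_eq_zero.1 h2 with h3 | h3
  · exact absurd h3 hu.ne'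
  · linarith

theorem a13_dir {V : Type} {c : V → V → ℝ} (hc : Net c) (φ : V → ℂ) (v : V) (w : ℂ)
    (h : Harm c φ v) : Harm c (fun u => dir w (φ u)) v := by
  rw [a13_harm_iff hc] at h ⊢
  have hre := congrArg Complex.re h
  have him := congrArg Complex.im h
  rw [Complex.re_sum] at hre
  rw [Complex.im_sum] at him
  simp only [Complex.real_smul, Complex.mul_re, Complex.ofReal_re, Complex.ofReal_im, zero_mul,
    sub_zero, Complex.sub_re, Complex.zero_re, Complex.mul_im, Complex.sub_im, add_zero,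
    Complex.zero_im] at hre him
  have : ∑ u ∈ a13_nb hc v, c v u • (dir w (φ u) - dir w (φ v)) =
      w.re * (∑ u ∈ a13_nb hc v, c v u * ((φ u).re - (φ v).re)) +
      w.im * (∑ u ∈ a13_nb hc v, c v u * ((φ u).im - (φ v).im)) := by
    rw [Finset.mul_sum, Finset.mul_sum, ← Finset.sum_add_distrib]
    refine Finset.sum_congr rfl fun u _ => ?_
    simp only [dir, smul_eq_mul]
    ring
  rw [this, hre, him]
  ring

theorem a13_reim {V : Type} {c : V → V → ℝ} (hc : Net c) (φ : V → ℂ) (v : V)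
    (h1 : Harm c (fun u => (φ u).re) v) (h2 : Harm c (fun u => (φ u).im) v) : Harm c φ v := by
  rw [a13_harm_iff hc] at h1 h2 ⊢
  apply Complex.ext
  · rw [Complex.re_sum, Complex.zero_re, ← h1]
    refine Finset.sum_congr rfl fun u _ => ?_
    simp
  · rw [Complex.im_sum, Complex.zero_im, ← h2]
    refine Finset.sum_congr rfl fun u _ => ?_
    simp

/-- A1. -/
theorem cA1 : Stmt_Harm := by
  intro V c hc
  exact ⟨a13_max hc, a13_down hc, a13_dir hc, a13_reim hc⟩

/-- The Harnack step. -/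
theorem a13_harnack {V : Type} {c : V → V → ℝ} (hc : Net c) (f : V → ℝ) (v : V) (h : Harm c f v)
    (M : ℝ) (hM : ∀ u, 0 < c v u → f u ≤ M) (u : V) :
    c v u * (M - f u) ≤ (∑ᶠ t, c v t) * (M - f v) := by
  rw [a13_harm_iff hc] at h
  rw [a13_deg_eq hc]
  by_cases hu : c v u = 0
  · rw [hu, zero_mul]
    by_cases hall : ∀ t, c v t = 0
    · rw [Finset.sum_eq_zero fun t _ => hall t, zero_mul]
    · have h1 : (∑ t ∈ a13_nb hc v, c v t) * (M - f v) =
          ∑ t ∈ a13_nb hc v, c v t * (M - f t) := by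
        have : ∑ t ∈ a13_nb hc v, c v t * (M - f t) =
            ∑ t ∈ a13_nb hc v, (c v t * (M - f v) - c v t • (f t - f v)) := by
          refine Finset.sum_congr rfl fun t _ => ?_
          rw [smul_eq_mul]
          ring
        rw [this, Finset.sum_sub_distrib, h, sub_zero, Finset.sum_mul]
      rw [h1]
      refine Finset.sum_nonneg fun t ht => ?_
      rw [a13_mem_nb] at ht
      have hp : 0 < c v t := lt_of_le_of_ne (hc.nonneg v t) (Ne.symm ht)
      exact mul_nonneg hp.le (by linarith [hM t hp])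
  · have h1 : (∑ t ∈ a13_nb hc v, c v t) * (M - f v) =
        ∑ t ∈ a13_nb hc v, c v t * (M - f t) := by
      have : ∑ t ∈ a13_nb hc v, c v t * (M - f t) =
          ∑ t ∈ a13_nb hc v, (c v t * (M - f v) - c v t • (f t - f v)) := by
        refine Finset.sum_congr rfl fun t _ => ?_
        rw [smul_eq_mul]
        ring
      rw [this, Finset.sum_sub_distrib, h, sub_zero, Finset.sum_mul]
    rw [h1]
    refine Finset.single_le_sum (f := fun t => c v t * (M - f t)) ?_ ((a13_mem_nb hc v u).2 hu)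
    intro t ht
    rw [a13_mem_nb] at ht
    have hp : 0 < c v t := lt_of_le_of_ne (hc.nonneg v t) (Ne.symm ht)
    exact mul_nonneg hp.le (by linarith [hM t hp])

/-- A3. -/
theorem cA3 : Stmt_UpSet := by
  intro V c hc I p hp hpc f hf r κ hκ hq c₀ v₀ hv₀
  by_contra hcon
  rw [not_or] at hcon
  obtain ⟨hA, hB⟩ := hcon
  push Not at hA hB
  obtain ⟨m, hm⟩ := hB
  set R : V → V → Prop := fun x y => 0 < c x y ∧ c₀ < f x ∧ c₀ < f y with hR
  set K : Set V := {b | Relation.ReflTransGen R v₀ b} with hK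
  have hv₀K : v₀ ∈ K := Relation.ReflTransGen.refl
  have hKI : ∀ b ∈ K, b ∈ I := by
    intro b hb
    by_contra hbI
    exact hA b hbI hb
  have hKc : ∀ b ∈ K, c₀ < f b := by
    intro b hb
    rcases Relation.ReflTransGen.cases_tail hb with h | ⟨d, _, hd⟩
    · rw [h]
      exact hv₀
    · exact hd.2.2
  have hKm : ∀ b ∈ K, f b ≤ m := by
    intro b hb
    by_contra hlt
    push Not at hlt
    exact hm b hlt hb
  have hKstep : ∀ b ∈ K, ∀ u, 0 < c b u → c₀ < f u → u ∈ K := by
    intro b hb u hu hcu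
    exact Relation.ReflTransGen.tail hb ⟨hu, hKc b hb, hcu⟩
  set M : ℝ := sSup (f '' K) with hMdef
  have hbdd : BddAbove (f '' K) := by
    refine ⟨m, ?_⟩
    rintro _ ⟨b, hb, rfl⟩
    exact hKm b hb
  have hne : (f '' K).Nonempty := ⟨f v₀, v₀, hv₀K, rfl⟩
  have hle : ∀ b ∈ K, f b ≤ M := fun b hb => le_csSup hbdd ⟨b, hb, rfl⟩
  have hMc : c₀ < M := lt_of_lt_of_le hv₀ (hle v₀ hv₀K)
  have hnb : ∀ b ∈ K, ∀ u, 0 < c b u → f u ≤ M := by
    intro b hb u hu
    by_cases h : c₀ < f u
    · exact hle u (hKstep b hb u hu h)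
    · push Not at h
      linarith
  -- `p ≤ 1`
  have hp1 : p ≤ 1 := by
    obtain ⟨n, q, hn, hq0, hqs, hqe⟩ := hq v₀ (hKI v₀ hv₀K)
    have hn0 : 0 < n := by
      rcases Nat.eq_zero_or_pos n with h0 | h0
      · exfalso
        rw [h0, hq0] at hqe
        rcases hqe with h | h
        · exact h (hKI v₀ hv₀K)
        · linarith
      · exact h0
    have h1 := hqs 0 hn0
    rw [hq0, zero_add] at h1
    have h2 := hpc v₀ (hKI v₀ hv₀K) (q 1) h1
    have h3 : c v₀ (q 1) ≤ ∑ᶠ t, c v₀ t := by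
      rw [a13_deg_eq hc]
      exact Finset.single_le_sum (f := fun t => c v₀ t) (fun t _ => hc.nonneg v₀ t)
        ((a13_mem_nb hc v₀ (q 1)).2 h1.ne')
    by_contra hlt
    push Not at hlt
    nlinarith
  -- the distance
  set d : ℝ := min κ ((M - c₀) * p ^ r) with hd
  have hd0 : 0 < d := lt_min hκ (mul_pos (by linarith) (pow_pos hp r))
  have hdκ : d ≤ κ := min_le_left _ _
  have hdr : d ≤ (M - c₀) * p ^ r := min_le_right _ _
  obtain ⟨_, ⟨v, hvK, rfl⟩, hv⟩ := exists_lt_of_lt_csSup hne (show M - d < sSup (f '' K) by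
    rw [← hMdef]
    linarith)
  obtain ⟨n, q, hn, hq0, hqs, hqe⟩ := hq v (hKI v hvK)
  have hkey : ∀ i, i ≤ n → q i ∈ K ∧ (M - f (q i)) * p ^ i < d := by
    intro i
    induction i with
    | zero =>
      intro _
      rw [hq0, pow_zero, mul_one]
      exact ⟨hvK, by linarith⟩
    | succ i ih =>
      intro hi
      obtain ⟨hiK, hid⟩ := ih (by omega)
      have hst := hqs i (by omega)
      have h1 := a13_harnack hc f (q i) (hf (q i) (hKI _ hiK)) M (hnb _ hiK) (q (i + 1))
      have h2 := hpc (q i) (hKI _ hiK) (q (i + 1)) hst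
      have h3 : f (q (i + 1)) ≤ M := hnb _ hiK _ hst
      have hS : 0 < ∑ᶠ t, c (q i) t := by
        have h3 : c (q i) (q (i + 1)) ≤ ∑ᶠ t, c (q i) t := by
          rw [a13_deg_eq hc]
          exact Finset.single_le_sum (f := fun t => c (q i) t) (fun t _ => hc.nonneg _ t)
            ((a13_mem_nb hc (q i) (q (i + 1))).2 hst.ne')
        linarith
      have h4 : p * (M - f (q (i + 1))) ≤ M - f (q i) := by
        have h5 : p * (∑ᶠ t, c (q i) t) * (M - f (q (i + 1))) ≤
            (∑ᶠ t, c (q i) t) * (M - f (q i)) :=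
          le_trans (mul_le_mul_of_nonneg_right h2 (by linarith)) h1
        have h6 : (∑ᶠ t, c (q i) t) * (p * (M - f (q (i + 1)))) ≤
            (∑ᶠ t, c (q i) t) * (M - f (q i)) := by
          calc (∑ᶠ t, c (q i) t) * (p * (M - f (q (i + 1)))) =
              p * (∑ᶠ t, c (q i) t) * (M - f (q (i + 1))) := by ring
            _ ≤ _ := h5
        exact le_of_mul_le_mul_left h6 hS
      have h7 : (M - f (q (i + 1))) * p ^ (i + 1) < d := by
        calc (M - f (q (i + 1))) * p ^ (i + 1) = (p * (M - f (q (i + 1)))) * p ^ i := by ring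
          _ ≤ (M - f (q i)) * p ^ i := mul_le_mul_of_nonneg_right h4 (pow_pos hp i).le
          _ < d := hid
      refine ⟨hKstep _ hiK _ hst ?_, h7⟩
      by_contra hle'
      push Not at hle'
      have h8 : (M - c₀) * p ^ r ≤ (M - f (q (i + 1))) * p ^ (i + 1) := by
        have h9 : p ^ r ≤ p ^ (i + 1) := pow_le_pow_of_le_one hp.le hp1 (by omega)
        have h10 : 0 < p ^ r := pow_pos hp r
        calc (M - c₀) * p ^ r ≤ (M - c₀) * p ^ (i + 1) :=
              mul_le_mul_of_nonneg_left h9 (by linarith)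
          _ ≤ (M - f (q (i + 1))) * p ^ (i + 1) :=
              mul_le_mul_of_nonneg_right (by linarith) (pow_pos hp _).le
      linarith
  obtain ⟨hnK, _⟩ := hkey n le_rfl
  rcases hqe with h | h
  · exact h (hKI _ hnK)
  · have h1 := hle _ hnK
    have h2 := hv
    linarith

end Pool.Agent.CT
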