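import Pool.Agent.CT.BDefs

set_option autoImplicit false

/-! # G6: a predrawing is a drawing -/

namespace Pool.Agent.CT

open Set Metric Filter Topology

theorem cG6_dir_cont (w : ℂ) : Continuous (dir w) := by
  unfold dir
  fun_prop

theorem cG6_dir_lin (w : ℂ) : IsLinearMap ℝ (dir w) where
  map_add x y := by simp [dir]; ring
  map_smul c x := by simp [dir]; ring

/-- The punctured disc is connected. -/
theorem cG6_punct (z : ℂ) {r : ℝ} (hr : 0 < r) : IsPreconnected (ball z r \ {z}) := by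
  have h1 : IsPreconnected ({0}ᶜ : Set ℂ) :=
    (isConnected_compl_singleton_of_one_lt_rank (by simp) 0).isPreconnected
  have hc : Continuous fun y : ℂ => z + (r / (1 + ‖y‖)) • y := by
    have h2 : ∀ y : ℂ, 1 + ‖y‖ ≠ 0 := fun y => by positivity
    fun_prop (disch := exact h2 _)
  have h3 := h1.image _ hc.continuousOn
  convert h3 using 1
  ext x
  constructor
  · rintro ⟨hx, hne⟩
    have hxz : x - z ≠ 0 := sub_ne_zero.mpr hne
    have hn : ‖x - z‖ < r := by rwa [mem_ball, dist_eq_norm] at hx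
    have hd : 0 < r - ‖x - z‖ := by linarith
    refine ⟨(1 / (r - ‖x - z‖)) • (x - z), ?_, ?_⟩
    · simp only [mem_compl_iff, mem_singleton_iff, smul_eq_zero, not_or]
      exact ⟨by positivity, hxz⟩
    · show z + (r / (1 + ‖(1 / (r - ‖x - z‖)) • (x - z)‖)) • (1 / (r - ‖x - z‖)) • (x - z) = x
      rw [norm_smul, Real.norm_of_nonneg (by positivity), smul_smul]
      have : r / (1 + 1 / (r - ‖x - z‖) * ‖x - z‖) * (1 / (r - ‖x - z‖)) = 1 := by
        field_simp
        ring
      rw [this, one_smul]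
      ring
  · rintro ⟨y, hy, rfl⟩
    have hy0 : y ≠ 0 := hy
    have hn : 0 < ‖y‖ := norm_pos_iff.mpr hy0
    constructor
    · rw [mem_ball, dist_eq_norm]
      simp only [add_sub_cancel_left]
      rw [norm_smul, Real.norm_of_nonneg (by positivity), div_mul_eq_mul_div, div_lt_iff₀ (by positivity)]
      nlinarith
    · simp only [mem_singleton_iff, add_eq_left, smul_eq_zero, not_or]
      exact ⟨by positivity, hy0⟩

/-- Points of a line of the form `dir w = c`. -/
theorem cG6_line {w a b y : ℂ} {c : ℝ} (hw : w ≠ 0) (hab : a ≠ b) (ha : dir w a = c)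
    (hb : dir w b = c) (hy : dir w y = c) :
    y = a + (((((y.re - a.re) * (b.re - a.re) + (y.im - a.im) * (b.im - a.im)) /
      ((b.re - a.re) ^ 2 + (b.im - a.im) ^ 2) : ℝ) : ℂ)) * (b - a) := by
  unfold dir at ha hb hy
  have hD : 0 < (b.re - a.re) ^ 2 + (b.im - a.im) ^ 2 := by
    by_contra h
    push Not at h
    have h1 : b.re - a.re = 0 := by nlinarith [sq_nonneg (b.re - a.re), sq_nonneg (b.im - a.im)]
    have h2 : b.im - a.im = 0 := by nlinarith [sq_nonneg (b.re - a.re), sq_nonneg (b.im - a.im)]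
    exact hab (Complex.ext (by linarith) (by linarith))
  have h1 : w.re * (b.re - a.re) + w.im * (b.im - a.im) = 0 := by linarith
  have h2 : w.re * (y.re - a.re) + w.im * (y.im - a.im) = 0 := by linarith
  have h3 : (y.re - a.re) * (b.im - a.im) - (y.im - a.im) * (b.re - a.re) = 0 := by
    by_cases hr : w.re = 0
    · have hi : w.im ≠ 0 := fun hi => hw (Complex.ext hr hi)
      rw [hr] at h1 h2
      have e1 : b.im - a.im = 0 := by
        rcases mul_eq_zero.mp (by linarith : w.im * (b.im - a.im) = 0) with h | h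
        · exact absurd h hi
        · exact h
      have e2 : y.im - a.im = 0 := by
        rcases mul_eq_zero.mp (by linarith : w.im * (y.im - a.im) = 0) with h | h
        · exact absurd h hi
        · exact h
      rw [e1, e2]; ring
    · have : w.re * ((y.re - a.re) * (b.im - a.im) - (y.im - a.im) * (b.re - a.re)) = 0 := by
        linear_combination (b.im - a.im) * h2 - (y.im - a.im) * h1
      rcases mul_eq_zero.mp this with h | h
      · exact absurd h hr
      · exact h
  apply Complex.ext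
  · simp only [Complex.add_re, Complex.re_ofReal_mul, Complex.sub_re]
    field_simp
    linear_combination (b.im - a.im) * h3
  · simp only [Complex.add_im, Complex.im_ofReal_mul, Complex.sub_im]
    field_simp
    linear_combination -(b.re - a.re) * h3

/-- One side of an edge. -/
theorem cG6_half {P : Set ℂ} (hP : Convex ℝ P) {w a b p x : ℂ} {c : ℝ} (hw : w ≠ 0) (hab : a ≠ b)
    (ha : dir w a = c) (hb : dir w b = c) (haP : a ∈ P) (hbP : b ∈ P) (hpP : p ∈ P)
    (hp : dir w p < c) {t : ℝ} (ht0 : 0 < t) (ht1 : t < 1) (hx : x = a + (t : ℂ) * (b - a)) :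
    ∀ᶠ y in 𝓝 x, dir w y ≤ c → y ∈ P := by
  have hcp : 0 < c - dir w p := by linarith
  have hdx : dir w x = c := by
    rw [hx]
    have : dir w (a + (t : ℂ) * (b - a)) = dir w a + t * (dir w b - dir w a) := by
      simp [dir]; ring
    rw [this, ha, hb]; ring
  have hD : 0 < (b.re - a.re) ^ 2 + (b.im - a.im) ^ 2 := by
    by_contra h
    push Not at h
    have h1 : b.re - a.re = 0 := by nlinarith [sq_nonneg (b.re - a.re), sq_nonneg (b.im - a.im)]
    have h2 : b.im - a.im = 0 := by nlinarith [sq_nonneg (b.re - a.re), sq_nonneg (b.im - a.im)]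
    exact hab (Complex.ext (by linarith) (by linarith))
  let s : ℂ → ℝ := fun y => (c - dir w y) / (c - dir w p)
  let X : ℂ → ℂ := fun y => (1 - s y)⁻¹ • (y - s y • p)
  let L : ℂ → ℝ := fun y => (((X y).re - a.re) * (b.re - a.re) + ((X y).im - a.im) * (b.im - a.im)) /
      ((b.re - a.re) ^ 2 + (b.im - a.im) ^ 2)
  have hs : Continuous s := by
    have := cG6_dir_cont w
    unfold s
    fun_prop
  have hsx : s x = 0 := by simp [s, hdx]
  have hX : ContinuousAt X x := by
    have h1 : ContinuousAt (fun y => (1 - s y)⁻¹) x := by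
      apply ContinuousAt.inv₀
      · fun_prop
      · rw [hsx]; norm_num
    exact h1.smul (by fun_prop)
  have hXx : X x = x := by simp [X, hsx]
  have hL : ContinuousAt L x := by
    have h1 : ContinuousAt (fun y => (X y).re) x := Complex.continuous_re.continuousAt.comp hX
    have h2 : ContinuousAt (fun y => (X y).im) x := Complex.continuous_im.continuousAt.comp hX
    exact (((h1.sub continuousAt_const).mul continuousAt_const).add
      ((h2.sub continuousAt_const).mul continuousAt_const)).div_const _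
  have hLx : L x = t := by
    simp only [L, hXx]
    rw [hx]
    simp only [Complex.add_re, Complex.re_ofReal_mul, Complex.sub_re, Complex.add_im,
      Complex.im_ofReal_mul, Complex.sub_im]
    field_simp
    ring
  have e1 : ∀ᶠ y in 𝓝 x, s y < 1 := hs.continuousAt.eventually_lt_const (by rw [hsx]; norm_num)
  have e2 : ∀ᶠ y in 𝓝 x, L y < 1 := hL.eventually_lt_const (by rw [hLx]; exact ht1)
  have e3 : ∀ᶠ y in 𝓝 x, 0 < L y := hL.eventually_const_lt (by rw [hLx]; exact ht0)
  filter_upwards [e1, e2, e3] with y h1 h2 h3 hy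
  have hs0 : 0 ≤ s y := div_nonneg (by linarith) hcp.le
  have h1s : 0 < 1 - s y := by linarith
  have hdX : dir w (X y) = c := by
    have e : dir w (X y) = (1 - s y)⁻¹ * (dir w y - s y * dir w p) := by
      have hl := cG6_dir_lin w
      have h9 : X y = (1 - s y)⁻¹ • (y - s y • p) := rfl
      rw [h9, hl.map_smul, hl.map_sub, hl.map_smul, smul_eq_mul, smul_eq_mul]
    have e' : s y * (c - dir w p) = c - dir w y := by
      simp only [s]; field_simp
    rw [e, inv_mul_eq_iff_eq_mul₀ h1s.ne']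
    linarith
  have hXP : X y ∈ P := by
    have h5 := cG6_line hw hab ha hb hdX
    have h6 : X y = (1 - L y) • a + L y • b := by
      rw [Complex.real_smul, Complex.real_smul]
      push_cast
      have h7 : X y = a + (L y : ℂ) * (b - a) := h5
      rw [h7]; ring
    rw [h6]
    exact hP haP hbP (by linarith) h3.le (by ring)
  have h8 : y = (1 - s y) • X y + s y • p := by
    simp only [X]
    rw [smul_smul, mul_inv_cancel₀ h1s.ne', one_smul]
    ring
  rw [h8]
  exact hP hXP hpP h1s.le hs0 (by ring)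

/-- Points strictly on one side. -/
theorem cG6_side {P : Set ℂ} {w : ℂ} {c : ℝ} (hw : w ≠ 0) (hP : (interior P).Nonempty)
    (h : ∀ y ∈ P, dir w y ≤ c) : ∃ p ∈ P, dir w p < c := by
  obtain ⟨p, hp⟩ := hP
  have h1 : Continuous fun t : ℝ => p - (t : ℂ) * w := by fun_prop
  have h2 : ∀ᶠ t : ℝ in 𝓝 (0 : ℝ), p - (t : ℂ) * w ∈ interior P := by
    apply h1.continuousAt.eventually_mem
    simpa using isOpen_interior.mem_nhds hp
  have h3 : ∀ᶠ t : ℝ in 𝓝[>] (0 : ℝ), p - (t : ℂ) * w ∈ interior P := h2.filter_mono nhdsWithin_le_nhds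
  obtain ⟨t, ht, ht0⟩ := (h3.and self_mem_nhdsWithin).exists
  have ht0' : 0 < t := ht0
  refine ⟨_, interior_subset ht, ?_⟩
  have h4 : dir w (p - (t : ℂ) * w) = dir w p - t * (w.re ^ 2 + w.im ^ 2) := by
    simp [dir]; ring
  rw [h4]
  have h5 : 0 < w.re ^ 2 + w.im ^ 2 := by
    by_contra h'
    push Not at h'
    have h1 : w.re = 0 := by nlinarith [sq_nonneg w.re, sq_nonneg w.im]
    have h2 : w.im = 0 := by nlinarith [sq_nonneg w.re, sq_nonneg w.im]
    exact hw (Complex.ext h1 h2)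
  have h6 := h p (interior_subset hp)
  have := mul_pos ht0' h5
  linarith

/-- Two polygons on opposite sides of an edge cover a neighbourhood of its inner points. -/
theorem cG6_two {P Q : Set ℂ} (hP : Convex ℝ P) (hQ : Convex ℝ Q) (hPi : (interior P).Nonempty)
    (hQi : (interior Q).Nonempty) {w a b x : ℂ} {c : ℝ} (hw : w ≠ 0) (hab : a ≠ b)
    (ha : dir w a = c) (hb : dir w b = c) (haP : a ∈ P) (hbP : b ∈ P) (haQ : a ∈ Q) (hbQ : b ∈ Q)
    (hPc : ∀ y ∈ P, dir w y ≤ c) (hQc : ∀ y ∈ Q, c ≤ dir w y) {t : ℝ} (ht0 : 0 < t) (ht1 : t < 1)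
    (hx : x = a + (t : ℂ) * (b - a)) : P ∪ Q ∈ 𝓝 x := by
  obtain ⟨p, hpP, hp⟩ := cG6_side hw hPi hPc
  have hneg : ∀ y, dir (-w) y = -dir w y := fun y => by simp [dir]; ring
  obtain ⟨q, hqQ, hq⟩ := cG6_side (c := -c) (neg_ne_zero.mpr hw) hQi
    (fun y hy => by rw [hneg]; linarith [hQc y hy])
  have h1 := cG6_half hP hw hab ha hb haP hbP hpP hp ht0 ht1 hx
  have h2 := cG6_half hQ (neg_ne_zero.mpr hw) hab (by rw [hneg, ha]) (by rw [hneg, hb]) haQ hbQ hqQ hq
    ht0 ht1 hx
  filter_upwards [h1, h2] with y h3 h4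
  rcases le_total (dir w y) c with h | h
  · exact Or.inl (h3 h)
  · exact Or.inr (h4 (by rw [hneg]; linarith))

/-- An open set meeting a set covered by finitely many closed sets. -/
theorem cG6_meet {ι : Type*} {S : Set ι} (hS : S.Finite) {P : ι → Set ℂ}
    (hc : ∀ i ∈ S, IsClosed (P i)) {W : Set ℂ} (hW : IsOpen W) (hne : W.Nonempty)
    (hcov : W ⊆ ⋃ i ∈ S, P i) : ∃ i ∈ S, (interior (P i) ∩ W).Nonempty := by
  induction S, hS using Set.Finite.induction_on generalizing W with
  | empty =>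
    obtain ⟨x, hx⟩ := hne
    have := hcov hx
    simp at this
  | @insert a S ha hS ih =>
    by_cases h : (W \ P a).Nonempty
    · obtain ⟨i, hi, h1⟩ := ih (fun i hi => hc i (mem_insert_of_mem a hi))
        (W := W \ P a) (hW.sdiff (hc a (mem_insert a S))) h (by
          rintro x ⟨hx, hxa⟩
          have := hcov hx
          rw [biUnion_insert] at this
          exact this.resolve_left hxa)
      exact ⟨i, mem_insert_of_mem a hi, h1.mono (inter_subset_inter_right _ sdiff_subset)⟩
    · have h1 : W ⊆ P a := by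
        intro x hx
        by_contra hxa
        exact h ⟨x, hx, hxa⟩
      obtain ⟨x, hx⟩ := hne
      exact ⟨a, mem_insert a S, x, interior_maximal h1 hW hx, hx⟩

section main

variable {V E F : Type} {M : PolyMap V E F} {φ : V → ℂ}

theorem cG6_closed (h : PreDrawing M.toInc φ) (f : F) : IsClosed (poly M.toInc φ f) :=
  (((h.face f).fin.image φ).isCompact_convexHull (𝕜 := ℝ)).isClosed

theorem cG6_convex (f : F) : Convex ℝ (poly M.toInc φ f) := convex_convexHull ℝ _

theorem cG6_closure (h : PreDrawing M.toInc φ) (f : F) :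
    poly M.toInc φ f ⊆ closure (interior (poly M.toInc φ f)) := by
  rw [(cG6_convex f).closure_interior_eq_closure_of_nonempty_interior (h.face f).int]
  exact subset_closure

/-- A face meeting, in a point, an open set covered by finitely many faces is one of them. -/
theorem cG6_mem (h : PreDrawing M.toInc φ) {S : Set F} (hS : S.Finite) {x : ℂ}
    (hx : (⋃ f ∈ S, poly M.toInc φ f) ∈ 𝓝 x) {g : F} (hg : x ∈ poly M.toInc φ g) : g ∈ S := by
  obtain ⟨U, hU, hUo, hxU⟩ := _root_.mem_nhds_iff.mp hx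
  have h1 : (U ∩ interior (poly M.toInc φ g)).Nonempty :=
    mem_closure_iff.mp (cG6_closure h g hg) U hUo hxU
  obtain ⟨i, hi, h2⟩ := cG6_meet hS (fun i _ => cG6_closed h i) (hUo.inter isOpen_interior) h1
    (inter_subset_left.trans hU)
  obtain ⟨y, hy1, -, hy2⟩ := h2
  by_contra hgS
  have hne : i ≠ g := fun e => hgS (e ▸ hi)
  exact Set.disjoint_left.mp (h.disj i g hne) hy1 hy2

/-- The segment of an edge. -/
theorem cG6_seg {e : E} {u v : V} (hu : ∀ w, M.ve w e ↔ (w = u ∨ w = v)) :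
    seg M.toInc φ e = segment ℝ (φ u) (φ v) := by
  have : {w | M.toInc.ve w e} = {u, v} := by
    ext w
    exact hu w
  rw [seg, this, image_pair, convexHull_pair]

theorem cG6_vmem {f : F} {v : V} (hv : M.toInc.vf v f) : φ v ∈ poly M.toInc φ f :=
  subset_convexHull ℝ _ ⟨v, hv, rfl⟩

/-- Case A. -/
theorem cG6_edge (h : PreDrawing M.toInc φ) {e : E} {u v : V} (huv : u ≠ v)
    (hu : ∀ w, M.ve w e ↔ (w = u ∨ w = v)) {x : ℂ} (hx : x ∈ seg M.toInc φ e) (hxu : x ≠ φ u)
    (hxv : x ≠ φ v) : (⋃ f ∈ {f | M.ef e f}, poly M.toInc φ f) ∈ 𝓝 x := by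
  obtain ⟨f, g, hfg, hf⟩ := M.edge_faces e
  have hef : M.ef e f := (hf f).mpr (Or.inl rfl)
  have heg : M.ef e g := (hf g).mpr (Or.inr rfl)
  obtain ⟨w, c, hw, h1, h2, h3⟩ := h.opp e f g hfg hef heg
  have hue : M.ve u e := (hu u).mpr (Or.inl rfl)
  have hve : M.ve v e := (hu v).mpr (Or.inr rfl)
  have hne : φ u ≠ φ v := (h.face f).ne e u v hef hue hve huv
  rw [cG6_seg hu, segment_eq_image'] at hx
  obtain ⟨t, ⟨ht0, ht1⟩, rfl⟩ := hx
  have ht0' : 0 < t := by
    rcases ht0.lt_or_eq with h' | h'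
    · exact h'
    · exact absurd (by simp [← h']) hxu
  have ht1' : t < 1 := by
    rcases ht1.lt_or_eq with h' | h'
    · exact h'
    · exact absurd (by simp [h']) hxv
  have hPc : ∀ y ∈ poly M.toInc φ f, dir w y ≤ c := by
    intro y hy
    have : poly M.toInc φ f ⊆ {y | dir w y ≤ c} :=
      convexHull_min (by rintro _ ⟨v, hv, rfl⟩; exact h2 v hv)
        (convex_halfSpace_le (cG6_dir_lin w) c)
    exact this hy
  have hQc : ∀ y ∈ poly M.toInc φ g, c ≤ dir w y := by
    intro y hy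
    have : poly M.toInc φ g ⊆ {y | c ≤ dir w y} :=
      convexHull_min (by rintro _ ⟨v, hv, rfl⟩; exact h3 v hv)
        (convex_halfSpace_ge (cG6_dir_lin w) c)
    exact this hy
  have h4 := cG6_two (cG6_convex (M := M) (φ := φ) f) (cG6_convex g) (h.face f).int (h.face g).int hw
    hne (h1 u hue) (h1 v hve) (cG6_vmem ⟨e, hue, hef⟩) (cG6_vmem ⟨e, hve, hef⟩)
    (cG6_vmem ⟨e, hue, heg⟩) (cG6_vmem ⟨e, hve, heg⟩) hPc hQc ht0' ht1'
    (x := φ u + t • (φ v - φ u)) (by rw [Complex.real_smul])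
  refine mem_of_superset h4 ?_
  rintro y (hy | hy)
  · exact mem_biUnion (show f ∈ {f | M.ef e f} from hef) hy
  · exact mem_biUnion (show g ∈ {f | M.ef e f} from heg) hy

theorem cG6_edge_faces_fin (e : E) : {f | M.ef e f}.Finite := by
  obtain ⟨f, g, -, hf⟩ := M.edge_faces e
  apply (Set.toFinite {f, g}).subset
  intro h hh
  exact (hf h).mp hh

theorem cG6_vert_faces_fin (v : V) : {f | M.toInc.vf v f}.Finite := by
  have : {f | M.toInc.vf v f} = ⋃ e ∈ {e | M.ve v e}, {f | M.ef e f} := by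
    ext f
    simp [Inc.vf]
  rw [this]
  exact (M.vert_fin v).biUnion fun e _ => cG6_edge_faces_fin e

/-- A vertex of a face is not on the other edges of the face. -/
theorem cG6_notseg (h : PreDrawing M.toInc φ) {f : F} {v : V} (hv : M.toInc.vf v f) {e : E}
    (he : M.ef e f) (hve : ¬ M.ve v e) : φ v ∉ seg M.toInc φ e := by
  intro hz
  obtain ⟨d, hvd, hdf⟩ := hv
  have hde : d ≠ e := fun h' => hve (h' ▸ hvd)
  have h1 : φ v ∈ seg M.toInc φ d := subset_convexHull ℝ _ ⟨v, hvd, rfl⟩
  obtain ⟨w, ⟨hwd, hwe⟩, hw⟩ := (h.face f).seg_inter d e hdf he hde ⟨h1, hz⟩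
  have hwv : w ≠ v := fun h' => hve (h' ▸ hwe)
  exact (h.face f).ne d w v hdf hwd hvd hwv hw

/-- Case B: star covering. -/
theorem cG6_star (h : PreDrawing M.toInc φ) (v : V) :
    (⋃ f ∈ {f | M.toInc.vf v f}, poly M.toInc φ f) ∈ 𝓝 (φ v) := by
  set K := ⋃ f ∈ {f | M.toInc.vf v f}, poly M.toInc φ f with hKdef
  have hfin := cG6_vert_faces_fin (M := M) v
  have hKc : IsClosed K := hfin.isClosed_biUnion fun f _ => cG6_closed h f
  -- a face at `v`
  obtain ⟨e₀, he₀⟩ : {e | M.ve v e}.Nonempty := by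
    rw [← Set.ncard_pos (M.vert_fin v)]
    have := M.vert_card v
    omega
  obtain ⟨f₀, g₀, -, hf₀⟩ := M.edge_faces e₀
  have hvf₀ : M.toInc.vf v f₀ := ⟨e₀, he₀, (hf₀ f₀).mpr (Or.inl rfl)⟩
  -- the bad sets
  have hbad : ∀ f ∈ {f | M.toInc.vf v f}, ∀ e ∈ {e | M.ef e f ∧ ¬ M.ve v e},
      (seg M.toInc φ e)ᶜ ∈ 𝓝 (φ v) := by
    rintro f hf e ⟨he, hve⟩
    obtain ⟨a, b, -, hab⟩ := M.edge_verts e
    have hc : IsClosed (seg M.toInc φ e) := by
      rw [cG6_seg hab, ← convexHull_pair]
      exact ((Set.toFinite {φ a, φ b}).isCompact_convexHull (𝕜 := ℝ)).isClosed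
    exact hc.isOpen_compl.mem_nhds (cG6_notseg h hf he hve)
  have hbad2 : ∀ᶠ y in 𝓝 (φ v), ∀ f ∈ {f | M.toInc.vf v f}, ∀ e ∈ {e | M.ef e f ∧ ¬ M.ve v e},
      y ∉ seg M.toInc φ e := by
    rw [Filter.eventually_all_finite hfin]
    intro f hf
    rw [Filter.eventually_all_finite ((M.face_fin f).subset fun e he => he.1)]
    intro e he
    exact hbad f hf e he
  have hend : ∀ᶠ y in 𝓝 (φ v), ∀ e ∈ {e | M.ve v e}, ∀ u, M.ve u e → u ≠ v → y ≠ φ u := by
    rw [Filter.eventually_all_finite (M.vert_fin v)]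
    intro e he
    obtain ⟨a, b, hne, hab⟩ := M.edge_verts e
    obtain ⟨f, g, -, hf⟩ := M.edge_faces e
    have hef : M.ef e f := (hf f).mpr (Or.inl rfl)
    have hS : {u | M.ve u e ∧ u ≠ v}.Finite := by
      apply (Set.toFinite {a, b}).subset
      rintro u ⟨hu, -⟩
      exact (hab u).mp hu
    have : ∀ᶠ y in 𝓝 (φ v), ∀ u ∈ {u | M.ve u e ∧ u ≠ v}, y ≠ φ u := by
      rw [Filter.eventually_all_finite hS]
      rintro u ⟨hu, huv⟩
      exact isOpen_ne.mem_nhds ((h.face f).ne e v u hef he hu huv.symm)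
    filter_upwards [this] with y hy u hu huv
    exact hy u ⟨hu, huv⟩
  obtain ⟨r, hr, hball⟩ := Metric.eventually_nhds_iff_ball.mp (hbad2.and hend)
  -- `K` is a neighbourhood of its points in the punctured disc
  have hopen : ∀ x ∈ ball (φ v) r \ {φ v}, x ∈ K → K ∈ 𝓝 x := by
    rintro x ⟨hxb, hxv⟩ hxK
    obtain ⟨f, hf, hxf⟩ := mem_iUnion₂.mp hxK
    obtain ⟨hb1, hb2⟩ := hball x hxb
    by_cases hint : x ∈ interior (poly M.toInc φ f)
    · refine mem_of_superset (isOpen_interior.mem_nhds hint) ?_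
      exact interior_subset.trans (subset_biUnion_of_mem (u := fun f => poly M.toInc φ f) hf)
    · have hfr : x ∈ frontier (poly M.toInc φ f) := ⟨subset_closure hxf, hint⟩
      rw [(h.face f).bdry] at hfr
      obtain ⟨e, he, hxe⟩ := mem_iUnion₂.mp hfr
      have hve : M.ve v e := by
        by_contra hve
        exact hb1 f hf e ⟨he, hve⟩ hxe
      obtain ⟨a, b, hne, hab⟩ := M.edge_verts e
      have hxa : ∀ u, M.ve u e → x ≠ φ u := by
        intro u hu
        by_cases huv : u = v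
        · rw [huv]; exact hxv
        · exact hb2 e hve u hu huv
      refine mem_of_superset (cG6_edge h hne hab hxe (hxa a ((hab a).mpr (Or.inl rfl)))
        (hxa b ((hab b).mpr (Or.inr rfl)))) ?_
      apply biUnion_subset_biUnion_left
      intro g hg
      exact ⟨e, hve, hg⟩
  -- connectedness
  have hcov : ball (φ v) r \ {φ v} ⊆ K := by
    have hpre := cG6_punct (φ v) hr
    have hsub : ball (φ v) r \ {φ v} ⊆ interior K ∪ Kᶜ := by
      intro x hx
      by_cases hxK : x ∈ K
      · exact Or.inl (mem_interior_iff_mem_nhds.mpr (hopen x hx hxK))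
      · exact Or.inr hxK
    have hne1 : ((ball (φ v) r \ {φ v}) ∩ interior K).Nonempty := by
      have h1 : φ v ∈ closure (interior (poly M.toInc φ f₀)) := cG6_closure h f₀ (cG6_vmem hvf₀)
      have h2 : (ball (φ v) r ∩ interior (poly M.toInc φ f₀)).Nonempty :=
        mem_closure_iff.mp h1 _ isOpen_ball (mem_ball_self hr)
      have h3 : (ball (φ v) r ∩ interior (poly M.toInc φ f₀) ∩ {φ v}ᶜ).Nonempty := by
        have ho : IsOpen (ball (φ v) r ∩ interior (poly M.toInc φ f₀)) :=
          isOpen_ball.inter isOpen_interior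
        obtain ⟨y, hy⟩ := h2
        by_cases hyv : y = φ v
        · have hacc : (𝓝[≠] y).NeBot := inferInstance
          have h4 : ∀ᶠ z in 𝓝[≠] y, z ∈ ball (φ v) r ∩ interior (poly M.toInc φ f₀) :=
            (ho.mem_nhds hy |> fun h => nhdsWithin_le_nhds h)
          obtain ⟨z, hz, hz'⟩ := (h4.and self_mem_nhdsWithin).exists
          exact ⟨z, hz, by rw [← hyv]; exact hz'⟩
        · exact ⟨y, hy, hyv⟩
      obtain ⟨y, ⟨hyb, hyi⟩, hyv⟩ := h3
      refine ⟨y, ⟨hyb, hyv⟩, ?_⟩
      exact interior_mono (subset_biUnion_of_mem (u := fun f => poly M.toInc φ f) hvf₀) hyi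
    intro x hx
    by_contra hxK
    obtain ⟨y, -, hy1, hy2⟩ := hpre _ _ isOpen_interior hKc.isOpen_compl hsub hne1 ⟨x, hx, hxK⟩
    exact hy2 (interior_subset hy1)
  refine mem_of_superset (ball_mem_nhds (φ v) hr) ?_
  intro x hx
  by_cases hxv : x = φ v
  · rw [hxv]
    exact mem_biUnion (show f₀ ∈ {f | M.toInc.vf v f} from hvf₀) (cG6_vmem hvf₀)
  · exact hcov ⟨hx, hxv⟩

end main

/-- G6: a predrawing is a drawing. -/
theorem cG6 : Stmt_PreInter := by
  intro V E F M φ h
  refine ⟨?_, fun f => (h.face f).int, fun f => (h.face f).bdry,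
    fun f e d => (h.face f).seg_inter e d, h.cover, h.locfin, h.disj, ?_⟩
  · intro e u v hu hv huv
    obtain ⟨f, g, -, hf⟩ := M.edge_faces e
    exact (h.face f).ne e u v ((hf f).mpr (Or.inl rfl)) hu hv huv
  · rintro f g hfg x ⟨hxf, hxg⟩
    have hfr : x ∈ frontier (poly M.toInc φ f) := by
      refine ⟨subset_closure hxf, fun hint => ?_⟩
      have h1 := mem_closure_iff.mp (cG6_closure h g hxg) _ isOpen_interior hint
      obtain ⟨y, hy1, hy2⟩ := h1
      exact Set.disjoint_left.mp (h.disj f g hfg) hy1 hy2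
    rw [(h.face f).bdry] at hfr
    obtain ⟨e, he, hxe⟩ := mem_iUnion₂.mp hfr
    have he' : M.ef e f := he
    obtain ⟨a, b, hne, hab⟩ := M.edge_verts e
    have hvert : ∀ u, M.ve u e → x = φ u →
        x ∈ (⋃ e ∈ {e | M.ef e f ∧ M.ef e g}, seg M.toInc φ e) ∪
          φ '' {v | M.toInc.vf v f ∧ M.toInc.vf v g} := by
      intro u hu hxu
      right
      have hg : g ∈ {f | M.toInc.vf u f} :=
        cG6_mem h (cG6_vert_faces_fin u) (cG6_star h u) (by rw [← hxu]; exact hxg)
      exact ⟨u, ⟨⟨e, hu, he'⟩, hg⟩, hxu.symm⟩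
    by_cases hxa : x = φ a
    · exact hvert a ((hab a).mpr (Or.inl rfl)) hxa
    by_cases hxb : x = φ b
    · exact hvert b ((hab b).mpr (Or.inr rfl)) hxb
    left
    have hg : g ∈ {f | M.ef e f} :=
      cG6_mem h (cG6_edge_faces_fin e) (cG6_edge h hne hab hxe hxa hxb) hxg
    exact mem_biUnion (show e ∈ {e | M.ef e f ∧ M.ef e g} from ⟨he', hg⟩) hxe

end Pool.Agent.CT
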