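import Pool.Agent.CT.DDefs

set_option autoImplicit false

namespace Pool.Agent.CT

open Set Filter Topology

/-- The explicit affine coordinate with respect to a triangle. -/
noncomputable def cD16_nrm (a b c z : ℂ) : ℂ :=
  ⟨cross a z c / cross a b c, cross a b z / cross a b c⟩

theorem cD16_affine (h : Stmt_Affine) (a b c : ℂ) (habc : cross a b c ≠ 0) :
    ∃ A : ℂ ≃ᵃ[ℝ] ℂ, (∀ z, A z = cD16_nrm a b c z) ∧ A a = 0 ∧ A b = 1 ∧ A c = Complex.I := by
  obtain ⟨h1, h2, -, -⟩ := h
  have h01 : cross 0 1 Complex.I = 1 := by simp [cross]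
  obtain ⟨A, ha, hb, hc⟩ := h2 a b c 0 1 Complex.I habc (by rw [h01]; exact one_ne_zero)
  obtain ⟨d, hd, hA⟩ := h1 A
  have hdc : d * cross a b c = 1 := by
    rw [← hA a b c, ha, hb, hc, h01]
  have hdd : d = 1 / cross a b c := by field_simp; linarith
  refine ⟨A, fun z => ?_, ha, hb, hc⟩
  have e1 := hA a z c
  have e2 := hA a b z
  rw [ha, hc] at e1
  rw [ha, hb] at e2
  have e1' : (A z).re = d * cross a z c := by
    rw [← e1]; simp [cross]
  have e2' : (A z).im = d * cross a b z := by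
    rw [← e2]; simp [cross]
  apply Complex.ext
  · rw [e1', hdd]; simp [cD16_nrm]; ring
  · rw [e2', hdd]; simp [cD16_nrm]; ring

theorem cD16_cross_cont {X : Type*} [TopologicalSpace X] {f g k : X → ℂ}
    (hf : Continuous f) (hg : Continuous g) (hk : Continuous k) :
    Continuous fun x => cross (f x) (g x) (k x) := by
  unfold cross
  have := Complex.continuous_re.comp hf
  have := Complex.continuous_re.comp hg
  have := Complex.continuous_re.comp hk
  have := Complex.continuous_im.comp hf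
  have := Complex.continuous_im.comp hg
  have := Complex.continuous_im.comp hk
  fun_prop

/-- The normaliser of a configuration. -/
noncomputable def cD16_norm {Q : Type} (t : Fin 3 → Q) (P : Q → ℂ) : Q → ℂ :=
  fun q => cD16_nrm (P (t 0)) (P (t 1)) (P (t 2)) (P q)

theorem cD16_norm_cont {Q : Type} (t : Fin 3 → Q) :
    ContinuousOn (cD16_norm t) {P : Q → ℂ | cross (P (t 0)) (P (t 1)) (P (t 2)) ≠ 0} := by
  unfold cD16_norm cD16_nrm
  refine continuousOn_pi.2 fun q => ?_
  have h0 : Continuous fun P : Q → ℂ => cross (P (t 0)) (P (t 1)) (P (t 2)) :=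
    cD16_cross_cont (continuous_apply _) (continuous_apply _) (continuous_apply _)
  have h1 : Continuous fun P : Q → ℂ => cross (P (t 0)) (P q) (P (t 2)) :=
    cD16_cross_cont (continuous_apply _) (continuous_apply _) (continuous_apply _)
  have h2 : Continuous fun P : Q → ℂ => cross (P (t 0)) (P (t 1)) (P q) :=
    cD16_cross_cont (continuous_apply _) (continuous_apply _) (continuous_apply _)
  have key : ContinuousOn (fun P : Q → ℂ =>
      ((cross (P (t 0)) (P q) (P (t 2)) / cross (P (t 0)) (P (t 1)) (P (t 2)) : ℝ) : ℂ) +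
      ((cross (P (t 0)) (P (t 1)) (P q) / cross (P (t 0)) (P (t 1)) (P (t 2)) : ℝ) : ℂ) *
        Complex.I) {P : Q → ℂ | cross (P (t 0)) (P (t 1)) (P (t 2)) ≠ 0} := by
    refine ContinuousOn.add ?_ (ContinuousOn.mul ?_ continuousOn_const)
    · exact Complex.continuous_ofReal.comp_continuousOn
        (h1.continuousOn.div h0.continuousOn fun P hP => hP)
    · exact Complex.continuous_ofReal.comp_continuousOn
        (h2.continuousOn.div h0.continuousOn fun P hP => hP)
  refine key.congr fun P _ => ?_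
  apply Complex.ext <;> simp

theorem cD16 (h : Stmt_Affine) : Stmt_InvLim := by
  intro Q _ X Φ t hne hΦ hcont hΦA hXA hcr hY
  classical
  choose Y hYX hΦY hYA hK using hY
  -- normalised compact sets
  set C : ∀ i, Set (Q i → ℂ) := fun i =>
    Y i ∩ {P | P (t i 0) = 0 ∧ P (t i 1) = 1 ∧ P (t i 2) = Complex.I} with hC
  have hCX : ∀ i, C i ⊆ X i := fun i P hP => hYX i hP.1
  -- normalising a configuration of `Y i`
  have hnorm : ∀ i, ∀ P ∈ X i, ∃ A : ℂ ≃ᵃ[ℝ] ℂ, (∀ q, A (P q) = cD16_norm (t i) P q) ∧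
      A (P (t i 0)) = 0 ∧ A (P (t i 1)) = 1 ∧ A (P (t i 2)) = Complex.I := by
    intro i P hP
    obtain ⟨A, hA, h0, h1, h2⟩ := cD16_affine h _ _ _ (hcr i P hP)
    exact ⟨A, fun q => hA (P q), h0, h1, h2⟩
  have hnormC : ∀ i, ∀ P ∈ Y i, cD16_norm (t i) P ∈ C i := by
    intro i P hP
    obtain ⟨A, hA, h0, h1, h2⟩ := hnorm i P (hYX i hP)
    have e : (fun q => A (P q)) = cD16_norm (t i) P := funext hA
    refine ⟨?_, ?_⟩
    · rw [← e]; exact hYA i P A hP
    · rw [← e]; exact ⟨h0, h1, h2⟩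
  have hΨ : ∀ i, ∀ P ∈ C (i + 1), cD16_norm (t i) (Φ i P) ∈ C i := fun i P hP =>
    hnormC i _ (hΦY i P (hCX (i + 1) hP))
  have hΨc : ∀ i, ContinuousOn (fun P => cD16_norm (t i) (Φ i P)) (C (i + 1)) := by
    intro i
    refine (cD16_norm_cont (t i)).comp (hcont i).continuousOn ?_
    intro P hP
    exact hcr i _ (hYX i (hΦY i P (hCX (i + 1) hP)))
  have hCne : ∀ i, (C i).Nonempty := by
    intro i
    obtain ⟨P, hP⟩ := hne (i + 1)
    exact ⟨_, hnormC i _ (hΦY i P hP)⟩
  -- the product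
  set K : Set (∀ i, Q i → ℂ) := Set.pi univ C with hKdef
  have hKc : IsCompact K := isCompact_univ_pi hK
  have hCcl : ∀ i, IsClosed (C i) := fun i => (hK i).isClosed
  set Z : ℕ → Set (∀ i, Q i → ℂ) := fun n =>
    {p | p ∈ K ∧ ∀ i < n, cD16_norm (t i) (Φ i (p (i + 1))) = p i} with hZ
  have hZcl : ∀ n, IsClosed (Z n) := by
    intro n
    have hone : ∀ i, IsClosed {p | p ∈ K ∧ cD16_norm (t i) (Φ i (p (i + 1))) = p i} := by
      intro i
      have hco : ContinuousOn (fun p : ∀ i, Q i → ℂ => cD16_norm (t i) (Φ i (p (i + 1)))) K := by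
        refine (hΨc i).comp (continuous_apply (i + 1)).continuousOn ?_
        intro p hp
        exact hp (i + 1) (mem_univ _)
      have hcl : IsClosed K := hKc.isClosed
      have := (hco.prodMk (continuous_apply i).continuousOn).preimage_isClosed_of_isClosed hcl
        (isClosed_diagonal)
      exact this
    have : Z n = K ∩ ⋂ i, ⋂ (_ : i < n), {p | p ∈ K ∧ cD16_norm (t i) (Φ i (p (i + 1))) = p i} := by
      ext p
      simp only [hZ, mem_ofPred_eq, mem_inter_iff, mem_iInter]
      constructor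
      · rintro ⟨h1, h2⟩
        exact ⟨h1, fun i hi => ⟨h1, h2 i hi⟩⟩
      · rintro ⟨h1, h2⟩
        exact ⟨h1, fun i hi => (h2 i hi).2⟩
    rw [this]
    exact hKc.isClosed.inter (isClosed_iInter fun i => isClosed_iInter fun _ => hone i)
  have hZne : ∀ n, (Z n).Nonempty := by
    intro n
    choose c hc using hCne
    -- build downwards
    have key : ∀ n, ∀ p₀ : ∀ i, Q i → ℂ, p₀ ∈ K → ∃ p ∈ K, (∀ i, n ≤ i → p i = p₀ i) ∧
        ∀ i < n, cD16_norm (t i) (Φ i (p (i + 1))) = p i := by
      intro n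
      induction n with
      | zero => intro p₀ hp₀; exact ⟨p₀, hp₀, fun _ _ => rfl, fun i hi => absurd hi (Nat.not_lt_zero i)⟩
      | succ n ih =>
        intro p₀ hp₀
        obtain ⟨p, hp, h1, h2⟩ := ih (Function.update p₀ n (cD16_norm (t n) (Φ n (p₀ (n + 1))))) (by
          intro i _
          by_cases hi : i = n
          · subst hi
            rw [Function.update_self]
            exact hΨ i _ (hp₀ (i + 1) (mem_univ _))
          · rw [Function.update_of_ne hi]
            exact hp₀ i (mem_univ _))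
        refine ⟨p, hp, ?_, ?_⟩
        · intro i hi
          rw [h1 i (by omega), Function.update_of_ne (by omega)]
        · intro i hi
          by_cases hin : i = n
          · subst hin
            rw [h1 (i + 1) (by omega), Function.update_of_ne (by omega), h1 i le_rfl,
              Function.update_self]
          · exact h2 i (by omega)
    obtain ⟨p, hp, -, h2⟩ := key n c (fun i _ => hc i)
    exact ⟨p, hp, h2⟩
  have hZdec : ∀ n, Z (n + 1) ⊆ Z n := fun n p hp => ⟨hp.1, fun i hi => hp.2 i (by omega)⟩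
  have hZcompact : IsCompact (Z 0) := hKc.of_isClosed_subset (hZcl 0) fun p hp => hp.1
  obtain ⟨p, hp⟩ := IsCompact.nonempty_iInter_of_sequence_nonempty_isCompact_isClosed Z hZdec
    hZne hZcompact hZcl
  have hpC : ∀ i, p i ∈ C i := fun i => (mem_iInter.1 hp 0).1 i (mem_univ _)
  have hpΨ : ∀ i, cD16_norm (t i) (Φ i (p (i + 1))) = p i := fun i =>
    (mem_iInter.1 hp (i + 1)).2 i (by omega)
  -- undo the normalisations
  have hA : ∀ i, ∃ A : ℂ ≃ᵃ[ℝ] ℂ, ∀ q, A (Φ i (p (i + 1)) q) = p i q := by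
    intro i
    obtain ⟨A, hA, -⟩ := hnorm i (Φ i (p (i + 1))) (hYX i (hΦY i _ (hCX (i + 1) (hpC (i + 1)))))
    exact ⟨A, fun q => by rw [hA q, hpΨ i]⟩
  choose A hA using hA
  let B : ℕ → (ℂ ≃ᵃ[ℝ] ℂ) := fun n => Nat.rec (AffineEquiv.refl ℝ ℂ) (fun n B => (A n).trans B) n
  have hB : ∀ n z, B (n + 1) z = B n (A n z) := fun n z => rfl
  refine ⟨fun i q => B i (p i q), fun i => hXA i (p i) (B i) (hCX i (hpC i)), fun i => ?_⟩
  have e := hΦA i (p (i + 1)) (B (i + 1))
  rw [e]
  funext q
  rw [hB, hA]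

end Pool.Agent.CT
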