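import Pool.Agent.CT.DDefs

set_option autoImplicit false

/-! # D18: the levels -/

namespace Pool.Agent.CT

open Set Metric

section basic

variable {V E F : Type}

theorem cD18_vadj_fin (M : PolyMap V E F) (v : V) : {u | M.vadj.Adj v u}.Finite := by
  have h1 : (⋃ e ∈ {e | M.ve v e}, {u | M.ve u e}).Finite := by
    refine (M.vert_fin v).biUnion ?_
    intro e _
    obtain ⟨a, b, _, hw⟩ := M.edge_verts e
    refine (Set.toFinite ({a, b} : Set V)).subset ?_
    intro u hu
    exact (hw u).1 hu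
  refine h1.subset ?_
  rintro u ⟨_, e, he, he'⟩
  exact mem_biUnion (show e ∈ {e | M.ve v e} from he) he'

theorem cD18_fin (M : PolyMap V E F) (D : Set F) (c : V → V → ℝ) (v : V) :
    {u | discWt M.toInc D c v u ≠ 0}.Finite := by
  refine (cD18_vadj_fin M v).subset ?_
  intro u hu
  have hu : discWt M.toInc D c v u ≠ 0 := hu
  simp only [discWt] at hu
  split_ifs at hu with h1 h2 h3
  · exact h2
  · exact absurd rfl hu
  · obtain ⟨h, e, _, h4, h5⟩ := h3
    exact ⟨h, e, h4, h5⟩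
  · exact absurd rfl hu

theorem cD18_touch (M : PolyMap V E F) (D : Set F) (c : V → V → ℝ) (v u : V)
    (hu : discWt M.toInc D c v u ≠ 0) : Touch M.toInc D u := by
  simp only [discWt] at hu
  split_ifs at hu with h1 h2 h3
  · obtain ⟨_, e, he, he'⟩ := h2
    obtain ⟨f, g, _, hf⟩ := M.edge_faces e
    have hef : M.ef e f := (hf f).2 (Or.inl rfl)
    have hfD : f ∈ D := by
      by_contra hc
      exact h1.2 ⟨f, hc, e, he, hef⟩
    exact ⟨f, hfD, e, he', hef⟩
  · exact absurd rfl hu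
  · obtain ⟨_, e, he, _, h5⟩ := h3
    obtain ⟨⟨f, hf, hef⟩, _⟩ := he
    exact ⟨f, hf, e, h5, hef⟩
  · exact absurd rfl hu

theorem cD18_congr (h2 : Stmt_DiscExt) (M : PlaneMap V E F) (D : Set F)
    (hD : TightDisc M.toInc D) (c : V → V → ℝ) (hc : PosWt M.toInc c) (P P' φ φ' : V → ℂ)
    (hφ : DiscExt M.toInc D c P φ) (hφ' : DiscExt M.toInc D c P' φ')
    (hP : ∀ v, Corner M.toInc D v → P v = P' v) : ∀ v, Touch M.toInc D v → φ v = φ' v := by
  classical
  obtain ⟨φ₀, _, huniq⟩ := h2 V E F M D hD c hc P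
  have e1 := huniq φ hφ
  have e2 : (fun v => if Touch M.toInc D v then φ' v else P v) = φ₀ := by
    apply huniq
    constructor
    · intro v hv
      by_cases ht : Touch M.toInc D v
      · have hcor : Corner M.toInc D v := by
          by_contra hcon
          exact hv ⟨ht, hcon⟩
        simp only [ht, if_true]
        rw [hφ'.1 v hv, hP v hcor]
      · simp only [ht, if_false]
    · intro v hv
      have h := hφ'.2 v hv
      unfold Harm at h ⊢
      rw [← h]
      apply finsum_congr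
      intro u
      by_cases hu : discWt M.toInc D c v u = 0
      · rw [hu, zero_smul, zero_smul]
      · have ht := cD18_touch M.toPolyMap D c v u hu
        have hv' := hv.1
        simp only [ht, hv', if_true]
  intro v hv
  have := congrFun (e1.trans e2.symm) v
  simpa only [hv, if_true] using this

theorem cD18_affine (M : Inc V E F) (D : Set F) (c : V → V → ℝ) (P φ : V → ℂ)
    (hφ : DiscExt M D c P φ) (A : ℂ ≃ᵃ[ℝ] ℂ) :
    DiscExt M D c (fun v => A (P v)) (fun v => A (φ v)) := by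
  constructor
  · intro v hv
    show A (φ v) = A (P v)
    rw [hφ.1 v hv]
  · intro v hv
    have h := hφ.2 v hv
    unfold Harm at h ⊢
    have h1 : ∀ u, discWt M D c v u • (A (φ u) - A (φ v)) =
        A.linear.toAddEquiv (discWt M D c v u • (φ u - φ v)) := by
      intro u
      show _ = A.linear (discWt M D c v u • (φ u - φ v))
      rw [map_smul]
      congr 1
      have := A.toAffineMap.linearMap_vsub (φ u) (φ v)
      simpa using this.symm
    simp only [h1]
    rw [← AddEquiv.map_finsum, h]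
    exact map_zero _

theorem cD18_add (M : PolyMap V E F) (D : Set F) (c : V → V → ℝ) (P φ P' φ' : V → ℂ)
    (hφ : DiscExt M.toInc D c P φ) (hφ' : DiscExt M.toInc D c P' φ') :
    DiscExt M.toInc D c (fun v => P v + P' v) (fun v => φ v + φ' v) := by
  constructor
  · intro v hv
    show φ v + φ' v = P v + P' v
    rw [hφ.1 v hv, hφ'.1 v hv]
  · intro v hv
    have h := hφ.2 v hv
    have h' := hφ'.2 v hv
    unfold Harm at h h' ⊢
    have h1 : ∀ u, discWt M.toInc D c v u • (φ u + φ' u - (φ v + φ' v)) =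
        discWt M.toInc D c v u • (φ u - φ v) + discWt M.toInc D c v u • (φ' u - φ' v) := by
      intro u
      rw [← smul_add]
      congr 1
      ring
    simp only [h1]
    have hf : ∀ ψ : V → ℂ, (Function.support fun u => discWt M.toInc D c v u • (ψ u - ψ v)).Finite := by
      intro ψ
      refine (cD18_fin M D c v).subset ?_
      intro u hu
      simp only [Function.mem_support] at hu
      intro h0
      exact hu (by rw [h0, zero_smul])
    rw [finsum_add_distrib (hf φ) (hf φ'), h, h', add_zero]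

theorem cD18_smul (M : Inc V E F) (D : Set F) (c : V → V → ℝ) (P φ : V → ℂ)
    (hφ : DiscExt M D c P φ) (r : ℝ) :
    DiscExt M D c (fun v => r • P v) (fun v => r • φ v) := by
  constructor
  · intro v hv
    show r • φ v = r • P v
    rw [hφ.1 v hv]
  · intro v hv
    have h := hφ.2 v hv
    unfold Harm at h ⊢
    have h1 : ∀ u, discWt M D c v u • (r • φ u - r • φ v) =
        r • (discWt M D c v u • (φ u - φ v)) := by
      intro u
      rw [← smul_sub, smul_comm]
    simp only [h1]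
    rw [← smul_finsum, h, smul_zero]

open Classical in
/-- Extension by `0` of a function on the corners. -/
noncomputable def cD18_ext (M : Inc V E F) (D : Set F) (P : {v // Corner M D v} → ℂ) (v : V) : ℂ :=
  if h : Corner M D v then P ⟨v, h⟩ else 0

theorem cD18_ext_of (M : Inc V E F) (D : Set F) (P : {v // Corner M D v} → ℂ) {v : V}
    (h : Corner M D v) : cD18_ext M D P v = P ⟨v, h⟩ := by
  unfold cD18_ext
  rw [dif_pos h]

theorem cD18_ext_not (M : Inc V E F) (D : Set F) (P : {v // Corner M D v} → ℂ) {v : V}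
    (h : ¬ Corner M D v) : cD18_ext M D P v = 0 := by
  unfold cD18_ext
  rw [dif_neg h]

/-- Strict convexity is preserved by affine maps. -/
theorem cD18_strict_affine (h8 : Stmt_Affine) (A : ℂ ≃ᵃ[ℝ] ℂ) (n : ℕ) (z : ℤ → ℂ)
    (hz : StrictPoly n z) : StrictPoly n (fun i => A (z i)) := by
  obtain ⟨d, hd, hA⟩ := h8.1 A
  obtain ⟨h3, hper, σ, hσ, hc⟩ := hz
  refine ⟨h3, fun i => by rw [hper i], ?_⟩
  rcases lt_or_gt_of_ne hd with hneg | hpos
  · refine ⟨-σ, by rcases hσ with h | h <;> simp [h], ?_⟩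
    intro i j h1 h2
    rw [hA]
    have := hc i j h1 h2
    nlinarith [mul_pos_of_neg_of_neg (neg_neg_of_pos this) hneg]
  · refine ⟨σ, hσ, ?_⟩
    intro i j h1 h2
    rw [hA]
    have := hc i j h1 h2
    nlinarith [mul_pos this hpos]

end basic

section ring

variable {V E F : Type}

theorem cD18_posWt (M : Inc V E F) (f₀ : F) {ε : ℝ} (hε : 0 < ε) : PosWt M (epsWt M f₀ ε) := by
  intro u v _
  unfold epsWt
  split_ifs
  · exact one_pos
  · exact hε

theorem cD18_convCongr (M : Inc V E F) (D : Set F) (h5 : ∀ v, Corner M D v ↔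
    ∃ v' : CV M D, v'.1 = v ∧ (coarse M D).vf v' none) (P P' : V → ℂ)
    (h : ∀ v, Corner M D v → P v = P' v) (hP : ConvPos M D P) : ConvPos M D P' := by
  intro n x y hxy
  have h1 := hP n x y hxy
  have h2 : (fun i => P (x i).1) = fun i => P' (x i).1 := by
    funext i
    apply h
    rw [h5]
    refine ⟨x i, rfl, y i, ?_, ?_⟩
    · exact (hxy.curve.ve i _).2 (Or.inl rfl)
    · exact (hxy.curve.mem (y i)).2 ⟨i, rfl⟩
  rw [← h2]
  exact h1

theorem cD18_ring (h2 : Stmt_DiscExt) (h3 : Stmt_DiscBlock) (h4 : Stmt_NonDeg)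
    (h5 : Stmt_Recoarse) (h6 : Stmt_Aut) (h7 : Stmt_Coarse) (M : PlaneMap V E F) (D D' : Set F)
    (hD : TightDisc M.toInc D) (hD' : TightDisc M.toInc D') (hN : Nest M.toInc D D') (ε : ℝ)
    (hε : 0 < ε) :
    ∃ (Φ : ({v // Corner M.toInc D' v} → ℂ) → ({v // Corner M.toInc D v} → ℂ))
      (sol : ({v // Corner M.toInc D' v} → ℂ) → CV M.toInc D → ℂ),
      Continuous Φ ∧
      (∀ P, RingExt M.toInc D D' ε (cD18_ext M.toInc D' P) (sol P)) ∧
      (∀ P (v : CV M.toInc D) (hv : Corner M.toInc D v.1), sol P v = Φ P ⟨v.1, hv⟩) ∧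
      (∀ P (A : ℂ ≃ᵃ[ℝ] ℂ), Φ (fun q => A (P q)) = fun q => A (Φ P q)) ∧
      (∀ (a : V ≃ V) (b : E ≃ E) (d : F ≃ F), IsAut M.toInc a b d → (∀ f, d f ∈ D ↔ f ∈ D) →
        (∀ f, d f ∈ D' ↔ f ∈ D') → ∀ (ha : ∀ v, Corner M.toInc D v → Corner M.toInc D (a v))
        (ha' : ∀ v, Corner M.toInc D' v → Corner M.toInc D' (a v)) P q,
        Φ (fun q => P ⟨a q.1, ha' _ q.2⟩) q = Φ P ⟨a q.1, ha _ q.2⟩) ∧
      (∀ P, ConvPos M.toInc D' (cD18_ext M.toInc D' P) →
        ConvPos M.toInc D (cD18_ext M.toInc D (Φ P))) ∧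
      ∃ δ > 0, ∀ P, ConvPos M.toInc D' (cD18_ext M.toInc D' P) →
        ∀ a b d : {v // Corner M.toInc D v}, a ≠ b → b ≠ d → a ≠ d → ∀ a' b' d',
          δ * |cross (Φ P a') (Φ P b') (Φ P d')| ≤ |cross (Φ P a) (Φ P b) (Φ P d)| := by
  classical
  obtain ⟨N, hNe⟩ := h7 V E F M D hD
  set L := liftD M.toInc D D' with hL
  have hT : TightDisc N.toInc L := by rw [hNe]; exact hN.tight
  have hdeep : Deep N.toInc L none := by rw [hNe]; exact hN.deep
  have hc : PosWt N.toInc (epsWt N.toInc none ε) := cD18_posWt _ _ hε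
  obtain ⟨r1, r2, r3, r4, r5⟩ := h5 V E F M D D' hD hD' hN
  rw [← hNe] at r1 r2 r4 r5
  have hnone : (none : CF M.toInc D) ∈ L := by
    intro g hg
    exact absurd hg (by simp)
  -- solutions
  have hex := fun P : {v // Corner M.toInc D' v} → ℂ =>
    h2 _ _ _ N L hT _ hc (fun v => cD18_ext M.toInc D' P v.1)
  choose sol hsol huniq using hex
  have hvf : ∀ v : CV M.toInc D, Corner M.toInc D v.1 → N.vf v none := by
    intro v hv
    obtain ⟨v', h1, h2⟩ := (r4 v.1).1 hv
    have : v' = v := Subtype.ext h1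
    rw [← this]
    exact h2
  have htouch : ∀ v : CV M.toInc D, Corner M.toInc D v.1 → Touch N.toInc L v := by
    intro v hv
    exact ⟨none, hnone, hvf v hv⟩
  have hCV : ∀ v, Corner M.toInc D v → ∃ f g, f ≠ g ∧ f ∉ D ∧ g ∉ D ∧ M.vf v f ∧ M.vf v g :=
    fun v hv => hv.2
  -- comparison
  have hcmp : ∀ (P : {v // Corner M.toInc D' v} → ℂ) (P' φ' : CV M.toInc D → ℂ),
      DiscExt N.toInc L (epsWt N.toInc none ε) P' φ' →
      (∀ v : CV M.toInc D, ∀ hv : Corner M.toInc D' v.1, P ⟨v.1, hv⟩ = P' v) →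
      ∀ v : CV M.toInc D, Corner M.toInc D v.1 → sol P v = φ' v := by
    intro P P' φ' hφ' hPP v hv
    refine cD18_congr h2 N L hT _ hc _ P' (sol P) φ' (hsol P) hφ' ?_ v (htouch v hv)
    intro u hu
    have hu' := (r2 u).1 hu
    show cD18_ext M.toInc D' P u.1 = P' u
    rw [cD18_ext_of _ _ _ hu']
    exact hPP u hu'
  refine ⟨fun P q => sol P ⟨q.1, hCV q.1 q.2⟩, sol, ?_, ?_, ?_, ?_, ?_, ?_, ?_⟩
  · -- continuity
    have hfin : Finite {v // Corner M.toInc D' v} := by
      have h1 : (⋃ f ∈ D', ⋃ e ∈ {e | M.ef e f}, {v | M.ve v e}).Finite := by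
        refine hD'.fin.biUnion fun f _ => (M.face_fin f).biUnion fun e _ => ?_
        obtain ⟨a, b, _, hw⟩ := M.edge_verts e
        exact (Set.toFinite ({a, b} : Set V)).subset fun u hu => (hw u).1 hu
      refine Set.Finite.to_subtype (h1.subset ?_)
      rintro v ⟨⟨f, hf, e, he, hef⟩, _⟩
      exact mem_biUnion hf (mem_biUnion (show e ∈ {e | M.ef e f} from hef) he)
    let Φl : ({v // Corner M.toInc D' v} → ℂ) →ₗ[ℝ] ({v // Corner M.toInc D v} → ℂ) :=
      { toFun := fun P q => sol P ⟨q.1, hCV q.1 q.2⟩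
        map_add' := by
          intro P P'
          funext q
          refine hcmp (P + P') _ (fun v => sol P v + sol P' v)
            (cD18_add N.toPolyMap L _ _ _ _ _ (hsol P) (hsol P')) ?_ _ q.2
          intro v hv
          simp [cD18_ext_of _ _ _ hv]
        map_smul' := by
          intro r P
          funext q
          refine hcmp (r • P) _ (fun v => r • sol P v)
            (cD18_smul N.toInc L _ _ _ (hsol P) r) ?_ _ q.2
          intro v hv
          simp [cD18_ext_of _ _ _ hv] }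
    exact Φl.continuous_of_finiteDimensional
  · intro P
    unfold RingExt
    rw [← hNe]
    exact hsol P
  · intro P v hv
    rfl
  · intro P A
    funext q
    refine hcmp _ _ (fun v => A (sol P v)) (cD18_affine N.toInc L _ _ _ (hsol P) A) ?_ _ q.2
    intro v hv
    simp [cD18_ext_of _ _ _ hv]
  · intro a b d hab hdD hdD' ha ha' P q
    obtain ⟨a', b', d', g1, g2, g3, g4, g5⟩ := (h6 V E F M a b d hab).2 D hdD
    rw [← hNe] at g1 g4
    have hinv := (h6 _ _ _ N a' b' d' g1).1 L (g5 D' hdD') (epsWt N.toInc none ε) (g4 ε)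
      _ _ (hsol P)
    have h := hcmp (fun q => P ⟨a q.1, ha' _ q.2⟩) _ _ hinv ?_ ⟨q.1, hCV q.1 q.2⟩ q.2
    · show sol _ _ = sol P _
      rw [h]
      show sol P (a' ⟨q.1, _⟩) = sol P _
      congr 1
      exact Subtype.ext (g2 _)
    · intro v hv
      show _ = cD18_ext M.toInc D' P (a' v).1
      rw [g2 v, cD18_ext_of _ _ _ (ha' _ hv)]
  · intro P hP
    have hB := h3 _ _ _ N L hT _ hc _ _ (r5 _ hP) (hsol P)
    intro n x y hxy
    rw [← hNe] at hxy
    have h := hB.strict none hnone n x y hxy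
    have h' : (fun i => cD18_ext M.toInc D (fun q => sol P ⟨q.1, hCV q.1 q.2⟩) (x i).1) =
        fun i => sol P (x i) := by
      funext i
      have hcor : Corner M.toInc D (x i).1 := by
        rw [r4]
        refine ⟨x i, rfl, y i, ?_, ?_⟩
        · exact (hxy.curve.ve i _).2 (Or.inl rfl)
        · exact (hxy.curve.mem (y i)).2 ⟨i, rfl⟩
      rw [cD18_ext_of _ _ _ hcor]
    rw [h']
    exact h
  · obtain ⟨δ, hδ, hnd⟩ := h4 _ _ _ N L none hT hdeep _ hc
    refine ⟨δ, hδ, ?_⟩
    intro P hP a b d hab hbd had a' b' d'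
    have hne : ∀ a b : {v // Corner M.toInc D v}, a ≠ b →
        (⟨a.1, hCV a.1 a.2⟩ : CV M.toInc D) ≠ ⟨b.1, hCV b.1 b.2⟩ := by
      intro a b hab h
      exact hab (Subtype.ext (congrArg (fun z : CV M.toInc D => z.1) h))
    exact hnd _ _ (r5 _ hP) (hsol P) _ _ _ (hvf ⟨a.1, hCV a.1 a.2⟩ a.2)
      (hvf ⟨b.1, hCV b.1 b.2⟩ b.2) (hvf ⟨d.1, hCV d.1 d.2⟩ d.2) (hne a b hab) (hne b d hbd)
      (hne a d had) _ _ _ (hvf ⟨a'.1, hCV a'.1 a'.2⟩ a'.2)
      (hvf ⟨b'.1, hCV b'.1 b'.2⟩ b'.2) (hvf ⟨d'.1, hCV d'.1 d'.2⟩ d'.2)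

end ring

section compact

theorem cD18_cross_cont {Q : Type} (a b d : Q) :
    Continuous fun P : Q → ℂ => cross (P a) (P b) (P d) := by
  unfold cross
  have h1 : ∀ q : Q, Continuous fun P : Q → ℂ => (P q).re := fun q =>
    Complex.continuous_re.comp (continuous_apply q)
  have h2 : ∀ q : Q, Continuous fun P : Q → ℂ => (P q).im := fun q =>
    Complex.continuous_im.comp (continuous_apply q)
  exact (((h1 b).sub (h1 a)).mul ((h2 d).sub (h2 a))).sub
    (((h2 b).sub (h2 a)).mul ((h1 d).sub (h1 a)))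

theorem cD18_affine_formula (A : ℂ ≃ᵃ[ℝ] ℂ) (z : ℂ) :
    A z = A 0 + (z.re : ℂ) * (A 1 - A 0) + (z.im : ℂ) * (A Complex.I - A 0) := by
  have h : ∀ w : ℂ, A w - A 0 = A.linear w := by
    intro w
    have := A.toAffineMap.linearMap_vsub w 0
    simpa using this.symm
  have hz : z = z.re • (1 : ℂ) + z.im • Complex.I := by
    apply Complex.ext <;> simp
  have h1 : A z - A 0 = (z.re : ℂ) * (A 1 - A 0) + (z.im : ℂ) * (A Complex.I - A 0) := by
    rw [h z, h 1, h Complex.I]
    conv_lhs => rw [hz]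
    rw [map_add, map_smul, map_smul]
    simp
  linear_combination h1

theorem cD18_compact (h8 : Stmt_Affine) {Q G : Type} [Finite Q] (t : Fin 3 → Q)
    (ht : Function.Injective t) (δ : ℝ) (hδ : 0 < δ) (act : G → Q → Q)
    (hact : ∀ g, Function.Injective (act g)) (C : Set (ℕ × (ℤ → Q)))
    (hC : ∀ c ∈ C, 3 ≤ c.1 ∧ ∀ i j, c.2 i = c.2 j ↔ (c.1 : ℤ) ∣ i - j) :
    IsCompact ({P : Q → ℂ | (∀ c ∈ C, StrictPoly c.1 (fun i => P (c.2 i))) ∧
      (∀ g, ∃ A : ℂ ≃ᵃ[ℝ] ℂ, ∀ q, P (act g q) = A (P q)) ∧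
      ∀ a b d : Q, a ≠ b → b ≠ d → a ≠ d → ∀ a' b' d',
        δ * |cross (P a') (P b') (P d')| ≤ |cross (P a) (P b) (P d)|} ∩
      {P | P (t 0) = 0 ∧ P (t 1) = 1 ∧ P (t 2) = Complex.I}) := by
  have hstd : cross 0 1 Complex.I = 1 := by simp [cross]
  have t01 : t 0 ≠ t 1 := fun h => by simpa using ht h
  have t12 : t 1 ≠ t 2 := fun h => by simpa using ht h
  have t02 : t 0 ≠ t 2 := fun h => by simpa using ht h
  -- the closed description
  set S : Set (Q → ℂ) := {P | (P (t 0) = 0 ∧ P (t 1) = 1 ∧ P (t 2) = Complex.I) ∧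
      (∀ a b d : Q, a ≠ b → b ≠ d → a ≠ d → ∀ a' b' d',
        δ * |cross (P a') (P b') (P d')| ≤ |cross (P a) (P b) (P d)|) ∧
      (∀ c ∈ C, (∀ i j, ¬ (c.1 : ℤ) ∣ j - i → ¬ (c.1 : ℤ) ∣ j - (i + 1) →
          0 ≤ cross (P (c.2 i)) (P (c.2 (i + 1))) (P (c.2 j))) ∨
        ∀ i j, ¬ (c.1 : ℤ) ∣ j - i → ¬ (c.1 : ℤ) ∣ j - (i + 1) →
          0 ≤ -cross (P (c.2 i)) (P (c.2 (i + 1))) (P (c.2 j))) ∧
      ∀ g q, P (act g q) = P (act g (t 0)) +
        ((P q).re : ℂ) * (P (act g (t 1)) - P (act g (t 0))) +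
        ((P q).im : ℂ) * (P (act g (t 2)) - P (act g (t 0)))} with hS
  have hev : ∀ q : Q, Continuous fun P : Q → ℂ => P q := fun q => continuous_apply q
  have hclosed : IsClosed S := by
    have c1 : IsClosed {P : Q → ℂ | P (t 0) = 0 ∧ P (t 1) = 1 ∧ P (t 2) = Complex.I} :=
      (isClosed_eq (hev _) continuous_const).inter
        ((isClosed_eq (hev _) continuous_const).inter (isClosed_eq (hev _) continuous_const))
    have c2 : IsClosed {P : Q → ℂ | ∀ a b d : Q, a ≠ b → b ≠ d → a ≠ d → ∀ a' b' d',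
        δ * |cross (P a') (P b') (P d')| ≤ |cross (P a) (P b) (P d)|} := by
      simp only [Set.ofPred_forall]
      refine isClosed_iInter fun a => isClosed_iInter fun b => isClosed_iInter fun d =>
        isClosed_iInter fun _ => isClosed_iInter fun _ => isClosed_iInter fun _ =>
        isClosed_iInter fun a' => isClosed_iInter fun b' => isClosed_iInter fun d' => ?_
      exact isClosed_le (continuous_const.mul (cD18_cross_cont a' b' d').abs)
        (cD18_cross_cont a b d).abs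
    have c3 : IsClosed {P : Q → ℂ | ∀ c ∈ C,
        (∀ i j, ¬ (c.1 : ℤ) ∣ j - i → ¬ (c.1 : ℤ) ∣ j - (i + 1) →
          0 ≤ cross (P (c.2 i)) (P (c.2 (i + 1))) (P (c.2 j))) ∨
        ∀ i j, ¬ (c.1 : ℤ) ∣ j - i → ¬ (c.1 : ℤ) ∣ j - (i + 1) →
          0 ≤ -cross (P (c.2 i)) (P (c.2 (i + 1))) (P (c.2 j))} := by
      simp only [Set.ofPred_forall]
      refine isClosed_iInter fun c => isClosed_iInter fun _ => ?_
      rw [Set.ofPred_or]
      refine IsClosed.union ?_ ?_
      · simp only [Set.ofPred_forall]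
        refine isClosed_iInter fun i => isClosed_iInter fun j => isClosed_iInter fun _ =>
          isClosed_iInter fun _ => ?_
        exact isClosed_le continuous_const (cD18_cross_cont _ _ _)
      · simp only [Set.ofPred_forall]
        refine isClosed_iInter fun i => isClosed_iInter fun j => isClosed_iInter fun _ =>
          isClosed_iInter fun _ => ?_
        exact isClosed_le continuous_const (cD18_cross_cont _ _ _).neg
    have c4 : IsClosed {P : Q → ℂ | ∀ g q, P (act g q) = P (act g (t 0)) +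
        ((P q).re : ℂ) * (P (act g (t 1)) - P (act g (t 0))) +
        ((P q).im : ℂ) * (P (act g (t 2)) - P (act g (t 0)))} := by
      simp only [Set.ofPred_forall]
      refine isClosed_iInter fun g => isClosed_iInter fun q => ?_
      refine isClosed_eq (hev _) ?_
      have h1 : Continuous fun P : Q → ℂ => ((P q).re : ℂ) :=
        Complex.continuous_ofReal.comp (Complex.continuous_re.comp (hev q))
      have h2 : Continuous fun P : Q → ℂ => ((P q).im : ℂ) :=
        Complex.continuous_ofReal.comp (Complex.continuous_im.comp (hev q))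
      exact ((hev _).add (h1.mul ((hev _).sub (hev _)))).add (h2.mul ((hev _).sub (hev _)))
    exact c1.inter (c2.inter (c3.inter c4))
  have hnd : ∀ P ∈ S, ∀ a b d : Q, a ≠ b → b ≠ d → a ≠ d → δ ≤ |cross (P a) (P b) (P d)| := by
    rintro P ⟨⟨p0, p1, p2⟩, h, _⟩ a b d hab hbd had
    have := h a b d hab hbd had (t 0) (t 1) (t 2)
    rw [p0, p1, p2, hstd, abs_one, mul_one] at this
    exact this
  have hbdd : S ⊆ Set.pi univ fun _ : Q => closedBall (0 : ℂ) (δ⁻¹ + δ⁻¹) := by
    rintro P ⟨⟨p0, p1, p2⟩, h, _⟩ q _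
    have h1 := h (t 0) (t 1) (t 2) t01 t12 t02 (t 0) (t 1) q
    have h2 := h (t 0) (t 1) (t 2) t01 t12 t02 (t 0) q (t 2)
    rw [p0, p1, p2, hstd, abs_one] at h1 h2
    have e1 : cross 0 1 (P q) = (P q).im := by simp [cross]
    have e2 : cross 0 (P q) Complex.I = (P q).re := by simp [cross]
    rw [e1] at h1
    rw [e2] at h2
    have h1' : |(P q).im| ≤ δ⁻¹ := by
      rw [inv_eq_one_div, le_div_iff₀ hδ]
      linarith
    have h2' : |(P q).re| ≤ δ⁻¹ := by
      rw [inv_eq_one_div, le_div_iff₀ hδ]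
      linarith
    rw [mem_closedBall, dist_zero_right]
    exact (Complex.norm_le_abs_re_add_abs_im _).trans (add_le_add h2' h1')
  have hcomp : IsCompact S :=
    IsCompact.of_isClosed_subset (isCompact_univ_pi fun _ => isCompact_closedBall _ _) hclosed hbdd
  have heq : ({P : Q → ℂ | (∀ c ∈ C, StrictPoly c.1 (fun i => P (c.2 i))) ∧
      (∀ g, ∃ A : ℂ ≃ᵃ[ℝ] ℂ, ∀ q, P (act g q) = A (P q)) ∧
      ∀ a b d : Q, a ≠ b → b ≠ d → a ≠ d → ∀ a' b' d',
        δ * |cross (P a') (P b') (P d')| ≤ |cross (P a) (P b) (P d)|} ∩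
      {P | P (t 0) = 0 ∧ P (t 1) = 1 ∧ P (t 2) = Complex.I}) = S := by
    ext P
    constructor
    · rintro ⟨⟨k1, k2, k3⟩, p0, p1, p2⟩
      refine ⟨⟨p0, p1, p2⟩, k3, ?_, ?_⟩
      · intro c hc
        obtain ⟨_, _, σ, hσ, hcv⟩ := k1 c hc
        rcases hσ with rfl | rfl
        · left
          intro i j hi hj
          have := hcv i j hi hj
          linarith
        · right
          intro i j hi hj
          have := hcv i j hi hj
          linarith
      · intro g q
        obtain ⟨A, hA⟩ := k2 g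
        rw [hA q, hA (t 0), hA (t 1), hA (t 2), p0, p1, p2]
        exact cD18_affine_formula A (P q)
    · intro hP
      have hPS := hP
      obtain ⟨⟨p0, p1, p2⟩, k3, k1, k2⟩ := hP
      refine ⟨⟨?_, ?_, k3⟩, p0, p1, p2⟩
      · intro c hc
        obtain ⟨hn, hx⟩ := hC c hc
        refine ⟨hn, ?_, ?_⟩
        · intro i
          have : c.2 (i + c.1) = c.2 i := (hx _ _).2 ⟨1, by ring⟩
          show P (c.2 (i + c.1)) = P (c.2 i)
          rw [this]
        · have hne : ∀ i j, ¬ (c.1 : ℤ) ∣ j - i → ¬ (c.1 : ℤ) ∣ j - (i + 1) →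
              cross (P (c.2 i)) (P (c.2 (i + 1))) (P (c.2 j)) ≠ 0 := by
            intro i j hi hj h0
            have a1 : c.2 i ≠ c.2 (i + 1) := by
              intro h
              have h1 := (hx _ _).1 h
              have h2 : (c.1 : ℤ) ∣ 1 := by
                have h3 : (i - (i + 1) : ℤ) = -1 := by ring
                rw [h3] at h1
                exact (dvd_neg).1 h1
              have h4 := Int.le_of_dvd one_pos h2
              omega
            have a2 : c.2 (i + 1) ≠ c.2 j := by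
              intro h
              exact hj ((hx _ _).1 h.symm)
            have a3 : c.2 i ≠ c.2 j := by
              intro h
              exact hi ((hx _ _).1 h.symm)
            have := hnd P hPS _ _ _ a1 a2 a3
            rw [h0, abs_zero] at this
            linarith
          rcases k1 c hc with h | h
          · refine ⟨1, Or.inl rfl, ?_⟩
            intro i j hi hj
            have h1 := h i j hi hj
            rw [one_mul]
            exact lt_of_le_of_ne h1 (hne i j hi hj).symm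
          · refine ⟨-1, Or.inr rfl, ?_⟩
            intro i j hi hj
            have h1 := h i j hi hj
            have h2 := neg_ne_zero.2 (hne i j hi hj)
            have h3 := lt_of_le_of_ne h1 h2.symm
            show 0 < -1 * cross (P (c.2 i)) (P (c.2 (i + 1))) (P (c.2 j))
            linarith
      · intro g
        have h1 := hnd P hPS (act g (t 0)) (act g (t 1)) (act g (t 2))
          (fun h => t01 (hact g h)) (fun h => t12 (hact g h)) (fun h => t02 (hact g h))
        have h2 : cross (P (act g (t 0))) (P (act g (t 1))) (P (act g (t 2))) ≠ 0 := by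
          intro h0
          rw [h0, abs_zero] at h1
          linarith
        obtain ⟨A, a0, a1, a2⟩ := h8.2.1 0 1 Complex.I _ _ _ (by rw [hstd]; exact one_ne_zero) h2
        refine ⟨A, ?_⟩
        intro q
        rw [k2 g q, cD18_affine_formula A (P q), a0, a1, a2]
  rw [heq]
  exact hcomp

end compact

section main

theorem cD18_smul_vf {V E F G : Type} {M : Inc V E F} [Group G] [MulAction G V]
    [MulAction G E] [MulAction G F] (hE : Equiv M G) (g : G) {v : V} {f : F} (h : M.vf v f) :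
    M.vf (g • v) (g • f) := by
  obtain ⟨e, h1, h2⟩ := h
  exact ⟨g • e, hE.ve g v e h1, hE.ef g e f h2⟩

theorem cD18_smul_not {F G : Type} [Group G] [MulAction G F] {D : Set F}
    (hD : ∀ (g : G), ∀ f ∈ D, g • f ∈ D) (g : G) {f : F} (hf : f ∉ D) : g • f ∉ D := by
  intro h
  have := hD g⁻¹ _ h
  rw [inv_smul_smul] at this
  exact hf this

theorem cD18_smul_corner {V E F G : Type} {M : Inc V E F} [Group G] [MulAction G V]
    [MulAction G E] [MulAction G F] (hE : Equiv M G) {D : Set F}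
    (hD : ∀ (g : G), ∀ f ∈ D, g • f ∈ D) (g : G) {v : V} (h : Corner M D v) :
    Corner M D (g • v) := by
  obtain ⟨⟨d, hd, hvd⟩, f, f', hff, hf, hf', hvf, hvf'⟩ := h
  refine ⟨⟨g • d, hD g d hd, cD18_smul_vf hE g hvd⟩, g • f, g • f', ?_, cD18_smul_not hD g hf,
    cD18_smul_not hD g hf', cD18_smul_vf hE g hvf, cD18_smul_vf hE g hvf'⟩
  intro h
  exact hff (MulAction.injective g h)

theorem cD18_isAut {V E F G : Type} {M : Inc V E F} [Group G] [MulAction G V]
    [MulAction G E] [MulAction G F] (hE : Equiv M G) (g : G) :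
    IsAut M (MulAction.toPerm g : V ≃ V) (MulAction.toPerm g : E ≃ E)
      (MulAction.toPerm g : F ≃ F) := by
  constructor
  · intro v e
    constructor
    · intro h
      have := hE.ve g⁻¹ _ _ h
      simpa using this
    · intro h
      exact hE.ve g v e h
  · intro e f
    constructor
    · intro h
      have := hE.ef g⁻¹ _ _ h
      simpa using this
    · intro h
      exact hE.ef g e f h

/-- The isometries of the plane are affine. -/
theorem cD18_iso_affine (A : ℂ ≃ᵢ ℂ) : ∃ B : ℂ ≃ᵃ[ℝ] ℂ, ∀ z, B z = A z :=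
  ⟨A.toRealAffineIsometryEquiv.toAffineEquiv, fun _ => rfl⟩

theorem cD18 (h1 : Stmt_FaceCycle) (h2 : Stmt_DiscExt) (h3 : Stmt_DiscBlock) (h4 : Stmt_NonDeg)
    (h5 : Stmt_Recoarse) (h6 : Stmt_Aut) (h7 : Stmt_Coarse) (h8 : Stmt_Affine)
    (h9 : Stmt_InvLim) (h10 : Stmt_Regular) : Stmt_Levels := by
  classical
  intro V E F G M _ _ _ _ _ hE D ε hε hT hinv hN
  -- rings
  have hring := fun i => cD18_ring h2 h3 h4 h5 h6 h7 M (D i) (D (i + 1)) (hT i) (hT (i + 1))
    (hN i) (ε i) (hε i)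
  choose Φ sol hcont hsol hval haff haut hconv δ hδ hnd using hring
  -- corners
  have hcor : ∀ i (g : G) v, Corner M.toInc (D i) v → Corner M.toInc (D i) (g • v) :=
    fun i g v hv => cD18_smul_corner hE (hinv i) g hv
  have hvn : ∀ i v, Corner M.toInc (D i) v ↔
      ∃ v' : CV M.toInc (D i), v'.1 = v ∧ (coarse M.toInc (D i)).vf v' none :=
    fun i => (h5 V E F M (D i) (D (i + 1)) (hT i) (hT (i + 1)) (hN i)).2.2.2.1
  have hQfin : ∀ i, Finite {v // Corner M.toInc (D i) v} := by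
    intro i
    have k1 : (⋃ f ∈ D i, ⋃ e ∈ {e | M.ef e f}, {v | M.ve v e}).Finite := by
      refine (hT i).fin.biUnion fun f _ => (M.face_fin f).biUnion fun e _ => ?_
      obtain ⟨a, b, _, hw⟩ := M.edge_verts e
      exact (Set.toFinite ({a, b} : Set V)).subset fun u hu => (hw u).1 hu
    refine Set.Finite.to_subtype (k1.subset ?_)
    rintro v ⟨⟨f, hf, e, he, hef⟩, _⟩
    exact mem_biUnion hf (mem_biUnion (show e ∈ {e | M.ef e f} from hef) he)
  -- a cycle of the big face
  have hcyc : ∀ i, ∃ n x y, IsFaceCycle (coarse M.toInc (D i)) none n x y := by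
    intro i
    obtain ⟨N, hN'⟩ := h7 V E F M (D i) (hT i)
    obtain ⟨n, x, y, h⟩ := h1 _ _ _ N.toPolyMap none
    rw [hN'] at h
    exact ⟨n, x, y, h⟩
  have hxcor : ∀ i n x y, IsFaceCycle (coarse M.toInc (D i)) none n x y → ∀ j,
      Corner M.toInc (D i) (x j).1 := by
    intro i n x y hxy j
    rw [hvn]
    refine ⟨x j, rfl, y j, ?_, ?_⟩
    · exact (hxy.curve.ve j _).2 (Or.inl rfl)
    · exact (hxy.curve.mem (y j)).2 ⟨j, rfl⟩
  choose n x y hxy using hcyc
  let Q : ℕ → Type := fun i => {v // Corner M.toInc (D i) v}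
  let gq : ∀ i, G → Q i → Q i := fun i g q => ⟨g • q.1, hcor i g q.1 q.2⟩
  let t : ∀ i, Fin 3 → Q i := fun i k => ⟨(x i (k : ℤ)).1, hxcor i _ _ _ (hxy i) _⟩
  have htinj : ∀ i, Function.Injective (t i) := by
    intro i k l hkl
    have e1 : (x i (k : ℤ)).1 = (x i (l : ℤ)).1 := congrArg (fun z : Q i => z.1) hkl
    have e2 : (x i (k : ℤ)) = (x i (l : ℤ)) := Subtype.ext e1
    have e3 := ((hxy i).curve.x_eq _ _).1 e2
    have e4 := (hxy i).three
    apply Fin.ext
    have hk := k.2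
    have hl := l.2
    by_contra hne
    have h0 : ((k : ℤ) - (l : ℤ)) ≠ 0 := by omega
    have := Int.le_of_dvd (abs_pos.2 h0) ((dvd_abs _ _).2 e3)
    rw [le_abs] at this
    omega
  let C : ∀ i, Set (ℕ × (ℤ → Q i)) := fun i => {c | ∃ x' y',
    IsFaceCycle (coarse M.toInc (D i)) none c.1 x' y' ∧ ∀ j, (x' j).1 = (c.2 j).1}
  have hCprop : ∀ i, ∀ c ∈ C i, 3 ≤ c.1 ∧ ∀ j k, c.2 j = c.2 k ↔ (c.1 : ℤ) ∣ j - k := by
    rintro i c ⟨x', y', hc, hx⟩
    refine ⟨hc.three, ?_⟩
    intro j k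
    rw [← hc.curve.x_eq j k]
    constructor
    · intro h
      apply Subtype.ext
      rw [hx, hx, h]
    · intro h
      apply Subtype.ext
      rw [← hx, ← hx, h]
  have hconvC : ∀ i (P : Q i → ℂ), ConvPos M.toInc (D i) (cD18_ext M.toInc (D i) P) ↔
      ∀ c ∈ C i, StrictPoly c.1 (fun j => P (c.2 j)) := by
    intro i P
    constructor
    · rintro h c ⟨x', y', hc, hx⟩
      have k1 := h _ _ _ hc
      have k2 : (fun j => cD18_ext M.toInc (D i) P (x' j).1) = fun j => P (c.2 j) := by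
        funext j
        rw [hx j, cD18_ext_of _ _ _ (c.2 j).2]
      rw [k2] at k1
      exact k1
    · intro h m x' y' hc
      have k1 := h (m, fun j => ⟨(x' j).1, hxcor i _ _ _ hc j⟩) ⟨x', y', hc, fun _ => rfl⟩
      have k2 : (fun j => cD18_ext M.toInc (D i) P (x' j).1) =
          fun j => P ⟨(x' j).1, hxcor i _ _ _ hc j⟩ := by
        funext j
        rw [cD18_ext_of _ _ _ (hxcor i _ _ _ hc j)]
      rw [k2]
      exact k1
  let X : ∀ i, Set (Q i → ℂ) := fun i => {P | (∀ c ∈ C i, StrictPoly c.1 (fun j => P (c.2 j))) ∧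
    ∀ g, ∃ A : ℂ ≃ᵃ[ℝ] ℂ, ∀ q, P (gq i g q) = A (P q)}
  have hXΦ : ∀ i, ∀ P ∈ X (i + 1), Φ i P ∈ X i := by
    rintro i P ⟨k1, k2⟩
    refine ⟨(hconvC i _).1 (hconv i P ((hconvC (i + 1) P).2 k1)), ?_⟩
    intro g
    obtain ⟨A, hA⟩ := k2 g
    refine ⟨A, ?_⟩
    intro q
    have k3 := haut i _ _ _ (cD18_isAut hE g)
      (fun f => ⟨fun h => by
        by_contra hc
        exact cD18_smul_not (hinv i) g hc h, fun h => hinv i g f h⟩)
      (fun f => ⟨fun h => by
        by_contra hc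
        exact cD18_smul_not (hinv (i + 1)) g hc h, fun h => hinv (i + 1) g f h⟩)
      (hcor i g) (hcor (i + 1) g) P q
    have k4 : (fun q : Q (i + 1) => P ⟨(MulAction.toPerm g : V ≃ V) q.1,
        hcor (i + 1) g _ q.2⟩) = fun q => A (P q) := by
      funext q
      exact hA q
    have k5 := haff i P A
    show Φ i P ⟨(MulAction.toPerm g : V ≃ V) q.1, hcor i g _ q.2⟩ = A (Φ i P q)
    rw [← k3, k4, k5]
  have hXA : ∀ i P (A : ℂ ≃ᵃ[ℝ] ℂ), P ∈ X i → (fun q => A (P q)) ∈ X i := by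
    rintro i P A ⟨k1, k2⟩
    refine ⟨fun c hc => cD18_strict_affine h8 A _ _ (k1 c hc), ?_⟩
    intro g
    obtain ⟨B, hB⟩ := k2 g
    refine ⟨(A.symm.trans B).trans A, ?_⟩
    intro q
    show A (P (gq i g q)) = A (B (A.symm (A (P q))))
    rw [AffineEquiv.symm_apply_apply, hB]
  have hXt : ∀ i, ∀ P ∈ X i, cross (P (t i 0)) (P (t i 1)) (P (t i 2)) ≠ 0 := by
    rintro i P ⟨k1, _⟩
    obtain ⟨m3, _, σ, hσ, hc⟩ := k1 (n i, fun j => ⟨(x i j).1, hxcor i _ _ _ (hxy i) j⟩)
      ⟨x i, y i, hxy i, fun _ => rfl⟩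
    have := hc 0 2 (by
      intro h
      have := Int.le_of_dvd (by norm_num) h
      simp only at m3
      omega) (by
      intro h
      have := Int.le_of_dvd (by norm_num) h
      simp only at m3
      omega)
    intro h0
    have h0' : cross (P ⟨(x i 0).1, hxcor i _ _ _ (hxy i) 0⟩)
      (P ⟨(x i (0 + 1)).1, hxcor i _ _ _ (hxy i) (0 + 1)⟩)
      (P ⟨(x i 2).1, hxcor i _ _ _ (hxy i) 2⟩) = 0 := h0
    simp only at this
    rw [h0'] at this
    simp at this
  have hXne : ∀ i, (X i).Nonempty := by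
    intro i
    obtain ⟨P, hP, hPg⟩ := h10 V E F G M hE (D i) (hT i) (hinv i)
    refine ⟨fun q => P q.1, (hconvC i (fun q => P q.1)).1 ?_, ?_⟩
    · refine cD18_convCongr M.toInc (D i) (hvn i) P _ ?_ hP
      intro v hv
      rw [cD18_ext_of _ _ _ hv]
    · intro g
      obtain ⟨A, hA⟩ := hPg g
      obtain ⟨B, hB⟩ := cD18_iso_affine A
      refine ⟨B, fun q => ?_⟩
      show P (g • q.1) = B (P q.1)
      rw [hB, hA q.1 q.2]
  have hY : ∀ i, ∃ Y : Set (Q i → ℂ), Y ⊆ X i ∧ (∀ P ∈ X (i + 1), Φ i P ∈ Y) ∧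
      (∀ P (A : ℂ ≃ᵃ[ℝ] ℂ), P ∈ Y → (fun q => A (P q)) ∈ Y) ∧
      IsCompact (Y ∩ {P | P (t i 0) = 0 ∧ P (t i 1) = 1 ∧ P (t i 2) = Complex.I}) := by
    intro i
    refine ⟨{P : Q i → ℂ | (∀ c ∈ C i, StrictPoly c.1 (fun j => P (c.2 j))) ∧
      (∀ g, ∃ A : ℂ ≃ᵃ[ℝ] ℂ, ∀ q, P (gq i g q) = A (P q)) ∧
      ∀ a b d : Q i, a ≠ b → b ≠ d → a ≠ d → ∀ a' b' d',
        δ i * |cross (P a') (P b') (P d')| ≤ |cross (P a) (P b) (P d)|}, ?_, ?_, ?_, ?_⟩
    · rintro P ⟨k1, k2, _⟩
      exact ⟨k1, k2⟩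
    · intro P hP
      obtain ⟨k1, k2⟩ := hXΦ i P hP
      exact ⟨k1, k2, hnd i P ((hconvC (i + 1) P).2 hP.1)⟩
    · rintro P A ⟨k1, k2, k3⟩
      obtain ⟨m1, m2⟩ := hXA i P A ⟨k1, k2⟩
      refine ⟨m1, m2, ?_⟩
      intro a b d hab hbd had a' b' d'
      obtain ⟨r, _, hr⟩ := h8.1 A
      show δ i * |cross (A (P a')) (A (P b')) (A (P d'))| ≤
        |cross (A (P a)) (A (P b)) (A (P d))|
      rw [hr, hr, abs_mul, abs_mul]
      have := k3 a b d hab hbd had a' b' d'
      calc δ i * (|r| * |cross (P a') (P b') (P d')|)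
          = |r| * (δ i * |cross (P a') (P b') (P d')|) := by ring
        _ ≤ |r| * |cross (P a) (P b) (P d)| := mul_le_mul_of_nonneg_left this (abs_nonneg _)
    · have := hQfin i
      refine cD18_compact h8 (t i) (htinj i) (δ i) (hδ i) (gq i) ?_ (C i) (hCprop i)
      intro g q q' h
      have e1 : g • q.1 = g • q'.1 := congrArg (fun z : Q i => z.1) h
      exact Subtype.ext (MulAction.injective g e1)
  have : ∀ i, Finite (Q i) := hQfin
  obtain ⟨P, hPX, hPΦ⟩ := h9 Q X Φ t hXne hXΦ hcont haff hXA hXt hY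
  -- the affine representation
  have hrep : ∀ g : G, ∃ A : ℂ ≃ᵃ[ℝ] ℂ, ∀ i q, P i (gq i g q) = A (P i q) := by
    intro g
    have k1 : ∀ i, ∃ A : ℂ ≃ᵃ[ℝ] ℂ, ∀ q, P i (gq i g q) = A (P i q) := fun i => (hPX i).2 g
    choose A hA using k1
    have k2 : ∀ i, A i = A 0 := by
      intro i
      induction i with
      | zero => rfl
      | succ i ih =>
        rw [← ih]
        have k3 : ∀ q : Q i, A (i + 1) (P i q) = A i (P i q) := by
          intro q
          rw [← hA i q]
          have k4 := haut i _ _ _ (cD18_isAut hE g)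
            (fun f => ⟨fun h => by
              by_contra hc
              exact cD18_smul_not (hinv i) g hc h, fun h => hinv i g f h⟩)
            (fun f => ⟨fun h => by
              by_contra hc
              exact cD18_smul_not (hinv (i + 1)) g hc h, fun h => hinv (i + 1) g f h⟩)
            (hcor i g) (hcor (i + 1) g) (P (i + 1)) q
          have k5 : (fun q : Q (i + 1) => P (i + 1) ⟨(MulAction.toPerm g : V ≃ V) q.1,
              hcor (i + 1) g _ q.2⟩) = fun q => A (i + 1) (P (i + 1) q) := by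
            funext q
            exact hA (i + 1) q
          rw [k5, haff, hPΦ] at k4
          exact k4
        exact h8.2.2.1 (A (i + 1)) (A i) _ _ _ (hXt i (P i) (hPX i)) (k3 _) (k3 _) (k3 _)
    refine ⟨A 0, fun i q => ?_⟩
    rw [← k2 i]
    exact hA i q
  choose ρ hρ using hrep
  have hmul : ∀ g h z, ρ (g * h) z = ρ g (ρ h z) := by
    intro g h
    have k1 : ∀ q : Q 0, ρ (g * h) (P 0 q) = ((ρ h).trans (ρ g)) (P 0 q) := by
      intro q
      show _ = ρ g (ρ h (P 0 q))
      rw [← hρ (g * h) 0 q, ← hρ h 0 q, ← hρ g 0]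
      congr 1
      exact Subtype.ext (mul_smul g h q.1)
    have k2 := h8.2.2.1 (ρ (g * h)) ((ρ h).trans (ρ g)) _ _ _ (hXt 0 (P 0) (hPX 0)) (k1 _) (k1 _)
      (k1 _)
    intro z
    rw [k2]
    rfl
  obtain ⟨T, hTs⟩ := h8.2.2.2 G ρ hmul
  refine ⟨fun i v => T (cD18_ext M.toInc (D i) (P i) v), fun i v => T (sol i (P (i + 1)) v),
    ?_, ?_, ?_, ?_⟩
  · intro i
    have k1 : ConvPos M.toInc (D i) (cD18_ext M.toInc (D i) (P i)) := (hconvC i _).2 (hPX i).1
    intro m x' y' hc
    exact cD18_strict_affine h8 T m _ (k1 m x' y' hc)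
  · intro i
    exact cD18_affine _ _ _ _ _ (hsol i (P (i + 1))) T
  · intro i v hv
    have hvc : Corner M.toInc (D i) v.1 := ⟨hv, v.2⟩
    show T (sol i (P (i + 1)) v) = T (cD18_ext M.toInc (D i) (P i) v.1)
    rw [hval i _ v hvc, hPΦ, cD18_ext_of _ _ _ hvc]
  · intro g
    obtain ⟨s', hs'⟩ := hTs g
    refine ⟨s', ?_⟩
    intro i v hv
    show T (cD18_ext M.toInc (D i) (P i) (g • v)) = s' (T (cD18_ext M.toInc (D i) (P i) v))
    rw [cD18_ext_of _ _ _ hv, cD18_ext_of _ _ _ (hcor i g v hv), ← hs']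
    congr 1
    exact hρ g i ⟨v, hv⟩

end main

end Pool.Agent.CT
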