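import Pool.Agent.CT.CDefs

set_option autoImplicit false

/-! # C10: the main block is 2-connected -/

namespace Pool.Agent.CT

open Set

variable {α : Type} {G : SimpleGraph α} {O : Set α} {Ed : ℕ → Set α}

theorem cF_sub (hE : IsEnd G Ed) (hO : ∃ j, Ed j ⊆ O) (t : α) : ∃ j, Ed j ⊆ O \ {t} := by
  obtain ⟨j0, hj0⟩ := hO
  obtain ⟨j1, hj1⟩ := hE.fin t
  refine ⟨max j0 j1, fun x hx => ⟨hj0 (hE.anti (le_max_left _ _) hx), ?_⟩⟩
  intro hxt
  rw [mem_singleton_iff] at hxt
  subst hxt
  exact hj1 (hE.anti (le_max_right _ _) hx)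

/-- two points reaching the end inside `Z` reach each other -/
theorem cF_meet (hE : IsEnd G Ed) {Z : Set α} {x y : α} {j j' : ℕ} (hj : Ed j ⊆ Z)
    (hj' : Ed j' ⊆ Z) {a b : α} (ha : a ∈ Ed j) (hb : b ∈ Ed j') (hx : ReachIn G Z x a)
    (hy : ReachIn G Z y b) : ReachIn G Z x y := by
  obtain ⟨c, hc⟩ := hE.ne (max j j')
  have hc1 : c ∈ Ed j := hE.anti (le_max_left _ _) hc
  have hc2 : c ∈ Ed j' := hE.anti (le_max_right _ _) hc
  have h1 : ReachIn G Z a c := (hE.conn j a ha c hc1).mono hj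
  have h2 : ReachIn G Z b c := (hE.conn j' b hb c hc2).mono hj'
  exact (hx.trans h1).trans (hy.trans h2).symm

/-- a simple path between two points of the main block stays in it -/
theorem cF_path {x y : α} (hx : x ∈ mainBlock G O Ed)
    (hy : y ∈ mainBlock G O Ed) {n : ℕ} {p : ℕ → α} (h0 : p 0 = x) (hn : p n = y)
    (hadj : ∀ i < n, G.Adj (p i) (p (i + 1))) (hmem : ∀ i ≤ n, p i ∈ O)
    (hinj : ∀ i ≤ n, ∀ j ≤ n, p i = p j → i = j) : ∀ i ≤ n, p i ∈ mainBlock G O Ed := by
  intro i hi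
  refine ⟨hmem i hi, ?_⟩
  intro s hs hsz
  by_cases h1 : ∀ k ≤ i, p k ≠ s
  · -- the part of the path from `x` avoids `s`
    have hreach : ReachIn G (O \ {s}) (p 0) (p i) :=
      ReachIn.of_path (n := i) (p := p) (fun k hk => hadj k (lt_of_lt_of_le hk hi))
        (fun k hk => (⟨hmem k (le_trans hk hi), h1 k hk⟩ : p k ∈ O \ {s})) (Nat.zero_le _) le_rfl
    have hxs : s ≠ x := by
      intro h
      exact h1 0 (Nat.zero_le _) (h0.trans h.symm)
    obtain ⟨j, hj, w, hw, hr⟩ := hx.2 s hs hxs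
    rw [h0] at hreach
    exact ⟨j, hj, w, hw, hreach.symm.trans hr⟩
  · push Not at h1
    obtain ⟨k, hk, hks⟩ := h1
    have hki : k < i := by
      rcases lt_or_eq_of_le hk with h | h
      · exact h
      · subst h
        exact absurd hks.symm hsz
    have h2 : ∀ l, i ≤ l → l ≤ n → p l ≠ s := by
      intro l hl hln hls
      have := hinj k (le_trans hk hi) l hln (hks.trans hls.symm)
      omega
    have hreach : ReachIn G (O \ {s}) (p i) (p n) := by
      have := ReachIn.of_path (G := G) (Z := O \ {s}) (n := n - i) (p := fun k => p (i + k))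
        (fun k hk => hadj (i + k) (by omega))
        (fun k hk => ⟨hmem (i + k) (by omega), h2 (i + k) (by omega) (by omega)⟩)
        (Nat.zero_le _) le_rfl
      have he : i + (n - i) = n := by omega
      simpa [he] using this
    have hys : s ≠ y := by
      intro h
      exact h2 n hi le_rfl (hn.trans h.symm)
    obtain ⟨j, hj, w, hw, hr⟩ := hy.2 s hs hys
    rw [hn] at hreach
    exact ⟨j, hj, w, hw, hreach.trans hr⟩

/-- C10 -/
theorem cF_mainBlock : Stmt_MainBlock := by
  intro α G O Ed hO hE hsub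
  constructor
  · intro x hx y hy
    obtain ⟨n, p, h0, hn, hadj, hmem, hinj⟩ := (hO x hx.1 y hy.1).exists_simple_path hx.1
    have := cF_path hx hy h0 hn hadj hmem hinj
    have h := ReachIn.of_path hadj this (Nat.zero_le n) le_rfl
    rw [h0, hn] at h
    exact h
  · intro t x hx y hy
    have hreach : ReachIn G (O \ {t}) x y := by
      by_cases ht : t ∈ O
      · obtain ⟨j, hj, a, ha, hxa⟩ := hx.1.2 t ht (fun h => hx.2 h.symm)
        obtain ⟨j', hj', b, hb, hyb⟩ := hy.1.2 t ht (fun h => hy.2 h.symm)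
        exact cF_meet hE hj hj' ha hb hxa hyb
      · have : O \ {t} = O := Set.sdiff_singleton_eq_self ht
        rw [this]
        exact hO x hx.1.1 y hy.1.1
    obtain ⟨n, p, h0, hn, hadj, hmem, hinj⟩ := hreach.exists_simple_path ⟨hx.1.1, hx.2⟩
    have := cF_path hx.1 hy.1 h0 hn hadj (fun i hi => (hmem i hi).1) hinj
    have h := ReachIn.of_path (Z := mainBlock G O Ed \ {t}) hadj
      (fun i hi => ⟨this i hi, (hmem i hi).2⟩)
      (Nat.zero_le n) le_rfl
    rw [h0, hn] at h
    exact h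

end Pool.Agent.CT
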