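import Pool.Agent.CT.CDefs

set_option autoImplicit false

/-! # Complements of main blocks (C11) and bi-tightness (C13) -/

namespace Pool.Agent.CT

open Set

section

variable {α : Type} {G : SimpleGraph α}

/-- the component of a point outside the main block -/
theorem cF_comp {O : Set α} {Ed : ℕ → Set α} {x : α} (hx : x ∈ O)
    (hxB : x ∉ mainBlock G O Ed) : ∃ t ∈ O, t ≠ x ∧
      ∀ y ∈ compIn G (O \ {t}) x, y ∈ (mainBlock G O Ed)ᶜ := by
  have h1 : ¬ ∀ t ∈ O, t ≠ x → ∃ j, Ed j ⊆ O \ {t} ∧ ∃ y ∈ Ed j, ReachIn G (O \ {t}) x y :=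
    fun h => hxB ⟨hx, h⟩
  push Not at h1
  obtain ⟨t, ht, htx, h2⟩ := h1
  refine ⟨t, ht, htx, fun y hy hyB => ?_⟩
  have hxO : x ∈ O \ {t} := ⟨hx, fun h => htx h.symm⟩
  have hyO : y ∈ O \ {t} := compIn_subset hxO hy
  obtain ⟨j, hj, z, hz, hyz⟩ := hyB.2 t ht fun h => hyO.2 h.symm
  exact h2 j hj z hz (ReachIn.trans hy hyz)

/-- a set is connected if every point is connected with a connected nonempty subset -/
theorem cF_conn_of_core {Z A : Set α} (hA : ConnIn G A) (hne : A.Nonempty) (hAZ : A ⊆ Z)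
    (h : ∀ x ∈ Z, x ∉ A → ∃ w ∈ A, ReachIn G Z w x) : ConnIn G Z := by
  obtain ⟨a, ha⟩ := hne
  refine ConnIn.of_base a fun b hb => ?_
  by_cases hbA : b ∈ A
  · exact (hA a ha b hbA).mono hAZ
  · obtain ⟨w, hw, hwb⟩ := h b hb hbA
    exact ((hA a ha w hw).mono hAZ).trans hwb

end

/-- dual 3-connectivity -/
theorem cF_dual3 (h4 : Stmt_ThreeConn) {V E F : Type} (M : PolyMap V E F)
    (hF : ConnIn M.fadj univ) (S : Set F) (hS : S.encard ≤ 2) : ConnIn M.fadj Sᶜ :=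
  h4 F E V M.dualMap hF S hS

theorem cF_encard_pair {α : Type} (s t : α) : ({s, t} : Set α).encard ≤ 2 := by
  calc ({s, t} : Set α).encard ≤ ({t} : Set α).encard + 1 := Set.encard_insert_le _ _
    _ = 2 := by rw [Set.encard_singleton]; norm_num

/-- C11: the complement of the main block stays connected. -/
theorem cF_mainBlockCompl (h4 : Stmt_ThreeConn) : Stmt_MainBlockCompl := by
  intro V E F M hF O Ed hO hOc hne hE hj
  have hsub : Oᶜ ⊆ (mainBlock M.fadj O Ed)ᶜ := fun x hx hxB => hx hxB.1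
  refine cF_conn_of_core hOc hne hsub fun x hx hxO => ?_
  have hxO' : x ∈ O := not_not.mp hxO
  obtain ⟨t, ht, htx, hX⟩ := cF_comp hxO' hx
  have hxt : x ∈ O \ {t} := ⟨hxO', fun h => htx h.symm⟩
  have hXsub : compIn M.fadj (O \ {t}) x ⊆ O \ {t} := compIn_subset hxt
  obtain ⟨o, ho⟩ := hne
  have h3 : ConnIn M.fadj ({t} : Set F)ᶜ := cF_dual3 h4 M hF {t} (by
    rw [Set.encard_singleton]; norm_num)
  obtain ⟨u, hu, w, hw, hwX, huw⟩ := h3.exists_adj (A := compIn M.fadj (O \ {t}) x)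
    (fun y hy h => (hXsub hy).2 h) ⟨x, mem_compIn_self x⟩ (by
      intro h
      have : o ∈ compIn M.fadj (O \ {t}) x := by
        rw [h]
        intro hot
        rw [mem_singleton_iff] at hot
        rw [hot] at ho
        exact ho ht
      exact ho (hXsub this).1)
  have hwO : w ∈ Oᶜ := by
    intro hwO
    exact hwX (compIn_closed u hu w ⟨hwO, hw⟩ huw (hXsub hu))
  refine ⟨w, hwO, ?_⟩
  have h5 : ReachIn M.fadj (mainBlock M.fadj O Ed)ᶜ w u :=
    ReachIn.single huw.symm (hsub hwO) (hX u hu)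
  refine h5.trans ?_
  have h6 : ReachIn M.fadj (compIn M.fadj (O \ {t}) x) x u := ReachIn.inComp hu
  exact (h6.mono hX).symm

/-- C13: bi-tightness. -/
theorem cF_biTight (h4 : Stmt_ThreeConn) : Stmt_BiTight := by
  intro V E F M hF O Ed hOne hO hOt hOtne hOc hE hj
  refine ⟨cF_mainBlockCompl h4 V E F M hF Oᶜ Ed hOc (by rwa [compl_compl])
    (by rwa [compl_compl]) hE hj, fun t => ?_⟩
  set B := mainBlock M.fadj Oᶜ Ed with hB
  have hsub : O \ {t} ⊆ Bᶜ \ {t} := fun x hx => ⟨fun hxB => hxB.1 hx.1, hx.2⟩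
  refine cF_conn_of_core (hOt t) (hOtne t) hsub fun x hx hxO => ?_
  have hxD : x ∈ Oᶜ := fun h => hxO ⟨h, hx.2⟩
  obtain ⟨s, hs, hsx, hX⟩ := cF_comp hxD hx.1
  have hxs : x ∈ Oᶜ \ {s} := ⟨hxD, fun h => hsx h.symm⟩
  set X := compIn M.fadj (Oᶜ \ {s}) x with hXdef
  have hXsub : X ⊆ Oᶜ \ {s} := compIn_subset hxs
  have hxX : x ∈ X \ {t} := ⟨mem_compIn_self x, hx.2⟩
  set Y := compIn M.fadj (X \ {t}) x with hYdef
  have hYsub : Y ⊆ X \ {t} := compIn_subset hxX
  have h3 : ConnIn M.fadj ({s, t} : Set F)ᶜ := cF_dual3 h4 M hF {s, t} (cF_encard_pair s t)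
  obtain ⟨o, ho⟩ := hOtne t
  obtain ⟨u, hu, w, hw, hwY, huw⟩ := h3.exists_adj (A := Y) (by
      intro y hy h
      rcases h with h | h
      · exact (hXsub (hYsub hy).1).2 h
      · exact (hYsub hy).2 h) ⟨x, mem_compIn_self x⟩ (by
      intro h
      have : o ∈ Y := by
        rw [h]
        rintro (h' | h')
        · rw [h'] at ho
          exact hs ho.1
        · exact ho.2 h'
      exact (hXsub (hYsub this).1).1 ho.1)
  have hws : w ≠ s := fun h => hw (Or.inl h)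
  have hwt : w ≠ t := fun h => hw (Or.inr h)
  have huX : u ∈ X := (hYsub hu).1
  have hwO : w ∈ O := by
    by_contra hwO
    have hwX : w ∈ X := compIn_closed u huX w ⟨hwO, hws⟩ huw (hXsub huX)
    exact hwY (compIn_closed u hu w ⟨hwX, hwt⟩ huw (hYsub hu))
  refine ⟨w, ⟨hwO, hwt⟩, ?_⟩
  have hYB : Y ⊆ Bᶜ \ {t} := fun y hy => ⟨hX y (hYsub hy).1, (hYsub hy).2⟩
  have h5 : ReachIn M.fadj (Bᶜ \ {t}) w u :=
    ReachIn.single huw.symm (hsub ⟨hwO, hwt⟩) (hYB hu)
  refine h5.trans ?_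
  have h6 : ReachIn M.fadj Y x u := ReachIn.inComp hu
  exact (h6.mono hYB).symm

end Pool.Agent.CT
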