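import Pool.Agent.CT.DDefs

set_option autoImplicit false

/-! # D0, D22, D23: uniqueness of enumerations, duality, countability -/

namespace Pool.Agent.CT

open Set

section D0

variable {V E F : Type} {M : Inc V E F} {C : Set E} {n : ℕ} {x x' : ℤ → V} {y y' : ℤ → E}

theorem D0_card (h : IsCurve M C n x y) : Nat.card C = n := by
  have hinj : Function.Injective (fun z : ZMod n => y (ZMod.cast z : ℤ)) := by
    intro z w hzw
    have h1 := (h.y_eq _ _).1 hzw
    have h2 := (ZMod.intCast_eq_intCast_iff_dvd_sub (ZMod.cast w : ℤ) (ZMod.cast z : ℤ) n).2 h1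
    rw [ZMod.intCast_zmod_cast, ZMod.intCast_zmod_cast] at h2
    exact h2.symm
  have hran : range (fun z : ZMod n => y (ZMod.cast z : ℤ)) = C := by
    ext e
    rw [h.mem e]
    constructor
    · rintro ⟨z, rfl⟩
      exact ⟨_, rfl⟩
    · rintro ⟨i, rfl⟩
      refine ⟨(i : ZMod n), ?_⟩
      show y _ = y i
      rw [h.y_eq]
      rw [← ZMod.intCast_eq_intCast_iff_dvd_sub, ZMod.intCast_zmod_cast]
  rw [← hran, Nat.card_range_of_injective hinj, Nat.card_zmod]

theorem D0_not_dvd_one (h : IsCurve M C n x y) : ¬ (n : ℤ) ∣ 1 := by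
  intro h1
  have h2 := Int.natCast_dvd.1 h1
  have h3 : n ∣ 1 := by simpa using h2
  rw [Nat.dvd_one] at h3
  rcases h.n_ne with h4 | h4 <;> omega

theorem D0_x_ne (h : IsCurve M C n x y) (i : ℤ) : x i ≠ x (i + 1) := by
  intro h1
  apply D0_not_dvd_one h
  have h2 := (h.x_eq _ _).1 h1
  have h3 : (n : ℤ) ∣ -(i - (i + 1)) := (dvd_neg).2 h2
  have h4 : -(i - (i + 1)) = 1 := by ring
  rwa [h4] at h3

theorem D0_y_ne (h : IsCurve M C n x y) (i : ℤ) : y i ≠ y (i + 1) := by
  intro h1
  apply D0_not_dvd_one h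
  have h2 := (h.y_eq _ _).1 h1
  have h3 : (n : ℤ) ∣ -(i - (i + 1)) := (dvd_neg).2 h2
  have h4 : -(i - (i + 1)) = 1 := by ring
  rwa [h4] at h3

/-- The edges of the curve at a vertex of the curve. -/
theorem D0_at (h : IsCurve M C n x y) {e : E} (he : e ∈ C) (j : ℤ) (hv : M.ve (x j) e) :
    e = y j ∨ e = y (j - 1) := by
  obtain ⟨k, rfl⟩ := (h.mem e).1 he
  rcases (h.ve k _).1 hv with h1 | h1
  · left
    rw [h.y_eq]
    have h2 := (h.x_eq _ _).1 h1
    have h3 : (n : ℤ) ∣ -(j - k) := (dvd_neg).2 h2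
    have h4 : -(j - k) = k - j := by ring
    rwa [h4] at h3
  · right
    rw [h.y_eq]
    have h2 := (h.x_eq _ _).1 h1
    have h3 : (n : ℤ) ∣ -(j - (k + 1)) := (dvd_neg).2 h2
    have h4 : -(j - (k + 1)) = k - (j - 1) := by ring
    rwa [h4] at h3

theorem D0_shift (h : IsCurve M C n x y) (h' : IsCurve M C n x' y') (a : ℤ) (hx : x' 0 = x a)
    (hy : y' 0 = y a) : ∀ i, x' i = x (i + a) ∧ y' i = y (i + a) := by
  intro i
  induction i using Int.induction_on with
  | zero => simpa using ⟨hx, hy⟩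
  | succ i ih =>
    obtain ⟨ih1, ih2⟩ := ih
    have e1 : (i : ℤ) + 1 + a = (i : ℤ) + a + 1 := by ring
    have h1 : M.ve (x' ((i : ℤ) + 1)) (y ((i : ℤ) + a)) := by
      rw [← ih2]
      exact (h'.ve _ _).2 (Or.inr rfl)
    have h2 : x' ((i : ℤ) + 1) = x ((i : ℤ) + a + 1) := by
      rcases (h.ve _ _).1 h1 with h3 | h3
      · exact absurd (ih1.trans h3.symm) (D0_x_ne h' _)
      · exact h3
    refine ⟨by rw [e1]; exact h2, ?_⟩
    have h3 : M.ve (x ((i : ℤ) + a + 1)) (y' ((i : ℤ) + 1)) := by
      rw [← h2]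
      exact (h'.ve _ _).2 (Or.inl rfl)
    rcases D0_at h ((h'.mem _).2 ⟨_, rfl⟩) _ h3 with h4 | h4
    · rw [e1]
      exact h4
    · exfalso
      have e2 : (i : ℤ) + a + 1 - 1 = (i : ℤ) + a := by ring
      rw [e2, ← ih2] at h4
      exact D0_y_ne h' _ h4.symm
  | pred i ih =>
    obtain ⟨ih1, ih2⟩ := ih
    have e0 : -(i : ℤ) - 1 + 1 = -(i : ℤ) := by ring
    have e1 : -(i : ℤ) - 1 + a = -(i : ℤ) + a - 1 := by ring
    have h3 : M.ve (x (-(i : ℤ) + a)) (y' (-(i : ℤ) - 1)) := by
      rw [← ih1]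
      exact (h'.ve _ _).2 (Or.inr (by rw [e0]))
    have h5 : y' (-(i : ℤ) - 1) = y (-(i : ℤ) + a - 1) := by
      rcases D0_at h ((h'.mem _).2 ⟨_, rfl⟩) _ h3 with h4 | h4
      · exfalso
        rw [← ih2] at h4
        have h6 := D0_y_ne h' (-(i : ℤ) - 1)
        rw [e0] at h6
        exact h6 h4
      · exact h4
    refine ⟨?_, by rw [e1]; exact h5⟩
    have h1 : M.ve (x' (-(i : ℤ) - 1)) (y (-(i : ℤ) + a - 1)) := by
      rw [← h5]
      exact (h'.ve _ _).2 (Or.inl rfl)
    rcases (h.ve _ _).1 h1 with h6 | h6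
    · rw [e1]
      exact h6
    · exfalso
      have e2 : -(i : ℤ) + a - 1 + 1 = -(i : ℤ) + a := by ring
      rw [e2, ← ih1] at h6
      have h7 := D0_x_ne h' (-(i : ℤ) - 1)
      rw [e0] at h7
      exact h7 h6

theorem D0_refl (h : IsCurve M C n x y) (k : ℤ) :
    IsCurve M C n (fun i => x (k - i)) (fun i => y (k - i - 1)) where
  n_ne := h.n_ne
  x_eq := by
    intro i j
    rw [h.x_eq]
    have e : (k - i) - (k - j) = -(i - j) := by ring
    rw [e]
    exact dvd_neg
  y_eq := by
    intro i j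
    rw [h.y_eq]
    have e : (k - i - 1) - (k - j - 1) = -(i - j) := by ring
    rw [e]
    exact dvd_neg
  mem := by
    intro e
    rw [h.mem]
    constructor
    · rintro ⟨i, rfl⟩
      exact ⟨k - i - 1, by congr 1; ring⟩
    · rintro ⟨i, rfl⟩
      exact ⟨_, rfl⟩
  ve := by
    intro i v
    rw [h.ve]
    have e1 : k - i - 1 + 1 = k - i := by ring
    have e2 : k - (i + 1) = k - i - 1 := by ring
    rw [e1, e2]
    exact or_comm

end D0

theorem cD0 : Stmt_CycUnique := by
  intro V E F M C n m x x' y y' h h'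
  have hnm : n = m := by rw [← D0_card h, ← D0_card h']
  subst hnm
  refine ⟨rfl, ?_⟩
  obtain ⟨a, ha⟩ := (h.mem _).1 ((h'.mem _).2 ⟨0, rfl⟩)
  have hv0 : M.ve (x' 0) (y a) := by
    rw [ha]
    exact (h'.ve _ _).2 (Or.inl rfl)
  rcases (h.ve _ _).1 hv0 with h1 | h1
  · left
    exact ⟨a, D0_shift h h' a h1 ha.symm⟩
  · right
    refine ⟨a + 1, ?_⟩
    have h2 := D0_shift (D0_refl h (a + 1)) h' 0 (by simpa using h1) (by
      show y' 0 = y (a + 1 - 0 - 1)
      rw [← ha]
      congr 1
      ring)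
    intro i
    have h3 := h2 i
    simp only [add_zero] at h3
    exact h3

section D22

variable {V E F : Type}

/-- The swap of vertices and faces on cells. -/
def D22_swap : Cell F E V → Cell V E F
  | .vert f => .face f
  | .edge e => .edge e
  | .face v => .vert v

theorem D22_inj : Function.Injective (D22_swap : Cell F E V → Cell V E F) := by
  intro a b h
  cases a <;> cases b <;> simp_all [D22_swap]

theorem D22_adj (M : Inc V E F) {a b : Cell F E V} (h : M.dual.cellGraph.Adj a b) :
    M.cellGraph.Adj (D22_swap a) (D22_swap b) := by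
  have key : ∀ a b : Cell F E V, CellInc M.dual a b → CellInc M (D22_swap b) (D22_swap a) := by
    intro a b h
    cases h with
    | ve h => exact CellInc.ef h
    | ef h => exact CellInc.ve h
    | vf h =>
      obtain ⟨e, h1, h2⟩ := h
      exact CellInc.vf ⟨e, h2, h1⟩
  rcases h with h | h
  · exact Or.inr (key _ _ h)
  · exact Or.inl (key _ _ h)

end D22

theorem cD22 : Stmt_DualPlane := by
  intro V E F M
  refine ⟨{ toPolyMap := M.toPolyMap.dualMap
            vconn := M.fconn
            fconn := M.vconn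
            planar := ?_
            vend := M.fend
            fend := M.vend
            vinf := M.finf
            finf := M.vinf }, rfl⟩
  refine M.planar.minor (fun c => {D22_swap c}) (fun _ => singleton_nonempty _)
    (fun _ => ConnIn.singleton _) ?_ ?_
  · intro b b' hbb
    rw [Set.disjoint_singleton]
    exact fun h => hbb (D22_inj h)
  · intro b b' h
    exact ⟨_, rfl, _, rfl, D22_adj _ h⟩

section D23

variable {V E F : Type}

theorem D23_conn (G : SimpleGraph V) (hfin : ∀ v, {u | G.Adj v u}.Finite)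
    (hc : ConnIn G (univ : Set V)) : Countable V := by
  rcases isEmpty_or_nonempty V with hV | ⟨⟨v₀⟩⟩
  · infer_instance
  let S : ℕ → Set V := fun n => Nat.rec {v₀} (fun _ A => A ∪ ⋃ v ∈ A, {u | G.Adj v u}) n
  have hS0 : S 0 = {v₀} := rfl
  have hS1 : ∀ n, S (n + 1) = S n ∪ ⋃ v ∈ S n, {u | G.Adj v u} := fun _ => rfl
  have hSf : ∀ n, (S n).Finite := by
    intro n
    induction n with
    | zero => rw [hS0]; exact finite_singleton _
    | succ n ih =>
      rw [hS1]
      exact ih.union (ih.biUnion fun v _ => hfin v)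
  have hall : ∀ v, ∃ n, v ∈ S n := by
    intro v
    have h1 := hc v₀ (mem_univ _) v (mem_univ _)
    induction h1 with
    | refl => exact ⟨0, by rw [hS0]; rfl⟩
    | @tail b c _ h2 ih =>
      obtain ⟨n, hn⟩ := ih
      refine ⟨n + 1, ?_⟩
      rw [hS1]
      exact Or.inr (mem_biUnion hn h2.1)
  have hu : (⋃ n, S n) = univ := by
    ext v
    simpa using hall v
  have hcount : (⋃ n, S n).Countable := countable_iUnion fun n => (hSf n).countable
  rw [hu] at hcount
  exact countable_univ_iff.1 hcount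

end D23

theorem cD23 : Stmt_Countable := by
  intro V E F M
  have hfv : ∀ e, {v | M.ve v e}.Finite := by
    intro e
    obtain ⟨u, v, _, h⟩ := M.edge_verts e
    refine (Set.toFinite ({u, v} : Set V)).subset ?_
    intro w hw
    exact (h w).1 hw
  have hff : ∀ e, {f | M.ef e f}.Finite := by
    intro e
    obtain ⟨u, v, _, h⟩ := M.edge_faces e
    refine (Set.toFinite ({u, v} : Set F)).subset ?_
    intro w hw
    exact (h w).1 hw
  have hV : Countable V := by
    refine D23_conn M.vadj (fun v => ?_) M.vconn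
    refine ((M.vert_fin v).biUnion fun e _ => hfv e).subset ?_
    rintro u ⟨_, e, h1, h2⟩
    exact mem_biUnion h1 h2
  have hE : Countable E := by
    have hu : (⋃ v : V, {e | M.ve v e}) = univ := by
      ext e
      simp only [mem_iUnion, mem_setOf_eq, mem_univ, iff_true]
      obtain ⟨u, v, _, h⟩ := M.edge_verts e
      exact ⟨u, (h u).2 (Or.inl rfl)⟩
    have hcount : (⋃ v : V, {e | M.ve v e}).Countable :=
      countable_iUnion fun v => (M.vert_fin v).countable
    rw [hu] at hcount
    exact countable_univ_iff.1 hcount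
  have hF : Countable F := by
    have hu : (⋃ e : E, {f | M.ef e f}) = univ := by
      ext f
      simp only [mem_iUnion, mem_setOf_eq, mem_univ, iff_true]
      have h3 := M.face_card f
      have h4 : ({e | M.ef e f} : Set E).Nonempty := by
        rw [← Set.ncard_pos (M.face_fin f)]
        omega
      exact h4
    have hcount : (⋃ e : E, {f | M.ef e f}).Countable :=
      countable_iUnion fun e => (hff e).countable
    rw [hu] at hcount
    exact countable_univ_iff.1 hcount
  exact ⟨hV, hE, hF⟩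

end Pool.Agent.CT
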