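import Pool.Agent.CT.DDefs

set_option autoImplicit false

/-! # D11: nondegeneracy (compactness lemma) -/

namespace Pool.Agent.CT

open Set Metric Filter Topology

/-! ## Plane geometry -/

/-- A functional of the normalised position is a functional of the position. -/
theorem d11_functional {a b d : ℂ} (h : cross a b d ≠ 0) {w : ℂ} (hw : w ≠ 0) :
    ∃ (w' : ℂ) (k : ℝ), w' ≠ 0 ∧
      ∀ z, dir w ⟨cross a z d / cross a b d, cross a b z / cross a b d⟩ = dir w' z + k := by
  set C := cross a b d with hC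
  refine ⟨⟨(w.re * (d.im - a.im) - w.im * (b.im - a.im)) / C,
    (-w.re * (d.re - a.re) + w.im * (b.re - a.re)) / C⟩,
    (w.re * (-a.re * (d.im - a.im) + a.im * (d.re - a.re)) +
      w.im * (-a.im * (b.re - a.re) + a.re * (b.im - a.im))) / C, ?_, ?_⟩
  · intro h0
    have h1 := congrArg Complex.re h0
    have h2 := congrArg Complex.im h0
    simp only [Complex.zero_re, Complex.zero_im, div_eq_zero_iff, h, or_false] at h1 h2
    apply hw
    have e1 : w.re * C = 0 := by
      rw [hC]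
      unfold cross
      linear_combination (b.re - a.re) * h1 + (b.im - a.im) * h2
    have e2 : w.im * C = 0 := by
      rw [hC]
      unfold cross
      linear_combination (d.re - a.re) * h1 + (d.im - a.im) * h2
    apply Complex.ext
    · exact (mul_eq_zero.1 e1).resolve_right h
    · exact (mul_eq_zero.1 e2).resolve_right h
  · intro z
    unfold dir
    simp only
    have hz1 : cross a z d = (z.re - a.re) * (d.im - a.im) - (z.im - a.im) * (d.re - a.re) := rfl
    have hz2 : cross a b z = (b.re - a.re) * (z.im - a.im) - (b.im - a.im) * (z.re - a.re) := rfl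
    rw [hz1, hz2]
    field_simp
    ring

theorem d11_cross {a b d : ℂ} (p q r : ℂ) (h : cross a b d ≠ 0) :
    cross ⟨cross a p d / cross a b d, cross a b p / cross a b d⟩
      ⟨cross a q d / cross a b d, cross a b q / cross a b d⟩
      ⟨cross a r d / cross a b d, cross a b r / cross a b d⟩ = cross p q r / cross a b d := by
  set C := cross a b d with hC
  have key : (cross a q d - cross a p d) * (cross a b r - cross a b p) -
      (cross a b q - cross a b p) * (cross a r d - cross a p d) = cross p q r * C := by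
    rw [hC]
    unfold cross
    ring
  have e : cross (⟨cross a p d / C, cross a b p / C⟩ : ℂ) ⟨cross a q d / C, cross a b q / C⟩
      ⟨cross a r d / C, cross a b r / C⟩ = ((cross a q d - cross a p d) *
        (cross a b r - cross a b p) - (cross a b q - cross a b p) *
        (cross a r d - cross a p d)) / (C * C) := by
    show (cross a q d / C - cross a p d / C) * (cross a b r / C - cross a b p / C) -
      (cross a b q / C - cross a b p / C) * (cross a r d / C - cross a p d / C) = _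
    field_simp
  rw [e, key]
  field_simp

theorem d11_collinear {p q r : ℂ} (h : cross p q r = 0) :
    ∃ w : ℂ, w ≠ 0 ∧ dir w q = dir w p ∧ dir w r = dir w p := by
  by_cases h1 : q = p
  · by_cases h2 : r = p
    · exact ⟨1, one_ne_zero, by rw [h1], by rw [h2]⟩
    · refine ⟨⟨-(r.im - p.im), r.re - p.re⟩, ?_, by rw [h1], ?_⟩
      · intro h0
        apply h2
        have e1 := congrArg Complex.re h0
        have e2 := congrArg Complex.im h0
        simp only [Complex.zero_re, Complex.zero_im] at e1 e2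
        apply Complex.ext <;> linarith
      · unfold dir
        ring
  · refine ⟨⟨-(q.im - p.im), q.re - p.re⟩, ?_, ?_, ?_⟩
    · intro h0
      apply h1
      have e1 := congrArg Complex.re h0
      have e2 := congrArg Complex.im h0
      simp only [Complex.zero_re, Complex.zero_im] at e1 e2
      apply Complex.ext <;> linarith
    · unfold dir
      ring
    · unfold cross at h
      unfold dir
      simp only
      linear_combination h

/-! ## Balance in the limit -/

theorem d11_bal {V : Type} {c : V → V → ℝ} (hc : Net c) {g : ℕ → V → ℝ} {v : V}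
    (hg : ∀ n, Harm c (g n) v) {𝒰 : Ultrafilter ℕ} {c0 : ℝ}
    (h1 : ∀ η > 0, ∀ᶠ n in (𝒰 : Filter ℕ), g n v < c0 + η) {u0 : V} (hu0 : 0 < c v u0)
    {ε : ℝ} (hε : 0 < ε) (hup : ∀ᶠ n in (𝒰 : Filter ℕ), c0 + ε < g n u0) :
    ∃ u, 0 < c v u ∧ ∃ δ > 0, ∀ᶠ n in (𝒰 : Filter ℕ), g n u < c0 - δ := by
  by_contra hcon
  push Not at hcon
  set T : Finset V := (hc.fin v).toFinset with hT
  set W : ℝ := ∑ u ∈ T, c v u with hW
  have hW0 : 0 ≤ W := Finset.sum_nonneg fun u _ => hc.nonneg v u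
  set η : ℝ := c v u0 * ε / (2 * W + 1) with hη
  have hη0 : 0 < η := by positivity
  have e1 : ∀ᶠ n in (𝒰 : Filter ℕ), ∀ u ∈ (T : Set V), c0 - η ≤ g n u := by
    rw [Filter.eventually_all_finite T.finite_toSet]
    intro u hu
    have hu' : c v u ≠ 0 := by
      rw [hT] at hu
      simpa using hu
    have hpos : 0 < c v u := lt_of_le_of_ne (hc.nonneg v u) (Ne.symm hu')
    exact hcon u hpos η hη0
  obtain ⟨n, ⟨hn1, hn2⟩, hn3⟩ := ((e1.and hup).and (h1 η hη0)).exists
  have hharm : ∑ u ∈ T, c v u * (g n u - g n v) = 0 := by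
    have := hg n
    unfold Harm at this
    rw [finsum_eq_sum_of_support_subset (s := T)] at this
    · simpa [smul_eq_mul] using this
    · intro u hu
      rw [Function.mem_support] at hu
      rw [Finset.mem_coe, hT, Set.Finite.mem_toFinset]
      intro h
      apply hu
      rw [h, zero_smul]
  have h2 : c v u0 * (g n u0 - g n v + 2 * η) ≤ ∑ u ∈ T, c v u * (g n u - g n v + 2 * η) := by
    refine Finset.single_le_sum (f := fun u => c v u * (g n u - g n v + 2 * η)) ?_ ?_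
    · intro u hu
      have := hn1 u hu
      exact mul_nonneg (hc.nonneg v u) (by linarith)
    · rw [hT, Set.Finite.mem_toFinset]
      exact hu0.ne'
  have h3 : ∑ u ∈ T, c v u * (g n u - g n v + 2 * η) = 2 * η * W := by
    have : ∀ u ∈ T, c v u * (g n u - g n v + 2 * η) =
        c v u * (g n u - g n v) + 2 * η * c v u := fun u _ => by ring
    rw [Finset.sum_congr rfl this, Finset.sum_add_distrib, hharm, zero_add, ← Finset.mul_sum]
  have h4 : c v u0 * ε < 2 * η * W := by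
    rw [← h3]
    refine lt_of_lt_of_le ?_ h2
    exact mul_lt_mul_of_pos_left (by linarith) hu0
  have h5 : η * (2 * W + 1) = c v u0 * ε := by
    rw [hη]
    field_simp
  nlinarith

/-! ## Combinatorics -/

theorem d11_inj {V : Type} {x y z : V} (hxy : x ≠ y) (hxz : x ≠ z) (hyz : y ≠ z) :
    Function.Injective (![x, y, z] : Fin 3 → V) := by
  intro j k hjk
  fin_cases j <;> fin_cases k
  · rfl
  · exact absurd hjk hxy
  · exact absurd hjk hxz
  · exact absurd hjk.symm hxy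
  · rfl
  · exact absurd hjk hyz
  · exact absurd hjk.symm hxz
  · exact absurd hjk.symm hyz
  · rfl

theorem d11_comb (h3 : Stmt_FaceThree) {V E F : Type} (M : PlaneMap V E F) (f₀ : F) {I J : Set V}
    {U L : Set V} (hU : ConnIn M.vadj U) (hL : ConnIn M.vadj L) (hUL : Disjoint U L)
    (hI : ∀ v ∈ I, v ∉ U → v ∉ L → (∀ u, M.vadj.Adj v u → u ∉ U ∧ u ∉ L) ∨
      ((∃ u ∈ U, M.vadj.Adj v u) ∧ ∃ u ∈ L, M.vadj.Adj v u))
    (hJI : J ⊆ I) (hfJ : ∀ a, M.vf a f₀ → a ∈ J)
    (hJ : ∀ S : Set V, S.encard ≤ 2 → ∀ a b, M.vf a f₀ → M.vf b f₀ → a ∉ S → b ∉ S →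
      ReachIn M.vadj (J \ S) a b)
    {p : Fin 3 → V} (hp : Function.Injective p) (hpf : ∀ i, M.vf (p i) f₀)
    (hp1 : ∀ i, p i ∉ U) (hp2 : ∀ i, p i ∉ L) :
    ∀ x, M.vf x f₀ → x ∉ U ∧ x ∉ L := by
  have hT := fun (q : Fin 3 → V) hq hq1 hq2 hq3 hq4 =>
    h3 V E F M.toInc M.edge_verts M.planar U L q hq hU hL hUL hq1 hq2 hq3 hq4
  by_cases hal : ∀ i, (∃ u ∈ U, M.vadj.Adj (p i) u) ∧ ∃ u ∈ L, M.vadj.Adj (p i) u
  · exact ((hT p hp hp1 hp2 (fun i => (hal i).1) (fun i => (hal i).2)).1 f₀ hpf).elim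
  push Not at hal
  obtain ⟨i, hi⟩ := hal
  set a := p i with ha
  have haI : a ∈ I := hJI (hfJ a (hpf i))
  have hadead : ∀ u, M.vadj.Adj a u → u ∉ U ∧ u ∉ L := by
    rcases hI a haI (hp1 i) (hp2 i) with h | ⟨h, u, hu, hau⟩
    · exact h
    · exact absurd hau (hi h u hu)
  -- the dead vertices
  set Z : Set V := {v | v ∈ I ∧ v ∉ U ∧ v ∉ L ∧ ∀ u, M.vadj.Adj v u → u ∉ U ∧ u ∉ L} with hZ
  have haZ : a ∈ Z := ⟨haI, hp1 i, hp2 i, hadead⟩
  set K : Set V := {v | ReachIn M.vadj Z a v} with hK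
  have haK : a ∈ K := ReachIn.refl a
  have hKZ : K ⊆ Z := fun v hv => ReachIn.mem hv haZ
  have hKconn : ConnIn M.vadj K := connIn_compIn (Z := Z) a
  have hKU : Disjoint K U := Set.disjoint_left.2 fun v hv => (hKZ hv).2.1
  have hKL : Disjoint K L := Set.disjoint_left.2 fun v hv => (hKZ hv).2.2.1
  set S : Set V := {s | s ∈ I ∧ s ∉ K ∧ ∃ k ∈ K, M.vadj.Adj s k} with hS
  have hSlev : ∀ s ∈ S, s ∉ U ∧ s ∉ L := by
    rintro s ⟨_, _, k, hk, hsk⟩
    exact (hKZ hk).2.2.2 s hsk.symm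
  have hSalive : ∀ s ∈ S, (∃ u ∈ U, M.vadj.Adj s u) ∧ ∃ u ∈ L, M.vadj.Adj s u := by
    intro s hs
    rcases hI s hs.1 (hSlev s hs).1 (hSlev s hs).2 with h | h
    · exfalso
      obtain ⟨k, hk, hsk⟩ := hs.2.2
      apply hs.2.1
      exact ReachIn.tail (show ReachIn M.vadj Z a k from hk) hsk.symm (hKZ hk)
        ⟨hs.1, (hSlev s hs).1, (hSlev s hs).2, h⟩
    · exact h
  have hScard : S.encard ≤ 2 := by
    by_contra hgt
    push Not at hgt
    have h2 : (3 : ℕ∞) ≤ S.encard := by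
      have : (2 : ℕ∞) + 1 ≤ S.encard := Order.add_one_le_of_lt hgt
      calc (3 : ℕ∞) = 2 + 1 := by norm_num
        _ ≤ _ := this
    obtain ⟨t, htS, ht⟩ := Set.exists_subset_encard_eq h2
    obtain ⟨x, y, z, hxy, hxz, hyz, rfl⟩ := Set.encard_eq_three.1 ht
    have hx : x ∈ S := htS (by simp)
    have hy : y ∈ S := htS (by simp)
    have hz : z ∈ S := htS (by simp)
    have hall : ∀ j, (![x, y, z] : Fin 3 → V) j ∈ S := by
      intro j
      fin_cases j
      · exact hx
      · exact hy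
      · exact hz
    have hinj : Function.Injective (![x, y, z] : Fin 3 → V) := d11_inj hxy hxz hyz
    refine (hT ![x, y, z] hinj (fun j => (hSlev _ (hall j)).1) (fun j => (hSlev _ (hall j)).2)
      (fun j => (hSalive _ (hall j)).1) (fun j => (hSalive _ (hall j)).2)).2 K hKconn hKU hKL
      (fun j => (hall j).2.1) (fun j => (hall j).2.2)
  intro x hx
  by_cases hxS : x ∈ S
  · exact hSlev x hxS
  have hr := hJ S hScard a x (hpf i) hx (fun h => h.2.1 haK) hxS
  have hxK : x ∈ K := by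
    refine ReachIn.closed hr haK ?_
    intro y hy z hz hyz
    by_contra hzK
    exact hz.2 ⟨hJI hz.1, hzK, y, hy, hyz.symm⟩
  exact ⟨(hKZ hxK).2.1, (hKZ hxK).2.2.1⟩

/-! ## The disc -/

section disc

variable {V E F : Type}

theorem d11_edgeVerts_fin (M : PolyMap V E F) (e : E) : {v | M.ve v e}.Finite := by
  obtain ⟨f, g, _, h⟩ := M.edge_verts e
  refine (Set.toFinite {f, g}).subset ?_
  intro x hx
  exact (h x).1 hx

theorem d11_faceVerts_fin (M : PolyMap V E F) (f : F) : {v | M.vf v f}.Finite := by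
  refine ((M.face_fin f).biUnion fun e _ => d11_edgeVerts_fin M e).subset ?_
  rintro v ⟨e, h1, h2⟩
  exact mem_biUnion h2 h1

theorem d11_touch_fin (M : PolyMap V E F) {D : Set F} (hD : D.Finite) :
    {v | Touch M.toInc D v}.Finite := by
  refine (hD.biUnion fun d _ => d11_faceVerts_fin M d).subset ?_
  rintro v ⟨d, hd, hv⟩
  exact mem_biUnion hd hv

theorem d11_net (M : PolyMap V E F) (D : Set F) {c : V → V → ℝ} (hc : PosWt M.toInc c) :
    Net (discWt M.toInc D c) := by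
  constructor
  · intro v
    refine ((M.vert_fin v).biUnion fun e _ => d11_edgeVerts_fin M e).subset ?_
    intro u hu
    have hu' : discWt M.toInc D c v u ≠ 0 := hu
    unfold discWt at hu'
    by_cases h1 : IntV M.toInc D v
    · rw [if_pos h1] at hu'
      by_cases h2 : M.vadj.Adj v u
      · obtain ⟨_, e, he1, he2⟩ := h2
        exact mem_biUnion he1 he2
      · rw [if_neg h2] at hu'
        exact absurd rfl hu'
    · rw [if_neg h1] at hu'
      by_cases h2 : FrAdj M.toInc D v u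
      · obtain ⟨_, e, _, he1, he2⟩ := h2
        exact mem_biUnion he1 he2
      · rw [if_neg h2] at hu'
        exact absurd rfl hu'
  · intro v u
    unfold discWt
    split_ifs with h1 h2 h3
    · exact (hc v u h2).le
    · exact le_rfl
    · exact zero_le_one
    · exact le_rfl

theorem d11_wt_pos {M : PolyMap V E F} {D : Set F} {c : V → V → ℝ} (hc : PosWt M.toInc c) {v : V}
    (hv : IntV M.toInc D v) (u : V) : 0 < discWt M.toInc D c v u ↔ M.vadj.Adj v u := by
  unfold discWt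
  rw [if_pos hv]
  constructor
  · intro h
    by_contra h2
    rw [if_neg h2] at h
    exact lt_irrefl _ h
  · intro h
    rw [if_pos h]
    exact hc v u h

/-- Neighbours of interior vertices touch `D`. -/
theorem d11_touch {M : PolyMap V E F} {D : Set F} {v u : V} (hv : IntV M.toInc D v)
    (h : M.vadj.Adj v u) : Touch M.toInc D u := by
  obtain ⟨_, e, he1, he2⟩ := h
  obtain ⟨f, g, _, hfg⟩ := M.edge_faces e
  have hef : M.ef e f := (hfg f).2 (Or.inl rfl)
  by_cases hf : f ∈ D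
  · exact ⟨f, hf, e, he2, hef⟩
  · exact absurd ⟨f, hf, e, he1, hef⟩ hv.2

/-- Upper level sets are connected. -/
theorem d11_up (h1 : Stmt_SubBlk) (h6 : Stmt_Adm) (h7 : Stmt_DiscHyp) (M : PlaneMap V E F)
    {D : Set F} (hD : TightDisc M.toInc D) {c : V → V → ℝ} (hc : PosWt M.toInc c) {P φ : V → ℂ}
    (hP : ConvPos M.toInc D P) (hφ : DiscExt M.toInc D c P φ) {w : ℂ} (hw : w ≠ 0) (k : ℝ) :
    ConnIn M.vadj {v | Touch M.toInc D v ∧ k < dir w (φ v)} := by
  have hA := h6 V E F M D hD c P φ hP hφ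
  obtain ⟨B, hBe⟩ := h1 V E F M D
  have hyp := (h7 V E F M D hD c hc P φ hφ hA).1 B hBe
  have hup := hyp.up w hw k
  rw [hBe] at hup
  rintro a ⟨ha, ha'⟩ b ⟨hb, hb'⟩
  have := hup ⟨a, ha⟩ ha' ⟨b, hb⟩ hb'
  refine ReachIn.map (f := fun v : {v // Touch M.toInc D v} => v.1) this ?_
  rintro ⟨x, hx⟩ hx' ⟨y, hy⟩ hy' ⟨hne, e, he1, he2⟩
  refine ReachIn.single ⟨fun h => hne (Subtype.ext h), e.1, he1, he2⟩ ⟨hx, hx'⟩ ⟨hy, hy'⟩


theorem d11_main (h1 : Stmt_SubBlk) (h6 : Stmt_Adm) (h7 : Stmt_DiscHyp) (h3 : Stmt_FaceThree)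
    (hH : Stmt_Harm) (M : PlaneMap V E F) {D : Set F} {f₀ : F} (hD : TightDisc M.toInc D)
    (hf : Deep M.toInc D f₀) {c : V → V → ℝ} (hc : PosWt M.toInc c) {a b d a' b' d' : V}
    (ha : M.vf a f₀) (hb : M.vf b f₀) (hd : M.vf d f₀) (hab : a ≠ b) (hbd : b ≠ d) (had : a ≠ d)
    (ha' : M.vf a' f₀) (hb' : M.vf b' f₀) (hd' : M.vf d' f₀) :
    ∃ δ > 0, ∀ P φ : V → ℂ, ConvPos M.toInc D P → DiscExt M.toInc D c P φ →
      (∀ x y z, M.vf x f₀ → M.vf y f₀ → M.vf z f₀ →
        |cross (φ x) (φ y) (φ z)| ≤ |cross (φ a') (φ b') (φ d')|) →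
      δ * |cross (φ a') (φ b') (φ d')| ≤ |cross (φ a) (φ b) (φ d)| := by
  by_contra hcon
  push Not at hcon
  have hex : ∀ n : ℕ, ∃ P φ : V → ℂ, ConvPos M.toInc D P ∧ DiscExt M.toInc D c P φ ∧
      (∀ x y z, M.vf x f₀ → M.vf y f₀ → M.vf z f₀ →
        |cross (φ x) (φ y) (φ z)| ≤ |cross (φ a') (φ b') (φ d')|) ∧
      |cross (φ a) (φ b) (φ d)| < 1 / ((n : ℝ) + 1) * |cross (φ a') (φ b') (φ d')| := by
    intro n
    obtain ⟨P, φ, q1, q2, q3, q4⟩ := hcon (1 / ((n : ℝ) + 1)) (by positivity)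
    exact ⟨P, φ, q1, q2, q3, q4⟩
  choose P φ hP hφ hmax hlt using hex
  have hC0 : ∀ n, cross (φ n a') (φ n b') (φ n d') ≠ 0 := by
    intro n h0
    have := hlt n
    rw [h0, abs_zero, mul_zero] at this
    exact absurd this (not_lt.2 (abs_nonneg _))
  set z : ℕ → V → ℂ := fun n v => ⟨cross (φ n a') (φ n v) (φ n d') /
    cross (φ n a') (φ n b') (φ n d'), cross (φ n a') (φ n b') (φ n v) /
    cross (φ n a') (φ n b') (φ n d')⟩ with hz
  have hzb : ∀ n v, M.vf v f₀ → z n v ∈ closedBall (0 : ℂ) 2 := by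
    intro n v hv
    rw [mem_closedBall_zero_iff]
    have e1 : |(z n v).re| ≤ 1 := by
      show |cross (φ n a') (φ n v) (φ n d') / cross (φ n a') (φ n b') (φ n d')| ≤ 1
      rw [abs_div, div_le_one (abs_pos.2 (hC0 n))]
      exact hmax n _ _ _ ha' hv hd'
    have e2 : |(z n v).im| ≤ 1 := by
      show |cross (φ n a') (φ n b') (φ n v) / cross (φ n a') (φ n b') (φ n d')| ≤ 1
      rw [abs_div, div_le_one (abs_pos.2 (hC0 n))]
      exact hmax n _ _ _ ha' hb' hv
    linarith [Complex.norm_le_abs_re_add_abs_im (z n v)]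
  obtain ⟨𝒰, h𝒰⟩ : ∃ 𝒰 : Ultrafilter ℕ, (𝒰 : Filter ℕ) ≤ atTop :=
    ⟨hyperfilter ℕ, Nat.hyperfilter_le_atTop⟩
  have hlim : ∀ v, M.vf v f₀ → ∃ y, Tendsto (fun n => z n v) 𝒰 (𝓝 y) := by
    intro v hv
    obtain ⟨y, _, hy⟩ := (isCompact_closedBall (0 : ℂ) 2).ultrafilter_le_nhds
      (𝒰.map (fun n => z n v)) (by
        rw [Filter.le_principal_iff]
        exact Ultrafilter.mem_map.2 (Filter.Eventually.of_forall fun n => hzb n v hv))
    exact ⟨y, hy⟩
  obtain ⟨ya, hya⟩ := hlim a ha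
  obtain ⟨yb, hyb⟩ := hlim b hb
  obtain ⟨yd, hyd⟩ := hlim d hd
  have hcr : cross ya yb yd = 0 := by
    have t1 : Tendsto (fun n => cross (z n a) (z n b) (z n d)) 𝒰 (𝓝 (cross ya yb yd)) := by
      unfold cross
      have r1 := (Complex.continuous_re.tendsto _).comp hya
      have r2 := (Complex.continuous_re.tendsto _).comp hyb
      have r3 := (Complex.continuous_re.tendsto _).comp hyd
      have i1 := (Complex.continuous_im.tendsto _).comp hya
      have i2 := (Complex.continuous_im.tendsto _).comp hyb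
      have i3 := (Complex.continuous_im.tendsto _).comp hyd
      exact ((r2.sub r1).mul (i3.sub i1)).sub ((i2.sub i1).mul (r3.sub r1))
    have t2 : Tendsto (fun n => cross (z n a) (z n b) (z n d)) 𝒰 (𝓝 0) := by
      refine Tendsto.mono_left ?_ h𝒰
      refine squeeze_zero_norm (a := fun n : ℕ => 1 / ((n : ℝ) + 1)) ?_
        tendsto_one_div_add_atTop_nhds_zero_nat
      intro n
      have e : cross (z n a) (z n b) (z n d) = cross (φ n a) (φ n b) (φ n d) /
          cross (φ n a') (φ n b') (φ n d') := d11_cross _ _ _ (hC0 n)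
      rw [e, Real.norm_eq_abs, abs_div, div_le_iff₀ (abs_pos.2 (hC0 n))]
      exact (hlt n).le
    exact tendsto_nhds_unique t1 t2
  obtain ⟨w, hw, hwb, hwd⟩ := d11_collinear hcr
  obtain ⟨g, hg⟩ : ∃ g : ℕ → V → ℝ, g = fun n v => dir w (z n v) := ⟨_, rfl⟩
  obtain ⟨c0, hc0⟩ : ∃ c0 : ℝ, c0 = dir w ya := ⟨_, rfl⟩
  have hdirc : Continuous (fun y : ℂ => dir w y) := by
    unfold dir
    fun_prop
  have hga : Tendsto (fun n => g n a) 𝒰 (𝓝 c0) := by
    rw [hg, hc0]
    exact (hdirc.tendsto _).comp hya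
  have hgb : Tendsto (fun n => g n b) 𝒰 (𝓝 c0) := by
    rw [hg, hc0, ← hwb]
    exact (hdirc.tendsto _).comp hyb
  have hgd : Tendsto (fun n => g n d) 𝒰 (𝓝 c0) := by
    rw [hg, hc0, ← hwd]
    exact (hdirc.tendsto _).comp hyd
  have hfun : ∀ n, ∃ (w' : ℂ) (k : ℝ), w' ≠ 0 ∧ ∀ v, g n v = dir w' (φ n v) + k := by
    intro n
    obtain ⟨w', k, h, h'⟩ := d11_functional (hC0 n) hw
    refine ⟨w', k, h, fun v => ?_⟩
    rw [hg]
    exact h' (φ n v)
  choose w' k hw' hgk using hfun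
  have hN := d11_net M.toPolyMap D hc
  have hgh : ∀ n v, IntV M.toInc D v → Harm (discWt M.toInc D c) (g n) v := by
    intro n v hv
    have hunk : v ∈ Unk M.toInc D := by
      refine ⟨hv.1, ?_⟩
      rintro ⟨_, f, _, _, hfD, _, hvf, _⟩
      exact hv.2 ⟨f, hfD, hvf⟩
    have := (hH V _ hN).2.2.1 (φ n) v (w' n) ((hφ n).2 v hunk)
    unfold Harm at this ⊢
    rw [← this]
    refine finsum_congr fun u => ?_
    rw [hgk, hgk]
    congr 1
    ring
  set Up : V → Prop := fun v => ∃ ε > 0, ∀ᶠ n in (𝒰 : Filter ℕ), c0 + ε < g n v with hUp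
  set Dn : V → Prop := fun v => ∃ ε > 0, ∀ᶠ n in (𝒰 : Filter ℕ), g n v < c0 - ε with hDn
  have hTfin := d11_touch_fin M.toPolyMap hD.fin
  have hunif : ∃ ε : ℝ, 0 < ε ∧ ∀ v ∈ {v | Touch M.toInc D v},
      (Up v → ∀ᶠ n in (𝒰 : Filter ℕ), c0 + ε < g n v) ∧
      (Dn v → ∀ᶠ n in (𝒰 : Filter ℕ), g n v < c0 - ε) := by
    have : ∀ᶠ ε in 𝓝[>] (0 : ℝ), ∀ v ∈ {v | Touch M.toInc D v},
        (Up v → ∀ᶠ n in (𝒰 : Filter ℕ), c0 + ε < g n v) ∧
        (Dn v → ∀ᶠ n in (𝒰 : Filter ℕ), g n v < c0 - ε) := by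
      rw [Filter.eventually_all_finite hTfin]
      intro v _
      refine Filter.Eventually.and ?_ ?_
      · by_cases h : Up v
        · obtain ⟨ε0, hε0, he⟩ := h
          filter_upwards [Ioo_mem_nhdsGT hε0] with ε hε _
          filter_upwards [he] with n hn
          linarith [hε.2]
        · exact Filter.Eventually.of_forall fun ε h' => absurd h' h
      · by_cases h : Dn v
        · obtain ⟨ε0, hε0, he⟩ := h
          filter_upwards [Ioo_mem_nhdsGT hε0] with ε hε _
          filter_upwards [he] with n hn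
          linarith [hε.2]
        · exact Filter.Eventually.of_forall fun ε h' => absurd h' h
    obtain ⟨ε, h1', h2'⟩ := (this.and self_mem_nhdsWithin).exists
    exact ⟨ε, h2', h1'⟩
  obtain ⟨ε, hε, hunif⟩ := hunif
  have hn : ∃ n, ∀ v ∈ {v | Touch M.toInc D v}, (Up v ↔ c0 + ε < g n v) ∧
      (Dn v ↔ g n v < c0 - ε) := by
    have : ∀ᶠ n in (𝒰 : Filter ℕ), ∀ v ∈ {v | Touch M.toInc D v}, (Up v ↔ c0 + ε < g n v) ∧
        (Dn v ↔ g n v < c0 - ε) := by
      rw [Filter.eventually_all_finite hTfin]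
      intro v hv
      refine Filter.Eventually.and ?_ ?_
      · by_cases h : Up v
        · filter_upwards [(hunif v hv).1 h] with n hn
          exact ⟨fun _ => hn, fun _ => h⟩
        · have h' : ¬ ∀ᶠ n in (𝒰 : Filter ℕ), c0 + ε < g n v := fun h' => h ⟨ε, hε, h'⟩
          filter_upwards [Ultrafilter.eventually_not.2 h'] with n hn
          exact ⟨fun h'' => absurd h'' h, fun h'' => absurd h'' hn⟩
      · by_cases h : Dn v
        · filter_upwards [(hunif v hv).2 h] with n hn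
          exact ⟨fun _ => hn, fun _ => h⟩
        · have h' : ¬ ∀ᶠ n in (𝒰 : Filter ℕ), g n v < c0 - ε := fun h' => h ⟨ε, hε, h'⟩
          filter_upwards [Ultrafilter.eventually_not.2 h'] with n hn
          exact ⟨fun h'' => absurd h'' h, fun h'' => absurd h'' hn⟩
    exact this.exists
  obtain ⟨n, hn⟩ := hn
  have hUeq : {v | Touch M.toInc D v ∧ Up v} =
      {v | Touch M.toInc D v ∧ c0 + ε - k n < dir (w' n) (φ n v)} := by
    ext v
    simp only [mem_ofPred_eq]
    refine and_congr_right fun hv => ?_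
    rw [(hn v hv).1, hgk]
    constructor <;> intro h <;> linarith
  have hLeq : {v | Touch M.toInc D v ∧ Dn v} =
      {v | Touch M.toInc D v ∧ k n - (c0 - ε) < dir (-(w' n)) (φ n v)} := by
    ext v
    simp only [mem_ofPred_eq]
    refine and_congr_right fun hv => ?_
    rw [(hn v hv).2, hgk]
    have : dir (-(w' n)) (φ n v) = -dir (w' n) (φ n v) := by
      unfold dir
      simp only [Complex.neg_re, Complex.neg_im]
      ring
    rw [this]
    constructor <;> intro h <;> linarith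
  have hU := d11_up h1 h6 h7 M hD hc (hP n) (hφ n) (hw' n) (c0 + ε - k n)
  have hL := d11_up h1 h6 h7 M hD hc (hP n) (hφ n) (neg_ne_zero.2 (hw' n)) (k n - (c0 - ε))
  rw [← hUeq] at hU
  rw [← hLeq] at hL
  have hUL : Disjoint {v | Touch M.toInc D v ∧ Up v} {v | Touch M.toInc D v ∧ Dn v} := by
    rw [Set.disjoint_left]
    rintro v ⟨hv, hv1⟩ ⟨_, hv2⟩
    have e1 := (hn v hv).1.1 hv1
    have e2 := (hn v hv).2.1 hv2
    linarith
  have hupdn : ∀ v, IntV M.toInc D v → ¬ Up v → (∃ u, M.vadj.Adj v u ∧ Up u) →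
      ∃ u, M.vadj.Adj v u ∧ Dn u := by
    rintro v hv hvU ⟨u, hu, ε0, hε0, he⟩
    have hb1 : ∀ η > 0, ∀ᶠ n in (𝒰 : Filter ℕ), g n v < c0 + η := by
      intro η hη
      have h' : ¬ ∀ᶠ n in (𝒰 : Filter ℕ), c0 + η / 2 < g n v := fun h' =>
        hvU ⟨η / 2, by linarith, h'⟩
      filter_upwards [Ultrafilter.eventually_not.2 h'] with n hn
      linarith [not_lt.1 hn]
    obtain ⟨u', hu', h'⟩ := d11_bal hN (fun n => hgh n v hv) hb1
      ((d11_wt_pos hc hv u).2 hu) hε0 he
    exact ⟨u', (d11_wt_pos hc hv u').1 hu', h'⟩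
  have hdnup : ∀ v, IntV M.toInc D v → ¬ Dn v → (∃ u, M.vadj.Adj v u ∧ Dn u) →
      ∃ u, M.vadj.Adj v u ∧ Up u := by
    rintro v hv hvD ⟨u, hu, ε0, hε0, he⟩
    have hb1 : ∀ η > 0, ∀ᶠ n in (𝒰 : Filter ℕ), -g n v < -c0 + η := by
      intro η hη
      have h' : ¬ ∀ᶠ n in (𝒰 : Filter ℕ), g n v < c0 - η / 2 := fun h' =>
        hvD ⟨η / 2, by linarith, h'⟩
      filter_upwards [Ultrafilter.eventually_not.2 h'] with n hn
      linarith [not_lt.1 hn]
    have hgh' : ∀ n, Harm (discWt M.toInc D c) (fun v => -g n v) v := by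
      intro n
      have := hgh n v hv
      unfold Harm at this ⊢
      rw [← neg_zero, ← this, ← finsum_neg_distrib]
      refine finsum_congr fun u => ?_
      rw [← smul_neg]
      congr 1
      ring
    obtain ⟨u', hu', ε1, hε1, h'⟩ := d11_bal (g := fun n v => -g n v) hN hgh' hb1
      ((d11_wt_pos hc hv u).2 hu) hε0 (by
        filter_upwards [he] with n hn
        linarith)
    refine ⟨u', (d11_wt_pos hc hv u').1 hu', ε1, hε1, ?_⟩
    filter_upwards [h'] with n hn
    linarith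
  obtain ⟨J, hJ1, hJ2, hJ3⟩ := hf.int
  have hUpNot : ∀ v, Tendsto (fun n => g n v) 𝒰 (𝓝 c0) → ¬ Up v ∧ ¬ Dn v := by
    intro v hv
    constructor
    · rintro ⟨ε1, hε1, he⟩
      have := ge_of_tendsto hv (he.mono fun n hn => hn.le)
      linarith
    · rintro ⟨ε1, hε1, he⟩
      have := le_of_tendsto hv (he.mono fun n hn => hn.le)
      linarith
  have hcomb := d11_comb h3 M f₀ (I := {v | IntV M.toInc D v}) (J := J)
    (p := ![a, b, d]) hU hL hUL ?_ hJ1 hJ2 hJ3 (d11_inj hab had hbd) ?_ ?_ ?_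
  · have hfix : ∀ v r, M.vf v f₀ → (∀ n, g n v = r) → r = c0 := by
      intro v r hv hr
      have hvT : Touch M.toInc D v := ⟨f₀, hf.mem, hv⟩
      have h := hcomb v hv
      have hnU : ¬ Up v := fun h' => h.1 ⟨hvT, h'⟩
      have hnD : ¬ Dn v := fun h' => h.2 ⟨hvT, h'⟩
      rcases lt_trichotomy r c0 with hlt' | heq | hgt
      · exfalso
        apply hnD
        refine ⟨(c0 - r) / 2, by linarith, Filter.Eventually.of_forall fun n => ?_⟩
        rw [hr]
        linarith
      · exact heq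
      · exfalso
        apply hnU
        refine ⟨(r - c0) / 2, by linarith, Filter.Eventually.of_forall fun n => ?_⟩
        rw [hr]
        linarith
    have q1 : (0 : ℝ) = c0 := by
      refine hfix a' 0 ha' fun n => ?_
      rw [hg]
      show dir w (z n a') = 0
      have : z n a' = 0 := by
        apply Complex.ext
        · show cross (φ n a') (φ n a') (φ n d') / cross (φ n a') (φ n b') (φ n d') = 0
          unfold cross
          simp
        · show cross (φ n a') (φ n b') (φ n a') / cross (φ n a') (φ n b') (φ n d') = 0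
          unfold cross
          simp
      rw [this]
      unfold dir
      simp
    have q2 : w.re = c0 := by
      refine hfix b' w.re hb' fun n => ?_
      rw [hg]
      show dir w (z n b') = w.re
      have e1 : (z n b').re = 1 := div_self (hC0 n)
      have e2 : (z n b').im = 0 := by
        show cross (φ n a') (φ n b') (φ n b') / cross (φ n a') (φ n b') (φ n d') = 0
        rw [div_eq_zero_iff]
        left
        unfold cross
        ring
      unfold dir
      rw [e1, e2]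
      ring
    have q3 : w.im = c0 := by
      refine hfix d' w.im hd' fun n => ?_
      rw [hg]
      show dir w (z n d') = w.im
      have e1 : (z n d').im = 1 := div_self (hC0 n)
      have e2 : (z n d').re = 0 := by
        show cross (φ n a') (φ n d') (φ n d') / cross (φ n a') (φ n b') (φ n d') = 0
        rw [div_eq_zero_iff]
        left
        unfold cross
        ring
      unfold dir
      rw [e1, e2]
      ring
    apply hw
    apply Complex.ext
    · rw [q2, ← q1]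
      rfl
    · rw [q3, ← q1]
      rfl
  · intro v hv hvU hvL
    have hvU' : ¬ Up v := fun h' => hvU ⟨hv.1, h'⟩
    have hvL' : ¬ Dn v := fun h' => hvL ⟨hv.1, h'⟩
    by_cases hex : ∃ u, M.vadj.Adj v u ∧ (Up u ∨ Dn u)
    · right
      obtain ⟨u, hu, hu'⟩ := hex
      have hboth : (∃ u, M.vadj.Adj v u ∧ Up u) ∧ ∃ u, M.vadj.Adj v u ∧ Dn u := by
        rcases hu' with hu' | hu'
        · exact ⟨⟨u, hu, hu'⟩, hupdn v hv hvU' ⟨u, hu, hu'⟩⟩
        · exact ⟨hdnup v hv hvL' ⟨u, hu, hu'⟩, ⟨u, hu, hu'⟩⟩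
      obtain ⟨⟨x, hx, hx'⟩, y, hy, hy'⟩ := hboth
      exact ⟨⟨x, ⟨d11_touch hv hx, hx'⟩, hx⟩, y, ⟨d11_touch hv hy, hy'⟩, hy⟩
    · left
      push Not at hex
      intro u hu
      exact ⟨fun h' => (hex u hu).1 h'.2, fun h' => (hex u hu).2 h'.2⟩
  · intro i
    fin_cases i
    · exact ha
    · exact hb
    · exact hd
  · intro i
    fin_cases i
    · exact fun h' => (hUpNot a hga).1 h'.2
    · exact fun h' => (hUpNot b hgb).1 h'.2
    · exact fun h' => (hUpNot d hgd).1 h'.2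
  · intro i
    fin_cases i
    · exact fun h' => (hUpNot a hga).2 h'.2
    · exact fun h' => (hUpNot b hgb).2 h'.2
    · exact fun h' => (hUpNot d hgd).2 h'.2

end disc

/-- (D11) -/
theorem cD11 (h1 : Stmt_SubBlk) (h6 : Stmt_Adm) (h7 : Stmt_DiscHyp) (h3 : Stmt_FaceThree)
    (hH : Stmt_Harm) : Stmt_NonDeg := by
  intro V E F M D f₀ hD hf c hc
  set Q : Set V := {v | M.vf v f₀} with hQ
  have hQfin : Q.Finite := d11_faceVerts_fin M.toPolyMap f₀
  set T : Set (V × V × V × V × V × V) := Q ×ˢ Q ×ˢ Q ×ˢ Q ×ˢ Q ×ˢ Q with hT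
  have hTfin : T.Finite :=
    hQfin.prod (hQfin.prod (hQfin.prod (hQfin.prod (hQfin.prod hQfin))))
  have hev : ∀ᶠ δ in 𝓝[>] (0 : ℝ), ∀ t ∈ T, t.1 ≠ t.2.1 → t.2.1 ≠ t.2.2.1 → t.1 ≠ t.2.2.1 →
      ∀ P φ : V → ℂ, ConvPos M.toInc D P → DiscExt M.toInc D c P φ →
      (∀ x y z, M.vf x f₀ → M.vf y f₀ → M.vf z f₀ →
        |cross (φ x) (φ y) (φ z)| ≤ |cross (φ t.2.2.2.1) (φ t.2.2.2.2.1) (φ t.2.2.2.2.2)|) →
      δ * |cross (φ t.2.2.2.1) (φ t.2.2.2.2.1) (φ t.2.2.2.2.2)| ≤
        |cross (φ t.1) (φ t.2.1) (φ t.2.2.1)| := by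
    rw [Filter.eventually_all_finite hTfin]
    rintro ⟨a, b, d, a', b', d'⟩ ⟨ha, hb, hd, ha', hb', hd'⟩
    by_cases hne : a ≠ b ∧ b ≠ d ∧ a ≠ d
    · obtain ⟨δ, hδ, hδ'⟩ := d11_main h1 h6 h7 h3 hH M hD hf hc ha hb hd hne.1 hne.2.1 hne.2.2
        ha' hb' hd'
      filter_upwards [Ioo_mem_nhdsGT hδ] with δ' hδ1 _ _ _ P φ hP hφ hmax
      refine le_trans ?_ (hδ' P φ hP hφ hmax)
      exact mul_le_mul_of_nonneg_right hδ1.2.le (abs_nonneg _)
    · refine Filter.Eventually.of_forall fun δ q1 q2 q3 => ?_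
      exact absurd ⟨q1, q2, q3⟩ hne
  obtain ⟨δ, hδ, hδ0⟩ := (hev.and self_mem_nhdsWithin).exists
  have hδpos : 0 < δ := hδ0
  refine ⟨δ, hδpos, ?_⟩
  intro P φ hP hφ a b d ha hb hd hab hbd had a' b' d' ha' hb' hd'
  obtain ⟨⟨x, y, z⟩, ⟨hx, hy, hz⟩, hmax⟩ := Set.exists_max_image (Q ×ˢ Q ×ˢ Q)
    (fun t => |cross (φ t.1) (φ t.2.1) (φ t.2.2)|) (hQfin.prod (hQfin.prod hQfin))
    ⟨(a, a, a), ha, ha, ha⟩
  have e1 := hδ (a, b, d, x, y, z) ⟨ha, hb, hd, hx, hy, hz⟩ hab hbd had P φ hP hφ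
    (fun x' y' z' hx' hy' hz' => hmax (x', y', z') ⟨hx', hy', hz'⟩)
  have e2 := hmax (a', b', d') ⟨ha', hb', hd'⟩
  refine le_trans ?_ e1
  exact mul_le_mul_of_nonneg_left e2 hδpos.le

end Pool.Agent.CT
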