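import Pool.Agent.CT.DDefs
import Pool.Agent.CT.CoarsePoly

set_option autoImplicit false

/-! # D13: iterated coarse maps -/

namespace Pool.Agent.CT

open Set

section re

variable {V E F : Type}

theorem cD13_vf_some {M : Inc V E F} {D : Set F} (v : CV M D) {t : F} (ht : t ∉ D) :
    (coarse M D).vf v (some ⟨t, ht⟩) ↔ M.vf v.1 t := by
  constructor
  · rintro ⟨e | g, hve, hef⟩
    · exact ⟨e.1, hve, hef⟩
    · have h : g.1 = t := hef
      rw [← h]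
      exact hve.1
  · rintro ⟨e, hve, hef⟩
    by_cases hd : ∃ d ∈ D, M.ef e d
    · exact ⟨Sum.inr ⟨t, ht, e, hef, hd⟩, ⟨⟨e, hve, hef⟩, hd.imp fun d h => ⟨h.1, e, hve, h.2⟩⟩, rfl⟩
    · exact ⟨Sum.inl ⟨e, fun f hf hfD => hd ⟨f, hfD, hf⟩⟩, hve, hef⟩

theorem cD13_vf_none (h7 : Stmt_FrVertex) (M : PolyMap V E F) (D : Set F) (v : CV M.toInc D) :
    (coarse M.toInc D).vf v none ↔ Touch M.toInc D v.1 := by
  constructor
  · rintro ⟨e | g, hve, hef⟩
    · exact hef.elim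
    · exact hve.2
  · intro hT
    obtain ⟨v, hcv⟩ := v
    have hT' : Touch M.toInc Dᶜ v := by
      obtain ⟨f, g, _, hf, _, hvf, _⟩ := hcv
      exact ⟨f, hf, hvf⟩
    obtain ⟨e, ⟨hd, g, hgD, hg⟩, hv⟩ := h7 V E F M D v hT hT'
    exact ⟨Sum.inr ⟨g, hgD, e, hg, hd⟩, ⟨⟨e, hv, hg⟩, hT⟩, trivial⟩

theorem cD13_notMem {M : Inc V E F} {D D' : Set F} {f : CF M D} :
    f ∉ liftD M D D' ↔ ∃ (t : F) (ht : t ∉ D), f = some ⟨t, ht⟩ ∧ t ∉ D' := by
  constructor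
  · intro h
    rcases f with _ | ⟨t, ht⟩
    · exact absurd (fun g hg => by cases hg) h
    · refine ⟨t, ht, rfl, fun htD => h ?_⟩
      intro g hg
      have : g = ⟨t, ht⟩ := by simpa using hg.symm
      rw [this]
      exact htD
  · rintro ⟨t, ht, rfl, htD⟩ h
    exact htD (h _ rfl)

theorem cD13_mem_some {M : Inc V E F} {D D' : Set F} {t : F} (ht : t ∉ D) :
    (some ⟨t, ht⟩ : CF M D) ∈ liftD M D D' ↔ t ∈ D' := by
  constructor
  · intro h
    exact h _ rfl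
  · intro h g hg
    have : g = ⟨t, ht⟩ := by simpa using hg.symm
    rw [this]
    exact h

theorem cD13_mem_none {M : Inc V E F} {D D' : Set F} : (none : CF M D) ∈ liftD M D D' := by
  intro g hg
  cases hg

theorem cD13_touch (h7 : Stmt_FrVertex) (M : PolyMap V E F) {D D' : Set F} (hsub : D ⊆ D')
    (v : CV M.toInc D) : Touch (coarse M.toInc D) (liftD M.toInc D D') v ↔
      Touch M.toInc D' v.1 := by
  constructor
  · rintro ⟨f, hf, hvf⟩
    rcases f with _ | ⟨t, ht⟩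
    · obtain ⟨d, hd, h⟩ := (cD13_vf_none h7 M D v).1 hvf
      exact ⟨d, hsub hd, h⟩
    · exact ⟨t, (cD13_mem_some ht).1 hf, (cD13_vf_some v ht).1 hvf⟩
  · rintro ⟨d, hd, h⟩
    by_cases hdD : d ∈ D
    · exact ⟨none, cD13_mem_none, (cD13_vf_none h7 M D v).2 ⟨d, hdD, h⟩⟩
    · exact ⟨some ⟨d, hdD⟩, (cD13_mem_some hdD).2 hd, (cD13_vf_some v hdD).2 h⟩

theorem cD13_cv (M : Inc V E F) {D D' : Set F} (hsub : D ⊆ D') (v : CV M D) :
    (∃ f g, f ≠ g ∧ f ∉ liftD M D D' ∧ g ∉ liftD M D D' ∧ (coarse M D).vf v f ∧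
      (coarse M D).vf v g) ↔
    ∃ f g, f ≠ g ∧ f ∉ D' ∧ g ∉ D' ∧ M.vf v.1 f ∧ M.vf v.1 g := by
  constructor
  · rintro ⟨f, g, hfg, hf, hg, hvf, hvg⟩
    obtain ⟨t, ht, rfl, htD⟩ := cD13_notMem.1 hf
    obtain ⟨t', ht', rfl, htD'⟩ := cD13_notMem.1 hg
    refine ⟨t, t', ?_, htD, htD', (cD13_vf_some v ht).1 hvf, (cD13_vf_some v ht').1 hvg⟩
    rintro rfl
    exact hfg rfl
  · rintro ⟨f, g, hfg, hf, hg, hvf, hvg⟩
    have hf' : f ∉ D := fun h => hf (hsub h)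
    have hg' : g ∉ D := fun h => hg (hsub h)
    refine ⟨some ⟨f, hf'⟩, some ⟨g, hg'⟩, by simpa using hfg, cD13_notMem.2 ⟨f, hf', rfl, hf⟩,
      cD13_notMem.2 ⟨g, hg', rfl, hg⟩, (cD13_vf_some v hf').2 hvf, (cD13_vf_some v hg').2 hvg⟩

/-- The outer faces along `D'` are the same in both maps. -/
theorem cD13_side (M : Inc V E F) {D D' : Set F} (hsub : D ⊆ D') {t : F} (ht : t ∉ D) :
    (∃ e, (coarse M D).ef e (some ⟨t, ht⟩) ∧ ∃ d ∈ liftD M D D', (coarse M D).ef e d) ↔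
    ∃ e, M.ef e t ∧ ∃ d ∈ D', M.ef e d := by
  constructor
  · rintro ⟨e | ⟨g, hg, e, heg, d, hd, hed⟩, he, f, hf, hef⟩
    · rcases f with _ | ⟨d, hd⟩
      · exact hef.elim
      · exact ⟨e.1, he, d, (cD13_mem_some hd).1 hf, hef⟩
    · have h : g = t := he
      subst h
      exact ⟨e, heg, d, hsub hd, hed⟩
  · rintro ⟨e, he, d, hd, hed⟩
    by_cases h : ∃ d ∈ D, M.ef e d
    · exact ⟨Sum.inr ⟨t, ht, e, he, h⟩, rfl, none, cD13_mem_none, trivial⟩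
    · have hdD : d ∉ D := fun hdD => h ⟨d, hdD, hed⟩
      exact ⟨Sum.inl ⟨e, fun f hf hfD => h ⟨f, hfD, hf⟩⟩, he, some ⟨d, hdD⟩,
        (cD13_mem_some hdD).2 hd, hed⟩

/-- Translation of the sides of the big face. -/
theorem cD13_exists_side (M : Inc V E F) {D D' : Set F} (hsub : D ⊆ D')
    (e : CE (coarse M D) (liftD M D D')) (he : (coarse (coarse M D) (liftD M D D')).ef e none) :
    ∃ (t : F) (ht : t ∉ D) (_ : t ∉ D' ∧ ∃ e, M.ef e t ∧ ∃ d ∈ D', M.ef e d)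
      (h : some ⟨t, ht⟩ ∉ liftD M D D' ∧ ∃ e, (coarse M D).ef e (some ⟨t, ht⟩) ∧
        ∃ d ∈ liftD M D D', (coarse M D).ef e d), e = Sum.inr ⟨some ⟨t, ht⟩, h⟩ := by
  rcases e with e | ⟨f, hf, hf'⟩
  · exact he.elim
  · obtain ⟨t, ht, rfl, htD⟩ := cD13_notMem.1 hf
    exact ⟨t, ht, ⟨htD, (cD13_side M hsub ht).1 hf'⟩, ⟨hf, hf'⟩, rfl⟩

theorem cD13_conv (h7 : Stmt_FrVertex) (M : PolyMap V E F) {D D' : Set F} (hsub : D ⊆ D')
    (P : V → ℂ) (hP : ConvPos M.toInc D' P) :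
    ConvPos (coarse M.toInc D) (liftD M.toInc D D') (fun v => P v.1) := by
  intro n x y hc
  have hy : ∀ i, ∃ (t : F) (ht : t ∉ D) (_ : t ∉ D' ∧ ∃ e, M.ef e t ∧ ∃ d ∈ D', M.ef e d)
      (h : some ⟨t, ht⟩ ∉ liftD M.toInc D D' ∧ ∃ e, (coarse M.toInc D).ef e (some ⟨t, ht⟩) ∧
        ∃ d ∈ liftD M.toInc D D', (coarse M.toInc D).ef e d),
        y i = Sum.inr ⟨some ⟨t, ht⟩, h⟩ := fun i =>
    cD13_exists_side M.toInc hsub (y i) ((hc.curve.mem (y i)).2 ⟨i, rfl⟩)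
  choose t ht hs hs' hyt using hy
  have key := hP n (fun i => ⟨(x i).1.1, (cD13_cv M.toInc hsub (x i).1).1 (x i).2⟩)
    (fun i => Sum.inr ⟨t i, hs i⟩) ?_
  · exact key
  refine ⟨hc.three, Or.inr hc.three, ?_, ?_, ?_, ?_⟩
  · intro i j
    rw [← hc.curve.x_eq]
    simp only [Subtype.mk.injEq]
    constructor
    · intro h
      exact Subtype.ext (Subtype.ext h)
    · intro h
      rw [h]
  · intro i j
    rw [← hc.curve.y_eq, hyt i, hyt j]
    simp only [Sum.inr.injEq, Subtype.mk.injEq, Option.some.injEq]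
  · intro e
    constructor
    · intro he
      rcases e with e | ⟨g, hg, hg'⟩
      · exact he.elim
      · have hgD : g ∉ D := fun h => hg (hsub h)
        have h1 : some ⟨g, hgD⟩ ∉ liftD M.toInc D D' := cD13_notMem.2 ⟨g, hgD, rfl, hg⟩
        obtain ⟨i, hi⟩ := (hc.curve.mem (Sum.inr ⟨some ⟨g, hgD⟩, h1,
          (cD13_side M.toInc hsub hgD).2 hg'⟩)).1 trivial
        refine ⟨i, ?_⟩
        rw [hyt i] at hi
        simp only [Sum.inr.injEq, Subtype.mk.injEq, Option.some.injEq] at hi ⊢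
        exact hi
    · rintro ⟨i, rfl⟩
      trivial
  · intro i v
    have hvD : ∃ f g, f ≠ g ∧ f ∉ D ∧ g ∉ D ∧ M.vf v.1 f ∧ M.vf v.1 g := by
      obtain ⟨f, g, hfg, hf, hg, h⟩ := v.2
      exact ⟨f, g, hfg, fun h => hf (hsub h), fun h => hg (hsub h), h⟩
    have h1 := hc.curve.ve i ⟨⟨v.1, hvD⟩, (cD13_cv M.toInc hsub ⟨v.1, hvD⟩).2 v.2⟩
    rw [hyt i] at h1
    have h2 : (coarse (coarse M.toInc D) (liftD M.toInc D D')).ve
        ⟨⟨v.1, hvD⟩, (cD13_cv M.toInc hsub ⟨v.1, hvD⟩).2 v.2⟩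
        (Sum.inr ⟨some ⟨t i, ht i⟩, hs' i⟩) ↔
        M.vf v.1 (t i) ∧ Touch M.toInc D' v.1 := by
      show ((coarse M.toInc D).vf ⟨v.1, hvD⟩ (some ⟨t i, ht i⟩) ∧
        Touch (coarse M.toInc D) (liftD M.toInc D D') ⟨v.1, hvD⟩) ↔ _
      rw [cD13_vf_some, cD13_touch h7 M hsub]
    show (M.vf v.1 (t i) ∧ Touch M.toInc D' v.1) ↔ _
    rw [← h2, h1]
    constructor
    · rintro (h | h)
      · left
        apply Subtype.ext
        have := congrArg (fun z => z.1.1) h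
        exact this
      · right
        apply Subtype.ext
        have := congrArg (fun z => z.1.1) h
        exact this
    · rintro (h | h)
      · left
        apply Subtype.ext
        apply Subtype.ext
        have := congrArg Subtype.val h
        exact this
      · right
        apply Subtype.ext
        apply Subtype.ext
        have := congrArg Subtype.val h
        exact this

end re

/-- D13. -/
theorem cD13 (h7 : Stmt_FrVertex) : Stmt_Recoarse := by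
  intro V E F M D D' _ _ hN
  refine ⟨cD13_touch h7 M.toPolyMap hN.sub, ?_, ?_, ?_, cD13_conv h7 M.toPolyMap hN.sub⟩
  · intro v
    show (Touch _ _ v ∧ _) ↔ (Touch _ _ v.1 ∧ _)
    rw [cD13_touch h7 M.toPolyMap hN.sub, cD13_cv M.toInc hN.sub v]
  · rintro v ⟨_, f, g, hfg, hf, hg, h⟩
    exact ⟨⟨v, f, g, hfg, fun h => hf (hN.sub h), fun h => hg (hN.sub h), h⟩, rfl⟩
  · intro v
    constructor
    · rintro ⟨hT, hcv⟩
      exact ⟨⟨v, hcv⟩, rfl, (cD13_vf_none h7 M.toPolyMap D ⟨v, hcv⟩).2 hT⟩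
    · rintro ⟨v', rfl, h⟩
      exact ⟨(cD13_vf_none h7 M.toPolyMap D v').1 h, v'.2⟩

end Pool.Agent.CT
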