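import Pool.Agent.CT.DDefs

set_option autoImplicit false

/-! # A symmetric strictly convex position of the corners (D17) -/

namespace Pool.Agent.CT

open Set Metric

/-- The `q`-th roots of unity on the circle. -/
noncomputable def cD17c (q : ℕ) (j : ℤ) : Circle := Circle.exp (2 * Real.pi * j / q)

theorem cD17_re (q : ℕ) (j : ℤ) : (cD17c q j : ℂ).re = Real.cos (2 * Real.pi * j / q) := by
  rw [cD17c, Circle.coe_exp, Complex.exp_ofReal_mul_I_re]

theorem cD17_im (q : ℕ) (j : ℤ) : (cD17c q j : ℂ).im = Real.sin (2 * Real.pi * j / q) := by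
  rw [cD17c, Circle.coe_exp, Complex.exp_ofReal_mul_I_im]

theorem cD17_add (q : ℕ) (i j : ℤ) : cD17c q (i + j) = cD17c q j * cD17c q i := by
  rw [cD17c, cD17c, cD17c, ← Circle.exp_add]
  congr 1
  push_cast
  ring

theorem cD17_per {q : ℕ} (hq : q ≠ 0) (t : ℤ) : cD17c q (q * t) = 1 := by
  rw [cD17c]
  have hq' : (q : ℝ) ≠ 0 := by exact_mod_cast hq
  have h : (2 * Real.pi * ((q * t : ℤ) : ℝ) / q) = t * (2 * Real.pi) := by
    push_cast
    field_simp
  rw [h]
  exact Circle.exp_int_mul_two_pi t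

theorem cD17_dvd {q : ℕ} (hq : q ≠ 0) {i j : ℤ} (h : (q : ℤ) ∣ i - j) : cD17c q i = cD17c q j := by
  obtain ⟨t, ht⟩ := h
  have : i = j + q * t := by omega
  rw [this, cD17_add, cD17_per hq, one_mul]

theorem cD17_cross (q : ℕ) (a b c : ℤ) :
    cross (cD17c q a : ℂ) (cD17c q b : ℂ) (cD17c q c : ℂ) =
      4 * Real.sin (Real.pi * (b - a : ℤ) / q) * Real.sin (Real.pi * (c - a : ℤ) / q) *
        Real.sin (Real.pi * (c - b : ℤ) / q) := by
  rw [cross, cD17_re, cD17_re, cD17_re, cD17_im, cD17_im, cD17_im, Real.cos_sub_cos,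
    Real.sin_sub_sin, Real.cos_sub_cos, Real.sin_sub_sin]
  have h1 : (2 * Real.pi * (b : ℝ) / q - 2 * Real.pi * (a : ℝ) / q) / 2 =
      Real.pi * ((b - a : ℤ) : ℝ) / q := by push_cast; ring
  have h2 : (2 * Real.pi * (c : ℝ) / q - 2 * Real.pi * (a : ℝ) / q) / 2 =
      Real.pi * ((c - a : ℤ) : ℝ) / q := by push_cast; ring
  have h3 : Real.pi * ((c - b : ℤ) : ℝ) / q =
      (2 * Real.pi * (c : ℝ) / q + 2 * Real.pi * (a : ℝ) / q) / 2 -
      (2 * Real.pi * (b : ℝ) / q + 2 * Real.pi * (a : ℝ) / q) / 2 := by push_cast; ring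
  rw [h1, h2, h3, Real.sin_sub]
  ring

theorem cD17_pos {q : ℕ} (hq : 3 ≤ q) {m : ℤ} (h0 : ¬ (q : ℤ) ∣ m) (h1 : ¬ (q : ℤ) ∣ m - 1) :
    0 < Real.sin (Real.pi * m / q) * Real.sin (Real.pi * (m - 1 : ℤ) / q) := by
  have hq' : (0 : ℝ) < q := by exact_mod_cast (by omega : 0 < q)
  obtain ⟨t, r, hr0, hrq, hm⟩ : ∃ t r : ℤ, 0 ≤ r ∧ r < q ∧ m = r + t * q :=
    ⟨m / q, m % q, Int.emod_nonneg _ (by omega), Int.emod_lt_of_pos _ (by omega), by
      rw [mul_comm, Int.emod_add_mul_ediv]⟩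
  have hr1 : r ≠ 0 := by
    rintro rfl
    exact h0 ⟨t, by rw [hm]; ring⟩
  have hr2 : r ≠ 1 := by
    rintro rfl
    exact h1 ⟨t, by rw [hm]; ring⟩
  have e1 : Real.pi * (m : ℝ) / q = Real.pi * r / q + t * Real.pi := by
    rw [hm]; push_cast; field_simp
  have e2 : Real.pi * ((m - 1 : ℤ) : ℝ) / q = Real.pi * (r - 1) / q + t * Real.pi := by
    rw [hm]; push_cast; field_simp; ring
  rw [e1, e2, Real.sin_add_int_mul_pi, Real.sin_add_int_mul_pi]
  have hr' : (2 : ℝ) ≤ r := by exact_mod_cast (by omega : (2 : ℤ) ≤ r)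
  have hrq' : (r : ℝ) < q := by exact_mod_cast hrq
  have p1 : 0 < Real.sin (Real.pi * r / q) := by
    apply Real.sin_pos_of_pos_of_lt_pi
    · have := Real.pi_pos
      positivity
    · rw [div_lt_iff₀ hq']
      exact mul_lt_mul_of_pos_left hrq' Real.pi_pos
  have p2 : 0 < Real.sin (Real.pi * (r - 1) / q) := by
    apply Real.sin_pos_of_pos_of_lt_pi
    · have := Real.pi_pos
      have : (0 : ℝ) < r - 1 := by linarith
      positivity
    · rw [div_lt_iff₀ hq']
      exact mul_lt_mul_of_pos_left (by linarith) Real.pi_pos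
  have s : ((-1 : ℝ) ^ t) * ((-1 : ℝ) ^ t) = 1 := by
    rw [← mul_zpow]
    norm_num
  calc 0 < Real.sin (Real.pi * r / q) * Real.sin (Real.pi * (r - 1) / q) := mul_pos p1 p2
    _ = (((-1 : ℝ) ^ t) * ((-1 : ℝ) ^ t)) *
        (Real.sin (Real.pi * r / q) * Real.sin (Real.pi * (r - 1) / q)) := by rw [s, one_mul]
    _ = _ := by ring

theorem cD17_sin1 {q : ℕ} (hq : 3 ≤ q) : 0 < Real.sin (Real.pi * (1 : ℤ) / q) := by
  have hq' : (0 : ℝ) < q := by exact_mod_cast (by omega : 0 < q)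
  have hq2 : (1 : ℝ) < q := by exact_mod_cast (by omega : 1 < q)
  apply Real.sin_pos_of_pos_of_lt_pi
  · have := Real.pi_pos
    push_cast
    positivity
  · rw [div_lt_iff₀ hq']
    push_cast
    exact mul_lt_mul_of_pos_left hq2 Real.pi_pos

theorem cD17_strict1 {q : ℕ} (hq : 3 ≤ q) (k : ℤ) :
    StrictPoly q (fun i => (cD17c q (i + k) : ℂ)) := by
  refine ⟨hq, fun i => ?_, 1, Or.inl rfl, fun i j h1 h2 => ?_⟩
  · show (cD17c q (i + q + k) : ℂ) = cD17c q (i + k)
    rw [cD17_dvd (by omega : q ≠ 0) (j := i + k) ⟨1, by ring⟩]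
  · show 0 < 1 * cross (cD17c q (i + k)) (cD17c q (i + 1 + k)) (cD17c q (j + k))
    rw [cD17_cross]
    have e1 : (i + 1 + k - (i + k) : ℤ) = 1 := by ring
    have e2 : (j + k - (i + k) : ℤ) = j - i := by ring
    have e3 : (j + k - (i + 1 + k) : ℤ) = (j - i) - 1 := by ring
    rw [e1, e2, e3]
    have p := cD17_pos hq (m := j - i) h1 (by rwa [show j - i - 1 = j - (i + 1) by ring])
    have s := cD17_sin1 hq
    have := mul_pos s p
    nlinarith [this]

theorem cD17_strict2 {q : ℕ} (hq : 3 ≤ q) (k : ℤ) :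
    StrictPoly q (fun i => (cD17c q (k - i) : ℂ)) := by
  refine ⟨hq, fun i => ?_, -1, Or.inr rfl, fun i j h1 h2 => ?_⟩
  · show (cD17c q (k - (i + q)) : ℂ) = cD17c q (k - i)
    rw [cD17_dvd (by omega : q ≠ 0) (j := k - i) ⟨-1, by ring⟩]
  · show 0 < -1 * cross (cD17c q (k - i)) (cD17c q (k - (i + 1))) (cD17c q (k - j))
    rw [cD17_cross]
    have e1 : (k - (i + 1) - (k - i) : ℤ) = -1 := by ring
    have e2 : (k - j - (k - i) : ℤ) = -(j - i) := by ring
    have e3 : (k - j - (k - (i + 1)) : ℤ) = -((j - i) - 1) := by ring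
    rw [e1, e2, e3]
    have n1 : Real.pi * ((-1 : ℤ) : ℝ) / q = - (Real.pi * ((1 : ℤ) : ℝ) / q) := by
      push_cast; ring
    have n2 : Real.pi * ((-(j - i) : ℤ) : ℝ) / q = - (Real.pi * ((j - i : ℤ) : ℝ) / q) := by
      push_cast; ring
    have n3 : Real.pi * ((-((j - i) - 1) : ℤ) : ℝ) / q =
        - (Real.pi * ((j - i - 1 : ℤ) : ℝ) / q) := by
      push_cast; ring
    rw [n1, n2, n3, Real.sin_neg, Real.sin_neg, Real.sin_neg]
    have p := cD17_pos hq (m := j - i) h1 (by rwa [show j - i - 1 = j - (i + 1) by ring])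
    have s := cD17_sin1 hq
    have := mul_pos s p
    nlinarith [this]

section

variable {V E F : Type}

/-- Transport of a curve by an automorphism. -/
theorem cD17_curve {M : Inc V E F} {a : V ≃ V} {b : E ≃ E} {d : F ≃ F} (h : IsAut M a b d)
    {f : F} (hf : d f = f) {n : ℕ} {x : ℤ → V} {y : ℤ → E} (hc : IsCurve M {e | M.ef e f} n x y) :
    IsCurve M {e | M.ef e f} n (fun i => a (x i)) (fun i => b (y i)) := by
  refine ⟨hc.n_ne, fun i j => ?_, fun i j => ?_, fun e => ?_, fun i v => ?_⟩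
  · show a (x i) = a (x j) ↔ _
    rw [a.injective.eq_iff]
    exact hc.x_eq i j
  · show b (y i) = b (y j) ↔ _
    rw [b.injective.eq_iff]
    exact hc.y_eq i j
  · have h1 := hc.mem (b.symm e)
    have h2 : e ∈ {e | M.ef e f} ↔ b.symm e ∈ {e | M.ef e f} := by
      show M.ef e f ↔ M.ef (b.symm e) f
      rw [← h.ef (b.symm e) f, Equiv.apply_symm_apply, hf]
    rw [h2, h1]
    constructor
    · rintro ⟨i, hi⟩
      exact ⟨i, by show b (y i) = e; rw [hi, Equiv.apply_symm_apply]⟩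
    · rintro ⟨i, hi⟩
      exact ⟨i, by rw [← hi]; show y i = b.symm (b (y i)); rw [Equiv.symm_apply_apply]⟩
  · have h1 := hc.ve i (a.symm v)
    have h2 := h.ve (a.symm v) (y i)
    rw [Equiv.apply_symm_apply] at h2
    show M.ve v (b (y i)) ↔ v = a (x i) ∨ v = a (x (i + 1))
    rw [h2, h1, Equiv.symm_apply_eq, Equiv.symm_apply_eq]

/-- A group element acts as an automorphism. -/
theorem cD17_aut {G : Type} [Group G] [MulAction G V] [MulAction G E] [MulAction G F]
    {M : Inc V E F} (h : Equiv M G) (g : G) :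
    IsAut M (MulAction.toPerm g : V ≃ V) (MulAction.toPerm g : E ≃ E)
      (MulAction.toPerm g : F ≃ F) := by
  refine ⟨fun v e => ⟨fun h' => ?_, fun h' => h.ve g v e h'⟩,
    fun e f => ⟨fun h' => ?_, fun h' => h.ef g e f h'⟩⟩
  · have := h.ve g⁻¹ _ _ h'
    simpa using this
  · have := h.ef g⁻¹ _ _ h'
    simpa using this

end

theorem cD17 (hU : Stmt_CycUnique) (h3 : Stmt_FaceCycle) (hC : Stmt_Coarse) (hV : Stmt_FrVertex)
    (hA : Stmt_Aut) : Stmt_Regular := by
  intro V E F G M _ _ _ _ _ hG D hD hinv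
  classical
  obtain ⟨N, hN⟩ := hC V E F M D hD
  obtain ⟨q, X, Y, hXY⟩ := h3 _ _ _ N.toPolyMap none
  rw [hN] at hXY
  have hq := hXY.three
  have hq0 : q ≠ 0 := by omega
  let P : V → ℂ := fun v => if h : ∃ j, (X j).1 = v then (cD17c q h.choose : ℂ) else 0
  have hP : ∀ j, P (X j).1 = cD17c q j := by
    intro j
    have h : ∃ j', (X j').1 = (X j).1 := ⟨j, rfl⟩
    have h1 : P (X j).1 = cD17c q h.choose := dif_pos h
    have h2 : X h.choose = X j := Subtype.ext h.choose_spec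
    have h3 := (hXY.curve.x_eq _ _).1 h2
    rw [h1, cD17_dvd hq0 h3]
  refine ⟨P, ?_, ?_⟩
  · intro n x y hxy
    obtain ⟨rfl, h | h⟩ := hU _ _ _ _ _ _ _ _ _ _ _ hXY.curve hxy.curve
    · obtain ⟨k, hk⟩ := h
      have : (fun i => P (x i).1) = fun i => (cD17c q (i + k) : ℂ) := by
        funext i
        rw [(hk i).1, hP]
      rw [this]
      exact cD17_strict1 hq k
    · obtain ⟨k, hk⟩ := h
      have : (fun i => P (x i).1) = fun i => (cD17c q (k - i) : ℂ) := by
        funext i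
        rw [(hk i).1, hP]
      rw [this]
      exact cD17_strict2 hq k
  · intro g
    have hcorner : ∀ v, Corner M.toInc D v → ∃ j, (X j).1 = v := by
      intro v hv
      obtain ⟨hv1, f, g, hfg, hf, hg, hvf, hvg⟩ := hv
      obtain ⟨e, ⟨⟨f', hf', hef'⟩, g', hg', heg'⟩, hve⟩ := hV V E F M.toPolyMap D v hv1
        ⟨f, hf, hvf⟩
      let v' : CV M.toInc D := ⟨v, f, g, hfg, hf, hg, hvf, hvg⟩
      let e' : CE M.toInc D := Sum.inr ⟨g', hg', e, heg', f', hf', hef'⟩
      have h1 : (coarse M.toInc D).ve v' e' := ⟨⟨e, hve, heg'⟩, hv1⟩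
      have h2 : e' ∈ {e | (coarse M.toInc D).ef e none} := trivial
      obtain ⟨i, hi⟩ := (hXY.curve.mem e').1 h2
      rw [← hi, hXY.curve.ve] at h1
      rcases h1 with h1 | h1
      · exact ⟨i, by rw [← h1]⟩
      · exact ⟨i + 1, by rw [← h1]⟩
    have hDg : ∀ f, (MulAction.toPerm g : F ≃ F) f ∈ D ↔ f ∈ D := by
      intro f
      show g • f ∈ D ↔ f ∈ D
      constructor
      · intro h
        have := hinv g⁻¹ _ h
        simpa using this
      · intro h
        exact hinv g _ h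
    obtain ⟨a', b', d', haut, ha', hd', -, -⟩ := (hA V E F M _ _ _ (cD17_aut hG g)).2 D hDg
    have hc := cD17_curve haut hd' hXY.curve
    obtain ⟨-, h | h⟩ := hU _ _ _ _ _ _ _ _ _ _ _ hXY.curve hc
    · obtain ⟨k, hk⟩ := h
      refine ⟨(rotation (cD17c q k)).toIsometryEquiv, fun v hv => ?_⟩
      obtain ⟨j, rfl⟩ := hcorner v hv
      have h1 : g • (X j).1 = (X (j + k)).1 := by
        rw [← (hk j).1]
        exact (ha' (X j)).symm
      rw [h1, hP, hP, cD17_add]
      show _ = rotation (cD17c q k) (cD17c q j : ℂ)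
      rw [rotation_apply]
      push_cast
      rfl
    · obtain ⟨k, hk⟩ := h
      refine ⟨(Complex.conjLIE.trans (rotation (cD17c q k))).toIsometryEquiv, fun v hv => ?_⟩
      obtain ⟨j, rfl⟩ := hcorner v hv
      have h1 : g • (X j).1 = (X (k - j)).1 := by
        rw [← (hk j).1]
        exact (ha' (X j)).symm
      rw [h1, hP, hP]
      show _ = rotation (cD17c q k) (Complex.conjLIE (cD17c q j : ℂ))
      rw [rotation_apply, Complex.conjLIE_apply]
      have h2 : cD17c q (k - j) = cD17c q k * (cD17c q j)⁻¹ := by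
        have h3 := cD17_add q (k - j) j
        rw [sub_add_cancel] at h3
        rw [h3, mul_comm, ← mul_assoc, inv_mul_cancel, one_mul]
      rw [h2, Circle.coe_mul, Circle.coe_inv_eq_conj]

end Pool.Agent.CT
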