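import Pool.Agent.CT.CDefs

set_option autoImplicit false

/-! # Faces are non-separating (C5), rings around faces (C12) -/

namespace Pool.Agent.CT

open Set

section

variable {V E F : Type}

theorem cCring_vf_iff {M : Inc V E F} {f : F} {n : ℕ} {x : ℤ → V} {y : ℤ → E}
    (h : IsFaceCycle M f n x y) (v : V) : M.vf v f ↔ ∃ i, v = x i := by
  constructor
  · rintro ⟨e, hv, hf⟩
    obtain ⟨i, rfl⟩ := (h.curve.mem e).1 hf
    rcases (h.curve.ve i v).1 hv with h1 | h1
    · exact ⟨i, h1⟩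
    · exact ⟨i + 1, h1⟩
  · rintro ⟨i, rfl⟩
    exact ⟨y i, (h.curve.ve i _).2 (Or.inl rfl), (h.curve.mem _).2 ⟨i, rfl⟩⟩

theorem cCring_y_face {M : Inc V E F} {f : F} {n : ℕ} {x : ℤ → V} {y : ℤ → E}
    (h : IsFaceCycle M f n x y) (i : ℤ) : M.ef (y i) f := (h.curve.mem _).2 ⟨i, rfl⟩

theorem cCring_vx {M : Inc V E F} {f : F} {n : ℕ} {x : ℤ → V} {y : ℤ → E}
    (h : IsFaceCycle M f n x y) (i : ℤ) : M.vf (x i) f := (cCring_vf_iff h _).2 ⟨i, rfl⟩

theorem cCring_x_ne {M : Inc V E F} {f : F} {n : ℕ} {x : ℤ → V} {y : ℤ → E}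
    (h : IsFaceCycle M f n x y) (i : ℤ) : x i ≠ x (i + 1) := by
  intro heq
  have h1 := (h.curve.x_eq i (i + 1)).1 heq
  have h3 := h.three
  have h2 : (n : ℤ) ∣ 1 := by
    have : i - (i + 1) = -1 := by ring
    rw [this] at h1
    exact (dvd_neg.1 h1)
  have h4 := Int.le_of_dvd (by norm_num) h2
  omega

/-- Every vertex of a face is `x (i + k)` for some `k < n`. -/
theorem cCring_rep {M : Inc V E F} {f : F} {n : ℕ} {x : ℤ → V} {y : ℤ → E}
    (h : IsFaceCycle M f n x y) (i : ℤ) {v : V} (hv : M.vf v f) :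
    ∃ k : ℕ, k < n ∧ v = x (i + k) := by
  obtain ⟨j, rfl⟩ := (cCring_vf_iff h v).1 hv
  have h3 := h.three
  have hn : (0 : ℤ) < n := by omega
  refine ⟨((j - i) % n).toNat, ?_, ?_⟩
  · have h1 := Int.emod_lt_of_pos (j - i) hn
    have h2 := Int.emod_nonneg (j - i) hn.ne'
    omega
  · have h2 := Int.emod_nonneg (j - i) hn.ne'
    rw [h.curve.x_eq, Int.toNat_of_nonneg h2]
    have h4 := Int.emod_add_mul_ediv (j - i) n
    refine ⟨(j - i) / n, ?_⟩
    linarith

/-- Two different faces share at most one edge. -/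
theorem cCring_noDouble (h1 : Stmt_NoDouble) (M : PolyMap V E F) {e d : E} {s t : F} (hst : s ≠ t)
    (hes : M.ef e s) (het : M.ef e t) (hds : M.ef d s) (hdt : M.ef d t) : e = d := by
  by_contra hne
  exact h1 F E V M.dualMap e d s t hne hst hes het hds hdt

/-- An edge at the vertex `p`, in the faces `s` and `s'`, both different from `t`: its other vertex is
not a vertex of `t`. -/
theorem cCring_other (h1 : Stmt_NoDouble) (M : PolyMap V E F) {s s' t : F} {p : V} {e : E}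
    (hst : s ≠ t) (hs't : s' ≠ t) (hss' : s ≠ s') (hp : M.vf p t) (hpe : M.ve p e)
    (hes : M.ef e s) (hes' : M.ef e s') : ∃ q, M.ve q e ∧ ¬ M.vf q t := by
  obtain ⟨u, v, huv, hw⟩ := M.edge_verts e
  have key : ∀ q, q ≠ p → M.ve q e → ¬ M.vf q t := by
    intro q hqp hqe hqt
    obtain ⟨e1, h2, h3⟩ := hp
    obtain ⟨e2, h4, h5⟩ := hqt
    obtain ⟨e', a1, a2, a3, a4⟩ := M.inter s t hst q p hqp ⟨e, hqe, hes⟩ ⟨e2, h4, h5⟩
      ⟨e, hpe, hes⟩ ⟨e1, h2, h3⟩
    have h6 : e' = e := by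
      by_contra hne
      exact h1 V E F M e' e q p hne hqp a1 a2 hqe hpe
    subst h6
    obtain ⟨f, g, hfg, hfaces⟩ := M.edge_faces e'
    have b1 := (hfaces s).1 hes
    have b2 := (hfaces s').1 hes'
    have b3 := (hfaces t).1 a4
    rcases b1 with rfl | rfl <;> rcases b2 with rfl | rfl <;> rcases b3 with rfl | rfl <;>
      simp_all
  rcases (hw p).1 hpe with rfl | rfl
  · exact ⟨v, (hw v).2 (Or.inr rfl), key v (Ne.symm huv) ((hw v).2 (Or.inr rfl))⟩
  · exact ⟨u, (hw u).2 (Or.inl rfl), key u huv ((hw u).2 (Or.inl rfl))⟩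

/-- The faces different from `t` at a vertex `p` of `t` form a path. -/
theorem cCring_star (h3 : Stmt_FaceCycle) (M : PolyMap V E F) {t : F} {p : V} (hp : M.vf p t)
    (A : Set F) {s0 : F} (hs0 : s0 ≠ t) (hps0 : M.vf p s0) (hA0 : s0 ∈ A)
    (hA : ∀ s s' e, s ∈ A → s ≠ t → s' ≠ t → s ≠ s' → M.ve p e → M.ef e s → M.ef e s' → s' ∈ A) :
    ∀ s, s ≠ t → M.vf p s → s ∈ A := by
  obtain ⟨n, x, y, hc⟩ := h3 F E V M.dualMap p
  have hvf : ∀ g, M.vf p g ↔ ∃ i, g = x i := by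
    intro g
    rw [← cCring_vf_iff hc g]
    constructor
    · rintro ⟨e, h1, h2⟩
      exact ⟨e, h2, h1⟩
    · rintro ⟨e, h1, h2⟩
      exact ⟨e, h2, h1⟩
  have hvf' : ∀ g, M.vf p g → M.dualMap.toInc.vf g p := by
    rintro g ⟨e, h1, h2⟩
    exact ⟨e, h2, h1⟩
  obtain ⟨i0, hi0⟩ := (hvf t).1 hp
  have hn3 := hc.three
  have hne : ∀ k : ℕ, 0 < k → k < n → x (i0 + k) ≠ t := by
    intro k hk0 hkn heq
    rw [hi0, hc.curve.x_eq] at heq
    have : i0 + (k : ℤ) - i0 = k := by ring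
    rw [this] at heq
    have := Int.le_of_dvd (by omega) heq
    omega
  have hedge : ∀ i, M.ve p (y i) ∧ M.ef (y i) (x i) ∧ M.ef (y i) (x (i + 1)) := by
    intro i
    exact ⟨cCring_y_face hc i, (hc.curve.ve i _).2 (Or.inl rfl), (hc.curve.ve i _).2 (Or.inr rfl)⟩
  have hxne : ∀ i, x i ≠ x (i + 1) := fun i => cCring_x_ne hc i
  have hup : ∀ k : ℕ, 0 < k → k + 1 < n → x (i0 + k) ∈ A → x (i0 + (k + 1 : ℕ)) ∈ A := by
    intro k hk0 hkn hk
    have h1 := hedge (i0 + k)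
    have e1 : i0 + ((k + 1 : ℕ) : ℤ) = i0 + k + 1 := by push_cast; ring
    have h4 := hne (k + 1) (by omega) hkn
    rw [e1] at h4 ⊢
    exact hA _ _ _ hk (hne k hk0 (by omega)) h4 (hxne _) h1.1 h1.2.1 h1.2.2
  have hdown : ∀ k : ℕ, 0 < k → k + 1 < n → x (i0 + (k + 1 : ℕ)) ∈ A → x (i0 + k) ∈ A := by
    intro k hk0 hkn hk
    have h1 := hedge (i0 + k)
    have e1 : i0 + ((k + 1 : ℕ) : ℤ) = i0 + k + 1 := by push_cast; ring
    have h4 := hne (k + 1) (by omega) hkn
    rw [e1] at h4 hk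
    exact hA _ _ _ hk h4 (hne k hk0 (by omega)) (hxne _).symm h1.1 h1.2.2 h1.2.1
  obtain ⟨k0, hk0, hk0'⟩ := cCring_rep hc i0 (hvf' s0 hps0)
  have hk0pos : 0 < k0 := by
    rcases Nat.eq_zero_or_pos k0 with h | h
    · exfalso
      subst h
      apply hs0
      rw [hk0', hi0]
      simp
    · exact h
  have h1A : x (i0 + (1 : ℕ)) ∈ A := by
    have : ∀ k : ℕ, 0 < k → k < n → x (i0 + k) ∈ A → x (i0 + (1 : ℕ)) ∈ A := by
      intro k
      induction k with
      | zero => intro h; omega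
      | succ k ih =>
        intro _ hkn hk
        rcases Nat.eq_zero_or_pos k with h | h
        · subst h
          exact hk
        · exact ih h (by omega) (hdown k h hkn hk)
    exact this k0 hk0pos hk0 (hk0' ▸ hA0)
  have hall : ∀ k : ℕ, 0 < k → k < n → x (i0 + k) ∈ A := by
    intro k
    induction k with
    | zero => intro h; omega
    | succ k ih =>
      intro _ hkn
      rcases Nat.eq_zero_or_pos k with h | h
      · subst h
        exact h1A
      · exact hup k h hkn (ih h (by omega))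
  intro s hs hps
  obtain ⟨k, hk, hk'⟩ := cCring_rep hc i0 (hvf' s hps)
  rcases Nat.eq_zero_or_pos k with h | h
  · exfalso
    subst h
    apply hs
    rw [hk', hi0]
    simp
  · rw [hk']
    exact hall k h hk

/-- The faces different from `t` touching `t` form a ring. -/
theorem cCring_ring (h3 : Stmt_FaceCycle) (M : PolyMap V E F) {t : F}
    (A : Set F) {s0 : F} {p0 : V} (hs0 : s0 ≠ t) (hp0 : M.vf p0 t) (hps0 : M.vf p0 s0)
    (hA0 : s0 ∈ A)
    (hA : ∀ p s s' e, M.vf p t → s ∈ A → s ≠ t → s' ≠ t → s ≠ s' → M.ve p e → M.ef e s →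
      M.ef e s' → s' ∈ A) :
    ∀ p s, M.vf p t → s ≠ t → M.vf p s → s ∈ A := by
  obtain ⟨n, x, y, hc⟩ := h3 V E F M t
  have hstar : ∀ p, M.vf p t → (∃ s, s ≠ t ∧ M.vf p s ∧ s ∈ A) → ∀ s, s ≠ t → M.vf p s → s ∈ A := by
    rintro p hp ⟨s1, h1, h2, h4⟩
    exact cCring_star h3 M hp A h1 h2 h4 (fun s s' e => hA p s s' e hp)
  have hacross : ∀ i, ∃ s, s ≠ t ∧ M.vf (x i) s ∧ M.vf (x (i + 1)) s := by
    intro i
    obtain ⟨f, g, hfg, hfaces⟩ := M.edge_faces (y i)
    have h1 := (hfaces t).1 (cCring_y_face hc i)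
    have v1 : M.ve (x i) (y i) := (hc.curve.ve i _).2 (Or.inl rfl)
    have v2 : M.ve (x (i + 1)) (y i) := (hc.curve.ve i _).2 (Or.inr rfl)
    rcases h1 with rfl | rfl
    · exact ⟨g, hfg.symm, ⟨y i, v1, (hfaces g).2 (Or.inr rfl)⟩,
        ⟨y i, v2, (hfaces g).2 (Or.inr rfl)⟩⟩
    · exact ⟨f, hfg, ⟨y i, v1, (hfaces f).2 (Or.inl rfl)⟩,
        ⟨y i, v2, (hfaces f).2 (Or.inl rfl)⟩⟩
  obtain ⟨i0, hi0⟩ := (cCring_vf_iff hc p0).1 hp0
  have hall : ∀ k : ℕ, ∀ s, s ≠ t → M.vf (x (i0 + k)) s → s ∈ A := by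
    intro k
    induction k with
    | zero =>
      have : x (i0 + (0 : ℕ)) = p0 := by rw [hi0]; simp
      rw [this]
      exact hstar p0 hp0 ⟨s0, hs0, hps0, hA0⟩
    | succ k ih =>
      have e1 : i0 + ((k + 1 : ℕ) : ℤ) = i0 + k + 1 := by push_cast; ring
      rw [e1]
      obtain ⟨s, hs, h1, h2⟩ := hacross (i0 + k)
      exact hstar _ (cCring_vx hc _) ⟨s, hs, h2, ih s hs h1⟩
  intro p s hp hs hps
  obtain ⟨k, -, rfl⟩ := cCring_rep hc i0 hp
  exact hall k s hs hps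

/-- The vertices outside `t` of a face `s ≠ t` touching `t` form a nonempty connected set. -/
theorem cCring_outer (h1 : Stmt_NoDouble) (h3 : Stmt_FaceCycle) (M : PolyMap V E F) {s t : F}
    (hst : s ≠ t) {p : V} (hp : M.vf p t) (hps : M.vf p s) :
    ∃ w, (M.vf w s ∧ ¬ M.vf w t) ∧ ∀ z, M.vf z s → ¬ M.vf z t →
      ReachIn M.vadj {v | M.vf v s ∧ ¬ M.vf v t} w z := by
  obtain ⟨n, x, y, hc⟩ := h3 V E F M s
  have hn3 := hc.three
  -- the common vertices are among two consecutive ones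
  have hcom : ∃ j, M.vf (x j) t ∧ ∀ v, M.vf v s → M.vf v t → v = x j ∨ v = x (j + 1) := by
    by_cases hex : ∃ q, q ≠ p ∧ M.vf q s ∧ M.vf q t
    · obtain ⟨q, hqp, hqs, hqt⟩ := hex
      obtain ⟨e, a1, a2, a3, a4⟩ := M.inter s t hst q p hqp
        hqs hqt hps hp
      obtain ⟨j, rfl⟩ := (hc.curve.mem e).1 a3
      have hxj : M.vf (x j) t := ⟨y j, (hc.curve.ve j _).2 (Or.inl rfl), a4⟩
      have hxj1 : M.vf (x (j + 1)) t := ⟨y j, (hc.curve.ve j _).2 (Or.inr rfl), a4⟩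
      refine ⟨j, hxj, ?_⟩
      intro v hvs hvt
      by_contra hcon
      push Not at hcon
      obtain ⟨hv1, hv2⟩ := hcon
      obtain ⟨e', b1, b2, b3, b4⟩ := M.inter s t hst v (x j) hv1 hvs hvt
        (cCring_vx hc j) hxj
      have heq : e' = y j := cCring_noDouble h1 M hst b3 b4 a3 a4
      subst heq
      rcases (hc.curve.ve j v).1 b1 with h | h
      · exact hv1 h
      · exact hv2 h
    · push Not at hex
      obtain ⟨j, hj⟩ := (cCring_vf_iff hc p).1 hps
      refine ⟨j, hj ▸ hp, ?_⟩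
      intro v hvs hvt
      left
      by_contra hv
      exact hex v (hj ▸ hv) hvs hvt
  obtain ⟨j, hj, hj'⟩ := hcom
  have hW : ∀ k : ℕ, 2 ≤ k → k < n → M.vf (x (j + k)) s ∧ ¬ M.vf (x (j + k)) t := by
    intro k hk2 hkn
    refine ⟨cCring_vx hc _, fun hcon => ?_⟩
    rcases hj' _ (cCring_vx hc _) hcon with h | h
    · rw [hc.curve.x_eq] at h
      have : j + (k : ℤ) - j = k := by ring
      rw [this] at h
      have := Int.le_of_dvd (by omega) h
      omega
    · rw [hc.curve.x_eq] at h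
      have : j + (k : ℤ) - (j + 1) = k - 1 := by ring
      rw [this] at h
      have := Int.le_of_dvd (by omega) h
      omega
  refine ⟨x (j + ((n - 1 : ℕ) : ℤ)), hW (n - 1) (by omega) (by omega), ?_⟩
  -- downward induction
  have key : ∀ m : ℕ, m + 1 < n → ¬ M.vf (x (j + ((n - 1 - m : ℕ) : ℤ))) t →
      ReachIn M.vadj {v | M.vf v s ∧ ¬ M.vf v t} (x (j + ((n - 1 : ℕ) : ℤ)))
        (x (j + ((n - 1 - m : ℕ) : ℤ))) := by
    intro m
    induction m with
    | zero =>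
      intro _ _
      exact ReachIn.refl _
    | succ m ih =>
      intro hmn hnt
      have h5 := hW (n - 1 - m) (by omega) (by omega)
      have h4 := ih (by omega) h5.2
      refine h4.tail ?_ h5 ⟨cCring_vx hc _, hnt⟩
      have e1 : j + ((n - 1 - m : ℕ) : ℤ) = j + ((n - 1 - (m + 1) : ℕ) : ℤ) + 1 := by
        have : n - 1 - m = (n - 1 - (m + 1)) + 1 := by omega
        rw [this]
        push_cast
        ring
      rw [e1]
      refine ⟨(cCring_x_ne hc _).symm, y (j + ((n - 1 - (m + 1) : ℕ) : ℤ)), ?_, ?_⟩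
      · exact (hc.curve.ve _ _).2 (Or.inr rfl)
      · exact (hc.curve.ve _ _).2 (Or.inl rfl)
  intro z hzs hzt
  obtain ⟨k, hk, rfl⟩ := cCring_rep hc j hzs
  have hk0 : 0 < k := by
    rcases Nat.eq_zero_or_pos k with h | h
    · exfalso
      subst h
      apply hzt
      simpa using hj
    · exact h
  have h6 := key (n - 1 - k) (by omega)
  have e2 : n - 1 - (n - 1 - k) = k := by omega
  rw [e2] at h6
  exact h6 hzt

end

/-- C5: faces are non-separating. -/
theorem cC_nonSep (h1 : Stmt_NoDouble) (h3 : Stmt_FaceCycle) : Stmt_NonSep := by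
  intro V E F M hconn t
  set U : Set V := {v | ¬ M.vf v t} with hU
  -- every vertex of `U` reaches an outer vertex of a face touching `t`
  have htv : ∃ p, M.vf p t := by
    obtain ⟨n, x, y, hc⟩ := h3 V E F M t
    exact ⟨x 0, cCring_vx hc 0⟩
  obtain ⟨p0, hp0⟩ := htv
  have hreach : ∀ v ∈ U, ∃ z p s, ReachIn M.vadj U v z ∧ s ≠ t ∧ M.vf z s ∧ ¬ M.vf z t ∧
      M.vf p s ∧ M.vf p t := by
    intro v hv
    by_contra hcon
    push Not at hcon
    have : p0 ∈ compIn M.vadj U v := by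
      refine (hconn v (mem_univ _) p0 (mem_univ _)).closed (A := compIn M.vadj U v)
        (mem_compIn_self v) ?_
      intro a ha b _ hab
      have haU : a ∈ U := compIn_subset hv ha
      by_cases hb : b ∈ U
      · exact compIn_closed a ha b hb hab haU
      · exfalso
        obtain ⟨hne, e, hae, hbe⟩ := hab
        obtain ⟨f, g, hfg, hfaces⟩ := M.edge_faces e
        have hft : f ≠ t := by
          rintro rfl
          exact haU ⟨e, hae, (hfaces f).2 (Or.inl rfl)⟩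
        have hbt : M.vf b t := by
          by_contra hbt
          exact hb hbt
        exact hcon a b f ha hft ⟨e, hae, (hfaces f).2 (Or.inl rfl)⟩ haU
          ⟨e, hbe, (hfaces f).2 (Or.inl rfl)⟩ hbt
    exact compIn_subset hv this hp0
  intro a ha b hb
  obtain ⟨z, p, s, r1, hst, hzs, hzt, hps, hpt⟩ := hreach a ha
  obtain ⟨z', p', s', r2, hs't, hz's, hz't, hp's, hp't⟩ := hreach b hb
  -- the ring
  have hsub : ∀ s, {v | M.vf v s ∧ ¬ M.vf v t} ⊆ U := fun s v hv => hv.2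
  have hring := cCring_ring h3 M (t := t)
    {s | ∀ w, M.vf w s → ¬ M.vf w t → ReachIn M.vadj U z w} (s0 := s) (p0 := p) hst hpt hps
    (by
      intro w hws hwt
      obtain ⟨w0, -, hw0⟩ := cCring_outer h1 h3 M hst hpt hps
      exact ((hw0 z hzs hzt).mono (hsub s)).symm.trans ((hw0 w hws hwt).mono (hsub s)))
    (by
      intro p1 s1 s2 e hp1 hs1 hs1t hs2t h12 hpe he1 he2 w hw2 hwt
      obtain ⟨q, hqe, hqt⟩ := cCring_other h1 M hs1t hs2t h12 hp1 hpe he1 he2
      have h5 : ReachIn M.vadj U z q := hs1 q ⟨e, hqe, he1⟩ hqt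
      obtain ⟨w0, -, hw0⟩ := cCring_outer h1 h3 M hs2t hp1 ⟨e, hpe, he2⟩
      exact h5.trans (((hw0 q ⟨e, hqe, he2⟩ hqt).mono (hsub s2)).symm.trans
        ((hw0 w hw2 hwt).mono (hsub s2))))
  have h6 : ReachIn M.vadj U z z' := hring p' s' hp't hs't hp's z' hz's hz't
  exact r1.trans (h6.trans r2.symm)

/-- C12: removing a face whose vertices only lie in faces of `O` does not disconnect `O`. -/
theorem cC_ring (h3 : Stmt_FaceCycle) : Stmt_Ring := by
  intro V E F M O hO t htO hv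
  have hreach : ∀ f ∈ O \ {t}, ∃ g p, ReachIn M.fadj (O \ {t}) f g ∧ g ≠ t ∧ M.vf p g ∧
      M.vf p t := by
    intro f hf
    by_contra hcon
    push Not at hcon
    have : t ∈ compIn M.fadj (O \ {t}) f := by
      refine (hO f hf.1 t htO).closed (A := compIn M.fadj (O \ {t}) f) (mem_compIn_self f) ?_
      intro a ha b hbO hab
      have haO : a ∈ O \ {t} := compIn_subset hf ha
      by_cases hb : b = t
      · exfalso
        subst hb
        obtain ⟨hne, e, hae, hbe⟩ := hab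
        obtain ⟨u, v, huv, hw⟩ := M.edge_verts e
        have hu : M.ve u e := (hw u).2 (Or.inl rfl)
        exact hcon a u ha haO.2 ⟨e, hu, hae⟩ ⟨e, hu, hbe⟩
      · exact compIn_closed a ha b ⟨hbO, hb⟩ hab haO
    exact (compIn_subset hf this).2 rfl
  intro a ha b hb
  obtain ⟨g, p, r1, hgt, hpg, hpt⟩ := hreach a ha
  obtain ⟨g', p', r2, hg't, hp'g, hp't⟩ := hreach b hb
  have hring := cCring_ring h3 M (t := t) {s | ReachIn M.fadj (O \ {t}) g s} (s0 := g) (p0 := p)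
    hgt hpt hpg (ReachIn.refl g)
    (by
      intro p1 s1 s2 e hp1 hs1 hs1t hs2t h12 hpe he1 he2
      exact ReachIn.tail hs1 ⟨h12, e, he1, he2⟩ ⟨hv p1 hp1 s1 ⟨e, hpe, he1⟩, hs1t⟩
        ⟨hv p1 hp1 s2 ⟨e, hpe, he2⟩, hs2t⟩)
  have h6 : ReachIn M.fadj (O \ {t}) g g' := hring p' g' hp't hg't hp'g
  exact r1.trans (h6.trans r2.symm)

end Pool.Agent.CT
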