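import Pool.Agent.CT.DDefs
import Pool.Agent.CT.CoarsePoly

set_option autoImplicit false

/-! # D4: on the sides of a tight disc the harmonic extension is equally spaced -/

namespace Pool.Agent.CT

open Set

section cD4

variable {V E F : Type}

/-- A frontier vertex which is not a corner is the midpoint of its two frontier neighbours. -/
theorem cD4_second {M : PolyMap V E F} {D : Set F} {c : V → V → ℝ} {P φ : V → ℂ}
    (hφ : DiscExt M.toInc D c P φ) {v u1 u2 : V} (hT : Touch M.toInc D v)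
    (hT' : Touch M.toInc Dᶜ v) (hC : ¬ Corner M.toInc D v) (h12 : u1 ≠ u2)
    (hadj : ∀ u, FrAdj M.toInc D v u ↔ (u = u1 ∨ u = u2)) :
    φ u1 + φ u2 = 2 * φ v := by
  classical
  have h := hφ.2 v ⟨hT, hC⟩
  unfold Harm at h
  have hI : ¬ IntV M.toInc D v := fun h => h.2 hT'
  have hw : ∀ u, discWt M.toInc D c v u = if (u = u1 ∨ u = u2) then 1 else 0 := by
    intro u
    unfold discWt
    rw [if_neg hI]
    by_cases hu : u = u1 ∨ u = u2
    · rw [if_pos hu, if_pos ((hadj u).2 hu)]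
    · rw [if_neg hu, if_neg (fun h' => hu ((hadj u).1 h'))]
  rw [finsum_eq_sum_of_support_subset (s := {u1, u2})] at h
  · rw [Finset.sum_pair h12, hw, hw, if_pos (Or.inl rfl), if_pos (Or.inr rfl), one_smul,
      one_smul] at h
    linear_combination h
  · intro u hu
    rw [Function.mem_support, hw] at hu
    by_contra hcon
    apply hu
    rw [if_neg, zero_smul]
    simpa using hcon

/-- Vanishing second differences. -/
theorem cD4_prog (g : ℤ → ℂ) (i j : ℤ) (hij : i < j)
    (h : ∀ k, i < k → k < j → g (k - 1) + g (k + 1) = 2 * g k) :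
    ∀ k, i ≤ k → k ≤ j → g k =
      g i + ((((k - i : ℤ) : ℝ) / ((j - i : ℤ) : ℝ) : ℝ) : ℂ) * (g j - g i) := by
  have key : ∀ m : ℕ, i + m + 1 ≤ j → g (i + m) = g i + m * (g (i + 1) - g i) ∧
      g (i + m + 1) = g i + (m + 1) * (g (i + 1) - g i) := by
    intro m
    induction m with
    | zero =>
      intro _
      simp
    | succ m ih =>
      intro hm
      push_cast at hm
      obtain ⟨h1, h2⟩ := ih (by omega)
      have h3 := h (i + m + 1) (by omega) (by omega)
      rw [show i + (m : ℤ) + 1 - 1 = i + m by ring] at h3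
      push_cast
      rw [show i + ((m : ℤ) + 1) = i + m + 1 by ring]
      refine ⟨h2, ?_⟩
      linear_combination h3 - h1 + 2 * h2
  have key2 : ∀ k, i ≤ k → k ≤ j → g k = g i + ((k - i : ℤ) : ℂ) * (g (i + 1) - g i) := by
    intro k hk1 hk2
    rcases hk2.lt_or_eq with hlt | heq
    · have h1 := (key (k - i).toNat (by omega)).1
      have h2 : (((k - i).toNat : ℕ) : ℤ) = k - i := Int.toNat_of_nonneg (by omega)
      have h3 : (((k - i).toNat : ℕ) : ℂ) = ((k - i : ℤ) : ℂ) := by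
        rw [← h2]
        push_cast
        rfl
      rw [h3, h2, show i + (k - i) = k by ring] at h1
      exact h1
    · have h1 := (key (k - i - 1).toNat (by omega)).2
      have h2 : (((k - i - 1).toNat : ℕ) : ℤ) = k - i - 1 := Int.toNat_of_nonneg (by omega)
      have h3 : (((k - i - 1).toNat : ℕ) : ℂ) = ((k - i - 1 : ℤ) : ℂ) := by
        rw [← h2]
        push_cast
        rfl
      rw [h3, h2, show i + (k - i - 1) + 1 = k by ring] at h1
      rw [h1]
      push_cast
      ring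
  intro k hk1 hk2
  have h1 := key2 k hk1 hk2
  have h2 := key2 j hij.le le_rfl
  have hne : ((j - i : ℤ) : ℂ) ≠ 0 := by
    rw [Int.cast_ne_zero]
    omega
  rw [h1, h2]
  push_cast at hne ⊢
  field_simp
  ring

/-- The frontier neighbours of a vertex with exactly two frontier edges. -/
theorem cD4_adj {M : PolyMap V E F} {D : Set F} {v u1 u2 : V} {e1 e2 : E}
    (h1 : ∀ w, M.ve w e1 ↔ (w = v ∨ w = u1)) (h2 : ∀ w, M.ve w e2 ↔ (w = v ∨ w = u2))
    (hv1 : u1 ≠ v) (hv2 : u2 ≠ v)
    (hfr : ∀ d, (d ∈ fr M.toInc D ∧ M.ve v d) ↔ (d = e1 ∨ d = e2)) :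
    ∀ u, FrAdj M.toInc D v u ↔ (u = u1 ∨ u = u2) := by
  intro u
  constructor
  · rintro ⟨hne, e, he, hve, hue⟩
    rcases (hfr e).1 ⟨he, hve⟩ with rfl | rfl
    · rcases (h1 u).1 hue with h | h
      · exact absurd h.symm hne
      · exact Or.inl h
    · rcases (h2 u).1 hue with h | h
      · exact absurd h.symm hne
      · exact Or.inr h
  · rintro (rfl | rfl)
    · exact ⟨hv1.symm, e1, ((hfr e1).2 (Or.inl rfl)).1, (h1 v).2 (Or.inl rfl),
        (h1 u).2 (Or.inr rfl)⟩
    · exact ⟨hv2.symm, e2, ((hfr e2).2 (Or.inr rfl)).1, (h2 v).2 (Or.inl rfl),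
        (h2 u).2 (Or.inr rfl)⟩

theorem cD4_fr_touch {M : Inc V E F} {D : Set F} {e : E} (he : e ∈ fr M D) {v : V}
    (hv : M.ve v e) : Touch M D v ∧ Touch M Dᶜ v := by
  obtain ⟨⟨f, hf, hef⟩, g, hg, heg⟩ := he
  exact ⟨⟨f, hf, e, hv, hef⟩, g, hg, e, hv, heg⟩

/-- Second differences along a curve part consisting of frontier edges. -/
theorem cD4_curve {M : PolyMap V E F} {D : Set F} {c : V → V → ℝ} {P φ : V → ℂ}
    (hφ : DiscExt M.toInc D c P φ) {C : Set E} {n : ℕ} {x : ℤ → V} {y : ℤ → E}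
    (hbond : ∀ v e, e ∈ fr M.toInc D → M.ve v e → ∃ e', e' ≠ e ∧
      ∀ d, (d ∈ fr M.toInc D ∧ M.ve v d) ↔ (d = e ∨ d = e'))
    (hc : IsCurve M.toInc C n x y) (k : ℤ) (h1 : y (k - 1) ∈ fr M.toInc D)
    (h2 : y k ∈ fr M.toInc D) (hC : ¬ Corner M.toInc D (x k)) :
    φ (x (k - 1)) + φ (x (k + 1)) = 2 * φ (x k) := by
  have hn1 : ¬ (n : ℤ) ∣ 1 := by
    intro h
    have := Int.eq_one_of_dvd_one (by omega) h
    rcases hc.n_ne with h' | h' <;> omega
  have hn2 : ¬ (n : ℤ) ∣ 2 := by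
    intro h
    have h3 := Int.le_of_dvd (by norm_num) h
    rcases hc.n_ne with h' | h'
    · rw [h'] at h
      simp at h
    · omega
  have hyne : y k ≠ y (k - 1) := by
    intro h
    have := (hc.y_eq _ _).1 h
    apply hn1
    rwa [show k - (k - 1) = 1 by ring] at this
  have hx1 : x (k - 1) ≠ x k := by
    intro h
    have := (hc.x_eq _ _).1 h
    apply hn1
    rw [show k - 1 - k = -1 by ring] at this
    exact (dvd_neg).1 this
  have hx2 : x (k + 1) ≠ x k := by
    intro h
    have := (hc.x_eq _ _).1 h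
    apply hn1
    rwa [show k + 1 - k = 1 by ring] at this
  have hx3 : x (k - 1) ≠ x (k + 1) := by
    intro h
    have := (hc.x_eq _ _).1 h
    apply hn2
    rw [show k - 1 - (k + 1) = -2 by ring] at this
    exact (dvd_neg).1 this
  have hv1 : M.ve (x k) (y (k - 1)) := (hc.ve _ _).2 (Or.inr (by rw [sub_add_cancel]))
  have hv2 : M.ve (x k) (y k) := (hc.ve _ _).2 (Or.inl rfl)
  obtain ⟨e', he', hfr⟩ := hbond (x k) (y (k - 1)) h1 hv1
  have he2 : e' = y k := by
    rcases (hfr (y k)).1 ⟨h2, hv2⟩ with h | h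
    · exact absurd h hyne
    · exact h.symm
  subst he2
  obtain ⟨hT, hT'⟩ := cD4_fr_touch h2 hv2
  refine cD4_second hφ hT hT' hC hx3 (cD4_adj (e1 := y (k - 1)) (e2 := y k) ?_ ?_ hx1 hx2 hfr)
  · intro w
    rw [hc.ve, sub_add_cancel]
    exact or_comm
  · intro w
    rw [hc.ve]

end cD4

/-- D4. -/
theorem cD4 (h8 : Stmt_Bond) (h7 : Stmt_FrVertex) (h3 : Stmt_FaceCycle) (h9 : Stmt_Tight) :
    Stmt_SidePos := by
  intro V E F M D hD c P φ hφ
  have C := cHp_ctx h3 h7 h8 h9 M D hD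
  constructor
  · intro n x y hc i j hij hcor
    refine cD4_prog (fun k => φ (x k)) i j hij fun k h1 h2 => ?_
    exact cD4_curve (M := M.toPolyMap) hφ C.bond hc k ((hc.mem _).2 ⟨_, rfl⟩)
      ((hc.mem _).2 ⟨_, rfl⟩) (hcor k h1 h2)
  · intro t n x y ht hc a r hr1 hrn hT hE
    have hyt : ∀ i, M.ef (y i) t := fun i => (hc.curve.mem _).2 ⟨i, rfl⟩
    have hcorner : ∀ i, Touch M.toInc D (x i) → (∀ v, v = x i → ∃ e, M.ve v e ∧ M.ef e t ∧
        ¬ ∃ d ∈ D, M.ef e d) → Corner M.toInc D (x i) := by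
      intro i hTi hi
      obtain ⟨e, hve, het, hed⟩ := hi _ rfl
      obtain ⟨g, hgt, hg⟩ := cHp_other M.toPolyMap het
      exact ⟨hTi, t, g, hgt.symm, ht, fun h => hed ⟨g, h, hg⟩, ⟨e, hve, het⟩, ⟨e, hve, hg⟩⟩
    have hde : ∀ k : ℕ, k < r → ∃ d ∈ D, M.ef (y (a + k)) d := by
      intro k hk
      exact (hE _).2 ⟨k, hk, by simp⟩
    have hfr : ∀ k : ℕ, k < r → y (a + k) ∈ fr M.toInc D := fun k hk =>
      ⟨hde k hk, t, ht, hyt _⟩
    have hnc : ∀ k : ℕ, 0 < k → k < r → ¬ Corner M.toInc D (x (a + k)) := by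
      intro k h0 hk hcor
      have hcast : a + ((k - 1 : ℕ) : ℤ) + 1 = a + k := by
        rw [Nat.cast_sub (by omega)]
        push_cast
        ring
      refine cHp_not_cv C (v := x (a + k)) (e1 := y (a + ((k - 1 : ℕ) : ℤ)))
        (e2 := y (a + (k : ℤ))) (t := t) ?_ ?_ ?_
        (hyt _) (hyt _) ht (hde (k - 1) (by omega)) (hde k hk) hcor.2
      · intro h
        have h4 := (hc.curve.y_eq _ _).1 h
        have h5 : (n : ℤ) ∣ 1 := by
          rw [← hcast] at h4
          rw [show a + ((k - 1 : ℕ) : ℤ) - (a + ((k - 1 : ℕ) : ℤ) + 1) = -1 by ring] at h4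
          exact (dvd_neg).1 h4
        have := Int.le_of_dvd one_pos h5
        have := hc.three
        omega
      · rw [hc.curve.ve]
        right
        rw [hcast]
      · rw [hc.curve.ve]
        left
        rfl
    refine ⟨?_, ?_, hnc, ?_⟩
    · refine hcorner a ((hT a).2 ⟨0, by omega, by simp⟩) ?_
      rintro v rfl
      refine ⟨y (a - 1), (hc.curve.ve _ _).2 (Or.inr (by rw [sub_add_cancel])), hyt _, ?_⟩
      rw [hE]
      rintro ⟨k, hk, hdvd⟩
      rw [show a - 1 - (a + (k : ℤ)) = -((k : ℤ) + 1) by ring] at hdvd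
      have := Int.le_of_dvd (by omega) ((dvd_neg).1 hdvd)
      omega
    · refine hcorner (a + r) ((hT _).2 ⟨r, le_rfl, by simp⟩) ?_
      rintro v rfl
      refine ⟨y (a + r), (hc.curve.ve _ _).2 (Or.inl rfl), hyt _, ?_⟩
      rw [hE]
      rintro ⟨k, hk, hdvd⟩
      rw [show a + (r : ℤ) - (a + (k : ℤ)) = (r : ℤ) - k by ring] at hdvd
      have := Int.le_of_dvd (by omega) hdvd
      omega
    · intro k hk
      have h5 := cD4_prog (fun k => φ (x k)) a (a + r) (by omega) (fun l h1 h2 => by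
        have hl : l = a + ((l - a).toNat : ℕ) := by
          rw [Int.toNat_of_nonneg (by omega)]
          ring
        have hl1 : l - 1 = a + ((l - a - 1).toNat : ℕ) := by
          rw [Int.toNat_of_nonneg (by omega)]
          ring
        refine cD4_curve (M := M.toPolyMap) hφ C.bond hc.curve l ?_ ?_ ?_
        · rw [hl1]
          exact hfr _ (by omega)
        · rw [hl]
          exact hfr _ (by omega)
        · rw [hl]
          exact hnc _ (by omega) (by omega)) (a + k) (by omega) (by omega)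
      rw [h5]
      push_cast
      simp

end Pool.Agent.CT
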