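import Pool.Agent.CT.BDefs

set_option autoImplicit false

/-! # Strict convexity from no alternation (G1) -/

namespace Pool.Agent.CT

theorem cG1_dir (w d z : ℂ) (δ : ℝ) : dir (w - (δ : ℂ) * d) z = dir w z - δ * dir d z := by
  simp [dir]; ring

theorem cG1_small (a b p q : ℝ) (ha : 0 < a) (hb : b < 0) :
    ∃ δ : ℝ, 0 < δ ∧ δ * p < a ∧ b < δ * q := by
  have hM : 0 < 1 + |p| + |q| := by positivity
  have hmin : 0 < min a (-b) := lt_min ha (by linarith)
  refine ⟨min a (-b) / (1 + |p| + |q|), by positivity, ?_, ?_⟩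
  · rw [div_mul_eq_mul_div, div_lt_iff₀ hM]
    have h1 : min a (-b) ≤ a := min_le_left _ _
    have h2 : p ≤ |p| := le_abs_self p
    have h3 : 0 ≤ |q| := abs_nonneg q
    have h4 : min a (-b) * p ≤ min a (-b) * |p| := mul_le_mul_of_nonneg_left h2 hmin.le
    have h5 : min a (-b) * |p| ≤ a * |p| := mul_le_mul_of_nonneg_right h1 (abs_nonneg p)
    nlinarith
  · rw [div_mul_eq_mul_div, lt_div_iff₀ hM]
    have h1 : min a (-b) ≤ -b := min_le_right _ _
    have h2 : -|q| ≤ q := neg_abs_le q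
    have h3 : 0 ≤ |p| := abs_nonneg p
    have h4 : min a (-b) * (-|q|) ≤ min a (-b) * q := mul_le_mul_of_nonneg_left h2 hmin.le
    have h5 : min a (-b) * |q| ≤ (-b) * |q| := mul_le_mul_of_nonneg_right h1 (abs_nonneg q)
    nlinarith

theorem cG1_key (n : ℕ) (z : ℤ → ℂ)
    (A : ∀ (w : ℂ) (c : ℝ) (i j k l : ℤ), w ≠ 0 → i < j → j < k → k < l → l < i + n →
      c < dir w (z i) → dir w (z j) < c → c < dir w (z k) → dir w (z l) < c → False)
    (i j k : ℤ) (w : ℂ) (c : ℝ) (hij : i + 1 < j) (hjk : j < k) (hk : k < i + n)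
    (ha : dir w (z i) = c) (hb : dir w (z (i + 1)) = c) (hab : z i ≠ z (i + 1))
    (hj : c < dir w (z j)) (hk' : dir w (z k) < c) : False := by
  have hd0 : 0 < dir (z (i + 1) - z i) (z (i + 1)) - dir (z (i + 1) - z i) (z i) := by
    have h : dir (z (i + 1) - z i) (z (i + 1)) - dir (z (i + 1) - z i) (z i)
        = ((z (i + 1)).re - (z i).re) ^ 2 + ((z (i + 1)).im - (z i).im) ^ 2 := by
      simp [dir]; ring
    rw [h]
    by_contra hcon
    have h1 : ((z (i + 1)).re - (z i).re) ^ 2 = 0 := by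
      nlinarith [sq_nonneg ((z (i + 1)).re - (z i).re), sq_nonneg ((z (i + 1)).im - (z i).im)]
    have h2 : ((z (i + 1)).im - (z i).im) ^ 2 = 0 := by
      nlinarith [sq_nonneg ((z (i + 1)).re - (z i).re), sq_nonneg ((z (i + 1)).im - (z i).im)]
    apply hab
    apply Complex.ext
    · have := pow_eq_zero_iff (two_ne_zero) |>.1 h1
      linarith
    · have := pow_eq_zero_iff (two_ne_zero) |>.1 h2
      linarith
  set d : ℂ := z (i + 1) - z i with hd
  set m : ℝ := (dir d (z i) + dir d (z (i + 1))) / 2 with hm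
  obtain ⟨δ, hδ, h1, h2⟩ := cG1_small (dir w (z j) - c) (dir w (z k) - c)
    (dir d (z j) - m) (dir d (z k) - m) (by linarith) (by linarith)
  have e1 : c - δ * m < dir (w - (δ : ℂ) * d) (z i) := by
    rw [cG1_dir, ha]
    have : dir d (z i) < m := by rw [hm]; linarith
    nlinarith
  have e2 : dir (w - (δ : ℂ) * d) (z (i + 1)) < c - δ * m := by
    rw [cG1_dir, hb]
    have : m < dir d (z (i + 1)) := by rw [hm]; linarith
    nlinarith
  refine A (w - (δ : ℂ) * d) (c - δ * m) i (i + 1) j k ?_ (by omega) hij hjk hk e1 e2 ?_ ?_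
  · intro h0
    rw [h0] at e1 e2
    simp [dir] at e1 e2
    linarith
  · rw [cG1_dir]; linarith
  · rw [cG1_dir]; linarith

theorem cG1_cross (a b x : ℂ) :
    cross a b x = dir ⟨-(b.im - a.im), b.re - a.re⟩ x - dir ⟨-(b.im - a.im), b.re - a.re⟩ a := by
  simp [dir, cross]; ring

theorem cG1_same (n : ℕ) (z : ℤ → ℂ)
    (A : ∀ (w : ℂ) (c : ℝ) (i j k l : ℤ), w ≠ 0 → i < j → j < k → k < l → l < i + n →
      c < dir w (z i) → dir w (z j) < c → c < dir w (z k) → dir w (z l) < c → False)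
    (i j k : ℤ) (hij : i + 1 < j) (hjk : j < k) (hk : k < i + n) (hab : z i ≠ z (i + 1))
    (h1 : cross (z i) (z (i + 1)) (z j) ≠ 0) (h2 : cross (z i) (z (i + 1)) (z k) ≠ 0) :
    0 < cross (z i) (z (i + 1)) (z j) * cross (z i) (z (i + 1)) (z k) := by
  by_contra hcon
  have hcon' : cross (z i) (z (i + 1)) (z j) * cross (z i) (z (i + 1)) (z k) < 0 := by
    rcases lt_or_eq_of_le (not_lt.1 hcon) with h | h
    · exact h
    · exact absurd h (mul_ne_zero h1 h2)
  set w : ℂ := ⟨-((z (i + 1)).im - (z i).im), (z (i + 1)).re - (z i).re⟩ with hw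
  have hc : ∀ x, cross (z i) (z (i + 1)) x = dir w x - dir w (z i) := fun x => cG1_cross _ _ x
  have hb : dir w (z (i + 1)) = dir w (z i) := by simp [dir, hw]; ring
  rw [hc, hc] at hcon'
  rcases mul_neg_iff.1 hcon' with ⟨p, q⟩ | ⟨p, q⟩
  · exact cG1_key n z A i j k w (dir w (z i)) hij hjk hk rfl hb hab (by linarith) (by linarith)
  · have hneg : ∀ x, dir (-w) x = - dir w x := fun x => by simp [dir]; ring
    refine cG1_key n z A i j k (-w) (- dir w (z i)) hij hjk hk (hneg _) ?_ hab ?_ ?_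
    · rw [hneg, hb]
    · rw [hneg]; linarith
    · rw [hneg]; linarith

theorem cG1_perz (n : ℕ) (z : ℤ → ℂ) (per : ∀ i, z (i + n) = z i) (i m : ℤ) :
    z (i + m * n) = z i := by
  induction m using Int.induction_on with
  | zero => simp
  | succ m ih =>
    have : i + ((m : ℤ) + 1) * n = (i + m * n) + n := by ring
    rw [this, per, ih]
  | pred m ih =>
    have : i + (-(m : ℤ)) * n = (i + (-(m : ℤ) - 1) * n) + n := by ring
    rw [this, per] at ih
    exact ih

theorem cG1 : Stmt_StrictOf := by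
  intro n z hn per H A
  have hn' : (3 : ℤ) ≤ n := by exact_mod_cast hn
  have nd : ∀ t : ℤ, 0 < t → t < n → ¬ (n : ℤ) ∣ t := fun t h1 h2 h3 =>
    absurd (Int.le_of_dvd h1 h3) (by omega)
  have nd' : ∀ t : ℤ, 0 < -t → -t < n → ¬ (n : ℤ) ∣ t := fun t h1 h2 h3 =>
    nd (-t) h1 h2 ((dvd_neg).2 h3)
  have hcr : ∀ i j k : ℤ, i < j → j < k → k < i + n → cross (z i) (z j) (z k) ≠ 0 :=
    fun i j k h1 h2 h3 => H i j k (nd' _ (by omega) (by omega)) (nd' _ (by omega) (by omega))
      (nd' _ (by omega) (by omega))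
  have hab : ∀ i, z i ≠ z (i + 1) := by
    intro i h
    apply hcr i (i + 1) (i + 2) (by omega) (by omega) (by omega)
    rw [← h]; simp [cross]
  have same : ∀ i j : ℤ, i + 1 < j → j < i + n →
      0 < cross (z i) (z (i + 1)) (z (i + 2)) * cross (z i) (z (i + 1)) (z j) := by
    intro i j h1 h2
    rcases eq_or_ne j (i + 2) with h | h
    · subst h
      exact mul_self_pos.2 (hcr _ _ _ (by omega) (by omega) (by omega))
    · exact cG1_same n z A i (i + 2) j (by omega) (by omega) h2 (hab i)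
        (hcr _ _ _ (by omega) (by omega) (by omega)) (hcr _ _ _ (by omega) (by omega) (by omega))
  have step : ∀ i : ℤ, 0 < cross (z i) (z (i + 1)) (z (i + 2)) *
      cross (z (i + 1)) (z (i + 1 + 1)) (z (i + 1 + 2)) := by
    intro i
    have h := same (i + 1) (i + n) (by omega) (by omega)
    rw [per i] at h
    have e : cross (z (i + 1)) (z (i + 1 + 1)) (z i) = cross (z i) (z (i + 1)) (z (i + 2)) := by
      have : i + 1 + 1 = i + 2 := by ring
      rw [this]; simp [cross]; ring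
    rw [e] at h
    linarith [mul_comm (cross (z i) (z (i + 1)) (z (i + 2)))
      (cross (z (i + 1)) (z (i + 1 + 1)) (z (i + 1 + 2)))]
  have trans : ∀ a b c : ℝ, 0 < a * b → 0 < b * c → 0 < a * c := by
    intro a b c h1 h2
    have hb : b ≠ 0 := by rintro rfl; simp at h1
    have h3 : 0 < (a * b) * (b * c) := mul_pos h1 h2
    have h4 : (a * b) * (b * c) = b ^ 2 * (a * c) := by ring
    rw [h4] at h3
    exact (pos_iff_pos_of_mul_pos h3).1 (by positivity)
  have all : ∀ i : ℤ, 0 < cross (z 0) (z (0 + 1)) (z (0 + 2)) *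
      cross (z i) (z (i + 1)) (z (i + 2)) := by
    intro i
    induction i using Int.induction_on with
    | zero => exact mul_self_pos.2 (hcr _ _ _ (by omega) (by omega) (by omega))
    | succ m ih => exact trans _ _ _ ih (step _)
    | pred m ih =>
      have h := step (-(m : ℤ) - 1)
      have e : (-(m : ℤ) - 1) + 1 = -(m : ℤ) := by ring
      rw [e] at h ⊢
      refine trans _ _ _ ih ?_
      linarith [mul_comm (cross (z (-(m : ℤ) - 1)) (z (-(m : ℤ))) (z (-(m : ℤ) - 1 + 2)))
        (cross (z (-(m : ℤ))) (z (-(m : ℤ) + 1)) (z (-(m : ℤ) + 2)))]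
  have main : ∀ i j, ¬ (n : ℤ) ∣ j - i → ¬ (n : ℤ) ∣ j - (i + 1) →
      0 < cross (z 0) (z (0 + 1)) (z (0 + 2)) * cross (z i) (z (i + 1)) (z j) := by
    intro i j h1 h2
    have hj : z j = z (i + (j - i) % n) := by
      have := cG1_perz n z per (i + (j - i) % n) ((j - i) / n)
      rw [← this]
      congr 1
      have := Int.emod_add_mul_ediv (j - i) n
      linarith [mul_comm ((j - i) / (n : ℤ)) (n : ℤ)]
    have r0 : 0 ≤ (j - i) % n := Int.emod_nonneg _ (by omega)
    have r1 : (j - i) % n < n := Int.emod_lt_of_pos _ (by omega)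
    have r2 : (j - i) % n ≠ 0 := fun h => h1 (Int.dvd_of_emod_eq_zero h)
    have r3 : (j - i) % n ≠ 1 := by
      intro h
      apply h2
      have := Int.emod_add_mul_ediv (j - i) n
      rw [h] at this
      exact ⟨(j - i) / n, by linarith⟩
    rw [hj]
    exact trans _ _ _ (all i) (same i (i + (j - i) % n) (by omega) (by omega))
  refine ⟨hn, per, ?_⟩
  have h0 : cross (z 0) (z (0 + 1)) (z (0 + 2)) ≠ 0 := hcr _ _ _ (by omega) (by omega) (by omega)
  rcases lt_or_gt_of_ne h0 with h | h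
  · refine ⟨-1, Or.inr rfl, fun i j h1 h2 => ?_⟩
    have := main i j h1 h2
    have := neg_of_mul_pos_right this h.le
    linarith
  · refine ⟨1, Or.inl rfl, fun i j h1 h2 => ?_⟩
    have := main i j h1 h2
    have := (pos_iff_pos_of_mul_pos this).1 h
    linarith

end Pool.Agent.CT
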