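import Pool.Agent.CT.DDefs

set_option autoImplicit false

/-! # D1: the faces in `D` form a block -/

namespace Pool.Agent.CT

open Set Metric

section

variable {V E F : Type} {M : Inc V E F} {D : Set F}

/-- The inclusion of the cells of the substructure. -/
def cD1_emb (M : Inc V E F) (D : Set F) :
    Cell {v // Touch M D v} {e // ∃ d ∈ D, M.ef e d} {f // f ∈ D} → Cell V E F
  | .vert v => .vert v.1
  | .edge e => .edge e.1
  | .face f => .face f.1

theorem cD1_emb_inj : Function.Injective (cD1_emb M D) := by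
  intro a b h
  cases a with
  | vert v => cases b with
    | vert v' =>
      have h' : v.1 = v'.1 := by simpa [cD1_emb] using h
      rw [Subtype.ext h']
    | edge e => simp [cD1_emb] at h
    | face f => simp [cD1_emb] at h
  | edge e => cases b with
    | vert v => simp [cD1_emb] at h
    | edge e' =>
      have h' : e.1 = e'.1 := by simpa [cD1_emb] using h
      rw [Subtype.ext h']
    | face f => simp [cD1_emb] at h
  | face f => cases b with
    | vert v => simp [cD1_emb] at h
    | edge e => simp [cD1_emb] at h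
    | face f' =>
      have h' : f.1 = f'.1 := by simpa [cD1_emb] using h
      rw [Subtype.ext h']

theorem cD1_inc {a b : Cell {v // Touch M D v} {e // ∃ d ∈ D, M.ef e d} {f // f ∈ D}}
    (h : CellInc (subInc M D) a b) : CellInc M (cD1_emb M D a) (cD1_emb M D b) := by
  cases h with
  | ve h => exact CellInc.ve h
  | ef h => exact CellInc.ef h
  | vf h =>
    obtain ⟨e, h1, h2⟩ := h
    exact CellInc.vf ⟨e.1, h1, h2⟩

theorem cD1_planar (hM : StrongPlanar M.cellGraph) : StrongPlanar (subInc M D).cellGraph := by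
  refine hM.minor (fun a => {cD1_emb M D a}) (fun a => ⟨_, rfl⟩) (fun a => ConnIn.singleton _)
    ?_ ?_
  · intro a b hab
    rw [Set.disjoint_singleton]
    exact fun h => hab (cD1_emb_inj h)
  · intro a b hab
    refine ⟨_, rfl, _, rfl, ?_⟩
    rcases hab with h | h
    · exact Or.inl (cD1_inc h)
    · exact Or.inr (cD1_inc h)

theorem cD1_edge (hE : ∀ e, ∃ u v, u ≠ v ∧ ∀ w, M.ve w e ↔ (w = u ∨ w = v))
    (e : {e // ∃ d ∈ D, M.ef e d}) :
    ∃ u v, u ≠ v ∧ ∀ w, (subInc M D).ve w e ↔ (w = u ∨ w = v) := by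
  obtain ⟨e, d, hd, hed⟩ := e
  obtain ⟨u, v, huv, h⟩ := hE e
  refine ⟨⟨u, d, hd, e, (h u).2 (Or.inl rfl), hed⟩, ⟨v, d, hd, e, (h v).2 (Or.inr rfl), hed⟩,
    fun he => huv (congrArg Subtype.val he), ?_⟩
  intro w
  show M.ve w.1 e ↔ _
  rw [h]
  constructor
  · rintro (h1 | h1)
    · exact Or.inl (Subtype.ext h1)
    · exact Or.inr (Subtype.ext h1)
  · rintro (h1 | h1)
    · exact Or.inl (congrArg Subtype.val h1)
    · exact Or.inr (congrArg Subtype.val h1)

theorem cD1_cyc {n : ℕ} {x : ℤ → V} {y : ℤ → E} (f : {f // f ∈ D})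
    (h : IsFaceCycle M f.1 n x y) :
    ∃ n x y, IsFaceCycle (subInc M D) f n x y := by
  have hy : ∀ i, M.ef (y i) f.1 := fun i => (h.curve.mem _).2 ⟨i, rfl⟩
  have hx : ∀ i, Touch M D (x i) := fun i =>
    ⟨f.1, f.2, y i, (h.curve.ve i _).2 (Or.inl rfl), hy i⟩
  refine ⟨n, fun i => ⟨x i, hx i⟩, fun i => ⟨y i, f.1, f.2, hy i⟩, h.three, ?_⟩
  constructor
  · exact h.curve.n_ne
  · intro i j
    rw [← h.curve.x_eq i j]
    exact ⟨fun h => congrArg Subtype.val h, fun h => Subtype.ext h⟩
  · intro i j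
    rw [← h.curve.y_eq i j]
    exact ⟨fun h => congrArg Subtype.val h, fun h => Subtype.ext h⟩
  · intro e
    constructor
    · intro he
      obtain ⟨i, hi⟩ := (h.curve.mem e.1).1 he
      exact ⟨i, Subtype.ext hi⟩
    · rintro ⟨i, rfl⟩
      exact hy i
  · intro i v
    show M.ve v.1 (y i) ↔ _
    rw [h.curve.ve i v.1]
    constructor
    · rintro (h1 | h1)
      · exact Or.inl (Subtype.ext h1)
      · exact Or.inr (Subtype.ext h1)
    · rintro (h1 | h1)
      · exact Or.inl (congrArg Subtype.val h1)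
      · exact Or.inr (congrArg Subtype.val h1)

end

theorem cD1 (h3 : Stmt_FaceCycle) : Stmt_SubBlk := by
  intro V E F M D
  refine ⟨{ toInc := subInc M.toInc D
            edge_verts := cD1_edge M.edge_verts
            cyc := fun f => ?_
            planar := cD1_planar M.planar }, rfl⟩
  obtain ⟨n, x, y, h⟩ := h3 V E F M.toPolyMap f.1
  exact cD1_cyc f h

end Pool.Agent.CT
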