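import Pool.Agent.CT.CDefs

set_option autoImplicit false

/-! # C4: 3-connectivity of polyhedral maps -/

namespace Pool.Agent.CT

open Set

section threeConn

variable {V E F : Type}

theorem cB_other (M : PolyMap V E F) {p : V} {e : E} (h : M.ve p e) :
    ∃ u, u ≠ p ∧ ∀ w, M.ve w e ↔ (w = p ∨ w = u) := by
  obtain ⟨a, b, hab, h'⟩ := M.edge_verts e
  rcases (h' p).1 h with rfl | rfl
  · exact ⟨b, hab.symm, h'⟩
  · exact ⟨a, hab, fun w => by rw [h' w, or_comm]⟩

/-- Transitions in an integer interval. -/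
theorem cB_trans (P : ℤ → Prop) (i j : ℤ) (hij : i ≤ j) (hi : P i) (hj : ¬ P j) :
    ∃ k, i ≤ k ∧ k < j ∧ P k ∧ ¬ P (k + 1) := by
  by_contra hcon
  push Not at hcon
  have key : ∀ d : ℕ, i + d ≤ j → P (i + d) := by
    intro d
    induction d with
    | zero => intro _; simpa using hi
    | succ d ih =>
      intro h
      have h1 := ih (by push_cast at h; omega)
      have h2 := hcon (i + d) (by omega) (by push_cast at h; omega) h1
      have h3 : i + ((d + 1 : ℕ) : ℤ) = i + d + 1 := by push_cast; ring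
      rwa [h3]
  have h2 := key (j - i).toNat (by omega)
  apply hj
  have : i + ((j - i).toNat : ℤ) = j := by omega
  rwa [this] at h2

/-- A face minus one of its vertices is a path. -/
theorem cB_facePath (h3 : Stmt_FaceCycle) (M : PolyMap V E F) {f : F} {p u u' : V} {e e' : E}
    (hee : e ≠ e') (he : M.ef e f) (he' : M.ef e' f) (hpe : M.ve p e) (hpe' : M.ve p e')
    (hu : M.ve u e) (hup : u ≠ p) (hu' : M.ve u' e') (hup' : u' ≠ p) :
    ReachIn M.vadj ({v | M.vf v f} \ {p}) u u' := by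
  obtain ⟨m, a, b, hm, hc⟩ := h3 V E F M f
  have hbf : ∀ i, M.ef (b i) f := fun i => (hc.mem (b i)).2 ⟨i, rfl⟩
  have hvf : ∀ i, M.vf (a i) f := fun i => ⟨b i, (hc.ve i _).2 (Or.inl rfl), hbf i⟩
  have hnd : ∀ d : ℤ, 0 < d → d < m → ¬ (m : ℤ) ∣ d := fun d h0 h1 hd => by
    have := Int.le_of_dvd h0 hd
    omega
  have path : ∀ i : ℤ, ∀ k : ℕ, 1 ≤ k → k < m →
      ReachIn M.vadj ({v | M.vf v f} \ {a i}) (a (i + 1)) (a (i + k)) := by
    intro i k hk1
    induction k, hk1 using Nat.le_induction with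
    | base => intro _; simpa using ReachIn.refl _
    | succ k hk ih =>
      intro hkm
      have hmem : ∀ l : ℤ, 0 < l → l < m → a (i + l) ∈ {v | M.vf v f} \ {a i} := by
        intro l hl0 hlm
        refine ⟨hvf _, fun h => ?_⟩
        have := (hc.x_eq _ _).1 h
        rw [show i + l - i = l by ring] at this
        exact hnd l hl0 hlm this
      have h1 : i + ((k + 1 : ℕ) : ℤ) = i + k + 1 := by push_cast; ring
      refine (ih (by omega)).tail ⟨?_, b (i + k), (hc.ve _ _).2 (Or.inl rfl), ?_⟩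
        (hmem k (by omega) (by omega)) (hmem ((k + 1 : ℕ) : ℤ) (by omega) (by omega))
      · intro h
        have := (hc.x_eq _ _).1 h.symm
        rw [h1, show i + k + 1 - (i + k) = (1 : ℤ) by ring] at this
        exact hnd 1 (by omega) (by omega) this
      · rw [h1]
        exact (hc.ve _ _).2 (Or.inr rfl)
  have key : ∀ (i j : ℤ) (u u' : V), p = a i → p = a (j + 1) → u = a (i + 1) → u' = a j →
      ReachIn M.vadj ({v | M.vf v f} \ {p}) u u' := by
    intro i j u u' h4 h5 h6 h7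
    have h8 : a j = a (i + ((m - 1 : ℕ) : ℤ)) := by
      rw [hc.x_eq]
      have h9 : (m : ℤ) ∣ i - (j + 1) := (hc.x_eq _ _).1 (h4.symm.trans h5)
      have h10 : ((m - 1 : ℕ) : ℤ) = m - 1 := by
        have : 1 ≤ m := by omega
        push_cast [Nat.cast_sub this]
        ring
      rw [h10, show j - (i + ((m : ℤ) - 1)) = -(i - (j + 1)) - m by ring]
      exact dvd_sub (dvd_neg.2 h9) (dvd_refl _)
    rw [h6, h7, h8, h4]
    exact path i (m - 1) (by omega) (by omega)
  obtain ⟨i, rfl⟩ := (hc.mem e).1 he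
  obtain ⟨j, rfl⟩ := (hc.mem e').1 he'
  have hij : ¬ (m : ℤ) ∣ i - j := fun h => hee ((hc.y_eq i j).2 h)
  have two : ∀ i u, M.ve p (b i) → M.ve u (b i) → u ≠ p →
      (p = a i ∧ u = a (i + 1)) ∨ (p = a (i + 1) ∧ u = a i) := by
    intro i u h4 h5 h6
    rcases (hc.ve i p).1 h4 with h7 | h7 <;> rcases (hc.ve i u).1 h5 with h8 | h8
    · exact absurd (h8.trans h7.symm) h6
    · exact Or.inl ⟨h7, h8⟩
    · exact Or.inr ⟨h7, h8⟩
    · exact absurd (h8.trans h7.symm) h6
  rcases two i u hpe hu hup with ⟨h4, h5⟩ | ⟨h4, h5⟩ <;>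
    rcases two j u' hpe' hu' hup' with ⟨h6, h7⟩ | ⟨h6, h7⟩
  · exact absurd ((hc.x_eq i j).1 (h4.symm.trans h6)) hij
  · exact key i j u u' h4 h6 h5 h7
  · exact (key j i u' u h6 h4 h7 h5).symm
  · refine absurd ?_ hij
    have := (hc.x_eq (i + 1) (j + 1)).1 (h4.symm.trans h6)
    rwa [show i + 1 - (j + 1) = i - j by ring] at this

theorem cB_type1 (h3 : Stmt_FaceCycle) (M : PolyMap V E F) {S X : Set V}
    (hcl : ∀ x ∈ X, ∀ y ∈ Sᶜ, M.vadj.Adj x y → y ∈ X) {f : F} {p u u' : V} {e e' : E}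
    (hee : e ≠ e') (he : M.ef e f) (he' : M.ef e' f) (hpe : M.ve p e) (hpe' : M.ve p e')
    (hu : M.ve u e) (hup : u ≠ p) (hu' : M.ve u' e') (hup' : u' ≠ p)
    (hX : u ∈ X) (hY : u' ∉ X) : ∃ q ∈ S, q ≠ p ∧ M.vf q f := by
  by_contra hcon
  push Not at hcon
  have hsub : ({v | M.vf v f} \ {p} : Set V) ⊆ Sᶜ := by
    rintro v ⟨hv, hvp⟩ hvS
    exact hcon v hvS hvp hv
  have h := (cB_facePath h3 M hee he he' hpe hpe' hu hup hu' hup').mono hsub
  exact hY (h.closed hX hcl)

theorem cB_core (h1 : Stmt_NoDouble) (h3 : Stmt_FaceCycle) (M : PolyMap V E F) {S X : Set V}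
    {p q : V} (hq : q ∈ S) (hS : ∀ s ∈ S, s = p ∨ s = q) (hXS : X ⊆ Sᶜ)
    (hcl : ∀ x ∈ X, ∀ y ∈ Sᶜ, M.vadj.Adj x y → y ∈ X)
    (hpX : ∃ x ∈ X, M.vadj.Adj p x) (hpY : ∃ y ∈ Sᶜ, y ∉ X ∧ M.vadj.Adj p y) : False := by
  obtain ⟨n, x, y, hn, hc⟩ := h3 F E V M.dualMap p
  have hyp : ∀ i, M.ve p (y i) := fun i => (hc.mem (y i)).2 ⟨i, rfl⟩
  have hyx : ∀ i f, M.ef (y i) f ↔ (f = x i ∨ f = x (i + 1)) := fun i f => hc.ve i f
  have hmem : ∀ e, M.ve p e → ∃ i, y i = e := fun e he => (hc.mem e).1 he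
  have hnd : ∀ d : ℤ, 0 < d → d < n → ¬ (n : ℤ) ∣ d := fun d h0 h1 hd => by
    have := Int.le_of_dvd h0 hd
    omega
  choose u hup hu using fun i => cB_other M (hyp i)
  have huv : ∀ i, M.ve (u i) (y i) := fun i => (hu i _).2 (Or.inr rfl)
  have hucong : ∀ i j, (n : ℤ) ∣ i - j → u i = u j := by
    intro i j hij
    have h4 : y i = y j := (hc.y_eq i j).2 hij
    have h5 := huv i
    rw [h4] at h5
    rcases (hu j _).1 h5 with h6 | h6
    · exact absurd h6 (hup i)
    · exact h6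
  have hyne : ∀ k, y k ≠ y (k + 1) := by
    intro k h
    have := (hc.y_eq _ _).1 h.symm
    rw [show k + 1 - k = (1 : ℤ) by ring] at this
    exact hnd 1 (by omega) (by omega) this
  -- transitions of type 1
  have key : ∀ k, ((u k ∈ X ∧ u (k + 1) ∉ X) ∨ (u k ∉ X ∧ u (k + 1) ∈ X)) →
      M.vf q (x (k + 1)) ∧ q ≠ p := by
    intro k hk
    have h4 : M.ef (y k) (x (k + 1)) := (hyx _ _).2 (Or.inr rfl)
    have h5 : M.ef (y (k + 1)) (x (k + 1)) := (hyx _ _).2 (Or.inl rfl)
    have h6 : ∃ q ∈ S, q ≠ p ∧ M.vf q (x (k + 1)) := by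
      rcases hk with ⟨h7, h8⟩ | ⟨h7, h8⟩
      · exact cB_type1 h3 M hcl (hyne k) h4 h5 (hyp _) (hyp _) (huv _) (hup _) (huv _) (hup _) h7 h8
      · exact cB_type1 h3 M hcl (hyne k).symm h5 h4 (hyp _) (hyp _) (huv _) (hup _) (huv _) (hup _)
          h8 h7
    obtain ⟨s, hs, hsp, hsf⟩ := h6
    rcases hS s hs with h7 | h7
    · exact absurd h7 hsp
    · subst h7
      exact ⟨hsf, hsp⟩
  have key2 : ∀ k, ((u k ∈ X ∧ u (k + 1) ∉ X) ∨ (u k ∉ X ∧ u (k + 1) ∈ X)) → u k ∉ S →
      u (k + 1) ∉ S → ∀ g, g ≠ x (k + 1) → M.vf p g → M.vf q g → False := by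
    intro k hk hk1 hk2 g hg hpg hqg
    obtain ⟨hqf, hqp⟩ := key k hk
    have hpf : M.vf p (x (k + 1)) := ⟨y k, hyp k, (hyx _ _).2 (Or.inr rfl)⟩
    obtain ⟨e, h4, h5, h6, h7⟩ := M.inter (x (k + 1)) g hg.symm p q hqp.symm hpf hpg hqf hqg
    obtain ⟨j, rfl⟩ := hmem e h4
    have h8 : y j = y (k + 1) ∨ y j = y k := by
      rcases (hyx _ _).1 h6 with h9 | h9
      · left
        rw [hc.y_eq]
        have := (hc.x_eq _ _).1 h9
        rw [show j - (k + 1) = -(k + 1 - j) by ring]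
        exact dvd_neg.2 this
      · right
        rw [hc.y_eq]
        have := (hc.x_eq _ _).1 h9
        rw [show j - k = -(k + 1 - (j + 1)) by ring]
        exact dvd_neg.2 this
    rcases h8 with h8 | h8
    · rw [h8] at h5
      rcases (hu _ _).1 h5 with h9 | h9
      · exact hqp h9
      · exact hk2 (h9 ▸ hq)
    · rw [h8] at h5
      rcases (hu _ _).1 h5 with h9 | h9
      · exact hqp h9
      · exact hk1 (h9 ▸ hq)
  -- the two labelled neighbours
  obtain ⟨xX, hxX, hadjX⟩ := hpX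
  obtain ⟨xY, hxYS, hxY, hadjY⟩ := hpY
  have hfind : ∀ w, M.vadj.Adj p w → ∃ i, u i = w := by
    rintro w ⟨hpw, e, he1, he2⟩
    obtain ⟨i, rfl⟩ := hmem e he1
    rcases (hu _ _).1 he2 with h9 | h9
    · exact absurd h9.symm hpw
    · exact ⟨i, h9.symm⟩
  obtain ⟨i, hi⟩ := hfind _ hadjX
  obtain ⟨j, hj⟩ := hfind _ hadjY
  have hnpos : (0 : ℤ) < n := by omega
  -- reduction of indices
  have hred : ∀ m i : ℤ, ∃ i', m ≤ i' ∧ i' < m + n ∧ u i' = u i := by
    intro m i
    refine ⟨m + (i - m) % n, ?_, ?_, ?_⟩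
    · have := Int.emod_nonneg (i - m) hnpos.ne'
      omega
    · have := Int.emod_lt_of_pos (i - m) hnpos
      omega
    · apply hucong
      refine ⟨-((i - m) / n), ?_⟩
      have := Int.emod_add_mul_ediv (i - m) n
      linarith
  by_cases hqn : ∃ m, u m = q
  · obtain ⟨m, hm⟩ := hqn
    obtain ⟨i', hi1, hi2, hi3⟩ := hred m i
    obtain ⟨j', hj1, hj2, hj3⟩ := hred m j
    rw [hi] at hi3
    rw [hj] at hj3
    have hqp : q ≠ p := hm ▸ hup m
    have hine : i' ≠ m := by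
      rintro rfl
      exact hXS hxX (by rw [← hi3, hm]; exact hq)
    have hjne : j' ≠ m := by
      rintro rfl
      exact hxYS (by rw [← hj3, hm]; exact hq)
    have hnotS : ∀ k, m < k → k < m + n → u k ∉ S := by
      intro k hk1 hk2 hkS
      rcases hS _ hkS with h4 | h4
      · exact hup k h4
      · have h5 : y k ≠ y m := by
          intro h
          exact hnd (k - m) (by omega) (by omega) ((hc.y_eq _ _).1 h)
        have h6 := huv k
        have h7 := huv m
        rw [h4] at h6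
        rw [hm] at h7
        exact h1 V E F M (y k) (y m) p q h5 hqp.symm (hyp k) h6 (hyp m) h7
    have fin : ∀ k, m < k → k + 1 < m + n →
        ((u k ∈ X ∧ u (k + 1) ∉ X) ∨ (u k ∉ X ∧ u (k + 1) ∈ X)) → False := by
      intro k hk1 hk2 hk
      refine key2 k hk (hnotS k hk1 (by omega)) (hnotS (k + 1) (by omega) hk2) (x (m + 1)) ?_
        ⟨y m, hyp m, (hyx _ _).2 (Or.inr rfl)⟩ ⟨y m, hm ▸ huv m, (hyx _ _).2 (Or.inr rfl)⟩
      intro h
      have := (hc.x_eq _ _).1 h.symm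
      rw [show k + 1 - (m + 1) = k - m by ring] at this
      exact hnd (k - m) (by omega) (by omega) this
    rcases lt_trichotomy i' j' with h | h | h
    · obtain ⟨k, hk1, hk2, hk3, hk4⟩ := cB_trans (fun k => u k ∈ X) i' j' h.le
        (by show u i' ∈ X; rw [hi3]; exact hxX) (by show ¬ u j' ∈ X; rw [hj3]; exact hxY)
      exact fin k (by omega) (by omega) (Or.inl ⟨hk3, hk4⟩)
    · subst h
      exact hxY (by rw [← hj3, hi3]; exact hxX)
    · obtain ⟨k, hk1, hk2, hk3, hk4⟩ := cB_trans (fun k => u k ∉ X) j' i' h.le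
        (by show u j' ∉ X; rw [hj3]; exact hxY)
        (by show ¬ u i' ∉ X; rw [hi3]; exact fun h => h hxX)
      exact fin k (by omega) (by omega) (Or.inr ⟨hk3, not_not.1 hk4⟩)
  · have hnotS : ∀ k, u k ∉ S := by
      intro k hk
      rcases hS _ hk with h4 | h4
      · exact hup k h4
      · exact hqn ⟨k, h4⟩
    obtain ⟨j', hj1, hj2, hj3⟩ := hred i j
    rw [hj] at hj3
    have hji : j' ≠ i := by
      rintro rfl
      exact hxY (by rw [← hj3, hi]; exact hxX)
    obtain ⟨k, hk1, hk2, hk3, hk4⟩ := cB_trans (fun k => u k ∈ X) i j' hj1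
      (by show u i ∈ X; rw [hi]; exact hxX) (by show ¬ u j' ∈ X; rw [hj3]; exact hxY)
    have hin : u (i + n) = u i := hucong _ _ ⟨1, by ring⟩
    obtain ⟨l, hl1, hl2, hl3, hl4⟩ := cB_trans (fun k => u k ∉ X) j' (i + n) hj2.le
      (by show u j' ∉ X; rw [hj3]; exact hxY)
      (by show ¬ u (i + n) ∉ X; rw [hin, hi]; exact fun h => h hxX)
    have hl := key l (Or.inr ⟨hl3, not_not.1 hl4⟩)
    refine key2 k (Or.inl ⟨hk3, hk4⟩) (hnotS _) (hnotS _) (x (l + 1)) ?_
      ⟨y l, hyp l, (hyx _ _).2 (Or.inr rfl)⟩ hl.1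
    intro h
    have := (hc.x_eq _ _).1 h
    rw [show l + 1 - (k + 1) = l - k by ring] at this
    exact hnd (l - k) (by omega) (by omega) this

/-- Removing `S`, where `S` minus `p` does not disconnect. -/
theorem cB_step (h1 : Stmt_NoDouble) (h3 : Stmt_FaceCycle) (M : PolyMap V E F) {S : Set V}
    {p q : V} (hq : q ∈ S) (hS : ∀ s ∈ S, s = p ∨ s = q)
    (hconn : ConnIn M.vadj (S \ {p})ᶜ) : ConnIn M.vadj Sᶜ := by
  intro a ha b hb
  by_contra hab
  set X : Set V := compIn M.vadj Sᶜ a with hXdef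
  have hXS : X ⊆ Sᶜ := compIn_subset ha
  have hcl : ∀ x ∈ X, ∀ y ∈ Sᶜ, M.vadj.Adj x y → y ∈ X := fun x hx y hy hxy =>
    compIn_closed x hx y hy hxy (hXS hx)
  have hsub : Sᶜ ⊆ (S \ {p})ᶜ := fun x hx h => hx h.1
  have hmem : ∀ z, z ∈ (S \ {p})ᶜ → z ∉ Sᶜ → z = p := by
    intro z hz hz'
    by_contra hne
    exact hz ⟨not_not.1 hz', hne⟩
  refine cB_core h1 h3 M hq hS hXS hcl ?_ ?_
  · obtain ⟨x, hx, z, hz, hzX, hxz⟩ := hconn.exists_adj (A := X) (hXS.trans hsub)
      ⟨a, mem_compIn_self a⟩ (fun h => hab (by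
        have : b ∈ X := by rw [h]; exact hsub hb
        exact this))
    have hzp : z = p := by
      apply hmem z hz
      intro hzS
      exact hzX (hcl x hx z hzS hxz)
    subst hzp
    exact ⟨x, hx, hxz.symm⟩
  · obtain ⟨x, hx, z, hz, hzX, hxz⟩ := hconn.exists_adj (A := Sᶜ \ X) (sdiff_subset.trans hsub)
      ⟨b, hb, hab⟩ (fun h => by
        have : a ∈ Sᶜ \ X := by rw [h]; exact hsub ha
        exact this.2 (mem_compIn_self a))
    have hzp : z = p := by
      apply hmem z hz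
      intro hzS
      have hzX' : z ∈ X := by
        by_contra h
        exact hzX ⟨hzS, h⟩
      exact hx.2 (hcl z hzX' x hx.1 hxz.symm)
    subst hzp
    exact ⟨x, hx.1, hx.2, hxz.symm⟩

/-- C4: 3-connectivity. -/
theorem cB_threeConn (h1 : Stmt_NoDouble) (h3 : Stmt_FaceCycle) : Stmt_ThreeConn := by
  intro V E F M hconn S hS
  have single : ∀ p : V, ConnIn M.vadj ({p} : Set V)ᶜ := by
    intro p
    refine cB_step h1 h3 M (p := p) (q := p) (mem_singleton p) ?_ ?_
    · intro s hs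
      exact Or.inl hs
    · simpa using hconn
  rcases S.eq_empty_or_nonempty with rfl | ⟨q, hq⟩
  · simpa using hconn
  by_cases h : ∃ p ∈ S, p ≠ q
  · obtain ⟨p, hp, hpq⟩ := h
    have hSeq : S = {p, q} := by
      symm
      apply Set.Finite.eq_of_subset_of_encard_le (Set.toFinite ({p, q} : Set V))
      · rintro x (rfl | rfl)
        · exact hp
        · exact hq
      · rw [Set.encard_pair hpq]
        exact hS
    have hdiff : S \ {p} = {q} := by
      rw [hSeq]
      ext z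
      simp only [mem_sdiff, mem_insert_iff, mem_singleton_iff]
      constructor
      · rintro ⟨h4 | h4, h5⟩
        · exact absurd h4 h5
        · exact h4
      · rintro rfl
        exact ⟨Or.inr rfl, hpq.symm⟩
    refine cB_step h1 h3 M (p := p) (q := q) hq ?_ ?_
    · intro s hs
      rw [hSeq] at hs
      exact hs
    · rw [hdiff]
      exact single q
  · push Not at h
    have : S = {q} := by
      ext z
      exact ⟨fun hz => h z hz, fun hz => by rw [mem_singleton_iff] at hz; rw [hz]; exact hq⟩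
    rw [this]
    exact single q

end threeConn

end Pool.Agent.CT
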