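import Pool.Agent.CT.CDefs

set_option autoImplicit false

/-! # Tightness lemma (C9)

The cells on the boundary of a face are listed in cyclic order as `cEc x y j`: vertices at even
places, edges at odd places. -/

namespace Pool.Agent.CT

open Set

section tight

variable {V E F : Type}

/-- The boundary cells of a face in cyclic order. -/
def cEc (x : ℤ → V) (y : ℤ → E) (j : ℤ) : Cell V E F :=
  if j % 2 = 0 then .vert (x (j / 2)) else .edge (y (j / 2))

theorem cEc_even (x : ℤ → V) (y : ℤ → E) (i : ℤ) :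
    (cEc x y (2 * i) : Cell V E F) = .vert (x i) := by
  have h1 : (2 * i) % 2 = 0 := by omega
  have h2 : (2 * i) / 2 = i := by omega
  simp [cEc, h1, h2]

theorem cEc_odd (x : ℤ → V) (y : ℤ → E) (i : ℤ) :
    (cEc x y (2 * i + 1) : Cell V E F) = .edge (y i) := by
  have h1 : (2 * i + 1) % 2 = 1 := by omega
  have h2 : (2 * i + 1) / 2 = i := by omega
  simp [cEc, h1, h2]

variable {M : Inc V E F} {t : F} {n : ℕ} {x : ℤ → V} {y : ℤ → E}

theorem cE_inj (h : IsFaceCycle M t n x y) {j k : ℤ}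
    (hjk : (cEc x y j : Cell V E F) = cEc x y k) : ((2 * n : ℕ) : ℤ) ∣ j - k := by
  rcases Int.even_or_odd' j with ⟨a, rfl | rfl⟩ <;> rcases Int.even_or_odd' k with ⟨b, rfl | rfl⟩
  · rw [cEc_even, cEc_even] at hjk
    obtain ⟨d, hd⟩ := (h.curve.x_eq a b).1 (Cell.vert.inj hjk)
    exact ⟨d, by push_cast; linear_combination 2 * hd⟩
  · rw [cEc_even, cEc_odd] at hjk
    cases hjk
  · rw [cEc_even, cEc_odd] at hjk
    cases hjk
  · rw [cEc_odd, cEc_odd] at hjk
    obtain ⟨d, hd⟩ := (h.curve.y_eq a b).1 (Cell.edge.inj hjk)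
    exact ⟨d, by push_cast; linear_combination 2 * hd⟩

theorem cE_period (h : IsFaceCycle M t n x y) (j d : ℤ) :
    (cEc x y (j + 2 * n * d) : Cell V E F) = cEc x y j := by
  rcases Int.even_or_odd' j with ⟨a, rfl | rfl⟩
  · have : 2 * a + 2 * (n : ℤ) * d = 2 * (a + n * d) := by ring
    rw [this, cEc_even, cEc_even, (h.curve.x_eq (a + n * d) a).2 ⟨d, by ring⟩]
  · have : 2 * a + 1 + 2 * (n : ℤ) * d = 2 * (a + n * d) + 1 := by ring
    rw [this, cEc_odd, cEc_odd, (h.curve.y_eq (a + n * d) a).2 ⟨d, by ring⟩]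

theorem cE_adj (h : IsFaceCycle M t n x y) (j : ℤ) :
    M.cellGraph.Adj (cEc x y j) (cEc x y (j + 1)) := by
  rcases Int.even_or_odd' j with ⟨a, rfl | rfl⟩
  · rw [cEc_even, cEc_odd]
    exact Or.inl (.ve ((h.curve.ve a _).2 (Or.inl rfl)))
  · have : 2 * a + 1 + 1 = 2 * (a + 1) := by ring
    rw [this, cEc_even, cEc_odd]
    exact Or.inr (.ve ((h.curve.ve a _).2 (Or.inr rfl)))

theorem cE_ne_face (j : ℤ) (f : F) : (cEc x y j : Cell V E F) ≠ .face f := by
  unfold cEc
  split <;> simp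

/-- An arc of boundary cells. -/
def cEarc (x : ℤ → V) (y : ℤ → E) (p q : ℤ) : Set (Cell V E F) :=
  {z | ∃ j, p ≤ j ∧ j ≤ q ∧ z = cEc x y j}

theorem cE_arc_conn (h : IsFaceCycle M t n x y) (p q : ℤ) :
    ConnIn M.cellGraph (cEarc x y p q) := by
  by_cases hpq : p ≤ q
  · refine ConnIn.of_base (cEc x y p) ?_
    rintro z ⟨j, h1, h2, rfl⟩
    obtain ⟨k, rfl⟩ : ∃ k : ℕ, j = p + k := ⟨(j - p).toNat, by omega⟩
    induction k with
    | zero => simpa using ReachIn.refl _
    | succ k ih =>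
      have h3 := ih (by omega) (by omega)
      have h4 := cE_adj h (p + k)
      rw [show p + ((k + 1 : ℕ) : ℤ) = p + k + 1 by push_cast; ring]
      exact h3.tail h4 ⟨p + k, by omega, by omega, rfl⟩ ⟨p + k + 1, by omega, by omega, rfl⟩
  · rintro z ⟨j, h1, h2, rfl⟩
    omega

theorem cE_ne (h : IsFaceCycle M t n x y) {j k : ℤ} (h1 : j < k) (h2 : k < j + 2 * n) :
    (cEc x y j : Cell V E F) ≠ cEc x y k := by
  intro hjk
  obtain ⟨d, hd⟩ := cE_inj h hjk.symm
  push_cast at hd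
  have h3 := h.three
  have hd0 : 0 < d := by
    by_contra hcon
    have : 2 * (n : ℤ) * d ≤ 0 := by
      apply mul_nonpos_of_nonneg_of_nonpos <;> omega
    omega
  have : 2 * (n : ℤ) * 1 ≤ 2 * (n : ℤ) * d := by
    apply mul_le_mul_of_nonneg_left <;> omega
  omega

/-- `z` is a boundary cell lying in a face of `D`. -/
def cEcell (M : Inc V E F) (D : Set F) : Cell V E F → Prop
  | .vert v => Touch M D v
  | .edge e => ∃ d ∈ D, M.ef e d
  | .face _ => False

/-- The union of the faces of `D` and the edges having all faces in `D`. -/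
def cEbody (M : Inc V E F) (D : Set F) : Set (Cell V E F) :=
  {z | (∃ f ∈ D, z = .face f) ∨ ∃ e, (∃ f, M.ef e f) ∧ (∀ f, M.ef e f → f ∈ D) ∧ z = .edge e}

end tight

section tight2

variable {V E F : Type} {M : PlaneMap V E F} {t : F} {n : ℕ} {x : ℤ → V} {y : ℤ → E} {D : Set F}

theorem cE_body_face {f : F} (hf : f ∈ D) : (.face f : Cell V E F) ∈ cEbody M.toInc D :=
  Or.inl ⟨f, hf, rfl⟩

theorem cE_body_conn (hD : ConnIn M.fadj D) : ConnIn M.cellGraph (cEbody M.toInc D) := by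
  have key : ∀ f ∈ D, ∀ g ∈ D, ReachIn M.cellGraph (cEbody M.toInc D) (.face f) (.face g) := by
    intro f hf g hg
    refine ReachIn.map (f := fun f => (Cell.face f : Cell V E F)) (hD f hf g hg) ?_
    rintro f hf g hg ⟨hne, e, h1, h2⟩
    have he : (.edge e : Cell V E F) ∈ cEbody M.toInc D := by
      refine Or.inr ⟨e, ⟨f, h1⟩, ?_, rfl⟩
      obtain ⟨f', g', _, h4⟩ := M.edge_faces e
      intro k hk
      rcases (h4 f).1 h1 with rfl | rfl <;> rcases (h4 g).1 h2 with rfl | rfl <;>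
        rcases (h4 k).1 hk with rfl | rfl <;> first | assumption | exact absurd rfl hne
    exact (ReachIn.single (Or.inr (.ef h1)) (cE_body_face hf) he).trans
      (ReachIn.single (Or.inl (.ef h2)) he (cE_body_face hg))
  have key2 : ∀ z ∈ cEbody M.toInc D, ∃ f ∈ D,
      ReachIn M.cellGraph (cEbody M.toInc D) z (.face f) := by
    rintro z (⟨f, hf, rfl⟩ | ⟨e, ⟨f, h1⟩, h2, rfl⟩)
    · exact ⟨f, hf, ReachIn.refl _⟩
    · exact ⟨f, h2 f h1, ReachIn.single (Or.inl (.ef h1)) (Or.inr ⟨e, ⟨f, h1⟩, h2, rfl⟩)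
        (cE_body_face (h2 f h1))⟩
  intro z hz w hw
  obtain ⟨f, hf, h1⟩ := key2 z hz
  obtain ⟨g, hg, h2⟩ := key2 w hw
  exact h1.trans ((key f hf g hg).trans h2.symm)

/-- Adding two cells which are incident with faces of `D`. -/
theorem cE_body2 (hD : ConnIn M.fadj D) {z w : Cell V E F}
    (hz : ∃ f ∈ D, M.cellGraph.Adj z (.face f)) (hw : ∃ f ∈ D, M.cellGraph.Adj w (.face f)) :
    ConnIn M.cellGraph ({z, w} ∪ cEbody M.toInc D) := by
  obtain ⟨f, hf, h1⟩ := hz
  obtain ⟨g, hg, h2⟩ := hw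
  refine ConnIn.of_base (.face f) ?_
  have hb : ∀ k ∈ D, ReachIn M.cellGraph ({z, w} ∪ cEbody M.toInc D) (.face f) (.face k) :=
    fun k hk => ((cE_body_conn hD) _ (cE_body_face hf) _ (cE_body_face hk)).mono
      subset_union_right
  have hm : ∀ k ∈ D, (.face k : Cell V E F) ∈ {z, w} ∪ cEbody M.toInc D :=
    fun k hk => Or.inr (cE_body_face hk)
  rintro b ((rfl | rfl) | hb')
  · exact ReachIn.single h1.symm (hm f hf) (Or.inl (Or.inl rfl))
  · exact (hb g hg).trans (ReachIn.single h2.symm (hm g hg) (Or.inl (Or.inr rfl)))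
  · exact ((cE_body_conn hD) _ (cE_body_face hf) _ hb').mono subset_union_right

theorem cE_cell_adj {z : Cell V E F} (hz : cEcell M.toInc D z) :
    ∃ f ∈ D, M.cellGraph.Adj z (.face f) := by
  cases z with
  | vert v =>
    obtain ⟨d, hd, h⟩ := hz
    exact ⟨d, hd, Or.inl (.vf h)⟩
  | edge e =>
    obtain ⟨d, hd, h⟩ := hz
    exact ⟨d, hd, Or.inl (.ef h)⟩
  | face f => exact hz.elim

/-- Every edge of `t` has another face. -/
theorem cE_other (h : IsFaceCycle M.toInc t n x y) (i : ℤ) : ∃ g, g ≠ t ∧ M.ef (y i) g := by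
  have ht : M.ef (y i) t := (h.curve.mem (y i)).2 ⟨i, rfl⟩
  obtain ⟨f, g, hne, h4⟩ := M.edge_faces (y i)
  rcases (h4 t).1 ht with rfl | rfl
  · exact ⟨g, hne.symm, (h4 g).2 (Or.inr rfl)⟩
  · exact ⟨f, hne, (h4 f).2 (Or.inl rfl)⟩

theorem cE_noncell_adj (h : IsFaceCycle M.toInc t n x y) (j : ℤ)
    (hz : ¬ cEcell M.toInc D (cEc x y j)) :
    ∃ f ∈ Dᶜ \ {t}, M.cellGraph.Adj (cEc x y j) (.face f) := by
  rcases Int.even_or_odd' j with ⟨a, rfl | rfl⟩
  · rw [cEc_even] at hz ⊢
    obtain ⟨g, hg, hg'⟩ := cE_other h a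
    have hv : M.vf (x a) g := ⟨y a, (h.curve.ve a _).2 (Or.inl rfl), hg'⟩
    exact ⟨g, ⟨fun hgD => hz ⟨g, hgD, hv⟩, hg⟩, Or.inl (.vf hv)⟩
  · rw [cEc_odd] at hz ⊢
    obtain ⟨g, hg, hg'⟩ := cE_other h a
    exact ⟨g, ⟨fun hgD => hz ⟨g, hgD, hg'⟩, hg⟩, Or.inl (.ef hg')⟩

theorem cE_t_adj (h : IsFaceCycle M.toInc t n x y) (j : ℤ) :
    M.cellGraph.Adj (cEc x y j) (.face t) := by
  have ht : ∀ a, M.ef (y a) t := fun a => (h.curve.mem (y a)).2 ⟨a, rfl⟩
  rcases Int.even_or_odd' j with ⟨a, rfl | rfl⟩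
  · rw [cEc_even]
    exact Or.inl (.vf ⟨y a, (h.curve.ve a _).2 (Or.inl rfl), ht a⟩)
  · rw [cEc_odd]
    exact Or.inl (.ef (ht a))

/-- A boundary cell of `t` is not in the body of a set of faces not containing `t`. -/
theorem cE_not_body (h : IsFaceCycle M.toInc t n x y) {A : Set F} (hA : t ∉ A) (j : ℤ) :
    (cEc x y j : Cell V E F) ∉ cEbody M.toInc A := by
  have ht : ∀ a, M.ef (y a) t := fun a => (h.curve.mem (y a)).2 ⟨a, rfl⟩
  rintro (⟨f, _, h1⟩ | ⟨e, _, h2, h3⟩)
  · exact cE_ne_face _ _ h1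
  · rcases Int.even_or_odd' j with ⟨a, rfl | rfl⟩
    · rw [cEc_even] at h3
      cases h3
    · rw [cEc_odd] at h3
      cases h3
      exact hA (h2 t (ht a))

theorem cE_face_not_body {A : Set F} (hA : t ∉ A) :
    (.face t : Cell V E F) ∉ cEbody M.toInc A := by
  rintro (⟨f, hf, h1⟩ | ⟨e, _, h2, h3⟩)
  · cases h1
    exact hA hf
  · cases h3

theorem cE_body_disj {A B : Set F} (hAB : Disjoint A B) :
    Disjoint (cEbody M.toInc A) (cEbody M.toInc B) := by
  rw [Set.disjoint_left]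
  rintro z (⟨f, hf, rfl⟩ | ⟨e, ⟨f, h1⟩, h2, rfl⟩)
  · rintro (⟨g, hg, h⟩ | ⟨e', _, _, h⟩)
    · cases h
      exact Set.disjoint_left.1 hAB hf hg
    · cases h
  · rintro (⟨g, hg, h⟩ | ⟨e', _, h3, h⟩)
    · cases h
    · cases h
      exact Set.disjoint_left.1 hAB (h2 f h1) (h3 f h1)

/-- The main step: D-cells and other cells do not interleave on the boundary of `t`. -/
theorem cE_K5 (hD : ConnIn M.fadj D) (ht : t ∉ D) (hO : ConnIn M.fadj (Dᶜ \ {t}))
    (h : IsFaceCycle M.toInc t n x y) {a p b q : ℤ} (h1 : a < p) (h2 : p < b) (h3 : b < q)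
    (h4 : q < a + 2 * n) (ha : cEcell M.toInc D (cEc x y a))
    (hp : ¬ cEcell M.toInc D (cEc x y p)) (hb : cEcell M.toInc D (cEc x y b))
    (hq : ¬ cEcell M.toInc D (cEc x y q)) : False := by
  have htO : t ∉ Dᶜ \ {t} := fun h => h.2 rfl
  have hdisj : Disjoint D (Dᶜ \ {t}) := by
    rw [Set.disjoint_left]
    exact fun f hf hf' => hf'.1 hf
  let c : Fin 5 → Cell V E F := ![cEc x y a, cEc x y p, cEc x y b, cEc x y q, .face t]
  let Zab : Set (Cell V E F) := {cEc x y a, cEc x y b} ∪ cEbody M.toInc D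
  let Zpq : Set (Cell V E F) := {cEc x y p, cEc x y q} ∪ cEbody M.toInc (Dᶜ \ {t})
  let Z : Fin 5 → Fin 5 → Set (Cell V E F) := fun i j =>
    ![![∅, cEarc x y a p, Zab, cEarc x y q (a + 2 * n), {cEc x y a, .face t}],
      ![∅, ∅, cEarc x y p b, Zpq, {cEc x y p, .face t}],
      ![∅, ∅, ∅, cEarc x y b q, {cEc x y b, .face t}],
      ![∅, ∅, ∅, ∅, {cEc x y q, .face t}],
      ![∅, ∅, ∅, ∅, ∅]] i j
  have hper : (cEc x y (a + 2 * n) : Cell V E F) = cEc x y a := by
    have := cE_period h a 1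
    simpa using this
  -- distinctness of cells
  have nap : (cEc x y a : Cell V E F) ≠ cEc x y p := cE_ne h h1 (by omega)
  have nab : (cEc x y a : Cell V E F) ≠ cEc x y b := cE_ne h (by omega) (by omega)
  have naq : (cEc x y a : Cell V E F) ≠ cEc x y q := cE_ne h (by omega) (by omega)
  have npb : (cEc x y p : Cell V E F) ≠ cEc x y b := cE_ne h (by omega) (by omega)
  have npq : (cEc x y p : Cell V E F) ≠ cEc x y q := cE_ne h (by omega) (by omega)
  have nbq : (cEc x y b : Cell V E F) ≠ cEc x y q := cE_ne h (by omega) (by omega)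
  have hself : ∀ {r s : ℤ}, r ≤ s → (cEc x y r : Cell V E F) ∈ (cEarc x y r s) ∧
      (cEc x y s : Cell V E F) ∈ (cEarc x y r s) := fun {r s} hrs =>
    ⟨⟨r, le_rfl, hrs, rfl⟩, ⟨s, hrs, le_rfl, rfl⟩⟩
  have harc : ∀ {r s r' s' : ℤ}, s < r' → s' < r + 2 * n →
      Disjoint (cEarc x y r s : Set (Cell V E F)) (cEarc x y r' s') := by
    intro r s r' s' h5 h6
    rw [Set.disjoint_left]
    rintro z ⟨j, h7, h8, rfl⟩ ⟨k, h9, h10, h11⟩
    exact cE_ne h (by omega) (by omega) h11
  have harcz : ∀ {r s k : ℤ}, s < k → k < r + 2 * n →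
      Disjoint (cEarc x y r s : Set (Cell V E F)) {cEc x y k, .face t} := by
    intro r s k h5 h6
    rw [Set.disjoint_left]
    rintro z ⟨j, h7, h8, rfl⟩ (h9 | h9)
    · exact cE_ne h (by omega) (by omega) h9
    · exact cE_ne_face _ _ h9
  have hbodyz : ∀ {A : Set F} {r s k : ℤ}, t ∉ A → (cEc x y r : Cell V E F) ≠ cEc x y k →
      (cEc x y s : Cell V E F) ≠ cEc x y k →
      Disjoint ({cEc x y r, cEc x y s} ∪ cEbody M.toInc A : Set (Cell V E F))
        {cEc x y k, .face t} := by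
    intro A r s k hA h5 h6
    rw [Set.disjoint_left]
    rintro z hz (h7 | h7)
    · subst h7
      rcases hz with (h8 | h8) | h8
      · exact h5 h8.symm
      · exact h6 h8.symm
      · exact cE_not_body h hA _ h8
    · subst h7
      rcases hz with (h8 | h8) | h8
      · exact cE_ne_face _ _ h8.symm
      · exact cE_ne_face _ _ h8.symm
      · exact cE_face_not_body hA h8
  have hbb : Disjoint Zab Zpq := by
    rw [Set.disjoint_left]
    rintro z ((h5 | h5) | h5) ((h6 | h6) | h6)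
    · exact nap (h5.symm.trans h6)
    · exact naq (h5.symm.trans h6)
    · rw [h5] at h6
      exact cE_not_body h htO _ h6
    · exact npb (h6.symm.trans h5)
    · exact nbq (h5.symm.trans h6)
    · rw [h5] at h6
      exact cE_not_body h htO _ h6
    · rw [h6] at h5
      exact cE_not_body h ht _ h5
    · rw [h6] at h5
      exact cE_not_body h ht _ h5
    · exact Set.disjoint_left.1 (cE_body_disj hdisj) h5 h6
  refine M.planar.noK5 c Z ?_ ?_
  · intro i j hij
    fin_cases i <;> fin_cases j <;> first | (exact absurd hij (by decide)) | skip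
    · exact ⟨(hself h1.le).1, (hself h1.le).2, cE_arc_conn h _ _⟩
    · exact ⟨Or.inl (Or.inl rfl), Or.inl (Or.inr rfl),
        cE_body2 hD (cE_cell_adj ha) (cE_cell_adj hb)⟩
    · refine ⟨?_, (hself h4.le).1, cE_arc_conn h _ _⟩
      have := (hself h4.le).2
      rw [hper] at this
      exact this
    · exact ⟨Or.inl rfl, Or.inr rfl, ConnIn.pair (cE_t_adj h _)⟩
    · exact ⟨(hself h2.le).1, (hself h2.le).2, cE_arc_conn h _ _⟩
    · exact ⟨Or.inl (Or.inl rfl), Or.inl (Or.inr rfl),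
        cE_body2 hO (cE_noncell_adj h _ hp) (cE_noncell_adj h _ hq)⟩
    · exact ⟨Or.inl rfl, Or.inr rfl, ConnIn.pair (cE_t_adj h _)⟩
    · exact ⟨(hself h3.le).1, (hself h3.le).2, cE_arc_conn h _ _⟩
    · exact ⟨Or.inl rfl, Or.inr rfl, ConnIn.pair (cE_t_adj h _)⟩
    · exact ⟨Or.inl rfl, Or.inr rfl, ConnIn.pair (cE_t_adj h _)⟩
  · have hper' : ∀ k : ℤ, (cEc x y (k + 2 * n) : Cell V E F) = cEc x y k := by
      intro k
      have := cE_period h k 1
      simpa using this
    have d1 : Disjoint (cEarc x y a p : Set (Cell V E F)) (cEarc x y b q) := harc h2 h4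
    have d2 : Disjoint (cEarc x y a p : Set (Cell V E F)) {cEc x y b, .face t} :=
      harcz h2 (by omega)
    have d3 : Disjoint (cEarc x y a p : Set (Cell V E F)) {cEc x y q, .face t} :=
      harcz (by omega) (by omega)
    have d4 : Disjoint Zab {cEc x y p, .face t} := hbodyz ht nap npb.symm
    have d5 : Disjoint Zab {cEc x y q, .face t} := hbodyz ht naq nbq
    have d6 : Disjoint (cEarc x y p b : Set (Cell V E F)) (cEarc x y q (a + 2 * n)) :=
      harc h3 (by omega)
    have d7 : Disjoint (cEarc x y q (a + 2 * n) : Set (Cell V E F)) {cEc x y p, .face t} := by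
      rw [← hper' p]
      exact harcz (by omega) (by omega)
    have d8 : Disjoint (cEarc x y q (a + 2 * n) : Set (Cell V E F)) {cEc x y b, .face t} := by
      rw [← hper' b]
      exact harcz (by omega) (by omega)
    have d9 : Disjoint (cEarc x y p b : Set (Cell V E F)) {cEc x y a, .face t} := by
      rw [← hper' a]
      exact harcz (by omega) (by omega)
    have d10 : Disjoint Zpq {cEc x y a, .face t} := hbodyz htO nap.symm naq.symm
    have d11 : Disjoint (cEarc x y b q : Set (Cell V E F)) {cEc x y a, .face t} := by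
      rw [← hper' a]
      exact harcz (by omega) (by omega)
    have d12 : Disjoint (cEarc x y p b : Set (Cell V E F)) {cEc x y q, .face t} :=
      harcz h3 (by omega)
    have d13 : Disjoint Zpq {cEc x y b, .face t} := hbodyz htO npb nbq.symm
    have d14 : Disjoint (cEarc x y b q : Set (Cell V E F)) {cEc x y p, .face t} := by
      rw [← hper' p]
      exact harcz (by omega) (by omega)
    intro i j k l hij hkl a1 a2 a3 a4
    fin_cases i <;> fin_cases j <;> first
      | (exact absurd hij (by decide))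
      | (fin_cases k <;> fin_cases l <;> first
          | exact absurd hkl (by decide)
          | exact absurd rfl a1
          | exact absurd rfl a2
          | exact absurd rfl a3
          | exact absurd rfl a4
          | exact d1 | exact d1.symm | exact d2 | exact d2.symm | exact d3 | exact d3.symm
          | exact d4 | exact d4.symm | exact d5 | exact d5.symm | exact hbb | exact hbb.symm
          | exact d6 | exact d6.symm | exact d7 | exact d7.symm | exact d8 | exact d8.symm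
          | exact d9 | exact d9.symm | exact d10 | exact d10.symm | exact d11 | exact d11.symm
          | exact d12 | exact d12.symm | exact d13 | exact d13.symm | exact d14 | exact d14.symm)

/-- A decidable-free choice of the least and the greatest element of a bounded set of integers. -/
theorem cE_minmax {P : ℤ → Prop} {u v : ℤ} (hP : ∃ j, u ≤ j ∧ j ≤ v ∧ P j) :
    ∃ m m', u ≤ m ∧ m ≤ m' ∧ m' ≤ v ∧ P m ∧ P m' ∧ ∀ j, u ≤ j → j ≤ v → P j → m ≤ j ∧ j ≤ m' := by
  classical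
  obtain ⟨j0, h1, h2, h3⟩ := hP
  obtain ⟨m, ⟨h4, h5, h6⟩, h7⟩ := Int.exists_least_of_bdd (P := fun j => u ≤ j ∧ j ≤ v ∧ P j)
    ⟨u, fun z hz => hz.1⟩ ⟨j0, h1, h2, h3⟩
  obtain ⟨m', ⟨h8, h9, h10⟩, h11⟩ := Int.exists_greatest_of_bdd
    (P := fun j => u ≤ j ∧ j ≤ v ∧ P j) ⟨v, fun z hz => hz.2.1⟩ ⟨j0, h1, h2, h3⟩
  exact ⟨m, m', h4, h7 m' ⟨h8, h9, h10⟩, h9, h6, h10, fun j a b c => ⟨h7 j ⟨a, b, c⟩,
    h11 j ⟨a, b, c⟩⟩⟩

end tight2

theorem cE_tight0 : Stmt_Tight := by
  intro V E F M D hD hDc t ht hO hne n x y h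
  by_cases hall : ∀ i, ¬ Touch M.toInc D (x i)
  · exact Or.inl hall
  right
  push Not at hall
  obtain ⟨i1, hi1⟩ := hall
  have hn := h.three
  have hPe : ∀ i, cEcell M.toInc D (cEc x y (2 * i)) ↔ Touch M.toInc D (x i) := by
    intro i
    rw [cEc_even]
    exact Iff.rfl
  have hPo : ∀ i, cEcell M.toInc D (cEc x y (2 * i + 1)) ↔ ∃ d ∈ D, M.ef (y i) d := by
    intro i
    rw [cEc_odd]
    exact Iff.rfl
  have hper : ∀ j d : ℤ, cEcell M.toInc D (cEc x y (j + 2 * n * d)) ↔
      cEcell M.toInc D (cEc x y j) := by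
    intro j d
    rw [cE_period h]
  -- an edge of `t` whose other face is outside `D`
  obtain ⟨i0, hi0⟩ : ∃ i0, ¬ ∃ d ∈ D, M.ef (y i0) d := by
    obtain ⟨s, rfl, g, hg, hgt, hadj⟩ := hDc.exists_adj (A := {t})
      (by rintro s rfl; exact ht) ⟨t, rfl⟩ (by
        intro hcon
        obtain ⟨g, hg1, hg2⟩ := hne
        rw [← hcon] at hg1
        exact hg2 hg1)
    obtain ⟨hne', e, h1, h2⟩ := hadj
    obtain ⟨i0, rfl⟩ := (h.curve.mem e).1 h1
    refine ⟨i0, ?_⟩
    rintro ⟨d, hd, h3⟩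
    obtain ⟨f', g', _, h4⟩ := M.edge_faces (y i0)
    have hds : d ≠ s := by rintro rfl; exact ht hd
    have hdg : d ≠ g := by rintro rfl; exact hg hd
    rcases (h4 s).1 h1 with rfl | rfl <;> rcases (h4 g).1 h2 with rfl | rfl <;>
      rcases (h4 d).1 h3 with rfl | rfl <;> first | exact hds rfl | exact hdg rfl | exact hne' rfl
  have hQ : ¬ cEcell M.toInc D (cEc x y (2 * i0 + 1 + 2 * n)) := by
    have := hper (2 * i0 + 1) 1
    rw [mul_one] at this
    rw [this, hPo]
    exact hi0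
  -- reduction of an index to the window
  have hred : ∀ i : ℤ, ∃ i' d : ℤ, i0 + 1 ≤ i' ∧ i' ≤ i0 + n ∧ i = i' + n * d := by
    intro i
    have h1 := Int.emod_nonneg (i - (i0 + 1)) (show (n : ℤ) ≠ 0 by omega)
    have h2 := Int.emod_lt_of_pos (i - (i0 + 1)) (show 0 < (n : ℤ) by omega)
    have h3 := Int.mul_ediv_add_emod (i - (i0 + 1)) n
    exact ⟨i0 + 1 + (i - (i0 + 1)) % n, (i - (i0 + 1)) / n, by omega, by omega, by linarith⟩
  have hpe : ∀ i d : ℤ, Touch M.toInc D (x (i + n * d)) ↔ Touch M.toInc D (x i) := by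
    intro i d
    rw [← hPe, ← hPe, ← hper (2 * i) d]
    have : 2 * (i + n * d) = 2 * i + 2 * n * d := by ring
    rw [this]
  have hpo : ∀ i d : ℤ, (∃ g ∈ D, M.ef (y (i + n * d)) g) ↔ ∃ g ∈ D, M.ef (y i) g := by
    intro i d
    rw [← hPo, ← hPo, ← hper (2 * i + 1) d]
    have : 2 * (i + n * d) + 1 = 2 * i + 1 + 2 * n * d := by ring
    rw [this]
  have hex : ∃ j, 2 * i0 + 2 ≤ j ∧ j ≤ 2 * i0 + 2 * n ∧ cEcell M.toInc D (cEc x y j) := by
    obtain ⟨i', d, h1, h2, h3⟩ := hred i1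
    rw [h3, hpe] at hi1
    exact ⟨2 * i', by omega, by omega, (hPe _).2 hi1⟩
  obtain ⟨m, m', g1, g2, g3, g4, g5, g6⟩ := cE_minmax hex
  obtain ⟨a, ha⟩ : ∃ a, m = 2 * a := by
    rcases Int.even_or_odd' m with ⟨a, ha | ha⟩
    · exact ⟨a, ha⟩
    · rw [ha, hPo] at g4
      obtain ⟨d, hd, hd'⟩ := g4
      have := (g6 (2 * a) (by omega) (by omega)
        ((hPe a).2 ⟨d, hd, y a, (h.curve.ve a _).2 (Or.inl rfl), hd'⟩)).1
      omega
  obtain ⟨b, hb⟩ : ∃ b, m' = 2 * b := by
    rcases Int.even_or_odd' m' with ⟨a, ha | ha⟩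
    · exact ⟨a, ha⟩
    · rw [ha, hPo] at g5
      obtain ⟨d, hd, hd'⟩ := g5
      have := (g6 (2 * (a + 1)) (by omega) (by omega)
        ((hPe (a + 1)).2 ⟨d, hd, y a, (h.curve.ve a _).2 (Or.inr rfl), hd'⟩)).2
      omega
  have hconv : ∀ j, m ≤ j → j ≤ m' → cEcell M.toInc D (cEc x y j) := by
    intro j h1 h2
    by_contra hcon
    have h3 : m ≠ j := by
      rintro rfl
      exact hcon g4
    have h4 : j ≠ m' := by
      rintro rfl
      exact hcon g5
    exact cE_K5 hD ht hO h (lt_of_le_of_ne h1 h3) (lt_of_le_of_ne h2 h4)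
      (q := 2 * i0 + 1 + 2 * n) (by omega) (by omega) g4 hcon g5 hQ
  refine ⟨a, (b - a).toNat, by omega, ?_, ?_⟩
  · intro i
    constructor
    · intro hi
      obtain ⟨i', d, h1, h2, h3⟩ := hred i
      rw [h3, hpe, ← hPe] at hi
      obtain ⟨h4, h5⟩ := g6 _ (by omega) (by omega) hi
      refine ⟨(i' - a).toNat, by omega, d, ?_⟩
      rw [Int.toNat_of_nonneg (by omega), h3]
      ring
    · rintro ⟨k, hk, d, hd⟩
      have : i = (a + k) + n * d := by linarith
      rw [this, hpe, ← hPe]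
      exact hconv _ (by omega) (by omega)
  · intro i
    constructor
    · intro hi
      obtain ⟨i', d, h1, h2, h3⟩ := hred i
      rw [h3, hpo] at hi
      have h6 : i' ≠ i0 + n := by
        rintro rfl
        have := (hpo i0 1).1 (by rw [mul_one]; exact hi)
        exact hi0 this
      rw [← hPo] at hi
      obtain ⟨h4, h5⟩ := g6 _ (by omega) (by omega) hi
      refine ⟨(i' - a).toNat, by omega, d, ?_⟩
      rw [Int.toNat_of_nonneg (by omega), h3]
      ring
    · rintro ⟨k, hk, d, hd⟩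
      have : i = (a + k) + n * d := by linarith
      rw [this, hpo, ← hPo]
      exact hconv _ (by omega) (by omega)

theorem cE_tight (_ : Stmt_FaceCycle) : Stmt_Tight := cE_tight0

end Pool.Agent.CT
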