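import Pool.Agent.CT.CDefs

set_option autoImplicit false

/-! # Tight discs (C14) -/

namespace Pool.Agent.CT

open Set

section graph

variable {α : Type} {G : SimpleGraph α}

/-- The union of all connected cofinite sets avoiding `S`. -/
def cGinf (G : SimpleGraph α) (S : Set α) : Set α :=
  {x | ∃ X : Set α, Xᶜ.Finite ∧ Disjoint X S ∧ ConnIn G X ∧ x ∈ X}

theorem cG_inter_ne [Infinite α] {X Y : Set α} (hX : Xᶜ.Finite) (hY : Yᶜ.Finite) :
    (X ∩ Y).Nonempty := by
  by_contra h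
  rw [Set.not_nonempty_iff_eq_empty] at h
  have h2 : (X ∩ Y)ᶜ.Finite := by
    rw [Set.compl_inter]
    exact hX.union hY
  rw [h, Set.compl_empty] at h2
  exact Set.infinite_univ h2

theorem cG_ne [Infinite α] {X : Set α} (hX : Xᶜ.Finite) : X.Nonempty := by
  have h := cG_inter_ne hX hX
  rwa [Set.inter_self] at h

theorem cGinf_sub {S X : Set α} (h1 : Xᶜ.Finite) (h2 : Disjoint X S) (h3 : ConnIn G X) :
    X ⊆ cGinf G S := fun _ hx => ⟨X, h1, h2, h3, hx⟩

theorem cGinf_anti {S S' : Set α} (h : S ⊆ S') : cGinf G S' ⊆ cGinf G S := by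
  rintro x ⟨X, h1, h2, h3, h4⟩
  exact ⟨X, h1, h2.mono_right h, h3, h4⟩

theorem cGinf_disj (S : Set α) : Disjoint (cGinf G S) S := by
  rw [Set.disjoint_left]
  rintro x ⟨X, _, h2, _, h4⟩ hx
  exact Set.disjoint_left.1 h2 h4 hx

theorem cGinf_cofin (hG : OneEnded G) {S : Set α} (hS : S.Finite) : (cGinf G S)ᶜ.Finite := by
  obtain ⟨X, h1, h2, h3⟩ := hG S hS
  exact h1.subset (Set.compl_subset_compl.2 (cGinf_sub h1 h2 h3))

theorem cGinf_conn [Infinite α] (S : Set α) : ConnIn G (cGinf G S) := by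
  rintro x ⟨X, h1, h2, h3, h4⟩ y ⟨Y, k1, k2, k3, k4⟩
  obtain ⟨z, hzX, hzY⟩ := cG_inter_ne h1 k1
  exact ((h3 x h4 z hzX).mono (cGinf_sub h1 h2 h3)).trans
    ((k3 z hzY y k4).mono (cGinf_sub k1 k2 k3))

/-- The complement of the infinite component of the complement of a connected set is connected. -/
theorem cGinf_compl_conn [Infinite α] (hc : ConnIn G univ) {S : Set α} (hS : ConnIn G S)
    (hne : S.Nonempty) : ConnIn G (cGinf G S)ᶜ := by
  obtain ⟨s, hs⟩ := hne
  have hsub : S ⊆ (cGinf G S)ᶜ := fun x hx hx' => Set.disjoint_left.1 (cGinf_disj S) hx' hx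
  refine ConnIn.of_base s ?_
  intro a ha
  by_cases haS : a ∈ S
  · exact (hS s hs a haS).mono hsub
  have hKS : compIn G Sᶜ a ⊆ Sᶜ := compIn_subset haS
  have hKd : compIn G Sᶜ a ⊆ (cGinf G S)ᶜ := by
    rintro b hb ⟨X, h1, h2, h3, h4⟩
    have hXS : X ⊆ Sᶜ := fun x hx hx' => Set.disjoint_left.1 h2 hx hx'
    have hXK : X ⊆ compIn G Sᶜ a := h3.subset_compIn hXS h4 hb
    refine ha ⟨compIn G Sᶜ a, h1.subset (Set.compl_subset_compl.2 hXK), ?_, connIn_compIn a,
      mem_compIn_self a⟩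
    rw [Set.disjoint_left]
    exact fun x hx hx' => hKS hx hx'
  have hKne : compIn G Sᶜ a ≠ univ := by
    intro h
    have : s ∈ compIn G Sᶜ a := h ▸ mem_univ s
    exact hKS this hs
  obtain ⟨x, hx, y, _, hy, hxy⟩ := hc.exists_adj (subset_univ _) ⟨a, mem_compIn_self a⟩ hKne
  have hyS : y ∈ S := by
    by_contra hyS
    exact hy (compIn_closed x hx y hyS hxy (hKS hx))
  have h1 : ReachIn G (cGinf G S)ᶜ s y := (hS s hs y hyS).mono hsub
  have h2 : ReachIn G (cGinf G S)ᶜ y x := ReachIn.single hxy.symm (hsub hyS) (hKd hx)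
  have h3 : ReachIn G (cGinf G S)ᶜ x a :=
    ((connIn_compIn a x hx a (mem_compIn_self a))).mono hKd
  exact (h1.trans h2).trans h3

/-- Balls. -/
def cGball (G : SimpleGraph α) (a : α) : ℕ → Set α
  | 0 => {a}
  | j + 1 => cGball G a j ∪ {y | ∃ x ∈ cGball G a j, G.Adj x y}

theorem cGball_mono (a : α) : Monotone (cGball G a) :=
  monotone_nat_of_le_succ fun _ => subset_union_left

theorem cGball_fin (hlf : ∀ x, {y | G.Adj x y}.Finite) (a : α) (j : ℕ) :
    (cGball G a j).Finite := by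
  induction j with
  | zero => exact Set.finite_singleton a
  | succ j ih =>
    refine ih.union ?_
    have h : {y | ∃ x ∈ cGball G a j, G.Adj x y} = ⋃ x ∈ cGball G a j, {y | G.Adj x y} := by
      ext y
      simp
    rw [h]
    exact ih.biUnion fun x _ => hlf x

theorem cGball_cover (hc : ConnIn G univ) (a x : α) : ∃ j, x ∈ cGball G a j := by
  have h : (⋃ j, cGball G a j) = univ := by
    refine hc.eq_of_closed (subset_univ _) ⟨a, mem_iUnion.2 ⟨0, mem_singleton a⟩⟩ ?_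
    intro y hy z _ hyz
    obtain ⟨j, hj⟩ := mem_iUnion.1 hy
    exact mem_iUnion.2 ⟨j + 1, Or.inr ⟨y, hj, hyz⟩⟩
  have hx : x ∈ ⋃ j, cGball G a j := h ▸ mem_univ x
  exact mem_iUnion.1 hx

theorem cGball_cover_fin (hc : ConnIn G univ) (a : α) {S : Set α} (hS : S.Finite) :
    ∃ j, S ⊆ cGball G a j := by
  induction S, hS using Set.Finite.induction_on with
  | empty => exact ⟨0, empty_subset _⟩
  | @insert x S _ _ ih =>
    obtain ⟨j, hj⟩ := ih
    obtain ⟨k, hk⟩ := cGball_cover hc a x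
    refine ⟨max j k, Set.insert_subset ?_ ?_⟩
    · exact cGball_mono a (le_max_right j k) hk
    · exact hj.trans (cGball_mono a (le_max_left j k))

/-- The end. -/
def cGend (G : SimpleGraph α) (a : α) (j : ℕ) : Set α := cGinf G (cGball G a j)

theorem cGend_isEnd [Infinite α] (hc : ConnIn G univ) (hG : OneEnded G)
    (hlf : ∀ x, {y | G.Adj x y}.Finite) (a : α) : IsEnd G (cGend G a) where
  anti := fun _ _ h => cGinf_anti (cGball_mono a h)
  ne := fun j => cG_ne (cGinf_cofin hG (cGball_fin hlf a j))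
  conn := fun j => cGinf_conn _
  fin := fun x => by
    obtain ⟨j, hj⟩ := cGball_cover hc a x
    exact ⟨j, fun h => Set.disjoint_left.1 (cGinf_disj _) h hj⟩

theorem cGend_cofin (hG : OneEnded G) (hlf : ∀ x, {y | G.Adj x y}.Finite) (a : α) (j : ℕ) :
    (cGend G a j)ᶜ.Finite := cGinf_cofin hG (cGball_fin hlf a j)

theorem cGend_sub (hc : ConnIn G univ) (a : α) {O : Set α} (hO : Oᶜ.Finite) :
    ∃ j, cGend G a j ⊆ O := by
  obtain ⟨j, hj⟩ := cGball_cover_fin hc a hO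
  refine ⟨j, fun x hx => ?_⟩
  by_contra hxO
  exact Set.disjoint_left.1 (cGinf_disj _) hx (hj hxO)

/-- The main block with respect to the end of a one-ended graph. -/
theorem cG_mem_mainBlock [Infinite α] (hc : ConnIn G univ) (hG : OneEnded G)
    (hlf : ∀ x, {y | G.Adj x y}.Finite) (a : α) {O : Set α} (_hO : Oᶜ.Finite) (x : α) :
    x ∈ mainBlock G O (cGend G a) ↔ x ∈ O ∧ ∀ t ∈ O, t ≠ x →
      ∃ X : Set α, Xᶜ.Finite ∧ ConnIn G X ∧ X ⊆ O \ {t} ∧ x ∈ X := by
  constructor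
  · rintro ⟨hx, h⟩
    refine ⟨hx, fun t ht htx => ?_⟩
    obtain ⟨j, h1, y, hy, h2⟩ := h t ht htx
    refine ⟨compIn G (O \ {t}) x, ?_, connIn_compIn x, ?_, mem_compIn_self x⟩
    · exact (cGend_cofin hG hlf a j).subset (Set.compl_subset_compl.2
        ((cGinf_conn _).subset_compIn h1 hy h2))
    · exact compIn_subset ⟨hx, fun h => htx h.symm⟩
  · rintro ⟨hx, h⟩
    refine ⟨hx, fun t ht htx => ?_⟩
    obtain ⟨X, h1, h2, h3, h4⟩ := h t ht htx
    obtain ⟨j, hj⟩ := cGend_sub hc a (O := O \ {t}) (h1.subset (Set.compl_subset_compl.2 h3))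
    obtain ⟨y, hy1, hy2⟩ := cG_inter_ne (cGend_cofin hG hlf a j) h1
    exact ⟨j, hj, y, hy1, (h2 x h4 y hy2).mono h3⟩

/-- A finite set in a connected graph is contained in a finite connected set. -/
theorem cG_finconn (hc : ConnIn G univ) {S : Set α} (hS : S.Finite) :
    ∃ T : Set α, T.Finite ∧ S ⊆ T ∧ ConnIn G T := by
  rcases S.eq_empty_or_nonempty with rfl | ⟨s, hs⟩
  · exact ⟨∅, Set.finite_empty, subset_rfl, ConnIn.empty⟩
  have hpath : ∀ b, ∃ P : Set α, P.Finite ∧ s ∈ P ∧ b ∈ P ∧ ReachIn G P s b ∧ ConnIn G P := by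
    intro b
    obtain ⟨n, p, hp0, hpn, hadj, _⟩ := (hc s (mem_univ s) b (mem_univ b)).exists_path (mem_univ s)
    have hmem : ∀ i ≤ n, p i ∈ p '' {i | i ≤ n} := fun i hi => ⟨i, hi, rfl⟩
    refine ⟨p '' {i | i ≤ n}, (Set.finite_le_nat n).image p, ⟨0, Nat.zero_le n, hp0⟩,
      ⟨n, le_refl n, hpn⟩, ?_, ?_⟩
    · have := ReachIn.of_path hadj hmem (Nat.zero_le n) (le_refl n)
      rwa [hp0, hpn] at this
    · rintro _ ⟨i, hi, rfl⟩ _ ⟨j, hj, rfl⟩
      exact ReachIn.of_path hadj hmem hi hj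
  choose P hPf hPs hPb _ hPc using hpath
  refine ⟨⋃ b ∈ S, P b, hS.biUnion fun b _ => hPf b, ?_, ?_⟩
  · intro b hb
    exact mem_biUnion hb (hPb b)
  · refine ConnIn.of_base s ?_
    intro x hx
    obtain ⟨b, hb, hx⟩ := mem_iUnion₂.1 hx
    exact (hPc b s (hPs b) x hx).mono (subset_biUnion_of_mem (u := P) hb)

end graph

section action

variable {V E F G : Type} [Group G] [MulAction G V] [MulAction G E] [MulAction G F]
  {M : Inc V E F}

theorem cG_adj (hE : Equiv M G) (g : G) {x y : F} (h : M.fadj.Adj x y) :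
    M.fadj.Adj (g • x) (g • y) := by
  obtain ⟨hne, e, he1, he2⟩ := h
  exact ⟨fun h => hne (smul_left_cancel g h), g • e, hE.ef g e x he1, hE.ef g e y he2⟩

theorem cG_image_conn (hE : Equiv M G) (g : G) {X : Set F} (h : ConnIn M.fadj X) :
    ConnIn M.fadj ((fun f => g • f) '' X) := by
  rintro _ ⟨x, hx, rfl⟩ _ ⟨y, hy, rfl⟩
  refine ReachIn.map (f := fun f => g • f) (h x hx y hy) ?_
  intro a ha b hb hab
  exact ReachIn.single (cG_adj hE g hab) ⟨a, ha, rfl⟩ ⟨b, hb, rfl⟩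

theorem cG_image_compl (g : G) {X : Set F} (h : Xᶜ.Finite) :
    ((fun f => g • f) '' X)ᶜ.Finite := by
  refine (h.image (fun f => g • f)).subset ?_
  intro y hy
  refine ⟨g⁻¹ • y, fun hx => hy ⟨g⁻¹ • y, hx, ?_⟩, ?_⟩
  · simp
  · simp

theorem cGinf_inv (hE : Equiv M G) {S : Set F} (hS : ∀ g : G, ∀ f ∈ S, g • f ∈ S) (g : G) :
    ∀ f ∈ cGinf M.fadj S, g • f ∈ cGinf M.fadj S := by
  rintro f ⟨X, h1, h2, h3, h4⟩
  refine ⟨(fun f => g • f) '' X, cG_image_compl g h1, ?_, cG_image_conn hE g h3, ⟨f, h4, rfl⟩⟩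
  rw [Set.disjoint_left]
  rintro _ ⟨x, hx, rfl⟩ hxS
  have := hS g⁻¹ _ hxS
  simp only [inv_smul_smul] at this
  exact Set.disjoint_left.1 h2 hx this

end action

section faces

variable {V E F : Type} (M : PolyMap V E F)

theorem cG_edgeFaces_fin (e : E) : {f | M.ef e f}.Finite := by
  obtain ⟨f, g, _, h⟩ := M.edge_faces e
  refine (Set.toFinite {f, g}).subset ?_
  intro x hx
  exact (h x).1 hx

theorem cG_edgeVerts_fin (e : E) : {v | M.ve v e}.Finite := by
  obtain ⟨f, g, _, h⟩ := M.edge_verts e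
  refine (Set.toFinite {f, g}).subset ?_
  intro x hx
  exact (h x).1 hx

theorem cG_locfin (f : F) : {g | M.fadj.Adj f g}.Finite := by
  refine ((M.face_fin f).biUnion fun e _ => cG_edgeFaces_fin M e).subset ?_
  rintro g ⟨_, e, h1, h2⟩
  exact mem_biUnion h1 h2

theorem cG_faceVerts_fin (f : F) : {v | M.vf v f}.Finite := by
  refine ((M.face_fin f).biUnion fun e _ => cG_edgeVerts_fin M e).subset ?_
  rintro v ⟨e, h1, h2⟩
  exact mem_biUnion h2 h1

theorem cG_vertFaces_fin (v : V) : {f | M.vf v f}.Finite := by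
  refine ((M.vert_fin v).biUnion fun e _ => cG_edgeFaces_fin M e).subset ?_
  rintro f ⟨e, h1, h2⟩
  exact mem_biUnion h1 h2

/-- The faces sharing a vertex with a face of a finite set. -/
theorem cG_touch_fin {D : Set F} (hD : D.Finite) :
    {t | ∃ v, M.vf v t ∧ ∃ d ∈ D, M.vf v d}.Finite := by
  refine (hD.biUnion fun d _ => ((cG_faceVerts_fin M d).biUnion fun v _ =>
    cG_vertFaces_fin M v)).subset ?_
  rintro t ⟨v, hvt, d, hd, hvd⟩
  exact mem_biUnion hd (mem_biUnion hvd hvt)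

end faces

/-- (C14) -/
theorem cG_tightDisc (_h4 : Stmt_ThreeConn) (h10 : Stmt_MainBlock) (h11 : Stmt_MainBlockCompl)
    (h12 : Stmt_Ring) : Stmt_TightDisc := by
  intro V E F G M _ _ _ _ _ hE W hW
  have := M.finf
  have hc := M.fconn
  have hone := M.fend
  have hlf : ∀ x, {y | M.fadj.Adj x y}.Finite := fun x => cG_locfin M.toPolyMap x
  obtain ⟨f0⟩ : Nonempty F := inferInstance
  -- step 1: invariant connected finite set
  let W2 : Set F := ⋃ g : G, (fun f => g • f) '' (Set.insert f0 W)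
  have hW2f : W2.Finite := Set.finite_iUnion fun g => (hW.insert f0).image _
  have hW2i : ∀ g : G, ∀ f ∈ W2, g • f ∈ W2 := by
    intro g f hf
    obtain ⟨k, x, hx, rfl⟩ := mem_iUnion.1 hf
    exact mem_iUnion.2 ⟨g * k, x, hx, mul_smul g k x⟩
  have hW2s : Set.insert f0 W ⊆ W2 := fun x hx => mem_iUnion.2 ⟨1, x, hx, one_smul G x⟩
  obtain ⟨W3, hW3f, hW23, hW3c⟩ := cG_finconn hc hW2f
  let W4 : Set F := ⋃ g : G, (fun f => g • f) '' W3
  have hW4f : W4.Finite := Set.finite_iUnion fun g => hW3f.image _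
  have hW4i : ∀ g : G, ∀ f ∈ W4, g • f ∈ W4 := by
    intro g f hf
    obtain ⟨k, x, hx, rfl⟩ := mem_iUnion.1 hf
    exact mem_iUnion.2 ⟨g * k, x, hx, mul_smul g k x⟩
  have hf02 : f0 ∈ W2 := hW2s (Or.inl rfl)
  have hW34 : W3 ⊆ W4 := fun x hx => mem_iUnion.2 ⟨1, x, hx, one_smul G x⟩
  have hW4c : ConnIn M.fadj W4 := by
    refine ConnIn.of_base f0 ?_
    intro b hb
    obtain ⟨g, hb⟩ := mem_iUnion.1 hb
    have h1 : f0 ∈ (fun f => g • f) '' W3 := by
      refine ⟨g⁻¹ • f0, hW23 (hW2i g⁻¹ f0 hf02), ?_⟩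
      simp
    exact (cG_image_conn hE g hW3c f0 h1 b hb).mono
      (subset_iUnion (fun g : G => (fun f => g • f) '' W3) g)
  have hW4ne : W4.Nonempty := ⟨f0, hW34 (hW23 hf02)⟩
  -- step 2
  let O0 : Set F := cGinf M.fadj W4
  have hO0f : O0ᶜ.Finite := cGinf_cofin hone hW4f
  have hO0c : ConnIn M.fadj O0 := cGinf_conn _
  have hO0cc : ConnIn M.fadj O0ᶜ := cGinf_compl_conn hc hW4c hW4ne
  have hW40 : W4 ⊆ O0ᶜ := fun x hx hx' => Set.disjoint_left.1 (cGinf_disj _) hx' hx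
  have hO0i : ∀ g : G, ∀ f ∈ O0, g • f ∈ O0 := fun g => cGinf_inv hE hW4i g
  -- step 3, 4
  have hEnd := cGend_isEnd hc hone hlf f0
  have hsub : ∃ j, cGend M.fadj f0 j ⊆ O0 := cGend_sub hc f0 hO0f
  obtain ⟨hc1, hc2⟩ := h10 F M.fadj O0 (cGend M.fadj f0) hO0c hEnd hsub
  have hc3 := h11 V E F M.toPolyMap hc O0 (cGend M.fadj f0) hO0c hO0cc
    (hW4ne.mono hW40) hEnd hsub
  have hmem := cG_mem_mainBlock hc hone hlf f0 hO0f
  set O1 : Set F := mainBlock M.fadj O0 (cGend M.fadj f0) with hO1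
  have hO10 : O1 ⊆ O0 := fun x hx => hx.1
  refine ⟨O1ᶜ, ?_, ?_, ?_⟩
  · intro x hx
    exact Set.compl_subset_compl.2 hO10 (hW40 (hW34 (hW23 (hW2s (Or.inr hx)))))
  · refine ⟨?_, ?_, hc3, by rw [compl_compl]; exact hc1, fun t => by rw [compl_compl]; exact hc2 t⟩
    · -- finiteness
      have hj : ∀ t, ∃ j, cGend M.fadj f0 j ⊆ O0 \ {t} := by
        intro t
        refine cGend_sub hc f0 ?_
        refine (hO0f.union (Set.finite_singleton t)).subset ?_
        intro x hx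
        by_cases h : x ∈ O0
        · right
          by_contra h'
          exact hx ⟨h, h'⟩
        · exact Or.inl h
      choose j hj using hj
      refine (hO0f.union ((cG_touch_fin M.toPolyMap hO0f).biUnion fun t _ =>
        cGend_cofin hone hlf f0 (j t))).subset ?_
      intro x hx
      by_cases hxO : x ∈ O0
      · right
        have h1 : ¬ ∀ t ∈ O0, t ≠ x →
            ∃ X : Set F, Xᶜ.Finite ∧ ConnIn M.fadj X ∧ X ⊆ O0 \ {t} ∧ x ∈ X :=
          fun h => hx ((hmem x).2 ⟨hxO, h⟩)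
        push Not at h1
        obtain ⟨t, ht, htx, h2⟩ := h1
        refine mem_biUnion (x := t) ?_ ?_
        · by_contra hcon
          have h3 : ConnIn M.fadj (O0 \ {t}) := by
            refine h12 V E F M.toPolyMap O0 hO0c t ht ?_
            intro v hv g hg
            by_contra hgO
            exact hcon ⟨v, hv, g, hgO, hg⟩
          refine h2 (O0 \ {t}) ?_ h3 subset_rfl ⟨hxO, fun h => htx h.symm⟩
          exact (cGend_cofin hone hlf f0 (j t)).subset (Set.compl_subset_compl.2 (hj t))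
        · intro hxe
          exact h2 (cGend M.fadj f0 (j t)) (cGend_cofin hone hlf f0 (j t)) (cGinf_conn _)
            (hj t) hxe
      · exact Or.inl hxO
    · obtain ⟨x, hx⟩ := hW4ne
      exact ⟨x, Set.compl_subset_compl.2 hO10 (hW40 hx)⟩
  · have hinv : ∀ g : G, ∀ f ∈ O1, g • f ∈ O1 := by
      intro g f hf
      obtain ⟨h1, h2⟩ := (hmem f).1 hf
      refine (hmem (g • f)).2 ⟨hO0i g f h1, ?_⟩
      intro t ht htf
      have ht' : g⁻¹ • t ≠ f := by
        intro h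
        apply htf
        rw [← h, smul_inv_smul]
      obtain ⟨X, k1, k2, k3, k4⟩ := h2 (g⁻¹ • t) (hO0i g⁻¹ t ht) ht'
      refine ⟨(fun f => g • f) '' X, cG_image_compl g k1, cG_image_conn hE g k2, ?_, ⟨f, k4, rfl⟩⟩
      rintro _ ⟨y, hy, rfl⟩
      obtain ⟨h5, h6⟩ := k3 hy
      refine ⟨hO0i g y h5, fun h => h6 ?_⟩
      have : g • y = t := h
      rw [mem_singleton_iff, ← this, inv_smul_smul]
    intro g f hf hgf
    apply hf
    have := hinv g⁻¹ _ hgf
    rwa [inv_smul_smul] at this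

end Pool.Agent.CT
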