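import Pool.Agent.CT.Cyc
import Pool.Agent.CT.Curve
import Pool.Agent.CT.ThreeConn
import Pool.Agent.CT.Ring
import Pool.Agent.CT.Bond
import Pool.Agent.CT.Tight
import Pool.Agent.CT.MainBlock
import Pool.Agent.CT.MainCompl
import Pool.Agent.CT.TightDisc
import Pool.Agent.CT.CoarsePoly
import Pool.Agent.CT.CoarseRest
import Pool.Agent.CT.StrictOf
import Pool.Agent.CT.PolyGeom
import Pool.Agent.CT.FaceSub
import Pool.Agent.CT.Count
import Pool.Agent.CT.Inter
import Pool.Agent.CT.FaceThree
import Pool.Agent.CT.FaceAlt
import Pool.Agent.CT.Block
import Pool.Agent.CT.Harm
import Pool.Agent.CT.Dirichlet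
import Pool.Agent.CT.Misc
import Pool.Agent.CT.SubBlk
import Pool.Agent.CT.DiscExt
import Pool.Agent.CT.FrCycle
import Pool.Agent.CT.SidePos
import Pool.Agent.CT.ArcGeom
import Pool.Agent.CT.Adm
import Pool.Agent.CT.DiscHyp
import Pool.Agent.CT.DiscTile
import Pool.Agent.CT.Dil
import Pool.Agent.CT.NonDeg
import Pool.Agent.CT.DiscSeq
import Pool.Agent.CT.Recoarse
import Pool.Agent.CT.Aut
import Pool.Agent.CT.Affine
import Pool.Agent.CT.InvLim
import Pool.Agent.CT.Levels
import Pool.Agent.CT.DrawFin
import Pool.Agent.CT.DrawFinTiling
import Pool.Agent.CT.Regular
import Pool.Agent.CT.Assemble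

set_option autoImplicit false

/-! # The unconditional statements of parts C and D -/

namespace Pool.Agent.CT

theorem noDouble_final : Stmt_NoDouble := cA_noDouble
theorem curve_final : Stmt_Curve := cA_curve noDouble_final
theorem faceCycle_final : Stmt_FaceCycle := cA_faceCycle curve_final
theorem frVertex_final : Stmt_FrVertex := cA_frVertex
theorem threeConn_final : Stmt_ThreeConn := cB_threeConn noDouble_final faceCycle_final
theorem nonSep_final : Stmt_NonSep := cC_nonSep noDouble_final faceCycle_final
theorem local3_final : Stmt_Local3 := cA_local3 threeConn_final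
theorem bond_final : Stmt_Bond := cD_bond curve_final frVertex_final faceCycle_final
theorem tight_final : Stmt_Tight := cE_tight0
theorem mainBlock_final : Stmt_MainBlock := cF_mainBlock
theorem mainBlockCompl_final : Stmt_MainBlockCompl := cF_mainBlockCompl threeConn_final
theorem biTight_final : Stmt_BiTight := cF_biTight threeConn_final
theorem ring_final : Stmt_Ring := cC_ring faceCycle_final
theorem tightDisc_final : Stmt_TightDisc :=
  cG_tightDisc threeConn_final mainBlock_final mainBlockCompl_final ring_final
theorem coarsePoly_final : Stmt_CoarsePoly :=
  cH_coarsePoly noDouble_final faceCycle_final frVertex_final bond_final tight_final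
theorem coarseRest_final : Stmt_CoarseRest :=
  cH_coarseRest faceCycle_final frVertex_final bond_final tight_final coarsePoly_final
theorem coarse_final : Stmt_Coarse := coarse_of coarsePoly_final coarseRest_final
theorem strictOf_final : Stmt_StrictOf := cG1
theorem polyGeom_final : Stmt_PolyGeom := cG2
theorem faceStrict_final : Stmt_FaceStrict := cG3
theorem faceSub_final : Stmt_FaceSub := cG4 polyGeom_final
theorem count_final : Stmt_Count := cG5
theorem preInter_final : Stmt_PreInter := cG6
theorem faceThree_final : Stmt_FaceThree := cP12
theorem faceAlt_final : Stmt_FaceAlt := cP3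
theorem edgeOpp_final : Stmt_EdgeOpp := cP4
theorem block_final : Stmt_Block := cB1 faceThree_final faceAlt_final edgeOpp_final strictOf_final
theorem harm_final : Stmt_Harm := cA1
theorem upSet_final : Stmt_UpSet := cA3
theorem dirichlet_final : Stmt_Dirichlet := cA2
theorem cycUnique_final : Stmt_CycUnique := cD0
theorem dualPlane_final : Stmt_DualPlane := cD22
theorem countable_final : Stmt_Countable := cD23
theorem subBlk_final : Stmt_SubBlk := cD1 faceCycle_final
theorem discExt_final : Stmt_DiscExt :=
  cD2 dirichlet_final bond_final frVertex_final coarse_final
theorem frCycle_final : Stmt_FrCycle :=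
  cD3 faceCycle_final frVertex_final bond_final tight_final
theorem sidePos_final : Stmt_SidePos :=
  cD4 bond_final frVertex_final faceCycle_final tight_final
theorem arcGeom_final : Stmt_ArcGeom := cD5 polyGeom_final
theorem adm_final : Stmt_Adm := cD6 frCycle_final sidePos_final arcGeom_final polyGeom_final
theorem discHyp_final : Stmt_DiscHyp :=
  cD7 harm_final nonSep_final threeConn_final noDouble_final
theorem discTile_final : Stmt_DiscTile :=
  cD8 count_final faceStrict_final frVertex_final countable_final faceCycle_final
theorem discBlock_final : Stmt_DiscBlock :=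
  discBlock_of subBlk_final adm_final discHyp_final discTile_final block_final
theorem dil_final : Stmt_Dil :=
  cD10 harm_final faceCycle_final noDouble_final frVertex_final bond_final coarsePoly_final
theorem nonDeg_final : Stmt_NonDeg :=
  cD11 subBlk_final adm_final discHyp_final faceThree_final harm_final
theorem discSeq_final : Stmt_DiscSeq :=
  cD12 tightDisc_final coarse_final local3_final countable_final
theorem recoarse_final : Stmt_Recoarse := cD13 frVertex_final
theorem aut_final : Stmt_Aut := cD14
theorem affine_final : Stmt_Affine := cD15
theorem invLim_final : Stmt_InvLim := cD16 affine_final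

theorem regular_final : Stmt_Regular :=
  cD17 cycUnique_final faceCycle_final coarse_final frVertex_final aut_final
theorem levels_final : Stmt_Levels :=
  cD18 faceCycle_final discExt_final discBlock_final nonDeg_final recoarse_final aut_final
    coarse_final affine_final invLim_final regular_final
theorem assemble_final : Stmt_Assemble :=
  cD19 discBlock_final recoarse_final sidePos_final faceStrict_final faceSub_final
    preInter_final coarse_final faceCycle_final frVertex_final bond_final tight_final
theorem drawFin_final : Stmt_DrawFin :=
  cD20 discSeq_final dil_final levels_final assemble_final discExt_final coarse_final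
    recoarse_final aut_final

/-- Finite groups. -/
theorem drawFinTiling_final : Stmt_DrawFinTiling := cD21 drawFin_final

end Pool.Agent.CT
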