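import Mathlib

set_option autoImplicit false

/-! # Convexification of plane tilings: definitions

The Euclidean plane is `ℂ`. -/

namespace Pool.Agent.CT

open Set Metric

/-! ## Problem level definitions -/

/-- A tiling of the plane: a countable family of closed sets whose union is the plane and whose
interiors are pairwise disjoint. -/
structure IsTiling (T : Set (Set ℂ)) : Prop where
  countable : T.Countable
  closed : ∀ t ∈ T, IsClosed t
  cover : ⋃₀ T = univ
  disj : ∀ t ∈ T, ∀ t' ∈ T, t ≠ t' → Disjoint (interior t) (interior t')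

/-- N.1: every tile is a closed topological disk. -/
def N1 (T : Set (Set ℂ)) : Prop := ∀ t ∈ T, Nonempty (t ≃ₜ closedBall (0 : ℂ) 1)

/-- N.2: any two tiles have empty or connected intersection. -/
def N2 (T : Set (Set ℂ)) : Prop := ∀ t ∈ T, ∀ t' ∈ T, IsPreconnected (t ∩ t')

/-- `P` is singular: every disk centred at `P` meets infinitely many tiles. -/
def Singular (T : Set (Set ℂ)) (P : ℂ) : Prop :=
  ∀ r > 0, {t ∈ T | (t ∩ closedBall P r).Nonempty}.Infinite

/-- `s` is a symmetry of `T`: an isometry of the plane which maps `T` onto itself. -/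
def IsSymmetry (T : Set (Set ℂ)) (s : ℂ ≃ᵢ ℂ) : Prop := (fun t => s '' t) '' T = T

/-- The group of all symmetries of `T`. -/
def symGroup (T : Set (Set ℂ)) : Subgroup (ℂ ≃ᵢ ℂ) where
  carrier := {s | IsSymmetry T s}
  mul_mem' := by
    intro a b ha hb
    have ha' : (fun t => a '' t) '' T = T := ha
    have hb' : (fun t => b '' t) '' T = T := hb
    show (fun t => (a * b) '' t) '' T = T
    have : (fun t : Set ℂ => (a * b) '' t) = (fun t => a '' t) ∘ (fun t => b '' t) := by
      funext t
      simp [Function.comp, Set.image_image, IsometryEquiv.mul_apply]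
    rw [this, Set.image_comp, hb', ha']
  one_mem' := by
    show (fun t => (1 : ℂ ≃ᵢ ℂ) '' t) '' T = T
    have : (fun t : Set ℂ => (1 : ℂ ≃ᵢ ℂ) '' t) = id := by
      funext t
      have : ((1 : ℂ ≃ᵢ ℂ) : ℂ → ℂ) = id := rfl
      simp [this]
    rw [this, Set.image_id]
  inv_mem' := by
    intro a ha
    have ha' : (fun t => a '' t) '' T = T := ha
    show (fun t => (a⁻¹ : ℂ ≃ᵢ ℂ) '' t) '' T = T
    conv_lhs => rw [← ha']
    rw [Set.image_image]
    have : (fun t : Set ℂ => (a⁻¹ : ℂ ≃ᵢ ℂ) '' (a '' t)) = id := by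
      funext t
      rw [Set.image_image]
      simp
    rw [this, Set.image_id]

/-- A tiling satisfying N.1, N.2 without singular points. -/
structure DiscTiling where
  T : Set (Set ℂ)
  tiling : IsTiling T
  n1 : N1 T
  n2 : N2 T
  nosing : ∀ P, ¬ Singular T P

/-! ## Connectedness inside a set, planarity, ends -/

section graphs

variable {α : Type}

/-- `b` can be reached from `a` by a path inside `Z`. -/
def ReachIn (G : SimpleGraph α) (Z : Set α) : α → α → Prop :=
  Relation.ReflTransGen (fun x y => G.Adj x y ∧ x ∈ Z ∧ y ∈ Z)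

/-- The set `Z` is connected (or empty) in the graph `G`. -/
def ConnIn (G : SimpleGraph α) (Z : Set α) : Prop := ∀ a ∈ Z, ∀ b ∈ Z, ReachIn G Z a b

/-- Strong planarity: there is no system of connected sets modelling `K₅` or `K₃₃` in which sets
belonging to independent edges are disjoint. -/
structure StrongPlanar (G : SimpleGraph α) : Prop where
  noK5 : ∀ (c : Fin 5 → α) (Z : Fin 5 → Fin 5 → Set α),
    (∀ i j, i < j → c i ∈ Z i j ∧ c j ∈ Z i j ∧ ConnIn G (Z i j)) →
    (∀ i j k l, i < j → k < l → i ≠ k → i ≠ l → j ≠ k → j ≠ l → Disjoint (Z i j) (Z k l)) → False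
  noK33 : ∀ (a b : Fin 3 → α) (Z : Fin 3 → Fin 3 → Set α),
    (∀ i j, a i ∈ Z i j ∧ b j ∈ Z i j ∧ ConnIn G (Z i j)) →
    (∀ i j k l, i ≠ k → j ≠ l → Disjoint (Z i j) (Z k l)) → False

/-- One-endedness: every finite set is avoided by a connected cofinite set. -/
def OneEnded (G : SimpleGraph α) : Prop :=
  ∀ S : Set α, S.Finite → ∃ X : Set α, Xᶜ.Finite ∧ Disjoint X S ∧ ConnIn G X

end graphs

/-! ## Incidence structures and polyhedral maps -/

/-- Vertices, edges, faces with incidences. -/
structure Inc (V E F : Type) where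
  ve : V → E → Prop
  ef : E → F → Prop

namespace Inc

variable {V E F : Type}

/-- Vertex–face incidence. -/
def vf (M : Inc V E F) (v : V) (f : F) : Prop := ∃ e, M.ve v e ∧ M.ef e f

/-- The dual incidence structure. -/
def dual (M : Inc V E F) : Inc F E V where
  ve f e := M.ef e f
  ef e v := M.ve v e

/-- Adjacency of vertices (joined by an edge). -/
def vadj (M : Inc V E F) : SimpleGraph V where
  Adj u v := u ≠ v ∧ ∃ e, M.ve u e ∧ M.ve v e
  symm := ⟨fun _ _ h => ⟨h.1.symm, h.2.imp fun _ h' => h'.symm⟩⟩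
  loopless := ⟨fun _ h => h.1 rfl⟩

/-- Adjacency of faces (sharing an edge). -/
def fadj (M : Inc V E F) : SimpleGraph F where
  Adj f g := f ≠ g ∧ ∃ e, M.ef e f ∧ M.ef e g
  symm := ⟨fun _ _ h => ⟨h.1.symm, h.2.imp fun _ h' => h'.symm⟩⟩
  loopless := ⟨fun _ h => h.1 rfl⟩

end Inc

/-- Cells: vertices, edges, faces. -/
inductive Cell (V E F : Type) : Type
  | vert (v : V) : Cell V E F
  | edge (e : E) : Cell V E F
  | face (f : F) : Cell V E F

/-- Incidence of cells, in the order vertex, edge, face. -/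
inductive CellInc {V E F : Type} (M : Inc V E F) : Cell V E F → Cell V E F → Prop
  | ve {v : V} {e : E} (h : M.ve v e) : CellInc M (.vert v) (.edge e)
  | ef {e : E} {f : F} (h : M.ef e f) : CellInc M (.edge e) (.face f)
  | vf {v : V} {f : F} (h : M.vf v f) : CellInc M (.vert v) (.face f)

/-- The incidence graph of all cells. -/
def Inc.cellGraph {V E F : Type} (M : Inc V E F) : SimpleGraph (Cell V E F) where
  Adj a b := CellInc M a b ∨ CellInc M b a
  symm := ⟨fun _ _ h => h.symm⟩
  loopless := ⟨fun _ h => by rcases h with h | h <;> cases h⟩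

/-- A (locally finite) polyhedral map: vertices `V`, edges `E`, faces `F` with incidences. -/
structure PolyMap (V E F : Type) extends Inc V E F where
  edge_verts : ∀ e, ∃ u v, u ≠ v ∧ ∀ w, ve w e ↔ (w = u ∨ w = v)
  edge_faces : ∀ e, ∃ f g, f ≠ g ∧ ∀ h, ef e h ↔ (h = f ∨ h = g)
  corner : ∀ v e f, ve v e → ef e f → ∃ e', e' ≠ e ∧ ∀ d, (ve v d ∧ ef d f) ↔ (d = e ∨ d = e')
  face_fin : ∀ f, {e | ef e f}.Finite
  face_card : ∀ f, 3 ≤ {e | ef e f}.ncard
  face_conn : ∀ f, ∀ A : Set E, A ⊆ {e | ef e f} → A.Nonempty →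
    (∀ e ∈ A, ∀ d, ef d f → (∃ v, ve v e ∧ ve v d) → d ∈ A) → A = {e | ef e f}
  vert_fin : ∀ v, {e | ve v e}.Finite
  vert_card : ∀ v, 3 ≤ {e | ve v e}.ncard
  vert_conn : ∀ v, ∀ A : Set E, A ⊆ {e | ve v e} → A.Nonempty →
    (∀ e ∈ A, ∀ d, ve v d → (∃ f, ef e f ∧ ef d f) → d ∈ A) → A = {e | ve v e}
  inter : ∀ f g, f ≠ g → ∀ u v, u ≠ v →
    (∃ e, ve u e ∧ ef e f) → (∃ e, ve u e ∧ ef e g) →
    (∃ e, ve v e ∧ ef e f) → (∃ e, ve v e ∧ ef e g) →
    ∃ e, ve u e ∧ ve v e ∧ ef e f ∧ ef e g

/-- The dual map. -/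
def PolyMap.dualMap {V E F : Type} (M : PolyMap V E F) : PolyMap F E V where
  toInc := M.toInc.dual
  edge_verts := M.edge_faces
  edge_faces := M.edge_verts
  corner := by
    intro f e v h1 h2
    obtain ⟨e', h, h'⟩ := M.corner v e f h2 h1
    exact ⟨e', h, fun d => by rw [← h' d]; exact and_comm⟩
  face_fin := M.vert_fin
  face_card := M.vert_card
  face_conn := M.vert_conn
  vert_fin := M.face_fin
  vert_card := M.face_card
  vert_conn := M.face_conn
  inter := by
    intro u v huv f g hfg h1 h2 h3 h4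
    obtain ⟨e1, a1, b1⟩ := h1
    obtain ⟨e2, a2, b2⟩ := h2
    obtain ⟨e3, a3, b3⟩ := h3
    obtain ⟨e4, a4, b4⟩ := h4
    obtain ⟨e, h5, h6, h7, h8⟩ := M.inter f g hfg u v huv ⟨e1, b1, a1⟩ ⟨e3, b3, a3⟩ ⟨e2, b2, a2⟩
      ⟨e4, b4, a4⟩
    exact ⟨e, h7, h8, h5, h6⟩

/-- A group action by automorphisms. -/
structure Equiv {V E F : Type} (M : Inc V E F) (G : Type) [Group G] [MulAction G V]
    [MulAction G E] [MulAction G F] : Prop where
  ve : ∀ (g : G) v e, M.ve v e → M.ve (g • v) (g • e)
  ef : ∀ (g : G) e f, M.ef e f → M.ef (g • e) (g • f)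

/-- A plane map: an infinite, connected, planar, one-ended polyhedral map (in the primal and in the
dual sense). -/
structure PlaneMap (V E F : Type) extends PolyMap V E F where
  vconn : ConnIn toInc.vadj univ
  fconn : ConnIn toInc.fadj univ
  planar : StrongPlanar toInc.cellGraph
  vend : OneEnded toInc.vadj
  fend : OneEnded toInc.fadj
  vinf : Infinite V
  finf : Infinite F

/-! ## Convex drawings -/

section drawing

variable {V E F : Type}

/-- The polygon of a face. -/
def poly (M : Inc V E F) (φ : V → ℂ) (f : F) : Set ℂ := convexHull ℝ (φ '' {v | M.vf v f})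

/-- The segment of an edge. -/
def seg (M : Inc V E F) (φ : V → ℂ) (e : E) : Set ℂ := convexHull ℝ (φ '' {v | M.ve v e})

/-- A convex drawing of `M` onto the whole plane: every face is a convex polygon (vertices with a
straight angle are allowed) whose boundary is the union of the segments of its edges, the polygons
tile the plane in a locally finite way, and two of them meet only in the common edges and vertices
of the faces. -/
structure IsDrawing (M : Inc V E F) (φ : V → ℂ) : Prop where
  ne : ∀ e u v, M.ve u e → M.ve v e → u ≠ v → φ u ≠ φ v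
  int : ∀ f, (interior (poly M φ f)).Nonempty
  bdry : ∀ f, frontier (poly M φ f) = ⋃ e ∈ {e | M.ef e f}, seg M φ e
  seg_inter : ∀ f e d, M.ef e f → M.ef d f → e ≠ d →
    seg M φ e ∩ seg M φ d ⊆ φ '' {v | M.ve v e ∧ M.ve v d}
  cover : ∀ z : ℂ, ∃ f, z ∈ poly M φ f
  locfin : ∀ r : ℝ, {f | (poly M φ f ∩ closedBall 0 r).Nonempty}.Finite
  disj : ∀ f g, f ≠ g → Disjoint (interior (poly M φ f)) (interior (poly M φ g))
  inter : ∀ f g, f ≠ g → poly M φ f ∩ poly M φ g ⊆
    (⋃ e ∈ {e | M.ef e f ∧ M.ef e g}, seg M φ e) ∪ φ '' {v | M.vf v f ∧ M.vf v g}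

end drawing

end Pool.Agent.CT
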