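import Pool.Agent.CT.BDefs

set_option autoImplicit false

/-! # A2: the Dirichlet problem with a free group action -/

namespace Pool.Agent.CT

open Set

section

variable {V X : Type} [AddCommGroup X] [Module ℝ X]

theorem cA2_sum {c : V → V → ℝ} (hc : Net c) (φ : V → X) (v : V) :
    ∑ᶠ u, c v u • (φ u - φ v) = ∑ u ∈ (hc.fin v).toFinset, c v u • (φ u - φ v) := by
  refine finsum_eq_sum_of_support_subset _ (fun u hu => ?_)
  simp only [Finite.coe_toFinset, mem_ofPred_eq]
  intro h
  exact hu (by simp [h])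

theorem cA2_equiv {H : Type} [Group H] [MulAction H V] {c : V → V → ℝ}
    (hinv : ∀ (h : H) u v, c (h • u) (h • v) = c u v) (φ : V → X) (h : H)
    (hφ : ∀ u v, φ (h • u) - φ (h • v) = φ u - φ v) (v : V) :
    ∑ᶠ u, c (h • v) u • (φ u - φ (h • v)) = ∑ᶠ u, c v u • (φ u - φ v) := by
  rw [← finsum_comp_equiv (MulAction.toPerm h)]
  refine finsum_congr (fun u => ?_)
  simp only [MulAction.toPerm_apply]
  rw [hinv, hφ]

end

section

variable {V : Type} {c : V → V → ℝ}

/-- One step of the maximum principle. -/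
theorem cA2_step (hc : Net c) {f : V → ℝ} {v : V} (hf : Harm c f v) (hmax : ∀ u, f u ≤ f v)
    {u : V} (hu : 0 < c v u) : f u = f v := by
  unfold Harm at hf
  rw [cA2_sum hc] at hf
  have h1 : ∀ w ∈ (hc.fin v).toFinset, c v w • (f w - f v) ≤ 0 := by
    intro w _
    rw [smul_eq_mul]
    exact mul_nonpos_of_nonneg_of_nonpos (hc.nonneg v w) (sub_nonpos.2 (hmax w))
  have h2 := (Finset.sum_eq_zero_iff_of_nonpos h1).1 hf u (by
    simp only [Finite.mem_toFinset, mem_ofPred_eq]
    exact hu.ne')
  rw [smul_eq_mul] at h2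
  rcases mul_eq_zero.1 h2 with h3 | h3
  · exact absurd h3 hu.ne'
  · exact sub_eq_zero.1 h3

/-- A function of finite range which is harmonic on `I` and zero outside is nonpositive. -/
theorem cA2_nonpos (hc : Net c) {I : Set V} {f : V → ℝ} (hfin : (range f).Finite)
    (hI : ∀ v ∈ I, ∃ u, u ∉ I ∧ Relation.ReflTransGen (Step c) v u)
    (h0 : ∀ v, v ∉ I → f v = 0) (hf : ∀ v ∈ I, Harm c f v) (v : V) : f v ≤ 0 := by
  obtain ⟨m, ⟨v0, rfl⟩, hm⟩ := exists_max_image (range f) id hfin ⟨f v, v, rfl⟩
  have hmax : ∀ u, f u ≤ f v0 := fun u => hm (f u) ⟨u, rfl⟩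
  have hv0 : f v0 = 0 := by
    by_cases hv : v0 ∈ I
    · obtain ⟨b, hb, hp⟩ := hI v0 hv
      -- walk along the path
      have key : ∀ x, Relation.ReflTransGen (Step c) v0 x → f x = f v0 ∨ f v0 = 0 := by
        intro x hx
        induction hx with
        | refl => exact Or.inl rfl
        | @tail y z _ hs ih =>
          rcases ih with ih | ih
          · by_cases hy : y ∈ I
            · left
              rw [← ih]
              exact cA2_step hc (hf y hy) (fun u => by rw [ih]; exact hmax u) hs
            · right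
              rw [← ih]
              exact h0 y hy
          · exact Or.inr ih
      rcases key b hp with h | h
      · rw [← h]
        exact h0 b hb
      · exact h
    · exact h0 v0 hv
  rw [← hv0]
  exact hmax v

theorem cA2_zero_real (hc : Net c) {I : Set V} {f : V → ℝ} (hfin : (range f).Finite)
    (hI : ∀ v ∈ I, ∃ u, u ∉ I ∧ Relation.ReflTransGen (Step c) v u)
    (h0 : ∀ v, v ∉ I → f v = 0) (hf : ∀ v ∈ I, Harm c f v) (v : V) : f v = 0 := by
  refine le_antisymm (cA2_nonpos hc hfin hI h0 hf v) ?_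
  have h1 : (range fun u => - f u).Finite := by
    have : (range fun u => - f u) = (fun x => -x) '' range f := by
      rw [← range_comp]
      rfl
    rw [this]
    exact hfin.image _
  have h2 := cA2_nonpos hc (f := fun u => - f u) h1 hI (fun u hu => by
    simp [h0 u hu]) (fun u hu => by
      have h3 := hf u hu
      unfold Harm at h3 ⊢
      rw [cA2_sum hc] at h3 ⊢
      have : ∀ w ∈ (hc.fin u).toFinset, c u w • (- f w - - f u) = - (c u w • (f w - f u)) := by
        intro w _
        rw [← smul_neg]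
        congr 1
        ring
      rw [Finset.sum_congr rfl this, Finset.sum_neg_distrib, h3, neg_zero]) v
  linarith

theorem cA2_zero (hc : Net c) {I : Set V} {f : V → ℂ} (hfin : (range f).Finite)
    (hI : ∀ v ∈ I, ∃ u, u ∉ I ∧ Relation.ReflTransGen (Step c) v u)
    (h0 : ∀ v, v ∉ I → f v = 0) (hf : ∀ v ∈ I, Harm c f v) (v : V) : f v = 0 := by
  have h1 : ∀ v ∈ I, Harm c (fun u => (f u).re) v := by
    intro v hv
    have h3 := hf v hv
    unfold Harm at h3 ⊢
    rw [cA2_sum hc] at h3 ⊢
    have h4 := congrArg Complex.re h3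
    rw [Complex.re_sum, Complex.zero_re] at h4
    refine Eq.trans (Finset.sum_congr rfl (fun w _ => ?_)) h4
    simp
  have h2 : ∀ v ∈ I, Harm c (fun u => (f u).im) v := by
    intro v hv
    have h3 := hf v hv
    unfold Harm at h3 ⊢
    rw [cA2_sum hc] at h3 ⊢
    have h4 := congrArg Complex.im h3
    rw [Complex.im_sum, Complex.zero_im] at h4
    refine Eq.trans (Finset.sum_congr rfl (fun w _ => ?_)) h4
    simp
  have hr : (range fun u => (f u).re).Finite := by
    have : (range fun u => (f u).re) = Complex.re '' range f := by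
      rw [← range_comp]
      rfl
    rw [this]
    exact hfin.image _
  have hi : (range fun u => (f u).im).Finite := by
    have : (range fun u => (f u).im) = Complex.im '' range f := by
      rw [← range_comp]
      rfl
    rw [this]
    exact hfin.image _
  have hre := cA2_zero_real hc hr hI (fun v hv => by simp [h0 v hv]) h1 v
  have him := cA2_zero_real hc hi hI (fun v hv => by simp [h0 v hv]) h2 v
  exact Complex.ext hre him

end

theorem cA2 : Stmt_Dirichlet := by
  intro V H _ _ c hc hinv hfree a ha I hIinv hR hI ψ hψ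
  obtain ⟨R, hRfin, hR⟩ := hR
  classical
  have hIinv' : ∀ (h : H) (v : V), h • v ∈ I ↔ v ∈ I := by
    intro h v
    refine ⟨fun hv => ?_, fun hv => hIinv h v hv⟩
    have := hIinv h⁻¹ _ hv
    rwa [inv_smul_smul] at this
  -- the space of invariant functions supported on `I`
  let E : Submodule ℝ (V → ℂ) :=
    { carrier := {ξ | (∀ v, v ∉ I → ξ v = 0) ∧ ∀ (h : H) v, ξ (h • v) = ξ v}
      add_mem' := by
        rintro x y ⟨hx1, hx2⟩ ⟨hy1, hy2⟩
        exact ⟨fun v hv => by simp [hx1 v hv, hy1 v hv], fun h v => by simp [hx2, hy2]⟩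
      zero_mem' := ⟨fun v _ => rfl, fun h v => rfl⟩
      smul_mem' := by
        rintro r x ⟨hx1, hx2⟩
        exact ⟨fun v hv => by simp [hx1 v hv], fun h v => by simp [hx2]⟩ }
  have hE : ∀ ξ : V → ℂ, ξ ∈ E ↔ (∀ v, v ∉ I → ξ v = 0) ∧ ∀ (h : H) v, ξ (h • v) = ξ v :=
    fun ξ => Iff.rfl
  have hErange : ∀ ξ ∈ E, (range ξ).Finite := by
    intro ξ hξ
    refine ((hRfin.image ξ).insert 0).subset ?_
    rintro _ ⟨v, rfl⟩
    by_cases hv : v ∈ I
    · obtain ⟨h, r, hr, rfl⟩ := hR v hv
      right
      exact ⟨r, hr, (hξ.2 h r).symm⟩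
    · left
      exact hξ.1 v hv
  -- finite dimension
  have hfd : Module.Finite ℝ E := by
    have : Finite R := hRfin
    let ρ : E →ₗ[ℝ] (R → ℂ) :=
      { toFun := fun ξ r => (ξ : V → ℂ) r
        map_add' := fun x y => rfl
        map_smul' := fun r x => rfl }
    refine Module.Finite.of_injective ρ ?_
    rw [injective_iff_map_eq_zero]
    intro ξ hξ
    apply Subtype.ext
    funext v
    by_cases hv : v ∈ I
    · obtain ⟨h, r, hr, rfl⟩ := hR v hv
      rw [ξ.2.2 h r]
      exact congrFun hξ ⟨r, hr⟩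
    · exact ξ.2.1 v hv
  -- the operator
  have hLmem : ∀ φ : V → ℂ, (∀ (h : H) u v, φ (h • u) - φ (h • v) = φ u - φ v) →
      (fun v => if v ∈ I then ∑ᶠ u, c v u • (φ u - φ v) else 0) ∈ E := by
    intro φ hφ
    refine ⟨fun v hv => by simp [hv], fun h v => ?_⟩
    simp only [hIinv']
    by_cases hv : v ∈ I
    · rw [if_pos hv, if_pos hv, cA2_equiv hinv φ h (hφ h)]
    · rw [if_neg hv, if_neg hv]
  let L : E →ₗ[ℝ] E :=
    { toFun := fun ξ => ⟨fun v => if v ∈ I then ∑ᶠ u, c v u • ((ξ : V → ℂ) u - (ξ : V → ℂ) v) else 0,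
        hLmem ξ (fun h u v => by rw [ξ.2.2, ξ.2.2])⟩
      map_add' := by
        intro x y
        apply Subtype.ext
        funext v
        simp only [Submodule.coe_add, Pi.add_apply]
        by_cases hv : v ∈ I
        · simp only [if_pos hv]
          rw [cA2_sum hc (fun u => (x : V → ℂ) u + (y : V → ℂ) u), cA2_sum hc, cA2_sum hc,
            ← Finset.sum_add_distrib]
          refine Finset.sum_congr rfl (fun w _ => ?_)
          rw [← smul_add]
          congr 1
          ring
        · simp only [if_neg hv, add_zero]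
      map_smul' := by
        intro r x
        apply Subtype.ext
        funext v
        simp only [Submodule.coe_smul, Pi.smul_apply, RingHom.id_apply]
        by_cases hv : v ∈ I
        · simp only [if_pos hv]
          rw [cA2_sum hc (fun u => r • (x : V → ℂ) u), cA2_sum hc, Finset.smul_sum]
          refine Finset.sum_congr rfl (fun w _ => ?_)
          rw [← smul_sub, smul_comm]
        · simp only [if_neg hv, smul_zero] }
  have hLinj : Function.Injective L := by
    rw [injective_iff_map_eq_zero]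
    intro ξ hξ
    apply Subtype.ext
    funext v
    refine cA2_zero hc (hErange ξ ξ.2) hI ξ.2.1 (fun w hw => ?_) v
    have h1 := congrFun (congrArg Subtype.val hξ) w
    simp only [L, LinearMap.coe_mk, AddHom.coe_mk, if_pos hw] at h1
    exact h1
  have hLsurj : Function.Surjective L := LinearMap.injective_iff_surjective.1 hLinj
  -- an equivariant extension
  have hrep : ∀ v : V, ∃ h : H, v = h • (Quotient.mk (MulAction.orbitRel H V) v).out := by
    intro v
    have h1 : (MulAction.orbitRel H V) v (Quotient.mk (MulAction.orbitRel H V) v).out :=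
      (MulAction.orbitRel H V).symm (Quotient.mk_out (s := MulAction.orbitRel H V) v)
    rw [MulAction.orbitRel_apply] at h1
    obtain ⟨h, hh⟩ := h1
    exact ⟨h, hh.symm⟩
  choose g hg using hrep
  have hg2 : ∀ (h : H) (v : V), g (h • v) = h * g v := by
    intro h v
    have h1 : (Quotient.mk (MulAction.orbitRel H V) (h • v)) =
        Quotient.mk (MulAction.orbitRel H V) v := by
      refine Quotient.sound (s := MulAction.orbitRel H V) (?_ : (MulAction.orbitRel H V) (h • v) v)
      rw [MulAction.orbitRel_apply]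
      exact ⟨h, rfl⟩
    have h2 := hg (h • v)
    rw [h1] at h2
    have h3 := hg v
    generalize (Quotient.mk (MulAction.orbitRel H V) v).out = r at h2 h3
    have h6 : h • v = (h * g v) • r := by rw [mul_smul, ← h3]
    have h4 : (h * g v)⁻¹ • g (h • v) • r = r := by
      rw [← h2, h6, inv_smul_smul]
    rw [smul_smul] at h4
    have h5 := hfree _ _ h4
    rw [inv_mul_eq_one] at h5
    exact h5.symm
  set φ0 : V → ℂ := fun v => if v ∈ I then a (g v) else ψ v with hφ0
  have hφ0eq : ∀ (h : H) v, φ0 (h • v) = φ0 v + a h := by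
    intro h v
    simp only [hφ0, hIinv']
    by_cases hv : v ∈ I
    · rw [if_pos hv, if_pos hv, hg2, ha]
      ring
    · rw [if_neg hv, if_neg hv]
      exact hψ h v hv
  have hφ0out : ∀ v, v ∉ I → φ0 v = ψ v := fun v hv => by
    simp only [hφ0, if_neg hv]
  obtain ⟨ξ, hξ⟩ := hLsurj (-⟨_, hLmem φ0 (fun h u v => by rw [hφ0eq, hφ0eq]; ring)⟩)
  have hharm : ∀ v ∈ I, Harm c (fun u => φ0 u + (ξ : V → ℂ) u) v := by
    intro v hv
    have h1 := congrFun (congrArg Subtype.val hξ) v
    simp only [L, LinearMap.coe_mk, AddHom.coe_mk, if_pos hv, Submodule.coe_neg, Pi.neg_apply]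
      at h1
    unfold Harm
    rw [cA2_sum hc] at h1 ⊢
    rw [cA2_sum hc] at h1
    have h2 : ∀ w ∈ (hc.fin v).toFinset,
        c v w • (φ0 w + (ξ : V → ℂ) w - (φ0 v + (ξ : V → ℂ) v)) =
        c v w • ((ξ : V → ℂ) w - (ξ : V → ℂ) v) + c v w • (φ0 w - φ0 v) := by
      intro w _
      rw [← smul_add]
      congr 1
      ring
    rw [Finset.sum_congr rfl h2, Finset.sum_add_distrib, h1]
    simp
  refine ⟨fun v => φ0 v + (ξ : V → ℂ) v, fun v hv => ?_, hharm, fun h v => ?_, ?_⟩
  · simp only [hφ0out v hv, ξ.2.1 v hv, add_zero]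
  · simp only
    rw [hφ0eq, ξ.2.2]
    ring
  · intro φ' h1 h2 h3
    funext v
    have hmem : (fun u => φ' u - (φ0 u + (ξ : V → ℂ) u)) ∈ E := by
      refine ⟨fun u hu => ?_, fun h u => ?_⟩
      · simp only [h1 u hu, hφ0out u hu, ξ.2.1 u hu]
        ring
      · simp only
        rw [h3, hφ0eq, ξ.2.2]
        ring
    have h4 := cA2_zero hc (hErange _ hmem) hI hmem.1 (fun w hw => by
      have h5 := h2 w hw
      have h6 := hharm w hw
      unfold Harm at h5 h6 ⊢
      rw [cA2_sum hc] at h5 h6 ⊢
      have h7 : ∀ t ∈ (hc.fin w).toFinset,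
          c w t • (φ' t - (φ0 t + (ξ : V → ℂ) t) - (φ' w - (φ0 w + (ξ : V → ℂ) w))) =
          c w t • (φ' t - φ' w) -
            c w t • (φ0 t + (ξ : V → ℂ) t - (φ0 w + (ξ : V → ℂ) w)) := by
        intro t _
        rw [← smul_sub]
        congr 1
        ring
      rw [Finset.sum_congr rfl h7, Finset.sum_sub_distrib, h5, h6, sub_zero]) v
    exact sub_eq_zero.1 h4

end Pool.Agent.CT
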