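import Pool.Agent.CT.FDefs

set_option autoImplicit false

/-! # F12c: adjacency in the strip block -/

namespace Pool.Agent.CT

open Set

section

variable {V E F G : Type} [Group G] [MulAction G V] [MulAction G E] [MulAction G F]
  {M : PlaneMap V E F}

theorem fAdj_anti (X : FCtx M G) {a b : ℤ} (h : a ≤ b) : X.U b ⊆ X.U a := by
  obtain ⟨k, rfl⟩ := Int.le.dest h
  induction k with
  | zero => simp
  | succ k ih =>
    have h1 : a + ((k + 1 : ℕ) : ℤ) = (a + k) + 1 := by push_cast; ring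
    rw [h1]
    exact (X.seq.anti (a + k)).trans (ih (by omega))

/-- The strip face and the outside face of a line edge. -/
theorem fAdj_faces (h2 : Stmt_FVert) (X : FCtx M G) (m l : ℤ) (hl : l = m ∨ l = m + 1) (i : ℤ) :
    ∃ t d, t ∈ X.S m ∧ d ∈ (X.S m)ᶜ ∧ M.ef (X.L.y l i) t ∧ M.ef (X.L.y l i) d := by
  obtain ⟨-, -, -, hv4, -⟩ := h2 V E F G M X.Φ X.U X.seq X.L
  have hfr : X.L.y l i ∈ fr M.toInc (X.U l) :=
    ((X.L.line l).curve.mem _).2 ⟨i, rfl⟩
  have hve : M.ve (X.L.x l i) (X.L.y l i) :=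
    ((X.L.line l).curve.ve i _).2 (Or.inl rfl)
  obtain ⟨⟨f, hf, hef⟩, g, hg, heg⟩ := hfr
  have h4f := hv4 l i f ⟨_, hve, hef⟩
  have h4g := hv4 l i g ⟨_, hve, heg⟩
  rcases hl with rfl | rfl
  · exact ⟨f, g, ⟨hf, h4f.2⟩, fun h => hg h.1, hef, heg⟩
  · refine ⟨g, f, ⟨?_, hg⟩, fun h => h.2 hf, heg, hef⟩
    have := h4g.1
    rwa [add_sub_cancel_right] at this

/-- The run of the strip face of a line edge. -/
theorem fAdj_run (h1 : Stmt_FCyc) (h2 : Stmt_FVert) (h3 : Stmt_FaceCycle) (X : FCtx M G)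
    (m l : ℤ) (hl : l = m ∨ l = m + 1) (i : ℤ) :
    ∃ p q : ℤ, p ≤ i ∧ i < q ∧ ∃ (hp : X.InCV m (X.L.x l p)) (hq : X.InCV m (X.L.x l q)),
      (X.blk m).vadj.Adj ⟨X.L.x l p, hp⟩ ⟨X.L.x l q, hq⟩ ∧
      ∀ k, p < k → k < q → ¬ X.InCV m (X.L.x l k) := by
  obtain ⟨t, d, htS, hdS, het, hed⟩ := fAdj_faces h2 X m l hl i
  obtain ⟨-, hv2, -, -, -⟩ := h2 V E F G M X.Φ X.U X.seq X.L
  obtain ⟨n, xx, yy, hc⟩ := h3 V E F M.toPolyMap t
  have htD : t ∉ (X.S m)ᶜ := fun h => h htS
  have hlx : ∀ a b, X.L.x l a = X.L.x l b → a = b := by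
    intro a b h
    have := ((X.L.line l).curve.x_eq a b).1 h
    have h0 : a - b = 0 := by simpa using this
    omega
  have hn := hc.three
  have hxe := hc.curve.x_eq
  have hve := hc.curve.ve
  have hlve := (X.L.line l).curve.ve
  -- the line edge is an edge of `t`
  obtain ⟨j, hj⟩ := (hc.curve.mem (X.L.y l i)).1 het
  rcases (h1 V E F G M X m).2 ⟨t, htD⟩ n xx yy hc with ⟨hno, -⟩ | ⟨a, r, l', i0, κ, hl', hκ, hr1,
    hrn, hrun, htouch, x', y', hc', hx'⟩
  · exact absurd ⟨d, hdS, hj ▸ hed⟩ (hno j)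
  · have hT : ∀ v, M.ve v (yy j) → Touch M.toInc (X.S m)ᶜ v := fun v hv =>
      ⟨d, hdS, ⟨yy j, hv, hj ▸ hed⟩⟩
    obtain ⟨k1, hk1, hd1⟩ := (htouch j).1 (hT _ ((hve j _).2 (Or.inl rfl)))
    obtain ⟨k2, hk2, hd2⟩ := (htouch (j + 1)).1 (hT _ ((hve j _).2 (Or.inr rfl)))
    have hk12 : (k2 : ℤ) = k1 + 1 := by
      have h5 : (n : ℤ) ∣ 1 + k1 - k2 := by
        have := dvd_sub hd2 hd1
        have h6 : j + 1 - (a + (k2 : ℤ)) - (j - (a + (k1 : ℤ))) = 1 + k1 - k2 := by ring
        rwa [h6] at this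
      rcases lt_trichotomy (1 + (k1 : ℤ) - k2) 0 with h | h | h
      · have := Int.le_of_dvd (by omega) ((dvd_neg).2 h5)
        omega
      · omega
      · have := Int.le_of_dvd h h5
        omega
    have e1 : xx j = X.L.x l' (i0 + κ * k1) := by
      rw [← hrun k1 hk1]
      exact (hxe _ _).2 hd1
    have e2 : xx (j + 1) = X.L.x l' (i0 + κ * k2) := by
      rw [← hrun k2 hk2]
      exact (hxe _ _).2 hd2
    -- compare the ends
    have hends : ∀ v, (v = xx j ∨ v = xx (j + 1)) ↔ (v = X.L.x l i ∨ v = X.L.x l (i + 1)) := by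
      intro v
      rw [← hve j v, hj]
      exact hlve i v
    have hll : l' = l := by
      have := (hends _).1 (Or.inl rfl)
      rw [e1] at this
      rcases this with h | h
      · exact hv2 _ _ _ _ h
      · exact hv2 _ _ _ _ h
    subst hll
    have f1 : i = i0 + κ * k1 ∨ i = i0 + κ * k2 := by
      rcases (hends _).2 (Or.inl rfl) with h | h
      · left; rw [e1] at h; exact hlx _ _ h
      · right; rw [e2] at h; exact hlx _ _ h
    have f2 : i + 1 = i0 + κ * k1 ∨ i + 1 = i0 + κ * k2 := by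
      rcases (hends _).2 (Or.inr rfl) with h | h
      · left; rw [e1] at h; exact hlx _ _ h
      · right; rw [e2] at h; exact hlx _ _ h
    -- the ends of the run
    have hN : ((n + 1 - r : ℕ) : ℤ) = n + 1 - r := by omega
    have hx0 : (x' 0).1 = X.L.x l' (i0 + κ * r) := by
      have := hx' 0 (by omega)
      rw [Nat.cast_zero] at this
      rw [this, ← hrun r le_rfl]
      simp
    have hx1 : (x' (n - r : ℕ)).1 = X.L.x l' i0 := by
      have h5 := hx' (n - r) (by omega)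
      rw [h5]
      have h6 := hrun 0 (by omega)
      simp only [Nat.cast_zero, add_zero, mul_zero] at h6
      rw [← h6]
      refine (hxe _ _).2 ⟨1, ?_⟩
      have : ((n - r : ℕ) : ℤ) = n - r := by omega
      rw [this]; ring
    have hadj : (X.blk m).vadj.Adj (x' (n - r : ℕ)) (x' 0) := by
      refine ⟨?_, y' (n - r : ℕ), (hc'.curve.ve _ _).2 (Or.inl rfl),
        (hc'.curve.ve _ _).2 (Or.inr ?_)⟩
      · intro h
        have h5 := (hc'.curve.x_eq _ _).1 h
        rw [hN] at h5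
        have := Int.le_of_dvd (by omega) h5
        omega
      · refine (hc'.curve.x_eq _ _).2 ?_
        rw [hN]
        exact ⟨-1, by omega⟩
    have hin0 : X.InCV m (X.L.x l' (i0 + κ * r)) := hx0 ▸ (x' 0).2
    have hin1 : X.InCV m (X.L.x l' i0) := hx1 ▸ (x' (n - r : ℕ)).2
    have hadj1 : (X.blk m).vadj.Adj ⟨X.L.x l' i0, hin1⟩ ⟨X.L.x l' (i0 + κ * r), hin0⟩ := by
      have g1 : x' (n - r : ℕ) = ⟨X.L.x l' i0, hin1⟩ := Subtype.ext hx1
      have g0 : x' 0 = ⟨X.L.x l' (i0 + κ * r), hin0⟩ := Subtype.ext hx0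
      rw [← g1, ← g0]
      exact hadj
    -- inner vertices of the run
    have hinner : ∀ k : ℕ, 0 < k → k < r → ¬ X.InCV m (X.L.x l' (i0 + κ * k)) := by
      intro k hk0 hkr hin
      have hxk := hrun k hkr.le
      have hvf : M.vf (X.L.x l' (i0 + κ * k)) t := by
        rw [← hxk]
        exact ⟨yy (a + k), (hve _ _).2 (Or.inl rfl), (hc.curve.mem _).2 ⟨_, rfl⟩⟩
      have htc : Touch M.toInc (X.S m)ᶜ (X.L.x l' (i0 + κ * k)) := by
        rw [← hxk]
        exact (htouch _).2 ⟨k, hkr.le, by simp⟩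
      let v : CV M.toInc (X.S m)ᶜ := ⟨X.L.x l' (i0 + κ * k), hin⟩
      let e : CE M.toInc (X.S m)ᶜ := Sum.inr ⟨t, htD, X.L.y l' i, het, d, hdS, hed⟩
      have hve' : (X.blk m).ve v e := ⟨hvf, htc⟩
      have hef' : (X.blk m).ef e ⟨t, htD⟩ := rfl
      obtain ⟨j1, hj1⟩ := (hc'.curve.mem e).1 hef'
      have h7 : ∃ j2, v = x' j2 := by
        rw [← hj1] at hve'
        rcases (hc'.curve.ve j1 v).1 hve' with h | h
        · exact ⟨_, h⟩
        · exact ⟨_, h⟩
      obtain ⟨j2, hj2⟩ := h7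
      -- reduce the index
      have hNpos : (0 : ℤ) < ((n + 1 - r : ℕ) : ℤ) := by omega
      obtain ⟨j3, hj3⟩ : ∃ j3 : ℕ, (j3 : ℤ) = j2 % ((n + 1 - r : ℕ) : ℤ) :=
        ⟨(j2 % ((n + 1 - r : ℕ) : ℤ)).toNat, Int.toNat_of_nonneg (Int.emod_nonneg _ hNpos.ne')⟩
      have hj3lt : j3 < n + 1 - r := by
        have := Int.emod_lt_of_pos j2 hNpos
        omega
      have hj4 : x' j2 = x' j3 := by
        refine (hc'.curve.x_eq _ _).2 ?_
        rw [hj3]
        refine ⟨j2 / ((n + 1 - r : ℕ) : ℤ), ?_⟩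
        have := Int.emod_add_mul_ediv j2 ((n + 1 - r : ℕ) : ℤ)
        linarith
      have h8 : X.L.x l' (i0 + κ * k) = xx (a + r + j3) := by
        rw [← hx' j3 hj3lt, ← hj4, ← hj2]
      rw [← hxk] at h8
      have h9 := (hxe _ _).1 h8
      have h10 : (n : ℤ) ∣ (r + j3 - k : ℤ) := by
        have := (dvd_neg).2 h9
        have h11 : -(a + (k : ℤ) - (a + (r : ℤ) + (j3 : ℤ))) = (r + j3 - k : ℤ) := by ring
        rwa [h11] at this
      have := Int.le_of_dvd (by omega) h10
      omega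
    rcases hκ with rfl | rfl
    · refine ⟨i0, i0 + 1 * r, ?_, ?_, hin1, hin0, hadj1, ?_⟩
      · omega
      · omega
      · intro k hk1' hk2' hk3
        have := hinner (k - i0).toNat (by omega) (by omega)
        apply this
        have h12 : i0 + 1 * (((k - i0).toNat : ℕ) : ℤ) = k := by omega
        rw [h12]
        exact hk3
    · refine ⟨i0 + -1 * r, i0, ?_, ?_, hin0, hin1, hadj1.symm, ?_⟩
      · omega
      · omega
      · intro k hk1' hk2' hk3
        have := hinner (i0 - k).toNat (by omega) (by omega)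
        apply this
        have h12 : i0 + -1 * (((i0 - k).toNat : ℕ) : ℤ) = k := by omega
        rw [h12]
        exact hk3

end

/-- F12c: adjacency in the strip block. -/
theorem fAdj (h1 : Stmt_FCyc) (h2 : Stmt_FVert) (h3 : Stmt_FaceCycle) : Stmt_FAdj := by
  intro V E F G _ _ _ _ M X m
  obtain ⟨hv1, hv2, hv3, hv4, hv5⟩ := h2 V E F G M X.Φ X.U X.seq X.L
  refine ⟨?_, ?_, ?_⟩
  · -- inner vertices
    intro v hv
    have hall : ∀ f, M.vf v.1 f → f ∈ X.S m := by
      obtain ⟨m', hm'⟩ := hv3 v.1 hv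
      obtain ⟨f, g, -, hf, -, hvf, -⟩ := v.2
      have hf : f ∈ X.S m := not_not.1 hf
      have hf' := hm' f hvf
      have hmm : m' = m := by
        rcases lt_trichotomy m' m with h | h | h
        · exact absurd (fAdj_anti X (show m' + 1 ≤ m by omega) hf.1) hf'.2
        · exact h
        · exact absurd (fAdj_anti X (show m + 1 ≤ m' by omega) hf'.1) hf.2
      subst hmm
      exact hm'
    constructor
    · rintro u ⟨hne, e, hve, hue⟩
      have hfS : ∀ f, M.ef e f → f ∈ X.S m := fun f hf => hall f ⟨e, hve, hf⟩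
      obtain ⟨f, g, hfg, hef⟩ := M.edge_faces e
      have hf : M.ef e f := (hef f).2 (Or.inl rfl)
      have hg : M.ef e g := (hef g).2 (Or.inr rfl)
      have hu : X.InCV m u := ⟨f, g, hfg, fun h => h (hfS f hf), fun h => h (hfS g hg),
        ⟨e, hue, hf⟩, ⟨e, hue, hg⟩⟩
      refine ⟨hu, fun h => hne (by rw [h]), Sum.inl ⟨e, fun f hf h => h (hfS f hf)⟩, hve, hue⟩
    · rintro u ⟨hne, e, hve, hue⟩
      refine ⟨fun h => hne (Subtype.ext h), ?_⟩
      rcases e with e | f
      · exact ⟨e.1, hve, hue⟩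
      · obtain ⟨-, d, hd, hvd⟩ := hve
        exact absurd (hall d hvd) hd
  · -- line vertices
    intro v hv
    have hex : ∃ l i, v.1 = X.L.x l i := by
      by_contra hcon
      push Not at hcon
      exact hv hcon
    obtain ⟨l, i, hli⟩ := hex
    obtain ⟨f, g, -, hf, -, hvf, -⟩ := v.2
    have hf : f ∈ X.S m := not_not.1 hf
    have h4 := hv4 l i f (hli ▸ hvf)
    refine ⟨l, i, ?_, hli⟩
    have h5 : ¬ l + 1 ≤ m := fun h => h4.2 (fAdj_anti X h hf.1)
    have h6 : ¬ m + 1 ≤ l - 1 := fun h => hf.2 (fAdj_anti X h h4.1)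
    omega
  · intro l hl
    have hrun := fAdj_run h1 h2 h3 X m l hl
    have hnext : ∀ i (hi : X.InCV m (X.L.x l i)), ∃ j, ∃ hj : X.InCV m (X.L.x l j), i < j ∧
        (X.blk m).vadj.Adj ⟨X.L.x l i, hi⟩ ⟨X.L.x l j, hj⟩ ∧
        ∀ k, i < k → k < j → ¬ X.InCV m (X.L.x l k) := by
      intro i hi
      obtain ⟨p, q, hp1, hq1, hp, hq, hadj, hno⟩ := hrun i
      have hpi : p = i := by
        by_contra hne
        exact hno i (by omega) hq1 hi
      subst hpi
      exact ⟨q, hq, hq1, hadj, hno⟩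
    refine ⟨?_, ?_, ?_⟩
    · intro i
      obtain ⟨p, q, hp1, hq1, hp, hq, -, -⟩ := hrun i
      exact ⟨⟨q, hq1.le, hq⟩, p, hp1, hp⟩
    · intro i hi
      constructor
      · obtain ⟨j, hj, h4, h5, -⟩ := hnext i hi
        exact ⟨j, hj, h4, h5⟩
      · obtain ⟨p, q, hp1, hq1, hp, hq, hadj, hno⟩ := hrun (i - 1)
        have hqi : q = i := by
          by_contra hne
          exact hno i (by omega) (by omega) hi
        subst hqi
        exact ⟨p, hp, by omega, hadj.symm⟩
    · have key : ∀ (n : ℕ) i j (hi : X.InCV m (X.L.x l i)) (hj : X.InCV m (X.L.x l j)), i ≤ j →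
          j - i ≤ n → ReachIn (X.blk m).vadj {v | ∃ k, i ≤ k ∧ k ≤ j ∧ v.1 = X.L.x l k}
            ⟨X.L.x l i, hi⟩ ⟨X.L.x l j, hj⟩ := by
        intro n
        induction n with
        | zero =>
          intro i j hi hj hij hn
          have : i = j := by simp at hn; omega
          subst this
          exact ReachIn.refl _
        | succ n ih =>
          intro i j hi hj hij hn
          rcases eq_or_lt_of_le hij with rfl | hlt
          · exact ReachIn.refl _
          obtain ⟨q, hq, hiq, hadj, hno⟩ := hnext i hi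
          have hqj : q ≤ j := by
            by_contra hcon
            exact hno j hlt (by omega) hj
          have h5 := ih q j hq hj hqj (by push_cast at hn ⊢; omega)
          refine (ReachIn.single hadj ?_ ?_).trans (h5.mono ?_)
          · exact ⟨i, le_rfl, hij, rfl⟩
          · exact ⟨q, hiq.le, hqj, rfl⟩
          · rintro v ⟨k, hk1, hk2, hk3⟩
            exact ⟨k, by omega, hk2, hk3⟩
      intro i j hi hj hij
      exact key (j - i).toNat i j hi hj hij (by omega)

end Pool.Agent.CT
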