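import Pool.Agent.CT.FDefs

set_option autoImplicit false

/-! # F12d: the strip block is connected -/

namespace Pool.Agent.CT

open Set Metric

section fConn

variable {V E F G : Type} [Group G] [MulAction G V] [MulAction G E] [MulAction G F]
  {M : PlaneMap V E F}

/-- Adjacent vertices have two common faces. -/
theorem fConn_common {u v : V} (h : M.vadj.Adj u v) :
    ∃ f g, f ≠ g ∧ M.vf u f ∧ M.vf u g ∧ M.vf v f ∧ M.vf v g := by
  obtain ⟨_, e, h1, h2⟩ := h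
  obtain ⟨f, g, hfg, hfaces⟩ := M.edge_faces e
  have hf : M.ef e f := (hfaces f).2 (Or.inl rfl)
  have hg : M.ef e g := (hfaces g).2 (Or.inr rfl)
  exact ⟨f, g, hfg, ⟨e, h1, hf⟩, ⟨e, h1, hg⟩, ⟨e, h2, hf⟩, ⟨e, h2, hg⟩⟩

theorem fConn_anti (X : FCtx M G) {m m' : ℤ} (h : m ≤ m') : X.U m' ⊆ X.U m :=
  antitone_int_of_succ_le X.seq.anti h

/-- A vertex with all faces in the strip is on no line. -/
theorem fConn_inner (hV : Stmt_FVert) (X : FCtx M G) (m : ℤ) (v : V)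
    (h : ∀ f, M.vf v f → f ∈ X.S m) : X.Inner v := by
  obtain ⟨h1, -, -, -, -⟩ := hV V E F G M X.Φ X.U X.seq X.L
  intro l i hv
  obtain ⟨⟨f, hf, hvf⟩, ⟨g, hg, hvg⟩⟩ := (h1 v l).1 ⟨i, hv⟩
  have hfS := h f hvf
  have hgS := h g hvg
  rcases le_or_gt l m with hl | hl
  · exact hg (fConn_anti X hl hgS.1)
  · exact hfS.2 (fConn_anti X (by omega : m + 1 ≤ l) hf)

/-- From an inner block vertex one reaches a line vertex of the block. -/
theorem fConn_reach (hA : Stmt_FAdj) (X : FCtx M G) (m : ℤ) (v : CV M.toInc (X.S m)ᶜ) :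
    ∃ u : CV M.toInc (X.S m)ᶜ, ¬ X.Inner u.1 ∧ ReachIn (X.blk m).vadj univ v u := by
  obtain ⟨hA1, -, -⟩ := hA V E F G M X m
  by_cases hv : X.Inner v.1
  · have key : ∀ b, ReachIn M.vadj univ v.1 b →
        (∃ u : CV M.toInc (X.S m)ᶜ, ¬ X.Inner u.1 ∧ ReachIn (X.blk m).vadj univ v u) ∨
        ∃ h : X.InCV m b, X.Inner b ∧ ReachIn (X.blk m).vadj univ v ⟨b, h⟩ := by
      intro b hb
      induction hb with
      | refl => exact Or.inr ⟨v.2, hv, ReachIn.refl _⟩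
      | @tail c d _ h1 ih =>
        rcases ih with h | ⟨hc, hci, hr⟩
        · exact Or.inl h
        · obtain ⟨hd, hadj⟩ := (hA1 ⟨c, hc⟩ hci).1 d h1.1
          have hr' : ReachIn (X.blk m).vadj univ v ⟨d, hd⟩ :=
            hr.tail hadj (mem_univ _) (mem_univ _)
          by_cases hdi : X.Inner d
          · exact Or.inr ⟨hd, hdi, hr'⟩
          · exact Or.inl ⟨⟨d, hd⟩, hdi, hr'⟩
    rcases key (X.L.x m 0) (M.vconn v.1 (mem_univ _) _ (mem_univ _)) with h | ⟨_, h, _⟩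
    · exact h
    · exact absurd rfl (h m 0)
  · exact ⟨v, hv, ReachIn.refl _⟩

/-- The two lines of the strip are joined inside the block. -/
theorem fConn_cross (hA : Stmt_FAdj) (hV : Stmt_FVert) (X : FCtx M G) (m : ℤ) :
    ∃ u u' : CV M.toInc (X.S m)ᶜ, (∃ i, u.1 = X.L.x m i) ∧ (∃ i, u'.1 = X.L.x (m + 1) i) ∧
      ReachIn (X.blk m).vadj univ u u' := by
  obtain ⟨hA1, -, -⟩ := hA V E F G M X m
  obtain ⟨h1, h2, -, h4, -⟩ := hV V E F G M X.Φ X.U X.seq X.L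
  -- a vertex of line `m` and a vertex of line `m + 1` are not adjacent
  have hfar : ∀ b c i j, b = X.L.x m i → c = X.L.x (m + 1) j → ¬ M.vadj.Adj b c := by
    intro b c i j hb hc hadj
    obtain ⟨t, _, _, hbt, _, hct, _⟩ := fConn_common hadj
    obtain ⟨-, ⟨g, hg, hbg⟩⟩ := (h1 b m).1 ⟨i, hb⟩
    obtain ⟨⟨f, hf, hcf⟩, -⟩ := (h1 c (m + 1)).1 ⟨j, hc⟩
    exact X.seq.far m f hf g hg t ⟨c, hcf, hct⟩ ⟨b, hbt, hbg⟩
  have key : ∀ b, ReachIn M.vadj univ (X.L.x m 0) b →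
      (∃ u u' : CV M.toInc (X.S m)ᶜ, (∃ i, u.1 = X.L.x m i) ∧ (∃ i, u'.1 = X.L.x (m + 1) i) ∧
        ReachIn (X.blk m).vadj univ u u') ∨
      (∃ i, b = X.L.x m i) ∨ (∀ f, M.vf b f → f ∉ X.U m) ∨
      ((∀ f, M.vf b f → f ∈ X.S m) ∧ ∃ (h : X.InCV m b) (u : CV M.toInc (X.S m)ᶜ),
        (∃ i, u.1 = X.L.x m i) ∧ ReachIn (X.blk m).vadj univ u ⟨b, h⟩) := by
    intro b hb
    induction hb with
    | refl => exact Or.inr (Or.inl ⟨0, rfl⟩)
    | @tail b c _ hbc ih =>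
      obtain ⟨t, t', htt, hbt, hbt', hct, hct'⟩ := fConn_common hbc.1
      by_cases hc1 : ∃ i, c = X.L.x m i
      · exact Or.inr (Or.inl hc1)
      by_cases hc2 : ∀ f, M.vf c f → f ∉ X.U m
      · exact Or.inr (Or.inr (Or.inl hc2))
      -- all faces of `c` are in `U m`
      have hcU : ∀ f, M.vf c f → f ∈ X.U m := by
        intro f hf
        by_contra hfU
        push Not at hc2
        obtain ⟨g, hg, hgU⟩ := hc2
        exact hc1 ((h1 c m).2 ⟨⟨g, hgU, hg⟩, ⟨f, hfU, hf⟩⟩)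
      rcases ih with h | ⟨i, hb⟩ | hb | ⟨hbS, hbC, u, hu, hr⟩
      · exact Or.inl h
      · -- `b` on line `m`
        have hc3 : ∀ f, M.vf c f → f ∈ X.S m := by
          intro f hf
          refine ⟨hcU f hf, fun hfU => ?_⟩
          by_cases hc4 : ∃ j, c = X.L.x (m + 1) j
          · obtain ⟨j, hj⟩ := hc4
            exact hfar b c i j hb hj hbc.1
          · have htU : t ∉ X.U (m + 1) := (h4 m i t (hb ▸ hbt)).2
            exact hc4 ((h1 c (m + 1)).2 ⟨⟨f, hfU, hf⟩, ⟨t, htU, hct⟩⟩)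
        have hcC : X.InCV m c :=
          ⟨t, t', htt, not_not.2 (hc3 t hct), not_not.2 (hc3 t' hct'), hct, hct'⟩
        obtain ⟨hbC, hadj⟩ := (hA1 ⟨c, hcC⟩ (fConn_inner hV X m c hc3)).1 b hbc.1.symm
        exact Or.inr (Or.inr (Or.inr ⟨hc3, hcC, ⟨b, hbC⟩, ⟨i, hb⟩,
          ReachIn.single hadj.symm (mem_univ _) (mem_univ _)⟩))
      · exact absurd (hcU t hct) (hb t hbt)
      · -- `b` inside
        obtain ⟨hcC, hadj⟩ := (hA1 ⟨b, hbC⟩ (fConn_inner hV X m b hbS)).1 c hbc.1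
        have hr' : ReachIn (X.blk m).vadj univ u ⟨c, hcC⟩ :=
          hr.tail hadj (mem_univ _) (mem_univ _)
        by_cases hc4 : ∃ j, c = X.L.x (m + 1) j
        · exact Or.inl ⟨u, ⟨c, hcC⟩, hu, hc4, hr'⟩
        · refine Or.inr (Or.inr (Or.inr ⟨fun f hf => ⟨hcU f hf, fun hfU => ?_⟩, hcC, u, hu, hr'⟩))
          exact hc4 ((h1 c (m + 1)).2 ⟨⟨f, hfU, hf⟩, ⟨t, (hbS t hbt).2, hct⟩⟩)
  rcases key (X.L.x (m + 1) 0) (M.vconn _ (mem_univ _) _ (mem_univ _)) with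
    h | ⟨i, hi⟩ | h | ⟨h, -⟩
  · exact h
  · have := h2 _ _ _ _ hi
    omega
  · obtain ⟨⟨f, hf, hvf⟩, -⟩ := (h1 (X.L.x (m + 1) 0) (m + 1)).1 ⟨0, rfl⟩
    exact absurd (X.seq.anti m hf) (h f hvf)
  · obtain ⟨⟨f, hf, hvf⟩, -⟩ := (h1 (X.L.x (m + 1) 0) (m + 1)).1 ⟨0, rfl⟩
    exact absurd hf (h f hvf).2

/-- Two block vertices on the same line are joined. -/
theorem fConn_line (hA : Stmt_FAdj) (X : FCtx M G) (m l : ℤ) (hl : l = m ∨ l = m + 1)
    (u v : CV M.toInc (X.S m)ᶜ) (hu : ∃ i, u.1 = X.L.x l i) (hv : ∃ i, v.1 = X.L.x l i) :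
    ReachIn (X.blk m).vadj univ u v := by
  obtain ⟨-, -, hA3⟩ := hA V E F G M X m
  obtain ⟨-, -, h⟩ := hA3 l hl
  obtain ⟨u, hu'⟩ := u
  obtain ⟨v, hv'⟩ := v
  obtain ⟨i, hi⟩ := hu
  obtain ⟨j, hj⟩ := hv
  simp only at hi hj
  subst hi hj
  rcases le_total i j with hij | hij
  · exact (h i j hu' hv' hij).mono (subset_univ _)
  · exact ((h j i hv' hu' hij).mono (subset_univ _)).symm

end fConn

theorem fConn (hA : Stmt_FAdj) (hV : Stmt_FVert) : Stmt_FConn := by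
  intro V E F G _ _ _ _ M X m
  obtain ⟨-, hA2, -⟩ := hA V E F G M X m
  obtain ⟨u₀, u₁, hu₀, hu₁, hr⟩ := fConn_cross hA hV X m
  refine ConnIn.of_base u₀ fun b _ => ?_
  obtain ⟨u, hu, hbu⟩ := fConn_reach hA X m b
  obtain ⟨l, i, hl, hi⟩ := hA2 u hu
  refine ReachIn.trans ?_ hbu.symm
  rcases hl with hl | hl
  · exact fConn_line hA X m m (Or.inl rfl) u₀ u hu₀ ⟨i, hl ▸ hi⟩
  · exact hr.trans (fConn_line hA X m (m + 1) (Or.inr rfl) u₁ u hu₁ ⟨i, hl ▸ hi⟩)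

end Pool.Agent.CT
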