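import Pool.Agent.CT.FDefs

set_option autoImplicit false

/-! # FCut: bi-tight cuts near the ends -/

namespace Pool.Agent.CT

open Set Metric

section graph

variable {α : Type} {G : SimpleGraph α} {O : Set α} {Ed : ℕ → Set α}

theorem fCut_sub (hE : IsEnd G Ed) (hO : ∃ j, Ed j ⊆ O) (t : α) : ∃ j, Ed j ⊆ O \ {t} := by
  obtain ⟨j0, hj0⟩ := hO
  obtain ⟨j1, hj1⟩ := hE.fin t
  refine ⟨max j0 j1, fun x hx => ⟨hj0 (hE.anti (le_max_left _ _) hx), ?_⟩⟩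
  intro hxt
  rw [mem_singleton_iff] at hxt
  subst hxt
  exact hj1 (hE.anti (le_max_right _ _) hx)

theorem fCut_core {Z A : Set α} (hA : ConnIn G A) (hne : A.Nonempty) (hAZ : A ⊆ Z)
    (h : ∀ x ∈ Z, x ∉ A → ∃ w ∈ A, ReachIn G Z w x) : ConnIn G Z := by
  obtain ⟨a, ha⟩ := hne
  refine ConnIn.of_base a fun b hb => ?_
  by_cases hbA : b ∈ A
  · exact (hA a ha b hbA).mono hAZ
  · obtain ⟨w, hw, hwb⟩ := h b hb hbA
    exact ((hA a ha w hw).mono hAZ).trans hwb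

/-- a finite path avoids a late member of the end -/
theorem fCut_avoid (hE : IsEnd G Ed) {a b : α} (h : ReachIn G univ a b) :
    ∃ n, ReachIn G (Ed n)ᶜ a b := by
  induction h with
  | refl => exact ⟨0, ReachIn.refl _⟩
  | @tail c d h0 h1 ih =>
    obtain ⟨n, hn⟩ := ih
    obtain ⟨n1, hn1⟩ := hE.fin c
    obtain ⟨n2, hn2⟩ := hE.fin d
    refine ⟨max n (max n1 n2), ?_⟩
    have e1 : (Ed n)ᶜ ⊆ (Ed (max n (max n1 n2)))ᶜ :=
      compl_subset_compl.2 (hE.anti (le_max_left _ _))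
    refine (hn.mono e1).tail h1.1 ?_ ?_
    · exact fun hc => hn1 (hE.anti ((le_max_left _ _).trans (le_max_right _ _)) hc)
    · exact fun hc => hn2 (hE.anti ((le_max_right _ _).trans (le_max_right _ _)) hc)

/-- the points outside a component of the complement of a connected set -/
theorem fCut_compl (hF : ConnIn G univ) {P : Set α} (hP : ConnIn G P) (hne : P.Nonempty)
    {y : α} (hy : y ∉ P) : ConnIn G (compIn G Pᶜ y)ᶜ := by
  have hsub : P ⊆ (compIn G Pᶜ y)ᶜ := fun x hx hc => compIn_subset (Z := Pᶜ) hy hc hx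
  refine fCut_core hP hne hsub fun x hx hxP => ?_
  have hxP' : x ∈ Pᶜ := hxP
  -- the component of `x`
  have hC : compIn G Pᶜ x ⊆ (compIn G Pᶜ y)ᶜ := by
    intro z hz hz'
    exact hx (ReachIn.trans hz' (ReachIn.symm hz))
  obtain ⟨q, hq⟩ := hne
  have hqC : q ∉ compIn G Pᶜ x := fun hc => compIn_subset (Z := Pᶜ) hxP' hc hq
  have hneq : compIn G Pᶜ x ≠ univ := fun hc => hqC (hc ▸ mem_univ q)
  obtain ⟨u, hu, v, -, hv, huv⟩ := ConnIn.exists_adj hF (subset_univ _) ⟨x, mem_compIn_self x⟩ hneq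
  have hvP : v ∈ P := by
    by_contra hcon
    have huP : u ∈ Pᶜ := compIn_subset (Z := Pᶜ) hxP' hu
    exact hv (compIn_closed u hu v hcon huv huP)
  refine ⟨v, hvP, ?_⟩
  have h1 : ReachIn G (compIn G Pᶜ y)ᶜ x u := (ReachIn.inComp hu).mono hC
  exact (h1.tail huv (hC hu) (hsub hvP)).symm

end graph

section action

variable {V E F G : Type} [Group G] [MulAction G V] [MulAction G E] [MulAction G F]
  {M : Inc V E F}

theorem fCut_adj (hE : Equiv M G) (g : G) {x y : F} (h : M.fadj.Adj x y) :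
    M.fadj.Adj (g • x) (g • y) := by
  obtain ⟨hne, e, he1, he2⟩ := h
  exact ⟨fun h => hne (smul_left_cancel g h), g • e, hE.ef g e x he1, hE.ef g e y he2⟩

theorem fCut_reach (hE : Equiv M G) (g : G) {Z Z' : Set F} (hZ : ∀ z ∈ Z, g • z ∈ Z') {x y : F}
    (h : ReachIn M.fadj Z x y) : ReachIn M.fadj Z' (g • x) (g • y) :=
  ReachIn.map (f := fun f => g • f) h fun a ha b hb hab =>
    ReachIn.single (fCut_adj hE g hab) (hZ a ha) (hZ b hb)

theorem fCut_block (hE : Equiv M G) {p : G → Prop} (hp : ∀ g, p g → p g⁻¹) {O : Set F}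
    {Ed : ℕ → Set F} (hO : ∀ g f, p g → f ∈ O → g • f ∈ O)
    (hEd : ∀ g, p g → ∀ k f, f ∈ Ed k → g • f ∈ Ed k) (g : G) (hg : p g) {x : F}
    (hx : x ∈ mainBlock M.fadj O Ed) : g • x ∈ mainBlock M.fadj O Ed := by
  refine ⟨hO g x hg hx.1, fun t ht htx => ?_⟩
  have ht' : g⁻¹ • t ∈ O := hO g⁻¹ t (hp g hg) ht
  have htx' : g⁻¹ • t ≠ x := by
    rintro rfl
    exact htx (by rw [smul_inv_smul])
  obtain ⟨j, hj, y, hy, hr⟩ := hx.2 _ ht' htx'
  have hmap : ∀ z ∈ O \ {g⁻¹ • t}, g • z ∈ O \ {t} := by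
    rintro z ⟨hz, hzt⟩
    refine ⟨hO g z hg hz, fun hc => hzt ?_⟩
    rw [mem_singleton_iff] at hc ⊢
    rw [← hc, inv_smul_smul]
  refine ⟨j, fun z hz => ?_, g • y, hEd g hg j y hy, fCut_reach hE g hmap hr⟩
  have := hmap _ (hj (hEd g⁻¹ (hp g hg) j z hz))
  rwa [smul_inv_smul] at this

end action

theorem fCut_key (h10 : Stmt_MainBlock) (h11 : Stmt_MainBlockCompl) (h13 : Stmt_BiTight)
    (h12 : Stmt_Ring) {V E F G : Type} [Group G] [MulAction G V] [MulAction G E]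
    [MulAction G F] (M : PlaneMap V E F) (hE : Equiv M.toInc G) (p : G → Prop)
    (hp : ∀ g, p g → p g⁻¹) (U L : ℕ → Set F) (hU : IsEnd M.fadj U) (hL : IsEnd M.fadj L)
    (hUi : ∀ g, p g → ∀ k f, f ∈ U k → g • f ∈ U k)
    (hLi : ∀ g, p g → ∀ k f, f ∈ L k → g • f ∈ L k)
    (far : ∀ k, ∃ j, ∀ f ∈ U j, ∀ g, g ∉ U k → ¬ FTouch M.toInc f g)
    (sep : ∃ J, Disjoint (U 0) (L J))
    (orb : ∀ k, ∃ W : Set F, W.Finite ∧ ∀ f, f ∉ U k → f ∉ L k →
      ∃ g, p g ∧ ∃ w ∈ W, f = g • w) (m : ℕ) :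
    ∃ A : Set F, ConnIn M.fadj A ∧ ConnIn M.fadj Aᶜ ∧ (∀ t, ConnIn M.fadj (A \ {t})) ∧
      (∀ t, ConnIn M.fadj (Aᶜ \ {t})) ∧ (∀ g f, p g → f ∈ A → g • f ∈ A) ∧
      (∃ j, U j ⊆ A) ∧ (∃ j, L j ⊆ Aᶜ) ∧ A ⊆ U m := by
  obtain ⟨J, hJ⟩ := sep
  have hLU : ∀ k, L J ⊆ (U k)ᶜ := fun k f hf hc =>
    (disjoint_left.1 hJ) (hU.anti (Nat.zero_le k) hc) hf
  have hUci : ∀ k g, p g → ∀ f ∈ (U k)ᶜ, g • f ∈ (U k)ᶜ := by
    intro k g hg f hf hc
    apply hf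
    have := hUi g⁻¹ (hp g hg) k _ hc
    rwa [inv_smul_smul] at this
  obtain ⟨y₀, hy₀⟩ := hL.ne J
  -- exhaustion
  have exh : ∀ m', ∃ m'', m' ≤ m'' ∧ ∀ x, x ∉ U m' → ReachIn M.fadj (U m'')ᶜ x y₀ := by
    intro m'
    obtain ⟨W, hW, hWf⟩ := orb (max m' J)
    have h1 : ∀ w : F, ∃ n, ReachIn M.fadj (U n)ᶜ w y₀ := fun w =>
      fCut_avoid hU (M.fconn w (mem_univ _) y₀ (mem_univ _))
    choose n hn using h1
    obtain ⟨N, hN⟩ := (hW.image n).bddAbove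
    refine ⟨max m' N, le_max_left _ _, fun x hx => ?_⟩
    by_cases hxL : x ∈ L J
    · exact (hL.conn J x hxL y₀ hy₀).mono (hLU _)
    · have hx1 : x ∉ U (max m' J) := fun hc => hx (hU.anti (le_max_left _ _) hc)
      have hx2 : x ∉ L (max m' J) := fun hc => hxL (hL.anti (le_max_right _ _) hc)
      obtain ⟨g, hg, w, hw, rfl⟩ := hWf x hx1 hx2
      have h2 : ReachIn M.fadj (U (max m' N))ᶜ w y₀ := (hn w).mono
        (compl_subset_compl.2 (hU.anti ((hN (mem_image_of_mem _ hw)).trans (le_max_right _ _))))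
      have h3 := fCut_reach hE g (hUci (max m' N) g hg) h2
      exact h3.trans ((hL.conn J _ (hLi g hg J _ hy₀) y₀ hy₀).mono (hLU _))
  obtain ⟨m1, hm1, hx1⟩ := exh m
  obtain ⟨m2', hm2'⟩ := far m1
  set m2 := max m1 m2' with hm2def
  have hm2 : ∀ f ∈ U m2, ∀ g, g ∉ U m1 → ¬ FTouch M.toInc f g := fun f hf =>
    hm2' f (hU.anti (le_max_right _ _) hf)
  have hm12 : m1 ≤ m2 := le_max_left _ _
  obtain ⟨k, hk, hx2⟩ := exh m2
  have hy₀k : y₀ ∉ U k := hLU k hy₀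
  set D0 : Set F := compIn M.fadj (U k)ᶜ y₀ with hD0
  have hD0U : D0 ⊆ (U k)ᶜ := compIn_subset hy₀k
  have hD0c : ConnIn M.fadj D0 := connIn_compIn y₀
  have hO0c : ConnIn M.fadj D0ᶜ := fCut_compl M.fconn (hU.conn k) (hU.ne k) hy₀k
  have hUO0 : U k ⊆ D0ᶜ := fun x hx hc => hD0U hc hx
  have hO0U : D0ᶜ ⊆ U m2 := by
    intro x hx
    by_contra hcon
    exact hx (hx2 x hcon).symm
  have hLD0 : L J ⊆ D0 := fun x hx => (hL.conn J y₀ hy₀ x hx).mono (hLU k)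
  have hD0i : ∀ g f, p g → f ∈ D0 → g • f ∈ D0 := by
    intro g f hg hf
    have h1 : ReachIn M.fadj (U k)ᶜ (g • y₀) (g • f) := fCut_reach hE g (hUci k g hg) hf
    exact ((hL.conn J y₀ hy₀ _ (hLi g hg J _ hy₀)).mono (hLU k)).trans h1
  have hO0i : ∀ g f, p g → f ∈ D0ᶜ → g • f ∈ D0ᶜ := by
    intro g f hg hf hc
    apply hf
    have := hD0i g⁻¹ _ (hp g hg) hc
    rwa [inv_smul_smul] at this
  -- the main block
  set O1 : Set F := mainBlock M.fadj D0ᶜ U with hO1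
  have hO1s : O1 ⊆ D0ᶜ := fun x hx => hx.1
  obtain ⟨k1, hk1⟩ := far k
  have hUO1 : U (max k k1) ⊆ O1 := by
    intro x hx
    refine ⟨hUO0 (hU.anti (le_max_left _ _) hx), fun t ht htx => ?_⟩
    by_cases htU : t ∈ U (max k k1)
    · have h1 : ConnIn M.fadj (D0ᶜ \ {t}) := by
        refine h12 V E F M.toPolyMap D0ᶜ hO0c t ht fun v hv g hg hgD => ?_
        exact hk1 t (hU.anti (le_max_right _ _) htU) g (hD0U hgD) ⟨v, hv, hg⟩
      obtain ⟨j, hj⟩ := fCut_sub hU ⟨k, hUO0⟩ t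
      obtain ⟨y, hy⟩ := hU.ne j
      exact ⟨j, hj, y, hy, h1 x ⟨hUO0 (hU.anti (le_max_left _ _) hx), fun hc => htx hc.symm⟩ y
        (hj hy)⟩
    · refine ⟨max k k1, fun z hz => ⟨hUO0 (hU.anti (le_max_left _ _) hz), fun hc => ?_⟩, x, hx,
        ReachIn.refl x⟩
      rw [mem_singleton_iff] at hc
      exact htU (hc ▸ hz)
  obtain ⟨hO1c, hO1t⟩ := h10 F M.fadj D0ᶜ U hO0c hU ⟨k, hUO0⟩
  have hO1cc : ConnIn M.fadj O1ᶜ := h11 V E F M.toPolyMap M.fconn D0ᶜ U hO0c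
    (by rw [compl_compl]; exact hD0c) (by rw [compl_compl]; exact ⟨y₀, mem_compIn_self y₀⟩) hU
    ⟨k, hUO0⟩
  have hLO1 : L J ⊆ O1ᶜ := fun x hx hc => hO1s hc (hLD0 hx)
  have hO1i : ∀ g f, p g → f ∈ O1 → g • f ∈ O1 := fun g f hg hf =>
    fCut_block hE hp hO0i hUi g hg hf
  have hO1ci : ∀ g f, p g → f ∈ O1ᶜ → g • f ∈ O1ᶜ := by
    intro g f hg hf hc
    apply hf
    have := hO1i g⁻¹ _ (hp g hg) hc
    rwa [inv_smul_smul] at this
  have hO1U2 : O1 ⊆ U m2 := hO1s.trans hO0U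
  obtain ⟨hAc, hAt⟩ := h13 V E F M.toPolyMap M.fconn O1 L
    ((hU.ne _).mono hUO1) hO1c hO1t (by
      intro t
      obtain ⟨j, hj⟩ := fCut_sub hU ⟨_, hUO1⟩ t
      exact (hU.ne j).mono hj) hO1cc hL ⟨J, hLO1⟩
  obtain ⟨hBc, hBt⟩ := h10 F M.fadj O1ᶜ L hO1cc hL ⟨J, hLO1⟩
  -- the complement of `U m` lies in the lower block
  have hlow : (U m)ᶜ ⊆ mainBlock M.fadj O1ᶜ L := by
    intro x hx
    have hxO1 : x ∈ O1ᶜ := fun hc => hx (hU.anti (hm1.trans hm12) (hO1U2 hc))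
    refine ⟨hxO1, fun t ht htx => ?_⟩
    by_cases htouch : ∃ g ∈ O1, FTouch M.toInc g t
    · obtain ⟨g, hg, hgt⟩ := htouch
      have htU : t ∈ U m1 := by
        by_contra hcon
        exact hm2 g (hO1U2 hg) t hcon hgt
      have hsub : (U m1)ᶜ ⊆ O1ᶜ \ {t} := by
        intro z hz
        refine ⟨fun hc => hz (hU.anti hm12 (hO1U2 hc)), fun hc => ?_⟩
        rw [mem_singleton_iff] at hc
        exact hz (hc ▸ htU)
      exact ⟨J, (hLU m1).trans hsub, y₀, hy₀, (hx1 x hx).mono hsub⟩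
    · have h1 : ConnIn M.fadj (O1ᶜ \ {t}) := by
        refine h12 V E F M.toPolyMap O1ᶜ hO1cc t ht fun v hv g hg hgO => ?_
        exact htouch ⟨g, hgO, v, hg, hv⟩
      obtain ⟨j, hj⟩ := fCut_sub hL ⟨J, hLO1⟩ t
      obtain ⟨y, hy⟩ := hL.ne j
      exact ⟨j, hj, y, hy, h1 x ⟨hxO1, fun hc => htx hc.symm⟩ y (hj hy)⟩
  refine ⟨(mainBlock M.fadj O1ᶜ L)ᶜ, hAc, by rw [compl_compl]; exact hBc, hAt,
    fun t => by rw [compl_compl]; exact hBt t, ?_, ⟨max k k1, fun x hx hc => hc.1 (hUO1 hx)⟩,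
    ⟨J, fun x hx => ?_⟩, ?_⟩
  · intro g f hg hf hc
    apply hf
    have := fCut_block hE hp hO1ci hLi g⁻¹ (hp g hg) hc
    rwa [inv_smul_smul] at this
  · rw [compl_compl]
    exact hlow (hLU m hx)
  · rw [compl_subset_comm]
    exact hlow

/-- FCut. -/
theorem fCut (h1 : Stmt_FFar) (h10 : Stmt_MainBlock) (h11 : Stmt_MainBlockCompl)
    (h13 : Stmt_BiTight) (h12 : Stmt_Ring) : Stmt_FCut := by
  intro V E F G _ _ _ _ M Φ m
  have hone : Φ.del 1 = 1 := by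
    have h := Φ.del_mul 1 1
    rw [mul_one] at h
    rcases Φ.del_one 1 with h' | h'
    · exact h'
    · rw [h'] at h
      norm_num at h
  have hp : ∀ g, Φ.del g = 1 → Φ.del g⁻¹ = 1 := by
    intro g hg
    have h := Φ.del_mul g⁻¹ g
    rw [inv_mul_cancel, hone, hg, mul_one] at h
    exact h.symm
  have htau : ∀ n : ℤ, Φ.del (Φ.τ ^ n) = 1 := by
    intro n
    let H : Subgroup G :=
      { carrier := {g | Φ.del g = 1}
        mul_mem' := by
          intro a b ha hb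
          have ha' : Φ.del a = 1 := ha
          have hb' : Φ.del b = 1 := hb
          show Φ.del (a * b) = 1
          rw [Φ.del_mul, ha', hb', mul_one]
        one_mem' := hone
        inv_mem' := by
          intro a ha
          exact hp a ha }
    exact H.zpow_mem (show Φ.τ ∈ H from Φ.τ_del) n
  have hself : ∀ f : F, FTouch M.toInc f f := by
    intro f
    have hne : {e | M.ef e f}.Nonempty := by
      by_contra hcon
      rw [not_nonempty_iff_eq_empty] at hcon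
      have := M.face_card f
      rw [hcon, ncard_empty] at this
      omega
    obtain ⟨e, he⟩ := hne
    obtain ⟨u, v, -, huv⟩ := M.edge_verts e
    exact ⟨u, ⟨e, (huv u).2 (Or.inl rfl), he⟩, ⟨e, (huv u).2 (Or.inl rfl), he⟩⟩
  constructor
  · obtain ⟨A, a1, a2, a3, a4, a5, a6, a7, a8⟩ := fCut_key h10 h11 h13 h12 M Φ.act
      (fun g => Φ.del g = 1) hp Φ.Up Φ.Lo Φ.up_end Φ.lo_end
      (fun g hg k f hf => Φ.up_inv g k f hg hf) (fun g hg k f hf => Φ.lo_inv g k f hg hf)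
      (fun k => (h1 V E F G M Φ k).1)
      (by
        obtain ⟨j, hj, -⟩ := Φ.sep 0
        exact ⟨j, disjoint_left.2 fun f hf hf' => hj f hf f hf' (hself f)⟩)
      (by
        intro k
        obtain ⟨W, hW, hWf⟩ := Φ.orb k
        refine ⟨W, hW, fun f hf hf' => ?_⟩
        obtain ⟨n, w, hw, h⟩ := hWf f hf hf'
        exact ⟨Φ.τ ^ n, htau n, w, hw, h⟩) m
    exact ⟨A, ⟨a1, a2, a3, a4, a5, a6, a7⟩, a8⟩
  · obtain ⟨A, a1, a2, a3, a4, a5, a6, a7, a8⟩ := fCut_key h10 h11 h13 h12 M Φ.act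
      (fun g => Φ.del g = 1) hp Φ.Lo Φ.Up Φ.lo_end Φ.up_end
      (fun g hg k f hf => Φ.lo_inv g k f hg hf) (fun g hg k f hf => Φ.up_inv g k f hg hf)
      (fun k => (h1 V E F G M Φ k).2.1)
      (by
        obtain ⟨j, -, hj⟩ := Φ.sep 0
        exact ⟨j, disjoint_left.2 fun f hf hf' => hj f hf' f hf (hself f)⟩)
      (by
        intro k
        obtain ⟨W, hW, hWf⟩ := Φ.orb k
        refine ⟨W, hW, fun f hf hf' => ?_⟩
        obtain ⟨n, w, hw, h⟩ := hWf f hf' hf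
        exact ⟨Φ.τ ^ n, htau n, w, hw, h⟩) m
    refine ⟨Aᶜ, ⟨a2, by rw [compl_compl]; exact a1, a4, by rw [compl_compl]; exact a3, ?_, a7,
      by rw [compl_compl]; exact a6⟩, by rw [compl_compl]; exact a8⟩
    intro g f hg hf hc
    apply hf
    have := a5 g⁻¹ _ (hp g hg) hc
    rwa [inv_smul_smul] at this

end Pool.Agent.CT
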