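import Pool.Agent.CT.FDefs

set_option autoImplicit false

/-! # Module FCyc: edge ends and face cycles of the strip block -/

namespace Pool.Agent.CT

open Set Metric

section core

variable {V E F : Type}

/-- Only one face on the side of `t` at a vertex where both frontier edges belong to `t`. -/
theorem fCyc_star (M : PolyMap V E F) (D' : Set F) (t : F) (ht : t ∉ D') (v : V) (e1 e2 : E)
    (h12 : e1 ≠ e2) (hv1 : M.ve v e1) (hv2 : M.ve v e2) (hf1 : M.ef e1 t) (hf2 : M.ef e2 t)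
    (hd1 : ∃ d ∈ D', M.ef e1 d) (hd2 : ∃ d ∈ D', M.ef e2 d)
    (hfr : ∀ e, e ∈ fr M.toInc D' → M.ve v e → e = e1 ∨ e = e2) :
    ∀ f, M.vf v f → f ∉ D' → f = t := by
  classical
  let A : Set E := {e | M.ve v e ∧ ((∀ f, M.ef e f → f ∈ D') ∨ e = e1 ∨ e = e2)}
  have hA : A = {e | M.ve v e} := by
    refine M.vert_conn v A (fun e he => he.1) ⟨e1, hv1, Or.inr (Or.inl rfl)⟩ ?_
    intro e he d hvd hshare
    obtain ⟨f, hef, hdf⟩ := hshare
    refine ⟨hvd, ?_⟩
    have key : f ∈ D' → ((∀ f, M.ef d f → f ∈ D') ∨ d = e1 ∨ d = e2) := by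
      intro hfD
      by_cases hall : ∀ f, M.ef d f → f ∈ D'
      · exact Or.inl hall
      · push Not at hall
        obtain ⟨g, hg, hgD⟩ := hall
        exact Or.inr (hfr d ⟨⟨f, hfD, hdf⟩, g, hgD, hg⟩ hvd)
    have key2 : f = t → (e = e1 ∨ e = e2) → ((∀ f, M.ef d f → f ∈ D') ∨ d = e1 ∨ d = e2) := by
      rintro rfl he'
      obtain ⟨e', he'1, he'2⟩ := M.corner v e1 f hv1 hf1
      have h2 := (he'2 e2).1 ⟨hv2, hf2⟩
      have h3 := (he'2 d).1 ⟨hvd, hdf⟩
      rcases h2 with h2 | h2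
      · exact absurd h2.symm h12
      · rw [← h2] at h3
        exact Or.inr h3
    by_cases hfD : f ∈ D'
    · exact key hfD
    · rcases he.2 with hall | he'
      · exact absurd (hall f hef) hfD
      · -- the faces of `e` are `t` and a face in `D'`
        have : f = t := by
          obtain ⟨g1, g2, hg12, hg⟩ := M.edge_faces e
          have hdt : M.ef e t := by rcases he' with rfl | rfl <;> assumption
          have hdD : ∃ d ∈ D', M.ef e d := by rcases he' with rfl | rfl <;> assumption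
          obtain ⟨d', hd'D, hd'⟩ := hdD
          have a1 := (hg f).1 hef
          have a2 := (hg t).1 hdt
          have a3 := (hg d').1 hd'
          rcases a1 with a1 | a1 <;> rcases a2 with a2 | a2 <;> rcases a3 with a3 | a3
          all_goals first
            | exact a1.trans a2.symm
            | exact absurd (a1.trans a3.symm ▸ hd'D : f ∈ D') hfD
            | exact absurd (a2.trans a3.symm ▸ hd'D : t ∈ D') ht
        exact key2 this he'
  intro f hvf hfD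
  obtain ⟨e, hve, hef⟩ := hvf
  have heA : e ∈ A := by rw [hA]; exact hve
  rcases heA.2 with hall | he'
  · exact absurd (hall f hef) hfD
  · obtain ⟨g1, g2, hg12, hg⟩ := M.edge_faces e
    have hdt : M.ef e t := by rcases he' with rfl | rfl <;> assumption
    have hdD : ∃ d ∈ D', M.ef e d := by rcases he' with rfl | rfl <;> assumption
    obtain ⟨d', hd'D, hd'⟩ := hdD
    have a1 := (hg f).1 hef
    have a2 := (hg t).1 hdt
    have a3 := (hg d').1 hd'
    rcases a1 with a1 | a1 <;> rcases a2 with a2 | a2 <;> rcases a3 with a3 | a3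
    all_goals first
      | exact a1.trans a2.symm
      | exact absurd (a1.trans a3.symm ▸ hd'D : f ∈ D') hfD
      | exact absurd (a2.trans a3.symm ▸ hd'D : t ∈ D') ht

/-- A vertex of an edge all of whose faces are in `S` is a vertex of the block. -/
theorem fCyc_inCV (M : PolyMap V E F) (S : Set F) (v : V) (e : E) (hv : M.ve v e)
    (he : ∀ f, M.ef e f → f ∈ S) :
    ∃ f g, f ≠ g ∧ f ∉ Sᶜ ∧ g ∉ Sᶜ ∧ M.vf v f ∧ M.vf v g := by
  obtain ⟨f, g, hfg, h⟩ := M.edge_faces e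
  have hf : M.ef e f := (h f).2 (Or.inl rfl)
  have hg : M.ef e g := (h g).2 (Or.inr rfl)
  exact ⟨f, g, hfg, not_not.2 (he f hf), not_not.2 (he g hg), ⟨e, hv, hf⟩, ⟨e, hv, hg⟩⟩

/-- Untouched case: the face cycle is unchanged. -/
theorem fCyc_plain (M : PolyMap V E F) (S : Set F) (t : {f : F // f ∉ Sᶜ}) (n : ℕ)
    (x : ℤ → V) (y : ℤ → E) (hc : IsFaceCycle M.toInc t.1 n x y)
    (hno : ∀ i, ¬ ∃ d, d ∉ S ∧ M.ef (y i) d) :
    ∃ x' y', IsFaceCycle (stripInc M.toInc S) t n x' y' ∧ ∀ i, (x' i).1 = x i := by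
  have hall : ∀ i f, M.ef (y i) f → f ∈ S := by
    intro i f hf
    by_contra hfS
    exact hno i ⟨f, hfS, hf⟩
  have hx : ∀ i, ∃ f g, f ≠ g ∧ f ∉ Sᶜ ∧ g ∉ Sᶜ ∧ M.vf (x i) f ∧ M.vf (x i) g := fun i =>
    fCyc_inCV M S (x i) (y i) ((hc.curve.ve i (x i)).2 (Or.inl rfl)) (hall i)
  refine ⟨fun i => ⟨x i, hx i⟩, fun i => Sum.inl ⟨y i, fun f hf => not_not.2 (hall i f hf)⟩,
    ⟨hc.three, ?_⟩, fun i => rfl⟩
  refine ⟨hc.curve.n_ne, ?_, ?_, ?_, ?_⟩
  · intro i j
    rw [← hc.curve.x_eq i j]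
    simp [Subtype.ext_iff]
  · intro i j
    rw [← hc.curve.y_eq i j]
    simp [Subtype.ext_iff]
  · intro e
    constructor
    · intro he
      rcases e with e | f
      · have he' : M.ef e.1 t.1 := he
        obtain ⟨i, hi⟩ := (hc.curve.mem e.1).1 he'
        exact ⟨i, by simp only [Sum.inl.injEq, Subtype.ext_iff]; exact hi⟩
      · exfalso
        have hf : f.1 = t.1 := he
        obtain ⟨hf1, e, hef, d, hd, hed⟩ := f.2
        rw [hf] at hef
        obtain ⟨i, hi⟩ := (hc.curve.mem e).1 hef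
        exact hno i ⟨d, hd, hi ▸ hed⟩
    · rintro ⟨i, rfl⟩
      exact (hc.curve.mem (y i)).2 ⟨i, rfl⟩
  · intro i v
    show M.ve v.1 (y i) ↔ _
    rw [hc.curve.ve i v.1]
    simp [Subtype.ext_iff]

/-- The data of a face with a proper run. -/
structure fCyc_Data (M : PolyMap V E F) (S : Set F) (t : F) (n : ℕ) (x : ℤ → V) (y : ℤ → E)
    (a : ℤ) (r : ℕ) : Prop where
  tS : t ∈ S
  cyc : IsFaceCycle M.toInc t n x y
  one : 1 ≤ r
  two : r + 2 ≤ n
  touch : ∀ i, Touch M.toInc Sᶜ (x i) ↔ ∃ k : ℕ, k ≤ r ∧ (n : ℤ) ∣ i - (a + k)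
  edge : ∀ i, (∃ d ∈ Sᶜ, M.ef (y i) d) ↔ ∃ k : ℕ, k < r ∧ (n : ℤ) ∣ i - (a + k)
  mid : ∀ k : ℕ, 0 < k → k < r → ∀ f, M.vf (x (a + k)) f → f ∈ S → f = t

theorem fCyc_not_edge {M : PolyMap V E F} {S : Set F} {t : F} {n : ℕ} {x : ℤ → V} {y : ℤ → E}
    {a : ℤ} {r : ℕ} (h : fCyc_Data M S t n x y a r) (j : ℤ) (hj0 : 0 ≤ j) (hj : j + r < n) :
    ∀ f, M.ef (y (a + r + j)) f → f ∈ S := by
  intro f hf
  by_contra hfS
  obtain ⟨k, hk, hdvd⟩ := (h.edge (a + r + j)).1 ⟨f, hfS, hf⟩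
  have h2 := h.two
  have h3 : a + r + j - (a + k) = r + j - k := by ring
  rw [h3] at hdvd
  have h4 : (0 : ℤ) < r + j - k := by omega
  have h5 : (r : ℤ) + j - k < n := by omega
  exact absurd (Int.le_of_dvd h4 hdvd) (by omega)

theorem fCyc_per {M : PolyMap V E F} {S : Set F} {t : F} {n : ℕ} {x : ℤ → V} {y : ℤ → E}
    {a : ℤ} {r : ℕ} (h : fCyc_Data M S t n x y a r) : x (a + n) = x a :=
  (h.cyc.curve.x_eq _ _).2 ⟨1, by ring⟩

theorem fCyc_vert {M : PolyMap V E F} {S : Set F} {t : F} {n : ℕ} {x : ℤ → V} {y : ℤ → E}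
    {a : ℤ} {r : ℕ} (h : fCyc_Data M S t n x y a r) (j : ℤ) (hj0 : 0 ≤ j) (hj : j + r ≤ n) :
    ∃ f g, f ≠ g ∧ f ∉ Sᶜ ∧ g ∉ Sᶜ ∧ M.vf (x (a + r + j)) f ∧ M.vf (x (a + r + j)) g := by
  have h2 := h.two
  by_cases hlt : j + r < n
  · exact fCyc_inCV M S _ (y (a + r + j)) ((h.cyc.curve.ve _ _).2 (Or.inl rfl))
      (fCyc_not_edge h j hj0 hlt)
  · have hj1 : (0 : ℤ) ≤ j - 1 := by omega
    refine fCyc_inCV M S _ (y (a + r + (j - 1))) ((h.cyc.curve.ve _ _).2 (Or.inr ?_))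
      (fCyc_not_edge h (j - 1) hj1 (by omega))
    congr 1
    ring

/-- The block vertices of `t` touching the outside are the two ends of the run. -/
theorem fCyc_ends {M : PolyMap V E F} {S : Set F} {t : F} {n : ℕ} {x : ℤ → V} {y : ℤ → E}
    {a : ℤ} {r : ℕ} (h : fCyc_Data M S t n x y a r) (w : V)
    (hw : ∃ f g, f ≠ g ∧ f ∉ Sᶜ ∧ g ∉ Sᶜ ∧ M.vf w f ∧ M.vf w g) :
    (M.vf w t ∧ Touch M.toInc Sᶜ w) ↔ (w = x a ∨ w = x (a + r)) := by
  have h1 := h.one
  have h2 := h.two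
  constructor
  · rintro ⟨⟨e, hwe, het⟩, htw⟩
    obtain ⟨i, rfl⟩ := (h.cyc.curve.mem e).1 het
    have hwi : ∃ i, w = x i := by
      rcases (h.cyc.curve.ve i w).1 hwe with h3 | h3
      · exact ⟨i, h3⟩
      · exact ⟨i + 1, h3⟩
    obtain ⟨i, rfl⟩ := hwi
    obtain ⟨k, hk, hdvd⟩ := (h.touch i).1 htw
    have hxi : x i = x (a + k) := (h.cyc.curve.x_eq _ _).2 hdvd
    rcases Nat.eq_zero_or_pos k with rfl | hk0
    · left
      rw [hxi]
      simp
    · rcases Nat.lt_or_ge k r with hkr | hkr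
      · exfalso
        obtain ⟨f, g, hfg, hf, hg, hvf, hvg⟩ := hw
        rw [hxi] at hvf hvg
        have e1 := h.mid k hk0 hkr f hvf (not_not.1 hf)
        have e2 := h.mid k hk0 hkr g hvg (not_not.1 hg)
        exact hfg (e1.trans e2.symm)
      · right
        have : k = r := le_antisymm hk hkr
        rw [hxi, this]
  · have hvt : ∀ i, M.vf (x i) t := fun i =>
      ⟨y i, (h.cyc.curve.ve i (x i)).2 (Or.inl rfl), (h.cyc.curve.mem (y i)).2 ⟨i, rfl⟩⟩
    rintro (rfl | rfl)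
    · exact ⟨hvt _, (h.touch a).2 ⟨0, by omega, by simp⟩⟩
    · exact ⟨hvt _, (h.touch (a + r)).2 ⟨r, le_rfl, by simp⟩⟩

theorem fCyc_xends_ne {M : PolyMap V E F} {S : Set F} {t : F} {n : ℕ} {x : ℤ → V} {y : ℤ → E}
    {a : ℤ} {r : ℕ} (h : fCyc_Data M S t n x y a r) : x a ≠ x (a + r) := by
  intro heq
  have hd := (h.cyc.curve.x_eq _ _).1 heq
  have h1 := h.one
  have h2 := h.two
  have h3 : (n : ℤ) ∣ r := by
    have := (dvd_neg (α := ℤ)).2 hd
    have h4 : -(a - (a + (r : ℤ))) = r := by ring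
    rwa [h4] at this
  exact absurd (Int.le_of_dvd (by omega) h3) (by omega)

theorem fCyc_contract (M : PolyMap V E F) (S : Set F) (t : {f : F // f ∉ Sᶜ}) (n : ℕ)
    (x : ℤ → V) (y : ℤ → E) (a : ℤ) (r : ℕ) (h : fCyc_Data M S t.1 n x y a r) :
    ∃ x' y', IsFaceCycle (stripInc M.toInc S) t (n + 1 - r) x' y' ∧
      ∀ j : ℕ, j < n + 1 - r → (x' j).1 = x (a + r + j) := by
  classical
  have h1 := h.one
  have h2 := h.two
  obtain ⟨N, hN⟩ : ∃ N : ℕ, n + 1 - r = N := ⟨_, rfl⟩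
  have hNr : N + r = n + 1 := by omega
  have hN3 : 3 ≤ N := by omega
  have hNpos : (0 : ℤ) < N := by omega
  have hNne : (N : ℤ) ≠ 0 := by omega
  rw [hN]
  have hm0 : ∀ i : ℤ, 0 ≤ i % N := fun i => Int.emod_nonneg _ hNne
  have hm1 : ∀ i : ℤ, i % N < N := fun i => Int.emod_lt_of_pos _ hNpos
  have htn : (∃ e, M.ef e t.1 ∧ ∃ d ∈ Sᶜ, M.ef e d) := by
    obtain ⟨d, hd, hed⟩ := (h.edge a).2 ⟨0, by omega, by simp⟩
    exact ⟨y a, (h.cyc.curve.mem _).2 ⟨a, rfl⟩, d, hd, hed⟩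
  have hx : ∀ i : ℤ, ∃ f g, f ≠ g ∧ f ∉ Sᶜ ∧ g ∉ Sᶜ ∧ M.vf (x (a + r + i % N)) f ∧
      M.vf (x (a + r + i % N)) g := fun i =>
    fCyc_vert h (i % N) (hm0 i) (by have := hm1 i; omega)
  let x' : ℤ → CV M.toInc Sᶜ := fun i => ⟨x (a + r + i % N), hx i⟩
  have hy : ∀ i : ℤ, ¬ (i % N = N - 1) → ∀ f, M.ef (y (a + r + i % N)) f → f ∉ Sᶜ := fun i hi f hf =>
    not_not.2 (fCyc_not_edge h (i % N) (hm0 i) (by have := hm1 i; omega) f hf)
  let y' : ℤ → CE M.toInc Sᶜ := fun i =>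
    if hi : i % N = N - 1 then Sum.inr ⟨t.1, t.2, htn⟩ else
      Sum.inl ⟨y (a + r + i % N), hy i hi⟩
  have hy'1 : ∀ i : ℤ, i % N = N - 1 → y' i = Sum.inr ⟨t.1, t.2, htn⟩ := fun i hi => dif_pos hi
  have hy'2 : ∀ (i : ℤ) (hi : ¬ (i % N = N - 1)), y' i = Sum.inl ⟨y (a + r + i % N), hy i hi⟩ :=
    fun i hi => dif_neg hi
  have hmodeq : ∀ i j : ℤ, i % N = j % N ↔ (N : ℤ) ∣ i - j := by
    intro i j
    have h3 : j ≡ i [ZMOD N] ↔ (N : ℤ) ∣ i - j := Int.modEq_iff_dvd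
    rw [← h3]
    exact ⟨fun hh => hh.symm, fun hh => hh.symm⟩
  -- within one period, `n` divides a difference only if it vanishes
  have hsmall : ∀ i j : ℤ, (n : ℤ) ∣ (a + r + i % N) - (a + r + j % N) ↔ i % N = j % N := by
    intro i j
    constructor
    · intro hd
      have h3 : (a + r + i % N) - (a + r + j % N) = i % N - j % N := by ring
      rw [h3] at hd
      have := hm0 i
      have := hm1 i
      have := hm0 j
      have := hm1 j
      obtain ⟨c, hc⟩ := hd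
      have hn : (0 : ℤ) < n := by omega
      have hc0 : c = 0 := by
        by_contra hne
        rcases lt_or_gt_of_ne hne with hlt | hgt
        · have : (n : ℤ) * c ≤ n * (-1) := mul_le_mul_of_nonneg_left (by omega) hn.le
          omega
        · have : (n : ℤ) * 1 ≤ n * c := mul_le_mul_of_nonneg_left (by omega) hn.le
          omega
      rw [hc0, mul_zero] at hc
      omega
    · intro heq
      rw [heq]
      simp
  have hsucc1 : ∀ i : ℤ, i % N = N - 1 → (i + 1) % N = 0 := by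
    intro i hi
    have h3 : (N : ℤ) ∣ i + 1 := by
      refine ⟨i / N + 1, ?_⟩
      have := Int.emod_add_mul_ediv i N
      rw [hi] at this
      linarith
    exact Int.emod_eq_zero_of_dvd h3
  have hsucc2 : ∀ i : ℤ, ¬ (i % N = N - 1) → (i + 1) % N = i % N + 1 := by
    intro i hi
    have h3 := hm0 i
    have h4 := hm1 i
    have h5 : (i + 1) % N = (i % N + 1) % N := by
      rw [hmodeq]
      refine ⟨i / N, ?_⟩
      have := Int.emod_add_mul_ediv i N
      linarith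
    rw [h5]
    exact Int.emod_eq_of_lt (by omega) (by omega)
  refine ⟨x', y', ⟨hN3, ⟨Or.inr hN3, ?_, ?_, ?_, ?_⟩⟩, ?_⟩
  · intro i j
    rw [← hmodeq, ← hsmall, ← h.cyc.curve.x_eq]
    show (⟨x (a + r + i % N), hx i⟩ : CV M.toInc Sᶜ) = ⟨x (a + r + j % N), hx j⟩ ↔ _
    rw [Subtype.mk.injEq]
  · intro i j
    rw [← hmodeq]
    by_cases hi : i % N = N - 1
    · rw [hy'1 i hi]
      by_cases hj : j % N = N - 1
      · rw [hy'1 j hj, hi, hj]
        simp
      · rw [hy'2 j hj]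
        constructor
        · intro hh
          exact absurd hh (by simp)
        · intro hh
          exact absurd (hh ▸ hi) hj
    · rw [hy'2 i hi]
      by_cases hj : j % N = N - 1
      · rw [hy'1 j hj]
        constructor
        · intro hh
          exact absurd hh (by simp)
        · intro hh
          exact absurd (hh.symm ▸ hj : i % N = N - 1) hi
      · rw [hy'2 j hj, ← hsmall, ← h.cyc.curve.y_eq, Sum.inl.injEq, Subtype.mk.injEq]
  · intro e
    constructor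
    · intro he
      rcases e with e | f
      · have he' : M.ef e.1 t.1 := he
        obtain ⟨i, hi⟩ := (h.cyc.curve.mem e.1).1 he'
        have hn : (0 : ℤ) < n := by omega
        obtain ⟨j, hj⟩ : ∃ j : ℤ, j = (i - a - r) % n := ⟨_, rfl⟩
        have hj0 : 0 ≤ j := hj ▸ Int.emod_nonneg _ (by omega)
        have hj1 : j < n := hj ▸ Int.emod_lt_of_pos _ hn
        have hjd : (n : ℤ) ∣ i - (a + r + j) := by
          refine ⟨(i - a - r) / n, ?_⟩
          have := Int.emod_add_mul_ediv (i - a - r) n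
          rw [← hj] at this
          linarith
        have hlt : j + r < n := by
          by_contra hge
          obtain ⟨k, hk⟩ := Int.eq_ofNat_of_zero_le (show (0 : ℤ) ≤ j + r - n by omega)
          have hkr : k < r := by omega
          obtain ⟨d, hd, hed⟩ := (h.edge i).2 ⟨k, hkr, by
            have h3 : i - (a + k) = (i - (a + r + j)) + n := by
              rw [← hk]
              ring
            rw [h3]
            exact dvd_add hjd (dvd_refl _)⟩
          rw [hi] at hed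
          exact e.2 d hed hd
        have hjN : j % N = j := Int.emod_eq_of_lt hj0 (by omega)
        have hjne : ¬ (j % N = N - 1) := by
          rw [hjN]
          omega
        refine ⟨j, ?_⟩
        rw [hy'2 j hjne, Sum.inl.injEq, Subtype.ext_iff]
        show y (a + r + j % N) = e.1
        rw [hjN, ← hi]
        exact ((h.cyc.curve.y_eq _ _).2 hjd).symm
      · have hf : f.1 = t.1 := he
        have hNm : ((N : ℤ) - 1) % N = N - 1 := Int.emod_eq_of_lt (by omega) (by omega)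
        refine ⟨N - 1, ?_⟩
        rw [hy'1 _ hNm]
        congr 1
        exact Subtype.ext hf.symm
    · rintro ⟨i, rfl⟩
      by_cases hi : i % N = N - 1
      · rw [hy'1 i hi]
        show t.1 = t.1
        rfl
      · rw [hy'2 i hi]
        show M.ef (y (a + r + i % N)) t.1
        exact (h.cyc.curve.mem _).2 ⟨_, rfl⟩
  · intro i v
    by_cases hi : i % N = N - 1
    · rw [hy'1 i hi]
      show (M.vf v.1 t.1 ∧ Touch M.toInc Sᶜ v.1) ↔ _
      rw [fCyc_ends h v.1 v.2, Subtype.ext_iff, Subtype.ext_iff]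
      show _ ↔ (v.1 = x (a + r + i % N) ∨ v.1 = x (a + r + (i + 1) % N))
      rw [hsucc1 i hi, hi, add_zero]
      have h3 : a + (r : ℤ) + (N - 1) = a + n := by
        have : (N : ℤ) + r = n + 1 := by exact_mod_cast hNr
        linarith
      rw [h3, fCyc_per h]
    · rw [hy'2 i hi]
      show M.ve v.1 (y (a + r + i % N)) ↔ _
      rw [h.cyc.curve.ve, Subtype.ext_iff, Subtype.ext_iff]
      show _ ↔ (v.1 = x (a + r + i % N) ∨ v.1 = x (a + r + (i + 1) % N))
      rw [hsucc2 i hi, ← add_assoc]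
  · intro j hj
    show x (a + r + (j : ℤ) % N) = x (a + r + j)
    rw [Int.emod_eq_of_lt (by omega) (by omega)]

theorem fCyc_fr (M : Inc V E F) (A : Set F) (e : E) : e ∈ fr M Aᶜ → e ∈ fr M A := by
  rintro ⟨⟨f, hf, hef⟩, g, hg, heg⟩
  exact ⟨⟨g, not_not.1 hg, heg⟩, f, hf, hef⟩

/-- The frontier edges at a vertex of a line. -/
theorem fCyc_two (M : Inc V E F) (C : Set E) (xl : ℤ → V) (yl : ℤ → E)
    (hl : IsCurve M C 0 xl yl) (v : V) (e1 e2 : E) (h12 : e1 ≠ e2) (h1 : e1 ∈ C) (h2 : e2 ∈ C)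
    (hv1 : M.ve v e1) (hv2 : M.ve v e2) (e : E) (he : e ∈ C) (hv : M.ve v e) :
    e = e1 ∨ e = e2 := by
  obtain ⟨j1, rfl⟩ := (hl.mem e1).1 h1
  obtain ⟨j2, rfl⟩ := (hl.mem e2).1 h2
  obtain ⟨j, rfl⟩ := (hl.mem e).1 he
  have hxeq : ∀ i j, xl i = xl j → i = j := by
    intro i j hij
    have := (hl.x_eq i j).1 hij
    simp only [Nat.cast_zero, zero_dvd_iff] at this
    omega
  have hj12 : j1 ≠ j2 := by
    rintro rfl
    exact h12 rfl
  have a1 := (hl.ve j1 v).1 hv1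
  have a2 := (hl.ve j2 v).1 hv2
  have a3 := (hl.ve j v).1 hv
  have hor : j = j1 ∨ j = j2 := by
    rcases a1 with a1 | a1 <;> rcases a2 with a2 | a2 <;> rcases a3 with a3 | a3
    all_goals
      have b1 := hxeq _ _ (a1.symm.trans a2)
      have b2 := hxeq _ _ (a1.symm.trans a3)
      omega
  rcases hor with rfl | rfl
  · exact Or.inl rfl
  · exact Or.inr rfl

/-- From a run for `D'` to the data for the strip. -/
theorem fCyc_data (M : PolyMap V E F) (S D' : Set F) (hSD : ∀ f ∈ S, f ∉ D') (t : F) (ht : t ∈ S)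
    (hD : ∀ v, M.vf v t → ∀ d, d ∉ S → M.vf v d → d ∈ D') (n : ℕ)
    (x : ℤ → V) (y : ℤ → E) (hc : IsFaceCycle M.toInc t n x y) (C : Set E)
    (hC : ∀ e, e ∈ fr M.toInc D' → e ∈ C) (xl : ℤ → V)
    (yl : ℤ → E) (hl : IsCurve M.toInc C 0 xl yl) (a : ℤ) (r : ℕ)
    (h1 : 1 ≤ r) (h2 : r + 2 ≤ n)
    (htouch : ∀ i, Touch M.toInc D' (x i) ↔ ∃ k : ℕ, k ≤ r ∧ (n : ℤ) ∣ i - (a + k))
    (hedge : ∀ i, (∃ d ∈ D', M.ef (y i) d) ↔ ∃ k : ℕ, k < r ∧ (n : ℤ) ∣ i - (a + k)) :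
    fCyc_Data M S t n x y a r := by
  have hvt : ∀ i, M.vf (x i) t := fun i =>
    ⟨y i, (hc.curve.ve i (x i)).2 (Or.inl rfl), (hc.curve.mem (y i)).2 ⟨i, rfl⟩⟩
  refine ⟨ht, hc, h1, h2, ?_, ?_, ?_⟩
  · intro i
    rw [← htouch i]
    constructor
    · rintro ⟨d, hd, hvd⟩
      exact ⟨d, hD _ (hvt i) d hd hvd, hvd⟩
    · rintro ⟨d, hd, hvd⟩
      exact ⟨d, fun hdS => hSD d hdS hd, hvd⟩
  · intro i
    rw [← hedge i]
    constructor
    · rintro ⟨d, hd, hed⟩
      exact ⟨d, hD _ (hvt i) d hd ⟨y i, (hc.curve.ve i (x i)).2 (Or.inl rfl), hed⟩, hed⟩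
    · rintro ⟨d, hd, hed⟩
      exact ⟨d, fun hdS => hSD d hdS hd, hed⟩
  · intro k hk0 hkr f hvf hfS
    have hd2 : ∃ d ∈ D', M.ef (y (a + k)) d := (hedge _).2 ⟨k, hkr, by simp⟩
    have hd1 : ∃ d ∈ D', M.ef (y (a + k - 1)) d := by
      refine (hedge _).2 ⟨k - 1, by omega, ?_⟩
      have : a + (k : ℤ) - 1 - (a + ((k - 1 : ℕ) : ℤ)) = 0 := by
        push_cast [Nat.cast_sub (show 1 ≤ k from hk0)]
        ring
      rw [this]
      exact dvd_zero _
    have hne : y (a + k - 1) ≠ y (a + k) := by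
      intro heq
      have hdv := (hc.curve.y_eq _ _).1 heq
      have h3 : a + (k : ℤ) - 1 - (a + k) = -1 := by ring
      rw [h3] at hdv
      have h4 : (n : ℤ) ∣ 1 := by
        have := (dvd_neg (α := ℤ)).2 hdv
        simpa using this
      exact absurd (Int.le_of_dvd (by norm_num) h4) (by omega)
    have hv1 : M.ve (x (a + k)) (y (a + k - 1)) :=
      (hc.curve.ve _ _).2 (Or.inr (by congr 1; ring))
    have hv2 : M.ve (x (a + k)) (y (a + k)) := (hc.curve.ve _ _).2 (Or.inl rfl)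
    have hf1 : M.ef (y (a + k - 1)) t := (hc.curve.mem _).2 ⟨_, rfl⟩
    have hf2 : M.ef (y (a + k)) t := (hc.curve.mem _).2 ⟨_, rfl⟩
    have hfr : ∀ e, M.ef e t → (∃ d ∈ D', M.ef e d) → e ∈ C := fun e he hd =>
      hC e ⟨hd, t, hSD t ht, he⟩
    exact fCyc_star M D' t (hSD t ht) (x (a + k)) (y (a + k - 1)) (y (a + k)) hne hv1 hv2 hf1 hf2
      hd1 hd2 (fun e he hv => fCyc_two M.toInc C xl yl hl (x (a + k)) _ _ hne (hfr _ hf1 hd1)
        (hfr _ hf2 hd2) hv1 hv2 e (hC e he) hv) f hvf (hSD f hfS)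

end core

theorem fCyc_key (h1 : Stmt_FRun) {V E F G : Type} [Group G] [MulAction G V] [MulAction G E]
    [MulAction G F] (M : PlaneMap V E F) (X : FCtx M G) (m : ℤ) (t : F) (ht : t ∈ X.S m) (n : ℕ)
    (x : ℤ → V) (y : ℤ → E) (hc : IsFaceCycle M.toInc t n x y) :
    (∀ i, ¬ ∃ d, d ∉ X.S m ∧ M.ef (y i) d) ∨
    ∃ (a : ℤ) (r : ℕ) (l i₀ κ : ℤ), (l = m ∨ l = m + 1) ∧ (κ = 1 ∨ κ = -1) ∧
      (∀ k : ℕ, k ≤ r → x (a + k) = X.L.x l (i₀ + κ * k)) ∧
      fCyc_Data M.toPolyMap (X.S m) t n x y a r := by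
  classical
  have hvt : ∀ i, M.vf (x i) t := fun i =>
    ⟨y i, (hc.curve.ve i (x i)).2 (Or.inl rfl), (hc.curve.mem (y i)).2 ⟨i, rfl⟩⟩
  have hvx : ∀ v, M.vf v t → ∃ i, v = x i := by
    rintro v ⟨e, hve, het⟩
    obtain ⟨i, rfl⟩ := (hc.curve.mem e).1 het
    rcases (hc.curve.ve i v).1 hve with h | h
    · exact ⟨i, h⟩
    · exact ⟨i + 1, h⟩
  -- the conclusion from a run
  have main : ∀ (l : ℤ) (D D' : Set F), (l = m ∨ l = m + 1) → D = X.U l → (D' = D ∨ D' = Dᶜ) →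
      (∀ f ∈ X.S m, f ∉ D') → (∀ v, M.vf v t → ∀ d, d ∉ X.S m → M.vf v d → d ∈ D') →
      (∀ i, ¬ ∃ d, d ∉ X.S m ∧ M.ef (y i) d) ∨
      ∃ (a : ℤ) (r : ℕ) (l i₀ κ : ℤ), (l = m ∨ l = m + 1) ∧ (κ = 1 ∨ κ = -1) ∧
        (∀ k : ℕ, k ≤ r → x (a + k) = X.L.x l (i₀ + κ * k)) ∧
        fCyc_Data M.toPolyMap (X.S m) t n x y a r := by
    intro l D D' hl hDl hD' hSD hout
    subst hDl
    rcases h1 V E F G M X.Φ (X.U l) (X.seq.cut l) (X.L.x l) (X.L.y l) (X.L.p l) (X.L.line l) D' hD' t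
      (hSD t ht) n x y hc with h | ⟨a, r, i₀, κ, hκ, hrn, hrun, htouch, hedge⟩
    · left
      rintro i ⟨d, hd, hed⟩
      have hvd : M.vf (x i) d := ⟨y i, (hc.curve.ve i (x i)).2 (Or.inl rfl), hed⟩
      exact h i ⟨d, hout _ (hvt i) d hd hvd, hvd⟩
    · rcases Nat.eq_zero_or_pos r with rfl | hr
      · left
        rintro i ⟨d, hd, hed⟩
        have hvd : M.vf (x i) d := ⟨y i, (hc.curve.ve i (x i)).2 (Or.inl rfl), hed⟩
        obtain ⟨k, hk, -⟩ := (hedge i).1 ⟨d, hout _ (hvt i) d hd hvd, hed⟩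
        omega
      · right
        refine ⟨a, r, l, i₀, κ, hl, hκ, hrun, ?_⟩
        refine fCyc_data M.toPolyMap (X.S m) D' hSD t ht hout n x y hc (fr M.toInc (X.U l)) ?_
          (X.L.x l) (X.L.y l) (X.L.line l).curve a r hr hrn htouch hedge
        intro e he
        rcases hD' with rfl | rfl
        · exact he
        · exact fCyc_fr _ _ _ he
  have hSdef : ∀ d, d ∉ X.S m → d ∉ X.U m ∨ d ∈ X.U (m + 1) := by
    intro d hd
    by_cases hdm : d ∈ X.U m
    · right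
      by_contra hd1
      exact hd ⟨hdm, hd1⟩
    · exact Or.inl hdm
  by_cases hA : ∃ v, M.vf v t ∧ ∃ g, g ∉ X.U m ∧ M.vf v g
  · obtain ⟨u, hut, g, hg, hug⟩ := hA
    refine main m (X.U m) (X.U m)ᶜ (Or.inl rfl) rfl (Or.inr rfl) ?_ ?_
    · intro f hf
      exact not_not.2 hf.1
    · intro v hv d hd hvd
      rcases hSdef d hd with h | h
      · exact h
      · exact absurd ⟨u, hut, hug⟩ (X.seq.far m d h g hg t ⟨v, hvd, hv⟩)
  · refine main (m + 1) (X.U (m + 1)) (X.U (m + 1)) (Or.inr rfl) rfl (Or.inl rfl) ?_ ?_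
    · intro f hf
      exact hf.2
    · intro v hv d hd hvd
      rcases hSdef d hd with h | h
      · exact absurd ⟨v, hv, d, h, hvd⟩ hA
      · exact h

theorem fCyc (h1 : Stmt_FRun) (h3 : Stmt_FaceCycle) : Stmt_FCyc := by
  intro V E F G _ _ _ _ M X m
  constructor
  · intro e
    rcases e with e | f
    · obtain ⟨u, v, huv, h⟩ := M.edge_verts e.1
      have hall : ∀ f, M.ef e.1 f → f ∈ X.S m := fun f hf => not_not.1 (e.2 f hf)
      refine ⟨⟨u, fCyc_inCV M.toPolyMap (X.S m) u e.1 ((h u).2 (Or.inl rfl)) hall⟩,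
        ⟨v, fCyc_inCV M.toPolyMap (X.S m) v e.1 ((h v).2 (Or.inr rfl)) hall⟩, ?_, ?_⟩
      · intro heq
        exact huv (congrArg Subtype.val heq)
      · intro w
        show M.ve w.1 e.1 ↔ _
        rw [h w.1, Subtype.ext_iff, Subtype.ext_iff]
    · obtain ⟨n, x, y, hc⟩ := h3 V E F M.toPolyMap f.1
      obtain ⟨hfS, e, hef, d, hd, hed⟩ := f.2
      rcases fCyc_key h1 M X m f.1 (not_not.1 hfS) n x y hc with h | ⟨a, r, l, i₀, κ, -, -, -, hdat⟩
      · exfalso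
        obtain ⟨i, rfl⟩ := (hc.curve.mem e).1 hef
        exact h i ⟨d, hd, hed⟩
      · have c1 := fCyc_vert hdat 0 le_rfl (by have := hdat.two; omega)
        have hnr : ((n - r : ℕ) : ℤ) = n - r := by
          rw [Nat.cast_sub (by have := hdat.two; omega)]
        have c2 := fCyc_vert hdat (n - r : ℕ) (by omega) (by rw [hnr]; ring_nf; omega)
        have e1 : a + (r : ℤ) + 0 = a + r := by ring
        have e2 : a + (r : ℤ) + ((n - r : ℕ) : ℤ) = a + n := by rw [hnr]; ring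
        rw [e1] at c1
        rw [e2, fCyc_per hdat] at c2
        refine ⟨⟨x a, c2⟩, ⟨x (a + r), c1⟩, ?_, ?_⟩
        · intro heq
          exact fCyc_xends_ne hdat (congrArg Subtype.val heq)
        · intro w
          show (M.vf w.1 f.1 ∧ Touch M.toInc (X.S m)ᶜ w.1) ↔ _
          rw [fCyc_ends hdat w.1 w.2, Subtype.ext_iff, Subtype.ext_iff]
  · intro t n x y hc
    rcases fCyc_key h1 M X m t.1 (not_not.1 t.2) n x y hc with h | ⟨a, r, l, i₀, κ, hl, hκ, hrun, hdat⟩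
    · exact Or.inl ⟨h, fCyc_plain M.toPolyMap (X.S m) t n x y hc h⟩
    · exact Or.inr ⟨a, r, l, i₀, κ, hl, hκ, hdat.one, hdat.two, hrun, hdat.touch,
        fCyc_contract M.toPolyMap (X.S m) t n x y a r hdat⟩

end Pool.Agent.CT
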