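import Pool.Agent.CT.FDefs
import Pool.Agent.CT.T.TFinal

set_option autoImplicit false

/-! # F20: the frieze structure of a tiling in normal form -/

namespace Pool.Agent.CT

open Set Metric

section

variable (K : DiscTiling)

theorem fData_compact (t : K.F) : IsCompact t.1 := by
  obtain ⟨c, γ, hD⟩ := disc_final t.1 (K.n1 t.1 t.2)
  exact hD.compact

theorem fData_preconn (t : K.F) : IsPreconnected t.1 := by
  have h := K.n2 t.1 t.2 t.1 t.2
  rwa [inter_self] at h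

theorem fData_nonempty (t : K.F) : t.1.Nonempty := by
  obtain ⟨c, γ, hD⟩ := disc_final t.1 (K.n1 t.1 t.2)
  exact ⟨c, interior_subset hD.center⟩

theorem fData_bound (t : K.F) : ∃ B : ℕ, ∀ z ∈ t.1, |z.im| ≤ B := by
  obtain ⟨R, hR⟩ := (fData_compact K t).isBounded.exists_norm_le
  obtain ⟨B, hB⟩ := exists_nat_ge R
  exact ⟨B, fun z hz => (Complex.abs_im_le_norm z).trans ((hR z hz).trans hB)⟩

theorem fData_cover (z : ℂ) : ∃ t : K.F, z ∈ t.1 := by
  have h : z ∈ ⋃₀ K.T := by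
    rw [K.tiling.cover]
    exact mem_univ z
  obtain ⟨t, ht, hz⟩ := h
  exact ⟨⟨t, ht⟩, hz⟩

/-- The tiles meeting a ball form a finite set of faces. -/
theorem fData_locfin (r : ℝ) : {t : K.F | (t.1 ∩ closedBall 0 r).Nonempty}.Finite := by
  have h := (basic_final K).locfin r
  refine Finite.of_finite_image (f := Subtype.val) (h.subset ?_) Subtype.val_injective.injOn
  rintro _ ⟨t, ht, rfl⟩
  exact ⟨t.2, ht⟩

theorem fData_touch (M : Inc K.V K.E K.F) (hM : K.IsMap M) {f g : K.F} (h : FTouch M f g) :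
    ∃ z, z ∈ f.1 ∧ z ∈ g.1 := by
  obtain ⟨v, ⟨e, h1, h2⟩, ⟨d, h3, h4⟩⟩ := h
  exact ⟨v.1, (hM.ef e f).1 h2 ((hM.ve v e).1 h1), (hM.ef d g).1 h4 ((hM.ve v d).1 h3)⟩

/-- A connected set with points of both signs of the imaginary part has a real point. -/
theorem fData_ivt (t : K.F) {z w : ℂ} (hz : z ∈ t.1) (hw : w ∈ t.1) (h1 : z.im ≤ 0)
    (h2 : 0 ≤ w.im) : ∃ u ∈ t.1, u.im = 0 := by
  have h := (fData_preconn K t).image Complex.im Complex.continuous_im.continuousOn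
  have h3 := h.Icc_subset (mem_image_of_mem _ hz) (mem_image_of_mem _ hw) ⟨h1, h2⟩
  obtain ⟨u, hu, hu'⟩ := h3
  exact ⟨u, hu, hu'⟩

variable {K} (a : ℝ) (ha : 0 < a) (τ : symGroup K.T)
  (hτ : ∀ (n : ℤ) (z : ℂ), (τ ^ n).1 z = z + ((n * a : ℝ) : ℂ))

include ha hτ

/-- Tiles meeting the strip of height `B` are translates of finitely many ones. -/
theorem fData_orb (B : ℝ) : ∃ W : Set K.F, W.Finite ∧ ∀ f : K.F, (∃ z ∈ f.1, |z.im| ≤ B) →
    ∃ n : ℤ, ∃ w ∈ W, f = τ ^ n • w := by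
  refine ⟨_, fData_locfin K (a + B), ?_⟩
  rintro f ⟨z, hz, hzB⟩
  set n : ℤ := ⌊z.re / a⌋ with hn
  refine ⟨n, τ ^ (-n) • f, ?_, ?_⟩
  · refine ⟨(τ ^ (-n)).1 z, mem_image_of_mem _ hz, ?_⟩
    rw [hτ, mem_closedBall, dist_zero_right]
    have h1 : |(z + (((-n : ℤ) * a : ℝ) : ℂ)).re| ≤ a := by
      have h2 : (n : ℝ) ≤ z.re / a := Int.floor_le _
      have h3 : z.re / a < n + 1 := Int.lt_floor_add_one _
      rw [le_div_iff₀ ha] at h2
      rw [div_lt_iff₀ ha] at h3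
      rw [Complex.add_re, Complex.ofReal_re, abs_le]
      push_cast
      constructor <;> nlinarith
    have h2 : |(z + (((-n : ℤ) * a : ℝ) : ℂ)).im| ≤ B := by
      rw [Complex.add_im, Complex.ofReal_im, add_zero]
      exact hzB
    exact (Complex.norm_le_abs_re_add_abs_im _).trans (add_le_add h1 h2)
  · rw [smul_smul, ← zpow_add, add_neg_cancel, zpow_zero, one_smul]

/-- Tiles meeting a bounded strip lie in a bounded strip. -/
theorem fData_strip (B : ℝ) : ∃ B' : ℕ, ∀ f : K.F, (∃ z ∈ f.1, |z.im| ≤ B) →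
    ∀ z ∈ f.1, |z.im| ≤ B' := by
  obtain ⟨W, hW, hWf⟩ := fData_orb a ha τ hτ B
  choose b hb using fData_bound K
  obtain ⟨B', hB'⟩ := (hW.image b).bddAbove
  refine ⟨B', ?_⟩
  intro f hf z hz
  obtain ⟨n, w, hw, rfl⟩ := hWf f hf
  obtain ⟨u, hu, rfl⟩ := hz
  rw [hτ, Complex.add_im, Complex.ofReal_im, add_zero]
  have h1 : b w ≤ B' := hB' (mem_image_of_mem b hw)
  exact (hb w u hu).trans (by exact_mod_cast h1)

theorem fData_sep : ∃ j : ℕ, ∀ f g : K.F, (∃ z, z ∈ f.1 ∧ z ∈ g.1) →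
    (∃ z ∈ f.1, 0 < z.im) → (∃ z ∈ g.1, z.im < 0) →
    (∀ z ∈ f.1, |z.im| ≤ j) ∧ ∀ z ∈ g.1, |z.im| ≤ j := by
  obtain ⟨B1, hB1⟩ := fData_strip a ha τ hτ 0
  obtain ⟨B2, hB2⟩ := fData_strip a ha τ hτ B1
  refine ⟨max B1 B2, ?_⟩
  rintro f g ⟨v, hvf, hvg⟩ ⟨z, hz, hz0⟩ ⟨w, hw, hw0⟩
  have e1 : (B1 : ℝ) ≤ ((max B1 B2 : ℕ) : ℝ) := by exact_mod_cast le_max_left B1 B2
  have e2 : (B2 : ℝ) ≤ ((max B1 B2 : ℕ) : ℝ) := by exact_mod_cast le_max_right B1 B2
  rcases le_total v.im 0 with h | h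
  · obtain ⟨u, hu, hu0⟩ := fData_ivt K f hvf hz h hz0.le
    have h1 := hB1 f ⟨u, hu, by rw [hu0, abs_zero]⟩
    have h2 := hB2 g ⟨v, hvg, h1 v hvf⟩
    exact ⟨fun x hx => (h1 x hx).trans e1, fun x hx => (h2 x hx).trans e2⟩
  · obtain ⟨u, hu, hu0⟩ := fData_ivt K g hw hvg hw0.le h
    have h1 := hB1 g ⟨u, hu, by rw [hu0, abs_zero]⟩
    have h2 := hB2 f ⟨v, hvf, h1 v hvg⟩
    exact ⟨fun x hx => (h2 x hx).trans e2, fun x hx => (h1 x hx).trans e1⟩

end

theorem fData : Stmt_FData := by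
  intro K M hM hNF
  obtain ⟨⟨a, ha, haT⟩, hform⟩ := hNF
  have hcount : Countable K.V := (threeFin_final K).2.2.to_subtype
  refine ⟨hcount, ?_⟩
  have hform' : ∀ s : symGroup K.T, ∃ c ε δ : ℝ, (ε = 1 ∨ ε = -1) ∧ (δ = 1 ∨ δ = -1) ∧
      ∀ z : ℂ, s.1 z = ⟨ε * z.re + c, δ * z.im⟩ := fun s => hform s.1 s.2
  choose c ε δ hε hδ hs using hform'
  have hre : ∀ (s : symGroup K.T) (z : ℂ), (s.1 z).re = ε s * z.re + c s := by
    intro s z
    rw [hs]
  have him : ∀ (s : symGroup K.T) (z : ℂ), (s.1 z).im = δ s * z.im := by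
    intro s z
    rw [hs]
  have hcmul : ∀ g h : symGroup K.T, c (g * h) = ε g * c h + c g := by
    intro g h
    have h1 := hre (g * h) 0
    have h2 : ((g * h).1 0).re = (g.1 (h.1 0)).re := rfl
    rw [h2, hre, hre] at h1
    simp only [Complex.zero_re, mul_zero, zero_add] at h1
    linarith
  have hεmul : ∀ g h : symGroup K.T, ε (g * h) = ε g * ε h := by
    intro g h
    have h1 := hre (g * h) 1
    have h2 : ((g * h).1 1).re = (g.1 (h.1 1)).re := rfl
    rw [h2, hre, hre, hcmul] at h1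
    simp only [Complex.one_re, mul_one] at h1
    linarith
  have hδmul : ∀ g h : symGroup K.T, δ (g * h) = δ g * δ h := by
    intro g h
    have h1 := him (g * h) Complex.I
    have h2 : ((g * h).1 Complex.I).im = (g.1 (h.1 Complex.I)).im := rfl
    rw [h2, him, him] at h1
    simp only [Complex.I_im, mul_one] at h1
    linarith
  have hinj : ∀ g h : symGroup K.T, ε g = ε h → δ g = δ h → c g = c h → g = h := by
    intro g h h1 h2 h3
    apply Subtype.ext
    apply IsometryEquiv.ext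
    intro z
    rw [hs, hs, h1, h2, h3]
  -- the translation
  set τ : symGroup K.T := ⟨IsometryEquiv.addRight (a : ℂ), haT⟩ with hτdef
  have hτ1 : ∀ z : ℂ, τ.1 z = z + (a : ℂ) := fun z => rfl
  have hτinv : ∀ z : ℂ, (τ⁻¹).1 z = z + ((-a : ℝ) : ℂ) := by
    intro z
    have h1 : τ.1 ((τ⁻¹).1 z) = z := τ.1.apply_symm_apply z
    rw [hτ1] at h1
    push_cast
    linear_combination h1
  have hτ : ∀ (n : ℤ) (z : ℂ), (τ ^ n).1 z = z + ((n * a : ℝ) : ℂ) := by
    intro n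
    induction n using Int.induction_on with
    | zero =>
      intro z
      rw [zpow_zero]
      show z = _
      push_cast
      ring
    | succ n ih =>
      intro z
      rw [zpow_add_one]
      show (τ ^ (n : ℤ)).1 (τ.1 z) = _
      rw [ih, hτ1]
      push_cast
      ring
    | pred n ih =>
      intro z
      rw [zpow_sub_one]
      show (τ ^ (-(n : ℤ))).1 ((τ⁻¹).1 z) = _
      rw [ih, hτinv]
      push_cast
      ring
  have hετ : ε τ = 1 := by
    have h1 := hre τ 1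
    have h2 := hre τ 0
    rw [hτ1] at h1 h2
    simp only [Complex.add_re, Complex.one_re, Complex.ofReal_re, Complex.zero_re, mul_one,
      mul_zero] at h1 h2
    linarith
  have hcτ : c τ = a := by
    have h2 := hre τ 0
    rw [hτ1] at h2
    simp only [Complex.add_re, Complex.ofReal_re, Complex.zero_re, mul_zero] at h2
    linarith
  have hδτ : δ τ = 1 := by
    have h1 := him τ Complex.I
    rw [hτ1] at h1
    simp only [Complex.add_im, Complex.I_im, Complex.ofReal_im, mul_one] at h1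
    linarith
  obtain ⟨-, hR1, hR2⟩ := regions_final K M.toInc hM
  obtain ⟨J, hJ⟩ := fData_sep a ha τ hτ
  let Up : ℕ → Set K.F := fun k => {t | (t.1 ∩ {z : ℂ | (k : ℝ) < z.im}).Nonempty}
  let Lo : ℕ → Set K.F := fun k => {t | (t.1 ∩ {z : ℂ | z.im < -(k : ℝ)}).Nonempty}
  refine ⟨{ act := ?_, eps := ε, del := δ, c := c, eps_one := hε, del_one := hδ,
            eps_mul := hεmul, del_mul := hδmul, c_mul := hcmul, inj := hinj, τ := τ,
            τ_eps := hετ, τ_del := hδτ, τ_pos := by rw [hcτ]; exact ha, free := ?_,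
            Up := Up, Lo := Lo, up_end := ?_, lo_end := ?_, up_inv := ?_, lo_inv := ?_,
            up_swap := ?_, lo_swap := ?_, orb := ?_, sep := ?_ }, ?_⟩
  · constructor
    · intro g v e h
      rw [hM.ve] at h ⊢
      exact mem_image_of_mem _ h
    · intro g e f h
      rw [hM.ef] at h ⊢
      exact image_mono h
  · rintro g h1 h2 ⟨v, hv⟩
    have h3 : g.1 v.1 = v.1 := congrArg Subtype.val hv
    have h4 := hre g v.1
    rw [h3, h1] at h4
    linarith
  · refine ⟨?_, ?_, ?_, ?_⟩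
    · intro k k' hk t ht
      obtain ⟨z, hz, hz'⟩ := ht
      have hk' : (k : ℝ) ≤ k' := by exact_mod_cast hk
      exact ⟨z, hz, lt_of_le_of_lt hk' hz'⟩
    · intro k
      obtain ⟨t, ht⟩ := fData_cover K ⟨0, k + 1⟩
      exact ⟨t, _, ht, by show (k : ℝ) < k + 1; linarith⟩
    · intro k
      exact hR1 k
    · intro t
      obtain ⟨B, hB⟩ := fData_bound K t
      refine ⟨B, ?_⟩
      rintro ⟨z, hz, hz'⟩
      have h1 := (le_abs_self z.im).trans (hB z hz)
      exact absurd hz' (not_lt.2 h1)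
  · refine ⟨?_, ?_, ?_, ?_⟩
    · intro k k' hk t ht
      obtain ⟨z, hz, hz'⟩ := ht
      have hk' : -(k' : ℝ) ≤ -(k : ℝ) := by
        have : (k : ℝ) ≤ k' := by exact_mod_cast hk
        linarith
      exact ⟨z, hz, lt_of_lt_of_le hz' hk'⟩
    · intro k
      obtain ⟨t, ht⟩ := fData_cover K ⟨0, -k - 1⟩
      exact ⟨t, _, ht, by show -(k : ℝ) - 1 < -k; linarith⟩
    · intro k
      exact hR2 (-k)
    · intro t
      obtain ⟨B, hB⟩ := fData_bound K t
      refine ⟨B, ?_⟩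
      rintro ⟨z, hz, hz'⟩
      have h1 := (neg_le_abs z.im).trans (hB z hz)
      have h2 : z.im < -(B : ℝ) := hz'
      linarith
  · rintro g k f h1 ⟨z, hz, hz'⟩
    refine ⟨g.1 z, mem_image_of_mem _ hz, ?_⟩
    show (k : ℝ) < (g.1 z).im
    rw [him, h1, one_mul]
    exact hz'
  · rintro g k f h1 ⟨z, hz, hz'⟩
    refine ⟨g.1 z, mem_image_of_mem _ hz, ?_⟩
    show (g.1 z).im < -(k : ℝ)
    rw [him, h1, one_mul]
    exact hz'
  · rintro g k f h1 ⟨z, hz, hz'⟩
    refine ⟨g.1 z, mem_image_of_mem _ hz, ?_⟩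
    show (g.1 z).im < -(k : ℝ)
    rw [him, h1]
    have h2 : (k : ℝ) < z.im := hz'
    linarith
  · rintro g k f h1 ⟨z, hz, hz'⟩
    refine ⟨g.1 z, mem_image_of_mem _ hz, ?_⟩
    show (k : ℝ) < (g.1 z).im
    rw [him, h1]
    have h2 : z.im < -(k : ℝ) := hz'
    linarith
  · intro k
    obtain ⟨W, hW, hWf⟩ := fData_orb a ha τ hτ k
    refine ⟨W, hW, fun f h1 h2 => hWf f ?_⟩
    obtain ⟨z, hz⟩ := fData_nonempty K f
    refine ⟨z, hz, ?_⟩
    rw [abs_le]
    constructor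
    · by_contra hcon
      exact h2 ⟨z, hz, not_le.1 hcon⟩
    · by_contra hcon
      exact h1 ⟨z, hz, not_le.1 hcon⟩
  · intro k
    have hk : (0 : ℝ) ≤ k := Nat.cast_nonneg k
    have hJ0 : (0 : ℝ) ≤ J := Nat.cast_nonneg J
    refine ⟨J, ?_, ?_⟩
    · rintro f ⟨z, hz, hz'⟩ g ⟨w, hw, hw'⟩ ht
      have hz'' : (k : ℝ) < z.im := hz'
      have hw'' : w.im < -(J : ℝ) := hw'
      have h := (hJ f g (fData_touch K M.toInc hM ht) ⟨z, hz, by linarith⟩
        ⟨w, hw, by linarith⟩).2 w hw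
      have h1 := (neg_le_abs w.im).trans h
      linarith
    · rintro f ⟨z, hz, hz'⟩ g ⟨w, hw, hw'⟩ ht
      have hz'' : (J : ℝ) < z.im := hz'
      have hw'' : w.im < -(k : ℝ) := hw'
      have h := (hJ f g (fData_touch K M.toInc hM ht) ⟨z, hz, by linarith⟩
        ⟨w, hw, by linarith⟩).1 z hz
      have h1 := (le_abs_self z.im).trans h
      linarith
  · intro s z
    exact hs s z

end Pool.Agent.CT
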