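import Pool.Agent.CT.HDefs

set_option autoImplicit false

/-! # Part G: symmetry groups, normal forms, and the top level assembly -/

namespace Pool.Agent.CT

open Set Metric

/-- The image of a tiling under an isometry. -/
noncomputable def DiscTiling.map (K : DiscTiling) (A : ℂ ≃ᵢ ℂ) : DiscTiling where
  T := (fun t => A '' t) '' K.T
  tiling := by
    refine ⟨K.tiling.countable.image _, ?_, ?_, ?_⟩
    · rintro _ ⟨t, ht, rfl⟩
      exact A.toHomeomorph.isClosedMap _ (K.tiling.closed t ht)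
    · rw [← image_sUnion, K.tiling.cover, image_univ]
      exact A.surjective.range_eq
    · rintro _ ⟨t, ht, rfl⟩ _ ⟨t', ht', rfl⟩ hne
      have h1 : interior (A '' t) = A '' interior t := (A.toHomeomorph.image_interior t).symm
      have h2 : interior (A '' t') = A '' interior t' := (A.toHomeomorph.image_interior t').symm
      show Disjoint (interior (A '' t)) (interior (A '' t'))
      rw [h1, h2]
      refine (disjoint_image_iff A.injective).2 (K.tiling.disj t ht t' ht' ?_)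
      rintro rfl
      exact hne rfl
  n1 := by
    rintro _ ⟨t, ht, rfl⟩
    obtain ⟨e⟩ := K.n1 t ht
    exact ⟨(A.toHomeomorph.image t).symm.trans e⟩
  n2 := by
    rintro _ ⟨t, ht, rfl⟩ _ ⟨t', ht', rfl⟩
    show IsPreconnected (A '' t ∩ A '' t')
    rw [← image_inter A.injective]
    exact (K.n2 t ht t' ht').image _ A.continuous.continuousOn
  nosing := by
    intro P hP
    refine K.nosing (A.symm P) fun r hr => ?_
    have h := hP r hr
    intro hfin
    apply h
    refine (hfin.image (fun t => A '' t)).subset ?_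
    rintro _ ⟨⟨t, ht, rfl⟩, z, hz, hzP⟩
    refine ⟨t, ⟨ht, ?_⟩, rfl⟩
    obtain ⟨y, hy, rfl⟩ := hz
    refine ⟨y, hy, ?_⟩
    rw [mem_closedBall] at hzP ⊢
    calc dist y (A.symm P) = dist (A y) (A (A.symm P)) := (A.dist_eq _ _).symm
      _ = dist (A y) P := by rw [A.apply_symm_apply]
      _ ≤ r := hzP

theorem map_isSymmetry (K : DiscTiling) (A s : ℂ ≃ᵢ ℂ) (hs : IsSymmetry K.T s) :
    IsSymmetry (K.map A).T ((A.symm.trans s).trans A) := by
  have hs' : (fun t => s '' t) '' K.T = K.T := hs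
  show (fun t => ((A.symm.trans s).trans A) '' t) '' ((fun t => A '' t) '' K.T) =
    (fun t => A '' t) '' K.T
  rw [image_image]
  have h1 : (fun t : Set ℂ => ((A.symm.trans s).trans A) '' (A '' t)) =
      fun t => A '' (s '' t) := by
    funext t
    rw [image_image, image_image]
    refine image_congr fun z _ => ?_
    show A (s (A.symm (A z))) = A (s z)
    rw [A.symm_apply_apply]
  rw [h1]
  have h2 : (fun t : Set ℂ => A '' (s '' t)) '' K.T =
      (fun t => A '' t) '' ((fun t => s '' t) '' K.T) := by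
    rw [image_image]
  rw [h2, hs']

theorem map_isSymmetry' (K : DiscTiling) (A s : ℂ ≃ᵢ ℂ) (hs : IsSymmetry (K.map A).T s) :
    IsSymmetry K.T ((A.trans s).trans A.symm) := by
  have hs' : (fun t => s '' t) '' ((fun t => A '' t) '' K.T) = (fun t => A '' t) '' K.T := hs
  show (fun t => ((A.trans s).trans A.symm) '' t) '' K.T = K.T
  have hinj : Function.Injective (fun t : Set (Set ℂ) => (fun t : Set ℂ => A '' t) '' t) :=
    (A.injective.image_injective).image_injective
  apply hinj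
  show (fun t => A '' t) '' ((fun t => ((A.trans s).trans A.symm) '' t) '' K.T) =
    (fun t => A '' t) '' K.T
  rw [← hs', image_image, image_image]
  refine image_congr fun t _ => ?_
  show A '' (((A.trans s).trans A.symm) '' t) = s '' (A '' t)
  rw [image_image, image_image]
  refine image_congr fun z _ => ?_
  show A (A.symm (s (A z))) = s (A z)
  rw [A.apply_symm_apply]

/-- The conclusion of the main theorem for one tiling. -/
def MainConc (K : DiscTiling) : Prop := ∃ h : ℂ ≃ₜ ℂ, (∀ t ∈ K.T, Convex ℝ (h '' t)) ∧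
    ∀ s : ℂ ≃ᵢ ℂ, IsSymmetry K.T s → ∃ s' : ℂ ≃ᵢ ℂ, ∀ z, h (s z) = s' (h z)

theorem mainConc_of_map (K : DiscTiling) (A : ℂ ≃ᵢ ℂ) (h : MainConc (K.map A)) : MainConc K := by
  obtain ⟨h, h1, h2⟩ := h
  refine ⟨A.toHomeomorph.trans h, ?_, ?_⟩
  · intro t ht
    have h3 := h1 (A '' t) (mem_image_of_mem _ ht)
    rw [image_image] at h3
    exact h3
  · intro s hs
    obtain ⟨s', hs'⟩ := h2 _ (map_isSymmetry K A s hs)
    refine ⟨s', fun z => ?_⟩
    have h3 := hs' (A z)
    have h4 : ((A.symm.trans s).trans A) (A z) = A (s z) := by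
      show A (s (A.symm (A z))) = A (s z)
      rw [A.symm_apply_apply]
    rw [h4] at h3
    exact h3

/-- The translation by `a` is a symmetry. -/
def IsTrans (K : DiscTiling) (a : ℂ) : Prop := IsSymmetry K.T (IsometryEquiv.addRight a)

/-- Frieze case in normal form: a nonzero horizontal translation is a symmetry, and all symmetries
have the form `(x, y) ↦ (± x + c, ± y)`. -/
def FriezeNF (K : DiscTiling) : Prop := (∃ a : ℝ, 0 < a ∧ IsTrans K a) ∧
  ∀ s : ℂ ≃ᵢ ℂ, IsSymmetry K.T s → ∃ c ε δ : ℝ, (ε = 1 ∨ ε = -1) ∧ (δ = 1 ∨ δ = -1) ∧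
    ∀ z : ℂ, s z = ⟨ε * z.re + c, δ * z.im⟩

/-- Wallpaper case. -/
def WallNF (K : DiscTiling) : Prop :=
  ∃ a b : ℂ, IsTrans K a ∧ IsTrans K b ∧ LinearIndependent ℝ ![a, b]

/-- Normal form of the symmetry group. -/
def NormalForm (K : DiscTiling) : Prop :=
  (symGroup K.T : Set (ℂ ≃ᵢ ℂ)).Finite ∨ FriezeNF K ∨ WallNF K

/-- G1: rank of the translations. (Uses finiteness of stabilisers of tiles.) -/
def Stmt_Tri : Prop := ∀ K : DiscTiling,
  (∀ t ∈ K.T, {s : ℂ ≃ᵢ ℂ | s ∈ symGroup K.T ∧ s '' t = t}.Finite) →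
  (symGroup K.T : Set (ℂ ≃ᵢ ℂ)).Finite ∨
  (∃ a : ℂ, a ≠ 0 ∧ IsTrans K a ∧ ∀ b, IsTrans K b → ∃ r : ℝ, b = r * a) ∨ WallNF K

/-- G2: normal form in the frieze case. -/
def Stmt_FriezeForm : Prop := ∀ (K : DiscTiling) (a : ℂ), a ≠ 0 → IsTrans K a →
  (∀ b, IsTrans K b → ∃ r : ℝ, b = r * a) → ∃ A : ℂ ≃ᵢ ℂ, FriezeNF (K.map A)

/-- Drawing statement in normal form. -/
def Stmt_DrawNF : Prop := ∀ (K : DiscTiling) (M : PlaneMap K.V K.E K.F), K.IsMap M.toInc →
  NormalForm K → ∃ φ : K.V → ℂ, IsDrawing M.toInc φ ∧ EquivDrawing K φ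

/-- Everything from the parts. -/
theorem main_of_parts (hTri : Stmt_Tri) (hFr : Stmt_FriezeForm) (hMap : Stmt_Map)
    (hTopo : Stmt_Topo) (hFin : Stmt_FinStab) (hDraw : Stmt_DrawNF) (hHomeo : Stmt_Homeo) :
    ∀ K : DiscTiling, MainConc K := by
  have key : ∀ K : DiscTiling, NormalForm K → MainConc K := by
    intro K hK
    obtain ⟨M, hM⟩ := hMap K
    obtain ⟨φ, hφ, hE⟩ := hDraw K M hM hK
    exact hHomeo K M.toPolyMap hM (hTopo K) φ hφ hE
  intro K
  obtain ⟨M, hM⟩ := hMap K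
  have h := (hFin K M.toPolyMap hM (hTopo K)).1
  rcases hTri K (fun t ht => h ⟨t, ht⟩) with h | ⟨a, ha, haT, hb⟩ | h
  · exact key K (Or.inl h)
  · obtain ⟨A, hA⟩ := hFr K a ha haT hb
    exact mainConc_of_map K A (key _ (Or.inr (Or.inl hA)))
  · exact key K (Or.inr (Or.inr h))

end Pool.Agent.CT
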