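import Pool.Agent.CT.BDefs
import Pool.Agent.CT.GDefs

set_option autoImplicit false

/-! # Part F: friezes (section 9). Definitions and frozen statements -/

namespace Pool.Agent.CT

open Set Metric

/-- Two faces with a common vertex (or equal, for faces with vertices). -/
def FTouch {V E F : Type} (M : Inc V E F) (f g : F) : Prop := ∃ v, M.vf v f ∧ M.vf v g

/-- Adjacency weights. -/
noncomputable def vw {V E F : Type} (M : Inc V E F) (v u : V) : ℝ := by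
  classical exact if M.vadj.Adj v u then 1 else 0

/-- The structure formed by a set `S` of faces, with the boundary runs contracted: the coarse map
of the complement without the big face. -/
def stripInc {V E F : Type} (M : Inc V E F) (S : Set F) :
    Inc (CV M Sᶜ) (CE M Sᶜ) {f : F // f ∉ Sᶜ} where
  ve := (coarse M Sᶜ).ve
  ef e f := (coarse M Sᶜ).ef e (some f)

/-- A plane map with a frieze group acting on it: `g` acts as `(x, y) ↦ (eps g * x + c g, del g * y)`,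
`τ` is a translation, `Up` and `Lo` describe the two ends of the strip. -/
structure Frieze {V E F : Type} (M : PlaneMap V E F) (G : Type) [Group G] [MulAction G V]
    [MulAction G E] [MulAction G F] where
  act : Equiv M.toInc G
  eps : G → ℝ
  del : G → ℝ
  c : G → ℝ
  eps_one : ∀ g, eps g = 1 ∨ eps g = -1
  del_one : ∀ g, del g = 1 ∨ del g = -1
  eps_mul : ∀ g h, eps (g * h) = eps g * eps h
  del_mul : ∀ g h, del (g * h) = del g * del h
  c_mul : ∀ g h, c (g * h) = eps g * c h + c g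
  inj : ∀ g h, eps g = eps h → del g = del h → c g = c h → g = h
  τ : G
  τ_eps : eps τ = 1
  τ_del : del τ = 1
  τ_pos : 0 < c τ
  free : ∀ g, eps g = 1 → del g = 1 → (∃ v : V, g • v = v) → c g = 0
  Up : ℕ → Set F
  Lo : ℕ → Set F
  up_end : IsEnd M.fadj Up
  lo_end : IsEnd M.fadj Lo
  up_inv : ∀ g k f, del g = 1 → f ∈ Up k → g • f ∈ Up k
  lo_inv : ∀ g k f, del g = 1 → f ∈ Lo k → g • f ∈ Lo k
  up_swap : ∀ g k f, del g = -1 → f ∈ Up k → g • f ∈ Lo k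
  lo_swap : ∀ g k f, del g = -1 → f ∈ Lo k → g • f ∈ Up k
  orb : ∀ k, ∃ W : Set F, W.Finite ∧ ∀ f, f ∉ Up k → f ∉ Lo k → ∃ n : ℤ, ∃ w ∈ W, f = τ ^ n • w
  sep : ∀ k, ∃ j, (∀ f ∈ Up k, ∀ g ∈ Lo j, ¬ FTouch M.toInc f g) ∧
    ∀ f ∈ Up j, ∀ g ∈ Lo k, ¬ FTouch M.toInc f g

section frieze

variable {V E F G : Type} [Group G] [MulAction G V] [MulAction G E] [MulAction G F]
  {M : PlaneMap V E F}

namespace Frieze

/-- The isometry attached to `g`. -/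
def mv (Φ : Frieze M G) (g : G) (z : ℂ) : ℂ := ⟨Φ.eps g * z.re + Φ.c g, Φ.del g * z.im⟩

/-- The action of `g` on the indices of the lines: line `m` has height `m + 1/2`. -/
noncomputable def idx (Φ : Frieze M G) (g : G) (m : ℤ) : ℤ := by
  classical exact if Φ.del g = 1 then m else -1 - m

/-- A bi-tight cut between the two ends, invariant under the elements preserving the ends. -/
structure IsCut (Φ : Frieze M G) (A : Set F) : Prop where
  conn : ConnIn M.fadj A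
  conn' : ConnIn M.fadj Aᶜ
  tight : ∀ t, ConnIn M.fadj (A \ {t})
  tight' : ∀ t, ConnIn M.fadj (Aᶜ \ {t})
  inv : ∀ g f, Φ.del g = 1 → f ∈ A → g • f ∈ A
  up : ∃ j, Φ.Up j ⊆ A
  lo : ∃ j, Φ.Lo j ⊆ Aᶜ

/-- A doubly infinite sequence of cuts, far apart. -/
structure IsSeq (Φ : Frieze M G) (U : ℤ → Set F) : Prop where
  cut : ∀ m, Φ.IsCut (U m)
  anti : ∀ m, U (m + 1) ⊆ U m
  far : ∀ m, ∀ f ∈ U (m + 1), ∀ g, g ∉ U m → ∀ t, FTouch M.toInc f t → ¬ FTouch M.toInc t g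
  ex : ∀ f, ∃ m, f ∈ U m
  ex' : ∀ f, ∃ m, f ∉ U m
  swap : ∀ g m f, Φ.del g = -1 → (f ∈ U m ↔ g • f ∉ U (-1 - m))
  orb : ∀ m, ∃ W : Set F, W.Finite ∧ ∀ f, f ∈ U m → f ∉ U (m + 1) →
    ∃ n : ℤ, ∃ w ∈ W, f = Φ.τ ^ n • w

/-- The frontier of a cut is a line on which the translation acts as a shift. -/
structure IsLine (Φ : Frieze M G) (A : Set F) (x : ℤ → V) (y : ℤ → E) (p : ℤ) : Prop where
  curve : IsCurve M.toInc (fr M.toInc A) 0 x y
  pos : 0 < p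
  shift : ∀ i, Φ.τ • x i = x (i + p)

/-- Equivariant enumerations and positions for the lines of a sequence of cuts. -/
structure Lines (Φ : Frieze M G) (U : ℤ → Set F) where
  x : ℤ → ℤ → V
  y : ℤ → ℤ → E
  p : ℤ → ℤ
  β : ℤ → ℝ
  line : ∀ m, Φ.IsLine (U m) (x m) (y m) (p m)
  img : ∀ g m i, ∃ j, g • x m i = x (Φ.idx g m) j
  pos : ∀ g m i j, g • x m i = x (Φ.idx g m) j →
    Φ.c Φ.τ * j / p (Φ.idx g m) + β (Φ.idx g m) = Φ.eps g * (Φ.c Φ.τ * i / p m + β m) + Φ.c g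

/-- The point for the `i`-th vertex of line `m`. -/
noncomputable def pt (Φ : Frieze M G) {U : ℤ → Set F} (L : Φ.Lines U) (m i : ℤ) : ℂ :=
  ⟨Φ.c Φ.τ * i / L.p m + L.β m, m + 1 / 2⟩

/-- Harmonic off the lines, with the given values on the lines, equivariant. -/
structure IsHarm (Φ : Frieze M G) {U : ℤ → Set F} (L : Φ.Lines U) (φ : V → ℂ) : Prop where
  line : ∀ m i, φ (L.x m i) = Φ.pt L m i
  harm : ∀ v, (∀ m i, v ≠ L.x m i) → Harm (vw M.toInc) φ v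
  eqv : ∀ (g : G) (v : V), φ (g • v) = Φ.mv g (φ v)

end Frieze

/-- Everything together. -/
structure FCtx (M : PlaneMap V E F) (G : Type) [Group G] [MulAction G V] [MulAction G E]
    [MulAction G F] where
  Φ : Frieze M G
  U : ℤ → Set F
  seq : Φ.IsSeq U
  L : Φ.Lines U
  φ : V → ℂ
  harm : Φ.IsHarm L φ

namespace FCtx

/-- The faces of strip `m`, between line `m` (below) and line `m + 1` (above). -/
def S (X : FCtx M G) (m : ℤ) : Set F := X.U m \ X.U (m + 1)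

/-- The block of strip `m`. -/
def blk (X : FCtx M G) (m : ℤ) :
    Inc (CV M.toInc (X.S m)ᶜ) (CE M.toInc (X.S m)ᶜ) {f : F // f ∉ (X.S m)ᶜ} :=
  stripInc M.toInc (X.S m)

/-- The drawing of the block. -/
def ψ (X : FCtx M G) (m : ℤ) (v : CV M.toInc (X.S m)ᶜ) : ℂ := X.φ v.1

/-- `v` lies on no line. -/
def Inner (X : FCtx M G) (v : V) : Prop := ∀ l i, v ≠ X.L.x l i

/-- `v` is a vertex of the block of strip `m`: it lies in at least two faces of the strip. -/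
def InCV (X : FCtx M G) (m : ℤ) (v : V) : Prop :=
  ∃ f g, f ≠ g ∧ f ∉ (X.S m)ᶜ ∧ g ∉ (X.S m)ᶜ ∧ M.vf v f ∧ M.vf v g

end FCtx

end frieze

/-! ## Frozen statements -/

/-- F1: distant faces do not touch. -/
def Stmt_FFar : Prop := ∀ (V E F G : Type) [Group G] [MulAction G V] [MulAction G E]
  [MulAction G F] (M : PlaneMap V E F) (Φ : Frieze M G) (k : ℕ),
  (∃ j, ∀ f ∈ Φ.Up j, ∀ g, g ∉ Φ.Up k → ¬ FTouch M.toInc f g) ∧
  (∃ j, ∀ f ∈ Φ.Lo j, ∀ g, g ∉ Φ.Lo k → ¬ FTouch M.toInc f g) ∧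
  ∃ j, ∀ f ∈ Φ.Up j, ∀ g ∈ Φ.Lo j, ∀ t, FTouch M.toInc f t → ¬ FTouch M.toInc t g

/-- F2: cuts near the ends. -/
def Stmt_FCut : Prop := ∀ (V E F G : Type) [Group G] [MulAction G V] [MulAction G E]
  [MulAction G F] (M : PlaneMap V E F) (Φ : Frieze M G) (m : ℕ),
  (∃ A, Φ.IsCut A ∧ A ⊆ Φ.Up m) ∧ ∃ A, Φ.IsCut A ∧ Aᶜ ⊆ Φ.Lo m

/-- F3: the sequence of cuts. -/
def Stmt_FSeq : Prop := ∀ (V E F G : Type) [Group G] [MulAction G V] [MulAction G E]
  [MulAction G F] (M : PlaneMap V E F) (Φ : Frieze M G), ∃ U, Φ.IsSeq U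

/-- F4: the frontier of a cut is a line. -/
def Stmt_FLine : Prop := ∀ (V E F G : Type) [Group G] [MulAction G V] [MulAction G E]
  [MulAction G F] (M : PlaneMap V E F) (Φ : Frieze M G) (A : Set F), Φ.IsCut A →
  ∃ x y p, Φ.IsLine A x y p

/-- F5: the action on a line, and equivariant positions. -/
def Stmt_FPos : Prop := ∀ (V E F G : Type) [Group G] [MulAction G V] [MulAction G E]
  [MulAction G F] (M : PlaneMap V E F) (Φ : Frieze M G) (A : Set F), Φ.IsCut A →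
  ∀ x y p, Φ.IsLine A x y p →
  (∀ g, Φ.del g = 1 → Φ.eps g = 1 → ∃ s : ℤ, ∀ i, g • x i = x (i + s)) ∧
  (∀ g, Φ.del g = 1 → Φ.eps g = -1 → ∃ s : ℤ, ∀ i, g • x i = x (-i + s)) ∧
  ∃ β : ℝ, ∀ g i j, Φ.del g = 1 → g • x i = x j →
    Φ.c Φ.τ * j / p + β = Φ.eps g * (Φ.c Φ.τ * i / p + β) + Φ.c g

/-- F6: equivariant lines. -/
def Stmt_FLines : Prop := ∀ (V E F G : Type) [Group G] [MulAction G V] [MulAction G E]
  [MulAction G F] (M : PlaneMap V E F) (Φ : Frieze M G) (U : ℤ → Set F), Φ.IsSeq U →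
  Nonempty (Φ.Lines U)

/-- F7: runs. A face on one side `Dᶜ` of a line meets the line in nothing or in a run of
consecutive vertices and edges, and has at least two further edges. -/
def Stmt_FRun : Prop := ∀ (V E F G : Type) [Group G] [MulAction G V] [MulAction G E]
  [MulAction G F] (M : PlaneMap V E F) (Φ : Frieze M G) (A : Set F), Φ.IsCut A →
  ∀ x y p, Φ.IsLine A x y p → ∀ D : Set F, (D = A ∨ D = Aᶜ) → ∀ t, t ∉ D →
  ∀ n x' y', IsFaceCycle M.toInc t n x' y' →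
    (∀ i, ¬ Touch M.toInc D (x' i)) ∨
    ∃ (a : ℤ) (r : ℕ) (i₀ κ : ℤ), (κ = 1 ∨ κ = -1) ∧ r + 2 ≤ n ∧
      (∀ k : ℕ, k ≤ r → x' (a + k) = x (i₀ + κ * k)) ∧
      (∀ i, Touch M.toInc D (x' i) ↔ ∃ k : ℕ, k ≤ r ∧ (n : ℤ) ∣ i - (a + k)) ∧
      (∀ i, (∃ d ∈ D, M.ef (y' i) d) ↔ ∃ k : ℕ, k < r ∧ (n : ℤ) ∣ i - (a + k))

/-- F8: elementary facts about vertices and lines of a sequence: a vertex lies on line `m` iff it
touches both sides; it lies on at most one line; otherwise all its faces are in one strip; an edge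
joining two vertices of the same line is an edge of this line. -/
def Stmt_FVert : Prop := ∀ (V E F G : Type) [Group G] [MulAction G V] [MulAction G E]
  [MulAction G F] (M : PlaneMap V E F) (Φ : Frieze M G) (U : ℤ → Set F), Φ.IsSeq U →
  ∀ L : Φ.Lines U,
  (∀ v m, (∃ i, v = L.x m i) ↔ (Touch M.toInc (U m) v ∧ Touch M.toInc (U m)ᶜ v)) ∧
  (∀ m m' i j, L.x m i = L.x m' j → m = m') ∧
  (∀ v, (∀ m i, v ≠ L.x m i) → ∃ m, ∀ f, M.vf v f → f ∈ U m \ U (m + 1)) ∧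
  (∀ m i f, M.vf (L.x m i) f → f ∈ U (m - 1) \ U (m + 1)) ∧
  (∀ m i j e, i ≠ j → M.ve (L.x m i) e → M.ve (L.x m j) e → e ∈ fr M.toInc (U m))

/-- F8b: finitely many orbits of vertices in each strip, invariance of the strips. -/
def Stmt_FOrb : Prop := ∀ (V E F G : Type) [Group G] [MulAction G V] [MulAction G E]
  [MulAction G F] (M : PlaneMap V E F) (Φ : Frieze M G) (U : ℤ → Set F), Φ.IsSeq U → ∀ m : ℤ,
  (∃ R : Set V, R.Finite ∧ ∀ v f, M.vf v f → f ∈ U m \ U (m + 1) →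
    ∃ n : ℤ, ∃ r ∈ R, v = Φ.τ ^ n • r) ∧
  (∀ g f, Φ.del g = 1 → (f ∈ U m ↔ g • f ∈ U m)) ∧
  (∀ g f, Φ.del g = -1 → (f ∈ U m \ U (m + 1) ↔ g • f ∈ U (-2 - m) \ U (-1 - m)))

/-- F9: on either side of a line, the vertices off the line are connected. -/
def Stmt_FSide : Prop := ∀ (V E F G : Type) [Group G] [MulAction G V] [MulAction G E]
  [MulAction G F] (M : PlaneMap V E F) (Φ : Frieze M G) (A : Set F), Φ.IsCut A →
  ∀ D : Set F, (D = A ∨ D = Aᶜ) → ConnIn M.vadj {v | ∀ f, M.vf v f → f ∈ D}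

/-- F10: existence of the harmonic drawing. -/
def Stmt_FHarm : Prop := ∀ (V E F G : Type) [Group G] [MulAction G V] [MulAction G E]
  [MulAction G F] (M : PlaneMap V E F) (Φ : Frieze M G) (U : ℤ → Set F), Φ.IsSeq U →
  ∀ L : Φ.Lines U, ∃ φ, Φ.IsHarm L φ

/-- F11: heights. -/
def Stmt_FHeight : Prop := ∀ (V E F G : Type) [Group G] [MulAction G V] [MulAction G E]
  [MulAction G F] (M : PlaneMap V E F) (X : FCtx M G) (m : ℤ) (v : V), X.Inner v →
  (∃ f ∈ X.S m, M.vf v f) → (m : ℝ) + 1 / 2 < (X.φ v).im ∧ (X.φ v).im < m + 3 / 2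

/-- F12a: vertices of edges and face cycles of the strip block. -/
def Stmt_FCyc : Prop := ∀ (V E F G : Type) [Group G] [MulAction G V] [MulAction G E]
  [MulAction G F] (M : PlaneMap V E F) (X : FCtx M G) (m : ℤ),
  (∀ e, ∃ u v, u ≠ v ∧ ∀ w, (X.blk m).ve w e ↔ (w = u ∨ w = v)) ∧
  ∀ (t : {f : F // f ∉ (X.S m)ᶜ}) (n : ℕ) (x : ℤ → V) (y : ℤ → E),
    IsFaceCycle M.toInc t.1 n x y →
    (((∀ i, ¬ ∃ d, d ∉ X.S m ∧ M.ef (y i) d) ∧
      ∃ x' y', IsFaceCycle (X.blk m) t n x' y' ∧ ∀ i, (x' i).1 = x i) ∨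
    ∃ (a : ℤ) (r : ℕ) (l i₀ κ : ℤ), (l = m ∨ l = m + 1) ∧ (κ = 1 ∨ κ = -1) ∧ 1 ≤ r ∧
      r + 2 ≤ n ∧ (∀ k : ℕ, k ≤ r → x (a + k) = X.L.x l (i₀ + κ * k)) ∧
      (∀ i, Touch M.toInc (X.S m)ᶜ (x i) ↔ ∃ k : ℕ, k ≤ r ∧ (n : ℤ) ∣ i - (a + k)) ∧
      ∃ x' y', IsFaceCycle (X.blk m) t (n + 1 - r) x' y' ∧
        ∀ j : ℕ, j < n + 1 - r → (x' j).1 = x (a + r + j))

/-- F12b: planarity of the strip block. -/
def Stmt_FPlanar : Prop := ∀ (V E F G : Type) [Group G] [MulAction G V] [MulAction G E]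
  [MulAction G F] (M : PlaneMap V E F) (X : FCtx M G) (m : ℤ),
  StrongPlanar (X.blk m).cellGraph

/-- F12c: adjacency in the strip block. -/
def Stmt_FAdj : Prop := ∀ (V E F G : Type) [Group G] [MulAction G V] [MulAction G E]
  [MulAction G F] (M : PlaneMap V E F) (X : FCtx M G) (m : ℤ),
  (∀ v : CV M.toInc (X.S m)ᶜ, X.Inner v.1 →
    (∀ u, M.vadj.Adj v.1 u → ∃ h : X.InCV m u, (X.blk m).vadj.Adj v ⟨u, h⟩) ∧
    ∀ u, (X.blk m).vadj.Adj v u → M.vadj.Adj v.1 u.1) ∧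
  (∀ v : CV M.toInc (X.S m)ᶜ, ¬ X.Inner v.1 → ∃ l i, (l = m ∨ l = m + 1) ∧ v.1 = X.L.x l i) ∧
  ∀ l, (l = m ∨ l = m + 1) →
    (∀ i, (∃ j, i ≤ j ∧ X.InCV m (X.L.x l j)) ∧ ∃ j, j ≤ i ∧ X.InCV m (X.L.x l j)) ∧
    (∀ i (hi : X.InCV m (X.L.x l i)),
      (∃ j, ∃ hj : X.InCV m (X.L.x l j), i < j ∧
        (X.blk m).vadj.Adj ⟨X.L.x l i, hi⟩ ⟨X.L.x l j, hj⟩) ∧
      ∃ j, ∃ hj : X.InCV m (X.L.x l j), j < i ∧
        (X.blk m).vadj.Adj ⟨X.L.x l i, hi⟩ ⟨X.L.x l j, hj⟩) ∧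
    ∀ i j (hi : X.InCV m (X.L.x l i)) (hj : X.InCV m (X.L.x l j)), i ≤ j →
      ReachIn (X.blk m).vadj {v | ∃ k, i ≤ k ∧ k ≤ j ∧ v.1 = X.L.x l k}
        ⟨X.L.x l i, hi⟩ ⟨X.L.x l j, hj⟩

/-- F12d: the strip block is connected. -/
def Stmt_FConn : Prop := ∀ (V E F G : Type) [Group G] [MulAction G V] [MulAction G E]
  [MulAction G F] (M : PlaneMap V E F) (X : FCtx M G) (m : ℤ),
  ConnIn (X.blk m).vadj univ

/-- F13: local finiteness. -/
def Stmt_FLoc : Prop := ∀ (V E F G : Type) [Group G] [MulAction G V] [MulAction G E]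
  [MulAction G F] (M : PlaneMap V E F) (X : FCtx M G) (R : ℝ),
  {v | ‖X.φ v‖ ≤ R}.Finite ∧ {f | (poly M.toInc X.φ f ∩ closedBall 0 R).Nonempty}.Finite

/-- F14a: upper level sets of the strip block are connected, non-vertical functionals. -/
def Stmt_FUp1 : Prop := ∀ (V E F G : Type) [Group G] [MulAction G V] [MulAction G E]
  [MulAction G F] (M : PlaneMap V E F) (X : FCtx M G) (m : ℤ) (w : ℂ), w.re ≠ 0 → ∀ c : ℝ,
  ConnIn (X.blk m).vadj {v | c < dir w (X.ψ m v)}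

/-- F14b: upper level sets of the strip block are connected, vertical functionals. -/
def Stmt_FUp2 : Prop := ∀ (V E F G : Type) [Group G] [MulAction G V] [MulAction G E]
  [MulAction G F] (M : PlaneMap V E F) (X : FCtx M G) (m : ℤ) (w : ℂ), w ≠ 0 → w.re = 0 →
  ∀ c : ℝ, ConnIn (X.blk m).vadj {v | c < dir w (X.ψ m v)}

/-- F15: the strip block satisfies the assumptions of the block theorem. -/
def Stmt_FHyp : Prop := ∀ (V E F G : Type) [Group G] [MulAction G V] [MulAction G E]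
  [MulAction G F] (M : PlaneMap V E F) (X : FCtx M G) (m : ℤ)
  (B : Blk (CV M.toInc (X.S m)ᶜ) (CE M.toInc (X.S m)ᶜ) {f : F // f ∉ (X.S m)ᶜ}),
  B.toInc = X.blk m → BlkHyp B {v | X.Inner v.1} (X.ψ m)

/-- F16: the faces. -/
def Stmt_FFaces : Prop := ∀ (V E F G : Type) [Group G] [MulAction G V] [MulAction G E]
  [MulAction G F] (M : PlaneMap V E F) (X : FCtx M G) (m : ℤ) (t : {f : F // f ∉ (X.S m)ᶜ}),
  FaceOK M.toInc X.φ t.1 ∧ FaceOK (X.blk m) (X.ψ m) t ∧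
    poly M.toInc X.φ t.1 = poly (X.blk m) (X.ψ m) t

/-- F17a: a reference point. -/
def Stmt_FRef : Prop := ∀ (V E F G : Type) [Group G] [MulAction G V] [MulAction G E]
  [MulAction G F] (M : PlaneMap V E F) (X : FCtx M G) (m : ℤ),
  ∃ (w : ℂ) (t : {f : F // f ∉ (X.S m)ᶜ}), (m : ℝ) + 1 / 2 < w.im ∧ w.im < m + 3 / 2 ∧
    w ∈ interior (poly (X.blk m) (X.ψ m) t) ∧
    ∀ t', t' ≠ t → w ∉ poly (X.blk m) (X.ψ m) t'

/-- F17b: the faces of a strip tile the strip. -/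
def Stmt_FTile : Prop := ∀ (V E F G : Type) [Group G] [MulAction G V] [MulAction G E]
  [MulAction G F] [Countable V] (M : PlaneMap V E F) (X : FCtx M G) (m : ℤ),
  (∀ w : ℂ, (m : ℝ) + 1 / 2 < w.im → w.im < m + 3 / 2 →
    ∃ f ∈ X.S m, w ∈ poly M.toInc X.φ f) ∧
  (∀ f ∈ X.S m, ∀ g ∈ X.S m, f ≠ g →
    Disjoint (interior (poly M.toInc X.φ f)) (interior (poly M.toInc X.φ g))) ∧
  ∀ f ∈ X.S m, poly M.toInc X.φ f ⊆ {w | (m : ℝ) + 1 / 2 ≤ w.im ∧ w.im ≤ m + 3 / 2}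

/-- F18: the predrawing. -/
def Stmt_FPre : Prop := ∀ (V E F G : Type) [Group G] [MulAction G V] [MulAction G E]
  [MulAction G F] [Countable V] (M : PlaneMap V E F) (X : FCtx M G), PreDrawing M.toInc X.φ

/-- Main statement of part F. -/
def Stmt_FriezeDraw : Prop := ∀ (V E F G : Type) [Group G] [MulAction G V] [MulAction G E]
  [MulAction G F] [Countable V] (M : PlaneMap V E F) (Φ : Frieze M G),
  ∃ φ : V → ℂ, IsDrawing M.toInc φ ∧ ∀ (g : G) (v : V), φ (g • v) = Φ.mv g (φ v)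

/-- F20: the frieze structure of a tiling in normal form. -/
def Stmt_FData : Prop := ∀ (K : DiscTiling) (M : PlaneMap K.V K.E K.F), K.IsMap M.toInc →
  FriezeNF K → Countable K.V ∧
  ∃ Φ : Frieze M (symGroup K.T), ∀ (s : symGroup K.T) (z : ℂ), s.1 z = Φ.mv s z

/-- The frieze case of `Stmt_DrawNF`. -/
def Stmt_DrawFrieze : Prop := ∀ (K : DiscTiling) (M : PlaneMap K.V K.E K.F), K.IsMap M.toInc →
  FriezeNF K → ∃ φ : K.V → ℂ, IsDrawing M.toInc φ ∧ EquivDrawing K φ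

end Pool.Agent.CT
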