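import Pool.Agent.CT.FDefs

set_option autoImplicit false

/-! # F16: the faces of the drawing -/

namespace Pool.Agent.CT

open Set Metric

section

variable {V E F G : Type} [Group G] [MulAction G V] [MulAction G E] [MulAction G F]
  {M : PlaneMap V E F}

/-- The strip block as a `Blk`. -/
theorem fFaces_blk (hCyc : Stmt_FCyc) (hPl : Stmt_FPlanar) (hFC : Stmt_FaceCycle)
    (X : FCtx M G) (m : ℤ) :
    ∃ B : Blk (CV M.toInc (X.S m)ᶜ) (CE M.toInc (X.S m)ᶜ) {f : F // f ∉ (X.S m)ᶜ},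
      B.toInc = X.blk m := by
  obtain ⟨h1, h2⟩ := hCyc V E F G M X m
  refine ⟨⟨X.blk m, h1, ?_, hPl V E F G M X m⟩, rfl⟩
  intro f
  obtain ⟨n, x, y, hc⟩ := hFC V E F M.toPolyMap f.1
  rcases h2 f n x y hc with ⟨-, x', y', hc', -⟩ | ⟨a, r, l, i₀, κ, -, -, -, -, -, -, x', y', hc', -⟩
  · exact ⟨n, x', y', hc'⟩
  · exact ⟨_, x', y', hc'⟩

/-- The conclusions of the block theorem for the strip block. -/
theorem fFaces_concl (hCyc : Stmt_FCyc) (hPl : Stmt_FPlanar) (hFC : Stmt_FaceCycle)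
    (hHyp : Stmt_FHyp) (hBl : Stmt_Block) (X : FCtx M G) (m : ℤ) :
    BlkConcl (X.blk m) (X.ψ m) := by
  obtain ⟨B, hB⟩ := fFaces_blk hCyc hPl hFC X m
  have h := hBl _ _ _ B _ _ (hHyp V E F G M X m B hB)
  rwa [hB] at h

theorem fFaces (hCyc : Stmt_FCyc) (hPl : Stmt_FPlanar) (hFC : Stmt_FaceCycle)
    (hHyp : Stmt_FHyp) (hBl : Stmt_Block) (hFS : Stmt_FaceStrict) (hSub : Stmt_FaceSub) :
    Stmt_FFaces := by
  intro V E F G _ _ _ _ M X m t
  have hC := fFaces_concl hCyc hPl hFC hHyp hBl X m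
  obtain ⟨n, x, y, hc⟩ := hFC V E F M.toPolyMap t.1
  rcases (hCyc V E F G M X m).2 t n x y hc with ⟨-, x', y', hc', hx'⟩ |
    ⟨a, r, l, i₀, κ, -, hκ, hr1, hrn, hxr, -, x', y', hc', hx'⟩
  · have hs := hC.strict t n x' y' hc'
    have hfun : (fun i => X.ψ m (x' i)) = fun i => X.φ (x i) := by
      funext i
      show X.φ (x' i).1 = _
      rw [hx']
    obtain ⟨h1, h2⟩ := hFS _ _ _ (X.blk m) (X.ψ m) t n x' y' hc' hs
    rw [hfun] at hs h2
    obtain ⟨h3, h4⟩ := hFS _ _ _ M.toInc X.φ t.1 n x y hc hs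
    exact ⟨h3, h1, h4.trans h2.symm⟩
  · have hs := hC.strict t (n + 1 - r) x' y' hc'
    obtain ⟨h1, h2⟩ := hFS _ _ _ (X.blk m) (X.ψ m) t (n + 1 - r) x' y' hc' hs
    have hr0 : (r : ℝ) ≠ 0 := by
      have : 0 < r := hr1
      positivity
    have hval : ∀ k : ℕ, k ≤ r → X.φ (x (a + k)) = X.Φ.pt X.L l (i₀ + κ * k) := by
      intro k hk
      rw [hxr k hk, X.harm.line]
    have k1 : ∀ j : ℕ, j < n + 1 - r → (fun i => X.ψ m (x' i)) j = X.φ (x (a + r + j)) := by
      intro j hj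
      show X.φ (x' j).1 = _
      rw [hx' j hj]
    have k2 : (fun k : ℕ => (k : ℝ) / r) 0 = 0 := by simp
    have k3 : (fun k : ℕ => (k : ℝ) / r) r = 1 := div_self hr0
    have k4 : ∀ j < r, (fun k : ℕ => (k : ℝ) / r) j < (fun k : ℕ => (k : ℝ) / r) (j + 1) := by
      intro j _
      have hr0' : (0 : ℝ) < r := by positivity
      show (j : ℝ) / r < ((j + 1 : ℕ) : ℝ) / r
      gcongr
      simp
    have k5 : ∀ j : ℕ, j ≤ r → X.φ (x (a + j)) =
        X.φ (x a) + (((fun k : ℕ => (k : ℝ) / r) j : ℝ) : ℂ) * (X.φ (x (a + r)) - X.φ (x a)) := by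
      intro j hj
      have e0 : X.φ (x a) = X.Φ.pt X.L l i₀ := by
        have := hval 0 (Nat.zero_le _)
        simpa using this
      rw [hval j hj, e0, hval r le_rfl]
      apply Complex.ext
      · simp only [Frieze.pt, Complex.add_re, Complex.mul_re, Complex.sub_re, Complex.sub_im,
          Complex.ofReal_re, Complex.ofReal_im]
        push_cast
        field_simp
        ring
      · simp only [Frieze.pt, Complex.add_im, Complex.mul_im, Complex.sub_re, Complex.sub_im,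
          Complex.ofReal_re, Complex.ofReal_im]
        ring
    obtain ⟨h3, h4⟩ := hSub _ _ _ M.toInc X.φ t.1 n x y hc a r (n + 1 - r)
      (fun k => (k : ℝ) / r) (fun i => X.ψ m (x' i)) hr1 (by omega) hs k1 k2 k3 k4 k5
    exact ⟨h3, h1, h4.trans h2.symm⟩

end

end Pool.Agent.CT
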