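import Pool.Agent.CT.FDefs

set_option autoImplicit false

/-! # FAR: distant faces do not touch -/

namespace Pool.Agent.CT

open Set Metric

section

variable {V E F G : Type} [Group G] [MulAction G V] [MulAction G E] [MulAction G F]
  {M : PlaneMap V E F}

theorem fFar_touch_symm {M : Inc V E F} {f g : F} (h : FTouch M f g) : FTouch M g f := by
  obtain ⟨v, h1, h2⟩ := h
  exact ⟨v, h2, h1⟩

theorem fFar_vf (Φ : Frieze M G) (g : G) {v : V} {f : F} (h : M.vf v f) :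
    M.vf (g • v) (g • f) := by
  obtain ⟨e, h1, h2⟩ := h
  exact ⟨g • e, Φ.act.ve g v e h1, Φ.act.ef g e f h2⟩

theorem fFar_touch_smul (Φ : Frieze M G) (g : G) {f f' : F} (h : FTouch M.toInc f f') :
    FTouch M.toInc (g • f) (g • f') := by
  obtain ⟨v, h1, h2⟩ := h
  exact ⟨g • v, fFar_vf Φ g h1, fFar_vf Φ g h2⟩

theorem fFar_del_one (Φ : Frieze M G) : Φ.del 1 = 1 := by
  have h := Φ.del_mul 1 1
  rw [mul_one] at h
  rcases Φ.del_one 1 with h1 | h1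
  · exact h1
  · rw [h1] at h
    norm_num at h

theorem fFar_del_zpow (Φ : Frieze M G) (n : ℤ) : Φ.del (Φ.τ ^ n) = 1 := by
  have hinv : Φ.del Φ.τ⁻¹ = 1 := by
    have h := Φ.del_mul Φ.τ Φ.τ⁻¹
    rw [mul_inv_cancel, fFar_del_one, Φ.τ_del, one_mul] at h
    exact h.symm
  induction n using Int.induction_on with
  | zero => rw [zpow_zero]; exact fFar_del_one Φ
  | succ i ih => rw [zpow_add_one, Φ.del_mul, ih, Φ.τ_del, mul_one]
  | pred i ih => rw [zpow_sub_one, Φ.del_mul, ih, hinv, mul_one]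

theorem fFar_fin_touch (M : PolyMap V E F) (w : F) : {t | FTouch M.toInc w t}.Finite := by
  have hE : {e | M.ef e w}.Finite := M.face_fin w
  have hV : {v | M.vf v w}.Finite := by
    have : {v | M.vf v w} ⊆ ⋃ e ∈ {e | M.ef e w}, {v | M.ve v e} := by
      intro v hv
      obtain ⟨e, h1, h2⟩ := hv
      exact mem_biUnion h2 h1
    refine (hE.biUnion ?_).subset this
    intro e _
    obtain ⟨u, v, -, h⟩ := M.edge_verts e
    refine ((Set.finite_singleton u).union (Set.finite_singleton v)).subset ?_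
    intro x hx
    rcases (h x).1 hx with h1 | h1
    · left; exact h1
    · right; exact h1
  have : {t | FTouch M.toInc w t} ⊆
      ⋃ v ∈ {v | M.vf v w}, ⋃ e ∈ {e | M.ve v e}, {f | M.ef e f} := by
    intro t ht
    obtain ⟨v, h1, e, h2, h3⟩ := ht
    exact mem_biUnion h1 (mem_biUnion h2 h3)
  refine (hV.biUnion ?_).subset this
  intro v _
  refine (M.vert_fin v).biUnion ?_
  intro e _
  obtain ⟨f, g, -, h⟩ := M.edge_faces e
  refine ((Set.finite_singleton f).union (Set.finite_singleton g)).subset ?_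
  intro x hx
  rcases (h x).1 hx with h1 | h1
  · left; exact h1
  · right; exact h1

theorem fFar_avoid {α : Type} {T : Set α} (hT : T.Finite) {Ed : ℕ → Set α} (ha : Antitone Ed)
    (hf : ∀ x, ∃ j, x ∉ Ed j) : ∃ J, ∀ t ∈ T, t ∉ Ed J := by
  choose j hj using hf
  obtain ⟨J, hJ⟩ := (hT.image j).bddAbove
  refine ⟨J, fun t ht h => ?_⟩
  exact hj t (ha (hJ (mem_image_of_mem j ht)) h)

theorem fFar_up (Φ : Frieze M G) (k : ℕ) :
    ∃ j, ∀ f ∈ Φ.Up j, ∀ g, g ∉ Φ.Up k → ¬ FTouch M.toInc f g := by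
  obtain ⟨W, hW, horb⟩ := Φ.orb k
  have hT : (⋃ w ∈ W, {t | FTouch M.toInc w t}).Finite :=
    hW.biUnion fun w _ => fFar_fin_touch M.toPolyMap w
  obtain ⟨j1, hj1⟩ := fFar_avoid hT Φ.up_end.anti Φ.up_end.fin
  obtain ⟨j2, -, hj2⟩ := Φ.sep k
  refine ⟨max j1 j2, fun f hf g hg hfg => ?_⟩
  by_cases hl : g ∈ Φ.Lo k
  · exact hj2 f (Φ.up_end.anti (le_max_right _ _) hf) g hl hfg
  · obtain ⟨n, w, hw, rfl⟩ := horb g hg hl
    have h1 := fFar_touch_smul Φ (Φ.τ ^ (-n)) hfg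
    rw [smul_smul, ← zpow_add, neg_add_cancel, zpow_zero, one_smul] at h1
    have h2 : Φ.τ ^ (-n) • f ∈ Φ.Up j1 :=
      Φ.up_inv _ _ _ (fFar_del_zpow Φ _) (Φ.up_end.anti (le_max_left _ _) hf)
    exact hj1 _ (mem_biUnion hw (fFar_touch_symm h1)) h2

theorem fFar_lo (Φ : Frieze M G) (k : ℕ) :
    ∃ j, ∀ f ∈ Φ.Lo j, ∀ g, g ∉ Φ.Lo k → ¬ FTouch M.toInc f g := by
  obtain ⟨W, hW, horb⟩ := Φ.orb k
  have hT : (⋃ w ∈ W, {t | FTouch M.toInc w t}).Finite :=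
    hW.biUnion fun w _ => fFar_fin_touch M.toPolyMap w
  obtain ⟨j1, hj1⟩ := fFar_avoid hT Φ.lo_end.anti Φ.lo_end.fin
  obtain ⟨j2, hj2, -⟩ := Φ.sep k
  refine ⟨max j1 j2, fun f hf g hg hfg => ?_⟩
  by_cases hl : g ∈ Φ.Up k
  · exact hj2 g hl f (Φ.lo_end.anti (le_max_right _ _) hf) (fFar_touch_symm hfg)
  · obtain ⟨n, w, hw, rfl⟩ := horb g hl hg
    have h1 := fFar_touch_smul Φ (Φ.τ ^ (-n)) hfg
    rw [smul_smul, ← zpow_add, neg_add_cancel, zpow_zero, one_smul] at h1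
    have h2 : Φ.τ ^ (-n) • f ∈ Φ.Lo j1 :=
      Φ.lo_inv _ _ _ (fFar_del_zpow Φ _) (Φ.lo_end.anti (le_max_left _ _) hf)
    exact hj1 _ (mem_biUnion hw (fFar_touch_symm h1)) h2

end

theorem fFar : Stmt_FFar := by
  intro V E F G _ _ _ _ M Φ k
  refine ⟨fFar_up Φ k, fFar_lo Φ k, ?_⟩
  obtain ⟨j1, hj1⟩ := fFar_up Φ 0
  obtain ⟨j2, hj2, -⟩ := Φ.sep 0
  refine ⟨max j1 j2, fun f hf g hg t hft htg => ?_⟩
  have ht : t ∈ Φ.Up 0 := by
    by_contra h
    exact hj1 f (Φ.up_end.anti (le_max_left _ _) hf) t h hft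
  exact hj2 t ht g (Φ.lo_end.anti (le_max_right _ _) hg) htg

end Pool.Agent.CT
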