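import Pool.Agent.CT.FDefs

set_option autoImplicit false

/-! # Part F: assembly -/

namespace Pool.Agent.CT

open Set Metric

theorem fDraw (hSeq : Stmt_FSeq) (hLines : Stmt_FLines) (hHarm : Stmt_FHarm) (hPre : Stmt_FPre)
    (hInter : Stmt_PreInter) : Stmt_FriezeDraw := by
  intro V E F G _ _ _ _ _ M Φ
  obtain ⟨U, hU⟩ := hSeq V E F G M Φ
  obtain ⟨L⟩ := hLines V E F G M Φ U hU
  obtain ⟨φ, hφ⟩ := hHarm V E F G M Φ U hU L
  let X : FCtx M G := ⟨Φ, U, hU, L, φ, hφ⟩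
  exact ⟨φ, hInter V E F M.toPolyMap φ (hPre V E F G M X), hφ.eqv⟩

theorem drawFrieze (hDraw : Stmt_FriezeDraw) (hData : Stmt_FData) : Stmt_DrawFrieze := by
  intro K M hM hK
  obtain ⟨hc, Φ, hΦ⟩ := hData K M hM hK
  obtain ⟨φ, hφ, hφe⟩ := hDraw K.V K.E K.F (symGroup K.T) M Φ
  refine ⟨φ, hφ, fun s hs => ⟨s, fun v w hw => ?_⟩⟩
  have h1 : w = (⟨s, hs⟩ : symGroup K.T) • v := Subtype.ext hw
  rw [h1, hφe, ← hΦ]

end Pool.Agent.CT
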