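import Pool.Agent.CT.FDefs

set_option autoImplicit false

/-! # F10: existence of the harmonic drawing of a frieze -/

namespace Pool.Agent.CT

open Set

section basics

variable {V E F : Type}

theorem fHarm_vw_pos {M : Inc V E F} {v u : V} (h : M.vadj.Adj v u) : vw M v u = 1 := by
  unfold vw
  rw [if_pos h]

theorem fHarm_vw_neg {M : Inc V E F} {v u : V} (h : ¬ M.vadj.Adj v u) : vw M v u = 0 := by
  unfold vw
  rw [if_neg h]

theorem fHarm_adj_of_vw {M : Inc V E F} {v u : V} (h : vw M v u ≠ 0) : M.vadj.Adj v u := by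
  by_contra h'
  exact h (fHarm_vw_neg h')

theorem fHarm_net (M : PolyMap V E F) : Net (vw M.toInc) := by
  constructor
  · intro v
    have h1 : (⋃ e ∈ {e | M.ve v e}, {u | M.ve u e}).Finite := by
      refine (M.vert_fin v).biUnion fun e _ => ?_
      obtain ⟨a, b, _, hab⟩ := M.edge_verts e
      refine Set.Finite.subset (Set.toFinite {a, b}) ?_
      intro w hw
      rcases (hab w).1 hw with rfl | rfl
      · simp
      · simp
    refine h1.subset ?_
    intro u hu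
    have hadj := fHarm_adj_of_vw hu
    obtain ⟨_, e, he1, he2⟩ := hadj
    simp only [mem_iUnion]
    exact ⟨e, he1, he2⟩
  · intro v u
    by_cases h : M.vadj.Adj v u
    · rw [fHarm_vw_pos h]; norm_num
    · rw [fHarm_vw_neg h]

theorem fHarm_psi0 {H V : Type} [Group H] [MulAction H V]
    (hfree : ∀ (h : H) (v : V), h • v = v → h = 1) (a : H → ℂ)
    (ha : ∀ h k, a (h * k) = a h + a k) :
    ∃ ψ : V → ℂ, ∀ (h : H) (v : V), ψ (h • v) = ψ v + a h := by
  classical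
  let s := MulAction.orbitRel H V
  have hrep : ∀ v : V, ∃ h : H, h • (Quotient.mk s v).out = v := by
    intro v
    have h1 : s (Quotient.mk s v).out v := Quotient.mk_out v
    have h2 : s v (Quotient.mk s v).out := s.symm h1
    have h3 : v ∈ MulAction.orbit H (Quotient.mk s v).out := h2
    obtain ⟨h, hh⟩ := h3
    exact ⟨h, hh⟩
  choose k hk using hrep
  refine ⟨fun v => a (k v), ?_⟩
  intro h v
  have h1 : (Quotient.mk s (h • v)) = Quotient.mk s v := by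
    apply Quotient.sound
    show (h • v) ∈ MulAction.orbit H v
    exact ⟨h, rfl⟩
  have h2 : k (h • v) • (Quotient.mk s v).out = h • v := by
    have h4 := hk (h • v)
    rw [h1] at h4
    exact h4
  have h3 : k (h • v) = h * k v := by
    have h5 : ((h * k v)⁻¹ * k (h • v)) • (Quotient.mk s v).out = (Quotient.mk s v).out := by
      rw [mul_smul, h2, inv_smul_eq_iff, mul_smul, hk v]
    have h6 := hfree _ _ h5
    exact (inv_mul_eq_one.1 h6).symm
  show a (k (h • v)) = a (k v) + a h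
  rw [h3, ha, add_comm]

end basics

section frieze

variable {V E F G : Type} [Group G] [MulAction G V] [MulAction G E] [MulAction G F]
  {M : PlaneMap V E F}

theorem fHarm_eps_one (Φ : Frieze M G) : Φ.eps 1 = 1 := by
  have h := Φ.eps_mul 1 1
  rw [one_mul] at h
  rcases Φ.eps_one 1 with h1 | h1
  · exact h1
  · rw [h1] at h; norm_num at h

theorem fHarm_del_one (Φ : Frieze M G) : Φ.del 1 = 1 := by
  have h := Φ.del_mul 1 1
  rw [one_mul] at h
  rcases Φ.del_one 1 with h1 | h1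
  · exact h1
  · rw [h1] at h; norm_num at h

theorem fHarm_c_one (Φ : Frieze M G) : Φ.c 1 = 0 := by
  have h := Φ.c_mul 1 1
  rw [one_mul, fHarm_eps_one] at h
  linarith

theorem fHarm_eps_inv (Φ : Frieze M G) (g : G) : Φ.eps g⁻¹ = Φ.eps g := by
  have h := Φ.eps_mul g g⁻¹
  rw [mul_inv_cancel, fHarm_eps_one] at h
  rcases Φ.eps_one g with h1 | h1 <;> rw [h1] at h ⊢ <;> linarith

theorem fHarm_del_inv (Φ : Frieze M G) (g : G) : Φ.del g⁻¹ = Φ.del g := by
  have h := Φ.del_mul g g⁻¹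
  rw [mul_inv_cancel, fHarm_del_one] at h
  rcases Φ.del_one g with h1 | h1 <;> rw [h1] at h ⊢ <;> linarith

/-- The subgroup of translations. -/
def fHarm_T (Φ : Frieze M G) : Subgroup G where
  carrier := {g | Φ.eps g = 1 ∧ Φ.del g = 1}
  mul_mem' := by
    rintro a b ⟨h1, h2⟩ ⟨h3, h4⟩
    exact ⟨by rw [Φ.eps_mul, h1, h3, one_mul], by rw [Φ.del_mul, h2, h4, one_mul]⟩
  one_mem' := ⟨fHarm_eps_one Φ, fHarm_del_one Φ⟩
  inv_mem' := by
    rintro a ⟨h1, h2⟩
    exact ⟨by rw [fHarm_eps_inv, h1], by rw [fHarm_del_inv, h2]⟩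

theorem fHarm_T_free (Φ : Frieze M G) (h : fHarm_T Φ) (v : V) (hv : h • v = v) : h = 1 := by
  obtain ⟨g, hg1, hg2⟩ := h
  have h1 : g • v = v := hv
  have h2 := Φ.free g hg1 hg2 ⟨v, h1⟩
  apply Subtype.ext
  show g = 1
  exact Φ.inj g 1 (by rw [hg1, fHarm_eps_one]) (by rw [hg2, fHarm_del_one])
    (by rw [h2, fHarm_c_one])

theorem fHarm_T_add (Φ : Frieze M G) (h k : fHarm_T Φ) :
    ((Φ.c (h * k : fHarm_T Φ).1 : ℝ) : ℂ) = (Φ.c h.1 : ℂ) + (Φ.c k.1 : ℂ) := by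
  have h1 : Φ.c (h.1 * k.1) = Φ.c h.1 + Φ.c k.1 := by
    rw [Φ.c_mul, h.2.1]; ring
  show ((Φ.c (h.1 * k.1) : ℝ) : ℂ) = _
  rw [h1]; push_cast; rfl

theorem fHarm_adj (Φ : Frieze M G) (g : G) {u v : V} (h : M.vadj.Adj u v) :
    M.vadj.Adj (g • u) (g • v) := by
  obtain ⟨hne, e, h1, h2⟩ := h
  exact ⟨fun h => hne (MulAction.injective g h), g • e, Φ.act.ve g _ _ h1, Φ.act.ve g _ _ h2⟩

theorem fHarm_adj_iff (Φ : Frieze M G) (g : G) (u v : V) :
    M.vadj.Adj (g • u) (g • v) ↔ M.vadj.Adj u v := by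
  refine ⟨fun h => ?_, fHarm_adj Φ g⟩
  have h1 := fHarm_adj Φ g⁻¹ h
  rwa [inv_smul_smul, inv_smul_smul] at h1

theorem fHarm_vw_inv (Φ : Frieze M G) (g : G) (u v : V) :
    vw M.toInc (g • u) (g • v) = vw M.toInc u v := by
  by_cases h : M.vadj.Adj u v
  · rw [fHarm_vw_pos h, fHarm_vw_pos (fHarm_adj Φ g h)]
  · rw [fHarm_vw_neg h, fHarm_vw_neg]
    rwa [fHarm_adj_iff Φ]

theorem fHarm_vf (Φ : Frieze M G) (g : G) {v : V} {f : F} (h : M.vf v f) :
    M.vf (g • v) (g • f) := by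
  obtain ⟨e, h1, h2⟩ := h
  exact ⟨g • e, Φ.act.ve g _ _ h1, Φ.act.ef g _ _ h2⟩

theorem fHarm_face (M : PlaneMap V E F) (v : V) : ∃ f, M.vf v f := by
  have h1 := M.vert_card v
  have h2 : {e | M.ve v e}.Nonempty := by
    by_contra h
    rw [Set.not_nonempty_iff_eq_empty] at h
    rw [h, Set.ncard_empty] at h1
    omega
  obtain ⟨e, he⟩ := h2
  obtain ⟨f, _, _, hf⟩ := M.edge_faces e
  exact ⟨f, e, he, (hf f).2 (Or.inl rfl)⟩

theorem fHarm_adj_face (M : PlaneMap V E F) {u v : V} (h : M.vadj.Adj u v) :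
    ∃ f, M.vf u f ∧ M.vf v f := by
  obtain ⟨_, e, h1, h2⟩ := h
  obtain ⟨f, _, _, hf⟩ := M.edge_faces e
  exact ⟨f, ⟨e, h1, (hf f).2 (Or.inl rfl)⟩, ⟨e, h2, (hf f).2 (Or.inl rfl)⟩⟩

theorem fHarm_anti {Φ : Frieze M G} {U : ℤ → Set F} (hU : Φ.IsSeq U) {a b : ℤ} (h : a ≤ b) :
    U b ⊆ U a := by
  obtain ⟨n, rfl⟩ := Int.le.dest h
  clear h
  induction n with
  | zero => simp
  | succ n ih =>
    refine Subset.trans ?_ ih
    have := hU.anti (a + n)
    rw [add_assoc] at this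
    exact_mod_cast this

theorem fHarm_strip {Φ : Frieze M G} {U : ℤ → Set F} (hU : Φ.IsSeq U) {a b : ℤ} {f : F}
    (h1 : f ∈ U a \ U (a + 1)) (h2 : f ∈ U b \ U (b + 1)) : a = b := by
  by_contra hne
  rcases lt_or_gt_of_ne hne with h | h
  · exact h1.2 (fHarm_anti hU (by omega) h2.1)
  · exact h2.2 (fHarm_anti hU (by omega) h1.1)

/-- `v` is on a line. -/
def fHarm_On {Φ : Frieze M G} {U : ℤ → Set F} (L : Φ.Lines U) (v : V) : Prop :=
  ∃ m i, v = L.x m i

/-- Inner vertices of strip `m`. -/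
def fHarm_I {Φ : Frieze M G} {U : ℤ → Set F} (L : Φ.Lines U) (m : ℤ) : Set V :=
  {v | ¬ fHarm_On L v ∧ ∀ f, M.vf v f → f ∈ U m \ U (m + 1)}

theorem fHarm_on_smul {Φ : Frieze M G} {U : ℤ → Set F} (L : Φ.Lines U) (g : G) {v : V}
    (h : fHarm_On L v) : fHarm_On L (g • v) := by
  obtain ⟨m, i, rfl⟩ := h
  obtain ⟨j, hj⟩ := L.img g m i
  exact ⟨_, j, hj⟩

theorem fHarm_on_iff {Φ : Frieze M G} {U : ℤ → Set F} (L : Φ.Lines U) (g : G) (v : V) :
    fHarm_On L (g • v) ↔ fHarm_On L v := by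
  refine ⟨fun h => ?_, fHarm_on_smul L g⟩
  have h1 := fHarm_on_smul L g⁻¹ h
  rwa [inv_smul_smul] at h1

theorem fHarm_idx_pos (Φ : Frieze M G) {g : G} (h : Φ.del g = 1) (m : ℤ) : Φ.idx g m = m := by
  unfold Frieze.idx
  rw [if_pos h]

theorem fHarm_idx_neg (Φ : Frieze M G) {g : G} (h : Φ.del g = -1) (m : ℤ) :
    Φ.idx g m = -1 - m := by
  unfold Frieze.idx
  rw [if_neg]
  rw [h]; norm_num

/-- The strip to which strip `m` is mapped. -/
noncomputable def fHarm_j (Φ : Frieze M G) (g : G) (m : ℤ) : ℤ := by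
  classical exact if Φ.del g = 1 then m else -2 - m

theorem fHarm_I_smul (hOrb : Stmt_FOrb) {Φ : Frieze M G} {U : ℤ → Set F} (hU : Φ.IsSeq U)
    (L : Φ.Lines U) (g : G) (m : ℤ) {v : V} (hv : v ∈ fHarm_I L m) :
    g • v ∈ fHarm_I L (fHarm_j Φ g m) := by
  refine ⟨fun h => hv.1 ((fHarm_on_iff L g v).1 h), ?_⟩
  intro f hf
  have h1 : M.vf v (g⁻¹ • f) := by
    have := fHarm_vf Φ g⁻¹ hf
    rwa [inv_smul_smul] at this
  have h2 := hv.2 _ h1
  obtain ⟨_, ho2, ho3⟩ := hOrb V E F G M Φ U hU m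
  obtain ⟨_, ho2', _⟩ := hOrb V E F G M Φ U hU (m + 1)
  rcases Φ.del_one g with hd | hd
  · have hj : fHarm_j Φ g m = m := by
      unfold fHarm_j; rw [if_pos hd]
    rw [hj]
    refine ⟨?_, ?_⟩
    · have := (ho2 g (g⁻¹ • f) hd).1 h2.1
      rwa [smul_inv_smul] at this
    · intro h
      apply h2.2
      apply (ho2' g (g⁻¹ • f) hd).2
      rwa [smul_inv_smul]
  · have hj : fHarm_j Φ g m = -2 - m := by
      unfold fHarm_j; rw [if_neg]; rw [hd]; norm_num
    rw [hj]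
    have := (ho3 g (g⁻¹ • f) hd).1 h2
    rw [smul_inv_smul] at this
    have h3 : (-2 - m + 1 : ℤ) = -1 - m := by ring
    rw [h3]
    exact this

theorem fHarm_j_inv (Φ : Frieze M G) (g : G) (m : ℤ) :
    fHarm_j Φ g⁻¹ (fHarm_j Φ g m) = m := by
  unfold fHarm_j
  rw [fHarm_del_inv]
  split_ifs <;> ring

theorem fHarm_I_smul_iff (hOrb : Stmt_FOrb) {Φ : Frieze M G} {U : ℤ → Set F} (hU : Φ.IsSeq U)
    (L : Φ.Lines U) (g : G) (m : ℤ) (v : V) :
    g • v ∈ fHarm_I L (fHarm_j Φ g m) ↔ v ∈ fHarm_I L m := by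
  refine ⟨fun h => ?_, fHarm_I_smul hOrb hU L g m⟩
  have h1 := fHarm_I_smul hOrb hU L g⁻¹ _ h
  rwa [inv_smul_smul, fHarm_j_inv] at h1

theorem fHarm_j_T (Φ : Frieze M G) {g : G} (h : Φ.del g = 1) (m : ℤ) : fHarm_j Φ g m = m := by
  unfold fHarm_j
  rw [if_pos h]

/-- Boundary values. -/
theorem fHarm_psi (hVert : Stmt_FVert) {Φ : Frieze M G} {U : ℤ → Set F} (hU : Φ.IsSeq U)
    (L : Φ.Lines U) : ∃ ψ : V → ℂ, (∀ m i, ψ (L.x m i) = Φ.pt L m i) ∧
    (∀ (g : G) v, fHarm_On L v → ψ (g • v) = Φ.mv g (ψ v)) ∧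
    ∀ (h : fHarm_T Φ) v, ψ (h • v) = ψ v + (Φ.c h.1 : ℂ) := by
  classical
  obtain ⟨ψ₀, hψ₀⟩ := fHarm_psi0 (H := fHarm_T Φ) (V := V) (fHarm_T_free Φ)
    (fun h => (Φ.c h.1 : ℂ)) (fHarm_T_add Φ)
  obtain ⟨_, hV2, _⟩ := hVert V E F G M Φ U hU L
  let ψ : V → ℂ := fun v => if h : ∃ q : ℤ × ℤ, v = L.x q.1 q.2 then
    Φ.pt L h.choose.1 h.choose.2 else ψ₀ v
  have hline : ∀ m i, ψ (L.x m i) = Φ.pt L m i := by
    intro m i
    have hex : ∃ q : ℤ × ℤ, L.x m i = L.x q.1 q.2 := ⟨(m, i), rfl⟩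
    show (if h : ∃ q : ℤ × ℤ, L.x m i = L.x q.1 q.2 then
      Φ.pt L h.choose.1 h.choose.2 else ψ₀ (L.x m i)) = _
    rw [dif_pos hex]
    have h1 := hex.choose_spec
    have h2 : m = hex.choose.1 := hV2 _ _ _ _ h1
    rw [← h2] at h1 ⊢
    have h3 := ((L.line m).curve.x_eq i hex.choose.2).1 h1
    have h4 : i = hex.choose.2 := by
      have := zero_dvd_iff.1 (by exact_mod_cast h3 : (0 : ℤ) ∣ i - hex.choose.2)
      omega
    rw [← h4]
  have hoff : ∀ v, ¬ fHarm_On L v → ψ v = ψ₀ v := by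
    intro v hv
    show (if h : ∃ q : ℤ × ℤ, v = L.x q.1 q.2 then
      Φ.pt L h.choose.1 h.choose.2 else ψ₀ v) = _
    rw [dif_neg]
    rintro ⟨q, hq⟩
    exact hv ⟨q.1, q.2, hq⟩
  have heq : ∀ (g : G) v, fHarm_On L v → ψ (g • v) = Φ.mv g (ψ v) := by
    rintro g v ⟨m, i, rfl⟩
    obtain ⟨j, hj⟩ := L.img g m i
    rw [hj, hline, hline]
    have hp := L.pos g m i j hj
    apply Complex.ext
    · show Φ.c Φ.τ * j / L.p (Φ.idx g m) + L.β (Φ.idx g m) =
        Φ.eps g * (Φ.c Φ.τ * i / L.p m + L.β m) + Φ.c g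
      exact hp
    · show ((Φ.idx g m : ℤ) : ℝ) + 1 / 2 = Φ.del g * ((m : ℝ) + 1 / 2)
      rcases Φ.del_one g with hd | hd
      · rw [fHarm_idx_pos Φ hd, hd, one_mul]
      · rw [fHarm_idx_neg Φ hd, hd]
        push_cast
        ring
  refine ⟨ψ, hline, heq, ?_⟩
  intro h v
  by_cases hv : fHarm_On L v
  · have h1 : ψ (h • v) = Φ.mv h.1 (ψ v) := heq h.1 v hv
    rw [h1]
    have h2 := h.2.1
    have h3 := h.2.2
    apply Complex.ext
    · show Φ.eps h.1 * (ψ v).re + Φ.c h.1 = (ψ v + (Φ.c h.1 : ℂ)).re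
      rw [h2, Complex.add_re, Complex.ofReal_re]; ring
    · show Φ.del h.1 * (ψ v).im = (ψ v + (Φ.c h.1 : ℂ)).im
      rw [h3, Complex.add_im, Complex.ofReal_im]; ring
  · have hv' : ¬ fHarm_On L (h • v) := fun hh => hv ((fHarm_on_iff L h.1 v).1 hh)
    rw [hoff _ hv, hoff _ hv']
    exact hψ₀ h v

/-- `mv g` preserves harmonicity. -/
theorem fHarm_mv_harm (Φ : Frieze M G) (g : G) (φ φ' : V → ℂ) (w : V)
    (hφ : Harm (vw M.toInc) φ (g⁻¹ • w)) (hw : φ' w = Φ.mv g (φ (g⁻¹ • w)))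
    (hnb : ∀ u, M.vadj.Adj w u → φ' u = Φ.mv g (φ (g⁻¹ • u))) : Harm (vw M.toInc) φ' w := by
  have hnet := fHarm_net M.toPolyMap
  unfold Harm at hφ ⊢
  have h1 : ∑ᶠ u, vw M.toInc (g⁻¹ • w) u • (φ u - φ (g⁻¹ • w)) =
      ∑ᶠ u, vw M.toInc w u • (φ (g⁻¹ • u) - φ (g⁻¹ • w)) := by
    rw [← finsum_comp_equiv (MulAction.toPerm g⁻¹)]
    refine finsum_congr (fun u => ?_)
    simp only [MulAction.toPerm_apply]
    rw [fHarm_vw_inv Φ]
  rw [h1] at hφ
  -- the linear part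
  let A : ℂ →ₗ[ℝ] ℂ :=
    { toFun := fun z => ⟨Φ.eps g * z.re, Φ.del g * z.im⟩
      map_add' := by
        intro x y
        apply Complex.ext <;> simp [mul_add]
      map_smul' := by
        intro r x
        apply Complex.ext
        · simp; ring
        · simp; ring }
  have h2 : ∀ u, vw M.toInc w u • (φ' u - φ' w) =
      A (vw M.toInc w u • (φ (g⁻¹ • u) - φ (g⁻¹ • w))) := by
    intro u
    by_cases hadj : M.vadj.Adj w u
    · rw [hnb u hadj, hw, map_smul]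
      congr 1
      apply Complex.ext
      · show (Φ.eps g * (φ (g⁻¹ • u)).re + Φ.c g) - (Φ.eps g * (φ (g⁻¹ • w)).re + Φ.c g) =
          Φ.eps g * (φ (g⁻¹ • u) - φ (g⁻¹ • w)).re
        rw [Complex.sub_re]; ring
      · show (Φ.del g * (φ (g⁻¹ • u)).im) - (Φ.del g * (φ (g⁻¹ • w)).im) =
          Φ.del g * (φ (g⁻¹ • u) - φ (g⁻¹ • w)).im
        rw [Complex.sub_im]; ring
    · rw [fHarm_vw_neg hadj, zero_smul, zero_smul, map_zero]
  have hsupp : (fun u => vw M.toInc w u • (φ (g⁻¹ • u) - φ (g⁻¹ • w))).support.Finite := by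
    refine (hnet.fin w).subset ?_
    intro u hu h0
    exact hu (by simp [h0])
  rw [finsum_congr h2, ← map_finsum A hsupp, hφ, map_zero]

theorem fHarm_congr {φ φ' : V → ℂ} {v : V} (h : Harm (vw M.toInc) φ v) (hv : φ' v = φ v)
    (hnb : ∀ u, M.vadj.Adj v u → φ' u = φ u) : Harm (vw M.toInc) φ' v := by
  unfold Harm at h ⊢
  rw [← h]
  refine finsum_congr fun u => ?_
  by_cases hadj : M.vadj.Adj v u
  · rw [hnb u hadj, hv]
  · rw [fHarm_vw_neg hadj, zero_smul, zero_smul]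

theorem fHarm_nb (hVert : Stmt_FVert) {Φ : Frieze M G} {U : ℤ → Set F} (hU : Φ.IsSeq U)
    (L : Φ.Lines U) {m : ℤ} {v u : V} (hv : v ∈ fHarm_I L m) (hadj : M.vadj.Adj v u) :
    u ∈ fHarm_I L m ∨ fHarm_On L u := by
  by_cases hu : fHarm_On L u
  · exact Or.inr hu
  · left
    obtain ⟨_, _, hV3, _⟩ := hVert V E F G M Φ U hU L
    have hu' : ∀ m i, u ≠ L.x m i := fun m i h => hu ⟨m, i, h⟩
    obtain ⟨m', hm'⟩ := hV3 u hu'
    obtain ⟨f, hf1, hf2⟩ := fHarm_adj_face M hadj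
    have hmm : m = m' := fHarm_strip hU (hv.2 f hf1) (hm' f hf2)
    subst hmm
    exact ⟨hu, hm'⟩

end frieze

theorem fHarm (hDir : Stmt_Dirichlet) (hVert : Stmt_FVert) (hOrb : Stmt_FOrb) : Stmt_FHarm := by
  intro V E F G _ _ _ _ M Φ U hU L
  classical
  obtain ⟨ψ, hψ1, hψ2, hψ3⟩ := fHarm_psi hVert hU L
  obtain ⟨_, hV2, hV3, _⟩ := hVert V E F G M Φ U hU L
  have hnet := fHarm_net M.toPolyMap
  have hdir : ∀ m : ℤ, ∃ φ : V → ℂ, (∀ v, v ∉ fHarm_I L m → φ v = ψ v) ∧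
      (∀ v ∈ fHarm_I L m, Harm (vw M.toInc) φ v) ∧
      (∀ (h : fHarm_T Φ) v, φ (h • v) = φ v + (Φ.c h.1 : ℂ)) ∧
      ∀ φ' : V → ℂ, (∀ v, v ∉ fHarm_I L m → φ' v = ψ v) →
        (∀ v ∈ fHarm_I L m, Harm (vw M.toInc) φ' v) →
        (∀ (h : fHarm_T Φ) v, φ' (h • v) = φ' v + (Φ.c h.1 : ℂ)) → φ' = φ := by
    intro m
    refine hDir V (fHarm_T Φ) (vw M.toInc) hnet ?_ (fHarm_T_free Φ)
      (fun h => (Φ.c h.1 : ℂ)) (fHarm_T_add Φ) (fHarm_I L m) ?_ ?_ ?_ ψ ?_
    · intro h u v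
      exact fHarm_vw_inv Φ h.1 u v
    · intro h v hv
      have := fHarm_I_smul hOrb hU L h.1 m hv
      rw [fHarm_j_T Φ h.2.2] at this
      exact this
    · obtain ⟨⟨R, hR, hR2⟩, _, _⟩ := hOrb V E F G M Φ U hU m
      refine ⟨R, hR, ?_⟩
      intro v hv
      obtain ⟨f, hf⟩ := fHarm_face M v
      obtain ⟨n, r, hr, hvr⟩ := hR2 v f hf (hv.2 f hf)
      refine ⟨⟨Φ.τ ^ n, ?_⟩, r, hr, hvr⟩
      exact Subgroup.zpow_mem _ (show Φ.τ ∈ fHarm_T Φ from ⟨Φ.τ_eps, Φ.τ_del⟩) n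
    · intro v _
      refine ⟨L.x 0 0, fun h => h.1 ⟨0, 0, rfl⟩, ?_⟩
      have h1 := M.vconn v (mem_univ _) (L.x 0 0) (mem_univ _)
      have h2 : ∀ b, ReachIn M.vadj univ v b →
          Relation.ReflTransGen (Step (vw M.toInc)) v b := by
        intro b hb
        induction hb with
        | refl => exact Relation.ReflTransGen.refl
        | tail _ hab ih =>
          refine ih.tail ?_
          show 0 < vw M.toInc _ _
          rw [fHarm_vw_pos hab.1]
          norm_num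
      exact h2 _ h1
    · intro h v _
      exact hψ3 h v
  choose φm hφ1 hφ2 hφ3 hφ4 using hdir
  -- equivariance
  have hequiv : ∀ (g : G) (m : ℤ) (w : V), w ∈ fHarm_I L (fHarm_j Φ g m) →
      φm (fHarm_j Φ g m) w = Φ.mv g (φm m (g⁻¹ • w)) := by
    intro g m
    set m' := fHarm_j Φ g m with hm'
    have hI : ∀ w, w ∈ fHarm_I L m' ↔ g⁻¹ • w ∈ fHarm_I L m := by
      intro w
      have := fHarm_I_smul_iff hOrb hU L g m (g⁻¹ • w)
      rw [smul_inv_smul] at this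
      exact this
    let φ' : V → ℂ := fun w => if w ∈ fHarm_I L m' then Φ.mv g (φm m (g⁻¹ • w)) else ψ w
    have hin : ∀ w, w ∈ fHarm_I L m' → φ' w = Φ.mv g (φm m (g⁻¹ • w)) := by
      intro w hw
      exact if_pos hw
    have hout : ∀ w, w ∉ fHarm_I L m' → φ' w = ψ w := by
      intro w hw
      exact if_neg hw
    have hon : ∀ w, fHarm_On L w → φ' w = Φ.mv g (φm m (g⁻¹ • w)) := by
      intro w hw
      have h1 : w ∉ fHarm_I L m' := fun h => h.1 hw
      have h2 : g⁻¹ • w ∉ fHarm_I L m := fun h => h.1 ((fHarm_on_iff L g⁻¹ w).2 hw)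
      rw [hout w h1, hφ1 m _ h2, ← hψ2 g _ ((fHarm_on_iff L g⁻¹ w).2 hw), smul_inv_smul]
    have key : φ' = φm m' := by
      apply hφ4 m' φ' hout
      · intro w hw
        have hw' := (hI w).1 hw
        apply fHarm_mv_harm Φ g (φm m) φ' w (hφ2 m _ hw') (hin w hw)
        intro u hadj
        rcases fHarm_nb hVert hU L hw hadj with hu | hu
        · exact hin u hu
        · exact hon u hu
      · intro h w
        by_cases hw : w ∈ fHarm_I L m'
        · have hw2 : h • w ∈ fHarm_I L m' := by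
            have := fHarm_I_smul hOrb hU L h.1 m' hw
            rw [fHarm_j_T Φ h.2.2] at this
            exact this
          rw [hin _ hw, hin _ hw2]
          -- conjugate
          have hk : g⁻¹ * h.1 * g ∈ fHarm_T Φ := by
            constructor
            · rw [Φ.eps_mul, Φ.eps_mul, fHarm_eps_inv, h.2.1]
              rcases Φ.eps_one g with h1 | h1 <;> rw [h1] <;> norm_num
            · rw [Φ.del_mul, Φ.del_mul, fHarm_del_inv, h.2.2]
              rcases Φ.del_one g with h1 | h1 <;> rw [h1] <;> norm_num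
          have h1 : g⁻¹ • (h • w) = (⟨g⁻¹ * h.1 * g, hk⟩ : fHarm_T Φ) • (g⁻¹ • w) := by
            show g⁻¹ • (h.1 • w) = (g⁻¹ * h.1 * g) • (g⁻¹ • w)
            rw [mul_smul, mul_smul, smul_inv_smul]
          rw [h1, hφ3 m]
          have h2 : Φ.eps g * Φ.c (g⁻¹ * h.1 * g) = Φ.c h.1 := by
            have h3 : Φ.c (g * (g⁻¹ * h.1 * g)) = Φ.c (h.1 * g) := by
              congr 1
              group
            rw [Φ.c_mul, Φ.c_mul h.1 g, h.2.1] at h3
            linarith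
          have h4 : ∀ z : ℂ, Φ.mv g (z + (Φ.c (g⁻¹ * h.1 * g) : ℂ)) =
              Φ.mv g z + (Φ.c h.1 : ℂ) := by
            intro z
            apply Complex.ext
            · show Φ.eps g * (z + (Φ.c (g⁻¹ * h.1 * g) : ℂ)).re + Φ.c g =
                (Φ.mv g z + (Φ.c h.1 : ℂ)).re
              rw [Complex.add_re, Complex.add_re, Complex.ofReal_re, Complex.ofReal_re, ← h2]
              show _ = (Φ.eps g * z.re + Φ.c g) + _
              ring
            · show Φ.del g * (z + (Φ.c (g⁻¹ * h.1 * g) : ℂ)).im =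
                (Φ.mv g z + (Φ.c h.1 : ℂ)).im
              rw [Complex.add_im, Complex.add_im, Complex.ofReal_im, Complex.ofReal_im]
              show _ = Φ.del g * z.im + 0
              ring
          exact h4 _
        · have hw2 : h • w ∉ fHarm_I L m' := by
            intro hh
            apply hw
            have h5 := (fHarm_I_smul_iff hOrb hU L h.1 m' w).1
            rw [fHarm_j_T Φ h.2.2] at h5
            exact h5 hh
          rw [hout _ hw, hout _ hw2]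
          exact hψ3 h w
    intro w hw
    rw [← key]
    exact hin w hw
  -- the global function
  let φ : V → ℂ := fun v => if h : ∃ m, v ∈ fHarm_I L m then φm h.choose v else ψ v
  have hφI : ∀ m v, v ∈ fHarm_I L m → φ v = φm m v := by
    intro m v hv
    have hex : ∃ m, v ∈ fHarm_I L m := ⟨m, hv⟩
    show (if h : ∃ m, v ∈ fHarm_I L m then φm h.choose v else ψ v) = _
    rw [dif_pos hex]
    obtain ⟨f, hf⟩ := fHarm_face M v
    have h1 : hex.choose = m := fHarm_strip hU (hex.choose_spec.2 f hf) (hv.2 f hf)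
    rw [h1]
  have hφon : ∀ v, fHarm_On L v → φ v = ψ v := by
    intro v hv
    show (if h : ∃ m, v ∈ fHarm_I L m then φm h.choose v else ψ v) = _
    rw [dif_neg]
    rintro ⟨m, hm⟩
    exact hm.1 hv
  refine ⟨φ, ?_, ?_, ?_⟩
  · intro m i
    rw [hφon _ ⟨m, i, rfl⟩, hψ1]
  · intro v hv
    obtain ⟨m, hm⟩ := hV3 v hv
    have hvI : v ∈ fHarm_I L m := ⟨fun ⟨l, i, h⟩ => hv l i h, hm⟩
    refine fHarm_congr (hφ2 m v hvI) (hφI m v hvI) ?_
    intro u hadj
    rcases fHarm_nb hVert hU L hvI hadj with hu | hu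
    · exact hφI m u hu
    · rw [hφon u hu, hφ1 m u (fun h => h.1 hu)]
  · intro g v
    by_cases hv : fHarm_On L v
    · rw [hφon v hv, hφon _ (fHarm_on_smul L g hv)]
      exact hψ2 g v hv
    · have hv' : ∀ l i, v ≠ L.x l i := fun l i h => hv ⟨l, i, h⟩
      obtain ⟨m, hm⟩ := hV3 v hv'
      have hvI : v ∈ fHarm_I L m := ⟨hv, hm⟩
      have hgI := fHarm_I_smul hOrb hU L g m hvI
      rw [hφI m v hvI, hφI _ _ hgI, hequiv g m _ hgI, inv_smul_smul]

end Pool.Agent.CT
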