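import Pool.Agent.CT.FDefs

set_option autoImplicit false

/-! # F11: heights of the inner vertices of a strip -/

namespace Pool.Agent.CT

open Set

section basics

variable {V E F : Type}

theorem fHeight_vw_pos {M : Inc V E F} {v u : V} (h : M.vadj.Adj v u) : vw M v u = 1 := by
  unfold vw
  rw [if_pos h]

theorem fHeight_vw_neg {M : Inc V E F} {v u : V} (h : ¬ M.vadj.Adj v u) : vw M v u = 0 := by
  unfold vw
  rw [if_neg h]

theorem fHeight_adj_of_vw {M : Inc V E F} {v u : V} (h : vw M v u ≠ 0) : M.vadj.Adj v u := by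
  by_contra h'
  exact h (fHeight_vw_neg h')

theorem fHeight_net (M : PolyMap V E F) : Net (vw M.toInc) := by
  constructor
  · intro v
    have h1 : (⋃ e ∈ {e | M.ve v e}, {u | M.ve u e}).Finite := by
      refine (M.vert_fin v).biUnion fun e _ => ?_
      obtain ⟨a, b, _, hab⟩ := M.edge_verts e
      refine Set.Finite.subset (Set.toFinite {a, b}) ?_
      intro w hw
      rcases (hab w).1 hw with rfl | rfl
      · simp
      · simp
    refine h1.subset ?_
    intro u hu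
    have hadj := fHeight_adj_of_vw hu
    obtain ⟨_, e, he1, he2⟩ := hadj
    simp only [mem_iUnion]
    exact ⟨e, he1, he2⟩
  · intro v u
    by_cases h : M.vadj.Adj v u
    · rw [fHeight_vw_pos h]; norm_num
    · rw [fHeight_vw_neg h]

/-- The maximum principle on a set of harmonic vertices. -/
theorem fHeight_max (hH : Stmt_Harm) (M : PolyMap V E F) (f : V → ℝ) (I K : Set V)
    (hK : ConnIn M.vadj K) (hIK : I ⊆ K) (hfin : (f '' I).Finite)
    (hharm : ∀ v ∈ I, Harm (vw M.toInc) f v) (T : ℝ)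
    (hnb : ∀ v ∈ I, ∀ u, M.vadj.Adj v u → u ∉ I → f u ≤ T)
    (hnbK : ∀ v ∈ I, ∀ u, M.vadj.Adj v u → u ∉ I → u ∈ K → f u < T)
    (u₀ : V) (hu₀ : u₀ ∈ K) (hu₀I : u₀ ∉ I) : ∀ v ∈ I, f v < T := by
  intro v hv
  obtain ⟨m, ⟨v₀, hv₀, rfl⟩, hm⟩ := exists_max_image (f '' I) id hfin ⟨f v, v, hv, rfl⟩
  have hmax : ∀ u ∈ I, f u ≤ f v₀ := fun u hu => hm (f u) ⟨u, hu, rfl⟩
  refine lt_of_le_of_lt (hmax v hv) ?_
  by_contra hcon
  push Not at hcon
  have hmem : u₀ ∈ {w | w ∈ I ∧ f w = f v₀} := by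
    refine ReachIn.closed (hK v₀ (hIK hv₀) u₀ hu₀) ⟨hv₀, rfl⟩ ?_
    rintro w ⟨hw, hfw⟩ u hu hadj
    have hle : ∀ u, 0 < vw M.toInc w u → f u ≤ f w := by
      intro u hu
      have hadj := fHeight_adj_of_vw hu.ne'
      by_cases huI : u ∈ I
      · rw [hfw]; exact hmax u huI
      · rw [hfw]; exact (hnb w hw u hadj huI).trans hcon
    have h1 := (hH V (vw M.toInc) (fHeight_net M)).1 f w (hharm w hw) hle u (by
      rw [fHeight_vw_pos hadj]; norm_num)
    by_cases huI : u ∈ I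
    · exact ⟨huI, h1.trans hfw⟩
    · have h2 := hnbK w hw u hadj huI hu
      rw [h1, hfw] at h2
      linarith
  exact hu₀I hmem.1

end basics

section frieze

variable {V E F G : Type} [Group G] [MulAction G V] [MulAction G E] [MulAction G F]
  {M : PlaneMap V E F}

theorem fHeight_del_zpow (Φ : Frieze M G) (n : ℤ) : Φ.del (Φ.τ ^ n) = 1 := by
  have h0 : Φ.del 1 = 1 := by
    have h := Φ.del_mul 1 1
    rw [one_mul] at h
    rcases Φ.del_one 1 with h1 | h1
    · exact h1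
    · rw [h1] at h; norm_num at h
  have hn : ∀ n : ℕ, Φ.del (Φ.τ ^ n) = 1 := by
    intro n
    induction n with
    | zero => rw [pow_zero, h0]
    | succ n ih => rw [pow_succ, Φ.del_mul, ih, Φ.τ_del, one_mul]
  cases n with
  | ofNat n =>
    rw [Int.ofNat_eq_natCast, zpow_natCast]
    exact hn n
  | negSucc n =>
    rw [zpow_negSucc]
    have h := Φ.del_mul (Φ.τ ^ (n + 1)) (Φ.τ ^ (n + 1))⁻¹
    rw [mul_inv_cancel, h0, hn, one_mul] at h
    exact h.symm

theorem fHeight_anti {Φ : Frieze M G} {U : ℤ → Set F} (hU : Φ.IsSeq U) {a b : ℤ} (h : a ≤ b) :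
    U b ⊆ U a := by
  obtain ⟨n, rfl⟩ := Int.le.dest h
  clear h
  induction n with
  | zero => simp
  | succ n ih =>
    refine Subset.trans ?_ ih
    have := hU.anti (a + n)
    rw [add_assoc] at this
    exact_mod_cast this

theorem fHeight_strip {Φ : Frieze M G} {U : ℤ → Set F} (hU : Φ.IsSeq U) {a b : ℤ} {f : F}
    (h1 : f ∈ U a \ U (a + 1)) (h2 : f ∈ U b \ U (b + 1)) : a = b := by
  by_contra hne
  rcases lt_or_gt_of_ne hne with h | h
  · exact h1.2 (fHeight_anti hU (by omega) h2.1)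
  · exact h2.2 (fHeight_anti hU (by omega) h1.1)

theorem fHeight_face (M : PlaneMap V E F) (v : V) : ∃ f, M.vf v f := by
  have h1 := M.vert_card v
  have h2 : {e | M.ve v e}.Nonempty := by
    by_contra h
    rw [Set.not_nonempty_iff_eq_empty] at h
    rw [h, Set.ncard_empty] at h1
    omega
  obtain ⟨e, he⟩ := h2
  obtain ⟨f, _, _, hf⟩ := M.edge_faces e
  exact ⟨f, e, he, (hf f).2 (Or.inl rfl)⟩

theorem fHeight_adj_face (M : PlaneMap V E F) {u v : V} (h : M.vadj.Adj u v) :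
    ∃ f, M.vf u f ∧ M.vf v f := by
  obtain ⟨_, e, h1, h2⟩ := h
  obtain ⟨f, _, _, hf⟩ := M.edge_faces e
  exact ⟨f, ⟨e, h1, (hf f).2 (Or.inl rfl)⟩, ⟨e, h2, (hf f).2 (Or.inl rfl)⟩⟩

end frieze

theorem fHeight (hSide : Stmt_FSide) (hVert : Stmt_FVert) (hOrb : Stmt_FOrb)
    (hH : Stmt_Harm) : Stmt_FHeight := by
  intro V E F G _ _ _ _ M X m v hv hf
  obtain ⟨hV1, hV2, hV3, hV4, _⟩ := hVert V E F G M X.Φ X.U X.seq X.L
  let I : Set V := {w | X.Inner w ∧ ∀ f, M.vf w f → f ∈ X.U m \ X.U (m + 1)}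
  have hvI : v ∈ I := by
    refine ⟨hv, ?_⟩
    obtain ⟨m', hm'⟩ := hV3 v hv
    obtain ⟨f, hfS, hvf⟩ := hf
    have h1 := fHeight_strip X.seq (hm' f hvf) hfS
    rw [← h1]
    exact hm'
  -- neighbours
  have hnbr : ∀ w ∈ I, ∀ u, M.vadj.Adj w u → u ∉ I → ∃ l i, (l = m ∨ l = m + 1) ∧
      u = X.L.x l i := by
    intro w hw u hadj hu
    obtain ⟨f, hf1, hf2⟩ := fHeight_adj_face M hadj
    have hfS := hw.2 f hf1
    by_cases hin : X.Inner u
    · exfalso
      apply hu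
      obtain ⟨m', hm'⟩ := hV3 u hin
      have h1 := fHeight_strip X.seq (hm' f hf2) hfS
      rw [h1] at hm'
      exact ⟨hin, hm'⟩
    · unfold FCtx.Inner at hin
      push Not at hin
      obtain ⟨l, i, rfl⟩ := hin
      refine ⟨l, i, ?_, rfl⟩
      have h1 := hV4 l i f hf2
      by_contra hcon
      push Not at hcon
      rcases lt_or_ge l m with h | h
      · exact h1.2 (fHeight_anti X.seq (by omega) hfS.1)
      · exact hfS.2 (fHeight_anti X.seq (by omega) h1.1)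
  have him : ∀ l i, (X.φ (X.L.x l i)).im = l + 1 / 2 := by
    intro l i
    rw [X.harm.line l i]
    rfl
  have hfin : ∀ s : ℝ, ((fun w => s * (X.φ w).im) '' I).Finite := by
    intro s
    obtain ⟨⟨R, hR, hR2⟩, _, _⟩ := hOrb V E F G M X.Φ X.U X.seq m
    refine (hR.image (fun w => s * (X.φ w).im)).subset ?_
    rintro _ ⟨w, hw, rfl⟩
    obtain ⟨f, hf⟩ := fHeight_face M w
    obtain ⟨n, r, hr, rfl⟩ := hR2 w f hf (hw.2 f hf)
    refine ⟨r, hr, ?_⟩
    show s * (X.φ r).im = s * (X.φ (X.Φ.τ ^ n • r)).im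
    rw [X.harm.eqv]
    show s * (X.φ r).im = s * (X.Φ.del (X.Φ.τ ^ n) * (X.φ r).im)
    rw [fHeight_del_zpow, one_mul]
  have hharm : ∀ s : ℝ, ∀ w ∈ I, Harm (vw M.toInc) (fun u => s * (X.φ u).im) w := by
    intro s w hw
    have h1 := X.harm.harm w hw.1
    have h2 := (hH V (vw M.toInc) (fHeight_net M.toPolyMap)).2.2.1 X.φ w ⟨0, s⟩ h1
    have h3 : (fun u => dir (⟨0, s⟩ : ℂ) (X.φ u)) = fun u => s * (X.φ u).im := by
      funext u
      show (0 : ℝ) * (X.φ u).re + s * (X.φ u).im = _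
      ring
    rw [h3] at h2
    exact h2
  constructor
  · have hK := hSide V E F G M X.Φ (X.U m) (X.seq.cut m) (X.U m) (Or.inl rfl)
    have h1 := fHeight_max hH M.toPolyMap (fun u => (-1) * (X.φ u).im) I
      {v | ∀ f, M.vf v f → f ∈ X.U m} hK (fun w hw f hf => (hw.2 f hf).1) (hfin (-1))
      (hharm (-1)) (-(m + 1 / 2)) ?_ ?_ (X.L.x (m + 1) 0) ?_ ?_ v hvI
    · linarith
    · intro w hw u hadj hu
      obtain ⟨l, i, hl, rfl⟩ := hnbr w hw u hadj hu
      show (-1) * (X.φ (X.L.x l i)).im ≤ _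
      rw [him]
      rcases hl with rfl | rfl
      · linarith
      · push_cast; linarith
    · intro w hw u hadj hu huK
      obtain ⟨l, i, hl, rfl⟩ := hnbr w hw u hadj hu
      show (-1) * (X.φ (X.L.x l i)).im < _
      rw [him]
      rcases hl with rfl | rfl
      · exfalso
        obtain ⟨_, d, hd, hvd⟩ := (hV1 _ _).1 ⟨i, rfl⟩
        exact hd (huK d hvd)
      · push_cast; linarith
    · intro f hf
      have := (hV4 _ _ f hf).1
      rwa [add_sub_cancel_right] at this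
    · exact fun h => h.1 _ _ rfl
  · have hK := hSide V E F G M X.Φ (X.U (m + 1)) (X.seq.cut (m + 1)) (X.U (m + 1))ᶜ (Or.inr rfl)
    have h1 := fHeight_max hH M.toPolyMap (fun u => 1 * (X.φ u).im) I
      {v | ∀ f, M.vf v f → f ∈ (X.U (m + 1))ᶜ} hK (fun w hw f hf => (hw.2 f hf).2) (hfin 1)
      (hharm 1) (m + 3 / 2) ?_ ?_ (X.L.x m 0) ?_ ?_ v hvI
    · linarith
    · intro w hw u hadj hu
      obtain ⟨l, i, hl, rfl⟩ := hnbr w hw u hadj hu
      show 1 * (X.φ (X.L.x l i)).im ≤ _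
      rw [him]
      rcases hl with rfl | rfl
      · linarith
      · push_cast; linarith
    · intro w hw u hadj hu huK
      obtain ⟨l, i, hl, rfl⟩ := hnbr w hw u hadj hu
      show 1 * (X.φ (X.L.x l i)).im < _
      rw [him]
      rcases hl with rfl | rfl
      · linarith
      · exfalso
        obtain ⟨⟨d, hd, hvd⟩, _⟩ := (hV1 _ _).1 ⟨i, rfl⟩
        exact huK d hvd hd
    · intro f hf
      exact (hV4 _ _ f hf).2
    · exact fun h => h.1 _ _ rfl

end Pool.Agent.CT
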