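import Pool.Agent.CT.FDefs

set_option autoImplicit false

/-! # F15: the strip block satisfies the assumptions of the block theorem -/

namespace Pool.Agent.CT

open Set Metric

section

variable {V E F G : Type} [Group G] [MulAction G V] [MulAction G E] [MulAction G F]
  {M : PlaneMap V E F}

theorem fHyp_vf {V E F : Type} {M : Inc V E F} {f : F} {n : ℕ} {x : ℤ → V} {y : ℤ → E}
    (h : IsFaceCycle M f n x y) {v : V} (hv : M.vf v f) : ∃ i, v = x i := by
  obtain ⟨e, h1, h2⟩ := hv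
  obtain ⟨i, rfl⟩ := (h.curve.mem e).1 h2
  rcases (h.curve.ve i v).1 h1 with h | h
  · exact ⟨i, h⟩
  · exact ⟨i + 1, h⟩

/-- reduction of an index modulo the length -/
theorem fHyp_red {V E F : Type} {M : Inc V E F} {f : F} {n : ℕ} {x : ℤ → V} {y : ℤ → E}
    (h : IsFaceCycle M f n x y) (i : ℤ) : ∃ j : ℕ, j < n ∧ x i = x j := by
  have hn : (0 : ℤ) < n := by
    have := h.three
    omega
  refine ⟨(i % n).toNat, ?_, ?_⟩
  · have h1 := Int.emod_lt_of_pos i hn
    have h2 := Int.emod_nonneg i hn.ne'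
    omega
  · rw [h.curve.x_eq, Int.toNat_of_nonneg (Int.emod_nonneg i hn.ne')]
    exact Int.dvd_self_sub_emod

theorem fHyp_face (hCyc : Stmt_FCyc) (hRun : Stmt_FRun) (hV : Stmt_FVert) (hFC : Stmt_FaceCycle)
    (M : PlaneMap V E F) (X : FCtx M G) (m l : ℤ) (hl : l = m ∨ l = m + 1)
    (f : {f : F // f ∉ (X.S m)ᶜ}) (p : Fin 3 → CV M.toInc (X.S m)ᶜ)
    (hp : Function.Injective p) (hpf : ∀ i, (X.blk m).vf (p i) f)
    (hpl : ∀ i, ∃ j, (p i).1 = X.L.x l j) : False := by
  obtain ⟨n, x, y, hc⟩ := hFC V E F M.toPolyMap f.1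
  obtain ⟨hV1, hV2, hV3, hV4, hV5⟩ := hV V E F G M X.Φ X.U X.seq X.L
  have hfS : f.1 ∈ X.S m := not_not.1 f.2
  -- the other side of line `l`
  obtain ⟨A, hA, D, hD, hfD, hDS, hDl⟩ : ∃ A, A = X.U l ∧ ∃ D : Set F, (D = A ∨ D = Aᶜ) ∧ f.1 ∉ D ∧
      D ⊆ (X.S m)ᶜ ∧ ∀ j, Touch M.toInc D (X.L.x l j) := by
    rcases hl with rfl | rfl
    · refine ⟨X.U l, rfl, (X.U l)ᶜ, Or.inr rfl, fun h => h hfS.1, ?_, ?_⟩
      · intro g hg hgS
        exact hg hgS.1
      · intro j
        exact ((hV1 (X.L.x l j) l).1 ⟨j, rfl⟩).2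
    · refine ⟨X.U (m + 1), rfl, X.U (m + 1), Or.inl rfl, hfS.2, ?_, ?_⟩
      · intro g hg hgS
        exact hgS.2 hg
      · intro j
        exact ((hV1 (X.L.x (m + 1) j) (m + 1)).1 ⟨j, rfl⟩).1
  have hpD : ∀ i, Touch M.toInc D (p i).1 := by
    intro i
    obtain ⟨j, hj⟩ := hpl i
    rw [hj]
    exact hDl j
  rcases (hCyc V E F G M X m).2 f n x y hc with ⟨hno, x', y', hc', hx'⟩ |
    ⟨a, r, l', i₀, κ, hl', hκ, hr1, hrn, hxr, ht, x', y', hc', hx'⟩
  · -- no run
    have hidx : ∀ i, ∃ j, (p i).1 = x j := by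
      intro i
      obtain ⟨j, hj⟩ := fHyp_vf hc' (hpf i)
      exact ⟨j, by rw [hj, hx']⟩
    rw [hA] at hD
    rcases hRun V E F G M X.Φ (X.U l) (X.seq.cut l) (X.L.x l) (X.L.y l) (X.L.p l) (X.L.line l) D hD
      f.1 hfD n x y hc with h | ⟨a, r, i₀, κ, -, -, -, h1, h2⟩
    · obtain ⟨j, hj⟩ := hidx 0
      apply h j
      rw [← hj]
      exact hpD 0
    · have hr : r = 0 := by
        by_contra hr
        obtain ⟨d, hd, hde⟩ := (h2 a).2 ⟨0, Nat.pos_of_ne_zero hr, by simp⟩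
        exact hno a ⟨d, fun h => hDS hd h, hde⟩
      subst hr
      have hall : ∀ i, (p i).1 = x a := by
        intro i
        obtain ⟨j, hj⟩ := hidx i
        obtain ⟨k, hk, hk'⟩ := (h1 j).1 (by rw [← hj]; exact hpD i)
        have hk0 : k = 0 := by omega
        subst hk0
        rw [hj, hc.curve.x_eq]
        simpa using hk'
      have h01 : p 0 = p 1 := Subtype.ext ((hall 0).trans (hall 1).symm)
      exact absurd (hp h01) (by decide)
  · -- a run
    have hidx : ∀ i, ∃ j : ℕ, (j = 0 ∨ j = n - r) ∧ p i = x' j := by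
      intro i
      obtain ⟨j, hj⟩ := fHyp_vf hc' (hpf i)
      obtain ⟨j', hj', hjj⟩ := fHyp_red hc' j
      refine ⟨j', ?_, hj.trans hjj⟩
      have h1 : (p i).1 = x (a + r + j') := by rw [hj, hjj, hx' j' hj']
      have h2 : Touch M.toInc (X.S m)ᶜ (x (a + r + j')) := by
        rw [← h1]
        obtain ⟨d, hd, hd'⟩ := hpD i
        exact ⟨d, hDS hd, hd'⟩
      obtain ⟨k, hk, q, hq⟩ := (ht _).1 h2
      have h3 : (a + r + j') - (a + k) = (r : ℤ) + j' - k := by ring
      rw [h3] at hq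
      have hn : (0 : ℤ) < n := by
        have := hc.three
        omega
      have hlow : (0 : ℤ) ≤ (r : ℤ) + j' - k := by omega
      have hup : (r : ℤ) + j' - k ≤ n := by omega
      have hq0 : 0 ≤ q := by
        by_contra hq'
        have : (n : ℤ) * q ≤ n * (-1) := by
          apply mul_le_mul_of_nonneg_left _ hn.le
          omega
        omega
      have hq1 : q ≤ 1 := by
        by_contra hq'
        have : (n : ℤ) * 2 ≤ n * q := by
          apply mul_le_mul_of_nonneg_left _ hn.le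
          omega
        omega
      rcases (by omega : q = 0 ∨ q = 1) with rfl | rfl
      · left
        omega
      · right
        omega
    obtain ⟨j0, h0, e0⟩ := hidx 0
    obtain ⟨j1, h1, e1⟩ := hidx 1
    obtain ⟨j2, h2, e2⟩ := hidx 2
    have n01 : j0 ≠ j1 := fun h => absurd (hp (e0.trans (by rw [h, e1]))) (by decide)
    have n02 : j0 ≠ j2 := fun h => absurd (hp (e0.trans (by rw [h, e2]))) (by decide)
    have n12 : j1 ≠ j2 := fun h => absurd (hp (e1.trans (by rw [h, e2]))) (by decide)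
    omega

theorem fHyp_net (M : PolyMap V E F) : Net (vw M.toInc) := by
  classical
  constructor
  · intro v
    have hfin : (⋃ e ∈ {e | M.ve v e}, {u | M.ve u e}).Finite := by
      refine Set.Finite.biUnion (M.vert_fin v) fun e _ => ?_
      obtain ⟨a, b, -, hab⟩ := M.edge_verts e
      refine (Set.toFinite ({a, b} : Set V)).subset fun u hu => ?_
      rcases (hab u).1 hu with h | h <;> simp [h]
    refine hfin.subset fun u hu => ?_
    simp only [vw, mem_ofPred_eq, ne_eq, ite_eq_right_iff, one_ne_zero, imp_false, not_not] at hu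
    obtain ⟨-, e, h1, h2⟩ := hu
    simp only [mem_iUnion]
    exact ⟨e, h1, h2⟩
  · intro v u
    unfold vw
    split_ifs <;> norm_num

theorem fHyp_pos {M : PolyMap V E F} {v u : V} : 0 < vw M.toInc v u ↔ M.vadj.Adj v u := by
  classical
  unfold vw
  split_ifs with h
  · simp [h]
  · simp [h]

theorem fHyp_pt (Φ : Frieze M G) {U : ℤ → Set F} (L : Φ.Lines U) (w : ℂ) (m i : ℤ) :
    dir w (Φ.pt L m i) = w.re * (Φ.c Φ.τ * i / L.p m + L.β m) + w.im * (m + 1 / 2) := rfl

/-- On a line the functional is strictly monotone. -/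
theorem fHyp_mono (Φ : Frieze M G) {U : ℤ → Set F} (L : Φ.Lines U) (w : ℂ) (l : ℤ) {i j : ℤ}
    (hij : i < j) : (0 < w.re → dir w (Φ.pt L l i) < dir w (Φ.pt L l j)) ∧
      (w.re < 0 → dir w (Φ.pt L l j) < dir w (Φ.pt L l i)) := by
  have hp : (0 : ℝ) < L.p l := by exact_mod_cast (L.line l).pos
  have hc : (0 : ℝ) < Φ.c Φ.τ := Φ.τ_pos
  have hij' : (i : ℝ) < j := by exact_mod_cast hij
  have h1 : Φ.c Φ.τ * i / L.p l < Φ.c Φ.τ * j / L.p l := by gcongr
  simp only [fHyp_pt]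
  constructor
  · intro h
    nlinarith
  · intro h
    nlinarith

/-- On a line a non-vertical functional is unbounded on the block vertices. -/
theorem fHyp_unbdd (hAdj : Stmt_FAdj) (X : FCtx M G) (m : ℤ) (w : ℂ) (hw : w.re ≠ 0) (c : ℝ) :
    ∃ u : CV M.toInc (X.S m)ᶜ, c < dir w (X.ψ m u) := by
  obtain ⟨-, -, h3⟩ := hAdj V E F G M X m
  obtain ⟨h4, -, -⟩ := h3 m (Or.inl rfl)
  have hp : (0 : ℝ) < X.L.p m := by exact_mod_cast (X.L.line m).pos
  have hc : (0 : ℝ) < X.Φ.c X.Φ.τ := X.Φ.τ_pos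
  set C : ℝ := (|c| + |w.re * X.L.β m| + |w.im * (m + 1 / 2)| + 1) with hC
  have key : ∀ i : ℤ, C < w.re * (X.Φ.c X.Φ.τ * i / X.L.p m) → c < dir w (X.Φ.pt X.L m i) := by
    intro i hi
    rw [fHyp_pt]
    have h1 := le_abs_self c
    have h2 := neg_abs_le (w.re * X.L.β m)
    have h3 := neg_abs_le (w.im * (m + 1 / 2))
    have h4 : w.re * (X.Φ.c X.Φ.τ * i / X.L.p m + X.L.β m) =
      w.re * (X.Φ.c X.Φ.τ * i / X.L.p m) + w.re * X.L.β m := by ring
    rw [h4]
    linarith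
  have hψ : ∀ i (hi : X.InCV m (X.L.x m i)), X.ψ m ⟨X.L.x m i, hi⟩ = X.Φ.pt X.L m i :=
    fun i hi => X.harm.line m i
  rcases lt_or_gt_of_ne hw with hneg | hpos
  · obtain ⟨N, hN⟩ := exists_int_lt (C * X.L.p m / (w.re * X.Φ.c X.Φ.τ))
    obtain ⟨-, j, hj, hjC⟩ := h4 N
    refine ⟨⟨X.L.x m j, hjC⟩, ?_⟩
    rw [hψ]
    apply key
    have hj' : (j : ℝ) ≤ N := by exact_mod_cast hj
    have hlt : (j : ℝ) < C * X.L.p m / (w.re * X.Φ.c X.Φ.τ) := lt_of_le_of_lt hj' hN
    have hneg' : w.re * X.Φ.c X.Φ.τ < 0 := mul_neg_of_neg_of_pos hneg hc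
    rw [lt_div_iff_of_neg hneg'] at hlt
    have : w.re * (X.Φ.c X.Φ.τ * j / X.L.p m) = (j * (w.re * X.Φ.c X.Φ.τ)) / X.L.p m := by ring
    rw [this, lt_div_iff₀ hp]
    exact hlt
  · obtain ⟨N, hN⟩ := exists_int_gt (C * X.L.p m / (w.re * X.Φ.c X.Φ.τ))
    obtain ⟨⟨j, hj, hjC⟩, -⟩ := h4 N
    refine ⟨⟨X.L.x m j, hjC⟩, ?_⟩
    rw [hψ]
    apply key
    have hj' : (N : ℝ) ≤ j := by exact_mod_cast hj
    have hlt : C * X.L.p m / (w.re * X.Φ.c X.Φ.τ) < j := lt_of_lt_of_le hN hj'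
    have hpos' : 0 < w.re * X.Φ.c X.Φ.τ := mul_pos hpos hc
    rw [div_lt_iff₀ hpos'] at hlt
    have : w.re * (X.Φ.c X.Φ.τ * j / X.L.p m) = (j * (w.re * X.Φ.c X.Φ.τ)) / X.L.p m := by ring
    rw [this, lt_div_iff₀ hp]
    exact hlt

/-- Heights of the block vertices. -/
theorem fHyp_ht (hHt : Stmt_FHeight) (hAdj : Stmt_FAdj) (X : FCtx M G) (m : ℤ)
    (v : CV M.toInc (X.S m)ᶜ) : (m : ℝ) + 1 / 2 ≤ (X.ψ m v).im ∧ (X.ψ m v).im ≤ m + 3 / 2 ∧
      ((X.ψ m v).im = m + 1 / 2 → ∃ j, v.1 = X.L.x m j) ∧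
      ((X.ψ m v).im = m + 3 / 2 → ∃ j, v.1 = X.L.x (m + 1) j) := by
  by_cases hv : X.Inner v.1
  · obtain ⟨f, g, -, hf, -, hvf, -⟩ := v.2
    obtain ⟨h1, h2⟩ := hHt V E F G M X m v.1 hv ⟨f, not_not.1 hf, hvf⟩
    refine ⟨h1.le, h2.le, fun h => ?_, fun h => ?_⟩
    · exact absurd h h1.ne'
    · exact absurd h h2.ne
  · obtain ⟨-, h2, -⟩ := hAdj V E F G M X m
    obtain ⟨l, i, hl, hvi⟩ := h2 v hv
    have hψ : X.ψ m v = X.Φ.pt X.L l i := by
      show X.φ v.1 = _
      rw [hvi, X.harm.line]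
    have him : (X.ψ m v).im = l + 1 / 2 := by rw [hψ]; rfl
    rw [him]
    rcases hl with rfl | rfl
    · refine ⟨le_rfl, by linarith, fun _ => ⟨i, hvi⟩, fun h => ?_⟩
      exfalso
      linarith
    · push_cast
      refine ⟨by linarith, by linarith, fun h => ?_, fun _ => ⟨i, hvi⟩⟩
      exfalso
      linarith

/-- At an extreme level there are no three vertices of a face. -/
theorem fHyp_ext (hCyc : Stmt_FCyc) (hRun : Stmt_FRun) (hV : Stmt_FVert) (hFC : Stmt_FaceCycle)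
    (hHt : Stmt_FHeight) (hAdj : Stmt_FAdj) (X : FCtx M G) (m : ℤ) (w : ℂ) (hw : w ≠ 0)
    (hre : w.re = 0) (v : CV M.toInc (X.S m)ᶜ)
    (hmax : ∀ u, dir w (X.ψ m u) ≤ dir w (X.ψ m v)) :
    ∃ l, (l = m ∨ l = m + 1) ∧ ∀ u, dir w (X.ψ m u) = dir w (X.ψ m v) → ∃ j, u.1 = X.L.x l j := by
  obtain ⟨-, -, h3⟩ := hAdj V E F G M X m
  have hd : ∀ z : ℂ, dir w z = w.im * z.im := by
    intro z
    simp [dir, hre]
  have him : w.im ≠ 0 := by
    intro h
    exact hw (Complex.ext hre h)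
  have hψ : ∀ l i (hi : X.InCV m (X.L.x l i)), (X.ψ m ⟨X.L.x l i, hi⟩).im = l + 1 / 2 := by
    intro l i hi
    show (X.φ (X.L.x l i)).im = _
    rw [X.harm.line]
    rfl
  rcases lt_or_gt_of_ne him with hneg | hpos
  · obtain ⟨h4, -, -⟩ := h3 m (Or.inl rfl)
    obtain ⟨⟨j, -, hj⟩, -⟩ := h4 0
    refine ⟨m, Or.inl rfl, fun u hu => ?_⟩
    have h5 := hmax ⟨X.L.x m j, hj⟩
    rw [← hu, hd, hd, hψ] at h5
    obtain ⟨h6, -, h7, -⟩ := fHyp_ht hHt hAdj X m u
    apply h7
    have h8 : (X.ψ m u).im ≤ m + 1 / 2 := by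
      by_contra hc
      push Not at hc
      nlinarith
    linarith
  · obtain ⟨h4, -, -⟩ := h3 (m + 1) (Or.inr rfl)
    obtain ⟨⟨j, -, hj⟩, -⟩ := h4 0
    refine ⟨m + 1, Or.inr rfl, fun u hu => ?_⟩
    have h5 := hmax ⟨X.L.x (m + 1) j, hj⟩
    rw [← hu, hd, hd, hψ] at h5
    obtain ⟨-, h6, -, h7⟩ := fHyp_ht hHt hAdj X m u
    apply h7
    have h8 : (((m + 1 : ℤ) : ℝ) + 1 / 2) ≤ (X.ψ m u).im := le_of_mul_le_mul_left h5 hpos
    push_cast at h8
    linarith

theorem fHyp (hUp1 : Stmt_FUp1) (hUp2 : Stmt_FUp2) (hHt : Stmt_FHeight) (hV : Stmt_FVert)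
    (hAdj : Stmt_FAdj) (hCyc : Stmt_FCyc) (hRun : Stmt_FRun) (hFC : Stmt_FaceCycle)
    (hTC : Stmt_ThreeConn) (hHarm : Stmt_Harm) : Stmt_FHyp := by
  intro V E F G _ _ _ _ M X m B hB
  obtain ⟨hA1, hA2, hA3⟩ := hAdj V E F G M X m
  obtain ⟨hV1, hV2, hV3, hV4, hV5⟩ := hV V E F G M X.Φ X.U X.seq X.L
  have hNet : Net (vw M.toInc) := fHyp_net M.toPolyMap
  obtain ⟨-, hH2, hH3, -⟩ := hHarm V (vw M.toInc) hNet
  have hadj : B.vadj = (X.blk m).vadj := by rw [hB]
  have hψl : ∀ l i (hi : X.InCV m (X.L.x l i)), X.ψ m ⟨X.L.x l i, hi⟩ = X.Φ.pt X.L l i :=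
    fun l i hi => X.harm.line l i
  refine ⟨?_, ?_, ?_, ?_, ?_⟩
  · -- up
    intro w hw c
    rw [hadj]
    by_cases hre : w.re = 0
    · exact hUp2 V E F G M X m w hw hre c
    · exact hUp1 V E F G M X m w hre c
  · -- alive
    intro w hw v hu hl
    rw [hadj]
    by_cases hv : X.Inner v.1
    · obtain ⟨hB1, hB2⟩ := hA1 v hv
      have hharm : ∀ w : ℂ, Harm (vw M.toInc) (fun u => dir w (X.φ u)) v.1 :=
        fun w => hH3 X.φ v.1 w (X.harm.harm v.1 hv)
      have hup : ∀ w : ℂ, (∃ u, (X.blk m).vadj.Adj v u ∧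
          dir w (X.ψ m v) < dir w (X.ψ m u)) →
          ∃ u, (X.blk m).vadj.Adj v u ∧ dir w (X.ψ m u) < dir w (X.ψ m v) := by
        intro w ⟨u, hu1, hu2⟩
        obtain ⟨u', h1, h2⟩ := hH2 (fun u => dir w (X.φ u)) v.1 (hharm w)
          ⟨u.1, fHyp_pos.2 (hB2 u hu1), hu2⟩
        obtain ⟨h3, h4⟩ := hB1 u' (fHyp_pos.1 h1)
        exact ⟨⟨u', h3⟩, h4, h2⟩
      have hneg : ∀ z : ℂ, dir (-w) z = - dir w z := by
        intro z
        simp only [dir, Complex.neg_re, Complex.neg_im]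
        ring
      by_cases h1 : ∃ u, (X.blk m).vadj.Adj v u ∧ dir w (X.ψ m v) < dir w (X.ψ m u)
      · exact Or.inl ⟨h1, hup w h1⟩
      · by_cases h2 : ∃ u, (X.blk m).vadj.Adj v u ∧ dir w (X.ψ m u) < dir w (X.ψ m v)
        · exfalso
          apply h1
          obtain ⟨u, hu1, hu2⟩ := h2
          obtain ⟨u', h3, h4⟩ := hup (-w) ⟨u, hu1, by rw [hneg, hneg]; linarith⟩
          rw [hneg, hneg] at h4
          exact ⟨u', h3, by linarith⟩
        · refine Or.inr ⟨hv, fun u hu => ?_⟩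
          push Not at h1 h2
          exact le_antisymm (h1 u hu) (h2 u hu)
    · left
      obtain ⟨l, i, hli, hvi⟩ := hA2 v hv
      have hvC : X.InCV m (X.L.x l i) := by
        rw [← hvi]
        exact v.2
      have hve : v = ⟨X.L.x l i, hvC⟩ := Subtype.ext hvi
      by_cases hre : w.re = 0
      · exfalso
        have hd : ∀ z : ℂ, dir w z = w.im * z.im := by
          intro z
          simp [dir, hre]
        have him : w.im ≠ 0 := fun h => hw (Complex.ext hre h)
        have hvim : (X.ψ m v).im = l + 1 / 2 := by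
          rw [hve, hψl]
          rfl
        obtain ⟨u, hu⟩ := hu
        obtain ⟨u', hu'⟩ := hl
        rw [hd, hd] at hu hu'
        obtain ⟨a1, a2, -, -⟩ := fHyp_ht hHt hAdj X m u
        obtain ⟨b1, b2, -, -⟩ := fHyp_ht hHt hAdj X m u'
        rcases lt_or_gt_of_ne him with hneg | hpos
        · have c1 : (X.ψ m u).im < (X.ψ m v).im := by
            by_contra hc
            push Not at hc
            nlinarith
          have c2 : (X.ψ m v).im < (X.ψ m u').im := by
            by_contra hc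
            push Not at hc
            nlinarith
          rw [hvim] at c1 c2
          rcases hli with rfl | rfl
          · linarith
          · push_cast at c1 c2
            linarith
        · have c1 := lt_of_mul_lt_mul_left hu hpos.le
          have c2 := lt_of_mul_lt_mul_left hu' hpos.le
          rw [hvim] at c1 c2
          rcases hli with rfl | rfl
          · linarith
          · push_cast at c1 c2
            linarith
      · obtain ⟨-, h5, -⟩ := hA3 l hli
        obtain ⟨⟨j, hj, hij, hja⟩, ⟨k, hk, hki, hka⟩⟩ := h5 i hvC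
        have m1 := fHyp_mono X.Φ X.L w l hij
        have m2 := fHyp_mono X.Φ X.L w l hki
        subst hve
        rcases lt_or_gt_of_ne hre with hneg | hpos
        · refine ⟨⟨_, hka, ?_⟩, ⟨_, hja, ?_⟩⟩
          · rw [hψl, hψl]
            exact m2.2 hneg
          · rw [hψl, hψl]
            exact m1.2 hneg
        · refine ⟨⟨_, hja, ?_⟩, ⟨_, hka, ?_⟩⟩
          · rw [hψl, hψl]
            exact m1.1 hpos
          · rw [hψl, hψl]
            exact m2.1 hpos
  · -- sep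
    intro K hK hKne hKc hKN
    exfalso
    rw [hadj] at hKc hKN
    set N : Set (CV M.toInc (X.S m)ᶜ) := {v | v ∉ K ∧ ∃ k ∈ K, (X.blk m).vadj.Adj k v} with hN
    set K' : Set V := Subtype.val '' K with hK'
    set N' : Set V := Subtype.val '' N with hN'
    have hN'2 : N'.encard ≤ 2 := (Set.encard_image_le _ _).trans hKN
    have hconn := hTC V E F M.toPolyMap M.vconn N' hN'2
    have hsub : K' ⊆ N'ᶜ := by
      rintro _ ⟨k, hk, rfl⟩ ⟨k', hk', hkk⟩
      have : k' = k := Subtype.ext hkk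
      subst this
      exact hk'.1 hk
    have heq : K' = N'ᶜ := by
      apply hconn.eq_of_closed hsub (hKne.image _)
      rintro _ ⟨k, hk, rfl⟩ u hu hku
      obtain ⟨h1, h2⟩ := (hA1 k (hK hk)).1 u hku
      by_cases hu' : (⟨u, h1⟩ : CV M.toInc (X.S m)ᶜ) ∈ K
      · exact ⟨_, hu', rfl⟩
      · exact absurd ⟨⟨u, h1⟩, ⟨hu', k, hk, h2⟩, rfl⟩ hu
    have hline : ∀ i, X.L.x m i ∈ N' := by
      intro i
      by_contra h
      have : X.L.x m i ∈ K' := by
        rw [heq]
        exact h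
      obtain ⟨k, hk, hkx⟩ := this
      exact hK hk m i hkx
    have hinj : ∀ i j, X.L.x m i = X.L.x m j → i = j := by
      intro i j hij
      have := ((X.L.line m).curve.x_eq i j).1 hij
      have h2 : i - j = 0 := zero_dvd_iff.1 (by simpa using this)
      omega
    have h3 : (3 : ℕ∞) ≤ N'.encard := by
      have hs : ({X.L.x m 0, X.L.x m 1, X.L.x m 2} : Set V) ⊆ N' := by
        rintro u (rfl | rfl | rfl) <;> exact hline _
      have hc : ({X.L.x m 0, X.L.x m 1, X.L.x m 2} : Set V).encard = 3 := by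
        rw [Set.encard_eq_three]
        refine ⟨_, _, _, ?_, ?_, ?_, rfl⟩
        · intro h
          exact absurd (hinj _ _ h) (by decide)
        · intro h
          exact absurd (hinj _ _ h) (by decide)
        · intro h
          exact absurd (hinj _ _ h) (by decide)
      rw [← hc]
      exact Set.encard_le_encard hs
    exact absurd (h3.trans hN'2) (by decide)
  · -- face3
    intro w hw c f p hp hpf hpc
    by_cases hre : w.re = 0
    · by_contra hno
      push Not at hno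
      have hmax : ∀ u, dir w (X.ψ m u) ≤ dir w (X.ψ m (p 0)) := fun u => by
        rw [hpc 0]
        exact hno u
      obtain ⟨l, hl, hall⟩ := fHyp_ext hCyc hRun hV hFC hHt hAdj X m w hw hre (p 0) hmax
      refine fHyp_face hCyc hRun hV hFC M X m l hl f p hp ?_ fun i => hall (p i) ?_
      · intro i
        have := hpf i
        rw [hB] at this
        exact this
      · rw [hpc i, hpc 0]
    · exact fHyp_unbdd hAdj X m w hre c
  · -- edge2
    intro w hw e f g u v hfg hef heg huv hue hve huv'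
    by_cases hre : w.re = 0
    · by_contra hno
      push Not at hno
      obtain ⟨l, hl, hall⟩ := fHyp_ext hCyc hRun hV hFC hHt hAdj X m w hw hre u hno
      obtain ⟨i, hi⟩ := hall u rfl
      obtain ⟨j, hj⟩ := hall v huv'.symm
      rw [hB] at hef heg hue hve
      cases e with
      | inl e' =>
        have h1 : M.ve u.1 e'.1 := hue
        have h2 : M.ve v.1 e'.1 := hve
        have hij : i ≠ j := by
          rintro rfl
          exact huv (Subtype.ext (hi.trans hj.symm))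
        have h3 := hV5 l i j e'.1 hij (by rw [← hi]; exact h1) (by rw [← hj]; exact h2)
        obtain ⟨⟨d, hd, hde⟩, d', hd', hde'⟩ := h3
        have h4 := e'.2 d hde
        have h5 := e'.2 d' hde'
        rcases hl with rfl | rfl
        · exact h5 (fun h => hd' h.1)
        · exact h4 (fun h => h.2 hd)
      | inr t =>
        have h1 : t.1 = f.1 := hef
        have h2 : t.1 = g.1 := heg
        exact hfg (Subtype.ext (h1.symm.trans h2))
    · exact fHyp_unbdd hAdj X m w hre _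

end

end Pool.Agent.CT
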