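import Pool.Agent.CT.FDefs

set_option autoImplicit false

/-! # F4: the frontier of a cut is a line -/

namespace Pool.Agent.CT

open Set Metric

section frieze

variable {V E F G : Type} [Group G] [MulAction G V] [MulAction G E] [MulAction G F]
  {M : PlaneMap V E F} (Φ : Frieze M G)

theorem fLine_one : Φ.eps 1 = 1 ∧ Φ.del 1 = 1 ∧ Φ.c 1 = 0 := by
  have h1 := Φ.eps_mul 1 1
  have h2 := Φ.del_mul 1 1
  have h3 := Φ.c_mul 1 1
  rw [mul_one] at h1 h2 h3
  have e1 : Φ.eps 1 = 1 := by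
    rcases Φ.eps_one 1 with h | h
    · exact h
    · rw [h] at h1
      norm_num at h1
  have e2 : Φ.del 1 = 1 := by
    rcases Φ.del_one 1 with h | h
    · exact h
    · rw [h] at h2
      norm_num at h2
  refine ⟨e1, e2, ?_⟩
  rw [e1] at h3
  linarith

theorem fLine_pow (k : ℕ) : Φ.eps (Φ.τ ^ k) = 1 ∧ Φ.del (Φ.τ ^ k) = 1 ∧
    Φ.c (Φ.τ ^ k) = k * Φ.c Φ.τ := by
  induction k with
  | zero =>
    rw [pow_zero, Nat.cast_zero, zero_mul]
    exact fLine_one Φ
  | succ k ih =>
    obtain ⟨h1, h2, h3⟩ := ih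
    rw [pow_succ, Φ.eps_mul, Φ.del_mul, Φ.c_mul, h1, h2, h3, Φ.τ_eps, Φ.τ_del]
    refine ⟨by norm_num, by norm_num, ?_⟩
    push_cast
    ring

theorem fLine_nofix {k : ℕ} (hk : 0 < k) (v : V) : Φ.τ ^ k • v ≠ v := by
  intro h
  obtain ⟨h1, h2, h3⟩ := fLine_pow Φ k
  have h4 := Φ.free _ h1 h2 ⟨v, h⟩
  rw [h3] at h4
  have h5 := Φ.τ_pos
  have h6 : (0 : ℝ) < k := by exact_mod_cast hk
  have h7 := mul_pos h6 h5
  linarith

theorem fLine_inv {A : Set F} (hA : Φ.IsCut A) (f : F) : Φ.τ • f ∈ A ↔ f ∈ A := by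
  constructor
  · intro h
    have h1 : Φ.del Φ.τ⁻¹ = 1 := by
      have h2 := Φ.del_mul Φ.τ Φ.τ⁻¹
      rw [mul_inv_cancel, (fLine_one Φ).2.1, Φ.τ_del, one_mul] at h2
      exact h2.symm
    have h3 := hA.inv _ _ h1 h
    rwa [inv_smul_smul] at h3
  · exact hA.inv _ _ Φ.τ_del

theorem fLine_fr {A : Set F} (hA : Φ.IsCut A) {e : E} (he : e ∈ fr M.toInc A) :
    Φ.τ • e ∈ fr M.toInc A := by
  obtain ⟨⟨f, hf, hef⟩, g, hg, heg⟩ := he
  exact ⟨⟨Φ.τ • f, (fLine_inv Φ hA f).mpr hf, Φ.act.ef _ _ _ hef⟩, Φ.τ • g,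
    fun h => hg ((fLine_inv Φ hA g).mp h), Φ.act.ef _ _ _ heg⟩

end frieze

theorem fLine (hB : Stmt_Bond) : Stmt_FLine := by
  intro V E F G _ _ _ _ M Φ A hA
  have hne : A.Nonempty := by
    obtain ⟨j, hj⟩ := hA.up
    exact (Φ.up_end.ne j).mono hj
  have hne' : Aᶜ.Nonempty := by
    obtain ⟨j, hj⟩ := hA.lo
    exact (Φ.lo_end.ne j).mono hj
  obtain ⟨n, x, y, hc⟩ := hB V E F M A hne hne' hA.conn hA.conn'
  have hyτ : ∀ i, ∃ j, Φ.τ • y i = y j := by
    intro i
    have h1 := fLine_fr Φ hA ((hc.mem (y i)).mpr ⟨i, rfl⟩)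
    obtain ⟨j, hj⟩ := (hc.mem _).mp h1
    exact ⟨j, hj.symm⟩
  have hxτ : ∀ i, ∃ j, Φ.τ • x i = x j := by
    intro i
    obtain ⟨j, hj⟩ := hyτ i
    have h1 := Φ.act.ve Φ.τ (x i) (y i) ((hc.ve i (x i)).mpr (Or.inl rfl))
    rw [hj] at h1
    rcases (hc.ve j _).mp h1 with h | h
    · exact ⟨_, h⟩
    · exact ⟨_, h⟩
  have hpow : ∀ k : ℕ, Φ.τ ^ k • x 0 ∈ range x := by
    intro k
    induction k with
    | zero =>
      rw [pow_zero, one_smul]
      exact ⟨0, rfl⟩
    | succ k ih =>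
      obtain ⟨i, hi⟩ := ih
      obtain ⟨j, hj⟩ := hxτ i
      rw [pow_succ', mul_smul, ← hi, hj]
      exact ⟨j, rfl⟩
  have hn : n = 0 := by
    rcases hc.n_ne with h | h
    · exact h
    · exfalso
      have hfin : (range x).Finite := by
        refine ((Set.finite_lt_nat n).image (fun k : ℕ => x k)).subset ?_
        rintro _ ⟨i, rfl⟩
        have h0 : 0 ≤ i % n := Int.emod_nonneg _ (by omega)
        have h1 : i % n < n := Int.emod_lt_of_pos _ (by omega)
        obtain ⟨q, hq⟩ := Int.eq_ofNat_of_zero_le h0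
        refine ⟨q, (by omega : q < n), ?_⟩
        refine (hc.x_eq _ _).mpr ?_
        refine ⟨-(i / n), ?_⟩
        have h4 := Int.emod_add_mul_ediv i n
        rw [hq] at h4
        linarith
      have hinj : Function.Injective (fun k : ℕ => Φ.τ ^ k • x 0) := by
        have key : ∀ a b : ℕ, a < b → Φ.τ ^ a • x 0 ≠ Φ.τ ^ b • x 0 := by
          intro a b hab he
          have h2 : b = a + (b - a) := by omega
          rw [h2, pow_add, mul_smul] at he
          exact fLine_nofix Φ (by omega : 0 < b - a) (x 0) (MulAction.injective _ he).symm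
        intro a b hab
        rcases lt_trichotomy a b with h2 | h2 | h2
        · exact absurd hab (key a b h2)
        · exact h2
        · exact absurd hab.symm (key b a h2)
      refine Set.infinite_range_of_injective hinj (hfin.subset ?_)
      rintro _ ⟨k, rfl⟩
      exact hpow k
  subst hn
  have hxinj : ∀ i j, x i = x j → i = j := by
    intro i j h
    have h1 := (hc.x_eq i j).mp h
    rw [Nat.cast_zero, zero_dvd_iff] at h1
    omega
  choose s hs using hxτ
  have hsinj : ∀ i j, s i = s j → i = j := by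
    intro i j h
    refine hxinj i j (MulAction.injective Φ.τ ?_)
    show Φ.τ • x i = Φ.τ • x j
    rw [hs, hs, h]
  have hstep : ∀ i, s (i + 1) = s i + 1 ∨ s (i + 1) = s i - 1 := by
    intro i
    obtain ⟨j, hj⟩ := hyτ i
    have h1 := Φ.act.ve Φ.τ (x i) (y i) ((hc.ve i _).mpr (Or.inl rfl))
    have h2 := Φ.act.ve Φ.τ (x (i + 1)) (y i) ((hc.ve i _).mpr (Or.inr rfl))
    rw [hj, hs] at h1 h2
    have h3 := (hc.ve j _).mp h1
    have h4 := (hc.ve j _).mp h2
    have h5 : s i = j ∨ s i = j + 1 := h3.imp (hxinj _ _) (hxinj _ _)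
    have h6 : s (i + 1) = j ∨ s (i + 1) = j + 1 := h4.imp (hxinj _ _) (hxinj _ _)
    have h7 : s i ≠ s (i + 1) := by
      intro h
      have := hsinj _ _ h
      omega
    omega
  have hconst : ∀ i, s (i + 1 + 1) - s (i + 1) = s (i + 1) - s i := by
    intro i
    have h1 := hstep i
    have h2 := hstep (i + 1)
    have h3 : s (i + 1 + 1) ≠ s i := by
      intro h
      have := hsinj _ _ h
      omega
    omega
  have hd : ∀ i, s (i + 1) - s i = s 1 - s 0 := by
    intro i
    induction i using Int.induction_on with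
    | zero => rw [zero_add]
    | succ i ih => rw [hconst, ih]
    | pred i ih =>
      have h1 := hconst (-(i : ℤ) - 1)
      rw [sub_add_cancel] at h1
      rw [sub_add_cancel, ← h1, ih]
  have hlin : ∀ i, s i = s 0 + (s 1 - s 0) * i := by
    intro i
    induction i using Int.induction_on with
    | zero => rw [mul_zero, add_zero]
    | succ i ih =>
      have h1 := hd i
      rw [ih] at h1
      linarith
    | pred i ih =>
      have h1 := hd (-(i : ℤ) - 1)
      rw [sub_add_cancel, ih] at h1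
      linarith
  have hκ : s 1 - s 0 = 1 := by
    have h1 := hstep 0
    rw [zero_add] at h1
    rcases h1 with h | h
    · omega
    · exfalso
      have hm : s 1 - s 0 = -1 := by omega
      refine fLine_nofix Φ (by norm_num : 0 < 2) (x 0) ?_
      rw [pow_two, mul_smul, hs, hs]
      congr 1
      rw [hlin (s 0), hm]
      ring
  have hshift : ∀ i, Φ.τ • x i = x (i + s 0) := by
    intro i
    rw [hs, hlin i, hκ]
    congr 1
    ring
  have hs0 : s 0 ≠ 0 := by
    intro h
    refine fLine_nofix Φ (by norm_num : 0 < 1) (x 0) ?_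
    rw [pow_one, hshift, h, add_zero]
  rcases lt_or_gt_of_ne hs0 with h | h
  · refine ⟨fun i => x (-i), fun i => y (-i - 1), -s 0, ⟨⟨Or.inl rfl, ?_, ?_, ?_, ?_⟩, ?_, ?_⟩⟩
    · intro i j
      show x (-i) = x (-j) ↔ _
      rw [hc.x_eq, Nat.cast_zero, zero_dvd_iff, zero_dvd_iff]
      constructor <;> intro h1 <;> omega
    · intro i j
      show y (-i - 1) = y (-j - 1) ↔ _
      rw [hc.y_eq, Nat.cast_zero, zero_dvd_iff, zero_dvd_iff]
      constructor <;> intro h1 <;> omega
    · intro e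
      rw [hc.mem]
      constructor
      · rintro ⟨i, rfl⟩
        refine ⟨-i - 1, ?_⟩
        show y (-(-i - 1) - 1) = y i
        congr 1
        ring
      · rintro ⟨i, rfl⟩
        exact ⟨_, rfl⟩
    · intro i v
      show M.ve v (y (-i - 1)) ↔ (v = x (-i) ∨ v = x (-(i + 1)))
      rw [hc.ve, show -i - 1 + 1 = -i by ring, show -(i + 1) = -i - 1 by ring]
      exact or_comm
    · omega
    · intro i
      show Φ.τ • x (-i) = x (-(i + -s 0))
      rw [hshift]
      congr 1
      ring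
  · exact ⟨x, y, s 0, ⟨hc, h, hshift⟩⟩

end Pool.Agent.CT
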