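import Pool.Agent.CT.FPos

set_option autoImplicit false

/-! # F6: equivariant enumerations and positions for a sequence of cuts -/

namespace Pool.Agent.CT

open Set Metric

section frieze

variable {V E F G : Type} [Group G] [MulAction G V] [MulAction G E] [MulAction G F]
  {M : PlaneMap V E F} (Φ : Frieze M G)

/-- The sign of an element, as an integer. -/
noncomputable def fLines_sg (g : G) : ℤ := by
  classical exact if Φ.eps g = 1 then 1 else -1

theorem fLines_sg_cast (g : G) : (fLines_sg Φ g : ℝ) = Φ.eps g := by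
  unfold fLines_sg
  rcases Φ.eps_one g with h | h
  · rw [if_pos h, h]
    norm_num
  · rw [if_neg (by rw [h]; norm_num), h]
    norm_num

theorem fLines_sg_or (g : G) : (fLines_sg Φ g = 1 ∧ Φ.eps g = 1) ∨
    (fLines_sg Φ g = -1 ∧ Φ.eps g = -1) := by
  unfold fLines_sg
  rcases Φ.eps_one g with h | h
  · rw [if_pos h]
    exact Or.inl ⟨rfl, h⟩
  · rw [if_neg (by rw [h]; norm_num)]
    exact Or.inr ⟨rfl, h⟩

theorem fLines_sg_sq (g : G) : fLines_sg Φ g * fLines_sg Φ g = 1 := by
  rcases fLines_sg_or Φ g with ⟨h, _⟩ | ⟨h, _⟩ <;> rw [h] <;> norm_num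

/-- The image of a line under a group element. -/
theorem fLines_transport {A B : Set F} {g : G}
    (h : ∀ e, e ∈ fr M.toInc A ↔ g • e ∈ fr M.toInc B) {x : ℤ → V} {y : ℤ → E} {p : ℤ}
    (hL : Φ.IsLine A x y p) :
    Φ.IsLine B (fun i => g • x (fLines_sg Φ g * i))
      (fun i => g • y (if fLines_sg Φ g = 1 then i else -i - 1)) p := by
  have hs := fLines_sg_or Φ g
  have hinj : ∀ i j, x i = x j → i = j := fun i j => fPos_x_inj hL
  have hyinj : ∀ i j, y i = y j → i = j := by
    intro i j h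
    have := (hL.curve.y_eq i j).mp h
    simp only [Nat.cast_zero, zero_dvd_iff] at this
    omega
  refine ⟨⟨Or.inl rfl, ?_, ?_, ?_, ?_⟩, hL.pos, ?_⟩
  · intro i j
    simp only [Nat.cast_zero, zero_dvd_iff]
    constructor
    · intro h'
      have h1 := hinj _ _ (MulAction.injective g h')
      rcases hs with ⟨h2, _⟩ | ⟨h2, _⟩ <;> rw [h2] at h1 <;> omega
    · intro h'
      have : i = j := by omega
      rw [this]
  · intro i j
    simp only [Nat.cast_zero, zero_dvd_iff]
    constructor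
    · intro h'
      have h1 := hyinj _ _ (MulAction.injective g h')
      rcases hs with ⟨h2, _⟩ | ⟨h2, _⟩
      · rw [h2] at h1
        simp only [if_true] at h1
        omega
      · rw [h2] at h1
        rw [if_neg (by norm_num), if_neg (by norm_num)] at h1
        omega
    · intro h'
      have : i = j := by omega
      rw [this]
  · intro e
    have h1 : e ∈ fr M.toInc B ↔ g⁻¹ • e ∈ fr M.toInc A := by
      rw [h, smul_inv_smul]
    rw [h1, hL.curve.mem]
    constructor
    · rintro ⟨i, hi⟩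
      rcases hs with ⟨h2, _⟩ | ⟨h2, _⟩
      · refine ⟨i, ?_⟩
        rw [h2, if_pos rfl, hi, smul_inv_smul]
      · refine ⟨-i - 1, ?_⟩
        rw [h2, if_neg (by norm_num), show -(-i - 1) - 1 = i by ring, hi, smul_inv_smul]
    · rintro ⟨i, hi⟩
      refine ⟨if fLines_sg Φ g = 1 then i else -i - 1, ?_⟩
      rw [← hi, inv_smul_smul]
  · intro i v
    have h1 : M.ve v (g • y (if fLines_sg Φ g = 1 then i else -i - 1)) ↔
        M.ve (g⁻¹ • v) (y (if fLines_sg Φ g = 1 then i else -i - 1)) := by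
      conv_lhs => rw [← smul_inv_smul g v]
      exact fPos_act_ve Φ
    rw [h1, hL.curve.ve, inv_smul_eq_iff, inv_smul_eq_iff]
    rcases hs with ⟨h2, _⟩ | ⟨h2, _⟩
    · rw [h2, if_pos rfl, one_mul, one_mul]
    · rw [h2, if_neg (by norm_num), show -i - 1 + 1 = -1 * i by ring,
        show -i - 1 = -1 * (i + 1) by ring]
      exact or_comm
  · intro i
    have hconj := fPos_conj Φ g⁻¹
    rw [inv_inv, fPos_eps_inv] at hconj
    have hτi : ∀ i, Φ.τ⁻¹ • x i = x (i - p) := by
      intro i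
      rw [inv_smul_eq_iff, hL.shift, sub_add_cancel]
    have h1 : Φ.τ • g • x (fLines_sg Φ g * i) = g • (g⁻¹ * Φ.τ * g) • x (fLines_sg Φ g * i) := by
      simp only [smul_smul]
      congr 1
      group
    rw [h1, hconj]
    rcases hs with ⟨h2, h3⟩ | ⟨h2, h3⟩
    · rw [if_pos h3, hL.shift, h2, one_mul, one_mul]
    · rw [if_neg (by rw [h3]; norm_num), hτi, h2]
      congr 2
      ring

/-- The reference lines and the elements carrying them to the given lines. -/
theorem fLines_base {U : ℤ → Set F} (hU : Φ.IsSeq U) : ∃ (b : ℤ → ℤ) (h : ℤ → G),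
    (∀ g m, b (Φ.idx g m) = b m ∧ Φ.del ((h (Φ.idx g m))⁻¹ * g * h m) = 1) ∧
    ∀ m e, e ∈ fr M.toInc (U (b m)) ↔ h m • e ∈ fr M.toInc (U m) := by
  classical
  by_cases hex : ∃ g, Φ.del g = -1
  · obtain ⟨g0, hg0⟩ := hex
    refine ⟨fun m => if 0 ≤ m then m else -1 - m, fun m => if 0 ≤ m then 1 else g0, ?_, ?_⟩
    · intro g m
      rcases Φ.del_one g with hd | hd
      · have hi : Φ.idx g m = m := by
          unfold Frieze.idx
          rw [if_pos hd]
        rw [hi]
        refine ⟨rfl, ?_⟩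
        rw [Φ.del_mul, Φ.del_mul, fPos_del_inv, hd, mul_one, fPos_del_sq]
      · have hi : Φ.idx g m = -1 - m := by
          unfold Frieze.idx
          rw [if_neg (by rw [hd]; norm_num)]
        rw [hi]
        by_cases hm : 0 ≤ m
        · have hm' : ¬ 0 ≤ -1 - m := by omega
          simp only [if_pos hm, if_neg hm']
          refine ⟨by ring, ?_⟩
          rw [Φ.del_mul, Φ.del_mul, fPos_del_inv, hd, hg0, fPos_del_one]
          norm_num
        · have hm' : 0 ≤ -1 - m := by omega
          simp only [if_pos hm', if_neg hm]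
          refine ⟨trivial, ?_⟩
          rw [Φ.del_mul, Φ.del_mul, fPos_del_inv, hd, hg0, fPos_del_one]
          norm_num
    · intro m e
      by_cases hm : 0 ≤ m
      · simp only [if_pos hm, one_smul]
      · simp only [if_neg hm]
        have h1 : ∀ f, f ∈ U (-1 - m) ↔ g0 • f ∈ (U m)ᶜ := by
          intro f
          have := hU.swap g0 (-1 - m) f hg0
          rw [show -1 - (-1 - m) = m by ring] at this
          exact this
        have h2 : fr M.toInc (U m)ᶜ = fr M.toInc (U m) := by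
          ext e
          constructor
          · rintro ⟨⟨f, hf, hef⟩, f', hf', hef'⟩
            exact ⟨⟨f', not_not.mp hf', hef'⟩, f, hf, hef⟩
          · rintro ⟨⟨f, hf, hef⟩, f', hf', hef'⟩
            exact ⟨⟨f', hf', hef'⟩, f, not_not.mpr hf, hef⟩
        rw [← h2]
        exact fPos_fr Φ h1 e
  · refine ⟨id, fun _ => 1, ?_, ?_⟩
    · intro g m
      have hd : Φ.del g = 1 := by
        rcases Φ.del_one g with hd | hd
        · exact hd
        · exact absurd ⟨g, hd⟩ hex
      have hi : Φ.idx g m = m := by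
        unfold Frieze.idx
        rw [if_pos hd]
      rw [hi]
      refine ⟨rfl, ?_⟩
      rw [inv_one, one_mul, mul_one, hd]
    · intro m e
      simp only [one_smul, id]

end frieze

theorem fLines (h1 : Stmt_FLine) (h2 : Stmt_FPos) : Stmt_FLines := by
  intro V E F G _ _ _ _ M Φ U hU
  obtain ⟨b, h, hb, hfr⟩ := fLines_base Φ hU
  have key : ∀ m, ∃ x y p, Φ.IsLine (U m) x y p := fun m => h1 V E F G M Φ (U m) (hU.cut m)
  choose X Y P hL using key
  have key2 := fun m => h2 V E F G M Φ (U m) (hU.cut m) (X m) (Y m) (P m) (hL m)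
  have kp : ∀ m g, Φ.del g = 1 → ∀ i, ∃ j, g • X m i = X m j := by
    intro m g hg i
    rcases Φ.eps_one g with he | he
    · obtain ⟨s, hs⟩ := (key2 m).1 g hg he
      exact ⟨_, hs i⟩
    · obtain ⟨s, hs⟩ := (key2 m).2.1 g hg he
      exact ⟨_, hs i⟩
  have kβ : ∀ m, ∃ β : ℝ, ∀ g i j, Φ.del g = 1 → g • X m i = X m j →
      Φ.c Φ.τ * j / P m + β = Φ.eps g * (Φ.c Φ.τ * i / P m + β) + Φ.c g := fun m => (key2 m).2.2
  choose B hB using kβ
  -- a relation between the elements
  have hrel : ∀ g m, g * h m = h (Φ.idx g m) * ((h (Φ.idx g m))⁻¹ * g * h m) := by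
    intro g m
    group
  refine ⟨{ x := fun m i => h m • X (b m) (fLines_sg Φ (h m) * i)
            y := fun m i => h m • Y (b m) (if fLines_sg Φ (h m) = 1 then i else -i - 1)
            p := fun m => P (b m)
            β := fun m => Φ.eps (h m) * B (b m) + Φ.c (h m)
            line := fun m => fLines_transport Φ (hfr m) (hL (b m))
            img := ?_
            pos := ?_ }⟩
  · intro g m i
    obtain ⟨hbm, hd⟩ := hb g m
    obtain ⟨j, hj⟩ := kp (b m) _ hd (fLines_sg Φ (h m) * i)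
    refine ⟨fLines_sg Φ (h (Φ.idx g m)) * j, ?_⟩
    show g • h m • X (b m) (fLines_sg Φ (h m) * i) = h (Φ.idx g m) • X (b (Φ.idx g m))
      (fLines_sg Φ (h (Φ.idx g m)) * (fLines_sg Φ (h (Φ.idx g m)) * j))
    rw [← mul_assoc, fLines_sg_sq, one_mul, hbm, smul_smul, hrel, mul_smul, hj]
  · intro g m i j hij
    obtain ⟨hbm, hd⟩ := hb g m
    have hij' : g • h m • X (b m) (fLines_sg Φ (h m) * i) = h (Φ.idx g m) •
      X (b (Φ.idx g m)) (fLines_sg Φ (h (Φ.idx g m)) * j) := hij
    show Φ.c Φ.τ * j / P (b (Φ.idx g m)) + (Φ.eps (h (Φ.idx g m)) * B (b (Φ.idx g m)) +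
      Φ.c (h (Φ.idx g m))) = Φ.eps g * (Φ.c Φ.τ * i / P (b m) + (Φ.eps (h m) * B (b m) +
      Φ.c (h m))) + Φ.c g
    rw [hbm] at hij' ⊢
    rw [smul_smul, hrel, mul_smul] at hij'
    have hij2 := MulAction.injective _ hij'
    have hpos := hB (b m) _ _ _ hd hij2
    have e1 := Φ.eps_mul g (h m)
    have c1 := Φ.c_mul g (h m)
    rw [hrel, Φ.eps_mul] at e1
    rw [hrel, Φ.c_mul] at c1
    push_cast at hpos
    rw [fLines_sg_cast, fLines_sg_cast] at hpos
    have q1 := fPos_eps_sq Φ (h (Φ.idx g m))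
    have q2 := fPos_eps_sq Φ (h m)
    set k := (h (Φ.idx g m))⁻¹ * g * h m with hk
    set a := Φ.eps (h (Φ.idx g m)) with ha
    set a' := Φ.eps (h m) with ha'
    have r1 : Φ.c Φ.τ * j / P (b m) = a * (Φ.c Φ.τ * (a * j) / P (b m)) := by
      have : a * (Φ.c Φ.τ * (a * j) / P (b m)) = (a * a) * (Φ.c Φ.τ * j / P (b m)) := by ring
      rw [this, q1, one_mul]
    have r2 : Φ.c Φ.τ * i / P (b m) = a' * (Φ.c Φ.τ * (a' * i) / P (b m)) := by
      have : a' * (Φ.c Φ.τ * (a' * i) / P (b m)) = (a' * a') * (Φ.c Φ.τ * i / P (b m)) := by ring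
      rw [this, q2, one_mul]
    rw [r1, r2]
    have r3 : a * (Φ.c Φ.τ * (a * j) / P (b m)) + (a * B (b m) + Φ.c (h (Φ.idx g m))) =
        a * (Φ.c Φ.τ * (a * j) / P (b m) + B (b m)) + Φ.c (h (Φ.idx g m)) := by ring
    rw [r3, hpos]
    linear_combination (Φ.c Φ.τ * (a' * i) / P (b m) + B (b m)) * e1 + c1

end Pool.Agent.CT
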