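import Pool.Agent.CT.FDefs

set_option autoImplicit false

/-! # F13: local finiteness of the harmonic drawing of a frieze -/

namespace Pool.Agent.CT

open Set Metric

theorem fLoc_int_finite (a c R : ℝ) (hc : 0 < c) : {n : ℤ | |a + n * c| ≤ R}.Finite := by
  refine (Set.finite_Icc ⌊(-R - a) / c⌋ ⌈(R - a) / c⌉).subset ?_
  intro n hn
  have h1 : |a + n * c| ≤ R := hn
  rw [abs_le] at h1
  constructor
  · have h2 : (-R - a) / c ≤ n := by
      rw [div_le_iff₀ hc]; linarith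
    exact_mod_cast (Int.floor_le _).trans h2
  · have h2 : (n : ℝ) ≤ (R - a) / c := by
      rw [le_div_iff₀ hc]; linarith
    exact_mod_cast h2.trans (Int.le_ceil _)

theorem fLoc_range (R : ℝ) : {m : ℤ | -R ≤ m + 3 / 2 ∧ (m : ℝ) + 1 / 2 ≤ R}.Finite := by
  refine (fLoc_int_finite (3 / 2) 1 (R + 2) one_pos).subset ?_
  rintro m ⟨h1, h2⟩
  show |(3 / 2 : ℝ) + m * 1| ≤ R + 2
  rw [abs_le]
  constructor <;> linarith

section frieze

variable {V E F G : Type} [Group G] [MulAction G V] [MulAction G E] [MulAction G F]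
  {M : PlaneMap V E F}

theorem fLoc_vf (Φ : Frieze M G) (g : G) {v : V} {f : F} (h : M.vf v f) :
    M.vf (g • v) (g • f) := by
  obtain ⟨e, h1, h2⟩ := h
  exact ⟨g • e, Φ.act.ve g _ _ h1, Φ.act.ef g _ _ h2⟩

theorem fLoc_eps_one (Φ : Frieze M G) : Φ.eps 1 = 1 := by
  have h := Φ.eps_mul 1 1
  rw [one_mul] at h
  rcases Φ.eps_one 1 with h1 | h1
  · exact h1
  · rw [h1] at h; norm_num at h

theorem fLoc_c_one (Φ : Frieze M G) : Φ.c 1 = 0 := by
  have h := Φ.c_mul 1 1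
  rw [one_mul, fLoc_eps_one] at h
  linarith

theorem fLoc_npow (Φ : Frieze M G) (n : ℕ) :
    Φ.eps (Φ.τ ^ n) = 1 ∧ Φ.c (Φ.τ ^ n) = n * Φ.c Φ.τ := by
  induction n with
  | zero =>
    rw [pow_zero, fLoc_eps_one, fLoc_c_one]
    simp
  | succ n ih =>
    rw [pow_succ, Φ.eps_mul, Φ.c_mul, ih.1, ih.2, Φ.τ_eps]
    push_cast
    constructor <;> ring

theorem fLoc_zpow (Φ : Frieze M G) (n : ℤ) :
    Φ.eps (Φ.τ ^ n) = 1 ∧ Φ.c (Φ.τ ^ n) = n * Φ.c Φ.τ := by
  cases n with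
  | ofNat n =>
    rw [Int.ofNat_eq_natCast, zpow_natCast]
    have := fLoc_npow Φ n
    exact_mod_cast this
  | negSucc n =>
    rw [zpow_negSucc]
    obtain ⟨h1, h2⟩ := fLoc_npow Φ (n + 1)
    have h3 := Φ.eps_mul (Φ.τ ^ (n + 1)) (Φ.τ ^ (n + 1))⁻¹
    have h4 := Φ.c_mul (Φ.τ ^ (n + 1)) (Φ.τ ^ (n + 1))⁻¹
    rw [mul_inv_cancel, fLoc_eps_one, h1, one_mul] at h3
    rw [mul_inv_cancel, fLoc_c_one, h1, h2, one_mul] at h4
    refine ⟨h3.symm, ?_⟩
    rw [Int.negSucc_eq]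
    push_cast at h4 ⊢
    linarith

theorem fLoc_re (X : FCtx M G) (n : ℤ) (v : V) :
    (X.φ (X.Φ.τ ^ n • v)).re = (X.φ v).re + n * X.Φ.c X.Φ.τ := by
  rw [X.harm.eqv]
  show X.Φ.eps (X.Φ.τ ^ n) * (X.φ v).re + X.Φ.c (X.Φ.τ ^ n) = _
  rw [(fLoc_zpow X.Φ n).1, (fLoc_zpow X.Φ n).2, one_mul]

theorem fLoc_anti {Φ : Frieze M G} {U : ℤ → Set F} (hU : Φ.IsSeq U) {a b : ℤ} (h : a ≤ b) :
    U b ⊆ U a := by
  obtain ⟨n, rfl⟩ := Int.le.dest h
  clear h
  induction n with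
  | zero => simp
  | succ n ih =>
    refine Subset.trans ?_ ih
    have := hU.anti (a + n)
    rw [add_assoc] at this
    exact_mod_cast this

theorem fLoc_face (M : PlaneMap V E F) (v : V) : ∃ f, M.vf v f := by
  have h1 := M.vert_card v
  have h2 : {e | M.ve v e}.Nonempty := by
    by_contra h
    rw [Set.not_nonempty_iff_eq_empty] at h
    rw [h, Set.ncard_empty] at h1
    omega
  obtain ⟨e, he⟩ := h2
  obtain ⟨f, _, _, hf⟩ := M.edge_faces e
  exact ⟨f, e, he, (hf f).2 (Or.inl rfl)⟩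

theorem fLoc_vert (M : PlaneMap V E F) (f : F) : ∃ v, M.vf v f := by
  have h1 := M.face_card f
  have h2 : {e | M.ef e f}.Nonempty := by
    by_contra h
    rw [Set.not_nonempty_iff_eq_empty] at h
    rw [h, Set.ncard_empty] at h1
    omega
  obtain ⟨e, he⟩ := h2
  obtain ⟨v, _, _, hv⟩ := M.edge_verts e
  exact ⟨v, e, (hv v).2 (Or.inl rfl), he⟩

theorem fLoc_face_fin (M : PlaneMap V E F) (f : F) : {v | M.vf v f}.Finite := by
  have h1 : (⋃ e ∈ {e | M.ef e f}, {v | M.ve v e}).Finite := by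
    refine (M.face_fin f).biUnion fun e _ => ?_
    obtain ⟨a, b, _, hab⟩ := M.edge_verts e
    refine Set.Finite.subset (Set.toFinite {a, b}) ?_
    intro w hw
    rcases (hab w).1 hw with rfl | rfl
    · simp
    · simp
  refine h1.subset ?_
  rintro v ⟨e, he1, he2⟩
  simp only [mem_iUnion]
  exact ⟨e, he2, he1⟩

end frieze

theorem fLoc (hHeight : Stmt_FHeight) (hOrb : Stmt_FOrb) (hVert : Stmt_FVert) : Stmt_FLoc := by
  intro V E F G _ _ _ _ M X R
  classical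
  obtain ⟨hV1, hV2, hV3, hV4, _⟩ := hVert V E F G M X.Φ X.U X.seq X.L
  have him : ∀ l i, (X.φ (X.L.x l i)).im = l + 1 / 2 := by
    intro l i
    rw [X.harm.line l i]
    rfl
  -- every face is in a strip, heights of its vertices
  have hstrip : ∀ f, ∃ m, f ∈ X.S m := by
    intro f
    obtain ⟨v, hv⟩ := fLoc_vert M f
    by_cases hin : X.Inner v
    · obtain ⟨m, hm⟩ := hV3 v hin
      exact ⟨m, hm f hv⟩
    · unfold FCtx.Inner at hin
      push Not at hin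
      obtain ⟨l, i, rfl⟩ := hin
      have h1 := hV4 l i f hv
      by_cases h2 : f ∈ X.U l
      · exact ⟨l, h2, h1.2⟩
      · refine ⟨l - 1, h1.1, ?_⟩
        rwa [sub_add_cancel]
  have hheight : ∀ m, ∀ f ∈ X.S m, ∀ v, M.vf v f →
      (m : ℝ) + 1 / 2 ≤ (X.φ v).im ∧ (X.φ v).im ≤ m + 3 / 2 := by
    intro m f hf v hv
    by_cases hin : X.Inner v
    · have := hHeight V E F G M X m v hin ⟨f, hf, hv⟩
      exact ⟨this.1.le, this.2.le⟩
    · unfold FCtx.Inner at hin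
      push Not at hin
      obtain ⟨l, i, rfl⟩ := hin
      have h1 := hV4 l i f hv
      rw [him]
      have hl : l = m ∨ l = m + 1 := by
        by_contra hcon
        push Not at hcon
        rcases lt_or_ge l m with h | h
        · exact h1.2 (fLoc_anti X.seq (by omega) hf.1)
        · exact hf.2 (fLoc_anti X.seq (by omega) h1.1)
      rcases hl with rfl | rfl
      · constructor <;> linarith
      · push_cast
        constructor <;> linarith
  constructor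
  · -- vertices
    choose Rm hRm1 hRm2 using fun m => (hOrb V E F G M X.Φ X.U X.seq m).1
    have hfin : (⋃ m ∈ {m : ℤ | -R ≤ m + 3 / 2 ∧ (m : ℝ) + 1 / 2 ≤ R}, ⋃ r ∈ Rm m,
        (fun n : ℤ => X.Φ.τ ^ n • r) '' {n : ℤ | |(X.φ r).re + n * X.Φ.c X.Φ.τ| ≤ R}).Finite := by
      refine (fLoc_range R).biUnion fun m _ => (hRm1 m).biUnion fun r _ => ?_
      exact (fLoc_int_finite _ _ _ X.Φ.τ_pos).image _
    refine hfin.subset ?_
    intro v hv
    have hv' : ‖X.φ v‖ ≤ R := hv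
    have h1 := Complex.abs_im_le_norm (X.φ v)
    have h2 := Complex.abs_re_le_norm (X.φ v)
    obtain ⟨f, hf⟩ := fLoc_face M v
    obtain ⟨m, hm⟩ := hstrip f
    obtain ⟨h3, h4⟩ := hheight m f hm v hf
    obtain ⟨n, r, hr, hvr⟩ := hRm2 m v f hf hm
    simp only [mem_iUnion]
    refine ⟨m, ?_, r, hr, n, ?_, hvr.symm⟩
    · have h5 := abs_le.1 (h1.trans hv')
      constructor <;> linarith
    · show |(X.φ r).re + n * X.Φ.c X.Φ.τ| ≤ R
      rw [← fLoc_re, ← hvr]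
      exact h2.trans hv'
  · -- faces
    choose W hW1 hW2 using fun m => X.seq.orb m
    have hC : ∀ w : F, ∃ C : ℝ, ∀ v, M.vf v w → |(X.φ v).re| ≤ C := by
      intro w
      obtain ⟨C, hC⟩ := ((fLoc_face_fin M w).image (fun v => |(X.φ v).re|)).bddAbove
      exact ⟨C, fun v hv => hC ⟨v, hv, rfl⟩⟩
    choose C hC using hC
    have hfin : (⋃ m ∈ {m : ℤ | -R ≤ m + 3 / 2 ∧ (m : ℝ) + 1 / 2 ≤ R}, ⋃ w ∈ W m,
        (fun n : ℤ => X.Φ.τ ^ n • w) ''
          {n : ℤ | |(0 : ℝ) + n * X.Φ.c X.Φ.τ| ≤ R + C w}).Finite := by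
      refine (fLoc_range R).biUnion fun m _ => (hW1 m).biUnion fun r _ => ?_
      exact (fLoc_int_finite _ _ _ X.Φ.τ_pos).image _
    refine hfin.subset ?_
    rintro f ⟨z, hz1, hz2⟩
    have hz : ‖z‖ ≤ R := by
      rw [mem_closedBall, dist_zero_right] at hz2
      exact hz2
    have h1 := (Complex.abs_im_le_norm z).trans hz
    have h2 := (Complex.abs_re_le_norm z).trans hz
    obtain ⟨m, hm⟩ := hstrip f
    obtain ⟨n, w, hw, hfw⟩ := hW2 m f hm.1 hm.2
    have hlow : z ∈ {z : ℂ | (m : ℝ) + 1 / 2 ≤ z.im} := by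
      refine convexHull_min ?_ (convex_halfSpace_im_ge _) hz1
      rintro _ ⟨v, hv, rfl⟩
      exact (hheight m f hm v hv).1
    have hup : z ∈ {z : ℂ | z.im ≤ (m : ℝ) + 3 / 2} := by
      refine convexHull_min ?_ (convex_halfSpace_im_le _) hz1
      rintro _ ⟨v, hv, rfl⟩
      exact (hheight m f hm v hv).2
    have hre : ∀ v, M.vf v f → |(X.φ v).re - n * X.Φ.c X.Φ.τ| ≤ C w := by
      intro v hv
      have h3 : M.vf ((X.Φ.τ ^ n)⁻¹ • v) w := by
        have := fLoc_vf X.Φ (X.Φ.τ ^ n)⁻¹ hv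
        rwa [hfw, inv_smul_smul] at this
      have h4 := hC w _ h3
      have h5 := fLoc_re X n ((X.Φ.τ ^ n)⁻¹ • v)
      rw [smul_inv_smul] at h5
      rw [h5]
      simpa using h4
    have hre1 : z ∈ {z : ℂ | n * X.Φ.c X.Φ.τ - C w ≤ z.re} := by
      refine convexHull_min ?_ (convex_halfSpace_re_ge _) hz1
      rintro _ ⟨v, hv, rfl⟩
      have := (abs_le.1 (hre v hv)).1
      show n * X.Φ.c X.Φ.τ - C w ≤ (X.φ v).re
      linarith
    have hre2 : z ∈ {z : ℂ | z.re ≤ n * X.Φ.c X.Φ.τ + C w} := by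
      refine convexHull_min ?_ (convex_halfSpace_re_le _) hz1
      rintro _ ⟨v, hv, rfl⟩
      have := (abs_le.1 (hre v hv)).2
      show (X.φ v).re ≤ n * X.Φ.c X.Φ.τ + C w
      linarith
    have hlow' : (m : ℝ) + 1 / 2 ≤ z.im := hlow
    have hup' : z.im ≤ (m : ℝ) + 3 / 2 := hup
    have hre1' : n * X.Φ.c X.Φ.τ - C w ≤ z.re := hre1
    have hre2' : z.re ≤ n * X.Φ.c X.Φ.τ + C w := hre2
    have h5 := abs_le.1 h1
    have h6 := abs_le.1 h2
    simp only [mem_iUnion]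
    refine ⟨m, ?_, w, hw, n, ?_, hfw.symm⟩
    · constructor <;> linarith [h5.1, h5.2]
    · show |(0 : ℝ) + n * X.Φ.c X.Φ.τ| ≤ R + C w
      rw [abs_le]
      constructor <;> linarith [h6.1, h6.2]

end Pool.Agent.CT
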