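import Pool.Agent.CT.FDefs

set_option autoImplicit false

/-! # Planarity of the strip block -/

namespace Pool.Agent.CT

open Set Metric

section fplanar

variable {V E F : Type}

/-- The cells of `M` contracted to the side of the face `t`. -/
def fPlanar_side (M : Inc V E F) (D : Set F) (t : F) : Set (Cell V E F) :=
  Cell.edge '' {e | M.ef e t ∧ ∃ d ∈ D, M.ef e d} ∪
    Cell.vert '' {v | M.vf v t ∧ Touch M D v ∧ ∀ f, f ∉ D → M.vf v f → f = t}

theorem fPlanar_uniq (M : PolyMap V E F) {D : Set F} {e : E} {g f t : F} (hg : g ∈ D)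
    (hf : f ∉ D) (ht : t ∉ D) (h1 : M.ef e g) (h2 : M.ef e f) (h3 : M.ef e t) : f = t := by
  obtain ⟨a, b, hab, h⟩ := M.edge_faces e
  rcases (h g).1 h1 with rfl | rfl <;> rcases (h f).1 h2 with rfl | rfl <;>
    rcases (h t).1 h3 with rfl | rfl <;> first | rfl | exact absurd hg hf | exact absurd hg ht

theorem fPlanar_star (M : PolyMap V E F) {D : Set F} {v : V} {t : F} (ht : t ∉ D) {e1 e2 : E}
    (hne : e1 ≠ e2) (h1 : M.ve v e1) (h2 : M.ve v e2) (hf1 : M.ef e1 t) (hf2 : M.ef e2 t)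
    (hD1 : ∃ d ∈ D, M.ef e1 d) (hD2 : ∃ d ∈ D, M.ef e2 d)
    (hfr : ∀ e, M.ve v e → e ∈ fr M.toInc D → e = e1 ∨ e = e2) :
    ∀ f, f ∉ D → M.vf v f → f = t := by
  intro f hf hvf
  by_contra hft
  obtain ⟨e0, hve0, hef0⟩ := hvf
  have hD : ∀ e, e = e1 ∨ e = e2 → ∃ d ∈ D, M.ef e d := by
    rintro e (rfl | rfl)
    · exact hD1
    · exact hD2
  have ht' : ∀ e, e = e1 ∨ e = e2 → M.ef e t := by
    rintro e (rfl | rfl)
    · exact hf1
    · exact hf2
  -- the two edges of `t` at `v`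
  have hcor : ∀ e, M.ve v e → M.ef e t → e = e1 ∨ e = e2 := by
    obtain ⟨e', he', h⟩ := M.corner v e1 t h1 hf1
    intro e ha hb
    rcases (h e).1 ⟨ha, hb⟩ with h' | h'
    · exact Or.inl h'
    · rcases (h e2).1 ⟨h2, hf2⟩ with h'' | h''
      · exact absurd h''.symm hne
      · exact Or.inr (h'.trans h''.symm)
  set A : Set E := {e | M.ve v e ∧ ∀ g, M.ef e g → g ∉ D} with hA
  have hAeq : A = {e | M.ve v e} := by
    refine M.vert_conn v A (fun e he => he.1) ⟨e0, hve0, fun g hg hgD => ?_⟩ ?_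
    · have h4 := hfr e0 hve0 ⟨⟨g, hgD, hg⟩, f, hf, hef0⟩
      exact hft (fPlanar_uniq M hgD hf ht hg hef0 (ht' e0 h4))
    · rintro e ⟨hve, heD⟩ d hvd ⟨g, heg, hdg⟩
      refine ⟨hvd, fun g' hg' hg'D => ?_⟩
      have hgD : g ∉ D := heD g heg
      have h4 := hfr d hvd ⟨⟨g', hg'D, hg'⟩, g, hgD, hdg⟩
      have h5 : g = t := fPlanar_uniq M hg'D hgD ht hg' hdg (ht' d h4)
      subst h5
      obtain ⟨d', hd', hed'⟩ := hD e (hcor e hve heg)
      exact heD d' hed' hd'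
  have h4 : e1 ∈ A := by
    rw [hAeq]
    exact h1
  obtain ⟨d, hd, hed⟩ := hD1
  exact h4.2 d hed hd

theorem fPlanar_two (M : Inc V E F) {C : Set E} {x : ℤ → V} {y : ℤ → E}
    (hc : IsCurve M C 0 x y) {v : V} {e1 e2 : E} (hne : e1 ≠ e2) (h1 : M.ve v e1)
    (h2 : M.ve v e2) (c1 : e1 ∈ C) (c2 : e2 ∈ C) :
    ∀ e, M.ve v e → e ∈ C → e = e1 ∨ e = e2 := by
  have hx : ∀ i j, x i = x j → i = j := by
    intro i j h
    have := (hc.x_eq i j).1 h
    simp only [Nat.cast_zero, zero_dvd_iff] at this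
    omega
  intro e h3 c3
  obtain ⟨j1, rfl⟩ := (hc.mem e1).1 c1
  obtain ⟨j2, rfl⟩ := (hc.mem e2).1 c2
  obtain ⟨j, rfl⟩ := (hc.mem e).1 c3
  have hjne : j1 ≠ j2 := fun h => hne (by rw [h])
  have key : j = j1 ∨ j = j2 := by
    rcases (hc.ve j1 v).1 h1 with a1 | a1 <;> rcases (hc.ve j2 v).1 h2 with a2 | a2 <;>
      rcases (hc.ve j v).1 h3 with a3 | a3 <;>
      · have b1 := hx _ _ (a1.symm.trans a2)
        have b2 := hx _ _ (a1.symm.trans a3)
        omega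
  rcases key with rfl | rfl
  · exact Or.inl rfl
  · exact Or.inr rfl

theorem fPlanar_fr_compl (M : Inc V E F) (A : Set F) : fr M Aᶜ = fr M A := by
  ext e
  constructor
  · rintro ⟨⟨f, hf, hef⟩, g, hg, heg⟩
    exact ⟨⟨g, not_not.1 hg, heg⟩, f, hf, hef⟩
  · rintro ⟨⟨f, hf, hef⟩, g, hg, heg⟩
    exact ⟨⟨g, hg, heg⟩, f, fun h => h hf, hef⟩

/-- The side of `t` is connected and meets every touched vertex of `t`. -/
theorem fPlanar_conn (M : PolyMap V E F) {D D' : Set F} {t : F} (htD : t ∉ D) (hsub : D' ⊆ D)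
    (hD : ∀ v f, M.vf v t → M.vf v f → f ∈ D → f ∈ D') {x : ℤ → V} {y : ℤ → E}
    (hcv : IsCurve M.toInc (fr M.toInc D') 0 x y) {n : ℕ} {x' : ℤ → V} {y' : ℤ → E}
    (hfc : IsFaceCycle M.toInc t n x' y') {a : ℤ} {r : ℕ} (hr : 1 ≤ r) (_ : r + 2 ≤ n)
    (hT : ∀ i, Touch M.toInc D' (x' i) ↔ ∃ k : ℕ, k ≤ r ∧ (n : ℤ) ∣ i - (a + k))
    (hE : ∀ i, (∃ d ∈ D', M.ef (y' i) d) ↔ ∃ k : ℕ, k < r ∧ (n : ℤ) ∣ i - (a + k)) :
    ConnIn M.cellGraph (fPlanar_side M.toInc D t) ∧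
      ∀ v, M.vf v t → Touch M.toInc D v →
        ∃ e, M.ve v e ∧ M.ef e t ∧ ∃ d ∈ D, M.ef e d := by
  have htD' : t ∉ D' := fun h => htD (hsub h)
  have hcyc := hfc.curve
  have hyt : ∀ i, M.ef (y' i) t := fun i => (hcyc.mem (y' i)).2 ⟨i, rfl⟩
  have hxt : ∀ i, M.vf (x' i) t := fun i => ⟨y' i, (hcyc.ve i _).2 (Or.inl rfl), hyt i⟩
  -- run edges
  have hrun : ∀ k : ℕ, k < r → ∃ d ∈ D', M.ef (y' (a + k)) d := fun k hk =>
    (hE _).2 ⟨k, hk, by simp⟩
  have hrunD : ∀ k : ℕ, k < r → ∃ d ∈ D, M.ef (y' (a + k)) d := fun k hk => by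
    obtain ⟨d, hd, h⟩ := hrun k hk
    exact ⟨d, hsub hd, h⟩
  have hedge : ∀ k : ℕ, k < r → Cell.edge (y' (a + k)) ∈ fPlanar_side M.toInc D t :=
    fun k hk => Or.inl ⟨_, ⟨hyt _, hrunD k hk⟩, rfl⟩
  have hyfr : ∀ k : ℕ, k < r → y' (a + k) ∈ fr M.toInc D' := fun k hk =>
    ⟨hrun k hk, t, htD', hyt _⟩
  have hyne : ∀ i, y' i ≠ y' (i + 1) := by
    intro i h
    have h4 := (hcyc.y_eq _ _).1 h.symm
    have h5 := Int.le_of_dvd (by omega) h4
    have := hfc.three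
    omega
  have hinner : ∀ k : ℕ, k + 1 < r → Cell.vert (x' (a + k + 1)) ∈ fPlanar_side M.toInc D t := by
    intro k hk
    have hv1 : M.ve (x' (a + k + 1)) (y' (a + k)) := (hcyc.ve _ _).2 (Or.inr rfl)
    have hv2 : M.ve (x' (a + k + 1)) (y' (a + k + 1)) := (hcyc.ve _ _).2 (Or.inl rfl)
    have hr1 := hrun k (by omega)
    have hr2 := hrun (k + 1) hk
    have hf1 := hyfr k (by omega)
    have hf2 := hyfr (k + 1) hk
    have hcast : a + ((k + 1 : ℕ) : ℤ) = a + k + 1 := by push_cast; ring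
    rw [hcast] at hr2 hf2
    refine Or.inr ⟨_, ⟨hxt _, ?_, ?_⟩, rfl⟩
    · obtain ⟨d, hd, h⟩ := hr1
      exact ⟨d, hsub hd, y' (a + k), hv1, h⟩
    · intro f hf hvf
      exact fPlanar_star M htD' (hyne _) hv1 hv2 (hyt _) (hyt _) hr1 hr2
        (fPlanar_two M.toInc hcv (hyne _) hv1 hv2 hf1 hf2) f (fun h => hf (hsub h)) hvf
  -- touched vertices
  have htouch : ∀ v, M.vf v t → Touch M.toInc D v → ∃ k : ℕ, k < r ∧ M.ve v (y' (a + k)) := by
    intro v hv hTv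
    obtain ⟨e, hve, het⟩ := hv
    obtain ⟨j, rfl⟩ := (hcyc.mem e).1 het
    have hex : ∃ i, v = x' i := by
      rcases (hcyc.ve j v).1 hve with h | h
      · exact ⟨_, h⟩
      · exact ⟨_, h⟩
    obtain ⟨i, rfl⟩ := hex
    obtain ⟨d, hd, hvd⟩ := hTv
    obtain ⟨k, hk, hdvd⟩ := (hT i).1 ⟨d, hD _ _ (hxt i) hvd hd, hvd⟩
    have hx : x' i = x' (a + k) := (hcyc.x_eq _ _).2 hdvd
    rcases Nat.lt_or_ge k r with h | h
    · exact ⟨k, h, by rw [hx]; exact (hcyc.ve _ _).2 (Or.inl rfl)⟩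
    · have hkr : k = r := le_antisymm hk h
      refine ⟨r - 1, by omega, ?_⟩
      rw [hx]
      refine (hcyc.ve _ _).2 (Or.inr ?_)
      congr 1
      omega
  refine ⟨?_, ?_⟩
  · have hbase : ∀ k : ℕ, k < r → ReachIn M.cellGraph (fPlanar_side M.toInc D t)
        (Cell.edge (y' (a + (0 : ℕ)))) (Cell.edge (y' (a + k))) := by
      intro k
      induction k with
      | zero => intro _; exact ReachIn.refl _
      | succ k ih =>
        intro hk
        have hcast : a + ((k + 1 : ℕ) : ℤ) = a + k + 1 := by push_cast; ring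
        have h4 := hedge (k + 1) hk
        rw [hcast] at h4 ⊢
        refine ((ih (by omega)).tail (Or.inr (CellInc.ve ((hcyc.ve _ _).2 (Or.inr rfl))))
          (hedge k (by omega)) (hinner k hk)).tail
          (Or.inl (CellInc.ve ((hcyc.ve _ _).2 (Or.inl rfl)))) (hinner k hk) h4
    refine ConnIn.of_base (Cell.edge (y' (a + (0 : ℕ)))) ?_
    rintro z (⟨e, ⟨het, d, hd, hed⟩, rfl⟩ | ⟨v, ⟨hvt, hTv, hu⟩, rfl⟩)
    · obtain ⟨i, rfl⟩ := (hcyc.mem e).1 het
      have hd' : d ∈ D' := hD (x' i) d (hxt i) ⟨y' i, (hcyc.ve _ _).2 (Or.inl rfl), hed⟩ hd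
      obtain ⟨k, hk, hdvd⟩ := (hE i).1 ⟨d, hd', hed⟩
      have hy : y' i = y' (a + k) := (hcyc.y_eq _ _).2 hdvd
      rw [hy]
      exact hbase k hk
    · obtain ⟨k, hk, hvk⟩ := htouch v hvt hTv
      exact (hbase k hk).tail (Or.inr (CellInc.ve hvk)) (hedge k hk) (Or.inr ⟨v, ⟨hvt, hTv, hu⟩, rfl⟩)
  · intro v hv hTv
    obtain ⟨k, hk, hvk⟩ := htouch v hv hTv
    exact ⟨_, hvk, hyt _, hrunD k hk⟩

end fplanar

section main

variable {V E F G : Type} [Group G] [MulAction G V] [MulAction G E] [MulAction G F]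
  {M : PlaneMap V E F}

theorem fPlanar_side_ok (h1 : Stmt_FRun) (h2 : Stmt_FaceCycle) (X : FCtx M G) (m : ℤ) (t : F)
    (ht : t ∉ (X.S m)ᶜ) (he : ∃ e, M.ef e t ∧ ∃ d ∈ (X.S m)ᶜ, M.ef e d) :
    ConnIn M.cellGraph (fPlanar_side M.toInc (X.S m)ᶜ t) ∧
      ∀ v, M.vf v t → Touch M.toInc (X.S m)ᶜ v →
        ∃ e, M.ve v e ∧ M.ef e t ∧ ∃ d ∈ (X.S m)ᶜ, M.ef e d := by
  have htS : t ∈ X.S m := not_not.1 ht
  obtain ⟨n, x', y', hfc⟩ := h2 V E F M.toPolyMap t
  have hcyc := hfc.curve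
  obtain ⟨e, het, d, hd, hed⟩ := he
  obtain ⟨i, rfl⟩ := (hcyc.mem e).1 het
  have hxt : M.vf (x' i) t := ⟨y' i, (hcyc.ve i _).2 (Or.inl rfl), het⟩
  have hxd : M.vf (x' i) d := ⟨y' i, (hcyc.ve i _).2 (Or.inl rfl), hed⟩
  -- abstract step
  have step : ∀ (A : Set F), X.Φ.IsCut A → ∀ (x : ℤ → V) (y : ℤ → E) (p : ℤ),
      X.Φ.IsLine A x y p → ∀ D' : Set F, (D' = A ∨ D' = Aᶜ) → D' ⊆ (X.S m)ᶜ → d ∈ D' →
      (∀ v f, M.vf v t → M.vf v f → f ∈ (X.S m)ᶜ → f ∈ D') →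
      ConnIn M.cellGraph (fPlanar_side M.toInc (X.S m)ᶜ t) ∧
      ∀ v, M.vf v t → Touch M.toInc (X.S m)ᶜ v →
        ∃ e, M.ve v e ∧ M.ef e t ∧ ∃ d ∈ (X.S m)ᶜ, M.ef e d := by
    intro A hA x y p hL D' hD' hsub hdD' hD
    have htD' : t ∉ D' := fun h => ht (hsub h)
    rcases h1 V E F G M X.Φ A hA x y p hL D' hD' t htD' n x' y' hfc with h | h
    · exact absurd ⟨d, hdD', hxd⟩ (h i)
    · obtain ⟨a, r, i₀, κ, hκ, hrn, hx, hT, hE⟩ := h
      have hr : 1 ≤ r := by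
        obtain ⟨k, hk, _⟩ := (hE i).1 ⟨d, hdD', hed⟩
        omega
      have hcv : IsCurve M.toInc (fr M.toInc D') 0 x y := by
        rcases hD' with rfl | rfl
        · exact hL.curve
        · rw [fPlanar_fr_compl]
          exact hL.curve
      exact fPlanar_conn M.toPolyMap ht hsub hD hcv hfc hr hrn hT hE
  have hfar := X.seq.far m
  have hd' : d ∉ X.U m ∨ d ∈ X.U (m + 1) := by
    by_contra hcon
    push Not at hcon
    exact hd ⟨hcon.1, hcon.2⟩
  have hS : ∀ f, f ∈ (X.S m)ᶜ → f ∉ X.U m ∨ f ∈ X.U (m + 1) := by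
    intro f hf
    by_contra hcon
    push Not at hcon
    exact hf ⟨hcon.1, hcon.2⟩
  rcases hd' with hd' | hd'
  · refine step (X.U m) (X.seq.cut m) _ _ _ (X.L.line m) (X.U m)ᶜ (Or.inr rfl) ?_ hd' ?_
    · intro f hf h
      exact hf h.1
    · intro v f hvt hvf hf
      rcases hS f hf with h | h
      · exact h
      · exact absurd ⟨x' i, hxt, hxd⟩ (hfar f h d hd' t ⟨v, hvf, hvt⟩)
  · refine step (X.U (m + 1)) (X.seq.cut (m + 1)) _ _ _ (X.L.line (m + 1)) (X.U (m + 1))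
      (Or.inl rfl) ?_ hd' ?_
    · intro f hf h
      exact h.2 hf
    · intro v f hvt hvf hf
      rcases hS f hf with h | h
      · exact absurd ⟨v, hvt, hvf⟩ (hfar d hd' f h t ⟨x' i, hxd, hxt⟩)
      · exact h

/-- F12b: planarity of the strip block. -/
theorem fPlanar (h1 : Stmt_FRun) (h2 : Stmt_FaceCycle) : Stmt_FPlanar := by
  intro V E F G _ _ _ _ M X m
  set D : Set F := (X.S m)ᶜ with hDdef
  let mm : Cell (CV M.toInc D) (CE M.toInc D) {f : F // f ∉ D} → Set (Cell V E F) := fun z =>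
    match z with
    | .vert v => {Cell.vert v.1}
    | .edge (Sum.inl e) => {Cell.edge e.1}
    | .edge (Sum.inr t) => fPlanar_side M.toInc D t.1
    | .face f => {Cell.face f.1}
  have hok := fun t ht he => fPlanar_side_ok h1 h2 X m t ht he
  rw [← hDdef] at hok
  refine M.planar.minor (H := (X.blk m).cellGraph) mm ?_ ?_ ?_ ?_
  · rintro (v | (e | t) | f)
    · exact singleton_nonempty _
    · exact singleton_nonempty _
    · obtain ⟨e, he, d, hd, hed⟩ := t.2.2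
      exact ⟨Cell.edge e, Or.inl ⟨e, ⟨he, d, hd, hed⟩, rfl⟩⟩
    · exact singleton_nonempty _
  · rintro (v | (e | t) | f)
    · exact ConnIn.singleton _
    · exact ConnIn.singleton _
    · exact (hok t.1 t.2.1 t.2.2).1
    · exact ConnIn.singleton _
  · -- disjointness
    have hmem : ∀ (b : Cell (CV M.toInc D) (CE M.toInc D) {f : F // f ∉ D}) (z : Cell V E F),
        z ∈ mm b → (∃ v : CV M.toInc D, b = .vert v ∧ z = .vert v.1) ∨
        (∃ e : {e : E // ∀ f, M.ef e f → f ∉ D}, b = .edge (Sum.inl e) ∧ z = .edge e.1) ∨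
        (∃ t : {f : F // f ∉ D ∧ ∃ e, M.ef e f ∧ ∃ d ∈ D, M.ef e d},
          b = .edge (Sum.inr t) ∧ ((∃ e, z = .edge e ∧ M.ef e t.1 ∧ ∃ d ∈ D, M.ef e d) ∨
            ∃ v, z = .vert v ∧ M.vf v t.1 ∧ ∀ f, f ∉ D → M.vf v f → f = t.1)) ∨
        ∃ f : {f : F // f ∉ D}, b = .face f ∧ z = .face f.1 := by
      rintro (v | (e | t) | f) z hz
      · exact Or.inl ⟨v, rfl, hz⟩
      · exact Or.inr (Or.inl ⟨e, rfl, hz⟩)
      · refine Or.inr (Or.inr (Or.inl ⟨t, rfl, ?_⟩))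
        rcases hz with ⟨e, ⟨h3, h4⟩, rfl⟩ | ⟨v, ⟨h3, h4, h5⟩, rfl⟩
        · exact Or.inl ⟨e, rfl, h3, h4⟩
        · exact Or.inr ⟨v, rfl, h3, h5⟩
      · exact Or.inr (Or.inr (Or.inr ⟨f, rfl, hz⟩))
    intro b b' hbb'
    rw [Set.disjoint_left]
    intro z hz hz'
    apply hbb'
    rcases hmem b z hz with ⟨v, rfl, rfl⟩ | ⟨e, rfl, rfl⟩ | ⟨t, rfl, h⟩ | ⟨f, rfl, rfl⟩ <;>
      rcases hmem b' _ hz' with ⟨v', rfl, h'⟩ | ⟨e', rfl, h'⟩ | ⟨t', rfl, h'⟩ | ⟨f', rfl, h'⟩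
    · simp only [Cell.vert.injEq] at h'
      rw [Subtype.ext h']
    · exact absurd h' (by simp)
    · rcases h' with ⟨e, h', _⟩ | ⟨w, h', h3, h4⟩
      · exact absurd h' (by simp)
      · simp only [Cell.vert.injEq] at h'
        subst h'
        obtain ⟨f, g, hfg, hf, hg, hvf, hvg⟩ := v.2
        exact absurd ((h4 f hf hvf).trans (h4 g hg hvg).symm) hfg
    · exact absurd h' (by simp)
    · exact absurd h' (by simp)
    · simp only [Cell.edge.injEq] at h'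
      rw [Subtype.ext h']
    · rcases h' with ⟨e'', h', h3, d, hd, hed⟩ | ⟨w, h', _⟩
      · simp only [Cell.edge.injEq] at h'
        subst h'
        exact absurd hd (e.2 d hed)
      · exact absurd h' (by simp)
    · exact absurd h' (by simp)
    · rcases h with ⟨e, h, _⟩ | ⟨w, h, h3, h4⟩
      · exact absurd (h.symm.trans h') (by simp)
      · have h5 := h.symm.trans h'
        simp only [Cell.vert.injEq] at h5
        subst h5
        obtain ⟨f, g, hfg, hf, hg, hvf, hvg⟩ := v'.2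
        exact absurd ((h4 f hf hvf).trans (h4 g hg hvg).symm) hfg
    · rcases h with ⟨e'', h, h3, d, hd, hed⟩ | ⟨w, h, _⟩
      · have h5 := h.symm.trans h'
        simp only [Cell.edge.injEq] at h5
        subst h5
        exact absurd hd (e'.2 d hed)
      · exact absurd (h.symm.trans h') (by simp)
    · have htt : t.1 = t'.1 := by
        rcases h with ⟨e, h, h3, d, hd, hed⟩ | ⟨w, h, h3, h4⟩ <;>
          rcases h' with ⟨e', h', h3', d', hd', hed'⟩ | ⟨w', h', h3', h4'⟩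
        · have h5 := h.symm.trans h'
          simp only [Cell.edge.injEq] at h5
          subst h5
          exact fPlanar_uniq M.toPolyMap hd t.2.1 t'.2.1 hed h3 h3'
        · exact absurd (h.symm.trans h') (by simp)
        · exact absurd (h.symm.trans h') (by simp)
        · have h5 := h.symm.trans h'
          simp only [Cell.vert.injEq] at h5
          subst h5
          exact h4' t.1 t.2.1 h3
      rw [Subtype.ext htt]
    · rcases h with ⟨e, h, _⟩ | ⟨w, h, _⟩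
      · exact absurd (h.symm.trans h') (by simp)
      · exact absurd (h.symm.trans h') (by simp)
    · exact absurd h' (by simp)
    · exact absurd h' (by simp)
    · rcases h' with ⟨e, h', _⟩ | ⟨w, h', _⟩
      · exact absurd h' (by simp)
      · exact absurd h' (by simp)
    · simp only [Cell.face.injEq] at h'
      rw [Subtype.ext h']
  · -- adjacency
    have key : ∀ b b', CellInc (X.blk m) b b' → ∃ x ∈ mm b, ∃ y ∈ mm b', M.cellGraph.Adj x y := by
      rintro b b' (@⟨v, e, h⟩ | @⟨e, f, h⟩ | @⟨v, f, h⟩)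
      · rcases e with e | t
        · exact ⟨_, rfl, _, rfl, Or.inl (CellInc.ve h)⟩
        · have h' : M.vf v.1 t.1 ∧ Touch M.toInc D v.1 := h
          obtain ⟨e, hve, het, hed⟩ := (hok t.1 t.2.1 t.2.2).2 v.1 h'.1 h'.2
          exact ⟨_, rfl, Cell.edge e, Or.inl ⟨e, ⟨het, hed⟩, rfl⟩, Or.inl (CellInc.ve hve)⟩
      · rcases e with e | t
        · exact ⟨_, rfl, _, rfl, Or.inl (CellInc.ef h)⟩
        · have h' : t.1 = f.1 := h
          obtain ⟨e, he, d, hd, hed⟩ := t.2.2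
          refine ⟨Cell.edge e, Or.inl ⟨e, ⟨he, d, hd, hed⟩, rfl⟩, _, rfl, Or.inl (CellInc.ef ?_)⟩
          rw [← h']
          exact he
      · refine ⟨_, rfl, _, rfl, Or.inl (CellInc.vf ?_)⟩
        obtain ⟨e | t, h3, h4⟩ := h
        · exact ⟨e.1, h3, h4⟩
        · have h' : t.1 = f.1 := h4
          have h'' : M.vf v.1 t.1 ∧ Touch M.toInc D v.1 := h3
          rw [← h']
          exact h''.1
    rintro b b' (h | h)
    · exact key b b' h
    · obtain ⟨x, hx, y, hy, hxy⟩ := key b' b h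
      exact ⟨y, hy, x, hx, hxy.symm⟩

end main

end Pool.Agent.CT
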