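import Pool.Agent.CT.FDefs

set_option autoImplicit false

/-! # F5: the action on a line, and equivariant positions -/

namespace Pool.Agent.CT

open Set Metric

/-- An injective map of the integers moving neighbours to neighbours is a shift or a reflection. -/
theorem fPos_aff (ρ : ℤ → ℤ) (hinj : Function.Injective ρ)
    (h : ∀ i, ρ (i + 1) = ρ i + 1 ∨ ρ (i + 1) = ρ i - 1) :
    ∃ κ : ℤ, (κ = 1 ∨ κ = -1) ∧ ∀ i, ρ i = κ * i + ρ 0 := by
  have hd : ∀ i, ρ (i + 1 + 1) - ρ (i + 1) = ρ (i + 1) - ρ i := by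
    intro i
    have hne : ρ (i + 1 + 1) ≠ ρ i := by
      intro he
      have := hinj he
      omega
    rcases h i with h1 | h1 <;> rcases h (i + 1) with h2 | h2 <;> omega
  have hc : ∀ i, ρ (i + 1) - ρ i = ρ 1 - ρ 0 := by
    intro i
    induction i using Int.induction_on with
    | zero => simp
    | succ n ih => rw [hd, ih]
    | pred n ih =>
      have := hd (-(n : ℤ) - 1)
      rw [show -(n : ℤ) - 1 + 1 = -(n : ℤ) by ring] at this ⊢
      rw [← this, ih]
  refine ⟨ρ 1 - ρ 0, ?_, ?_⟩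
  · have := h 0
    rw [zero_add] at this
    omega
  · intro i
    induction i using Int.induction_on with
    | zero => simp
    | succ n ih =>
      have := hc n
      linarith
    | pred n ih =>
      have := hc (-(n : ℤ) - 1)
      rw [show -(n : ℤ) - 1 + 1 = -(n : ℤ) by ring] at this
      linarith

section frieze

variable {V E F G : Type} [Group G] [MulAction G V] [MulAction G E] [MulAction G F]
  {M : PlaneMap V E F} (Φ : Frieze M G)

theorem fPos_eps_one : Φ.eps 1 = 1 := by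
  have h := Φ.eps_mul 1 1
  rw [mul_one] at h
  rcases Φ.eps_one 1 with h1 | h1
  · exact h1
  · rw [h1] at h
    norm_num at h

theorem fPos_del_one : Φ.del 1 = 1 := by
  have h := Φ.del_mul 1 1
  rw [mul_one] at h
  rcases Φ.del_one 1 with h1 | h1
  · exact h1
  · rw [h1] at h
    norm_num at h

theorem fPos_c_one : Φ.c 1 = 0 := by
  have h := Φ.c_mul 1 1
  rw [mul_one, fPos_eps_one] at h
  linarith

theorem fPos_eps_sq (g : G) : Φ.eps g * Φ.eps g = 1 := by
  rcases Φ.eps_one g with h | h <;> rw [h] <;> norm_num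

theorem fPos_del_sq (g : G) : Φ.del g * Φ.del g = 1 := by
  rcases Φ.del_one g with h | h <;> rw [h] <;> norm_num

theorem fPos_eps_inv (g : G) : Φ.eps g⁻¹ = Φ.eps g := by
  have h : Φ.eps g * Φ.eps g⁻¹ = 1 := by rw [← Φ.eps_mul, mul_inv_cancel, fPos_eps_one]
  rcases Φ.eps_one g with h1 | h1 <;> rw [h1] at h ⊢ <;> linarith

theorem fPos_del_inv (g : G) : Φ.del g⁻¹ = Φ.del g := by
  have h : Φ.del g * Φ.del g⁻¹ = 1 := by rw [← Φ.del_mul, mul_inv_cancel, fPos_del_one]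
  rcases Φ.del_one g with h1 | h1 <;> rw [h1] at h ⊢ <;> linarith

theorem fPos_c_inv (g : G) : Φ.c g⁻¹ = -(Φ.eps g * Φ.c g) := by
  have h : Φ.c (g⁻¹ * g) = Φ.eps g⁻¹ * Φ.c g + Φ.c g⁻¹ := Φ.c_mul _ _
  rw [inv_mul_cancel, fPos_c_one, fPos_eps_inv] at h
  linarith

/-- Conjugates of the translation. -/
theorem fPos_conj (g : G) : g * Φ.τ * g⁻¹ = if Φ.eps g = 1 then Φ.τ else Φ.τ⁻¹ := by
  have h1 : Φ.eps (g * Φ.τ * g⁻¹) = 1 := by
    rw [Φ.eps_mul, Φ.eps_mul, Φ.τ_eps, fPos_eps_inv, mul_one, fPos_eps_sq]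
  have h2 : Φ.del (g * Φ.τ * g⁻¹) = 1 := by
    rw [Φ.del_mul, Φ.del_mul, Φ.τ_del, fPos_del_inv, mul_one, fPos_del_sq]
  have h3 : Φ.c (g * Φ.τ * g⁻¹) = Φ.eps g * Φ.c Φ.τ := by
    rw [Φ.c_mul, Φ.c_mul, Φ.eps_mul, Φ.τ_eps, mul_one, fPos_c_inv]
    have := fPos_eps_sq Φ g
    linear_combination (-Φ.c g) * this
  rcases Φ.eps_one g with h | h
  · rw [if_pos h]
    exact Φ.inj _ _ (by rw [h1, Φ.τ_eps]) (by rw [h2, Φ.τ_del]) (by rw [h3, h, one_mul])
  · rw [if_neg (by rw [h]; norm_num)]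
    refine Φ.inj _ _ (by rw [h1, fPos_eps_inv, Φ.τ_eps]) (by rw [h2, fPos_del_inv, Φ.τ_del]) ?_
    rw [h3, h, fPos_c_inv, Φ.τ_eps]
    ring

include Φ in
theorem fPos_act_ve {g : G} {v : V} {e : E} : M.ve (g • v) (g • e) ↔ M.ve v e := by
  constructor
  · intro h
    have := Φ.act.ve g⁻¹ _ _ h
    rwa [inv_smul_smul, inv_smul_smul] at this
  · exact Φ.act.ve g v e

include Φ in
theorem fPos_act_ef {g : G} {e : E} {f : F} : M.ef (g • e) (g • f) ↔ M.ef e f := by
  constructor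
  · intro h
    have := Φ.act.ef g⁻¹ _ _ h
    rwa [inv_smul_smul, inv_smul_smul] at this
  · exact Φ.act.ef g e f

include Φ in
/-- If `g` maps `A` onto `B`, it maps the frontier of `A` onto the frontier of `B`. -/
theorem fPos_fr {A B : Set F} {g : G} (h : ∀ f, f ∈ A ↔ g • f ∈ B) (e : E) :
    e ∈ fr M.toInc A ↔ g • e ∈ fr M.toInc B := by
  constructor
  · rintro ⟨⟨f, hf, hef⟩, f', hf', hef'⟩
    exact ⟨⟨g • f, (h f).mp hf, (fPos_act_ef Φ).mpr hef⟩, g • f', fun h' => hf' ((h f').mpr h'),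
      (fPos_act_ef Φ).mpr hef'⟩
  · rintro ⟨⟨f, hf, hef⟩, f', hf', hef'⟩
    refine ⟨⟨g⁻¹ • f, (h _).mpr ?_, ?_⟩, g⁻¹ • f', fun h' => hf' ?_, ?_⟩
    · rwa [smul_inv_smul]
    · have := Φ.act.ef g⁻¹ _ _ hef
      rwa [inv_smul_smul] at this
    · have := (h _).mp h'
      rwa [smul_inv_smul] at this
    · have := Φ.act.ef g⁻¹ _ _ hef'
      rwa [inv_smul_smul] at this

theorem fPos_cut_inv {A : Set F} (hA : Φ.IsCut A) {g : G} (hg : Φ.del g = 1) (f : F) :
    f ∈ A ↔ g • f ∈ A := by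
  constructor
  · exact hA.inv g f hg
  · intro h
    have := hA.inv g⁻¹ _ (by rw [fPos_del_inv, hg]) h
    rwa [inv_smul_smul] at this

variable {Φ} in
theorem fPos_x_inj {A : Set F} {x : ℤ → V} {y : ℤ → E} {p : ℤ} (hL : Φ.IsLine A x y p) {i j : ℤ}
    (h : x i = x j) : i = j := by
  have := (hL.curve.x_eq i j).mp h
  simp only [Nat.cast_zero, zero_dvd_iff] at this
  omega

/-- Elements preserving the cut act on the line by a shift or a reflection. -/
theorem fPos_shift {A : Set F} {x : ℤ → V} {y : ℤ → E} {p : ℤ} (hL : Φ.IsLine A x y p) {g : G}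
    (hg : ∀ e, e ∈ fr M.toInc A ↔ g • e ∈ fr M.toInc A) :
    ∃ κ s : ℤ, (κ = 1 ∨ κ = -1) ∧ ∀ i, g • x i = x (κ * i + s) := by
  have hy : ∀ i, ∃ j, y j = g • y i := fun i =>
    (hL.curve.mem _).mp ((hg _).mp ((hL.curve.mem _).mpr ⟨i, rfl⟩))
  choose σ hσ using hy
  have hx : ∀ i, ∃ j, g • x i = x j ∧ (j = σ i ∨ j = σ i + 1) := by
    intro i
    have h1 : M.ve (g • x i) (y (σ i)) := by
      rw [hσ]
      exact (fPos_act_ve Φ).mpr ((hL.curve.ve i _).mpr (Or.inl rfl))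
    rcases (hL.curve.ve _ _).mp h1 with h2 | h2
    · exact ⟨_, h2, Or.inl rfl⟩
    · exact ⟨_, h2, Or.inr rfl⟩
  choose ρ hρ hρσ using hx
  have hx' : ∀ i, ρ (i + 1) = σ i ∨ ρ (i + 1) = σ i + 1 := by
    intro i
    have h1 : M.ve (g • x (i + 1)) (y (σ i)) := by
      rw [hσ]
      exact (fPos_act_ve Φ).mpr ((hL.curve.ve i _).mpr (Or.inr rfl))
    rw [hρ] at h1
    rcases (hL.curve.ve _ _).mp h1 with h2 | h2
    · exact Or.inl (fPos_x_inj hL h2)
    · exact Or.inr (fPos_x_inj hL h2)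
  have hinj : Function.Injective ρ := by
    intro i j hij
    have h1 : g • x i = g • x j := by rw [hρ, hρ, hij]
    exact fPos_x_inj hL (MulAction.injective g h1)
  obtain ⟨κ, hκ, h⟩ := fPos_aff ρ hinj (fun i => by
    have hne : ρ (i + 1) ≠ ρ i := fun he => by
      have := hinj he
      omega
    rcases hρσ i with h1 | h1 <;> rcases hx' i with h2 | h2 <;> omega)
  exact ⟨κ, ρ 0, hκ, fun i => by rw [hρ, h]⟩

/-- The sign of the action on the line is the sign of `eps`. -/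
theorem fPos_main {A : Set F} (hA : Φ.IsCut A) {x : ℤ → V} {y : ℤ → E} {p : ℤ}
    (hL : Φ.IsLine A x y p) {g : G} (hg : Φ.del g = 1) :
    ∃ κ s : ℤ, (κ : ℝ) = Φ.eps g ∧ (κ = 1 ∨ κ = -1) ∧ ∀ i, g • x i = x (κ * i + s) := by
  obtain ⟨κ, s, hκ, h⟩ := fPos_shift Φ hL (fPos_fr Φ (fPos_cut_inv Φ hA hg))
  refine ⟨κ, s, ?_, hκ, h⟩
  have hconj := fPos_conj Φ g
  have hτi : ∀ i, Φ.τ⁻¹ • x i = x (i - p) := by
    intro i
    rw [inv_smul_eq_iff, hL.shift, sub_add_cancel]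
  have hp := hL.pos
  rcases Φ.eps_one g with he | he
  · rw [if_pos he, mul_inv_eq_iff_eq_mul] at hconj
    have h1 : g • Φ.τ • x 0 = Φ.τ • g • x 0 := by rw [smul_smul, smul_smul, hconj]
    rw [hL.shift, h, h, hL.shift] at h1
    have h2 := fPos_x_inj hL h1
    rcases hκ with rfl | rfl
    · rw [he]; norm_num
    · exfalso
      omega
  · rw [if_neg (by rw [he]; norm_num), mul_inv_eq_iff_eq_mul] at hconj
    have h1 : g • Φ.τ • x 0 = Φ.τ⁻¹ • g • x 0 := by rw [smul_smul, smul_smul, hconj]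
    rw [hL.shift, h, h, hτi] at h1
    have h2 := fPos_x_inj hL h1
    rcases hκ with rfl | rfl
    · exfalso
      omega
    · rw [he]; norm_num

theorem fPos_zpow {g : G} (he : Φ.eps g = 1) (hd : Φ.del g = 1) (n : ℤ) :
    Φ.eps (g ^ n) = 1 ∧ Φ.del (g ^ n) = 1 ∧ Φ.c (g ^ n) = n * Φ.c g := by
  induction n using Int.induction_on with
  | zero => simp [fPos_eps_one, fPos_del_one, fPos_c_one]
  | succ n ih =>
    obtain ⟨h1, h2, h3⟩ := ih
    rw [zpow_add_one, Φ.eps_mul, Φ.del_mul, Φ.c_mul, h1, h2, h3, he, hd]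
    push_cast
    exact ⟨by ring, by ring, by ring⟩
  | pred n ih =>
    obtain ⟨h1, h2, h3⟩ := ih
    rw [zpow_sub_one, Φ.eps_mul, Φ.del_mul, Φ.c_mul, h1, h2, h3, fPos_eps_inv, fPos_del_inv,
      fPos_c_inv, he, hd]
    push_cast
    exact ⟨by ring, by ring, by ring⟩

theorem fPos_zshift {x : ℤ → V} {g : G} {s : ℤ} (h : ∀ i, g • x i = x (i + s)) (n i : ℤ) :
    g ^ n • x i = x (i + n * s) := by
  induction n using Int.induction_on generalizing i with
  | zero => simp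
  | succ n ih =>
    rw [zpow_add_one, mul_smul, h, ih]
    congr 1
    ring
  | pred n ih =>
    have h' : g⁻¹ • x i = x (i - s) := by
      rw [inv_smul_eq_iff, h, sub_add_cancel]
    rw [zpow_sub_one, mul_smul, h', ih]
    congr 1
    ring

/-- The length of a translation is proportional to its shift. -/
theorem fPos_len {A : Set F} {x : ℤ → V} {y : ℤ → E} {p : ℤ}
    (hL : Φ.IsLine A x y p) {g : G} (hd : Φ.del g = 1) (he : Φ.eps g = 1) {s : ℤ}
    (h : ∀ i, g • x i = x (i + s)) : p * Φ.c g = s * Φ.c Φ.τ := by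
  obtain ⟨a1, a2, a3⟩ := fPos_zpow Φ he hd p
  obtain ⟨b1, b2, b3⟩ := fPos_zpow Φ Φ.τ_eps Φ.τ_del (-s)
  have h0 : Φ.c (g ^ p * Φ.τ ^ (-s)) = 0 := by
    refine Φ.free _ ?_ ?_ ⟨x 0, ?_⟩
    · rw [Φ.eps_mul, a1, b1, one_mul]
    · rw [Φ.del_mul, a2, b2, one_mul]
    · rw [mul_smul, fPos_zshift hL.shift, fPos_zshift h]
      congr 1
      ring
  rw [Φ.c_mul, a1, a3, b3] at h0
  push_cast at h0
  linarith

end frieze

theorem fPos : Stmt_FPos := by
  intro V E F G _ _ _ _ M Φ A hA x y p hL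
  have hp : (0 : ℝ) < p := by exact_mod_cast hL.pos
  have h1 : ∀ g, Φ.del g = 1 → Φ.eps g = 1 → ∃ s : ℤ, ∀ i, g • x i = x (i + s) := by
    intro g hd he
    obtain ⟨κ, s, hκ, _, h⟩ := fPos_main Φ hA hL hd
    rw [he] at hκ
    have : κ = 1 := by exact_mod_cast hκ
    subst this
    exact ⟨s, fun i => by rw [h, one_mul]⟩
  have h2 : ∀ g, Φ.del g = 1 → Φ.eps g = -1 → ∃ s : ℤ, ∀ i, g • x i = x (-i + s) := by
    intro g hd he
    obtain ⟨κ, s, hκ, _, h⟩ := fPos_main Φ hA hL hd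
    rw [he] at hκ
    have : κ = -1 := by exact_mod_cast hκ
    subst this
    exact ⟨s, fun i => by rw [h, neg_one_mul]⟩
  refine ⟨h1, h2, ?_⟩
  by_cases hex : ∃ g, Φ.del g = 1 ∧ Φ.eps g = -1
  · obtain ⟨g0, hd0, he0⟩ := hex
    obtain ⟨s0, hs0⟩ := h2 g0 hd0 he0
    refine ⟨(Φ.c g0 - Φ.c Φ.τ * s0 / p) / 2, ?_⟩
    intro g i j hd hij
    rcases Φ.eps_one g with he | he
    · obtain ⟨s, hs⟩ := h1 g hd he
      have hlen := fPos_len Φ hL hd he hs
      rw [hs] at hij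
      have := fPos_x_inj hL hij
      subst this
      rw [he]
      push_cast
      field_simp
      linarith
    · obtain ⟨s, hs⟩ := h2 g hd he
      rw [hs] at hij
      have := fPos_x_inj hL hij
      subst this
      have hlen := fPos_len Φ hL (g := g * g0) (s := s - s0) (by rw [Φ.del_mul, hd, hd0, one_mul])
        (by rw [Φ.eps_mul, he, he0]; norm_num) (fun i => by
          rw [mul_smul, hs0, hs]
          congr 1
          ring)
      rw [Φ.c_mul, he] at hlen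
      rw [he]
      push_cast at hlen ⊢
      field_simp
      linarith
  · refine ⟨0, ?_⟩
    intro g i j hd hij
    have he : Φ.eps g = 1 := by
      rcases Φ.eps_one g with he | he
      · exact he
      · exact absurd ⟨g, hd, he⟩ hex
    obtain ⟨s, hs⟩ := h1 g hd he
    have hlen := fPos_len Φ hL hd he hs
    rw [hs] at hij
    have := fPos_x_inj hL hij
    subst this
    rw [he]
    push_cast
    field_simp
    linarith

end Pool.Agent.CT
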