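import Pool.Agent.CT.FDefs

set_option autoImplicit false

/-! # F18: the harmonic drawing of a frieze is a predrawing -/

namespace Pool.Agent.CT

open Set Metric

section basics

variable {V E F : Type}

theorem fPre_third {B : Inc V E F} {t : F} {n : ℕ} {x : ℤ → V} {y : ℤ → E}
    (h : IsFaceCycle B t n x y) (u v : V) : ∃ q, B.vf q t ∧ q ≠ u ∧ q ≠ v := by
  have hvf : ∀ i, B.vf (x i) t := fun i =>
    ⟨y i, (h.curve.ve i _).2 (Or.inl rfl), (h.curve.mem _).2 ⟨i, rfl⟩⟩
  have hn := h.three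
  have hne : ∀ i j : ℤ, 0 < j - i → j - i < 3 → x i ≠ x j := by
    intro i j h1 h2 heq
    have h3 := (h.curve.x_eq j i).1 heq.symm
    have h4 := Int.le_of_dvd h1 h3
    omega
  by_contra hcon
  push Not at hcon
  have h01 := hne 0 1 (by norm_num) (by norm_num)
  have h02 := hne 0 2 (by norm_num) (by norm_num)
  have h12 := hne 1 2 (by norm_num) (by norm_num)
  have h0 := hcon _ (hvf 0)
  have h1 := hcon _ (hvf 1)
  have h2 := hcon _ (hvf 2)
  by_cases a0 : x 0 = u
  · by_cases a1 : x 1 = u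
    · exact h01 (a0.trans a1.symm)
    · by_cases a2 : x 2 = u
      · exact h02 (a0.trans a2.symm)
      · exact h12 ((h1 a1).trans (h2 a2).symm)
  · by_cases a1 : x 1 = u
    · by_cases a2 : x 2 = u
      · exact h12 (a1.trans a2.symm)
      · exact h02 ((h0 a0).trans (h2 a2).symm)
    · exact h01 ((h0 a0).trans (h1 a1).symm)

theorem fPre_cross (a b z : ℂ) : cross a b z =
    dir ⟨-(b.im - a.im), b.re - a.re⟩ z - dir ⟨-(b.im - a.im), b.re - a.re⟩ a := by
  unfold cross dir
  ring

theorem fPre_dir_neg (w z : ℂ) : dir (-w) z = - dir w z := by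
  unfold dir
  rw [Complex.neg_re, Complex.neg_im]
  ring

theorem fPre_opp_symm {M : Inc V E F} {φ : V → ℂ} {e : E} {f g : F} (h : Opp M φ e f g) :
    Opp M φ e g f := by
  obtain ⟨w, c, hw, h1, h2, h3⟩ := h
  refine ⟨-w, -c, neg_ne_zero.2 hw, ?_, ?_, ?_⟩
  · intro v hv; rw [fPre_dir_neg, h1 v hv]
  · intro v hv; rw [fPre_dir_neg]; linarith [h3 v hv]
  · intro v hv; rw [fPre_dir_neg]; linarith [h2 v hv]

theorem fPre_convex_le (w : ℂ) (c : ℝ) : Convex ℝ {z : ℂ | dir w z ≤ c} := by
  intro a ha b hb s t hs ht hst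
  have ha' : dir w a ≤ c := ha
  have hb' : dir w b ≤ c := hb
  show dir w (s • a + t • b) ≤ c
  have h1 : dir w (s • a + t • b) = s * dir w a + t * dir w b := by
    unfold dir
    simp only [Complex.add_re, Complex.add_im, Complex.smul_re, Complex.smul_im, smul_eq_mul]
    ring
  rw [h1]
  have h2 : s * dir w a + t * dir w b ≤ s * c + t * c := by
    apply add_le_add
    · exact mul_le_mul_of_nonneg_left ha' hs
    · exact mul_le_mul_of_nonneg_left hb' ht
  calc s * dir w a + t * dir w b ≤ s * c + t * c := h2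
    _ = (s + t) * c := by ring
    _ = c := by rw [hst, one_mul]

theorem fPre_convex_ge (w : ℂ) (c : ℝ) : Convex ℝ {z : ℂ | c ≤ dir w z} := by
  have h := fPre_convex_le (-w) (-c)
  have h2 : {z : ℂ | c ≤ dir w z} = {z : ℂ | dir (-w) z ≤ -c} := by
    ext z
    show c ≤ dir w z ↔ dir (-w) z ≤ -c
    rw [fPre_dir_neg, neg_le_neg_iff]
  rw [h2]
  exact h

theorem fPre_face_fin (M : PlaneMap V E F) (f : F) : {v | M.vf v f}.Finite := by
  have h1 : (⋃ e ∈ {e | M.ef e f}, {v | M.ve v e}).Finite := by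
    refine (M.face_fin f).biUnion fun e _ => ?_
    obtain ⟨a, b, _, hab⟩ := M.edge_verts e
    refine Set.Finite.subset (Set.toFinite {a, b}) ?_
    intro w hw
    rcases (hab w).1 hw with rfl | rfl
    · simp
    · simp
  refine h1.subset ?_
  rintro v ⟨e, he1, he2⟩
  simp only [mem_iUnion]
  exact ⟨e, he2, he1⟩

theorem fPre_vert (M : PlaneMap V E F) (f : F) : ∃ v, M.vf v f := by
  have h1 := M.face_card f
  have h2 : {e | M.ef e f}.Nonempty := by
    by_contra h
    rw [Set.not_nonempty_iff_eq_empty] at h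
    rw [h, Set.ncard_empty] at h1
    omega
  obtain ⟨e, he⟩ := h2
  obtain ⟨v, _, _, hv⟩ := M.edge_verts e
  exact ⟨v, e, (hv v).2 (Or.inl rfl), he⟩

theorem fPre_closed (M : PlaneMap V E F) (φ : V → ℂ) (f : F) : IsClosed (poly M.toInc φ f) := by
  unfold poly
  exact (((fPre_face_fin M f).image φ).isCompact_convexHull ℝ).isClosed

end basics

section frieze

variable {V E F G : Type} [Group G] [MulAction G V] [MulAction G E] [MulAction G F]
  {M : PlaneMap V E F}

theorem fPre_anti {Φ : Frieze M G} {U : ℤ → Set F} (hU : Φ.IsSeq U) {a b : ℤ} (h : a ≤ b) :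
    U b ⊆ U a := by
  obtain ⟨n, rfl⟩ := Int.le.dest h
  clear h
  induction n with
  | zero => simp
  | succ n ih =>
    refine Subset.trans ?_ ih
    have := hU.anti (a + n)
    rw [add_assoc] at this
    exact_mod_cast this

/-- The block of a strip satisfies the conclusions of the block theorem. -/
theorem fPre_concl (hHyp : Stmt_FHyp) (hCyc : Stmt_FCyc) (hPl : Stmt_FPlanar)
    (hBlock : Stmt_Block) (hFC : Stmt_FaceCycle) (X : FCtx M G) (m : ℤ) :
    BlkConcl (X.blk m) (X.ψ m) ∧ ∀ t, ∃ n x y, IsFaceCycle (X.blk m) t n x y := by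
  have hcyc : ∀ t, ∃ n x y, IsFaceCycle (X.blk m) t n x y := by
    intro t
    obtain ⟨n, x, y, hc⟩ := hFC V E F M.toPolyMap t.1
    rcases (hCyc V E F G M X m).2 t n x y hc with h | h
    · obtain ⟨_, x', y', h', _⟩ := h
      exact ⟨n, x', y', h'⟩
    · obtain ⟨a, r, l, i₀, κ, _, _, _, _, _, _, x', y', h', _⟩ := h
      exact ⟨_, x', y', h'⟩
  refine ⟨?_, hcyc⟩
  let B : Blk (CV M.toInc (X.S m)ᶜ) (CE M.toInc (X.S m)ᶜ) {f : F // f ∉ (X.S m)ᶜ} :=
    { toInc := X.blk m
      edge_verts := (hCyc V E F G M X m).1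
      cyc := hcyc
      planar := hPl V E F G M X m }
  exact hBlock _ _ _ B _ _ (hHyp V E F G M X m B rfl)

/-- Two faces of the same strip. -/
theorem fPre_opp_same (hFaces : Stmt_FFaces) (X : FCtx M G) (m : ℤ)
    (hB : BlkConcl (X.blk m) (X.ψ m)) (hcyc : ∀ t, ∃ n x y, IsFaceCycle (X.blk m) t n x y)
    {e : E} {f g : F} (hfg : f ≠ g) (hf : M.ef e f) (hg : M.ef e g) (hfS : f ∈ X.S m)
    (hgS : g ∈ X.S m) : Opp M.toInc X.φ e f g := by
  have hfS' : f ∉ (X.S m)ᶜ := not_not.2 hfS
  have hgS' : g ∉ (X.S m)ᶜ := not_not.2 hgS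
  obtain ⟨f', g', _, hfaces⟩ := M.edge_faces e
  have hall : ∀ h, M.ef e h → h ∉ (X.S m)ᶜ := by
    have key : ∀ h, M.ef e h → h = f ∨ h = g := by
      intro h hh
      rcases (hfaces h).1 hh with rfl | rfl <;> rcases (hfaces f).1 hf with h1 | h1 <;>
        rcases (hfaces g).1 hg with h2 | h2 <;> simp_all
    intro h hh
    rcases key h hh with rfl | rfl
    · exact hfS'
    · exact hgS'
  obtain ⟨u, v, huv, hverts⟩ := M.edge_verts e
  have hu : M.ve u e := (hverts u).2 (Or.inl rfl)
  have hv : M.ve v e := (hverts v).2 (Or.inr rfl)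
  let t : {f : F // f ∉ (X.S m)ᶜ} := ⟨f, hfS'⟩
  let s : {f : F // f ∉ (X.S m)ᶜ} := ⟨g, hgS'⟩
  let e' : CE M.toInc (X.S m)ᶜ := Sum.inl ⟨e, hall⟩
  let u' : CV M.toInc (X.S m)ᶜ := ⟨u, f, g, hfg, hfS', hgS', ⟨e, hu, hf⟩, ⟨e, hu, hg⟩⟩
  let v' : CV M.toInc (X.S m)ᶜ := ⟨v, f, g, hfg, hfS', hgS', ⟨e, hv, hf⟩, ⟨e, hv, hg⟩⟩
  have hts : t ≠ s := fun h => hfg (congrArg Subtype.val h)
  have huv' : u' ≠ v' := fun h => huv (congrArg Subtype.val h)
  have het : (X.blk m).ef e' t := hf
  have hes : (X.blk m).ef e' s := hg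
  have hue : (X.blk m).ve u' e' := hu
  have hve : (X.blk m).ve v' e' := hv
  obtain ⟨n1, x1, y1, hc1⟩ := hcyc t
  obtain ⟨n2, x2, y2, hc2⟩ := hcyc s
  obtain ⟨p0, hp0, hp0u, hp0v⟩ := fPre_third hc1 u' v'
  obtain ⟨q0, hq0, hq0u, hq0v⟩ := fPre_third hc2 u' v'
  set a := X.φ u with ha
  set b := X.φ v with hb
  have hopp : ∀ p q : CV M.toInc (X.S m)ᶜ, (X.blk m).vf p t → p ≠ u' → p ≠ v' →
      (X.blk m).vf q s → q ≠ u' → q ≠ v' → cross a b (X.φ p.1) * cross a b (X.φ q.1) < 0 := by
    intro p q hp hpu hpv hq hqu hqv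
    exact hB.opp e' t s u' v' p q hts het hes huv' hue hve hp hpu hpv hq hqu hqv
  have hau : cross a b (X.φ u) = 0 := by
    rw [← ha]; unfold cross; ring
  have hbv : cross a b (X.φ v) = 0 := by
    rw [← hb]; unfold cross; ring
  obtain ⟨_, _, hpt⟩ := hFaces V E F G M X m t
  obtain ⟨_, _, hps⟩ := hFaces V E F G M X m s
  have h0 := hopp p0 q0 hp0 hp0u hp0v hq0 hq0u hq0v
  set w : ℂ := ⟨-(b.im - a.im), b.re - a.re⟩ with hw
  have hcr : ∀ z, cross a b z = dir w z - dir w a := fPre_cross a b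
  have hw0 : w ≠ 0 := by
    intro hw0
    have h1 : cross a b (X.φ p0.1) = 0 := by
      rw [hcr, hw0]; unfold dir; simp
    rw [h1, zero_mul] at h0
    exact lt_irrefl _ h0
  have hends : ∀ z, M.ve z e → dir w (X.φ z) = dir w a := by
    intro z hz
    rcases (hverts z).1 hz with rfl | rfl
    · rfl
    · have := hcr (X.φ z)
      rw [hbv] at this
      linarith
  rcases lt_trichotomy (cross a b (X.φ q0.1)) 0 with hq | hq | hq
  · -- g below, f above
    have hp0' : 0 < cross a b (X.φ p0.1) := by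
      by_contra hcon
      push Not at hcon
      have := mul_nonneg_of_nonpos_of_nonpos hcon hq.le
      linarith
    apply fPre_opp_symm
    refine ⟨w, dir w a, hw0, hends, ?_, ?_⟩
    · intro z hz
      have h1 : X.φ z ∈ poly M.toInc X.φ s.1 := subset_convexHull ℝ _ ⟨z, hz, rfl⟩
      rw [hps] at h1
      refine convexHull_min ?_ (fPre_convex_le w (dir w a)) h1
      rintro _ ⟨q, hq', rfl⟩
      show dir w (X.φ q.1) ≤ dir w a
      by_cases h2 : q = u'
      · rw [h2]
      · by_cases h3 : q = v'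
        · rw [h3]; exact (hends v hv).le
        · have h4 := hopp p0 q hp0 hp0u hp0v hq' h2 h3
          have h5 : cross a b (X.φ q.1) < 0 := by
            by_contra hcon
            push Not at hcon
            have := mul_nonneg hp0'.le hcon
            linarith
          rw [hcr] at h5
          linarith
    · intro z hz
      have h1 : X.φ z ∈ poly M.toInc X.φ t.1 := subset_convexHull ℝ _ ⟨z, hz, rfl⟩
      rw [hpt] at h1
      refine convexHull_min ?_ (fPre_convex_ge w (dir w a)) h1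
      rintro _ ⟨p, hp', rfl⟩
      show dir w a ≤ dir w (X.φ p.1)
      by_cases h2 : p = u'
      · rw [h2]
      · by_cases h3 : p = v'
        · rw [h3]; exact (hends v hv).ge
        · have h4 := hopp p q0 hp' h2 h3 hq0 hq0u hq0v
          have h5 : 0 < cross a b (X.φ p.1) := by
            by_contra hcon
            push Not at hcon
            have := mul_nonneg_of_nonpos_of_nonpos hcon hq.le
            linarith
          rw [hcr] at h5
          linarith
  · rw [hq, mul_zero] at h0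
    exact absurd h0 (lt_irrefl _)
  · have hp0' : cross a b (X.φ p0.1) < 0 := by
      by_contra hcon
      push Not at hcon
      have := mul_nonneg hcon hq.le
      linarith
    refine ⟨w, dir w a, hw0, hends, ?_, ?_⟩
    · intro z hz
      have h1 : X.φ z ∈ poly M.toInc X.φ t.1 := subset_convexHull ℝ _ ⟨z, hz, rfl⟩
      rw [hpt] at h1
      refine convexHull_min ?_ (fPre_convex_le w (dir w a)) h1
      rintro _ ⟨p, hp', rfl⟩
      show dir w (X.φ p.1) ≤ dir w a
      by_cases h2 : p = u'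
      · rw [h2]
      · by_cases h3 : p = v'
        · rw [h3]; exact (hends v hv).le
        · have h4 := hopp p q0 hp' h2 h3 hq0 hq0u hq0v
          have h5 : cross a b (X.φ p.1) < 0 := by
            by_contra hcon
            push Not at hcon
            have := mul_nonneg hcon hq.le
            linarith
          rw [hcr] at h5
          linarith
    · intro z hz
      have h1 : X.φ z ∈ poly M.toInc X.φ s.1 := subset_convexHull ℝ _ ⟨z, hz, rfl⟩
      rw [hps] at h1
      refine convexHull_min ?_ (fPre_convex_ge w (dir w a)) h1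
      rintro _ ⟨q, hq', rfl⟩
      show dir w a ≤ dir w (X.φ q.1)
      by_cases h2 : q = u'
      · rw [h2]
      · by_cases h3 : q = v'
        · rw [h3]; exact (hends v hv).ge
        · have h4 := hopp p0 q hp0 hp0u hp0v hq' h2 h3
          have h5 : 0 < cross a b (X.φ q.1) := by
            by_contra hcon
            push Not at hcon
            have := mul_nonneg_of_nonpos_of_nonpos hp0'.le hcon
            linarith
          rw [hcr] at h5
          linarith

end frieze

theorem fPre (hFaces : Stmt_FFaces) (hTile : Stmt_FTile) (hLoc : Stmt_FLoc) (hHyp : Stmt_FHyp)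
    (hCyc : Stmt_FCyc) (hPl : Stmt_FPlanar) (hBlock : Stmt_Block) (hVert : Stmt_FVert)
    (hFC : Stmt_FaceCycle) : Stmt_FPre := by
  intro V E F G _ _ _ _ _ M X
  obtain ⟨hV1, hV2, hV3, hV4, _⟩ := hVert V E F G M X.Φ X.U X.seq X.L
  have him : ∀ l i, (X.φ (X.L.x l i)).im = l + 1 / 2 := by
    intro l i
    rw [X.harm.line l i]
    rfl
  have hstrip : ∀ f, ∃ m, f ∈ X.S m := by
    intro f
    obtain ⟨v, hv⟩ := fPre_vert M f
    by_cases hin : X.Inner v
    · obtain ⟨m, hm⟩ := hV3 v hin
      exact ⟨m, hm f hv⟩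
    · unfold FCtx.Inner at hin
      push Not at hin
      obtain ⟨l, i, rfl⟩ := hin
      have h1 := hV4 l i f hv
      by_cases h2 : f ∈ X.U l
      · exact ⟨l, h2, h1.2⟩
      · refine ⟨l - 1, h1.1, ?_⟩
        rwa [sub_add_cancel]
  have hlocfin := (fun r => (hLoc V E F G M X r).2)
  -- different strips, `f` below `g`
  have hoppd : ∀ e f g m m', m < m' → f ∈ X.S m → g ∈ X.S m' → M.ef e f → M.ef e g →
      Opp M.toInc X.φ e f g := by
    intro e f g m m' hmm hfS hgS hf hg
    have hm1 : (m : ℝ) + 1 ≤ m' := by exact_mod_cast hmm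
    have hdir : ∀ z, dir Complex.I z = z.im := by
      intro z
      unfold dir
      rw [Complex.I_re, Complex.I_im]
      ring
    refine ⟨Complex.I, m + 3 / 2, Complex.I_ne_zero, ?_, ?_, ?_⟩
    · intro v hv
      have h1 : Touch M.toInc (X.U (m + 1)) v :=
        ⟨g, fPre_anti X.seq (by omega) hgS.1, e, hv, hg⟩
      have h2 : Touch M.toInc (X.U (m + 1))ᶜ v := ⟨f, hfS.2, e, hv, hf⟩
      obtain ⟨i, rfl⟩ := (hV1 v (m + 1)).2 ⟨h1, h2⟩
      rw [hdir, him]
      push_cast
      ring
    · intro v hv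
      have h1 : X.φ v ∈ poly M.toInc X.φ f := subset_convexHull ℝ _ ⟨v, hv, rfl⟩
      have h2 := (hTile V E F G M X m).2.2 f hfS h1
      rw [hdir]
      exact h2.2
    · intro v hv
      have h1 : X.φ v ∈ poly M.toInc X.φ g := subset_convexHull ℝ _ ⟨v, hv, rfl⟩
      have h2 := (hTile V E F G M X m').2.2 g hgS h1
      rw [hdir]
      have h3 := h2.1
      linarith
  have hdisjd : ∀ f g m m', m < m' → f ∈ X.S m → g ∈ X.S m' →
      Disjoint (interior (poly M.toInc X.φ f)) (interior (poly M.toInc X.φ g)) := by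
    intro f g m m' hmm hfS hgS
    have hm1 : (m : ℝ) + 1 ≤ m' := by exact_mod_cast hmm
    have h1 : interior (poly M.toInc X.φ f) ⊆ {z : ℂ | z.im < (m : ℝ) + 3 / 2} := by
      rw [← Complex.interior_setOfPred_im_le]
      refine interior_mono ?_
      intro z hz
      exact ((hTile V E F G M X m).2.2 f hfS hz).2
    have h2 : interior (poly M.toInc X.φ g) ⊆ {z : ℂ | (m' : ℝ) + 1 / 2 < z.im} := by
      rw [← Complex.interior_setOfPred_le_im]
      refine interior_mono ?_
      intro z hz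
      exact ((hTile V E F G M X m').2.2 g hgS hz).1
    rw [Set.disjoint_left]
    intro z hz hz'
    have h3 : z.im < (m : ℝ) + 3 / 2 := h1 hz
    have h4 : (m' : ℝ) + 1 / 2 < z.im := h2 hz'
    linarith
  refine ⟨?_, ?_, ?_, hlocfin, ?_⟩
  · intro f
    obtain ⟨m, hm⟩ := hstrip f
    exact (hFaces V E F G M X m ⟨f, not_not.2 hm⟩).1
  · intro e f g hfg hf hg
    obtain ⟨m, hm⟩ := hstrip f
    obtain ⟨m', hm'⟩ := hstrip g
    rcases lt_trichotomy m m' with h | h | h
    · exact hoppd e f g m m' h hm hm' hf hg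
    · subst h
      obtain ⟨hB, hcyc⟩ := fPre_concl hHyp hCyc hPl hBlock hFC X m
      exact fPre_opp_same hFaces X m hB hcyc hfg hf hg hm hm'
    · exact fPre_opp_symm (hoppd e g f m' m h hm' hm hg hf)
  · intro z
    set m := ⌊z.im - 1 / 2⌋ with hmdef
    have h1 : (m : ℝ) + 1 / 2 ≤ z.im := by
      have := Int.floor_le (z.im - 1 / 2)
      rw [← hmdef] at this
      linarith
    have h2 : z.im < (m : ℝ) + 3 / 2 := by
      have := Int.lt_floor_add_one (z.im - 1 / 2)
      rw [← hmdef] at this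
      linarith
    have hfin := hlocfin (‖z‖ + 1)
    have hclosed : IsClosed (⋃ f ∈ {f | (poly M.toInc X.φ f ∩ closedBall 0 (‖z‖ + 1)).Nonempty},
        poly M.toInc X.φ f) :=
      hfin.isClosed_biUnion fun f _ => fPre_closed M X.φ f
    have hmem : z ∈ closure (⋃ f ∈ {f | (poly M.toInc X.φ f ∩
        closedBall 0 (‖z‖ + 1)).Nonempty}, poly M.toInc X.φ f) := by
      rw [Metric.mem_closure_iff]
      intro ε hε
      obtain ⟨t, ht0, htε, ht1, htm⟩ : ∃ t : ℝ, 0 < t ∧ t < ε ∧ t ≤ 1 ∧
          z.im + t < (m : ℝ) + 3 / 2 := by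
        refine ⟨min (ε / 2) (min 1 (((m : ℝ) + 3 / 2 - z.im) / 2)), ?_, ?_, ?_, ?_⟩
        · refine lt_min (by linarith) (lt_min one_pos (by linarith))
        · exact (min_le_left _ _).trans_lt (by linarith)
        · exact (min_le_right _ _).trans (min_le_left _ _)
        · have := (min_le_right (ε / 2) (min 1 (((m : ℝ) + 3 / 2 - z.im) / 2))).trans
            (min_le_right _ _)
          linarith
      set z' : ℂ := ⟨z.re, z.im + t⟩ with hz'
      have hdist : dist z z' = t := by
        rw [Complex.dist_eq]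
        have h3 : z - z' = ((-t : ℝ) : ℂ) * Complex.I := by
          apply Complex.ext
          · simp [hz']
          · simp [hz']
        rw [h3, norm_mul, Complex.norm_I, mul_one, Complex.norm_real, Real.norm_eq_abs, abs_neg,
          abs_of_pos ht0]
      obtain ⟨f, _, hf⟩ := (hTile V E F G M X m).1 z' (by show _ < z.im + t; linarith) htm
      refine ⟨z', ?_, by rw [hdist]; exact htε⟩
      simp only [mem_iUnion]
      refine ⟨f, ⟨z', hf, ?_⟩, hf⟩
      rw [mem_closedBall, dist_zero_right]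
      have h4 : ‖z'‖ ≤ ‖z‖ + dist z z' := by
        rw [dist_eq_norm]
        have := norm_sub_le z (z - z')
        rwa [sub_sub_cancel] at this
      rw [hdist] at h4
      linarith
    rw [hclosed.closure_eq] at hmem
    simp only [mem_iUnion] at hmem
    obtain ⟨f, _, hf⟩ := hmem
    exact ⟨f, hf⟩
  · intro f g hfg
    obtain ⟨m, hm⟩ := hstrip f
    obtain ⟨m', hm'⟩ := hstrip g
    rcases lt_trichotomy m m' with h | h | h
    · exact hdisjd f g m m' h hm hm'
    · subst h
      exact (hTile V E F G M X m).2.1 f hm g hm' hfg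
    · exact (hdisjd g f m' m h hm' hm).symm

end Pool.Agent.CT
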