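import Pool.Agent.CT.FDefs

set_option autoImplicit false

/-! # Part F, module FSide: the vertices on one side of a line are connected -/

namespace Pool.Agent.CT

open Set Metric

section fSide

variable {V E F : Type}

/-- The frontier of one of the two sides of a line. -/
theorem fSide_fr_iff (M : Inc V E F) {A D : Set F} (hD : D = A ∨ D = Aᶜ) (e : E) :
    e ∈ fr M D ↔ e ∈ fr M A := by
  rcases hD with rfl | rfl
  · rfl
  · simp only [fr, mem_ofPred_eq, mem_compl_iff, not_not]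
    constructor
    · rintro ⟨⟨f, h1, h2⟩, g, h3, h4⟩
      exact ⟨⟨g, h3, h4⟩, f, h1, h2⟩
    · rintro ⟨⟨f, h1, h2⟩, g, h3, h4⟩
      exact ⟨⟨g, h3, h4⟩, f, h1, h2⟩

/-- The data of a line bounding the side `D`, in usable form. -/
structure fSide_Line (M : Inc V E F) (D : Set F) (x : ℤ → V) (y : ℤ → E) : Prop where
  inj : ∀ i j, x i = x j → i = j
  yinj : ∀ i j, y i = y j → i = j
  mem : ∀ e, e ∈ fr M D ↔ ∃ i, y i = e
  ve : ∀ i v, M.ve v (y i) ↔ (v = x i ∨ v = x (i + 1))

/-- The conclusion of the run statement for the faces outside `D`. -/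
def fSide_Run (M : Inc V E F) (D : Set F) (x : ℤ → V) : Prop :=
  ∀ t, t ∉ D → ∀ n x' y', IsFaceCycle M t n x' y' →
    (∀ i, ¬ Touch M D (x' i)) ∨
    ∃ (a : ℤ) (r : ℕ) (i₀ κ : ℤ), (κ = 1 ∨ κ = -1) ∧ r + 2 ≤ n ∧
      (∀ k : ℕ, k ≤ r → x' (a + k) = x (i₀ + κ * k)) ∧
      (∀ i, Touch M D (x' i) ↔ ∃ k : ℕ, k ≤ r ∧ (n : ℤ) ∣ i - (a + k)) ∧
      (∀ i, (∃ d ∈ D, M.ef (y' i) d) ↔ ∃ k : ℕ, k < r ∧ (n : ℤ) ∣ i - (a + k))

/-- The vertices all of whose faces are in `D`. -/
def fSide_VD (M : Inc V E F) (D : Set F) : Set V := {v | ∀ f, M.vf v f → f ∈ D}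

/-- The vertices of a face all of whose faces are in `D`. -/
def fSide_P (M : Inc V E F) (D : Set F) (t : F) : Set V := {v | M.vf v t ∧ v ∈ fSide_VD M D}

theorem fSide_P_sub (M : Inc V E F) (D : Set F) (t : F) : fSide_P M D t ⊆ fSide_VD M D :=
  fun _ h => h.2

theorem fSide_exists_face (M : PolyMap V E F) (v : V) : ∃ e f, M.ve v e ∧ M.ef e f := by
  have h := M.vert_card v
  have hne : {e | M.ve v e}.Nonempty := by
    by_contra hcon
    rw [not_nonempty_iff_eq_empty] at hcon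
    rw [hcon, ncard_empty] at h
    omega
  obtain ⟨e, he⟩ := hne
  obtain ⟨f, g, _, hfg⟩ := M.edge_faces e
  exact ⟨e, f, he, (hfg f).2 (Or.inl rfl)⟩

/-- Vertices of a face are on its cycle. -/
theorem fSide_on_cycle {M : Inc V E F} {t : F} {n : ℕ} {x' : ℤ → V} {y' : ℤ → E}
    (h : IsFaceCycle M t n x' y') {v : V} (hv : M.vf v t) : ∃ i, v = x' i := by
  obtain ⟨e, he, hef⟩ := hv
  obtain ⟨i, rfl⟩ := (h.curve.mem e).1 hef
  rcases (h.curve.ve i v).1 he with h1 | h1
  · exact ⟨i, h1⟩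
  · exact ⟨i + 1, h1⟩

theorem fSide_cycle_ef {M : Inc V E F} {t : F} {n : ℕ} {x' : ℤ → V} {y' : ℤ → E}
    (h : IsFaceCycle M t n x' y') (i : ℤ) : M.ef (y' i) t := (h.curve.mem _).2 ⟨i, rfl⟩

theorem fSide_cycle_vf {M : Inc V E F} {t : F} {n : ℕ} {x' : ℤ → V} {y' : ℤ → E}
    (h : IsFaceCycle M t n x' y') (i : ℤ) : M.vf (x' i) t :=
  ⟨y' i, (h.curve.ve i _).2 (Or.inl rfl), fSide_cycle_ef h i⟩

theorem fSide_cycle_adj {M : Inc V E F} {t : F} {n : ℕ} {x' : ℤ → V} {y' : ℤ → E}
    (h : IsFaceCycle M t n x' y') (i : ℤ) : M.vadj.Adj (x' i) (x' (i + 1)) := by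
  refine ⟨fun heq => ?_, y' i, (h.curve.ve i _).2 (Or.inl rfl), (h.curve.ve i _).2 (Or.inr rfl)⟩
  have h1 := (h.curve.x_eq i (i + 1)).1 heq
  have h3 := h.three
  have h2 : (n : ℤ) ∣ 1 := by
    have := (dvd_neg (a := (n : ℤ))).2 h1
    simpa using this
  have h4 := Int.le_of_dvd one_pos h2
  omega

/-- Part of a face cycle: vertices in `Z` from position `s` to `s + l`. -/
theorem fSide_cycle_path {M : Inc V E F} {t : F} {n : ℕ} {x' : ℤ → V} {y' : ℤ → E}
    (h : IsFaceCycle M t n x' y') (Z : Set V) (s : ℤ) (l : ℕ)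
    (hZ : ∀ j : ℕ, j ≤ l → x' (s + j) ∈ Z) : ReachIn M.vadj Z (x' s) (x' (s + l)) := by
  induction l with
  | zero => simpa using ReachIn.refl (G := M.vadj) (Z := Z) (x' s)
  | succ l ih =>
    have h1 := ih (fun j hj => hZ j (by omega))
    have h2 := fSide_cycle_adj h (s + l)
    have e1 : s + (l : ℤ) + 1 = s + ((l + 1 : ℕ) : ℤ) := by push_cast; ring
    rw [e1] at h2
    exact h1.tail h2 (hZ l (by omega)) (hZ (l + 1) le_rfl)

variable {M : PolyMap V E F} {D : Set F} {x : ℤ → V} {y : ℤ → E}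

theorem fSide_line_touch (hL : fSide_Line M.toInc D x y) (i : ℤ) :
    Touch M.toInc D (x i) ∧ Touch M.toInc Dᶜ (x i) := by
  obtain ⟨⟨f, hf, hef⟩, g, hg, heg⟩ := (hL.mem (y i)).2 ⟨i, rfl⟩
  have h1 := (hL.ve i (x i)).2 (Or.inl rfl)
  exact ⟨⟨f, hf, y i, h1, hef⟩, g, hg, y i, h1, heg⟩

theorem fSide_line_of_touch (hFr : Stmt_FrVertex) (hL : fSide_Line M.toInc D x y) {v : V}
    (h1 : Touch M.toInc D v) (h2 : Touch M.toInc Dᶜ v) : ∃ i, v = x i := by
  obtain ⟨e, he, hve⟩ := hFr V E F M D v h1 h2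
  obtain ⟨i, rfl⟩ := (hL.mem e).1 he
  rcases (hL.ve i v).1 hve with h | h
  · exact ⟨i, h⟩
  · exact ⟨i + 1, h⟩

theorem fSide_compl (hL : fSide_Line M.toInc D x y) : fSide_Line M.toInc Dᶜ x y where
  inj := hL.inj
  yinj := hL.yinj
  mem e := by rw [fSide_fr_iff M.toInc (Or.inr rfl : Dᶜ = D ∨ Dᶜ = Dᶜ)]; exact hL.mem e
  ve := hL.ve

theorem fSide_not_vd {v : V} : v ∉ fSide_VD M.toInc D ↔ Touch M.toInc Dᶜ v := by
  simp only [fSide_VD, Touch, mem_ofPred_eq, mem_compl_iff]
  push Not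
  constructor
  · rintro ⟨f, h1, h2⟩
    exact ⟨f, h2, h1⟩
  · rintro ⟨f, h1, h2⟩
    exact ⟨f, h2, h1⟩

/-- If a face outside `D` contains `x i` and `x l` with `i < l`, it contains the edge `y i`. -/
theorem fSide_run_edge (hL : fSide_Line M.toInc D x y) (hR : fSide_Run M.toInc D x)
    (hFC : Stmt_FaceCycle) {f : F} (hf : f ∉ D) {i l : ℤ} (hil : i < l)
    (h1 : M.vf (x i) f) (h2 : M.vf (x l) f) : M.ef (y i) f := by
  obtain ⟨n, x', y', hc⟩ := hFC V E F M f
  rcases hR f hf n x' y' hc with h | ⟨a, r, i₀, κ, hκ, hrn, hx, ht, he⟩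
  · obtain ⟨c, hc1⟩ := fSide_on_cycle hc h1
    exact absurd (hc1 ▸ (fSide_line_touch hL i).1) (h c)
  · have key : ∀ m : ℤ, M.vf (x m) f → ∃ k : ℕ, k ≤ r ∧ m = i₀ + κ * k := by
      intro m hm
      obtain ⟨c, hc1⟩ := fSide_on_cycle hc hm
      obtain ⟨k, hk, hdvd⟩ := (ht c).1 (hc1 ▸ (fSide_line_touch hL m).1)
      refine ⟨k, hk, hL.inj _ _ ?_⟩
      rw [hc1, (hc.curve.x_eq c (a + k)).2 hdvd, hx k hk]
    obtain ⟨k1, hk1, hi⟩ := key i h1
    obtain ⟨k2, hk2, hl⟩ := key l h2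
    -- the edge of the run joining `x i` and `x (i + 1)`
    have main : ∀ k : ℕ, k < r → (x' (a + k) = x i ∧ x' (a + k + 1) = x (i + 1) ∨
        x' (a + k) = x (i + 1) ∧ x' (a + k + 1) = x i) → M.ef (y i) f := by
      intro k hk hends
      obtain ⟨d, hd, hed⟩ := (he (a + k)).2 ⟨k, hk, by simp⟩
      have hfr : y' (a + k) ∈ fr M.toInc D := ⟨⟨d, hd, hed⟩, f, hf, fSide_cycle_ef hc _⟩
      obtain ⟨m, hm⟩ := (hL.mem _).1 hfr
      have e1 : M.ve (x i) (y m) := by
        rw [hm, hc.curve.ve]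
        rcases hends with ⟨h3, h4⟩ | ⟨h3, h4⟩
        · exact Or.inl h3.symm
        · exact Or.inr h4.symm
      have e2 : M.ve (x (i + 1)) (y m) := by
        rw [hm, hc.curve.ve]
        rcases hends with ⟨h3, h4⟩ | ⟨h3, h4⟩
        · exact Or.inr h4.symm
        · exact Or.inl h3.symm
      have hmi : m = i := by
        rcases (hL.ve m _).1 e1 with h5 | h5 <;> rcases (hL.ve m _).1 e2 with h6 | h6 <;>
          have h5 := hL.inj _ _ h5 <;> have h6 := hL.inj _ _ h6 <;> omega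
      rw [← hmi, hm]
      exact fSide_cycle_ef hc _
    rcases hκ with rfl | rfl
    · have hlt : k1 < k2 := by omega
      refine main k1 (by omega) (Or.inl ⟨?_, ?_⟩)
      · rw [hx k1 hk1, ← hi]
      · have := hx (k1 + 1) (by omega)
        push_cast at this
        rw [add_assoc, this, hi]
        congr 1
        ring
    · have hlt : k2 < k1 := by omega
      refine main (k1 - 1) (by omega) (Or.inr ⟨?_, ?_⟩)
      · rw [hx (k1 - 1) (by omega), hi]
        congr 1
        rw [Nat.cast_sub (by omega)]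
        push_cast
        ring
      · have := hx k1 hk1
        have e3 : a + ((k1 - 1 : ℕ) : ℤ) + 1 = a + k1 := by
          rw [Nat.cast_sub (by omega)]
          push_cast
          ring
        rw [e3, this, hi]

/-- Chords: an edge joining two vertices of the line is a frontier edge. -/
theorem fSide_chord (hL : fSide_Line M.toInc D x y) (hR : fSide_Run M.toInc D x)
    (hR' : fSide_Run M.toInc Dᶜ x) (hFC : Stmt_FaceCycle) {e : E} {i l : ℤ} (hil : i < l)
    (h1 : M.ve (x i) e) (h2 : M.ve (x l) e) : e ∈ fr M.toInc D := by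
  by_contra he
  obtain ⟨f, g, hfg, hef⟩ := M.edge_faces e
  have hf := (hef f).2 (Or.inl rfl)
  have hg := (hef g).2 (Or.inr rfl)
  obtain ⟨f', g', hfg', hef'⟩ := M.edge_faces (y i)
  obtain ⟨⟨d, hd, hed⟩, d', hd', hed'⟩ := (hL.mem (y i)).2 ⟨i, rfl⟩
  by_cases hfD : f ∈ D
  · have hgD : g ∈ D := by
      by_contra hgD
      exact he ⟨⟨f, hfD, hf⟩, g, hgD, hg⟩
    have a1 := fSide_run_edge (fSide_compl hL) hR' hFC (f := f) (fun h => h hfD) hil
      ⟨e, h1, hf⟩ ⟨e, h2, hf⟩
    have a2 := fSide_run_edge (fSide_compl hL) hR' hFC (f := g) (fun h => h hgD) hil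
      ⟨e, h1, hg⟩ ⟨e, h2, hg⟩
    have b1 := (hef' _).1 a1
    have b2 := (hef' _).1 a2
    have b3 := (hef' _).1 hed'
    have n1 : d' ≠ f := fun h => hd' (h ▸ hfD)
    have n2 : d' ≠ g := fun h => hd' (h ▸ hgD)
    rcases b1 with b1 | b1 <;> rcases b2 with b2 | b2 <;> rcases b3 with b3 | b3 <;>
      first
      | exact hfg (b1.trans b2.symm)
      | exact n1 (b3.trans b1.symm)
      | exact n2 (b3.trans b2.symm)
  · have hgD : g ∉ D := by
      intro hgD
      exact he ⟨⟨g, hgD, hg⟩, f, hfD, hf⟩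
    have a1 := fSide_run_edge hL hR hFC (f := f) hfD hil ⟨e, h1, hf⟩ ⟨e, h2, hf⟩
    have a2 := fSide_run_edge hL hR hFC (f := g) hgD hil ⟨e, h1, hg⟩ ⟨e, h2, hg⟩
    have b1 := (hef' _).1 a1
    have b2 := (hef' _).1 a2
    have b3 := (hef' _).1 hed
    have n1 : d ≠ f := fun h => hfD (h ▸ hd)
    have n2 : d ≠ g := fun h => hgD (h ▸ hd)
    rcases b1 with b1 | b1 <;> rcases b2 with b2 | b2 <;> rcases b3 with b3 | b3 <;>
      first
      | exact hfg (b1.trans b2.symm)
      | exact n1 (b3.trans b1.symm)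
      | exact n2 (b3.trans b2.symm)

/-- The part of a face of `D` away from the line is connected and nonempty. -/
theorem fSide_P_conn (hFC : Stmt_FaceCycle)
    (hR' : fSide_Run M.toInc Dᶜ x) {t : F} (ht : t ∈ D) :
    ConnIn M.vadj (fSide_P M.toInc D t) ∧ (fSide_P M.toInc D t).Nonempty := by
  obtain ⟨n, x', y', hc⟩ := hFC V E F M t
  have hn := hc.three
  -- a base position `b` and a length such that the vertices of `P` are exactly those
  suffices h : ∃ (b : ℤ) (r : ℕ), r < n ∧ ∀ j : ℕ, j < n →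
      (x' (b + j) ∈ fSide_P M.toInc D t ↔ r ≤ j) by
    obtain ⟨b, r, hr, hiff⟩ := h
    refine ⟨ConnIn.of_base (x' (b + r)) ?_, x' (b + r), (hiff r hr).2 le_rfl⟩
    intro v hv
    obtain ⟨i, rfl⟩ := fSide_on_cycle hc hv.1
    have hnpos : (0 : ℤ) < n := by omega
    have h1 : 0 ≤ (i - b) % (n : ℤ) := Int.emod_nonneg _ hnpos.ne'
    have h2 : (i - b) % (n : ℤ) < n := Int.emod_lt_of_pos _ hnpos
    obtain ⟨j, hj⟩ := Int.eq_ofNat_of_zero_le h1
    have hjn : j < n := by omega
    have hxi : x' i = x' (b + j) := by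
      rw [hc.curve.x_eq]
      have : i - (b + j) = (i - b) - (i - b) % n := by rw [hj]; ring
      rw [this]
      exact Int.dvd_self_sub_emod
    rw [hxi] at hv ⊢
    have hrj := (hiff j hjn).1 hv
    obtain ⟨l, rfl⟩ := Nat.exists_eq_add_of_le hrj
    have h3 := fSide_cycle_path hc (fSide_P M.toInc D t) (b + r) l (fun j' hj' => by
      have := (hiff (r + j') (by omega)).2 (by omega)
      push_cast at this
      rwa [← add_assoc] at this)
    push_cast
    rwa [← add_assoc]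
  have hmem : ∀ i, x' i ∈ fSide_P M.toInc D t ↔ ¬ Touch M.toInc Dᶜ (x' i) := by
    intro i
    constructor
    · intro h h'
      exact fSide_not_vd.2 h' h.2
    · intro h
      exact ⟨fSide_cycle_vf hc i, by_contra fun h' => h (fSide_not_vd.1 h')⟩
  rcases hR' t (fun h => h ht) n x' y' hc with h | ⟨a, r, i₀, κ, hκ, hrn, hx, htt, he⟩
  · exact ⟨0, 0, by omega, fun j _ => by
      rw [hmem]
      exact ⟨fun _ => Nat.zero_le _, fun _ => h _⟩⟩
  · refine ⟨a, r + 1, by omega, fun j hj => ?_⟩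
    rw [hmem, htt]
    constructor
    · intro h
      by_contra hlt
      exact h ⟨j, by omega, by simp⟩
    · rintro hle ⟨k, hk, hdvd⟩
      have h1 : a + (j : ℤ) - (a + k) = j - k := by ring
      rw [h1] at hdvd
      have h2 := Int.le_of_dvd (by omega) hdvd
      omega

/-- The faces of `D` at a vertex of the line have their parts joined to each other. -/
theorem fSide_star (hFC : Stmt_FaceCycle) (hFr : Stmt_FrVertex)
    (hL : fSide_Line M.toInc D x y) (hR : fSide_Run M.toInc D x)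
    (hR' : fSide_Run M.toInc Dᶜ x) (i : ℤ) {s s' : F} (hs : s ∈ D) (hs' : s' ∈ D)
    (h1 : M.vf (x i) s) (h2 : M.vf (x i) s') {u u' : V} (hu : u ∈ fSide_P M.toInc D s)
    (hu' : u' ∈ fSide_P M.toInc D s') : ReachIn M.vadj (fSide_VD M.toInc D) u u' := by
  obtain ⟨n, X, Y, hc⟩ := hFC F E V M.dualMap (x i)
  have hn := hc.three
  have hnpos : (0 : ℤ) < n := by omega
  -- reformulation of the dual cycle
  have hYmem : ∀ e, M.ve (x i) e ↔ ∃ j, Y j = e := fun e => hc.curve.mem e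
  have hYve : ∀ j f, M.ef (Y j) f ↔ (f = X j ∨ f = X (j + 1)) := fun j f => hc.curve.ve j f
  have hXface : ∀ f, M.vf (x i) f → ∃ j, f = X j := by
    rintro f ⟨e, he, hef⟩
    obtain ⟨j, rfl⟩ := (hYmem e).1 he
    rcases (hYve j f).1 hef with h | h
    · exact ⟨j, h⟩
    · exact ⟨j + 1, h⟩
  obtain ⟨α, hα⟩ := (hYmem (y i)).1 ((hL.ve i _).2 (Or.inl rfl))
  -- linking consecutive faces
  have hlink : ∀ j, Y j ∉ fr M.toInc D → X j ∈ D → X (j + 1) ∈ D →
      ∀ u ∈ fSide_P M.toInc D (X j), ∀ u' ∈ fSide_P M.toInc D (X (j + 1)),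
      ReachIn M.vadj (fSide_VD M.toInc D) u u' := by
    intro j hj hXj hXj' u hu u' hu'
    obtain ⟨p, q, hpq, hend⟩ := M.edge_verts (Y j)
    have hxi : M.ve (x i) (Y j) := (hYmem _).2 ⟨j, rfl⟩
    obtain ⟨w, hw, hwx⟩ : ∃ w, M.ve w (Y j) ∧ w ≠ x i := by
      rcases (hend _).1 hxi with h | h
      · exact ⟨q, (hend q).2 (Or.inr rfl), by rw [h]; exact hpq.symm⟩
      · exact ⟨p, (hend p).2 (Or.inl rfl), by rw [h]; exact hpq⟩
    have hwf : M.vf w (X j) := ⟨Y j, hw, (hYve _ _).2 (Or.inl rfl)⟩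
    have hwf' : M.vf w (X (j + 1)) := ⟨Y j, hw, (hYve _ _).2 (Or.inr rfl)⟩
    have hwV : w ∈ fSide_VD M.toInc D := by
      by_contra hcon
      obtain ⟨l, rfl⟩ := fSide_line_of_touch hFr hL ⟨X j, hXj, hwf⟩ (fSide_not_vd.1 hcon)
      rcases lt_trichotomy i l with h | h | h
      · exact hj (fSide_chord hL hR hR' hFC h hxi hw)
      · exact hwx (by rw [h])
      · exact hj (fSide_chord hL hR hR' hFC h hw hxi)
    have c1 := ((fSide_P_conn hFC hR' hXj).1 u hu w ⟨hwf, hwV⟩).mono (fSide_P_sub _ _ _)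
    have c2 := ((fSide_P_conn hFC hR' hXj').1 w ⟨hwf', hwV⟩ u' hu').mono (fSide_P_sub _ _ _)
    exact c1.trans c2
  -- stepping
  have hstep : ∀ j, Y j ∉ fr M.toInc D → (X j ∈ D ↔ X (j + 1) ∈ D) := by
    intro j hj
    constructor
    · intro h
      by_contra h'
      exact hj ⟨⟨X j, h, (hYve _ _).2 (Or.inl rfl)⟩, X (j + 1), h', (hYve _ _).2 (Or.inr rfl)⟩
    · intro h
      by_contra h'
      exact hj ⟨⟨X (j + 1), h, (hYve _ _).2 (Or.inr rfl)⟩, X j, h', (hYve _ _).2 (Or.inl rfl)⟩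
  -- the frontier edges of the window
  have hfront : ∀ j, α < j → j < α + n → Y j ∈ fr M.toInc D → Y j = y (i - 1) := by
    intro j h3 h4 h5
    obtain ⟨m, hm⟩ := (hL.mem _).1 h5
    have hxi : M.ve (x i) (y m) := by rw [hm]; exact (hYmem _).2 ⟨j, rfl⟩
    rcases (hL.ve m _).1 hxi with h6 | h6
    · have h7 := hL.inj _ _ h6
      exfalso
      have h8 : Y j = Y α := by rw [hα, ← hm, h7]
      have h9 := (hc.curve.y_eq j α).1 h8
      have := Int.le_of_dvd (by omega) h9
      omega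
    · have h7 := hL.inj _ _ h6
      rw [← hm]
      congr 1
      omega
  -- windows
  have hwin : ∀ f, M.vf (x i) f → ∃ j, α < j ∧ j ≤ α + n ∧ f = X j := by
    intro f hf
    obtain ⟨j, rfl⟩ := hXface f hf
    have h3 : 0 ≤ (j - α - 1) % (n : ℤ) := Int.emod_nonneg _ hnpos.ne'
    have h4 : (j - α - 1) % (n : ℤ) < n := Int.emod_lt_of_pos _ hnpos
    refine ⟨α + 1 + (j - α - 1) % n, by omega, by omega, ?_⟩
    rw [hc.curve.x_eq]
    have : j - (α + 1 + (j - α - 1) % n) = (j - α - 1) - (j - α - 1) % n := by ring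
    rw [this]
    exact Int.dvd_self_sub_emod
  -- no frontier edge between two faces of `D`
  have hno : ∀ (a : ℤ) (l : ℕ), α < a → a + l ≤ α + n → X a ∈ D → X (a + l) ∈ D →
      ∀ k : ℕ, k < l → Y (a + k) ∉ fr M.toInc D := by
    intro a l h3 h4 h5 h6 k hk hcon
    have huniq : ∀ k' : ℕ, k' < l → k' ≠ k → Y (a + k') ∉ fr M.toInc D := by
      intro k' hk' hne h'
      have e1 := hfront (a + k) (by omega) (by omega) hcon
      have e2 := hfront (a + k') (by omega) (by omega) h'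
      have e3 := (hc.curve.y_eq (a + k) (a + k')).1 (e1.trans e2.symm)
      have e4 : a + (k : ℤ) - (a + k') = k - k' := by ring
      rw [e4] at e3
      rcases Nat.lt_or_ge k k' with h | h
      · have e5 : (n : ℤ) ∣ (k' : ℤ) - k := by
          have := (dvd_neg (a := (n : ℤ))).2 e3
          rwa [neg_sub] at this
        have := Int.le_of_dvd (by omega) e5
        omega
      · have := Int.le_of_dvd (by omega) e3
        omega
    have hfwd : ∀ k' : ℕ, k' ≤ k → X (a + k') ∈ D := by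
      intro k'
      induction k' with
      | zero => intro _; simpa using h5
      | succ k' ih =>
        intro hk'
        have := (hstep _ (huniq k' (by omega) (by omega))).1 (ih (by omega))
        push_cast
        rwa [← add_assoc]
    have hbwd : ∀ m : ℕ, m + k + 1 ≤ l → X (a + (l - m : ℕ)) ∈ D := by
      intro m
      induction m with
      | zero => intro _; simpa using h6
      | succ m ih =>
        intro hm
        have e5 := ih (by omega)
        have e6 : a + ((l - m : ℕ) : ℤ) = a + ((l - (m + 1) : ℕ) : ℤ) + 1 := by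
          rw [Nat.cast_sub (by omega), Nat.cast_sub (by omega)]
          push_cast
          ring
        rw [e6] at e5
        exact (hstep _ (huniq (l - (m + 1)) (by omega) (by omega))).2 e5
    have e7 := hfwd k le_rfl
    have e8 := hbwd (l - k - 1) (by omega)
    have e9 : l - (l - k - 1) = k + 1 := by omega
    rw [e9] at e8
    obtain ⟨_, d', hd', hed'⟩ := hcon
    rcases (hYve _ _).1 hed' with h | h
    · exact hd' (h ▸ e7)
    · apply hd'
      rw [h]
      push_cast at e8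
      rwa [← add_assoc] at e8
  have hchain : ∀ (a : ℤ) (l : ℕ), α < a → a + l ≤ α + n → X a ∈ D → X (a + l) ∈ D →
      ∀ u ∈ fSide_P M.toInc D (X a), ∀ u' ∈ fSide_P M.toInc D (X (a + l)),
      ReachIn M.vadj (fSide_VD M.toInc D) u u' := by
    intro a l h3 h4 h5 h6 u hu
    have hnf := hno a l h3 h4 h5 h6
    have hin : ∀ k : ℕ, k ≤ l → X (a + k) ∈ D := by
      intro k
      induction k with
      | zero => intro _; simpa using h5
      | succ k ih =>
        intro hk
        have := (hstep _ (hnf k (by omega))).1 (ih (by omega))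
        push_cast
        rwa [← add_assoc]
    have hall : ∀ k : ℕ, k ≤ l → ∀ u' ∈ fSide_P M.toInc D (X (a + k)),
        ReachIn M.vadj (fSide_VD M.toInc D) u u' := by
      intro k
      induction k with
      | zero =>
        intro _ u' hu'
        have e1 : a + ((0 : ℕ) : ℤ) = a := by simp
        rw [e1] at hu'
        exact ((fSide_P_conn hFC hR' h5).1 u hu u' hu').mono (fSide_P_sub _ _ _)
      | succ k ih =>
        intro hk u' hu'
        obtain ⟨w, hw⟩ := (fSide_P_conn hFC hR' (hin k (by omega))).2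
        have e1 := ih (by omega) w hw
        have e3 : X (a + k + 1) ∈ D := by
          have := hin (k + 1) hk
          push_cast at this
          rwa [← add_assoc] at this
        refine e1.trans (hlink (a + k) (hnf k (by omega)) (hin k (by omega)) e3 w hw u' ?_)
        push_cast at hu'
        rwa [← add_assoc] at hu'
    exact hall l le_rfl
  obtain ⟨a, ha1, ha2, rfl⟩ := hwin s h1
  obtain ⟨b, hb1, hb2, rfl⟩ := hwin s' h2
  rcases le_total a b with hab | hab
  · obtain ⟨l, hl⟩ := Int.eq_ofNat_of_zero_le (sub_nonneg.2 hab)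
    have hb : b = a + l := by omega
    rw [hb] at hs' hu' hb2
    exact hchain a l ha1 hb2 hs hs' u hu u' hu'
  · obtain ⟨l, hl⟩ := Int.eq_ofNat_of_zero_le (sub_nonneg.2 hab)
    have hb : a = b + l := by omega
    rw [hb] at hs hu ha2
    exact (hchain b l hb1 ha2 hs' hs u' hu' u hu).symm

/-- The side of a line. -/
theorem fSide_conn (hFC : Stmt_FaceCycle) (hFr : Stmt_FrVertex) (hV : ConnIn M.vadj univ)
    (hL : fSide_Line M.toInc D x y) (hR : fSide_Run M.toInc D x)
    (hR' : fSide_Run M.toInc Dᶜ x) : ConnIn M.vadj (fSide_VD M.toInc D) := by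
  -- the face of `D` at the edge `y i`
  have hs : ∀ i, ∃ s ∈ D, M.ef (y i) s := fun i => ((hL.mem (y i)).2 ⟨i, rfl⟩).1
  choose s hsD hse using hs
  have hsx : ∀ i, M.vf (x i) (s i) := fun i => ⟨y i, (hL.ve i _).2 (Or.inl rfl), hse i⟩
  have hsx' : ∀ i, M.vf (x (i + 1)) (s i) := fun i => ⟨y i, (hL.ve i _).2 (Or.inr rfl), hse i⟩
  have hne : ∀ i, (fSide_P M.toInc D (s i)).Nonempty := fun i =>
    (fSide_P_conn hFC hR' (hsD i)).2
  choose b hb using hne
  have hstep : ∀ i, ReachIn M.vadj (fSide_VD M.toInc D) (b i) (b (i + 1)) := fun i =>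
    fSide_star hFC hFr hL hR hR' (i + 1) (hsD i) (hsD (i + 1)) (hsx' i) (hsx (i + 1)) (hb i)
      (hb (i + 1))
  have hall : ∀ i, ReachIn M.vadj (fSide_VD M.toInc D) (b 0) (b i) := by
    intro i
    induction i using Int.induction_on with
    | zero => exact ReachIn.refl _
    | succ k ih => exact ih.trans (hstep _)
    | pred k ih =>
      have := hstep (-(k : ℤ) - 1)
      rw [sub_add_cancel] at this
      exact ih.trans this.symm
  refine ConnIn.of_base (b 0) ?_
  intro v hv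
  -- leave the component of `v`
  have hx0 : x 0 ∉ compIn M.vadj (fSide_VD M.toInc D) v := by
    intro h
    exact fSide_not_vd.2 (fSide_line_touch hL 0).2 (compIn_subset hv h)
  obtain ⟨p, hp, q, _, hq, hpq⟩ := hV.exists_adj (subset_univ _) ⟨v, mem_compIn_self v⟩
    (fun h => hx0 (h ▸ mem_univ _))
  have hpV := compIn_subset hv hp
  have hqV : q ∉ fSide_VD M.toInc D := fun h => hq (compIn_closed p hp q h hpq hpV)
  obtain ⟨_, e, hpe, hqe⟩ := hpq
  obtain ⟨f, g, _, hfg⟩ := M.edge_faces e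
  have hef := (hfg f).2 (Or.inl rfl)
  have hfD : f ∈ D := hpV f ⟨e, hpe, hef⟩
  obtain ⟨i, rfl⟩ := fSide_line_of_touch hFr hL ⟨f, hfD, e, hqe, hef⟩ (fSide_not_vd.1 hqV)
  have h1 := fSide_star hFC hFr hL hR hR' i (hsD i) hfD (hsx i) ⟨e, hqe, hef⟩ (hb i)
    (u' := p) ⟨⟨e, hpe, hef⟩, hpV⟩
  exact (hall i).trans (h1.trans (ReachIn.symm hp))

end fSide

/-- On either side of a line, the vertices off the line are connected. -/
theorem fSide (h1 : Stmt_FLine) (h2 : Stmt_FRun) (h3 : Stmt_FrVertex) (h4 : Stmt_FaceCycle) :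
    Stmt_FSide := by
  intro V E F G _ _ _ _ M Φ A hA D hD
  obtain ⟨x, y, p, hl⟩ := h1 V E F G M Φ A hA
  have hcomp : Dᶜ = A ∨ Dᶜ = Aᶜ := by
    rcases hD with rfl | rfl
    · exact Or.inr rfl
    · exact Or.inl (compl_compl A)
  have hL : fSide_Line M.toInc D x y :=
    { inj := fun i j h => by
        have := (hl.curve.x_eq i j).1 h
        rw [Nat.cast_zero, zero_dvd_iff] at this
        omega
      yinj := fun i j h => by
        have := (hl.curve.y_eq i j).1 h
        rw [Nat.cast_zero, zero_dvd_iff] at this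
        omega
      mem := fun e => by rw [fSide_fr_iff M.toInc hD]; exact hl.curve.mem e
      ve := hl.curve.ve }
  exact fSide_conn h4 h3 M.vconn hL (h2 V E F G M Φ A hA x y p hl D hD)
    (h2 V E F G M Φ A hA x y p hl Dᶜ hcomp)

end Pool.Agent.CT
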