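import Pool.Agent.CT.FDefs
import Pool.Agent.CT.FSide

set_option autoImplicit false

/-! # Part F, module FRef: a reference point in every strip -/

namespace Pool.Agent.CT

open Set Metric

section fRef

/-- A lexicographic half plane is convex. -/
theorem fRef_convex_left (h q : ℝ) : Convex ℝ {w : ℂ | w.im < h ∨ (w.im = h ∧ w.re ≤ q)} := by
  intro w1 h1 w2 h2 a b ha hb hab
  simp only [mem_ofPred_eq] at h1 h2 ⊢
  simp only [Complex.add_re, Complex.add_im, Complex.smul_re, Complex.smul_im, smul_eq_mul]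
  rcases ha.eq_or_lt with rfl | ha'
  · have hb1 : b = 1 := by linarith
    subst hb1
    simpa using h2
  rcases hb.eq_or_lt with rfl | hb'
  · have ha1 : a = 1 := by linarith
    subst ha1
    simpa using h1
  have e : h = a * h + b * h := by rw [← add_mul, hab, one_mul]
  rcases h1 with h1 | ⟨h1, h1'⟩
  · left
    have c1 : a * w1.im < a * h := mul_lt_mul_of_pos_left h1 ha'
    have c2 : b * w2.im ≤ b * h := by
      rcases h2 with h2 | ⟨h2, _⟩
      · exact (mul_lt_mul_of_pos_left h2 hb').le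
      · rw [h2]
    linarith
  · rcases h2 with h2 | ⟨h2, h2'⟩
    · left
      have c2 : b * w2.im < b * h := mul_lt_mul_of_pos_left h2 hb'
      rw [h1]
      linarith
    · right
      rw [h1, h2]
      refine ⟨e.symm, ?_⟩
      have c1 : a * w1.re ≤ a * q := mul_le_mul_of_nonneg_left h1' ha
      have c2 : b * w2.re ≤ b * q := mul_le_mul_of_nonneg_left h2' hb
      have e' : q = a * q + b * q := by rw [← add_mul, hab, one_mul]
      linarith

theorem fRef_convex_right (h q : ℝ) : Convex ℝ {w : ℂ | w.im < h ∨ (w.im = h ∧ q ≤ w.re)} := by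
  intro w1 h1 w2 h2 a b ha hb hab
  simp only [mem_ofPred_eq] at h1 h2 ⊢
  simp only [Complex.add_re, Complex.add_im, Complex.smul_re, Complex.smul_im, smul_eq_mul]
  rcases ha.eq_or_lt with rfl | ha'
  · have hb1 : b = 1 := by linarith
    subst hb1
    simpa using h2
  rcases hb.eq_or_lt with rfl | hb'
  · have ha1 : a = 1 := by linarith
    subst ha1
    simpa using h1
  have e : h = a * h + b * h := by rw [← add_mul, hab, one_mul]
  rcases h1 with h1 | ⟨h1, h1'⟩
  · left
    have c1 : a * w1.im < a * h := mul_lt_mul_of_pos_left h1 ha'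
    have c2 : b * w2.im ≤ b * h := by
      rcases h2 with h2 | ⟨h2, _⟩
      · exact (mul_lt_mul_of_pos_left h2 hb').le
      · rw [h2]
    linarith
  · rcases h2 with h2 | ⟨h2, h2'⟩
    · left
      have c2 : b * w2.im < b * h := mul_lt_mul_of_pos_left h2 hb'
      rw [h1]
      linarith
    · right
      rw [h1, h2]
      refine ⟨e.symm, ?_⟩
      have c1 : a * q ≤ a * w1.re := mul_le_mul_of_nonneg_left h1' ha
      have c2 : b * q ≤ b * w2.re := mul_le_mul_of_nonneg_left h2' hb
      have e' : q = a * q + b * q := by rw [← add_mul, hab, one_mul]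
      linarith

variable {V E F : Type} {M : PolyMap V E F} {D : Set F} {x : ℤ → V} {y : ℤ → E}

/-- A face outside `D` containing `x i` and `x l`, `i < l`, contains all edges between. -/
theorem fRef_run_edges (hL : fSide_Line M.toInc D x y) (hR : fSide_Run M.toInc D x)
    (hFC : Stmt_FaceCycle) {f : F} (hf : f ∉ D) {i l : ℤ}
    (h1 : M.vf (x i) f) (h2 : M.vf (x l) f) (k : ℕ) (hk : i + k < l) : M.ef (y (i + k)) f := by
  have key : ∀ k : ℕ, i + k ≤ l → M.vf (x (i + k)) f := by
    intro k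
    induction k with
    | zero => intro _; simpa using h1
    | succ k ih =>
      intro hk
      push_cast at hk ⊢
      have := fSide_run_edge hL hR hFC hf (show i + (k : ℤ) < l by omega) (ih (by omega)) h2
      refine ⟨_, (hL.ve (i + k) _).2 (Or.inr ?_), this⟩
      rw [add_assoc]
  exact fSide_run_edge hL hR hFC hf hk (key k hk.le) h2

end fRef

section fRef2

variable {V E F G : Type} [Group G] [MulAction G V] [MulAction G E] [MulAction G F]
  {M : PlaneMap V E F}

theorem fRef_anti {Φ : Frieze M G} {U : ℤ → Set F} (hU : Φ.IsSeq U) {a b : ℤ} (h : a ≤ b) :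
    U b ⊆ U a := by
  have : Antitone U := antitone_int_of_succ_le hU.anti
  exact this h

/-- Heights of the vertices of a face of strip `m`. -/
theorem fRef_heights (h2 : Stmt_FVert) (h4 : Stmt_FHeight) (X : FCtx M G) (m : ℤ) {t : F}
    (ht : t ∈ X.S m) {v : V} (hv : M.vf v t) :
    ((m : ℝ) + 1 / 2 < (X.φ v).im ∧ (X.φ v).im < m + 3 / 2) ∨
    (∃ i, v = X.L.x m i ∧ (X.φ v).im = m + 1 / 2) ∨
    ∃ i, v = X.L.x (m + 1) i ∧ X.φ v = X.Φ.pt X.L (m + 1) i := by
  by_cases hin : X.Inner v
  · exact Or.inl (h4 V E F G M X m v hin ⟨t, ht, hv⟩)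
  · right
    simp only [FCtx.Inner] at hin
    push Not at hin
    obtain ⟨l, i, rfl⟩ := hin
    obtain ⟨_, _, _, h6, _⟩ := h2 V E F G M X.Φ X.U X.seq X.L
    obtain ⟨a1, a2⟩ := h6 l i t hv
    have hl1 : m ≤ l := by
      by_contra hcon
      exact a2 (fRef_anti X.seq (show l + 1 ≤ m by omega) ht.1)
    have hl2 : l ≤ m + 1 := by
      by_contra hcon
      exact ht.2 (fRef_anti X.seq (show m + 1 ≤ l - 1 by omega) a1)
    have hl : l = m ∨ l = m + 1 := by omega
    rcases hl with rfl | rfl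
    · left
      refine ⟨i, rfl, ?_⟩
      rw [X.harm.line]
      rfl
    · right
      exact ⟨i, rfl, X.harm.line _ _⟩

theorem fRef_strip (h2 : Stmt_FVert) (h4 : Stmt_FHeight) (X : FCtx M G) (m : ℤ) {t : F}
    (ht : t ∈ X.S m) :
    poly M.toInc X.φ t ⊆ {w : ℂ | (m : ℝ) + 1 / 2 ≤ w.im ∧ w.im ≤ m + 3 / 2} := by
  apply convexHull_min
  · rintro _ ⟨v, hv, rfl⟩
    have hv' : M.vf v t := hv
    rcases fRef_heights h2 h4 X m ht hv' with h | ⟨i, _, h⟩ | ⟨i, _, h⟩
    · exact ⟨h.1.le, h.2.le⟩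
    · rw [mem_ofPred_eq, h]
      constructor <;> linarith
    · rw [mem_ofPred_eq, h]
      simp only [Frieze.pt]
      push_cast
      constructor <;> linarith
  · have : {w : ℂ | (m : ℝ) + 1 / 2 ≤ w.im ∧ w.im ≤ m + 3 / 2} =
        {w : ℂ | (m : ℝ) + 1 / 2 ≤ w.im} ∩ {w : ℂ | w.im ≤ (m : ℝ) + 3 / 2} := rfl
    rw [this]
    exact (convex_halfSpace_im_ge _).inter (convex_halfSpace_im_le _)

/-- A reference point in every strip. -/
theorem fRef (h1 : Stmt_FFaces) (h2 : Stmt_FVert) (h3 : Stmt_FLoc) (h4 : Stmt_FHeight)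
    (h5 : Stmt_FRun) (h6 : Stmt_FaceCycle) : Stmt_FRef := by
  intro V E F G _ _ _ _ M X m
  have hl := X.L.line (m + 1)
  have hL : fSide_Line M.toInc (X.U (m + 1)) (X.L.x (m + 1)) (X.L.y (m + 1)) :=
    { inj := fun i j h => by
        have := (hl.curve.x_eq i j).1 h
        rw [Nat.cast_zero, zero_dvd_iff] at this
        omega
      yinj := fun i j h => by
        have := (hl.curve.y_eq i j).1 h
        rw [Nat.cast_zero, zero_dvd_iff] at this
        omega
      mem := fun e => hl.curve.mem e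
      ve := hl.curve.ve }
  have hR : fSide_Run M.toInc (X.U (m + 1)) (X.L.x (m + 1)) :=
    h5 V E F G M X.Φ (X.U (m + 1)) (X.seq.cut (m + 1)) _ _ _ hl (X.U (m + 1)) (Or.inl rfl)
  -- the frontier edge number 0 and its faces
  obtain ⟨⟨d, hd, hed⟩, t, ht, het⟩ := (hL.mem (X.L.y (m + 1) 0)).2 ⟨0, rfl⟩
  have hx0 : M.vf (X.L.x (m + 1) 0) t := ⟨_, (hL.ve 0 _).2 (Or.inl rfl), het⟩
  have hx1 : M.vf (X.L.x (m + 1) 1) t := ⟨_, (hL.ve 0 _).2 (Or.inr (by rw [zero_add])), het⟩
  have htS : t ∈ X.S m := by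
    obtain ⟨_, _, _, h7, _⟩ := h2 V E F G M X.Φ X.U X.seq X.L
    have := (h7 (m + 1) 0 t hx0).1
    rw [add_sub_cancel_right] at this
    exact ⟨this, ht⟩
  -- the middle of the edge
  set P0 := X.Φ.pt X.L (m + 1) 0 with hP0
  set P1 := X.Φ.pt X.L (m + 1) 1 with hP1
  have hφ0 : X.φ (X.L.x (m + 1) 0) = P0 := X.harm.line _ _
  have hφ1 : X.φ (X.L.x (m + 1) 1) = P1 := X.harm.line _ _
  set z : ℂ := (1 / 2 : ℝ) • P0 + (1 / 2 : ℝ) • P1 with hz
  have hcp : 0 < X.Φ.c X.Φ.τ / X.L.p (m + 1) := by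
    apply div_pos X.Φ.τ_pos
    exact_mod_cast hl.pos
  have hpre : ∀ i : ℤ, (X.Φ.pt X.L (m + 1) i).re =
      X.Φ.c X.Φ.τ / X.L.p (m + 1) * i + X.L.β (m + 1) := by
    intro i
    simp only [Frieze.pt]
    ring
  have hpim : ∀ i : ℤ, (X.Φ.pt X.L (m + 1) i).im = m + 3 / 2 := by
    intro i
    simp only [Frieze.pt]
    push_cast
    ring
  have hzim : z.im = m + 3 / 2 := by
    rw [hz]
    simp only [Complex.add_im, Complex.smul_im, smul_eq_mul, hP0, hP1, hpim]
    ring
  have hzre : z.re = X.Φ.c X.Φ.τ / X.L.p (m + 1) * (1 / 2) + X.L.β (m + 1) := by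
    rw [hz]
    simp only [Complex.add_re, Complex.smul_re, smul_eq_mul, hP0, hP1, hpre]
    push_cast
    ring
  have hzt : z ∈ poly M.toInc X.φ t := by
    have a0 : P0 ∈ poly M.toInc X.φ t := subset_convexHull ℝ _ ⟨_, hx0, hφ0⟩
    have a1 : P1 ∈ poly M.toInc X.φ t := subset_convexHull ℝ _ ⟨_, hx1, hφ1⟩
    exact (convex_convexHull ℝ _) a0 a1 (by norm_num) (by norm_num) (by norm_num)
  -- the middle is in no other polygon of the strip
  have hznot : ∀ t' ∈ X.S m, t' ≠ t → z ∉ poly M.toInc X.φ t' := by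
    intro t' ht' hne hz'
    have ht'U : t' ∉ X.U (m + 1) := ht'.2
    have hdt : d ≠ t := fun h => ht (h ▸ hd)
    have hdt' : d ≠ t' := fun h => ht'U (h ▸ hd)
    -- not on both sides
    have hnb : ∀ i l : ℤ, i ≤ 0 → 1 ≤ l → M.vf (X.L.x (m + 1) i) t' →
        M.vf (X.L.x (m + 1) l) t' → False := by
      intro i l hi hl1 hi' hl'
      obtain ⟨k, hk⟩ := Int.eq_ofNat_of_zero_le (neg_nonneg.2 hi)
      have e0 : i + (k : ℤ) = 0 := by omega
      have := fRef_run_edges hL hR h6 ht'U hi' hl' k (by omega)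
      rw [e0] at this
      obtain ⟨f, g, hfg, hef⟩ := M.edge_faces (X.L.y (m + 1) 0)
      rcases (hef _).1 this with b1 | b1 <;> rcases (hef _).1 het with b2 | b2 <;>
        rcases (hef _).1 hed with b3 | b3 <;>
        first
        | exact hne (b1.trans b2.symm)
        | exact hdt (b3.trans b2.symm)
        | exact hdt' (b3.trans b1.symm)
    by_cases hcase : ∃ i, i ≤ 0 ∧ M.vf (X.L.x (m + 1) i) t'
    · obtain ⟨i, hi, hi'⟩ := hcase
      have hsub : poly M.toInc X.φ t' ⊆
          {w : ℂ | w.im < m + 3 / 2 ∨ (w.im = m + 3 / 2 ∧ w.re ≤ P0.re)} := by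
        apply convexHull_min _ (fRef_convex_left _ _)
        rintro _ ⟨v, hv, rfl⟩
        have hv' : M.vf v t' := hv
        rcases fRef_heights h2 h4 X m ht' hv' with h | ⟨j, _, h⟩ | ⟨j, hj, h⟩
        · exact Or.inl h.2
        · left
          rw [h]
          linarith
        · right
          rw [h, hpim, hP0, hpre 0, hpre j]
          refine ⟨rfl, ?_⟩
          have hj0 : j ≤ 0 := by
            by_contra hcon
            exact hnb i j hi (by omega) hi' (hj ▸ hv')
          have : (j : ℝ) ≤ ((0 : ℤ) : ℝ) := by exact_mod_cast hj0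
          have := mul_le_mul_of_nonneg_left this hcp.le
          linarith
      rcases hsub hz' with h | ⟨_, h⟩
      · linarith
      · rw [hzre, hP0, hpre] at h
        push_cast at h
        linarith
    · push Not at hcase
      have hsub : poly M.toInc X.φ t' ⊆
          {w : ℂ | w.im < m + 3 / 2 ∨ (w.im = m + 3 / 2 ∧ P1.re ≤ w.re)} := by
        apply convexHull_min _ (fRef_convex_right _ _)
        rintro _ ⟨v, hv, rfl⟩
        have hv' : M.vf v t' := hv
        rcases fRef_heights h2 h4 X m ht' hv' with h | ⟨j, _, h⟩ | ⟨j, hj, h⟩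
        · exact Or.inl h.2
        · left
          rw [h]
          linarith
        · right
          rw [h, hpim, hP1, hpre 1, hpre j]
          refine ⟨rfl, ?_⟩
          have hj1 : 1 ≤ j := by
            by_contra hcon
            exact hcase j (by omega) (hj ▸ hv')
          have : ((1 : ℤ) : ℝ) ≤ (j : ℝ) := by exact_mod_cast hj1
          have := mul_le_mul_of_nonneg_left this hcp.le
          linarith
      rcases hsub hz' with h | ⟨_, h⟩
      · linarith
      · rw [hzre, hP1, hpre] at h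
        push_cast at h
        nlinarith
  -- a neighbourhood of the middle avoiding the other polygons
  have hmem : ∀ t' : {f : F // f ∉ (X.S m)ᶜ}, t'.1 ∈ X.S m := fun t' => not_not.1 t'.2
  obtain ⟨_, hlf⟩ := h3 V E F G M X (‖z‖ + 1)
  have hclosed : ∀ t' ∈ X.S m, IsClosed (poly M.toInc X.φ t') := by
    intro t' ht'
    have hok := (h1 V E F G M X m ⟨t', not_not.2 ht'⟩).1
    exact ((hok.fin.image X.φ).isCompact_convexHull ℝ).isClosed
  set B : Set F := {f | (poly M.toInc X.φ f ∩ closedBall 0 (‖z‖ + 1)).Nonempty} ∩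
    {f | f ∈ X.S m ∧ f ≠ t} with hB
  have hBfin : B.Finite := hlf.subset inter_subset_left
  have hBclosed : IsClosed (⋃ f ∈ B, poly M.toInc X.φ f) :=
    hBfin.isClosed_biUnion fun f hf => hclosed f hf.2.1
  have hzB : z ∉ ⋃ f ∈ B, poly M.toInc X.φ f := by
    simp only [mem_iUnion, not_exists]
    exact fun f hf => hznot f hf.2.1 hf.2.2
  obtain ⟨δ, hδ, hball⟩ := Metric.isOpen_iff.1 hBclosed.isOpen_compl z hzB
  -- an interior point of the polygon of `t` near the middle
  have hok := (h1 V E F G M X m ⟨t, not_not.2 htS⟩).1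
  have hpeq := (h1 V E F G M X m ⟨t, not_not.2 htS⟩).2.2
  have hzcl : z ∈ closure (interior (poly M.toInc X.φ t)) := by
    have hconv : Convex ℝ (poly M.toInc X.φ t) := convex_convexHull ℝ _
    rw [hconv.closure_interior_eq_closure_of_nonempty_interior hok.int]
    exact subset_closure hzt
  obtain ⟨w, hw, hwz⟩ := Metric.mem_closure_iff.1 hzcl (min δ 1) (lt_min hδ one_pos)
  have hwim : (m : ℝ) + 1 / 2 < w.im ∧ w.im < m + 3 / 2 := by
    have h7 := interior_mono (fRef_strip h2 h4 X m htS) hw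
    have e7 : {w : ℂ | (m : ℝ) + 1 / 2 ≤ w.im ∧ w.im ≤ m + 3 / 2} =
        Complex.im ⁻¹' (Icc ((m : ℝ) + 1 / 2) (m + 3 / 2)) := rfl
    rw [e7, Complex.interior_preimage_im, interior_Icc] at h7
    exact h7
  refine ⟨w, ⟨t, not_not.2 htS⟩, hwim.1, hwim.2, ?_, ?_⟩
  · rw [← hpeq]
    exact hw
  · intro t' hne hw'
    rw [← (h1 V E F G M X m t').2.2] at hw'
    have hw1 : dist w z < δ := by
      rw [dist_comm]
      exact lt_of_lt_of_le hwz (min_le_left _ _)
    have hw2 : dist w z < 1 := by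
      rw [dist_comm]
      exact lt_of_lt_of_le hwz (min_le_right _ _)
    apply hball (mem_ball.2 hw1)
    refine mem_biUnion (x := t'.1) ⟨⟨w, hw', ?_⟩, hmem t', fun h => hne (Subtype.ext h)⟩ hw'
    rw [mem_closedBall, dist_zero_right]
    have := norm_le_norm_add_norm_sub' w z
    rw [← dist_eq_norm] at this
    linarith

end fRef2

end Pool.Agent.CT
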