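import Pool.Agent.CT.FDefs

set_option autoImplicit false

/-! # RUN: runs of faces on a line -/

namespace Pool.Agent.CT

open Set Metric

section

variable {V E F : Type} {M : Inc V E F} {C : Set E} {D : Set F} {x x' : ℤ → V} {y y' : ℤ → E}
  {n : ℕ} {t : F}

theorem fRun_line_inj (hC : IsCurve M C 0 x y) {i j : ℤ} (h : x i = x j) : i = j := by
  have h1 := (hC.x_eq i j).1 h
  simp only [Nat.cast_zero, zero_dvd_iff] at h1
  omega

theorem fRun_ne (hc : IsFaceCycle M t n x' y') (i : ℤ) {m : ℕ} (h0 : 0 < m) (hm : m < n) :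
    x' i ≠ x' (i + m) := by
  intro h
  have h1 := (hc.curve.x_eq _ _).1 h
  have h2 : (n : ℤ) ∣ m := by
    have e : i - (i + m) = -(m : ℤ) := by ring
    rw [e] at h1
    exact dvd_neg.1 h1
  have h3 := Int.le_of_dvd (by omega) h2
  omega

/-- an edge of the run is an edge of the line -/
theorem fRun_edge (hC : IsCurve M C 0 x y)
    (hfr : ∀ e, e ∈ C ↔ (∃ d ∈ D, M.ef e d) ∧ ∃ g, g ∉ D ∧ M.ef e g) (ht : t ∉ D)
    (hc : IsFaceCycle M t n x' y') (i : ℤ) (hd : ∃ d ∈ D, M.ef (y' i) d) :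
    ∃ j, y' i = y j ∧ ((x' i = x j ∧ x' (i + 1) = x (j + 1)) ∨
      (x' i = x (j + 1) ∧ x' (i + 1) = x j)) := by
  have h1 : y' i ∈ C := (hfr _).2 ⟨hd, t, ht, (hc.curve.mem _).2 ⟨i, rfl⟩⟩
  obtain ⟨j, hj⟩ := (hC.mem _).1 h1
  refine ⟨j, hj.symm, ?_⟩
  have h2 : ∀ v, (v = x' i ∨ v = x' (i + 1)) → (v = x j ∨ v = x (j + 1)) := by
    intro v hv
    rw [← hC.ve j v, hj]
    exact (hc.curve.ve i v).2 hv
  have hne : x' i ≠ x' (i + 1) := by
    have := fRun_ne hc i (m := 1) one_pos (by have := hc.three; omega)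
    simpa using this
  rcases h2 _ (Or.inl rfl) with h3 | h3 <;> rcases h2 _ (Or.inr rfl) with h4 | h4
  · exact absurd (h3.trans h4.symm) hne
  · exact Or.inl ⟨h3, h4⟩
  · exact Or.inr ⟨h3, h4⟩
  · exact absurd (h3.trans h4.symm) hne

theorem fRun_run (hC : IsCurve M C 0 x y)
    (hfr : ∀ e, e ∈ C ↔ (∃ d ∈ D, M.ef e d) ∧ ∃ g, g ∉ D ∧ M.ef e g)
    (hFV : ∀ v, Touch M D v → Touch M Dᶜ v → ∃ e ∈ C, M.ve v e) (ht : t ∉ D)
    (hc : IsFaceCycle M t n x' y') (a : ℤ) (r : ℕ)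
    (hv : ∀ i, Touch M D (x' i) ↔ ∃ k : ℕ, k ≤ r ∧ (n : ℤ) ∣ i - (a + k))
    (he : ∀ i, (∃ d ∈ D, M.ef (y' i) d) ↔ ∃ k : ℕ, k < r ∧ (n : ℤ) ∣ i - (a + k)) :
    ∃ i₀ κ : ℤ, (κ = 1 ∨ κ = -1) ∧ (∀ k : ℕ, k ≤ r → x' (a + k) = x (i₀ + κ * k)) ∧
      ∀ k : ℕ, k < r → (κ = 1 ∧ y' (a + k) = y (i₀ + k)) ∨
        (κ = -1 ∧ y' (a + k) = y (i₀ - k - 1)) := by
  have hedge : ∀ k : ℕ, k < r → ∃ j, y' (a + k) = y j ∧
      ((x' (a + k) = x j ∧ x' (a + k + 1) = x (j + 1)) ∨
      (x' (a + k) = x (j + 1) ∧ x' (a + k + 1) = x j)) := by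
    intro k hk
    exact fRun_edge hC hfr ht hc (a + k) ((he _).2 ⟨k, hk, by simp⟩)
  rcases Nat.eq_zero_or_pos r with hr0 | hr0
  · subst hr0
    have h1 : Touch M D (x' a) := (hv a).2 ⟨0, le_refl _, by simp⟩
    have h2 : Touch M Dᶜ (x' a) :=
      ⟨t, ht, y' a, (hc.curve.ve a _).2 (Or.inl rfl), (hc.curve.mem _).2 ⟨a, rfl⟩⟩
    obtain ⟨e, h3, h4⟩ := hFV _ h1 h2
    obtain ⟨j, rfl⟩ := (hC.mem e).1 h3
    rcases (hC.ve j _).1 h4 with h5 | h5
    · refine ⟨j, 1, Or.inl rfl, ?_, fun k hk => absurd hk (Nat.not_lt_zero k)⟩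
      intro k hk
      have : k = 0 := by omega
      subst this
      simpa using h5
    · refine ⟨j + 1, 1, Or.inl rfl, ?_, fun k hk => absurd hk (Nat.not_lt_zero k)⟩
      intro k hk
      have : k = 0 := by omega
      subst this
      simpa using h5
  · have key : ∀ m : ℕ, 1 ≤ m → m ≤ r → ∃ i₀ κ : ℤ, (κ = 1 ∨ κ = -1) ∧
        (∀ k : ℕ, k ≤ m → x' (a + k) = x (i₀ + κ * k)) ∧
        ∀ k : ℕ, k < m → (κ = 1 ∧ y' (a + k) = y (i₀ + k)) ∨
          (κ = -1 ∧ y' (a + k) = y (i₀ - k - 1)) := by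
      intro m hm
      induction m, hm using Nat.le_induction with
      | base =>
        intro _
        obtain ⟨j, h1, h2⟩ := hedge 0 hr0
        simp only [Nat.cast_zero, add_zero] at h1 h2
        rcases h2 with ⟨h3, h4⟩ | ⟨h3, h4⟩
        · refine ⟨j, 1, Or.inl rfl, ?_, ?_⟩
          · intro k hk
            rcases Nat.le_one_iff_eq_zero_or_eq_one.1 hk with rfl | rfl
            · simpa using h3
            · simpa using h4
          · intro k hk
            have : k = 0 := by omega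
            subst this
            left
            exact ⟨rfl, by simpa using h1⟩
        · refine ⟨j + 1, -1, Or.inr rfl, ?_, ?_⟩
          · intro k hk
            rcases Nat.le_one_iff_eq_zero_or_eq_one.1 hk with rfl | rfl
            · simpa using h3
            · simpa using h4
          · intro k hk
            have : k = 0 := by omega
            subst this
            right
            refine ⟨rfl, ?_⟩
            have e : j + 1 - ((0 : ℕ) : ℤ) - 1 = j := by simp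
            rw [e]
            simpa using h1
      | succ m hm ih =>
        intro hmr
        obtain ⟨i₀, κ, hκ, hx, hy⟩ := ih (by omega)
        obtain ⟨j, h1, h2⟩ := hedge m (by omega)
        have hxm := hx m (le_refl _)
        have hxm1 : x' (a + m - 1) = x (i₀ + κ * (m - 1)) := by
          have := hx (m - 1) (by omega)
          have e : a + ((m - 1 : ℕ) : ℤ) = a + m - 1 := by
            rw [Nat.cast_sub hm]
            push_cast
            ring
          have e2 : ((m - 1 : ℕ) : ℤ) = m - 1 := by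
            rw [Nat.cast_sub hm]
            push_cast
            ring
          rw [e, e2] at this
          exact this
        have hne2 : x' (a + m - 1) ≠ x' (a + m + 1) := by
          have := fRun_ne hc (a + m - 1) (m := 2) (by norm_num) (by have := hc.three; omega)
          have e : a + (m : ℤ) - 1 + ((2 : ℕ) : ℤ) = a + m + 1 := by push_cast; ring
          rw [e] at this
          exact this
        have fin : (κ = 1 ∧ j = i₀ + m ∧ x' (a + m + 1) = x (i₀ + m + 1)) ∨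
            (κ = -1 ∧ j = i₀ - m - 1 ∧ x' (a + m + 1) = x (i₀ - m - 1)) := by
          rcases h2 with ⟨h3, h4⟩ | ⟨h3, h4⟩
          · have h5 : i₀ + κ * m = j := fRun_line_inj hC (hxm.symm.trans h3)
            rcases hκ with rfl | rfl
            · left
              refine ⟨rfl, by linarith, ?_⟩
              rw [h4]
              congr 1
              linarith
            · exfalso
              apply hne2
              rw [hxm1, h4]
              congr 1
              linarith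
          · have h5 : i₀ + κ * m = j + 1 := fRun_line_inj hC (hxm.symm.trans h3)
            rcases hκ with rfl | rfl
            · exfalso
              apply hne2
              rw [hxm1, h4]
              congr 1
              linarith
            · right
              refine ⟨rfl, by linarith, ?_⟩
              rw [h4]
              congr 1
              linarith
        refine ⟨i₀, κ, hκ, ?_, ?_⟩
        · intro k hk
          rcases Nat.lt_or_ge k (m + 1) with hk' | hk'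
          · exact hx k (by omega)
          · have : k = m + 1 := by omega
            subst this
            have e : a + ((m + 1 : ℕ) : ℤ) = a + m + 1 := by push_cast; ring
            rw [e]
            rcases fin with ⟨rfl, -, h6⟩ | ⟨rfl, -, h6⟩
            · rw [h6]
              congr 1
              push_cast
              ring
            · rw [h6]
              congr 1
              push_cast
              ring
        · intro k hk
          rcases Nat.lt_or_ge k m with hk' | hk'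
          · exact hy k hk'
          · have : k = m := by omega
            subst this
            rcases fin with ⟨rfl, h6, -⟩ | ⟨rfl, h6, -⟩
            · left
              exact ⟨rfl, by rw [h1, h6]⟩
            · right
              exact ⟨rfl, by rw [h1, h6]⟩
    exact key r hr0 (le_refl _)

/-- two vertices of the line in a face outside `D`: the first edge after the left one is in the
face -/
theorem fRun_fill (hC : IsCurve M C 0 x y)
    (hfr : ∀ e, e ∈ C ↔ (∃ d ∈ D, M.ef e d) ∧ ∃ g, g ∉ D ∧ M.ef e g)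
    (hFV : ∀ v, Touch M D v → Touch M Dᶜ v → ∃ e ∈ C, M.ve v e) (ht : t ∉ D)
    (hc : IsFaceCycle M t n x' y')
    (hrun : (∀ i, ¬ Touch M D (x' i)) ∨ ∃ (a : ℤ) (r : ℕ), r < n ∧
      (∀ i, Touch M D (x' i) ↔ ∃ k : ℕ, k ≤ r ∧ (n : ℤ) ∣ i - (a + k)) ∧
      (∀ i, (∃ d ∈ D, M.ef (y' i) d) ↔ ∃ k : ℕ, k < r ∧ (n : ℤ) ∣ i - (a + k)))
    {i j : ℤ} (hij : i < j) (hi : M.vf (x i) t) (hj : M.vf (x j) t) : M.ef (y i) t := by
  -- every vertex of `t` is some `x' l`
  have hvt : ∀ v, M.vf v t → ∃ l, x' l = v := by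
    rintro v ⟨e, h1, h2⟩
    obtain ⟨l, rfl⟩ := (hc.curve.mem e).1 h2
    rcases (hc.curve.ve l v).1 h1 with h3 | h3
    · exact ⟨l, h3.symm⟩
    · exact ⟨l + 1, h3.symm⟩
  have htouch : ∀ l, Touch M D (x l) := by
    intro l
    obtain ⟨⟨d, hd, h1⟩, -⟩ := (hfr _).1 ((hC.mem _).2 ⟨l, rfl⟩)
    exact ⟨d, hd, y l, (hC.ve l _).2 (Or.inl rfl), h1⟩
  obtain ⟨l1, hl1⟩ := hvt _ hi
  obtain ⟨l2, hl2⟩ := hvt _ hj
  rcases hrun with h | ⟨a, r, -, hv, he⟩
  · exact absurd (hl1 ▸ htouch i) (h l1)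
  obtain ⟨i₀, κ, hκ, hx, hy⟩ := fRun_run hC hfr hFV ht hc a r hv he
  obtain ⟨k1, hk1, hd1⟩ := (hv l1).1 (hl1 ▸ htouch i)
  obtain ⟨k2, hk2, hd2⟩ := (hv l2).1 (hl2 ▸ htouch j)
  have e1 : i = i₀ + κ * k1 := by
    apply fRun_line_inj hC
    rw [← hl1, (hc.curve.x_eq _ _).2 hd1, hx k1 hk1]
  have e2 : j = i₀ + κ * k2 := by
    apply fRun_line_inj hC
    rw [← hl2, (hc.curve.x_eq _ _).2 hd2, hx k2 hk2]
  rcases hκ with rfl | rfl
  · have h12 : k1 < k2 := by
      have : (k1 : ℤ) < k2 := by linarith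
      exact_mod_cast this
    rcases hy k1 (by omega) with ⟨-, h3⟩ | ⟨h3, -⟩
    · have e3 : i = i₀ + k1 := by linarith
      rw [e3, ← h3]
      exact (hc.curve.mem _).2 ⟨_, rfl⟩
    · norm_num at h3
  · have h12 : k2 < k1 := by
      have : (k2 : ℤ) < k1 := by linarith
      exact_mod_cast this
    rcases hy (k1 - 1) (by omega) with ⟨h3, -⟩ | ⟨-, h3⟩
    · norm_num at h3
    · have e3 : i = i₀ - ((k1 - 1 : ℕ) : ℤ) - 1 := by
        rw [Nat.cast_sub (by omega)]
        push_cast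
        linarith
      rw [e3, ← h3]
      exact (hc.curve.mem _).2 ⟨_, rfl⟩

end

theorem fRun (h1 : Stmt_Tight) (h2 : Stmt_FaceCycle) (h3 : Stmt_FrVertex) : Stmt_FRun := by
  intro V E F G _ _ _ _ M Φ A hA x y p hL D hD t ht n x' y' hc
  -- uniform facts about `D`
  have hconn : ConnIn M.fadj D ∧ ConnIn M.fadj Dᶜ ∧ ∀ t, ConnIn M.fadj (Dᶜ \ {t}) := by
    rcases hD with rfl | rfl
    · exact ⟨hA.conn, hA.conn', hA.tight'⟩
    · rw [compl_compl]
      exact ⟨hA.conn', hA.conn, hA.tight⟩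
  have hne : ∀ t, (Dᶜ \ {t}).Nonempty := by
    intro t
    have key : ∀ Ed : ℕ → Set F, IsEnd M.fadj Ed → (∃ j, Ed j ⊆ Dᶜ) → (Dᶜ \ {t}).Nonempty := by
      intro Ed hEd hj
      obtain ⟨j, hj⟩ := hj
      obtain ⟨j', hj'⟩ := hEd.fin t
      obtain ⟨s, hs⟩ := hEd.ne (max j j')
      refine ⟨s, hj (hEd.anti (le_max_left _ _) hs), ?_⟩
      rintro rfl
      exact hj' (hEd.anti (le_max_right _ _) hs)
    rcases hD with rfl | rfl
    · exact key _ Φ.lo_end hA.lo
    · exact key _ Φ.up_end (by rw [compl_compl]; exact hA.up)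
  have hfr : ∀ e, e ∈ fr M.toInc A ↔ (∃ d ∈ D, M.ef e d) ∧ ∃ g, g ∉ D ∧ M.ef e g := by
    intro e
    rcases hD with rfl | rfl
    · exact Iff.rfl
    · constructor
      · rintro ⟨⟨f, hf, h4⟩, g, hg, h5⟩
        exact ⟨⟨g, hg, h5⟩, f, fun h => h hf, h4⟩
      · rintro ⟨⟨f, hf, h4⟩, g, hg, h5⟩
        exact ⟨⟨g, not_not.1 hg, h5⟩, f, hf, h4⟩
  have hFV : ∀ v, Touch M.toInc D v → Touch M.toInc Dᶜ v → ∃ e ∈ fr M.toInc A, M.ve v e := by
    intro v h4 h5
    rcases hD with rfl | rfl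
    · exact h3 V E F M.toPolyMap _ v h4 h5
    · rw [compl_compl] at h5
      exact h3 V E F M.toPolyMap _ v h5 h4
  have hC : IsCurve M.toInc (fr M.toInc A) 0 x y := hL.curve
  have hT : ∀ s, s ∉ D → ∀ m u z, IsFaceCycle M.toInc s m u z →
      (∀ i, ¬ Touch M.toInc D (u i)) ∨ ∃ (a : ℤ) (r : ℕ), r < m ∧
      (∀ i, Touch M.toInc D (u i) ↔ ∃ k : ℕ, k ≤ r ∧ (m : ℤ) ∣ i - (a + k)) ∧
      (∀ i, (∃ d ∈ D, M.ef (z i) d) ↔ ∃ k : ℕ, k < r ∧ (m : ℤ) ∣ i - (a + k)) :=
    fun s hs m u z hsc => h1 V E F M D hconn.1 hconn.2.1 s hs (hconn.2.2 s) (hne s) m u z hsc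
  have hfill : ∀ s, s ∉ D → ∀ i j : ℤ, i < j → M.vf (x i) s → M.vf (x j) s → M.ef (y i) s := by
    intro s hs i j hij hi hj
    obtain ⟨m, u, z, hsc⟩ := h2 V E F M.toPolyMap s
    exact fRun_fill hC hfr hFV hs hsc (hT s hs m u z hsc) hij hi hj
  rcases hT t ht n x' y' hc with h4 | ⟨a, r, hr, hv, he⟩
  · exact Or.inl h4
  right
  obtain ⟨i₀, κ, hκ, hx, -⟩ := fRun_run hC hfr hFV ht hc a r hv he
  refine ⟨a, r, i₀, κ, hκ, ?_, hx, hv, he⟩
  by_contra hlt
  have hrn : r + 1 = n := by omega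
  have h3n := hc.three
  -- the last edge is not an edge of `D`
  have hlast : ¬ ∃ d ∈ D, M.ef (y' (a + r)) d := by
    intro h
    obtain ⟨k, hk, hd⟩ := (he _).1 h
    have e : a + (r : ℤ) - (a + k) = ((r - k : ℕ) : ℤ) := by
      rw [Nat.cast_sub hk.le]
      ring
    rw [e] at hd
    have := Int.le_of_dvd (by omega) hd
    omega
  have het : M.ef (y' (a + r)) t := (hc.curve.mem _).2 ⟨_, rfl⟩
  obtain ⟨g, hgt, heg⟩ : ∃ g, g ≠ t ∧ M.ef (y' (a + r)) g := by
    obtain ⟨f, g, hfg, h5⟩ := M.edge_faces (y' (a + r))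
    rcases (h5 t).1 het with rfl | rfl
    · exact ⟨g, hfg.symm, (h5 g).2 (Or.inr rfl)⟩
    · exact ⟨f, hfg, (h5 f).2 (Or.inl rfl)⟩
  have hgD : g ∉ D := fun h => hlast ⟨g, h, heg⟩
  -- the two end vertices
  have hper : x' (a + r + 1) = x' a := (hc.curve.x_eq _ _).2 ⟨1, by
    have : (n : ℤ) = r + 1 := by exact_mod_cast hrn.symm
    rw [this]
    ring⟩
  have hu : M.ve (x' a) (y' (a + r)) := (hc.curve.ve _ _).2 (Or.inr hper.symm)
  have hw : M.ve (x' (a + r)) (y' (a + r)) := (hc.curve.ve _ _).2 (Or.inl rfl)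
  have hx0 : x' a = x i₀ := by simpa using hx 0 (Nat.zero_le _)
  have hxr := hx r (le_refl _)
  have hneq : i₀ ≠ i₀ + κ * r := by
    intro h
    have : κ * (r : ℤ) = 0 := by linarith
    rcases hκ with rfl | rfl <;> omega
  -- a line edge in `t` and `g`
  obtain ⟨l, hlt', hlg⟩ : ∃ l, M.ef (y l) t ∧ M.ef (y l) g := by
    have a1 : M.vf (x i₀) t := ⟨_, hx0 ▸ hu, het⟩
    have a2 : M.vf (x i₀) g := ⟨_, hx0 ▸ hu, heg⟩
    have a3 : M.vf (x (i₀ + κ * r)) t := ⟨_, hxr ▸ hw, het⟩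
    have a4 : M.vf (x (i₀ + κ * r)) g := ⟨_, hxr ▸ hw, heg⟩
    rcases lt_or_gt_of_ne hneq with h5 | h5
    · exact ⟨i₀, hfill t ht _ _ h5 a1 a3, hfill g hgD _ _ h5 a2 a4⟩
    · exact ⟨_, hfill t ht _ _ h5 a3 a1, hfill g hgD _ _ h5 a4 a2⟩
  obtain ⟨⟨d, hd, hed⟩, -⟩ := (hfr _).1 ((hC.mem _).2 ⟨l, rfl⟩)
  obtain ⟨f1, f2, -, h6⟩ := M.edge_faces (y l)
  have b1 := (h6 t).1 hlt'
  have b2 := (h6 g).1 hlg
  have b3 := (h6 d).1 hed
  have c1 : d ≠ t := fun h => ht (h ▸ hd)
  have c2 : d ≠ g := fun h => hgD (h ▸ hd)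
  rcases b1 with rfl | rfl <;> rcases b2 with rfl | rfl <;> rcases b3 with rfl | rfl <;>
    simp_all

end Pool.Agent.CT
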