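import Pool.Agent.CT.FDefs

set_option autoImplicit false

/-! # F3: the doubly infinite sequence of cuts -/

namespace Pool.Agent.CT

open Set

section

variable {V E F G : Type} [Group G] [MulAction G V] [MulAction G E] [MulAction G F]

theorem fSeq_vf (M : PlaneMap V E F) (Φ : Frieze M G) (g : G) (v : V) (f : F)
    (h : M.vf v f) : M.vf (g • v) (g • f) := by
  obtain ⟨e, h1, h2⟩ := h
  exact ⟨g • e, Φ.act.ve g v e h1, Φ.act.ef g e f h2⟩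

theorem fSeq_touch (M : PlaneMap V E F) (Φ : Frieze M G) (g : G) (f t : F)
    (h : FTouch M.toInc f t) : FTouch M.toInc (g • f) (g • t) := by
  obtain ⟨v, h1, h2⟩ := h
  exact ⟨g • v, fSeq_vf M Φ g v f h1, fSeq_vf M Φ g v t h2⟩

theorem fSeq_touch_symm {M : Inc V E F} {f t : F} (h : FTouch M f t) : FTouch M t f := by
  obtain ⟨v, h1, h2⟩ := h
  exact ⟨v, h2, h1⟩

theorem fSeq_touch_refl (M : PolyMap V E F) (f : F) : FTouch M.toInc f f := by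
  have h : 0 < {e | M.ef e f}.ncard := lt_of_lt_of_le (by norm_num) (M.face_card f)
  obtain ⟨e, he⟩ := Set.nonempty_of_ncard_ne_zero h.ne'
  obtain ⟨u, v, _, hw⟩ := M.edge_verts e
  exact ⟨u, ⟨e, (hw u).2 (Or.inl rfl), he⟩, ⟨e, (hw u).2 (Or.inl rfl), he⟩⟩

theorem fSeq_adj (M : PlaneMap V E F) (Φ : Frieze M G) (g : G) (f t : F)
    (h : M.fadj.Adj f t) : M.fadj.Adj (g • f) (g • t) := by
  obtain ⟨hne, e, h1, h2⟩ := h
  exact ⟨fun h => hne (MulAction.injective g h), g • e, Φ.act.ef g e f h1, Φ.act.ef g e t h2⟩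

/-- Translates of connected sets are connected. -/
theorem fSeq_conn (M : PlaneMap V E F) (Φ : Frieze M G) (g : G) (A B : Set F)
    (hA : ConnIn M.fadj A) (hB : ∀ f, f ∈ B ↔ g⁻¹ • f ∈ A) : ConnIn M.fadj B := by
  intro x hx y hy
  have h := hA _ ((hB x).1 hx) _ ((hB y).1 hy)
  have h' := ReachIn.map (H := M.fadj) (W := B) (f := fun f => g • f) h (by
    intro a ha b hb hab
    refine ReachIn.single (fSeq_adj M Φ g a b hab) ?_ ?_
    · rw [hB]; simpa using ha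
    · rw [hB]; simpa using hb)
  simpa using h'

theorem fSeq_del_inv (M : PlaneMap V E F) (Φ : Frieze M G) (g : G) (h : Φ.del g = -1) :
    Φ.del g⁻¹ = -1 := by
  have h1 : Φ.del (g * g⁻¹) = Φ.del g * Φ.del g⁻¹ := Φ.del_mul _ _
  have h2 : Φ.del (1 * 1) = Φ.del 1 * Φ.del 1 := Φ.del_mul _ _
  rw [mul_inv_cancel, h] at h1
  rw [mul_one] at h2
  rcases Φ.del_one 1 with h3 | h3
  · rw [h3] at h1; linarith
  · rw [h3] at h2; norm_num at h2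

theorem fSeq_del_inv1 (M : PlaneMap V E F) (Φ : Frieze M G) (g : G) (h : Φ.del g = 1) :
    Φ.del g⁻¹ = 1 := by
  rcases Φ.del_one g⁻¹ with h1 | h1
  · exact h1
  · have := fSeq_del_inv M Φ _ h1
    rw [inv_inv, h] at this
    norm_num at this

/-- The image of a cut under an element exchanging the ends, complemented, is a cut. -/
theorem fSeq_swap (M : PlaneMap V E F) (Φ : Frieze M G) (g : G) (hg : Φ.del g = -1) (A B : Set F)
    (hA : Φ.IsCut A) (hB : ∀ f, f ∈ B ↔ g⁻¹ • f ∉ A) : Φ.IsCut B := by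
  have hg' := fSeq_del_inv M Φ g hg
  have hB' : ∀ f, f ∈ B ↔ g⁻¹ • f ∈ Aᶜ := hB
  have hBc : ∀ f, f ∈ Bᶜ ↔ g⁻¹ • f ∈ A := by
    intro f
    rw [mem_compl_iff, hB, not_not]
  have hsingle : ∀ f t : F, f ∉ ({t} : Set F) ↔ g⁻¹ • f ∉ ({g⁻¹ • t} : Set F) := by
    intro f t
    rw [mem_singleton_iff, mem_singleton_iff]
    exact not_congr ⟨fun h => by rw [h], fun h => MulAction.injective _ h⟩
  refine ⟨fSeq_conn M Φ g _ _ hA.conn' hB', fSeq_conn M Φ g _ _ hA.conn hBc, ?_, ?_, ?_, ?_, ?_⟩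
  · intro t
    refine fSeq_conn M Φ g _ _ (hA.tight' (g⁻¹ • t)) (fun f => ?_)
    rw [mem_sdiff, mem_sdiff, hB', hsingle f t]
  · intro t
    refine fSeq_conn M Φ g _ _ (hA.tight (g⁻¹ • t)) (fun f => ?_)
    rw [mem_sdiff, mem_sdiff, hBc, hsingle f t]
  · intro h f hh hf
    rw [hB] at hf ⊢
    intro hcon
    apply hf
    have h1 : Φ.del (g⁻¹ * h⁻¹ * g) = 1 := by
      rw [Φ.del_mul, Φ.del_mul, hg', hg, fSeq_del_inv1 M Φ h hh]; norm_num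
    have := hA.inv _ _ h1 hcon
    simpa [mul_smul] using this
  · obtain ⟨j, hj⟩ := hA.lo
    exact ⟨j, fun f hf => (hB' f).2 (hj (Φ.up_swap _ _ _ hg' hf))⟩
  · obtain ⟨j, hj⟩ := hA.up
    exact ⟨j, fun f hf => (hBc f).2 (hj (Φ.lo_swap _ _ _ hg' hf))⟩

/-- One step upwards. -/
theorem fSeq_stepU (h1 : Stmt_FFar) (h2 : Stmt_FCut) (M : PlaneMap V E F) (Φ : Frieze M G)
    (B : Set F) (hB : Φ.IsCut B) (n : ℕ) : ∃ A, Φ.IsCut A ∧ A ⊆ B ∧ A ⊆ Φ.Up n ∧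
      ∀ f ∈ A, ∀ g, g ∉ B → ∀ t, FTouch M.toInc f t → ¬ FTouch M.toInc t g := by
  obtain ⟨j, hj⟩ := hB.up
  obtain ⟨j', hj'⟩ := (h1 V E F G M Φ j).1
  obtain ⟨j'', hj''⟩ := (h1 V E F G M Φ j').1
  obtain ⟨A, hA, hA'⟩ := (h2 V E F G M Φ (max j'' (max j n))).1
  have a1 : A ⊆ Φ.Up j'' := fun f hf => Φ.up_end.anti (le_max_left _ _) (hA' hf)
  have a2 : A ⊆ Φ.Up j := fun f hf =>
    Φ.up_end.anti (le_trans (le_max_left _ _) (le_max_right _ _)) (hA' hf)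
  have a3 : A ⊆ Φ.Up n := fun f hf =>
    Φ.up_end.anti (le_trans (le_max_right _ _) (le_max_right _ _)) (hA' hf)
  refine ⟨A, hA, fun f hf => hj (a2 hf), a3, ?_⟩
  intro f hf g hg t hft htg
  have ht : t ∈ Φ.Up j' := by
    by_contra hcon
    exact hj'' f (a1 hf) t hcon hft
  have hg' : g ∈ Φ.Up j := by
    by_contra hcon
    exact hj' t ht g hcon htg
  exact hg (hj hg')

/-- One step downwards. -/
theorem fSeq_stepL (h1 : Stmt_FFar) (h2 : Stmt_FCut) (M : PlaneMap V E F) (Φ : Frieze M G)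
    (B : Set F) (hB : Φ.IsCut B) (n : ℕ) : ∃ A, Φ.IsCut A ∧ B ⊆ A ∧ Aᶜ ⊆ Φ.Lo n ∧
      ∀ f ∈ B, ∀ g, g ∉ A → ∀ t, FTouch M.toInc f t → ¬ FTouch M.toInc t g := by
  obtain ⟨j, hj⟩ := hB.lo
  obtain ⟨j', hj'⟩ := (h1 V E F G M Φ j).2.1
  obtain ⟨j'', hj''⟩ := (h1 V E F G M Φ j').2.1
  obtain ⟨A, hA, hA'⟩ := (h2 V E F G M Φ (max j'' (max j n))).2
  have a1 : Aᶜ ⊆ Φ.Lo j'' := fun f hf => Φ.lo_end.anti (le_max_left _ _) (hA' hf)
  have a2 : Aᶜ ⊆ Φ.Lo j := fun f hf =>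
    Φ.lo_end.anti (le_trans (le_max_left _ _) (le_max_right _ _)) (hA' hf)
  have a3 : Aᶜ ⊆ Φ.Lo n := fun f hf =>
    Φ.lo_end.anti (le_trans (le_max_right _ _) (le_max_right _ _)) (hA' hf)
  refine ⟨A, hA, ?_, a3, ?_⟩
  · intro f hf
    by_contra hcon
    exact hj (a2 hcon) hf
  intro f hf g hg t hft htg
  have ht : t ∈ Φ.Lo j' := by
    by_contra hcon
    exact hj'' g (a1 hg) t hcon (fSeq_touch_symm htg)
  have hf' : f ∈ Φ.Lo j := by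
    by_contra hcon
    exact hj' t ht f hcon (fSeq_touch_symm hft)
  exact hj hf' hf

/-- The upper half of the sequence. -/
theorem fSeq_seqU (h1 : Stmt_FFar) (h2 : Stmt_FCut) (M : PlaneMap V E F) (Φ : Frieze M G)
    (k : ℕ) : ∃ A : ℕ → Set F, (∀ i, Φ.IsCut (A i)) ∧ A 0 ⊆ Φ.Up k ∧ (∀ i, A (i + 1) ⊆ A i) ∧
      (∀ i, ∀ f ∈ A (i + 1), ∀ g, g ∉ A i → ∀ t, FTouch M.toInc f t → ¬ FTouch M.toInc t g) ∧
      ∀ i, A i ⊆ Φ.Up i := by
  obtain ⟨A0, hA0, hA0'⟩ := (h2 V E F G M Φ k).1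
  choose! S hS1 hS2 hS3 hS4 using fSeq_stepU h1 h2 M Φ
  let A : ℕ → Set F := fun i => Nat.rec A0 (fun i B => S B (i + 1)) i
  have hcut : ∀ i, Φ.IsCut (A i) := by
    intro i
    induction i with
    | zero => exact hA0
    | succ i ih => exact hS1 (A i) ih (i + 1)
  have hA00 : A 0 ⊆ Φ.Up k := hA0'
  refine ⟨A, hcut, hA00, fun i => hS2 (A i) (hcut i) (i + 1), fun i => hS4 (A i) (hcut i) (i + 1),
    ?_⟩
  intro i
  cases i with
  | zero => exact fun f hf => Φ.up_end.anti (Nat.zero_le k) (hA00 hf)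
  | succ i => exact hS3 (A i) (hcut i) (i + 1)

/-- The lower half of the sequence. -/
theorem fSeq_seqL (h1 : Stmt_FFar) (h2 : Stmt_FCut) (M : PlaneMap V E F) (Φ : Frieze M G)
    (k : ℕ) : ∃ A : ℕ → Set F, (∀ i, Φ.IsCut (A i)) ∧ (A 0)ᶜ ⊆ Φ.Lo k ∧ (∀ i, A i ⊆ A (i + 1)) ∧
      (∀ i, ∀ f ∈ A i, ∀ g, g ∉ A (i + 1) → ∀ t, FTouch M.toInc f t → ¬ FTouch M.toInc t g) ∧
      ∀ i, (A i)ᶜ ⊆ Φ.Lo i := by
  obtain ⟨A0, hA0, hA0'⟩ := (h2 V E F G M Φ k).2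
  choose! S hS1 hS2 hS3 hS4 using fSeq_stepL h1 h2 M Φ
  let A : ℕ → Set F := fun i => Nat.rec A0 (fun i B => S B (i + 1)) i
  have hcut : ∀ i, Φ.IsCut (A i) := by
    intro i
    induction i with
    | zero => exact hA0
    | succ i ih => exact hS1 (A i) ih (i + 1)
  have hA00 : (A 0)ᶜ ⊆ Φ.Lo k := hA0'
  refine ⟨A, hcut, hA00, fun i => hS2 (A i) (hcut i) (i + 1), fun i => hS4 (A i) (hcut i) (i + 1),
    ?_⟩
  intro i
  cases i with
  | zero => exact fun f hf => Φ.lo_end.anti (Nat.zero_le k) (hA00 hf)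
  | succ i => exact hS3 (A i) (hcut i) (i + 1)

/-- Both halves. -/
theorem fSeq_both (h1 : Stmt_FFar) (h2 : Stmt_FCut) (M : PlaneMap V E F) (Φ : Frieze M G)
    (k : ℕ) : ∃ A C : ℕ → Set F, ((∀ i, Φ.IsCut (A i)) ∧ A 0 ⊆ Φ.Up k ∧ (∀ i, A (i + 1) ⊆ A i) ∧
      (∀ i, ∀ f ∈ A (i + 1), ∀ g, g ∉ A i → ∀ t, FTouch M.toInc f t → ¬ FTouch M.toInc t g) ∧
      ∀ i, A i ⊆ Φ.Up i) ∧
      ((∀ i, Φ.IsCut (C i)) ∧ (C 0)ᶜ ⊆ Φ.Lo k ∧ (∀ i, C i ⊆ C (i + 1)) ∧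
      (∀ i, ∀ f ∈ C i, ∀ g, g ∉ C (i + 1) → ∀ t, FTouch M.toInc f t → ¬ FTouch M.toInc t g) ∧
      ∀ i, (C i)ᶜ ⊆ Φ.Lo i) ∧
      ∀ g i f, Φ.del g = -1 → (f ∈ A i ↔ g • f ∉ C i) := by
  obtain ⟨A, hA1, hA2, hA3, hA4, hA5⟩ := fSeq_seqU h1 h2 M Φ k
  by_cases hg : ∃ g₀, Φ.del g₀ = -1
  · obtain ⟨g₀, hg₀⟩ := hg
    have hg' := fSeq_del_inv M Φ g₀ hg₀
    refine ⟨A, fun i => {f | g₀⁻¹ • f ∉ A i}, ⟨hA1, hA2, hA3, hA4, hA5⟩, ⟨?_, ?_, ?_, ?_, ?_⟩, ?_⟩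
    · exact fun i => fSeq_swap M Φ g₀ hg₀ (A i) _ (hA1 i) (fun f => Iff.rfl)
    · intro f hf
      have h : g₀⁻¹ • f ∈ A 0 := by simpa using hf
      have h' := Φ.up_swap g₀ _ _ hg₀ (hA2 h)
      simpa using h'
    · intro i f hf hcon
      exact hf (hA3 i hcon)
    · intro i f hf g hgi t hft htg
      have hgi' : g₀⁻¹ • g ∈ A (i + 1) := by simpa using hgi
      exact hA4 i _ hgi' _ hf _ (fSeq_touch M Φ g₀⁻¹ _ _ (fSeq_touch_symm htg))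
        (fSeq_touch M Φ g₀⁻¹ _ _ (fSeq_touch_symm hft))
    · intro i f hf
      have h : g₀⁻¹ • f ∈ A i := by simpa using hf
      have h' := Φ.up_swap g₀ _ _ hg₀ (hA5 i h)
      simpa using h'
    · intro g i f hg
      have hdel : Φ.del (g₀⁻¹ * g) = 1 := by rw [Φ.del_mul, hg', hg]; norm_num
      have hdel' : Φ.del (g₀⁻¹ * g)⁻¹ = 1 := fSeq_del_inv1 M Φ _ hdel
      have : (g • f ∉ {f | g₀⁻¹ • f ∉ A i}) ↔ g₀⁻¹ • (g • f) ∈ A i := by simp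
      rw [this, ← mul_smul]
      constructor
      · intro h; exact (hA1 i).inv _ _ hdel h
      · intro h
        have := (hA1 i).inv _ _ hdel' h
        rwa [inv_smul_smul] at this
  · obtain ⟨C, hC⟩ := fSeq_seqL h1 h2 M Φ k
    exact ⟨A, C, ⟨hA1, hA2, hA3, hA4, hA5⟩, hC, fun g i f h => absurd ⟨g, h⟩ hg⟩

end

theorem fSeq (h1 : Stmt_FFar) (h2 : Stmt_FCut) : Stmt_FSeq := by
  intro V E F G _ _ _ _ M Φ
  obtain ⟨k, hk⟩ := (h1 V E F G M Φ 0).2.2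
  obtain ⟨A, C, ⟨hA1, hA2, hA3, hA4, hA5⟩, ⟨hC1, hC2, hC3, hC4, hC5⟩, hsw⟩ :=
    fSeq_both h1 h2 M Φ k
  let U : ℤ → Set F := fun m => match m with
    | Int.ofNat i => A i
    | Int.negSucc i => C i
  have hUA : ∀ i : ℕ, U (Int.ofNat i) = A i := fun i => rfl
  have hUC : ∀ i : ℕ, U (Int.negSucc i) = C i := fun i => rfl
  have s1 : ∀ i : ℕ, Int.ofNat i + 1 = Int.ofNat (i + 1) := fun i => rfl
  have s2 : Int.negSucc 0 + 1 = Int.ofNat 0 := rfl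
  have s3 : ∀ i : ℕ, Int.negSucc (i + 1) + 1 = Int.negSucc i := fun i => by omega
  have s4 : ∀ i : ℕ, -1 - Int.ofNat i = Int.negSucc i := fun i => by
    have : Int.ofNat i = (i : ℤ) := rfl
    omega
  have s5 : ∀ i : ℕ, -1 - Int.negSucc i = Int.ofNat i := fun i => by
    have : Int.ofNat i = (i : ℤ) := rfl
    omega
  have hcut : ∀ m, Φ.IsCut (U m) := by
    intro m
    match m with
    | Int.ofNat i => exact hA1 i
    | Int.negSucc i => exact hC1 i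
  refine ⟨U, hcut, ?_, ?_, ?_, ?_, ?_, ?_⟩
  · intro m
    match m with
    | Int.ofNat i => rw [s1, hUA, hUA]; exact hA3 i
    | Int.negSucc 0 =>
      rw [s2, hUA, hUC]
      intro f hf
      by_contra hcon
      exact hk f (hA2 hf) f (hC2 hcon) f (fSeq_touch_refl M.toPolyMap f)
        (fSeq_touch_refl M.toPolyMap f)
    | Int.negSucc (i + 1) => rw [s3, hUC, hUC]; exact hC3 i
  · intro m
    match m with
    | Int.ofNat i => rw [s1, hUA, hUA]; exact hA4 i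
    | Int.negSucc 0 =>
      rw [s2, hUA, hUC]
      intro f hf g hg t h3 h4
      exact hk f (hA2 hf) g (hC2 hg) t h3 h4
    | Int.negSucc (i + 1) => rw [s3, hUC, hUC]; exact hC4 i
  · intro f
    obtain ⟨j, hj⟩ := Φ.lo_end.fin f
    refine ⟨Int.negSucc j, ?_⟩
    rw [hUC]
    by_contra hcon
    exact hj (hC5 j hcon)
  · intro f
    obtain ⟨j, hj⟩ := Φ.up_end.fin f
    refine ⟨Int.ofNat j, ?_⟩
    rw [hUA]
    exact fun hcon => hj (hA5 j hcon)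
  · intro g m f hg
    match m with
    | Int.ofNat i => rw [s4, hUA, hUC]; exact hsw g i f hg
    | Int.negSucc i =>
      rw [s5, hUA, hUC]
      have h := hsw g⁻¹ i (g • f) (fSeq_del_inv M Φ g hg)
      rw [inv_smul_smul] at h
      rw [h, not_not]
  · intro m
    obtain ⟨a, ha⟩ := (hcut (m + 1)).up
    obtain ⟨b, hb⟩ := (hcut m).lo
    obtain ⟨W, hW, hW'⟩ := Φ.orb (max a b)
    refine ⟨W, hW, fun f hf hf' => hW' f ?_ ?_⟩
    · exact fun h => hf' (ha (Φ.up_end.anti (le_max_left _ _) h))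
    · exact fun h => hb (Φ.lo_end.anti (le_max_right _ _) h) hf

end Pool.Agent.CT
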