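import Pool.Agent.CT.FDefs

set_option autoImplicit false

/-! # TILE: the faces of a strip tile the strip -/

namespace Pool.Agent.CT

open Set Metric

/-- the normal of `b - a` -/
noncomputable def fTile_nor (a b : ℂ) : ℂ := ⟨-(b.im - a.im), b.re - a.re⟩

theorem fTile_nor_self (a b : ℂ) : dir (fTile_nor a b) b = dir (fTile_nor a b) a := by
  simp only [dir, fTile_nor]
  ring

theorem fTile_nor_cross (a b z : ℂ) :
    dir (fTile_nor a b) z - dir (fTile_nor a b) a = cross a b z := by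
  simp only [dir, fTile_nor, cross]
  ring

theorem fTile_dir_neg (w z : ℂ) : dir (-w) z = -dir w z := by
  simp only [dir, Complex.neg_re, Complex.neg_im]
  ring

section

variable {V E F : Type} {B : Inc V E F} {φ : V → ℂ}

theorem fTile_third {f : F} {n : ℕ} {x : ℤ → V} {y : ℤ → E} (hc : IsFaceCycle B f n x y)
    (u v : V) : ∃ p, B.vf p f ∧ p ≠ u ∧ p ≠ v := by
  have hvf : ∀ i, B.vf (x i) f := fun i =>
    ⟨y i, (hc.curve.ve i _).2 (Or.inl rfl), (hc.curve.mem _).2 ⟨i, rfl⟩⟩
  have h3 := hc.three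
  have hne : ∀ i j : ℤ, 0 < j - i → j - i < 3 → x i ≠ x j := by
    intro i j h1 h2 h
    have h4 := (hc.curve.x_eq _ _).1 h.symm
    have h5 := Int.le_of_dvd h1 h4
    omega
  by_contra hcon
  push Not at hcon
  have a0 := fun h => hcon (x 0) (hvf 0) h
  have a1 := fun h => hcon (x 1) (hvf 1) h
  have a2 := fun h => hcon (x 2) (hvf 2) h
  have n01 := hne 0 1 (by norm_num) (by norm_num)
  have n02 := hne 0 2 (by norm_num) (by norm_num)
  have n12 := hne 1 2 (by norm_num) (by norm_num)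
  by_cases b0 : x 0 = u
  · have c1 : x 1 = v := a1 (fun h => n01 (b0.trans h.symm))
    have c2 : x 2 = v := a2 (fun h => n02 (b0.trans h.symm))
    exact n12 (c1.trans c2.symm)
  · have c0 : x 0 = v := a0 b0
    by_cases b1 : x 1 = u
    · have c2 : x 2 = v := a2 (fun h => n12 (b1.trans h.symm))
      exact n02 (c0.trans c2.symm)
    · exact n01 (c0.trans (a1 b1).symm)

theorem fTile_opp (hB : BlkConcl B φ) (hcyc : ∀ f, ∃ n x y, IsFaceCycle B f n x y) {e : E}
    {f g : F} {u v : V} (hfg : f ≠ g) (hf : B.ef e f) (hg : B.ef e g) (huv : u ≠ v)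
    (hve : ∀ w, B.ve w e ↔ (w = u ∨ w = v)) : Opp B φ e f g := by
  obtain ⟨n, x, y, hc⟩ := hcyc f
  obtain ⟨n', x', y', hc'⟩ := hcyc g
  obtain ⟨p, hp, hpu, hpv⟩ := fTile_third hc u v
  obtain ⟨q, hq, hqu, hqv⟩ := fTile_third hc' u v
  have hu := (hve u).2 (Or.inl rfl)
  have hv := (hve v).2 (Or.inr rfl)
  have hop : ∀ p q, B.vf p f → p ≠ u → p ≠ v → B.vf q g → q ≠ u → q ≠ v →
      cross (φ u) (φ v) (φ p) * cross (φ u) (φ v) (φ q) < 0 :=
    fun p q => hB.opp e f g u v p q hfg hf hg huv hu hv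
  set N := fTile_nor (φ u) (φ v) with hN
  have hcr : ∀ z, dir N z - dir N (φ u) = cross (φ u) (φ v) z := fTile_nor_cross _ _
  have hNv : dir N (φ v) = dir N (φ u) := fTile_nor_self _ _
  have h0 := hop p q hp hpu hpv hq hqu hqv
  have hN0 : N ≠ 0 := by
    intro h
    have h1 := hcr (φ p)
    rw [h] at h1
    have h2 : cross (φ u) (φ v) (φ p) = 0 := by
      rw [← h1]
      simp [dir]
    rw [h2, zero_mul] at h0
    exact lt_irrefl _ h0
  rcases mul_neg_iff.1 h0 with ⟨h1, h2⟩ | ⟨h1, h2⟩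
  · -- `p` on the positive side
    refine ⟨-N, -dir N (φ u), neg_ne_zero.2 hN0, ?_, ?_, ?_⟩
    · intro w hw
      rw [fTile_dir_neg]
      rcases (hve w).1 hw with rfl | rfl
      · rfl
      · rw [hNv]
    · intro w hw
      rw [fTile_dir_neg]
      by_cases a : w = u
      · rw [a]
      by_cases b : w = v
      · rw [b, hNv]
      have h3 := hop w q hw a b hq hqu hqv
      have h4 : 0 < cross (φ u) (φ v) (φ w) := by
        rcases mul_neg_iff.1 h3 with ⟨h4, -⟩ | ⟨-, h4⟩
        · exact h4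
        · linarith
      have := hcr (φ w)
      linarith
    · intro w hw
      rw [fTile_dir_neg]
      by_cases a : w = u
      · rw [a]
      by_cases b : w = v
      · rw [b, hNv]
      have h3 := hop p w hp hpu hpv hw a b
      have h4 : cross (φ u) (φ v) (φ w) < 0 := by
        rcases mul_neg_iff.1 h3 with ⟨-, h4⟩ | ⟨h4, -⟩
        · exact h4
        · linarith
      have := hcr (φ w)
      linarith
  · refine ⟨N, dir N (φ u), hN0, ?_, ?_, ?_⟩
    · intro w hw
      rcases (hve w).1 hw with rfl | rfl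
      · rfl
      · rw [hNv]
    · intro w hw
      by_cases a : w = u
      · rw [a]
      by_cases b : w = v
      · rw [b, hNv]
      have h3 := hop w q hw a b hq hqu hqv
      have h4 : cross (φ u) (φ v) (φ w) < 0 := by
        rcases mul_neg_iff.1 h3 with ⟨-, h4⟩ | ⟨h4, -⟩
        · linarith
        · exact h4
      have := hcr (φ w)
      linarith
    · intro w hw
      by_cases a : w = u
      · rw [a]
      by_cases b : w = v
      · rw [b, hNv]
      have h3 := hop p w hp hpu hpv hw a b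
      have h4 : 0 < cross (φ u) (φ v) (φ w) := by
        rcases mul_neg_iff.1 h3 with ⟨h4, -⟩ | ⟨-, h4⟩
        · linarith
        · exact h4
      have := hcr (φ w)
      linarith

end

/-- the closed strip -/
def fTile_cl (m : ℤ) : Set ℂ := {w | (m : ℝ) + 1 / 2 ≤ w.im ∧ w.im ≤ m + 3 / 2}

/-- the open strip -/
def fTile_op (m : ℤ) : Set ℂ := {w | (m : ℝ) + 1 / 2 < w.im ∧ w.im < m + 3 / 2}

theorem fTile_cl_convex (m : ℤ) : Convex ℝ (fTile_cl m) := by
  have e : fTile_cl m = {w | (m : ℝ) + 1 / 2 ≤ w.im} ∩ {w | w.im ≤ (m : ℝ) + 3 / 2} := rfl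
  rw [e]
  exact (convex_halfSpace_im_ge _).inter (convex_halfSpace_im_le _)

theorem fTile_op_eq (m : ℤ) :
    fTile_op m = {w | (m : ℝ) + 1 / 2 < w.im} ∩ {w | w.im < (m : ℝ) + 3 / 2} := rfl

theorem fTile_op_convex (m : ℤ) : Convex ℝ (fTile_op m) := by
  rw [fTile_op_eq]
  exact (convex_halfSpace_im_gt _).inter (convex_halfSpace_im_lt _)

theorem fTile_op_open (m : ℤ) : IsOpen (fTile_op m) := by
  rw [fTile_op_eq]
  exact (isOpen_lt continuous_const Complex.continuous_im).inter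
    (isOpen_lt Complex.continuous_im continuous_const)

theorem fTile_interior (m : ℤ) : interior (fTile_cl m) ⊆ fTile_op m := by
  have e : fTile_cl m = {w | (m : ℝ) + 1 / 2 ≤ w.im} ∩ {w | w.im ≤ (m : ℝ) + 3 / 2} := rfl
  rw [e, interior_inter, Complex.interior_setOfPred_le_im, Complex.interior_setOfPred_im_le]
  exact fun w hw => hw

section

variable {V E F G : Type} [Group G] [MulAction G V] [MulAction G E] [MulAction G F]
  {M : PlaneMap V E F}

theorem fTile_anti (X : FCtx M G) : Antitone X.U :=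
  antitone_int_of_succ_le fun m => X.seq.anti m

theorem fTile_line_im (X : FCtx M G) (l i : ℤ) : (X.φ (X.L.x l i)).im = l + 1 / 2 := by
  rw [X.harm.line]
  rfl

/-- heights of the vertices of a strip -/
theorem fTile_height (hH : Stmt_FHeight) (hV : Stmt_FVert) (X : FCtx M G) (m : ℤ) (v : V) (f : F)
    (hf : f ∈ X.S m) (hv : M.vf v f) : X.φ v ∈ fTile_cl m := by
  by_cases hi : X.Inner v
  · have := hH V E F G M X m v hi ⟨f, hf, hv⟩
    exact ⟨this.1.le, this.2.le⟩
  · unfold FCtx.Inner at hi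
    push Not at hi
    obtain ⟨l, i, rfl⟩ := hi
    have h4 := (hV V E F G M X.Φ X.U X.seq X.L).2.2.2.1 l i f hv
    have hl1 : m ≤ l := by
      by_contra h
      have : l + 1 ≤ m := by omega
      exact h4.2 (fTile_anti X this hf.1)
    have hl2 : l ≤ m + 1 := by
      by_contra h
      have : m + 1 ≤ l - 1 := by omega
      exact hf.2 (fTile_anti X this h4.1)
    have h5 := fTile_line_im X l i
    have hl1' : (m : ℝ) ≤ l := by exact_mod_cast hl1
    have hl2' : (l : ℝ) ≤ m + 1 := by exact_mod_cast hl2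
    constructor
    · rw [h5]
      linarith
    · rw [h5]
      linarith

end

theorem fTile (hRef : Stmt_FRef) (hFa : Stmt_FFaces) (hCy : Stmt_FCyc) (hPl : Stmt_FPlanar)
    (hHy : Stmt_FHyp) (hLo : Stmt_FLoc) (hHe : Stmt_FHeight) (hVe : Stmt_FVert)
    (hCo : Stmt_Count) (hBl : Stmt_Block) (hFc : Stmt_FaceCycle) : Stmt_FTile := by
  intro V E F G _ _ _ _ _ M X m
  have hfaces := hFa V E F G M X m
  have hcl : ∀ f ∈ X.S m, poly M.toInc X.φ f ⊆ fTile_cl m := by
    intro f hf
    refine convexHull_min ?_ (fTile_cl_convex m)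
    rintro w ⟨v, hv, rfl⟩
    exact fTile_height hHe hVe X m v f hf hv
  obtain ⟨hev, hcyc0⟩ := hCy V E F G M X m
  have hcyc : ∀ t, ∃ n x y, IsFaceCycle (X.blk m) t n x y := by
    intro t
    obtain ⟨n, x, y, hc⟩ := hFc V E F M.toPolyMap t.1
    rcases hcyc0 t n x y hc with ⟨-, x', y', h1, -⟩ |
      ⟨a, r, l, i₀, κ, -, -, -, -, -, -, x', y', h1, -⟩
    · exact ⟨n, x', y', h1⟩
    · exact ⟨_, x', y', h1⟩
  let B : Blk (CV M.toInc (X.S m)ᶜ) (CE M.toInc (X.S m)ᶜ) {f : F // f ∉ (X.S m)ᶜ} :=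
    { toInc := X.blk m
      edge_verts := hev
      cyc := hcyc
      planar := hPl V E F G M X m }
  have hB : BlkConcl (X.blk m) (X.ψ m) :=
    hBl _ _ _ B _ _ (hHy V E F G M X m B rfl)
  obtain ⟨w₀, t₀, hw1, hw2, hw3, hw4⟩ := hRef V E F G M X m
  have key := hCo (CV M.toInc (X.S m)ᶜ) (CE M.toInc (X.S m)ᶜ) {f : F // f ∉ (X.S m)ᶜ}
    (X.blk m) (X.ψ m) (fTile_op m) (fTile_op_open m) (fTile_op_convex m)
    (fun t => (hfaces t).2.1) hev ?_ ?_ w₀ t₀ ⟨hw1, hw2⟩ hw3 hw4
  · obtain ⟨k1, k2⟩ := key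
    refine ⟨?_, ?_, hcl⟩
    · intro w h1 h2
      obtain ⟨t, ht⟩ := k1 w ⟨h1, h2⟩
      refine ⟨t.1, not_not.1 t.2, ?_⟩
      rw [(hfaces t).2.2]
      exact ht
    · intro f hf g hg hfg
      have hf' : f ∉ (X.S m)ᶜ := fun h => h hf
      have hg' : g ∉ (X.S m)ᶜ := fun h => h hg
      have h1 := k2 ⟨f, hf'⟩ ⟨g, hg'⟩ (fun h => hfg (congrArg Subtype.val h))
      rw [← (hfaces ⟨f, hf'⟩).2.2, ← (hfaces ⟨g, hg'⟩).2.2] at h1
      refine h1.mono_left ?_
      intro w hw
      exact ⟨hw, fTile_interior m (interior_mono (hcl f hf) hw)⟩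
  · -- locally finite
    intro w _
    refine ⟨1, one_pos, ?_⟩
    have h1 := (hLo V E F G M X (‖w‖ + 1)).2
    refine (h1.preimage Subtype.val_injective.injOn).subset ?_
    intro t ht
    obtain ⟨z, hz1, hz2⟩ := ht
    refine ⟨z, ?_, ?_⟩
    · rw [(hfaces t).2.2]
      exact hz1
    · rw [mem_closedBall, dist_zero_right]
      rw [mem_closedBall, dist_eq_norm] at hz2
      have : ‖z‖ ≤ ‖z - w‖ + ‖w‖ := by
        have := norm_add_le (z - w) w
        rwa [sub_add_cancel] at this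
      linarith
  · -- edges meeting the open strip
    intro e he
    rcases e with e | t
    · obtain ⟨e, heD⟩ := e
      obtain ⟨f, g, hfg, h1⟩ := M.edge_faces e
      have hf : M.ef e f := (h1 f).2 (Or.inl rfl)
      have hg : M.ef e g := (h1 g).2 (Or.inr rfl)
      obtain ⟨u, v, huv, huvw⟩ := hev (Sum.inl ⟨e, heD⟩)
      have hfg' : (⟨f, heD f hf⟩ : {f : F // f ∉ (X.S m)ᶜ}) ≠ ⟨g, heD g hg⟩ :=
        fun h => hfg (congrArg Subtype.val h)
      refine ⟨⟨f, heD f hf⟩, ⟨g, heD g hg⟩, hfg', ?_, ?_⟩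
      · intro h
        show M.ef e h.1 ↔ _
        rw [h1]
        constructor
        · rintro (h2 | h2)
          · exact Or.inl (Subtype.ext h2)
          · exact Or.inr (Subtype.ext h2)
        · rintro (h2 | h2)
          · exact Or.inl (congrArg Subtype.val h2)
          · exact Or.inr (congrArg Subtype.val h2)
      · exact fTile_opp hB hcyc hfg' hf hg huv huvw
    · exfalso
      obtain ⟨t, htD, e, het, d, hd, hed⟩ := t
      obtain ⟨n, x, y, hc⟩ := hFc V E F M.toPolyMap t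
      have hlev : ∃ l : ℤ, (l = m ∨ l = m + 1) ∧ ∀ v : V, M.vf v t →
          Touch M.toInc (X.S m)ᶜ v → (X.φ v).im = l + 1 / 2 := by
        rcases hcyc0 ⟨t, htD⟩ n x y hc with ⟨h1, -⟩ |
          ⟨a, r, l, i₀, κ, hl, -, -, -, hx, htou, -⟩
        · exfalso
          obtain ⟨i, rfl⟩ := (hc.curve.mem e).1 het
          exact h1 i ⟨d, hd, hed⟩
        · refine ⟨l, hl, ?_⟩
          intro v hv hvt
          obtain ⟨e', h2, h3⟩ := hv
          obtain ⟨i, rfl⟩ := (hc.curve.mem e').1 h3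
          obtain ⟨j, rfl⟩ : ∃ j, v = x j := by
            rcases (hc.curve.ve i v).1 h2 with h4 | h4
            · exact ⟨i, h4⟩
            · exact ⟨i + 1, h4⟩
          obtain ⟨k, hk, hd⟩ := (htou j).1 hvt
          rw [(hc.curve.x_eq _ _).2 hd, hx k hk]
          exact fTile_line_im X _ _
      obtain ⟨l, hl, hlev⟩ := hlev
      obtain ⟨z, hz1, hz2⟩ := he
      have hsub : seg (X.blk m) (X.ψ m) (Sum.inr ⟨t, htD, e, het, d, hd, hed⟩) ⊆
          {w | w.im = (l : ℝ) + 1 / 2} := by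
        refine convexHull_min ?_ ?_
        · rintro w ⟨v, hv, rfl⟩
          exact hlev v.1 hv.1 hv.2
        · intro a ha b hb s s' hs hs' hss
          have e1 : (s • a + s' • b).im = s * a.im + s' * b.im := by simp
          have ha' : a.im = (l : ℝ) + 1 / 2 := ha
          have hb' : b.im = (l : ℝ) + 1 / 2 := hb
          show (s • a + s' • b).im = _
          rw [e1, ha', hb', ← add_mul, hss, one_mul]
      have hz3 : z.im = (l : ℝ) + 1 / 2 := hsub hz1
      have hz4 : (m : ℝ) + 1 / 2 < z.im := hz2.1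
      have hz5 : z.im < (m : ℝ) + 3 / 2 := hz2.2
      rcases hl with rfl | rfl
      · rw [hz3] at hz4
        exact lt_irrefl _ hz4
      · rw [hz3] at hz5
        push_cast at hz5
        linarith

end Pool.Agent.CT
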