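import Pool.Agent.CT.FDefs

set_option autoImplicit false

/-! # F14a: upper level sets of the strip block, non-vertical functionals -/

namespace Pool.Agent.CT

open Set Metric

section abstract

/-- Adjacency weights of a graph. -/
noncomputable def fUp1_wt {α : Type} (H : SimpleGraph α) (v u : α) : ℝ := by
  classical exact if H.Adj v u then 1 else 0

variable {α : Type} {H : SimpleGraph α} {T : Equiv.Perm α} {f : α → ℝ} {κ : ℝ}

theorem fUp1_wt_of {v u : α} (h : H.Adj v u) : fUp1_wt H v u = 1 := by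
  unfold fUp1_wt; rw [if_pos h]

theorem fUp1_wt_not {v u : α} (h : ¬ H.Adj v u) : fUp1_wt H v u = 0 := by
  unfold fUp1_wt; rw [if_neg h]

theorem fUp1_wt_pos {v u : α} : 0 < fUp1_wt H v u ↔ H.Adj v u := by
  by_cases h : H.Adj v u
  · simp [fUp1_wt_of h, h]
  · simp [fUp1_wt_not h, h]

theorem fUp1_inv (S : Equiv.Perm α) (v : α) : S (S⁻¹ v) = v := S.apply_symm_apply v

theorem fUp1_adj (hT : ∀ u v, H.Adj (T u) (T v) ↔ H.Adj u v) (n : ℤ) :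
    ∀ u v, H.Adj ((T ^ n) u) ((T ^ n) v) ↔ H.Adj u v := by
  induction n using Int.induction_on with
  | zero => intro u v; simp
  | succ n ih =>
    intro u v
    rw [zpow_add_one, Equiv.Perm.mul_apply, Equiv.Perm.mul_apply, ih, hT]
  | pred n ih =>
    intro u v
    rw [zpow_sub_one, Equiv.Perm.mul_apply, Equiv.Perm.mul_apply, ih, ← hT,
      fUp1_inv, fUp1_inv]

theorem fUp1_val (hf : ∀ v, f (T v) = f v + κ) (n : ℤ) : ∀ v, f ((T ^ n) v) = f v + n * κ := by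
  induction n using Int.induction_on with
  | zero => intro v; simp
  | succ n ih =>
    intro v
    rw [zpow_add_one, Equiv.Perm.mul_apply, ih, hf]
    push_cast
    ring
  | pred n ih =>
    intro v
    rw [zpow_sub_one, Equiv.Perm.mul_apply, ih]
    have := hf (T⁻¹ v)
    rw [fUp1_inv] at this
    push_cast
    linarith

theorem fUp1_img {R : Set α} {S : Equiv.Perm α} (hS : ∀ u v, H.Adj (S u) (S v) ↔ H.Adj u v)
    (hR : ConnIn H R) : ConnIn H (S '' R) := by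
  rintro _ ⟨a, ha, rfl⟩ _ ⟨b, hb, rfl⟩
  exact ReachIn.map (hR a ha b hb) fun x hx y hy hxy =>
    ReachIn.single ((hS x y).2 hxy) ⟨x, hx, rfl⟩ ⟨y, hy, rfl⟩

theorem fUp1_pathset {a b : α} (h : ReachIn H univ a b) :
    ∃ P : Set α, P.Finite ∧ a ∈ P ∧ b ∈ P ∧ ConnIn H P := by
  obtain ⟨n, p, hp0, hpn, hadj, _⟩ := h.exists_path (mem_univ _)
  refine ⟨p '' {i | i ≤ n}, (Set.finite_le_nat n).image p, ⟨0, Nat.zero_le _, hp0⟩,
    ⟨n, le_refl n, hpn⟩, ?_⟩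
  rintro _ ⟨i, hi, rfl⟩ _ ⟨j, hj, rfl⟩
  exact ReachIn.of_path (Z := p '' {i | i ≤ n}) hadj (fun k hk => ⟨k, hk, rfl⟩) hi hj

theorem fUp1_finconn (hconn : ConnIn H univ) (a : α) {S : Set α} (hS : S.Finite) :
    ∃ R : Set α, R.Finite ∧ S ⊆ R ∧ a ∈ R ∧ ConnIn H R := by
  have hP : ∀ s, ∃ P : Set α, P.Finite ∧ a ∈ P ∧ s ∈ P ∧ ConnIn H P := fun s =>
    fUp1_pathset (hconn a (mem_univ _) s (mem_univ _))
  choose P h1 h2 h3 h4 using hP
  refine ⟨{a} ∪ ⋃ s ∈ S, P s, (Set.finite_singleton a).union (hS.biUnion fun s _ => h1 s), ?_,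
    Or.inl rfl, ?_⟩
  · intro s hs
    exact Or.inr (mem_biUnion hs (h3 s))
  · refine ConnIn.of_base a ?_
    rintro b (hb | hb)
    · rw [mem_singleton_iff] at hb
      rw [hb]
      exact ReachIn.refl _
    · obtain ⟨s, hs, hb⟩ := mem_iUnion₂.1 hb
      exact (h4 s a (h2 s) b hb).mono
        ((subset_biUnion_of_mem (u := P) hs).trans subset_union_right)

/-- Two points of an upper level set are connected if both can be joined to arbitrarily high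
points. -/
theorem fUp1_connect (hT : ∀ u v, H.Adj (T u) (T v) ↔ H.Adj u v) (hconn : ConnIn H univ)
    (hκ : 0 < κ) (hf : ∀ v, f (T v) = f v + κ) {R0 : Set α} (hR0 : R0.Finite)
    (horb : ∀ v, ∃ n : ℤ, ∃ r ∈ R0, v = (T ^ n) r) (c₀ : ℝ)
    (hclimb : ∀ v, c₀ < f v → ∀ m₀ : ℝ, ∃ b, m₀ < f b ∧ ReachIn H {x | c₀ < f x} v b) :
    ConnIn H {x | c₀ < f x} := by
  intro a ha b hb
  obtain ⟨R, hRfin, hRs, haR, hRc⟩ := fUp1_finconn hconn a (hR0.union (Set.finite_singleton (T a)))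
  have hTa : T a ∈ R := hRs (Or.inr rfl)
  obtain ⟨lo, hlo⟩ := (hRfin.image f).bddBelow
  obtain ⟨hi, hhi⟩ := (hRfin.image f).bddAbove
  have hlo' : ∀ r ∈ R, lo ≤ f r := fun r hr => hlo ⟨r, hr, rfl⟩
  have hhi' : ∀ r ∈ R, f r ≤ hi := fun r hr => hhi ⟨r, hr, rfl⟩
  obtain ⟨N, hN⟩ : ∃ N : ℤ, c₀ < lo + N * κ := by
    obtain ⟨n, hn⟩ := exists_nat_gt ((c₀ - lo) / κ)
    refine ⟨n, ?_⟩
    rw [div_lt_iff₀ hκ] at hn
    push_cast
    linarith
  let K : Set α := {x | ∃ n : ℤ, N ≤ n ∧ x ∈ (T ^ n) '' R}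
  have hKsub : K ⊆ {x | c₀ < f x} := by
    rintro _ ⟨n, hn, r, hr, rfl⟩
    show c₀ < f ((T ^ n) r)
    rw [fUp1_val hf]
    have h1 : (N : ℝ) * κ ≤ n * κ := mul_le_mul_of_nonneg_right (by exact_mod_cast hn) hκ.le
    have h2 := hlo' r hr
    linarith
  have hpiece : ∀ n : ℤ, N ≤ n → ConnIn H ((T ^ n) '' R) ∧ (T ^ n) '' R ⊆ K := fun n hn =>
    ⟨fUp1_img (fUp1_adj hT n) hRc, fun x hx => ⟨n, hn, hx⟩⟩
  have hbase : ∀ n : ℤ, N ≤ n → ReachIn H K ((T ^ N) a) ((T ^ n) a) := by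
    intro n hn
    induction n, hn using Int.leInduction with
    | base => exact ReachIn.refl _
    | succ n hn ih =>
      refine ih.trans ?_
      have h1 : (T ^ (n + 1)) a ∈ (T ^ n) '' R := ⟨T a, hTa, by
        rw [zpow_add_one, Equiv.Perm.mul_apply]⟩
      exact ((hpiece n hn).1 _ ⟨a, haR, rfl⟩ _ h1).mono (hpiece n hn).2
  have hKc : ConnIn H K := by
    refine ConnIn.of_base ((T ^ N) a) ?_
    rintro x ⟨n, hn, hx⟩
    exact (hbase n hn).trans (((hpiece n hn).1 _ ⟨a, haR, rfl⟩ _ hx).mono (hpiece n hn).2)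
  have hhigh : ∀ v, hi + N * κ < f v → v ∈ K := by
    intro v hv
    obtain ⟨n, r, hr, rfl⟩ := horb v
    refine ⟨n, ?_, r, hRs (Or.inl hr), rfl⟩
    rw [fUp1_val hf] at hv
    have h1 := hhi' r (hRs (Or.inl hr))
    have h2 : (N : ℝ) * κ < n * κ := by linarith
    have h3 : (N : ℝ) < n := lt_of_mul_lt_mul_right h2 hκ.le
    exact_mod_cast h3.le
  obtain ⟨a', ha', hra⟩ := hclimb a ha (hi + N * κ)
  obtain ⟨b', hb', hrb⟩ := hclimb b hb (hi + N * κ)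
  exact (hra.trans ((hKc a' (hhigh a' ha') b' (hhigh b' hb')).mono hKsub)).trans hrb.symm

theorem fUp1_deg (hT : ∀ u v, H.Adj (T u) (T v) ↔ H.Adj u v) (n : ℤ) (v : α) :
    ∑ᶠ t, fUp1_wt H ((T ^ n) v) t = ∑ᶠ t, fUp1_wt H v t := by
  rw [← finsum_comp_equiv (T ^ n)]
  refine finsum_congr fun t => ?_
  by_cases h : H.Adj v t
  · rw [fUp1_wt_of h, fUp1_wt_of ((fUp1_adj hT n v t).2 h)]
  · rw [fUp1_wt_not h, fUp1_wt_not (fun h' => h ((fUp1_adj hT n v t).1 h'))]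

/-- Climbing. -/
theorem fUp1_climb (hU : Stmt_UpSet) (hfin : ∀ v, {u | H.Adj v u}.Finite)
    (hT : ∀ u v, H.Adj (T u) (T v) ↔ H.Adj u v) (hconn : ConnIn H univ)
    (hκ : 0 < κ) (hf : ∀ v, f (T v) = f v + κ) {R0 : Set α} (hR0 : R0.Finite)
    (horb : ∀ v, ∃ n : ℤ, ∃ r ∈ R0, v = (T ^ n) r) {I : Set α}
    (hharm : ∀ v ∈ I, Harm (fUp1_wt H) f v) {δ : ℝ} (hδ : 0 < δ)
    (hbd : ∀ v, v ∉ I → ∃ u, u ∉ I ∧ H.Adj v u ∧ f v + δ ≤ f u) (c₀ : ℝ) :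
    ∀ v, c₀ < f v → ∀ m₀ : ℝ, ∃ b, m₀ < f b ∧ ReachIn H {x | c₀ < f x} v b := by
  intro v₀ hv₀ m₀
  have hnet : Net (fUp1_wt H) := by
    refine ⟨fun v => (hfin v).subset fun u hu => ?_, fun v u => ?_⟩
    · by_contra h
      exact hu (fUp1_wt_not h)
    · by_cases h : H.Adj v u
      · rw [fUp1_wt_of h]; exact zero_le_one
      · rw [fUp1_wt_not h]
  obtain ⟨D, hD⟩ := (hR0.image (fun v => ∑ᶠ t, fUp1_wt H v t)).bddAbove
  have hD' : ∀ v, ∑ᶠ t, fUp1_wt H v t ≤ |D| + 1 := by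
    intro v
    obtain ⟨n, r, hr, rfl⟩ := horb v
    rw [fUp1_deg hT]
    have h1 : ∑ᶠ t, fUp1_wt H r t ≤ D := hD ⟨r, hr, rfl⟩
    have h2 := le_abs_self D
    linarith
  have hDpos : 0 < |D| + 1 := by positivity
  have hpath : ∀ v, ∃ (n : ℕ) (q : ℕ → α), q 0 = v ∧ q n = T v ∧
      ∀ i < n, H.Adj (q i) (q (i + 1)) := by
    intro v
    obtain ⟨n, q, h0, h1, h2, _⟩ := (hconn v (mem_univ _) (T v) (mem_univ _)).exists_path
      (mem_univ _)
    exact ⟨n, q, h0, h1, h2⟩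
  choose len q hq0 hq1 hq2 using hpath
  obtain ⟨r, hr⟩ := (hR0.image len).bddAbove
  have hpaths : ∀ v ∈ I, ∃ (n : ℕ) (q : ℕ → α), n ≤ r ∧ q 0 = v ∧
      (∀ i < n, 0 < fUp1_wt H (q i) (q (i + 1))) ∧ (q n ∉ I ∨ f v + κ ≤ f (q n)) := by
    intro v _
    obtain ⟨n, s, hs, rfl⟩ := horb v
    refine ⟨len s, fun i => (T ^ n) (q s i), hr ⟨s, hs, rfl⟩, by
      show (T ^ n) (q s 0) = (T ^ n) s
      rw [hq0], ?_, Or.inr ?_⟩
    · intro i hi
      exact fUp1_wt_pos.2 ((fUp1_adj hT n _ _).2 (hq2 s i hi))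
    · show f ((T ^ n) s) + κ ≤ f ((T ^ n) (q s (len s)))
      rw [hq1, fUp1_val hf, fUp1_val hf, hf]
      linarith
  have hmain := hU α (fUp1_wt H) hnet I (1 / (|D| + 1)) (by positivity) (by
    intro v _ u hu
    rw [fUp1_wt_of (fUp1_wt_pos.1 hu)]
    rw [div_mul_eq_mul_div, one_mul, div_le_one hDpos]
    exact hD' v) f hharm r κ hκ hpaths c₀ v₀ hv₀
  have hconv : ∀ b, Relation.ReflTransGen (fun x y => 0 < fUp1_wt H x y ∧ c₀ < f x ∧ c₀ < f y)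
      v₀ b → ReachIn H {x | c₀ < f x} v₀ b := by
    intro b hb
    induction hb with
    | refl => exact ReachIn.refl _
    | tail _ h1 ih => exact ih.tail (fUp1_wt_pos.1 h1.1) h1.2.1 h1.2.2
  rcases hmain with ⟨b, hbI, hb⟩ | hmain
  · have hb' := hconv b hb
    have hbf : c₀ < f b := hb'.mem hv₀
    have hk : ∀ k : ℕ, ∃ u, u ∉ I ∧ f b + k * δ ≤ f u ∧ ReachIn H {x | c₀ < f x} b u := by
      intro k
      induction k with
      | zero => exact ⟨b, hbI, by simp, ReachIn.refl _⟩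
      | succ k ih =>
        obtain ⟨u, hu1, hu2, hu3⟩ := ih
        obtain ⟨u', h1, h2, h3⟩ := hbd u hu1
        have h4 : 0 ≤ (k : ℝ) * δ := by positivity
        refine ⟨u', h1, by push_cast; linarith, hu3.tail h2 ?_ ?_⟩
        · show c₀ < f u
          linarith
        · show c₀ < f u'
          linarith
    obtain ⟨k, hk'⟩ := exists_nat_gt ((m₀ - f b) / δ)
    rw [div_lt_iff₀ hδ] at hk'
    obtain ⟨u, _, hu2, hu3⟩ := hk k
    exact ⟨u, by linarith, hb'.trans hu3⟩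
  · obtain ⟨b, h1, h2⟩ := hmain m₀
    exact ⟨b, h1, hconv b h2⟩

theorem fUp1_abstract (hU : Stmt_UpSet) (hfin : ∀ v, {u | H.Adj v u}.Finite)
    (hT : ∀ u v, H.Adj (T u) (T v) ↔ H.Adj u v) (hconn : ConnIn H univ)
    (hκ : 0 < κ) (hf : ∀ v, f (T v) = f v + κ) {R0 : Set α} (hR0 : R0.Finite)
    (horb : ∀ v, ∃ n : ℤ, ∃ r ∈ R0, v = (T ^ n) r) {I : Set α}
    (hharm : ∀ v ∈ I, Harm (fUp1_wt H) f v) {δ : ℝ} (hδ : 0 < δ)
    (hbd : ∀ v, v ∉ I → ∃ u, u ∉ I ∧ H.Adj v u ∧ f v + δ ≤ f u) (c₀ : ℝ) :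
    ConnIn H {x | c₀ < f x} :=
  fUp1_connect hT hconn hκ hf hR0 horb c₀
    (fUp1_climb hU hfin hT hconn hκ hf hR0 horb hharm hδ hbd c₀)

end abstract

section concrete

variable {V E F G : Type} [Group G] [MulAction G V] [MulAction G E] [MulAction G F]
  {M : PlaneMap V E F}

theorem fUp1_vf (hact : Equiv M.toInc G) (g : G) {v : V} {f : F} (h : M.vf v f) :
    M.vf (g • v) (g • f) := by
  obtain ⟨e, h1, h2⟩ := h
  exact ⟨g • e, hact.ve g v e h1, hact.ef g e f h2⟩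

theorem fUp1_del_one (Φ : Frieze M G) : Φ.del 1 = 1 := by
  have h := Φ.del_mul 1 1
  rw [mul_one] at h
  rcases Φ.del_one 1 with h1 | h1
  · exact h1
  · rw [h1] at h
    norm_num at h

theorem fUp1_del_inv (Φ : Frieze M G) {g : G} (h : Φ.del g = 1) : Φ.del g⁻¹ = 1 := by
  have h1 := Φ.del_mul g⁻¹ g
  rw [inv_mul_cancel, fUp1_del_one, h, mul_one] at h1
  exact h1.symm

/-- Invariance of the strip under the elements preserving the ends. -/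
def FUp1Inv (X : FCtx M G) (m : ℤ) : Prop :=
  ∀ g f, X.Φ.del g = 1 → f ∉ (X.S m)ᶜ → g • f ∉ (X.S m)ᶜ

theorem fUp1_inv_of (hO : Stmt_FOrb) (X : FCtx M G) (m : ℤ) : FUp1Inv X m := by
  intro g f hg hf
  have h1 := (hO V E F G M X.Φ X.U X.seq m).2.1 g f hg
  have h2 := (hO V E F G M X.Φ X.U X.seq (m + 1)).2.1 g f hg
  rw [Set.notMem_compl_iff] at hf ⊢
  exact ⟨h1.1 hf.1, fun h => hf.2 (h2.2 h)⟩

theorem fUp1_inv_mem {X : FCtx M G} {m : ℤ} (hI : FUp1Inv X m) (g : G) (f : F)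
    (hg : X.Φ.del g = 1) (hf : f ∈ (X.S m)ᶜ) : g • f ∈ (X.S m)ᶜ := by
  by_contra h
  have := hI g⁻¹ (g • f) (fUp1_del_inv X.Φ hg) h
  rw [inv_smul_smul] at this
  exact this hf

/-- The map of block vertices given by `g`. -/
def fUp1_mp {X : FCtx M G} {m : ℤ} (hI : FUp1Inv X m) (g : G) (hg : X.Φ.del g = 1)
    (v : CV M.toInc (X.S m)ᶜ) : CV M.toInc (X.S m)ᶜ :=
  ⟨g • v.1, by
    obtain ⟨f, f', h1, h2, h3, h4, h5⟩ := v.2
    exact ⟨g • f, g • f', fun h => h1 (MulAction.injective g h), hI g f hg h2, hI g f' hg h3,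
      fUp1_vf X.Φ.act g h4, fUp1_vf X.Φ.act g h5⟩⟩

theorem fUp1_mp_adj {X : FCtx M G} {m : ℤ} (hI : FUp1Inv X m) (g : G) (hg : X.Φ.del g = 1)
    {u v : CV M.toInc (X.S m)ᶜ} (h : (X.blk m).vadj.Adj u v) :
    (X.blk m).vadj.Adj (fUp1_mp hI g hg u) (fUp1_mp hI g hg v) := by
  obtain ⟨hne, e, h1, h2⟩ := h
  refine ⟨fun h => hne (Subtype.ext (MulAction.injective g (congrArg Subtype.val h))), ?_⟩
  rcases e with e | t
  · refine ⟨Sum.inl ⟨g • e.1, fun f hf => ?_⟩, ?_, ?_⟩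
    · have h3 : M.ef e.1 (g⁻¹ • f) := by
        have := X.Φ.act.ef g⁻¹ _ _ hf
        rwa [inv_smul_smul] at this
      have h4 := hI g (g⁻¹ • f) hg (e.2 _ h3)
      rwa [smul_inv_smul] at h4
    · exact X.Φ.act.ve g _ _ h1
    · exact X.Φ.act.ve g _ _ h2
  · refine ⟨Sum.inr ⟨g • t.1, hI g t.1 hg t.2.1, ?_⟩, ?_, ?_⟩
    · obtain ⟨e, h3, d, h4, h5⟩ := t.2.2
      exact ⟨g • e, X.Φ.act.ef g _ _ h3, g • d, fUp1_inv_mem hI g d hg h4, X.Φ.act.ef g _ _ h5⟩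
    · obtain ⟨h3, d, h4, h5⟩ := h1
      exact ⟨fUp1_vf X.Φ.act g h3, g • d, fUp1_inv_mem hI g d hg h4, fUp1_vf X.Φ.act g h5⟩
    · obtain ⟨h3, d, h4, h5⟩ := h2
      exact ⟨fUp1_vf X.Φ.act g h3, g • d, fUp1_inv_mem hI g d hg h4, fUp1_vf X.Φ.act g h5⟩

/-- The translation as a permutation of the block vertices. -/
def fUp1_perm {X : FCtx M G} {m : ℤ} (hI : FUp1Inv X m) :
    Equiv.Perm (CV M.toInc (X.S m)ᶜ) where
  toFun := fUp1_mp hI X.Φ.τ X.Φ.τ_del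
  invFun := fUp1_mp hI X.Φ.τ⁻¹ (fUp1_del_inv X.Φ X.Φ.τ_del)
  left_inv v := Subtype.ext (inv_smul_smul X.Φ.τ v.1)
  right_inv v := Subtype.ext (smul_inv_smul X.Φ.τ v.1)

theorem fUp1_perm_adj {X : FCtx M G} {m : ℤ} (hI : FUp1Inv X m) (u v : CV M.toInc (X.S m)ᶜ) :
    (X.blk m).vadj.Adj (fUp1_perm hI u) (fUp1_perm hI v) ↔ (X.blk m).vadj.Adj u v := by
  constructor
  · intro h
    have h1 := fUp1_mp_adj hI X.Φ.τ⁻¹ (fUp1_del_inv X.Φ X.Φ.τ_del) h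
    have h2 : ∀ w, fUp1_mp hI X.Φ.τ⁻¹ (fUp1_del_inv X.Φ X.Φ.τ_del) (fUp1_perm hI w) = w :=
      (fUp1_perm hI).left_inv
    rwa [h2, h2] at h1
  · exact fun h => fUp1_mp_adj hI X.Φ.τ X.Φ.τ_del h

theorem fUp1_perm_val {X : FCtx M G} {m : ℤ} (hI : FUp1Inv X m) (n : ℤ) :
    ∀ v, ((fUp1_perm hI ^ n) v).1 = X.Φ.τ ^ n • v.1 := by
  induction n using Int.induction_on with
  | zero => intro v; simp
  | succ n ih =>
    intro v
    rw [zpow_add_one, Equiv.Perm.mul_apply, ih, zpow_add_one, mul_smul]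
    rfl
  | pred n ih =>
    intro v
    rw [zpow_sub_one, Equiv.Perm.mul_apply, ih, zpow_sub_one, mul_smul]
    rfl

theorem fUp1_orb {X : FCtx M G} {m : ℤ} (hO : Stmt_FOrb) (hI : FUp1Inv X m) :
    ∃ R0 : Set (CV M.toInc (X.S m)ᶜ), R0.Finite ∧
      ∀ v, ∃ n : ℤ, ∃ r ∈ R0, v = (fUp1_perm hI ^ n) r := by
  obtain ⟨R, hR, hR'⟩ := (hO V E F G M X.Φ X.U X.seq m).1
  refine ⟨Subtype.val ⁻¹' R, hR.preimage Subtype.val_injective.injOn, fun v => ?_⟩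
  obtain ⟨f, _, _, h2, _, h4, _⟩ := v.2
  obtain ⟨n, r, hr, hvr⟩ := hR' v.1 f h4 (Set.notMem_compl_iff.1 h2)
  refine ⟨n, (fUp1_perm hI ^ (-n)) v, ?_, ?_⟩
  · show ((fUp1_perm hI ^ (-n)) v).1 ∈ R
    rw [fUp1_perm_val, hvr, zpow_neg, inv_smul_smul]
    exact hr
  · rw [← Equiv.Perm.mul_apply, ← zpow_add]
    simp

theorem fUp1_cofin (M : PlaneMap V E F) (v : V) : {u | ∃ t, M.vf v t ∧ M.vf u t}.Finite := by
  have h1 : {t | M.vf v t}.Finite := by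
    have : {t | M.vf v t} ⊆ ⋃ e ∈ {e | M.ve v e}, {t | M.ef e t} := by
      rintro t ⟨e, h1, h2⟩
      exact mem_biUnion h1 h2
    refine ((M.vert_fin v).biUnion fun e _ => ?_).subset this
    obtain ⟨f, g, _, h⟩ := M.edge_faces e
    refine ((Set.finite_singleton g).insert f).subset fun t ht => ?_
    exact (h t).1 ht
  have h2 : ∀ t, {u | M.vf u t}.Finite := by
    intro t
    have : {u | M.vf u t} ⊆ ⋃ e ∈ {e | M.ef e t}, {u | M.ve u e} := by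
      rintro u ⟨e, h1, h2⟩
      exact mem_biUnion h2 h1
    refine ((M.face_fin t).biUnion fun e _ => ?_).subset this
    obtain ⟨f, g, _, h⟩ := M.edge_verts e
    refine ((Set.finite_singleton g).insert f).subset fun t ht => ?_
    exact (h t).1 ht
  refine (h1.biUnion fun t _ => h2 t).subset ?_
  rintro u ⟨t, ht, hu⟩
  exact mem_biUnion ht hu

theorem fUp1_adj_cof {v u : V} (h : M.vadj.Adj v u) : ∃ t, M.vf v t ∧ M.vf u t := by
  obtain ⟨_, e, h1, h2⟩ := h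
  obtain ⟨f, g, _, h3⟩ := M.edge_faces e
  have h4 : M.ef e f := (h3 f).2 (Or.inl rfl)
  exact ⟨f, ⟨e, h1, h4⟩, ⟨e, h2, h4⟩⟩

theorem fUp1_nbfin (X : FCtx M G) (m : ℤ) (v : CV M.toInc (X.S m)ᶜ) :
    {u | (X.blk m).vadj.Adj v u}.Finite := by
  refine ((fUp1_cofin M v.1).preimage (f := Subtype.val)
    Subtype.val_injective.injOn).subset ?_
  rintro u ⟨_, e, h1, h2⟩
  rcases e with e | t
  · obtain ⟨f, g, _, h3⟩ := M.edge_faces e.1
    have h4 : M.ef e.1 f := (h3 f).2 (Or.inl rfl)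
    exact ⟨f, ⟨e.1, h1, h4⟩, ⟨e.1, h2, h4⟩⟩
  · exact ⟨t.1, h1.1, h2.1⟩

/-- `dir w` as a linear map. -/
noncomputable def fUp1_lin (w : ℂ) : ℂ →ₗ[ℝ] ℝ := w.re • Complex.reLm + w.im • Complex.imLm

theorem fUp1_lin_apply (w z : ℂ) : fUp1_lin w z = dir w z := by
  simp [fUp1_lin, dir]

theorem fUp1_harm {X : FCtx M G} {m : ℤ} (hA : Stmt_FAdj) (w : ℂ)
    (v : CV M.toInc (X.S m)ᶜ) (hv : X.Inner v.1) :
    Harm (fUp1_wt (X.blk m).vadj) (fun u => dir w (X.ψ m u)) v := by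
  obtain ⟨hA1, hA2⟩ := (hA V E F G M X m).1 v hv
  have h0 : ∑ᶠ u, vw M.toInc v.1 u • (X.φ u - X.φ v.1) = 0 := X.harm.harm v.1 hv
  have hsupp : (Function.support fun u => vw M.toInc v.1 u • (X.φ u - X.φ v.1)).Finite := by
    refine (fUp1_cofin M v.1).subset fun u hu => ?_
    have h1 : M.vadj.Adj v.1 u := by
      by_contra h
      apply hu
      show vw M.toInc v.1 u • (X.φ u - X.φ v.1) = 0
      unfold vw
      rw [if_neg h, zero_smul]
    exact fUp1_adj_cof h1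
  have h1 : ∑ᶠ u, vw M.toInc v.1 u • (dir w (X.φ u) - dir w (X.φ v.1)) = 0 := by
    have h2 := (fUp1_lin w).toAddMonoidHom.map_finsum hsupp
    rw [h0, map_zero] at h2
    rw [h2]
    refine finsum_congr fun u => ?_
    show _ = fUp1_lin w (vw M.toInc v.1 u • (X.φ u - X.φ v.1))
    rw [map_smul, map_sub, fUp1_lin_apply, fUp1_lin_apply]
  show ∑ᶠ u : CV M.toInc (X.S m)ᶜ, fUp1_wt (X.blk m).vadj v u •
    (dir w (X.ψ m u) - dir w (X.ψ m v)) = 0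
  rw [← h1]
  have h2 : ∑ᶠ u : CV M.toInc (X.S m)ᶜ, fUp1_wt (X.blk m).vadj v u •
      (dir w (X.ψ m u) - dir w (X.ψ m v)) =
      ∑ᶠ u : {u | X.InCV m u}, vw M.toInc v.1 u.1 • (dir w (X.φ u.1) - dir w (X.φ v.1)) := by
    refine finsum_congr fun u => ?_
    have h3 : fUp1_wt (X.blk m).vadj v u = vw M.toInc v.1 u.1 := by
      unfold vw
      by_cases h : M.vadj.Adj v.1 u.1
      · rw [if_pos h]
        obtain ⟨_, h5⟩ := hA1 u.1 h
        exact fUp1_wt_of h5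
      · rw [if_neg h]
        exact fUp1_wt_not fun h' => h (hA2 u h')
    rw [h3]
    rfl
  rw [h2, finsum_set_coe_eq_finsum_mem (s := {u | X.InCV m u})
    (f := fun u => vw M.toInc v.1 u • (dir w (X.φ u) - dir w (X.φ v.1))), finsum_mem_def]
  congr 1
  rw [Set.indicator_eq_self]
  intro u hu
  by_contra h
  apply hu
  show vw M.toInc v.1 u • (dir w (X.φ u) - dir w (X.φ v.1)) = 0
  unfold vw
  rw [if_neg (fun h' => h (hA1 u h').1), zero_smul]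

theorem fUp1_mvval (X : FCtx M G) (w : ℂ) (v : V) :
    dir w (X.φ (X.Φ.τ • v)) = dir w (X.φ v) + w.re * X.Φ.c X.Φ.τ := by
  rw [X.harm.eqv]
  simp only [Frieze.mv, dir, X.Φ.τ_eps, X.Φ.τ_del]
  ring

theorem fUp1_lineval (X : FCtx M G) (w : ℂ) (l i : ℤ) :
    dir w (X.φ (X.L.x l i)) =
      w.re * (X.Φ.c X.Φ.τ * i / X.L.p l + X.L.β l) + w.im * (l + 1 / 2) := by
  rw [X.harm.line]
  rfl

theorem fUp1_aux (hU : Stmt_UpSet) (hA : Stmt_FAdj) (hC : Stmt_FConn) (hO : Stmt_FOrb)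
    (X : FCtx M G) (m : ℤ) (w : ℂ) (hw : w.re ≠ 0) (c : ℝ) :
    ConnIn (X.blk m).vadj {v | c < dir w (X.ψ m v)} := by
  have hI := fUp1_inv_of hO X m
  obtain ⟨R0, hR0, horb⟩ := fUp1_orb hO hI
  have hτ := X.Φ.τ_pos
  have hpm : 0 < (X.L.p m : ℝ) := by exact_mod_cast (X.L.line m).pos
  have hpm' : 0 < (X.L.p (m + 1) : ℝ) := by exact_mod_cast (X.L.line (m + 1)).pos
  have hpl : ∀ l, (l = m ∨ l = m + 1) → 0 < (X.L.p l : ℝ) ∧
      (X.L.p l : ℝ) ≤ X.L.p m + X.L.p (m + 1) := by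
    rintro l (rfl | rfl)
    · exact ⟨hpm, by linarith⟩
    · exact ⟨hpm', by linarith⟩
  have hδ : 0 < |w.re| * X.Φ.c X.Φ.τ / (X.L.p m + X.L.p (m + 1)) := by
    have : 0 < |w.re| := abs_pos.2 hw
    positivity
  have hstep : ∀ l, (l = m ∨ l = m + 1) → ∀ i j : ℤ, 1 ≤ w.re / |w.re| * (j - i) →
      dir w (X.φ (X.L.x l i)) + |w.re| * X.Φ.c X.Φ.τ / (X.L.p m + X.L.p (m + 1)) ≤
        dir w (X.φ (X.L.x l j)) := by
    intro l hl i j hij
    obtain ⟨h1, h2⟩ := hpl l hl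
    rw [fUp1_lineval, fUp1_lineval]
    have ha : 0 < |w.re| := abs_pos.2 hw
    have h3 : |w.re| * X.Φ.c X.Φ.τ / (X.L.p m + X.L.p (m + 1)) ≤
        |w.re| * X.Φ.c X.Φ.τ / X.L.p l :=
      div_le_div_of_nonneg_left (by positivity) h1 h2
    have h4 : |w.re| ≤ w.re * (j - i) := by
      have h5 : w.re / |w.re| * (j - i) * |w.re| = w.re * (j - i) := by
        field_simp
      nlinarith
    have h6 : |w.re| * X.Φ.c X.Φ.τ / X.L.p l ≤ w.re * (j - i) * X.Φ.c X.Φ.τ / X.L.p l := by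
      apply div_le_div_of_nonneg_right _ h1.le
      exact mul_le_mul_of_nonneg_right h4 hτ.le
    have h7 : w.re * (X.Φ.c X.Φ.τ * j / X.L.p l + X.L.β l) + w.im * (l + 1 / 2) =
        w.re * (X.Φ.c X.Φ.τ * i / X.L.p l + X.L.β l) + w.im * (l + 1 / 2) +
        w.re * (j - i) * X.Φ.c X.Φ.τ / X.L.p l := by
      field_simp
      ring
    linarith
  obtain ⟨_, hA2, hA3⟩ := hA V E F G M X m
  have hnotin : ∀ l j, ¬ X.Inner (X.L.x l j) := fun l j h => h l j rfl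
  rcases lt_or_gt_of_ne hw with hneg | hpos
  · have hκ : 0 < -(w.re * X.Φ.c X.Φ.τ) := by nlinarith
    refine fUp1_abstract (T := (fUp1_perm hI)⁻¹) (κ := -(w.re * X.Φ.c X.Φ.τ))
      (I := {v | X.Inner v.1}) hU (fUp1_nbfin X m) ?_ (hC V E F G M X m) hκ ?_ hR0 ?_ ?_ hδ ?_ c
    · intro u v
      have := fUp1_perm_adj hI ((fUp1_perm hI)⁻¹ u) ((fUp1_perm hI)⁻¹ v)
      rw [fUp1_inv, fUp1_inv] at this
      exact this.symm
    · intro v
      have h1 := fUp1_mvval X w ((fUp1_perm hI)⁻¹ v).1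
      have h2 : X.Φ.τ • ((fUp1_perm hI)⁻¹ v).1 = v.1 :=
        congrArg Subtype.val (fUp1_inv (fUp1_perm hI) v)
      rw [h2] at h1
      show dir w (X.φ ((fUp1_perm hI)⁻¹ v).1) = dir w (X.φ v.1) + -(w.re * X.Φ.c X.Φ.τ)
      linarith
    · intro v
      obtain ⟨n, r, hr, h⟩ := horb v
      exact ⟨-n, r, hr, by rw [inv_zpow', neg_neg]; exact h⟩
    · intro v hv
      exact fUp1_harm hA w v hv
    · intro v hv
      obtain ⟨l, i, hl, hvl⟩ := hA2 v hv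
      have hi : X.InCV m (X.L.x l i) := hvl ▸ v.2
      obtain ⟨j, hj, hji, hadj⟩ := ((hA3 l hl).2.1 i hi).2
      refine ⟨⟨X.L.x l j, hj⟩, hnotin l j, ?_, ?_⟩
      · have : v = ⟨X.L.x l i, hi⟩ := Subtype.ext hvl
        rw [this]
        exact hadj
      · show dir w (X.φ v.1) + _ ≤ dir w (X.φ (X.L.x l j))
        rw [hvl]
        refine hstep l hl i j ?_
        rw [abs_of_neg hneg, div_neg, div_self hw]
        have : (j : ℝ) + 1 ≤ i := by exact_mod_cast hji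
        linarith
  · have hκ : 0 < w.re * X.Φ.c X.Φ.τ := by positivity
    refine fUp1_abstract (T := fUp1_perm hI) (κ := w.re * X.Φ.c X.Φ.τ)
      (I := {v | X.Inner v.1}) hU (fUp1_nbfin X m) (fUp1_perm_adj hI) (hC V E F G M X m) hκ ?_
      hR0 horb ?_ hδ ?_ c
    · intro v
      exact fUp1_mvval X w v.1
    · intro v hv
      exact fUp1_harm hA w v hv
    · intro v hv
      obtain ⟨l, i, hl, hvl⟩ := hA2 v hv
      have hi : X.InCV m (X.L.x l i) := hvl ▸ v.2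
      obtain ⟨j, hj, hji, hadj⟩ := ((hA3 l hl).2.1 i hi).1
      refine ⟨⟨X.L.x l j, hj⟩, hnotin l j, ?_, ?_⟩
      · have : v = ⟨X.L.x l i, hi⟩ := Subtype.ext hvl
        rw [this]
        exact hadj
      · show dir w (X.φ v.1) + _ ≤ dir w (X.φ (X.L.x l j))
        rw [hvl]
        refine hstep l hl i j ?_
        rw [abs_of_pos hpos, div_self hw]
        have : (i : ℝ) + 1 ≤ j := by exact_mod_cast hji
        linarith

end concrete

/-- F14a. -/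
theorem fUp1 (hU : Stmt_UpSet) (hA : Stmt_FAdj) (hC : Stmt_FConn) (hO : Stmt_FOrb) :
    Stmt_FUp1 := by
  intro V E F G _ _ _ _ M X m w hw c
  exact fUp1_aux hU hA hC hO X m w hw c

end Pool.Agent.CT
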