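import Pool.Agent.CT.FDefs

set_option autoImplicit false

/-! # F14b: upper level sets of the strip block are connected, vertical functionals -/

namespace Pool.Agent.CT

open Set Metric

section fUp2

variable {V E F G : Type} [Group G] [MulAction G V] [MulAction G E] [MulAction G F]
  {M : PlaneMap V E F}

theorem fUp2_vw {v u : V} (h : M.vadj.Adj v u) : vw M.toInc v u = 1 := by
  unfold vw
  rw [if_pos h]

theorem fUp2_vw_adj {v u : V} (h : vw M.toInc v u ≠ 0) : M.vadj.Adj v u := by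
  by_contra h'
  exact h (by unfold vw; rw [if_neg h'])

theorem fUp2_net (M : PlaneMap V E F) : Net (vw M.toInc) where
  fin v := by
    have : {u | vw M.toInc v u ≠ 0} ⊆ ⋃ e ∈ {e | M.ve v e}, {u | M.ve u e} := by
      intro u hu
      obtain ⟨_, e, h1, h2⟩ := fUp2_vw_adj hu
      exact mem_biUnion (show e ∈ {e | M.ve v e} from h1) h2
    refine ((M.vert_fin v).biUnion fun e _ => ?_).subset this
    obtain ⟨a, b, _, h⟩ := M.edge_verts e
    refine ((finite_singleton b).insert a).subset fun w hw => ?_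
    rcases (h w).1 hw with rfl | rfl <;> simp
  nonneg v u := by
    unfold vw
    split_ifs <;> norm_num

theorem fUp2_adj (Φ : Frieze M G) (g : G) {u v : V} (h : M.vadj.Adj u v) :
    M.vadj.Adj (g • u) (g • v) := by
  obtain ⟨hne, e, h1, h2⟩ := h
  exact ⟨fun h => hne (smul_left_cancel g h), g • e, Φ.act.ve g _ _ h1, Φ.act.ve g _ _ h2⟩

theorem fUp2_vw_smul (Φ : Frieze M G) (g : G) (u v : V) :
    vw M.toInc (g • u) (g • v) = vw M.toInc u v := by
  by_cases h : M.vadj.Adj u v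
  · rw [fUp2_vw h, fUp2_vw (fUp2_adj Φ g h)]
  · have h' : ¬ M.vadj.Adj (g • u) (g • v) := fun h' => h (by
      simpa using fUp2_adj Φ g⁻¹ h')
    unfold vw
    rw [if_neg h, if_neg h']

theorem fUp2_sum (Φ : Frieze M G) (g : G) (v : V) :
    ∑ᶠ t, vw M.toInc (g • v) t = ∑ᶠ t, vw M.toInc v t := by
  rw [← finsum_comp_equiv (MulAction.toPerm g)]
  refine finsum_congr fun t => ?_
  exact fUp2_vw_smul Φ g v t

/-- Bounded degrees. -/
theorem fUp2_deg (hO : Stmt_FOrb) (X : FCtx M G) (m : ℤ) : ∃ p : ℝ, 0 < p ∧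
    ∀ v, X.InCV m v → ∀ u, 0 < vw M.toInc v u →
      p * (∑ᶠ t, vw M.toInc v t) ≤ vw M.toInc v u := by
  obtain ⟨⟨R, hR, hRv⟩, -, -⟩ := hO V E F G M X.Φ X.U X.seq m
  obtain ⟨B, hB⟩ := (hR.image fun v => ∑ᶠ t, vw M.toInc v t).bddAbove
  refine ⟨1 / max B 1, by positivity, fun v hv u hu => ?_⟩
  rw [fUp2_vw (fUp2_vw_adj hu.ne')]
  obtain ⟨f, _, _, hf, _, hvf, _⟩ := hv
  obtain ⟨n, r, hr, rfl⟩ := hRv v f hvf (not_not.1 hf)
  rw [fUp2_sum X.Φ]
  have h1 : ∑ᶠ t, vw M.toInc r t ≤ max B 1 := le_max_of_le_left (hB ⟨r, hr, rfl⟩)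
  have h2 : (0 : ℝ) < max B 1 := by positivity
  rw [div_mul_eq_mul_div, one_mul, div_le_one h2]
  exact h1

/-- Every block vertex has a line vertex at bounded distance. -/
theorem fUp2_path (hO : Stmt_FOrb) (X : FCtx M G) (m : ℤ) : ∃ N : ℕ,
    ∀ v, X.InCV m v → ∃ (n : ℕ) (q : ℕ → V), n ≤ N ∧ q 0 = v ∧
      (∀ i < n, 0 < vw M.toInc (q i) (q (i + 1))) ∧ ¬ X.Inner (q n) := by
  obtain ⟨⟨R, hR, hRv⟩, -, -⟩ := hO V E F G M X.Φ X.U X.seq m
  have hex : ∀ v, ∃ (n : ℕ) (q : ℕ → V), q 0 = v ∧ q n = X.L.x m 0 ∧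
      (∀ i < n, M.vadj.Adj (q i) (q (i + 1))) ∧ ∀ i ≤ n, q i ∈ univ := fun v =>
    (M.vconn v (mem_univ _) (X.L.x m 0) (mem_univ _)).exists_path (mem_univ _)
  choose n q h0 hn hadj _ using hex
  obtain ⟨N, hN⟩ := (hR.image n).bddAbove
  refine ⟨N, fun v hv => ?_⟩
  obtain ⟨f, _, _, hf, _, hvf, _⟩ := hv
  obtain ⟨k, r, hr, rfl⟩ := hRv v f hvf (not_not.1 hf)
  refine ⟨n r, fun i => X.Φ.τ ^ k • q r i, hN ⟨r, hr, rfl⟩, congrArg _ (h0 r),
    fun i hi => ?_, ?_⟩
  · rw [fUp2_vw (fUp2_adj X.Φ _ (hadj r i hi))]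
    exact one_pos
  · intro hin
    obtain ⟨j, hj⟩ := X.L.img (X.Φ.τ ^ k) m 0
    exact hin _ j ((congrArg (fun z => X.Φ.τ ^ k • z) (hn r)).trans hj)

/-- Functionals of harmonic functions are harmonic. -/
theorem fUp2_harm {c : V → V → ℝ} (hc : Net c) {φ : V → ℂ} {v : V} (w : ℂ) (h : Harm c φ v) :
    Harm c (fun u => dir w (φ u)) v := by
  let g : ℂ →+ ℝ := AddMonoidHom.mk' (dir w) (fun a b => by
    simp only [dir, Complex.add_re, Complex.add_im]; ring)
  have hfin : (Function.support fun u => c v u • (φ u - φ v)).Finite := by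
    refine (hc.fin v).subset fun u hu => ?_
    intro h0
    exact hu (by simp [h0])
  have h1 : g (∑ᶠ u, c v u • (φ u - φ v)) = ∑ᶠ u, g (c v u • (φ u - φ v)) :=
    AddMonoidHom.map_finsum g hfin
  have h2 : ∑ᶠ u, c v u • (φ u - φ v) = 0 := h
  rw [h2, map_zero] at h1
  show ∑ᶠ u, c v u • (dir w (φ u) - dir w (φ v)) = 0
  rw [h1]
  refine finsum_congr fun u => ?_
  show c v u • (dir w (φ u) - dir w (φ v)) = dir w (c v u • (φ u - φ v))
  simp only [dir, Complex.real_smul, Complex.mul_re, Complex.mul_im, Complex.ofReal_re,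
    Complex.ofReal_im, Complex.sub_re, Complex.sub_im, smul_eq_mul]
  ring

/-- Following a path up to the first line vertex. -/
theorem fUp2_exit (hA : Stmt_FAdj) (X : FCtx M G) (m : ℤ) (f : V → ℝ) (c : ℝ)
    (v : CV M.toInc (X.S m)ᶜ) (hv : X.Inner v.1) (b : V)
    (hb : Relation.ReflTransGen
      (fun x y => 0 < vw M.toInc x y ∧ c < f x ∧ c < f y) v.1 b) :
    (∃ u : CV M.toInc (X.S m)ᶜ, ¬ X.Inner u.1 ∧ c < f u.1 ∧
      ReachIn (X.blk m).vadj {u | c < f u.1} v u) ∨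
    ∃ h : X.InCV m b, X.Inner b ∧ ReachIn (X.blk m).vadj {u | c < f u.1} v ⟨b, h⟩ := by
  obtain ⟨hA1, -, -⟩ := hA V E F G M X m
  induction hb with
  | refl => exact Or.inr ⟨v.2, hv, ReachIn.refl _⟩
  | @tail d e _ h1 ih =>
    rcases ih with h | ⟨hd, hdi, hr⟩
    · exact Or.inl h
    · obtain ⟨he, hadj⟩ := (hA1 ⟨d, hd⟩ hdi).1 e (fUp2_vw_adj h1.1.ne')
      have hr' : ReachIn (X.blk m).vadj {u | c < f u.1} v ⟨e, he⟩ :=
        hr.tail hadj h1.2.1 h1.2.2
      by_cases hei : X.Inner e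
      · exact Or.inr ⟨he, hei, hr'⟩
      · exact Or.inl ⟨⟨e, he⟩, hei, h1.2.2, hr'⟩

end fUp2

theorem fUp2 (hU : Stmt_UpSet) (hA : Stmt_FAdj) (hC : Stmt_FConn) (hO : Stmt_FOrb)
    (hH : Stmt_FHeight) : Stmt_FUp2 := by
  intro V E F G _ _ _ _ M X m w hw hre c
  obtain ⟨-, hA2, hA3⟩ := hA V E F G M X m
  obtain ⟨p, hp, hdeg⟩ := fUp2_deg hO X m
  obtain ⟨N, hpath⟩ := fUp2_path hO X m
  set f : V → ℝ := fun v => dir w (X.φ v) with hf
  have hfv : ∀ v, f v = w.im * (X.φ v).im := fun v => by simp [hf, dir, hre]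
  -- values on the lines
  have hline : ∀ l i, f (X.L.x l i) = w.im * (l + 1 / 2) := fun l i => by
    rw [hfv, X.harm.line]
    rfl
  -- inner heights
  have hin : ∀ v : CV M.toInc (X.S m)ᶜ, X.Inner v.1 →
      (m : ℝ) + 1 / 2 < (X.φ v.1).im ∧ (X.φ v.1).im < m + 3 / 2 := by
    intro v hv
    obtain ⟨g, _, _, hg, _, hvg, _⟩ := v.2
    exact hH V E F G M X m v.1 hv ⟨g, not_not.1 hg, hvg⟩
  -- reach a line vertex
  have hreach : ∀ v : CV M.toInc (X.S m)ᶜ, c < f v.1 → ∃ u : CV M.toInc (X.S m)ᶜ,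
      ¬ X.Inner u.1 ∧ c < f u.1 ∧ ReachIn (X.blk m).vadj {u | c < f u.1} v u := by
    intro v hv
    by_cases hvi : X.Inner v.1
    · rcases hU V (vw M.toInc) (fUp2_net M) {v | X.Inner v ∧ X.InCV m v} p hp
        (fun v hv => hdeg v hv.2) f
        (fun v hv => fUp2_harm (fUp2_net M) w (X.harm.harm v hv.1)) N 1 one_pos
        (fun v hv => by
          obtain ⟨n, q, h1, h2, h3, h4⟩ := hpath v hv.2
          exact ⟨n, q, h1, h2, h3, Or.inl fun h => h4 h.1⟩) c v.1 hv with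
        ⟨b, hb, hvb⟩ | hall
      · rcases fUp2_exit hA X m f c v hvi b hvb with h | ⟨h1, h2, _⟩
        · exact h
        · exact absurd ⟨h2, h1⟩ hb
      · obtain ⟨b, hb, hvb⟩ := hall (|w.im| * (|(m : ℝ)| + 2))
        rcases fUp2_exit hA X m f c v hvi b hvb with h | ⟨h1, h2, _⟩
        · exact h
        · exfalso
          have h3 := hin ⟨b, h1⟩ h2
          simp only at h3
          have h4 : |(X.φ b).im| ≤ |(m : ℝ)| + 2 := by
            have h5 := neg_abs_le (m : ℝ)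
            have h6 := le_abs_self (m : ℝ)
            rw [abs_le]
            constructor <;> linarith [h3.1, h3.2]
          have h5 : f b ≤ |w.im| * (|(m : ℝ)| + 2) := by
            rw [hfv]
            calc w.im * (X.φ b).im ≤ |w.im * (X.φ b).im| := le_abs_self _
              _ = |w.im| * |(X.φ b).im| := abs_mul _ _
              _ ≤ _ := mul_le_mul_of_nonneg_left h4 (abs_nonneg _)
          linarith
    · exact ⟨v, hvi, hv, ReachIn.refl _⟩
  intro a ha b hb
  change ReachIn (X.blk m).vadj {u | c < f u.1} a b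
  obtain ⟨u, hu, huc, hau⟩ := hreach a ha
  obtain ⟨v, hv, hvc, hbv⟩ := hreach b hb
  refine hau.trans (ReachIn.trans ?_ hbv.symm)
  obtain ⟨l, i, hl, hi⟩ := hA2 u hu
  obtain ⟨l', j, hl', hj⟩ := hA2 v hv
  by_cases hll : l = l'
  · subst hll
    have hsub : ∀ i j, {v : CV M.toInc (X.S m)ᶜ | ∃ k, i ≤ k ∧ k ≤ j ∧ v.1 = X.L.x l k} ⊆
        {u | c < f u.1} := by
      rintro i' j' v' ⟨k, _, _, hk⟩
      show c < f v'.1
      rw [hk, hline, ← hline l i, ← hi]
      exact huc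
    obtain ⟨-, -, h3⟩ := hA3 l hl
    obtain ⟨u, hu'⟩ := u
    obtain ⟨v, hv'⟩ := v
    simp only at hi hj
    subst hi hj
    rcases le_total i j with hij | hij
    · exact (h3 i j hu' hv' hij).mono (hsub i j)
    · exact ((h3 j i hv' hu' hij).mono (hsub j i)).symm
  · -- both lines: everything
    have hboth : c < w.im * (m + 1 / 2) ∧ c < w.im * (m + 1 + 1 / 2) := by
      rw [hi, hline] at huc
      rw [hj, hline] at hvc
      rcases hl with rfl | rfl <;> rcases hl' with rfl | rfl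
      · exact absurd rfl hll
      · push_cast at huc hvc
        exact ⟨huc, hvc⟩
      · push_cast at huc hvc
        exact ⟨hvc, huc⟩
      · exact absurd rfl hll
    refine (hC V E F G M X m u (mem_univ _) v (mem_univ _)).mono fun z _ => ?_
    show c < f z.1
    by_cases hz : X.Inner z.1
    · obtain ⟨h1, h2⟩ := hin z hz
      rw [hfv]
      rcases le_total 0 w.im with h0 | h0
      · calc c < w.im * (m + 1 / 2) := hboth.1
          _ ≤ _ := mul_le_mul_of_nonneg_left h1.le h0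
      · calc c < w.im * (m + 1 + 1 / 2) := hboth.2
          _ ≤ _ := mul_le_mul_of_nonpos_left (by linarith) h0
    · obtain ⟨l'', k, hl'', hk⟩ := hA2 z hz
      rw [hk, hline]
      rcases hl'' with rfl | rfl
      · exact hboth.1
      · push_cast
        exact hboth.2

end Pool.Agent.CT
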