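import Pool.Agent.CT.FDefs

set_option autoImplicit false

/-! # F8, F8b: elementary facts about vertices, lines and strips -/

namespace Pool.Agent.CT

open Set

section frieze

variable {V E F G : Type} [Group G] [MulAction G V] [MulAction G E] [MulAction G F]
  {M : PlaneMap V E F}

theorem fVert_del_inv (Φ : Frieze M G) (g : G) : Φ.del g⁻¹ = Φ.del g := by
  have h0 : Φ.del 1 = 1 := by
    have h := Φ.del_mul 1 1
    rw [one_mul] at h
    rcases Φ.del_one 1 with h1 | h1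
    · exact h1
    · rw [h1] at h; norm_num at h
  have h := Φ.del_mul g g⁻¹
  rw [mul_inv_cancel, h0] at h
  rcases Φ.del_one g with h1 | h1 <;> rw [h1] at h ⊢ <;> linarith

theorem fVert_vf (Φ : Frieze M G) (g : G) {v : V} {f : F} (h : M.vf v f) :
    M.vf (g • v) (g • f) := by
  obtain ⟨e, h1, h2⟩ := h
  exact ⟨g • e, Φ.act.ve g _ _ h1, Φ.act.ef g _ _ h2⟩

theorem fVert_anti {Φ : Frieze M G} {U : ℤ → Set F} (hU : Φ.IsSeq U) {a b : ℤ} (h : a ≤ b) :
    U b ⊆ U a := by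
  obtain ⟨n, rfl⟩ := Int.le.dest h
  clear h
  induction n with
  | zero => simp
  | succ n ih =>
    refine Subset.trans ?_ ih
    have := hU.anti (a + n)
    rw [add_assoc] at this
    exact_mod_cast this

theorem fVert_face_fin (M : PlaneMap V E F) (f : F) : {v | M.vf v f}.Finite := by
  have h1 : (⋃ e ∈ {e | M.ef e f}, {v | M.ve v e}).Finite := by
    refine (M.face_fin f).biUnion fun e _ => ?_
    obtain ⟨a, b, _, hab⟩ := M.edge_verts e
    refine Set.Finite.subset (Set.toFinite {a, b}) ?_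
    intro w hw
    rcases (hab w).1 hw with rfl | rfl
    · simp
    · simp
  refine h1.subset ?_
  rintro v ⟨e, he1, he2⟩
  simp only [mem_iUnion]
  exact ⟨e, he2, he1⟩

theorem fVert_inj {Φ : Frieze M G} {A : Set F} {x : ℤ → V} {y : ℤ → E} {p : ℤ}
    (hl : Φ.IsLine A x y p) {i j : ℤ} (h : x i = x j) : i = j := by
  have h3 := (hl.curve.x_eq i j).1 h
  have := zero_dvd_iff.1 (by exact_mod_cast h3 : (0 : ℤ) ∣ i - j)
  omega

theorem fVert_touch {Φ : Frieze M G} {A : Set F} {x : ℤ → V} {y : ℤ → E} {p : ℤ}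
    (hl : Φ.IsLine A x y p) (i : ℤ) : Touch M.toInc A (x i) ∧ Touch M.toInc Aᶜ (x i) := by
  have h1 : y i ∈ fr M.toInc A := (hl.curve.mem (y i)).2 ⟨i, rfl⟩
  have h2 : M.ve (x i) (y i) := (hl.curve.ve i (x i)).2 (Or.inl rfl)
  obtain ⟨⟨f, hf, hef⟩, g, hg, heg⟩ := h1
  exact ⟨⟨f, hf, y i, h2, hef⟩, ⟨g, hg, y i, h2, heg⟩⟩

/-- Two vertices of the line in a face off `D`: the whole part of the line between them belongs to
this face. -/
theorem fVert_between (hRun : Stmt_FRun) (hCyc : Stmt_FaceCycle) {Φ : Frieze M G} {A : Set F}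
    (hA : Φ.IsCut A) {x : ℤ → V} {y : ℤ → E} {p : ℤ} (hl : Φ.IsLine A x y p) {D : Set F}
    (hD : D = A ∨ D = Aᶜ) {f : F} (hf : f ∉ D) {i j : ℤ} (hi : M.vf (x i) f)
    (hj : M.vf (x j) f) {l : ℤ} (h1 : i ≤ l) (h2 : l < j) : M.ef (y l) f := by
  obtain ⟨n, x', y', hc⟩ := hCyc V E F M.toPolyMap f
  have htouch : ∀ i, Touch M.toInc D (x i) := by
    intro i
    rcases hD with rfl | rfl
    · exact (fVert_touch hl i).1
    · exact (fVert_touch hl i).2
  have hpos : ∀ i, M.vf (x i) f → ∃ s, x i = x' s := by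
    rintro i ⟨e, he1, he2⟩
    obtain ⟨s, hs⟩ := (hc.curve.mem e).1 he2
    rw [← hs] at he1
    rcases (hc.curve.ve s (x i)).1 he1 with h | h
    · exact ⟨s, h⟩
    · exact ⟨s + 1, h⟩
  obtain ⟨s1, hs1⟩ := hpos i hi
  obtain ⟨s2, hs2⟩ := hpos j hj
  rcases hRun V E F G M Φ A hA x y p hl D hD f hf n x' y' hc with hno | hrun
  · exact absurd (hs1 ▸ htouch i) (hno s1)
  · obtain ⟨a, r, i₀, κ, hκ, _, hr1, hr2, hr3⟩ := hrun
    obtain ⟨k1, hk1, hd1⟩ := (hr2 s1).1 (hs1 ▸ htouch i)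
    obtain ⟨k2, hk2, hd2⟩ := (hr2 s2).1 (hs2 ▸ htouch j)
    have e1 : i = i₀ + κ * k1 := by
      apply fVert_inj hl
      rw [hs1, (hc.curve.x_eq _ _).2 hd1, hr1 k1 hk1]
    have e2 : j = i₀ + κ * k2 := by
      apply fVert_inj hl
      rw [hs2, (hc.curve.x_eq _ _).2 hd2, hr1 k2 hk2]
    -- the edge of the run
    have key : ∀ k : ℕ, k < r → ∀ l : ℤ, (x l = x' (a + k) ∧ x (l + 1) = x' (a + k + 1)) ∨
        (x l = x' (a + k + 1) ∧ x (l + 1) = x' (a + k)) → M.ef (y l) f := by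
      intro k hk l hl'
      have hef : M.ef (y' (a + k)) f := (hc.curve.mem _).2 ⟨_, rfl⟩
      obtain ⟨d, hd, hed⟩ := (hr3 (a + k)).2 ⟨k, hk, by simp⟩
      have hfr : y' (a + k) ∈ fr M.toInc A := by
        rcases hD with rfl | rfl
        · exact ⟨⟨d, hd, hed⟩, f, hf, hef⟩
        · exact ⟨⟨f, not_not.1 hf, hef⟩, d, hd, hed⟩
      obtain ⟨l', hl1⟩ := (hl.curve.mem _).1 hfr
      have hv1 : M.ve (x' (a + k)) (y l') := by
        rw [hl1]; exact (hc.curve.ve _ _).2 (Or.inl rfl)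
      have hv2 : M.ve (x' (a + k + 1)) (y l') := by
        rw [hl1]; exact (hc.curve.ve _ _).2 (Or.inr rfl)
      have hll : l = l' := by
        have hw1 := (hl.curve.ve l' _).1 hv1
        have hw2 := (hl.curve.ve l' _).1 hv2
        rcases hl' with ⟨h3, h4⟩ | ⟨h3, h4⟩
        · rw [← h3] at hw1
          rw [← h4] at hw2
          rcases hw1 with h5 | h5 <;> rcases hw2 with h6 | h6 <;>
            have h7 := fVert_inj hl h5 <;> have h8 := fVert_inj hl h6 <;> omega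
        · rw [← h4] at hw1
          rw [← h3] at hw2
          rcases hw1 with h5 | h5 <;> rcases hw2 with h6 | h6 <;>
            have h7 := fVert_inj hl h5 <;> have h8 := fVert_inj hl h6 <;> omega
      rw [hll, hl1]
      exact hef
    rcases hκ with rfl | rfl
    · obtain ⟨k, hk⟩ := Int.eq_ofNat_of_zero_le (show 0 ≤ l - i₀ by omega)
      have hkr : k < r := by omega
      refine key k hkr l (Or.inl ⟨?_, ?_⟩)
      · rw [hr1 k hkr.le]; congr 1; omega
      · have := hr1 (k + 1) hkr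
        push_cast at this
        rw [← add_assoc] at this
        rw [this]; congr 1; omega
    · obtain ⟨k, hk⟩ := Int.eq_ofNat_of_zero_le (show 0 ≤ i₀ - l - 1 by omega)
      have hkr : k < r := by omega
      refine key k hkr l (Or.inr ⟨?_, ?_⟩)
      · have := hr1 (k + 1) hkr
        push_cast at this
        rw [← add_assoc] at this
        rw [this]; congr 1; omega
      · rw [hr1 k hkr.le]; congr 1; omega

theorem fVert_chord (hRun : Stmt_FRun) (hCyc : Stmt_FaceCycle) {Φ : Frieze M G} {A : Set F}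
    (hA : Φ.IsCut A) {x : ℤ → V} {y : ℤ → E} {p : ℤ} (hl : Φ.IsLine A x y p) {i j : ℤ}
    (hij : i < j) {e : E} (hi : M.ve (x i) e) (hj : M.ve (x j) e) : e ∈ fr M.toInc A := by
  by_contra hfr
  obtain ⟨f, g, hfg, hfaces⟩ := M.edge_faces e
  have hef : M.ef e f := (hfaces f).2 (Or.inl rfl)
  have heg : M.ef e g := (hfaces g).2 (Or.inr rfl)
  have hside : ∃ D : Set F, (D = A ∨ D = Aᶜ) ∧ f ∉ D ∧ g ∉ D := by
    by_cases h1 : f ∈ A
    · by_cases h2 : g ∈ A
      · exact ⟨Aᶜ, Or.inr rfl, not_not.2 h1, not_not.2 h2⟩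
      · exact absurd ⟨⟨f, h1, hef⟩, g, h2, heg⟩ hfr
    · by_cases h2 : g ∈ A
      · exact absurd ⟨⟨g, h2, heg⟩, f, h1, hef⟩ hfr
      · exact ⟨A, Or.inl rfl, h1, h2⟩
  obtain ⟨D, hD, hfD, hgD⟩ := hside
  have h1 : M.ef (y i) f := fVert_between hRun hCyc hA hl hD hfD ⟨e, hi, hef⟩ ⟨e, hj, hef⟩
    le_rfl hij
  have h2 : M.ef (y i) g := fVert_between hRun hCyc hA hl hD hgD ⟨e, hi, heg⟩ ⟨e, hj, heg⟩
    le_rfl hij
  have h3 : y i ∈ fr M.toInc A := (hl.curve.mem (y i)).2 ⟨i, rfl⟩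
  have h4 : ∃ d ∈ D, M.ef (y i) d := by
    obtain ⟨⟨d, hd, hed⟩, d', hd', hed'⟩ := h3
    rcases hD with rfl | rfl
    · exact ⟨d, hd, hed⟩
    · exact ⟨d', hd', hed'⟩
  obtain ⟨d, hd, hed⟩ := h4
  obtain ⟨s, t, _, hst⟩ := M.edge_faces (y i)
  have hdf : d ≠ f := fun h => hfD (h ▸ hd)
  have hdg : d ≠ g := fun h => hgD (h ▸ hd)
  rcases (hst f).1 h1 with rfl | rfl <;> rcases (hst g).1 h2 with h | h <;>
    rcases (hst d).1 hed with h' | h' <;> simp_all

end frieze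

theorem fVert (hRun : Stmt_FRun) (hFr : Stmt_FrVertex) (hCyc : Stmt_FaceCycle) : Stmt_FVert := by
  intro V E F G _ _ _ _ M Φ U hU L
  have h1 : ∀ v m, (∃ i, v = L.x m i) ↔ (Touch M.toInc (U m) v ∧ Touch M.toInc (U m)ᶜ v) := by
    intro v m
    constructor
    · rintro ⟨i, rfl⟩
      exact fVert_touch (L.line m) i
    · rintro ⟨ht, ht'⟩
      obtain ⟨e, he, hve⟩ := hFr V E F M.toPolyMap (U m) v ht ht'
      obtain ⟨i, hi⟩ := ((L.line m).curve.mem e).1 he
      rw [← hi] at hve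
      rcases ((L.line m).curve.ve i v).1 hve with h | h
      · exact ⟨i, h⟩
      · exact ⟨i + 1, h⟩
  have h4 : ∀ m i f, M.vf (L.x m i) f → f ∈ U (m - 1) \ U (m + 1) := by
    intro m i f hf
    obtain ⟨⟨d, hd, hvd⟩, d', hd', hvd'⟩ := fVert_touch (L.line m) i
    constructor
    · by_contra hn
      have := hU.far (m - 1) d (by rw [sub_add_cancel]; exact hd) f hn d ⟨_, hvd, hvd⟩
      exact this ⟨_, hvd, hf⟩
    · intro hn
      have := hU.far m f hn d' hd' f ⟨_, hf, hf⟩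
      exact this ⟨_, hf, hvd'⟩
  have h2' : ∀ m m' i j, m < m' → L.x m i = L.x m' j → False := by
    intro m m' i j hmm h
    obtain ⟨⟨d, hd, hvd⟩, _⟩ := fVert_touch (L.line m') j
    rw [← h] at hvd
    exact (h4 m i d hvd).2 (fVert_anti hU (by omega) hd)
  refine ⟨h1, ?_, ?_, h4, ?_⟩
  · intro m m' i j h
    by_contra hne
    rcases lt_or_gt_of_ne hne with hlt | hgt
    · exact h2' m m' i j hlt h
    · exact h2' m' m j i hgt h.symm
  · intro v hv
    have hnt : ∀ m, ¬ (Touch M.toInc (U m) v ∧ Touch M.toInc (U m)ᶜ v) := by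
      intro m h
      obtain ⟨i, hi⟩ := (h1 v m).2 h
      exact hv m i hi
    -- a face of `v`
    have hface : ∃ f, M.vf v f := by
      have h1 := M.vert_card v
      have h2 : {e | M.ve v e}.Nonempty := by
        by_contra h
        rw [Set.not_nonempty_iff_eq_empty] at h
        rw [h, Set.ncard_empty] at h1
        omega
      obtain ⟨e, he⟩ := h2
      obtain ⟨f, _, _, hf⟩ := M.edge_faces e
      exact ⟨f, e, he, (hf f).2 (Or.inl rfl)⟩
    obtain ⟨f₀, hf₀⟩ := hface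
    obtain ⟨a, ha⟩ := hU.ex f₀
    obtain ⟨b, hb⟩ := hU.ex' f₀
    have hmax : ∃ m, f₀ ∈ U m ∧ f₀ ∉ U (m + 1) := by
      by_contra hcon
      push Not at hcon
      have hall : ∀ n : ℕ, f₀ ∈ U (a + n) := by
        intro n
        induction n with
        | zero => simpa using ha
        | succ n ih =>
          have := hcon _ ih
          rw [add_assoc] at this
          exact_mod_cast this
      obtain ⟨n, hn⟩ := Int.eq_ofNat_of_zero_le (show 0 ≤ |b - a| from abs_nonneg _)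
      have h5 := hall n
      apply hb
      refine fVert_anti hU ?_ h5
      have := le_abs_self (b - a)
      rw [hn] at this
      linarith
    obtain ⟨m, hm1, hm2⟩ := hmax
    refine ⟨m, fun f hf => ⟨?_, ?_⟩⟩
    · by_contra hn
      exact hnt m ⟨⟨f₀, hm1, hf₀⟩, ⟨f, hn, hf⟩⟩
    · intro hn
      exact hnt (m + 1) ⟨⟨f, hn, hf⟩, ⟨f₀, hm2, hf₀⟩⟩
  · intro m i j e hij hi hj
    rcases lt_or_gt_of_ne hij with h | h
    · exact fVert_chord hRun hCyc (hU.cut m) (L.line m) h hi hj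
    · exact fVert_chord hRun hCyc (hU.cut m) (L.line m) h hj hi

theorem fOrb : Stmt_FOrb := by
  intro V E F G _ _ _ _ M Φ U hU m
  have hinv : ∀ m g f, Φ.del g = 1 → (f ∈ U m ↔ g • f ∈ U m) := by
    intro m g f hg
    refine ⟨fun h => (hU.cut m).inv g f hg h, fun h => ?_⟩
    have := (hU.cut m).inv g⁻¹ _ (by rw [fVert_del_inv, hg]) h
    rwa [inv_smul_smul] at this
  refine ⟨?_, hinv m, ?_⟩
  · obtain ⟨W, hW, hW2⟩ := hU.orb m
    refine ⟨⋃ w ∈ W, {v | M.vf v w}, hW.biUnion fun w _ => fVert_face_fin M w, ?_⟩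
    intro v f hvf hf
    obtain ⟨n, w, hw, rfl⟩ := hW2 f hf.1 hf.2
    refine ⟨n, (Φ.τ ^ n)⁻¹ • v, ?_, (smul_inv_smul _ _).symm⟩
    simp only [mem_iUnion]
    refine ⟨w, hw, ?_⟩
    have := fVert_vf Φ (Φ.τ ^ n)⁻¹ hvf
    rwa [inv_smul_smul] at this
  · intro g f hg
    have h1 := hU.swap g m f hg
    have h2 := hU.swap g (m + 1) f hg
    have h3 : (-1 - (m + 1) : ℤ) = -2 - m := by ring
    rw [h3] at h2
    constructor
    · rintro ⟨h4, h5⟩
      exact ⟨by by_contra h6; exact h5 (h2.2 h6), h1.1 h4⟩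
    · rintro ⟨h4, h5⟩
      exact ⟨h1.2 h5, fun h6 => h2.1 h6 h4⟩

end Pool.Agent.CT
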