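import Pool.Agent.CT.DMain
import Pool.Agent.CT.FFar
import Pool.Agent.CT.FCut
import Pool.Agent.CT.FSeq
import Pool.Agent.CT.FLine
import Pool.Agent.CT.FPos
import Pool.Agent.CT.FLines
import Pool.Agent.CT.FRun
import Pool.Agent.CT.FVert
import Pool.Agent.CT.FSide
import Pool.Agent.CT.FHarm
import Pool.Agent.CT.FHeight
import Pool.Agent.CT.FCyc
import Pool.Agent.CT.FPlanar
import Pool.Agent.CT.FAdj
import Pool.Agent.CT.FConn
import Pool.Agent.CT.FLoc
import Pool.Agent.CT.FUp1
import Pool.Agent.CT.FUp2
import Pool.Agent.CT.FHyp
import Pool.Agent.CT.FFaces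
import Pool.Agent.CT.FRef
import Pool.Agent.CT.FTile
import Pool.Agent.CT.FPre
import Pool.Agent.CT.FData
import Pool.Agent.CT.FFinal

set_option autoImplicit false

/-! # Friezes: assembly -/

namespace Pool.Agent.CT

theorem fLine_final : Stmt_FLine := fLine bond_final
theorem fLines_final : Stmt_FLines := fLines fLine_final fPos
theorem fRun_final : Stmt_FRun := fRun tight_final faceCycle_final frVertex_final
theorem fVert_final : Stmt_FVert := fVert fRun_final frVertex_final faceCycle_final
theorem fSide_final : Stmt_FSide :=
  fSide fLine_final fRun_final frVertex_final faceCycle_final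
theorem fHarm_final : Stmt_FHarm := fHarm dirichlet_final fVert_final fOrb
theorem fHeight_final : Stmt_FHeight := fHeight fSide_final fVert_final fOrb harm_final
theorem fCyc_final : Stmt_FCyc := fCyc fRun_final faceCycle_final
theorem fPlanar_final : Stmt_FPlanar := fPlanar fRun_final faceCycle_final
theorem fAdj_final : Stmt_FAdj := fAdj fCyc_final fVert_final faceCycle_final
theorem fConn_final : Stmt_FConn := fConn fAdj_final fVert_final
theorem fLoc_final : Stmt_FLoc := fLoc fHeight_final fOrb fVert_final
theorem fUp1_final : Stmt_FUp1 := fUp1 upSet_final fAdj_final fConn_final fOrb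
theorem fUp2_final : Stmt_FUp2 := fUp2 upSet_final fAdj_final fConn_final fOrb fHeight_final
theorem fHyp_final : Stmt_FHyp :=
  fHyp fUp1_final fUp2_final fHeight_final fVert_final fAdj_final fCyc_final fRun_final
    faceCycle_final threeConn_final harm_final
theorem fFaces_final : Stmt_FFaces :=
  fFaces fCyc_final fPlanar_final faceCycle_final fHyp_final block_final faceStrict_final
    faceSub_final
theorem fRef_final : Stmt_FRef :=
  fRef fFaces_final fVert_final fLoc_final fHeight_final fRun_final faceCycle_final
theorem fTile_final : Stmt_FTile :=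
  fTile fRef_final fFaces_final fCyc_final fPlanar_final fHyp_final fLoc_final fHeight_final
    fVert_final count_final block_final faceCycle_final
theorem fPre_final : Stmt_FPre :=
  fPre fFaces_final fTile_final fLoc_final fHyp_final fCyc_final fPlanar_final block_final
    fVert_final faceCycle_final

theorem fCut_final : Stmt_FCut :=
  fCut fFar mainBlock_final mainBlockCompl_final biTight_final ring_final
theorem fSeq_final : Stmt_FSeq := fSeq fFar fCut_final

/-- Friezes. -/
theorem drawFrieze_final : Stmt_DrawFrieze :=
  drawFrieze (fDraw fSeq_final fLines_final fHarm_final fPre_final preInter_final) fData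

end Pool.Agent.CT
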