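import Pool.Agent.CT.HDefs

set_option autoImplicit false

/-! # The form of the isometries of the plane -/

namespace Pool.Agent.CT

open Set Metric ComplexConjugate

/-- Every isometry of the plane is `z ↦ s p + w (z - p)` or `z ↦ s p + w conj (z - p)`. -/
theorem iso_form (s : ℂ ≃ᵢ ℂ) (p : ℂ) : ∃ w : ℂ, ‖w‖ = 1 ∧
    ((∀ z, s z = s p + w * (z - p)) ∨ (∀ z, s z = s p + w * conj (z - p))) := by
  set A : ℂ ≃ᵢ ℂ := (IsometryEquiv.addRight p).trans
    (s.trans (IsometryEquiv.addRight (-(s p)))) with hA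
  have hA' : ∀ z, A z = s (z + p) - s p := by
    intro z
    simp [hA, IsometryEquiv.trans_apply, sub_eq_add_neg]
  have hA0 : A 0 = 0 := by
    rw [hA']
    simp
  obtain ⟨a, ha⟩ := linear_isometry_complex (A.toRealLinearIsometryEquivOfMapZero hA0)
  have hL : ∀ z, (A.toRealLinearIsometryEquivOfMapZero hA0) z = A z := fun z => rfl
  have key : ∀ z, s z = s p + A (z - p) := by
    intro z
    rw [hA']
    simp
  refine ⟨a, Circle.norm_coe a, ?_⟩
  rcases ha with ha | ha
  · left
    intro z
    rw [key, ← hL, ha, rotation_apply]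
  · right
    intro z
    rw [key, ← hL, ha]
    simp [rotation_apply]

/-- An isometry maps convex combinations to convex combinations. -/
theorem iso_affine (s : ℂ ≃ᵢ ℂ) (x y : ℂ) (r : ℝ) :
    s (x + (r : ℂ) * (y - x)) = s x + (r : ℂ) * (s y - s x) := by
  obtain ⟨w, -, h | h⟩ := iso_form s x
  · rw [h (x + (r : ℂ) * (y - x)), h y]
    ring
  · rw [h (x + (r : ℂ) * (y - x)), h y]
    simp only [add_sub_cancel_left, map_mul, Complex.conj_ofReal]
    ring

end Pool.Agent.CT
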