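import Pool.Agent.CT.GDefs
import Pool.Agent.CT.HIso

set_option autoImplicit false

/-! # G1: rank of the translations of the symmetry group of a tiling -/

namespace Pool.Agent.CT

open Set Metric ComplexConjugate

namespace G1aux

/-- Orientation preserving form. -/
def Pos (s : ℂ ≃ᵢ ℂ) : Prop := ∃ w b : ℂ, ∀ z, s z = b + w * z

/-- Orientation reversing form. -/
def Neg (s : ℂ ≃ᵢ ℂ) : Prop := ∃ w b : ℂ, ∀ z, s z = b + w * conj z

theorem pos_or_neg (s : ℂ ≃ᵢ ℂ) : Pos s ∨ Neg s := by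
  obtain ⟨w, -, h | h⟩ := iso_form s 0
  · left
    exact ⟨w, s 0, fun z => by rw [h z, sub_zero]⟩
  · right
    exact ⟨w, s 0, fun z => by rw [h z, sub_zero]⟩

theorem neg_mul_neg {s t : ℂ ≃ᵢ ℂ} (hs : Neg s) (ht : Neg t) : Pos (s * t) := by
  obtain ⟨w, b, hs⟩ := hs
  obtain ⟨w', b', ht⟩ := ht
  refine ⟨w * conj w', b + w * conj b', fun z => ?_⟩
  rw [IsometryEquiv.mul_apply, ht, hs]
  simp only [map_add, map_mul, Complex.conj_conj]
  ring

section

variable (K : DiscTiling)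

theorem isTrans_iff (c : ℂ) : IsTrans K c ↔ IsometryEquiv.addRight c ∈ symGroup K.T := Iff.rfl

theorem comm_of_pos (h0 : ∀ c, IsTrans K c → c = 0) {s t : ℂ ≃ᵢ ℂ} (hs : s ∈ symGroup K.T)
    (ht : t ∈ symGroup K.T) (ps : Pos s) (pt : Pos t) : ∀ z, s (t z) = t (s z) := by
  obtain ⟨w, b, hs'⟩ := ps
  obtain ⟨w', b', ht'⟩ := pt
  have key : ∀ z, s (t z) = t (s z) + ((b + w * b') - (b' + w' * b)) := by
    intro z
    rw [ht', hs', hs', ht']
    ring
  have hmem : (s * t) * (t * s)⁻¹ ∈ symGroup K.T :=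
    (symGroup K.T).mul_mem ((symGroup K.T).mul_mem hs ht)
      ((symGroup K.T).inv_mem ((symGroup K.T).mul_mem ht hs))
  have heq : (s * t) * (t * s)⁻¹ = IsometryEquiv.addRight ((b + w * b') - (b' + w' * b)) := by
    rw [mul_inv_eq_iff_eq_mul]
    apply IsometryEquiv.ext
    intro z
    rw [IsometryEquiv.mul_apply, IsometryEquiv.mul_apply, IsometryEquiv.mul_apply, key z]
    rfl
  rw [heq] at hmem
  have hc := h0 _ hmem
  intro z
  rw [key z, hc, add_zero]

/-- The orientation preserving symmetries form a finite set. -/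
theorem pos_finite (hstab : ∀ t ∈ K.T, {s : ℂ ≃ᵢ ℂ | s ∈ symGroup K.T ∧ s '' t = t}.Finite)
    (h0 : ∀ c, IsTrans K c → c = 0) : {s : ℂ ≃ᵢ ℂ | s ∈ symGroup K.T ∧ Pos s}.Finite := by
  by_cases hall : ∀ s : ℂ ≃ᵢ ℂ, s ∈ symGroup K.T → Pos s → s = 1
  · refine (finite_singleton (1 : ℂ ≃ᵢ ℂ)).subset ?_
    rintro s ⟨hs, ps⟩
    exact hall s hs ps
  · push Not at hall
    obtain ⟨g, hg, pg, hg1⟩ := hall
    have pg' := pg
    obtain ⟨w, b, hgw⟩ := pg'
    have hw : w ≠ 1 := by
      rintro rfl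
      have hgt : g = IsometryEquiv.addRight b := by
        apply IsometryEquiv.ext
        intro z
        rw [hgw z]
        show b + 1 * z = z + b
        ring
      rw [hgt] at hg
      have hb : b = 0 := h0 b hg
      apply hg1
      rw [hgt, hb]
      apply IsometryEquiv.ext
      intro z
      show z + 0 = z
      rw [add_zero]
    have hw' : 1 - w ≠ 0 := sub_ne_zero.2 (Ne.symm hw)
    set p : ℂ := b / (1 - w) with hp
    have hfix : ∀ z, g z = z ↔ z = p := by
      intro z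
      rw [hgw z, hp, eq_div_iff hw']
      constructor
      · intro h
        linear_combination -h
      · intro h
        linear_combination -h
    have hallfix : ∀ s : ℂ ≃ᵢ ℂ, s ∈ symGroup K.T → Pos s → s p = p := by
      intro s hs ps
      rw [← hfix]
      rw [comm_of_pos K h0 hg hs pg ps p, (hfix p).2 rfl]
    -- the tiles through `p`
    obtain ⟨r, hr, hfin⟩ : ∃ r > 0, {t ∈ K.T | (t ∩ closedBall p r).Nonempty}.Finite := by
      by_contra hcon
      push Not at hcon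
      exact K.nosing p (fun r hr => by
        exact hcon r hr)
    have hfinp : {t ∈ K.T | p ∈ t}.Finite := by
      refine hfin.subset ?_
      rintro t ⟨ht, hpt⟩
      exact ⟨ht, p, hpt, mem_closedBall_self hr.le⟩
    obtain ⟨t0, ht0, hpt0⟩ : ∃ t0 ∈ K.T, p ∈ t0 := by
      have : p ∈ ⋃₀ K.T := by
        rw [K.tiling.cover]
        exact mem_univ p
      exact this
    -- fibres
    have hsub : {s : ℂ ≃ᵢ ℂ | s ∈ symGroup K.T ∧ Pos s} ⊆
        ⋃ t ∈ {t ∈ K.T | p ∈ t}, {s : ℂ ≃ᵢ ℂ | s ∈ symGroup K.T ∧ s '' t0 = t} := by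
      rintro s ⟨hs, ps⟩
      rw [mem_iUnion₂]
      refine ⟨s '' t0, ⟨?_, ?_⟩, hs, rfl⟩
      · have h : (fun t => s '' t) '' K.T = K.T := hs
        exact h.subset (mem_image_of_mem _ ht0)
      · have := mem_image_of_mem s hpt0
        rwa [hallfix s hs ps] at this
    refine (hfinp.biUnion ?_).subset hsub
    rintro t -
    by_cases hne : {s : ℂ ≃ᵢ ℂ | s ∈ symGroup K.T ∧ s '' t0 = t}.Nonempty
    · obtain ⟨s0, hs0, hs0t⟩ := hne
      refine ((hstab t0 ht0).image (fun u => s0 * u)).subset ?_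
      rintro s ⟨hs, hst⟩
      refine ⟨s0⁻¹ * s, ⟨(symGroup K.T).mul_mem ((symGroup K.T).inv_mem hs0) hs, ?_⟩, ?_⟩
      · have h1 : (s0⁻¹ * s : ℂ ≃ᵢ ℂ) '' t0 = (s0⁻¹ : ℂ ≃ᵢ ℂ) '' (s '' t0) := by
          rw [image_image]
          rfl
        rw [h1, hst, ← hs0t, image_image]
        have h2 : (fun x => (s0⁻¹ : ℂ ≃ᵢ ℂ) (s0 x)) = id := by
          funext x
          rw [← IsometryEquiv.mul_apply, inv_mul_cancel]
          rfl
        rw [h2, image_id]
      · show s0 * (s0⁻¹ * s) = s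
        rw [mul_inv_cancel_left]
    · rw [not_nonempty_iff_eq_empty] at hne
      rw [hne]
      exact finite_empty

theorem group_finite (hstab : ∀ t ∈ K.T, {s : ℂ ≃ᵢ ℂ | s ∈ symGroup K.T ∧ s '' t = t}.Finite)
    (h0 : ∀ c, IsTrans K c → c = 0) : (symGroup K.T : Set (ℂ ≃ᵢ ℂ)).Finite := by
  have hpos := pos_finite K hstab h0
  by_cases hneg : ∃ s0 : ℂ ≃ᵢ ℂ, s0 ∈ symGroup K.T ∧ Neg s0
  · obtain ⟨s0, hs0, ns0⟩ := hneg
    refine (hpos.union (hpos.image (fun u => u * s0⁻¹))).subset ?_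
    intro s hs
    rcases pos_or_neg s with ps | ns
    · exact Or.inl ⟨hs, ps⟩
    · right
      refine ⟨s * s0, ⟨(symGroup K.T).mul_mem hs hs0, neg_mul_neg ns ns0⟩, ?_⟩
      show s * s0 * s0⁻¹ = s
      rw [mul_inv_cancel_right]
  · refine hpos.subset ?_
    intro s hs
    rcases pos_or_neg s with ps | ns
    · exact ⟨hs, ps⟩
    · exact absurd ⟨s, hs, ns⟩ hneg

end

end G1aux

theorem g1 : Stmt_Tri := by
  intro K hstab
  by_cases hw : WallNF K
  · exact Or.inr (Or.inr hw)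
  · by_cases ha : ∃ a : ℂ, a ≠ 0 ∧ IsTrans K a
    · obtain ⟨a, ha0, haT⟩ := ha
      refine Or.inr (Or.inl ⟨a, ha0, haT, fun b hb => ?_⟩)
      have hnot : ¬ LinearIndependent ℝ ![a, b] := fun h => hw ⟨a, b, haT, hb, h⟩
      rw [LinearIndependent.pair_iff] at hnot
      push Not at hnot
      obtain ⟨x, y, hxy, hne⟩ := hnot
      have hy : y ≠ 0 := by
        rintro rfl
        rw [zero_smul, add_zero, smul_eq_zero] at hxy
        rcases hxy with hx | hx
        · exact hne hx rfl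
        · exact ha0 hx
      refine ⟨-x / y, ?_⟩
      have hyC : (y : ℂ) ≠ 0 := Complex.ofReal_ne_zero.2 hy
      rw [Complex.real_smul, Complex.real_smul] at hxy
      push_cast
      field_simp
      linear_combination hxy
    · push Not at ha
      left
      refine G1aux.group_finite K hstab (fun c hc => ?_)
      by_contra hne
      exact ha c hne hc

end Pool.Agent.CT
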