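import Pool.Agent.CT.GDefs
import Pool.Agent.CT.HIso

set_option autoImplicit false

/-! # G2: normal form of the symmetry group in the frieze case -/

namespace Pool.Agent.CT

open Set Metric ComplexConjugate

/-- The isometry `s`, read in the coordinate `u z`, is `(x, y) ↦ (ε x + c, δ y + d)`. -/
def G2Form (u : ℂ) (s : ℂ ≃ᵢ ℂ) (ε δ c d : ℝ) : Prop :=
  ∀ z : ℂ, u * s (conj u * z) = ⟨ε * z.re + c, δ * z.im + d⟩

theorem g2_comp {u : ℂ} (hu : conj u * u = 1) {s s' : ℂ ≃ᵢ ℂ} {ε δ c d ε' δ' c' d' : ℝ}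
    (h : G2Form u s ε δ c d) (h' : G2Form u s' ε' δ' c' d') :
    G2Form u (s' * s) (ε' * ε) (δ' * δ) (ε' * c + c') (δ' * d + d') := by
  intro z
  have h1 : (s' * s) (conj u * z) = s' (conj u * (u * s (conj u * z))) := by
    rw [← mul_assoc, hu, one_mul]
    rfl
  rw [h1, h' (u * s (conj u * z)), h z]
  apply Complex.ext
  · show ε' * (ε * z.re + c) + c' = ε' * ε * z.re + (ε' * c + c')
    ring
  · show δ' * (δ * z.im + d) + d' = δ' * δ * z.im + (δ' * d + d')
    ring

theorem g2_trans {K : DiscTiling} {a u : ℂ} (hu : conj u * u = 1) (hua : u * a = (‖a‖ : ℂ))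
    (hb : ∀ b, IsTrans K b → ∃ r : ℝ, b = r * a) {s : ℂ ≃ᵢ ℂ} (hs : IsSymmetry K.T s)
    {c d : ℝ} (h : G2Form u s 1 1 c d) : d = 0 := by
  have hu' : u * conj u = 1 := by rw [mul_comm]; exact hu
  have h1 : s = IsometryEquiv.addRight (conj u * ⟨c, d⟩) := by
    ext y
    have h2 := h (u * y)
    rw [← mul_assoc, hu, one_mul] at h2
    have h3 : (⟨1 * (u * y).re + c, 1 * (u * y).im + d⟩ : ℂ) = u * y + ⟨c, d⟩ := by
      apply Complex.ext <;> simp
    rw [h3] at h2
    have h4 : conj u * (u * s y) = conj u * (u * y + ⟨c, d⟩) := by rw [h2]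
    rw [← mul_assoc, hu, one_mul, mul_add, ← mul_assoc, hu, one_mul] at h4
    rw [h4]
    rfl
  rw [h1] at hs
  obtain ⟨r, hr⟩ := hb _ hs
  have h5 : (⟨c, d⟩ : ℂ) = (r * ‖a‖ : ℝ) := by
    have h6 : u * (conj u * ⟨c, d⟩) = u * (r * a) := by rw [hr]
    rw [← mul_assoc, hu', one_mul] at h6
    rw [h6]
    push_cast
    rw [← hua]
    ring
  have h7 := congrArg Complex.im h5
  rwa [Complex.ofReal_im] at h7

theorem g2_form {K : DiscTiling} {a u : ℂ} (ha : a ≠ 0) (hu : conj u * u = 1)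
    (hua : u * a = (‖a‖ : ℂ)) (hT : IsTrans K a) (hb : ∀ b, IsTrans K b → ∃ r : ℝ, b = r * a)
    {s : ℂ ≃ᵢ ℂ} (hs : IsSymmetry K.T s) : ∃ ε δ c d : ℝ, (ε = 1 ∨ ε = -1) ∧
      (δ = 1 ∨ δ = -1) ∧ G2Form u s ε δ c d := by
  have hu' : u * conj u = 1 := by rw [mul_comm]; exact hu
  have hna : ‖a‖ ≠ 0 := norm_ne_zero_iff.mpr ha
  have hconj : s * IsometryEquiv.addRight a * s⁻¹ ∈ symGroup K.T := by
    refine mul_mem (mul_mem ?_ ?_) (inv_mem ?_)
    · exact hs
    · exact hT
    · exact hs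
  obtain ⟨w, hw, h | h⟩ := iso_form s 0
  · -- orientation preserving
    have h1 : s * IsometryEquiv.addRight a * s⁻¹ = IsometryEquiv.addRight (w * a) := by
      ext z
      show s (s.symm z + a) = z + w * a
      have h2 := h (s.symm z + a)
      have h3 := h (s.symm z)
      rw [s.apply_symm_apply] at h3
      rw [h2]
      linear_combination -h3
    rw [h1] at hconj
    obtain ⟨r, hr⟩ := hb _ hconj
    have hwr : w = r := mul_right_cancel₀ ha hr
    have hr1 : r = 1 ∨ r = -1 := by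
      rw [hwr, Complex.norm_real, Real.norm_eq_abs] at hw
      rcases abs_cases r with ⟨h4, -⟩ | ⟨h4, -⟩
      · left; linarith
      · right; linarith
    refine ⟨r, r, (u * s 0).re, (u * s 0).im, hr1, hr1, fun z => ?_⟩
    have h5 : u * s (conj u * z) = (r : ℂ) * z + u * s 0 := by
      rw [h (conj u * z), hwr]
      linear_combination ((r : ℂ) * z) * hu'
    rw [h5]
    apply Complex.ext
    · simp
    · simp
  · -- orientation reversing
    have h1 : s * IsometryEquiv.addRight a * s⁻¹ = IsometryEquiv.addRight (w * conj a) := by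
      ext z
      show s (s.symm z + a) = z + w * conj a
      have h2 := h (s.symm z + a)
      have h3 := h (s.symm z)
      rw [s.apply_symm_apply] at h3
      rw [h2]
      simp only [sub_zero, map_add] at h3 ⊢
      linear_combination -h3
    rw [h1] at hconj
    obtain ⟨r, hr⟩ := hb _ hconj
    have hca : conj a = u * (‖a‖ : ℂ) := by
      have h2 := congrArg conj hua
      rw [map_mul, Complex.conj_ofReal] at h2
      rw [← h2, ← mul_assoc, hu', one_mul]
    have haa : a = conj u * (‖a‖ : ℂ) := by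
      rw [← hua, ← mul_assoc, hu, one_mul]
    have hwu : w * u = r * conj u := by
      have h3 : w * u * (‖a‖ : ℂ) = r * conj u * (‖a‖ : ℂ) := by
        calc w * u * (‖a‖ : ℂ) = w * conj a := by rw [hca]; ring
          _ = r * a := hr
          _ = r * (conj u * (‖a‖ : ℂ)) := by rw [← haa]
          _ = r * conj u * (‖a‖ : ℂ) := by ring
      exact mul_right_cancel₀ (by exact_mod_cast hna) h3
    have hr1 : r = 1 ∨ r = -1 := by
      have h2 := congrArg norm hr
      rw [norm_mul, norm_mul, hw, one_mul, Complex.norm_conj, Complex.norm_real,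
        Real.norm_eq_abs] at h2
      have h3 : |r| = 1 := by
        have h4 : (|r| - 1) * ‖a‖ = 0 := by linarith
        rcases mul_eq_zero.mp h4 with h5 | h5
        · linarith
        · exact absurd h5 hna
      rcases abs_cases r with ⟨h4, -⟩ | ⟨h4, -⟩
      · left; linarith
      · right; linarith
    refine ⟨r, -r, (u * s 0).re, (u * s 0).im, hr1, ?_, fun z => ?_⟩
    · rcases hr1 with h2 | h2
      · right; rw [h2]
      · left; rw [h2]; norm_num
    · have h5 : u * s (conj u * z) = (r : ℂ) * conj z + u * s 0 := by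
        rw [h (conj u * z)]
        simp only [sub_zero, map_mul, Complex.conj_conj]
        linear_combination (u * conj z) * hwu + ((r : ℂ) * conj z) * hu'
      rw [h5]
      apply Complex.ext
      · simp
      · simp

/-- **G2.** -/
theorem g2 : Stmt_FriezeForm := by
  classical
  intro K a ha hT hb
  have hna : ‖a‖ ≠ 0 := norm_ne_zero_iff.mpr ha
  have hnc : (‖a‖ : ℂ) ≠ 0 := by exact_mod_cast hna
  have hcm : conj a * a = (‖a‖ : ℂ) ^ 2 := Complex.conj_mul' a
  -- the rotation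
  let uc : Circle := ⟨conj a / (‖a‖ : ℂ), mem_sphere_zero_iff_norm.mpr (by
    rw [norm_div, Complex.norm_conj, Complex.norm_real, norm_norm, div_self hna])⟩
  set u : ℂ := (uc : ℂ) with hudef
  have huv : u = conj a / (‖a‖ : ℂ) := rfl
  have hua : u * a = (‖a‖ : ℂ) := by
    rw [huv, div_mul_eq_mul_div, hcm]
    field_simp
  have hu : conj u * u = 1 := by
    rw [Complex.conj_mul', show ‖u‖ = 1 from Circle.norm_coe uc]
    norm_num
  have hu' : u * conj u = 1 := by rw [mul_comm]; exact hu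
  -- d = 0 when δ = 1
  have hd0 : ∀ s : ℂ ≃ᵢ ℂ, IsSymmetry K.T s → ∀ ε c d : ℝ, (ε = 1 ∨ ε = -1) →
      G2Form u s ε 1 c d → d = 0 := by
    intro s hs ε c d hε h
    have h1 := g2_comp hu h h
    have hss : s * s ∈ symGroup K.T := mul_mem hs hs
    have h2 : ε * ε = 1 := by rcases hε with h | h <;> rw [h] <;> norm_num
    rw [h2, one_mul, one_mul] at h1
    have h3 := g2_trans hu hua hb hss h1
    linarith
  -- equal heights when δ = -1
  have hdd : ∀ s : ℂ ≃ᵢ ℂ, IsSymmetry K.T s → ∀ ε c d : ℝ, (ε = 1 ∨ ε = -1) →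
      G2Form u s ε (-1) c d → ∀ s' : ℂ ≃ᵢ ℂ, IsSymmetry K.T s' → ∀ ε' c' d' : ℝ,
      (ε' = 1 ∨ ε' = -1) → G2Form u s' ε' (-1) c' d' → d' = d := by
    intro s hs ε c d hε h s' hs' ε' c' d' hε' h'
    have h1 := g2_comp hu h h'
    have hss : s' * s ∈ symGroup K.T := mul_mem hs' hs
    have h2 : (-1 : ℝ) * -1 = 1 := by norm_num
    rw [h2] at h1
    have h3 := hd0 _ hss (ε' * ε) _ _ (by
      rcases hε with h | h <;> rcases hε' with h' | h' <;> rw [h, h'] <;> norm_num) h1
    linarith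
  obtain ⟨D, hD⟩ : ∃ D : ℝ, ∀ s : ℂ ≃ᵢ ℂ, IsSymmetry K.T s → ∀ ε c d : ℝ,
      (ε = 1 ∨ ε = -1) → G2Form u s ε (-1) c d → d = D := by
    by_cases hex : ∃ s : ℂ ≃ᵢ ℂ, IsSymmetry K.T s ∧ ∃ ε c d : ℝ, (ε = 1 ∨ ε = -1) ∧
      G2Form u s ε (-1) c d
    · obtain ⟨s, hs, ε, c, d, hε, h⟩ := hex
      exact ⟨d, fun s' hs' ε' c' d' hε' h' => hdd s hs ε c d hε h s' hs' ε' c' d' hε' h'⟩
    · refine ⟨0, fun s hs ε c d hε h => ?_⟩
      exact absurd ⟨s, hs, ε, c, d, hε, h⟩ hex
  -- the change of coordinates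
  set t : ℂ := ⟨0, -(D / 2)⟩ with ht
  let A : ℂ ≃ᵢ ℂ := ((rotation uc).toIsometryEquiv).trans (IsometryEquiv.addRight t)
  have hA : ∀ z, A z = u * z + t := fun z => by
    show rotation uc z + t = u * z + t
    rw [rotation_apply]
  have hAs : ∀ z, A.symm z = conj u * (z - t) := by
    intro z
    apply A.injective
    rw [A.apply_symm_apply, hA, ← mul_assoc, hu', one_mul, sub_add_cancel]
  refine ⟨A, ⟨‖a‖, norm_pos_iff.mpr ha, ?_⟩, ?_⟩
  · have h1 := map_isSymmetry K A (IsometryEquiv.addRight a) hT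
    have h2 : ((A.symm.trans (IsometryEquiv.addRight a)).trans A) =
        IsometryEquiv.addRight (‖a‖ : ℂ) := by
      ext z
      show A (A.symm z + a) = z + (‖a‖ : ℂ)
      rw [hA, hAs, ← hua, mul_add, ← mul_assoc, hu', one_mul]
      ring
    rw [h2] at h1
    exact h1
  · intro s hs
    have hs0 := map_isSymmetry' K A s hs
    obtain ⟨ε, δ, c, d, hε, hδ, hf⟩ := g2_form ha hu hua hT hb hs0
    have hs1 : ∀ z, s z = A (((A.trans s).trans A.symm) (A.symm z)) := by
      intro z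
      show s z = A (A.symm (s (A (A.symm z))))
      rw [A.apply_symm_apply, A.apply_symm_apply]
    refine ⟨c, ε, δ, hε, hδ, fun z => ?_⟩
    rw [hs1 z, hA, hAs, hf (z - t)]
    rcases hδ with hδ | hδ
    · have hd : d = 0 := hd0 _ hs0 ε c d hε (hδ ▸ hf)
      rw [hδ, hd, ht]
      apply Complex.ext
      · simp
      · simp
    · have hd : d = D := hD _ hs0 ε c d hε (hδ ▸ hf)
      rw [hδ, hd, ht]
      apply Complex.ext
      · simp
      · simp
        ring

end Pool.Agent.CT
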