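import Pool.Agent.CT.HDefs

set_option autoImplicit false

/-! # H10: the length-area estimate (crosscuts with small images) -/

namespace Pool.Agent.CT

open Set Metric Filter Topology MeasureTheory

/-- The strip on which the logarithmic coordinate lives. -/
def h10R : Set ℂ := {w | |w.im| < Real.pi / 2 ∧ ‖1 - Complex.exp w‖ < 1}

theorem h10R_open : IsOpen h10R := by
  apply IsOpen.inter
  · exact isOpen_lt (continuous_abs.comp Complex.continuous_im) continuous_const
  · exact isOpen_lt ((continuous_const.sub Complex.continuous_exp).norm) continuous_const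

theorem h10R_mem {w : ℂ} : w ∈ h10R ↔ |w.im| < Real.pi / 2 ∧ Real.exp w.re < 2 * Real.cos w.im := by
  unfold h10R
  rw [mem_setOf_eq]
  refine and_congr_right fun h => ?_
  have h1 : ‖1 - Complex.exp w‖ ^ 2 = 1 - 2 * (Real.exp w.re * Real.cos w.im)
      + Real.exp w.re ^ 2 := by
    rw [← Complex.normSq_eq_norm_sq, Complex.normSq_apply]
    simp only [Complex.sub_re, Complex.sub_im, Complex.one_re, Complex.one_im, Complex.exp_re,
      Complex.exp_im]
    have := Real.sin_sq_add_cos_sq w.im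
    nlinarith
  have hpos := Real.exp_pos w.re
  constructor
  · intro h2
    have h3 : ‖1 - Complex.exp w‖ ^ 2 < 1 := by
      have := norm_nonneg (1 - Complex.exp w)
      nlinarith
    rw [h1] at h3
    nlinarith
  · intro h2
    have h3 : ‖1 - Complex.exp w‖ ^ 2 < 1 := by
      rw [h1]
      nlinarith
    have := norm_nonneg (1 - Complex.exp w)
    nlinarith

theorem h10R_convex {x y1 y2 y : ℝ} (h1 : (⟨x, y1⟩ : ℂ) ∈ h10R) (h2 : (⟨x, y2⟩ : ℂ) ∈ h10R)
    (hy1 : y1 ≤ y) (hy2 : y ≤ y2) : (⟨x, y⟩ : ℂ) ∈ h10R := by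
  rw [h10R_mem] at h1 h2 ⊢
  simp only at h1 h2 ⊢
  obtain ⟨h1a, h1b⟩ := h1
  obtain ⟨h2a, h2b⟩ := h2
  rcases le_total |y1| |y2| with h | h
  · have hy : |y| ≤ |y2| := by
      rw [abs_le]
      constructor
      · have := neg_abs_le y1
        linarith
      · exact hy2.trans (le_abs_self _)
    refine ⟨lt_of_le_of_lt hy h2a, lt_of_lt_of_le h2b ?_⟩
    have := Real.cos_le_cos_of_nonneg_of_le_pi (abs_nonneg y)
      (by linarith [Real.pi_pos] : |y2| ≤ Real.pi) hy
    rw [Real.cos_abs, Real.cos_abs] at this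
    linarith
  · have hy : |y| ≤ |y1| := by
      rw [abs_le]
      constructor
      · have := neg_abs_le y1
        linarith
      · have := le_abs_self y2
        linarith
    refine ⟨lt_of_le_of_lt hy h1a, lt_of_lt_of_le h1b ?_⟩
    have := Real.cos_le_cos_of_nonneg_of_le_pi (abs_nonneg y)
      (by linarith [Real.pi_pos] : |y1| ≤ Real.pi) hy
    rw [Real.cos_abs, Real.cos_abs] at this
    linarith

theorem h10_det (z : ℂ) :
    ((ContinuousLinearMap.toSpanSingleton ℂ z).restrictScalars ℝ).det = ‖z‖ ^ 2 := by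
  have h : (((ContinuousLinearMap.toSpanSingleton ℂ z).restrictScalars ℝ : ℂ →L[ℝ] ℂ) :
      ℂ →ₗ[ℝ] ℂ) = Algebra.lmul ℝ ℂ z := by
    ext w <;> simp [mul_comm]
  unfold ContinuousLinearMap.det
  rw [h, ← Algebra.norm_apply, Algebra.norm_complex_apply, Complex.normSq_eq_norm_sq]

theorem h10 : Stmt_Crosscut := by
  intro f hf hinj hbd ζ hζ ε hε ρ hρ
  classical
  -- the map in logarithmic coordinates
  set g : ℂ → ℂ := fun w => f (ζ * (1 - Complex.exp w)) with hg
  have hmap : ∀ w ∈ h10R, ζ * (1 - Complex.exp w) ∈ ball (0 : ℂ) 1 := by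
    intro w hw
    rw [mem_ball_zero_iff, norm_mul, hζ, one_mul]
    exact hw.2
  have hdiff : ∀ w ∈ h10R, DifferentiableAt ℂ g w := by
    intro w hw
    have h1 : DifferentiableAt ℂ f (ζ * (1 - Complex.exp w)) :=
      (hf _ (hmap w hw)).differentiableAt (isOpen_ball.mem_nhds (hmap w hw))
    exact h1.comp w (by fun_prop)
  have hζ0 : ζ ≠ 0 := by
    rintro rfl
    simp at hζ
  have hginj : InjOn g h10R := by
    intro w hw w' hw' h
    have h1 := hinj (hmap w hw) (hmap w' hw') h
    have h2 := mul_left_cancel₀ hζ0 h1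
    have h3 : Complex.exp w = Complex.exp w' := by linear_combination -h2
    have hw1 := abs_lt.1 hw.1
    have hw2 := abs_lt.1 hw'.1
    have hpi := Real.pi_pos
    exact Complex.exp_inj_of_neg_pi_lt_of_le_pi (by linarith) (by linarith) (by linarith)
      (by linarith) h3
  -- finite area
  have harea : (∫⁻ w in h10R, ENNReal.ofReal (‖deriv g w‖ ^ 2)) < ⊤ := by
    have h1 := lintegral_abs_det_fderiv_eq_addHaar_image (volume : Measure ℂ)
      (s := h10R) (f := g)
      (f' := fun w => (ContinuousLinearMap.toSpanSingleton ℂ (deriv g w)).restrictScalars ℝ)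
      h10R_open.measurableSet
      (fun w hw => (((hdiff w hw).hasDerivAt.hasFDerivAt).restrictScalars ℝ).hasFDerivWithinAt)
      hginj
    have h2 : (∫⁻ w in h10R, ENNReal.ofReal (‖deriv g w‖ ^ 2)) = volume (g '' h10R) := by
      rw [← h1]
      congr 1
      funext w
      rw [h10_det, abs_of_nonneg (by positivity)]
    rw [h2]
    have h3 : g '' h10R ⊆ f '' ball 0 1 := by
      rintro _ ⟨w, hw, rfl⟩
      exact ⟨_, hmap w hw, rfl⟩
    exact lt_of_le_of_lt (measure_mono h3) hbd.measure_lt_top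
  -- Fubini
  set Fn : ℂ → ENNReal := h10R.indicator (fun w => ENNReal.ofReal (‖deriv g w‖ ^ 2)) with hFn
  have hFm : Measurable Fn := by
    apply Measurable.indicator _ h10R_open.measurableSet
    exact ENNReal.measurable_ofReal.comp ((measurable_deriv g).norm.pow_const 2)
  have hfub : (∫⁻ x : ℝ, ∫⁻ y : ℝ, Fn ⟨x, y⟩) < ⊤ := by
    have h1 : (∫⁻ w, Fn w) < ⊤ := by
      rw [hFn, lintegral_indicator h10R_open.measurableSet]
      exact harea
    have h2 : (∫⁻ w, Fn w) = ∫⁻ p : ℝ × ℝ, Fn (Complex.measurableEquivRealProd.symm p) := by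
      rw [← (Complex.volume_preserving_equiv_real_prod.symm).lintegral_comp hFm]
    rw [h2, Measure.volume_eq_prod, lintegral_prod] at h1
    · exact h1
    · exact (hFm.comp Complex.measurableEquivRealProd.symm.measurable).aemeasurable
  -- a slice with small energy
  set δ : ℝ := ε ^ 2 / Real.pi with hδ
  have hpi := Real.pi_pos
  have hδ0 : 0 < δ := by positivity
  obtain ⟨x, hx, hE⟩ : ∃ x, x < Real.log ρ ∧ (∫⁻ y : ℝ, Fn ⟨x, y⟩) ≤ ENNReal.ofReal δ := by
    by_contra hcon
    push Not at hcon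
    have h1 : (∫⁻ x in Iio (Real.log ρ), ENNReal.ofReal δ) ≤ ∫⁻ x : ℝ, ∫⁻ y : ℝ, Fn ⟨x, y⟩ := by
      refine le_trans ?_ (setLIntegral_le_lintegral (Iio (Real.log ρ)) _)
      apply setLIntegral_mono' measurableSet_Iio
      intro x hx
      exact (hcon x hx).le
    rw [setLIntegral_const, Real.volume_Iio, ENNReal.mul_top
      (by simpa using hδ0)] at h1
    exact absurd hfub (not_lt.2 h1)
  refine ⟨Real.exp x, Real.exp_pos x, ?_, ?_⟩
  · calc Real.exp x < Real.exp (Real.log ρ) := Real.exp_lt_exp.2 hx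
      _ = ρ := Real.exp_log hρ
  -- coordinates of points on the circle
  have hcoord : ∀ z ∈ ball (0 : ℂ) 1, dist z ζ = Real.exp x → ∃ y : ℝ, (⟨x, y⟩ : ℂ) ∈ h10R ∧
      f z = g ⟨x, y⟩ := by
    intro z hz hd
    have hzz : ‖ζ‖ ≠ 0 := by rw [hζ]; exact one_ne_zero
    set w : ℂ := 1 - z / ζ with hw
    have hwz : ζ * (1 - w) = z := by
      rw [hw]
      field_simp
      ring
    have hwn : ‖w‖ = Real.exp x := by
      rw [← hd, dist_eq_norm]
      have : z - ζ = -(ζ * w) := by
        rw [hw]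
        field_simp
        ring
      rw [this, norm_neg, norm_mul, hζ, one_mul]
    have hw0 : w ≠ 0 := by
      intro h0
      rw [h0, norm_zero] at hwn
      exact (Real.exp_pos x).ne hwn
    have hwlt : ‖1 - w‖ < 1 := by
      have : ‖ζ * (1 - w)‖ < 1 := by
        rw [hwz]
        simpa using hz
      rwa [norm_mul, hζ, one_mul] at this
    have hre : 0 < w.re := by
      have h1 : ‖1 - w‖ ^ 2 < 1 := by
        have := norm_nonneg (1 - w)
        nlinarith
      rw [← Complex.normSq_eq_norm_sq, Complex.normSq_apply] at h1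
      simp only [Complex.sub_re, Complex.sub_im, Complex.one_re, Complex.one_im] at h1
      nlinarith [mul_self_nonneg w.re, mul_self_nonneg w.im]
    have hexp : Complex.exp ⟨x, w.arg⟩ = w := by
      have h1 : (⟨x, w.arg⟩ : ℂ) = Complex.log w := by
        apply Complex.ext
        · rw [Complex.log_re, hwn, Real.log_exp]
        · rw [Complex.log_im]
      rw [h1, Complex.exp_log hw0]
    refine ⟨w.arg, ⟨Complex.abs_arg_lt_pi_div_two_iff.2 (Or.inl hre), ?_⟩, ?_⟩
    · rw [hexp]
      exact hwlt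
    · show f z = f (ζ * (1 - Complex.exp ⟨x, w.arg⟩))
      rw [hexp, hwz]
  -- the length estimate
  have hlen : ∀ y1 y2 : ℝ, y1 ≤ y2 → (⟨x, y1⟩ : ℂ) ∈ h10R → (⟨x, y2⟩ : ℂ) ∈ h10R →
      dist (g ⟨x, y1⟩) (g ⟨x, y2⟩) ≤ ε := by
    intro y1 y2 hy h1 h2
    have hmem : ∀ y ∈ uIcc y1 y2, (⟨x, y⟩ : ℂ) ∈ h10R := by
      intro y hy'
      rw [uIcc_of_le hy] at hy'
      exact h10R_convex h1 h2 hy'.1 hy'.2
    have hline : ∀ y : ℝ, HasDerivAt (fun y : ℝ => (⟨x, y⟩ : ℂ)) Complex.I y := by
      intro y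
      have h3 : HasDerivAt (fun y : ℝ => (x : ℂ) + (y : ℂ) * Complex.I) (0 + 1 * Complex.I) y :=
        (hasDerivAt_const y (x : ℂ)).add ((Complex.ofRealCLM.hasDerivAt (x := y)).mul_const
          Complex.I)
      have h4 : (fun y : ℝ => (⟨x, y⟩ : ℂ)) = fun y : ℝ => (x : ℂ) + (y : ℂ) * Complex.I := by
        funext y
        exact Complex.mk_eq_add_mul_I x y
      rw [h4]
      simpa using h3
    have hcl : Continuous (fun y : ℝ => (⟨x, y⟩ : ℂ)) :=
      continuous_iff_continuousAt.2 fun y => (hline y).continuousAt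
    have hder : ∀ y ∈ uIcc y1 y2, HasDerivAt (fun y : ℝ => g ⟨x, y⟩)
        (deriv g ⟨x, y⟩ * Complex.I) y := by
      intro y hy'
      exact (hdiff _ (hmem y hy')).hasDerivAt.comp y (hline y)
    have hdc : ContinuousOn (deriv g) h10R := by
      have : DifferentiableOn ℂ g h10R := fun w hw => (hdiff w hw).differentiableWithinAt
      exact (this.deriv h10R_open).continuousOn
    have hc : ContinuousOn (fun y : ℝ => deriv g ⟨x, y⟩) (uIcc y1 y2) :=
      hdc.comp hcl.continuousOn hmem
    have hFTC := intervalIntegral.integral_eq_sub_of_hasDerivAt hder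
      (hc.mul continuousOn_const).intervalIntegrable
    rw [dist_comm, dist_eq_norm, ← hFTC]
    refine (intervalIntegral.norm_integral_le_integral_norm hy).trans ?_
    have hle : ∀ y ∈ Icc y1 y2, ‖deriv g ⟨x, y⟩ * Complex.I‖ ≤
        Real.pi / (2 * ε) * ‖deriv g ⟨x, y⟩‖ ^ 2 + ε / (2 * Real.pi) := by
      intro y _
      rw [norm_mul, Complex.norm_I, mul_one]
      set t := ‖deriv g ⟨x, y⟩‖
      have h5 : 0 ≤ (Real.pi * t - ε) ^ 2 := sq_nonneg _
      have h6 : Real.pi / (2 * ε) * t ^ 2 + ε / (2 * Real.pi) - t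
          = (Real.pi * t - ε) ^ 2 / (2 * ε * Real.pi) := by
        field_simp
        ring
      have h7 : 0 ≤ (Real.pi * t - ε) ^ 2 / (2 * ε * Real.pi) := by positivity
      linarith
    have hsq : ContinuousOn (fun y : ℝ => ‖deriv g ⟨x, y⟩‖ ^ 2) (uIcc y1 y2) := (hc.norm).pow 2
    have hint : IntervalIntegrable (fun y : ℝ => ‖deriv g ⟨x, y⟩‖ ^ 2) volume y1 y2 :=
      hsq.intervalIntegrable
    refine (intervalIntegral.integral_mono_on hy
      ((hc.mul continuousOn_const).norm).intervalIntegrable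
      ((hint.const_mul _).add intervalIntegrable_const) hle).trans ?_
    rw [intervalIntegral.integral_add (hint.const_mul _) intervalIntegrable_const,
      intervalIntegral.integral_const_mul, intervalIntegral.integral_const]
    have hen : (∫ y in y1..y2, ‖deriv g ⟨x, y⟩‖ ^ 2) ≤ δ := by
      rw [intervalIntegral.integral_of_le hy]
      have h8 : IntegrableOn (fun y : ℝ => ‖deriv g ⟨x, y⟩‖ ^ 2) (Ioc y1 y2) volume :=
        (intervalIntegrable_iff_integrableOn_Ioc_of_le hy).1 hint
      have h9 : ENNReal.ofReal (∫ y in Ioc y1 y2, ‖deriv g ⟨x, y⟩‖ ^ 2) ≤ ENNReal.ofReal δ := by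
        rw [ofReal_integral_eq_lintegral_ofReal h8 (ae_of_all _ fun y => by positivity)]
        refine le_trans ?_ hE
        rw [← lintegral_indicator measurableSet_Ioc]
        apply lintegral_mono
        intro y
        by_cases hyI : y ∈ Ioc y1 y2
        · have hm := hmem y (by rw [uIcc_of_le hy]; exact ⟨hyI.1.le, hyI.2⟩)
          have h10 : Fn ⟨x, y⟩ = ENNReal.ofReal (‖deriv g ⟨x, y⟩‖ ^ 2) := by
            rw [hFn]
            exact indicator_of_mem hm _
          rw [indicator_of_mem hyI]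
          exact h10.ge
        · rw [indicator_of_notMem hyI]
          exact zero_le
      exact (ENNReal.ofReal_le_ofReal_iff hδ0.le).1 h9
    have hyd : y2 - y1 ≤ Real.pi := by
      have h3 := abs_lt.1 h1.1
      have h4 := abs_lt.1 h2.1
      simp only at h3 h4
      linarith
    have hA : Real.pi / (2 * ε) * (∫ y in y1..y2, ‖deriv g ⟨x, y⟩‖ ^ 2) ≤ ε / 2 := by
      calc Real.pi / (2 * ε) * (∫ y in y1..y2, ‖deriv g ⟨x, y⟩‖ ^ 2)
          ≤ Real.pi / (2 * ε) * δ := by gcongr
        _ = ε / 2 := by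
          rw [hδ]
          field_simp
    have hB : (y2 - y1) • (ε / (2 * Real.pi)) ≤ ε / 2 := by
      rw [smul_eq_mul]
      calc (y2 - y1) * (ε / (2 * Real.pi)) ≤ Real.pi * (ε / (2 * Real.pi)) := by gcongr
        _ = ε / 2 := by field_simp
    linarith
  intro z hz w hw hzr hwr
  obtain ⟨y1, h1, h1'⟩ := hcoord z hz hzr
  obtain ⟨y2, h2, h2'⟩ := hcoord w hw hwr
  rw [h1', h2']
  rcases le_total y1 y2 with h | h
  · exact hlen y1 y2 h h1 h2
  · rw [dist_comm]
    exact hlen y2 y1 h h2 h1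

end Pool.Agent.CT
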