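import Pool.Agent.CT.HDefs

set_option autoImplicit false

/-! # H11: uniform continuity at the boundary -/

namespace Pool.Agent.CT

open Set Metric Filter Topology

section coords

variable {t : Set ℂ} (e : closedBall (0 : ℂ) 1 ≃ₜ t)

/-- The chart as a function on the plane. -/
noncomputable def h11E (z : ℂ) : ℂ :=
  @dite ℂ (z ∈ closedBall (0 : ℂ) 1) (Classical.propDecidable _) (fun h => (e ⟨z, h⟩ : ℂ)) (fun _ => 0)

/-- The inverse of the chart as a function on the plane. -/
noncomputable def h11K (p : ℂ) : ℂ :=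
  @dite ℂ (p ∈ t) (Classical.propDecidable _) (fun h => (e.symm ⟨p, h⟩ : ℂ)) (fun _ => 0)

theorem h11E_eq {z : ℂ} (h : z ∈ closedBall (0 : ℂ) 1) : h11E e z = (e ⟨z, h⟩ : ℂ) := by
  unfold h11E
  rw [dif_pos h]

theorem h11K_eq {p : ℂ} (h : p ∈ t) : h11K e p = (e.symm ⟨p, h⟩ : ℂ) := by
  unfold h11K
  rw [dif_pos h]

theorem h11E_mem {z : ℂ} (h : z ∈ closedBall (0 : ℂ) 1) : h11E e z ∈ t := by
  rw [h11E_eq e h]
  exact (e ⟨z, h⟩).2

theorem h11K_mem {p : ℂ} (h : p ∈ t) : h11K e p ∈ closedBall (0 : ℂ) 1 := by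
  rw [h11K_eq e h]
  exact (e.symm ⟨p, h⟩).2

theorem h11KE {z : ℂ} (h : z ∈ closedBall (0 : ℂ) 1) : h11K e (h11E e z) = z := by
  rw [h11K_eq e (h11E_mem e h)]
  have : (⟨h11E e z, h11E_mem e h⟩ : t) = e ⟨z, h⟩ := Subtype.ext (h11E_eq e h)
  rw [this, e.symm_apply_apply]

theorem h11EK {p : ℂ} (h : p ∈ t) : h11E e (h11K e p) = p := by
  rw [h11E_eq e (h11K_mem e h)]
  have : (⟨h11K e p, h11K_mem e h⟩ : closedBall (0 : ℂ) 1) = e.symm ⟨p, h⟩ :=
    Subtype.ext (h11K_eq e h)
  rw [this, e.apply_symm_apply]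

theorem h11E_cont : ContinuousOn (h11E e) (closedBall 0 1) := by
  rw [continuousOn_iff_continuous_restrict]
  have : (closedBall (0 : ℂ) 1).domRestrict (h11E e) = fun z => ((e z : t) : ℂ) := by
    funext z
    exact h11E_eq e z.2
  rw [this]
  exact continuous_subtype_val.comp e.continuous

theorem h11K_cont : ContinuousOn (h11K e) t := by
  rw [continuousOn_iff_continuous_restrict]
  have : t.domRestrict (h11K e) = fun z => ((e.symm z : closedBall (0 : ℂ) 1) : ℂ) := by
    funext z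
    exact h11K_eq e z.2
  rw [this]
  exact continuous_subtype_val.comp e.symm.continuous

end coords

/-- The disc minus a small disc centred at a boundary point is connected. -/
theorem h11_conn {a : ℂ} (ha : ‖a‖ = 1) {ε : ℝ} (hε1 : ε < 1) :
    IsPreconnected {w : ℂ | ‖w‖ < 1 ∧ ε < ‖w - a‖} := by
  have hpre : ∀ ρ : Ioo (0 : ℝ) 1, IsPreconnected {w : ℂ | ‖w‖ ≤ ρ ∧ ε < ‖w - a‖} := by
    rintro ⟨ρ, hρ0, hρ1⟩
    have hc : (-(ρ : ℂ) * a) ∈ {w : ℂ | ‖w‖ ≤ ρ ∧ ε < ‖w - a‖} := by
      constructor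
      · rw [norm_mul, norm_neg, ha, mul_one, Complex.norm_real, Real.norm_eq_abs,
          abs_of_pos hρ0]
      · have : -(ρ : ℂ) * a - a = -((1 + ρ : ℝ) : ℂ) * a := by
          push_cast
          ring
        rw [this, norm_mul, norm_neg, ha, mul_one, Complex.norm_real, Real.norm_eq_abs,
          abs_of_pos (by linarith)]
        linarith
    have hst : StarConvex ℝ (-(ρ : ℂ) * a) {w : ℂ | ‖w‖ ≤ ρ ∧ ε < ‖w - a‖} := by
      intro w hw s r hs hr hsr
      obtain ⟨hw1, hw2⟩ := hw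
      constructor
      · calc ‖s • (-(ρ : ℂ) * a) + r • w‖ ≤ ‖s • (-(ρ : ℂ) * a)‖ + ‖r • w‖ := norm_add_le _ _
          _ ≤ s * ρ + r * ρ := by
            rw [norm_smul, norm_smul, Real.norm_of_nonneg hs, Real.norm_of_nonneg hr]
            have h1 := hc.1
            gcongr
          _ = ρ := by rw [← add_mul, hsr, one_mul]
      · refine lt_of_lt_of_le hw2 ?_
        have hr' : r = 1 - s := by linarith
        subst hr'
        have haa : a.re ^ 2 + a.im ^ 2 = 1 := by
          have := Complex.sq_norm a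
          rw [ha, Complex.normSq_apply] at this
          nlinarith
        have hww : w.re ^ 2 + w.im ^ 2 ≤ ρ ^ 2 := by
          have := Complex.sq_norm w
          rw [Complex.normSq_apply] at this
          have h0 := norm_nonneg w
          nlinarith
        have hdot : -ρ ≤ a.re * w.re + a.im * w.im := by
          nlinarith [sq_nonneg (a.re * w.re + a.im * w.im + ρ), sq_nonneg (a.re * w.im - a.im * w.re),
            sq_nonneg (w.re + ρ * a.re), sq_nonneg (w.im + ρ * a.im)]
        have key : ‖w - a‖ ^ 2 ≤ ‖s • (-(ρ : ℂ) * a) + (1 - s) • w - a‖ ^ 2 := by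
          rw [Complex.sq_norm, Complex.sq_norm, Complex.normSq_apply, Complex.normSq_apply]
          simp only [Complex.sub_re, Complex.sub_im, Complex.add_re, Complex.add_im,
            Complex.smul_re, Complex.smul_im, Complex.mul_re, Complex.mul_im, Complex.neg_re,
            Complex.neg_im, Complex.ofReal_re, Complex.ofReal_im, smul_eq_mul]
          have hin : 0 ≤ ρ - (w.re ^ 2 + w.im ^ 2) + (1 - ρ) * (a.re * w.re + a.im * w.im) := by
            nlinarith
          have hin' : 0 ≤ s * (ρ * (a.re ^ 2 + a.im ^ 2) - (w.re ^ 2 + w.im ^ 2)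
              + (1 - ρ) * (a.re * w.re + a.im * w.im)) := by
            rw [haa, mul_one]
            exact mul_nonneg hs hin
          have hs2 := sq_nonneg (s * (-ρ * a.re - w.re))
          have hs3 := sq_nonneg (s * (-ρ * a.im - w.im))
          have hid : (s * (-ρ * a.re - -0 * a.im) + (1 - s) * w.re - a.re) *
              (s * (-ρ * a.re - -0 * a.im) + (1 - s) * w.re - a.re) +
              (s * (-ρ * a.im + -0 * a.re) + (1 - s) * w.im - a.im) *
              (s * (-ρ * a.im + -0 * a.re) + (1 - s) * w.im - a.im) -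
              ((w.re - a.re) * (w.re - a.re) + (w.im - a.im) * (w.im - a.im)) =
              2 * (s * (ρ * (a.re ^ 2 + a.im ^ 2) - (w.re ^ 2 + w.im ^ 2)
              + (1 - ρ) * (a.re * w.re + a.im * w.im))) + (s * (-ρ * a.re - w.re)) ^ 2
              + (s * (-ρ * a.im - w.im)) ^ 2 := by ring
          linarith
        exact (sq_le_sq₀ (norm_nonneg _) (norm_nonneg _)).1 key
    exact (hst.isPathConnected hc).isConnected.isPreconnected
  have hun : {w : ℂ | ‖w‖ < 1 ∧ ε < ‖w - a‖} =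
      ⋃ ρ : Ioo (0 : ℝ) 1, {w : ℂ | ‖w‖ ≤ ρ ∧ ε < ‖w - a‖} := by
    ext w
    simp only [mem_setOf_eq, mem_iUnion]
    constructor
    · rintro ⟨h1, h2⟩
      have h0 := norm_nonneg w
      exact ⟨⟨(‖w‖ + 1) / 2, by constructor <;> linarith⟩, by
        show ‖w‖ ≤ (‖w‖ + 1) / 2
        linarith, h2⟩
    · rintro ⟨⟨ρ, h0, h1⟩, h2, h3⟩
      exact ⟨lt_of_le_of_lt h2 h1, h3⟩
  rw [hun]
  apply isPreconnected_iUnion
  · refine ⟨0, mem_iInter.2 ?_⟩
    rintro ⟨ρ, h0, h1⟩
    refine ⟨by simpa using h0.le, ?_⟩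
    rw [zero_sub, norm_neg, ha]
    exact hε1
  · exact hpre

theorem h11 (h2 : Stmt_DiscTop) (h6 : Stmt_HoloInv) (h10 : Stmt_Crosscut) : Stmt_BdCont := by
  intro t e f hfd hfi hfim ζ hζ ε hε
  obtain ⟨hint, -, -, htc⟩ := h2 t e
  obtain ⟨-, -, g, hgd, hgf⟩ := h6 (ball 0 1) isOpen_ball f hfd hfi
  rw [hfim] at hgd
  have hintE : ∀ z ∈ closedBall (0 : ℂ) 1, (h11E e z ∈ interior t ↔ ‖z‖ < 1) := by
    intro z hz
    rw [h11E_eq e hz]
    exact hint ⟨z, hz⟩
  have hft : ∀ z ∈ ball (0 : ℂ) 1, f z ∈ interior t := by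
    intro z hz
    rw [← hfim]
    exact ⟨z, hz, rfl⟩
  have hKlt : ∀ p ∈ interior t, ‖h11K e p‖ < 1 := by
    intro p hp
    have hpt := interior_subset hp
    rw [← hintE _ (h11K_mem e hpt), h11EK e hpt]
    exact hp
  have hsub : ∀ w : ℂ, ‖w‖ < 1 → w ∈ closedBall (0 : ℂ) 1 := by
    intro w hw
    rw [mem_closedBall_zero_iff]
    exact hw.le
  -- uniform continuity
  obtain ⟨η, hη, hEu⟩ := Metric.uniformContinuousOn_iff.1
    ((isCompact_closedBall (0 : ℂ) 1).uniformContinuousOn_of_continuous (h11E_cont e)) ε hε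
  set ε1 : ℝ := min (η / 3) (1 / 4) with hε1
  have hε1pos : 0 < ε1 := by positivity
  have hε1a : ε1 ≤ η / 3 := min_le_left _ _
  have hε1b : ε1 ≤ 1 / 4 := min_le_right _ _
  obtain ⟨ε2, hε2, hKu⟩ := Metric.uniformContinuousOn_iff.1
    (htc.uniformContinuousOn_of_continuous (h11K_cont e)) (ε1 / 2) (by positivity)
  -- the point over the centre
  have h0t : h11E e 0 ∈ interior t := (hintE 0 (hsub 0 (by simp))).2 (by simp)
  obtain ⟨z0, hz0, hz0f⟩ : ∃ z0 ∈ ball (0 : ℂ) 1, f z0 = h11E e 0 := by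
    rw [← hfim] at h0t
    exact h0t
  have hz0ζ : 0 < dist z0 ζ := by
    rw [dist_pos]
    rintro rfl
    rw [mem_ball_zero_iff, hζ] at hz0
    exact lt_irrefl _ hz0
  obtain ⟨r, hr0, hr1, hr2⟩ := h10 f hfd hfi (by
    rw [hfim]
    exact htc.isBounded.subset interior_subset) ζ hζ (ε2 / 2) (by positivity) (dist z0 ζ) hz0ζ
  have hr_lt2 : r < 2 := by
    have h3 : dist z0 ζ < 2 := by
      calc dist z0 ζ ≤ dist z0 0 + dist 0 ζ := dist_triangle _ _ _
        _ < 1 + 1 := by
          rw [dist_zero_right, dist_zero_left, hζ]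
          have := mem_ball_zero_iff.1 hz0
          linarith
        _ = 2 := by norm_num
    linarith
  -- points on the crosscut tending to the circle
  obtain ⟨zn, hzn1, hzn2, hzn3⟩ : ∃ zn : ℕ → ℂ, (∀ n, zn n ∈ ball (0 : ℂ) 1) ∧
      (∀ n, dist (zn n) ζ = r) ∧ Tendsto (fun n => ‖zn n‖) atTop (𝓝 1) := by
    set cn : ℕ → ℝ := fun n => r / 2 + (1 - r / 2) * (1 / ((n : ℝ) + 1)) with hcn
    have hcn1 : ∀ n, r / 2 < cn n := by
      intro n
      have : 0 < (1 - r / 2) * (1 / ((n : ℝ) + 1)) := by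
        apply mul_pos (by linarith)
        positivity
      simp only [hcn]
      linarith
    have hcn2 : ∀ n, cn n ≤ 1 := by
      intro n
      have : (1 - r / 2) * (1 / ((n : ℝ) + 1)) ≤ (1 - r / 2) * 1 := by
        apply mul_le_mul_of_nonneg_left _ (by linarith)
        rw [div_le_one (by positivity)]
        have : (0 : ℝ) ≤ n := Nat.cast_nonneg n
        linarith
      simp only [hcn]
      linarith
    have hlim : Tendsto cn atTop (𝓝 (r / 2)) := by
      have h3 := (tendsto_one_div_add_atTop_nhds_zero_nat (𝕜 := ℝ)).const_mul (1 - r / 2)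
      have h4 := h3.const_add (r / 2)
      simpa [hcn] using h4
    set un : ℕ → ℂ := fun n => ⟨cn n, Real.sqrt (1 - cn n ^ 2)⟩ with hun
    have hun1 : ∀ n, ‖un n‖ = 1 := by
      intro n
      have h3 : 0 ≤ 1 - cn n ^ 2 := by
        have := hcn1 n
        have := hcn2 n
        nlinarith
      have h4 : ‖un n‖ ^ 2 = 1 := by
        rw [Complex.sq_norm, Complex.normSq_apply]
        simp only [hun]
        rw [Real.mul_self_sqrt h3]
        ring
      have h5 := norm_nonneg (un n)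
      nlinarith
    have hnorm : ∀ n, ‖ζ * (1 - r * un n)‖ ^ 2 = 1 - 2 * r * cn n + r ^ 2 := by
      intro n
      rw [norm_mul, hζ, one_mul, Complex.sq_norm, Complex.normSq_apply]
      have h4 : (un n).re ^ 2 + (un n).im ^ 2 = 1 := by
        have := Complex.sq_norm (un n)
        rw [hun1, Complex.normSq_apply] at this
        nlinarith
      have h5 : (un n).re = cn n := rfl
      simp only [Complex.sub_re, Complex.sub_im, Complex.one_re, Complex.one_im, Complex.mul_re,
        Complex.mul_im, Complex.ofReal_re, Complex.ofReal_im]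
      rw [h5] at h4 ⊢
      nlinarith
    refine ⟨fun n => ζ * (1 - r * un n), ?_, ?_, ?_⟩
    · intro n
      rw [mem_ball_zero_iff]
      have h3 := hnorm n
      have h4 := norm_nonneg (ζ * (1 - r * un n))
      have h5 := hcn1 n
      have h6 : ‖ζ * (1 - r * un n)‖ ^ 2 < 1 := by
        rw [h3]
        nlinarith
      nlinarith
    · intro n
      rw [dist_eq_norm]
      have : ζ * (1 - r * un n) - ζ = -(ζ * (r * un n)) := by ring
      rw [this, norm_neg, norm_mul, norm_mul, hζ, hun1, Complex.norm_real, Real.norm_eq_abs,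
        abs_of_pos hr0]
      ring
    · have h3 : Tendsto (fun n => Real.sqrt (1 - 2 * r * cn n + r ^ 2)) atTop
          (𝓝 (Real.sqrt (1 - 2 * r * (r / 2) + r ^ 2))) :=
        ((Real.continuous_sqrt.tendsto _).comp
          (((hlim.const_mul (2 * r)).const_sub 1).add_const (r ^ 2)))
      have h4 : Real.sqrt (1 - 2 * r * (r / 2) + r ^ 2) = 1 := by
        rw [show 1 - 2 * r * (r / 2) + r ^ 2 = 1 by ring, Real.sqrt_one]
      rw [h4] at h3
      refine h3.congr fun n => ?_
      rw [← hnorm n, Real.sqrt_sq (norm_nonneg _)]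
  -- the limit point on the circle
  obtain ⟨a, ha, φ, hφ, hlim⟩ := (isCompact_closedBall (0 : ℂ) 1).tendsto_subseq
    (x := fun n => h11K e (f (zn n))) (fun n => h11K_mem e (interior_subset (hft _ (hzn1 n))))
  have hlim' : Tendsto (fun n => h11K e (f (zn (φ n)))) atTop (𝓝 a) := hlim
  have hKcb : ∀ n, h11K e (f (zn (φ n))) ∈ closedBall (0 : ℂ) 1 := fun n =>
    h11K_mem e (interior_subset (hft _ (hzn1 _)))
  have ha1 : ‖a‖ = 1 := by
    by_contra hne
    have halt : ‖a‖ < 1 := lt_of_le_of_ne (mem_closedBall_zero_iff.1 ha) hne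
    have hEa : h11E e a ∈ interior t := (hintE a ha).2 halt
    have h3 : Tendsto (fun n => h11E e (h11K e (f (zn (φ n))))) atTop (𝓝 (h11E e a)) := by
      have := (h11E_cont e) a ha
      exact this.tendsto.comp (tendsto_nhdsWithin_iff.2 ⟨hlim', Eventually.of_forall hKcb⟩)
    have h4 : Tendsto (fun n => f (zn (φ n))) atTop (𝓝 (h11E e a)) := by
      refine h3.congr fun n => ?_
      exact h11EK e (interior_subset (hft _ (hzn1 _)))
    have h5 : ContinuousAt g (h11E e a) :=
      (hgd _ hEa).continuousWithinAt.continuousAt (isOpen_interior.mem_nhds hEa)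
    have h6 : Tendsto (fun n => zn (φ n)) atTop (𝓝 (g (h11E e a))) := by
      refine (h5.tendsto.comp h4).congr fun n => ?_
      exact hgf _ (hzn1 _)
    have h7 : ‖g (h11E e a)‖ = 1 :=
      tendsto_nhds_unique h6.norm (hzn3.comp hφ.tendsto_atTop)
    rw [← hfim] at hEa
    obtain ⟨b, hb, hbE⟩ := hEa
    rw [← hbE, hgf b hb] at h7
    rw [mem_ball_zero_iff, h7] at hb
    exact lt_irrefl _ hb
  have hgam : ∀ z ∈ ball (0 : ℂ) 1, dist z ζ = r → ‖h11K e (f z) - a‖ ≤ ε1 := by
    intro z hz hzr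
    have h3 : ∀ n, ‖h11K e (f z) - h11K e (f (zn (φ n)))‖ ≤ ε1 / 2 := by
      intro n
      rw [← dist_eq_norm]
      refine (hKu _ (interior_subset (hft z hz)) _ (interior_subset (hft _ (hzn1 _))) ?_).le
      have := hr2 z hz _ (hzn1 (φ n)) hzr (hzn2 _)
      linarith
    have h4 := le_of_tendsto' ((tendsto_const_nhds.sub hlim').norm) h3
    linarith
  -- connectedness
  set X : Set ℂ := {w : ℂ | ‖w‖ < 1 ∧ ε1 < ‖w - a‖} with hX
  have hXc : IsPreconnected X := h11_conn ha1 (by linarith)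
  have hXE : IsPreconnected (h11E e '' X) :=
    hXc.image _ ((h11E_cont e).mono fun w hw => hsub w hw.1)
  have hXEi : h11E e '' X ⊆ interior t := by
    rintro _ ⟨w, hw, rfl⟩
    exact (hintE w (hsub w hw.1)).2 hw.1
  have hY : IsPreconnected (g '' (h11E e '' X)) := hXE.image _ (hgd.continuousOn.mono hXEi)
  have hYmem : ∀ y ∈ g '' (h11E e '' X), y ∈ ball (0 : ℂ) 1 ∧ ε1 < ‖h11K e (f y) - a‖ := by
    rintro _ ⟨_, ⟨w, hw, rfl⟩, rfl⟩
    have h3 := hXEi ⟨w, hw, rfl⟩
    rw [← hfim] at h3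
    obtain ⟨b, hb, hbE⟩ := h3
    rw [← hbE, hgf b hb]
    refine ⟨hb, ?_⟩
    rw [hbE, h11KE e (hsub w hw.1)]
    exact hw.2
  have hYsub : g '' (h11E e '' X) ⊆ {z | r < dist z ζ} := by
    have ho1 : IsOpen {z : ℂ | r < dist z ζ} :=
      isOpen_lt continuous_const (continuous_id.dist continuous_const)
    have ho2 : IsOpen {z : ℂ | dist z ζ < r} :=
      isOpen_lt (continuous_id.dist continuous_const) continuous_const
    refine hY.subset_left_of_subset_union ho1 ho2 ?_ ?_ ?_
    · rw [Set.disjoint_left]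
      intro z hz hz'
      exact lt_asymm (α := ℝ) hz hz'
    · intro y hy
      obtain ⟨h3, h4⟩ := hYmem y hy
      rcases lt_trichotomy (dist y ζ) r with h5 | h5 | h5
      · exact Or.inr h5
      · exact absurd (hgam y h3 h5) (not_le.2 h4)
      · exact Or.inl h5
    · refine ⟨g (h11E e 0), ⟨_, ⟨0, ?_, rfl⟩, rfl⟩, ?_⟩
      · refine ⟨by simp, ?_⟩
        rw [zero_sub, norm_neg, ha1]
        linarith
      · rw [← hz0f, hgf z0 hz0]
        exact hr1
  have hnear : ∀ z ∈ ball (0 : ℂ) 1, dist z ζ < r → ‖h11K e (f z) - a‖ ≤ ε1 := by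
    intro z hz hzr
    by_contra hcon
    push Not at hcon
    have h3 : h11K e (f z) ∈ X := ⟨hKlt _ (hft z hz), hcon⟩
    have h4 : z ∈ g '' (h11E e '' X) := by
      refine ⟨_, ⟨_, h3, rfl⟩, ?_⟩
      rw [h11EK e (interior_subset (hft z hz)), hgf z hz]
    exact lt_asymm hzr (hYsub h4)
  refine ⟨r, hr0, fun z hz w hw hzr hwr => ?_⟩
  have h3 := hnear z hz hzr
  have h4 := hnear w hw hwr
  have h5 : dist (h11K e (f z)) (h11K e (f w)) < η := by
    calc dist (h11K e (f z)) (h11K e (f w)) ≤ dist (h11K e (f z)) a + dist a (h11K e (f w)) :=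
          dist_triangle _ _ _
      _ ≤ ε1 + ε1 := by
        rw [dist_comm a, dist_eq_norm, dist_eq_norm]
        exact add_le_add h3 h4
      _ < η := by linarith
  have h6 := hEu _ (h11K_mem e (interior_subset (hft z hz))) _
    (h11K_mem e (interior_subset (hft w hw))) h5
  rwa [h11EK e (interior_subset (hft z hz)), h11EK e (interior_subset (hft w hw))] at h6

end Pool.Agent.CT
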