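import Pool.Agent.CT.HDefs

set_option autoImplicit false

/-! # H12: a function which is constant on a boundary arc is constant -/

namespace Pool.Agent.CT

open Set Metric Filter Topology

private lemma h12_pt (θ₁ θ₂ : ℝ) (N : ℕ) (hN : 0 < N) (hNθ : 2 * Real.pi / N < θ₂ - θ₁) (z : ℂ)
    (hz : ‖z‖ = 1) : ∃ k ∈ Finset.range N, ∃ θ ∈ Ioo θ₁ θ₂,
      Complex.exp (2 * Real.pi * k / N * Complex.I) * z = Complex.exp (θ * Complex.I) := by
  obtain ⟨φ, hφ⟩ : ∃ φ : ℝ, z = Complex.exp (φ * Complex.I) := by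
    refine ⟨z.arg, ?_⟩
    have := Complex.norm_mul_exp_arg_mul_I z
    rw [hz] at this
    simpa using this.symm
  have hNr : (0 : ℝ) < N := by exact_mod_cast hN
  have hπ : (0 : ℝ) < 2 * Real.pi / N := by positivity
  -- the integer j
  obtain ⟨j, hj⟩ : ∃ j : ℤ, φ + j * (2 * Real.pi / N) ∈ Ioo θ₁ θ₂ := by
    refine ⟨⌊(θ₁ - φ) / (2 * Real.pi / N)⌋ + 1, ?_, ?_⟩
    · have h1 := Int.lt_floor_add_one ((θ₁ - φ) / (2 * Real.pi / N))
      rw [div_lt_iff₀ hπ] at h1
      push_cast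
      linarith
    · have h1 := Int.floor_le ((θ₁ - φ) / (2 * Real.pi / N))
      rw [le_div_iff₀ hπ] at h1
      push_cast
      linarith
  have hN' : (0 : ℤ) < N := by exact_mod_cast hN
  have hmod0 : 0 ≤ j % N := Int.emod_nonneg _ hN'.ne'
  have hmodN : j % N < N := Int.emod_lt_of_pos _ hN'
  refine ⟨(j % N).toNat, ?_, φ + j * (2 * Real.pi / N), hj, ?_⟩
  · rw [Finset.mem_range]
    omega
  · rw [hφ, ← Complex.exp_add]
    rw [Complex.exp_eq_exp_iff_exists_int]
    refine ⟨-(j / N), ?_⟩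
    have h2 : (((j % N).toNat : ℕ) : ℂ) = ((j % N : ℤ) : ℂ) := by
      have : (((j % N).toNat : ℕ) : ℤ) = j % N := Int.toNat_of_nonneg hmod0
      exact_mod_cast this
    have h3 : (j : ℂ) = (N : ℂ) * ((j / N : ℤ) : ℂ) + ((j % N : ℤ) : ℂ) := by
      exact_mod_cast (Int.mul_ediv_add_emod j N).symm
    have hNc : (N : ℂ) ≠ 0 := by exact_mod_cast hN.ne'
    rw [h2]
    push_cast
    rw [h3]
    field_simp
    ring

theorem h12 : Stmt_ArcConst := by
  intro F a hc hd θ₁ θ₂ hθ hF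
  obtain ⟨N, hN⟩ : ∃ N : ℕ, 2 * Real.pi / (θ₂ - θ₁) < N := exists_nat_gt _
  have hθ' : 0 < θ₂ - θ₁ := by linarith
  have hNpos : (0 : ℝ) < N := lt_of_le_of_lt (by positivity) hN
  have hN0 : 0 < N := by exact_mod_cast hNpos
  have hNθ : 2 * Real.pi / N < θ₂ - θ₁ := by
    rw [div_lt_iff₀ hθ'] at hN
    rw [div_lt_iff₀ hNpos]
    linarith
  set ω : ℕ → ℂ := fun k => Complex.exp (2 * Real.pi * k / N * Complex.I) with hω
  have hωn : ∀ k, ‖ω k‖ = 1 := by
    intro k
    have : (2 * Real.pi * k / N * Complex.I : ℂ) = ((2 * Real.pi * k / N : ℝ) : ℂ) * Complex.I := by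
      push_cast; ring
    rw [hω]
    simp only
    rw [this, Complex.norm_exp_ofReal_mul_I]
  set G : ℂ → ℂ := fun z => ∏ k ∈ Finset.range N, (F (ω k * z) - a) with hG
  have hGc : ContinuousOn G (closedBall 0 1) := by
    refine continuousOn_finsetProd _ fun k _ => ?_
    refine ContinuousOn.sub ?_ continuousOn_const
    refine hc.comp (by fun_prop) ?_
    intro z hz
    rw [mem_closedBall_zero_iff] at hz ⊢
    rw [norm_mul, hωn, one_mul]
    exact hz
  have hGd : DifferentiableOn ℂ G (ball 0 1) := by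
    have h1 : ∀ k ∈ Finset.range N, DifferentiableOn ℂ (fun z => F (ω k * z) - a) (ball 0 1) := by
      intro k _
      refine DifferentiableOn.sub_const ?_ a
      refine hd.comp (by fun_prop) ?_
      intro z hz
      rw [mem_ball_zero_iff] at hz ⊢
      rw [norm_mul, hωn, one_mul]
      exact hz
    exact DifferentiableOn.fun_finsetProd h1
  have hcl : closure (ball (0 : ℂ) 1) = closedBall 0 1 := closure_ball _ one_ne_zero
  have hfr : frontier (ball (0 : ℂ) 1) = sphere 0 1 := frontier_ball _ one_ne_zero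
  have hDC : DiffContOnCl ℂ G (ball 0 1) := ⟨hGd, by rw [hcl]; exact hGc⟩
  have h0 : ‖G 0‖ ≤ 0 := by
    refine Complex.norm_le_of_forall_mem_frontier_norm_le isBounded_ball hDC ?_
      (by rw [hcl]; simp)
    intro z hz
    rw [hfr, mem_sphere_zero_iff_norm] at hz
    obtain ⟨k, hk, θ, hθm, he⟩ := h12_pt θ₁ θ₂ N hN0 hNθ z hz
    have : G z = 0 := by
      rw [hG]
      refine Finset.prod_eq_zero hk ?_
      rw [hω]
      simp only
      rw [he, hF θ hθm, sub_self]
    rw [this, norm_zero]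
  have h1 : G 0 = 0 := by simpa using h0
  have h2 : G 0 = (F 0 - a) ^ N := by
    rw [hG]
    simp
  rw [h2] at h1
  exact sub_eq_zero.1 (pow_eq_zero_iff hN0.ne' |>.1 h1)

end Pool.Agent.CT
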