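import Pool.Agent.CT.HDefs

set_option autoImplicit false

/-! # H13: injectivity on the circle -/

namespace Pool.Agent.CT

open Set Metric Filter Topology

/-- A path in the punctured plane from the ray `t₁` to the ray `t₂` meets one of two rays which
separate them. -/
private lemma h13_cross (s : ℝ → ℂ) (hs : Continuous s) (hs0 : ∀ τ, s τ ≠ 0) (r t₁ t₂ : ℝ)
    (hr : 0 < r) (h0 : s 0 = r * Complex.exp (t₁ * Complex.I))
    (h1 : s 1 = r * Complex.exp (t₂ * Complex.I)) (α β : ℝ) (h1α : t₁ < α) (hα2 : α < t₂)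
    (h2β : t₂ < β) (hβ : β < t₁ + 2 * Real.pi) :
    ∃ τ ∈ Icc (0 : ℝ) 1, s τ = ‖s τ‖ * Complex.exp (α * Complex.I) ∨
      s τ = ‖s τ‖ * Complex.exp (β * Complex.I) := by
  obtain ⟨L, hLc, hL⟩ : ∃ L : ℝ → ℂ, ContinuousOn L univ ∧ EqOn (Complex.exp ∘ L) s univ := by
    refine Complex.exists_continuousOn_eqOn_exp_comp ?_ isOpen_univ hs.continuousOn ?_
    · have : SimplyConnectedSpace (univ : Set ℝ) :=
        (Homeomorph.Set.univ ℝ).toHomotopyEquiv.simplyConnectedSpace
      exact this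
    · rintro ⟨τ, -, h⟩
      exact hs0 τ h
  have hLc' : Continuous L := continuousOn_univ.1 hLc
  have hE : ∀ τ, Complex.exp (L τ) = s τ := fun τ => hL (mem_univ τ)
  -- the argument at a point where the value is known
  have key : ∀ τ t : ℝ, s τ = r * Complex.exp (t * Complex.I) →
      ∃ n : ℤ, (L τ).im = t + n * (2 * Real.pi) := by
    intro τ t h
    have h3 : Complex.exp (L τ) = Complex.exp ((Real.log r : ℂ) + t * Complex.I) := by
      rw [hE, h, Complex.exp_add, ← Complex.ofReal_exp, Real.exp_log hr]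
    obtain ⟨n, hn⟩ := Complex.exp_eq_exp_iff_exists_int.1 h3
    refine ⟨n, ?_⟩
    rw [hn]
    simp
  obtain ⟨n, hn⟩ := key 0 t₁ h0
  obtain ⟨m, hm⟩ := key 1 t₂ h1
  have hθc : Continuous fun τ => (L τ).im - n * (2 * Real.pi) := by fun_prop
  have hform : ∀ (τ γ : ℝ) (j : ℤ), (L τ).im = γ + j * (2 * Real.pi) →
      s τ = ‖s τ‖ * Complex.exp (γ * Complex.I) := by
    intro τ γ j h
    rw [← hE, Complex.norm_exp]
    have h4 : L τ = ((L τ).re : ℂ) + ((γ : ℂ) * Complex.I + j * (2 * Real.pi * Complex.I)) := by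
      apply Complex.ext
      · simp
      · simp [h]
    conv_lhs => rw [h4, Complex.exp_add, Complex.exp_add, Complex.exp_int_mul_two_pi_mul_I,
      mul_one]
    rw [Complex.ofReal_exp]
  have hπ := Real.pi_pos
  by_cases hmn : n ≤ m
  · have h5 : (0 : ℝ) ≤ (m : ℝ) - n := by
      have : (n : ℝ) ≤ m := by exact_mod_cast hmn
      linarith
    have h6 : α ∈ Icc ((L 0).im - n * (2 * Real.pi)) ((L 1).im - n * (2 * Real.pi)) := by
      rw [hn, hm]
      constructor
      · linarith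
      · nlinarith
    obtain ⟨τ, hτ, he⟩ := intermediate_value_Icc zero_le_one hθc.continuousOn h6
    refine ⟨τ, hτ, Or.inl (hform τ α n ?_)⟩
    simp only at he
    linarith
  · have h5 : (m : ℝ) - n ≤ -1 := by
      have : m + 1 ≤ n := by omega
      have : (m : ℝ) + 1 ≤ n := by exact_mod_cast this
      linarith
    have h6 : β - 2 * Real.pi ∈
        Icc ((L 1).im - n * (2 * Real.pi)) ((L 0).im - n * (2 * Real.pi)) := by
      rw [hn, hm]
      constructor
      · nlinarith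
      · linarith
    obtain ⟨τ, hτ, he⟩ := intermediate_value_Icc' zero_le_one hθc.continuousOn h6
    refine ⟨τ, hτ, Or.inr (hform τ β (n - 1) ?_)⟩
    simp only at he
    push_cast
    linarith

/-- A homeomorphism from the closed disc, as a pair of functions on `ℂ`. -/
private lemma h13_homeo (h2 : Stmt_DiscTop) (t : Set ℂ) (e : closedBall (0 : ℂ) 1 ≃ₜ t) :
    ∃ E k : ℂ → ℂ, ContinuousOn E (closedBall 0 1) ∧ ContinuousOn k t ∧
      MapsTo E (closedBall 0 1) t ∧ MapsTo k t (closedBall 0 1) ∧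
      (∀ z ∈ closedBall (0 : ℂ) 1, k (E z) = z) ∧ (∀ p ∈ t, E (k p) = p) ∧
      (∀ z ∈ closedBall (0 : ℂ) 1, E z ∈ interior t ↔ ‖z‖ < 1) ∧ IsCompact t := by
  classical
  set E : ℂ → ℂ := fun z => if h : z ∈ closedBall (0 : ℂ) 1 then ((e ⟨z, h⟩ : t) : ℂ) else 0
    with hE
  set k : ℂ → ℂ := fun p => if h : p ∈ t then ((e.symm ⟨p, h⟩ : closedBall (0 : ℂ) 1) : ℂ) else 0
    with hk
  have hE1 : ∀ z (h : z ∈ closedBall (0 : ℂ) 1), E z = ((e ⟨z, h⟩ : t) : ℂ) := by
    intro z h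
    simp only [hE]
    rw [dif_pos h]
  have hk1 : ∀ p (h : p ∈ t), k p = ((e.symm ⟨p, h⟩ : closedBall (0 : ℂ) 1) : ℂ) := by
    intro p h
    simp only [hk]
    rw [dif_pos h]
  refine ⟨E, k, ?_, ?_, ?_, ?_, ?_, ?_, ?_, (h2 t e).2.2.2⟩
  · rw [continuousOn_iff_continuous_domRestrict]
    have : (closedBall (0 : ℂ) 1).domRestrict E = fun z => ((e z : t) : ℂ) := by
      funext z
      exact hE1 z.1 z.2
    rw [this]
    exact continuous_subtype_val.comp e.continuous
  · rw [continuousOn_iff_continuous_domRestrict]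
    have : t.domRestrict k = fun p => ((e.symm p : closedBall (0 : ℂ) 1) : ℂ) := by
      funext p
      exact hk1 p.1 p.2
    rw [this]
    exact continuous_subtype_val.comp e.symm.continuous
  · intro z hz
    rw [hE1 z hz]
    exact (e ⟨z, hz⟩).2
  · intro p hp
    rw [hk1 p hp]
    exact (e.symm ⟨p, hp⟩).2
  · intro z hz
    rw [hE1 z hz, hk1 _ (e ⟨z, hz⟩).2]
    simp
  · intro p hp
    rw [hk1 p hp, hE1 _ (e.symm ⟨p, hp⟩).2]
    simp
  · intro z hz
    rw [hE1 z hz]
    exact (h2 t e).1 ⟨z, hz⟩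

private lemma h13_key (h2 : Stmt_DiscTop) (h6 : Stmt_HoloInv) (h12 : Stmt_ArcConst) (t : Set ℂ)
    (e : closedBall (0 : ℂ) 1 ≃ₜ t) (F : ℂ → ℂ) (hc : ContinuousOn F (closedBall 0 1))
    (hd : DifferentiableOn ℂ F (ball 0 1)) (hinj : InjOn F (ball 0 1))
    (himg : F '' ball 0 1 = interior t) (t₁ t₂ : ℝ) (h12' : t₁ < t₂)
    (h21 : t₂ < t₁ + 2 * Real.pi) (a : ℂ) (ha1 : F (Complex.exp (t₁ * Complex.I)) = a)
    (ha2 : F (Complex.exp (t₂ * Complex.I)) = a) : False := by
  obtain ⟨E, k, hEc, hkc, hEm, hkm, hkE, hEk, hEint, htc⟩ := h13_homeo h2 t e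
  obtain ⟨-, -, g, hgd, hg⟩ := h6 (ball 0 1) isOpen_ball F hd hinj
  rw [himg] at hgd
  have hgc : ContinuousOn g (interior t) := hgd.continuousOn
  set r : ℕ → ℝ := fun n => 1 - 1 / ((n : ℝ) + 2) with hr
  have hr0 : ∀ n, 0 < r n := by
    intro n
    have : 1 / ((n : ℝ) + 2) < 1 := by
      rw [div_lt_one (by positivity)]
      have : (0 : ℝ) ≤ n := Nat.cast_nonneg n
      linarith
    simp only [hr]
    linarith
  have hr1 : ∀ n, r n < 1 := by
    intro n
    have : 0 < 1 / ((n : ℝ) + 2) := by positivity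
    simp only [hr]
    linarith
  have hrt : Tendsto r atTop (𝓝 1) := by
    have h3 : Tendsto (fun n : ℕ => 1 / ((n : ℝ) + 2)) atTop (𝓝 0) := by
      have h4 := tendsto_one_div_add_atTop_nhds_zero_nat (𝕜 := ℝ)
      have h5 := h4.comp (tendsto_add_atTop_nat 1)
      refine h5.congr fun n => ?_
      simp only [Function.comp]
      push_cast
      congr 1
      ring
    have h6 := (tendsto_const_nhds (x := (1 : ℝ))).sub h3
    rw [sub_zero] at h6
    exact h6
  -- approximation along a radius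
  have hrad : ∀ z : ℂ, ‖z‖ = 1 → (∀ n, (r n : ℂ) * z ∈ ball (0 : ℂ) 1) ∧
      Tendsto (fun n => (r n : ℂ) * z) atTop (𝓝 z) ∧
      Tendsto (fun n => F ((r n : ℂ) * z)) atTop (𝓝 (F z)) := by
    intro z hz
    have hb : ∀ n, (r n : ℂ) * z ∈ ball (0 : ℂ) 1 := by
      intro n
      rw [mem_ball_zero_iff, norm_mul, hz, mul_one, Complex.norm_real, Real.norm_eq_abs,
        abs_of_pos (hr0 n)]
      exact hr1 n
    have ht : Tendsto (fun n => (r n : ℂ) * z) atTop (𝓝 z) := by
      have h3 : Tendsto (fun n => (r n : ℂ)) atTop (𝓝 ((1 : ℝ) : ℂ)) :=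
        (Complex.continuous_ofReal.tendsto 1).comp hrt
      have h4 := h3.mul_const z
      simpa using h4
    refine ⟨hb, ht, ?_⟩
    have hz' : z ∈ closedBall (0 : ℂ) 1 := by rw [mem_closedBall_zero_iff, hz]
    refine (hc z hz').tendsto.comp (tendsto_nhdsWithin_iff.2 ⟨ht, ?_⟩)
    exact Eventually.of_forall fun n => ball_subset_closedBall (hb n)
  have hFint : ∀ z ∈ ball (0 : ℂ) 1, F z ∈ interior t := fun z hz =>
    himg ▸ mem_image_of_mem F hz
  set z₁ := Complex.exp (t₁ * Complex.I) with hz₁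
  set z₂ := Complex.exp (t₂ * Complex.I) with hz₂
  have hn1 : ‖z₁‖ = 1 := Complex.norm_exp_ofReal_mul_I t₁
  have hn2 : ‖z₂‖ = 1 := Complex.norm_exp_ofReal_mul_I t₂
  obtain ⟨hb1, hl1, hF1⟩ := hrad z₁ hn1
  obtain ⟨hb2, hl2, hF2⟩ := hrad z₂ hn2
  rw [ha1] at hF1
  rw [ha2] at hF2
  -- a is in t but not in the interior
  have hat : a ∈ t := htc.isClosed.mem_of_tendsto hF1
    (Eventually.of_forall fun n => interior_subset (hFint _ (hb1 n)))
  have hai : a ∉ interior t := by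
    intro hai
    have hai' := hai
    rw [← himg] at hai'
    obtain ⟨w, hw, hwa⟩ := hai'
    have h3 : Tendsto (fun n => g (F ((r n : ℂ) * z₁))) atTop (𝓝 (g a)) :=
      ((hgc.continuousAt (isOpen_interior.mem_nhds hai)).tendsto).comp hF1
    have h4 : (fun n => g (F ((r n : ℂ) * z₁))) = fun n => (r n : ℂ) * z₁ := by
      funext n
      exact hg _ (hb1 n)
    rw [h4] at h3
    have h5 := tendsto_nhds_unique hl1 h3
    rw [← hwa, hg w hw] at h5
    rw [← h5, mem_ball_zero_iff, hn1] at hw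
    exact lt_irrefl _ hw
  -- the claim
  have claim : ∀ α ∈ Ioo t₁ t₂, ∀ β ∈ Ioo t₂ (t₁ + 2 * Real.pi),
      F (Complex.exp (α * Complex.I)) = a ∨ F (Complex.exp (β * Complex.I)) = a := by
    intro α hα β hβ
    by_contra hcon
    push Not at hcon
    obtain ⟨hca, hcb⟩ := hcon
    set κ := k a with hκ
    have hκm : κ ∈ closedBall (0 : ℂ) 1 := hkm hat
    set P : ℕ → ℂ := fun n => k (F ((r n : ℂ) * z₁)) with hP
    set Q : ℕ → ℂ := fun n => k (F ((r n : ℂ) * z₂)) with hQ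
    have hkball : ∀ z ∈ ball (0 : ℂ) 1, k (F z) ∈ ball (0 : ℂ) 1 := by
      intro z hz
      have h3 : F z ∈ t := interior_subset (hFint z hz)
      rw [mem_ball_zero_iff, ← hEint _ (hkm h3), hEk _ h3]
      exact hFint z hz
    have hPb : ∀ n, P n ∈ ball (0 : ℂ) 1 := fun n => hkball _ (hb1 n)
    have hQb : ∀ n, Q n ∈ ball (0 : ℂ) 1 := fun n => hkball _ (hb2 n)
    have hPt : Tendsto P atTop (𝓝 κ) :=
      (hkc a hat).tendsto.comp (tendsto_nhdsWithin_iff.2 ⟨hF1,
        Eventually.of_forall fun n => interior_subset (hFint _ (hb1 n))⟩)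
    have hQt : Tendsto Q atTop (𝓝 κ) :=
      (hkc a hat).tendsto.comp (tendsto_nhdsWithin_iff.2 ⟨hF2,
        Eventually.of_forall fun n => interior_subset (hFint _ (hb2 n))⟩)
    set c : ℝ → ℝ := fun τ => (projIcc (0 : ℝ) 1 zero_le_one τ : ℝ) with hcdef
    have hcc : Continuous c := continuous_subtype_val.comp continuous_projIcc
    have hcm : ∀ τ, c τ ∈ Icc (0 : ℝ) 1 := fun τ => (projIcc (0 : ℝ) 1 zero_le_one τ).2
    have hc0 : c 0 = 0 := by simp [hcdef]
    have hc1 : c 1 = 1 := by simp [hcdef]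
    set σ : ℕ → ℝ → ℂ := fun n τ => P n + c τ • (Q n - P n) with hσ
    have hσb : ∀ n τ, σ n τ ∈ ball (0 : ℂ) 1 := fun n τ =>
      (convex_ball (0 : ℂ) 1).add_smul_sub_mem (hPb n) (hQb n) (hcm τ)
    have hEσ : ∀ n τ, E (σ n τ) ∈ interior t := by
      intro n τ
      rw [hEint _ (ball_subset_closedBall (hσb n τ))]
      exact mem_ball_zero_iff.1 (hσb n τ)
    set s : ℕ → ℝ → ℂ := fun n τ => g (E (σ n τ)) with hs
    have hsb : ∀ n τ, s n τ ∈ ball (0 : ℂ) 1 ∧ F (s n τ) = E (σ n τ) := by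
      intro n τ
      have h3 := hEσ n τ
      rw [← himg] at h3
      obtain ⟨w, hw, hwE⟩ := h3
      have h4 : s n τ = w := by
        simp only [hs]
        rw [← hwE, hg w hw]
      rw [h4]
      exact ⟨hw, hwE⟩
    have hscont : ∀ n, Continuous (s n) := by
      intro n
      have h3 : Continuous (σ n) := by
        simp only [hσ]
        fun_prop
      have h4 : Continuous fun τ => E (σ n τ) :=
        hEc.comp_continuous h3 fun τ => ball_subset_closedBall (hσb n τ)
      exact hgc.comp_continuous h4 (hEσ n)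
    have hs0 : ∀ n, s n 0 = (r n : ℂ) * z₁ := by
      intro n
      simp only [hs, hσ, hc0, zero_smul, add_zero, hP]
      rw [hEk _ (interior_subset (hFint _ (hb1 n))), hg _ (hb1 n)]
    have hs1 : ∀ n, s n 1 = (r n : ℂ) * z₂ := by
      intro n
      simp only [hs, hσ, hc1, one_smul, hP, hQ]
      rw [add_sub_cancel, hEk _ (interior_subset (hFint _ (hb2 n))), hg _ (hb2 n)]
    -- F is close to a along the paths
    have hA : ∀ ε > 0, ∀ᶠ n in atTop, ∀ τ, dist (F (s n τ)) a < ε := by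
      intro ε hε
      obtain ⟨δ, hδ, hδE⟩ := Metric.continuousOn_iff.1 hEc κ hκm ε hε
      have h3 : ∀ᶠ n in atTop, P n ∈ ball κ δ := hPt (ball_mem_nhds κ hδ)
      have h4 : ∀ᶠ n in atTop, Q n ∈ ball κ δ := hQt (ball_mem_nhds κ hδ)
      filter_upwards [h3, h4] with n h5 h6 τ
      rw [(hsb n τ).2]
      have h7 : σ n τ ∈ ball κ δ := (convex_ball κ δ).add_smul_sub_mem h5 h6 (hcm τ)
      have h8 := hδE (σ n τ) (ball_subset_closedBall (hσb n τ)) h7
      rwa [hEk a hat] at h8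
    -- the paths leave every smaller disc
    have hB : ∀ ρ < 1, ∀ᶠ n in atTop, ∀ τ, ρ < ‖s n τ‖ := by
      intro ρ hρ
      have hsub : closedBall (0 : ℂ) ρ ⊆ ball 0 1 := closedBall_subset_ball hρ
      have hcomp : IsCompact (F '' closedBall (0 : ℂ) ρ) :=
        (isCompact_closedBall _ _).image_of_continuousOn
          (hc.mono (hsub.trans ball_subset_closedBall))
      have hna : a ∈ (F '' closedBall (0 : ℂ) ρ)ᶜ := by
        rintro ⟨w, hw, hwa⟩
        exact hai (hwa ▸ hFint w (hsub hw))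
      obtain ⟨ε, hε, hball⟩ := Metric.isOpen_iff.1 hcomp.isClosed.isOpen_compl a hna
      filter_upwards [hA ε hε] with n hn τ
      by_contra hle
      push Not at hle
      exact hball (mem_ball.2 (hn τ)) ⟨s n τ, mem_closedBall_zero_iff.2 hle, rfl⟩
    -- continuity at the two points of the circle
    have hnear : ∀ γ : ℝ, F (Complex.exp (γ * Complex.I)) ≠ a → ∃ ρ < 1, ∃ ε > 0, ∀ z : ℂ,
        z ∈ ball (0 : ℂ) 1 → z = ‖z‖ * Complex.exp (γ * Complex.I) → ρ < ‖z‖ →
        ε ≤ dist (F z) a := by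
      intro γ hγ
      have hu : ‖Complex.exp (γ * Complex.I)‖ = 1 := Complex.norm_exp_ofReal_mul_I γ
      have hum : Complex.exp (γ * Complex.I) ∈ closedBall (0 : ℂ) 1 := by
        rw [mem_closedBall_zero_iff, hu]
      have hη : 0 < dist (F (Complex.exp (γ * Complex.I))) a / 2 := by
        have := dist_pos.2 hγ
        linarith
      obtain ⟨δ, hδ, hδF⟩ := Metric.continuousOn_iff.1 hc _ hum _ hη
      refine ⟨1 - δ, by linarith, _, hη, ?_⟩
      intro z hz hze hzn
      rw [mem_ball_zero_iff] at hz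
      have h3 : dist z (Complex.exp (γ * Complex.I)) < δ := by
        have h4 : z - Complex.exp (γ * Complex.I) =
            ((‖z‖ - 1 : ℝ) : ℂ) * Complex.exp (γ * Complex.I) := by
          conv_lhs => rw [hze]
          push_cast
          ring
        rw [dist_eq_norm, h4, norm_mul, hu, mul_one, Complex.norm_real, Real.norm_eq_abs,
          abs_of_nonpos (by linarith)]
        linarith
      have h5 := hδF z (mem_closedBall_zero_iff.2 hz.le) h3
      have h6 := dist_triangle_left (F (Complex.exp (γ * Complex.I))) a (F z)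
      linarith
    obtain ⟨ρ₁, hρ₁, ε₁, hε₁, hn₁⟩ := hnear α hca
    obtain ⟨ρ₂, hρ₂, ε₂, hε₂, hn₂⟩ := hnear β hcb
    obtain ⟨n, hn⟩ := ((hA ε₁ hε₁).and ((hA ε₂ hε₂).and ((hB ρ₁ hρ₁).and
      ((hB ρ₂ hρ₂).and (hB 0 zero_lt_one))))).exists
    obtain ⟨q1, q2, q3, q4, q5⟩ := hn
    obtain ⟨τ, -, hτ⟩ := h13_cross (s n) (hscont n)
      (fun τ => norm_pos_iff.1 (q5 τ)) (r n) t₁ t₂ (hr0 n) (hs0 n) (hs1 n) α β hα.1 hα.2 hβ.1 hβ.2
    rcases hτ with h | h
    · exact absurd (q1 τ) (not_lt.2 (hn₁ (s n τ) (hsb n τ).1 h (q3 τ)))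
    · exact absurd (q2 τ) (not_lt.2 (hn₂ (s n τ) (hsb n τ).1 h (q4 τ)))
  have hF0 : F 0 = a := by
    by_cases hall : ∀ α ∈ Ioo t₁ t₂, F (Complex.exp (α * Complex.I)) = a
    · exact h12 F a hc hd t₁ t₂ h12' hall
    · push Not at hall
      obtain ⟨α, hα, hne⟩ := hall
      refine h12 F a hc hd t₂ (t₁ + 2 * Real.pi) h21 fun β hβ => ?_
      exact (claim α hα β hβ).resolve_left hne
  exact hai (hF0 ▸ hFint 0 (mem_ball_self zero_lt_one))

theorem h13 (h2 : Stmt_DiscTop) (h6 : Stmt_HoloInv) (h12 : Stmt_ArcConst) : Stmt_BdInj := by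
  intro t e F hc hd hinj himg
  have hpi := Real.pi_pos
  have hexp : ∀ z : ℂ, ‖z‖ = 1 → Complex.exp (z.arg * Complex.I) = z := by
    intro z hz
    have := Complex.norm_mul_exp_arg_mul_I z
    rw [hz] at this
    simpa using this
  have main : ∀ z ∈ sphere (0 : ℂ) 1, ∀ w ∈ sphere (0 : ℂ) 1, F z = F w → ¬ z.arg < w.arg := by
    intro z hz w hw hzw hlt
    rw [mem_sphere_zero_iff_norm] at hz hw
    refine h13_key h2 h6 h12 t e F hc hd hinj himg z.arg w.arg hlt ?_ (F z) ?_ ?_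
    · have h3 := Complex.arg_le_pi w
      have h4 := Complex.neg_pi_lt_arg z
      linarith
    · rw [hexp z hz]
    · rw [hexp w hw, hzw]
  intro z hz w hw hzw
  have h1 := main z hz w hw hzw
  have h3 := main w hw z hz hzw.symm
  have h4 : z.arg = w.arg := le_antisymm (not_lt.1 h3) (not_lt.1 h1)
  rw [mem_sphere_zero_iff_norm] at hz hw
  rw [← hexp z hz, ← hexp w hw, h4]

end Pool.Agent.CT
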