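import Pool.Agent.CT.HDefs

set_option autoImplicit false

/-! # H14: extension of the conformal map to a homeomorphism of the closed discs -/

namespace Pool.Agent.CT

open Set Metric Filter Topology

theorem h14 (h2 : Stmt_DiscTop) (h6 : Stmt_HoloInv) (h11 : Stmt_BdCont) (h13 : Stmt_BdInj) :
    Stmt_Cara := by
  intro t e f hfd hfi hfim
  obtain ⟨-, -, hcl, htc⟩ := h2 t e
  obtain ⟨-, -, g, hgd, hgf⟩ := h6 (ball 0 1) isOpen_ball f hfd hfi
  rw [hfim] at hgd
  have hclb : closure (ball (0 : ℂ) 1) = closedBall 0 1 := closure_ball _ one_ne_zero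
  set F : ℂ → ℂ := extendFrom (ball 0 1) f with hF
  have hlim : ∀ x ∈ closedBall (0 : ℂ) 1, ∃ y, Tendsto f (𝓝[ball 0 1] x) (𝓝 y) := by
    intro x hx
    rcases (mem_closedBall_zero_iff.1 hx).lt_or_eq with h | h
    · exact ⟨f x, (hfd x (mem_ball_zero_iff.2 h)).continuousWithinAt⟩
    · have hne : (𝓝[ball (0 : ℂ) 1] x).NeBot := by
        rw [← mem_closure_iff_nhdsWithin_neBot, hclb]
        exact hx
      have hca : Cauchy (map f (𝓝[ball (0 : ℂ) 1] x)) := by
        rw [Metric.cauchy_iff]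
        refine ⟨hne.map f, fun ε hε => ?_⟩
        obtain ⟨δ, hδ, h3⟩ := h11 t e f hfd hfi hfim x h ε hε
        refine ⟨f '' (ball x δ ∩ ball 0 1), image_mem_map ?_, ?_⟩
        · exact inter_mem (mem_nhdsWithin_of_mem_nhds (ball_mem_nhds x hδ)) self_mem_nhdsWithin
        · rintro _ ⟨z, hz, rfl⟩ _ ⟨w, hw, rfl⟩
          exact h3 z hz.2 w hw.2 hz.1 hw.1
      obtain ⟨y, hy⟩ := CompleteSpace.complete hca
      exact ⟨y, hy⟩
  have hFc : ContinuousOn F (closedBall 0 1) := continuousOn_extendFrom hclb.ge hlim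
  have hFf : ∀ z ∈ ball (0 : ℂ) 1, F z = f z := fun z hz =>
    extendFrom_extends hfd.continuousOn z hz
  have hFim : F '' ball 0 1 = interior t := by
    rw [← hfim]
    exact image_congr hFf
  have hFd : DifferentiableOn ℂ F (ball 0 1) := hfd.congr hFf
  have hFi : InjOn F (ball 0 1) := hfi.congr fun z hz => (hFf z hz).symm
  have hsph := h13 t e F hFc hFd hFi hFim
  have hFt : F '' closedBall 0 1 = t := by
    apply Subset.antisymm
    · rw [← hclb]
      refine (ContinuousOn.image_closure (by rwa [hclb])).trans ?_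
      rw [hFim, hcl]
    · have hcomp : IsCompact (F '' closedBall 0 1) := (isCompact_closedBall 0 1).image_of_continuousOn hFc
      rw [← hcl, hcomp.isClosed.closure_subset_iff, ← hFim]
      exact image_mono ball_subset_closedBall
  -- boundary points are not sent to interior points
  have hbd : ∀ z : ℂ, ‖z‖ = 1 → F z ∉ interior t := by
    intro z hz hzt
    have hzt' := hzt
    rw [← hfim] at hzt
    obtain ⟨w, hw, hwz⟩ := hzt
    have hzc : z ∈ closedBall (0 : ℂ) 1 := mem_closedBall_zero_iff.2 hz.le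
    have hne : (𝓝[ball (0 : ℂ) 1] z).NeBot := by
      rw [← mem_closure_iff_nhdsWithin_neBot, hclb]
      exact hzc
    have h3 : Tendsto F (𝓝[ball (0 : ℂ) 1] z) (𝓝 (F z)) :=
      ((hFc z hzc).mono ball_subset_closedBall).tendsto
    have h4 : ContinuousAt g (F z) :=
      (hgd _ hzt').continuousWithinAt.continuousAt (isOpen_interior.mem_nhds hzt')
    have h5 : Tendsto (fun y => g (F y)) (𝓝[ball (0 : ℂ) 1] z) (𝓝 (g (F z))) := h4.tendsto.comp h3
    have h6' : Tendsto (fun y : ℂ => y) (𝓝[ball (0 : ℂ) 1] z) (𝓝 (g (F z))) := by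
      refine h5.congr' ?_
      filter_upwards [self_mem_nhdsWithin] with y hy
      rw [hFf y hy, hgf y hy]
    have h7 : Tendsto (fun y : ℂ => y) (𝓝[ball (0 : ℂ) 1] z) (𝓝 z) :=
      tendsto_id.mono_left nhdsWithin_le_nhds
    have h8 := tendsto_nhds_unique h6' h7
    rw [← hwz, hgf w hw] at h8
    rw [mem_ball_zero_iff, h8, hz] at hw
    exact lt_irrefl _ hw
  have hinj : InjOn F (closedBall 0 1) := by
    intro z hz w hw h
    rcases (mem_closedBall_zero_iff.1 hz).lt_or_eq with h3 | h3 <;>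
      rcases (mem_closedBall_zero_iff.1 hw).lt_or_eq with h4 | h4
    · exact hFi (mem_ball_zero_iff.2 h3) (mem_ball_zero_iff.2 h4) h
    · exfalso
      apply hbd w h4
      rw [← h, ← hFim]
      exact ⟨z, mem_ball_zero_iff.2 h3, rfl⟩
    · exfalso
      apply hbd z h3
      rw [h, ← hFim]
      exact ⟨w, mem_ball_zero_iff.2 h4, rfl⟩
    · exact hsph (mem_sphere_zero_iff_norm.2 h3) (mem_sphere_zero_iff_norm.2 h4) h
  have hbij : BijOn F (closedBall 0 1) t := by
    refine ⟨?_, hinj, ?_⟩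
    · rw [mapsTo_iff_image_subset]
      exact hFt.le
    · exact hFt.ge
  set Q : closedBall (0 : ℂ) 1 ≃ t := BijOn.equiv F hbij with hQ
  have hQv : ∀ z : closedBall (0 : ℂ) 1, ((Q z : t) : ℂ) = F z := fun z => rfl
  have hQc : Continuous Q := by
    rw [continuous_induced_rng]
    exact continuousOn_iff_continuous_restrict.1 hFc
  haveI : CompactSpace (closedBall (0 : ℂ) 1) := isCompact_iff_compactSpace.1
    (isCompact_closedBall 0 1)
  refine ⟨Continuous.homeoOfEquivCompactToT2 (f := Q) hQc, fun z hz => ?_⟩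
  show ((Q z : t) : ℂ) = f z
  rw [hQv, hFf z (mem_ball_zero_iff.2 hz)]

end Pool.Agent.CT
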