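import Pool.Agent.CT.HDefs

set_option autoImplicit false

/-! # H15: fixed points of finite groups of isometries -/

namespace Pool.Agent.CT

open Set Metric

theorem h15_form (s : ℂ ≃ᵢ ℂ) : ∃ w : ℂ, ‖w‖ = 1 ∧
    ((∀ z, s z = s 0 + w * z) ∨ (∀ z, s z = s 0 + w * (starRingEnd ℂ) z)) := by
  obtain ⟨a, h | h⟩ := linear_isometry_complex s.toRealLinearIsometryEquiv
  · refine ⟨a, Circle.norm_coe a, Or.inl fun z => ?_⟩
    have h1 := IsometryEquiv.toRealLinearIsometryEquiv_apply s z
    rw [h, rotation_apply] at h1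
    rw [h1]; ring
  · refine ⟨a, Circle.norm_coe a, Or.inr fun z => ?_⟩
    have h1 := IsometryEquiv.toRealLinearIsometryEquiv_apply s z
    rw [h] at h1
    have h2 : (Complex.conjLIE.trans (rotation a)) z = (a : ℂ) * (starRingEnd ℂ) z := by
      simp [rotation_apply]
    rw [h2] at h1
    rw [h1]; ring

/-- A finite group of isometries has a fixed point in the plane. -/
theorem h15_centroid (S : Subgroup (ℂ ≃ᵢ ℂ)) (hfin : (S : Set (ℂ ≃ᵢ ℂ)).Finite) :
    ∃ c : ℂ, ∀ s ∈ S, s c = c := by
  classical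
  letI : Fintype S := hfin.fintype
  set N : ℝ := (Fintype.card S : ℝ) with hN
  have hN0 : N ≠ 0 := by
    rw [hN]
    exact_mod_cast Fintype.card_ne_zero
  refine ⟨(N⁻¹ : ℝ) • ∑ t : S, (t : ℂ ≃ᵢ ℂ) 0, fun s hs => ?_⟩
  set L := s.toRealLinearIsometryEquiv with hL
  have hLz : ∀ z, L z = s z - s 0 := fun z => IsometryEquiv.toRealLinearIsometryEquiv_apply s z
  have h1 : s ((N⁻¹ : ℝ) • ∑ t : S, (t : ℂ ≃ᵢ ℂ) 0)
      = s 0 + L ((N⁻¹ : ℝ) • ∑ t : S, (t : ℂ ≃ᵢ ℂ) 0) := by
    rw [hLz]; ring
  rw [h1, map_smul, map_sum]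
  have h2 : ∑ t : S, L ((t : ℂ ≃ᵢ ℂ) 0) = ∑ t : S, s ((t : ℂ ≃ᵢ ℂ) 0) - (N : ℝ) • s 0 := by
    simp only [hLz, Finset.sum_sub_distrib]
    congr 1
    rw [Finset.sum_const, Finset.card_univ, hN]
    simp [nsmul_eq_mul]
  have h3 : ∑ t : S, s ((t : ℂ ≃ᵢ ℂ) 0) = ∑ t : S, (t : ℂ ≃ᵢ ℂ) 0 := by
    refine Fintype.sum_equiv (Equiv.mulLeft (⟨s, hs⟩ : S)) _ _ ?_
    intro t
    rfl
  rw [h2, h3, smul_sub, smul_smul, inv_mul_cancel₀ hN0, one_smul]
  ring

/-- A rotation of finite order preserving a simply connected open set has its centre in it. -/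
theorem h15_rot {U : Set ℂ} (hU : IsOpen U) (hsc : IsSimplyConnected U) {s : ℂ ≃ᵢ ℂ} {c w : ℂ}
    (hw : w ≠ 1) (hs : ∀ z, s z = c + w * (z - c)) (hsU : s '' U = U) {n : ℕ} (hn : n ≠ 0)
    (hsn : s ^ n = 1) : c ∈ U := by
  by_contra hc
  have hmem : ∀ z ∈ U, s z ∈ U := fun z hz => hsU ▸ mem_image_of_mem s hz
  obtain ⟨g, hgc, hg⟩ := Complex.exists_continuousOn_eqOn_exp_comp hsc hU
    (g := fun z => z - c) (by fun_prop) (by
      rintro ⟨z, hz, hz0⟩
      exact hc (by
        have : z = c := sub_eq_zero.1 hz0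
        exact this ▸ hz))
  have hg' : ∀ z ∈ U, Complex.exp (g z) = z - c := fun z hz => hg hz
  have hne : ∀ z ∈ U, z - c ≠ 0 := fun z hz h => hc (by
    have : z = c := sub_eq_zero.1 h
    exact this ▸ hz)
  obtain ⟨z0, hz0⟩ := hsc.nonempty
  set k : ℂ → ℂ := fun z => g (s z) - g z with hk
  have hkexp : ∀ z ∈ U, Complex.exp (k z) = w := by
    intro z hz
    have h1 : Complex.exp (g (s z)) = s z - c := hg' _ (hmem z hz)
    have h2 : Complex.exp (g z) = z - c := hg' z hz
    show Complex.exp (g (s z) - g z) = w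
    rw [Complex.exp_sub, h1, h2, hs z]
    field_simp [hne z hz]
    ring
  have hkc : ContinuousOn k U :=
    (hgc.comp s.continuous.continuousOn (fun z hz => hmem z hz)).sub hgc
  have hpre : IsPreconnected U := hsc.isPathConnected.isConnected.isPreconnected
  -- `k` is constant
  have hconst : ∀ z ∈ U, k z = k z0 := by
    intro z hz
    -- the function `(k - k z0) / (2 π i)` takes integer values
    have hint : ∀ x ∈ U, ∃ m : ℤ, k x = k z0 + m * (2 * Real.pi * Complex.I) := by
      intro x hx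
      have : Complex.exp (k x) = Complex.exp (k z0) := by rw [hkexp x hx, hkexp z0 hz0]
      exact Complex.exp_eq_exp_iff_exists_int.1 this
    set φ : ℂ → ℝ := fun x => (k x - k z0).im / (2 * Real.pi) with hφ
    have hφc : ContinuousOn φ U :=
      (Complex.continuous_im.comp_continuousOn (hkc.sub continuousOn_const)).div_const _
    have hφint : ∀ x ∈ U, ∃ m : ℤ, φ x = m := by
      intro x hx
      obtain ⟨m, hm⟩ := hint x hx
      refine ⟨m, ?_⟩
      simp only [hφ]
      rw [hm]
      have : ((k z0 + (m : ℂ) * (2 * Real.pi * Complex.I)) - k z0) =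
          ((m * (2 * Real.pi) : ℝ) : ℂ) * Complex.I := by push_cast; ring
      rw [this]
      simp
    have hφ0 : φ z0 = 0 := by simp [hφ]
    have himg : IsPreconnected (φ '' U) := hpre.image φ hφc
    have hord : (φ '' U).OrdConnected := himg.ordConnected
    have hφz : φ z = 0 := by
      by_contra hne0
      obtain ⟨m, hm⟩ := hφint z hz
      have hm0 : m ≠ 0 := by
        rintro rfl
        exact hne0 (by simpa using hm)
      -- a half integer would be in the image
      rcases lt_or_gt_of_ne hm0 with hneg | hpos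
      · have hmle : (m : ℝ) ≤ -1 := by exact_mod_cast Int.le_sub_one_of_lt hneg
        have h4 : (-1 / 2 : ℝ) ∈ φ '' U := by
          refine hord.out (mem_image_of_mem φ hz) (mem_image_of_mem φ hz0) ⟨?_, ?_⟩
          · rw [hm]; linarith
          · rw [hφ0]; norm_num
        obtain ⟨x, hx, hx'⟩ := h4
        obtain ⟨m', hm'⟩ := hφint x hx
        rw [hm'] at hx'
        have : (2 * m' : ℝ) = -1 := by linarith
        have h5 : (2 * m' : ℤ) = -1 := by exact_mod_cast this
        omega
      · have hmle : (1 : ℝ) ≤ m := by exact_mod_cast hpos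
        have h4 : (1 / 2 : ℝ) ∈ φ '' U := by
          refine hord.out (mem_image_of_mem φ hz0) (mem_image_of_mem φ hz) ⟨?_, ?_⟩
          · rw [hφ0]; norm_num
          · rw [hm]; linarith
        obtain ⟨x, hx, hx'⟩ := h4
        obtain ⟨m', hm'⟩ := hφint x hx
        rw [hm'] at hx'
        have : (2 * m' : ℝ) = 1 := by linarith
        have h5 : (2 * m' : ℤ) = 1 := by exact_mod_cast this
        omega
    obtain ⟨m, hm⟩ := hint z hz
    have h6 : φ z = m := by
      simp only [hφ]
      rw [hm]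
      have : ((k z0 + (m : ℂ) * (2 * Real.pi * Complex.I)) - k z0) =
          ((m * (2 * Real.pi) : ℝ) : ℂ) * Complex.I := by push_cast; ring
      rw [this]
      simp
    rw [h6] at hφz
    have h7 : m = 0 := by exact_mod_cast hφz
    rw [hm, h7]
    simp
  -- iterate
  have hiter : ∀ j : ℕ, (s ^ j) z0 ∈ U ∧ g ((s ^ j) z0) = g z0 + j * k z0 := by
    intro j
    induction j with
    | zero => simp [hz0]
    | succ j ih =>
      have h8 : (s ^ (j + 1)) z0 = s ((s ^ j) z0) := by
        rw [pow_succ', IsometryEquiv.mul_apply]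
      refine ⟨h8 ▸ hmem _ ih.1, ?_⟩
      rw [h8]
      have h9 : k ((s ^ j) z0) = k z0 := hconst _ ih.1
      have h10 : g (s ((s ^ j) z0)) = g ((s ^ j) z0) + k ((s ^ j) z0) := by
        simp only [hk]; ring
      rw [h10, h9, ih.2]
      push_cast
      ring
  have h11 := (hiter n).2
  rw [hsn] at h11
  have h12 : (n : ℂ) * k z0 = 0 := by
    have : g ((1 : ℂ ≃ᵢ ℂ) z0) = g z0 := rfl
    rw [this] at h11
    linear_combination -h11
  have h13 : k z0 = 0 := by
    rcases mul_eq_zero.1 h12 with h | h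
    · exact absurd (by exact_mod_cast h) hn
    · exact h
  have h14 := hkexp z0 hz0
  rw [h13, Complex.exp_zero] at h14
  exact hw h14.symm

/-- H15. -/
theorem h15 : Stmt_FixPt := by
  classical
  intro U hU hsc S hfin hS
  obtain ⟨c, hc⟩ := h15_centroid S hfin
  have : Finite S := hfin.to_subtype
  -- normal form with centre `c`
  have hform : ∀ s ∈ S, ∃ w : ℂ, ‖w‖ = 1 ∧
      ((∀ z, s z = c + w * (z - c)) ∨ (∀ z, s z = c + w * (starRingEnd ℂ) (z - c))) := by
    intro s hs
    obtain ⟨w, hw, h | h⟩ := h15_form s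
    · refine ⟨w, hw, Or.inl fun z => ?_⟩
      have h1 := h c
      rw [hc s hs] at h1
      rw [h z]
      linear_combination -h1
    · refine ⟨w, hw, Or.inr fun z => ?_⟩
      have h1 := h c
      rw [hc s hs] at h1
      rw [h z, map_sub]
      linear_combination -h1
  by_cases hrot : ∃ s ∈ S, ∃ w : ℂ, w ≠ 1 ∧ ∀ z, s z = c + w * (z - c)
  · obtain ⟨s, hs, w, hw, hsz⟩ := hrot
    refine ⟨c, ?_, hc⟩
    obtain ⟨n, hn, hn'⟩ := (isOfFinOrder_iff_pow_eq_one).1
      (isOfFinOrder_of_finite (⟨s, hs⟩ : S))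
    refine h15_rot hU hsc hw hsz (hS s hs) hn.ne' (n := n) ?_
    have := congrArg (fun x : S => (x : ℂ ≃ᵢ ℂ)) hn'
    simpa using this
  · push Not at hrot
    -- orientation preserving elements are trivial
    have htriv : ∀ s ∈ S, (∃ w : ℂ, ∀ z, s z = c + w * (z - c)) → s = 1 := by
      rintro s hs ⟨w, hw⟩
      have hw1 : w = 1 := by
        by_contra hne
        obtain ⟨z, hz⟩ := hrot s hs w hne
        exact hz (hw z)
      apply IsometryEquiv.ext
      intro z
      rw [hw z, hw1]
      show c + 1 * (z - c) = z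
      ring
    by_cases hrefl : ∃ s ∈ S, s ≠ 1
    · obtain ⟨s, hs, hs1⟩ := hrefl
      obtain ⟨w, hw, h | h⟩ := hform s hs
      · exact absurd (htriv s hs ⟨w, h⟩) hs1
      -- `s` is a reflection; every element is `1` or `s`
      have hall : ∀ s' ∈ S, s' = 1 ∨ s' = s := by
        intro s' hs'
        by_cases hs'1 : s' = 1
        · exact Or.inl hs'1
        right
        obtain ⟨w', hw', h' | h'⟩ := hform s' hs'
        · exact absurd (htriv s' hs' ⟨w', h'⟩) hs'1
        have hcomp : ∀ a ∈ S, ∀ b ∈ S, ∀ u v : ℂ, (∀ z, a z = c + u * (starRingEnd ℂ) (z - c)) →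
            (∀ z, b z = c + v * (starRingEnd ℂ) (z - c)) → a * b = 1 := by
          intro a ha b hb u v hau hbv
          refine htriv (a * b) (S.mul_mem ha hb) ⟨u * (starRingEnd ℂ) v, fun z => ?_⟩
          rw [IsometryEquiv.mul_apply, hau, hbv]
          simp only [map_sub, map_mul, Complex.conj_conj, add_sub_cancel_left]
          ring
        have e1 := hcomp s' hs' s hs w' w h' h
        have e2 := hcomp s hs s hs w w h h
        exact mul_right_cancel (e1.trans e2.symm)
      -- the square root of `w`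
      obtain ⟨u, hu⟩ : ∃ u : ℂ, u ^ 2 = w := ⟨w ^ ((1 / 2 : ℂ)), by
        rw [← Complex.cpow_nat_mul]
        norm_num⟩
      have hun : ‖u‖ = 1 := by
        have : ‖u‖ ^ 2 = 1 := by rw [← norm_pow, hu, hw]
        have h0 : 0 ≤ ‖u‖ := norm_nonneg u
        nlinarith
      have huu : u * (starRingEnd ℂ) u = 1 := by
        rw [Complex.mul_conj, Complex.normSq_eq_norm_sq, hun]
        norm_num
      set φ : ℂ → ℝ := fun z => ((starRingEnd ℂ) u * (z - c)).im with hφ
      have hφc : Continuous φ := by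
        simp only [hφ]
        fun_prop
      have hφs : ∀ z, φ (s z) = - φ z := by
        intro z
        simp only [hφ]
        rw [h z]
        have e3 : (starRingEnd ℂ) u * (c + w * (starRingEnd ℂ) (z - c) - c) =
            (starRingEnd ℂ) ((starRingEnd ℂ) u * (z - c)) := by
          rw [map_mul, Complex.conj_conj, ← hu]
          linear_combination (u * (starRingEnd ℂ) (z - c)) * huu
        rw [e3, Complex.conj_im]
      obtain ⟨q, hq⟩ := hsc.nonempty
      have hsq : s q ∈ U := hS s hs ▸ mem_image_of_mem s hq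
      have hpre : IsPreconnected U := hsc.isPathConnected.isConnected.isPreconnected
      have himg : IsPreconnected (φ '' U) := hpre.image φ hφc.continuousOn
      have h0 : (0 : ℝ) ∈ φ '' U := by
        rcases le_total (φ q) 0 with hle | hle
        · exact himg.ordConnected.out (mem_image_of_mem φ hq) (mem_image_of_mem φ hsq)
            ⟨hle, by rw [hφs]; linarith⟩
        · exact himg.ordConnected.out (mem_image_of_mem φ hsq) (mem_image_of_mem φ hq)
            ⟨by rw [hφs]; linarith, hle⟩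
      obtain ⟨p, hp, hp0⟩ := h0
      refine ⟨p, hp, fun s' hs' => ?_⟩
      rcases hall s' hs' with rfl | rfl
      · rfl
      · rw [h p]
        have e4 : (starRingEnd ℂ) ((starRingEnd ℂ) u * (p - c)) = (starRingEnd ℂ) u * (p - c) :=
          Complex.conj_eq_iff_im.2 hp0
        rw [map_mul, Complex.conj_conj] at e4
        have e5 : w * (starRingEnd ℂ) (p - c) = p - c := by
          rw [← hu]
          linear_combination u * e4 + (p - c) * huu
        rw [e5]
        ring
    · push Not at hrefl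
      obtain ⟨q, hq⟩ := hsc.nonempty
      exact ⟨q, hq, fun s hs => by rw [hrefl s hs]; rfl⟩

end Pool.Agent.CT
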