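import Pool.Agent.CT.HIso

set_option autoImplicit false

/-! # H16: the equivariant disc theorem (assembly) -/

namespace Pool.Agent.CT

open Set Metric ComplexConjugate

theorem conj_mem_ball {z : ℂ} (hz : z ∈ ball (0 : ℂ) 1) : conj z ∈ ball (0 : ℂ) 1 := by
  rw [mem_ball_zero_iff] at hz ⊢
  rwa [RCLike.norm_conj]

theorem h16 : Stmt_EquivDiscAsm := by
  intro hTop hSC hInv hRMT hAut hCara hFix t e S hfin hS
  obtain ⟨hint, hfr, hcl, hcomp⟩ := hTop t e
  have hUo : IsOpen (interior t) := isOpen_interior
  have hUsc := hSC t e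
  have hUb : Bornology.IsBounded (interior t) := hcomp.isBounded.subset interior_subset
  have hSU : ∀ s ∈ S, s '' interior t = interior t := by
    intro s hs
    have h := s.toHomeomorph.image_interior t
    have h2 : (s.toHomeomorph : ℂ → ℂ) = s := rfl
    rw [h2, hS s hs] at h
    exact h
  obtain ⟨p, hpU, hp⟩ := hFix _ hUo hUsc S hfin hSU
  obtain ⟨f, hfd, hfi, hfU, hf0⟩ := hRMT _ hUo hUsc hUb p hpU
  obtain ⟨-, -, g, hgd, hgf⟩ := hInv (ball 0 1) isOpen_ball f hfd hfi
  rw [hfU] at hgd
  have hg : ∀ w ∈ interior t, g w ∈ ball (0 : ℂ) 1 ∧ f (g w) = w := by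
    intro w hw
    rw [← hfU] at hw
    obtain ⟨z, hz, rfl⟩ := hw
    rw [hgf z hz]
    exact ⟨hz, rfl⟩
  have hfm : MapsTo f (ball 0 1) (interior t) := fun z hz => hfU ▸ mem_image_of_mem f hz
  obtain ⟨F, hF⟩ := hCara t e f hfd hfi hfU
  refine ⟨F, fun s hs => ?_⟩
  have hsm : MapsTo s (interior t) (interior t) := fun z hz =>
    (hSU s hs).subset (mem_image_of_mem s hz)
  have hsm' : MapsTo s.symm (interior t) (interior t) := fun z hz => by
    have h := (hSU s⁻¹ (S.inv_mem hs)).subset (mem_image_of_mem _ hz)
    exact h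
  have hsp : s p = p := hp s hs
  have h0 : (0 : ℂ) ∈ ball (0 : ℂ) 1 := mem_ball_self one_pos
  have hgp : g p = 0 := by
    have := hgf 0 h0
    rwa [hf0] at this
  have key : ∃ L : ℂ ≃ₗᵢ[ℝ] ℂ, ∀ z ∈ ball (0 : ℂ) 1, s (f z) = f (L z) := by
    obtain ⟨w, hw, hh⟩ := iso_form s p
    rw [hsp] at hh
    rcases hh with h | h
    · -- rotation
      have hw0 : w ≠ 0 := fun h0 => by simp [h0] at hw
      have hsy : ∀ z, s.symm z = p + w⁻¹ * (z - p) := by
        intro z
        rw [IsometryEquiv.symm_apply_eq, h]
        field_simp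
        ring
      have hG : DifferentiableOn ℂ (fun z => g (s (f z))) (ball 0 1) := by
        have h1 : DifferentiableOn ℂ (fun z => s (f z)) (ball 0 1) := by
          simp only [h]
          exact ((hfd.sub_const p).const_mul w).const_add p
        exact hgd.comp h1 (fun z hz => hsm (hfm hz))
      have hG' : DifferentiableOn ℂ (fun z => g (s.symm (f z))) (ball 0 1) := by
        have h1 : DifferentiableOn ℂ (fun z => s.symm (f z)) (ball 0 1) := by
          simp only [hsy]
          exact ((hfd.sub_const p).const_mul w⁻¹).const_add p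
        exact hgd.comp h1 (fun z hz => hsm' (hfm hz))
      obtain ⟨c, hc, hcz⟩ := hAut _ _ hG hG' (fun z hz => (hg _ (hsm (hfm hz))).1)
        (fun z hz => (hg _ (hsm' (hfm hz))).1) (by
          show g (s (f 0)) = 0
          rw [hf0, hsp, hgp])
        (fun z hz => by
          show g (s.symm (f (g (s (f z))))) = z
          rw [(hg _ (hsm (hfm hz))).2, IsometryEquiv.symm_apply_apply, hgf z hz])
        (fun z hz => by
          show g (s (f (g (s.symm (f z))))) = z
          rw [(hg _ (hsm' (hfm hz))).2, IsometryEquiv.apply_symm_apply, hgf z hz])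
      refine ⟨rotation ⟨c, by simp [Submonoid.unitSphere, hc]⟩, fun z hz => ?_⟩
      show s (f z) = f (c * z)
      rw [← hcz z hz]
      exact ((hg _ (hsm (hfm hz))).2).symm
    · -- reflection
      have hw0 : w ≠ 0 := fun h0 => by simp [h0] at hw
      have hsy : ∀ z, s.symm z = p + conj (w⁻¹ * (z - p)) := by
        intro z
        rw [IsometryEquiv.symm_apply_eq, h]
        simp only [add_sub_cancel_left, Complex.conj_conj]
        field_simp
        ring
      have hG : DifferentiableOn ℂ (fun z => g (s (f (conj z)))) (ball 0 1) := by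
        have h1 : DifferentiableOn ℂ (fun z => s (f (conj z))) (ball 0 1) := by
          have h2 : DifferentiableOn ℂ (fun z => conj (f (conj z))) (ball 0 1) := by
            intro z hz
            have h3 : DifferentiableAt ℂ f (conj z) :=
              (hfd (conj z) (conj_mem_ball hz)).differentiableAt
                (isOpen_ball.mem_nhds (conj_mem_ball hz))
            have h4 := h3.conj_conj
            rw [Complex.conj_conj] at h4
            exact h4.differentiableWithinAt
          simp only [h, map_sub]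
          exact ((h2.sub_const (conj p)).const_mul w).const_add p
        exact hgd.comp h1 (fun z hz => hsm (hfm (conj_mem_ball hz)))
      have hG' : DifferentiableOn ℂ (fun z => conj (g (s.symm (f z)))) (ball 0 1) := by
        intro z hz
        have hfz : DifferentiableAt ℂ f z := (hfd z hz).differentiableAt (isOpen_ball.mem_nhds hz)
        have h2 : DifferentiableAt ℂ (fun z => conj p + w⁻¹ * (f z - p)) z :=
          ((hfz.sub_const p).const_mul w⁻¹).const_add (conj p)
        have hmem := hsm' (hfm hz)
        have h3 : DifferentiableAt ℂ g (s.symm (f z)) :=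
          (hgd _ hmem).differentiableAt (hUo.mem_nhds hmem)
        have h4 := h3.conj_conj
        have h5 : conj (s.symm (f z)) = conj p + w⁻¹ * (f z - p) := by
          rw [hsy, map_add, Complex.conj_conj]
        rw [h5] at h4
        have h6 := h4.comp z h2
        refine DifferentiableAt.differentiableWithinAt (h6.congr_of_eventuallyEq ?_)
        refine Filter.Eventually.of_forall fun y => ?_
        simp only [Function.comp_apply]
        rw [hsy (f y)]
        simp
      obtain ⟨c, hc, hcz⟩ := hAut _ _ hG hG'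
        (fun z hz => (hg _ (hsm (hfm (conj_mem_ball hz)))).1)
        (fun z hz => conj_mem_ball (hg _ (hsm' (hfm hz))).1) (by
          show g (s (f (conj 0))) = 0
          rw [map_zero, hf0, hsp, hgp])
        (fun z hz => by
          show conj (g (s.symm (f (g (s (f (conj z))))))) = z
          rw [(hg _ (hsm (hfm (conj_mem_ball hz)))).2, IsometryEquiv.symm_apply_apply,
            hgf _ (conj_mem_ball hz), Complex.conj_conj])
        (fun z hz => by
          show g (s (f (conj (conj (g (s.symm (f z))))))) = z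
          rw [Complex.conj_conj, (hg _ (hsm' (hfm hz))).2, IsometryEquiv.apply_symm_apply,
            hgf z hz])
      refine ⟨Complex.conjLIE.trans (rotation ⟨c, by simp [Submonoid.unitSphere, hc]⟩),
        fun z hz => ?_⟩
      have h1 := hcz (conj z) (conj_mem_ball hz)
      have h2 : (Complex.conjLIE.trans (rotation ⟨c, by simp [Submonoid.unitSphere, hc]⟩)) z
          = c * conj z := rfl
      rw [h2, ← h1]
      show s (f z) = f (g (s (f (conj (conj z)))))
      rw [Complex.conj_conj]
      exact ((hg _ (hsm (hfm hz))).2).symm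
  obtain ⟨L, hL⟩ := key
  refine ⟨L, ?_⟩
  -- extend by continuity
  have hLm : ∀ z : closedBall (0 : ℂ) 1, L z ∈ closedBall (0 : ℂ) 1 := by
    intro z
    have := z.2
    rw [mem_closedBall_zero_iff] at this ⊢
    rwa [L.norm_map]
  let Lc : closedBall (0 : ℂ) 1 → closedBall (0 : ℂ) 1 := fun z => ⟨L z, hLm z⟩
  have hLc : Continuous Lc := by
    refine Continuous.subtype_mk ?_ _
    exact L.continuous.comp continuous_subtype_val
  have hden : Dense {z : closedBall (0 : ℂ) 1 | ‖(z : ℂ)‖ < 1} := by
    intro z
    rw [mem_closure_iff_nhds]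
    intro W hW
    obtain ⟨ε, hε, hW'⟩ := Metric.mem_nhds_iff.1 hW
    set r : ℝ := max 0 (1 - ε / 2) with hr
    have hr0 : 0 ≤ r := le_max_left _ _
    have hr1 : r < 1 := max_lt one_pos (by linarith)
    have hz1 : ‖(z : ℂ)‖ ≤ 1 := mem_closedBall_zero_iff.1 z.2
    have hn : ‖(r : ℂ) * (z : ℂ)‖ < 1 := by
      rw [norm_mul, Complex.norm_real, Real.norm_of_nonneg hr0]
      calc r * ‖(z : ℂ)‖ ≤ r * 1 := by gcongr
        _ < 1 := by linarith
    refine ⟨⟨(r : ℂ) * (z : ℂ), mem_closedBall_zero_iff.2 hn.le⟩, hW' ?_, hn⟩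
    rw [mem_ball, Subtype.dist_eq, dist_eq_norm]
    show ‖(r : ℂ) * (z : ℂ) - z‖ < ε
    have : (r : ℂ) * (z : ℂ) - z = ((r - 1 : ℝ) : ℂ) * z := by push_cast; ring
    rw [this, norm_mul, Complex.norm_real, Real.norm_eq_abs, abs_of_nonpos (by linarith)]
    have h1 : -(r - 1) ≤ ε / 2 := by
      have := le_max_right 0 (1 - ε / 2)
      linarith
    calc -(r - 1) * ‖(z : ℂ)‖ ≤ ε / 2 * 1 := by gcongr
      _ < ε := by linarith
  have hEq : (fun z : closedBall (0 : ℂ) 1 => ((F (Lc z) : t) : ℂ)) =
      fun z : closedBall (0 : ℂ) 1 => s ((F z : t) : ℂ) := by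
    refine Continuous.ext_on hden ?_ ?_ ?_
    · exact continuous_subtype_val.comp (F.continuous.comp hLc)
    · exact s.continuous.comp (continuous_subtype_val.comp F.continuous)
    · intro z hz
      have hz' : ‖(z : ℂ)‖ < 1 := hz
      have h1 : ‖((Lc z : closedBall (0 : ℂ) 1) : ℂ)‖ < 1 := by
        show ‖L z‖ < 1
        rwa [L.norm_map]
      show ((F (Lc z) : t) : ℂ) = s ((F z : t) : ℂ)
      rw [hF _ h1, hF _ hz', hL z (mem_ball_zero_iff.2 hz')]
  intro z w hw
  have h1 : w = Lc z := Subtype.ext hw
  rw [h1]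
  exact congrFun hEq z

end Pool.Agent.CT
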