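import Pool.Agent.CT.HDefs

set_option autoImplicit false

/-! # H2: interior and frontier of a closed topological disc -/

namespace Pool.Agent.CT

open Set Metric Filter Topology

open Classical in
/-- Extension of a map defined on a subset. -/
noncomputable def h2ext (s : Set ℂ) (f : s → ℂ) (x : ℂ) : ℂ := if h : x ∈ s then f ⟨x, h⟩ else 0

theorem h2ext_of_mem {s : Set ℂ} (f : s → ℂ) {x : ℂ} (h : x ∈ s) : h2ext s f x = f ⟨x, h⟩ := by
  simp [h2ext, h]

theorem h2ext_cont {s : Set ℂ} {f : s → ℂ} (hf : Continuous f) :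
    ContinuousOn (h2ext s f) s := by
  rw [continuousOn_iff_continuous_domRestrict]
  have : s.domRestrict (h2ext s f) = f := by
    funext x
    simp [Set.domRestrict, h2ext]
  rw [this]
  exact hf

theorem h2ext_inj {s : Set ℂ} {f : s → ℂ} (hf : Function.Injective f) :
    InjOn (h2ext s f) s := by
  intro x hx y hy h
  rw [h2ext_of_mem f hx, h2ext_of_mem f hy] at h
  exact congrArg Subtype.val (hf h)

/-- Small discs around a point of the domain are mapped to neighbourhoods. -/
theorem h2_nhds (h1 : Stmt_InvDom) {s : Set ℂ} {f : s → ℂ} (hf : Continuous f)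
    (hi : Function.Injective f) {x : ℂ} (hx : x ∈ s) {r : ℝ} (hr : 0 < r)
    (hs : closedBall x r ⊆ s) : f ⟨x, hx⟩ ∈ interior (range f) := by
  have hmap : MapsTo (fun w : ℂ => x + r * w) (closedBall 0 1) s := by
    intro w hw
    apply hs
    rw [mem_closedBall, dist_eq_norm] at hw ⊢
    rw [sub_zero] at hw
    simp only [add_sub_cancel_left, norm_mul, Complex.norm_real, Real.norm_eq_abs, abs_of_pos hr]
    nlinarith [norm_nonneg w]
  have h := h1 (fun w => h2ext s f (x + r * w)) (by
    refine (h2ext_cont hf).comp (Continuous.continuousOn (by fun_prop)) hmap) (by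
    intro a ha b hb hab
    have := h2ext_inj hi (hmap ha) (hmap hb) hab
    have h2 : (r : ℂ) * a = r * b := by simpa using this
    exact mul_left_cancel₀ (by exact_mod_cast hr.ne') h2)
  simp only [mul_zero, add_zero] at h
  rw [h2ext_of_mem f hx] at h
  refine interior_mono ?_ h
  rintro _ ⟨w, hw, rfl⟩
  refine ⟨⟨_, hmap hw⟩, ?_⟩
  simp only
  rw [h2ext_of_mem f (hmap hw)]

/-- H2. -/
theorem h2 (h1 : Stmt_InvDom) : Stmt_DiscTop := by
  intro t ψ
  have hcont : Continuous (fun z : closedBall (0 : ℂ) 1 => ((ψ z : t) : ℂ)) :=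
    continuous_subtype_val.comp ψ.continuous
  have hinj : Function.Injective (fun z : closedBall (0 : ℂ) 1 => ((ψ z : t) : ℂ)) :=
    Subtype.val_injective.comp ψ.injective
  have hrange : range (fun z : closedBall (0 : ℂ) 1 => ((ψ z : t) : ℂ)) = t := by
    ext x
    constructor
    · rintro ⟨z, rfl⟩
      exact (ψ z).2
    · intro hx
      exact ⟨ψ.symm ⟨x, hx⟩, by simp⟩
  have hcomp : IsCompact t := by
    rw [← hrange]
    have : CompactSpace (closedBall (0 : ℂ) 1) := isCompact_iff_compactSpace.1
      (isCompact_closedBall _ _)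
    exact isCompact_range hcont
  have hcl : IsClosed t := hcomp.isClosed
  have hint : ∀ z : closedBall (0 : ℂ) 1, ((ψ z : t) : ℂ) ∈ interior t ↔ ‖(z : ℂ)‖ < 1 := by
    intro z
    constructor
    · intro hz
      obtain ⟨ε, hε, hb⟩ := Metric.isOpen_iff.1 isOpen_interior _ hz
      have hsub : closedBall ((ψ z : t) : ℂ) (ε / 2) ⊆ t :=
        (closedBall_subset_ball (by linarith)).trans (hb.trans interior_subset)
      have h := h2_nhds h1 (s := t) (f := fun x => ((ψ.symm x : closedBall (0 : ℂ) 1) : ℂ))
        (continuous_subtype_val.comp ψ.symm.continuous)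
        (Subtype.val_injective.comp ψ.symm.injective) (ψ z).2 (half_pos hε) hsub
      have h2 : range (fun x : t => ((ψ.symm x : closedBall (0 : ℂ) 1) : ℂ)) ⊆
          closedBall (0 : ℂ) 1 := by
        rintro _ ⟨x, rfl⟩
        exact (ψ.symm x).2
      have h3 := interior_mono h2 h
      rw [interior_closedBall _ (one_ne_zero)] at h3
      simpa using h3
    · intro hz
      have h := h2_nhds h1 (s := closedBall (0 : ℂ) 1)
        (f := fun z : closedBall (0 : ℂ) 1 => ((ψ z : t) : ℂ)) hcont hinj z.2
        (r := 1 - ‖(z : ℂ)‖) (by linarith) (by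
          refine closedBall_subset_closedBall' ?_
          rw [dist_zero_right]
          linarith)
      rw [hrange] at h
      exact h
  refine ⟨hint, fun z => ?_, ?_, hcomp⟩
  · rw [hcl.frontier_eq, Set.mem_sdiff, hint z]
    have hz : ‖(z : ℂ)‖ ≤ 1 := mem_closedBall_zero_iff.1 z.2
    constructor
    · rintro ⟨_, h⟩
      exact le_antisymm hz (not_lt.1 h)
    · intro h
      exact ⟨(ψ z).2, by rw [h]; exact lt_irrefl _⟩
  · refine subset_antisymm ((closure_mono interior_subset).trans hcl.closure_eq.subset) ?_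
    intro x hx
    set z : closedBall (0 : ℂ) 1 := ψ.symm ⟨x, hx⟩ with hz
    have hx' : ((ψ z : t) : ℂ) = x := by simp [hz]
    have hd : z ∈ closure {w : closedBall (0 : ℂ) 1 | ‖(w : ℂ)‖ < 1} := by
      rw [closure_subtype]
      have himg : ((↑) : closedBall (0 : ℂ) 1 → ℂ) '' {w : closedBall (0 : ℂ) 1 |
          ‖(w : ℂ)‖ < 1} = ball 0 1 := by
        ext y
        constructor
        · rintro ⟨w, hw, rfl⟩
          simpa using hw
        · intro hy
          exact ⟨⟨y, ball_subset_closedBall hy⟩, by simpa using hy, rfl⟩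
      rw [himg, closure_ball _ one_ne_zero]
      exact z.2
    have hm := image_closure_subset_closure_image hcont (mem_image_of_mem _ hd)
    rw [← hx']
    refine closure_mono ?_ hm
    rintro _ ⟨w, hw, rfl⟩
    exact (hint w).2 hw

end Pool.Agent.CT
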