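import Pool.Agent.CT.HDefs

set_option autoImplicit false

/-! # H20: only finitely many isometries of the plane preserve a finite nontrivial set -/

namespace Pool.Agent.CT

open Set Metric

/-- An isometry of the plane is `z ↦ c + a * z` or `z ↦ c + a * conj z`. -/
theorem h20_form (s : ℂ ≃ᵢ ℂ) : ∃ b : Bool, ∃ a c : ℂ, ∀ z : ℂ,
    s z = c + a * (if b then z else (starRingEnd ℂ) z) := by
  have hL : ∀ z : ℂ, s.toRealLinearIsometryEquiv z = s z - s 0 := fun z => rfl
  obtain ⟨a, h | h⟩ := linear_isometry_complex s.toRealLinearIsometryEquiv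
  · refine ⟨true, a, s 0, fun z => ?_⟩
    have h1 := hL z
    rw [h, rotation_apply] at h1
    simp only [if_true]
    rw [h1]
    ring
  · refine ⟨false, a, s 0, fun z => ?_⟩
    have h1 := hL z
    rw [h] at h1
    simp only [LinearIsometryEquiv.trans_apply, rotation_apply, Complex.conjLIE_apply] at h1
    simp only [Bool.false_eq_true, if_false]
    rw [h1]
    ring

theorem h20 : Stmt_FinIso := by
  intro A hA hn
  obtain ⟨u, hu, v, hv, huv⟩ := hn
  have hsub : {s : ℂ ≃ᵢ ℂ | s '' A = A} ⊆ ⋃ p ∈ A, ⋃ q ∈ A, ⋃ b : Bool,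
      {s : ℂ ≃ᵢ ℂ | s u = p ∧ s v = q ∧ ∃ a c : ℂ, ∀ z : ℂ,
        s z = c + a * (if b then z else (starRingEnd ℂ) z)} := by
    intro s hs
    have hs' : s '' A = A := hs
    have h1 : s u ∈ A := hs' ▸ mem_image_of_mem s hu
    have h2 : s v ∈ A := hs' ▸ mem_image_of_mem s hv
    obtain ⟨b, hb⟩ := h20_form s
    simp only [mem_iUnion]
    exact ⟨s u, h1, s v, h2, b, rfl, rfl, hb⟩
  refine Set.Finite.subset ?_ hsub
  refine hA.biUnion fun p _ => hA.biUnion fun q _ => Set.finite_iUnion fun b => ?_
  refine Set.Subsingleton.finite ?_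
  rintro s ⟨hsu, hsv, a, c, hs⟩ t ⟨htu, htv, a', c', ht⟩
  have hne : (if b then u else (starRingEnd ℂ) u) - (if b then v else (starRingEnd ℂ) v) ≠ 0 := by
    cases b
    · simp only [Bool.false_eq_true, if_false]
      intro h
      exact huv ((starRingEnd ℂ).injective (sub_eq_zero.mp h))
    · simp only [if_true]
      exact sub_ne_zero.mpr huv
  have e1 : c + a * (if b then u else (starRingEnd ℂ) u) =
      c' + a' * (if b then u else (starRingEnd ℂ) u) := by
    rw [← hs u, ← ht u, hsu, htu]
  have e2 : c + a * (if b then v else (starRingEnd ℂ) v) =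
      c' + a' * (if b then v else (starRingEnd ℂ) v) := by
    rw [← hs v, ← ht v, hsv, htv]
  have haa : a = a' := by
    have h3 : (a - a') * ((if b then u else (starRingEnd ℂ) u) -
        (if b then v else (starRingEnd ℂ) v)) = 0 := by
      linear_combination e1 - e2
    rcases mul_eq_zero.mp h3 with h4 | h4
    · exact sub_eq_zero.mp h4
    · exact absurd h4 hne
  have hcc : c = c' := by
    rw [haa] at e1
    exact add_right_cancel e1
  ext z
  rw [hs z, ht z, haa, hcc]

end Pool.Agent.CT
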