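import Pool.Agent.CT.HDefs

set_option autoImplicit false

/-! # H21: the isometries of an equivariant drawing form a homomorphism -/

namespace Pool.Agent.CT

open Set Metric Filter Topology

/-- Two isometries of the plane agreeing on a set whose convex hull has nonempty interior are
equal. -/
theorem h21_ext {A : Set ℂ} (hA : (interior (convexHull ℝ A)).Nonempty) {s t : ℂ ≃ᵢ ℂ}
    (h : ∀ z ∈ A, s z = t z) : s = t := by
  have hspan : affineSpan ℝ A = ⊤ := affineSpan_eq_top_of_nonempty_interior hA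
  ext z
  have h1 : EqOn (s.toRealAffineIsometryEquiv.toAffineEquiv.toAffineMap : ℂ → ℂ)
      (t.toRealAffineIsometryEquiv.toAffineEquiv.toAffineMap : ℂ → ℂ) A := by
    intro w hw
    exact h w hw
  have h2 := AffineMap.eqOn_affineSpan h1
  rw [hspan] at h2
  exact h2 (AffineSubspace.mem_top ℝ ℂ z)

theorem h21 : Stmt_Rho := by
  intro K M hM φ hφ heq
  obtain ⟨t0, ht0⟩ : K.T.Nonempty := by
    have h0 : (0 : ℂ) ∈ ⋃₀ K.T := by
      rw [K.tiling.cover]
      exact mem_univ _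
    obtain ⟨t, ht, -⟩ := h0
    exact ⟨t, ht⟩
  have hint := hφ.int ⟨t0, ht0⟩
  have hex : ∀ s : symGroup K.T, ∃ s' : ℂ ≃ᵢ ℂ, ∀ v : K.V, φ (s • v) = s' (φ v) := by
    intro s
    obtain ⟨s', hs'⟩ := heq s.1 s.2
    exact ⟨s', fun v => hs' v (s • v) rfl⟩
  choose ρ hρ using hex
  have huniq : ∀ s' t' : ℂ ≃ᵢ ℂ, (∀ v : K.V, s' (φ v) = t' (φ v)) → s' = t' := by
    intro s' t' h
    apply h21_ext hint
    rintro z ⟨v, -, rfl⟩
    exact h v
  refine ⟨MonoidHom.mk' ρ ?_, fun s v => hρ s v⟩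
  intro a b
  apply huniq
  intro v
  rw [← hρ (a * b) v, mul_smul, hρ a, hρ b]
  rfl

end Pool.Agent.CT
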