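import Pool.Agent.CT.HDefs

set_option autoImplicit false

/-! # H22: stabilisers of tiles and of edges are finite -/

namespace Pool.Agent.CT

open Set Metric

/-- A set of points of the plane which is mapped into itself by the members of a subgroup. -/
theorem h22_image {A : Set ℂ} {S : Set (ℂ ≃ᵢ ℂ)} (hinv : ∀ s ∈ S, s⁻¹ ∈ S)
    (h : ∀ s ∈ S, ∀ p ∈ A, s p ∈ A) : ∀ s ∈ S, s '' A = A := by
  intro s hs
  apply Subset.antisymm
  · rintro _ ⟨p, hp, rfl⟩
    exact h s hs p hp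
  · intro p hp
    exact ⟨s⁻¹ p, h s⁻¹ (hinv s hs) p hp, s.apply_symm_apply p⟩

/-- The setwise stabiliser inside the symmetry group is closed under inverses. -/
theorem h22_inv (K : DiscTiling) (t : Set ℂ) :
    ∀ s ∈ {s : ℂ ≃ᵢ ℂ | s ∈ symGroup K.T ∧ s '' t = t},
      s⁻¹ ∈ {s : ℂ ≃ᵢ ℂ | s ∈ symGroup K.T ∧ s '' t = t} := by
  rintro s ⟨hs, ht⟩
  refine ⟨(symGroup K.T).inv_mem hs, ?_⟩
  conv_lhs => rw [← ht]
  rw [image_image]
  have : (fun x => s⁻¹ (s x)) = id := by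
    funext x
    exact s.symm_apply_apply x
  rw [this, image_id]

theorem h22 (h : Stmt_FinIso) : Stmt_FinStab := by
  intro K M hM _
  constructor
  · intro t
    -- the vertices of the edges of `t`
    have hA : {p : ℂ | ∃ v : K.V, v.1 = p ∧ ∃ e : K.E, v.1 ∈ e.1 ∧ e.1 ⊆ t.1}.Finite := by
      have h1 : (⋃ e ∈ {e | M.ef e t}, (fun v : K.V => v.1) '' {v | M.ve v e}).Finite := by
        refine (M.face_fin t).biUnion fun e _ => ?_
        obtain ⟨u, v, _, huv⟩ := M.edge_verts e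
        have : {w | M.ve w e} ⊆ {u, v} := by
          intro w hw
          exact (huv w).mp hw
        exact ((Set.toFinite {u, v}).subset this).image _
      refine h1.subset ?_
      rintro p ⟨v, rfl, e, hve, het⟩
      simp only [mem_iUnion]
      exact ⟨e, (hM.ef e t).mpr het, mem_image_of_mem _ ((hM.ve v e).mpr hve)⟩
    have hn : {p : ℂ | ∃ v : K.V, v.1 = p ∧ ∃ e : K.E, v.1 ∈ e.1 ∧ e.1 ⊆ t.1}.Nontrivial := by
      have hne : {e | M.ef e t}.Nonempty := by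
        rw [← Set.ncard_pos (M.face_fin t)]
        have := M.face_card t
        omega
      obtain ⟨e, he⟩ := hne
      obtain ⟨u, v, huv, hw⟩ := M.edge_verts e
      refine ⟨u.1, ⟨u, rfl, e, (hM.ve u e).mp ((hw u).mpr (Or.inl rfl)), (hM.ef e t).mp he⟩,
        v.1, ⟨v, rfl, e, (hM.ve v e).mp ((hw v).mpr (Or.inr rfl)), (hM.ef e t).mp he⟩, ?_⟩
      exact fun h' => huv (Subtype.ext h')
    refine (h _ hA hn).subset ?_
    intro s hs
    refine h22_image (h22_inv K t.1) ?_ s hs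
    rintro r ⟨hr, hrt⟩ p ⟨v, rfl, e, hve, het⟩
    refine ⟨(⟨r, hr⟩ : symGroup K.T) • v, rfl, (⟨r, hr⟩ : symGroup K.T) • e, ?_, ?_⟩
    · show r v.1 ∈ r '' e.1
      exact mem_image_of_mem _ hve
    · show r '' e.1 ⊆ t.1
      rw [← hrt]
      exact image_mono het
  · intro e
    obtain ⟨u, v, huv, hw⟩ := M.edge_verts e
    have hA : {p : ℂ | ∃ v : K.V, v.1 = p ∧ v.1 ∈ e.1}.Finite := by
      refine ((Set.toFinite {u, v}).image (fun v : K.V => v.1)).subset ?_
      rintro p ⟨w, rfl, hwe⟩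
      exact mem_image_of_mem _ ((hw w).mp ((hM.ve w e).mpr hwe))
    have hn : {p : ℂ | ∃ v : K.V, v.1 = p ∧ v.1 ∈ e.1}.Nontrivial :=
      ⟨u.1, ⟨u, rfl, (hM.ve u e).mp ((hw u).mpr (Or.inl rfl))⟩,
        v.1, ⟨v, rfl, (hM.ve v e).mp ((hw v).mpr (Or.inr rfl))⟩,
        fun h' => huv (Subtype.ext h')⟩
    refine (h _ hA hn).subset ?_
    intro s hs
    refine h22_image (h22_inv K e.1) ?_ s hs
    rintro r ⟨hr, hre⟩ p ⟨v, rfl, hve⟩
    refine ⟨(⟨r, hr⟩ : symGroup K.T) • v, rfl, ?_⟩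
    show r v.1 ∈ e.1
    rw [← hre]
    exact mem_image_of_mem _ hve

end Pool.Agent.CT
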