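import Pool.Agent.CT.HDefs

set_option autoImplicit false

/-! # H23: equivariant parameter of an arc -/

namespace Pool.Agent.CT

open Set Metric Filter Topology

/-- The inverse of an arc. -/
theorem h23_inv (γ : C(unitInterval, ℂ)) (hγ : Function.Injective γ) :
    ∃ a : ℂ → ℝ, ContinuousOn a (range γ) ∧ ∀ t : unitInterval, a (γ t) = t := by
  classical
  have hemb : IsClosedEmbedding γ := γ.continuous.isClosedEmbedding hγ
  let e : unitInterval ≃ₜ range γ := hemb.isEmbedding.toHomeomorph
  refine ⟨fun z => if h : z ∈ range γ then ((e.symm ⟨z, h⟩ : unitInterval) : ℝ) else 0, ?_, ?_⟩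
  · rw [continuousOn_iff_continuous_domRestrict]
    have h1 : (range γ).domRestrict
        (fun z => if h : z ∈ range γ then ((e.symm ⟨z, h⟩ : unitInterval) : ℝ) else 0) =
        fun z => ((e.symm z : unitInterval) : ℝ) := by
      funext z
      rw [domRestrict_apply, dif_pos z.2]
    rw [h1]
    exact continuous_subtype_val.comp e.symm.continuous
  · intro t
    have h1 : γ t ∈ range γ := mem_range_self t
    have h2 : e.symm ⟨γ t, h1⟩ = t := by
      rw [Homeomorph.symm_apply_eq]
      exact Subtype.ext rfl
    simp only [dif_pos h1, h2]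

/-- A continuous injective function on the unit interval which increases at the ends is strictly
increasing. -/
theorem h23_mono (u : unitInterval → ℝ) (hc : Continuous u) (hi : Function.Injective u)
    (h01 : u 0 ≤ u 1) : StrictMono u := by
  have h1 : StrictMonoOn (fun t : ℝ => u (projIcc 0 1 zero_le_one t)) (Icc 0 1) := by
    refine ContinuousOn.strictMonoOn_of_injOn_Icc zero_le_one ?_ ?_ ?_
    · rw [projIcc_left, projIcc_right]
      exact h01
    · exact (hc.comp continuous_projIcc).continuousOn
    · intro s hs t ht hst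
      have h2 := hi hst
      rw [projIcc_of_mem _ hs, projIcc_of_mem _ ht] at h2
      exact congrArg Subtype.val h2
  intro s t hst
  have h2 := h1 s.2 t.2 hst
  simp only [projIcc_val] at h2
  exact h2

theorem h23 : Stmt_ArcParam := by
  classical
  intro γ hγ S hS hSγ
  obtain ⟨a, ha, haγ⟩ := h23_inv γ hγ
  have h01 : γ 0 ≠ γ 1 := fun h => zero_ne_one (hγ h)
  have hfin : Finite S := hS.to_subtype
  have : Fintype S := Fintype.ofFinite S
  have hmem : ∀ s : S, ∀ z ∈ range γ, s.1 z ∈ range γ := by
    intro s z hz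
    rw [← (hSγ s.1 s.2).1]
    exact mem_image_of_mem _ hz
  have hainj : InjOn a (range γ) := by
    rintro _ ⟨s, rfl⟩ _ ⟨t, rfl⟩ h
    rw [haγ, haγ] at h
    rw [Subtype.ext h]
  let β : S → ℂ → ℝ := fun s z => if s.1 (γ 0) = γ 0 then a (s.1 z) else 1 - a (s.1 z)
  have hβc : ∀ s, ContinuousOn (β s) (range γ) := by
    intro s
    have h1 : ContinuousOn (fun z => a (s.1 z)) (range γ) :=
      ha.comp s.1.continuous.continuousOn (hmem s)
    by_cases h : s.1 (γ 0) = γ 0
    · have : β s = fun z => a (s.1 z) := by
        funext z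
        simp only [β, if_pos h]
      rw [this]
      exact h1
    · have : β s = fun z => 1 - a (s.1 z) := by
        funext z
        simp only [β, if_neg h]
      rw [this]
      exact continuousOn_const.sub h1
  have hβ0 : ∀ s, β s (γ 0) = 0 := by
    intro s
    rcases (hSγ s.1 s.2).2 with ⟨h1, h2⟩ | ⟨h1, h2⟩
    · simp only [β, if_pos h1, h1, haγ, Set.Icc.coe_zero]
    · have h3 : ¬ s.1 (γ 0) = γ 0 := by
        rw [h1]
        exact h01.symm
      simp only [β, if_neg h3, h1, haγ, Set.Icc.coe_one, sub_self]
  have hβ1 : ∀ s, β s (γ 1) = 1 := by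
    intro s
    rcases (hSγ s.1 s.2).2 with ⟨h1, h2⟩ | ⟨h1, h2⟩
    · simp only [β, if_pos h1, h2, haγ, Set.Icc.coe_one]
    · have h3 : ¬ s.1 (γ 0) = γ 0 := by
        rw [h1]
        exact h01.symm
      simp only [β, if_neg h3, h2, haγ, Set.Icc.coe_zero, sub_zero]
  have hβi : ∀ s, InjOn (β s) (range γ) := by
    intro s z hz w hw hzw
    have h1 : a (s.1 z) = a (s.1 w) := by
      by_cases h : s.1 (γ 0) = γ 0
      · simpa only [β, if_pos h] using hzw
      · have h2 : 1 - a (s.1 z) = 1 - a (s.1 w) := by simpa only [β, if_neg h] using hzw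
        linarith
    exact s.1.injective (hainj (hmem s z hz) (hmem s w hw) h1)
  have hβm : ∀ s, StrictMono fun t : unitInterval => β s (γ t) := by
    intro s
    refine h23_mono _ ?_ ?_ ?_
    · exact (hβc s).comp_continuous γ.continuous fun t => mem_range_self t
    · intro t t' h
      exact hγ (hβi s (mem_range_self t) (mem_range_self t') h)
    · rw [hβ0, hβ1]
      exact zero_le_one
  have hcard : (0 : ℝ) < Fintype.card S := by
    exact_mod_cast Fintype.card_pos
  let α : ℂ → ℝ := fun z => (∑ s : S, β s z) / Fintype.card S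
  have hαc : ContinuousOn α (range γ) := by
    refine ContinuousOn.div_const ?_ _
    exact continuousOn_finsetSum _ fun s _ => hβc s
  have hα0 : α (γ 0) = 0 := by
    simp only [α, hβ0, Finset.sum_const_zero, zero_div]
  have hα1 : α (γ 1) = 1 := by
    simp only [α, hβ1, Finset.sum_const, Finset.card_univ, nsmul_eq_mul, mul_one]
    exact div_self hcard.ne'
  have hαm : StrictMono fun t : unitInterval => α (γ t) := by
    intro t t' h
    have h1 : (∑ s : S, β s (γ t)) < ∑ s : S, β s (γ t') :=
      Finset.sum_lt_sum_of_nonempty Finset.univ_nonempty fun s _ => hβm s h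
    exact div_lt_div_of_pos_right h1 hcard
  have hαcont : Continuous fun t : unitInterval => α (γ t) :=
    hαc.comp_continuous γ.continuous fun t => mem_range_self t
  refine ⟨α, hαc, ?_, ?_, hα0, hα1, ?_⟩
  · rintro _ ⟨s, rfl⟩ _ ⟨t, rfl⟩ h
    rw [hαm.injective h]
  · apply Subset.antisymm
    · rintro _ ⟨_, ⟨t, rfl⟩, rfl⟩
      refine ⟨?_, ?_⟩
      · rw [← hα0]
        exact hαm.monotone unitInterval.nonneg'
      · rw [← hα1]
        exact hαm.monotone unitInterval.le_one'
    · intro y hy
      have h1 := intermediate_value_univ (0 : unitInterval) 1 hαcont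
      have h2 : y ∈ Icc (α (γ 0)) (α (γ 1)) := by rwa [hα0, hα1]
      obtain ⟨t, ht⟩ := h1 h2
      exact ⟨γ t, mem_range_self t, ht⟩
  · intro r hr z hz
    let r' : S := ⟨r, hr⟩
    have hsum : ∑ s : S, β (s * r') z = ∑ s : S, β s z :=
      Fintype.sum_equiv (_root_.Equiv.mulRight r') _ _ fun s => rfl
    have hmul : ∀ (s : S) (w : ℂ), (s * r').1 w = s.1 (r w) := fun s w => rfl
    constructor
    · intro hfix
      have h1 : ∀ s, β s (r z) = β (s * r') z := by
        intro s
        have h2 : (s * r').1 (γ 0) = s.1 (γ 0) := by rw [hmul, hfix]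
        simp only [β, h2, hmul]
      show (∑ s : S, β s (r z)) / Fintype.card S = (∑ s : S, β s z) / Fintype.card S
      rw [← hsum]
      simp only [h1]
    · intro hsw
      have hsw' : r (γ 1) = γ 0 := by
        rcases (hSγ r hr).2 with ⟨h1, h2⟩ | ⟨h1, h2⟩
        · exact absurd (h1.symm.trans hsw) h01
        · exact h2
      have h1 : ∀ s, β s (r z) = 1 - β (s * r') z := by
        intro s
        rcases (hSγ s.1 s.2).2 with ⟨h2, h3⟩ | ⟨h2, h3⟩
        · have h4 : ¬ (s * r').1 (γ 0) = γ 0 := by
            rw [hmul, hsw, h3]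
            exact h01.symm
          simp only [β, if_pos h2, if_neg h4, hmul]
          ring
        · have h4 : (s * r').1 (γ 0) = γ 0 := by rw [hmul, hsw, h3]
          have h5 : ¬ s.1 (γ 0) = γ 0 := by
            rw [h2]
            exact h01.symm
          simp only [β, if_neg h5, if_pos h4, hmul]
      show (∑ s : S, β s (r z)) / Fintype.card S = 1 - (∑ s : S, β s z) / Fintype.card S
      simp only [h1, Finset.sum_sub_distrib, hsum, Finset.sum_const, Finset.card_univ,
        nsmul_eq_mul, mul_one]
      rw [sub_div, div_self hcard.ne']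

end Pool.Agent.CT
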