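import Pool.Agent.CT.HDefs

set_option autoImplicit false

/-! # H25: one edge, equivariant under its stabiliser -/

namespace Pool.Agent.CT

open Set Metric Filter Topology

/-- Isometries of the plane respect affine combinations. -/
theorem h25_lineMap (g : ℂ ≃ᵢ ℂ) (x y : ℂ) (a : ℝ) :
    g (AffineMap.lineMap x y a) = AffineMap.lineMap (g x) (g y) a := by
  have h := (g.toRealAffineIsometryEquiv).toAffineEquiv.toAffineMap.apply_lineMap x y a
  exact h

/-- The stabiliser of a set in the symmetry group. -/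
def h25_stab (K : DiscTiling) (A : Set ℂ) : Subgroup (ℂ ≃ᵢ ℂ) where
  carrier := {s : ℂ ≃ᵢ ℂ | s ∈ symGroup K.T ∧ s '' A = A}
  mul_mem' := by
    rintro a b ⟨ha, ha'⟩ ⟨hb, hb'⟩
    refine ⟨mul_mem ha hb, ?_⟩
    have : ((a * b : ℂ ≃ᵢ ℂ) : ℂ → ℂ) = a ∘ b := rfl
    rw [this, image_comp, hb', ha']
  one_mem' := by
    refine ⟨one_mem _, ?_⟩
    have : ((1 : ℂ ≃ᵢ ℂ) : ℂ → ℂ) = id := rfl
    rw [this, image_id]
  inv_mem' := by
    rintro a ⟨ha, ha'⟩
    refine ⟨inv_mem ha, ?_⟩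
    conv_lhs => rw [← ha']
    rw [image_image]
    have : (fun x => (a⁻¹ : ℂ ≃ᵢ ℂ) (a x)) = id := by
      funext x
      exact a.symm_apply_apply x
    rw [this, image_id]

/-- **H25.** -/
theorem h25 (h22 : Stmt_FinStab) (h23 : Stmt_ArcParam) : Stmt_EdgeOne := by
  classical
  intro K c e
  obtain ⟨γ, hγ, hr, u, v, huv, h0, h1, hw⟩ := c.topo.arc e
  have hue : u.1 ∈ e.1 := (hw u).mpr (Or.inl rfl)
  have hve : v.1 ∈ e.1 := (hw v).mpr (Or.inr rfl)
  have hfin : ((h25_stab K e.1 : Subgroup (ℂ ≃ᵢ ℂ)) : Set (ℂ ≃ᵢ ℂ)).Finite :=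
    (h22 K c.M c.isMap c.topo).2 e
  -- symmetries permute the two ends
  have hperm : ∀ s : symGroup K.T, s • e = e →
      (s • u = u ∧ s • v = v) ∨ (s • u = v ∧ s • v = u) := by
    intro s hs
    have himg : s.1 '' e.1 = e.1 := by
      rw [← smul_E_coe, hs]
    have a1 : s • u = u ∨ s • u = v := by
      rw [← hw, smul_V_coe, ← himg]
      exact mem_image_of_mem _ hue
    have a2 : s • v = u ∨ s • v = v := by
      rw [← hw, smul_V_coe, ← himg]
      exact mem_image_of_mem _ hve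
    have a3 : s • u ≠ s • v := fun h => huv (smul_left_cancel s h)
    rcases a1 with a1 | a1 <;> rcases a2 with a2 | a2
    · exact absurd (a1.trans a2.symm) a3
    · exact Or.inl ⟨a1, a2⟩
    · exact Or.inr ⟨a1, a2⟩
    · exact absurd (a1.trans a2.symm) a3
  obtain ⟨α, hαc, hαi, hαr, hα0, hα1, hαs⟩ := h23 γ hγ (h25_stab K e.1) hfin (by
    rintro s ⟨hs, hse⟩
    refine ⟨by rw [hr, hse], ?_⟩
    have hse' : (⟨s, hs⟩ : symGroup K.T) • e = e := Subtype.ext hse
    rw [h0, h1]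
    rcases hperm ⟨s, hs⟩ hse' with ⟨a1, a2⟩ | ⟨a1, a2⟩
    · left
      exact ⟨congrArg Subtype.val a1, congrArg Subtype.val a2⟩
    · right
      exact ⟨congrArg Subtype.val a1, congrArg Subtype.val a2⟩)
  rw [hr] at hαc hαi hαr hαs
  rw [h0] at hα0 hαs
  rw [h1] at hα1 hαs
  have hverts : {w : K.V | c.M.ve w e} = {u, v} := by
    ext w
    show c.M.ve w e ↔ w = u ∨ w = v
    rw [← hw w]
    exact c.isMap.ve w e
  have hne : c.φ u ≠ c.φ v := c.dr.ne e u v ((c.isMap.ve u e).mpr hue)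
    ((c.isMap.ve v e).mpr hve) huv
  refine ⟨fun z => AffineMap.lineMap (c.φ u) (c.φ v) (α z), ⟨?_, ?_, ?_, ?_⟩, ?_⟩
  · exact (AffineMap.lineMap_continuous (R := ℝ)).comp_continuousOn hαc
  · intro z hz w hw' h
    exact hαi hz hw' (AffineMap.lineMap_injective ℝ hne h)
  · unfold seg
    rw [hverts, image_pair, convexHull_pair, segment_eq_image_lineMap, ← hαr, image_image]
  · intro w hwe
    rcases (hw w).mp hwe with rfl | rfl
    · show AffineMap.lineMap (c.φ w) (c.φ v) (α w.1) = c.φ w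
      rw [hα0, AffineMap.lineMap_apply_zero]
    · show AffineMap.lineMap (c.φ u) (c.φ w) (α w.1) = c.φ w
      rw [hα1, AffineMap.lineMap_apply_one]
  · intro s hs z hz
    have himg : s.1 '' e.1 = e.1 := by
      rw [← smul_E_coe, hs]
    have hmem : s.1 ∈ h25_stab K e.1 := ⟨s.2, himg⟩
    obtain ⟨b1, b2⟩ := hαs s.1 hmem z hz
    show AffineMap.lineMap (c.φ u) (c.φ v) (α (s.1 z)) =
      c.ρ s (AffineMap.lineMap (c.φ u) (c.φ v) (α z))
    rw [h25_lineMap, ← c.eq, ← c.eq]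
    rcases hperm s hs with ⟨a1, a2⟩ | ⟨a1, a2⟩
    · rw [a1, a2, b1 (congrArg Subtype.val a1)]
    · rw [a1, a2, b2 (congrArg Subtype.val a1), AffineMap.lineMap_apply_one_sub]

end Pool.Agent.CT
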