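import Pool.Agent.CT.HDefs

set_option autoImplicit false

/-! # H26: the equivariant map of the 1-skeleton -/

namespace Pool.Agent.CT

open Set Metric Filter Topology

/-- Isometries of the plane respect convex hulls. -/
theorem h26_hull (g : ℂ ≃ᵢ ℂ) (A : Set ℂ) : g '' (convexHull ℝ A) = convexHull ℝ (g '' A) := by
  have h := AffineMap.image_convexHull
    ((g.toRealAffineIsometryEquiv).toAffineEquiv.toAffineMap) A
  exact h

/-- Being an edge map is preserved by transport. -/
theorem h26_good {K : DiscTiling} (c : HCtx K) (g : symGroup K.T) (x : K.E) (B B' : ℂ → ℂ)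
    (hB : c.IsEdgeMap x B) (h : ∀ z ∈ x.1, B' (g.1 z) = c.ρ g (B z)) :
    c.IsEdgeMap (g • x) B' := by
  have hval : ∀ y ∈ (g • x).1, B' y = c.ρ g (B (g.1.symm y)) := by
    intro y hy
    rw [smul_E_coe] at hy
    obtain ⟨z, hz, rfl⟩ := hy
    rw [g.1.symm_apply_apply]
    exact h z hz
  have hmaps : MapsTo (g.1.symm) (g • x).1 x.1 := by
    intro y hy
    rw [smul_E_coe] at hy
    obtain ⟨z, hz, rfl⟩ := hy
    rw [g.1.symm_apply_apply]
    exact hz
  refine ⟨?_, ?_, ?_, ?_⟩
  · have h1 : ContinuousOn (fun y => c.ρ g (B (g.1.symm y))) (g • x).1 :=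
      (c.ρ g).continuous.comp_continuousOn
        (hB.cont.comp (g.1.symm.continuous.continuousOn) hmaps)
    exact h1.congr hval
  · intro y hy y' hy' hyy
    rw [hval y hy, hval y' hy'] at hyy
    have h1 := hB.inj (hmaps hy) (hmaps hy') ((c.ρ g).injective hyy)
    exact g.1.symm.injective h1
  · have h1 : B' '' (g • x).1 = c.ρ g '' (B '' x.1) := by
      rw [smul_E_coe, image_image, image_image]
      exact image_congr h
    rw [h1, hB.img]
    unfold seg
    rw [h26_hull, image_image]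
    congr 1
    ext w
    constructor
    · rintro ⟨v, hv, rfl⟩
      refine ⟨g • v, ?_, (c.eq g v)⟩
      have hv' : v.1 ∈ x.1 := (c.isMap.ve v x).mp hv
      refine (c.isMap.ve (g • v) (g • x)).mpr ?_
      rw [smul_V_coe, smul_E_coe]
      exact mem_image_of_mem _ hv'
    · rintro ⟨v, hv, rfl⟩
      have hv' : v.1 ∈ (g • x).1 := (c.isMap.ve v (g • x)).mp hv
      refine ⟨g⁻¹ • v, (c.isMap.ve (g⁻¹ • v) x).mpr (hmaps hv'), ?_⟩
      show c.ρ g (c.φ (g⁻¹ • v)) = c.φ v
      rw [← c.eq, smul_inv_smul]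
  · intro v hv
    have hv' : (g⁻¹ • v).1 ∈ x.1 := hmaps hv
    rw [hval v.1 hv]
    have h1 : g.1.symm v.1 = (g⁻¹ • v).1 := rfl
    rw [h1, hB.vert _ hv', ← c.eq, smul_inv_smul]

/-- **H26.** -/
theorem h26 (h24 : Stmt_Transport) (h25 : Stmt_EdgeOne) : Stmt_Skel := by
  classical
  intro K c
  obtain ⟨B, hB, hBs⟩ := h24 (symGroup K.T) K.E (Subgroup.subtype _) c.ρ (fun e => e.1)
    (fun g x => rfl) (fun e B => c.IsEdgeMap e B)
    (fun g x B B' hB h => h26_good c g x B B' hB h) (fun e => h25 K c e)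
  let b : ℂ → ℂ := fun z => if h : ∃ e : K.E, z ∈ e.1 then B h.choose z else 0
  have hval : ∀ (e : K.E) (z : ℂ), z ∈ e.1 → b z = B e z := by
    intro e z hz
    have hex : ∃ e : K.E, z ∈ e.1 := ⟨e, hz⟩
    have h1 : b z = B hex.choose z := dif_pos hex
    rw [h1]
    have hd : z ∈ hex.choose.1 := hex.choose_spec
    generalize hex.choose = d at hd
    by_cases heq : d = e
    · rw [heq]
    · obtain ⟨v, hv⟩ := c.topo.edge_inter d e heq z hd hz
      rw [← hv, (hB d).vert v (by rw [hv]; exact hd), (hB e).vert v (by rw [hv]; exact hz)]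
  refine ⟨b, ⟨fun e => ⟨?_, ?_, ?_, ?_⟩, ?_⟩⟩
  · exact (hB e).cont.congr (hval e)
  · intro z hz w hw h
    rw [hval e z hz, hval e w hw] at h
    exact (hB e).inj hz hw h
  · rw [← (hB e).img]
    exact image_congr (hval e)
  · intro v hv
    rw [hval e v.1 hv]
    exact (hB e).vert v hv
  · intro s e z hz
    rw [hval e z hz, hval (s • e) (s.1 z) (by rw [smul_E_coe]; exact mem_image_of_mem _ hz)]
    exact hBs s e z hz

end Pool.Agent.CT
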