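import Pool.Agent.CT.HDefs

set_option autoImplicit false

/-! # H27: radial extension -/

namespace Pool.Agent.CT

open Set Metric

/-- points strictly inside the segment from an interior point to a point of a closed convex set -/
theorem h27_int {P : Set ℂ} (hP : Convex ℝ P) {q x : ℂ} (hq : q ∈ interior P)
    (hx : x ∈ closure P) {t : ℝ} (h0 : 0 ≤ t) (h1 : t < 1) : q + (t : ℂ) * (x - q) ∈ interior P := by
  have h := hP.add_smul_sub_mem_interior' hx hq (t := 1 - t) ⟨by linarith, by linarith⟩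
  have he : x + (1 - t) • (q - x) = q + (t : ℂ) * (x - q) := by
    rw [Complex.real_smul]
    push_cast
    ring
  rwa [he] at h

theorem h27_ray {P : Set ℂ} (hc : IsCompact P) {q d : ℂ} (hd : d ≠ 0) (hp : q + d ∈ P) :
    ∃ s : ℝ, 1 ≤ s ∧ q + (s : ℂ) * d ∈ frontier P := by
  have hcl : IsClosed {s : ℝ | q + (s : ℂ) * d ∈ P} :=
    hc.isClosed.preimage (by fun_prop)
  have h1 : (1 : ℝ) ∈ {s : ℝ | q + (s : ℂ) * d ∈ P} := by
    show q + ((1 : ℝ) : ℂ) * d ∈ P
    rw [Complex.ofReal_one, one_mul]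
    exact hp
  obtain ⟨C, hC⟩ := hc.isBounded.exists_norm_le
  have hdn : 0 < ‖d‖ := norm_pos_iff.mpr hd
  have hbd : BddAbove {s : ℝ | q + (s : ℂ) * d ∈ P} := by
    refine ⟨(C + ‖q‖) / ‖d‖, ?_⟩
    intro s hs
    have h2 : ‖q + (s : ℂ) * d‖ ≤ C := hC _ hs
    have h3 : ‖(s : ℂ) * d‖ ≤ ‖q + (s : ℂ) * d‖ + ‖q‖ := by
      have h4 := norm_sub_le (q + (s : ℂ) * d) q
      rwa [add_sub_cancel_left] at h4
    rw [norm_mul, Complex.norm_real] at h3
    rw [le_div_iff₀ hdn]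
    have h5 : s * ‖d‖ ≤ ‖s‖ * ‖d‖ := mul_le_mul_of_nonneg_right (Real.le_norm_self s) hdn.le
    linarith
  have hmem : sSup {s : ℝ | q + (s : ℂ) * d ∈ P} ∈ {s : ℝ | q + (s : ℂ) * d ∈ P} :=
    hcl.csSup_mem ⟨1, h1⟩ hbd
  refine ⟨sSup {s : ℝ | q + (s : ℂ) * d ∈ P}, le_csSup hbd h1, ?_⟩
  set s := sSup {s : ℝ | q + (s : ℂ) * d ∈ P} with hs
  refine ⟨subset_closure hmem, fun hint => ?_⟩
  rw [mem_interior_iff_mem_nhds, Metric.mem_nhds_iff] at hint
  obtain ⟨ε, hε, hball⟩ := hint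
  have h6 : q + ((s + ε / 2 / ‖d‖ : ℝ) : ℂ) * d ∈ ball (q + (s : ℂ) * d) ε := by
    rw [mem_ball, dist_eq_norm]
    have : q + ((s + ε / 2 / ‖d‖ : ℝ) : ℂ) * d - (q + (s : ℂ) * d) =
        ((ε / 2 / ‖d‖ : ℝ) : ℂ) * d := by
      push_cast
      ring
    rw [this, norm_mul, Complex.norm_real, Real.norm_of_nonneg (by positivity),
      div_mul_cancel₀ _ hdn.ne']
    linarith
  have h7 : s + ε / 2 / ‖d‖ ≤ s := le_csSup hbd (hball h6)
  have h8 : 0 < ε / 2 / ‖d‖ := by positivity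
  linarith

theorem h27 : Stmt_Radial := by
  intro P hP hc q hq β hβ hinj himg
  have hfr : ∀ z : ℂ, z ≠ 0 → β (z / (‖z‖ : ℂ)) ∈ frontier P := by
    intro z hz
    rw [← himg]
    refine mem_image_of_mem β ?_
    rw [mem_sphere_zero_iff_norm, norm_div, Complex.norm_real, norm_norm,
      div_self (norm_ne_zero_iff.mpr hz)]
  have hsub : frontier P ⊆ P := hc.isClosed.frontier_subset
  have hnot : ∀ x ∈ frontier P, x ∉ interior P := fun x hx => hx.2
  have hqP : q ∈ P := interior_subset hq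
  obtain ⟨C, hC⟩ := hc.isBounded.exists_norm_le
  refine ⟨?_, ?_, ?_⟩
  · intro z0 hz0
    by_cases h0 : z0 = 0
    · subst h0
      rw [Metric.continuousWithinAt_iff]
      intro ε hε
      have hC0 : 0 ≤ C := (norm_nonneg q).trans (hC q hqP)
      refine ⟨ε / (C + ‖q‖ + 1), by positivity, fun z _ hz => ?_⟩
      have h1 : ‖z‖ < ε / (C + ‖q‖ + 1) := by rwa [dist_zero_right] at hz
      rw [dist_eq_norm]
      by_cases hz0 : z = 0
      · subst hz0
        simpa using hε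
      · have h2 : ‖β (z / (‖z‖ : ℂ)) - q‖ ≤ C + ‖q‖ :=
          (norm_sub_le _ _).trans (add_le_add_left (hC _ (hsub (hfr z hz0))) _)
        have h3 : q + (‖z‖ : ℂ) * (β (z / (‖z‖ : ℂ)) - q) -
            (q + (‖(0 : ℂ)‖ : ℂ) * (β (0 / (‖(0 : ℂ)‖ : ℂ)) - q)) =
            (‖z‖ : ℂ) * (β (z / (‖z‖ : ℂ)) - q) := by
          simp
        rw [h3, norm_mul, Complex.norm_real, norm_norm]
        rw [lt_div_iff₀ (by positivity)] at h1
        have h4 : ‖z‖ * ‖β (z / (‖z‖ : ℂ)) - q‖ ≤ ‖z‖ * (C + ‖q‖) :=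
          mul_le_mul_of_nonneg_left h2 (norm_nonneg z)
        have h5 : 0 ≤ ‖z‖ := norm_nonneg z
        nlinarith
    · refine ContinuousAt.continuousWithinAt ?_
      have hn : (‖z0‖ : ℂ) ≠ 0 := by exact_mod_cast norm_ne_zero_iff.mpr h0
      have h1 : ContinuousAt (fun z : ℂ => z / (‖z‖ : ℂ)) z0 :=
        continuousAt_id.div (Complex.continuous_ofReal.comp continuous_norm).continuousAt hn
      have hs0 : z0 / (‖z0‖ : ℂ) ∈ sphere (0 : ℂ) 1 := by
        rw [mem_sphere_zero_iff_norm, norm_div, Complex.norm_real, norm_norm,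
          div_self (norm_ne_zero_iff.mpr h0)]
      have h2 : ContinuousWithinAt (β ∘ fun z : ℂ => z / (‖z‖ : ℂ)) {0}ᶜ z0 := by
        refine ContinuousWithinAt.comp (t := sphere (0 : ℂ) 1) (hβ _ hs0) h1.continuousWithinAt ?_
        intro z hz
        have hz' : z ≠ 0 := hz
        rw [mem_sphere_zero_iff_norm, norm_div, Complex.norm_real, norm_norm,
          div_self (norm_ne_zero_iff.mpr hz')]
      have h3 : ContinuousAt (β ∘ fun z : ℂ => z / (‖z‖ : ℂ)) z0 :=
        h2.continuousAt (isOpen_compl_singleton.mem_nhds h0)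
      exact continuousAt_const.add
        ((Complex.continuous_ofReal.comp continuous_norm).continuousAt.mul
          (h3.sub continuousAt_const))
  · -- injectivity
    have key : ∀ z w : ℂ, z ≠ 0 → w ≠ 0 → ‖z‖ < ‖w‖ →
        q + (‖z‖ : ℂ) * (β (z / (‖z‖ : ℂ)) - q) = q + (‖w‖ : ℂ) * (β (w / (‖w‖ : ℂ)) - q) →
        False := by
      intro z w hz hw hlt he
      have hwn : (0 : ℝ) < ‖w‖ := norm_pos_iff.mpr hw
      have hwn' : (‖w‖ : ℂ) ≠ 0 := by exact_mod_cast hwn.ne'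
      have h1 : β (w / (‖w‖ : ℂ)) = q + ((‖z‖ / ‖w‖ : ℝ) : ℂ) * (β (z / (‖z‖ : ℂ)) - q) := by
        have h2 : (‖w‖ : ℂ) * (β (w / (‖w‖ : ℂ)) - q) = (‖z‖ : ℂ) * (β (z / (‖z‖ : ℂ)) - q) :=
          (add_left_cancel he).symm
        rw [Complex.ofReal_div, div_mul_eq_mul_div, ← h2, mul_div_cancel_left₀ _ hwn']
        ring
      refine hnot _ (hfr w hw) ?_
      rw [h1]
      exact h27_int hP hq (subset_closure (hsub (hfr z hz))) (by positivity)
        ((div_lt_one hwn).mpr hlt)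
    have key0 : ∀ w : ℂ, w ≠ 0 → q + (‖w‖ : ℂ) * (β (w / (‖w‖ : ℂ)) - q) ≠ q := by
      intro w hw he
      have hwn' : (‖w‖ : ℂ) ≠ 0 := by exact_mod_cast norm_ne_zero_iff.mpr hw
      have h1 : (‖w‖ : ℂ) * (β (w / (‖w‖ : ℂ)) - q) = 0 := by
        have h2 : q + (‖w‖ : ℂ) * (β (w / (‖w‖ : ℂ)) - q) = q + 0 := by rw [he, add_zero]
        exact add_left_cancel h2
      have h2 : β (w / (‖w‖ : ℂ)) = q := by
        rcases mul_eq_zero.mp h1 with h | h
        · exact absurd h hwn'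
        · exact sub_eq_zero.mp h
      exact hnot _ (hfr w hw) (h2 ▸ hq)
    intro z hz w hw he
    have he' : q + (‖z‖ : ℂ) * (β (z / (‖z‖ : ℂ)) - q) =
      q + (‖w‖ : ℂ) * (β (w / (‖w‖ : ℂ)) - q) := he
    by_cases hz0 : z = 0
    · by_cases hw0 : w = 0
      · rw [hz0, hw0]
      · exfalso
        refine key0 w hw0 ?_
        rw [← he', hz0]
        simp
    · by_cases hw0 : w = 0
      · exfalso
        refine key0 z hz0 ?_
        rw [he', hw0]
        simp
      · have hnorm : ‖z‖ = ‖w‖ := by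
          rcases lt_trichotomy ‖z‖ ‖w‖ with h | h | h
          · exact (key z w hz0 hw0 h he').elim
          · exact h
          · exact (key w z hw0 hz0 h he'.symm).elim
        have hwn' : (‖w‖ : ℂ) ≠ 0 := by exact_mod_cast norm_ne_zero_iff.mpr hw0
        rw [hnorm] at he'
        have h1 := mul_left_cancel₀ hwn' (add_left_cancel he')
        have h2 : β (z / (‖w‖ : ℂ)) = β (w / (‖w‖ : ℂ)) := sub_left_injective h1
        have hs : ∀ u : ℂ, ‖u‖ = ‖w‖ → u / (‖w‖ : ℂ) ∈ sphere (0 : ℂ) 1 := by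
          intro u hu
          rw [mem_sphere_zero_iff_norm, norm_div, Complex.norm_real, norm_norm, hu,
            div_self (norm_ne_zero_iff.mpr hw0)]
        have h3 := hinj (hs z hnorm) (hs w rfl) h2
        rw [div_eq_div_iff hwn' hwn'] at h3
        exact mul_right_cancel₀ hwn' h3
  · -- image
    apply Subset.antisymm
    · rintro _ ⟨z, hz, rfl⟩
      show q + (‖z‖ : ℂ) * (β (z / (‖z‖ : ℂ)) - q) ∈ P
      by_cases hz0 : z = 0
      · rw [hz0]
        simpa using hqP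
      · rw [mem_closedBall_zero_iff] at hz
        have h1 := hP.add_smul_sub_mem hqP (hsub (hfr z hz0)) ⟨norm_nonneg z, hz⟩
        rwa [Complex.real_smul] at h1
    · intro p hp
      by_cases hpq : p = q
      · refine ⟨0, by simp, ?_⟩
        simp [hpq]
      · have hd : p - q ≠ 0 := sub_ne_zero.mpr hpq
        obtain ⟨s, hs1, hsf⟩ := h27_ray hc (q := q) hd (by rwa [add_sub_cancel])
        rw [← himg] at hsf
        obtain ⟨u, hu, hus⟩ := hsf
        have hun : ‖u‖ = 1 := mem_sphere_zero_iff_norm.mp hu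
        have hs0 : 0 < s := by linarith
        have hs0' : (s : ℂ) ≠ 0 := by exact_mod_cast hs0.ne'
        have hzn : ‖((s⁻¹ : ℝ) : ℂ) * u‖ = s⁻¹ := by
          rw [norm_mul, hun, mul_one, Complex.norm_real, Real.norm_of_nonneg (by positivity)]
        refine ⟨((s⁻¹ : ℝ) : ℂ) * u, ?_, ?_⟩
        · rw [mem_closedBall_zero_iff, hzn]
          exact inv_le_one_of_one_le₀ hs1
        · show q + (‖((s⁻¹ : ℝ) : ℂ) * u‖ : ℂ) *
            (β (((s⁻¹ : ℝ) : ℂ) * u / (‖((s⁻¹ : ℝ) : ℂ) * u‖ : ℂ)) - q) = p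
          have hsi : ((s⁻¹ : ℝ) : ℂ) ≠ 0 := by
            rw [Complex.ofReal_inv]
            exact inv_ne_zero hs0'
          rw [hzn, mul_div_cancel_left₀ _ hsi, hus, Complex.ofReal_inv]
          field_simp
          ring

end Pool.Agent.CT
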