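import Pool.Agent.CT.HDefs

set_option autoImplicit false

/-! # H28: one tile, equivariant under its stabiliser -/

namespace Pool.Agent.CT

open Set Metric Filter Topology

section aux

variable {K : DiscTiling}

/-- An isometry of the plane commutes with real affine combinations of two points. -/
theorem h28_iso_lerp (f : ℂ ≃ᵢ ℂ) (q x : ℂ) (r : ℝ) :
    f (q + (r : ℂ) * (x - q)) = f q + (r : ℂ) * (f x - f q) := by
  have hlin : (f : ℂ → ℂ) = f.toRealAffineIsometryEquiv := by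
    rw [IsometryEquiv.coeFn_toRealAffineIsometryEquiv]
  have h1 : q + (r : ℂ) * (x - q) = AffineMap.lineMap (k := ℝ) q x r := by
    rw [AffineMap.lineMap_apply]
    simp [vsub_eq_sub, vadd_eq_add, add_comm]
  have h2 : f q + (r : ℂ) * (f x - f q) = AffineMap.lineMap (k := ℝ) (f q) (f x) r := by
    rw [AffineMap.lineMap_apply]
    simp [vsub_eq_sub, vadd_eq_add, add_comm]
  rw [h1, h2]
  have h3 := (f.toRealAffineIsometryEquiv.toAffineEquiv.toAffineMap).apply_lineMap q x r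
  have h4 : ∀ z, (f.toRealAffineIsometryEquiv.toAffineEquiv.toAffineMap) z = f z := fun z => by
    have := congrFun hlin z
    rw [this]
    rfl
  simpa only [h4] using h3

/-- Images of convex hulls under isometries. -/
theorem h28_iso_hull (f : ℂ ≃ᵢ ℂ) (A : Set ℂ) :
    f '' convexHull ℝ A = convexHull ℝ (f '' A) := by
  have h4 : ∀ z, (f.toRealAffineIsometryEquiv.toAffineEquiv.toAffineMap) z = f z := fun z => by
    have hlin : (f : ℂ → ℂ) = f.toRealAffineIsometryEquiv := by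
      rw [IsometryEquiv.coeFn_toRealAffineIsometryEquiv]
    have := congrFun hlin z
    rw [this]
    rfl
  have h := AffineMap.image_convexHull (f.toRealAffineIsometryEquiv.toAffineEquiv.toAffineMap) A
  have h5 : ((f.toRealAffineIsometryEquiv.toAffineEquiv.toAffineMap : ℂ →ᵃ[ℝ] ℂ) : ℂ → ℂ) = f :=
    funext h4
  rw [h5] at h
  exact h

/-- Isometries commute with averages. -/
theorem h28_iso_avg {ι : Type} (f : ℂ ≃ᵢ ℂ) (s : Finset ι) (hs : s.Nonempty) (x : ι → ℂ) :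
    f ((s.card : ℝ)⁻¹ • ∑ i ∈ s, x i) = (s.card : ℝ)⁻¹ • ∑ i ∈ s, f (x i) := by
  have hlin : ∀ z, f z = f.toRealAffineIsometryEquiv.linearIsometryEquiv z + f 0 := by
    intro z
    have hc : ∀ z, f z = f.toRealAffineIsometryEquiv z := fun z => by
      rw [IsometryEquiv.coeFn_toRealAffineIsometryEquiv]
    have := f.toRealAffineIsometryEquiv.map_vadd 0 z
    rw [hc, hc]
    simpa [vadd_eq_add] using this
  have hcard : (s.card : ℝ) ≠ 0 := by
    exact_mod_cast hs.card_pos.ne'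
  rw [hlin]
  have : ∀ i ∈ s, f (x i) = f.toRealAffineIsometryEquiv.linearIsometryEquiv (x i) + f 0 :=
    fun i _ => hlin _
  rw [Finset.sum_congr rfl this, Finset.sum_add_distrib, Finset.sum_const, smul_add,
    ← Nat.cast_smul_eq_nsmul ℝ, smul_smul, inv_mul_cancel₀ hcard, one_smul, map_smul, map_sum]

end aux

/-! ### The boundary map -/

section bdry

variable {K : DiscTiling} (c : HCtx K) (b : ℂ → ℂ)

theorem h28_edge_closed (c : HCtx K) (e : K.E) : IsClosed e.1 := by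
  obtain ⟨γ, -, hr, -⟩ := c.topo.arc e
  rw [← hr]
  exact (isCompact_range γ.continuous).isClosed

theorem h28_edges_fin (c : HCtx K) (t : K.F) : {e : K.E | e.1 ⊆ t.1}.Finite := by
  have h := c.M.face_fin t
  have h2 : {e : K.E | e.1 ⊆ t.1} = {e | c.M.ef e t} := by
    ext e
    exact (c.isMap.ef e t).symm
  rw [h2]
  exact h

variable {b}

theorem h28_cont (hb : c.IsSkel b) (t : K.F) : ContinuousOn b (frontier t.1) := by
  rw [c.topo.bd t]
  have hfin := h28_edges_fin c t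
  have : (⋃ e ∈ {e : K.E | e.1 ⊆ t.1}, e.1) = ⋃ e : {e : K.E | e.1 ⊆ t.1}, (e : K.E).1 := by
    rw [biUnion_eq_iUnion]
  rw [this]
  have : Finite {e : K.E | e.1 ⊆ t.1} := hfin
  exact (locallyFinite_of_finite _).continuousOn_iUnion (fun e => h28_edge_closed c e)
    (fun e => (hb.edge e).cont)

theorem h28_inj (hb : c.IsSkel b) (t : K.F) : InjOn b (frontier t.1) := by
  rw [c.topo.bd t]
  intro z hz w hw hzw
  simp only [mem_iUnion, mem_ofPred_eq, exists_prop] at hz hw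
  obtain ⟨e, he, hze⟩ := hz
  obtain ⟨d, hd, hwd⟩ := hw
  by_cases hed : e = d
  · subst hed
    exact (hb.edge e).inj hze hwd hzw
  · have h1 : b z ∈ seg c.M.toInc c.φ e := (hb.edge e).img ▸ mem_image_of_mem _ hze
    have h2 : b z ∈ seg c.M.toInc c.φ d := by
      rw [hzw]
      exact (hb.edge d).img ▸ mem_image_of_mem _ hwd
    obtain ⟨v, ⟨hv1, hv2⟩, hv⟩ := c.dr.seg_inter t e d ((c.isMap.ef e t).2 he)
      ((c.isMap.ef d t).2 hd) hed ⟨h1, h2⟩
    have hv1' := (c.isMap.ve v e).1 hv1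
    have hv2' := (c.isMap.ve v d).1 hv2
    have e1 : v.1 = z := (hb.edge e).inj hv1' hze (by rw [(hb.edge e).vert v hv1', hv])
    have e2 : v.1 = w := (hb.edge d).inj hv2' hwd (by rw [(hb.edge d).vert v hv2', hv, hzw])
    rw [← e1, ← e2]

theorem h28_img (hb : c.IsSkel b) (t : K.F) :
    b '' frontier t.1 = frontier (poly c.M.toInc c.φ t) := by
  rw [c.topo.bd t, c.dr.bdry t, image_iUnion₂]
  have h2 : {e : K.E | e.1 ⊆ t.1} = {e | c.M.ef e t} := by
    ext e
    exact (c.isMap.ef e t).symm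
  rw [h2]
  refine iUnion₂_congr fun e _ => (hb.edge e).img

/-- The isometry of a symmetry fixing the tile preserves its polygon. -/
theorem h28_poly_sub (t : K.F) (s : symGroup K.T) (hs : s • t = t) :
    c.ρ s '' poly c.M.toInc c.φ t ⊆ poly c.M.toInc c.φ t := by
  unfold poly
  rw [h28_iso_hull]
  apply convexHull_mono
  rintro _ ⟨_, ⟨v, hv, rfl⟩, rfl⟩
  refine ⟨s • v, ?_, c.eq s v⟩
  obtain ⟨e, he1, he2⟩ := hv
  have he1' := (c.isMap.ve v e).1 he1
  have he2' := (c.isMap.ef e t).1 he2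
  refine ⟨s • e, (c.isMap.ve _ _).2 ?_, (c.isMap.ef _ _).2 ?_⟩
  · rw [smul_V_coe, smul_E_coe]
    exact mem_image_of_mem _ he1'
  · have h3 : (s • t).1 = t.1 := by rw [hs]
    rw [smul_E_coe, ← h3, smul_F_coe]
    exact image_mono he2'

theorem h28_poly_eq (t : K.F) (s : symGroup K.T) (hs : s • t = t) :
    c.ρ s '' poly c.M.toInc c.φ t = poly c.M.toInc c.φ t := by
  refine (h28_poly_sub c t s hs).antisymm ?_
  have hs' : s⁻¹ • t = t := by
    conv_lhs => rw [← hs]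
    rw [inv_smul_smul]
  have h := h28_poly_sub c t s⁻¹ hs'
  intro z hz
  refine ⟨c.ρ s⁻¹ z, h (mem_image_of_mem _ hz), ?_⟩
  have : c.ρ s (c.ρ s⁻¹ z) = (c.ρ s * c.ρ s⁻¹) z := rfl
  rw [this, ← map_mul, mul_inv_cancel, map_one]
  rfl

end bdry

/-- The stabiliser of a tile, as a subgroup of the isometry group. -/
def h28Stab (K : DiscTiling) (t : K.F) : Subgroup (ℂ ≃ᵢ ℂ) where
  carrier := {s | s ∈ symGroup K.T ∧ s '' t.1 = t.1}
  mul_mem' := by
    rintro a b ⟨ha, ha'⟩ ⟨hb, hb'⟩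
    refine ⟨mul_mem ha hb, ?_⟩
    have : (fun x => (a * b) x) = (fun x => a (b x)) := rfl
    show (fun x => (a * b) x) '' t.1 = t.1
    rw [this, ← image_image a b, hb', ha']
  one_mem' := by
    refine ⟨one_mem _, ?_⟩
    have : ((1 : ℂ ≃ᵢ ℂ) : ℂ → ℂ) = id := rfl
    rw [this, image_id]
  inv_mem' := by
    rintro a ⟨ha, ha'⟩
    refine ⟨inv_mem ha, ?_⟩
    conv_lhs => rw [← ha']
    rw [image_image]
    have : (fun x => (a⁻¹ : ℂ ≃ᵢ ℂ) (a x)) = id := by
      funext x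
      exact a.symm_apply_apply x
    rw [this, image_id]

theorem h28_mem_stab (K : DiscTiling) (t : K.F) (s : symGroup K.T) (hs : s • t = t) :
    s.1 ∈ h28Stab K t := by
  refine ⟨s.2, ?_⟩
  rw [← smul_F_coe, hs]

theorem h28_smul_of_mem (K : DiscTiling) (t : K.F) (s : ℂ ≃ᵢ ℂ) (hs : s ∈ h28Stab K t) :
    (⟨s, hs.1⟩ : symGroup K.T) • t = t := by
  apply Subtype.ext
  rw [smul_F_coe]
  exact hs.2

/-- A fixed point of the stabiliser in the interior of the polygon. -/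
theorem h28_centre {K : DiscTiling} (c : HCtx K) (t : K.F)
    (hfin : ((h28Stab K t : Subgroup (ℂ ≃ᵢ ℂ)) : Set (ℂ ≃ᵢ ℂ)).Finite) :
    ∃ q ∈ interior (poly c.M.toInc c.φ t), ∀ s : symGroup K.T, s • t = t → c.ρ s q = q := by
  classical
  obtain ⟨q0, hq0⟩ := c.dr.int t
  -- the stabiliser as a finite subgroup of the symmetry group
  set S : Set (symGroup K.T) := {s | s • t = t} with hS
  have hSfin : S.Finite := by
    refine Set.Finite.of_finite_image (f := fun s : symGroup K.T => s.1) (hfin.subset ?_)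
      (Subtype.val_injective.injOn)
    rintro _ ⟨s, hs, rfl⟩
    exact h28_mem_stab K t s hs
  set F : Finset (symGroup K.T) := hSfin.toFinset with hF
  have hmem : ∀ s, s ∈ F ↔ s • t = t := fun s => by rw [hF, Set.Finite.mem_toFinset]; rfl
  have hne : F.Nonempty := ⟨1, (hmem 1).2 (one_smul _ _)⟩
  have hcard : (F.card : ℝ) ≠ 0 := by exact_mod_cast hne.card_pos.ne'
  refine ⟨(F.card : ℝ)⁻¹ • ∑ s ∈ F, c.ρ s q0, ?_, ?_⟩
  · rw [Finset.smul_sum]
    refine Convex.sum_mem (Convex.interior (convex_convexHull ℝ _)) (fun _ _ => by positivity) ?_ ?_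
    · rw [Finset.sum_const, nsmul_eq_mul, mul_inv_cancel₀ hcard]
    · intro s hs
      have h1 := h28_poly_eq c t s ((hmem s).1 hs)
      have h2 : c.ρ s '' interior (poly c.M.toInc c.φ t) = interior (poly c.M.toInc c.φ t) := by
        have := (c.ρ s).toHomeomorph.image_interior (poly c.M.toInc c.φ t)
        rw [IsometryEquiv.coe_toHomeomorph, h1] at this
        exact this
      rw [← h2]
      exact mem_image_of_mem _ hq0
  · intro r hr
    rw [h28_iso_avg _ _ hne]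
    congr 1
    have h3 : ∀ s ∈ F, c.ρ r (c.ρ s q0) = c.ρ (r * s) q0 := fun s _ => by
      rw [map_mul]; rfl
    rw [Finset.sum_congr rfl h3]
    refine Finset.sum_bij' (fun s _ => r * s) (fun s _ => r⁻¹ * s) ?_ ?_ ?_ ?_ ?_
    · intro s hs
      rw [hmem] at hs ⊢
      rw [mul_smul, hs, hr]
    · intro s hs
      rw [hmem] at hs ⊢
      rw [mul_smul, hs]
      conv_lhs => rw [← hr]
      rw [inv_smul_smul]
    · intro s _
      simp
    · intro s _
      simp
    · intro s _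
      rfl

theorem h28 (hE : Stmt_EquivDisc) (hFin : Stmt_FinStab) (hR : Stmt_Radial) : Stmt_TileOne := by
  classical
  intro K c b hb t
  have hStab := (hFin K c.M c.isMap c.topo).1 t
  have hfin : ((h28Stab K t : Subgroup (ℂ ≃ᵢ ℂ)) : Set (ℂ ≃ᵢ ℂ)).Finite := hStab
  obtain ⟨ψ0⟩ := K.n1 t.1 t.2
  obtain ⟨ψ, hψ⟩ := hE t.1 ψ0.symm (h28Stab K t) hfin (fun s hs => hs.2)
  obtain ⟨q, hq, hqfix⟩ := h28_centre c t hfin
  set P := poly c.M.toInc c.φ t with hP
  have htcl : IsClosed t.1 := K.tiling.closed t.1 t.2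
  have hfr : ∀ z : closedBall (0 : ℂ) 1, ((ψ z : t.1) : ℂ) ∈ frontier t.1 ↔ ‖(z : ℂ)‖ = 1 :=
    fun z => c.topo.front t.1 t.2 ψ z
  -- the boundary parametrisation
  let β : ℂ → ℂ := fun z => if h : z ∈ closedBall (0 : ℂ) 1 then b (ψ ⟨z, h⟩ : t.1) else 0
  have hβ : ∀ z (h : z ∈ closedBall (0 : ℂ) 1), β z = b (ψ ⟨z, h⟩ : t.1) := fun z h => dif_pos h
  have hsc : sphere (0 : ℂ) 1 ⊆ closedBall 0 1 := sphere_subset_closedBall
  have hβfr : ∀ z (h : z ∈ sphere (0 : ℂ) 1), ((ψ ⟨z, hsc h⟩ : t.1) : ℂ) ∈ frontier t.1 := by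
    intro z h
    rw [hfr]
    simpa using h
  have hβcont : ContinuousOn β (sphere 0 1) := by
    rw [continuousOn_iff_continuous_domRestrict]
    have h1 : (sphere (0 : ℂ) 1).domRestrict β
        = (frontier t.1).domRestrict b ∘ (fun z : sphere (0 : ℂ) 1 =>
          (⟨((ψ ⟨z, hsc z.2⟩ : t.1) : ℂ), hβfr z z.2⟩ : frontier t.1)) := by
      funext z
      simp only [Function.comp]
      exact hβ z (hsc z.2)
    rw [h1]
    refine (continuousOn_iff_continuous_domRestrict.1 (h28_cont c hb t)).comp ?_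
    refine Continuous.subtype_mk ?_ _
    refine continuous_subtype_val.comp (ψ.continuous.comp ?_)
    exact Continuous.subtype_mk continuous_subtype_val _
  have hβinj : InjOn β (sphere 0 1) := by
    intro z hz w hw hzw
    rw [hβ z (hsc hz), hβ w (hsc hw)] at hzw
    have h1 := h28_inj c hb t (hβfr z hz) (hβfr w hw) hzw
    have h2 := ψ.injective (Subtype.val_injective h1)
    exact congrArg Subtype.val h2
  have hβimg : β '' sphere 0 1 = frontier P := by
    rw [hP, ← h28_img c hb t]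
    ext y
    constructor
    · rintro ⟨z, hz, rfl⟩
      exact ⟨_, hβfr z hz, (hβ z (hsc hz)).symm⟩
    · rintro ⟨x, hx, rfl⟩
      have hxt : x ∈ t.1 := htcl.frontier_subset hx
      have h1 : ‖((ψ.symm ⟨x, hxt⟩ : closedBall (0 : ℂ) 1) : ℂ)‖ = 1 := by
        rw [← hfr, ψ.apply_symm_apply]
        exact hx
      refine ⟨(ψ.symm ⟨x, hxt⟩ : closedBall (0 : ℂ) 1), by simpa using h1, ?_⟩
      rw [hβ _ (ψ.symm ⟨x, hxt⟩).2]
      simp
  have hPc : IsCompact P := by
    have hfv : (c.φ '' {v | c.M.vf v t}).Finite := by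
      refine Set.Finite.image _ ?_
      have : {v | c.M.vf v t} ⊆ ⋃ e ∈ {e | c.M.ef e t}, {v | c.M.ve v e} := by
        rintro v ⟨e, h1, h2⟩
        simp only [mem_iUnion, mem_ofPred_eq, exists_prop]
        exact ⟨e, h2, h1⟩
      refine (Set.Finite.biUnion (c.M.face_fin t) fun e _ => ?_).subset this
      obtain ⟨u, v, -, h⟩ := c.M.edge_verts e
      refine (Set.toFinite {u, v}).subset ?_
      intro w hw
      exact (h w).1 hw
    exact hfv.isCompact_convexHull (𝕜 := ℝ)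
  obtain ⟨hΦc, hΦi, hΦim⟩ := hR P (convex_convexHull ℝ _) hPc q hq β hβcont hβinj hβimg
  set Φ : ℂ → ℂ := fun z : ℂ => q + (‖z‖ : ℂ) * (β (z / (‖z‖ : ℂ)) - q) with hΦ
  let H : ℂ → ℂ := fun z => if h : z ∈ t.1 then Φ (ψ.symm ⟨z, h⟩ : closedBall (0 : ℂ) 1) else 0
  have hH : ∀ z (h : z ∈ t.1), H z = Φ (ψ.symm ⟨z, h⟩ : closedBall (0 : ℂ) 1) := fun z h => dif_pos h
  refine ⟨H, ⟨?_, ?_, ?_, ?_⟩, ?_⟩
  · rw [continuousOn_iff_continuous_domRestrict]
    have h1 : t.1.domRestrict H = (closedBall (0 : ℂ) 1).domRestrict Φ ∘ ψ.symm := by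
      funext z
      simp only [Function.comp]
      exact hH z z.2
    rw [h1]
    exact (continuousOn_iff_continuous_domRestrict.1 hΦc).comp ψ.symm.continuous
  · intro z hz w hw hzw
    rw [hH z hz, hH w hw] at hzw
    have h1 := hΦi (ψ.symm ⟨z, hz⟩).2 (ψ.symm ⟨w, hw⟩).2 hzw
    have h2 := ψ.symm.injective (Subtype.val_injective h1)
    exact congrArg Subtype.val h2
  · rw [← hP, ← hΦim]
    ext y
    constructor
    · rintro ⟨z, hz, rfl⟩
      exact ⟨_, (ψ.symm ⟨z, hz⟩).2, (hH z hz).symm⟩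
    · rintro ⟨w, hw, rfl⟩
      refine ⟨(ψ ⟨w, hw⟩ : t.1), (ψ ⟨w, hw⟩).2, ?_⟩
      rw [hH _ (ψ ⟨w, hw⟩).2]
      simp
  · intro z hz
    have hzt : z ∈ t.1 := htcl.frontier_subset hz
    have h1 : ‖((ψ.symm ⟨z, hzt⟩ : closedBall (0 : ℂ) 1) : ℂ)‖ = 1 := by
      rw [← hfr, ψ.apply_symm_apply]
      exact hz
    rw [hH z hzt]
    simp only [hΦ]
    rw [h1]
    simp only [Complex.ofReal_one, div_one, one_mul]
    rw [hβ _ (ψ.symm ⟨z, hzt⟩).2]
    simp
  · intro s hs z hz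
    have hsS : s.1 ∈ h28Stab K t := h28_mem_stab K t s hs
    obtain ⟨L, hL⟩ := hψ s.1 hsS
    have hsz : s.1 z ∈ t.1 := by
      have := hsS.2
      rw [← this]
      exact mem_image_of_mem _ hz
    set w := ψ.symm ⟨z, hz⟩ with hw
    have hwz : ((ψ w : t.1) : ℂ) = z := by rw [hw, ψ.apply_symm_apply]
    have hLn : ∀ x : ℂ, ‖L x‖ = ‖x‖ := L.norm_map
    have hLw : L w ∈ closedBall (0 : ℂ) 1 := by
      have := w.2
      rw [mem_closedBall_zero_iff] at this ⊢
      rw [hLn]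
      exact this
    have h1 : ψ ⟨L w, hLw⟩ = ⟨s.1 z, hsz⟩ := by
      apply Subtype.ext
      show ((ψ ⟨L w, hLw⟩ : t.1) : ℂ) = s.1 z
      rw [hL w ⟨L w, hLw⟩ rfl, hwz]
    have h2 : ψ.symm ⟨s.1 z, hsz⟩ = ⟨L w, hLw⟩ := by
      rw [← h1, ψ.symm_apply_apply]
    rw [hH _ hsz, hH z hz, h2, ← hw]
    show q + (‖L w‖ : ℂ) * (β (L w / (‖L w‖ : ℂ)) - q)
      = c.ρ s (q + (‖(w : ℂ)‖ : ℂ) * (β (w / (‖(w : ℂ)‖ : ℂ)) - q))
    rw [h28_iso_lerp, hqfix s hs, hLn]
    by_cases hw0 : (w : ℂ) = 0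
    · rw [hw0]
      simp
    · congr 2
      congr 1
      have hn : (‖(w : ℂ)‖ : ℝ) ≠ 0 := by simpa using hw0
      -- the point on the circle
      have hu : (w : ℂ) / (‖(w : ℂ)‖ : ℂ) ∈ sphere (0 : ℂ) 1 := by
        rw [mem_sphere_zero_iff_norm, norm_div, Complex.norm_real, norm_norm, div_self hn]
      have hLu : L w / (‖(w : ℂ)‖ : ℂ) = L ((w : ℂ) / (‖(w : ℂ)‖ : ℂ)) := by
        have e1 : (w : ℂ) / (‖(w : ℂ)‖ : ℂ) = (‖(w : ℂ)‖ : ℝ)⁻¹ • (w : ℂ) := by
          rw [Complex.real_smul, Complex.ofReal_inv, div_eq_inv_mul]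
        rw [e1, map_smul, Complex.real_smul, Complex.ofReal_inv, div_eq_inv_mul]
      have hLu' : L ((w : ℂ) / (‖(w : ℂ)‖ : ℂ)) ∈ sphere (0 : ℂ) 1 := by
        rw [mem_sphere_zero_iff_norm, hLn]
        simpa using hu
      rw [hLu, hβ _ (hsc hLu'), hβ _ (hsc hu)]
      rw [hL ⟨_, hsc hu⟩ ⟨_, hsc hLu'⟩ rfl]
      have hmem : ((ψ ⟨(w : ℂ) / (‖(w : ℂ)‖ : ℂ), hsc hu⟩ : t.1) : ℂ) ∈ frontier t.1 := hβfr _ hu
      rw [c.topo.bd t] at hmem
      simp only [mem_iUnion, mem_ofPred_eq, exists_prop] at hmem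
      obtain ⟨e, -, he⟩ := hmem
      exact hb.equiv s e _ he

end Pool.Agent.CT
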