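import Pool.Agent.CT.HDefs

set_option autoImplicit false

/-! # H29: gluing the tile maps to a homeomorphism of the plane -/

namespace Pool.Agent.CT

open Set Metric Filter Topology

/-- A point common to two different tiles lies in the frontier of each. -/
theorem h29_frontier {K : DiscTiling} (topo : TopoFacts K) {t t' : K.F} (hne : t ≠ t') {z : ℂ}
    (hz : z ∈ t.1) (hz' : z ∈ t'.1) : z ∈ frontier t.1 := by
  have hcl : IsClosed t.1 := K.tiling.closed t.1 t.2
  have hcl' : IsClosed t'.1 := K.tiling.closed t'.1 t'.2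
  rw [hcl.frontier_eq]
  refine ⟨hz, fun hint => ?_⟩
  have hd : Disjoint (interior t.1) (interior t'.1) :=
    K.tiling.disj t.1 t.2 t'.1 t'.2 (fun h => hne (Subtype.ext h))
  obtain ⟨ψ'⟩ := K.n1 t'.1 t'.2
  set ψ : closedBall (0 : ℂ) 1 ≃ₜ t'.1 := ψ'.symm with hψ
  -- the point as an image
  set x : closedBall (0 : ℂ) 1 := ψ.symm ⟨z, hz'⟩ with hx
  have hxz : ((ψ x : t'.1) : ℂ) = z := by rw [hx, Homeomorph.apply_symm_apply]
  -- the open set of parameters
  have hopen : IsOpen {y : closedBall (0 : ℂ) 1 | ((ψ y : t'.1) : ℂ) ∈ interior t.1} :=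
    isOpen_interior.preimage (continuous_subtype_val.comp ψ.continuous)
  rw [Metric.isOpen_iff] at hopen
  obtain ⟨ε, hε, hball⟩ := hopen x (by
    show ((ψ x : t'.1) : ℂ) ∈ interior t.1
    rw [hxz]
    exact hint)
  have hxn : ‖(x : ℂ)‖ ≤ 1 := mem_closedBall_zero_iff.mp x.2
  -- a point of the open disc near `x`
  set δ : ℝ := min (ε / 2) 1 with hδ
  have hδ0 : 0 < δ := by positivity
  have hδ1 : δ ≤ 1 := min_le_right _ _
  have hyn : ‖((1 - δ : ℝ) : ℂ) * (x : ℂ)‖ < 1 := by
    rw [norm_mul, Complex.norm_real, Real.norm_eq_abs, abs_of_nonneg (by linarith)]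
    nlinarith [norm_nonneg (x : ℂ)]
  let y : closedBall (0 : ℂ) 1 := ⟨((1 - δ : ℝ) : ℂ) * (x : ℂ), mem_closedBall_zero_iff.mpr hyn.le⟩
  have hyx : dist y x < ε := by
    rw [Subtype.dist_eq, dist_eq_norm]
    have e : ((y : ℂ) - (x : ℂ)) = ((-δ : ℝ) : ℂ) * (x : ℂ) := by
      show ((1 - δ : ℝ) : ℂ) * (x : ℂ) - (x : ℂ) = _
      push_cast
      ring
    rw [e, norm_mul, Complex.norm_real, Real.norm_eq_abs, abs_neg, abs_of_pos hδ0]
    have : δ ≤ ε / 2 := min_le_left _ _
    nlinarith [norm_nonneg (x : ℂ)]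
  have h1 : ((ψ y : t'.1) : ℂ) ∈ interior t.1 := hball (mem_ball.mpr hyx)
  have h2 : ((ψ y : t'.1) : ℂ) ∉ frontier t'.1 := by
    rw [topo.front t'.1 t'.2 ψ y]
    exact ne_of_lt hyn
  have h3 : ((ψ y : t'.1) : ℂ) ∈ interior t'.1 := by
    rw [hcl'.frontier_eq] at h2
    by_contra h
    exact h2 ⟨(ψ y).2, h⟩
  exact Set.disjoint_left.mp hd h1 h3

/-- **H29.** -/
theorem h29 : Stmt_GlueH := by
  classical
  intro K c b hb H hH hHs
  have hcl : ∀ t : K.F, IsClosed t.1 := fun t => K.tiling.closed t.1 t.2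
  have hcov : ∀ z : ℂ, ∃ t : K.F, z ∈ t.1 := by
    intro z
    have : z ∈ ⋃₀ K.T := by rw [K.tiling.cover]; exact mem_univ z
    obtain ⟨t, ht, hz⟩ := this
    exact ⟨⟨t, ht⟩, hz⟩
  choose τ hτ using hcov
  -- the map
  let h₀ : ℂ → ℂ := fun z => H (τ z) z
  have hval : ∀ (t : K.F) (z : ℂ), z ∈ t.1 → h₀ z = H t z := by
    intro t z hz
    by_cases ht : τ z = t
    · show H (τ z) z = H t z
      rw [ht]
    · show H (τ z) z = H t z
      rw [(hH (τ z)).bd z (h29_frontier c.topo ht (hτ z) hz),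
        (hH t).bd z (h29_frontier c.topo (Ne.symm ht) hz (hτ z))]
  -- local finiteness
  have hlf : LocallyFinite (fun t : K.F => t.1) := by
    intro x
    refine ⟨closedBall 0 (‖x‖ + 1), ?_, ?_⟩
    · exact mem_of_superset (ball_mem_nhds x one_pos) (fun y hy => by
        rw [mem_closedBall_zero_iff]
        have h1 : ‖y - x‖ < 1 := by rwa [mem_ball, dist_eq_norm] at hy
        have h2 : ‖y‖ ≤ ‖y - x‖ + ‖x‖ := by
          have := norm_add_le (y - x) x
          rwa [sub_add_cancel] at this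
        linarith)
    · have h1 := c.topo.locfin (‖x‖ + 1)
      refine Set.Finite.of_finite_image (h1.subset ?_) (f := fun t : K.F => t.1)
        Subtype.val_injective.injOn
      rintro _ ⟨t, ht, rfl⟩
      exact ⟨t.2, ht⟩
  have hlf' : LocallyFinite (fun t : K.F => poly c.M.toInc c.φ t) := by
    intro x
    refine ⟨closedBall 0 (‖x‖ + 1), ?_, c.dr.locfin (‖x‖ + 1)⟩
    exact mem_of_superset (ball_mem_nhds x one_pos) (fun y hy => by
      rw [mem_closedBall_zero_iff]
      have h1 : ‖y - x‖ < 1 := by rwa [mem_ball, dist_eq_norm] at hy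
      have h2 : ‖y‖ ≤ ‖y - x‖ + ‖x‖ := by
        have := norm_add_le (y - x) x
        rwa [sub_add_cancel] at this
      linarith)
  have hcont_on : ∀ t : K.F, ContinuousOn h₀ t.1 := fun t =>
    (hH t).cont.congr fun z hz => hval t z hz
  have hcont : Continuous h₀ := by
    refine hlf.continuous ?_ hcl hcont_on
    rw [eq_univ_iff_forall]
    intro z
    exact mem_iUnion.mpr ⟨τ z, hτ z⟩
  have himg : ∀ t : K.F, h₀ '' t.1 = poly c.M.toInc c.φ t := by
    intro t
    rw [← (hH t).img]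
    exact image_congr fun z hz => hval t z hz
  -- surjective
  have hsurj : Function.Surjective h₀ := by
    intro w
    obtain ⟨t, ht⟩ := c.dr.cover w
    rw [← himg t] at ht
    obtain ⟨z, -, hz⟩ := ht
    exact ⟨z, hz⟩
  -- edges in tiles
  have hef : ∀ (e : K.E) (t : K.F), c.M.ef e t → e.1 ⊆ t.1 := fun e t h => (c.isMap.ef e t).mp h
  have hfr : ∀ (e : K.E) (t : K.F), c.M.ef e t → e.1 ⊆ frontier t.1 := by
    intro e t h z hz
    rw [c.topo.bd t]
    exact mem_biUnion (show e ∈ {e : K.E | e.1 ⊆ t.1} from hef e t h) hz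
  have hkey : ∀ (t : K.F) (e : K.E), c.M.ef e t → ∀ x ∈ e.1, ∀ z ∈ t.1, h₀ z = b x → z = x := by
    intro t e he x hx z hz hzx
    have h1 : H t x = b x := (hH t).bd x (hfr e t he hx)
    exact (hH t).inj hz (hef e t he hx) (by rw [h1, ← hzx, hval t z hz])
  -- injective
  have hinj : Function.Injective h₀ := by
    intro z w hzw
    by_cases ht : τ z = τ w
    · have h1 := hval (τ z) z (hτ z)
      have h2 := hval (τ w) w (hτ w)
      rw [ht] at h1
      have hz : z ∈ (τ w).1 := ht ▸ hτ z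
      exact (hH (τ w)).inj hz (hτ w) (by rw [← h1, ← h2, hzw])
    · have h1 : h₀ z ∈ poly c.M.toInc c.φ (τ z) := himg (τ z) ▸ mem_image_of_mem _ (hτ z)
      have h2 : h₀ z ∈ poly c.M.toInc c.φ (τ w) := by
        rw [hzw]
        exact himg (τ w) ▸ mem_image_of_mem _ (hτ w)
      rcases c.dr.inter (τ z) (τ w) ht ⟨h1, h2⟩ with h3 | h3
      · rw [mem_iUnion₂] at h3
        obtain ⟨e, ⟨he1, he2⟩, h4⟩ := h3
        rw [← (hb.edge e).img] at h4
        obtain ⟨x, hx, hxz⟩ := h4
        have e1 := hkey (τ z) e he1 x hx z (hτ z) hxz.symm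
        have e2 := hkey (τ w) e he2 x hx w (hτ w) (by rw [← hzw]; exact hxz.symm)
        rw [e1, e2]
      · obtain ⟨v, ⟨⟨e, he, he1⟩, ⟨d, hd, hd1⟩⟩, hv⟩ := h3
        have hve : v.1 ∈ e.1 := (c.isMap.ve v e).mp he
        have hvd : v.1 ∈ d.1 := (c.isMap.ve v d).mp hd
        have e1 := hkey (τ z) e he1 v.1 hve z (hτ z) (by rw [(hb.edge e).vert v hve]; exact hv.symm)
        have e2 := hkey (τ w) d hd1 v.1 hvd w (hτ w)
          (by rw [(hb.edge d).vert v hvd, ← hzw]; exact hv.symm)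
        rw [e1, e2]
  -- closed
  have hcompact : ∀ t : K.F, IsCompact t.1 := by
    intro t
    obtain ⟨ψ⟩ := K.n1 t.1 t.2
    have : CompactSpace (closedBall (0 : ℂ) 1) := isCompact_iff_compactSpace.mp
      (isCompact_closedBall 0 1)
    have h1 : CompactSpace t.1 := ψ.symm.compactSpace
    exact isCompact_iff_compactSpace.mpr h1
  have hclosed : IsClosedMap h₀ := by
    intro C hC
    have h1 : h₀ '' C = ⋃ t : K.F, h₀ '' (C ∩ t.1) := by
      rw [← image_iUnion, ← inter_iUnion]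
      congr 1
      have : (⋃ t : K.F, t.1) = univ := by
        rw [eq_univ_iff_forall]
        intro z
        exact mem_iUnion.mpr ⟨τ z, hτ z⟩
      rw [this, inter_univ]
    rw [h1]
    refine LocallyFinite.isClosed_iUnion ?_ ?_
    · refine hlf'.subset fun t => ?_
      rw [← himg t]
      exact image_mono inter_subset_right
    · intro t
      have h2 : IsCompact (C ∩ t.1) := (hcompact t).inter_left hC
      exact (h2.image_of_continuousOn ((hcont_on t).mono inter_subset_right)).isClosed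
  let e : ℂ ≃ ℂ := Equiv.ofBijective h₀ ⟨hinj, hsurj⟩
  let h : ℂ ≃ₜ ℂ := e.toHomeomorphOfContinuousClosed hcont hclosed
  have hh : ∀ z, h z = h₀ z := fun z => rfl
  refine ⟨h, fun t => ?_, fun s z => ?_⟩
  · rw [← himg t]
    rfl
  · rw [hh, hh, hval (τ z) z (hτ z)]
    have h1 : s.1 z ∈ (s • τ z).1 := by
      rw [smul_F_coe]
      exact mem_image_of_mem _ (hτ z)
    rw [hval (s • τ z) (s.1 z) h1]
    exact hHs s (τ z) z (hτ z)

end Pool.Agent.CT
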