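import Pool.Agent.CT.HDefs

set_option autoImplicit false

/-! # H3: the interior of a closed topological disc is simply connected -/

namespace Pool.Agent.CT

open Set Metric Filter Topology

theorem h3 (a : Stmt_DiscTop) : Stmt_DiscSC := by
  intro t ψ
  obtain ⟨hint, -, -, -⟩ := a t ψ
  let S : Set (closedBall (0 : ℂ) 1) := {z | ‖(z : ℂ)‖ < 1}
  have hemb : IsEmbedding (fun z : closedBall (0 : ℂ) 1 => ((ψ z : t) : ℂ)) :=
    IsEmbedding.subtypeVal.comp ψ.isEmbedding
  have himg : (fun z : closedBall (0 : ℂ) 1 => ((ψ z : t) : ℂ)) '' S = interior t := by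
    ext w
    constructor
    · rintro ⟨z, hz, rfl⟩
      exact (hint z).2 hz
    · intro hw
      refine ⟨ψ.symm ⟨w, interior_subset hw⟩, ?_, ?_⟩
      · show ‖((ψ.symm ⟨w, interior_subset hw⟩ : closedBall (0 : ℂ) 1) : ℂ)‖ < 1
        rw [← hint, Homeomorph.apply_symm_apply]
        exact hw
      · simp
  have hval : (Subtype.val : closedBall (0 : ℂ) 1 → ℂ) '' S = ball 0 1 := by
    ext w
    constructor
    · rintro ⟨z, hz, rfl⟩
      rw [mem_ball_zero_iff]
      exact hz
    · intro hw
      rw [mem_ball_zero_iff] at hw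
      exact ⟨⟨w, by rw [mem_closedBall_zero_iff]; exact hw.le⟩, hw, rfl⟩
  have hball : IsSimplyConnected (ball (0 : ℂ) 1) := by
    have h1 : ContractibleSpace (ball (0 : ℂ) 1) :=
      (convex_ball (0 : ℂ) 1).contractibleSpace ⟨0, by simp⟩
    show SimplyConnectedSpace (ball (0 : ℂ) 1)
    infer_instance
  rw [← himg, hemb.isSimplyConnected_image, ← IsEmbedding.subtypeVal.isSimplyConnected_image, hval]
  exact hball

end Pool.Agent.CT
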