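import Pool.Agent.CT.HIso

set_option autoImplicit false

/-! # H30: the homeomorphism (assembly) -/

namespace Pool.Agent.CT

open Set Metric

section

variable {K : DiscTiling}

theorem ve_smul' {M : Inc K.V K.E K.F} (hM : K.IsMap M) (g : symGroup K.T) {v : K.V} {e : K.E}
    (h : M.ve v e) : M.ve (g • v) (g • e) := by
  rw [hM.ve] at h ⊢
  rw [smul_V_coe, smul_E_coe]
  exact mem_image_of_mem _ h

theorem ef_smul' {M : Inc K.V K.E K.F} (hM : K.IsMap M) (g : symGroup K.T) {e : K.E} {f : K.F}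
    (h : M.ef e f) : M.ef (g • e) (g • f) := by
  rw [hM.ef] at h ⊢
  rw [smul_F_coe, smul_E_coe]
  exact image_mono h

theorem vf_smul' {M : Inc K.V K.E K.F} (hM : K.IsMap M) (g : symGroup K.T) {v : K.V} {f : K.F}
    (h : M.vf v f) : M.vf (g • v) (g • f) := by
  obtain ⟨e, h1, h2⟩ := h
  exact ⟨g • e, ve_smul' hM g h1, ef_smul' hM g h2⟩

theorem iso_image_convexHull (s : ℂ ≃ᵢ ℂ) (A : Set ℂ) :
    s '' convexHull ℝ A = convexHull ℝ (s '' A) := by
  have h := (s.toRealAffineIsometryEquiv.toAffineEquiv.toAffineMap).image_convexHull A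
  have h2 : ((s.toRealAffineIsometryEquiv.toAffineEquiv.toAffineMap : ℂ →ᵃ[ℝ] ℂ) : ℂ → ℂ) = s := rfl
  rw [h2] at h
  exact h

theorem poly_smul (c : HCtx K) (g : symGroup K.T) (t : K.F) :
    poly c.M.toInc c.φ (g • t) = c.ρ g '' poly c.M.toInc c.φ t := by
  unfold poly
  rw [iso_image_convexHull]
  congr 1
  ext z
  constructor
  · rintro ⟨v, hv, rfl⟩
    refine ⟨c.φ (g⁻¹ • v), ⟨g⁻¹ • v, ?_, rfl⟩, ?_⟩
    · have := vf_smul' c.isMap g⁻¹ hv
      rwa [inv_smul_smul] at this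
    · rw [← c.eq, smul_inv_smul]
  · rintro ⟨_, ⟨v, hv, rfl⟩, rfl⟩
    exact ⟨g • v, vf_smul' c.isMap g hv, c.eq g v⟩

theorem tileMap_smul (c : HCtx K) {b : ℂ → ℂ} (hb : c.IsSkel b) (g : symGroup K.T) (t : K.F)
    (B B' : ℂ → ℂ) (hB : c.IsTileMap b t B) (h : ∀ z ∈ t.1, B' (g.1 z) = c.ρ g (B z)) :
    c.IsTileMap b (g • t) B' := by
  have hcl : IsClosed t.1 := K.tiling.closed t.1 t.2
  refine ⟨?_, ?_, ?_, ?_⟩
  · rw [smul_F_coe]
    have h1 : ContinuousOn (fun z => c.ρ g (B (g.1.symm z))) (g.1 '' t.1) := by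
      refine (c.ρ g).continuous.comp_continuousOn (hB.cont.comp g.1.symm.continuous.continuousOn ?_)
      rintro _ ⟨z, hz, rfl⟩
      rwa [g.1.symm_apply_apply]
    refine h1.congr ?_
    rintro _ ⟨z, hz, rfl⟩
    rw [h z hz]
    show _ = c.ρ g (B (g.1.symm (g.1 z)))
    rw [g.1.symm_apply_apply]
  · rw [smul_F_coe]
    rintro _ ⟨z, hz, rfl⟩ _ ⟨w, hw, rfl⟩ hzw
    rw [h z hz, h w hw] at hzw
    rw [hB.inj hz hw ((c.ρ g).injective hzw)]
  · rw [smul_F_coe, poly_smul, ← hB.img, image_image, image_image]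
    exact image_congr h
  · intro z hz
    rw [smul_F_coe] at hz
    have h1 : frontier (g.1 '' t.1) = g.1 '' frontier t.1 :=
      (g.1.toHomeomorph.image_frontier t.1).symm
    rw [h1] at hz
    obtain ⟨y, hy, rfl⟩ := hz
    have hyt : y ∈ t.1 := hcl.frontier_subset hy
    rw [h y hyt, hB.bd y hy]
    have h2 := hy
    rw [c.topo.bd t] at h2
    simp only [mem_iUnion, exists_prop] at h2
    obtain ⟨e, -, hye⟩ := h2
    exact (hb.equiv g e y hye).symm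

end

theorem h30 : Stmt_HomeoAsm := by
  intro hRho hTr hSk hTile hGlue K M hM topo φ dr eqv
  obtain ⟨ρ, hρ⟩ := hRho K M hM φ dr eqv
  let c : HCtx K := ⟨M, hM, topo, φ, dr, ρ, hρ⟩
  obtain ⟨b, hb⟩ := hSk K c
  obtain ⟨H, hH1, hH2⟩ := hTr (symGroup K.T) K.F (symGroup K.T).subtype ρ (fun t => t.1)
    (fun g x => rfl) (fun t B => c.IsTileMap b t B)
    (fun g x B B' hB h => tileMap_smul c hb g x B B' hB h)
    (fun t => hTile K c b hb t)
  obtain ⟨h, hh1, hh2⟩ := hGlue K c b hb H hH1 hH2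
  refine ⟨h, ?_, ?_⟩
  · intro t ht
    rw [hh1 ⟨t, ht⟩]
    exact convex_convexHull ℝ _
  · intro s hs
    exact ⟨ρ ⟨s, hs⟩, hh2 ⟨s, hs⟩⟩

end Pool.Agent.CT
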