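import Pool.Agent.CT.HDefs

set_option autoImplicit false

/-! # H8: the Riemann mapping theorem for bounded simply connected open sets -/

namespace Pool.Agent.CT

open Set Metric Filter Topology

theorem h8 (hMontel : Stmt_Montel) (hHurwitz : Stmt_Hurwitz) (hInv : Stmt_HoloInv)
    (hKoebe : Stmt_Koebe) : Stmt_RMT := by
  intro U hU hUc hUb p hp
  have hpre : IsPreconnected U := hUc.isPathConnected.isConnected.isPreconnected
  set X : Set (ℂ → ℂ) := {h | DifferentiableOn ℂ h U ∧ InjOn h U ∧ MapsTo h U (ball 0 1) ∧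
    h p = 0} with hX
  set S : Set ℝ := (fun h : ℂ → ℂ => ‖deriv h p‖) '' X with hS
  -- a member of the family
  obtain ⟨R, hR0, hR⟩ : ∃ R : ℝ, 0 < R ∧ ∀ z ∈ U, ‖z - p‖ < R := by
    obtain ⟨R, hR⟩ := hUb.subset_ball p
    refine ⟨max R 1, lt_of_lt_of_le one_pos (le_max_right _ _), fun z hz => ?_⟩
    have := hR hz
    rw [mem_ball, dist_eq_norm] at this
    exact lt_of_lt_of_le this (le_max_left _ _)
  have hRne : (R : ℂ) ≠ 0 := by
    rw [ne_eq, Complex.ofReal_eq_zero]
    exact hR0.ne'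
  have hder0 : ∀ z, HasDerivAt (fun z : ℂ => (z - p) / (R : ℂ)) (1 / (R : ℂ)) z := fun z =>
    ((hasDerivAt_id z).sub_const p).div_const (R : ℂ)
  have hX0 : (fun z : ℂ => (z - p) / (R : ℂ)) ∈ X := by
    refine ⟨fun z _ => (hder0 z).differentiableAt.differentiableWithinAt, ?_, ?_, ?_⟩
    · intro x _ y _ hxy
      have hxy' : (x - p) / (R : ℂ) = (y - p) / (R : ℂ) := hxy
      rw [div_left_inj' hRne] at hxy'
      exact sub_left_injective hxy'
    · intro z hz
      rw [mem_ball_zero_iff, norm_div, Complex.norm_real, Real.norm_eq_abs, abs_of_pos hR0,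
        div_lt_one hR0]
      exact hR z hz
    · simp
  have hSne : S.Nonempty := ⟨_, mem_image_of_mem _ hX0⟩
  obtain ⟨r, hr, hrU⟩ := Metric.isOpen_iff.1 hU p hp
  have hSb : BddAbove S := by
    refine ⟨1 / r, ?_⟩
    rintro _ ⟨h, ⟨h1, h2, h3, h4⟩, rfl⟩
    refine Complex.norm_deriv_le_div_of_mapsTo_ball (h1.mono hrU) (fun z hz => ?_) hr
    rw [h4]
    exact ball_subset_closedBall (h3 (hrU hz))
  obtain ⟨v, -, hv, hvS⟩ := exists_seq_tendsto_sSup hSne hSb
  choose f hfX hfv using hvS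
  obtain ⟨l, F, hl, hlt, hF⟩ := hMontel U hU f (fun n => (hfX n).1)
    (fun n z hz => ball_subset_closedBall ((hfX n).2.2.1 hz))
  have hFd : DifferentiableOn ℂ F U := hF.differentiableOn
    (Eventually.of_forall fun n => (hfX n).1) hU
  -- the derivative of the limit
  have hderF : ‖deriv F p‖ = sSup S := by
    have h1 : Tendsto (fun n => ‖deriv (f n) p‖) l (𝓝 ‖deriv F p‖) :=
      ((hF.deriv (Eventually.of_forall fun n => (hfX n).1) hU).tendsto_at hp).norm
    have h2 : Tendsto (fun n => ‖deriv (f n) p‖) l (𝓝 (sSup S)) := by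
      have : (fun n => ‖deriv (f n) p‖) = v := funext fun n => hfv n
      rw [this]
      exact hv.mono_left hlt
    exact tendsto_nhds_unique h1 h2
  have hpos : 0 < sSup S := by
    refine lt_of_lt_of_le ?_ (le_csSup hSb (mem_image_of_mem _ hX0))
    rw [(hder0 p).deriv, norm_div, norm_one, Complex.norm_real, Real.norm_eq_abs, abs_of_pos hR0]
    positivity
  have hderne : deriv F p ≠ 0 := by
    intro h
    rw [h, norm_zero] at hderF
    exact hpos.ne hderF
  have hnc : ∃ z ∈ U, ∃ w ∈ U, F z ≠ F w := by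
    by_contra hcon
    push Not at hcon
    apply hderne
    have h1 : F =ᶠ[𝓝 p] fun _ => F p := by
      filter_upwards [hU.mem_nhds hp] with z hz
      exact hcon z hz p hp
    rw [h1.deriv_eq, deriv_const]
  have hFinj : InjOn F U := hHurwitz U hU hpre f F l hl (fun n => (hfX n).1)
    (fun n => (hfX n).2.1) hF hnc
  have hFp : F p = 0 := by
    have h1 := hF.tendsto_at hp
    have h2 : Tendsto (fun n => f n p) l (𝓝 0) := by
      have : (fun n => f n p) = fun _ => (0 : ℂ) := funext fun n => (hfX n).2.2.2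
      rw [this]
      exact tendsto_const_nhds
    exact tendsto_nhds_unique h1 h2
  obtain ⟨hopen, -, g, hgd, hg⟩ := hInv U hU F hFd hFinj
  have hFle : F '' U ⊆ closedBall 0 1 := by
    rintro _ ⟨z, hz, rfl⟩
    exact isClosed_closedBall.mem_of_tendsto (hF.tendsto_at hz)
      (Eventually.of_forall fun n => ball_subset_closedBall ((hfX n).2.2.1 hz))
  have hFlt : F '' U ⊆ ball 0 1 := by
    rw [← interior_closedBall (0 : ℂ) one_ne_zero]
    exact interior_maximal hFle hopen
  have hFX : F ∈ X := ⟨hFd, hFinj, fun z hz => hFlt (mem_image_of_mem F hz), hFp⟩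
  have hsurj : F '' U = ball 0 1 := by
    refine subset_antisymm hFlt fun w hw => ?_
    by_contra hwU
    obtain ⟨k, hk1, hk2, hk3, hk4, hk5⟩ := hKoebe U hU hUc p hp F hFd hFinj hFX.2.2.1 hFp hderne
      w hw hwU
    have h1 : ‖deriv k p‖ ≤ sSup S := le_csSup hSb ⟨k, ⟨hk1, hk2, hk3, hk4⟩, rfl⟩
    rw [hderF] at hk5
    linarith
  rw [hsurj] at hgd
  refine ⟨g, hgd, ?_, ?_, ?_⟩
  · intro x hx y hy hxy
    rw [← hsurj] at hx hy
    obtain ⟨z, hz, rfl⟩ := hx
    obtain ⟨w, hw, rfl⟩ := hy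
    rw [hg z hz, hg w hw] at hxy
    rw [hxy]
  · rw [← hsurj]
    apply subset_antisymm
    · rintro _ ⟨_, ⟨z, hz, rfl⟩, rfl⟩
      rw [hg z hz]
      exact hz
    · intro z hz
      exact ⟨F z, mem_image_of_mem F hz, hg z hz⟩
  · rw [← hFp]
    exact hg p hp

end Pool.Agent.CT
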