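import Pool.Agent.CT.HDefs

set_option autoImplicit false

/-! # H9: automorphisms of the disc fixing the centre -/

namespace Pool.Agent.CT

open Set Metric

theorem h9 : Stmt_DiscAut := by
  intro g g' hg hg' hm hm' h0 h1 h2
  have z0 : (0 : ℂ) ∈ ball (0 : ℂ) 1 := mem_ball_self one_pos
  have h0' : g' 0 = 0 := by
    have := h1 0 z0
    rwa [h0] at this
  -- a point where the Schwarz bound is sharp
  have hz : (1 / 2 : ℂ) ∈ ball (0 : ℂ) 1 := by
    rw [mem_ball_zero_iff]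
    norm_num
  have hle : ‖g (1 / 2)‖ ≤ ‖(1 / 2 : ℂ)‖ :=
    Complex.norm_le_norm_of_mapsTo_ball hg (hm.mono_right ball_subset_closedBall) h0
      (mem_ball_zero_iff.mp hz)
  have hge : ‖g' (g (1 / 2))‖ ≤ ‖g (1 / 2)‖ :=
    Complex.norm_le_norm_of_mapsTo_ball hg' (hm'.mono_right ball_subset_closedBall) h0'
      (mem_ball_zero_iff.mp (hm hz))
  rw [h1 _ hz] at hge
  have heq : ‖g (1 / 2)‖ = 1 / 2 := by
    have h3 : ‖(1 / 2 : ℂ)‖ = 1 / 2 := by norm_num
    rw [h3] at hle hge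
    exact le_antisymm hle hge
  have hne : (1 / 2 : ℂ) ≠ 0 := by norm_num
  obtain ⟨C, hC, hE⟩ := Complex.affine_of_mapsTo_ball_of_exists_norm_dslope_eq_div' (c := 0)
    (R₁ := 1) (R₂ := 1) hg (by rw [h0]; exact hm.mono_right ball_subset_closedBall)
    ⟨1 / 2, hz, by
      rw [dslope_of_ne _ hne, slope_def_module, h0, norm_smul, sub_zero, sub_zero, heq]
      norm_num⟩
  refine ⟨C, by rw [hC]; norm_num, fun z hz => ?_⟩
  have := hE hz
  simp only [h0, sub_zero, zero_add, smul_eq_mul] at this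
  rw [this, mul_comm]

end Pool.Agent.CT
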