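import Pool.Agent.CT.H1
import Pool.Agent.CT.H2
import Pool.Agent.CT.H3
import Pool.Agent.CT.H4
import Pool.Agent.CT.H5
import Pool.Agent.CT.H6
import Pool.Agent.CT.H7
import Pool.Agent.CT.H8
import Pool.Agent.CT.H9
import Pool.Agent.CT.H10
import Pool.Agent.CT.H11
import Pool.Agent.CT.H12
import Pool.Agent.CT.H13
import Pool.Agent.CT.H14
import Pool.Agent.CT.H15
import Pool.Agent.CT.H16
import Pool.Agent.CT.H20
import Pool.Agent.CT.H21
import Pool.Agent.CT.H22
import Pool.Agent.CT.H23
import Pool.Agent.CT.H24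
import Pool.Agent.CT.H25
import Pool.Agent.CT.H26
import Pool.Agent.CT.H27
import Pool.Agent.CT.H28
import Pool.Agent.CT.H29
import Pool.Agent.CT.H30

set_option autoImplicit false

/-! # Part H: main results -/

namespace Pool.Agent.CT

theorem discTop : Stmt_DiscTop := h2 h1

theorem rmt : Stmt_RMT := h8 h4 h5 h6 h7

theorem cara : Stmt_Cara := h14 discTop h6 (h11 discTop h6 h10) (h13 discTop h6 h12)

/-- The equivariant disc theorem. -/
theorem equivDisc : Stmt_EquivDisc := h16 discTop (h3 discTop) h6 rmt h9 cara h15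

theorem finStab : Stmt_FinStab := h22 h20

/-- The homeomorphism from a drawing. -/
theorem homeo : Stmt_Homeo :=
  h30 h21 h24 (h26 h24 (h25 finStab h23)) (h28 equivDisc finStab h27) h29

end Pool.Agent.CT
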