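import Pool.Agent.CT.DMain
import Pool.Agent.CT.FAdj
import Pool.Agent.CT.FConn
import Pool.Agent.CT.FCut
import Pool.Agent.CT.FCyc
import Pool.Agent.CT.FData
import Pool.Agent.CT.FFaces
import Pool.Agent.CT.FFar
import Pool.Agent.CT.FFinal
import Pool.Agent.CT.FHarm
import Pool.Agent.CT.FHeight
import Pool.Agent.CT.FHyp
import Pool.Agent.CT.FLine
import Pool.Agent.CT.FLines
import Pool.Agent.CT.FLoc
import Pool.Agent.CT.FPlanar
import Pool.Agent.CT.FPos
import Pool.Agent.CT.FPre
import Pool.Agent.CT.FRef
import Pool.Agent.CT.FRun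
import Pool.Agent.CT.FSeq
import Pool.Agent.CT.FSide
import Pool.Agent.CT.FTile
import Pool.Agent.CT.FUp1
import Pool.Agent.CT.FUp2
import Pool.Agent.CT.FVert
import Pool.Agent.CT.W.WFinal
import Pool.Agent.CT.HMain
import Pool.Agent.CT.T.TFinal
import Pool.Agent.CT.G1
import Pool.Agent.CT.G2

set_option autoImplicit false

namespace Pool.Agent.CT

namespace Fin90

theorem hFar : Stmt_FFar := fFar
theorem hRun : Stmt_FRun := fRun tight_final faceCycle_final frVertex_final
theorem hVert : Stmt_FVert := fVert hRun frVertex_final faceCycle_final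
theorem hOrb : Stmt_FOrb := fOrb
theorem hLine : Stmt_FLine := fLine bond_final
theorem hLines : Stmt_FLines := fLines hLine fPos
theorem hSide : Stmt_FSide := fSide hLine hRun frVertex_final faceCycle_final
theorem hHarm : Stmt_FHarm := fHarm dirichlet_final hVert hOrb
theorem hHeight : Stmt_FHeight := fHeight hSide hVert hOrb harm_final
theorem hCyc : Stmt_FCyc := fCyc hRun faceCycle_final
theorem hPlanar : Stmt_FPlanar := fPlanar hRun faceCycle_final
theorem hAdj : Stmt_FAdj := fAdj hCyc hVert faceCycle_final
theorem hConn : Stmt_FConn := fConn hAdj hVert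
theorem hLoc : Stmt_FLoc := fLoc hHeight hOrb hVert
theorem hUp1 : Stmt_FUp1 := fUp1 upSet_final hAdj hConn hOrb
theorem hUp2 : Stmt_FUp2 := fUp2 upSet_final hAdj hConn hOrb hHeight
theorem hHyp : Stmt_FHyp := fHyp hUp1 hUp2 hHeight hVert hAdj hCyc hRun faceCycle_final
  threeConn_final harm_final
theorem hFaces : Stmt_FFaces := fFaces hCyc hPlanar faceCycle_final hHyp block_final
  faceStrict_final faceSub_final
theorem hRef : Stmt_FRef := fRef hFaces hVert hLoc hHeight hRun faceCycle_final
theorem hTile : Stmt_FTile := fTile hRef hFaces hCyc hPlanar hHyp hLoc hHeight hVert count_final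
  block_final faceCycle_final
theorem hPre : Stmt_FPre := fPre hFaces hTile hLoc hHyp hCyc hPlanar block_final hVert
  faceCycle_final
theorem hCut : Stmt_FCut := fCut hFar mainBlock_final mainBlockCompl_final biTight_final ring_final
theorem hSeq : Stmt_FSeq := fSeq hFar hCut
theorem hDraw : Stmt_FriezeDraw := fDraw hSeq hLines hHarm hPre preInter_final
theorem hFrieze : Stmt_DrawFrieze := drawFrieze hDraw fData

theorem hNF : Stmt_DrawNF := by
  intro K M hM hK
  rcases hK with h | h | h
  · exact drawFinTiling_final K M hM h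
  · exact hFrieze K M hM h
  · exact drawWall_final K M hM (topo_final K) h

theorem main_final : ∀ K : DiscTiling, MainConc K :=
  main_of_parts g1 g2 map_final topo_final finStab hNF homeo

end Fin90

end Pool.Agent.CT
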