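import Pool.Agent.CT.GDefs

set_option autoImplicit false

/-! # From `MainConc` to the statement of the problem -/

namespace Pool.Agent.CT

open Set Metric

/-- The image of a tiling under a homeomorphism of the plane is a tiling. -/
theorem isTiling_image {T : Set (Set ℂ)} (hT : IsTiling T) (h : ℂ ≃ₜ ℂ) :
    IsTiling ((fun t => h '' t) '' T) := by
  refine ⟨hT.countable.image _, ?_, ?_, ?_⟩
  · rintro _ ⟨t, ht, rfl⟩
    exact h.isClosedMap _ (hT.closed t ht)
  · rw [← image_sUnion, hT.cover, image_univ]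
    exact h.surjective.range_eq
  · rintro _ ⟨t, ht, rfl⟩ _ ⟨t', ht', rfl⟩ hne
    show Disjoint (interior (h '' t)) (interior (h '' t'))
    rw [← h.image_interior, ← h.image_interior]
    refine (disjoint_image_iff h.injective).2 (hT.disj t ht t' ht' ?_)
    rintro rfl
    exact hne rfl

theorem result_of_main (hm : ∀ K : DiscTiling, MainConc K) :
    ∀ T : Set (Set ℂ), IsTiling T → N1 T → N2 T → (∀ P, ¬ Singular T P) →
    ∃ (C : Set (Set ℂ)) (h : ℂ ≃ₜ ℂ), IsTiling C ∧ (∀ c ∈ C, Convex ℝ c) ∧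
      (fun t => h '' t) '' T = C ∧
      ∀ s : ℂ ≃ᵢ ℂ, IsSymmetry T s → ∃ s' : ℂ ≃ᵢ ℂ, IsSymmetry C s' ∧
        ∀ z, s' z = h (s (h.symm z)) := by
  intro T hT h1 h2 hs
  obtain ⟨h, hc, he⟩ := hm ⟨T, hT, h1, h2, hs⟩
  refine ⟨(fun t => h '' t) '' T, h, isTiling_image hT h, ?_, rfl, ?_⟩
  · rintro _ ⟨t, ht, rfl⟩
    exact hc t ht
  · intro s hsT
    obtain ⟨s', hs'⟩ := he s hsT
    have hsT' : (fun t => s '' t) '' T = T := hsT
    refine ⟨s', ?_, ?_⟩
    · show (fun t => s' '' t) '' ((fun t => h '' t) '' T) = (fun t => h '' t) '' T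
      conv_rhs => rw [← hsT']
      rw [image_image, image_image]
      refine image_congr fun t _ => ?_
      show s' '' (h '' t) = h '' (s '' t)
      rw [image_image, image_image]
      exact image_congr fun z _ => (hs' z).symm
    · intro z
      have := hs' (h.symm z)
      rw [h.apply_symm_apply] at this
      exact this.symm

end Pool.Agent.CT
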