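import Pool.Agent.CT.FMain
import Pool.Agent.CT.W.WFinal
import Pool.Agent.CT.T.TFinal
import Pool.Agent.CT.HMain
import Pool.Agent.CT.G1
import Pool.Agent.CT.G2
import Pool.Agent.CT.GFinal

set_option autoImplicit false

/-! # Final assembly -/

namespace Pool.Agent.CT

/-- Drawings of the tilings in normal form. -/
theorem drawNF_final : Stmt_DrawNF := by
  intro K M hM hK
  rcases hK with h | h | h
  · exact drawFinTiling_final K M hM h
  · exact drawFrieze_final K M hM h
  · exact drawWall_final K M hM (topo_final K) h

/-- The main theorem for normal tilings by closed discs without singular points. -/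
theorem main_final : ∀ K : DiscTiling, MainConc K :=
  main_of_parts g1 g2 map_final topo_final finStab drawNF_final homeo

end Pool.Agent.CT
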