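import Pool.Agent.CT.HDefs

set_option autoImplicit false

/-! # H24: equivariant choice along orbits -/

namespace Pool.Agent.CT

open Set

theorem h24_reps (G X : Type) [Group G] [MulAction G X] : ∃ (r : X → X) (k : X → G),
    (∀ x, k x • r x = x) ∧ ∀ (g : G) x, r (g • x) = r x := by
  let q : X → Quotient (MulAction.orbitRel G X) := fun x => Quotient.mk _ x
  have h1 : ∀ x, ∃ g : G, g • (q x).out = x := by
    intro x
    have h2 : (MulAction.orbitRel G X) (q x).out x := Quotient.exact (Quotient.out_eq (q x))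
    have h3 : (q x).out ∈ MulAction.orbit G x := MulAction.orbitRel_apply.mp h2
    obtain ⟨g, hg⟩ := h3
    have hg' : g • x = (q x).out := hg
    exact ⟨g⁻¹, by rw [← hg', inv_smul_smul]⟩
  choose k hk using h1
  refine ⟨fun x => (q x).out, k, hk, fun g x => ?_⟩
  have : q (g • x) = q x := Quotient.sound (MulAction.orbitRel_apply.mpr ⟨g, rfl⟩)
  show (q (g • x)).out = (q x).out
  rw [this]

theorem h24 : Stmt_Transport := by
  intro G X _ _ act ρ A hA Good hG hex
  obtain ⟨r, k, hk, hr⟩ := h24_reps G X
  choose B0 hB0 hB0e using hex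
  have hsymm : ∀ x z, act (k x) ((act (k x)).symm z) = z := fun x z =>
    (act (k x)).apply_symm_apply z
  refine ⟨fun x z => ρ (k x) (B0 (r x) ((act (k x)).symm z)), fun x => ?_, fun g x z hz => ?_⟩
  · have h1 := hG (k x) (r x) (B0 (r x)) (fun z => ρ (k x) (B0 (r x) ((act (k x)).symm z)))
      (hB0 (r x)) (fun z _ => by
        show ρ (k x) (B0 (r x) ((act (k x)).symm (act (k x) z))) = _
        rw [(act (k x)).symm_apply_apply])
    rwa [hk] at h1
  · have hw : ∃ w ∈ A (r x), act (k x) w = z := by
      have h1 := hA (k x) (r x)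
      rw [hk] at h1
      rw [h1] at hz
      exact hz
    obtain ⟨w, hwA, hwz⟩ := hw
    have hfix : ((k (g • x))⁻¹ * g * k x) • r x = r x := by
      have h5 : k (g • x) • r x = g • x := by
        have h6 := hk (g • x)
        rwa [hr g x] at h6
      have h6 : (k (g • x))⁻¹ • (g • x) = r x := inv_smul_eq_iff.mpr h5.symm
      rw [mul_smul, mul_smul, hk]
      exact h6
    have h2 := hB0e (r x) ((k (g • x))⁻¹ * g * k x) hfix w hwA
    have h3 : (act (k (g • x))).symm (act g z) = act ((k (g • x))⁻¹ * g * k x) w := by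
      rw [map_mul, map_mul, map_inv, IsometryEquiv.mul_apply, IsometryEquiv.mul_apply, hwz]
      rfl
    have h4 : (act (k x)).symm z = w := by
      rw [← hwz, (act (k x)).symm_apply_apply]
    show ρ (k (g • x)) (B0 (r (g • x)) ((act (k (g • x))).symm (act g z))) =
      ρ g (ρ (k x) (B0 (r x) ((act (k x)).symm z)))
    have h7 : k (g • x) * ((k (g • x))⁻¹ * g * k x) = g * k x := by group
    rw [hr, h3, h2, h4, ← IsometryEquiv.mul_apply, ← IsometryEquiv.mul_apply, ← map_mul,
      ← map_mul, h7]

end Pool.Agent.CT
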