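import Pool.Agent.CT.GDefs

set_option autoImplicit false

namespace Pool.Agent.CT

open Set Metric

/-- From the conclusion for disc tilings to the statement of the problem. -/
theorem problem_of_main (hmain : ∀ K : DiscTiling, MainConc K) :
    ∀ T : Set (Set ℂ), IsTiling T → N1 T → N2 T → (∀ P, ¬ Singular T P) →
      ∃ (C : Set (Set ℂ)) (h : ℂ ≃ₜ ℂ), IsTiling C ∧ (∀ c ∈ C, Convex ℝ c) ∧
        (fun t => h '' t) '' T = C ∧
        ∀ s : ℂ ≃ᵢ ℂ, IsSymmetry T s → ∃ s' : ℂ ≃ᵢ ℂ, IsSymmetry C s' ∧ ∀ z, h (s z) = s' (h z) := by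
  intro T hT h1 h2 h3
  obtain ⟨h, hc, hs⟩ := hmain ⟨T, hT, h1, h2, h3⟩
  refine ⟨(fun t => h '' t) '' T, h, ?_, ?_, rfl, ?_⟩
  · refine ⟨hT.countable.image _, ?_, ?_, ?_⟩
    · rintro _ ⟨t, ht, rfl⟩
      exact h.isClosedMap _ (hT.closed t ht)
    · rw [← image_sUnion, hT.cover, image_univ]
      exact h.surjective.range_eq
    · rintro _ ⟨t, ht, rfl⟩ _ ⟨t', ht', rfl⟩ hne
      show Disjoint (interior (h '' t)) (interior (h '' t'))
      rw [← h.image_interior t, ← h.image_interior t']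
      refine (disjoint_image_iff h.injective).2 (hT.disj t ht t' ht' ?_)
      rintro rfl
      exact hne rfl
  · rintro _ ⟨t, ht, rfl⟩
    exact hc t ht
  · intro s hs'
    obtain ⟨s', h'⟩ := hs s hs'
    refine ⟨s', ?_, h'⟩
    have h4 : (fun t => s '' t) '' T = T := hs'
    show (fun t => s' '' t) '' ((fun t => h '' t) '' T) = (fun t => h '' t) '' T
    conv_rhs => rw [← h4]
    rw [image_image, image_image]
    refine image_congr fun t _ => ?_
    show s' '' (h '' t) = h '' (s '' t)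
    rw [image_image, image_image]
    exact image_congr fun z _ => (h' z).symm

end Pool.Agent.CT
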