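import Pool.Agent.CT.TDefs

set_option autoImplicit false

/-! # Topology of disc tilings: frozen statements of the blocks T1 - T18

Block `Tn` proves the statement(s) named in its header, in the file `Pool/Agent/CT/T/<Name>.lean`,
taking earlier statements as hypotheses. -/

namespace Pool.Agent.CT

open Set Metric

/-! ## T1, T2: strong nonplanarity -/

/-- T1 (`Turn`): the crossing relation.  `H u v` (`u < v`) are the edges, `g u v` is a path from
`p u` to `p v`; paths of disjoint edges are disjoint. -/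
def Stmt_Turn : Prop := ∀ (N : ℕ) (p : Fin N → ℂ) (H : Fin N → Fin N → Prop)
  (g : Fin N → Fin N → C(unitInterval, ℂ)),
  (∀ u v, u < v → H u v → g u v 0 = p u ∧ g u v 1 = p v) →
  (∀ u v w x, u < v → w < x → H u v → H w x → u ≠ w → u ≠ x → v ≠ w → v ≠ x →
    ∀ s t, g u v s ≠ g w x t) →
  ∃ n : Fin N → Fin N → Fin N → ℤ, ∀ u v w x, u < v → w < x → H u v → H w x →
    u ≠ w → u ≠ x → v ≠ w → v ≠ x →
    n u v w + n w x v - n u v x - n w x u =
      (if u < x ∧ x < v then 1 else 0) - (if u < w ∧ w < v then 1 else 0)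

/-- T2 (`Kur`): five points cannot be joined pairwise by sets such that sets of independent pairs are
disjoint. -/
def Stmt_K5 : Prop := ∀ (p : Fin 5 → ℂ) (Z : Fin 5 → Fin 5 → Set ℂ),
  (∀ i j, i < j → JoinedIn (Z i j) (p i) (p j)) →
  (∀ i j k l, i < j → k < l → i ≠ k → i ≠ l → j ≠ k → j ≠ l → Disjoint (Z i j) (Z k l)) → False

/-- T2 (`Kur`): the same for the complete bipartite graph on `3 + 3` points. -/
def Stmt_K33 : Prop := ∀ (a b : Fin 3 → ℂ) (Z : Fin 3 → Fin 3 → Set ℂ),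
  (∀ i j, JoinedIn (Z i j) (a i) (b j)) →
  (∀ i j k l, i ≠ k → j ≠ l → Disjoint (Z i j) (Z k l)) → False

/-! ## T3, T4: invariance of domain, discs -/

/-- T3 (`InvDom`): invariance of domain in the plane. -/
def Stmt_InvDomT : Prop := ∀ (c : ℂ) (r : ℝ), 0 < r → ∀ f : ℂ → ℂ,
  ContinuousOn f (closedBall c r) → InjOn f (closedBall c r) → f c ∈ interior (f '' closedBall c r)

/-- T4 (`Disc`): the frontier of a closed topological disc is the image of the circle. -/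
def Stmt_Front : Prop := ∀ (t : Set ℂ) (ψ : closedBall (0 : ℂ) 1 ≃ₜ t)
  (z : closedBall (0 : ℂ) 1), ((ψ z : t) : ℂ) ∈ frontier t ↔ ‖(z : ℂ)‖ = 1

/-- Working data of a closed topological disc `t`: a centre `c` and a periodic parametrisation `γ` of
the frontier. -/
structure DiscData (t : Set ℂ) (c : ℂ) (γ : ℝ → ℂ) : Prop where
  compact : IsCompact t
  cont : Continuous γ
  per : ∀ x y, γ x = γ y ↔ ∃ n : ℤ, y = x + n
  range : range γ = frontier t
  center : c ∈ interior t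
  clos : closure (interior t) = t
  pc : IsPathConnected (interior t)
  rad : ∀ x ∈ frontier t, JoinedIn (insert x (interior t)) x c

/-- T4 (`Disc`): working data exist. -/
def Stmt_Disc : Prop := ∀ t : Set ℂ, Nonempty (t ≃ₜ closedBall (0 : ℂ) 1) →
  ∃ (c : ℂ) (γ : ℝ → ℂ), DiscData t c γ

/-! ## T5: connectivity of regions of the plane -/

/-- T5 (`Conn`): a countable set does not disconnect an open connected set. -/
def Stmt_Compl : Prop := ∀ (U C : Set ℂ), IsOpen U → IsPreconnected U → C.Countable →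
  IsPreconnected (U \ C)

/-- T5 (`Conn`): the outside of a disc is connected. -/
def Stmt_Outside : Prop := ∀ r : ℝ, IsPreconnected {z : ℂ | r < ‖z‖}

/-! ## T6: basic facts about disc tilings -/

/-- T6 (`Basic`): the basic facts. -/
structure Basic (K : DiscTiling) : Prop where
  /-- bounded sets meet finitely many tiles -/
  locfin : ∀ r : ℝ, {t ∈ K.T | (t ∩ closedBall 0 r).Nonempty}.Finite
  /-- near `p` there are only tiles containing `p` -/
  nbhd : ∀ p : ℂ, ∃ r > 0, ∀ t ∈ K.T, (t ∩ ball p r).Nonempty → p ∈ t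
  fin_at : ∀ p : ℂ, (K.tilesAt p).Finite
  ne_at : ∀ p : ℂ, (K.tilesAt p).Nonempty
  int_disj : ∀ t ∈ K.T, ∀ t' ∈ K.T, t ≠ t' → Disjoint (interior t) t'
  /-- a point of two tiles is on the frontier of both -/
  mem_frontier : ∀ t ∈ K.T, ∀ t' ∈ K.T, t ≠ t' → t ∩ t' ⊆ frontier t
  /-- a frontier point of a tile is in another tile -/
  other : ∀ t ∈ K.T, ∀ p ∈ frontier t, ∃ t' ∈ K.T, t' ≠ t ∧ p ∈ t'
  /-- a tile touches finitely many tiles -/
  touch_fin : ∀ t ∈ K.T, {t' ∈ K.T | (t ∩ t').Nonempty}.Finite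
  /-- an interior point of a tile is in no other tile -/
  at_int : ∀ t ∈ K.T, ∀ p ∈ interior t, K.tilesAt p = {t}

def Stmt_Basic : Prop := ∀ K : DiscTiling, Basic K

/-! ## T7: three tiles, gluing, closed families of tiles -/

/-- T7 (`Three`): three different tiles do not have three common points. -/
def Stmt_Three : Prop := ∀ (K : DiscTiling) (t : Fin 3 → Set ℂ) (x : Fin 3 → ℂ),
  (∀ i, t i ∈ K.T) → Function.Injective t → Function.Injective x → (∀ i j, x i ∈ t j) → False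

/-- T7 (`Three`): consequences of `Stmt_Three`: triple intersections are finite and the set of
vertices is countable; a tile has finitely many vertices. -/
def Stmt_ThreeFin : Prop := ∀ (K : DiscTiling),
  (∀ t₁ ∈ K.T, ∀ t₂ ∈ K.T, ∀ t₃ ∈ K.T, t₁ ≠ t₂ → t₁ ≠ t₃ → t₂ ≠ t₃ →
    (t₁ ∩ t₂ ∩ t₃).Finite) ∧
  (∀ t ∈ K.T, {p ∈ t | 3 ≤ (K.tilesAt p).ncard}.Finite) ∧
  {p : ℂ | 3 ≤ (K.tilesAt p).ncard}.Countable

/-- T8 (`Glue`): if near `p` the frontiers of `t` and `t'` lie in both tiles, then there is no other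
tile at `p`. -/
def Stmt_Glue : Prop := ∀ (K : DiscTiling), ∀ t ∈ K.T, ∀ t' ∈ K.T, t ≠ t' → ∀ p ∈ t ∩ t', ∀ r > 0,
  frontier t ∩ ball p r ⊆ t' → frontier t' ∩ ball p r ⊆ t → K.tilesAt p = {t, t'}

/-- T8 (`Glue`): no finite nonempty family of tiles is closed under touching. -/
def Stmt_Closed : Prop := ∀ (K : DiscTiling) (S : Set (Set ℂ)), S ⊆ K.T → S.Finite → S.Nonempty →
  (∀ p ∈ ⋃₀ S, K.tilesAt p ⊆ S) → False

/-- T8 (`Glue`): the tiles at a point form a star: any two nonempty complementary sets of tiles at `p`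
contain tiles with nontrivial intersection. -/
def Stmt_Star : Prop := ∀ (K : DiscTiling) (p : ℂ) (A : Set (Set ℂ)), A ⊆ K.tilesAt p → A.Nonempty →
  (∀ t ∈ A, ∀ t' ∈ K.tilesAt p, (t ∩ t').Nontrivial → t' ∈ A) → A = K.tilesAt p

/-! ## T9: arcs of a periodic curve -/

/-- T9 (`Arc`): closed connected nontrivial proper subsets of a closed curve are arcs. -/
def Stmt_ArcLemma : Prop := ∀ (γ : ℝ → ℂ), Continuous γ → (∀ x y, γ x = γ y ↔ ∃ n : ℤ, y = x + n) →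
  ∀ A ⊆ range γ, IsClosed A → IsPreconnected A → A.Nontrivial → A ≠ range γ →
  ∃ a b : ℝ, a < b ∧ b < a + 1 ∧ A = γ '' Icc a b

/-- T9 (`Arc`): interior points of an arc are the points that disconnect it. -/
def Stmt_ArcCut : Prop := ∀ (γ : ℝ → ℂ), Continuous γ → (∀ x y, γ x = γ y ↔ ∃ n : ℤ, y = x + n) →
  ∀ a b : ℝ, a < b → b < a + 1 → ∀ x ∈ Icc a b,
  (IsPreconnected (γ '' Icc a b \ {γ x}) ↔ (x = a ∨ x = b))

/-- T9 (`Arc`): a closed curve does not contain a smaller one. -/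
def Stmt_CircleMax : Prop := ∀ (γ δ : ℝ → ℂ), Continuous γ → (∀ x y, γ x = γ y ↔ ∃ n : ℤ, y = x + n) →
  Continuous δ → (∀ x y, δ x = δ y ↔ ∃ n : ℤ, y = x + n) → range γ ⊆ range δ → range γ = range δ

/-! ## T10: the intersection of two tiles -/

/-- T10 (`Inter`): the frontier of a tile is not contained in another tile. -/
def Stmt_NotSub : Prop := ∀ (K : DiscTiling), ∀ t ∈ K.T, ∀ t' ∈ K.T, t ≠ t' → ¬ frontier t ⊆ t'

/-- T10 (`Inter`): a nontrivial intersection of two tiles is an arc whose ends are vertices and whose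
other points are not. -/
def Stmt_InterT : Prop := ∀ (K : DiscTiling), ∀ t ∈ K.T, ∀ t' ∈ K.T, t ≠ t' → (t ∩ t').Nontrivial →
  ∀ (c : ℂ) (γ : ℝ → ℂ), DiscData t c γ →
  ∃ a b : ℝ, a < b ∧ b < a + 1 ∧ t ∩ t' = γ '' Icc a b ∧
    ∀ x ∈ Icc a b, (3 ≤ (K.tilesAt (γ x)).ncard ↔ (x = a ∨ x = b))

/-! ## T11: local structure along the frontier of a tile -/

/-- T11 (`Corner`): at a frontier point which is not a vertex there is exactly one other tile, and it
meets `t` in an edge. -/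
def Stmt_NonVertex : Prop := ∀ (K : DiscTiling), ∀ t ∈ K.T, ∀ p ∈ frontier t,
  ¬ 3 ≤ (K.tilesAt p).ncard → ∃ t' ∈ K.T, t' ≠ t ∧ (t ∩ t').Nontrivial ∧ K.tilesAt p = {t, t'}

/-- T11 (`Corner`): at a vertex of `t` exactly two tiles meet `t` in an edge containing the vertex. -/
def Stmt_Corner : Prop := ∀ (K : DiscTiling), ∀ t ∈ K.T, ∀ p ∈ t, 3 ≤ (K.tilesAt p).ncard →
  ∃ t₁ ∈ K.T, ∃ t₂ ∈ K.T, t₁ ≠ t ∧ t₂ ≠ t ∧ t₁ ≠ t₂ ∧ p ∈ t₁ ∧ p ∈ t₂ ∧
    (t ∩ t₁).Nontrivial ∧ (t ∩ t₂).Nontrivial ∧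
    ∀ t₃ ∈ K.T, t₃ ≠ t → p ∈ t₃ → (t ∩ t₃).Nontrivial → t₃ = t₁ ∨ t₃ = t₂

/-! ## T12: the combinatorial map without the cardinality bounds -/

/-- T12 (`Pre`). -/
structure PreMap (K : DiscTiling) : Prop where
  edge_verts : ∀ e : K.E, ∃ u v : K.V, u ≠ v ∧ ∀ w : K.V, w.1 ∈ e.1 ↔ (w = u ∨ w = v)
  edge_faces : ∀ e : K.E, ∃ f g : K.F, f ≠ g ∧ e.1 = f.1 ∩ g.1 ∧
    ∀ h : K.F, e.1 ⊆ h.1 ↔ (h = f ∨ h = g)
  corner : ∀ (v : K.V) (e : K.E) (f : K.F), v.1 ∈ e.1 → e.1 ⊆ f.1 →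
    ∃ e' : K.E, e' ≠ e ∧ ∀ d : K.E, (v.1 ∈ d.1 ∧ d.1 ⊆ f.1) ↔ (d = e ∨ d = e')
  /-- a vertex of a tile lies on an edge of the tile -/
  vf : ∀ (v : K.V) (f : K.F), v.1 ∈ f.1 → ∃ e : K.E, v.1 ∈ e.1 ∧ e.1 ⊆ f.1
  face_fin : ∀ f : K.F, {e : K.E | e.1 ⊆ f.1}.Finite
  face_ne : ∀ f : K.F, {e : K.E | e.1 ⊆ f.1}.Nonempty
  face_conn : ∀ f : K.F, ∀ A : Set K.E, A ⊆ {e | e.1 ⊆ f.1} → A.Nonempty →
    (∀ e ∈ A, ∀ d : K.E, d.1 ⊆ f.1 → (∃ v : K.V, v.1 ∈ e.1 ∧ v.1 ∈ d.1) → d ∈ A) →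
    A = {e | e.1 ⊆ f.1}
  vert_fin : ∀ v : K.V, {e : K.E | v.1 ∈ e.1}.Finite
  vert_conn : ∀ v : K.V, ∀ A : Set K.E, A ⊆ {e | v.1 ∈ e.1} → A.Nonempty →
    (∀ e ∈ A, ∀ d : K.E, v.1 ∈ d.1 → (∃ f : K.F, e.1 ⊆ f.1 ∧ d.1 ⊆ f.1) → d ∈ A) →
    A = {e | v.1 ∈ e.1}
  bd : ∀ t : K.F, frontier t.1 = ⋃ e ∈ {e : K.E | e.1 ⊆ t.1}, e.1
  /-- two different edges meet at most in vertices -/
  edge_inter : ∀ e d : K.E, e ≠ d → ∀ z, z ∈ e.1 → z ∈ d.1 → ∃ v : K.V, v.1 = z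

def Stmt_Pre : Prop := ∀ K : DiscTiling, PreMap K

/-- T13 (`Poly`): the polyhedral map. -/
def Stmt_Poly : Prop := ∀ K : DiscTiling, ∃ M : PolyMap K.V K.E K.F, K.IsMap M.toInc

/-! ## T15: planarity, T16: regions, T17: connectivity and ends -/

/-- T15 (`Planar`). -/
def Stmt_Planar : Prop := ∀ (K : DiscTiling) (M : PolyMap K.V K.E K.F), K.IsMap M.toInc →
  StrongPlanar M.cellGraph

/-- T16 (`Regions`): the tiles meeting an open set `U` such that `U` minus the vertices is connected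
are connected through edges. -/
def Stmt_Region : Prop := ∀ (K : DiscTiling) (M : Inc K.V K.E K.F), K.IsMap M →
  ∀ U : Set ℂ, IsOpen U → IsPreconnected U → ConnIn M.fadj {t | (t.1 ∩ U).Nonempty}

/-- T17 (`Verts`): vertices of a connected family of faces are connected (combinatorial). -/
def Stmt_Verts : Prop := ∀ (V E F : Type) (M : PolyMap V E F) (S : Set F), ConnIn M.fadj S →
  ConnIn M.vadj {v | ∃ f ∈ S, M.vf v f}

/-- T18 (`Ends`): connectivity, ends, infinity. -/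
def Stmt_Ends : Prop := ∀ (K : DiscTiling) (M : PolyMap K.V K.E K.F), K.IsMap M.toInc →
  ConnIn M.vadj univ ∧ ConnIn M.fadj univ ∧ OneEnded M.vadj ∧ OneEnded M.fadj ∧
    Infinite K.V ∧ Infinite K.F

end Pool.Agent.CT
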