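import Pool.Agent.CT.GDefs
import Pool.Agent.CT.BDefs

set_option autoImplicit false

/-! # Part W: wallpaper groups. Definitions and frozen statements -/

namespace Pool.Agent.CT

open Set Metric

/-! ## The translations of a tiling -/

/-- The subgroup of translations. It acts on the vertices, edges and tiles (HDefs). -/
def transGrp (K : DiscTiling) : Subgroup (symGroup K.T) where
  carrier := {s | ∃ c : ℂ, ∀ z, s.1 z = z + c}
  mul_mem' := by
    rintro s t ⟨c, hc⟩ ⟨d, hd⟩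
    refine ⟨d + c, fun z => ?_⟩
    show s.1 (t.1 z) = z + (d + c)
    rw [hd, hc]
    ring
  one_mem' := ⟨0, fun z => by
    show z = z + 0
    ring⟩
  inv_mem' := by
    rintro s ⟨c, hc⟩
    refine ⟨-c, fun z => ?_⟩
    show s.1.symm z = z + -c
    apply s.1.injective
    rw [s.1.apply_symm_apply, hc]
    ring

/-- The translation vector. -/
noncomputable def tvec {K : DiscTiling} (h : transGrp K) : ℂ := h.1.1 0

theorem trans_apply {K : DiscTiling} (h : transGrp K) (z : ℂ) : h.1.1 z = z + tvec h := by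
  obtain ⟨c, hc⟩ := h.2
  show h.1.1 z = z + h.1.1 0
  rw [hc, hc]
  ring

theorem smul_V_trans {K : DiscTiling} (h : transGrp K) (v : K.V) : (h • v).1 = v.1 + tvec h :=
  trans_apply h v.1

theorem smul_F_trans {K : DiscTiling} (h : transGrp K) (f : K.F) :
    (h • f).1 = (fun z => z + tvec h) '' f.1 := by
  show h.1.1 '' f.1 = _
  exact image_congr fun z _ => trans_apply h z

theorem tvec_mul {K : DiscTiling} (h k : transGrp K) : tvec (h * k) = tvec h + tvec k := by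
  show h.1.1 (k.1.1 0) = _
  rw [trans_apply h]
  show k.1.1 0 + tvec h = tvec h + k.1.1 0
  ring

theorem exists_trans {K : DiscTiling} {a : ℂ} (ha : IsTrans K a) : ∃ h : transGrp K, tvec h = a := by
  refine ⟨⟨⟨IsometryEquiv.addRight a, ha⟩, a, fun z => rfl⟩, ?_⟩
  show (IsometryEquiv.addRight a : ℂ ≃ᵢ ℂ) 0 = a
  simp

/-- Weights `1` on the edges. -/
noncomputable def wt {V E F : Type} (M : Inc V E F) (u v : V) : ℝ :=
  open Classical in if M.vadj.Adj u v then 1 else 0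

/-! ## W1: periodic harmonic maps (abstract) -/

/-- W1 (`WHarm`), from `Stmt_Dirichlet`. -/
def Stmt_PerHarm : Prop := ∀ (V H : Type) [Group H] [MulAction H V] [Nonempty V]
  (c : V → V → ℝ), Net c → (∀ u v, c u v = c v u) → (∀ (h : H) u v, c (h • u) (h • v) = c u v) →
  (∀ (h : H) (v : V), h • v = v → h = 1) → (∃ R : Set V, R.Finite ∧ ∀ v, ∃ (h : H), ∃ r ∈ R,
    v = h • r) → (∀ u v, Relation.ReflTransGen (Step c) u v) →
  ∀ (a : H → ℂ), (∀ h k, a (h * k) = a h + a k) →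
  ∃ φ : V → ℂ, (∀ v, Harm c φ v) ∧ (∀ (h : H) v, φ (h • v) = φ v + a h) ∧
    ∀ φ' : V → ℂ, (∀ v, Harm c φ' v) → (∀ (h : H) v, φ' (h • v) = φ' v + a h) →
      ∃ k, ∀ v, φ' v = φ v + k

/-! ## W2: finiteness modulo translations -/

/-- W2 (`WFin`). -/
structure WallFin (K : DiscTiling) (M : PolyMap K.V K.E K.F) : Prop where
  symM : Equiv M.toInc (symGroup K.T)
  orbV : ∃ R : Set K.V, R.Finite ∧ ∀ v, ∃ (h : transGrp K), ∃ r ∈ R, v = h • r
  orbF : ∃ R : Set K.F, R.Finite ∧ ∀ f, ∃ (h : transGrp K), ∃ r ∈ R, f = h • r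
  free : ∀ (h : transGrp K) (v : K.V), h • v = v → h = 1
  locV : ∀ r : ℝ, {v : K.V | ‖v.1‖ ≤ r}.Finite
  locF : ∀ r : ℝ, {f : K.F | ∃ z ∈ f.1, ‖z‖ ≤ r}.Finite
  pos : ∀ w : ℂ, w ≠ 0 → ∃ h : transGrp K, 0 < dir w (tvec h)

def Stmt_WallFin : Prop := ∀ (K : DiscTiling) (M : PolyMap K.V K.E K.F), K.IsMap M.toInc →
  TopoFacts K → WallNF K → WallFin K M

/-! ## W3: the periodic harmonic drawing -/

/-- The periodic harmonic map of a tiling. -/
structure WallPhi (K : DiscTiling) (M : PolyMap K.V K.E K.F) (φ : K.V → ℂ) : Prop where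
  harm : ∀ v, Harm (wt M.toInc) φ v
  per : ∀ (h : transGrp K) v, φ (h • v) = φ v + tvec h
  equi : EquivDrawing K φ
  bdd : ∃ C : ℝ, ∀ v : K.V, ‖φ v - v.1‖ ≤ C

/-- W3 (`WPhi`), from W1. -/
def Stmt_WallPhi : Prop := ∀ (K : DiscTiling) (M : PlaneMap K.V K.E K.F), K.IsMap M.toInc →
  WallFin K M.toPolyMap → ∃ φ : K.V → ℂ, WallPhi K M.toPolyMap φ

/-! ## W4: level sets -/

/-- W4 (`WUp`), from `Stmt_UpSet`, `Stmt_Harm`. -/
def Stmt_WallUp : Prop := ∀ (K : DiscTiling) (M : PlaneMap K.V K.E K.F), K.IsMap M.toInc →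
  WallFin K M.toPolyMap → ∀ φ : K.V → ℂ, WallPhi K M.toPolyMap φ →
  ∀ w : ℂ, w ≠ 0 → ∀ c : ℝ, ConnIn M.vadj {v | c < dir w (φ v)}

/-! ## W5: the block theorem applies -/

/-- W5 (`WBlk`), from W4, `Stmt_Harm`, `Stmt_FaceCycle`, `Stmt_ThreeConn`, `Stmt_Block`. -/
def Stmt_WallBlk : Prop := ∀ (K : DiscTiling) (M : PlaneMap K.V K.E K.F), K.IsMap M.toInc →
  WallFin K M.toPolyMap → ∀ φ : K.V → ℂ, WallPhi K M.toPolyMap φ → BlkConcl M.toInc φ

/-! ## W6: local finiteness of the polygons -/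

/-- W6 (`WLoc`). -/
def Stmt_WallLoc : Prop := ∀ (K : DiscTiling) (M : PlaneMap K.V K.E K.F), K.IsMap M.toInc →
  TopoFacts K → WallFin K M.toPolyMap → ∀ φ : K.V → ℂ, WallPhi K M.toPolyMap φ →
  ∀ (w : ℂ) (r : ℝ), {f | (poly M.toInc φ f ∩ closedBall w r).Nonempty}.Finite

/-! ## W7: faces and edges of a map satisfying the conclusions of the block theorem -/

/-- W7 (`WOpp`), from `Stmt_FaceCycle`, `Stmt_FaceStrict`: at every face the drawing is fine and the
two faces of an edge are on opposite sides. -/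
def Stmt_OppOf : Prop := ∀ (V E F : Type) (M : PolyMap V E F) (φ : V → ℂ),
  BlkConcl M.toInc φ → (∀ f, FaceOK M.toInc φ f) ∧
  (∀ e f g, f ≠ g → M.ef e f → M.ef e g → Opp M.toInc φ e f g)

/-! ## W8: dual bond lemma -/

/-- W8 (`WDual`), from `Stmt_Bond`: the edges between two complementary connected sets of vertices,
and the faces between them, form one closed curve or line. -/
def Stmt_DualBond : Prop := ∀ (V E F : Type) (M : PlaneMap V E F) (A : Set V), A.Nonempty →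
  Aᶜ.Nonempty → ConnIn M.vadj A → ConnIn M.vadj Aᶜ →
  ∃ n x y, IsCurve M.toInc.dual (fr M.toInc.dual A) n x y

/-! ## W9: the faces crossed by a generic line -/

/-- W9 (`WCross`), from `Stmt_PolyGeom`, `Stmt_FaceCycle`: the intersection of a generic line with a
face. The line `dir w = c` contains no vertex. A face `f` whose edges crossing the line are exactly
the two different edges `e` and `e'` meets the line in the segment between the crossing points. -/
def Stmt_Cross : Prop := ∀ (V E F : Type) (M : PolyMap V E F) (φ : V → ℂ),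
  BlkConcl M.toInc φ → ∀ (w : ℂ) (c : ℝ), w ≠ 0 → (∀ v, dir w (φ v) ≠ c) →
  (∀ f, (∀ e, M.ef e f → e ∉ fr M.toInc.dual {v | c < dir w (φ v)}) →
    poly M.toInc φ f ∩ {z | dir w z = c} = ∅) ∧
  (∀ e ∈ fr M.toInc.dual {v | c < dir w (φ v)}, ∃ z, z ∈ seg M.toInc φ e ∧ dir w z = c ∧
    ∀ z' ∈ seg M.toInc φ e, dir w z' = c → z' = z) ∧
  (∀ f e e', e ≠ e' → (∀ d, (M.ef d f ∧ d ∈ fr M.toInc.dual {v | c < dir w (φ v)}) ↔
      (d = e ∨ d = e')) →
    ∀ z z', z ∈ seg M.toInc φ e → dir w z = c → z' ∈ seg M.toInc φ e' → dir w z' = c →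
      z ≠ z' ∧ poly M.toInc φ f ∩ {z | dir w z = c} = segment ℝ z z' ∧
      (∀ t ∈ openSegment ℝ z z', t ∈ interior (poly M.toInc φ f)))

/-! ## W10: a reference point -/

/-- W10 (`WRef`), from W8, W9 (and the opposite sides in `BlkConcl`). -/
def Stmt_RefPoint : Prop := ∀ (V E F : Type) [Countable V] [Nonempty V] (M : PlaneMap V E F)
  (φ : V → ℂ), BlkConcl M.toInc φ →
  (∀ w : ℂ, w ≠ 0 → ∀ c : ℝ, ConnIn M.vadj {v | c < dir w (φ v)}) →
  (∀ w : ℂ, w ≠ 0 → ∀ c : ℝ, ∃ v, c < dir w (φ v)) →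
  ∃ (w₀ : ℂ) (f₀ : F), w₀ ∈ interior (poly M.toInc φ f₀) ∧ ∀ f, f ≠ f₀ → w₀ ∉ poly M.toInc φ f

/-! ## W11: assembly -/

/-- W11 (`WMain`). -/
def Stmt_DrawWall : Prop := ∀ (K : DiscTiling) (M : PlaneMap K.V K.E K.F), K.IsMap M.toInc →
  TopoFacts K → WallNF K → ∃ φ : K.V → ℂ, IsDrawing M.toInc φ ∧ EquivDrawing K φ

end Pool.Agent.CT
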